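import Pool.Agent.W_bb4b37_h53.BeltramiG

/-!
# Periodic perturbations of the identity with positive Jacobian are diffeomorphisms (part A)
-/

set_option autoImplicit false

open Filter Topology Set MeasureTheory Metric
open scoped ContDiff

namespace Pool.Agent.KK

theorem DiffeoA_local {G : ℂ → ℂ} (hG : ContDiff ℝ ∞ G) (hdet : ∀ x, (fderiv ℝ G x).det ≠ 0) :
    IsLocalHomeomorph G := by
  intro x
  have h1 : ContDiffAt ℝ ∞ G x := hG.contDiffAt
  have h2 : HasFDerivAt G
      (((fderiv ℝ G x).toContinuousLinearEquivOfDetNeZero (hdet x) : ℂ ≃L[ℝ] ℂ) : ℂ →L[ℝ] ℂ)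
      x := by
    rw [ContinuousLinearMap.coe_toContinuousLinearEquivOfDetNeZero]
    exact (hG.differentiable (by simp) x).hasFDerivAt
  exact ⟨h1.toOpenPartialHomeomorph G h2 (by simp),
    h1.mem_toOpenPartialHomeomorph_source h2 (by simp), rfl⟩

/-- A proper local homeomorphism of the plane is a covering map. -/
theorem DiffeoA_covering {G : ℂ → ℂ} (hl : IsLocalHomeomorph G) (hp : IsProperMap G) :
    IsCoveringMap G := by
  rw [isCoveringMap_iff_isCoveringMapOn_univ]
  apply IsClosedMap.isCoveringMapOn_of_isLocalHomeomorphOn hp.isClosedMap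
  · intro x _
    have hc : IsCompact (G ⁻¹' {x}) := hp.isCompact_preimage isCompact_singleton
    have hd : IsDiscrete (G ⁻¹' {x}) := by
      apply IsDiscrete.of_openPartialHomeomorph G subset_rfl
      intro e _
      obtain ⟨ψ, hψ, hψ'⟩ := hl e
      exact ⟨ψ, hψ, hψ'.symm⟩
    exact hc.finite hd
  · simpa using (isLocalHomeomorph_iff_isLocalHomeomorphOn_univ).mp hl

/-- A covering map of the plane onto the plane is bijective. -/
theorem DiffeoA_bijective {G : ℂ → ℂ} (hc : IsCoveringMap G) : Function.Bijective G := by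
  obtain ⟨s, ⟨hs0, hs⟩, -⟩ := hc.existsUnique_continuousMap_lifts
    (ContinuousMap.id ℂ) (G 0) 0 rfl
  have hs' : ∀ y, G (s y) = y := fun y => congrFun hs y
  let Gc : C(ℂ, ℂ) := ⟨G, hc.continuous⟩
  obtain ⟨F, -, hF⟩ := hc.existsUnique_continuousMap_lifts Gc 0 0 rfl
  have h1 : (ContinuousMap.id ℂ) = F := hF _ ⟨rfl, rfl⟩
  have h2 : s.comp Gc = F := by
    apply hF
    refine ⟨hs0, ?_⟩
    funext y
    exact hs' (G y)
  have h3 : ∀ x, s (G x) = x := by
    intro x
    have : (s.comp Gc) x = (ContinuousMap.id ℂ) x := by rw [h1, h2]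
    exact this
  exact ⟨Function.LeftInverse.injective h3, Function.RightInverse.surjective hs'⟩

theorem DiffeoA_proper {β : ℂ} {φ : ℂ → ℂ} (hβ : ‖β‖ < 1) (hφ : Continuous φ) {B : ℝ}
    (hB : ∀ x, ‖φ x‖ ≤ B) : IsProperMap (normalForm β φ) := by
  rw [isProperMap_iff_tendsto_cocompact]
  refine ⟨?_, ?_⟩
  · unfold normalForm
    exact (continuous_id.add (continuous_const.mul Complex.continuous_conj)).add hφ
  · rw [← Metric.cobounded_eq_cocompact, ← tendsto_norm_atTop_iff_cobounded]
    have h1 : ∀ x : ℂ, (1 - ‖β‖) * ‖x‖ - B ≤ ‖normalForm β φ x‖ := by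
      intro x
      unfold normalForm
      have e1 : ‖x‖ ≤ ‖x + β * (starRingEnd ℂ) x + φ x‖ + ‖β * (starRingEnd ℂ) x‖ + ‖φ x‖ := by
        calc ‖x‖ = ‖(x + β * (starRingEnd ℂ) x + φ x) - β * (starRingEnd ℂ) x - φ x‖ := by
              congr 1; ring
          _ ≤ ‖(x + β * (starRingEnd ℂ) x + φ x) - β * (starRingEnd ℂ) x‖ + ‖φ x‖ :=
              norm_sub_le _ _
          _ ≤ _ := add_le_add (norm_sub_le _ _) le_rfl
      have e2 : ‖β * (starRingEnd ℂ) x‖ = ‖β‖ * ‖x‖ := by
        rw [norm_mul, RCLike.norm_conj]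
      rw [e2] at e1
      have e3 := hB x
      linarith
    refine tendsto_atTop_mono h1 ?_
    apply tendsto_atTop_add_const_right
    exact Tendsto.const_mul_atTop (by linarith) tendsto_norm_cobounded_atTop

/-- Proof: `G` is a local homeomorphism (inverse function theorem) and proper (`|G x| → ∞` since
`|β| < 1` and `φ` is bounded), so it is a closed map with finite fibres, hence a covering map
(`IsClosedMap.isEvenlyCovered_of_openPartialHomeomorph`); a covering of the simply connected space
`ℂ` by a connected space is injective (`IsCoveringMap.liftPath...`,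
`IsCoveringMap.liftPath_apply_one_eq_of_homotopicRel`) and surjective (open and closed image). -/
theorem bijective_normalForm {β : ℂ} {φ : ℂ → ℂ} (hβ : ‖β‖ < 1) (hφ : ContDiff ℝ ∞ φ)
    (hφp : Per 0 φ) (hdet : ∀ x, 0 < (fderiv ℝ (normalForm β φ) x).det) :
    Function.Bijective (normalForm β φ) := by
  obtain ⟨B, hB⟩ := per_bounded (by norm_num) hφp hφ.continuous
  have hG : ContDiff ℝ ∞ (normalForm β φ) := by
    unfold normalForm
    have h1 : ContDiff ℝ ∞ (fun x : ℂ => (starRingEnd ℂ) x) :=
      Complex.conjCLE.contDiff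
    exact (contDiff_id.add (contDiff_const.mul h1)).add hφ
  exact DiffeoA_bijective (DiffeoA_covering (DiffeoA_local hG fun x => (hdet x).ne')
    (DiffeoA_proper hβ hφ.continuous hB))

end Pool.Agent.KK
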