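import Pool.Agent.W_bb4b37_h53.CalcC

/-!
# Periodic perturbations of the identity with positive Jacobian are diffeomorphisms (part B)
-/

set_option autoImplicit false

open Filter Topology Set MeasureTheory Metric
open scoped ContDiff

namespace Pool.Agent.KK

/-- The inverse of a smooth bijection with invertible derivative is smooth. -/
theorem contDiff_inverse {f g : ℂ → ℂ} (hf : ContDiff ℝ ∞ f)
    (hdet : ∀ x, (fderiv ℝ f x).det ≠ 0) (hfg : ∀ x, g (f x) = x) (hgf : ∀ x, f (g x) = x) :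
    ContDiff ℝ ∞ g := by
  rw [contDiff_iff_contDiffAt]
  intro y
  have hfa : ContDiffAt ℝ ∞ f (g y) := hf.contDiffAt
  have hd : HasFDerivAt f (((fderiv ℝ f (g y)).toContinuousLinearEquivOfDetNeZero (hdet (g y)) :
      ℂ ≃L[ℝ] ℂ) : ℂ →L[ℝ] ℂ) (g y) := by
    rw [ContinuousLinearMap.coe_toContinuousLinearEquivOfDetNeZero]
    exact (hf.differentiable (by simp) (g y)).hasFDerivAt
  have h1 := hfa.to_localInverse hd (by simp)
  have h2 := (hfa.hasStrictFDerivAt' hd (by simp)).eventually_right_inverse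
  rw [hgf] at h1 h2
  refine h1.congr_of_eventuallyEq ?_
  filter_upwards [h2] with z hz
  have h3 := hfg (hfa.localInverse hd (by simp) z)
  have h4 : f (hfa.localInverse hd (by simp) z) = z := hz
  rw [h4] at h3
  exact h3

/-- The derivative of the inverse: `Dz g (f x) = conj (Dz f x) / J`, `Dzb g (f x) = - Dzb f x / J`
with `J = |Dz f|² - |Dzb f|²`. -/
theorem Dz_inverse {f g : ℂ → ℂ} {x : ℂ} (hf : DifferentiableAt ℝ f x)
    (hg : DifferentiableAt ℝ g (f x)) (hdet : (fderiv ℝ f x).det ≠ 0)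
    (hfg : ∀ᶠ y in 𝓝 x, g (f y) = y) :
    Dz g (f x) = (starRingEnd ℂ) (Dz f x) / ((‖Dz f x‖ ^ 2 - ‖Dzb f x‖ ^ 2 : ℝ) : ℂ) ∧
    Dzb g (f x) = - Dzb f x / ((‖Dz f x‖ ^ 2 - ‖Dzb f x‖ ^ 2 : ℝ) : ℂ) := by
  rw [det_fderiv] at hdet
  have hJ : ((‖Dz f x‖ ^ 2 - ‖Dzb f x‖ ^ 2 : ℝ) : ℂ) ≠ 0 := Complex.ofReal_ne_zero.2 hdet
  have e1 := Dz_comp hg hf
  have e2 := Dzb_comp hg hf
  have hid : HasDerivAt (fun y : ℂ => y) 1 x := hasDerivAt_id x
  have hc : (fun y => g (f y)) =ᶠ[𝓝 x] fun y => y := hfg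
  have k1 : Dz (fun y => g (f y)) x = 1 := by
    have h : Dz (fun y => g (f y)) x = Dz (fun y : ℂ => y) x := by
      unfold Dz
      rw [Dx_congr hc, Dy_congr hc]
    rw [h, (Dz_of_hasDerivAt hid).1]
  have k2 : Dzb (fun y => g (f y)) x = 0 := by
    have h : Dzb (fun y => g (f y)) x = Dzb (fun y : ℂ => y) x := by
      unfold Dzb
      rw [Dx_congr hc, Dy_congr hc]
    rw [h, (Dz_of_hasDerivAt hid).2]
  rw [k1] at e1
  rw [k2] at e2
  have na : ((‖Dz f x‖ ^ 2 : ℝ) : ℂ) = Dz f x * (starRingEnd ℂ) (Dz f x) := by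
    rw [Complex.mul_conj, Complex.normSq_eq_norm_sq]
  have nb : ((‖Dzb f x‖ ^ 2 : ℝ) : ℂ) = Dzb f x * (starRingEnd ℂ) (Dzb f x) := by
    rw [Complex.mul_conj, Complex.normSq_eq_norm_sq]
  constructor
  · rw [eq_div_iff hJ, Complex.ofReal_sub, na, nb]
    linear_combination -(starRingEnd ℂ) (Dz f x) * e1 + (starRingEnd ℂ) (Dzb f x) * e2
  · rw [eq_div_iff hJ, Complex.ofReal_sub, na, nb]
    linear_combination (Dzb f x) * e1 - (Dz f x) * e2

end Pool.Agent.KK
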