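import Pool.Agent.W_bb4b37_h53.BeltramiG

/-!
# The Beltrami equation with smooth periodic coefficient

The period lattice is `Lat 0 = ℤ + ℤ i`, the unit cell is `cell`.
-/
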