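import Pool.Agent.W_bb4b37_h53.CalcA

/-!
# Elementary calculus of `Dx`, `Dy`, `DD`, `Dz`, `Dzb` (part D)
-/

set_option autoImplicit false

open Filter Topology Set MeasureTheory
open scoped ContDiff

namespace Pool.Agent.KK

variable {V : Type*} [NormedAddCommGroup V] [NormedSpace ℝ V]

theorem CalcD_fderiv {a : ℝ} {f : ℂ → V} (hf : Per a f) (z : ℂ) {v : ℂ} (hv : v ∈ Lat a) :
    fderiv ℝ f (z + v) = fderiv ℝ f z := by
  rw [← fderiv_comp_add_right]
  congr 1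
  funext y
  exact hf y v hv

/-- Periodic functions. -/
theorem per_Dx {a : ℝ} {f : ℂ → V} (hf : Per a f) : Per a (Dx f) := by
  intro z v hv
  unfold Dx
  rw [CalcD_fderiv hf z hv]

theorem per_Dy {a : ℝ} {f : ℂ → V} (hf : Per a f) : Per a (Dy f) := by
  intro z v hv
  unfold Dy
  rw [CalcD_fderiv hf z hv]

theorem per_DD {a : ℝ} {f : ℂ → V} (hf : Per a f) (l : List Bool) : Per a (DD l f) := by
  induction l with
  | nil => exact hf
  | cons b l ih =>
    cases b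
    · exact per_Dy ih
    · exact per_Dx ih

theorem per_Lap {a : ℝ} {f : ℂ → V} (hf : Per a f) : Per a (Lap f) := by
  intro z v hv
  unfold Lap
  rw [per_Dx (per_Dx hf) z v hv, per_Dy (per_Dy hf) z v hv]

/-- Every point is equivalent to a point of norm at most `2` modulo the lattice. -/
theorem exists_lat_near {a : ℝ} (ha : |a| < 1) (z : ℂ) : ∃ v ∈ Lat a, ‖z - v‖ ≤ 2 := by
  obtain ⟨h1, h2⟩ := abs_lt.1 ha
  have hp : 0 < 1 + a := by linarith
  have hm : 0 < 1 - a := by linarith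
  set m : ℤ := round (z.re / (1 + a)) with hmdef
  set n : ℤ := round (z.im / (1 - a)) with hndef
  refine ⟨(m : ℂ) * (1 + (a : ℂ)) + (n : ℂ) * ((1 - (a : ℂ)) * Complex.I), ⟨m, n, rfl⟩, ?_⟩
  have hre : (z - ((m : ℂ) * (1 + (a : ℂ)) + (n : ℂ) * ((1 - (a : ℂ)) * Complex.I))).re =
      (z.re / (1 + a) - m) * (1 + a) := by
    have : (z.re / (1 + a) - m) * (1 + a) = z.re - m * (1 + a) := by
      field_simp
    rw [this]
    simp
  have him : (z - ((m : ℂ) * (1 + (a : ℂ)) + (n : ℂ) * ((1 - (a : ℂ)) * Complex.I))).im =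
      (z.im / (1 - a) - n) * (1 - a) := by
    have : (z.im / (1 - a) - n) * (1 - a) = z.im - n * (1 - a) := by
      field_simp
    rw [this]
    simp
  refine (Complex.norm_le_abs_re_add_abs_im _).trans ?_
  rw [hre, him, abs_mul, abs_mul, abs_of_pos hp, abs_of_pos hm]
  have e1 := abs_sub_round (z.re / (1 + a))
  have e2 := abs_sub_round (z.im / (1 - a))
  have e3 : |z.re / (1 + a) - m| * (1 + a) ≤ 1 / 2 * (1 + a) :=
    mul_le_mul_of_nonneg_right e1 hp.le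
  have e4 : |z.im / (1 - a) - n| * (1 - a) ≤ 1 / 2 * (1 - a) :=
    mul_le_mul_of_nonneg_right e2 hm.le
  linarith

theorem CalcD_near {W : Type*} {a : ℝ} (ha : |a| < 1) {f : ℂ → W} (hf : Per a f) (z : ℂ) :
    ∃ y ∈ Metric.closedBall (0 : ℂ) 2, f z = f y := by
  obtain ⟨v, hv, hz⟩ := exists_lat_near ha z
  refine ⟨z - v, by rwa [mem_closedBall_zero_iff], ?_⟩
  have h := hf (z - v) v hv
  rwa [sub_add_cancel] at h

/-- A continuous periodic function is bounded. -/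
theorem per_bounded {a : ℝ} (ha : |a| < 1) {f : ℂ → V} (hf : Per a f) (hc : Continuous f) :
    ∃ B : ℝ, ∀ z, ‖f z‖ ≤ B := by
  obtain ⟨B, hB⟩ := (isCompact_closedBall (0 : ℂ) 2).exists_bound_of_continuousOn hc.continuousOn
  refine ⟨B, fun z => ?_⟩
  obtain ⟨y, hy, hzy⟩ := CalcD_near ha hf z
  rw [hzy]
  exact hB y hy

/-- A continuous periodic real function attains its maximum. -/
theorem per_exists_max {a : ℝ} (ha : |a| < 1) {f : ℂ → ℝ} (hf : Per a f) (hc : Continuous f) :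
    ∃ z₀, ∀ z, f z ≤ f z₀ := by
  obtain ⟨z₀, _, hz₀⟩ := (isCompact_closedBall (0 : ℂ) 2).exists_isMaxOn
    ⟨0, Metric.mem_closedBall_self (by norm_num)⟩ hc.continuousOn
  refine ⟨z₀, fun z => ?_⟩
  obtain ⟨y, hy, hzy⟩ := CalcD_near ha hf z
  rw [hzy]
  exact hz₀ hy

theorem CalcD_bcinf_apply {f : ℂ → V} (hf : BCinf f) (v : ℂ) :
    BCinf (fun z => fderiv ℝ f z v) := by
  have hs : ContDiff ℝ ∞ (fderiv ℝ f) := hf.1.fderiv_right (by simp)
  let L : (ℂ →L[ℝ] V) →L[ℝ] V := ContinuousLinearMap.apply ℝ V v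
  have hL : (fun z => fderiv ℝ f z v) = L ∘ fderiv ℝ f := rfl
  rw [hL]
  refine ⟨L.contDiff.comp hs, fun n => ?_⟩
  obtain ⟨B, hB⟩ := hf.2 (n + 1)
  refine ⟨‖L‖ * B, fun z => ?_⟩
  have h1 := L.norm_iteratedFDeriv_comp_left (f := fderiv ℝ f) (x := z) (n := n)
    (hs.contDiffAt) (by exact_mod_cast le_top)
  refine h1.trans (mul_le_mul_of_nonneg_left ?_ (norm_nonneg _))
  rw [norm_iteratedFDeriv_fderiv]
  exact hB z

theorem bcinf_DD {f : ℂ → V} (hf : BCinf f) (l : List Bool) : BCinf (DD l f) := by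
  induction l with
  | nil => exact hf
  | cons b l ih =>
    cases b
    · exact CalcD_bcinf_apply ih Complex.I
    · exact CalcD_bcinf_apply ih 1

theorem CalcD_bound (n : ℕ) : ∀ f : ℂ → V, ContDiff ℝ ∞ f →
    (∀ l : List Bool, ∃ B : ℝ, ∀ z, ‖DD l f z‖ ≤ B) →
    ∃ B : ℝ, ∀ z, ‖iteratedFDeriv ℝ n f z‖ ≤ B := by
  induction n with
  | zero =>
    intro f _ h
    obtain ⟨B, hB⟩ := h []
    refine ⟨B, fun z => ?_⟩
    rw [norm_iteratedFDeriv_zero]
    exact hB z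
  | succ n ih =>
    intro f hf h
    have hx : ContDiff ℝ ∞ (Dx f) := contDiff_DD hf [true]
    have hy : ContDiff ℝ ∞ (Dy f) := contDiff_DD hf [false]
    obtain ⟨B1, hB1⟩ := ih (Dx f) hx (fun l => by
      obtain ⟨B, hB⟩ := h (l ++ [true])
      refine ⟨B, fun z => ?_⟩
      have h1 := hB z
      rw [DD_append] at h1
      exact h1)
    obtain ⟨B2, hB2⟩ := ih (Dy f) hy (fun l => by
      obtain ⟨B, hB⟩ := h (l ++ [false])
      refine ⟨B, fun z => ?_⟩
      have h1 := hB z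
      rw [DD_append] at h1
      exact h1)
    let L1 : V →L[ℝ] (ℂ →L[ℝ] V) := ContinuousLinearMap.smulRightL ℝ ℂ V Complex.reCLM
    let L2 : V →L[ℝ] (ℂ →L[ℝ] V) := ContinuousLinearMap.smulRightL ℝ ℂ V Complex.imCLM
    have hfd : fderiv ℝ f = (L1 ∘ Dx f) + (L2 ∘ Dy f) := by
      funext z
      ext v
      rw [fderiv_eq f z v]
      rfl
    refine ⟨‖L1‖ * B1 + ‖L2‖ * B2, fun z => ?_⟩
    rw [← norm_iteratedFDeriv_fderiv, hfd]
    have c1 : ContDiff ℝ ∞ (L1 ∘ Dx f) := L1.contDiff.comp hx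
    have c2 : ContDiff ℝ ∞ (L2 ∘ Dy f) := L2.contDiff.comp hy
    have e1 := L1.norm_iteratedFDeriv_comp_left (f := Dx f) (x := z) (n := n)
      (hx.contDiffAt) (by exact_mod_cast le_top)
    have e2 := L2.norm_iteratedFDeriv_comp_left (f := Dy f) (x := z) (n := n)
      (hy.contDiffAt) (by exact_mod_cast le_top)
    have hadd : iteratedFDeriv ℝ n ((L1 ∘ Dx f) + (L2 ∘ Dy f)) z =
        iteratedFDeriv ℝ n (L1 ∘ Dx f) z + iteratedFDeriv ℝ n (L2 ∘ Dy f) z :=
      iteratedFDeriv_add_apply ((c1.of_le (by exact_mod_cast le_top)).contDiffAt)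
        ((c2.of_le (by exact_mod_cast le_top)).contDiffAt)
    rw [hadd]
    refine (norm_add_le _ _).trans (add_le_add ?_ ?_)
    · exact e1.trans (mul_le_mul_of_nonneg_left (hB1 z) (norm_nonneg _))
    · exact e2.trans (mul_le_mul_of_nonneg_left (hB2 z) (norm_nonneg _))

/-- Boundedness of all derivatives in terms of `DD`. -/
theorem BCinf_iff {f : ℂ → V} :
    BCinf f ↔ ContDiff ℝ ∞ f ∧ ∀ l : List Bool, ∃ B : ℝ, ∀ z, ‖DD l f z‖ ≤ B := by
  constructor
  · intro hf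
    refine ⟨hf.1, fun l => ?_⟩
    obtain ⟨B, hB⟩ := (bcinf_DD hf l).2 0
    refine ⟨B, fun z => ?_⟩
    have h1 := hB z
    rwa [norm_iteratedFDeriv_zero] at h1
  · rintro ⟨hf, h⟩
    exact ⟨hf, fun n => CalcD_bound n f hf h⟩

theorem per_BCinf {a : ℝ} (ha : |a| < 1) {f : ℂ → V} (hf : Per a f) (hs : ContDiff ℝ ∞ f) :
    BCinf f := by
  rw [BCinf_iff]
  exact ⟨hs, fun l => per_bounded ha (per_DD hf l) (contDiff_DD hs l).continuous⟩

end Pool.Agent.KK
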