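import Pool.Agent.W_bb4b37_h53.CalcC
import Pool.Agent.W_bb4b37_h53.CalcD

/-!
# The Beltrami equation with smooth periodic coefficient

The period lattice is `Lat 0 = ℤ + ℤ i`, the unit cell is `cell`.
-/

set_option autoImplicit false

open Filter Topology Set MeasureTheory Metric
open scoped ContDiff

namespace Pool.Agent.KK

/-- The half-open unit cell. -/
def cell : Set ℂ := {z | z.re ∈ Ico (0 : ℝ) 1 ∧ z.im ∈ Ico (0 : ℝ) 1}

theorem measurableSet_cell : MeasurableSet cell :=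
  (Complex.measurable_re measurableSet_Ico).inter (Complex.measurable_im measurableSet_Ico)

theorem BeltramiA_cell_eq : cell = Complex.measurableEquivRealProd ⁻¹'
    (Ico (0 : ℝ) 1 ×ˢ Ico (0 : ℝ) 1) := rfl

theorem volume_cell : volume cell = 1 := by
  rw [BeltramiA_cell_eq, (Complex.volume_preserving_equiv_real_prod).measure_preimage
    (measurableSet_Ico.prod measurableSet_Ico).nullMeasurableSet, Measure.volume_eq_prod,
    Measure.prod_prod, Real.volume_Ico]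
  simp

theorem BeltramiA_int {E : Type*} [NormedAddCommGroup E] {f : ℂ → E} (hf : Continuous f) :
    IntegrableOn f cell := by
  refine (hf.continuousOn.integrableOn_compact (isCompact_closedBall (0 : ℂ) 2)).mono_set ?_
  intro z hz
  obtain ⟨⟨h1, h2⟩, ⟨h3, h4⟩⟩ := hz
  rw [mem_closedBall_zero_iff]
  refine le_trans (Complex.norm_le_abs_re_add_abs_im z) ?_
  rw [abs_of_nonneg h1, abs_of_nonneg h3]
  linarith

/-- The integral over the cell of a function of `z` in real coordinates. -/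
theorem integral_cell (f : ℂ → ℂ) (hf : Continuous f) :
    ∫ z in cell, f z = ∫ x in (0 : ℝ)..1, ∫ y in (0 : ℝ)..1, f ((x : ℂ) + (y : ℂ) * Complex.I) := by
  have h1 : ∫ z in cell, f z = ∫ p in Ico (0 : ℝ) 1 ×ˢ Ico (0 : ℝ) 1,
      f ((p.1 : ℂ) + (p.2 : ℂ) * Complex.I) := by
    have h := (Complex.volume_preserving_equiv_real_prod).setIntegral_preimage_emb
      (Complex.measurableEquivRealProd.measurableEmbedding)
      (fun p : ℝ × ℝ => f ((p.1 : ℂ) + (p.2 : ℂ) * Complex.I)) (Ico (0 : ℝ) 1 ×ˢ Ico (0 : ℝ) 1)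
    rw [← BeltramiA_cell_eq] at h
    rw [← h]
    refine setIntegral_congr_fun measurableSet_cell fun z _ => ?_
    show f z = f (((Complex.measurableEquivRealProd z).1 : ℂ) +
      ((Complex.measurableEquivRealProd z).2 : ℂ) * Complex.I)
    congr 1
    exact (Complex.re_add_im z).symm
  have hcont : Continuous (fun p : ℝ × ℝ => f ((p.1 : ℂ) + (p.2 : ℂ) * Complex.I)) := by
    fun_prop
  rw [h1, Measure.volume_eq_prod, setIntegral_prod]
  · rw [intervalIntegral.integral_of_le zero_le_one, integral_Ico_eq_integral_Ioc]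
    refine setIntegral_congr_fun measurableSet_Ioc fun x _ => ?_
    simp only
    rw [intervalIntegral.integral_of_le zero_le_one, integral_Ico_eq_integral_Ioc]
  · refine IntegrableOn.mono_set (t := Icc (0 : ℝ) 1 ×ˢ Icc (0 : ℝ) 1) ?_
      (prod_mono Ico_subset_Icc_self Ico_subset_Icc_self)
    exact hcont.continuousOn.integrableOn_compact (isCompact_Icc.prod isCompact_Icc)

theorem BeltramiA_swap (f : ℂ → ℂ) (hf : Continuous f) :
    ∫ z in cell, f z = ∫ y in (0 : ℝ)..1, ∫ x in (0 : ℝ)..1, f ((x : ℂ) + (y : ℂ) * Complex.I) := by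
  rw [integral_cell f hf]
  have hcont : Continuous (fun p : ℝ × ℝ => f ((p.1 : ℂ) + (p.2 : ℂ) * Complex.I)) := by
    fun_prop
  refine intervalIntegral_intervalIntegral_swap (F := fun x y => f ((x : ℂ) + (y : ℂ) * Complex.I)) ?_
  have : IntegrableOn (fun p : ℝ × ℝ => f ((p.1 : ℂ) + (p.2 : ℂ) * Complex.I))
      (uIcc (0 : ℝ) 1 ×ˢ uIcc (0 : ℝ) 1) :=
    hcont.continuousOn.integrableOn_compact (isCompact_uIcc.prod isCompact_uIcc)
  exact this.mono_set (prod_mono uIoc_subset_uIcc uIoc_subset_uIcc)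

theorem BeltramiA_lat_one : (1 : ℂ) ∈ Lat 0 := ⟨1, 0, by simp⟩

theorem BeltramiA_lat_I : Complex.I ∈ Lat 0 := ⟨0, 1, by simp⟩

theorem BeltramiA_Dx {f : ℂ → ℂ} (hf : ContDiff ℝ 1 f) (hp : Per 0 f) :
    ∫ z in cell, Dx f z = 0 := by
  have hc : Continuous (Dx f) := (hf.continuous_fderiv (by norm_num)).clm_apply continuous_const
  have hd : Differentiable ℝ f := hf.differentiable (by norm_num)
  rw [BeltramiA_swap _ hc]
  have h0 : ∀ y : ℝ, ∫ x in (0 : ℝ)..1, Dx f ((x : ℂ) + (y : ℂ) * Complex.I) = 0 := by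
    intro y
    have hder : ∀ x ∈ uIcc (0 : ℝ) 1, HasDerivAt (fun x : ℝ => f ((x : ℂ) + (y : ℂ) * Complex.I))
        (Dx f ((x : ℂ) + (y : ℂ) * Complex.I)) x := by
      intro x _
      have h1 : HasDerivAt (fun x : ℝ => (x : ℂ) + (y : ℂ) * Complex.I) 1 x :=
        (Complex.ofRealCLM.hasDerivAt).add_const _
      exact (hd _).hasFDerivAt.comp_hasDerivAt x h1
    rw [intervalIntegral.integral_eq_sub_of_hasDerivAt hder]
    · have h2 := hp ((y : ℂ) * Complex.I) 1 BeltramiA_lat_one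
      have e1 : ((1 : ℝ) : ℂ) + (y : ℂ) * Complex.I = (y : ℂ) * Complex.I + 1 := by
        push_cast; ring
      have e2 : ((0 : ℝ) : ℂ) + (y : ℂ) * Complex.I = (y : ℂ) * Complex.I := by
        push_cast; ring
      rw [e1, e2, h2, sub_self]
    · refine Continuous.intervalIntegrable ?_ _ _
      exact hc.comp (by fun_prop)
  simp only [h0, intervalIntegral.integral_zero]

theorem BeltramiA_Dy {f : ℂ → ℂ} (hf : ContDiff ℝ 1 f) (hp : Per 0 f) :
    ∫ z in cell, Dy f z = 0 := by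
  have hc : Continuous (Dy f) := (hf.continuous_fderiv (by norm_num)).clm_apply continuous_const
  have hd : Differentiable ℝ f := hf.differentiable (by norm_num)
  rw [integral_cell _ hc]
  have h0 : ∀ x : ℝ, ∫ y in (0 : ℝ)..1, Dy f ((x : ℂ) + (y : ℂ) * Complex.I) = 0 := by
    intro x
    have hder : ∀ y ∈ uIcc (0 : ℝ) 1, HasDerivAt (fun y : ℝ => f ((x : ℂ) + (y : ℂ) * Complex.I))
        (Dy f ((x : ℂ) + (y : ℂ) * Complex.I)) y := by
      intro y _
      have h1 : HasDerivAt (fun y : ℝ => (x : ℂ) + (y : ℂ) * Complex.I) Complex.I y := by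
        have h2 := ((Complex.ofRealCLM.hasDerivAt (x := y)).mul_const Complex.I).const_add (x : ℂ)
        simpa using h2
      exact (hd _).hasFDerivAt.comp_hasDerivAt y h1
    rw [intervalIntegral.integral_eq_sub_of_hasDerivAt hder]
    · have h2 := hp (x : ℂ) Complex.I BeltramiA_lat_I
      have e1 : (x : ℂ) + ((1 : ℝ) : ℂ) * Complex.I = (x : ℂ) + Complex.I := by
        push_cast; ring
      have e2 : (x : ℂ) + ((0 : ℝ) : ℂ) * Complex.I = (x : ℂ) := by
        push_cast; ring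
      rw [e1, e2, h2, sub_self]
    · refine Continuous.intervalIntegrable ?_ _ _
      exact hc.comp (by fun_prop)
  simp only [h0, intervalIntegral.integral_zero]

/-- The integral of a derivative of a periodic function over the cell is zero. -/
theorem integral_Dz_cell {f : ℂ → ℂ} (hf : ContDiff ℝ 1 f) (hp : Per 0 f) :
    ∫ z in cell, Dz f z = 0 ∧ ∫ z in cell, Dzb f z = 0 := by
  have hcx : Continuous (Dx f) := (hf.continuous_fderiv (by norm_num)).clm_apply continuous_const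
  have hcy : Continuous (Dy f) := (hf.continuous_fderiv (by norm_num)).clm_apply continuous_const
  have hx := BeltramiA_Dx hf hp
  have hy := BeltramiA_Dy hf hp
  have i1 := BeltramiA_int hcx
  have i2 : IntegrableOn (fun z => Complex.I * Dy f z) cell :=
    BeltramiA_int (continuous_const.mul hcy)
  constructor
  · have e : ∫ z in cell, Dz f z = (∫ z in cell, (Dx f z - Complex.I * Dy f z)) / 2 := by
      rw [← integral_div]
      rfl
    rw [e, integral_sub i1 i2, integral_const_mul, hx, hy]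
    simp
  · have e : ∫ z in cell, Dzb f z = (∫ z in cell, (Dx f z + Complex.I * Dy f z)) / 2 := by
      rw [← integral_div]
      rfl
    rw [e, integral_add i1 i2, integral_const_mul, hx, hy]
    simp

theorem BeltramiA_smooth_Dz {f : ℂ → ℂ} (hf : ContDiff ℝ ∞ f) : ContDiff ℝ ∞ (Dz f) := by
  have h1 : ContDiff ℝ ∞ (Dx f) := contDiff_Dx hf (by simp)
  have h2 : ContDiff ℝ ∞ (Dy f) := contDiff_Dy hf (by simp)
  exact (h1.sub (contDiff_const.mul h2)).div_const 2

theorem BeltramiA_smooth_Dzb {f : ℂ → ℂ} (hf : ContDiff ℝ ∞ f) : ContDiff ℝ ∞ (Dzb f) := by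
  have h1 : ContDiff ℝ ∞ (Dx f) := contDiff_Dx hf (by simp)
  have h2 : ContDiff ℝ ∞ (Dy f) := contDiff_Dy hf (by simp)
  exact (h1.add (contDiff_const.mul h2)).div_const 2

theorem BeltramiA_per_Dz {f : ℂ → ℂ} {a : ℝ} (hp : Per a f) : Per a (Dz f) := by
  intro z v hv
  unfold Dz
  rw [per_Dx hp z v hv, per_Dy hp z v hv]

theorem BeltramiA_per_Dzb {f : ℂ → ℂ} {a : ℝ} (hp : Per a f) : Per a (Dzb f) := by
  intro z v hv
  unfold Dzb
  rw [per_Dx hp z v hv, per_Dy hp z v hv]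

theorem BeltramiA_smooth_conj {f : ℂ → ℂ} (hf : ContDiff ℝ ∞ f) :
    ContDiff ℝ ∞ (fun z => (starRingEnd ℂ) (f z)) :=
  Complex.conjCLE.contDiff.comp hf

/-- `∫ |∂f|² = ∫ |∂̄f|²` for periodic `f`: `∂f conj(∂f) - ∂̄f conj(∂̄f) =
∂(f conj(∂f)) - ∂̄(f conj(∂̄f))` (as `∂ conj(∂f) = conj(∂̄∂f)` and `∂̄ conj(∂̄f) = conj(∂∂̄f)`),
then `integral_Dz_cell`. -/
theorem l2_identity {f : ℂ → ℂ} (hf : ContDiff ℝ ∞ f) (hp : Per 0 f) :
    ∫ z in cell, ‖Dz f z‖ ^ 2 = ∫ z in cell, ‖Dzb f z‖ ^ 2 := by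
  have s1 := BeltramiA_smooth_Dz hf
  have s2 := BeltramiA_smooth_Dzb hf
  have c1 := BeltramiA_smooth_conj s1
  have c2 := BeltramiA_smooth_conj s2
  set F : ℂ → ℂ := fun z => f z * (starRingEnd ℂ) (Dz f z) with hF
  set G : ℂ → ℂ := fun z => f z * (starRingEnd ℂ) (Dzb f z) with hG
  have hFs : ContDiff ℝ ∞ F := hf.mul c1
  have hGs : ContDiff ℝ ∞ G := hf.mul c2
  have hFp : Per 0 F := by
    intro z v hv
    simp only [hF]
    rw [hp z v hv, BeltramiA_per_Dz hp z v hv]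
  have hGp : Per 0 G := by
    intro z v hv
    simp only [hG]
    rw [hp z v hv, BeltramiA_per_Dzb hp z v hv]
  have hone : (1 : WithTop ℕ∞) ≤ ∞ := by norm_cast
  have hdf : Differentiable ℝ f := hf.differentiable (by simp)
  have hd1 : Differentiable ℝ (fun z => (starRingEnd ℂ) (Dz f z)) := c1.differentiable (by simp)
  have hd2 : Differentiable ℝ (fun z => (starRingEnd ℂ) (Dzb f z)) := c2.differentiable (by simp)
  have k1 := (integral_Dz_cell (hFs.of_le hone) hFp).1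
  have k2 := (integral_Dz_cell (hGs.of_le hone) hGp).2
  have hpt : ∀ z, ((‖Dz f z‖ ^ 2 : ℝ) : ℂ) - ((‖Dzb f z‖ ^ 2 : ℝ) : ℂ) = Dz F z - Dzb G z := by
    intro z
    have e1 : Dz F z = Dz f z * (starRingEnd ℂ) (Dz f z) +
        f z * (starRingEnd ℂ) (Dzb (Dz f) z) := by
      rw [hF, Dz_mul (hdf z) (hd1 z), Dz_conj]
    have e2 : Dzb G z = Dzb f z * (starRingEnd ℂ) (Dzb f z) +
        f z * (starRingEnd ℂ) (Dz (Dzb f) z) := by
      rw [hG, Dzb_mul (hdf z) (hd2 z), Dzb_conj]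
    have e3 : Dz (Dzb f) z = Dzb (Dz f) z := Dz_Dzb_comm (hf.contDiffAt.of_le (by
      norm_cast))
    rw [e1, e2, e3, Complex.mul_conj, Complex.mul_conj, Complex.normSq_eq_norm_sq,
      Complex.normSq_eq_norm_sq]
    ring
  have hI1 : IntegrableOn (Dz F) cell :=
    BeltramiA_int (BeltramiA_smooth_Dz hFs).continuous
  have hI2 : IntegrableOn (Dzb G) cell :=
    BeltramiA_int (BeltramiA_smooth_Dzb hGs).continuous
  have hI3 : IntegrableOn (fun z => ((‖Dz f z‖ ^ 2 : ℝ) : ℂ)) cell :=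
    BeltramiA_int (Complex.continuous_ofReal.comp (s1.continuous.norm.pow 2))
  have hI4 : IntegrableOn (fun z => ((‖Dzb f z‖ ^ 2 : ℝ) : ℂ)) cell :=
    BeltramiA_int (Complex.continuous_ofReal.comp (s2.continuous.norm.pow 2))
  have h1 : (∫ z in cell, ((‖Dz f z‖ ^ 2 : ℝ) : ℂ)) - ∫ z in cell, ((‖Dzb f z‖ ^ 2 : ℝ) : ℂ) = 0 := by
    rw [← integral_sub hI3 hI4]
    simp_rw [hpt]
    rw [integral_sub hI1 hI2, k1, k2, sub_zero]
  have h2 : ∫ z in cell, ((‖Dz f z‖ ^ 2 : ℝ) : ℂ) = ((∫ z in cell, ‖Dz f z‖ ^ 2 : ℝ) : ℂ) :=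
    integral_ofReal
  have h3 : ∫ z in cell, ((‖Dzb f z‖ ^ 2 : ℝ) : ℂ) = ((∫ z in cell, ‖Dzb f z‖ ^ 2 : ℝ) : ℂ) :=
    integral_ofReal
  rw [h2, h3, sub_eq_zero] at h1
  exact Complex.ofReal_injective h1

/-- The `L²` estimate. Proof: `∂̄f = μ ∂f + h - τ` has mean zero, so it is the projection of
`μ ∂f + h` to the functions of mean zero and `‖∂f‖₂ = ‖∂̄f‖₂ ≤ ‖μ ∂f + h‖₂ ≤ k ‖∂f‖₂ + ‖h‖₂`. -/
theorem l2_est {μ f h : ℂ → ℂ} {k : ℝ} (hk0 : 0 ≤ k) (hk : k < 1) (hμ : Continuous μ)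
    (hμk : ∀ z, ‖μ z‖ ≤ k) (hf : ContDiff ℝ ∞ f) (hp : Per 0 f) (hh : Continuous h) {τ : ℂ}
    (he : ∀ z, Dzb f z = μ z * Dz f z + h z - τ) :
    (1 - k) ^ 2 * ∫ z in cell, ‖Dz f z‖ ^ 2 ≤ ∫ z in cell, ‖h z‖ ^ 2 := by
  have s1 := BeltramiA_smooth_Dz hf
  have s2 := BeltramiA_smooth_Dzb hf
  set g : ℂ → ℂ := fun z => μ z * Dz f z + h z with hg
  have hgc : Continuous g := (hμ.mul s1.continuous).add hh
  have hone : (1 : WithTop ℕ∞) ≤ ∞ := by norm_cast
  have hmean : ∫ z in cell, Dzb f z = 0 := (integral_Dz_cell (hf.of_le hone) hp).2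
  have hvol : volume.real cell = 1 := by
    rw [Measure.real, volume_cell]
    rfl
  have hgi := BeltramiA_int hgc
  have hgτ : ∫ z in cell, g z = τ := by
    have h1 : ∀ z, Dzb f z = g z - τ := fun z => he z
    simp_rw [h1] at hmean
    have hci : IntegrableOn (fun _ : ℂ => τ) cell := BeltramiA_int continuous_const
    rw [integral_sub hgi hci, setIntegral_const, hvol, one_smul, sub_eq_zero] at hmean
    exact hmean
  -- projection
  have hproj : ∫ z in cell, ‖Dzb f z‖ ^ 2 ≤ ∫ z in cell, ‖g z‖ ^ 2 := by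
    have e0 : ∀ z, ‖Dzb f z‖ ^ 2 = ‖g z‖ ^ 2 - 2 * (g z * (starRingEnd ℂ) τ).re + ‖τ‖ ^ 2 := by
      intro z
      rw [he z, ← Complex.normSq_eq_norm_sq, ← Complex.normSq_eq_norm_sq,
        ← Complex.normSq_eq_norm_sq, Complex.normSq_sub]
      simp only [hg]
      ring
    have i1 : IntegrableOn (fun z => ‖g z‖ ^ 2) cell := BeltramiA_int (hgc.norm.pow 2)
    have i2 : IntegrableOn (fun z => 2 * (g z * (starRingEnd ℂ) τ).re) cell :=
      BeltramiA_int (continuous_const.mul (Complex.continuous_re.comp (hgc.mul continuous_const)))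
    have i3 : IntegrableOn (fun _ : ℂ => ‖τ‖ ^ 2) cell := BeltramiA_int continuous_const
    have i4 : IntegrableOn (fun z => ‖g z‖ ^ 2 - 2 * (g z * (starRingEnd ℂ) τ).re) cell := i1.sub i2
    have e1 : ∫ z in cell, ‖Dzb f z‖ ^ 2 = (∫ z in cell, ‖g z‖ ^ 2) -
        (∫ z in cell, 2 * (g z * (starRingEnd ℂ) τ).re) + ∫ _ in cell, ‖τ‖ ^ 2 := by
      rw [← integral_sub i1 i2, ← integral_add i4 i3]
      exact integral_congr_ae (Eventually.of_forall fun z => e0 z)
    have e2 : ∫ z in cell, 2 * (g z * (starRingEnd ℂ) τ).re = 2 * ‖τ‖ ^ 2 := by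
      rw [integral_const_mul]
      have i5 : IntegrableOn (fun z => g z * (starRingEnd ℂ) τ) cell :=
        BeltramiA_int (hgc.mul continuous_const)
      have e3 : ∫ z in cell, (g z * (starRingEnd ℂ) τ).re =
          (∫ z in cell, g z * (starRingEnd ℂ) τ).re := by
        exact (Complex.reCLM.integral_comp_comm i5)
      rw [e3, integral_mul_const, hgτ, Complex.mul_conj, Complex.ofReal_re,
        Complex.normSq_eq_norm_sq]
    have e4 : ∫ _ in cell, ‖τ‖ ^ 2 = ‖τ‖ ^ 2 := by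
      rw [setIntegral_const, hvol, one_smul]
    rw [e1, e2, e4]
    have := sq_nonneg ‖τ‖
    linarith
  have hk1 : 0 < 1 - k := by linarith
  have hpt : ∀ z, ‖g z‖ ^ 2 ≤ k * ‖Dz f z‖ ^ 2 + (1 / (1 - k)) * ‖h z‖ ^ 2 := by
    intro z
    have h1 : ‖g z‖ ≤ k * ‖Dz f z‖ + ‖h z‖ := by
      refine le_trans (norm_add_le _ _) (add_le_add_left ?_ _)
      rw [norm_mul]
      exact mul_le_mul_of_nonneg_right (hμk z) (norm_nonneg _)
    have h2 : ‖g z‖ ^ 2 ≤ (k * ‖Dz f z‖ + ‖h z‖) ^ 2 := pow_le_pow_left₀ (norm_nonneg _) h1 2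
    refine le_trans h2 ?_
    have h3 : k * ‖Dz f z‖ ^ 2 + (1 / (1 - k)) * ‖h z‖ ^ 2 - (k * ‖Dz f z‖ + ‖h z‖) ^ 2 =
        k / (1 - k) * ((1 - k) * ‖Dz f z‖ - ‖h z‖) ^ 2 := by
      field_simp
      ring
    have h4 : 0 ≤ k / (1 - k) * ((1 - k) * ‖Dz f z‖ - ‖h z‖) ^ 2 := by positivity
    linarith
  have j1 : IntegrableOn (fun z => ‖Dz f z‖ ^ 2) cell := BeltramiA_int (s1.continuous.norm.pow 2)
  have j2 : IntegrableOn (fun z => ‖h z‖ ^ 2) cell := BeltramiA_int (hh.norm.pow 2)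
  have j3 : IntegrableOn (fun z => ‖g z‖ ^ 2) cell := BeltramiA_int (hgc.norm.pow 2)
  have hint : ∫ z in cell, ‖g z‖ ^ 2 ≤ k * (∫ z in cell, ‖Dz f z‖ ^ 2) +
      (1 / (1 - k)) * ∫ z in cell, ‖h z‖ ^ 2 := by
    rw [← integral_const_mul, ← integral_const_mul, ← integral_add (j1.const_mul k)
      (j2.const_mul (1 / (1 - k)))]
    exact setIntegral_mono j3 ((j1.const_mul k).add (j2.const_mul (1 / (1 - k)))) hpt
  have hl2 := l2_identity hf hp
  rw [hl2] at hint
  rw [hl2]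
  set A := ∫ z in cell, ‖Dzb f z‖ ^ 2 with hA
  set H := ∫ z in cell, ‖h z‖ ^ 2 with hH
  have h5 : (1 - k) * A ≤ (1 / (1 - k)) * H := by linarith
  have h6 := mul_le_mul_of_nonneg_left h5 hk1.le
  have h7 : (1 - k) * ((1 / (1 - k)) * H) = H := by field_simp
  rw [h7] at h6
  calc (1 - k) ^ 2 * A = (1 - k) * ((1 - k) * A) := by ring
    _ ≤ H := h6

theorem BeltramiA_zero {u : ℂ → ℂ} (hu : Continuous u) (hp : Per 0 u)
    (h0 : ∫ z in cell, ‖u z‖ ^ 2 = 0) : ∀ z, u z = 0 := by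
  by_contra hcon
  push Not at hcon
  obtain ⟨z0, hz0⟩ := hcon
  -- move to the cell
  set m : ℤ := ⌊z0.re⌋ with hm
  set n : ℤ := ⌊z0.im⌋ with hn
  set v : ℂ := -((m : ℂ) + (n : ℂ) * Complex.I) with hv
  have hvL : v ∈ Lat 0 := ⟨-m, -n, by push_cast; ring⟩
  set w : ℂ := z0 + v with hw
  have huw : u w ≠ 0 := by
    rw [hw, hp z0 v hvL]
    exact hz0
  have hwre : w.re = Int.fract z0.re := by
    rw [← Int.self_sub_floor, ← hm]
    simp [hw, hv]
    ring
  have hwim : w.im = Int.fract z0.im := by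
    rw [← Int.self_sub_floor, ← hn]
    simp [hw, hv]
    ring
  have hr0 := Int.fract_nonneg z0.re
  have hr1 := Int.fract_lt_one z0.re
  have hi0 := Int.fract_nonneg z0.im
  have hi1 := Int.fract_lt_one z0.im
  -- a nearby interior point
  have hcont : Tendsto (fun t : ℝ => u (w + (t : ℂ) * (1 + Complex.I))) (𝓝 0) (𝓝 (u w)) := by
    have : Continuous (fun t : ℝ => u (w + (t : ℂ) * (1 + Complex.I))) := by fun_prop
    have h := this.tendsto 0
    simpa using h
  have hev : ∀ᶠ t : ℝ in 𝓝 0, u (w + (t : ℂ) * (1 + Complex.I)) ≠ 0 :=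
    hcont.eventually_ne huw
  have hev2 : ∀ᶠ t : ℝ in 𝓝 0, t < 1 - w.re := by
    refine (isOpen_Iio).mem_nhds ?_
    show (0 : ℝ) < 1 - w.re
    rw [hwre]; linarith
  have hev3 : ∀ᶠ t : ℝ in 𝓝 0, t < 1 - w.im := by
    refine (isOpen_Iio).mem_nhds ?_
    show (0 : ℝ) < 1 - w.im
    rw [hwim]; linarith
  have hall := ((hev.and (hev2.and hev3)).filter_mono nhdsWithin_le_nhds).and
    (self_mem_nhdsWithin : Ioi (0 : ℝ) ∈ 𝓝[>] 0)
  obtain ⟨t, ⟨ht1, ht2, ht3⟩, ht4⟩ := hall.exists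
  have ht4' : 0 < t := ht4
  set U : Set ℂ := {z | u z ≠ 0} ∩ {z | z.re ∈ Ioo (0 : ℝ) 1 ∧ z.im ∈ Ioo (0 : ℝ) 1} with hU
  have hUo : IsOpen U := by
    refine (isOpen_ne.preimage hu).inter ?_
    exact (isOpen_Ioo.preimage Complex.continuous_re).inter
      (isOpen_Ioo.preimage Complex.continuous_im)
  have hUne : U.Nonempty := by
    refine ⟨w + (t : ℂ) * (1 + Complex.I), ht1, ?_, ?_⟩
    · have : (w + (t : ℂ) * (1 + Complex.I)).re = w.re + t := by simp
      rw [this]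
      refine ⟨?_, ?_⟩
      · rw [hwre]; linarith
      · linarith
    · have : (w + (t : ℂ) * (1 + Complex.I)).im = w.im + t := by simp
      rw [this]
      refine ⟨?_, ?_⟩
      · rw [hwim]; linarith
      · linarith
  have hUpos : 0 < volume U := hUo.measure_pos volume hUne
  have hae : (fun z => ‖u z‖ ^ 2) =ᵐ[volume.restrict cell] 0 := by
    refine (setIntegral_eq_zero_iff_of_nonneg_ae (Eventually.of_forall fun z => sq_nonneg ‖u z‖)
      (BeltramiA_int (hu.norm.pow 2))).1 h0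
  have hnull : volume U = 0 := by
    rw [EventuallyEq, ae_restrict_iff' measurableSet_cell, ae_iff] at hae
    refine measure_mono_null ?_ hae
    intro z hz hcon
    have hzc : z ∈ cell := ⟨⟨hz.2.1.1.le, hz.2.1.2⟩, ⟨hz.2.2.1.le, hz.2.2.2⟩⟩
    have h1 := hcon hzc
    apply hz.1
    simpa using h1
  exact absurd hnull hUpos.ne'

/-- Uniqueness: `l2_est` with `h = 0`; a smooth function with both derivatives zero is constant. -/
theorem beltrami_unique {μ f : ℂ → ℂ} {k : ℝ} (hk : k < 1) (hμ : ContDiff ℝ ∞ μ) (hμp : Per 0 μ)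
    (hμk : ∀ z, ‖μ z‖ ≤ k) (hf : ContDiff ℝ ∞ f) (hp : Per 0 f) {τ : ℂ}
    (h : ∀ z, Dzb f z = μ z * Dz f z - τ) : τ = 0 ∧ ∀ z, f z = f 0 := by
  have hk0 : 0 ≤ k := le_trans (norm_nonneg _) (hμk 0)
  have h1 := l2_est (h := fun _ => 0) hk0 hk hμ.continuous hμk hf hp continuous_const (τ := τ)
    (fun z => by rw [h z]; ring)
  simp only [norm_zero, ne_eq, OfNat.ofNat_ne_zero, not_false_eq_true, zero_pow,
    integral_zero] at h1
  have hk1 : 0 < (1 - k) ^ 2 := by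
    have : 0 < 1 - k := by linarith
    positivity
  have h2 : 0 ≤ ∫ z in cell, ‖Dz f z‖ ^ 2 := integral_nonneg fun z => by positivity
  have h3 : ∫ z in cell, ‖Dz f z‖ ^ 2 = 0 := by nlinarith
  have h4 : ∫ z in cell, ‖Dzb f z‖ ^ 2 = 0 := by rw [← l2_identity hf hp, h3]
  have hz := BeltramiA_zero (BeltramiA_smooth_Dz hf).continuous (BeltramiA_per_Dz hp) h3
  have hzb := BeltramiA_zero (BeltramiA_smooth_Dzb hf).continuous (BeltramiA_per_Dzb hp) h4
  refine ⟨?_, fun z => ?_⟩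
  · have h5 := h 0
    rw [hz 0, hzb 0, mul_zero, zero_sub] at h5
    exact (neg_eq_zero.1 h5.symm)
  · refine is_const_of_fderiv_eq_zero (𝕜 := ℝ) (hf.differentiable (by simp)) (fun y => ?_) z 0
    ext v
    rw [fderiv_eq_Dz, hz y, hzb y]
    simp

end Pool.Agent.KK
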