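import Pool.Agent.W_bb4b37_h53.BeltramiA
import Pool.Agent.W_bb4b37_h24.FourC
import Pool.Agent.W_bb4b37_h24.WienB

/-!
# The Beltrami equation with smooth periodic coefficient (part B)
-/

set_option autoImplicit false

open Filter Topology Set MeasureTheory Metric
open scoped ContDiff

namespace Pool.Agent.KK

open BB4B37 in
/-- the Fourier coefficients of a continuous function are bounded -/
theorem BeltramiB_bdd {B : ℂ → ℂ} (hB : Continuous B) : ∃ K : ℝ, 0 ≤ K ∧ ∀ m, ‖coef B m‖ ≤ K := by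
  have hc : IsCompact ((fun p : ℝ × ℝ => B (p.1 + p.2 * Complex.I)) '' (uIcc (0 : ℝ) 1 ×ˢ uIcc (0 : ℝ) 1)) :=
    (isCompact_uIcc.prod isCompact_uIcc).image (by fun_prop)
  obtain ⟨K, hK⟩ := hc.isBounded.exists_norm_le
  have hK1 : ∀ x ∈ uIoc (0 : ℝ) 1, ∀ y ∈ uIoc (0 : ℝ) 1, ‖B (x + y * Complex.I)‖ ≤ |K| := by
    intro x hx y hy
    refine (hK _ ⟨(x, y), ⟨uIoc_subset_uIcc hx, uIoc_subset_uIcc hy⟩, rfl⟩).trans (le_abs_self K)
  refine ⟨|K|, abs_nonneg K, fun m => ?_⟩
  rw [coef]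
  have h1 : ∀ x ∈ uIoc (0 : ℝ) 1,
      ‖∫ y in (0 : ℝ)..1, B (x + y * Complex.I) * ee (-m) (x + y * Complex.I)‖ ≤ |K| := by
    intro x hx
    have := intervalIntegral.norm_integral_le_of_norm_le_const (a := (0 : ℝ)) (b := 1) (C := |K|)
      (f := fun y : ℝ => B (x + y * Complex.I) * ee (-m) (x + y * Complex.I)) (fun y hy => by
        rw [norm_mul, fa_norm_ee, mul_one]; exact hK1 x hx y hy)
    simpa using this
  have := intervalIntegral.norm_integral_le_of_norm_le_const (a := (0 : ℝ)) (b := 1) (C := |K|)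
      (f := fun x : ℝ => ∫ y in (0 : ℝ)..1, B (x + y * Complex.I) * ee (-m) (x + y * Complex.I)) h1
  simpa using this

/-- iterated directional derivatives of a smooth function -/
theorem BeltramiB_smooth (e : ℂ) {B : ℂ → ℂ} (hB : ContDiff ℝ ∞ B) (k : ℕ) :
    ContDiff ℝ ∞ ((fun (f : ℂ → ℂ) z => fderiv ℝ f z e)^[k] B) := by
  induction k with
  | zero => exact hB
  | succ k ih =>
    rw [Function.iterate_succ_apply']
    exact (ih.fderiv_right (m := ∞) le_rfl).clm_apply contDiff_const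

open BB4B37 in
theorem BeltramiB_px {B : ℂ → ℂ} (hB : ContDiff ℝ ∞ B)
    (hper : ∀ z, B (z + 1) = B z ∧ B (z + Complex.I) = B z) (m : ℤ × ℤ) (k : ℕ) :
    coef ((fun (f : ℂ → ℂ) z => fderiv ℝ f z 1)^[k] B) m =
      (2 * Real.pi * Complex.I * m.1) ^ k * coef B m := by
  induction k with
  | zero => simp
  | succ k ih =>
    rw [Function.iterate_succ_apply', pow_succ']
    have h1 := coef_px ((BeltramiB_smooth 1 hB k).of_le (by exact_mod_cast le_top)) (fc_periodic 1 hper k) m
    rw [ih] at h1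
    refine Eq.trans ?_ (h1.trans (by ring))
    rfl

open BB4B37 in
theorem BeltramiB_py {B : ℂ → ℂ} (hB : ContDiff ℝ ∞ B)
    (hper : ∀ z, B (z + 1) = B z ∧ B (z + Complex.I) = B z) (m : ℤ × ℤ) (k : ℕ) :
    coef ((fun (f : ℂ → ℂ) z => fderiv ℝ f z Complex.I)^[k] B) m =
      (2 * Real.pi * Complex.I * m.2) ^ k * coef B m := by
  induction k with
  | zero => simp
  | succ k ih =>
    rw [Function.iterate_succ_apply', pow_succ']
    have h1 := coef_py ((BeltramiB_smooth Complex.I hB k).of_le (by exact_mod_cast le_top))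
      (fc_periodic Complex.I hper k) m
    rw [ih] at h1
    refine Eq.trans ?_ (h1.trans (by ring))
    rfl

theorem BeltramiB_wt {a b c K x : ℝ} (k : ℕ) (ha : 0 ≤ a) (hb : 0 ≤ b) (hc : 0 ≤ c) (h0 : c ≤ K)
    (h1 : (2 * Real.pi * a) ^ k * c ≤ K) (h2 : (2 * Real.pi * b) ^ k * c ≤ K)
    (hx : x = 1 + a + b) : x ^ k * c ≤ 3 ^ k * K := by
  have hpi : (1 : ℝ) ≤ 2 * Real.pi := by
    have := Real.pi_gt_three
    linarith
  have key : ∀ M : ℝ, 0 ≤ M → x ≤ 3 * M → M ^ k * c ≤ K → x ^ k * c ≤ 3 ^ k * K := by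
    intro M hM hxM hMK
    have hx0 : 0 ≤ x := by rw [hx]; positivity
    calc x ^ k * c ≤ (3 * M) ^ k * c :=
          mul_le_mul_of_nonneg_right (pow_le_pow_left₀ hx0 hxM k) hc
      _ = 3 ^ k * (M ^ k * c) := by ring
      _ ≤ 3 ^ k * K := mul_le_mul_of_nonneg_left hMK (by positivity)
  have hmul : ∀ t : ℝ, 0 ≤ t → t ^ k ≤ (2 * Real.pi * t) ^ k := fun t ht =>
    pow_le_pow_left₀ ht (le_mul_of_one_le_left ht hpi) k
  rcases le_total a b with hab | hab
  · rcases le_total b 1 with hb1 | hb1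
    · exact key 1 zero_le_one (by rw [hx]; linarith) (by rw [one_pow, one_mul]; exact h0)
    · exact key b hb (by rw [hx]; linarith)
        ((mul_le_mul_of_nonneg_right (hmul b hb) hc).trans h2)
  · rcases le_total a 1 with ha1 | ha1
    · exact key 1 zero_le_one (by rw [hx]; linarith) (by rw [one_pow, one_mul]; exact h0)
    · exact key a ha (by rw [hx]; linarith)
        ((mul_le_mul_of_nonneg_right (hmul a ha) hc).trans h1)

open BB4B37 in
/-- the Fourier coefficients of a smooth periodic function decrease rapidly -/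
theorem BeltramiB_rapid {B : ℂ → ℂ} (hB : ContDiff ℝ ∞ B)
    (hper : ∀ z, B (z + 1) = B z ∧ B (z + Complex.I) = B z) (s : ℕ) : InW s (coef B) := by
  obtain ⟨K0, h00, hK0⟩ := BeltramiB_bdd hB.continuous
  obtain ⟨K1, h10, hK1⟩ := BeltramiB_bdd (BeltramiB_smooth 1 hB (s + 4)).continuous
  obtain ⟨K2, h20, hK2⟩ := BeltramiB_bdd (BeltramiB_smooth Complex.I hB (s + 4)).continuous
  have hc : ∀ m, wt m ^ (s + 4) * ‖coef B m‖ ≤ 3 ^ (s + 4) * (K0 + K1 + K2) := by
    intro m
    have h1 := hK1 m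
    have h2 := hK2 m
    rw [BeltramiB_px hB hper m, norm_mul, norm_pow] at h1
    rw [BeltramiB_py hB hper m, norm_mul, norm_pow] at h2
    have e1 : ∀ n : ℤ, ‖(2 * Real.pi * Complex.I * n : ℂ)‖ = 2 * Real.pi * |(n : ℝ)| := by
      intro n
      rw [norm_mul, norm_mul, norm_mul, Complex.norm_I, mul_one, Complex.norm_real,
        Complex.norm_two, Real.norm_eq_abs, abs_of_pos Real.pi_pos]
      congr 1
      rw [Complex.norm_intCast]
    rw [e1] at h1 h2
    exact BeltramiB_wt (s + 4) (abs_nonneg _) (abs_nonneg _) (norm_nonneg _)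
      ((hK0 m).trans (by linarith)) (h1.trans (by linarith)) (h2.trans (by linarith)) rfl
  have hle : ∀ m, wt m ^ s * ‖coef B m‖ ≤ 3 ^ (s + 4) * (K0 + K1 + K2) * (1 / wt m ^ 4) := by
    intro m
    have h4 : 0 < wt m ^ 4 := pow_pos (lt_of_lt_of_le one_pos (one_le_wt m)) 4
    rw [mul_one_div, le_div_iff₀ h4]
    calc wt m ^ s * ‖coef B m‖ * wt m ^ 4 = wt m ^ (s + 4) * ‖coef B m‖ := by ring
      _ ≤ _ := hc m
  refine Summable.of_nonneg_of_le (fun m => ?_) hle (fc_summable.mul_left _)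
  exact mul_nonneg (pow_nonneg (zero_le_one.trans (one_le_wt m)) _) (norm_nonneg _)

open BB4B37 in
theorem BeltramiB_ee_per (k : ℤ × ℤ) (m n : ℤ) (z : ℂ) :
    ee k (z + (m + n * Complex.I)) = ee k z := by
  have h1 : ee k (z + (m + n * Complex.I)) =
      ee k z * Complex.exp (((k.1 * m + k.2 * n : ℤ) : ℂ) * (2 * Real.pi * Complex.I)) := by
    rw [ee, ee, ← Complex.exp_add]
    congr 1
    simp only [Complex.add_re, Complex.intCast_re, Complex.mul_re, Complex.I_re, Complex.intCast_im,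
      Complex.I_im, Complex.add_im, Complex.mul_im]
    push_cast
    ring
  rw [h1, Complex.exp_int_mul_two_pi_mul_I, mul_one]

open BB4B37 in
/-- **The `∂̄` equation on the torus**, by Fourier series. Proof: the Fourier coefficients
`ĥ n = ∫_cell h z conj(e_n z)`, `e_n z = exp (2 π i (n₁ Re z + n₂ Im z))`, `n ∈ ℤ²`, decrease
rapidly (integration by parts, `integral_Dz_cell`), `∂̄e_n = π i (n₁ + i n₂) e_n`, and
`f = ∑_{n ≠ 0} ĥ n / (π i (n₁ + i n₂)) e_n` (`contDiff_tsum`). That `∑ ĥ n e_n = h` is Mathlib's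
`UnitAddTorus.hasSum_mFourier_series_of_summable` (or two applications of the one-dimensional
theorem for `AddCircle`, or: the continuous function `∂̄f - h + ĥ 0` has all Fourier coefficients
zero). -/
theorem solve_dbar {h : ℂ → ℂ} (hh : ContDiff ℝ ∞ h) (hhp : Per 0 h) :
    ∃ f : ℂ → ℂ, ContDiff ℝ ∞ f ∧ Per 0 f ∧ ∀ z, Dzb f z = h z - ∫ y in cell, h y := by
  have hper : ∀ z, h (z + 1) = h z ∧ h (z + Complex.I) = h z := fun z =>
    ⟨hhp z 1 ⟨1, 0, by simp⟩, hhp z Complex.I ⟨0, 1, by simp⟩⟩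
  have hr := BeltramiB_rapid hh hper
  set a : ℤ × ℤ → ℂ := fun m =>
    if m = 0 then 0 else coef h m / (Real.pi * Complex.I * ((m.1 : ℂ) + m.2 * Complex.I)) with ha
  have hone : ∀ m : ℤ × ℤ, m ≠ 0 →
      1 ≤ ‖(Real.pi * Complex.I * ((m.1 : ℂ) + m.2 * Complex.I) : ℂ)‖ := by
    intro m hm
    have h1 : 1 ≤ Complex.normSq ((m.1 : ℂ) + m.2 * Complex.I) := by
      have h2 : Complex.normSq ((m.1 : ℂ) + m.2 * Complex.I) = (m.1 : ℝ) ^ 2 + (m.2 : ℝ) ^ 2 := by
        rw [Complex.normSq_apply]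
        simp
        ring
      have h3 : (1 : ℤ) ≤ m.1 ^ 2 + m.2 ^ 2 := by
        by_contra hcon
        have h4 : m.1 ^ 2 + m.2 ^ 2 = 0 := by nlinarith [sq_nonneg m.1, sq_nonneg m.2]
        have h5 : m.1 = 0 := by nlinarith [sq_nonneg m.1, sq_nonneg m.2]
        have h6 : m.2 = 0 := by nlinarith [sq_nonneg m.1, sq_nonneg m.2]
        exact hm (Prod.ext h5 h6)
      rw [h2]
      exact_mod_cast h3
    have h2 : 1 ≤ ‖((m.1 : ℂ) + m.2 * Complex.I)‖ := by
      rw [Complex.normSq_eq_norm_sq] at h1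
      nlinarith [norm_nonneg ((m.1 : ℂ) + m.2 * Complex.I)]
    rw [norm_mul, norm_mul, Complex.norm_I, mul_one, Complex.norm_real, Real.norm_eq_abs,
      abs_of_pos Real.pi_pos]
    nlinarith [Real.pi_gt_three]
  have hale : ∀ m, ‖a m‖ ≤ ‖coef h m‖ := by
    intro m
    by_cases hm : m = 0
    · simp [ha, hm]
    · rw [ha]
      simp only [hm, if_false]
      rw [norm_div]
      exact div_le_self (norm_nonneg _) (hone m hm)
  have haW : ∀ s, InW s a := fun s =>
    Summable.of_nonneg_of_le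
      (fun m => mul_nonneg (pow_nonneg (zero_le_one.trans (one_le_wt m)) _) (norm_nonneg _))
      (fun m => mul_le_mul_of_nonneg_left (hale m) (pow_nonneg (zero_le_one.trans (one_le_wt m)) _))
      (hr s)
  have hs0 : Summable fun m => ‖coef h m‖ := by
    have := hr 0
    simpa only [InW, pow_zero, one_mul] using this
  refine ⟨syn a, contDiff_infty.2 fun n => contDiff_syn (haW n), ?_, fun z => ?_⟩
  · rintro z v ⟨m, n, rfl⟩
    have : (m : ℂ) * (1 + ((0 : ℝ) : ℂ)) + (n : ℂ) * ((1 - ((0 : ℝ) : ℂ)) * Complex.I) =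
        m + n * Complex.I := by push_cast; ring
    rw [this, syn, syn]
    exact tsum_congr fun k => by rw [BeltramiB_ee_per]
  · have h1 : Dzb (syn a) z = dzb (syn a) z := rfl
    rw [h1, (dz_syn (haW 1) z).2]
    have h2 : (fun m : ℤ × ℤ => Real.pi * Complex.I * ((m.1 : ℂ) + m.2 * Complex.I) * a m) =
        fun m => if m = 0 then 0 else coef h m := by
      funext m
      by_cases hm : m = 0
      · simp [ha, hm]
      · have h3 := hone m hm
        have h4 : (Real.pi * Complex.I * ((m.1 : ℂ) + m.2 * Complex.I) : ℂ) ≠ 0 := by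
          intro h5
          rw [h5, norm_zero] at h3
          linarith
        rw [ha]
        simp only [hm, if_false]
        exact mul_div_cancel₀ _ h4
    rw [h2, syn]
    have h5 : Summable fun m : ℤ × ℤ => coef h m * ee m z := by
      refine Summable.of_norm ?_
      simpa only [norm_mul, fa_norm_ee, mul_one] using hs0
    have h6 := h5.tsum_eq_add_tsum_ite (0 : ℤ × ℤ)
    have h7 : ∑' m, coef h m * ee m z = h z := coef_inversion hh.continuous hper hs0 z
    have h8 : ee 0 z = 1 := by simp [ee]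
    have h9 : coef h 0 = ∫ y in cell, h y := by
      rw [integral_cell h hh.continuous, coef]
      refine intervalIntegral.integral_congr fun x _ => intervalIntegral.integral_congr fun y _ => ?_
      simp [ee]
    rw [h7, h8, mul_one, h9] at h6
    rw [h6, add_sub_cancel_left]
    refine tsum_congr fun m => ?_
    by_cases hm : m = 0 <;> simp [hm]

end Pool.Agent.KK
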