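import Pool.Agent.W_bb4b37_h53.BeltramiA

/-!
# The Beltrami equation with smooth periodic coefficient (part C)
-/

set_option autoImplicit false

open Filter Topology Set MeasureTheory Metric
open scoped ContDiff

namespace Pool.Agent.KK

/-! ### Integrals over the cell -/

theorem BeltramiC_integrableOn {E : Type*} [NormedAddCommGroup E] {u : ℂ → E}
    (hu : Continuous u) : IntegrableOn u cell := by
  have hK : IsCompact (Icc (0 : ℝ) 1 ×ℂ Icc (0 : ℝ) 1) := isCompact_Icc.reProdIm isCompact_Icc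
  refine (hu.continuousOn.integrableOn_compact hK).mono_set ?_
  rintro z ⟨h1, h2⟩
  rw [Complex.mem_reProdIm]
  exact ⟨Ico_subset_Icc_self h1, Ico_subset_Icc_self h2⟩

theorem BeltramiC_cell {u : ℂ → ℝ} (hu : Continuous u) :
    ∫ z in cell, u z =
      ∫ x in (0 : ℝ)..1, ∫ y in (0 : ℝ)..1, u ((x : ℂ) + (y : ℂ) * Complex.I) := by
  have h1 := integral_cell (fun z => (u z : ℂ)) (Complex.continuous_ofReal.comp hu)
  simp only [intervalIntegral.integral_ofReal] at h1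
  have h2 : ∫ z in cell, ((u z : ℝ) : ℂ) = ((∫ z in cell, u z : ℝ) : ℂ) := integral_ofReal
  rw [h2] at h1
  exact_mod_cast h1

theorem BeltramiC_const (c : ℝ) : ∫ _z in cell, c = c := by
  rw [setIntegral_const, Measure.real, volume_cell]
  simp

theorem BeltramiC_const' (c : ℂ) : ∫ _z in cell, c = c := by
  rw [setIntegral_const, Measure.real, volume_cell]
  simp

theorem BeltramiC_cs {u : ℂ → ℝ} (hu : Continuous u) :
    (∫ z in cell, u z) ^ 2 ≤ ∫ z in cell, u z ^ 2 := by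
  set c := ∫ z in cell, u z with hc
  have h0 : 0 ≤ ∫ z in cell, (u z - c) ^ 2 := integral_nonneg fun z => sq_nonneg _
  have h1 : ∫ z in cell, (u z - c) ^ 2 = (∫ z in cell, u z ^ 2) - c ^ 2 := by
    have e1 : ∀ z, (u z - c) ^ 2 = (u z ^ 2 - (2 * c) * u z) + c ^ 2 := fun z => by ring
    simp only [e1]
    rw [integral_add, integral_sub, integral_const_mul, BeltramiC_const, ← hc]
    · ring
    · exact BeltramiC_integrableOn (hu.pow 2)
    · exact BeltramiC_integrableOn (continuous_const.mul hu)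
    · exact (BeltramiC_integrableOn (hu.pow 2)).sub
        (BeltramiC_integrableOn (continuous_const.mul hu))
    · exact BeltramiC_integrableOn continuous_const
  rw [h1] at h0
  linarith

/-! ### One variable -/

theorem BeltramiC_cs1 {u : ℝ → ℝ} (hu : Continuous u) :
    (∫ x in (0 : ℝ)..1, u x) ^ 2 ≤ ∫ x in (0 : ℝ)..1, u x ^ 2 := by
  set c := ∫ x in (0 : ℝ)..1, u x with hc
  have h0 : 0 ≤ ∫ x in (0 : ℝ)..1, (u x - c) ^ 2 :=
    intervalIntegral.integral_nonneg zero_le_one fun x _ => sq_nonneg _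
  have h1 : ∫ x in (0 : ℝ)..1, (u x - c) ^ 2 = (∫ x in (0 : ℝ)..1, u x ^ 2) - c ^ 2 := by
    have e1 : ∀ x, (u x - c) ^ 2 = (u x ^ 2 - (2 * c) * u x) + c ^ 2 := fun x => by ring
    simp only [e1]
    have i1 : IntervalIntegrable (fun x => u x ^ 2) volume 0 1 := (hu.pow 2).intervalIntegrable _ _
    have i2 : IntervalIntegrable (fun x => (2 * c) * u x) volume 0 1 :=
      (continuous_const.mul hu).intervalIntegrable _ _
    rw [intervalIntegral.integral_add (i1.sub i2) (intervalIntegrable_const),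
      intervalIntegral.integral_sub i1 i2, intervalIntegral.integral_const_mul, ← hc,
      intervalIntegral.integral_const]
    simp only [sub_zero, smul_eq_mul, one_mul]
    ring
  rw [h1] at h0
  linarith

theorem BeltramiC_part {u : ℝ → ℝ} (hu : Continuous u) (_h0 : ∀ t, 0 ≤ u t) {a b : ℝ}
    (_ha : 0 ≤ a) (_hab : a ≤ b) (_hb : b ≤ 1) :
    (∫ t in (0 : ℝ)..a, u t) + (∫ t in a..b, u t) + (∫ t in b..1, u t) =
      ∫ t in (0 : ℝ)..1, u t := by
  have hi : ∀ p q : ℝ, IntervalIntegrable u volume p q := fun p q => hu.intervalIntegrable _ _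
  rw [intervalIntegral.integral_add_adjacent_intervals (hi _ _) (hi _ _),
    intervalIntegral.integral_add_adjacent_intervals (hi _ _) (hi _ _)]

theorem BeltramiC_diff_le {g g' : ℝ → ℂ} (hg : ∀ t, HasDerivAt g (g' t) t) (hc : Continuous g')
    {a b : ℝ} (hab : a ≤ b) : ‖g b - g a‖ ≤ ∫ t in a..b, ‖g' t‖ := by
  rw [← intervalIntegral.integral_eq_sub_of_hasDerivAt (fun t _ => hg t)
    (hc.intervalIntegrable _ _)]
  exact intervalIntegral.norm_integral_le_integral_norm hab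

theorem BeltramiC_osc' {g g' : ℝ → ℂ} (hg : ∀ t, HasDerivAt g (g' t) t) (hc : Continuous g')
    (hp : g 0 = g 1) {a b : ℝ} (ha : 0 ≤ a) (hab : a ≤ b) (hb : b ≤ 1) :
    ‖g b - g a‖ ≤ 1 / 2 * ∫ t in (0 : ℝ)..1, ‖g' t‖ := by
  have h1 := BeltramiC_diff_le hg hc hab
  have h2 := BeltramiC_diff_le hg hc ha
  have h3 := BeltramiC_diff_le hg hc hb
  have h4 := BeltramiC_part hc.norm (fun t => norm_nonneg _) ha hab hb
  have h5 : ‖g b - g a‖ ≤ ‖g a - g 0‖ + ‖g 1 - g b‖ := by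
    have e : g b - g a = -((g a - g 0) + (g 1 - g b)) := by rw [hp]; ring
    rw [e, norm_neg]
    exact norm_add_le _ _
  linarith

theorem BeltramiC_osc {g g' : ℝ → ℂ} (hg : ∀ t, HasDerivAt g (g' t) t) (hc : Continuous g')
    (hp : g 0 = g 1) {x y : ℝ} (hx : x ∈ Icc (0 : ℝ) 1) (hy : y ∈ Icc (0 : ℝ) 1) :
    ‖g x - g y‖ ≤ 1 / 2 * ∫ t in (0 : ℝ)..1, ‖g' t‖ := by
  rcases le_total x y with h | h
  · rw [norm_sub_rev]
    exact BeltramiC_osc' hg hc hp hx.1 h hy.2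
  · exact BeltramiC_osc' hg hc hp hy.1 h hx.2

theorem BeltramiC_osc1 {g g' : ℝ → ℂ} (hg : ∀ t, HasDerivAt g (g' t) t) (hc : Continuous g')
    {x y : ℝ} (hx : x ∈ Icc (0 : ℝ) 1) (hy : y ∈ Icc (0 : ℝ) 1) :
    ‖g x - g y‖ ≤ ∫ t in (0 : ℝ)..1, ‖g' t‖ := by
  have key : ∀ a b : ℝ, 0 ≤ a → a ≤ b → b ≤ 1 → ‖g b - g a‖ ≤ ∫ t in (0 : ℝ)..1, ‖g' t‖ := by
    intro a b ha hab hb
    have h1 := BeltramiC_diff_le hg hc hab
    have h4 := BeltramiC_part hc.norm (fun t => norm_nonneg _) ha hab hb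
    have h2 : 0 ≤ ∫ t in (0 : ℝ)..a, ‖g' t‖ :=
      intervalIntegral.integral_nonneg ha fun _ _ => norm_nonneg _
    have h3 : 0 ≤ ∫ t in b..(1 : ℝ), ‖g' t‖ :=
      intervalIntegral.integral_nonneg hb fun _ _ => norm_nonneg _
    linarith
  rcases le_total x y with h | h
  · rw [norm_sub_rev]
    exact key x y hx.1 h hy.2
  · exact key y x hy.1 h hx.2

theorem BeltramiC_sup1 {g g' : ℝ → ℂ} (hg : ∀ t, HasDerivAt g (g' t) t) (hc : Continuous g')
    {x : ℝ} (hx : x ∈ Icc (0 : ℝ) 1) :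
    ‖g x‖ ≤ (∫ t in (0 : ℝ)..1, ‖g t‖) + ∫ t in (0 : ℝ)..1, ‖g' t‖ := by
  have hgc : Continuous g := continuous_iff_continuousAt.2 fun t => (hg t).continuousAt
  have h1 : ∫ _t in (0 : ℝ)..1, ‖g x‖ ≤
      ∫ y in (0 : ℝ)..1, (‖g y‖ + ∫ t in (0 : ℝ)..1, ‖g' t‖) := by
    apply intervalIntegral.integral_mono_on zero_le_one intervalIntegrable_const
    · exact (hgc.norm.add continuous_const).intervalIntegrable _ _
    · intro y hy
      have h2 := BeltramiC_osc1 hg hc hx hy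
      have h3 : ‖g x‖ ≤ ‖g y‖ + ‖g x - g y‖ := by
        have := norm_add_le (g y) (g x - g y)
        rwa [add_sub_cancel] at this
      linarith
  rw [intervalIntegral.integral_const, intervalIntegral.integral_add
    (hgc.norm.intervalIntegrable _ _) intervalIntegrable_const,
    intervalIntegral.integral_const] at h1
  simpa using h1

/-! ### Restriction to lines -/

theorem BeltramiC_lineX {f : ℂ → ℂ} (hf : ContDiff ℝ ∞ f) (y t : ℝ) :
    HasDerivAt (fun s : ℝ => f ((s : ℂ) + (y : ℂ) * Complex.I))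
      (Dx f ((t : ℂ) + (y : ℂ) * Complex.I)) t := by
  have h1 : HasFDerivAt f (fderiv ℝ f ((t : ℂ) + (y : ℂ) * Complex.I))
      ((t : ℂ) + (y : ℂ) * Complex.I) :=
    (hf.contDiffAt.differentiableAt (by simp)).hasFDerivAt
  have h2 : HasDerivAt (fun s : ℝ => (s : ℂ) + (y : ℂ) * Complex.I) 1 t :=
    (Complex.ofRealCLM.hasDerivAt (x := t)).add_const _
  exact h1.comp_hasDerivAt t h2

theorem BeltramiC_lineY {f : ℂ → ℂ} (hf : ContDiff ℝ ∞ f) (x t : ℝ) :
    HasDerivAt (fun s : ℝ => f ((x : ℂ) + (s : ℂ) * Complex.I))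
      (Dy f ((x : ℂ) + (t : ℂ) * Complex.I)) t := by
  have h1 : HasFDerivAt f (fderiv ℝ f ((x : ℂ) + (t : ℂ) * Complex.I))
      ((x : ℂ) + (t : ℂ) * Complex.I) :=
    (hf.contDiffAt.differentiableAt (by simp)).hasFDerivAt
  have h2 : HasDerivAt (fun s : ℝ => (x : ℂ) + (s : ℂ) * Complex.I) Complex.I t := by
    have h3 := ((Complex.ofRealCLM.hasDerivAt (x := t)).mul_const Complex.I).const_add (x : ℂ)
    have h4 : Complex.ofRealCLM 1 * Complex.I = Complex.I := by simp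
    rw [h4] at h3
    exact h3
  exact h1.comp_hasDerivAt t h2

theorem BeltramiC_contX {u : ℂ → ℂ} (hu : Continuous u) (y : ℝ) :
    Continuous (fun s : ℝ => u ((s : ℂ) + (y : ℂ) * Complex.I)) :=
  hu.comp (by fun_prop)

theorem BeltramiC_contY {u : ℂ → ℂ} (hu : Continuous u) (x : ℝ) :
    Continuous (fun s : ℝ => u ((x : ℂ) + (s : ℂ) * Complex.I)) :=
  hu.comp (by fun_prop)

theorem BeltramiC_parX {u : ℂ → ℂ} (hu : Continuous u) :
    Continuous (fun y : ℝ => ∫ t in (0 : ℝ)..1, ‖u ((t : ℂ) + (y : ℂ) * Complex.I)‖) := by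
  apply intervalIntegral.continuous_parametric_intervalIntegral_of_continuous'
  have : Continuous (fun p : ℝ × ℝ => u ((p.2 : ℂ) + (p.1 : ℂ) * Complex.I)) :=
    hu.comp (by fun_prop)
  exact this.norm

theorem BeltramiC_parY {u : ℂ → ℂ} (hu : Continuous u) :
    Continuous (fun x : ℝ => ∫ t in (0 : ℝ)..1, ‖u ((x : ℂ) + (t : ℂ) * Complex.I)‖) := by
  apply intervalIntegral.continuous_parametric_intervalIntegral_of_continuous'
  have : Continuous (fun p : ℝ × ℝ => u ((p.1 : ℂ) + (p.2 : ℂ) * Complex.I)) :=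
    hu.comp (by fun_prop)
  exact this.norm

theorem BeltramiC_line_le {h : ℂ → ℂ} (hh : ContDiff ℝ ∞ h) {y : ℝ} (hy : y ∈ Icc (0 : ℝ) 1) :
    ∫ s in (0 : ℝ)..1, ‖h ((s : ℂ) + (y : ℂ) * Complex.I)‖ ≤
      (∫ z in cell, ‖h z‖) + ∫ z in cell, ‖Dy h z‖ := by
  have hc : Continuous h := hh.continuous
  have hc' : Continuous (Dy h) := (contDiff_DD hh [false]).continuous
  rw [BeltramiC_cell hc.norm, BeltramiC_cell hc'.norm,
    ← intervalIntegral.integral_add ((BeltramiC_parY hc).intervalIntegrable _ _)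
      ((BeltramiC_parY hc').intervalIntegrable _ _)]
  apply intervalIntegral.integral_mono_on zero_le_one
  · exact (BeltramiC_contX hc y).norm.intervalIntegrable _ _
  · exact ((BeltramiC_parY hc).add (BeltramiC_parY hc')).intervalIntegrable _ _
  · intro s _
    exact BeltramiC_sup1 (BeltramiC_lineY hh s) (BeltramiC_contY hc' s) hy

theorem BeltramiC_re_im (z : ℂ) : ((z.re : ℂ) + (z.im : ℂ) * Complex.I) = z := Complex.re_add_im z

theorem BeltramiC_reduce {f : ℂ → ℂ} (hp : Per 0 f) (z : ℂ) :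
    ∃ x ∈ Icc (0 : ℝ) 1, ∃ y ∈ Icc (0 : ℝ) 1, f z = f ((x : ℂ) + (y : ℂ) * Complex.I) := by
  refine ⟨z.re - ⌊z.re⌋, ⟨sub_nonneg.2 (Int.floor_le _), by
    linarith [Int.lt_floor_add_one z.re]⟩, z.im - ⌊z.im⌋, ⟨sub_nonneg.2 (Int.floor_le _), by
    linarith [Int.lt_floor_add_one z.im]⟩, ?_⟩
  have h1 := hp (((z.re - ⌊z.re⌋ : ℝ) : ℂ) + ((z.im - ⌊z.im⌋ : ℝ) : ℂ) * Complex.I)
    ((⌊z.re⌋ : ℂ) * (1 + ((0 : ℝ) : ℂ)) + (⌊z.im⌋ : ℂ) * ((1 - ((0 : ℝ) : ℂ)) * Complex.I))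
    ⟨⌊z.re⌋, ⌊z.im⌋, rfl⟩
  rw [← h1]
  congr 1
  conv_lhs => rw [← Complex.re_add_im z]
  push_cast
  ring

/-- Sup bound. Proof: for a periodic function `g` of one variable `|g x| ≤ ∫_0^1 |g| + ∫_0^1 |g'|`;
applying this twice, `|f z| ≤ ∫_cell (|f| + |f_x| + |f_y| + |f_xy|) ≤ 4 M` (Cauchy-Schwarz). -/
theorem sup_le_l2 {f : ℂ → ℂ} (hf : ContDiff ℝ ∞ f) (hp : Per 0 f) {M : ℝ} (hM : 0 ≤ M)
    (h : ∀ l : List Bool, l.length ≤ 2 → ∫ z in cell, ‖DD l f z‖ ^ 2 ≤ M ^ 2) (z : ℂ) :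
    ‖f z‖ ≤ 4 * M := by
  obtain ⟨x, hx, y, hy, hz⟩ := BeltramiC_reduce hp z
  rw [hz]
  have hfx : ContDiff ℝ ∞ (Dx f) := contDiff_DD hf [true]
  have h1 := BeltramiC_sup1 (BeltramiC_lineX hf y) (BeltramiC_contX hfx.continuous y) hx
  have h2 := BeltramiC_line_le hf hy
  have h3 := BeltramiC_line_le hfx hy
  have key : ∀ l : List Bool, l.length ≤ 2 → ∫ z in cell, ‖DD l f z‖ ≤ M := by
    intro l hl
    have hc : Continuous (fun z => ‖DD l f z‖) := (contDiff_DD hf l).continuous.norm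
    have h4 := (BeltramiC_cs hc).trans (h l hl)
    exact le_trans (le_abs_self _) (abs_le_of_sq_le_sq h4 hM)
  have k1 : ∫ z in cell, ‖f z‖ ≤ M := key [] (by simp)
  have k2 : ∫ z in cell, ‖Dy f z‖ ≤ M := key [false] (by simp)
  have k3 : ∫ z in cell, ‖Dx f z‖ ≤ M := key [true] (by simp)
  have k4 : ∫ z in cell, ‖Dy (Dx f) z‖ ≤ M := key [false, true] (by simp)
  linarith

theorem BeltramiC_swap {u : ℂ → ℝ} (hu : Continuous u) :
    ∫ x in (0 : ℝ)..1, ∫ y in (0 : ℝ)..1, u ((x : ℂ) + (y : ℂ) * Complex.I) =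
      ∫ y in (0 : ℝ)..1, ∫ x in (0 : ℝ)..1, u ((x : ℂ) + (y : ℂ) * Complex.I) := by
  apply intervalIntegral_intervalIntegral_swap
    (F := fun x y : ℝ => u ((x : ℂ) + (y : ℂ) * Complex.I))
  have hc : Continuous (Function.uncurry (fun x y : ℝ => u ((x : ℂ) + (y : ℂ) * Complex.I))) :=
    hu.comp (by fun_prop)
  refine (hc.continuousOn.integrableOn_compact
    ((isCompact_Icc (a := (0 : ℝ)) (b := 1)).prod (isCompact_Icc (a := (0 : ℝ)) (b := 1)))).mono_set
    ?_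
  rw [uIoc_of_le zero_le_one]
  exact prod_mono Ioc_subset_Icc_self Ioc_subset_Icc_self

theorem BeltramiC_par (a b : ℂ) : ‖(a - Complex.I * b) / 2‖ ^ 2 + ‖(a + Complex.I * b) / 2‖ ^ 2 =
    1 / 2 * ‖a‖ ^ 2 + 1 / 2 * ‖b‖ ^ 2 := by
  have h1 := parallelogram_law_with_norm ℝ a (Complex.I * b)
  rw [norm_mul Complex.I, Complex.norm_I, one_mul] at h1
  rw [norm_div, norm_div, Complex.norm_ofNat]
  nlinarith

/-- Poincaré inequality on the cell, for periodic smooth `f`: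
`∫ |f - mean|² ≤ ∫ (|∂f|² + |∂̄f|²)`. Elementary proof: `∫ |f - mean|² = (1/2) ∫∫ |f z - f w|²`;
for `z = (x, y)`, `w = (x', y')`: `|f (x, y) - f (x', y)| ≤ (1/2) ∫_0^1 |f_x (t, y)| dt` (one of the
two arcs), `|f (x', y) - f (x', y')| ≤ (1/2) ∫_0^1 |f_y (x', t)| dt`, so
`∫ |f - mean|² ≤ (1/4) ∫ (|f_x|² + |f_y|²) = (1/2) ∫ (|∂f|² + |∂̄f|²)`. Or by Fourier series. -/
theorem poincare {f : ℂ → ℂ} (hf : ContDiff ℝ ∞ f) (hp : Per 0 f) :
    ∫ z in cell, ‖f z - ∫ y in cell, f y‖ ^ 2 ≤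
      ∫ z in cell, (‖Dz f z‖ ^ 2 + ‖Dzb f z‖ ^ 2) := by
  have hfx : Continuous (Dx f) := (contDiff_DD hf [true]).continuous
  have hfy : Continuous (Dy f) := (contDiff_DD hf [false]).continuous
  have hfc : Continuous f := hf.continuous
  set A : ℝ → ℝ := fun y => ∫ t in (0 : ℝ)..1, ‖Dx f ((t : ℂ) + (y : ℂ) * Complex.I)‖ with hA
  set B : ℝ → ℝ := fun x => ∫ t in (0 : ℝ)..1, ‖Dy f ((x : ℂ) + (t : ℂ) * Complex.I)‖ with hB
  have hAc : Continuous A := BeltramiC_parX hfx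
  have hBc : Continuous B := BeltramiC_parY hfy
  have hBre : Continuous (fun w : ℂ => B w.re) := hBc.comp Complex.continuous_re
  have hAim : Continuous (fun z : ℂ => A z.im ^ 2) := (hAc.comp Complex.continuous_im).pow 2
  have hX2 : Continuous (fun z : ℂ => ‖Dx f z‖ ^ 2) := hfx.norm.pow 2
  have hY2 : Continuous (fun z : ℂ => ‖Dy f z‖ ^ 2) := hfy.norm.pow 2
  have hX3 : Continuous (fun z : ℂ => 1 / 2 * ‖Dx f z‖ ^ 2) := continuous_const.mul hX2
  have hY3 : Continuous (fun z : ℂ => 1 / 2 * ‖Dy f z‖ ^ 2) := continuous_const.mul hY2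
  have hBre2 : Continuous (fun w : ℂ => 1 / 2 * B w.re) := continuous_const.mul hBre
  have hAim2 : Continuous (fun z : ℂ => 1 / 2 * A z.im ^ 2) := continuous_const.mul hAim
  set b := ∫ z in cell, ‖Dy f z‖ with hb
  set m := ∫ y in cell, f y with hm
  -- periodicity on lines
  have hpx : ∀ y : ℝ, f (((0 : ℝ) : ℂ) + (y : ℂ) * Complex.I) =
      f (((1 : ℝ) : ℂ) + (y : ℂ) * Complex.I) := by
    intro y
    have h1 := hp (((0 : ℝ) : ℂ) + (y : ℂ) * Complex.I)
      (((1 : ℤ) : ℂ) * (1 + ((0 : ℝ) : ℂ)) + ((0 : ℤ) : ℂ) * ((1 - ((0 : ℝ) : ℂ)) * Complex.I))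
      ⟨1, 0, rfl⟩
    rw [← h1]
    congr 1
    push_cast
    ring
  have hpy : ∀ x : ℝ, f ((x : ℂ) + ((0 : ℝ) : ℂ) * Complex.I) =
      f ((x : ℂ) + ((1 : ℝ) : ℂ) * Complex.I) := by
    intro x
    have h1 := hp ((x : ℂ) + ((0 : ℝ) : ℂ) * Complex.I)
      (((0 : ℤ) : ℂ) * (1 + ((0 : ℝ) : ℂ)) + ((1 : ℤ) : ℂ) * ((1 - ((0 : ℝ) : ℂ)) * Complex.I))
      ⟨0, 1, rfl⟩
    rw [← h1]
    congr 1
    push_cast
    ring
  -- oscillation
  have h0 : ∀ z ∈ cell, ∀ w ∈ cell, ‖f z - f w‖ ≤ 1 / 2 * A z.im + 1 / 2 * B w.re := by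
    intro z hz w hw
    have e1 : f z = f ((z.re : ℂ) + (z.im : ℂ) * Complex.I) := by rw [BeltramiC_re_im]
    have e2 : f w = f ((w.re : ℂ) + (w.im : ℂ) * Complex.I) := by rw [BeltramiC_re_im]
    have t1 := BeltramiC_osc (BeltramiC_lineX hf z.im) (BeltramiC_contX hfx z.im) (hpx z.im)
      (Ico_subset_Icc_self hz.1) (Ico_subset_Icc_self hw.1)
    have t2 := BeltramiC_osc (BeltramiC_lineY hf w.re) (BeltramiC_contY hfy w.re) (hpy w.re)
      (Ico_subset_Icc_self hz.2) (Ico_subset_Icc_self hw.2)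
    rw [e1, e2]
    have t3 := norm_add_le
      (f ((z.re : ℂ) + (z.im : ℂ) * Complex.I) - f ((w.re : ℂ) + (z.im : ℂ) * Complex.I))
      (f ((w.re : ℂ) + (z.im : ℂ) * Complex.I) - f ((w.re : ℂ) + (w.im : ℂ) * Complex.I))
    rw [sub_add_sub_cancel] at t3
    exact t3.trans (add_le_add t1 t2)
  -- the integral of `B`
  have hBint : ∫ w in cell, B w.re = b := by
    rw [BeltramiC_cell hBre, hb, BeltramiC_cell hfy.norm]
    congr 1
    funext x
    have : ∀ y : ℝ, B ((x : ℂ) + (y : ℂ) * Complex.I).re = B x := by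
      intro y
      simp
    simp only [this]
    rw [intervalIntegral.integral_const]
    simp [hB]
  have h1 : ∀ z ∈ cell, ‖f z - m‖ ≤ 1 / 2 * A z.im + 1 / 2 * b := by
    intro z hz
    have e1 : f z - m = ∫ w in cell, (f z - f w) := by
      rw [integral_sub (BeltramiC_integrableOn continuous_const) (BeltramiC_integrableOn hfc),
        BeltramiC_const']
    rw [e1]
    have e2 : ‖∫ w in cell, (f z - f w)‖ ≤ ∫ w in cell, (1 / 2 * A z.im + 1 / 2 * B w.re) := by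
      apply norm_integral_le_of_norm_le
      · exact BeltramiC_integrableOn (continuous_const.add hBre2)
      · filter_upwards [ae_restrict_mem measurableSet_cell] with w hw
        exact h0 z hz w hw
    refine e2.trans (le_of_eq ?_)
    rw [integral_add (BeltramiC_integrableOn continuous_const)
      (BeltramiC_integrableOn hBre2),
      BeltramiC_const, integral_const_mul, hBint]
  -- the integral of `A ^ 2`
  have hA2 : ∫ z in cell, A z.im ^ 2 ≤ ∫ z in cell, ‖Dx f z‖ ^ 2 := by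
    rw [BeltramiC_cell hAim,
      BeltramiC_cell hX2, BeltramiC_swap hX2]
    have : ∀ x y : ℝ, A ((x : ℂ) + (y : ℂ) * Complex.I).im = A y := by
      intro x y
      simp
    simp only [this]
    rw [intervalIntegral.integral_const]
    simp only [sub_zero, one_smul]
    apply intervalIntegral.integral_mono_on zero_le_one
    · exact (hAc.pow 2).intervalIntegrable _ _
    · have : Continuous (fun y : ℝ => ∫ t in (0 : ℝ)..1,
          ‖Dx f ((t : ℂ) + (y : ℂ) * Complex.I)‖ ^ 2) := by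
        apply intervalIntegral.continuous_parametric_intervalIntegral_of_continuous'
        have : Continuous (fun p : ℝ × ℝ => Dx f ((p.2 : ℂ) + (p.1 : ℂ) * Complex.I)) :=
          hfx.comp (by fun_prop)
        exact this.norm.pow 2
      exact this.intervalIntegrable _ _
    · intro y _
      exact BeltramiC_cs1 (BeltramiC_contX hfx y).norm
  have hb2 : b ^ 2 ≤ ∫ z in cell, ‖Dy f z‖ ^ 2 := BeltramiC_cs hfy.norm
  have h2 : ∫ z in cell, ‖f z - m‖ ^ 2 ≤
      ∫ z in cell, (1 / 2 * A z.im ^ 2 + 1 / 2 * b ^ 2) := by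
    apply setIntegral_mono_on
    · exact BeltramiC_integrableOn ((hfc.sub continuous_const).norm.pow 2)
    · exact BeltramiC_integrableOn (hAim2.add continuous_const)
    · exact measurableSet_cell
    · intro z hz
      have t1 := pow_le_pow_left₀ (norm_nonneg _) (h1 z hz) 2
      refine t1.trans ?_
      nlinarith [sq_nonneg (A z.im - b)]
  refine h2.trans ?_
  rw [integral_add (BeltramiC_integrableOn hAim2) (BeltramiC_integrableOn continuous_const),
    integral_const_mul, BeltramiC_const]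
  have h3 : ∫ z in cell, (‖Dz f z‖ ^ 2 + ‖Dzb f z‖ ^ 2) =
      1 / 2 * (∫ z in cell, ‖Dx f z‖ ^ 2) + 1 / 2 * ∫ z in cell, ‖Dy f z‖ ^ 2 := by
    rw [← integral_const_mul, ← integral_const_mul, ← integral_add
      (BeltramiC_integrableOn hX3) (BeltramiC_integrableOn hY3)]
    congr 1
    funext z
    exact BeltramiC_par _ _
  rw [h3]
  linarith

end Pool.Agent.KK
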