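import Pool.Agent.W_bb4b37_h53.Defs

/-!
# Elementary calculus of `Dx`, `Dy`, `DD`, `Dz`, `Dzb` (part B)
-/

set_option autoImplicit false

open Filter Topology Set MeasureTheory
open scoped ContDiff

namespace Pool.Agent.KK

variable {V : Type*} [NormedAddCommGroup V] [NormedSpace ℝ V]

/-- Algebraic rules. -/
theorem Dx_add {f g : ℂ → V} {z : ℂ} (hf : DifferentiableAt ℝ f z)
    (hg : DifferentiableAt ℝ g z) : Dx (fun y => f y + g y) z = Dx f z + Dx g z := by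
  unfold Dx
  rw [fderiv_fun_add hf hg]
  rfl

theorem Dy_add {f g : ℂ → V} {z : ℂ} (hf : DifferentiableAt ℝ f z)
    (hg : DifferentiableAt ℝ g z) : Dy (fun y => f y + g y) z = Dy f z + Dy g z := by
  unfold Dy
  rw [fderiv_fun_add hf hg]
  rfl

theorem Dx_sub {f g : ℂ → V} {z : ℂ} (hf : DifferentiableAt ℝ f z)
    (hg : DifferentiableAt ℝ g z) : Dx (fun y => f y - g y) z = Dx f z - Dx g z := by
  unfold Dx
  rw [fderiv_fun_sub hf hg]
  rfl

theorem Dy_sub {f g : ℂ → V} {z : ℂ} (hf : DifferentiableAt ℝ f z)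
    (hg : DifferentiableAt ℝ g z) : Dy (fun y => f y - g y) z = Dy f z - Dy g z := by
  unfold Dy
  rw [fderiv_fun_sub hf hg]
  rfl

theorem Dx_const_smul {f : ℂ → V} {z : ℂ} (c : ℝ) (hf : DifferentiableAt ℝ f z) :
    Dx (fun y => c • f y) z = c • Dx f z := by
  unfold Dx
  rw [fderiv_fun_const_smul hf]
  rfl

theorem Dy_const_smul {f : ℂ → V} {z : ℂ} (c : ℝ) (hf : DifferentiableAt ℝ f z) :
    Dy (fun y => c • f y) z = c • Dy f z := by
  unfold Dy
  rw [fderiv_fun_const_smul hf]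
  rfl

theorem Dx_const (c : V) (z : ℂ) : Dx (fun _ => c) z = 0 := by
  unfold Dx
  simp

theorem Dy_const (c : V) (z : ℂ) : Dy (fun _ => c) z = 0 := by
  unfold Dy
  simp

theorem Dx_mul {A : Type*} [NormedRing A] [NormedAlgebra ℝ A] {f g : ℂ → A} {z : ℂ}
    (hf : DifferentiableAt ℝ f z) (hg : DifferentiableAt ℝ g z) :
    Dx (fun y => f y * g y) z = Dx f z * g z + f z * Dx g z := by
  unfold Dx
  have h : HasFDerivAt (fun y => f y * g y) _ z := hf.hasFDerivAt.mul' hg.hasFDerivAt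
  rw [h.fderiv]
  simp [add_comm]

theorem Dy_mul {A : Type*} [NormedRing A] [NormedAlgebra ℝ A] {f g : ℂ → A} {z : ℂ}
    (hf : DifferentiableAt ℝ f z) (hg : DifferentiableAt ℝ g z) :
    Dy (fun y => f y * g y) z = Dy f z * g z + f z * Dy g z := by
  unfold Dy
  have h : HasFDerivAt (fun y => f y * g y) _ z := hf.hasFDerivAt.mul' hg.hasFDerivAt
  rw [h.fderiv]
  simp [add_comm]

theorem Dx_smul {f : ℂ → ℝ} {g : ℂ → V} {z : ℂ}
    (hf : DifferentiableAt ℝ f z) (hg : DifferentiableAt ℝ g z) :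
    Dx (fun y => f y • g y) z = Dx f z • g z + f z • Dx g z := by
  unfold Dx
  have h : HasFDerivAt (fun y => f y • g y) _ z := hf.hasFDerivAt.smul hg.hasFDerivAt
  rw [h.fderiv]
  simp [add_comm]

theorem Dy_smul {f : ℂ → ℝ} {g : ℂ → V} {z : ℂ}
    (hf : DifferentiableAt ℝ f z) (hg : DifferentiableAt ℝ g z) :
    Dy (fun y => f y • g y) z = Dy f z • g z + f z • Dy g z := by
  unfold Dy
  have h : HasFDerivAt (fun y => f y • g y) _ z := hf.hasFDerivAt.smul hg.hasFDerivAt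
  rw [h.fderiv]
  simp [add_comm]

/-- Composition with a function of one real variable. -/
theorem Dx_comp_real {f : ℂ → ℝ} {g : ℝ → V} {g' : V} {z : ℂ} (hf : DifferentiableAt ℝ f z)
    (hg : HasDerivAt g g' (f z)) : Dx (fun y => g (f y)) z = Dx f z • g' := by
  unfold Dx
  have h : HasFDerivAt (fun y => g (f y)) _ z :=
    hg.hasFDerivAt.comp z hf.hasFDerivAt
  rw [h.fderiv]
  simp

theorem Dy_comp_real {f : ℂ → ℝ} {g : ℝ → V} {g' : V} {z : ℂ} (hf : DifferentiableAt ℝ f z)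
    (hg : HasDerivAt g g' (f z)) : Dy (fun y => g (f y)) z = Dy f z • g' := by
  unfold Dy
  have h : HasFDerivAt (fun y => g (f y)) _ z :=
    hg.hasFDerivAt.comp z hf.hasFDerivAt
  rw [h.fderiv]
  simp

theorem Dx_exp {f : ℂ → ℝ} {z : ℂ} (hf : DifferentiableAt ℝ f z) (c : ℝ) :
    Dx (fun y => Real.exp (c * f y)) z = c * Real.exp (c * f z) * Dx f z := by
  have h : HasDerivAt (fun t : ℝ => Real.exp (c * t)) (Real.exp (c * f z) * (c * 1)) (f z) :=
    ((hasDerivAt_id (f z)).const_mul c).exp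
  rw [Dx_comp_real hf h, smul_eq_mul]
  ring

theorem Dy_exp {f : ℂ → ℝ} {z : ℂ} (hf : DifferentiableAt ℝ f z) (c : ℝ) :
    Dy (fun y => Real.exp (c * f y)) z = c * Real.exp (c * f z) * Dy f z := by
  have h : HasDerivAt (fun t : ℝ => Real.exp (c * t)) (Real.exp (c * f z) * (c * 1)) (f z) :=
    ((hasDerivAt_id (f z)).const_mul c).exp
  rw [Dy_comp_real hf h, smul_eq_mul]
  ring

/-- Coercion `ℝ → ℂ`. -/
theorem Dx_ofReal {f : ℂ → ℝ} {z : ℂ} (hf : DifferentiableAt ℝ f z) :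
    Dx (fun y => (f y : ℂ)) z = ((Dx f z : ℝ) : ℂ) := by
  unfold Dx
  have h : HasFDerivAt (fun y => (f y : ℂ)) (Complex.ofRealCLM.comp (fderiv ℝ f z)) z :=
    Complex.ofRealCLM.hasFDerivAt.comp z hf.hasFDerivAt
  rw [h.fderiv]
  rfl

theorem Dy_ofReal {f : ℂ → ℝ} {z : ℂ} (hf : DifferentiableAt ℝ f z) :
    Dy (fun y => (f y : ℂ)) z = ((Dy f z : ℝ) : ℂ) := by
  unfold Dy
  have h : HasFDerivAt (fun y => (f y : ℂ)) (Complex.ofRealCLM.comp (fderiv ℝ f z)) z :=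
    Complex.ofRealCLM.hasFDerivAt.comp z hf.hasFDerivAt
  rw [h.fderiv]
  rfl

end Pool.Agent.KK
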