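import Pool.Agent.W_bb4b37_h53.CalcA
import Pool.Agent.W_bb4b37_h53.CalcB

/-!
# Convergence lemmas

`conv_smooth`: uniform convergence together with uniform bounds on all derivatives gives a smooth
limit. `ulim_C2`: ultrafilter limits of `C²` functions with locally uniform `C^{2,1/2}` bounds.
-/

set_option autoImplicit false

open Filter Topology Set MeasureTheory Metric
open scoped ContDiff

namespace Pool.Agent.KK

variable {V : Type*} [NormedAddCommGroup V] [NormedSpace ℝ V]

/-- Rewriting the derivative in a direction. -/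
theorem ConvA_hasDerivAt {f : ℂ → V} (hf : Differentiable ℝ f) (z e : ℂ) (t : ℝ) :
    HasDerivAt (fun s : ℝ => f (z + (s : ℂ) * e)) (fderiv ℝ f (z + (t : ℂ) * e) e) t := by
  have h1 : HasDerivAt (fun s : ℝ => z + (s : ℂ) * e) e t := by
    have h2 : HasDerivAt (fun s : ℝ => (s : ℂ)) 1 t := Complex.ofRealCLM.hasDerivAt
    have h3 : HasDerivAt (fun s : ℝ => z + (s : ℂ) * e) ((1 : ℂ) * e) t :=
      (h2.mul_const e).const_add z
    rwa [one_mul] at h3
  exact ((hf _).hasFDerivAt).comp_hasDerivAt t h1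

/-- The mean value inequality in a direction. -/
theorem ConvA_mv {g : ℂ → V} (hg : Differentiable ℝ g) {e : ℂ} {C : ℝ}
    (hC : ∀ w, ‖fderiv ℝ g w e‖ ≤ C) (z : ℂ) {t : ℝ} (ht : 0 ≤ t) :
    ‖g (z + (t : ℂ) * e) - g z‖ ≤ C * t := by
  have h := norm_image_sub_le_of_norm_deriv_le_segment' (a := 0) (b := t)
    (f := fun s : ℝ => g (z + (s : ℂ) * e))
    (f' := fun s : ℝ => fderiv ℝ g (z + (s : ℂ) * e) e) (C := C)
    (fun x _ => (ConvA_hasDerivAt hg z e x).hasDerivWithinAt) (fun x _ => hC _) t
    ⟨ht, le_refl t⟩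
  simpa using h

/-- Interpolation in one direction. -/
theorem ConvA_interp {f : ℂ → V} (hf : Differentiable ℝ f) {e : ℂ}
    (hf2 : Differentiable ℝ (fun w => fderiv ℝ f w e)) {M N : ℝ} (hM : ∀ z, ‖f z‖ ≤ M)
    (hN : ∀ z, ‖fderiv ℝ (fun w => fderiv ℝ f w e) z e‖ ≤ N) {h : ℝ} (hh : 0 < h) (z : ℂ) :
    ‖fderiv ℝ f z e‖ ≤ 2 * M / h + h * N := by
  have hN0 : 0 ≤ N := (norm_nonneg _).trans (hN z)
  have h1 := norm_image_sub_le_of_norm_deriv_le_segment' (a := 0) (b := h)
    (f := fun s : ℝ => f (z + (s : ℂ) * e) - s • fderiv ℝ f z e)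
    (f' := fun s : ℝ => fderiv ℝ f (z + (s : ℂ) * e) e - (1 : ℝ) • fderiv ℝ f z e) (C := N * h)
    (fun x _ => ((ConvA_hasDerivAt hf z e x).sub
      ((hasDerivAt_id x).smul_const _)).hasDerivWithinAt)
    (fun x hx => by
      rw [one_smul]
      exact (ConvA_mv hf2 hN z hx.1).trans (mul_le_mul_of_nonneg_left hx.2.le hN0)) h
    ⟨hh.le, le_refl h⟩
  have h2 : h • fderiv ℝ f z e = f (z + (h : ℂ) * e) - f z -
      ((f (z + (h : ℂ) * e) - h • fderiv ℝ f z e) -
        (f (z + ((0 : ℝ) : ℂ) * e) - (0 : ℝ) • fderiv ℝ f z e)) := by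
    rw [Complex.ofReal_zero, zero_mul, add_zero, zero_smul]
    abel
  have h3 : ‖h • fderiv ℝ f z e‖ ≤ 2 * M + N * h * h := by
    rw [h2]
    refine (norm_sub_le _ _).trans (add_le_add ?_ ?_)
    · refine (norm_sub_le _ _).trans ?_
      linarith only [hM (z + (h : ℂ) * e), hM z]
    · simpa only [sub_zero] using h1
  rw [norm_smul, Real.norm_eq_abs, abs_of_pos hh] at h3
  have h4 : 2 * M / h + h * N = (2 * M + N * h * h) / h := by
    field_simp
  rw [h4, le_div_iff₀ hh, mul_comm]
  exact h3

/-- The linear map with prescribed values on `1` and `i`. -/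
noncomputable def ConvA_L (a b : V) : ℂ →L[ℝ] V :=
  Complex.reCLM.smulRight a + Complex.imCLM.smulRight b

theorem ConvA_L_apply (a b : V) (v : ℂ) : ConvA_L a b v = v.re • a + v.im • b := rfl

theorem ConvA_fderiv (f : ℂ → V) (z : ℂ) : fderiv ℝ f z = ConvA_L (Dx f z) (Dy f z) := by
  ext1 v
  rw [ConvA_L_apply, fderiv_eq]

theorem ConvA_L_dist (a b a' b' : V) :
    dist (ConvA_L a b) (ConvA_L a' b') ≤ dist a a' + dist b b' := by
  rw [dist_eq_norm, dist_eq_norm, dist_eq_norm]
  refine ContinuousLinearMap.opNorm_le_bound _ (by positivity) (fun v => ?_)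
  have h1 : (ConvA_L a b - ConvA_L a' b') v = v.re • (a - a') + v.im • (b - b') := by
    rw [sub_apply, ConvA_L_apply, ConvA_L_apply, smul_sub, smul_sub]
    abel
  rw [h1]
  refine (norm_add_le _ _).trans ?_
  rw [norm_smul, norm_smul, Real.norm_eq_abs, Real.norm_eq_abs, add_mul, mul_comm ‖a - a'‖,
    mul_comm ‖b - b'‖]
  exact add_le_add (mul_le_mul_of_nonneg_right (Complex.abs_re_le_norm v) (norm_nonneg _))
    (mul_le_mul_of_nonneg_right (Complex.abs_im_le_norm v) (norm_nonneg _))

/-- The derivative of a limit. -/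
theorem ConvA_limit {f : ℕ → ℂ → V} {g gx gy : ℂ → V} (hf : ∀ n, Differentiable ℝ (f n))
    (h0 : TendstoUniformly f g atTop) (hx : TendstoUniformly (fun n => Dx (f n)) gx atTop)
    (hy : TendstoUniformly (fun n => Dy (f n)) gy atTop) :
    Differentiable ℝ g ∧ Dx g = gx ∧ Dy g = gy := by
  have hu : TendstoUniformly (fun n z => fderiv ℝ (f n) z)
      (fun z => ConvA_L (gx z) (gy z)) atTop := by
    rw [Metric.tendstoUniformly_iff] at hx hy ⊢
    intro ε hε
    filter_upwards [hx (ε / 2) (by positivity), hy (ε / 2) (by positivity)] with n h1 h2 z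
    rw [ConvA_fderiv]
    refine (ConvA_L_dist _ _ _ _).trans_lt ?_
    linarith only [h1 z, h2 z]
  have hd : ∀ z, HasFDerivAt g (ConvA_L (gx z) (gy z)) z := fun z =>
    hasFDerivAt_of_tendstoUniformly hu (fun n x => (hf n x).hasFDerivAt)
      (fun x => h0.tendsto_at x) z
  refine ⟨fun z => (hd z).differentiableAt, ?_, ?_⟩
  · funext z
    show fderiv ℝ g z 1 = gx z
    rw [(hd z).fderiv, ConvA_L_apply]
    simp
  · funext z
    show fderiv ℝ g z Complex.I = gy z
    rw [(hd z).fderiv, ConvA_L_apply]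
    simp

omit [NormedSpace ℝ V] in
/-- A uniformly Cauchy sequence converges uniformly. -/
theorem ConvA_exists_lim [CompleteSpace V] {F : ℕ → ℂ → V}
    (h : UniformCauchySeqOn F atTop univ) : ∃ G : ℂ → V, TendstoUniformly F G atTop := by
  have h1 : ∀ z, ∃ w, Tendsto (fun n => F n z) atTop (𝓝 w) := fun z =>
    cauchySeq_tendsto_of_complete (h.cauchySeq (mem_univ z))
  choose G hG using h1
  exact ⟨G, tendstoUniformlyOn_univ.1 (h.tendstoUniformlyOn_of_tendsto (fun z _ => hG z))⟩

/-- Regularity from regularity of the partial derivatives. -/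
theorem ConvA_contDiff_succ {g : ℂ → V} {n : ℕ} (hd : Differentiable ℝ g)
    (hx : ContDiff ℝ n (Dx g)) (hy : ContDiff ℝ n (Dy g)) : ContDiff ℝ ((n : ℕ) + 1) g := by
  rw [contDiff_succ_iff_fderiv]
  refine ⟨hd, fun h => absurd h (by simp), ?_⟩
  have h1 : fderiv ℝ g = fun z => ConvA_L (Dx g z) (Dy g z) := by
    funext z
    exact ConvA_fderiv g z
  rw [h1]
  unfold ConvA_L
  exact ((contDiff_const (c := Complex.reCLM)).smulRight hx).add
    ((contDiff_const (c := Complex.imCLM)).smulRight hy)

/-- Interpolation: if `‖f‖ ≤ M` and all second derivatives are bounded by `N` on `ℂ`, then first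
derivatives are bounded by `2 M / h + h N` for every `h > 0`.
Proof: Taylor's formula on the segment from `z` to `z + h e`, `e = 1` or `e = i`:
`f (z + h e) - f z = h D_e f z + R`, `‖R‖ ≤ N h² / 2`. -/
theorem interpolation {f : ℂ → V} (hf : ContDiff ℝ 2 f) {M N : ℝ} (hM : ∀ z, ‖f z‖ ≤ M)
    (hN : ∀ z, ∀ l : List Bool, l.length = 2 → ‖DD l f z‖ ≤ N) {h : ℝ} (hh : 0 < h) (z : ℂ)
    {l : List Bool} (hl : l.length = 1) : ‖DD l f z‖ ≤ 2 * M / h + h * N := by
  have hd : Differentiable ℝ f := hf.differentiable (by norm_num)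
  have h1 : (1 : WithTop ℕ∞) + 1 ≤ 2 := by norm_num
  obtain ⟨b, rfl⟩ := List.length_eq_one_iff.1 hl
  cases b
  · exact ConvA_interp (e := Complex.I) hd ((contDiff_Dy hf h1).differentiable (by norm_num)) hM
      (fun w => hN w [false, false] rfl) hh z
  · exact ConvA_interp (e := 1) hd ((contDiff_Dx hf h1).differentiable (by norm_num)) hM
      (fun w => hN w [true, true] rfl) hh z

/-- Algebra: `DD l` of a difference of smooth functions. -/
theorem ConvA_DD_sub {f g : ℂ → V} (hf : ContDiff ℝ ∞ f) (hg : ContDiff ℝ ∞ g) (l : List Bool) :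
    DD l (fun z => f z - g z) = fun z => DD l f z - DD l g z := by
  induction l with
  | nil => rfl
  | cons b l ih =>
    have h1 : Differentiable ℝ (DD l f) := (contDiff_DD hf l).differentiable (by simp)
    have h2 : Differentiable ℝ (DD l g) := (contDiff_DD hg l).differentiable (by simp)
    funext z
    cases b
    · rw [DD_false, ih, Dy_sub (h1 z) (h2 z), DD_false, DD_false]
    · rw [DD_true, ih, Dx_sub (h1 z) (h2 z), DD_true, DD_true]

/-- A bound valid for all lists of length two. -/
theorem ConvA_bound_two {f : ℕ → ℂ → V}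
    (hb : ∀ l : List Bool, ∃ B : ℝ, ∀ n z, ‖DD l (f n) z‖ ≤ B) (l : List Bool) :
    ∃ B : ℝ, 0 ≤ B ∧ ∀ l' : List Bool, l'.length = 2 → ∀ n z, ‖DD (l' ++ l) (f n) z‖ ≤ B := by
  choose B hB using hb
  refine ⟨|B (true :: true :: l)| + |B (true :: false :: l)| + |B (false :: true :: l)| +
    |B (false :: false :: l)|, by positivity, ?_⟩
  intro l' hl' n z
  obtain ⟨a, b, rfl⟩ := List.length_eq_two.1 hl'
  have e1 := le_abs_self (B (true :: true :: l))
  have e2 := le_abs_self (B (true :: false :: l))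
  have e3 := le_abs_self (B (false :: true :: l))
  have e4 := le_abs_self (B (false :: false :: l))
  have a1 := abs_nonneg (B (true :: true :: l))
  have a2 := abs_nonneg (B (true :: false :: l))
  have a3 := abs_nonneg (B (false :: true :: l))
  have a4 := abs_nonneg (B (false :: false :: l))
  cases a <;> cases b
  · refine (hB (false :: false :: l) n z).trans ?_
    linarith only [e4, a1, a2, a3]
  · refine (hB (false :: true :: l) n z).trans ?_
    linarith only [e3, a1, a2, a4]
  · refine (hB (true :: false :: l) n z).trans ?_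
    linarith only [e2, a1, a3, a4]
  · refine (hB (true :: true :: l) n z).trans ?_
    linarith only [e1, a2, a3, a4]

/-- All derivatives form uniformly Cauchy sequences. -/
theorem ConvA_cauchy_all {f : ℕ → ℂ → V} {g : ℂ → V}
    (hf : ∀ n, ContDiff ℝ ∞ (f n))
    (hb : ∀ l : List Bool, ∃ B : ℝ, ∀ n z, ‖DD l (f n) z‖ ≤ B)
    (hu : TendstoUniformly f g atTop) (l : List Bool) :
    UniformCauchySeqOn (fun n => DD l (f n)) atTop univ := by
  induction l with
  | nil => exact (tendstoUniformlyOn_univ.2 hu).uniformCauchySeqOn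
  | cons b l ih =>
    obtain ⟨B, hB0, hB⟩ := ConvA_bound_two hb l
    rw [Metric.uniformCauchySeqOn_iff] at ih ⊢
    intro ε hε
    have hB1 : 0 < 2 * B + 1 := by linarith only [hB0]
    have hh : 0 < ε / 2 / (2 * B + 1) := by positivity
    obtain ⟨N, hN⟩ := ih (ε / 2 / (2 * B + 1) * (ε / 8)) (by positivity)
    refine ⟨N, fun m hm n hn z _ => ?_⟩
    have hs : ContDiff ℝ ∞ (fun w => f m w - f n w) := (hf m).sub (hf n)
    have hs2 : ContDiff ℝ 2 (DD l (fun w => f m w - f n w)) :=
      contDiff_infty.1 (contDiff_DD hs l) 2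
    have h1 := interpolation hs2 (M := ε / 2 / (2 * B + 1) * (ε / 8)) (N := 2 * B)
      (fun w => by
        rw [ConvA_DD_sub (hf m) (hf n)]
        have h2 := hN m hm n hn w (mem_univ w)
        rw [dist_eq_norm] at h2
        exact h2.le)
      (fun w l' hl' => by
        rw [← DD_append, ConvA_DD_sub (hf m) (hf n)]
        refine (norm_sub_le _ _).trans ?_
        linarith only [hB l' hl' m w, hB l' hl' n w])
      hh z (l := [b]) rfl
    rw [← DD_append, ConvA_DD_sub (hf m) (hf n)] at h1
    rw [dist_eq_norm]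
    refine (h1 : ‖DD (b :: l) (f m) z - DD (b :: l) (f n) z‖ ≤ _).trans_lt ?_
    have h3 : 2 * (ε / 2 / (2 * B + 1) * (ε / 8)) / (ε / 2 / (2 * B + 1)) = ε / 4 := by
      field_simp
      ring
    have h4 : ε / 2 / (2 * B + 1) * (2 * B) ≤ ε / 2 := by
      rw [div_mul_eq_mul_div, div_le_iff₀ hB1]
      exact mul_le_mul_of_nonneg_left (by linarith only []) (by positivity)
    rw [h3]
    linarith only [h4, hε]

/-- Uniform convergence + uniform bounds on all derivatives. Proof: apply `interpolation` to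
`DD l (f n - f m)` (induction on the length of `l`) to see that all `DD l (f n)` are uniformly
Cauchy; then use `hasFDerivAt_of_tendstoUniformlyOn...` from Mathlib (the derivative of a uniform
limit) and induction. -/
theorem conv_smooth [CompleteSpace V] {f : ℕ → ℂ → V} {g : ℂ → V}
    (hf : ∀ n, ContDiff ℝ ∞ (f n))
    (hb : ∀ l : List Bool, ∃ B : ℝ, ∀ n z, ‖DD l (f n) z‖ ≤ B)
    (hu : TendstoUniformly f g atTop) :
    ContDiff ℝ ∞ g ∧ ∀ l : List Bool, TendstoUniformly (fun n => DD l (f n)) (DD l g) atTop := by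
  have hc := ConvA_cauchy_all hf hb hu
  choose G hG using fun l => ConvA_exists_lim (hc l)
  have hdn : ∀ l n, Differentiable ℝ (DD l (f n)) := fun l n =>
    (contDiff_DD (hf n) l).differentiable (by simp)
  have hlim : ∀ l, Differentiable ℝ (G l) ∧ Dx (G l) = G (true :: l) ∧
      Dy (G l) = G (false :: l) := fun l =>
    ConvA_limit (hdn l) (hG l) (hG (true :: l)) (hG (false :: l))
  have h0 : G [] = g := by
    funext z
    exact tendsto_nhds_unique ((hG []).tendsto_at z) (hu.tendsto_at z)
  have hDD : ∀ l, DD l g = G l := by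
    intro l
    induction l with
    | nil => exact h0.symm
    | cons b l ih =>
      cases b
      · rw [DD_false, ih, (hlim l).2.2]
      · rw [DD_true, ih, (hlim l).2.1]
  have hsm : ∀ n : ℕ, ∀ l, ContDiff ℝ n (G l) := by
    intro n
    induction n with
    | zero =>
      intro l
      exact_mod_cast contDiff_zero.2 (hlim l).1.continuous
    | succ n ih =>
      intro l
      have h1 := ConvA_contDiff_succ (n := n) (hlim l).1 (by rw [(hlim l).2.1]; exact ih _)
        (by rw [(hlim l).2.2]; exact ih _)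
      exact_mod_cast h1
  refine ⟨?_, fun l => ?_⟩
  · rw [← h0]
    exact contDiff_infty.2 (fun n => hsm n [])
  · rw [hDD l]
    exact hG l

/-- A sequence of `C²` functions whose derivatives of order at most two converge uniformly. -/
theorem conv_C2 [CompleteSpace V] {f : ℕ → ℂ → V} (hf : ∀ n, ContDiff ℝ 2 (f n))
    (hc : ∀ l : List Bool, l.length ≤ 2 → UniformCauchySeqOn (fun n => DD l (f n)) atTop univ) :
    ∃ g : ℂ → V, ContDiff ℝ 2 g ∧
      ∀ l : List Bool, l.length ≤ 2 → TendstoUniformly (fun n => DD l (f n)) (DD l g) atTop := by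
  have hex : ∀ l : List Bool, ∃ G : ℂ → V, l.length ≤ 2 →
      TendstoUniformly (fun n => DD l (f n)) G atTop := by
    intro l
    by_cases hl : l.length ≤ 2
    · obtain ⟨G, hG⟩ := ConvA_exists_lim (hc l hl)
      exact ⟨G, fun _ => hG⟩
    · exact ⟨0, fun h => absurd h hl⟩
  choose G hG using hex
  have hC1 : ∀ l : List Bool, l.length ≤ 2 → ∀ n, ContDiff ℝ ((2 - l.length : ℕ) : WithTop ℕ∞)
      (DD l (f n)) := by
    intro l
    induction l with
    | nil => exact fun _ n => hf n
    | cons b l ih =>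
      intro hl n
      rw [List.length_cons] at hl ⊢
      have h1 := ih (by omega) n
      have h2 : ((2 - (l.length + 1) : ℕ) : WithTop ℕ∞) + 1 ≤ ((2 - l.length : ℕ) : WithTop ℕ∞) := by
        have h3 : (2 - (l.length + 1)) + 1 ≤ 2 - l.length := by omega
        exact_mod_cast h3
      cases b
      · exact contDiff_Dy h1 h2
      · exact contDiff_Dx h1 h2
  have hdn : ∀ l : List Bool, l.length ≤ 1 → ∀ n, Differentiable ℝ (DD l (f n)) := by
    intro l hl n
    refine (hC1 l (by omega) n).differentiable ?_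
    have h1 : (2 - l.length : ℕ) ≠ 0 := by omega
    exact_mod_cast h1
  have hlim : ∀ l : List Bool, l.length ≤ 1 → Differentiable ℝ (G l) ∧
      Dx (G l) = G (true :: l) ∧ Dy (G l) = G (false :: l) := fun l hl =>
    ConvA_limit (hdn l hl) (hG l (by omega))
      (hG (true :: l) (by rw [List.length_cons]; omega))
      (hG (false :: l) (by rw [List.length_cons]; omega))
  have hDD : ∀ l : List Bool, l.length ≤ 2 → DD l (G []) = G l := by
    intro l
    induction l with
    | nil => exact fun _ => rfl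
    | cons b l ih =>
      intro hl
      rw [List.length_cons] at hl
      cases b
      · rw [DD_false, ih (by omega), (hlim l (by omega)).2.2]
      · rw [DD_true, ih (by omega), (hlim l (by omega)).2.1]
  have hcont : ∀ l : List Bool, l.length ≤ 2 → ContDiff ℝ (0 : ℕ) (G l) := by
    intro l hl
    have h1 : Continuous (G l) :=
      (hG l hl).continuous (Frequently.of_forall (fun n => (hC1 l hl n).continuous))
    exact_mod_cast contDiff_zero.2 h1
  have hone : ∀ l : List Bool, l.length ≤ 1 → ContDiff ℝ (1 : ℕ) (G l) := by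
    intro l hl
    have h1 := ConvA_contDiff_succ (n := 0) (hlim l hl).1
      (by rw [(hlim l hl).2.1]; exact hcont _ (by rw [List.length_cons]; omega))
      (by rw [(hlim l hl).2.2]; exact hcont _ (by rw [List.length_cons]; omega))
    exact_mod_cast h1
  refine ⟨G [], ?_, fun l hl => ?_⟩
  · have h0 := hlim [] (by simp)
    have h1 := ConvA_contDiff_succ (n := 1) h0.1
      (by rw [h0.2.1]; exact hone _ (by simp)) (by rw [h0.2.2]; exact hone _ (by simp))
    have h2 : (((1 : ℕ) : WithTop ℕ∞) + 1) = 2 := by norm_num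
    rw [h2] at h1
    exact h1
  · rw [hDD l hl]
    exact hG l hl

end Pool.Agent.KK
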