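import Pool.Agent.W_bb4b37_h53.BeltramiB
import Pool.Agent.W_bb4b37_h53.BeltramiC
import Pool.Agent.W_bb4b37_h53.ConvA

/-!
# The Beltrami equation with smooth periodic coefficient (part D)
-/

set_option autoImplicit false

open Filter Topology Set MeasureTheory Metric
open scoped ContDiff

namespace Pool.Agent.KK

/-- geometric decay of the squares of the `L²` norms -/
def BeltramiD_G (g : ℕ → ℂ → ℂ) : Prop :=
  ∃ C : ℝ, 0 ≤ C ∧ ∀ j, ∫ z in cell, ‖g j z‖ ^ 2 ≤ C * (3 / 4) ^ j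

/-- geometric decay of all derivatives of order at most `n` -/
def BeltramiD_H : ℕ → (ℕ → ℂ → ℂ) → Prop
  | 0, g => BeltramiD_G g
  | n + 1, g => BeltramiD_G g ∧ BeltramiD_H n (fun j => Dx (g j)) ∧
      BeltramiD_H n (fun j => Dy (g j))

theorem BeltramiD_H_geo {n : ℕ} {g : ℕ → ℂ → ℂ} (h : BeltramiD_H n g) : BeltramiD_G g := by
  cases n with
  | zero => exact h
  | succ n => exact h.1

theorem BeltramiD_H_mono (n : ℕ) : ∀ {g : ℕ → ℂ → ℂ}, BeltramiD_H (n + 1) g → BeltramiD_H n g := by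
  induction n with
  | zero => intro g h; exact h.1
  | succ n ih => intro g h; exact ⟨h.1, ih h.2.1, ih h.2.2⟩

theorem BeltramiD_G_add {f g : ℕ → ℂ → ℂ} (hfc : ∀ j, Continuous (f j))
    (hgc : ∀ j, Continuous (g j)) (hf : BeltramiD_G f) (hg : BeltramiD_G g) :
    BeltramiD_G (fun j z => f j z + g j z) := by
  obtain ⟨C, hC0, hC⟩ := hf
  obtain ⟨D, hD0, hD⟩ := hg
  refine ⟨2 * C + 2 * D, by positivity, fun j => ?_⟩
  have i1 : IntegrableOn (fun z => 2 * ‖f j z‖ ^ 2) cell :=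
    BeltramiA_int (continuous_const.mul ((hfc j).norm.pow 2))
  have i2 : IntegrableOn (fun z => 2 * ‖g j z‖ ^ 2) cell :=
    BeltramiA_int (continuous_const.mul ((hgc j).norm.pow 2))
  have h1 : ∫ z in cell, ‖f j z + g j z‖ ^ 2 ≤
      ∫ z in cell, (2 * ‖f j z‖ ^ 2 + 2 * ‖g j z‖ ^ 2) := by
    refine setIntegral_mono ?_ (i1.add i2) fun z => ?_
    · exact BeltramiA_int (((hfc j).add (hgc j)).norm.pow 2)
    · have h2 := pow_le_pow_left₀ (norm_nonneg _) (norm_add_le (f j z) (g j z)) 2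
      have h3 := sq_nonneg (‖f j z‖ - ‖g j z‖)
      show ‖f j z + g j z‖ ^ 2 ≤ 2 * ‖f j z‖ ^ 2 + 2 * ‖g j z‖ ^ 2
      nlinarith
  rw [integral_add i1 i2, integral_const_mul, integral_const_mul] at h1
  have h4 := hC j
  have h5 := hD j
  nlinarith

theorem BeltramiD_G_mul {a : ℂ → ℂ} {K : ℝ} (ha : Continuous a) (hK : ∀ z, ‖a z‖ ≤ K)
    {g : ℕ → ℂ → ℂ} (hgc : ∀ j, Continuous (g j)) (hg : BeltramiD_G g) :
    BeltramiD_G (fun j z => a z * g j z) := by
  obtain ⟨C, hC0, hC⟩ := hg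
  refine ⟨K ^ 2 * C, by positivity, fun j => ?_⟩
  have h1 : ∫ z in cell, ‖a z * g j z‖ ^ 2 ≤ ∫ z in cell, K ^ 2 * ‖g j z‖ ^ 2 := by
    refine setIntegral_mono ?_ ?_ fun z => ?_
    · exact BeltramiA_int ((ha.mul (hgc j)).norm.pow 2)
    · exact BeltramiA_int (continuous_const.mul ((hgc j).norm.pow 2))
    · show ‖a z * g j z‖ ^ 2 ≤ K ^ 2 * ‖g j z‖ ^ 2
      rw [norm_mul, mul_pow]
      exact mul_le_mul_of_nonneg_right (pow_le_pow_left₀ (norm_nonneg _) (hK z) 2) (sq_nonneg _)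
  rw [integral_const_mul] at h1
  have h2 := mul_le_mul_of_nonneg_left (hC j) (sq_nonneg K)
  linarith

theorem BeltramiD_G_shift {g : ℕ → ℂ → ℂ} (hg : BeltramiD_G g) :
    BeltramiD_G (fun j => g (j - 1)) := by
  obtain ⟨C, hC0, hC⟩ := hg
  refine ⟨4 / 3 * C, by positivity, fun j => ?_⟩
  refine (hC (j - 1)).trans ?_
  cases j with
  | zero => simp only [Nat.zero_sub, pow_zero, mul_one]; linarith
  | succ j =>
    rw [Nat.add_sub_cancel, pow_succ]
    apply le_of_eq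
    ring

theorem BeltramiD_diff {f : ℂ → ℂ} (hf : ContDiff ℝ ∞ f) (z : ℂ) : DifferentiableAt ℝ f z :=
  hf.differentiable (by simp) z

theorem BeltramiD_H_add (n : ℕ) : ∀ {f g : ℕ → ℂ → ℂ}, (∀ j, ContDiff ℝ ∞ (f j)) →
    (∀ j, ContDiff ℝ ∞ (g j)) → BeltramiD_H n f → BeltramiD_H n g →
    BeltramiD_H n (fun j z => f j z + g j z) := by
  induction n with
  | zero =>
    intro f g hf hg h1 h2
    exact BeltramiD_G_add (fun j => (hf j).continuous) (fun j => (hg j).continuous) h1 h2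
  | succ n ih =>
    intro f g hf hg h1 h2
    refine ⟨BeltramiD_G_add (fun j => (hf j).continuous) (fun j => (hg j).continuous) h1.1 h2.1,
      ?_, ?_⟩
    · have e : (fun j => Dx (fun z => f j z + g j z)) = fun j z => Dx (f j) z + Dx (g j) z := by
        funext j z
        exact Dx_add (BeltramiD_diff (hf j) z) (BeltramiD_diff (hg j) z)
      rw [e]
      exact ih (fun j => contDiff_DD (hf j) [true]) (fun j => contDiff_DD (hg j) [true])
        h1.2.1 h2.2.1
    · have e : (fun j => Dy (fun z => f j z + g j z)) = fun j z => Dy (f j) z + Dy (g j) z := by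
        funext j z
        exact Dy_add (BeltramiD_diff (hf j) z) (BeltramiD_diff (hg j) z)
      rw [e]
      exact ih (fun j => contDiff_DD (hf j) [false]) (fun j => contDiff_DD (hg j) [false])
        h1.2.2 h2.2.2

theorem BeltramiD_H_mul (n : ℕ) : ∀ {a : ℂ → ℂ} {g : ℕ → ℂ → ℂ}, ContDiff ℝ ∞ a → Per 0 a →
    (∀ j, ContDiff ℝ ∞ (g j)) → BeltramiD_H n g → BeltramiD_H n (fun j z => a z * g j z) := by
  induction n with
  | zero =>
    intro a g ha hp hg h1
    obtain ⟨K, hK⟩ := per_bounded (by simp) hp ha.continuous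
    exact BeltramiD_G_mul ha.continuous hK (fun j => (hg j).continuous) h1
  | succ n ih =>
    intro a g ha hp hg h1
    obtain ⟨K, hK⟩ := per_bounded (by simp) hp ha.continuous
    refine ⟨BeltramiD_G_mul ha.continuous hK (fun j => (hg j).continuous) h1.1, ?_, ?_⟩
    · have e : (fun j => Dx (fun z => a z * g j z)) =
          fun j z => Dx a z * g j z + a z * Dx (g j) z := by
        funext j z
        exact Dx_mul (BeltramiD_diff ha z) (BeltramiD_diff (hg j) z)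
      rw [e]
      have ha' : ContDiff ℝ ∞ (Dx a) := contDiff_DD ha [true]
      have hg' : ∀ j, ContDiff ℝ ∞ (Dx (g j)) := fun j => contDiff_DD (hg j) [true]
      exact BeltramiD_H_add n (fun j => ha'.mul (hg j)) (fun j => ha.mul (hg' j))
        (ih ha' (per_Dx hp) hg (BeltramiD_H_mono n h1)) (ih ha hp hg' h1.2.1)
    · have e : (fun j => Dy (fun z => a z * g j z)) =
          fun j z => Dy a z * g j z + a z * Dy (g j) z := by
        funext j z
        exact Dy_mul (BeltramiD_diff ha z) (BeltramiD_diff (hg j) z)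
      rw [e]
      have ha' : ContDiff ℝ ∞ (Dy a) := contDiff_DD ha [false]
      have hg' : ∀ j, ContDiff ℝ ∞ (Dy (g j)) := fun j => contDiff_DD (hg j) [false]
      exact BeltramiD_H_add n (fun j => ha'.mul (hg j)) (fun j => ha.mul (hg' j))
        (ih ha' (per_Dy hp) hg (BeltramiD_H_mono n h1)) (ih ha hp hg' h1.2.2)

theorem BeltramiD_H_shift (n : ℕ) : ∀ {g : ℕ → ℂ → ℂ}, BeltramiD_H n g →
    BeltramiD_H n (fun j => g (j - 1)) := by
  induction n with
  | zero => intro g h; exact BeltramiD_G_shift h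
  | succ n ih => intro g h; exact ⟨BeltramiD_G_shift h.1, ih h.2.1, ih h.2.2⟩

theorem BeltramiD_per_const (c : ℂ) : Per 0 (fun _ : ℂ => c) := fun _ _ _ => rfl

theorem BeltramiD_at2 {f : ℂ → ℂ} (hf : ContDiff ℝ ∞ f) (z : ℂ) : ContDiffAt ℝ 2 f z :=
  hf.contDiffAt.of_le (by norm_cast)

/-- derivatives of linear combinations -/
theorem BeltramiD_lin (D : (ℂ → ℂ) → ℂ → ℂ)
    (hD : ∀ (f g : ℂ → ℂ) (c : ℂ) (z : ℂ), DifferentiableAt ℝ f z → DifferentiableAt ℝ g z →
      D (fun y => (f y + c * g y) / 2) z = (D f z + c * D g z) / 2)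
    {f : ℂ → ℂ} (hf : ContDiff ℝ ∞ f) (c : ℂ) (hx : ∀ z, D (Dx f) z = Dx (D f) z)
    (hy : ∀ z, D (Dy f) z = Dy (D f) z) (z : ℂ) :
    D (fun y => (Dx f y + c * Dy f y) / 2) z = (Dx (D f) z + c * Dy (D f) z) / 2 := by
  have h1 : DifferentiableAt ℝ (Dx f) z := BeltramiD_diff (contDiff_DD hf [true]) z
  have h2 : DifferentiableAt ℝ (Dy f) z := BeltramiD_diff (contDiff_DD hf [false]) z
  rw [hD _ _ _ _ h1 h2, hx, hy]

theorem BeltramiD_linx (f g : ℂ → ℂ) (c : ℂ) (z : ℂ) (hf : DifferentiableAt ℝ f z)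
    (hg : DifferentiableAt ℝ g z) :
    Dx (fun y => (f y + c * g y) / 2) z = (Dx f z + c * Dx g z) / 2 := by
  have e : (fun y => (f y + c * g y) / 2) = fun y => (f y + c * g y) * (fun _ => (1 / 2 : ℂ)) y := by
    funext y
    ring
  have hc : DifferentiableAt ℝ (fun _ : ℂ => c) z := differentiableAt_const _
  have h1 : DifferentiableAt ℝ (fun y => c * g y) z := hc.mul hg
  have h2 : DifferentiableAt ℝ (fun y => f y + c * g y) z := hf.add h1
  rw [e, Dx_mul h2 (differentiableAt_const _), Dx_add hf h1, Dx_mul hc hg, Dx_const, Dx_const]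
  ring

theorem BeltramiD_liny (f g : ℂ → ℂ) (c : ℂ) (z : ℂ) (hf : DifferentiableAt ℝ f z)
    (hg : DifferentiableAt ℝ g z) :
    Dy (fun y => (f y + c * g y) / 2) z = (Dy f z + c * Dy g z) / 2 := by
  have e : (fun y => (f y + c * g y) / 2) = fun y => (f y + c * g y) * (fun _ => (1 / 2 : ℂ)) y := by
    funext y
    ring
  have hc : DifferentiableAt ℝ (fun _ : ℂ => c) z := differentiableAt_const _
  have h1 : DifferentiableAt ℝ (fun y => c * g y) z := hc.mul hg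
  have h2 : DifferentiableAt ℝ (fun y => f y + c * g y) z := hf.add h1
  rw [e, Dy_mul h2 (differentiableAt_const _), Dy_add hf h1, Dy_mul hc hg, Dy_const, Dy_const]
  ring

theorem BeltramiD_Dz_eq (f : ℂ → ℂ) : Dz f = fun y => (Dx f y + (-Complex.I) * Dy f y) / 2 := by
  funext y
  unfold Dz
  ring

theorem BeltramiD_Dzb_eq (f : ℂ → ℂ) : Dzb f = fun y => (Dx f y + Complex.I * Dy f y) / 2 := rfl

theorem BeltramiD_xz {f : ℂ → ℂ} (hf : ContDiff ℝ ∞ f) : Dx (Dz f) = Dz (Dx f) := by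
  funext z
  rw [BeltramiD_Dz_eq, BeltramiD_Dz_eq]
  exact BeltramiD_lin Dx BeltramiD_linx hf _ (fun _ => rfl)
    (fun w => Dx_Dy_comm (BeltramiD_at2 hf w)) z

theorem BeltramiD_yz {f : ℂ → ℂ} (hf : ContDiff ℝ ∞ f) : Dy (Dz f) = Dz (Dy f) := by
  funext z
  rw [BeltramiD_Dz_eq, BeltramiD_Dz_eq]
  exact BeltramiD_lin Dy BeltramiD_liny hf _ (fun w => (Dx_Dy_comm (BeltramiD_at2 hf w)).symm)
    (fun _ => rfl) z

theorem BeltramiD_xzb {f : ℂ → ℂ} (hf : ContDiff ℝ ∞ f) : Dx (Dzb f) = Dzb (Dx f) := by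
  funext z
  rw [BeltramiD_Dzb_eq, BeltramiD_Dzb_eq]
  exact BeltramiD_lin Dx BeltramiD_linx hf _ (fun _ => rfl)
    (fun w => Dx_Dy_comm (BeltramiD_at2 hf w)) z

theorem BeltramiD_yzb {f : ℂ → ℂ} (hf : ContDiff ℝ ∞ f) : Dy (Dzb f) = Dzb (Dy f) := by
  funext z
  rw [BeltramiD_Dzb_eq, BeltramiD_Dzb_eq]
  exact BeltramiD_lin Dy BeltramiD_liny hf _ (fun w => (Dx_Dy_comm (BeltramiD_at2 hf w)).symm)
    (fun _ => rfl) z

/-- `∂̄` decays as `∂` -/
theorem BeltramiD_H_zb (n : ℕ) : ∀ {u : ℕ → ℂ → ℂ}, (∀ j, ContDiff ℝ ∞ (u j)) →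
    (∀ j, Per 0 (u j)) → BeltramiD_H n (fun j => Dz (u j)) → BeltramiD_H n (fun j => Dzb (u j)) := by
  have hG : ∀ {u : ℕ → ℂ → ℂ}, (∀ j, ContDiff ℝ ∞ (u j)) →
      (∀ j, Per 0 (u j)) → BeltramiD_G (fun j => Dz (u j)) → BeltramiD_G (fun j => Dzb (u j)) := by
    intro u hu hp h
    obtain ⟨C, hC0, hC⟩ := h
    exact ⟨C, hC0, fun j => (l2_identity (hu j) (hp j)).symm.le.trans (hC j)⟩
  induction n with
  | zero => intro u hu hp h; exact hG hu hp h
  | succ n ih =>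
    intro u hu hp h
    refine ⟨hG hu hp h.1, ?_, ?_⟩
    · have h1 := h.2.1
      have e1 : (fun j => Dx (Dz (u j))) = fun j => Dz (Dx (u j)) := funext fun j => BeltramiD_xz (hu j)
      have e2 : (fun j => Dx (Dzb (u j))) = fun j => Dzb (Dx (u j)) :=
        funext fun j => BeltramiD_xzb (hu j)
      rw [e1] at h1
      rw [e2]
      exact ih (fun j => contDiff_DD (hu j) [true]) (fun j => per_Dx (hp j)) h1
    · have h1 := h.2.2
      have e1 : (fun j => Dy (Dz (u j))) = fun j => Dz (Dy (u j)) := funext fun j => BeltramiD_yz (hu j)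
      have e2 : (fun j => Dy (Dzb (u j))) = fun j => Dzb (Dy (u j)) :=
        funext fun j => BeltramiD_yzb (hu j)
      rw [e1] at h1
      rw [e2]
      exact ih (fun j => contDiff_DD (hu j) [false]) (fun j => per_Dy (hp j)) h1

/-- Decay of the iteration, with a right side. -/
theorem BeltramiD_base {μ : ℂ → ℂ} {k t δ : ℝ} (hk0 : 0 ≤ k) (hk : k < 1) (hμ : ContDiff ℝ ∞ μ)
    (hμk : ∀ z, ‖μ z‖ ≤ k) (ht : 0 ≤ t) (ht1 : t ≤ 1) (hδ : 0 ≤ δ) (hδk : δ ≤ (1 - k) / 2)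
    {u r : ℕ → ℂ → ℂ} {τ : ℕ → ℂ} (hu : ∀ j, ContDiff ℝ ∞ (u j)) (hup : ∀ j, Per 0 (u j))
    (hr : ∀ j, ContDiff ℝ ∞ (r j)) (hrG : BeltramiD_G r)
    (he : ∀ j z, Dzb (u (j + 1)) z = (t : ℂ) * μ z * Dz (u (j + 1)) z +
      ((δ : ℂ) * μ z * Dz (u j) z + r (j + 1) z) - τ (j + 1)) :
    BeltramiD_G (fun j => Dz (u j)) := by
  obtain ⟨C, hC0, hC⟩ := hrG
  have hk1 : 0 < 1 - k := by linarith
  have hk2 : 0 < (1 - k) ^ 2 := by positivity
  have hz : ∀ j, Continuous (Dz (u j)) := fun j => (BeltramiA_smooth_Dz (hu j)).continuous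
  set A : ℕ → ℝ := fun j => ∫ z in cell, ‖Dz (u j) z‖ ^ 2 with hA
  have hA0 : ∀ j, 0 ≤ A j := fun j => integral_nonneg fun z => sq_nonneg _
  set C' : ℝ := 2 * C / (1 - k) ^ 2 with hC'
  have hC'0 : 0 ≤ C' := by positivity
  have hstep : ∀ j, A (j + 1) ≤ 1 / 2 * A j + C' * (3 / 4) ^ (j + 1) := by
    intro j
    have h1 := l2_est (μ := fun z => (t : ℂ) * μ z)
      (h := fun z => (δ : ℂ) * μ z * Dz (u j) z + r (j + 1) z) hk0 hk
      (continuous_const.mul hμ.continuous) (fun z => by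
        rw [norm_mul, Complex.norm_real, Real.norm_eq_abs, abs_of_nonneg ht]
        have := mul_le_mul ht1 (hμk z) (norm_nonneg _) zero_le_one
        linarith) (hu (j + 1)) (hup (j + 1))
      (((continuous_const.mul hμ.continuous).mul (hz j)).add (hr (j + 1)).continuous) (he j)
    have i1 : IntegrableOn (fun z => (1 - k) ^ 2 / 2 * ‖Dz (u j) z‖ ^ 2) cell :=
      BeltramiA_int (continuous_const.mul ((hz j).norm.pow 2))
    have i2 : IntegrableOn (fun z => 2 * ‖r (j + 1) z‖ ^ 2) cell :=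
      BeltramiA_int (continuous_const.mul ((hr (j + 1)).continuous.norm.pow 2))
    have h2 : ∫ z in cell, ‖(δ : ℂ) * μ z * Dz (u j) z + r (j + 1) z‖ ^ 2 ≤
        ∫ z in cell, ((1 - k) ^ 2 / 2 * ‖Dz (u j) z‖ ^ 2 + 2 * ‖r (j + 1) z‖ ^ 2) := by
      refine setIntegral_mono ?_ (i1.add i2) fun z => ?_
      · exact BeltramiA_int
          ((((continuous_const.mul hμ.continuous).mul (hz j)).add (hr (j + 1)).continuous).norm.pow 2)
      · show ‖(δ : ℂ) * μ z * Dz (u j) z + r (j + 1) z‖ ^ 2 ≤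
          (1 - k) ^ 2 / 2 * ‖Dz (u j) z‖ ^ 2 + 2 * ‖r (j + 1) z‖ ^ 2
        have h3 : ‖(δ : ℂ) * μ z * Dz (u j) z‖ ≤ (1 - k) / 2 * ‖Dz (u j) z‖ := by
          rw [norm_mul, norm_mul, Complex.norm_real, Real.norm_eq_abs, abs_of_nonneg hδ]
          refine mul_le_mul_of_nonneg_right ?_ (norm_nonneg _)
          have h4 : ‖μ z‖ ≤ 1 := (hμk z).trans hk.le
          nlinarith [norm_nonneg (μ z)]
        have h5 := pow_le_pow_left₀ (norm_nonneg _)
          (norm_add_le ((δ : ℂ) * μ z * Dz (u j) z) (r (j + 1) z)) 2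
        have h6 := pow_le_pow_left₀ (norm_nonneg _) h3 2
        have h7 := sq_nonneg (‖(δ : ℂ) * μ z * Dz (u j) z‖ - ‖r (j + 1) z‖)
        nlinarith
    rw [integral_add i1 i2, integral_const_mul, integral_const_mul] at h2
    have h3 := hC (j + 1)
    have h4 : (1 - k) ^ 2 * A (j + 1) ≤ (1 - k) ^ 2 / 2 * A j + 2 * (C * (3 / 4) ^ (j + 1)) := by
      have : (1 - k) ^ 2 * A (j + 1) ≤ (1 - k) ^ 2 / 2 * A j + 2 * ∫ z in cell, ‖r (j + 1) z‖ ^ 2 :=
        h1.trans h2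
      linarith
    have h5 : A (j + 1) ≤ ((1 - k) ^ 2 / 2 * A j + 2 * (C * (3 / 4) ^ (j + 1))) / (1 - k) ^ 2 := by
      rw [le_div_iff₀ hk2]
      linarith
    refine h5.trans (le_of_eq ?_)
    rw [hC']
    field_simp
  refine ⟨A 0 + 3 * C', by have := hA0 0; positivity, fun j => ?_⟩
  show A j ≤ (A 0 + 3 * C') * (3 / 4) ^ j
  induction j with
  | zero => rw [pow_zero, mul_one]; linarith
  | succ j ih =>
    have h1 := hstep j
    have h2 : (0 : ℝ) < (3 / 4) ^ j := by positivity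
    have h3 : (3 / 4 : ℝ) ^ (j + 1) = 3 / 4 * (3 / 4) ^ j := by rw [pow_succ]; ring
    rw [h3] at h1 ⊢
    have h4 := hA0 0
    have h5 : 0 ≤ A 0 * (3 / 4) ^ j := by positivity
    nlinarith

theorem BeltramiD_iter {μ : ℂ → ℂ} {k t δ : ℝ} (hk0 : 0 ≤ k) (hk : k < 1) (hμ : ContDiff ℝ ∞ μ)
    (hμp : Per 0 μ) (hμk : ∀ z, ‖μ z‖ ≤ k) (ht : 0 ≤ t) (ht1 : t ≤ 1) (hδ : 0 ≤ δ)
    (hδk : δ ≤ (1 - k) / 2) (n : ℕ) :
    ∀ {u r : ℕ → ℂ → ℂ} {τ : ℕ → ℂ}, (∀ j, ContDiff ℝ ∞ (u j)) → (∀ j, Per 0 (u j)) →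
    (∀ j, ContDiff ℝ ∞ (r j)) → BeltramiD_H n r →
    (∀ j z, Dzb (u (j + 1)) z = (t : ℂ) * μ z * Dz (u (j + 1)) z +
      ((δ : ℂ) * μ z * Dz (u j) z + r (j + 1) z) - τ (j + 1)) →
    BeltramiD_H n (fun j => Dz (u j)) := by
  induction n with
  | zero =>
    intro u r τ hu hup hr hrG he
    exact BeltramiD_base hk0 hk hμ hμk ht ht1 hδ hδk hu hup hr hrG he
  | succ n ih =>
    intro u r τ hu hup hr hrG he
    have hn := ih hu hup hr (BeltramiD_H_mono n hrG) he
    have hzs : ∀ j, ContDiff ℝ ∞ (Dz (u j)) := fun j => BeltramiA_smooth_Dz (hu j)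
    have hct : ContDiff ℝ ∞ (fun _ : ℂ => (t : ℂ)) := contDiff_const
    have hcδ : ContDiff ℝ ∞ (fun _ : ℂ => (δ : ℂ)) := contDiff_const
    refine ⟨BeltramiD_H_geo hn, ?_, ?_⟩
    · have e1 : (fun j => Dx (Dz (u j))) = fun j => Dz (Dx (u j)) := funext fun j => BeltramiD_xz (hu j)
      have hm : ContDiff ℝ ∞ (Dx μ) := contDiff_DD hμ [true]
      rw [e1]
      refine ih (u := fun j => Dx (u j))
        (r := fun j z => Dx (r j) z + (((t : ℂ) * Dx μ z) * Dz (u j) z +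
          ((δ : ℂ) * Dx μ z) * Dz (u (j - 1)) z)) (τ := fun _ => 0)
        (fun j => contDiff_DD (hu j) [true]) (fun j => per_Dx (hup j)) ?_ ?_ ?_
      · intro j
        exact (contDiff_DD (hr j) [true]).add (((hct.mul hm).mul (hzs j)).add
          ((hcδ.mul hm).mul (hzs (j - 1))))
      · refine BeltramiD_H_add n (fun j => contDiff_DD (hr j) [true])
          (fun j => ((hct.mul hm).mul (hzs j)).add ((hcδ.mul hm).mul (hzs (j - 1)))) hrG.2.1 ?_
        refine BeltramiD_H_add n (fun j => (hct.mul hm).mul (hzs j))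
          (fun j => (hcδ.mul hm).mul (hzs (j - 1))) ?_ ?_
        · exact BeltramiD_H_mul n (hct.mul hm) (fun z v hv => by
            show (t : ℂ) * Dx μ (z + v) = (t : ℂ) * Dx μ z
            rw [per_Dx hμp z v hv]) hzs hn
        · exact BeltramiD_H_mul n (hcδ.mul hm) (fun z v hv => by
            show (δ : ℂ) * Dx μ (z + v) = (δ : ℂ) * Dx μ z
            rw [per_Dx hμp z v hv]) (fun j => hzs (j - 1)) (BeltramiD_H_shift n hn)
      · intro j z
        rw [← BeltramiD_xzb (hu (j + 1)), ← BeltramiD_xz (hu (j + 1)), ← BeltramiD_xz (hu j)]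
        have e2 : Dzb (u (j + 1)) = fun z => (t : ℂ) * μ z * Dz (u (j + 1)) z +
            ((δ : ℂ) * μ z * Dz (u j) z + r (j + 1) z) - τ (j + 1) := funext fun z => he j z
        have d0 : DifferentiableAt ℝ μ z := BeltramiD_diff hμ z
        have d1 : DifferentiableAt ℝ (fun z => (t : ℂ) * μ z) z :=
          BeltramiD_diff (hct.mul hμ) z
        have d2 : DifferentiableAt ℝ (fun z => (δ : ℂ) * μ z) z :=
          BeltramiD_diff (hcδ.mul hμ) z
        have d3 := BeltramiD_diff (hzs (j + 1)) z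
        have d4 := BeltramiD_diff (hzs j) z
        have d5 := BeltramiD_diff (hr (j + 1)) z
        have d6 : DifferentiableAt ℝ (fun z => (t : ℂ) * μ z * Dz (u (j + 1)) z) z := d1.mul d3
        have d7 : DifferentiableAt ℝ (fun z => (δ : ℂ) * μ z * Dz (u j) z) z := d2.mul d4
        have dt : DifferentiableAt ℝ (fun _ : ℂ => (t : ℂ)) z := differentiableAt_const _
        have dδ : DifferentiableAt ℝ (fun _ : ℂ => (δ : ℂ)) z := differentiableAt_const _
        have d8 : DifferentiableAt ℝ (fun z => (δ : ℂ) * μ z * Dz (u j) z + r (j + 1) z) z :=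
          d7.add d5
        have d9 : DifferentiableAt ℝ (fun z => (t : ℂ) * μ z * Dz (u (j + 1)) z +
            ((δ : ℂ) * μ z * Dz (u j) z + r (j + 1) z)) z := d6.add d8
        rw [e2, Dx_sub d9 (differentiableAt_const _), Dx_add d6 d8,
          Dx_add d7 d5, Dx_mul d1 d3, Dx_mul d2 d4, Dx_mul dt d0, Dx_mul dδ d0, Dx_const, Dx_const,
          Dx_const, Nat.add_sub_cancel]
        ring
    · have e1 : (fun j => Dy (Dz (u j))) = fun j => Dz (Dy (u j)) := funext fun j => BeltramiD_yz (hu j)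
      have hm : ContDiff ℝ ∞ (Dy μ) := contDiff_DD hμ [false]
      rw [e1]
      refine ih (u := fun j => Dy (u j))
        (r := fun j z => Dy (r j) z + (((t : ℂ) * Dy μ z) * Dz (u j) z +
          ((δ : ℂ) * Dy μ z) * Dz (u (j - 1)) z)) (τ := fun _ => 0)
        (fun j => contDiff_DD (hu j) [false]) (fun j => per_Dy (hup j)) ?_ ?_ ?_
      · intro j
        exact (contDiff_DD (hr j) [false]).add (((hct.mul hm).mul (hzs j)).add
          ((hcδ.mul hm).mul (hzs (j - 1))))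
      · refine BeltramiD_H_add n (fun j => contDiff_DD (hr j) [false])
          (fun j => ((hct.mul hm).mul (hzs j)).add ((hcδ.mul hm).mul (hzs (j - 1)))) hrG.2.2 ?_
        refine BeltramiD_H_add n (fun j => (hct.mul hm).mul (hzs j))
          (fun j => (hcδ.mul hm).mul (hzs (j - 1))) ?_ ?_
        · exact BeltramiD_H_mul n (hct.mul hm) (fun z v hv => by
            show (t : ℂ) * Dy μ (z + v) = (t : ℂ) * Dy μ z
            rw [per_Dy hμp z v hv]) hzs hn
        · exact BeltramiD_H_mul n (hcδ.mul hm) (fun z v hv => by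
            show (δ : ℂ) * Dy μ (z + v) = (δ : ℂ) * Dy μ z
            rw [per_Dy hμp z v hv]) (fun j => hzs (j - 1)) (BeltramiD_H_shift n hn)
      · intro j z
        rw [← BeltramiD_yzb (hu (j + 1)), ← BeltramiD_yz (hu (j + 1)), ← BeltramiD_yz (hu j)]
        have e2 : Dzb (u (j + 1)) = fun z => (t : ℂ) * μ z * Dz (u (j + 1)) z +
            ((δ : ℂ) * μ z * Dz (u j) z + r (j + 1) z) - τ (j + 1) := funext fun z => he j z
        have d0 : DifferentiableAt ℝ μ z := BeltramiD_diff hμ z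
        have d1 : DifferentiableAt ℝ (fun z => (t : ℂ) * μ z) z :=
          BeltramiD_diff (hct.mul hμ) z
        have d2 : DifferentiableAt ℝ (fun z => (δ : ℂ) * μ z) z :=
          BeltramiD_diff (hcδ.mul hμ) z
        have d3 := BeltramiD_diff (hzs (j + 1)) z
        have d4 := BeltramiD_diff (hzs j) z
        have d5 := BeltramiD_diff (hr (j + 1)) z
        have d6 : DifferentiableAt ℝ (fun z => (t : ℂ) * μ z * Dz (u (j + 1)) z) z := d1.mul d3
        have d7 : DifferentiableAt ℝ (fun z => (δ : ℂ) * μ z * Dz (u j) z) z := d2.mul d4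
        have dt : DifferentiableAt ℝ (fun _ : ℂ => (t : ℂ)) z := differentiableAt_const _
        have dδ : DifferentiableAt ℝ (fun _ : ℂ => (δ : ℂ)) z := differentiableAt_const _
        have d8 : DifferentiableAt ℝ (fun z => (δ : ℂ) * μ z * Dz (u j) z + r (j + 1) z) z :=
          d7.add d5
        have d9 : DifferentiableAt ℝ (fun z => (t : ℂ) * μ z * Dz (u (j + 1)) z +
            ((δ : ℂ) * μ z * Dz (u j) z + r (j + 1) z)) z := d6.add d8
        rw [e2, Dy_sub d9 (differentiableAt_const _), Dy_add d6 d8,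
          Dy_add d7 d5, Dy_mul d1 d3, Dy_mul d2 d4, Dy_mul dt d0, Dy_mul dδ d0, Dy_const, Dy_const,
          Dy_const, Nat.add_sub_cancel]
        ring

theorem BeltramiD_DDx {f : ℂ → ℂ} (hf : ContDiff ℝ ∞ f) (l : List Bool) :
    DD l (Dx f) = Dx (DD l f) := by
  induction l with
  | nil => rfl
  | cons b l ih =>
    cases b
    · rw [DD_false, DD_false, ih]
      funext z
      exact (Dx_Dy_comm (BeltramiD_at2 (contDiff_DD hf l) z)).symm
    · rw [DD_true, DD_true, ih]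

theorem BeltramiD_DDy {f : ℂ → ℂ} (hf : ContDiff ℝ ∞ f) (l : List Bool) :
    DD l (Dy f) = Dy (DD l f) := by
  induction l with
  | nil => rfl
  | cons b l ih =>
    cases b
    · rw [DD_false, DD_false, ih]
    · rw [DD_true, DD_true, ih]
      funext z
      exact Dx_Dy_comm (BeltramiD_at2 (contDiff_DD hf l) z)

theorem BeltramiD_H_DD (n : ℕ) : ∀ {g : ℕ → ℂ → ℂ}, (∀ j, ContDiff ℝ ∞ (g j)) →
    BeltramiD_H n g → ∃ C : ℝ, 0 ≤ C ∧ ∀ l : List Bool, l.length ≤ n → ∀ j,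
      ∫ z in cell, ‖DD l (g j) z‖ ^ 2 ≤ C * (3 / 4) ^ j := by
  induction n with
  | zero =>
    intro g hg h
    obtain ⟨C, hC0, hC⟩ := h
    refine ⟨C, hC0, fun l hl j => ?_⟩
    have : l = [] := List.eq_nil_of_length_eq_zero (Nat.le_zero.1 hl)
    rw [this]
    exact hC j
  | succ n ih =>
    intro g hg h
    obtain ⟨C0, h00, hC0⟩ := h.1
    obtain ⟨C1, h10, hC1⟩ := ih (fun j => contDiff_DD (hg j) [true]) h.2.1
    obtain ⟨C2, h20, hC2⟩ := ih (fun j => contDiff_DD (hg j) [false]) h.2.2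
    refine ⟨C0 + C1 + C2, by positivity, fun l hl j => ?_⟩
    have hp : (0 : ℝ) < (3 / 4) ^ j := by positivity
    have q0 : 0 ≤ C0 * (3 / 4) ^ j := by positivity
    have q1 : 0 ≤ C1 * (3 / 4) ^ j := by positivity
    have q2 : 0 ≤ C2 * (3 / 4) ^ j := by positivity
    match l, hl with
    | [], _ =>
      have := hC0 j
      rw [DD_nil]
      linarith
    | true :: l, hl =>
      have h1 := hC1 l (by simpa using hl) j
      have e : DD (true :: l) (g j) = DD l (Dx (g j)) := by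
        rw [DD_true, BeltramiD_DDx (hg j)]
      rw [e]
      have h2 : ∫ z in cell, ‖DD l (Dx (g j)) z‖ ^ 2 ≤ C1 * (3 / 4) ^ j := h1
      linarith
    | false :: l, hl =>
      have h1 := hC2 l (by simpa using hl) j
      have e : DD (false :: l) (g j) = DD l (Dy (g j)) := by
        rw [DD_false, BeltramiD_DDy (hg j)]
      rw [e]
      have h2 : ∫ z in cell, ‖DD l (Dy (g j)) z‖ ^ 2 ≤ C2 * (3 / 4) ^ j := h1
      linarith

/-- decay of all derivatives, given decay of `∂` and mean zero -/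
theorem BeltramiD_full {u : ℕ → ℂ → ℂ} (hu : ∀ j, ContDiff ℝ ∞ (u j)) (hup : ∀ j, Per 0 (u j))
    (hm : ∀ j, ∫ z in cell, u j z = 0) (h : ∀ n, BeltramiD_H n (fun j => Dz (u j))) (n : ℕ) :
    BeltramiD_H n u := by
  have h0 : BeltramiD_G u := by
    obtain ⟨C, hC0, hC⟩ := BeltramiD_H_geo (h 0)
    refine ⟨2 * C, by positivity, fun j => ?_⟩
    have h1 := poincare (hu j) (hup j)
    rw [hm j] at h1
    simp only [sub_zero] at h1
    have i1 : IntegrableOn (fun z => ‖Dz (u j) z‖ ^ 2) cell :=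
      BeltramiA_int ((BeltramiA_smooth_Dz (hu j)).continuous.norm.pow 2)
    have i2 : IntegrableOn (fun z => ‖Dzb (u j) z‖ ^ 2) cell :=
      BeltramiA_int ((BeltramiA_smooth_Dzb (hu j)).continuous.norm.pow 2)
    rw [integral_add i1 i2, ← l2_identity (hu j) (hup j)] at h1
    have h2 := hC j
    linarith
  cases n with
  | zero => exact h0
  | succ n =>
    have hz := h n
    have hzb := BeltramiD_H_zb n hu hup hz
    have sz : ∀ j, ContDiff ℝ ∞ (Dz (u j)) := fun j => BeltramiA_smooth_Dz (hu j)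
    have szb : ∀ j, ContDiff ℝ ∞ (Dzb (u j)) := fun j => BeltramiA_smooth_Dzb (hu j)
    refine ⟨h0, ?_, ?_⟩
    · have e : (fun j => Dx (u j)) = fun j z => Dz (u j) z + Dzb (u j) z := by
        funext j z
        exact Dx_eq_Dz (u j) z
      rw [e]
      exact BeltramiD_H_add n sz szb hz hzb
    · have e : (fun j => Dy (u j)) = fun j z => (fun _ : ℂ => Complex.I) z * Dz (u j) z +
          (fun _ : ℂ => -Complex.I) z * Dzb (u j) z := by
        funext j z
        rw [Dy_eq_Dz (u j) z]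
        ring
      rw [e]
      exact BeltramiD_H_add n (fun j => contDiff_const.mul (sz j))
        (fun j => contDiff_const.mul (szb j))
        (BeltramiD_H_mul n contDiff_const (BeltramiD_per_const _) sz hz)
        (BeltramiD_H_mul n contDiff_const (BeltramiD_per_const _) szb hzb)

theorem BeltramiD_Dz_sub {f g : ℂ → ℂ} (hf : ContDiff ℝ ∞ f) (hg : ContDiff ℝ ∞ g) (z : ℂ) :
    Dz (fun y => f y - g y) z = Dz f z - Dz g z := by
  unfold Dz
  rw [Dx_sub (BeltramiD_diff hf z) (BeltramiD_diff hg z),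
    Dy_sub (BeltramiD_diff hf z) (BeltramiD_diff hg z)]
  ring

theorem BeltramiD_Dzb_sub {f g : ℂ → ℂ} (hf : ContDiff ℝ ∞ f) (hg : ContDiff ℝ ∞ g) (z : ℂ) :
    Dzb (fun y => f y - g y) z = Dzb f z - Dzb g z := by
  unfold Dzb
  rw [Dx_sub (BeltramiD_diff hf z) (BeltramiD_diff hg z),
    Dy_sub (BeltramiD_diff hf z) (BeltramiD_diff hg z)]
  ring

theorem BeltramiD_D_const (c z : ℂ) : Dz (fun _ => c) z = 0 ∧ Dzb (fun _ => c) z = 0 := by
  unfold Dz Dzb
  rw [Dx_const, Dy_const]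
  simp

theorem BeltramiD_H_zero (n : ℕ) : BeltramiD_H n (fun _ _ => 0) := by
  have h0 : BeltramiD_G (fun _ _ => 0) := ⟨0, le_rfl, fun j => by simp⟩
  induction n with
  | zero => exact h0
  | succ n ih =>
    refine ⟨h0, ?_, ?_⟩
    · have e : (fun _ : ℕ => Dx (fun _ : ℂ => (0 : ℂ))) = fun _ _ => 0 := by
        funext _ z
        exact Dx_const 0 z
      rw [e]
      exact ih
    · have e : (fun _ : ℕ => Dy (fun _ : ℂ => (0 : ℂ))) = fun _ _ => 0 := by
        funext _ z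
        exact Dy_const 0 z
      rw [e]
      exact ih

theorem BeltramiD_DD0 (l : List Bool) : DD l (fun _ : ℂ => (0 : ℂ)) = fun _ => 0 := by
  induction l with
  | nil => rfl
  | cons b l ih =>
    cases b
    · rw [DD_false, ih]
      exact funext fun z => Dy_const 0 z
    · rw [DD_true, ih]
      exact funext fun z => Dx_const 0 z

/-- A sequence with geometric increments of all derivatives. -/
theorem BeltramiD_bound {f : ℕ → ℂ → ℂ} (h0 : f 0 = fun _ => 0)
    (hs : ∀ l : List Bool, ∃ K : ℝ, ∀ n z, ‖DD l (f (n + 1)) z - DD l (f n) z‖ ≤ K * (7 / 8) ^ n)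
    (l : List Bool) : ∃ B : ℝ, ∀ n z, ‖DD l (f n) z‖ ≤ B := by
  obtain ⟨K, hK⟩ := hs l
  have hK0 : 0 ≤ K := by
    have := (norm_nonneg _).trans (hK 0 0)
    simpa using this
  have hz : ∀ z, DD l (f 0) z = 0 := by
    intro z
    rw [h0, BeltramiD_DD0 l]
  have key : ∀ n z, ‖DD l (f n) z‖ ≤ 8 * K * (1 - (7 / 8) ^ n) := by
    intro n z
    induction n with
    | zero => rw [hz]; simp
    | succ n ih =>
      have h1 := hK n z
      have h2 : ‖DD l (f (n + 1)) z‖ ≤ ‖DD l (f (n + 1)) z - DD l (f n) z‖ + ‖DD l (f n) z‖ := by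
        have := norm_add_le (DD l (f (n + 1)) z - DD l (f n) z) (DD l (f n) z)
        rwa [sub_add_cancel] at this
      have h3 : (7 / 8 : ℝ) ^ (n + 1) = 7 / 8 * (7 / 8) ^ n := by rw [pow_succ]; ring
      rw [h3]
      nlinarith
  refine ⟨8 * K, fun n z => (key n z).trans ?_⟩
  have : (0 : ℝ) < (7 / 8) ^ n := by positivity
  nlinarith

/-- **One step of the continuity method.** If the equation with the coefficient `t μ` is solvable
for all `h`, it is solvable with the coefficient `(t + δ) μ`, `0 ≤ δ ≤ (1 - k) / 2`, `t + δ ≤ 1`.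
Proof: `f_0 = 0`, `f_{j+1}` solves `∂̄f = t μ ∂f + (h + δ μ ∂f_j) - τ_{j+1}`, normalized by mean
zero. The differences `e_j = f_{j+1} - f_j` satisfy `∂̄e_j = t μ ∂e_j + δ μ ∂e_{j-1} - σ_j`, so
`‖∂e_j‖₂ ≤ (δ / (1 - k)) ‖∂e_{j-1}‖₂ ≤ (1/2) ‖∂e_{j-1}‖₂` (`l2_est`). Derivatives: applying `DD l`,
`∂̄(DD l e_j) = t μ ∂(DD l e_j) + [δ μ ∂(DD l e_{j-1}) + R] - (0 or σ_j)` where `R` contains
derivatives of `μ` times lower derivatives of `∂e_j`, `∂e_{j-1}`; by induction on `|l|` all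
`‖∂ DD l e_j‖₂` and (by `l2_identity`, `poincare`) all `‖DD l e_j‖₂` are bounded by `C_l θ^j` with a
`θ = θ_l < 1`. By `sup_le_l2` all derivatives converge uniformly; use `conv_smooth`. -/
theorem beltrami_step {μ : ℂ → ℂ} {k t δ : ℝ} (hk0 : 0 ≤ k) (hk : k < 1) (hμ : ContDiff ℝ ∞ μ)
    (hμp : Per 0 μ) (hμk : ∀ z, ‖μ z‖ ≤ k) (ht : 0 ≤ t) (hδ : 0 ≤ δ) (hδk : δ ≤ (1 - k) / 2)
    (htδ : t + δ ≤ 1)
    (hs : ∀ h : ℂ → ℂ, ContDiff ℝ ∞ h → Per 0 h → ∃ (f : ℂ → ℂ) (τ : ℂ), ContDiff ℝ ∞ f ∧ Per 0 f ∧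
      ∀ z, Dzb f z = (t : ℂ) * μ z * Dz f z + h z - τ)
    {h : ℂ → ℂ} (hh : ContDiff ℝ ∞ h) (hhp : Per 0 h) :
    ∃ (f : ℂ → ℂ) (τ : ℂ), ContDiff ℝ ∞ f ∧ Per 0 f ∧
      ∀ z, Dzb f z = ((t + δ : ℝ) : ℂ) * μ z * Dz f z + h z - τ := by
  have ht1 : t ≤ 1 := by linarith
  have hsol : ∀ f : {f : ℂ → ℂ // ContDiff ℝ ∞ f ∧ Per 0 f ∧ ∫ z in cell, f z = 0},
      ∃ (g : {f : ℂ → ℂ // ContDiff ℝ ∞ f ∧ Per 0 f ∧ ∫ z in cell, f z = 0}) (τ : ℂ),
      ∀ z, Dzb g.1 z = (t : ℂ) * μ z * Dz g.1 z + (h z + (δ : ℂ) * μ z * Dz f.1 z) - τ := by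
    intro f
    have hz := BeltramiA_smooth_Dz f.2.1
    obtain ⟨g, τ, h1, h2, h3⟩ := hs (fun z => h z + (δ : ℂ) * μ z * Dz f.1 z)
      (hh.add ((contDiff_const.mul hμ).mul hz)) (fun z v hv => by
        show h (z + v) + (δ : ℂ) * μ (z + v) * Dz f.1 (z + v) = h z + (δ : ℂ) * μ z * Dz f.1 z
        rw [hhp z v hv, hμp z v hv, BeltramiA_per_Dz f.2.2.1 z v hv])
    have hc : ContDiff ℝ ∞ (fun _ : ℂ => ∫ y in cell, g y) := contDiff_const
    refine ⟨⟨fun z => g z - ∫ y in cell, g y, h1.sub hc, fun z v hv => by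
      show g (z + v) - _ = g z - _
      rw [h2 z v hv], ?_⟩, τ, fun z => ?_⟩
    · rw [integral_sub (BeltramiA_int h1.continuous) (BeltramiA_int continuous_const),
        BeltramiC_const', sub_self]
    · show Dzb (fun z => g z - ∫ y in cell, g y) z =
        (t : ℂ) * μ z * Dz (fun z => g z - ∫ y in cell, g y) z +
        (h z + (δ : ℂ) * μ z * Dz f.1 z) - τ
      rw [BeltramiD_Dz_sub h1 hc, BeltramiD_Dzb_sub h1 hc, (BeltramiD_D_const _ z).1,
        (BeltramiD_D_const _ z).2, sub_zero, sub_zero]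
      exact h3 z
  choose N τN hN using hsol
  set F : ℕ → {f : ℂ → ℂ // ContDiff ℝ ∞ f ∧ Per 0 f ∧ ∫ z in cell, f z = 0} :=
    fun n => N^[n] ⟨fun _ => 0, contDiff_const, fun _ _ _ => rfl, by simp⟩ with hF
  have hF0 : (F 0).1 = fun _ => 0 := rfl
  have hFs : ∀ n, F (n + 1) = N (F n) := fun n => Function.iterate_succ_apply' _ _ _
  have hsm : ∀ n, ContDiff ℝ ∞ (F n).1 := fun n => (F n).2.1
  have hpe : ∀ n, Per 0 (F n).1 := fun n => (F n).2.2.1
  have hmz : ∀ n, ∫ z in cell, (F n).1 z = 0 := fun n => (F n).2.2.2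
  have heq : ∀ n z, Dzb (F (n + 1)).1 z = (t : ℂ) * μ z * Dz (F (n + 1)).1 z +
      (h z + (δ : ℂ) * μ z * Dz (F n).1 z) - τN (F n) := by
    intro n z
    rw [hFs n]
    exact hN (F n) z
  set u : ℕ → ℂ → ℂ := fun j z => (F (j + 1)).1 z - (F j).1 z with hu
  have hus : ∀ j, ContDiff ℝ ∞ (u j) := fun j => (hsm (j + 1)).sub (hsm j)
  have hup : ∀ j, Per 0 (u j) := by
    intro j z v hv
    show (F (j + 1)).1 (z + v) - (F j).1 (z + v) = (F (j + 1)).1 z - (F j).1 z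
    rw [hpe (j + 1) z v hv, hpe j z v hv]
  have hum : ∀ j, ∫ z in cell, u j z = 0 := by
    intro j
    show ∫ z in cell, ((F (j + 1)).1 z - (F j).1 z) = 0
    rw [integral_sub (BeltramiA_int (hsm (j + 1)).continuous) (BeltramiA_int (hsm j).continuous),
      hmz, hmz, sub_zero]
  have hue : ∀ j z, Dzb (u (j + 1)) z = (t : ℂ) * μ z * Dz (u (j + 1)) z +
      ((δ : ℂ) * μ z * Dz (u j) z + (fun _ _ => 0 : ℕ → ℂ → ℂ) (j + 1) z) -
      (fun j => τN (F j) - τN (F (j - 1))) (j + 1) := by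
    intro j z
    show Dzb (fun z => (F (j + 1 + 1)).1 z - (F (j + 1)).1 z) z =
      (t : ℂ) * μ z * Dz (fun z => (F (j + 1 + 1)).1 z - (F (j + 1)).1 z) z +
      ((δ : ℂ) * μ z * Dz (fun z => (F (j + 1)).1 z - (F j).1 z) z + 0) -
      (τN (F (j + 1)) - τN (F (j + 1 - 1)))
    rw [Nat.add_sub_cancel, BeltramiD_Dzb_sub (hsm _) (hsm _), BeltramiD_Dz_sub (hsm _) (hsm _),
      BeltramiD_Dz_sub (hsm _) (hsm _), heq (j + 1) z, heq j z]
    ring
  have hDz : ∀ n, BeltramiD_H n (fun j => Dz (u j)) := fun n =>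
    BeltramiD_iter hk0 hk hμ hμp hμk ht ht1 hδ hδk n (r := fun _ _ => 0)
      (τ := fun j => τN (F j) - τN (F (j - 1))) hus hup (fun _ => contDiff_const)
      (BeltramiD_H_zero n) hue
  have hfull : ∀ n, BeltramiD_H n u := fun n => BeltramiD_full hus hup hum hDz n
  have hinc : ∀ l : List Bool, ∃ K : ℝ, ∀ n z,
      ‖DD l (F (n + 1)).1 z - DD l (F n).1 z‖ ≤ K * (7 / 8) ^ n := by
    intro l
    obtain ⟨C, hC0, hC⟩ := BeltramiD_H_DD (2 + l.length) hus (hfull _)
    refine ⟨4 * (C + 1), fun n z => ?_⟩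
    have e : DD l (F (n + 1)).1 z - DD l (F n).1 z = DD l (u n) z :=
      (congrFun (ConvA_DD_sub (hsm (n + 1)) (hsm n) l) z).symm
    rw [e]
    have h1 := sup_le_l2 (contDiff_DD (hus n) l) (per_DD (hup n) l)
      (M := (C + 1) * (7 / 8) ^ n) (by positivity) (fun l' hl' => by
        have h2 := hC (l' ++ l) (by rw [List.length_append]; exact Nat.add_le_add_right hl' _) n
        rw [DD_append] at h2
        refine h2.trans ?_
        have h3 : ((C + 1) * (7 / 8) ^ n) ^ 2 = (C + 1) ^ 2 * (49 / 64) ^ n := by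
          rw [mul_pow, ← pow_mul, mul_comm n 2, pow_mul]
          norm_num
        rw [h3]
        have h4 : (3 / 4 : ℝ) ^ n ≤ (49 / 64) ^ n := pow_le_pow_left₀ (by norm_num) (by norm_num) n
        have h5 : C ≤ (C + 1) ^ 2 := by nlinarith
        exact mul_le_mul h5 h4 (by positivity) (by positivity)) z
    linarith
  have hbd := BeltramiD_bound (f := fun n => (F n).1) hF0 hinc
  -- the limit
  obtain ⟨K, hK⟩ := hinc []
  have hdist : ∀ z n, dist ((F n).1 z) ((F (n + 1)).1 z) ≤ K * (7 / 8) ^ n := by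
    intro z n
    rw [dist_comm, dist_eq_norm]
    exact hK n z
  have hcau : ∀ z, ∃ g, Tendsto (fun n => (F n).1 z) atTop (𝓝 g) := fun z =>
    cauchySeq_tendsto_of_complete
      (cauchySeq_of_le_geometric (7 / 8) K (by norm_num) (hdist z))
  choose g hg using hcau
  have hun : TendstoUniformly (fun n => (F n).1) g atTop := by
    rw [Metric.tendstoUniformly_iff]
    intro ε hε
    have h1 : Tendsto (fun n : ℕ => K * (7 / 8 : ℝ) ^ n / (1 - 7 / 8)) atTop (𝓝 0) := by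
      have h2 := (tendsto_pow_atTop_nhds_zero_of_lt_one (r := (7 / 8 : ℝ)) (by norm_num)
        (by norm_num)).const_mul K
      have h3 := h2.div_const (1 - 7 / 8)
      simpa using h3
    filter_upwards [h1.eventually (gt_mem_nhds hε)] with n hn z
    rw [dist_comm]
    exact (dist_le_of_le_geometric_of_tendsto (7 / 8) K (by norm_num) (hdist z) (hg z) n).trans_lt hn
  obtain ⟨hgs, hgl⟩ := conv_smooth hsm hbd hun
  have lx : ∀ z, Tendsto (fun n => Dx (F n).1 z) atTop (𝓝 (Dx g z)) := fun z =>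
    (hgl [true]).tendsto_at z
  have ly : ∀ z, Tendsto (fun n => Dy (F n).1 z) atTop (𝓝 (Dy g z)) := fun z =>
    (hgl [false]).tendsto_at z
  have lz : ∀ z, Tendsto (fun n => Dz (F n).1 z) atTop (𝓝 (Dz g z)) := fun z =>
    ((lx z).sub ((ly z).const_mul Complex.I)).div_const 2
  have lzb : ∀ z, Tendsto (fun n => Dzb (F n).1 z) atTop (𝓝 (Dzb g z)) := fun z =>
    ((lx z).add ((ly z).const_mul Complex.I)).div_const 2
  have hlim : ∀ z, Tendsto (fun n => τN (F n)) atTop (𝓝 ((t : ℂ) * μ z * Dz g z +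
      (h z + (δ : ℂ) * μ z * Dz g z) - Dzb g z)) := by
    intro z
    have e : (fun n => τN (F n)) = fun n => (t : ℂ) * μ z * Dz (F (n + 1)).1 z +
        (h z + (δ : ℂ) * μ z * Dz (F n).1 z) - Dzb (F (n + 1)).1 z := by
      funext n
      rw [heq n z]
      ring
    rw [e]
    exact ((((tendsto_add_atTop_iff_nat 1).2 (lz z)).const_mul _).add
      (((lz z).const_mul _).const_add _)).sub ((tendsto_add_atTop_iff_nat 1).2 (lzb z))
  refine ⟨g, (t : ℂ) * μ 0 * Dz g 0 + (h 0 + (δ : ℂ) * μ 0 * Dz g 0) - Dzb g 0, hgs, ?_, ?_⟩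
  · intro z v hv
    refine tendsto_nhds_unique (hg (z + v)) ?_
    have e : (fun n => (F n).1 (z + v)) = fun n => (F n).1 z := funext fun n => hpe n z v hv
    rw [e]
    exact hg z
  · intro z
    have h1 := tendsto_nhds_unique (hlim z) (hlim 0)
    rw [← h1]
    push_cast
    ring

/-- **Existence for the inhomogeneous equation.** `solve_dbar` is the case of coefficient `0`;
finitely many steps `beltrami_step`. -/
theorem solve_beltrami {μ h : ℂ → ℂ} {k : ℝ} (hk : k < 1) (hμ : ContDiff ℝ ∞ μ)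
    (hμp : Per 0 μ) (hμk : ∀ z, ‖μ z‖ ≤ k) (hh : ContDiff ℝ ∞ h) (hhp : Per 0 h) :
    ∃ (f : ℂ → ℂ) (τ : ℂ), ContDiff ℝ ∞ f ∧ Per 0 f ∧
      ∀ z, Dzb f z = μ z * Dz f z + h z - τ := by
  have hk0 : 0 ≤ k := (norm_nonneg _).trans (hμk 0)
  obtain ⟨N, hN⟩ := exists_nat_gt (2 / (1 - k))
  have hk1 : 0 < 1 - k := by linarith
  have hN0 : (0 : ℝ) < N := lt_trans (by positivity) hN
  have hNd : (1 : ℝ) / N ≤ (1 - k) / 2 := by
    rw [div_lt_iff₀ hk1] at hN
    rw [div_le_div_iff₀ hN0 (by norm_num)]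
    linarith
  have key : ∀ m : ℕ, m ≤ N → ∀ h : ℂ → ℂ, ContDiff ℝ ∞ h → Per 0 h →
      ∃ (f : ℂ → ℂ) (τ : ℂ), ContDiff ℝ ∞ f ∧ Per 0 f ∧
      ∀ z, Dzb f z = (((m : ℝ) / N : ℝ) : ℂ) * μ z * Dz f z + h z - τ := by
    intro m
    induction m with
    | zero =>
      intro _ h hh hhp
      obtain ⟨f, h1, h2, h3⟩ := solve_dbar hh hhp
      refine ⟨f, ∫ y in cell, h y, h1, h2, fun z => ?_⟩
      rw [h3 z]
      simp
    | succ m ih =>
      intro hm h hh hhp
      have hm' : ((m : ℝ) + 1) / N ≤ 1 := by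
        rw [div_le_one hN0]
        exact_mod_cast hm
      obtain ⟨f, τ, h1, h2, h3⟩ := beltrami_step (t := (m : ℝ) / N) (δ := 1 / N) hk0 hk hμ hμp hμk
        (by positivity) (by positivity) hNd (by rw [← add_div]; exact hm')
        (ih (Nat.le_of_succ_le hm)) hh hhp
      refine ⟨f, τ, h1, h2, fun z => ?_⟩
      rw [h3 z, ← add_div]
      push_cast
      rfl
  obtain ⟨f, τ, h1, h2, h3⟩ := key N le_rfl h hh hhp
  refine ⟨f, τ, h1, h2, fun z => ?_⟩
  rw [h3 z, div_self hN0.ne', Complex.ofReal_one, one_mul]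

end Pool.Agent.KK
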