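import Pool.Agent.W_bb4b37_h53.BeltramiB
import Pool.Agent.W_bb4b37_h53.CalcB

/-!
# The Beltrami equation with smooth periodic coefficient (part E)
-/

set_option autoImplicit false

open Filter Topology Set MeasureTheory Metric
open scoped ContDiff

namespace Pool.Agent.KK

section Formal

variable {R : Type*} [CommRing R]

/-- Leibniz rule for a coefficientwise operator `c n (x)` on power series. -/
theorem BeltramiE_leib (D : R → R) (hadd : ∀ x y, D (x + y) = D x + D y)
    (hmul : ∀ x y, D (x * y) = D x * y + x * D y) (F G : PowerSeries R) :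
    PowerSeries.mk (fun n => D (PowerSeries.coeff n (F * G)))
      = PowerSeries.mk (fun n => D (PowerSeries.coeff n F)) * G
        + F * PowerSeries.mk (fun n => D (PowerSeries.coeff n G)) := by
  let D' : R →+ R := AddMonoidHom.mk' D hadd
  have hD' : ∀ x, D x = D' x := fun x => rfl
  ext n
  rw [PowerSeries.coeff_mk, map_add, PowerSeries.coeff_mul, PowerSeries.coeff_mul,
    PowerSeries.coeff_mul, hD', map_sum, ← Finset.sum_add_distrib]
  refine Finset.sum_congr rfl fun p _ => ?_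
  rw [PowerSeries.coeff_mk, PowerSeries.coeff_mk, ← hD', hmul]

theorem BeltramiE_theta (F G : PowerSeries R) :
    PowerSeries.mk (fun n => (n : R) * (PowerSeries.coeff n (F * G)))
      = PowerSeries.mk (fun n => (n : R) * (PowerSeries.coeff n F)) * G
        + F * PowerSeries.mk (fun n => (n : R) * (PowerSeries.coeff n G)) := by
  ext n
  rw [PowerSeries.coeff_mk, map_add, PowerSeries.coeff_mul, PowerSeries.coeff_mul,
    PowerSeries.coeff_mul, Finset.mul_sum, ← Finset.sum_add_distrib]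
  refine Finset.sum_congr rfl fun p hp => ?_
  rw [PowerSeries.coeff_mk, PowerSeries.coeff_mk]
  have := Finset.HasAntidiagonal.mem_antidiagonal.1 hp
  rw [← this]
  push_cast
  ring

end Formal

/-- **The formal logarithm.** Let `R` be a commutative algebra over the rationals, `h : ℕ → R` with
`h 0 = 1`. There is `ℓ : ℕ → R`, `ℓ 0 = 0`, such that for EVERY derivation `D` of `R`
(additive, Leibniz rule) `D (h n) = ∑_{i + j = n} D (ℓ i) h j`.
Proof: define `ℓ` by `n h_n = ∑_{i + j = n} i ℓ_i h_j` (solve for `ℓ_n`, `h_0 = 1`). Put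
`E_n = ∑_{i+j=n} D (ℓ_i) h_j - D h_n`. Then `n E_n = ∑_{i+j=n} i ℓ_i E_j`: in terms of power series,
`θ = t d/dt`, `θH = (θL) H`; apply `D`: `θ(DH) = θ(DL) H + (θL) DH`; with `E = (DL) H - DH`,
`θE = θ(DL) H + (DL) θH - θ(DH) = - (θL) DH + (DL) (θL) H = (θL) E`. As `E_0 = 0` (`D 1 = 0`) and
the coefficient of `E_n` on the right side is `0 · ℓ_0 = 0`, strong induction gives `E_n = 0`.
(One may work in `PowerSeries R`.) -/
theorem formal_log {R : Type*} [CommRing R] [Algebra ℚ R] (h : ℕ → R) (h0 : h 0 = 1) :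
    ∃ ℓ : ℕ → R, ℓ 0 = 0 ∧ ∀ D : R → R, (∀ x y, D (x + y) = D x + D y) →
      (∀ x y, D (x * y) = D x * y + x * D y) →
      ∀ n, D (h n) = ∑ p ∈ Finset.HasAntidiagonal.antidiagonal n, D (ℓ p.1) * h p.2 := by
  classical
  set H : PowerSeries R := PowerSeries.mk h with hH
  have hc : PowerSeries.constantCoeff H = ((1 : Rˣ) : R) := by
    rw [hH, ← PowerSeries.coeff_zero_eq_constantCoeff_apply, PowerSeries.coeff_mk, h0]
    rfl
  set I : PowerSeries R := PowerSeries.invOfUnit H 1 with hI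
  have hHI : H * I = 1 := PowerSeries.mul_invOfUnit H 1 hc
  set th : PowerSeries R → PowerSeries R :=
    fun F => PowerSeries.mk (fun n => (n : R) * (PowerSeries.coeff n F)) with hth
  have thm : ∀ F G, th (F * G) = th F * G + F * th G := BeltramiE_theta
  set P : PowerSeries R := th H * I with hP
  set L : PowerSeries R := PowerSeries.mk (fun n => ((n : ℚ)⁻¹) • (PowerSeries.coeff n P)) with hL
  have thL : th L = P := by
    ext n
    rw [hth]
    simp only [PowerSeries.coeff_mk, hL]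
    rcases Nat.eq_zero_or_pos n with rfl | hn
    · rw [Nat.cast_zero, zero_mul, hP, PowerSeries.coeff_mul]
      simp [hth]
    · have hq : (n : ℚ) ≠ 0 := by exact_mod_cast hn.ne'
      have e : (n : R) = algebraMap ℚ R (n : ℚ) := (map_natCast (algebraMap ℚ R) n).symm
      rw [e, ← Algebra.smul_def, smul_smul, mul_inv_cancel₀ hq, one_smul]
  have thH : th H = th L * H := by
    rw [thL, hP, mul_assoc, mul_comm I H, hHI, mul_one]
  refine ⟨fun n => PowerSeries.coeff n L, ?_, ?_⟩
  · simp [hL]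
  intro D hadd hmul
  have D0 : D 0 = 0 := by
    have := hadd 0 0
    rw [add_zero] at this
    simpa using this
  have D1 : D 1 = 0 := by
    have := hmul 1 1
    rw [mul_one, mul_one, one_mul] at this
    simpa using this
  let D' : R →+ R := AddMonoidHom.mk' D hadd
  have hD' : ∀ x, D x = D' x := fun x => rfl
  have Dn : ∀ (n : ℕ) (x : R), D ((n : R) * x) = (n : R) * D x := by
    intro n x
    rw [← nsmul_eq_mul, ← nsmul_eq_mul, hD', hD', map_nsmul]
  set dh : PowerSeries R → PowerSeries R :=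
    fun F => PowerSeries.mk (fun n => D (PowerSeries.coeff n F)) with hdh
  have dhm : ∀ F G, dh (F * G) = dh F * G + F * dh G := BeltramiE_leib D hadd hmul
  have comm : ∀ F, dh (th F) = th (dh F) := by
    intro F
    ext n
    simp only [hth, hdh, PowerSeries.coeff_mk]
    exact Dn n _
  have thsub : ∀ F G, th (F - G) = th F - th G := by
    intro F G
    ext n
    simp only [hth, PowerSeries.coeff_mk, map_sub]
    ring
  set E : PowerSeries R := dh L * H - dh H with hE
  have key : th E = th L * E := by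
    rw [hE, thsub, thm, ← comm H, thH, dhm, comm L]
    ring
  have coef : ∀ n, PowerSeries.coeff n E = 0 := by
    intro n
    induction n using Nat.strong_induction_on with
    | _ n ih =>
      rcases Nat.eq_zero_or_pos n with rfl | hn
      · rw [hE, map_sub, PowerSeries.coeff_mul]
        simp [hdh, hH, hL, D0, h0, D1]
      · have h1 : PowerSeries.coeff n (th E) = PowerSeries.coeff n (th L * E) := by rw [key]
        rw [PowerSeries.coeff_mul] at h1
        have h2 : ∑ p ∈ Finset.HasAntidiagonal.antidiagonal n,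
            PowerSeries.coeff p.1 (th L) * PowerSeries.coeff p.2 E = 0 := by
          apply Finset.sum_eq_zero
          intro p hp
          have hpn := Finset.HasAntidiagonal.mem_antidiagonal.1 hp
          rcases Nat.eq_zero_or_pos p.1 with h3 | h3
          · rw [h3]
            simp [hth]
          · rw [ih p.2 (by omega), mul_zero]
        rw [h2] at h1
        simp only [hth, PowerSeries.coeff_mk] at h1
        have hq : (n : ℚ) ≠ 0 := by exact_mod_cast hn.ne'
        have e : (n : R) = algebraMap ℚ R (n : ℚ) := (map_natCast (algebraMap ℚ R) n).symm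
        rw [e, ← Algebra.smul_def] at h1
        have h4 := congrArg (fun x => (n : ℚ)⁻¹ • x) h1
        simp only [smul_smul, inv_mul_cancel₀ hq, one_smul, smul_zero] at h4
        exact h4
  intro n
  have h1 := coef n
  rw [hE, map_sub, PowerSeries.coeff_mul, sub_eq_zero] at h1
  simp only [hdh, hH, PowerSeries.coeff_mk] at h1
  exact h1.symm

/-- The ring of smooth periodic functions. -/
noncomputable def BeltramiE_R : Subalgebra ℚ (ℂ → ℂ) where
  carrier := {f | ContDiff ℝ ∞ f ∧ Per 0 f}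
  mul_mem' := by
    intro f g hf hg
    refine ⟨hf.1.mul hg.1, ?_⟩
    intro z v hv
    show f (z + v) * g (z + v) = f z * g z
    rw [hf.2 z v hv, hg.2 z v hv]
  add_mem' := by
    intro f g hf hg
    refine ⟨hf.1.add hg.1, ?_⟩
    intro z v hv
    show f (z + v) + g (z + v) = f z + g z
    rw [hf.2 z v hv, hg.2 z v hv]
  algebraMap_mem' := by
    intro r
    refine ⟨?_, ?_⟩
    · have : (algebraMap ℚ (ℂ → ℂ)) r = fun _ => algebraMap ℚ ℂ r := rfl
      rw [this]
      exact contDiff_const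
    · intro z v _
      rfl

theorem BeltramiE_smooth (x : BeltramiE_R) : ContDiff ℝ ∞ (x : ℂ → ℂ) := x.2.1

theorem BeltramiE_per (x : BeltramiE_R) : Per 0 (x : ℂ → ℂ) := x.2.2

theorem BeltramiE_diff (x : BeltramiE_R) (z : ℂ) : DifferentiableAt ℝ (x : ℂ → ℂ) z :=
  (x.2.1.differentiable (by simp)) z

theorem BeltramiE_Dz_mem {f : ℂ → ℂ} (hf : ContDiff ℝ ∞ f) (hp : Per 0 f) :
    ContDiff ℝ ∞ (Dz f) ∧ Per 0 (Dz f) := by
  have h1 : ContDiff ℝ ∞ (Dx f) := contDiff_Dx hf (by simp)
  have h2 : ContDiff ℝ ∞ (Dy f) := contDiff_Dy hf (by simp)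
  refine ⟨(h1.sub (contDiff_const.mul h2)).div_const 2, ?_⟩
  intro z v hv
  show (Dx f (z + v) - Complex.I * Dy f (z + v)) / 2 = (Dx f z - Complex.I * Dy f z) / 2
  rw [per_Dx hp z v hv, per_Dy hp z v hv]

theorem BeltramiE_Dzb_mem {f : ℂ → ℂ} (hf : ContDiff ℝ ∞ f) (hp : Per 0 f) :
    ContDiff ℝ ∞ (Dzb f) ∧ Per 0 (Dzb f) := by
  have h1 : ContDiff ℝ ∞ (Dx f) := contDiff_Dx hf (by simp)
  have h2 : ContDiff ℝ ∞ (Dy f) := contDiff_Dy hf (by simp)
  refine ⟨(h1.add (contDiff_const.mul h2)).div_const 2, ?_⟩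
  intro z v hv
  show (Dx f (z + v) + Complex.I * Dy f (z + v)) / 2 = (Dx f z + Complex.I * Dy f z) / 2
  rw [per_Dx hp z v hv, per_Dy hp z v hv]

noncomputable def BeltramiE_D (x : BeltramiE_R) : BeltramiE_R :=
  ⟨Dz (x : ℂ → ℂ), BeltramiE_Dz_mem x.2.1 x.2.2⟩

noncomputable def BeltramiE_Db (x : BeltramiE_R) : BeltramiE_R :=
  ⟨Dzb (x : ℂ → ℂ), BeltramiE_Dzb_mem x.2.1 x.2.2⟩

theorem BeltramiE_D_add (x y : BeltramiE_R) :
    BeltramiE_D (x + y) = BeltramiE_D x + BeltramiE_D y := by
  apply Subtype.ext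
  funext z
  have h1 := BeltramiE_diff x z
  have h2 := BeltramiE_diff y z
  show (Dx (fun z => (x : ℂ → ℂ) z + (y : ℂ → ℂ) z) z
    - Complex.I * Dy (fun z => (x : ℂ → ℂ) z + (y : ℂ → ℂ) z) z) / 2
    = (Dx (x : ℂ → ℂ) z - Complex.I * Dy (x : ℂ → ℂ) z) / 2
      + (Dx (y : ℂ → ℂ) z - Complex.I * Dy (y : ℂ → ℂ) z) / 2
  rw [Dx_add h1 h2, Dy_add h1 h2]
  ring

theorem BeltramiE_Db_add (x y : BeltramiE_R) :
    BeltramiE_Db (x + y) = BeltramiE_Db x + BeltramiE_Db y := by
  apply Subtype.ext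
  funext z
  have h1 := BeltramiE_diff x z
  have h2 := BeltramiE_diff y z
  show (Dx (fun z => (x : ℂ → ℂ) z + (y : ℂ → ℂ) z) z
    + Complex.I * Dy (fun z => (x : ℂ → ℂ) z + (y : ℂ → ℂ) z) z) / 2
    = (Dx (x : ℂ → ℂ) z + Complex.I * Dy (x : ℂ → ℂ) z) / 2
      + (Dx (y : ℂ → ℂ) z + Complex.I * Dy (y : ℂ → ℂ) z) / 2
  rw [Dx_add h1 h2, Dy_add h1 h2]
  ring

theorem BeltramiE_D_mul (x y : BeltramiE_R) :
    BeltramiE_D (x * y) = BeltramiE_D x * y + x * BeltramiE_D y := by
  apply Subtype.ext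
  funext z
  exact Dz_mul (BeltramiE_diff x z) (BeltramiE_diff y z)

theorem BeltramiE_Db_mul (x y : BeltramiE_R) :
    BeltramiE_Db (x * y) = BeltramiE_Db x * y + x * BeltramiE_Db y := by
  apply Subtype.ext
  funext z
  exact Dzb_mul (BeltramiE_diff x z) (BeltramiE_diff y z)

/-- Solve `∂̄ y = ∂ x`. -/
theorem BeltramiE_solve (x : BeltramiE_R) : ∃ y : BeltramiE_R, BeltramiE_Db y = BeltramiE_D x := by
  obtain ⟨f, hf, hp, he⟩ := solve_dbar (BeltramiE_Dz_mem x.2.1 x.2.2).1
    (BeltramiE_Dz_mem x.2.1 x.2.2).2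
  refine ⟨⟨f, hf, hp⟩, ?_⟩
  apply Subtype.ext
  funext z
  have h0 := (integral_Dz_cell (x.2.1.of_le (by simp)) x.2.2).1
  have := he z
  rw [h0, sub_zero] at this
  exact this

theorem BeltramiE_conv {R : Type*} [CommRing R] {h : ℕ → R} (h0 : h 0 = 1) (c : ℕ → R)
    (hc : ∀ n, ∑ p ∈ Finset.HasAntidiagonal.antidiagonal n, c p.1 * h p.2 = 0) (n : ℕ) :
    c n = 0 := by
  induction n using Nat.strong_induction_on with
  | _ n ih =>
    have h1 := hc n
    rw [Finset.sum_eq_single (n, 0)] at h1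
    · simpa [h0] using h1
    · intro p hp hne
      have hpn := Finset.HasAntidiagonal.mem_antidiagonal.1 hp
      have : p.1 < n := by
        rcases Nat.eq_zero_or_pos p.2 with h2 | h2
        · exfalso
          apply hne
          apply Prod.ext
          · show p.1 = n
            omega
          · exact h2
        · omega
      rw [ih p.1 this, zero_mul]
    · intro hn
      exact absurd (Finset.HasAntidiagonal.mem_antidiagonal.2 (by simp)) hn

/-- **The series of the logarithm.** There are smooth periodic `s_n` with `∂̄s_0 = ∂μ`,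
`∂̄s_{n+1} = μ ∂s_n` (no constants!). Proof: let `h_0 = 1` and `∂̄h_{n+1} = ∂(μ h_n)`
(`solve_dbar`; the mean of a derivative is zero). Apply `formal_log` in the ring `R` of smooth
periodic functions (a `Subalgebra` of `ℂ → ℂ`) and the derivations `∂`, `∂̄`:
`∂̄h_{n+1} = ∑_{i+j=n+1} ∂̄ℓ_i h_j` and `∂(μ h_n) = ∂μ h_n + μ ∑_{i+j=n} ∂ℓ_i h_j`. So
`∑_{i+j=n} (∂̄ℓ_{i+1} - μ ∂ℓ_i - [i = 0] ∂μ) h_j = 0` for all `n`, and by strong induction
(`h_0 = 1`) `∂̄ℓ_{n+1} = μ ∂ℓ_n + [n = 0] ∂μ`. Put `s_n = ℓ_{n+1}`. -/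
theorem log_series {μ : ℂ → ℂ} (hμ : ContDiff ℝ ∞ μ) (hμp : Per 0 μ) :
    ∃ s : ℕ → ℂ → ℂ, (∀ n, ContDiff ℝ ∞ (s n)) ∧ (∀ n, Per 0 (s n)) ∧
      (∀ z, Dzb (s 0) z = Dz μ z) ∧ ∀ n z, Dzb (s (n + 1)) z = μ z * Dz (s n) z := by
  set M : BeltramiE_R := ⟨μ, hμ, hμp⟩ with hM
  choose sol hsol using BeltramiE_solve
  -- the sequence h
  let h : ℕ → BeltramiE_R := fun n => Nat.rec 1 (fun _ x => sol (M * x)) n
  have h0 : h 0 = 1 := rfl
  have hs : ∀ n, BeltramiE_Db (h (n + 1)) = BeltramiE_D (M * h n) := fun n => hsol _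
  obtain ⟨ℓ, ℓ0, hℓ⟩ := formal_log h h0
  have hD := hℓ BeltramiE_D BeltramiE_D_add BeltramiE_D_mul
  have hDb := hℓ BeltramiE_Db BeltramiE_Db_add BeltramiE_Db_mul
  have Dz0 : BeltramiE_D 0 = 0 := by
    have := BeltramiE_D_add 0 0
    rw [add_zero] at this
    simpa using this
  have Db0 : BeltramiE_Db 0 = 0 := by
    have := BeltramiE_Db_add 0 0
    rw [add_zero] at this
    simpa using this
  have hc : ∀ n, ∑ p ∈ Finset.HasAntidiagonal.antidiagonal n,
      (BeltramiE_Db (ℓ (p.1 + 1)) - M * BeltramiE_D (ℓ p.1)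
        - (if p.1 = 0 then BeltramiE_D M else 0)) * h p.2 = 0 := by
    intro n
    have e1 := hDb (n + 1)
    rw [hs n, BeltramiE_D_mul, hD n, Finset.Nat.antidiagonal_succ, Finset.sum_cons] at e1
    simp only [ℓ0, Db0, zero_mul, zero_add, Finset.sum_map, Function.Embedding.prodMap,
      Function.Embedding.coeFn_mk, Prod.map, Function.Embedding.refl_apply] at e1
    have e2 : ∑ p ∈ Finset.HasAntidiagonal.antidiagonal n,
        (if p.1 = 0 then BeltramiE_D M else 0) * h p.2 = BeltramiE_D M * h n := by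
      rw [Finset.sum_eq_single (0, n)]
      · simp
      · intro p hp hne
        have hpn := Finset.HasAntidiagonal.mem_antidiagonal.1 hp
        have : p.1 ≠ 0 := by
          intro h2
          apply hne
          apply Prod.ext
          · exact h2
          · show p.2 = n
            omega
        rw [if_neg this, zero_mul]
      · intro hn
        exact absurd (Finset.HasAntidiagonal.mem_antidiagonal.2 (by simp)) hn
    simp only [sub_mul, Finset.sum_sub_distrib]
    rw [e2]
    have e3 : ∑ p ∈ Finset.HasAntidiagonal.antidiagonal n, M * BeltramiE_D (ℓ p.1) * h p.2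
        = M * ∑ p ∈ Finset.HasAntidiagonal.antidiagonal n, BeltramiE_D (ℓ p.1) * h p.2 := by
      rw [Finset.mul_sum]
      refine Finset.sum_congr rfl fun p _ => ?_
      ring
    rw [e3]
    rw [sub_sub, sub_eq_zero]
    rw [add_comm]
    exact e1.symm
  have hc0 := BeltramiE_conv h0
    (fun i => BeltramiE_Db (ℓ (i + 1)) - M * BeltramiE_D (ℓ i)
      - (if i = 0 then BeltramiE_D M else 0)) hc
  refine ⟨fun n => (ℓ (n + 1) : ℂ → ℂ), fun n => (ℓ (n + 1)).2.1, fun n => (ℓ (n + 1)).2.2, ?_, ?_⟩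
  · intro z
    have h1 := hc0 0
    simp only [ℓ0, Dz0, mul_zero, sub_zero, if_true, zero_add] at h1
    rw [sub_eq_zero] at h1
    exact congrFun (congrArg Subtype.val h1) z
  · intro n z
    have h1 := hc0 (n + 1)
    simp only [Nat.succ_ne_zero, if_false, sub_zero] at h1
    rw [sub_eq_zero] at h1
    exact congrFun (congrArg Subtype.val h1) z

end Pool.Agent.KK
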