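import Pool.Agent.W_bb4b37_h53.BeltramiD
import Pool.Agent.W_bb4b37_h53.BeltramiE

/-!
# The Beltrami equation with smooth periodic coefficient (part F)
-/

set_option autoImplicit false

open Filter Topology Set MeasureTheory Metric
open scoped ContDiff

namespace Pool.Agent.KK

/-- Continuous functions are integrable over the cell. -/
theorem BeltramiF_integrable {E : Type*} [NormedAddCommGroup E] {g : ℂ → E} (hg : Continuous g) :
    IntegrableOn g cell := by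
  have h1 : cell ⊆ closedBall (0 : ℂ) 2 := by
    intro z hz
    rw [mem_closedBall_zero_iff]
    have h2 := hz.1
    have h3 := hz.2
    have h4 := Complex.norm_le_abs_re_add_abs_im z
    have h5 : |z.re| ≤ 1 := abs_le.2 ⟨by linarith [h2.1], h2.2.le⟩
    have h6 : |z.im| ≤ 1 := abs_le.2 ⟨by linarith [h3.1], h3.2.le⟩
    linarith
  exact (hg.locallyIntegrable.integrableOn_isCompact (isCompact_closedBall (0 : ℂ) 2)).mono_set h1

theorem BeltramiF_contDiff_Dz {f : ℂ → ℂ} (hf : ContDiff ℝ ∞ f) : ContDiff ℝ ∞ (Dz f) := by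
  have h1 : ContDiff ℝ ∞ (Dx f) := contDiff_Dx hf (by simp)
  have h2 : ContDiff ℝ ∞ (Dy f) := contDiff_Dy hf (by simp)
  exact (h1.sub (contDiff_const.mul h2)).div_const 2

theorem BeltramiF_contDiff_Dzb {f : ℂ → ℂ} (hf : ContDiff ℝ ∞ f) : ContDiff ℝ ∞ (Dzb f) := by
  have h1 : ContDiff ℝ ∞ (Dx f) := contDiff_Dx hf (by simp)
  have h2 : ContDiff ℝ ∞ (Dy f) := contDiff_Dy hf (by simp)
  exact (h1.add (contDiff_const.mul h2)).div_const 2

theorem BeltramiF_per_Dz {a : ℝ} {f : ℂ → ℂ} (hf : Per a f) : Per a (Dz f) := by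
  intro z v hv
  simp only [Dz]
  rw [per_Dx hf z v hv, per_Dy hf z v hv]

theorem BeltramiF_Dz_sub {f g : ℂ → ℂ} (hf : ContDiff ℝ ∞ f) (hg : ContDiff ℝ ∞ g) (z : ℂ) :
    Dz (fun y => f y - g y) z = Dz f z - Dz g z := by
  have h1 : DifferentiableAt ℝ f z := (hf.differentiable (by simp)) z
  have h2 : DifferentiableAt ℝ g z := (hg.differentiable (by simp)) z
  simp only [Dz]
  rw [Dx_sub h1 h2, Dy_sub h1 h2]
  ring

theorem BeltramiF_Dzb_sub {f g : ℂ → ℂ} (hf : ContDiff ℝ ∞ f) (hg : ContDiff ℝ ∞ g) (z : ℂ) :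
    Dzb (fun y => f y - g y) z = Dzb f z - Dzb g z := by
  have h1 : DifferentiableAt ℝ f z := (hf.differentiable (by simp)) z
  have h2 : DifferentiableAt ℝ g z := (hg.differentiable (by simp)) z
  simp only [Dzb]
  rw [Dx_sub h1 h2, Dy_sub h1 h2]
  ring

/-- Constants have integral themselves over the cell. -/
theorem BeltramiF_integral_const {E : Type*} [NormedAddCommGroup E] [NormedSpace ℝ E]
    [CompleteSpace E] (c : E) : ∫ _z in cell, c = c := by
  rw [setIntegral_const, measureReal_def, volume_cell]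
  simp

/-- The remainders. -/
theorem BeltramiF_rem {μ f : ℂ → ℂ} {τ : ℂ} {s : ℕ → ℂ → ℂ} (hf : ContDiff ℝ ∞ f) (hfp : Per 0 f)
    (he : ∀ z, Dzb f z = μ z * Dz f z + Dz μ z - τ)
    (hs : ∀ n, ContDiff ℝ ∞ (s n)) (hsp : ∀ n, Per 0 (s n))
    (hs0 : ∀ z, Dzb (s 0) z = Dz μ z) (hs1 : ∀ n z, Dzb (s (n + 1)) z = μ z * Dz (s n) z) (N : ℕ) :
    ∃ r : ℂ → ℂ, ContDiff ℝ ∞ r ∧ Per 0 r ∧
      ∀ z, Dzb r z = μ z * Dz r z + μ z * Dz (s N) z - τ := by
  induction N with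
  | zero =>
    refine ⟨fun z => f z - s 0 z, hf.sub (hs 0), ?_, ?_⟩
    · intro z v hv
      show f (z + v) - s 0 (z + v) = f z - s 0 z
      rw [hfp z v hv, hsp 0 z v hv]
    · intro z
      rw [BeltramiF_Dzb_sub hf (hs 0), BeltramiF_Dz_sub hf (hs 0), he, hs0]
      ring
  | succ N ih =>
    obtain ⟨r, hr, hrp, hre⟩ := ih
    refine ⟨fun z => r z - s (N + 1) z, hr.sub (hs (N + 1)), ?_, ?_⟩
    · intro z v hv
      show r (z + v) - s (N + 1) (z + v) = r z - s (N + 1) z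
      rw [hrp z v hv, hsp (N + 1) z v hv]
    · intro z
      rw [BeltramiF_Dzb_sub hr (hs (N + 1)), BeltramiF_Dz_sub hr (hs (N + 1)), hre, hs1]
      ring

/-- The bound for the terms of the series. -/
theorem BeltramiF_terms {μ : ℂ → ℂ} {k : ℝ}
    (hμk : ∀ z, ‖μ z‖ ≤ k) {s : ℕ → ℂ → ℂ}
    (hs : ∀ n, ContDiff ℝ ∞ (s n)) (hsp : ∀ n, Per 0 (s n))
    (hs1 : ∀ n z, Dzb (s (n + 1)) z = μ z * Dz (s n) z) (N : ℕ) :
    ∫ z in cell, ‖Dz (s N) z‖ ^ 2 ≤ (k ^ 2) ^ N * ∫ z in cell, ‖Dz (s 0) z‖ ^ 2 := by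
  induction N with
  | zero => simp
  | succ N ih =>
    rw [l2_identity (hs (N + 1)) (hsp (N + 1))]
    have hc := (BeltramiF_contDiff_Dz (hs N)).continuous
    have h1 : ∫ z in cell, ‖Dzb (s (N + 1)) z‖ ^ 2 ≤ ∫ z in cell, k ^ 2 * ‖Dz (s N) z‖ ^ 2 := by
      refine setIntegral_mono ?_ ?_ ?_
      · exact BeltramiF_integrable
          ((BeltramiF_contDiff_Dzb (hs (N + 1))).continuous.norm.pow 2)
      · exact BeltramiF_integrable (continuous_const.mul (hc.norm.pow 2))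
      · intro z
        show ‖Dzb (s (N + 1)) z‖ ^ 2 ≤ k ^ 2 * ‖Dz (s N) z‖ ^ 2
        rw [hs1, norm_mul, mul_pow]
        exact mul_le_mul_of_nonneg_right (pow_le_pow_left₀ (norm_nonneg _) (hμk z) 2)
          (by positivity)
    refine le_trans h1 ?_
    rw [integral_const_mul, pow_succ (k ^ 2) N, mul_comm ((k ^ 2) ^ N) (k ^ 2), mul_assoc]
    exact mul_le_mul_of_nonneg_left ih (by positivity)

/-- **The logarithm of the derivative.** The equation `∂̄f = μ ∂f + ∂μ` is solvable (that is,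
`τ = 0` in `solve_beltrami` for `h = ∂μ`). Proof: let `f, τ` be from `solve_beltrami` (`h = ∂μ`),
`s_n` from `log_series`, `r = f - ∑_{n ≤ N} s_n`. Then `∂̄r = μ ∂r + μ ∂s_N - τ`. By `l2_identity`,
`‖∂s_{n+1}‖₂ = ‖∂̄s_{n+1}‖₂ ≤ k ‖∂s_n‖₂`, so `‖∂s_N‖₂ ≤ k^N ‖∂s_0‖₂`; by `l2_est`
`(1 - k) ‖∂r‖₂ ≤ k ‖∂s_N‖₂`; and `τ = ∫ (μ ∂r + μ ∂s_N)` is arbitrarily small. So `τ = 0`. -/
theorem log_solution {μ : ℂ → ℂ} {k : ℝ} (hk : k < 1) (hμ : ContDiff ℝ ∞ μ)
    (hμp : Per 0 μ) (hμk : ∀ z, ‖μ z‖ ≤ k) :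
    ∃ f : ℂ → ℂ, ContDiff ℝ ∞ f ∧ Per 0 f ∧ ∀ z, Dzb f z = μ z * Dz f z + Dz μ z := by
  have hk0 : 0 ≤ k := (norm_nonneg _).trans (hμk 0)
  obtain ⟨f, τ, hf, hfp, he⟩ := solve_beltrami hk hμ hμp hμk (BeltramiF_contDiff_Dz hμ)
    (BeltramiF_per_Dz hμp)
  obtain ⟨s, hs, hsp, hs0, hs1⟩ := log_series hμ hμp
  have hμc := hμ.continuous
  set I0 : ℝ := ∫ z in cell, ‖Dz (s 0) z‖ ^ 2 with hI0
  have hmain : ∀ N : ℕ, ‖τ‖ ^ 2 * (1 - k) ^ 2 ≤ (6 + 4 * (1 - k) ^ 2) * ((k ^ 2) ^ N * I0) := by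
    intro N
    obtain ⟨r, hr, hrp, hre⟩ := BeltramiF_rem hf hfp he hs hsp hs0 hs1 N
    have hsN := (BeltramiF_contDiff_Dz (hs N)).continuous
    have hrc := (BeltramiF_contDiff_Dz hr).continuous
    have hrbc := (BeltramiF_contDiff_Dzb hr).continuous
    have h1 := BeltramiF_terms hμk hs hsp hs1 N
    have h2 := l2_est hk0 hk hμc hμk hr hrp (hμc.mul hsN) hre
    have h3 : ∫ z in cell, ‖μ z * Dz (s N) z‖ ^ 2 ≤ ∫ z in cell, ‖Dz (s N) z‖ ^ 2 := by
      refine setIntegral_mono (BeltramiF_integrable ((hμc.mul hsN).norm.pow 2))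
        (BeltramiF_integrable (hsN.norm.pow 2)) ?_
      intro z
      show ‖μ z * Dz (s N) z‖ ^ 2 ≤ ‖Dz (s N) z‖ ^ 2
      rw [norm_mul]
      refine pow_le_pow_left₀ (by positivity) ?_ 2
      have : ‖μ z‖ ≤ 1 := (hμk z).trans hk.le
      nlinarith [norm_nonneg (Dz (s N) z)]
    have h4 := l2_identity hr hrp
    have h5 : ∫ _z in cell, ‖τ‖ ^ 2 ≤ ∫ z in cell,
        ((4 * ‖Dz r z‖ ^ 2 + 4 * ‖Dz (s N) z‖ ^ 2) + 2 * ‖Dzb r z‖ ^ 2) := by
      refine setIntegral_mono (BeltramiF_integrable continuous_const)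
        (BeltramiF_integrable ?_) ?_
      · exact ((continuous_const.mul (hrc.norm.pow 2)).add
          (continuous_const.mul (hsN.norm.pow 2))).add (continuous_const.mul (hrbc.norm.pow 2))
      · intro z
        show ‖τ‖ ^ 2 ≤ (4 * ‖Dz r z‖ ^ 2 + 4 * ‖Dz (s N) z‖ ^ 2) + 2 * ‖Dzb r z‖ ^ 2
        have e1 : τ = (μ z * Dz r z + μ z * Dz (s N) z) - Dzb r z := by
          rw [hre]
          ring
        have e2 : ‖τ‖ ≤ ‖Dz r z‖ + ‖Dz (s N) z‖ + ‖Dzb r z‖ := by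
          have e3 : ‖μ z‖ ≤ 1 := (hμk z).trans hk.le
          calc ‖τ‖ = ‖(μ z * Dz r z + μ z * Dz (s N) z) - Dzb r z‖ := by rw [← e1]
            _ ≤ ‖μ z * Dz r z + μ z * Dz (s N) z‖ + ‖Dzb r z‖ := norm_sub_le _ _
            _ ≤ (‖μ z * Dz r z‖ + ‖μ z * Dz (s N) z‖) + ‖Dzb r z‖ := by
                gcongr
                exact norm_add_le _ _
            _ ≤ ‖Dz r z‖ + ‖Dz (s N) z‖ + ‖Dzb r z‖ := by
                rw [norm_mul, norm_mul]
                nlinarith [norm_nonneg (Dz r z), norm_nonneg (Dz (s N) z)]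
        nlinarith [norm_nonneg (Dz r z), norm_nonneg (Dz (s N) z), norm_nonneg (Dzb r z),
          norm_nonneg τ, sq_nonneg (‖Dz r z‖ - ‖Dz (s N) z‖),
          sq_nonneg (‖Dz r z‖ + ‖Dz (s N) z‖ - ‖Dzb r z‖)]
    rw [BeltramiF_integral_const, integral_add, integral_add, integral_const_mul,
      integral_const_mul, integral_const_mul, ← h4] at h5
    · set A := ∫ z in cell, ‖Dz r z‖ ^ 2 with hA
      set B := ∫ z in cell, ‖Dz (s N) z‖ ^ 2 with hB
      have h6 : (1 - k) ^ 2 * A ≤ B := h2.trans h3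
      have h7 : 0 ≤ (1 - k) ^ 2 := by positivity
      nlinarith
    · exact BeltramiF_integrable (continuous_const.mul (hrc.norm.pow 2))
    · exact BeltramiF_integrable (continuous_const.mul (hsN.norm.pow 2))
    · exact BeltramiF_integrable ((continuous_const.mul (hrc.norm.pow 2)).add
          (continuous_const.mul (hsN.norm.pow 2)))
    · exact BeltramiF_integrable (continuous_const.mul (hrbc.norm.pow 2))
  have hlim : Tendsto (fun N : ℕ => (6 + 4 * (1 - k) ^ 2) * ((k ^ 2) ^ N * I0)) atTop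
      (𝓝 ((6 + 4 * (1 - k) ^ 2) * (0 * I0))) := by
    refine Tendsto.const_mul _ (Tendsto.mul_const _ ?_)
    exact tendsto_pow_atTop_nhds_zero_of_lt_one (by positivity) (by nlinarith)
  have h0 : ‖τ‖ ^ 2 * (1 - k) ^ 2 ≤ 0 := by
    have := ge_of_tendsto' hlim hmain
    simpa using this
  have hτ : τ = 0 := by
    have h1 : 0 < (1 - k) ^ 2 := by
      have : 0 < 1 - k := by linarith
      positivity
    have h2 : ‖τ‖ ^ 2 ≤ 0 := by
      by_contra h
      push Not at h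
      have := mul_pos h h1
      linarith
    have h3 : ‖τ‖ = 0 := by
      have := sq_nonneg ‖τ‖
      exact pow_eq_zero_iff (n := 2) (by norm_num) |>.1 (le_antisymm h2 this)
    exact norm_eq_zero.1 h3
  refine ⟨f, hf, hfp, fun z => ?_⟩
  rw [he, hτ, sub_zero]

/-- A periodic `∂̄`-closed pair of mean zero functions has a periodic potential: if `p, q` are
smooth, periodic, of mean zero over the cell and `∂̄p = ∂q`, there is a smooth periodic `φ` with
`∂φ = p`, `∂̄φ = q`. Proof: `solve_dbar` gives `φ` with `∂̄φ = q`; `g = ∂φ - p` satisfies `∂̄g = 0`,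
so `∂g = 0` in `L²` by `l2_identity`, so `g` is constant, and its mean is zero. -/
theorem exists_potential {p q : ℂ → ℂ} (hp : ContDiff ℝ ∞ p) (hpp : Per 0 p)
    (hq : ContDiff ℝ ∞ q) (hqp : Per 0 q) (h : ∀ z, Dzb p z = Dz q z)
    (hp0 : ∫ z in cell, p z = 0) (hq0 : ∫ z in cell, q z = 0) :
    ∃ φ : ℂ → ℂ, ContDiff ℝ ∞ φ ∧ Per 0 φ ∧ φ 0 = 0 ∧
      (∀ z, Dz φ z = p z) ∧ ∀ z, Dzb φ z = q z := by
  obtain ⟨φ, hφ, hφp, hφe⟩ := solve_dbar hq hqp
  have he : ∀ z, Dzb φ z = q z := fun z => by rw [hφe, hq0, sub_zero]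
  have hef : Dzb φ = q := funext he
  have hDz := BeltramiF_contDiff_Dz hφ
  -- `g = ∂φ - p`
  have hg : ContDiff ℝ ∞ (fun y => Dz φ y - p y) := hDz.sub hp
  have hgp : Per 0 (fun y => Dz φ y - p y) := by
    intro z v hv
    show Dz φ (z + v) - p (z + v) = Dz φ z - p z
    rw [BeltramiF_per_Dz hφp z v hv, hpp z v hv]
  have hg0 : ∀ z, Dzb (fun y => Dz φ y - p y) z = (fun _ : ℂ => (0 : ℂ)) z *
      Dz (fun y => Dz φ y - p y) z - 0 := by
    intro z
    rw [BeltramiF_Dzb_sub hDz hp, ← Dz_Dzb_comm, hef, h]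
    · simp
    · exact (contDiff_infty.1 hφ 2).contDiffAt
  have hconst := (beltrami_unique (μ := fun _ => 0) (k := 0) (by norm_num) contDiff_const
    (fun _ _ _ => rfl) (by simp) hg hgp hg0).2
  have hmean : ∫ z in cell, (Dz φ z - p z) = 0 := by
    rw [integral_sub (BeltramiF_integrable hDz.continuous) (BeltramiF_integrable hp.continuous),
      (integral_Dz_cell (hφ.of_le (by exact_mod_cast (le_top : ((1 : ℕ∞)) ≤ ⊤))) hφp).1, hp0, sub_zero]
  have hg00 : Dz φ 0 - p 0 = 0 := by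
    have h1 : ∫ z in cell, (Dz φ z - p z) = ∫ _z in cell, (Dz φ 0 - p 0) :=
      integral_congr_ae (Eventually.of_forall hconst)
    rw [BeltramiF_integral_const] at h1
    rw [← h1, hmean]
  refine ⟨fun y => φ y - (fun _ : ℂ => φ 0) y, hφ.sub contDiff_const, ?_, ?_, ?_, ?_⟩
  · intro z v hv
    show φ (z + v) - φ 0 = φ z - φ 0
    rw [hφp z v hv]
  · simp
  · intro z
    rw [BeltramiF_Dz_sub hφ contDiff_const]
    have h1 : Dz (fun _ : ℂ => φ 0) z = 0 := by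
      simp only [Dz, Dx_const, Dy_const]
      simp
    have h2 : Dz φ z - p z = 0 := (hconst z).trans hg00
    rw [h1, sub_zero]
    exact sub_eq_zero.1 h2
  · intro z
    rw [BeltramiF_Dzb_sub hφ contDiff_const]
    have h1 : Dzb (fun _ : ℂ => φ 0) z = 0 := by
      simp only [Dzb, Dx_const, Dy_const]
      simp
    rw [h1, sub_zero, he]

end Pool.Agent.KK
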