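import Pool.Agent.W_bb4b37_h53.BeltramiF

/-!
# The Beltrami equation with smooth periodic coefficient (part G)
-/

set_option autoImplicit false

open Filter Topology Set MeasureTheory Metric
open scoped ContDiff

namespace Pool.Agent.KK

/-- The normal form of the solutions: `x + β x̄ + φ x` with `φ` periodic. -/
def normalForm (β : ℂ) (φ : ℂ → ℂ) (x : ℂ) : ℂ := x + β * (starRingEnd ℂ) x + φ x

/-- The derivatives of the normal form. -/
theorem BeltramiG_normalForm (β : ℂ) {φ : ℂ → ℂ} (hφ : ContDiff ℝ ∞ φ) (x : ℂ) :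
    Dz (normalForm β φ) x = 1 + Dz φ x ∧ Dzb (normalForm β φ) x = β + Dzb φ x := by
  have h0 : DifferentiableAt ℝ φ x := (hφ.differentiable (by simp)) x
  have h1 : HasFDerivAt (fun y : ℂ => y) (ContinuousLinearMap.id ℝ ℂ) x := hasFDerivAt_id x
  have h2 : HasFDerivAt (fun y : ℂ => (starRingEnd ℂ) y)
      (Complex.conjCLE : ℂ →L[ℝ] ℂ) x := Complex.conjCLE.toContinuousLinearMap.hasFDerivAt
  have h3 : HasFDerivAt (normalForm β φ) (ContinuousLinearMap.id ℝ ℂ +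
      β • (Complex.conjCLE : ℂ →L[ℝ] ℂ) + fderiv ℝ φ x) x :=
    (h1.add (h2.const_mul β)).add h0.hasFDerivAt
  have h4 : Dx (normalForm β φ) x = 1 + β + Dx φ x := by
    show fderiv ℝ (normalForm β φ) x 1 = 1 + β + fderiv ℝ φ x 1
    rw [h3.fderiv]
    simp
  have h5 : Dy (normalForm β φ) x = Complex.I - β * Complex.I + Dy φ x := by
    show fderiv ℝ (normalForm β φ) x Complex.I = Complex.I - β * Complex.I +
      fderiv ℝ φ x Complex.I
    rw [h3.fderiv]
    simp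
    ring
  constructor
  · simp only [Dz]
    rw [h4, h5]
    linear_combination (-(1 / 2 : ℂ) + β / 2) * Complex.I_mul_I
  · simp only [Dzb]
    rw [h4, h5]
    linear_combination ((1 / 2 : ℂ) - β / 2) * Complex.I_mul_I

/-- Orthogonality of constants and functions of mean zero. -/
theorem BeltramiG_pyth {g : ℂ → ℂ} (hg : Continuous g) (h0 : ∫ z in cell, g z = 0) (a : ℂ) :
    ∫ z in cell, ‖g z + a‖ ^ 2 = (∫ z in cell, ‖g z‖ ^ 2) + ‖a‖ ^ 2 := by
  have e : ∀ z, ‖g z + a‖ ^ 2 =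
      ‖g z‖ ^ 2 + ‖a‖ ^ 2 + 2 * Complex.reCLM (g z * (starRingEnd ℂ) a) := by
    intro z
    rw [← Complex.normSq_eq_norm_sq, ← Complex.normSq_eq_norm_sq, ← Complex.normSq_eq_norm_sq,
      Complex.normSq_add]
    rfl
  have hc : Continuous (fun z => g z * (starRingEnd ℂ) a) := hg.mul continuous_const
  have h1 : ∫ z in cell, Complex.reCLM (g z * (starRingEnd ℂ) a) = 0 := by
    rw [ContinuousLinearMap.integral_comp_comm _ (BeltramiF_integrable hc), integral_mul_const,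
      h0, zero_mul, map_zero]
  have i1 : IntegrableOn (fun z => ‖g z‖ ^ 2) cell := BeltramiF_integrable (hg.norm.pow 2)
  have i2 : IntegrableOn (fun _ : ℂ => ‖a‖ ^ 2) cell := BeltramiF_integrable continuous_const
  have i3 : IntegrableOn (fun z => 2 * Complex.reCLM (g z * (starRingEnd ℂ) a)) cell :=
    BeltramiF_integrable (continuous_const.mul (Complex.reCLM.continuous.comp hc))
  have i12 : IntegrableOn (fun z => ‖g z‖ ^ 2 + ‖a‖ ^ 2) cell := i1.add i2
  rw [integral_congr_ae (Eventually.of_forall e), integral_add i12 i3,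
    integral_add i1 i2, BeltramiF_integral_const, integral_const_mul, h1, mul_zero, add_zero]

/-- Cauchy-Schwarz for the mean. -/
theorem BeltramiG_mean_sq {g : ℂ → ℂ} (hg : Continuous g) :
    ‖∫ z in cell, g z‖ ^ 2 ≤ ∫ z in cell, ‖g z‖ ^ 2 := by
  have hc : Continuous (fun z => g z - ∫ y in cell, g y) := hg.sub continuous_const
  have h0 : ∫ z in cell, (g z - ∫ y in cell, g y) = 0 := by
    rw [integral_sub (BeltramiF_integrable hg) (BeltramiF_integrable continuous_const),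
      BeltramiF_integral_const, sub_self]
  have h1 := BeltramiG_pyth hc h0 (∫ y in cell, g y)
  simp only [sub_add_cancel] at h1
  rw [h1]
  have h2 : 0 ≤ ∫ z in cell, ‖g z - ∫ y in cell, g y‖ ^ 2 :=
    integral_nonneg (fun z => by positivity)
  linarith only [h2]

/-- Monotonicity of the integral over the cell. -/
theorem BeltramiG_mono {f g : ℂ → ℝ} (hf : Continuous f) (hg : Continuous g)
    (h : ∀ z, f z ≤ g z) : ∫ z in cell, f z ≤ ∫ z in cell, g z :=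
  setIntegral_mono (BeltramiF_integrable hf) (BeltramiF_integrable hg) h

/-- The equation for the periodic part. -/
theorem BeltramiG_eq {μ : ℂ → ℂ} {β : ℂ} {φ : ℂ → ℂ} (hφ : ContDiff ℝ ∞ φ)
    (h : ∀ x, Dzb (normalForm β φ) x = μ x * Dz (normalForm β φ) x) (x : ℂ) :
    Dzb φ x + β = μ x * (1 + Dz φ x) := by
  have h1 := h x
  rw [(BeltramiG_normalForm β hφ x).1, (BeltramiG_normalForm β hφ x).2] at h1
  rw [← h1]
  ring

theorem BeltramiG_mean_Dz {φ : ℂ → ℂ} (hφ : ContDiff ℝ ∞ φ) (hφp : Per 0 φ) :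
    ∫ z in cell, Dz φ z = 0 ∧ ∫ z in cell, Dzb φ z = 0 :=
  integral_Dz_cell (contDiff_infty.1 hφ 1) hφp

/-- The `L²` bound for solutions. -/
theorem BeltramiG_l2 {μ : ℂ → ℂ} {k : ℝ} (hk : k ≤ 1 / 2)
    (hμk : ∀ z, ‖μ z‖ ≤ k) {β : ℂ} {φ : ℂ → ℂ} (hφ : ContDiff ℝ ∞ φ) (hφp : Per 0 φ)
    (h : ∀ x, Dzb (normalForm β φ) x = μ x * Dz (normalForm β φ) x) :
    3 * ∫ z in cell, ‖Dz φ z‖ ^ 2 ≤ 4 * k ^ 2 := by
  have hk0 : 0 ≤ k := (norm_nonneg _).trans (hμk 0)
  have hm := BeltramiG_mean_Dz hφ hφp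
  have c1 := (BeltramiF_contDiff_Dz hφ).continuous
  have c2 := (BeltramiF_contDiff_Dzb hφ).continuous
  have h1 := BeltramiG_pyth c2 hm.2 β
  have h2 := BeltramiG_pyth c1 hm.1 1
  have h3 : ∫ z in cell, ‖Dzb φ z + β‖ ^ 2 ≤ ∫ z in cell, k ^ 2 * ‖Dz φ z + 1‖ ^ 2 := by
    refine BeltramiG_mono ((c2.add continuous_const).norm.pow 2)
      (continuous_const.mul ((c1.add continuous_const).norm.pow 2)) (fun z => ?_)
    rw [BeltramiG_eq hφ h z, norm_mul, mul_pow, add_comm (Dz φ z) 1]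
    exact mul_le_mul_of_nonneg_right (pow_le_pow_left₀ (norm_nonneg _) (hμk z) 2)
      (by positivity)
  rw [integral_const_mul, h1, h2, norm_one, one_pow, ← l2_identity hφ hφp] at h3
  have h4 : 0 ≤ ∫ z in cell, ‖Dz φ z‖ ^ 2 := integral_nonneg (fun z => by positivity)
  have h5 : k ^ 2 ≤ 1 / 4 := by nlinarith only [hk, hk0]
  have h6 : 0 ≤ ‖β‖ ^ 2 := by positivity
  have h7 : k ^ 2 * ∫ z in cell, ‖Dz φ z‖ ^ 2 ≤ 1 / 4 * ∫ z in cell, ‖Dz φ z‖ ^ 2 :=
    mul_le_mul_of_nonneg_right h5 h4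
  linarith only [h3, h6, h7]

/-- The derivatives of the exponential of a function. -/
theorem BeltramiG_exp {f : ℂ → ℂ} (hf : ContDiff ℝ ∞ f) (z : ℂ) :
    Dz (fun y => Complex.exp (f y)) z = Complex.exp (f z) * Dz f z ∧
      Dzb (fun y => Complex.exp (f y)) z = Complex.exp (f z) * Dzb f z := by
  have h0 : DifferentiableAt ℝ f z := (hf.differentiable (by simp)) z
  have h1 : HasFDerivAt (fun y => Complex.exp (f y)) (Complex.exp (f z) • fderiv ℝ f z) z :=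
    h0.hasFDerivAt.cexp
  have h2 : Dx (fun y => Complex.exp (f y)) z = Complex.exp (f z) * Dx f z := by
    show fderiv ℝ (fun y => Complex.exp (f y)) z 1 = _
    rw [h1.fderiv]
    rfl
  have h3 : Dy (fun y => Complex.exp (f y)) z = Complex.exp (f z) * Dy f z := by
    show fderiv ℝ (fun y => Complex.exp (f y)) z Complex.I = _
    rw [h1.fderiv]
    rfl
  constructor
  · simp only [Dz]
    rw [h2, h3]
    ring
  · simp only [Dzb]
    rw [h2, h3]
    ring

theorem BeltramiG_Dzb_sub_const {f : ℂ → ℂ} (hf : ContDiff ℝ ∞ f) (c : ℂ) (z : ℂ) :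
    Dzb (fun y => f y - c) z = Dzb f z ∧ Dz (fun y => f y - c) z = Dz f z := by
  constructor
  · rw [BeltramiF_Dzb_sub hf contDiff_const]
    simp [Dzb, Dx_const, Dy_const]
  · rw [BeltramiF_Dz_sub hf contDiff_const]
    simp [Dz, Dx_const, Dy_const]

theorem BeltramiG_div_const {f : ℂ → ℂ} (hf : ContDiff ℝ ∞ f) (c : ℂ) (z : ℂ) :
    Dzb (fun y => f y / c) z = Dzb f z / c ∧ Dz (fun y => f y / c) z = Dz f z / c := by
  have h0 : DifferentiableAt ℝ f z := (hf.differentiable (by simp)) z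
  have h1 : DifferentiableAt ℝ (fun _ : ℂ => c⁻¹) z := differentiableAt_const _
  simp only [div_eq_mul_inv]
  constructor
  · rw [Dzb_mul h0 h1]
    simp [Dzb, Dx_const, Dy_const]
  · rw [Dz_mul h0 h1]
    simp [Dz, Dx_const, Dy_const]

/-- **Solutions of the Beltrami equation.** Proof: with `f` from `log_solution`, `E = e^f` satisfies
`∂̄E = ∂(μ E)`. The mean `c` of `E` is not zero: otherwise `E`, `μ E - (mean)` have a potential
`φ` (`exists_potential`) with `∂̄φ = μ ∂φ - τ`, so `φ` is constant (`beltrami_unique`) and `E = 0`.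
Take `∂φ = E / c - 1`, `∂̄φ = μ E / c - β`, `β` = mean of `μ E / c`. The `L²` bounds: with
`H = E / c = 1 + ∂φ`, `‖∂φ‖₂² = ‖∂̄φ‖₂² ≤ ‖μ H‖₂² ≤ k² (1 + ‖∂φ‖₂²)`, and
`β - ∫ μ = ∫ μ ∂φ`. -/
theorem beltrami_exists {μ : ℂ → ℂ} {k : ℝ} (hk : k ≤ 1 / 2) (hμ : ContDiff ℝ ∞ μ)
    (hμp : Per 0 μ) (hμk : ∀ z, ‖μ z‖ ≤ k) :
    ∃ (β : ℂ) (φ : ℂ → ℂ), ContDiff ℝ ∞ φ ∧ Per 0 φ ∧ φ 0 = 0 ∧
      (∀ x, Dzb (normalForm β φ) x = μ x * Dz (normalForm β φ) x) ∧
      (∀ x, Dz (normalForm β φ) x ≠ 0) ∧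
      ∫ z in cell, ‖Dz φ z‖ ^ 2 ≤ 2 * k ^ 2 ∧ ‖β - ∫ z in cell, μ z‖ ≤ 2 * k ^ 2 := by
  have hk0 : 0 ≤ k := (norm_nonneg _).trans (hμk 0)
  have hk1 : k < 1 := by linarith only [hk]
  have hμc := hμ.continuous
  obtain ⟨f, hf, hfp, hfe⟩ := log_solution hk1 hμ hμp hμk
  obtain ⟨E, hE⟩ : ∃ E : ℂ → ℂ, E = fun y => Complex.exp (f y) := ⟨_, rfl⟩
  have hEs : ContDiff ℝ ∞ E := by
    rw [hE]
    exact hf.cexp
  have hEp : Per 0 E := by
    intro z v hv
    rw [hE]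
    show Complex.exp (f (z + v)) = Complex.exp (f z)
    rw [hfp z v hv]
  have hE0 : ∀ z, E z ≠ 0 := by
    intro z
    rw [hE]
    exact Complex.exp_ne_zero _
  have hME : ContDiff ℝ ∞ (fun y => μ y * E y) := hμ.mul hEs
  have hMEp : Per 0 (fun y => μ y * E y) := by
    intro z v hv
    show μ (z + v) * E (z + v) = μ z * E z
    rw [hμp z v hv, hEp z v hv]
  have hEe : ∀ z, Dzb E z = Dz (fun y => μ y * E y) z := by
    intro z
    rw [Dz_mul ((hμ.differentiable (by simp)) z) ((hEs.differentiable (by simp)) z)]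
    have h1 := BeltramiG_exp hf z
    rw [← hE] at h1
    have h2 : Complex.exp (f z) = E z := by rw [hE]
    rw [h1.1, h1.2, h2, hfe]
    ring
  -- the mean of `E` is not zero
  obtain ⟨c, hc⟩ : ∃ c : ℂ, c = ∫ z in cell, E z := ⟨_, rfl⟩
  have hc0 : c ≠ 0 := by
    intro h0
    obtain ⟨m, hm⟩ : ∃ m : ℂ, m = ∫ z in cell, μ z * E z := ⟨_, rfl⟩
    obtain ⟨φ, hφ, hφp, -, hφ1, hφ2⟩ := exists_potential (p := E)
      (q := fun y => μ y * E y - m) hEs hEp (hME.sub contDiff_const)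
      (fun z v hv => by
        show μ (z + v) * E (z + v) - m = μ z * E z - m
        rw [hμp z v hv, hEp z v hv])
      (fun z => by rw [(BeltramiG_Dzb_sub_const hME m z).2, hEe])
      (by rw [← hc, h0])
      (by
        rw [integral_sub (BeltramiF_integrable hME.continuous)
          (BeltramiF_integrable continuous_const), BeltramiF_integral_const, ← hm, sub_self])
    have h1 := (beltrami_unique hk1 hμ hμp hμk hφ hφp (τ := m)
      (fun z => by rw [hφ2, hφ1])).2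
    have h2 : φ = fun _ => φ 0 := funext h1
    have h3 := hφ1 0
    rw [h2] at h3
    have h4 : Dz (fun _ : ℂ => φ 0) 0 = 0 := by simp [Dz, Dx_const, Dy_const]
    rw [h4] at h3
    exact hE0 0 h3.symm
  obtain ⟨β, hβ⟩ : ∃ β : ℂ, β = ∫ z in cell, μ z * E z / c := ⟨_, rfl⟩
  have hEc : ContDiff ℝ ∞ (fun y => E y / c) := hEs.div_const c
  have hMEc : ContDiff ℝ ∞ (fun y => μ y * E y / c) := hME.div_const c
  obtain ⟨φ, hφ, hφp, hφ0, hφ1, hφ2⟩ := exists_potential (p := fun y => E y / c - 1)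
    (q := fun y => μ y * E y / c - β) (hEc.sub contDiff_const)
    (fun z v hv => by
      show E (z + v) / c - 1 = E z / c - 1
      rw [hEp z v hv])
    (hMEc.sub contDiff_const)
    (fun z v hv => by
      show μ (z + v) * E (z + v) / c - β = μ z * E z / c - β
      rw [hμp z v hv, hEp z v hv])
    (fun z => by
      rw [(BeltramiG_Dzb_sub_const hMEc β z).2, (BeltramiG_Dzb_sub_const hEc 1 z).1,
        (BeltramiG_div_const hME c z).2, (BeltramiG_div_const hEs c z).1, hEe])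
    (by
      rw [integral_sub (BeltramiF_integrable hEc.continuous)
        (BeltramiF_integrable continuous_const), BeltramiF_integral_const, integral_div, ← hc,
        div_self hc0, sub_self])
    (by
      rw [integral_sub (BeltramiF_integrable hMEc.continuous)
        (BeltramiF_integrable continuous_const), BeltramiF_integral_const, ← hβ, sub_self])
  have hz : ∀ x, Dz (normalForm β φ) x = E x / c := by
    intro x
    rw [(BeltramiG_normalForm β hφ x).1, hφ1]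
    ring
  have hzb : ∀ x, Dzb (normalForm β φ) x = μ x * Dz (normalForm β φ) x := by
    intro x
    rw [hz, (BeltramiG_normalForm β hφ x).2, hφ2]
    ring
  have hl2 := BeltramiG_l2 hk hμk hφ hφp hzb
  have c1 := (BeltramiF_contDiff_Dz hφ).continuous
  refine ⟨β, φ, hφ, hφp, hφ0, hzb, fun x => ?_, ?_, ?_⟩
  · rw [hz]
    exact div_ne_zero (hE0 x) hc0
  · linarith only [hl2, sq_nonneg k]
  · have h1 : β - ∫ z in cell, μ z = ∫ z in cell, μ z * Dz φ z := by
      rw [hβ, ← integral_sub (BeltramiF_integrable hMEc.continuous) (BeltramiF_integrable hμc)]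
      refine integral_congr_ae (Eventually.of_forall (fun z => ?_))
      show μ z * E z / c - μ z = μ z * Dz φ z
      rw [hφ1]
      ring
    rw [h1]
    have h2 := BeltramiG_mean_sq (hμc.mul c1)
    have h3 : ∫ z in cell, ‖μ z * Dz φ z‖ ^ 2 ≤ ∫ z in cell, k ^ 2 * ‖Dz φ z‖ ^ 2 := by
      refine BeltramiG_mono ((hμc.mul c1).norm.pow 2)
        (continuous_const.mul (c1.norm.pow 2)) (fun z => ?_)
      rw [norm_mul, mul_pow]
      exact mul_le_mul_of_nonneg_right (pow_le_pow_left₀ (norm_nonneg _) (hμk z) 2)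
        (by positivity)
    rw [integral_const_mul] at h3
    have h4 : k ^ 2 * (∫ z in cell, ‖Dz φ z‖ ^ 2) ≤ k ^ 2 * (4 / 3 * k ^ 2) :=
      mul_le_mul_of_nonneg_left (by linarith only [hl2]) (sq_nonneg k)
    have h5 : 0 ≤ k ^ 2 * k ^ 2 := by positivity
    refine le_of_sq_le_sq ?_ (by positivity)
    refine h2.trans (h3.trans (h4.trans ?_))
    nlinarith only [h5]

/-- Uniqueness of the normalized solution (apply `beltrami_unique` to `φ - φ'`, with
`τ = β - β'`). -/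
theorem beltrami_exists_unique {μ : ℂ → ℂ} {k : ℝ} (hk : k ≤ 1 / 2) (hμ : ContDiff ℝ ∞ μ)
    (hμp : Per 0 μ) (hμk : ∀ z, ‖μ z‖ ≤ k) {β β' : ℂ} {φ φ' : ℂ → ℂ} (hφ : ContDiff ℝ ∞ φ)
    (hφp : Per 0 φ) (hφ0 : φ 0 = 0) (hφ' : ContDiff ℝ ∞ φ') (hφp' : Per 0 φ') (hφ0' : φ' 0 = 0)
    (h : ∀ x, Dzb (normalForm β φ) x = μ x * Dz (normalForm β φ) x)
    (h' : ∀ x, Dzb (normalForm β' φ') x = μ x * Dz (normalForm β' φ') x) :
    β = β' ∧ φ = φ' := by
  have hg : ContDiff ℝ ∞ (fun y => φ y - φ' y) := hφ.sub hφ'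
  have hgp : Per 0 (fun y => φ y - φ' y) := by
    intro z v hv
    show φ (z + v) - φ' (z + v) = φ z - φ' z
    rw [hφp z v hv, hφp' z v hv]
  have h1 := beltrami_unique (by linarith only [hk] : k < 1) hμ hμp hμk hg hgp (τ := β - β')
    (fun z => by
      rw [BeltramiF_Dzb_sub hφ hφ', BeltramiF_Dz_sub hφ hφ']
      have e1 := BeltramiG_eq hφ h z
      have e2 := BeltramiG_eq hφ' h' z
      linear_combination e1 - e2)
  refine ⟨sub_eq_zero.1 h1.1, ?_⟩
  funext z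
  have h2 : φ z - φ' z = φ 0 - φ' 0 := h1.2 z
  rw [hφ0, hφ0', sub_zero] at h2
  exact sub_eq_zero.1 h2

/-- `L²` continuity. Proof: `g = ∂(φ - φ')`; `∂̄(φ - φ') = μ (1 + ∂φ) - μ' (1 + ∂φ') - (β - β')`
has mean zero, so `‖∂(φ-φ')‖₂ = ‖∂̄(φ-φ')‖₂ ≤ ‖μ (1+∂φ) - μ' (1+∂φ')‖₂
≤ k ‖∂(φ-φ')‖₂ + sup |μ - μ'| ‖1 + ∂φ'‖₂`. -/
theorem beltrami_l2_cont {μ μ' : ℂ → ℂ} {k η : ℝ} (hk : k ≤ 1 / 2) (hμk : ∀ z, ‖μ z‖ ≤ k)
    (hμk' : ∀ z, ‖μ' z‖ ≤ k) (hμ : Continuous μ) (hμ' : Continuous μ')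
    (hη : ∀ z, ‖μ z - μ' z‖ ≤ η)
    {β β' : ℂ} {φ φ' : ℂ → ℂ} (hφ : ContDiff ℝ ∞ φ) (hφp : Per 0 φ) (hφ' : ContDiff ℝ ∞ φ')
    (hφp' : Per 0 φ')
    (h : ∀ x, Dzb (normalForm β φ) x = μ x * Dz (normalForm β φ) x)
    (h' : ∀ x, Dzb (normalForm β' φ') x = μ' x * Dz (normalForm β' φ') x) :
    ∫ z in cell, ‖Dz φ z - Dz φ' z‖ ^ 2 ≤ 16 * η ^ 2 ∧
    ∫ z in cell, ‖Dzb φ z - Dzb φ' z‖ ^ 2 ≤ 16 * η ^ 2 ∧ ‖β - β'‖ ≤ 16 * η := by
  have hk0 : 0 ≤ k := (norm_nonneg _).trans (hμk 0)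
  have hη0 : 0 ≤ η := (norm_nonneg _).trans (hη 0)
  have hg : ContDiff ℝ ∞ (fun y => φ y - φ' y) := hφ.sub hφ'
  have hgp : Per 0 (fun y => φ y - φ' y) := by
    intro z v hv
    show φ (z + v) - φ' (z + v) = φ z - φ' z
    rw [hφp z v hv, hφp' z v hv]
  have c1 := (BeltramiF_contDiff_Dz hφ).continuous
  have c1' := (BeltramiF_contDiff_Dz hφ').continuous
  have c2 := (BeltramiF_contDiff_Dzb hφ).continuous
  have c2' := (BeltramiF_contDiff_Dzb hφ').continuous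
  have hh : Continuous (fun z => (μ z - μ' z) * (1 + Dz φ' z)) :=
    (hμ.sub hμ').mul (continuous_const.add c1')
  have he : ∀ z, Dzb (fun y => φ y - φ' y) z = μ z * Dz (fun y => φ y - φ' y) z +
      (μ z - μ' z) * (1 + Dz φ' z) - (β - β') := by
    intro z
    rw [BeltramiF_Dzb_sub hφ hφ', BeltramiF_Dz_sub hφ hφ']
    have e1 := BeltramiG_eq hφ h z
    have e2 := BeltramiG_eq hφ' h' z
    linear_combination e1 - e2
  have h1 := l2_est hk0 (by linarith only [hk]) hμ hμk hg hgp hh he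
  have h2 := l2_identity hg hgp
  have h3 := BeltramiG_l2 hk hμk' hφ' hφp' h'
  -- the right side
  have h4 : ∫ z in cell, ‖(μ z - μ' z) * (1 + Dz φ' z)‖ ^ 2 ≤ 4 / 3 * η ^ 2 := by
    have h5 : ∫ z in cell, ‖(μ z - μ' z) * (1 + Dz φ' z)‖ ^ 2 ≤
        ∫ z in cell, η ^ 2 * ‖Dz φ' z + 1‖ ^ 2 := by
      refine BeltramiG_mono (hh.norm.pow 2)
        (continuous_const.mul ((c1'.add continuous_const).norm.pow 2)) (fun z => ?_)
      rw [norm_mul, mul_pow, add_comm (Dz φ' z) 1]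
      exact mul_le_mul_of_nonneg_right (pow_le_pow_left₀ (norm_nonneg _) (hη z) 2)
        (by positivity)
    rw [integral_const_mul, BeltramiG_pyth c1' (BeltramiG_mean_Dz hφ' hφp').1 1, norm_one,
      one_pow] at h5
    have h6 : k ^ 2 ≤ 1 / 4 := by nlinarith only [hk, hk0]
    have h7 : η ^ 2 * ((∫ z in cell, ‖Dz φ' z‖ ^ 2) + 1) ≤ η ^ 2 * (4 / 3) :=
      mul_le_mul_of_nonneg_left (by linarith only [h3, h6]) (sq_nonneg η)
    linarith only [h5, h7]
  have hA0 : 0 ≤ ∫ z in cell, ‖Dz (fun y => φ y - φ' y) z‖ ^ 2 :=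
    integral_nonneg (fun z => by positivity)
  have hA : ∫ z in cell, ‖Dz (fun y => φ y - φ' y) z‖ ^ 2 ≤ 16 / 3 * η ^ 2 := by
    have h5 : 1 / 4 ≤ (1 - k) ^ 2 := by nlinarith only [hk, hk0]
    have h6 := mul_le_mul_of_nonneg_right h5 hA0
    linarith only [h1, h4, h6]
  -- the constants
  have hB : ‖β - β'‖ ^ 2 ≤ 16 / 3 * η ^ 2 := by
    have hgm := (BeltramiG_mean_Dz hg hgp).2
    have cg := (BeltramiF_contDiff_Dz hg).continuous
    have cgb := (BeltramiF_contDiff_Dzb hg).continuous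
    have h5 := BeltramiG_pyth cgb hgm (β - β')
    have hB0 : 0 ≤ ∫ z in cell, ‖Dzb (fun y => φ y - φ' y) z‖ ^ 2 :=
      integral_nonneg (fun z => by positivity)
    have h6 : ∫ z in cell, ‖Dzb (fun y => φ y - φ' y) z + (β - β')‖ ^ 2 ≤
        ∫ z in cell, (2 * k ^ 2 * ‖Dz (fun y => φ y - φ' y) z‖ ^ 2 +
          2 * ‖(μ z - μ' z) * (1 + Dz φ' z)‖ ^ 2) := by
      refine BeltramiG_mono ((cgb.add continuous_const).norm.pow 2)
        ((continuous_const.mul (cg.norm.pow 2)).add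
          (continuous_const.mul (hh.norm.pow 2))) (fun z => ?_)
      rw [he z, sub_add_cancel]
      have e1 := norm_add_le (μ z * Dz (fun y => φ y - φ' y) z) ((μ z - μ' z) * (1 + Dz φ' z))
      have e2 : ‖μ z * Dz (fun y => φ y - φ' y) z‖ ≤ k * ‖Dz (fun y => φ y - φ' y) z‖ := by
        rw [norm_mul]
        exact mul_le_mul_of_nonneg_right (hμk z) (norm_nonneg _)
      have e3 := pow_le_pow_left₀ (norm_nonneg _) (e1.trans (add_le_add e2 le_rfl)) 2
      refine e3.trans ?_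
      nlinarith only [sq_nonneg (k * ‖Dz (fun y => φ y - φ' y) z‖ -
        ‖(μ z - μ' z) * (1 + Dz φ' z)‖)]
    have i1 : IntegrableOn (fun z => 2 * k ^ 2 * ‖Dz (fun y => φ y - φ' y) z‖ ^ 2) cell :=
      BeltramiF_integrable (continuous_const.mul (cg.norm.pow 2))
    have i2 : IntegrableOn (fun z => 2 * ‖(μ z - μ' z) * (1 + Dz φ' z)‖ ^ 2) cell :=
      BeltramiF_integrable (continuous_const.mul (hh.norm.pow 2))
    rw [integral_add i1 i2, integral_const_mul, integral_const_mul, h5] at h6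
    have h7 : 2 * k ^ 2 ≤ 1 / 2 := by nlinarith only [hk, hk0]
    have h8 := mul_le_mul_of_nonneg_right h7 hA0
    linarith only [h6, h8, hA, hB0, h4]
  have eA : ∫ z in cell, ‖Dz φ z - Dz φ' z‖ ^ 2 =
      ∫ z in cell, ‖Dz (fun y => φ y - φ' y) z‖ ^ 2 := by
    refine integral_congr_ae (Eventually.of_forall (fun z => ?_))
    show ‖Dz φ z - Dz φ' z‖ ^ 2 = ‖Dz (fun y => φ y - φ' y) z‖ ^ 2
    rw [BeltramiF_Dz_sub hφ hφ']
  have eB : ∫ z in cell, ‖Dzb φ z - Dzb φ' z‖ ^ 2 =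
      ∫ z in cell, ‖Dzb (fun y => φ y - φ' y) z‖ ^ 2 := by
    refine integral_congr_ae (Eventually.of_forall (fun z => ?_))
    show ‖Dzb φ z - Dzb φ' z‖ ^ 2 = ‖Dzb (fun y => φ y - φ' y) z‖ ^ 2
    rw [BeltramiF_Dzb_sub hφ hφ']
  have hη2 := sq_nonneg η
  refine ⟨?_, ?_, ?_⟩
  · rw [eA]
    linarith only [hA, hη2]
  · rw [eB, ← h2]
    linarith only [hA, hη2]
  · refine le_of_sq_le_sq ?_ (by positivity)
    refine hB.trans ?_
    nlinarith only [hη2]

end Pool.Agent.KK
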