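import Mathlib

/-!
# Brouwer's fixed point theorem for the cube (part A)
-/

set_option autoImplicit false

open Filter Topology Set

namespace Pool.Agent.KK

/-- the vertices of a simplex of Kuhn's triangulation -/
def BrouwerA_vtx {n : ℕ} (v : Fin n → ℕ) (σ : Equiv.Perm (Fin n)) (m : ℕ) : Fin n → ℕ :=
  fun j => v j + if (σ j : ℕ) < m then 1 else 0

/-- all labels `0, ..., n` occur -/
def BrouwerA_isFull (n : ℕ) (a : ℕ → ℕ) : Prop := ∀ i ≤ n, ∃ m ≤ n, a m = i

/-- all labels `1, ..., n + 1` occur outside `k` -/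
def BrouwerA_isDoor (n : ℕ) (a : ℕ → ℕ) (k : ℕ) : Prop :=
  ∀ i, 1 ≤ i → i ≤ n + 1 → ∃ m ≤ n + 1, m ≠ k ∧ a m = i

open scoped Classical in
lemma BrouwerA_parity (n : ℕ) (a : ℕ → ℕ) (ha : ∀ m ≤ n + 1, a m ≤ n + 1) :
    ((((Finset.range (n + 2)).filter (BrouwerA_isDoor n a)).card : ℕ) : ZMod 2)
      = if BrouwerA_isFull (n + 1) a then 1 else 0 := by
  set D := (Finset.range (n + 2)).filter (BrouwerA_isDoor n a) with hD
  by_cases hne : D.Nonempty
  · obtain ⟨k, hk⟩ := hne
    have hk' := hk
    rw [hD, Finset.mem_filter, Finset.mem_range] at hk'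
    obtain ⟨hk1, hk2⟩ := hk'
    -- `a` is a bijection of the others onto `1, ..., n + 1`
    have himg : Finset.Icc 1 (n + 1) ⊆ ((Finset.range (n + 2)).erase k).image a := by
      intro i hi
      rw [Finset.mem_Icc] at hi
      obtain ⟨m, hm, hmk, hmi⟩ := hk2 i hi.1 hi.2
      rw [Finset.mem_image]
      exact ⟨m, by rw [Finset.mem_erase, Finset.mem_range]; omega, hmi⟩
    have hcard : ((Finset.range (n + 2)).erase k).card = n + 1 := by
      rw [Finset.card_erase_of_mem (by rw [Finset.mem_range]; exact hk1), Finset.card_range]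
      omega
    have hle : (((Finset.range (n + 2)).erase k).image a).card ≤ n + 1 := by
      rw [← hcard]; exact Finset.card_image_le
    have heq : Finset.Icc 1 (n + 1) = ((Finset.range (n + 2)).erase k).image a :=
      Finset.eq_of_subset_of_card_le himg (by rw [Nat.card_Icc]; omega)
    have hinj : Set.InjOn a ((Finset.range (n + 2)).erase k) := by
      rw [← Finset.card_image_iff, ← heq, Nat.card_Icc, hcard]
      omega
    have hval : ∀ m ≤ n + 1, m ≠ k → 1 ≤ a m := by
      intro m hm hmk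
      have : a m ∈ ((Finset.range (n + 2)).erase k).image a :=
        Finset.mem_image_of_mem _ (by rw [Finset.mem_erase, Finset.mem_range]; omega)
      rw [← heq, Finset.mem_Icc] at this
      exact this.1
    have hmem : ∀ m, m < n + 2 → m ≠ k → m ∈ ((((Finset.range (n + 2)).erase k) : Finset ℕ) : Set ℕ) := by
      intro m hm hmk
      rw [Finset.coe_erase]
      exact ⟨by rw [Finset.mem_coe, Finset.mem_range]; omega, hmk⟩
    by_cases hak : a k = 0
    · have h1 : D = {k} := by
        ext l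
        rw [Finset.mem_singleton]
        constructor
        · intro hl
          by_contra hlk
          rw [hD, Finset.mem_filter, Finset.mem_range] at hl
          obtain ⟨m, hm, hml, hma⟩ := hl.2 (a l) (hval l (by omega) hlk) (ha l (by omega))
          have hmk : m ≠ k := by
            rintro rfl
            have := hval l (by omega) hlk
            omega
          exact hml (hinj (hmem m (by omega) hmk) (hmem l (by omega) hlk) hma)
        · rintro rfl
          exact hk
      rw [h1, Finset.card_singleton, if_pos]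
      · simp
      · intro i hi
        rcases Nat.eq_zero_or_pos i with rfl | hi0
        · exact ⟨k, by omega, hak⟩
        · obtain ⟨m, hm, -, hmi⟩ := hk2 i hi0 hi
          exact ⟨m, hm, hmi⟩
    · obtain ⟨k', hk'1, hk'k, hk'a⟩ := hk2 (a k) (by omega) (ha k (by omega))
      have h1 : D = {k, k'} := by
        ext l
        rw [Finset.mem_insert, Finset.mem_singleton]
        constructor
        · intro hl
          by_contra hlk
          rw [not_or] at hlk
          rw [hD, Finset.mem_filter, Finset.mem_range] at hl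
          obtain ⟨m, hm, hml, hma⟩ := hl.2 (a l) (hval l (by omega) hlk.1) (ha l (by omega))
          by_cases hmk : m = k
          · subst hmk
            apply hlk.2
            symm
            exact hinj (hmem k' (by omega) hk'k) (hmem l (by omega) hlk.1) (hk'a.trans hma)
          · exact hml (hinj (hmem m (by omega) hmk) (hmem l (by omega) hlk.1) hma)
        · rintro (rfl | rfl)
          · exact hk
          · rw [hD, Finset.mem_filter, Finset.mem_range]
            refine ⟨by omega, fun i hi1 hi2 => ?_⟩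
            obtain ⟨m, hm, hmk, hmi⟩ := hk2 i hi1 hi2
            by_cases hml : m = l
            · exact ⟨k, by omega, fun h => hk'k h.symm, by rw [← hmi, hml, hk'a]⟩
            · exact ⟨m, hm, hml, hmi⟩
      rw [h1, Finset.card_pair (fun h => hk'k h.symm), if_neg]
      · rfl
      · intro h
        obtain ⟨m, hm, hm0⟩ := h 0 (by omega)
        by_cases hmk : m = k
        · exact hak (by rw [← hmk]; exact hm0)
        · have := hval m hm hmk
          omega
  · rw [Finset.not_nonempty_iff_eq_empty] at hne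
    rw [hne, Finset.card_empty, if_neg]
    · simp
    · intro h
      obtain ⟨k, hk, hk0⟩ := h 0 (by omega)
      have : k ∈ D := by
        rw [hD, Finset.mem_filter, Finset.mem_range]
        refine ⟨by omega, fun i hi1 hi2 => ?_⟩
        obtain ⟨m, hm, hmi⟩ := h i hi2
        exact ⟨m, hm, by rintro rfl; omega, hmi⟩
      rw [hne] at this
      exact absurd this (Finset.notMem_empty k)

/-- the label sequence of a simplex -/
def BrouwerA_lab {n : ℕ} (L : (Fin n → ℕ) → ℕ) (p : (Fin n → ℕ) × Equiv.Perm (Fin n)) (m : ℕ) :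
    ℕ := L (BrouwerA_vtx p.1 p.2 m)

/-- the simplices of the grid -/
def BrouwerA_base (n N : ℕ) : Finset ((Fin n → ℕ) × Equiv.Perm (Fin n)) :=
  (Fintype.piFinset fun _ => Finset.range N) ×ˢ Finset.univ

lemma BrouwerA_mem_base {n N : ℕ} {p : (Fin n → ℕ) × Equiv.Perm (Fin n)} :
    p ∈ BrouwerA_base n N ↔ ∀ j, p.1 j < N := by
  rw [BrouwerA_base, Finset.mem_product]
  simp

open scoped Classical in
/-- the simplices with all labels -/
noncomputable def BrouwerA_full (n N : ℕ) (L : (Fin n → ℕ) → ℕ) :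
    Finset ((Fin n → ℕ) × Equiv.Perm (Fin n)) :=
  (BrouwerA_base n N).filter fun p => BrouwerA_isFull n (BrouwerA_lab L p)

open scoped Classical in
/-- the pairs of a simplex and a facet with all labels except `0` -/
noncomputable def BrouwerA_doors (n N : ℕ) (L : (Fin (n + 1) → ℕ) → ℕ) :
    Finset (((Fin (n + 1) → ℕ) × Equiv.Perm (Fin (n + 1))) × ℕ) :=
  (BrouwerA_base (n + 1) N ×ˢ Finset.range (n + 2)).filter
    fun q => BrouwerA_isDoor n (BrouwerA_lab L q.1) q.2

lemma BrouwerA_vtx_le {n N : ℕ} {p : (Fin n → ℕ) × Equiv.Perm (Fin n)}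
    (hp : p ∈ BrouwerA_base n N) (m : ℕ) (j : Fin n) : BrouwerA_vtx p.1 p.2 m j ≤ N := by
  have := BrouwerA_mem_base.1 hp j
  unfold BrouwerA_vtx
  split_ifs <;> omega

lemma BrouwerA_card_doors (n N : ℕ) (L : (Fin (n + 1) → ℕ) → ℕ)
    (hr : ∀ x : Fin (n + 1) → ℕ, (∀ j, x j ≤ N) → L x ≤ n + 1) :
    ((BrouwerA_doors n N L).card : ZMod 2) = ((BrouwerA_full (n + 1) N L).card : ZMod 2) := by
  classical
  rw [BrouwerA_doors, BrouwerA_full, Finset.card_filter, Finset.sum_product, Finset.card_filter]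
  push_cast
  apply Finset.sum_congr rfl
  intro p hp
  have h := BrouwerA_parity n (BrouwerA_lab L p) (fun m _ => hr _ (BrouwerA_vtx_le hp m))
  rw [Finset.card_filter] at h
  push_cast at h
  convert h using 2

/-- the neighbour of a simplex through the facet opposite to the vertex `k` -/
noncomputable def BrouwerA_step {n : ℕ}
    (q : ((Fin (n + 1) → ℕ) × Equiv.Perm (Fin (n + 1))) × ℕ) :
    ((Fin (n + 1) → ℕ) × Equiv.Perm (Fin (n + 1))) × ℕ :=
  if q.2 = 0 then
    ((Function.update q.1.1 (q.1.2.symm 0) (q.1.1 (q.1.2.symm 0) + 1),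
      q.1.2.trans (finRotate (n + 1)).symm), n + 1)
  else if q.2 = n + 1 then
    ((Function.update q.1.1 (q.1.2.symm (Fin.last n)) (q.1.1 (q.1.2.symm (Fin.last n)) - 1),
      q.1.2.trans (finRotate (n + 1))), 0)
  else ((q.1.1, q.1.2.trans (Equiv.swap (Fin.ofNat (n + 1) (q.2 - 1)) (Fin.ofNat (n + 1) q.2))), q.2)

lemma BrouwerA_rot_symm_val {n : ℕ} (t : Fin (n + 1)) :
    (((finRotate (n + 1)).symm t : Fin (n + 1)) : ℕ) = if (t : ℕ) = 0 then n else (t : ℕ) - 1 := by
  obtain ⟨s, rfl⟩ := (finRotate (n + 1)).surjective t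
  rw [Equiv.symm_apply_apply]
  have := coe_finRotate s
  rcases eq_or_ne s (Fin.last n) with h | h
  · subst h
    simp
  · rw [coe_finRotate_of_ne_last h]
    simp

lemma BrouwerA_vtx_zero {n : ℕ} (v : Fin (n + 1) → ℕ) (σ : Equiv.Perm (Fin (n + 1))) (m : ℕ)
    (hm : m ≤ n) :
    BrouwerA_vtx (Function.update v (σ.symm 0) (v (σ.symm 0) + 1))
      (σ.trans (finRotate (n + 1)).symm) m = BrouwerA_vtx v σ (m + 1) := by
  funext j
  unfold BrouwerA_vtx
  rw [Equiv.trans_apply, BrouwerA_rot_symm_val]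
  rcases eq_or_ne j (σ.symm 0) with h | h
  · subst h
    have h0 : ((0 : Fin (n + 1)) : ℕ) = 0 := rfl
    rw [Function.update_self, Equiv.apply_symm_apply, if_pos h0, if_neg (by omega),
      if_pos (by rw [h0]; omega)]
  · rw [Function.update_of_ne h]
    have h0 : ((σ j : Fin (n + 1)) : ℕ) ≠ 0 := by
      intro h1
      apply h
      rw [Equiv.eq_symm_apply]
      exact Fin.ext h1
    rw [if_neg h0]
    congr 1
    by_cases hlt : ((σ j : Fin (n + 1)) : ℕ) < m + 1
    · rw [if_pos hlt, if_pos (by omega)]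
    · rw [if_neg hlt, if_neg (by omega)]

/-- The rotation of `Fin (n + 1)` on values. -/
lemma BrouwerA_rot_val {n : ℕ} (t : Fin (n + 1)) :
    (((finRotate (n + 1)) t : Fin (n + 1)) : ℕ) = if (t : ℕ) = n then 0 else (t : ℕ) + 1 := by
  rcases eq_or_ne t (Fin.last n) with h | h
  · subst h
    simp
  · rw [coe_finRotate_of_ne_last h, if_neg]
    intro h1
    exact h (Fin.ext h1)

lemma BrouwerA_vtx_last {n : ℕ} (v : Fin (n + 1) → ℕ) (σ : Equiv.Perm (Fin (n + 1))) (m : ℕ)
    (hm : m ≤ n) (hv : 1 ≤ v (σ.symm (Fin.last n))) :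
    BrouwerA_vtx (Function.update v (σ.symm (Fin.last n)) (v (σ.symm (Fin.last n)) - 1))
      (σ.trans (finRotate (n + 1))) (m + 1) = BrouwerA_vtx v σ m := by
  funext j
  unfold BrouwerA_vtx
  rw [Equiv.trans_apply, BrouwerA_rot_val]
  rcases eq_or_ne j (σ.symm (Fin.last n)) with h | h
  · subst h
    have h0 : ((Fin.last n : Fin (n + 1)) : ℕ) = n := rfl
    rw [Function.update_self, Equiv.apply_symm_apply, if_pos h0, if_pos (by omega),
      if_neg (by rw [h0]; omega)]
    omega
  · rw [Function.update_of_ne h]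
    have h0 : ((σ j : Fin (n + 1)) : ℕ) ≠ n := by
      intro h1
      apply h
      rw [Equiv.eq_symm_apply]
      exact Fin.ext h1
    rw [if_neg h0]
    congr 1
    by_cases hlt : ((σ j : Fin (n + 1)) : ℕ) < m
    · rw [if_pos hlt, if_pos (by omega)]
    · rw [if_neg hlt, if_neg (by omega)]

/-- swapping the times `k - 1` and `k` changes only the vertex `k` -/
lemma BrouwerA_vtx_mid {n : ℕ} (v : Fin (n + 1) → ℕ) (σ : Equiv.Perm (Fin (n + 1))) (k m : ℕ)
    (hk0 : 0 < k) (hk : k < n + 1) (hm : m ≠ k) :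
    BrouwerA_vtx v (σ.trans (Equiv.swap (Fin.ofNat (n + 1) (k - 1)) (Fin.ofNat (n + 1) k))) m
      = BrouwerA_vtx v σ m := by
  funext j
  unfold BrouwerA_vtx
  rw [Equiv.trans_apply]
  congr 1
  have h1 : ((Fin.ofNat (n + 1) (k - 1) : Fin (n + 1)) : ℕ) = k - 1 := by
    rw [Fin.val_ofNat]; exact Nat.mod_eq_of_lt (by omega)
  have h2 : ((Fin.ofNat (n + 1) k : Fin (n + 1)) : ℕ) = k := by
    rw [Fin.val_ofNat]; exact Nat.mod_eq_of_lt (by omega)
  rcases eq_or_ne (σ j) (Fin.ofNat (n + 1) (k - 1)) with h | h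
  · rw [h, Equiv.swap_apply_left, h1, h2]
    by_cases hlt : k < m
    · rw [if_pos hlt, if_pos (by omega)]
    · rw [if_neg hlt, if_neg (by omega)]
  · rcases eq_or_ne (σ j) (Fin.ofNat (n + 1) k) with h' | h'
    · rw [h', Equiv.swap_apply_right, h1, h2]
      by_cases hlt : k < m
      · rw [if_pos hlt, if_pos (by omega)]
      · rw [if_neg hlt, if_neg (by omega)]
    · rw [Equiv.swap_apply_of_ne_of_ne h h']

/-- the interior doors -/
def BrouwerA_isInt {n : ℕ} (N : ℕ)
    (q : ((Fin (n + 1) → ℕ) × Equiv.Perm (Fin (n + 1))) × ℕ) : Prop :=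
  (q.2 = 0 → q.1.1 (q.1.2.symm 0) + 1 < N) ∧
  (q.2 = n + 1 → 1 ≤ q.1.1 (q.1.2.symm (Fin.last n)))

lemma BrouwerA_mem_doors {n N : ℕ} {L : (Fin (n + 1) → ℕ) → ℕ}
    {q : ((Fin (n + 1) → ℕ) × Equiv.Perm (Fin (n + 1))) × ℕ} :
    q ∈ BrouwerA_doors n N L ↔
      (∀ j, q.1.1 j < N) ∧ q.2 < n + 2 ∧ BrouwerA_isDoor n (BrouwerA_lab L q.1) q.2 := by
  classical
  rw [BrouwerA_doors, Finset.mem_filter, Finset.mem_product, BrouwerA_mem_base,
    Finset.mem_range, and_assoc]

/-- `BrouwerA_step` maps interior doors to interior doors -/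
lemma BrouwerA_step_mem {n N : ℕ} {L : (Fin (n + 1) → ℕ) → ℕ}
    {q : ((Fin (n + 1) → ℕ) × Equiv.Perm (Fin (n + 1))) × ℕ}
    (hq : q ∈ BrouwerA_doors n N L) (hi : BrouwerA_isInt N q) :
    BrouwerA_step q ∈ BrouwerA_doors n N L ∧ BrouwerA_isInt N (BrouwerA_step q) := by
  obtain ⟨⟨v, σ⟩, k⟩ := q
  rw [BrouwerA_mem_doors] at hq
  obtain ⟨hv, hk, hd⟩ := hq
  obtain ⟨hi0, hi1⟩ := hi
  simp only at hv hk hd hi0 hi1
  unfold BrouwerA_step
  simp only
  by_cases hk0 : k = 0
  · subst hk0
    rw [if_pos rfl]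
    refine ⟨?_, ?_⟩
    · rw [BrouwerA_mem_doors]
      refine ⟨?_, ?_, ?_⟩
      · intro j
        simp only
        rcases eq_or_ne j (σ.symm 0) with h | h
        · subst h
          rw [Function.update_self]
          exact hi0 rfl
        · rw [Function.update_of_ne h]
          exact hv j
      · simp only; omega
      · intro i h1 h2
        obtain ⟨m, hm, hm0, hmi⟩ := hd i h1 h2
        refine ⟨m - 1, by omega, by simp only; omega, ?_⟩
        rw [← hmi]
        unfold BrouwerA_lab
        simp only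
        rw [BrouwerA_vtx_zero v σ (m - 1) (by omega)]
        congr 2
        omega
    · refine ⟨fun h => absurd h (by simp only; omega), fun _ => ?_⟩
      simp only
      rw [Equiv.symm_trans_apply, Equiv.symm_symm, finRotate_last, Function.update_self]
      omega
  · rw [if_neg hk0]
    by_cases hk1 : k = n + 1
    · subst hk1
      rw [if_pos rfl]
      have hv1 := hi1 rfl
      refine ⟨?_, ?_⟩
      · rw [BrouwerA_mem_doors]
        refine ⟨?_, ?_, ?_⟩
        · intro j
          simp only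
          rcases eq_or_ne j (σ.symm (Fin.last n)) with h | h
          · subst h
            rw [Function.update_self]
            have := hv (σ.symm (Fin.last n))
            omega
          · rw [Function.update_of_ne h]
            exact hv j
        · simp only; omega
        · intro i h1 h2
          obtain ⟨m, hm, hm0, hmi⟩ := hd i h1 h2
          refine ⟨m + 1, by omega, by simp only; omega, ?_⟩
          rw [← hmi]
          unfold BrouwerA_lab
          simp only
          rw [BrouwerA_vtx_last v σ m (by omega) hv1]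
      · refine ⟨fun _ => ?_, fun h => absurd h (by simp only; omega)⟩
        simp only
        have h3 : (finRotate (n + 1)).symm 0 = Fin.last n := by
          rw [Equiv.symm_apply_eq, finRotate_last]
        rw [Equiv.symm_trans_apply, h3, Function.update_self]
        have := hv (σ.symm (Fin.last n))
        omega
    · rw [if_neg hk1]
      refine ⟨?_, ?_⟩
      · rw [BrouwerA_mem_doors]
        refine ⟨hv, hk, ?_⟩
        intro i h1 h2
        obtain ⟨m, hm, hm0, hmi⟩ := hd i h1 h2
        refine ⟨m, hm, hm0, ?_⟩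
        rw [← hmi]
        unfold BrouwerA_lab
        simp only
        rw [BrouwerA_vtx_mid v σ k m (by omega) (by omega) hm0]
      · exact ⟨fun h => absurd h hk0, fun h => absurd h hk1⟩

lemma BrouwerA_step_ne {n : ℕ}
    (q : ((Fin (n + 1) → ℕ) × Equiv.Perm (Fin (n + 1))) × ℕ) (hk : q.2 < n + 2) :
    BrouwerA_step q ≠ q := by
  obtain ⟨⟨v, σ⟩, k⟩ := q
  simp only at hk
  unfold BrouwerA_step
  simp only
  by_cases hk0 : k = 0
  · subst hk0
    rw [if_pos rfl]
    intro h
    have := congrArg Prod.snd h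
    simp at this
  · rw [if_neg hk0]
    by_cases hk1 : k = n + 1
    · subst hk1
      rw [if_pos rfl]
      intro h
      have := congrArg Prod.snd h
      simp at this
    · rw [if_neg hk1]
      intro h
      have h1 := congrArg (fun q => (q.1.2 : Equiv.Perm (Fin (n + 1)))
        (σ.symm (Fin.ofNat (n + 1) k))) h
      simp only [Equiv.trans_apply, Equiv.apply_symm_apply, Equiv.swap_apply_right] at h1
      have h2 := congrArg Fin.val h1
      rw [Fin.val_ofNat, Fin.val_ofNat, Nat.mod_eq_of_lt (by omega),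
        Nat.mod_eq_of_lt (by omega)] at h2
      omega

lemma BrouwerA_step_invol {n N : ℕ}
    (q : ((Fin (n + 1) → ℕ) × Equiv.Perm (Fin (n + 1))) × ℕ) (hk : q.2 < n + 2)
    (hi : BrouwerA_isInt N q) :
    BrouwerA_step (BrouwerA_step q) = q := by
  obtain ⟨⟨v, σ⟩, k⟩ := q
  obtain ⟨hi0, hi1⟩ := hi
  simp only at hk hi0 hi1
  by_cases hk0 : k = 0
  · subst hk0
    unfold BrouwerA_step
    simp only [if_true]
    rw [if_neg (by omega)]
    simp only [Equiv.symm_trans_apply, Equiv.symm_symm, finRotate_last, Function.update_self,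
      Function.update_idem, Equiv.trans_assoc]
    simp
  · by_cases hk1 : k = n + 1
    · subst hk1
      have h3 : (finRotate (n + 1)).symm 0 = Fin.last n := by
        rw [Equiv.symm_apply_eq, finRotate_last]
      unfold BrouwerA_step
      simp only
      rw [if_neg hk0]
      simp only [if_true, Equiv.symm_trans_apply, h3, Function.update_self,
        Function.update_idem, Equiv.trans_assoc]
      rw [Nat.sub_add_cancel (hi1 rfl)]
      simp
    · unfold BrouwerA_step
      simp only
      rw [if_neg hk0, if_neg hk1]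
      simp only
      rw [if_neg hk0, if_neg hk1]
      simp only [Equiv.trans_assoc]
      congr 2
      ext j
      simp

open scoped Classical in
lemma BrouwerA_int_doors (n N : ℕ) (L : (Fin (n + 1) → ℕ) → ℕ) :
    ((((BrouwerA_doors n N L).filter (BrouwerA_isInt N)).card : ℕ) : ZMod 2) = 0 := by
  rw [Finset.card_eq_sum_ones]
  push_cast
  apply Finset.sum_involution (fun q _ => BrouwerA_step q)
  · intro q _
    decide
  · intro q hq _
    rw [Finset.mem_filter, BrouwerA_mem_doors] at hq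
    exact BrouwerA_step_ne q hq.1.2.1
  · intro q hq
    rw [Finset.mem_filter] at hq ⊢
    exact BrouwerA_step_mem hq.1 hq.2
  · intro q hq
    rw [Finset.mem_filter, BrouwerA_mem_doors] at hq
    exact BrouwerA_step_invol q hq.1.2.1 hq.2

/-- the induced labelling of the face `x 0 = N` -/
def BrouwerA_face {n : ℕ} (N : ℕ) (L : (Fin (n + 1) → ℕ) → ℕ) (x : Fin n → ℕ) : ℕ :=
  L (Fin.cons N x : Fin (n + 1) → ℕ) - 1

lemma BrouwerA_vtx_cons {n N : ℕ} (hN : 0 < N) (v : Fin n → ℕ) (σ : Equiv.Perm (Fin n)) (m : ℕ) :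
    BrouwerA_vtx (Fin.cons (N - 1) v : Fin (n + 1) → ℕ) (Equiv.Perm.decomposeFin.symm (0, σ))
      (m + 1) = (Fin.cons N (BrouwerA_vtx v σ m) : Fin (n + 1) → ℕ) := by
  funext j
  refine Fin.cases ?_ (fun j => ?_) j
  · unfold BrouwerA_vtx
    rw [Fin.cons_zero, Fin.cons_zero, Equiv.Perm.decomposeFin_symm_apply_zero, if_pos]
    · omega
    · simp
  · rw [Fin.cons_succ]
    unfold BrouwerA_vtx
    rw [Fin.cons_succ, Equiv.Perm.decomposeFin_symm_apply_succ, Equiv.swap_self, Equiv.refl_apply,
      Fin.val_succ]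
    congr 1
    by_cases h : ((σ j : Fin n) : ℕ) < m
    · rw [if_pos (by omega), if_pos h]
    · rw [if_neg (by omega), if_neg h]

open scoped Classical in
lemma BrouwerA_bdry_doors (n N : ℕ) (hN : 0 < N) (L : (Fin (n + 1) → ℕ) → ℕ)
    (h0 : ∀ x : Fin (n + 1) → ℕ, (∀ j, x j ≤ N) → ∀ i : Fin (n + 1), x i = 0 → L x ≠ (i : ℕ) + 1)
    (h1 : ∀ x : Fin (n + 1) → ℕ, (∀ j, x j ≤ N) → ∀ i : Fin (n + 1), x i = N →
      (i : ℕ) + 1 ≤ L x) :
    ((BrouwerA_doors n N L).filter (fun q => ¬ BrouwerA_isInt N q)).card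
      = (BrouwerA_full n N (BrouwerA_face N L)).card := by
  symm
  apply Finset.card_bij (fun p _ => (((Fin.cons (N - 1) p.1 : Fin (n + 1) → ℕ),
    Equiv.Perm.decomposeFin.symm (0, p.2)), 0))
  · -- membership
    intro p hp
    rw [BrouwerA_full, Finset.mem_filter] at hp
    obtain ⟨hpb, hpf⟩ := hp
    have hpb' := BrouwerA_mem_base.1 hpb
    rw [Finset.mem_filter, BrouwerA_mem_doors]
    refine ⟨⟨?_, ?_, ?_⟩, ?_⟩
    · intro j
      refine Fin.cases ?_ (fun j => ?_) j
      · simp only [Fin.cons_zero]; omega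
      · simp only [Fin.cons_succ]; exact hpb' j
    · simp only; omega
    · intro i hi1 hi2
      obtain ⟨m, hm, hmi⟩ := hpf (i - 1) (by omega)
      refine ⟨m + 1, by omega, by simp only; omega, ?_⟩
      unfold BrouwerA_lab at hmi ⊢
      simp only
      rw [BrouwerA_vtx_cons hN]
      unfold BrouwerA_face at hmi
      have hc : 1 ≤ L (Fin.cons N (BrouwerA_vtx p.1 p.2 m) : Fin (n + 1) → ℕ) := by
        have := h1 (Fin.cons N (BrouwerA_vtx p.1 p.2 m)) (by
          intro j
          refine Fin.cases ?_ (fun j => ?_) j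
          · rw [Fin.cons_zero]
          · rw [Fin.cons_succ]; exact BrouwerA_vtx_le hpb m j) 0 (by rw [Fin.cons_zero])
        omega
      omega
    · intro h
      have h2 := h.1 rfl
      simp only at h2
      have h3 : (Equiv.Perm.decomposeFin.symm ((0 : Fin (n + 1)), p.2)).symm 0 = 0 := by
        rw [Equiv.symm_apply_eq, Equiv.Perm.decomposeFin_symm_apply_zero]
      rw [h3, Fin.cons_zero] at h2
      omega
  · -- injectivity
    intro p hp p' hp' he
    rw [Prod.mk.injEq, Prod.mk.injEq] at he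
    obtain ⟨⟨he1, he2⟩, -⟩ := he
    have h2 := Equiv.Perm.decomposeFin.symm.injective he2
    rw [Prod.mk.injEq] at h2
    rw [Fin.cons_inj] at he1
    exact Prod.ext he1.2 h2.2
  · -- surjectivity
    rintro ⟨⟨v, σ⟩, k⟩ hq
    rw [Finset.mem_filter, BrouwerA_mem_doors] at hq
    obtain ⟨⟨hv, hk, hd⟩, hi⟩ := hq
    simp only at hv hk hd
    have hbase : ((v, σ) : (Fin (n + 1) → ℕ) × Equiv.Perm (Fin (n + 1)))
        ∈ BrouwerA_base (n + 1) N := BrouwerA_mem_base.2 hv
    unfold BrouwerA_isInt at hi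
    rw [not_and_or] at hi
    simp only at hi
    rcases hi with hi | hi
    · rw [Classical.not_imp] at hi
      obtain ⟨hk0, hi⟩ := hi
      subst hk0
      have hv0 : v (σ.symm 0) + 1 = N := by
        have := hv (σ.symm 0)
        omega
      have hσ : σ.symm 0 = 0 := by
        obtain ⟨m, hm, hm0, hmi⟩ := hd 1 le_rfl (by omega)
        have h2 : BrouwerA_vtx v σ m (σ.symm 0) = N := by
          unfold BrouwerA_vtx
          rw [Equiv.apply_symm_apply, if_pos]
          · exact hv0
          · have : ((0 : Fin (n + 1)) : ℕ) = 0 := rfl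
            rw [this]
            omega
        have h3 := h1 _ (BrouwerA_vtx_le hbase m) (σ.symm 0) h2
        unfold BrouwerA_lab at hmi
        simp only at hmi h3
        rw [hmi] at h3
        apply Fin.ext
        have : ((0 : Fin (n + 1)) : ℕ) = 0 := rfl
        rw [this]
        omega
      rw [hσ] at hv0
      obtain ⟨⟨a, e⟩, rfl⟩ := Equiv.Perm.decomposeFin.symm.surjective σ
      have ha : a = 0 := by
        rw [Equiv.symm_apply_eq, Equiv.Perm.decomposeFin_symm_apply_zero] at hσ
        exact hσ.symm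
      subst ha
      have hvc : v = (Fin.cons (N - 1) (fun j => v j.succ) : Fin (n + 1) → ℕ) := by
        funext j
        refine Fin.cases ?_ (fun j => ?_) j
        · rw [Fin.cons_zero]; omega
        · rw [Fin.cons_succ]
      refine ⟨(fun j => v j.succ, e), ?_, ?_⟩
      · have hb : (((fun j => v j.succ), e) : (Fin n → ℕ) × Equiv.Perm (Fin n))
            ∈ BrouwerA_base n N := BrouwerA_mem_base.2 (fun j => hv j.succ)
        rw [BrouwerA_full, Finset.mem_filter]
        refine ⟨hb, ?_⟩
        intro i hi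
        obtain ⟨m, hm, hm0, hmi⟩ := hd (i + 1) (by omega) (by omega)
        obtain ⟨m, rfl⟩ : ∃ m', m = m' + 1 := ⟨m - 1, by omega⟩
        refine ⟨m, by omega, ?_⟩
        unfold BrouwerA_lab at hmi ⊢
        unfold BrouwerA_face
        simp only at hmi ⊢
        rw [hvc, BrouwerA_vtx_cons hN] at hmi
        rw [hmi]
        rfl
      · simp only
        rw [← hvc]
    · exfalso
      rw [Classical.not_imp] at hi
      obtain ⟨hk0, hi⟩ := hi
      subst hk0
      obtain ⟨m, hm, hm0, hmi⟩ := hd ((σ.symm (Fin.last n) : ℕ) + 1) (by omega) (by omega)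
      have h2 : BrouwerA_vtx v σ m (σ.symm (Fin.last n)) = 0 := by
        unfold BrouwerA_vtx
        rw [Equiv.apply_symm_apply, if_neg]
        · omega
        · rw [Fin.val_last]
          omega
      exact h0 _ (BrouwerA_vtx_le hbase m) (σ.symm (Fin.last n)) h2 hmi

/-- Kuhn's combinatorial lemma. -/
lemma BrouwerA_kuhn (N : ℕ) (hN : 0 < N) : ∀ (n : ℕ) (L : (Fin n → ℕ) → ℕ),
    (∀ x : Fin n → ℕ, (∀ j, x j ≤ N) → L x ≤ n) →
    (∀ x : Fin n → ℕ, (∀ j, x j ≤ N) → ∀ i : Fin n, x i = 0 → L x ≠ (i : ℕ) + 1) →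
    (∀ x : Fin n → ℕ, (∀ j, x j ≤ N) → ∀ i : Fin n, x i = N → (i : ℕ) + 1 ≤ L x) →
    ((BrouwerA_full n N L).card : ZMod 2) = 1 := by
  classical
  intro n
  induction n with
  | zero =>
    intro L hr _ _
    have h1 : BrouwerA_full 0 N L = {(Fin.elim0, 1)} := by
      ext p
      rw [BrouwerA_full, Finset.mem_filter, BrouwerA_mem_base, Finset.mem_singleton]
      constructor
      · intro _
        exact Prod.ext (Subsingleton.elim _ _) (Subsingleton.elim _ _)
      · intro _
        refine ⟨fun j => Fin.elim0 j, ?_⟩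
        intro i hi
        refine ⟨0, le_rfl, ?_⟩
        have := hr (BrouwerA_vtx p.1 p.2 0) (fun j => Fin.elim0 j)
        unfold BrouwerA_lab
        omega
    rw [h1, Finset.card_singleton]
    rfl
  | succ n ih =>
    intro L hr h0 h1
    rw [← BrouwerA_card_doors n N L hr]
    have hsplit := Finset.card_filter_add_card_filter_not (s := BrouwerA_doors n N L)
      (BrouwerA_isInt N)
    rw [← hsplit]
    push_cast
    rw [BrouwerA_int_doors, BrouwerA_bdry_doors n N hN L h0 h1, zero_add]
    have hle : ∀ x : Fin n → ℕ, (∀ j, x j ≤ N) →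
        ∀ j, (Fin.cons N x : Fin (n + 1) → ℕ) j ≤ N := by
      intro x hx j
      refine Fin.cases ?_ (fun j => ?_) j
      · rw [Fin.cons_zero]
      · rw [Fin.cons_succ]; exact hx j
    have hpos : ∀ x : Fin n → ℕ, (∀ j, x j ≤ N) → 1 ≤ L (Fin.cons N x : Fin (n + 1) → ℕ) := by
      intro x hx
      have := h1 _ (hle x hx) 0 (by rw [Fin.cons_zero])
      omega
    apply ih
    · intro x hx
      unfold BrouwerA_face
      have := hr _ (hle x hx)
      omega
    · intro x hx i hi
      unfold BrouwerA_face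
      have h2 := h0 _ (hle x hx) i.succ (by rw [Fin.cons_succ]; exact hi)
      have h3 := hpos x hx
      rw [Fin.val_succ] at h2
      omega
    · intro x hx i hi
      unfold BrouwerA_face
      have h2 := h1 _ (hle x hx) i.succ (by rw [Fin.cons_succ]; exact hi)
      rw [Fin.val_succ] at h2
      omega

/-- the point of the cube of a grid point -/
noncomputable def BrouwerA_pt {n : ℕ} (N : ℕ) (x : Fin n → ℕ) : Fin n → ℝ :=
  fun j => -1 + 2 * (x j : ℝ) / N

lemma BrouwerA_pt_mem {n : ℕ} {N : ℕ} (hN : 0 < N) {x : Fin n → ℕ} (hx : ∀ j, x j ≤ N) (j : Fin n) :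
    BrouwerA_pt N x j ∈ Icc (-1 : ℝ) 1 := by
  unfold BrouwerA_pt
  have h1 : (0 : ℝ) < N := by exact_mod_cast hN
  have h2 : (x j : ℝ) ≤ N := by exact_mod_cast hx j
  have h3 : 2 * (x j : ℝ) / N ≤ 2 := by
    rw [div_le_iff₀ h1]
    linarith
  have h4 : 0 ≤ 2 * (x j : ℝ) / N := by positivity
  constructor <;> linarith

/-- the approximate fixed points -/
lemma BrouwerA_approx (n : ℕ) (f : (Fin n → ℝ) → (Fin n → ℝ))
    (hm : ∀ x, (∀ i, x i ∈ Icc (-1 : ℝ) 1) → ∀ i, f x i ∈ Icc (-1 : ℝ) 1) (N : ℕ) (hN : 0 < N) :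
    ∃ z : Fin n → ℝ, (∀ i, z i ∈ Icc (-1 : ℝ) 1) ∧ (∀ i, z i ≤ f z i) ∧
      ∀ i, ∃ y : Fin n → ℝ, (∀ j, y j ∈ Icc (-1 : ℝ) 1) ∧ f y i ≤ y i ∧
        ∀ j, |y j - z j| ≤ 2 / N := by
  classical
  set U : (Fin n → ℕ) → Finset (Fin n) := fun x =>
    Finset.univ.filter (fun i => 0 < x i ∧ f (BrouwerA_pt N x) i ≤ BrouwerA_pt N x i) with hU
  set L : (Fin n → ℕ) → ℕ := fun x => (U x).sup (fun i => (i : ℕ) + 1) with hL
  have hL1 : ∀ x i, L x = (i : Fin n) + 1 → i ∈ U x := by
    intro x i hi
    have hne : (U x).Nonempty := by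
      by_contra h
      rw [Finset.not_nonempty_iff_eq_empty] at h
      simp only [hL] at hi
      rw [h, Finset.sup_empty] at hi
      exact absurd hi (by simp)
    obtain ⟨j, hj, hj2⟩ := Finset.exists_mem_eq_sup (U x) hne (fun i => (i : ℕ) + 1)
    have : j = i := by
      apply Fin.ext
      have h3 : L x = (j : ℕ) + 1 := hj2
      omega
    rw [← this]
    exact hj
  have hL2 : ∀ x i, i ∈ U x → ((i : Fin n) : ℕ) + 1 ≤ L x := by
    intro x i hi
    exact Finset.le_sup (f := fun i : Fin n => (i : ℕ) + 1) hi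
  have hNR : (0 : ℝ) < N := by exact_mod_cast hN
  have hk := BrouwerA_kuhn N hN n L
    (by
      intro x _
      apply Finset.sup_le
      intro i _
      have := i.isLt
      omega)
    (by
      intro x _ i hi h
      have := hL1 x i h
      rw [hU] at this
      simp only [Finset.mem_filter] at this
      omega)
    (by
      intro x hx i hi
      apply hL2
      rw [hU]
      simp only [Finset.mem_filter, Finset.mem_univ, true_and]
      refine ⟨by omega, ?_⟩
      have h1 : BrouwerA_pt N x i = 1 := by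
        unfold BrouwerA_pt
        rw [hi]
        field_simp
        norm_num
      rw [h1]
      exact (hm _ (BrouwerA_pt_mem hN hx) i).2)
  have hne : (BrouwerA_full n N L).Nonempty := by
    by_contra h
    rw [Finset.not_nonempty_iff_eq_empty] at h
    rw [h, Finset.card_empty] at hk
    exact absurd hk (by decide)
  obtain ⟨p, hp⟩ := hne
  rw [BrouwerA_full, Finset.mem_filter] at hp
  obtain ⟨hpb, hpf⟩ := hp
  obtain ⟨m0, hm0, hl0⟩ := hpf 0 (by omega)
  have hin := fun m => BrouwerA_vtx_le hpb m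
  refine ⟨BrouwerA_pt N (BrouwerA_vtx p.1 p.2 m0), BrouwerA_pt_mem hN (hin m0), ?_, ?_⟩
  · intro i
    by_contra hcon
    rw [not_le] at hcon
    by_cases h0 : BrouwerA_vtx p.1 p.2 m0 i = 0
    · have h1 : BrouwerA_pt N (BrouwerA_vtx p.1 p.2 m0) i = -1 := by
        unfold BrouwerA_pt
        rw [h0]
        simp
      rw [h1] at hcon
      exact absurd (hm _ (BrouwerA_pt_mem hN (hin m0)) i).1 (not_le.2 hcon)
    · have h1 : i ∈ U (BrouwerA_vtx p.1 p.2 m0) := by
        rw [hU]
        simp only [Finset.mem_filter, Finset.mem_univ, true_and]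
        exact ⟨by omega, hcon.le⟩
      have h2 := hL2 _ _ h1
      unfold BrouwerA_lab at hl0
      omega
  · intro i
    obtain ⟨m, hmn, hlm⟩ := hpf ((i : ℕ) + 1) (by have := i.isLt; omega)
    unfold BrouwerA_lab at hlm
    have h1 := hL1 _ i hlm
    rw [hU] at h1
    simp only [Finset.mem_filter, Finset.mem_univ, true_and] at h1
    refine ⟨BrouwerA_pt N (BrouwerA_vtx p.1 p.2 m), BrouwerA_pt_mem hN (hin m), h1.2, ?_⟩
    intro j
    unfold BrouwerA_pt
    have h2 : ((-1 + 2 * ((BrouwerA_vtx p.1 p.2 m j : ℕ) : ℝ) / N)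
        - (-1 + 2 * ((BrouwerA_vtx p.1 p.2 m0 j : ℕ) : ℝ) / N))
        = 2 * (((BrouwerA_vtx p.1 p.2 m j : ℕ) : ℝ) - ((BrouwerA_vtx p.1 p.2 m0 j : ℕ) : ℝ)) / N := by
      ring
    rw [h2, abs_div, abs_of_pos hNR]
    apply div_le_div_of_nonneg_right _ hNR.le
    rw [abs_mul, abs_of_pos (by norm_num : (0 : ℝ) < 2)]
    have h3 : |((BrouwerA_vtx p.1 p.2 m j : ℕ) : ℝ) - ((BrouwerA_vtx p.1 p.2 m0 j : ℕ) : ℝ)| ≤ 1 := by
      unfold BrouwerA_vtx
      rw [abs_le]
      split_ifs <;> push_cast <;> constructor <;> linarith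
    linarith

/-- **Brouwer's fixed point theorem** for `[-1, 1]^n`. Any proof is welcome: for example through
Sperner's lemma for the grid triangulation (Kuhn), or the cubical version: for the labelling
of the grid points of `{0, ..., N}^n` by the least coordinate `i` in which `f` does not increase ...,
or the hex theorem, or Milnor's analytic proof, or (Gale / Kulpa) the Poincaré-Miranda theorem by
Steinhaus' chessboard theorem. -/
theorem brouwer_cube (n : ℕ) (f : (Fin n → ℝ) → (Fin n → ℝ))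
    (hf : ContinuousOn f {x | ∀ i, x i ∈ Icc (-1 : ℝ) 1})
    (hm : ∀ x, (∀ i, x i ∈ Icc (-1 : ℝ) 1) → ∀ i, f x i ∈ Icc (-1 : ℝ) 1) :
    ∃ x, (∀ i, x i ∈ Icc (-1 : ℝ) 1) ∧ f x = x := by
  set K : Set (Fin n → ℝ) := {x | ∀ i, x i ∈ Icc (-1 : ℝ) 1} with hK
  have hKc : IsCompact K := by
    have h1 : K = Set.pi univ (fun _ => Icc (-1 : ℝ) 1) := by
      ext x
      rw [hK, Set.mem_pi]
      exact ⟨fun h i _ => h i, fun h i => h i (mem_univ i)⟩
    rw [h1]
    exact isCompact_univ_pi (fun _ => isCompact_Icc)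
  have happ := fun N : ℕ => BrouwerA_approx n f hm (N + 1) (Nat.succ_pos N)
  choose z hz1 hz2 y hy1 hy2 hy3 using happ
  obtain ⟨a, ha, φ, hφ, hlim⟩ := hKc.tendsto_subseq (x := z) (fun N => hz1 N)
  have hfa : Tendsto (fun k => f (z (φ k))) atTop (𝓝 (f a)) := by
    have h1 : Tendsto (fun k => z (φ k)) atTop (𝓝[K] a) :=
      tendsto_nhdsWithin_iff.2 ⟨hlim, Eventually.of_forall (fun k => hz1 (φ k))⟩
    exact (hf a ha).tendsto.comp h1
  have herr : Tendsto (fun k => 2 / (((φ k + 1 : ℕ) : ℕ) : ℝ)) atTop (𝓝 0) := by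
    have h1 : Tendsto (fun k : ℕ => (2 : ℝ) / ((k + 1 : ℕ) : ℝ)) atTop (𝓝 0) := by
      apply Tendsto.div_atTop tendsto_const_nhds
      exact tendsto_natCast_atTop_atTop.comp (tendsto_add_atTop_nat 1)
    exact h1.comp hφ.tendsto_atTop
  have hylim : ∀ i, Tendsto (fun k => y (φ k) i) atTop (𝓝 a) := by
    intro i
    rw [tendsto_pi_nhds]
    intro j
    have h1 : Tendsto (fun k => z (φ k) j) atTop (𝓝 (a j)) := (tendsto_pi_nhds.1 hlim) j
    have h2 : Tendsto (fun k => y (φ k) i j - z (φ k) j) atTop (𝓝 0) :=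
      squeeze_zero_norm (fun k => by rw [Real.norm_eq_abs]; exact hy3 (φ k) i j) herr
    have h3 := h2.add h1
    rw [zero_add] at h3
    refine h3.congr (fun k => ?_)
    ring
  refine ⟨a, ha, ?_⟩
  funext i
  apply le_antisymm
  · have h1 : Tendsto (fun k => y (φ k) i) atTop (𝓝[K] a) :=
      tendsto_nhdsWithin_iff.2 ⟨hylim i, Eventually.of_forall (fun k => hy1 (φ k) i)⟩
    have h2 : Tendsto (fun k => f (y (φ k) i)) atTop (𝓝 (f a)) := (hf a ha).tendsto.comp h1
    exact le_of_tendsto_of_tendsto' ((tendsto_pi_nhds.1 h2) i) ((tendsto_pi_nhds.1 (hylim i)) i)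
      (fun k => hy2 (φ k) i)
  · exact le_of_tendsto_of_tendsto' ((tendsto_pi_nhds.1 hlim) i) ((tendsto_pi_nhds.1 hfa) i)
      (fun k => hz2 (φ k) i)

end Pool.Agent.KK
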