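import Pool.Agent.W_bb4b37_h53.BrouwerA

/-!
# Brouwer's fixed point theorem for the cube (part B)
-/

set_option autoImplicit false

open Filter Topology Set

namespace Pool.Agent.KK

/-- Brouwer's theorem for a finite product of closed discs, in the form used here: a continuous
(on the product of discs) self-map of `{p : Fin n → ℂ | ∀ i, ‖p i‖ ≤ R}` has a fixed point.
Proof: retract `ℂ` radially onto the disc, identify `Fin n → ℂ` with `Fin (2 n) → ℝ` and scale. -/
theorem brouwer_discs (n : ℕ) (R : ℝ) (hR : 0 < R) (f : (Fin n → ℂ) → (Fin n → ℂ))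
    (hf : ContinuousOn f {p | ∀ i, ‖p i‖ ≤ R}) (hm : ∀ p, (∀ i, ‖p i‖ ≤ R) → ∀ i, ‖f p i‖ ≤ R) :
    ∃ p, (∀ i, ‖p i‖ ≤ R) ∧ f p = p := by
  set r : ℂ → ℂ := fun z => ((R / max R ‖z‖ : ℝ) : ℂ) * z with hr
  have hpos : ∀ z : ℂ, 0 < max R ‖z‖ := fun z => lt_of_lt_of_le hR (le_max_left _ _)
  have hrc : Continuous r := by
    have h1 : Continuous fun z : ℂ => R / max R ‖z‖ :=
      Continuous.div continuous_const (continuous_const.max continuous_norm)
        (fun z => (hpos z).ne')
    exact (Complex.continuous_ofReal.comp h1).mul continuous_id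
  have hrn : ∀ z, ‖r z‖ ≤ R := by
    intro z
    have h1 := hpos z
    simp only [hr]
    rw [norm_mul, Complex.norm_real, Real.norm_eq_abs, abs_of_nonneg (by positivity),
      div_mul_eq_mul_div, div_le_iff₀ h1]
    exact mul_le_mul_of_nonneg_left (le_max_right _ _) hR.le
  have hrid : ∀ z, ‖z‖ ≤ R → r z = z := by
    intro z hz
    simp only [hr]
    rw [max_eq_left hz, div_self hR.ne']
    simp
  let A : (Fin (n * 2) → ℝ) → (Fin n → ℂ) := fun x i =>
    ((R * x (finProdFinEquiv (i, 0)) : ℝ) : ℂ)
      + ((R * x (finProdFinEquiv (i, 1)) : ℝ) : ℂ) * Complex.I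
  let B : (Fin n → ℂ) → (Fin (n * 2) → ℝ) := fun p j =>
    if (finProdFinEquiv.symm j).2 = 0 then (p (finProdFinEquiv.symm j).1).re / R
      else (p (finProdFinEquiv.symm j).1).im / R
  have hAc : Continuous A := by
    apply continuous_pi
    intro i
    exact (Complex.continuous_ofReal.comp (continuous_const.mul (continuous_apply _))).add
      ((Complex.continuous_ofReal.comp (continuous_const.mul (continuous_apply _))).mul
        continuous_const)
  have hBc : Continuous B := by
    apply continuous_pi
    intro j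
    by_cases h : (finProdFinEquiv.symm j).2 = 0
    · have e : (fun p : Fin n → ℂ => B p j) = fun p => (p (finProdFinEquiv.symm j).1).re / R := by
        funext p
        exact if_pos h
      rw [e]
      exact (Complex.continuous_re.comp (continuous_apply _)).div_const R
    · have e : (fun p : Fin n → ℂ => B p j) = fun p => (p (finProdFinEquiv.symm j).1).im / R := by
        funext p
        exact if_neg h
      rw [e]
      exact (Complex.continuous_im.comp (continuous_apply _)).div_const R
  have hAB : ∀ p, A (B p) = p := by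
    intro p
    funext i
    have h0 : B p (finProdFinEquiv (i, 0)) = (p i).re / R := by
      simp only [B, Equiv.symm_apply_apply, if_true]
    have h1 : B p (finProdFinEquiv (i, 1)) = (p i).im / R := by
      simp only [B, Equiv.symm_apply_apply]
      rw [if_neg (by decide)]
    show ((R * B p (finProdFinEquiv (i, 0)) : ℝ) : ℂ)
      + ((R * B p (finProdFinEquiv (i, 1)) : ℝ) : ℂ) * Complex.I = p i
    rw [h0, h1, mul_div_cancel₀ _ hR.ne', mul_div_cancel₀ _ hR.ne']
    exact Complex.re_add_im (p i)
  have hBm : ∀ p, (∀ i, ‖p i‖ ≤ R) → ∀ j, B p j ∈ Icc (-1 : ℝ) 1 := by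
    intro p hp j
    have key : ∀ x : ℝ, |x| ≤ R → x / R ∈ Icc (-1 : ℝ) 1 := by
      intro x hx
      rw [abs_le] at hx
      constructor
      · rw [le_div_iff₀ hR]; linarith [hx.1]
      · rw [div_le_iff₀ hR]; linarith [hx.2]
    by_cases h : (finProdFinEquiv.symm j).2 = 0
    · have e : B p j = (p (finProdFinEquiv.symm j).1).re / R := if_pos h
      rw [e]
      exact key _ ((Complex.abs_re_le_norm _).trans (hp _))
    · have e : B p j = (p (finProdFinEquiv.symm j).1).im / R := if_neg h
      rw [e]
      exact key _ ((Complex.abs_im_le_norm _).trans (hp _))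
  have hq : ∀ x, (fun i => r (A x i)) ∈ {p : Fin n → ℂ | ∀ i, ‖p i‖ ≤ R} := fun x i => hrn _
  have hqc : Continuous fun x => fun i => r (A x i) := by
    apply continuous_pi
    intro i
    exact hrc.comp ((continuous_apply i).comp hAc)
  have hgc : Continuous fun x => B (f (fun i => r (A x i))) :=
    hBc.comp (hf.comp_continuous hqc hq)
  obtain ⟨x, -, hx⟩ := brouwer_cube (n * 2) (fun x => B (f (fun i => r (A x i))))
    hgc.continuousOn (fun x _ j => hBm _ (fun i => hm _ (hq x) i) j)
  refine ⟨fun i => r (A x i), hq x, ?_⟩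
  have h1 : A x = f (fun i => r (A x i)) := by
    conv_lhs => rw [← hx]
    exact hAB _
  have h2 : ∀ i, ‖A x i‖ ≤ R := by
    intro i
    rw [h1]
    exact hm _ (hq x) i
  rw [← h1]
  funext i
  exact (hrid _ (h2 i)).symm

end Pool.Agent.KK
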