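import Pool.Agent.W_bb4b37_h53.CalcE

/-!
# Elementary calculus of `Dx`, `Dy`, `DD`, `Dz`, `Dzb`

Basic rules, used by all other files. All proofs are routine.
-/
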