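import Pool.Agent.W_bb4b37_h53.Defs

/-!
# Elementary calculus of `Dx`, `Dy`, `DD`, `Dz`, `Dzb`

Basic rules, used by all other files. All proofs are routine.
-/

set_option autoImplicit false

open Filter Topology Set MeasureTheory
open scoped ContDiff

namespace Pool.Agent.KK

variable {V : Type*} [NormedAddCommGroup V] [NormedSpace ℝ V]

@[simp] theorem DD_nil (f : ℂ → V) : DD [] f = f := rfl
@[simp] theorem DD_true (l : List Bool) (f : ℂ → V) : DD (true :: l) f = Dx (DD l f) := rfl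
@[simp] theorem DD_false (l : List Bool) (f : ℂ → V) : DD (false :: l) f = Dy (DD l f) := rfl

/-- `DD` of a concatenation. -/
theorem DD_append (l₁ l₂ : List Bool) (f : ℂ → V) : DD (l₁ ++ l₂) f = DD l₁ (DD l₂ f) := by
  induction l₁ with
  | nil => rfl
  | cons b l ih =>
    cases b
    · rw [List.cons_append, DD_false, DD_false, ih]
    · rw [List.cons_append, DD_true, DD_true, ih]

/-- The derivative in terms of the partial derivatives. -/
theorem fderiv_eq (f : ℂ → V) (z v : ℂ) :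
    fderiv ℝ f z v = v.re • Dx f z + v.im • Dy f z := by
  have h1 : v = v.re • (1 : ℂ) + v.im • Complex.I := by
    rw [Complex.real_smul, Complex.real_smul, mul_one]; exact (Complex.re_add_im v).symm
  conv_lhs => rw [h1]
  rw [map_add, map_smul, map_smul]
  rfl

/-- Smoothness of the partial derivatives (global). -/
theorem contDiff_Dx {f : ℂ → V} {n m : WithTop ℕ∞} (hf : ContDiff ℝ n f) (h : m + 1 ≤ n) :
    ContDiff ℝ m (Dx f) :=
  (hf.fderiv_right h).clm_apply contDiff_const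

theorem contDiff_Dy {f : ℂ → V} {n m : WithTop ℕ∞} (hf : ContDiff ℝ n f) (h : m + 1 ≤ n) :
    ContDiff ℝ m (Dy f) :=
  (hf.fderiv_right h).clm_apply contDiff_const

theorem contDiff_DD {f : ℂ → V} (hf : ContDiff ℝ ∞ f) (l : List Bool) :
    ContDiff ℝ ∞ (DD l f) := by
  induction l with
  | nil => exact hf
  | cons b l ih =>
    cases b
    · exact contDiff_Dy ih (by simp)
    · exact contDiff_Dx ih (by simp)

/-- Smoothness of the partial derivatives (on an open set). -/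
theorem contDiffOn_Dx {f : ℂ → V} {U : Set ℂ} {n m : WithTop ℕ∞} (hU : IsOpen U)
    (hf : ContDiffOn ℝ n f U) (h : m + 1 ≤ n) : ContDiffOn ℝ m (Dx f) U :=
  (hf.fderiv_of_isOpen hU h).clm_apply contDiffOn_const

theorem contDiffOn_Dy {f : ℂ → V} {U : Set ℂ} {n m : WithTop ℕ∞} (hU : IsOpen U)
    (hf : ContDiffOn ℝ n f U) (h : m + 1 ≤ n) : ContDiffOn ℝ m (Dy f) U :=
  (hf.fderiv_of_isOpen hU h).clm_apply contDiffOn_const

theorem contDiffOn_DD {f : ℂ → V} {U : Set ℂ} (hU : IsOpen U) (hf : ContDiffOn ℝ ∞ f U)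
    (l : List Bool) : ContDiffOn ℝ ∞ (DD l f) U := by
  induction l with
  | nil => exact hf
  | cons b l ih =>
    cases b
    · exact contDiffOn_Dy hU ih (by simp)
    · exact contDiffOn_Dx hU ih (by simp)

/-- Symmetry of second derivatives. -/
theorem Dx_Dy_comm {f : ℂ → V} {z : ℂ} (hf : ContDiffAt ℝ 2 f z) :
    Dx (Dy f) z = Dy (Dx f) z := by
  have hs : IsSymmSndFDerivAt ℝ f z := hf.isSymmSndFDerivAt (by simp)
  have hd : DifferentiableAt ℝ (fderiv ℝ f) z :=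
    (hf.fderiv_right (m := 1) (by norm_num)).differentiableAt (by norm_num)
  have e1 : Dx (Dy f) z = fderiv ℝ (fderiv ℝ f) z 1 Complex.I := by
    show fderiv ℝ (fun w => fderiv ℝ f w Complex.I) z 1 = _
    rw [fderiv_clm_apply hd (differentiableAt_const _)]
    simp
  have e2 : Dy (Dx f) z = fderiv ℝ (fderiv ℝ f) z Complex.I 1 := by
    show fderiv ℝ (fun w => fderiv ℝ f w 1) z Complex.I = _
    rw [fderiv_clm_apply hd (differentiableAt_const _)]
    simp
  rw [e1, e2]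
  exact hs 1 Complex.I

/-- All second derivatives in terms of three. -/
theorem DD_two_cases {f : ℂ → V} {l : List Bool} (hl : l.length = 2) {z : ℂ}
    (hf : ContDiffAt ℝ 2 f z) :
    DD l f z = Dx (Dx f) z ∨ DD l f z = Dx (Dy f) z ∨ DD l f z = Dy (Dy f) z := by
  match l, hl with
  | [true, true], _ => exact Or.inl rfl
  | [true, false], _ => exact Or.inr (Or.inl rfl)
  | [false, true], _ => exact Or.inr (Or.inl (Dx_Dy_comm hf).symm)
  | [false, false], _ => exact Or.inr (Or.inr rfl)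

/-- Locality. -/
theorem Dx_congr {f g : ℂ → V} {z : ℂ} (h : f =ᶠ[𝓝 z] g) : Dx f z = Dx g z := by
  show fderiv ℝ f z 1 = fderiv ℝ g z 1
  rw [h.fderiv_eq]

theorem Dy_congr {f g : ℂ → V} {z : ℂ} (h : f =ᶠ[𝓝 z] g) : Dy f z = Dy g z := by
  show fderiv ℝ f z Complex.I = fderiv ℝ g z Complex.I
  rw [h.fderiv_eq]

theorem CalcA_Dx {f g : ℂ → V} {z : ℂ} (h : f =ᶠ[𝓝 z] g) : Dx f =ᶠ[𝓝 z] Dx g :=
  h.eventuallyEq_nhds.mono fun _ hw => Dx_congr hw

theorem CalcA_Dy {f g : ℂ → V} {z : ℂ} (h : f =ᶠ[𝓝 z] g) : Dy f =ᶠ[𝓝 z] Dy g :=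
  h.eventuallyEq_nhds.mono fun _ hw => Dy_congr hw

theorem CalcA_DD {f g : ℂ → V} {z : ℂ} (h : f =ᶠ[𝓝 z] g) (l : List Bool) :
    DD l f =ᶠ[𝓝 z] DD l g := by
  induction l with
  | nil => exact h
  | cons b l ih =>
    cases b
    · exact CalcA_Dy ih
    · exact CalcA_Dx ih

theorem DD_congr {f g : ℂ → V} {z : ℂ} (h : f =ᶠ[𝓝 z] g) (l : List Bool) :
    DD l f z = DD l g z :=
  (CalcA_DD h l).self_of_nhds

theorem Lap_congr {f g : ℂ → V} {z : ℂ} (h : f =ᶠ[𝓝 z] g) : Lap f z = Lap g z := by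
  show Dx (Dx f) z + Dy (Dy f) z = Dx (Dx g) z + Dy (Dy g) z
  rw [Dx_congr (CalcA_Dx h), Dy_congr (CalcA_Dy h)]

theorem CalcA_fderiv_affine (f : ℂ → V) (z₀ : ℂ) (r : ℝ) (z : ℂ) :
    fderiv ℝ (fun y => f (z₀ + (r : ℂ) * y)) z = r • fderiv ℝ f (z₀ + (r : ℂ) * z) := by
  have h1 := fderiv_comp_smul (𝕜 := ℝ) (f := fun y => f (z₀ + y)) (x := z) r
  simp only [Complex.real_smul] at h1
  rw [h1, fderiv_comp_add_left]

/-- Translations and dilations. -/
theorem Dx_comp_affine (f : ℂ → V) (z₀ : ℂ) (r : ℝ) (z : ℂ) :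
    Dx (fun y => f (z₀ + (r : ℂ) * y)) z = r • Dx f (z₀ + (r : ℂ) * z) := by
  show fderiv ℝ (fun y => f (z₀ + (r : ℂ) * y)) z 1 = _
  rw [CalcA_fderiv_affine]
  rfl

theorem Dy_comp_affine (f : ℂ → V) (z₀ : ℂ) (r : ℝ) (z : ℂ) :
    Dy (fun y => f (z₀ + (r : ℂ) * y)) z = r • Dy f (z₀ + (r : ℂ) * z) := by
  show fderiv ℝ (fun y => f (z₀ + (r : ℂ) * y)) z Complex.I = _
  rw [CalcA_fderiv_affine]
  rfl

theorem CalcA_Dx_smul (c : ℝ) (f : ℂ → V) : Dx (fun y => c • f y) = fun y => c • Dx f y := by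
  funext z
  show fderiv ℝ (fun y => c • f y) z 1 = _
  have : (fun y => c • f y) = c • f := rfl
  rw [this, fderiv_const_smul_field]
  rfl

theorem CalcA_Dy_smul (c : ℝ) (f : ℂ → V) : Dy (fun y => c • f y) = fun y => c • Dy f y := by
  funext z
  show fderiv ℝ (fun y => c • f y) z Complex.I = _
  have : (fun y => c • f y) = c • f := rfl
  rw [this, fderiv_const_smul_field]
  rfl

theorem CalcA_DD_affine (f : ℂ → V) (z₀ : ℂ) (r : ℝ) (l : List Bool) :
    DD l (fun y => f (z₀ + (r : ℂ) * y)) =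
      fun z => r ^ l.length • DD l f (z₀ + (r : ℂ) * z) := by
  induction l with
  | nil => funext z; simp
  | cons b l ih =>
    cases b
    · rw [DD_false, ih, CalcA_Dy_smul]
      funext z
      rw [Dy_comp_affine (DD l f) z₀ r z, smul_smul, ← pow_succ]
      rfl
    · rw [DD_true, ih, CalcA_Dx_smul]
      funext z
      rw [Dx_comp_affine (DD l f) z₀ r z, smul_smul, ← pow_succ]
      rfl

theorem DD_comp_affine (f : ℂ → V) (z₀ : ℂ) (r : ℝ) (l : List Bool) (z : ℂ) :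
    DD l (fun y => f (z₀ + (r : ℂ) * y)) z = r ^ l.length • DD l f (z₀ + (r : ℂ) * z) := by
  rw [CalcA_DD_affine]

theorem Lap_comp_affine (f : ℂ → V) (z₀ : ℂ) (r : ℝ) (z : ℂ) :
    Lap (fun y => f (z₀ + (r : ℂ) * y)) z = r ^ 2 • Lap f (z₀ + (r : ℂ) * z) := by
  have h1 := DD_comp_affine f z₀ r [true, true] z
  have h2 := DD_comp_affine f z₀ r [false, false] z
  have e : Lap (fun y => f (z₀ + (r : ℂ) * y)) z =
    DD [true, true] (fun y => f (z₀ + (r : ℂ) * y)) z +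
      DD [false, false] (fun y => f (z₀ + (r : ℂ) * y)) z := rfl
  rw [e, h1, h2]
  show r ^ 2 • _ + r ^ 2 • _ = r ^ 2 • (_ + _)
  rw [smul_add]
  rfl

end Pool.Agent.KK
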