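import Pool.Agent.W_bb4b37_h53.CalcA

/-!
# Elementary calculus of `Dx`, `Dy`, `DD`, `Dz`, `Dzb` (part C)
-/

set_option autoImplicit false

open Filter Topology Set MeasureTheory
open scoped ContDiff

namespace Pool.Agent.KK

variable {V : Type*} [NormedAddCommGroup V] [NormedSpace ℝ V]

/-- The real derivative in terms of `Dz` and `Dzb`. -/
theorem fderiv_eq_Dz (f : ℂ → ℂ) (z v : ℂ) :
    fderiv ℝ f z v = Dz f z * v + Dzb f z * (starRingEnd ℂ) v := by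
  have h2 : (starRingEnd ℂ) v = (v.re : ℂ) - v.im * Complex.I := by
    apply Complex.ext <;> simp
  have h3 : fderiv ℝ f z v = (v.re : ℂ) * Dx f z + (v.im : ℂ) * Dy f z := by
    rw [fderiv_eq, Complex.real_smul, Complex.real_smul]
  have h4 : v = (v.re : ℂ) + v.im * Complex.I := (Complex.re_add_im v).symm
  rw [h3, Dz, Dzb, h2]
  generalize v.re = p at *
  generalize v.im = q at *
  rw [h4]
  linear_combination ((q : ℂ) * Dy f z) * Complex.I_sq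

theorem Dx_eq_Dz (f : ℂ → ℂ) (z : ℂ) : Dx f z = Dz f z + Dzb f z := by
  rw [Dz, Dzb]
  ring

theorem Dy_eq_Dz (f : ℂ → ℂ) (z : ℂ) : Dy f z = Complex.I * (Dz f z - Dzb f z) := by
  rw [Dz, Dzb]
  linear_combination (Dy f z) * Complex.I_sq

theorem CalcC_of_fderiv {f : ℂ → ℂ} {z a b : ℂ}
    (h : ∀ v, fderiv ℝ f z v = a * v + b * (starRingEnd ℂ) v) : Dz f z = a ∧ Dzb f z = b := by
  have h1 : Dx f z = a + b := by rw [Dx, h]; simp
  have h2 : Dy f z = a * Complex.I - b * Complex.I := by rw [Dy, h, Complex.conj_I]; ring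
  rw [Dz, Dzb, h1, h2]
  constructor
  · linear_combination (-(a - b) / 2) * Complex.I_sq
  · linear_combination ((a - b) / 2) * Complex.I_sq

theorem CalcC_of_hasFDerivAt {f : ℂ → ℂ} {z a b : ℂ} {L : ℂ →L[ℝ] ℂ} (h : HasFDerivAt f L z)
    (hL : ∀ v, L v = a * v + b * (starRingEnd ℂ) v) : Dz f z = a ∧ Dzb f z = b := by
  apply CalcC_of_fderiv
  intro v
  rw [h.fderiv, hL]

theorem CalcC_comp {f g : ℂ → ℂ} {z : ℂ} (hf : DifferentiableAt ℝ f (g z))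
    (hg : DifferentiableAt ℝ g z) :
    Dz (fun y => f (g y)) z = Dz f (g z) * Dz g z + Dzb f (g z) * (starRingEnd ℂ) (Dzb g z) ∧
    Dzb (fun y => f (g y)) z = Dz f (g z) * Dzb g z + Dzb f (g z) * (starRingEnd ℂ) (Dz g z) := by
  apply CalcC_of_hasFDerivAt (hf.hasFDerivAt.comp z hg.hasFDerivAt)
  intro v
  rw [ContinuousLinearMap.comp_apply, fderiv_eq_Dz, fderiv_eq_Dz]
  simp only [map_add, map_mul, Complex.conj_conj]
  ring

/-- Chain rule for `Dz` and `Dzb`. -/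
theorem Dz_comp {f g : ℂ → ℂ} {z : ℂ} (hf : DifferentiableAt ℝ f (g z))
    (hg : DifferentiableAt ℝ g z) :
    Dz (fun y => f (g y)) z = Dz f (g z) * Dz g z + Dzb f (g z) * (starRingEnd ℂ) (Dzb g z) :=
  (CalcC_comp hf hg).1

theorem Dzb_comp {f g : ℂ → ℂ} {z : ℂ} (hf : DifferentiableAt ℝ f (g z))
    (hg : DifferentiableAt ℝ g z) :
    Dzb (fun y => f (g y)) z = Dz f (g z) * Dzb g z + Dzb f (g z) * (starRingEnd ℂ) (Dz g z) :=
  (CalcC_comp hf hg).2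

theorem CalcC_mul {f g : ℂ → ℂ} {z : ℂ} (hf : DifferentiableAt ℝ f z)
    (hg : DifferentiableAt ℝ g z) :
    Dz (fun y => f y * g y) z = Dz f z * g z + f z * Dz g z ∧
    Dzb (fun y => f y * g y) z = Dzb f z * g z + f z * Dzb g z := by
  apply CalcC_of_hasFDerivAt (hf.hasFDerivAt.mul hg.hasFDerivAt)
  intro v
  simp only [add_apply, smul_apply, fderiv_eq_Dz, smul_eq_mul]
  ring

theorem Dz_mul {f g : ℂ → ℂ} {z : ℂ} (hf : DifferentiableAt ℝ f z)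
    (hg : DifferentiableAt ℝ g z) : Dz (fun y => f y * g y) z = Dz f z * g z + f z * Dz g z :=
  (CalcC_mul hf hg).1

theorem Dzb_mul {f g : ℂ → ℂ} {z : ℂ} (hf : DifferentiableAt ℝ f z)
    (hg : DifferentiableAt ℝ g z) :
    Dzb (fun y => f y * g y) z = Dzb f z * g z + f z * Dzb g z :=
  (CalcC_mul hf hg).2

theorem CalcC_conj (f : ℂ → ℂ) (z : ℂ) :
    Dz (fun y => (starRingEnd ℂ) (f y)) z = (starRingEnd ℂ) (Dzb f z) ∧
    Dzb (fun y => (starRingEnd ℂ) (f y)) z = (starRingEnd ℂ) (Dz f z) := by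
  apply CalcC_of_fderiv
  intro v
  have h1 : fderiv ℝ (fun y => (starRingEnd ℂ) (f y)) z =
      (Complex.conjCLE : ℂ →L[ℝ] ℂ).comp (fderiv ℝ f z) :=
    Complex.conjCLE.comp_fderiv (f := f) (x := z)
  rw [h1]
  show (starRingEnd ℂ) (fderiv ℝ f z v) = _
  rw [fderiv_eq_Dz]
  simp only [map_add, map_mul, Complex.conj_conj]
  ring

theorem Dz_conj (f : ℂ → ℂ) (z : ℂ) :
    Dz (fun y => (starRingEnd ℂ) (f y)) z = (starRingEnd ℂ) (Dzb f z) :=
  (CalcC_conj f z).1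

theorem Dzb_conj (f : ℂ → ℂ) (z : ℂ) :
    Dzb (fun y => (starRingEnd ℂ) (f y)) z = (starRingEnd ℂ) (Dz f z) :=
  (CalcC_conj f z).2

theorem CalcC_diff {f : ℂ → ℂ} {z : ℂ} (hf : ContDiffAt ℝ 2 f z) (w : ℂ) :
    DifferentiableAt ℝ (fun y => fderiv ℝ f y w) z := by
  have h1 : ContDiffAt ℝ 1 (fderiv ℝ f) z := hf.fderiv_right (by norm_num)
  exact (h1.clm_apply contDiffAt_const).differentiableAt (by norm_num)

theorem CalcC_second {f : ℂ → ℂ} {z : ℂ} (hf : ContDiffAt ℝ 2 f z) (c : ℂ) :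
    Dx (fun y => (Dx f y + c * Dy f y) / 2) z = (Dx (Dx f) z + c * Dx (Dy f) z) / 2 ∧
    Dy (fun y => (Dx f y + c * Dy f y) / 2) z = (Dy (Dx f) z + c * Dy (Dy f) z) / 2 := by
  have h1 : HasFDerivAt (Dx f) (fderiv ℝ (Dx f) z) z := (CalcC_diff hf 1).hasFDerivAt
  have h2 : HasFDerivAt (Dy f) (fderiv ℝ (Dy f) z) z := (CalcC_diff hf Complex.I).hasFDerivAt
  have h3 : HasFDerivAt (fun y => (2⁻¹ : ℂ) * (Dx f y + c * Dy f y))
      ((2⁻¹ : ℂ) • (fderiv ℝ (Dx f) z + c • fderiv ℝ (Dy f) z)) z :=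
    (h1.add (h2.const_mul c)).const_mul (2⁻¹ : ℂ)
  have h4 : (fun y => (Dx f y + c * Dy f y) / 2) =
      fun y => (2⁻¹ : ℂ) * (Dx f y + c * Dy f y) := by
    funext y
    ring
  rw [h4]
  constructor
  · show fderiv ℝ _ z 1 = _
    rw [h3.fderiv]
    simp only [add_apply, smul_apply, smul_eq_mul]
    show 2⁻¹ * (Dx (Dx f) z + c * Dx (Dy f) z) = _
    ring
  · show fderiv ℝ _ z Complex.I = _
    rw [h3.fderiv]
    simp only [add_apply, smul_apply, smul_eq_mul]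
    show 2⁻¹ * (Dy (Dx f) z + c * Dy (Dy f) z) = _
    ring

theorem CalcC_Dzb_fun (f : ℂ → ℂ) : Dzb f = fun y => (Dx f y + Complex.I * Dy f y) / 2 := by
  funext y
  rw [Dzb]

theorem CalcC_Dz_fun (f : ℂ → ℂ) : Dz f = fun y => (Dx f y + (-Complex.I) * Dy f y) / 2 := by
  funext y
  rw [Dz]
  ring

/-- The Laplacian is `4 ∂ ∂̄`. -/
theorem Lap_eq_Dz_Dzb {f : ℂ → ℂ} {z : ℂ} (hf : ContDiffAt ℝ 2 f z) :
    Lap f z = 4 * Dz (Dzb f) z := by
  obtain ⟨h1, h2⟩ := CalcC_second hf Complex.I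
  have h3 : Dz (Dzb f) z = (Dx (Dzb f) z - Complex.I * Dy (Dzb f) z) / 2 := rfl
  rw [h3, CalcC_Dzb_fun, h1, h2, Dx_Dy_comm hf, Lap]
  linear_combination (Dy (Dy f) z) * Complex.I_sq

theorem Dz_Dzb_comm {f : ℂ → ℂ} {z : ℂ} (hf : ContDiffAt ℝ 2 f z) :
    Dz (Dzb f) z = Dzb (Dz f) z := by
  obtain ⟨h1, h2⟩ := CalcC_second hf Complex.I
  obtain ⟨h4, h5⟩ := CalcC_second hf (-Complex.I)
  have h3 : Dz (Dzb f) z = (Dx (Dzb f) z - Complex.I * Dy (Dzb f) z) / 2 := rfl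
  have h6 : Dzb (Dz f) z = (Dx (Dz f) z + Complex.I * Dy (Dz f) z) / 2 := rfl
  rw [h3, h6, CalcC_Dzb_fun, CalcC_Dz_fun, h1, h2, h4, h5, Dx_Dy_comm hf]
  ring

/-- A real differentiable function with `Dzb f z = 0` is complex differentiable at `z`. -/
theorem hasDerivAt_of_Dzb {f : ℂ → ℂ} {z : ℂ} (hf : DifferentiableAt ℝ f z)
    (h : Dzb f z = 0) : HasDerivAt f (Dz f z) z := by
  rw [hasDerivAt_iff_hasFDerivAt]
  refine hasFDerivAt_of_restrictScalars ℝ hf.hasFDerivAt ?_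
  ext v
  rw [fderiv_eq_Dz, h]
  simp [mul_comm]

theorem Dz_of_hasDerivAt {f : ℂ → ℂ} {f' z : ℂ} (h : HasDerivAt f f' z) :
    Dz f z = f' ∧ Dzb f z = 0 := by
  apply CalcC_of_hasFDerivAt (h.hasFDerivAt.restrictScalars ℝ)
  intro v
  simp [mul_comm]

/-- The determinant and the norm of the derivative. -/
theorem det_fderiv (f : ℂ → ℂ) (z : ℂ) :
    (fderiv ℝ f z).det = ‖Dz f z‖ ^ 2 - ‖Dzb f z‖ ^ 2 := by
  have h0 : (fderiv ℝ f z).det = LinearMap.det (fderiv ℝ f z : ℂ →ₗ[ℝ] ℂ) := rfl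
  rw [h0, ← LinearMap.det_toMatrix Complex.basisOneI, Matrix.det_fin_two]
  have e1 : ∀ i j, LinearMap.toMatrix Complex.basisOneI Complex.basisOneI
      (fderiv ℝ f z : ℂ →ₗ[ℝ] ℂ) i j =
      Complex.basisOneI.repr (fderiv ℝ f z (Complex.basisOneI j)) i := by
    intro i j
    rw [LinearMap.toMatrix_apply]
    rfl
  rw [e1, e1, e1, e1, fderiv_eq_Dz, fderiv_eq_Dz, ← Complex.normSq_eq_norm_sq,
    ← Complex.normSq_eq_norm_sq, Complex.normSq_apply, Complex.normSq_apply]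
  simp [Complex.coe_basisOneI_repr, Complex.coe_basisOneI]
  ring

theorem norm_fderiv (f : ℂ → ℂ) (z : ℂ) : ‖fderiv ℝ f z‖ = ‖Dz f z‖ + ‖Dzb f z‖ := by
  apply le_antisymm
  · apply ContinuousLinearMap.opNorm_le_bound _ (by positivity)
    intro v
    rw [fderiv_eq_Dz]
    calc ‖Dz f z * v + Dzb f z * (starRingEnd ℂ) v‖
        ≤ ‖Dz f z * v‖ + ‖Dzb f z * (starRingEnd ℂ) v‖ := norm_add_le _ _
      _ = (‖Dz f z‖ + ‖Dzb f z‖) * ‖v‖ := by
        rw [norm_mul, norm_mul, RCLike.norm_conj]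
        ring
  · obtain ⟨a, ha⟩ : ∃ a, a = Dz f z := ⟨_, rfl⟩
    obtain ⟨b, hb⟩ : ∃ b, b = Dzb f z := ⟨_, rfl⟩
    obtain ⟨w, hw⟩ : ∃ w, w = (starRingEnd ℂ) a * b := ⟨_, rfl⟩
    obtain ⟨v, hv⟩ : ∃ v : ℂ, v = Complex.exp (((Complex.arg w / 2 : ℝ) : ℂ) * Complex.I) :=
      ⟨_, rfl⟩
    have hv1 : ‖v‖ = 1 := by rw [hv, Complex.norm_exp_ofReal_mul_I]
    have hv2 : (‖w‖ : ℂ) * v ^ 2 = w := by
      rw [hv, ← Complex.exp_nat_mul]
      conv_rhs => rw [← Complex.norm_mul_exp_arg_mul_I w]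
      congr 2
      push_cast
      ring
    have hcv : v * (starRingEnd ℂ) v = 1 := by
      rw [Complex.mul_conj, Complex.normSq_eq_norm_sq, hv1]
      simp
    have hkey : a * v * (starRingEnd ℂ) (b * (starRingEnd ℂ) v) = ((‖a‖ * ‖b‖ : ℝ) : ℂ) := by
      have hw3 : (starRingEnd ℂ) w = a * (starRingEnd ℂ) b := by
        rw [hw, map_mul, Complex.conj_conj]
      have hw4 : (starRingEnd ℂ) w * v ^ 2 = (‖w‖ : ℂ) := by
        have h5 : (starRingEnd ℂ) w = (‖w‖ : ℂ) * ((starRingEnd ℂ) v) ^ 2 := by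
          conv_lhs => rw [← hv2]
          rw [map_mul, map_pow, Complex.conj_ofReal]
        rw [h5]
        calc (‖w‖ : ℂ) * ((starRingEnd ℂ) v) ^ 2 * v ^ 2
            = (‖w‖ : ℂ) * (v * (starRingEnd ℂ) v) ^ 2 := by ring
          _ = (‖w‖ : ℂ) := by rw [hcv]; ring
      have hw5 : ‖w‖ = ‖a‖ * ‖b‖ := by rw [hw, norm_mul, RCLike.norm_conj]
      rw [← hw5, ← hw4, hw3, map_mul, Complex.conj_conj]
      ring
    have hsq : ‖a * v + b * (starRingEnd ℂ) v‖ ^ 2 = (‖a‖ + ‖b‖) ^ 2 := by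
      rw [← Complex.normSq_eq_norm_sq, Complex.normSq_add, hkey, Complex.ofReal_re,
        Complex.normSq_mul, Complex.normSq_mul, Complex.normSq_conj]
      simp only [Complex.normSq_eq_norm_sq, hv1]
      ring
    have h6 : ‖a‖ + ‖b‖ ≤ ‖a * v + b * (starRingEnd ℂ) v‖ := by
      apply le_of_eq
      have h7 : 0 ≤ ‖a‖ + ‖b‖ := by positivity
      exact (pow_left_inj₀ h7 (norm_nonneg _) (by norm_num)).1 hsq.symm
    rw [← ha, ← hb]
    calc ‖a‖ + ‖b‖ ≤ ‖a * v + b * (starRingEnd ℂ) v‖ := h6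
      _ = ‖fderiv ℝ f z v‖ := by rw [fderiv_eq_Dz, ha, hb]
      _ ≤ ‖fderiv ℝ f z‖ * ‖v‖ := ContinuousLinearMap.le_opNorm _ _
      _ = ‖fderiv ℝ f z‖ := by rw [hv1, mul_one]

end Pool.Agent.KK
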