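import Pool.Agent.W_bb4b37_h53.CalcD

/-!
# Elementary calculus of `Dx`, `Dy`, `DD`, `Dz`, `Dzb` (part E)
-/

set_option autoImplicit false

open Filter Topology Set MeasureTheory
open scoped ContDiff

namespace Pool.Agent.KK

variable {V : Type*} [NormedAddCommGroup V] [NormedSpace ℝ V]

/-- The norm of the derivative in terms of the partial derivatives. -/
theorem CalcE_norm_fderiv_le {f : ℂ → V} {z : ℂ} {K : ℝ}
    (hK : ∀ l : List Bool, l.length = 1 → ‖DD l f z‖ ≤ K) : ‖fderiv ℝ f z‖ ≤ 2 * K := by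
  have h1 : ‖Dx f z‖ ≤ K := hK [true] rfl
  have h2 : ‖Dy f z‖ ≤ K := hK [false] rfl
  have hK0 : 0 ≤ K := (norm_nonneg _).trans h1
  refine ContinuousLinearMap.opNorm_le_bound _ (by positivity) fun v => ?_
  rw [fderiv_eq]
  refine (norm_add_le _ _).trans ?_
  rw [norm_smul, norm_smul, Real.norm_eq_abs, Real.norm_eq_abs]
  have h3 : |v.re| * ‖Dx f z‖ ≤ ‖v‖ * K :=
    mul_le_mul (Complex.abs_re_le_norm v) h1 (norm_nonneg _) (norm_nonneg _)
  have h4 : |v.im| * ‖Dy f z‖ ≤ ‖v‖ * K :=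
    mul_le_mul (Complex.abs_im_le_norm v) h2 (norm_nonneg _) (norm_nonneg _)
  linarith

/-- Mean value inequality on a ball. -/
theorem mean_value {f : ℂ → V} {z₀ : ℂ} {r K : ℝ}
    (hf : ∀ z ∈ Metric.ball z₀ r, DifferentiableAt ℝ f z)
    (hK : ∀ z ∈ Metric.ball z₀ r, ∀ l : List Bool, l.length = 1 → ‖DD l f z‖ ≤ K)
    {y z : ℂ} (hy : y ∈ Metric.ball z₀ r) (hz : z ∈ Metric.ball z₀ r) :
    ‖f y - f z‖ ≤ 2 * K * ‖y - z‖ := by
  exact Convex.norm_image_sub_le_of_norm_fderiv_le (𝕜 := ℝ) hf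
    (fun x hx => CalcE_norm_fderiv_le (hK x hx)) (convex_ball z₀ r) hz hy

/-- Mean value inequality on `ℂ`. -/
theorem mean_value_univ {f : ℂ → V} {K : ℝ} (hf : Differentiable ℝ f)
    (hK : ∀ z, ∀ l : List Bool, l.length = 1 → ‖DD l f z‖ ≤ K) (y z : ℂ) :
    ‖f y - f z‖ ≤ 2 * K * ‖y - z‖ := by
  exact Convex.norm_image_sub_le_of_norm_fderiv_le (𝕜 := ℝ) (fun x _ => hf x)
    (fun x _ => CalcE_norm_fderiv_le (hK x)) convex_univ (mem_univ z) (mem_univ y)

/-- Second derivative test in one variable. -/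
theorem CalcE_deriv_deriv_nonpos {g : ℝ → ℝ} (hg : ContinuousAt g 0) (h : IsLocalMax g 0) :
    deriv (deriv g) 0 ≤ 0 := by
  by_contra hcon
  have h1 : 0 < deriv (deriv g) 0 := not_le.1 hcon
  have h2 : IsLocalMin g 0 := isLocalMin_of_deriv_deriv_pos h1 h.deriv_eq_zero hg
  have h3 : g =ᶠ[𝓝 0] fun _ => g 0 := by
    filter_upwards [h, h2] with t ht1 ht2
    exact le_antisymm ht1 ht2
  have h4 : deriv g =ᶠ[𝓝 0] fun _ => 0 := by
    filter_upwards [h3.eventually_nhds] with t ht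
    rw [Filter.EventuallyEq.deriv_eq ht, deriv_const]
  rw [h4.deriv_eq, deriv_const] at h1
  exact lt_irrefl 0 h1

theorem CalcE_differentiableAt {f : ℂ → ℝ} {z : ℂ} (hf : ContDiffAt ℝ 2 f z) :
    DifferentiableAt ℝ (Dx f) z ∧ DifferentiableAt ℝ (Dy f) z := by
  have h0 : DifferentiableAt ℝ (fderiv ℝ f) z :=
    (hf.fderiv_right (m := 1) (by norm_num)).differentiableAt (by norm_num)
  exact ⟨h0.clm_apply (differentiableAt_const _), h0.clm_apply (differentiableAt_const _)⟩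

/-- The second derivative in the direction `v` at a local maximum. -/
theorem CalcE_second {f : ℂ → ℝ} {z : ℂ} (hf : ContDiffAt ℝ 2 f z) (h : IsLocalMax f z)
    (v : ℂ) : v.re ^ 2 * Dx (Dx f) z + 2 * (v.re * v.im) * Dx (Dy f) z +
      v.im ^ 2 * Dy (Dy f) z ≤ 0 := by
  set L : ℝ → ℂ := fun t => z + (t : ℂ) * v with hL
  have hLd : ∀ t, HasDerivAt L v t := by
    intro t
    have h1 : HasDerivAt (fun t : ℝ => (t : ℂ)) 1 t := Complex.ofRealCLM.hasDerivAt
    have h2 := (h1.mul_const v).const_add z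
    rw [one_mul] at h2
    exact h2
  have hL0 : L 0 = z := by simp [hL]
  have hLc : ContinuousAt L 0 := (hLd 0).continuousAt
  have hLt : Tendsto L (𝓝 0) (𝓝 z) := by
    have h1 := hLc.tendsto
    rwa [hL0] at h1
  have hev : ∀ᶠ w in 𝓝 z, DifferentiableAt ℝ f w :=
    (hf.eventually (by simp)).mono fun w hw => hw.differentiableAt (by norm_num)
  have hfz : DifferentiableAt ℝ f z := hev.self_of_nhds
  have hgd : deriv (fun t => f (L t)) =ᶠ[𝓝 0]
      fun t => v.re * Dx f (L t) + v.im * Dy f (L t) := by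
    filter_upwards [hLt.eventually hev] with t ht
    have h1 : HasDerivAt (fun t => f (L t)) (fderiv ℝ f (L t) v) t :=
      ht.hasFDerivAt.comp_hasDerivAt t (hLd t)
    rw [h1.deriv, fderiv_eq]
    rfl
  obtain ⟨hx, hy⟩ := CalcE_differentiableAt hf
  have hxd : HasDerivAt (fun t => Dx f (L t)) (fderiv ℝ (Dx f) z v) 0 := by
    have h1 : HasFDerivAt (Dx f) (fderiv ℝ (Dx f) z) (L 0) := by
      rw [hL0]
      exact hx.hasFDerivAt
    exact h1.comp_hasDerivAt 0 (hLd 0)
  have hyd : HasDerivAt (fun t => Dy f (L t)) (fderiv ℝ (Dy f) z v) 0 := by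
    have h1 : HasFDerivAt (Dy f) (fderiv ℝ (Dy f) z) (L 0) := by
      rw [hL0]
      exact hy.hasFDerivAt
    exact h1.comp_hasDerivAt 0 (hLd 0)
  have hsec : deriv (deriv fun t => f (L t)) 0 =
      v.re * fderiv ℝ (Dx f) z v + v.im * fderiv ℝ (Dy f) z v := by
    rw [hgd.deriv_eq]
    exact ((hxd.const_mul v.re).add (hyd.const_mul v.im)).deriv
  have hcont : ContinuousAt (fun t => f (L t)) 0 := by
    have h1 : ContinuousAt f (L 0) := by
      rw [hL0]
      exact hfz.continuousAt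
    exact h1.comp hLc
  have hmax : IsLocalMax (fun t => f (L t)) 0 := by
    have h1 : ∀ᶠ t in 𝓝 (0 : ℝ), f (L t) ≤ f z := hLt.eventually h
    have h2 : f (L 0) = f z := by rw [hL0]
    filter_upwards [h1] with t ht
    rw [h2]
    exact ht
  have h3 := CalcE_deriv_deriv_nonpos hcont hmax
  rw [hsec, fderiv_eq, fderiv_eq, ← Dx_Dy_comm hf] at h3
  simp only [smul_eq_mul] at h3
  linarith

/-- At a local maximum of a `C²` function the gradient vanishes and the second derivatives are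
nonpositive: `Dx (Dx f) ≤ 0`, `Dy (Dy f) ≤ 0`, and the Hessian has nonnegative determinant. -/
theorem second_deriv_of_isLocalMax {f : ℂ → ℝ} {z : ℂ} (hf : ContDiffAt ℝ 2 f z)
    (h : IsLocalMax f z) :
    Dx f z = 0 ∧ Dy f z = 0 ∧
      Dx (Dx f) z ≤ 0 ∧
      Dy (Dy f) z ≤ 0 ∧
      (Dx (Dy f) z) ^ 2 ≤
        Dx (Dx f) z * Dy (Dy f) z := by
  have h0 : fderiv ℝ f z = 0 := h.fderiv_eq_zero
  refine ⟨?_, ?_, ?_, ?_, ?_⟩
  · unfold Dx
    rw [h0]
    rfl
  · unfold Dy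
    rw [h0]
    rfl
  · have h1 := CalcE_second hf h 1
    simp only [Complex.one_re, Complex.one_im] at h1
    linarith
  · have h1 := CalcE_second hf h Complex.I
    simp only [Complex.I_re, Complex.I_im] at h1
    linarith
  · have key : ∀ a b : ℝ, a ^ 2 * Dx (Dx f) z + 2 * (a * b) * Dx (Dy f) z +
        b ^ 2 * Dy (Dy f) z ≤ 0 := fun a b => CalcE_second hf h ⟨a, b⟩
    set P := Dx (Dx f) z with hP
    set R := Dx (Dy f) z with hR
    set Q := Dy (Dy f) z with hQ
    have hP0 : P ≤ 0 := by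
      have h1 := key 1 0
      linarith
    rcases hP0.lt_or_eq with hlt | heq
    · have h1 := key R (-P)
      have h2 : P * (P * Q - R ^ 2) ≤ 0 := by linarith
      by_contra hcon
      have h3 : P * Q - R ^ 2 < 0 := by linarith [not_le.1 hcon]
      have h4 : 0 < P * (P * Q - R ^ 2) := mul_pos_of_neg_of_neg hlt h3
      linarith
    · have h2 := key (-(Q - 1) * R / (2 * R ^ 2)) 1
      rw [heq, zero_mul]
      by_contra hcon
      have h3 : 0 < R ^ 2 := not_le.1 hcon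
      have h5 : 2 * (-(Q - 1) * R / (2 * R ^ 2) * 1) * R = -(Q - 1) := by
        have h6 : R ≠ 0 := by
          intro h7
          rw [h7] at h3
          norm_num at h3
        field_simp
      rw [h5, heq] at h2
      linarith

theorem CalcE_Dx_neg (f : ℂ → ℝ) : Dx (fun y => -f y) = fun y => -Dx f y := by
  funext z
  unfold Dx
  have h1 : fderiv ℝ (fun y => -f y) z = -fderiv ℝ f z := fderiv_neg
  rw [h1]
  rfl

theorem CalcE_Dy_neg (f : ℂ → ℝ) : Dy (fun y => -f y) = fun y => -Dy f y := by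
  funext z
  unfold Dy
  have h1 : fderiv ℝ (fun y => -f y) z = -fderiv ℝ f z := fderiv_neg
  rw [h1]
  rfl

theorem CalcE_le {a : ℝ} (ha : |a| < 1) {v q f : ℂ → ℝ} {M : ℝ} (hv : ContDiff ℝ 2 v)
    (hp : Per a v) (hq : ∀ z, 0 < q z) (hf : ∀ z, |f z| ≤ M * q z)
    (h : ∀ z, Lap v z - q z * v z = f z) (z : ℂ) : v z ≤ M := by
  obtain ⟨z₀, hz₀⟩ := per_exists_max ha hp hv.continuous
  have hmax : IsLocalMax v z₀ := Filter.Eventually.of_forall hz₀
  obtain ⟨-, -, h1, h2, -⟩ := second_deriv_of_isLocalMax hv.contDiffAt hmax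
  have h3 : Lap v z₀ ≤ 0 := add_nonpos h1 h2
  have h4 := h z₀
  have h5 := (abs_le.1 (hf z₀)).1
  have h6 : q z₀ * v z₀ ≤ q z₀ * M := by linarith
  exact (hz₀ z).trans (le_of_mul_le_mul_left h6 (hq z₀))

/-- Maximum principle, periodic version: if `Δ v - q v = f` with `q > 0` and `|f| ≤ M q` then
`|v| ≤ M`. -/
theorem max_principle {a : ℝ} (ha : |a| < 1) {v q f : ℂ → ℝ} {M : ℝ} (hv : ContDiff ℝ 2 v)
    (hp : Per a v) (hq : ∀ z, 0 < q z) (hf : ∀ z, |f z| ≤ M * q z)
    (h : ∀ z, Lap v z - q z * v z = f z) (z : ℂ) : |v z| ≤ M := by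
  rw [abs_le]
  refine ⟨?_, CalcE_le ha hv hp hq hf h z⟩
  have h1 : Lap (fun y => -v y) = fun y => -Lap v y := by
    funext y
    unfold Lap
    rw [CalcE_Dx_neg, CalcE_Dy_neg, CalcE_Dx_neg, CalcE_Dy_neg]
    ring
  have h2 := CalcE_le ha (v := fun y => -v y) (q := q) (f := fun y => -f y) (M := M) hv.neg
    (fun y w hw => by
      change -v (y + w) = -v y
      rw [hp y w hw]) hq
    (fun y => by
      rw [abs_neg]
      exact hf y)
    (fun y => by
      rw [h1]
      have h3 := h y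
      linarith) z
  linarith

end Pool.Agent.KK
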