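import Pool.Agent.W_bb4b37_h53.Defs

/-!
# The product of two periodic fat Cantor sets (part A)
-/

set_option autoImplicit false

open Filter Topology Set MeasureTheory Metric
open scoped ContDiff

namespace Pool.Agent.KK

/-- Length of the intervals of the `n`-th generation: `2^{-n} (1 - 2c + c 4^{-n})`, `c = 1/1000`. -/
noncomputable def ell (n : ℕ) : ℝ :=
  (1 / 2) ^ n * (1 - 2 * (1 / 1000) + (1 / 1000) * (1 / 4) ^ n)

/-- Shift to the right half: `ell n - ell (n+1) = ell (n+1) + gap (n+1)`. -/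
noncomputable def shf (n : ℕ) : ℝ := ell n - ell (n + 1)

/-- Gap between the two halves of an interval of generation `n`: `(3/4) c 8^{-n}`. -/
noncomputable def gap (n : ℕ) : ℝ := ell n - 2 * ell (n + 1)

/-- The point of the Cantor set (in `[0, ell 0]`) with the given address. -/
noncomputable def cpt (b : ℕ → Bool) : ℝ := ∑' n, if b n then shf n else 0

/-- The periodic fat Cantor set. -/
def K1 : Set ℝ := {x | ∃ (k : ℤ) (b : ℕ → Bool), x = (k : ℝ) + cpt b}

/-- The product set. -/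
def Lam : Set ℂ := {z | z.re ∈ K1 ∧ z.im ∈ K1}

theorem gap_eq (n : ℕ) : gap n = (3 / 4) * (1 / 1000) * (1 / 8) ^ n := by
  unfold gap ell
  have h1 : ((1 : ℝ) / 8) ^ n = (1 / 2) ^ n * (1 / 4) ^ n := by
    rw [← mul_pow]; norm_num
  rw [h1]
  ring

/-! ### Auxiliary facts on the generations -/

theorem CantorA_gap_pos (n : ℕ) : 0 < gap n := by
  rw [gap_eq]; positivity

theorem CantorA_ell_pos (n : ℕ) : 0 < ell n := by
  unfold ell
  have h1 : (0 : ℝ) < (1 / 2) ^ n := by positivity
  have h2 : (0 : ℝ) < (1 / 4) ^ n := by positivity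
  nlinarith

theorem CantorA_ell_le (n : ℕ) : ell n ≤ (1 / 2) ^ n := by
  unfold ell
  have h1 : (0 : ℝ) < (1 / 2) ^ n := by positivity
  have h2 : ((1 : ℝ) / 4) ^ n ≤ 1 := pow_le_one₀ (by norm_num) (by norm_num)
  nlinarith

theorem CantorA_le_ell (n : ℕ) : 998 / 1000 * (1 / 2) ^ n ≤ ell n := by
  unfold ell
  have h1 : (0 : ℝ) < (1 / 2) ^ n := by positivity
  have h2 : (0 : ℝ) < (1 / 4) ^ n := by positivity
  nlinarith

theorem CantorA_ell_zero : ell 0 = 999 / 1000 := by
  unfold ell; norm_num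

theorem CantorA_ell_succ (n : ℕ) : ell n = 2 * ell (n + 1) + gap n := by
  unfold gap; ring

theorem CantorA_shf (n : ℕ) : shf n = ell (n + 1) + gap n := by
  unfold gap shf; ring

theorem CantorA_shf_pos (n : ℕ) : 0 < shf n := by
  rw [CantorA_shf]
  exact add_pos (CantorA_ell_pos _) (CantorA_gap_pos _)

theorem CantorA_ell_anti : Antitone ell := by
  refine antitone_nat_of_succ_le fun n => ?_
  have h1 := CantorA_ell_succ n
  have h2 := CantorA_ell_pos (n + 1)
  have h3 := CantorA_gap_pos n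
  linarith

theorem CantorA_gap_anti : Antitone gap := by
  refine antitone_nat_of_succ_le fun n => ?_
  rw [gap_eq, gap_eq, pow_succ]
  have h1 : (0 : ℝ) < (1 / 8) ^ n := by positivity
  linarith

theorem CantorA_ell_tendsto : Tendsto ell atTop (𝓝 0) := by
  refine squeeze_zero (fun n => (CantorA_ell_pos n).le) CantorA_ell_le ?_
  exact tendsto_pow_atTop_nhds_zero_of_lt_one (by norm_num) (by norm_num)

theorem CantorA_hasSum_shf (n : ℕ) : HasSum (fun k => shf (n + k)) (ell n) := by
  rw [hasSum_iff_tendsto_nat_of_nonneg (fun k => (CantorA_shf_pos _).le)]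
  have h1 : ∀ N, ∑ k ∈ Finset.range N, shf (n + k) = ell n - ell (n + N) := by
    intro N
    induction N with
    | zero => simp
    | succ N ih =>
      rw [Finset.sum_range_succ, ih]
      unfold shf
      rw [← add_assoc]
      ring
  simp only [h1]
  have h2 : Tendsto (fun N => ell (n + N)) atTop (𝓝 0) := by
    have h3 := (tendsto_add_atTop_iff_nat n).2 CantorA_ell_tendsto
    simpa only [add_comm] using h3
  simpa using h2.const_sub (ell n)

/-- the tail of the sum defining `cpt` -/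
noncomputable def CantorA_T (n : ℕ) (b : ℕ → Bool) : ℝ := ∑' k, if b (n + k) then shf (n + k) else 0

theorem CantorA_summable (n : ℕ) (b : ℕ → Bool) :
    Summable fun k => if b (n + k) then shf (n + k) else 0 := by
  refine Summable.of_nonneg_of_le (fun k => ?_) (fun k => ?_) (CantorA_hasSum_shf n).summable
  · split_ifs
    · exact (CantorA_shf_pos _).le
    · exact le_rfl
  · split_ifs
    · exact le_rfl
    · exact (CantorA_shf_pos _).le

theorem CantorA_T_zero (b : ℕ → Bool) : CantorA_T 0 b = cpt b := by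
  unfold CantorA_T cpt
  simp only [zero_add]

theorem CantorA_T_succ (n : ℕ) (b : ℕ → Bool) :
    CantorA_T n b = (if b n then shf n else 0) + CantorA_T (n + 1) b := by
  unfold CantorA_T
  rw [(CantorA_summable n b).tsum_eq_zero_add]
  simp only [add_zero, add_assoc, add_comm 1]

theorem CantorA_T_nonneg (n : ℕ) (b : ℕ → Bool) : 0 ≤ CantorA_T n b := by
  refine tsum_nonneg fun k => ?_
  split_ifs
  · exact (CantorA_shf_pos _).le
  · exact le_rfl

theorem CantorA_T_le (n : ℕ) (b : ℕ → Bool) : CantorA_T n b ≤ ell n := by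
  rw [← (CantorA_hasSum_shf n).tsum_eq]
  refine (CantorA_summable n b).tsum_le_tsum (fun k => ?_) (CantorA_hasSum_shf n).summable
  split_ifs
  · exact le_rfl
  · exact (CantorA_shf_pos _).le

/-- the Cantor set of generation `n` (in `[0, ell n]`) -/
def CantorA_C (n : ℕ) : Set ℝ := Set.range (CantorA_T n)

theorem CantorA_C_sub {n : ℕ} {x : ℝ} (hx : x ∈ CantorA_C n) : 0 ≤ x ∧ x ≤ ell n := by
  obtain ⟨b, rfl⟩ := hx
  exact ⟨CantorA_T_nonneg n b, CantorA_T_le n b⟩

theorem CantorA_C_zero_mem (n : ℕ) : (0 : ℝ) ∈ CantorA_C n := by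
  refine ⟨fun _ => false, ?_⟩
  simp [CantorA_T]

theorem CantorA_C_ell_mem (n : ℕ) : ell n ∈ CantorA_C n := by
  refine ⟨fun _ => true, ?_⟩
  simpa [CantorA_T] using (CantorA_hasSum_shf n).tsum_eq

theorem CantorA_T_congr {n : ℕ} {b b' : ℕ → Bool} (h : ∀ k, n ≤ k → b k = b' k) :
    CantorA_T n b = CantorA_T n b' := by
  unfold CantorA_T
  refine tsum_congr fun k => ?_
  rw [h (n + k) (Nat.le_add_right _ _)]

theorem CantorA_C_cases {n : ℕ} {x : ℝ} :
    x ∈ CantorA_C n ↔ x ∈ CantorA_C (n + 1) ∨ x - shf n ∈ CantorA_C (n + 1) := by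
  constructor
  · rintro ⟨b, rfl⟩
    rw [CantorA_T_succ]
    by_cases hb : b n
    · right
      refine ⟨b, ?_⟩
      rw [if_pos hb]
      ring
    · left
      refine ⟨b, ?_⟩
      rw [if_neg hb, zero_add]
  · rintro (⟨b, rfl⟩ | ⟨b, hb⟩)
    · refine ⟨Function.update b n false, ?_⟩
      rw [CantorA_T_succ, Function.update_self, if_neg (by simp), zero_add]
      exact CantorA_T_congr fun k hk => Function.update_of_ne (by omega) _ _
    · refine ⟨Function.update b n true, ?_⟩
      rw [CantorA_T_succ, Function.update_self, if_pos rfl]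
      have h1 : CantorA_T (n + 1) (Function.update b n true) = CantorA_T (n + 1) b :=
        CantorA_T_congr fun k hk => Function.update_of_ne (by omega) _ _
      rw [h1, hb]
      ring

theorem CantorA_C_left {n : ℕ} {x : ℝ} (hx : x ∈ CantorA_C (n + 1)) : x ∈ CantorA_C n :=
  CantorA_C_cases.2 (Or.inl hx)

theorem CantorA_C_right {n : ℕ} {x : ℝ} (hx : x ∈ CantorA_C (n + 1)) : shf n + x ∈ CantorA_C n :=
  CantorA_C_cases.2 (Or.inr (by rwa [add_sub_cancel_left]))

theorem CantorA_mem_K1 {x : ℝ} : x ∈ K1 ↔ ∃ k : ℤ, x - k ∈ CantorA_C 0 := by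
  constructor
  · rintro ⟨k, b, rfl⟩
    refine ⟨k, b, ?_⟩
    rw [CantorA_T_zero]; ring
  · rintro ⟨k, b, hb⟩
    refine ⟨k, b, ?_⟩
    rw [← CantorA_T_zero, hb]; ring

theorem CantorA_C_K1 {x : ℝ} (hx : x ∈ CantorA_C 0) : x ∈ K1 :=
  CantorA_mem_K1.2 ⟨0, by simpa using hx⟩

theorem CantorA_K1_add {x : ℝ} (hx : x ∈ K1) (k : ℤ) : x + k ∈ K1 := by
  obtain ⟨l, hl⟩ := CantorA_mem_K1.1 hx
  refine CantorA_mem_K1.2 ⟨l + k, ?_⟩
  push_cast
  have h1 : x + (k : ℝ) - ((l : ℝ) + k) = x - l := by ring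
  rwa [h1]

theorem CantorA_continuous_T (n : ℕ) : Continuous (CantorA_T n) := by
  refine continuous_tsum (u := fun k => shf (n + k)) (fun k => ?_) (CantorA_hasSum_shf n).summable
    (fun k b => ?_)
  · have h1 : Continuous (fun c : Bool => if c then shf (n + k) else (0 : ℝ)) :=
      continuous_of_discreteTopology
    exact h1.comp (continuous_apply (n + k))
  · split_ifs
    · rw [Real.norm_of_nonneg (CantorA_shf_pos _).le]
    · rw [norm_zero]; exact (CantorA_shf_pos _).le

theorem CantorA_isCompact_C (n : ℕ) : IsCompact (CantorA_C n) :=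
  isCompact_range (CantorA_continuous_T n)

/-- A point of `(0, ell m)` outside of the Cantor set near a given point. -/
theorem CantorA_near (n : ℕ) : ∀ m : ℕ, ∀ x ∈ CantorA_C m,
    ∃ y, 0 < y ∧ y < ell m ∧ y ∉ CantorA_C m ∧ |x - y| ≤ ell (m + n) := by
  induction n with
  | zero =>
    intro m x hx
    have h1 := CantorA_ell_pos (m + 1)
    have h2 := CantorA_gap_pos m
    have h3 := CantorA_ell_succ m
    have h4 := CantorA_shf m
    obtain ⟨h5, h6⟩ := CantorA_C_sub hx
    refine ⟨ell (m + 1) + gap m / 2, by linarith, by linarith, fun hy => ?_, ?_⟩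
    · rcases CantorA_C_cases.1 hy with h | h
      · have := (CantorA_C_sub h).2
        linarith
      · have := (CantorA_C_sub h).1
        linarith
    · rw [add_zero, abs_le]
      constructor <;> linarith
  | succ n ih =>
    intro m x hx
    have h1 := CantorA_ell_pos (m + 1)
    have h2 := CantorA_gap_pos m
    have h3 := CantorA_ell_succ m
    have h4 := CantorA_shf m
    have h0 : m + (n + 1) = m + 1 + n := by ring
    rcases CantorA_C_cases.1 hx with h | h
    · obtain ⟨y, hy0, hy1, hy2, hy3⟩ := ih (m + 1) x h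
      refine ⟨y, hy0, by linarith, fun hy => ?_, by rw [h0]; exact hy3⟩
      rcases CantorA_C_cases.1 hy with h' | h'
      · exact hy2 h'
      · have := (CantorA_C_sub h').1
        linarith
    · obtain ⟨y, hy0, hy1, hy2, hy3⟩ := ih (m + 1) _ h
      refine ⟨shf m + y, by linarith, by linarith, fun hy => ?_, ?_⟩
      · rcases CantorA_C_cases.1 hy with h' | h'
        · have := (CantorA_C_sub h').2
          linarith
        · rw [add_sub_cancel_left] at h'
          exact hy2 h'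
      · rw [h0]
        have h5 : x - (shf m + y) = x - shf m - y := by ring
        rwa [h5]

open scoped Pointwise in
theorem isClosed_K1 : IsClosed K1 := by
  have h1 : K1 = CantorA_C 0 + Set.range (fun k : ℤ => (k : ℝ)) := by
    ext x
    rw [CantorA_mem_K1, Set.mem_add]
    constructor
    · rintro ⟨k, hk⟩
      exact ⟨_, hk, _, ⟨k, rfl⟩, by ring⟩
    · rintro ⟨u, hu, _, ⟨k, rfl⟩, rfl⟩
      exact ⟨k, by simpa using hu⟩
  rw [h1]
  exact Int.isClosedEmbedding_coe_real.isClosed_range.add_left_of_isCompact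
    (CantorA_isCompact_C 0)

theorem isClosed_Lam : IsClosed Lam :=
  (isClosed_K1.preimage Complex.continuous_re).inter (isClosed_K1.preimage Complex.continuous_im)

theorem zero_mem_Lam : (0 : ℂ) ∈ Lam :=
  ⟨CantorA_C_K1 (CantorA_C_zero_mem 0), CantorA_C_K1 (CantorA_C_zero_mem 0)⟩

/-- Periodicity. -/
theorem perSet_Lam : PerSet 0 Lam := by
  rintro z ⟨hz1, hz2⟩ v ⟨m, n, rfl⟩
  have h1 : (z + ((m : ℂ) * (1 + ((0 : ℝ) : ℂ)) + (n : ℂ) * ((1 - ((0 : ℝ) : ℂ)) * Complex.I))).re =
      z.re + m := by simp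
  have h2 : (z + ((m : ℂ) * (1 + ((0 : ℝ) : ℂ)) + (n : ℂ) * ((1 - ((0 : ℝ) : ℂ)) * Complex.I))).im =
      z.im + n := by simp
  refine ⟨?_, ?_⟩
  · rw [h1]; exact CantorA_K1_add hz1 m
  · rw [h2]; exact CantorA_K1_add hz2 n

/-- The complement of `K1` is dense; in particular `K1` contains no interval. -/
theorem dense_compl_K1 : Dense K1ᶜ := by
  rw [Metric.dense_iff]
  intro x r hr
  by_cases hx : x ∈ K1
  · obtain ⟨k, hk⟩ := CantorA_mem_K1.1 hx
    obtain ⟨n, hn⟩ := (CantorA_ell_tendsto.eventually (gt_mem_nhds hr)).exists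
    obtain ⟨y, hy0, hy1, hy2, hy3⟩ := CantorA_near n 0 _ hk
    rw [zero_add] at hy3
    refine ⟨y + k, ?_, fun hyK => ?_⟩
    · rw [Metric.mem_ball, Real.dist_eq, abs_sub_comm]
      have h1 : x - (y + k) = x - k - y := by ring
      rw [h1]
      exact hy3.trans_lt hn
    · obtain ⟨l, hl⟩ := CantorA_mem_K1.1 hyK
      have h1 := CantorA_C_sub hl
      have h2 := CantorA_ell_zero
      have h3 : ((k - l : ℤ) : ℝ) < 1 := by push_cast; linarith
      have h4 : (-1 : ℝ) < ((k - l : ℤ) : ℝ) := by push_cast; linarith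
      have h5 : k - l < 1 := by exact_mod_cast h3
      have h6 : -1 < k - l := by exact_mod_cast h4
      have h7 : k = l := by omega
      rw [h7, add_sub_cancel_right] at hl
      exact hy2 hl
  · exact ⟨x, Metric.mem_ball_self hr, hx⟩

theorem CantorA_K1_subsingleton {t : Set ℝ} (ht : t ⊆ K1) (hc : IsPreconnected t) :
    t.Subsingleton := by
  by_contra hcon
  rw [Set.not_subsingleton_iff] at hcon
  obtain ⟨x, hx, y, hy, hxy⟩ := hcon
  wlog h : x < y generalizing x y
  · exact this y hy x hx hxy.symm (lt_of_le_of_ne (not_lt.1 h) hxy.symm)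
  have hord : Set.Icc x y ⊆ t := hc.Icc_subset hx hy
  obtain ⟨z, hz1, hz2⟩ := dense_compl_K1.inter_open_nonempty (Set.Ioo x y) isOpen_Ioo
    (Set.nonempty_Ioo.2 h)
  exact hz2 (ht (hord (Set.Ioo_subset_Icc_self hz1)))

/-- `Lam` is totally disconnected. -/
theorem totallyDisconnected_Lam : IsTotallyDisconnected Lam := by
  intro t ht hc z hz w hw
  have h1 := CantorA_K1_subsingleton (t := Complex.re '' t) (by
    rintro _ ⟨z, hz, rfl⟩; exact (ht hz).1) (hc.image _ Complex.continuous_re.continuousOn)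
  have h2 := CantorA_K1_subsingleton (t := Complex.im '' t) (by
    rintro _ ⟨z, hz, rfl⟩; exact (ht hz).2) (hc.image _ Complex.continuous_im.continuousOn)
  exact Complex.ext (h1 ⟨z, hz, rfl⟩ ⟨w, hw, rfl⟩) (h2 ⟨z, hz, rfl⟩ ⟨w, hw, rfl⟩)

/-- The complement of `Lam` is connected: it is the union of the vertical lines over `K1ᶜ` and the
horizontal lines over `K1ᶜ`. -/
theorem isConnected_compl_Lam : IsConnected Lamᶜ := by
  obtain ⟨x₀, hx₀⟩ := dense_compl_K1.nonempty
  have hv : ∀ x : ℝ, IsPreconnected {z : ℂ | z.re = x} := fun x =>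
    (convex_hyperplane (𝕜 := ℝ) (E := ℂ) (f := Complex.re)
      Complex.reLm.isLinear x).isPreconnected
  have hh : ∀ x : ℝ, IsPreconnected {z : ℂ | z.im = x} := fun x =>
    (convex_hyperplane (𝕜 := ℝ) (E := ℂ) (f := Complex.im)
      Complex.imLm.isLinear x).isPreconnected
  have hvs : ∀ x ∉ K1, {z : ℂ | z.re = x} ⊆ Lamᶜ := by
    intro x hx z hz hzL
    apply hx
    rw [← show z.re = x from hz]
    exact hzL.1
  have hhs : ∀ x ∉ K1, {z : ℂ | z.im = x} ⊆ Lamᶜ := by
    intro x hx z hz hzL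
    apply hx
    rw [← show z.im = x from hz]
    exact hzL.2
  refine ⟨⟨⟨x₀, x₀⟩, fun h => hx₀ h.1⟩, ?_⟩
  refine isPreconnected_of_forall (⟨x₀, x₀⟩ : ℂ) fun z hz => ?_
  by_cases h1 : z.re ∈ K1
  · have h2 : z.im ∉ K1 := fun h => hz ⟨h1, h⟩
    refine ⟨{w : ℂ | w.re = x₀} ∪ {w : ℂ | w.im = z.im}, union_subset (hvs x₀ hx₀) (hhs _ h2),
      Or.inl rfl, Or.inr rfl, ?_⟩
    exact IsPreconnected.union ⟨x₀, z.im⟩ rfl rfl (hv _) (hh _)
  · refine ⟨{w : ℂ | w.re = z.re} ∪ {w : ℂ | w.im = x₀}, union_subset (hvs _ h1) (hhs _ hx₀),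
      Or.inr rfl, Or.inl rfl, ?_⟩
    exact IsPreconnected.union ⟨z.re, x₀⟩ rfl rfl (hv _) (hh _)

end Pool.Agent.KK
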