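import Pool.Agent.W_bb4b37_h53.CantorA

/-!
# The product of two periodic fat Cantor sets (part B)
-/

set_option autoImplicit false

open Filter Topology Set MeasureTheory Metric
open scoped ContDiff

namespace Pool.Agent.KK

/-- Near every point of `C m` there is another one at distance between `ell (m+n) / 2` and
`ell (m+n)`. -/
theorem CantorB_two (n : ℕ) : ∀ m : ℕ, ∀ x ∈ CantorA_C m,
    ∃ y ∈ CantorA_C m, ell (m + n) / 2 ≤ |y - x| ∧ |y - x| ≤ ell (m + n) := by
  induction n with
  | zero =>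
    intro m x hx
    obtain ⟨h1, h2⟩ := CantorA_C_sub hx
    rw [add_zero]
    rcases le_total (ell m / 2) x with h | h
    · refine ⟨0, CantorA_C_zero_mem m, ?_⟩
      rw [zero_sub, abs_neg, abs_of_nonneg h1]
      exact ⟨h, h2⟩
    · refine ⟨ell m, CantorA_C_ell_mem m, ?_⟩
      rw [abs_of_nonneg (by linarith)]
      constructor <;> linarith
  | succ n ih =>
    intro m x hx
    have h0 : m + (n + 1) = m + 1 + n := by ring
    rw [h0]
    rcases CantorA_C_cases.1 hx with h | h
    · obtain ⟨y, hy, h1⟩ := ih (m + 1) x h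
      exact ⟨y, CantorA_C_left hy, h1⟩
    · obtain ⟨y, hy, h1⟩ := ih (m + 1) _ h
      refine ⟨shf m + y, CantorA_C_right hy, ?_⟩
      have h2 : shf m + y - x = y - (x - shf m) := by ring
      rw [h2]
      exact h1

theorem CantorB_one {x : ℝ} (hx : x ∈ K1) {t : ℝ} (ht : 0 < t) :
    ∃ y ∈ K1, t / 10 ≤ |y - x| ∧ |y - x| ≤ t := by
  rcases le_total 1 t with h1 | h1
  · refine ⟨x + (⌊t⌋ : ℤ), CantorA_K1_add hx _, ?_⟩
    have h2 : (⌊t⌋ : ℝ) ≤ t := Int.floor_le t
    have h3 : t < ⌊t⌋ + 1 := Int.lt_floor_add_one t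
    have h4 : (1 : ℝ) ≤ ⌊t⌋ := by
      have h5 : (1 : ℤ) ≤ ⌊t⌋ := Int.le_floor.2 (by simpa using h1)
      exact_mod_cast h5
    rw [add_sub_cancel_left, abs_of_nonneg (by linarith)]
    constructor <;> linarith
  · have hex : ∃ n, ell n ≤ t :=
      ((CantorA_ell_tendsto.eventually (gt_mem_nhds ht)).exists).imp fun n hn => hn.le
    classical
    have hn := Nat.find_spec hex
    set n := Nat.find hex with hndef
    have hlt : t ≤ 4 * ell n := by
      rcases Nat.eq_zero_or_pos n with h2 | h2
      · rw [h2, CantorA_ell_zero]; linarith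
      · have h3 : ¬ ell (n - 1) ≤ t := Nat.find_min hex (by omega)
        push Not at h3
        have h4 := CantorA_ell_succ (n - 1)
        have h5 : n - 1 + 1 = n := by omega
        rw [h5] at h4
        have h6 := CantorA_le_ell n
        have h7 : gap (n - 1) ≤ (1 / 2) ^ n := by
          rw [gap_eq]
          have h8 : ((1 : ℝ) / 8) ^ (n - 1) ≤ (1 / 2) ^ (n - 1) :=
            pow_le_pow_left₀ (by norm_num) (by norm_num) _
          have h9 : ((1 : ℝ) / 2) ^ (n - 1) = 2 * (1 / 2) ^ n := by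
            conv_rhs => rw [← h5, pow_succ]
            ring
          have h10 : (0 : ℝ) < (1 / 2) ^ n := by positivity
          rw [h9] at h8
          nlinarith
        have h8 : (0 : ℝ) < (1 / 2) ^ n := by positivity
        linarith
    obtain ⟨k, hk⟩ := CantorA_mem_K1.1 hx
    obtain ⟨y, hy, h2, h3⟩ := CantorB_two n 0 _ hk
    rw [zero_add] at h2 h3
    refine ⟨y + k, CantorA_mem_K1.2 ⟨k, by simpa using hy⟩, ?_⟩
    have h4 : y + k - x = y - (x - k) := by ring
    rw [h4]
    constructor <;> linarith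

/-- Uniform perfectness. For `t ≤ 1` choose `n` with `ell n ≤ t < 3 ell n` and take one of the two
end points (both belong to `K1`) of the interval of generation `n` containing the coordinate `x`,
the one at distance `≥ ell n / 2`; for `t > 1` add a multiple of the unit vector. -/
theorem up_Lam : UP 10 Lam := by
  rintro z ⟨hz1, hz2⟩ t ht
  obtain ⟨y, hy, h1, h2⟩ := CantorB_one hz1 ht
  refine ⟨⟨y, z.im⟩, ⟨hy, hz2⟩, ?_⟩
  have h3 : (⟨y, z.im⟩ : ℂ) - z = ((y - z.re : ℝ) : ℂ) := by
    apply Complex.ext <;> simp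
  rw [h3, Complex.norm_real, Real.norm_eq_abs]
  exact ⟨h1, h2⟩

end Pool.Agent.KK
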