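import Pool.Agent.W_bb4b37_h53.CantorA

/-!
# The product of two periodic fat Cantor sets (part C)
-/

set_option autoImplicit false

open Filter Topology Set MeasureTheory Metric
open scoped ContDiff

namespace Pool.Agent.KK

/-- the union of the intervals of generation `m + n` inside `[0, ell m]` -/
noncomputable def CantorC_E : ℕ → ℕ → Set ℝ
  | m, 0 => Set.Icc 0 (ell m)
  | m, n + 1 => CantorC_E (m + 1) n ∪ (fun x => x - shf m) ⁻¹' CantorC_E (m + 1) n

theorem CantorC_E_sub (n : ℕ) : ∀ m, CantorC_E m n ⊆ Set.Icc 0 (ell m) := by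
  induction n with
  | zero => intro m; exact subset_rfl
  | succ n ih =>
    intro m x hx
    have h1 := CantorA_ell_pos (m + 1)
    have h2 := CantorA_gap_pos m
    have h3 := CantorA_ell_succ m
    have h4 := CantorA_shf m
    rcases hx with h | h
    · have h5 := ih (m + 1) h
      exact ⟨h5.1, by linarith [h5.2]⟩
    · have h5 := ih (m + 1) h
      simp only [Set.mem_Icc] at h5
      exact ⟨by linarith [h5.1], by linarith [h5.2]⟩

theorem CantorC_E_meas (n : ℕ) : ∀ m, MeasurableSet (CantorC_E m n) := by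
  induction n with
  | zero => intro m; exact measurableSet_Icc
  | succ n ih =>
    intro m
    exact (ih (m + 1)).union ((measurable_id.sub_const _) (ih (m + 1)))

theorem CantorC_E_anti (n : ℕ) : ∀ m, CantorC_E m (n + 1) ⊆ CantorC_E m n := by
  induction n with
  | zero => intro m; exact CantorC_E_sub 1 m
  | succ n ih =>
    intro m
    exact union_subset_union (ih (m + 1)) (preimage_mono (ih (m + 1)))

theorem CantorC_E_vol (n : ℕ) : ∀ m, volume (CantorC_E m n) = ENNReal.ofReal (2 ^ n * ell (m + n)) := by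
  induction n with
  | zero =>
    intro m
    show volume (Set.Icc 0 (ell m)) = _
    rw [Real.volume_Icc]
    simp
  | succ n ih =>
    intro m
    have h1 := CantorA_ell_pos (m + 1)
    have h2 := CantorA_gap_pos m
    have h4 := CantorA_shf m
    have hd : Disjoint (CantorC_E (m + 1) n) ((fun x => x - shf m) ⁻¹' CantorC_E (m + 1) n) := by
      rw [Set.disjoint_left]
      intro x hx hx'
      have h5 := CantorC_E_sub n (m + 1) hx
      have h6 := CantorC_E_sub n (m + 1) hx'
      simp only [Set.mem_Icc] at h5 h6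
      linarith [h5.2, h6.1]
    have hpre : volume ((fun x => x - shf m) ⁻¹' CantorC_E (m + 1) n) =
        volume (CantorC_E (m + 1) n) := by
      have h5 := measure_preimage_add_right (volume : Measure ℝ) (-shf m) (CantorC_E (m + 1) n)
      simpa only [sub_eq_add_neg] using h5
    show volume (CantorC_E (m + 1) n ∪ (fun x => x - shf m) ⁻¹' CantorC_E (m + 1) n) = _
    rw [measure_union hd ((measurable_id.sub_const _) (CantorC_E_meas n (m + 1))), hpre, ih (m + 1),
      ← ENNReal.ofReal_add (by have := CantorA_ell_pos (m + 1 + n); positivity)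
        (by have := CantorA_ell_pos (m + 1 + n); positivity)]
    congr 1
    have h6 : m + (n + 1) = m + 1 + n := by ring
    rw [h6, pow_succ]
    ring

/-- points of `E m n` are near `C m` -/
theorem CantorC_E_near (n : ℕ) : ∀ m, ∀ x ∈ CantorC_E m n, ∃ y ∈ CantorA_C m, |x - y| ≤ ell (m + n) := by
  induction n with
  | zero =>
    intro m x hx
    refine ⟨0, CantorA_C_zero_mem m, ?_⟩
    have hx' : 0 ≤ x ∧ x ≤ ell m := hx
    rw [sub_zero, abs_of_nonneg hx'.1]
    exact hx'.2
  | succ n ih =>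
    intro m x hx
    have h6 : m + (n + 1) = m + 1 + n := by ring
    rw [h6]
    rcases hx with h | h
    · obtain ⟨y, hy, h1⟩ := ih (m + 1) x h
      exact ⟨y, CantorA_C_left hy, h1⟩
    · obtain ⟨y, hy, h1⟩ := ih (m + 1) (x - shf m) h
      refine ⟨shf m + y, CantorA_C_right hy, ?_⟩
      have h2 : x - (shf m + y) = x - shf m - y := by ring
      rw [h2]
      exact h1

theorem CantorC_vol : ENNReal.ofReal (998 / 1000) ≤ volume (CantorA_C 0) := by
  have hsub : (⋂ n, CantorC_E 0 n) ⊆ CantorA_C 0 := by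
    intro x hx
    rw [Set.mem_iInter] at hx
    rw [← (CantorA_isCompact_C 0).isClosed.closure_eq, Metric.mem_closure_iff]
    intro ε hε
    obtain ⟨n, hn⟩ := (CantorA_ell_tendsto.eventually (gt_mem_nhds hε)).exists
    obtain ⟨y, hy, h1⟩ := CantorC_E_near n 0 x (hx n)
    rw [zero_add] at h1
    exact ⟨y, hy, by rw [Real.dist_eq]; exact h1.trans_lt hn⟩
  have hanti : Antitone (CantorC_E 0) := antitone_nat_of_succ_le fun n => CantorC_E_anti n 0
  have ht : Tendsto (fun n => volume (CantorC_E 0 n)) atTop (𝓝 (volume (⋂ n, CantorC_E 0 n))) :=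
    tendsto_measure_iInter_atTop (fun n => (CantorC_E_meas n 0).nullMeasurableSet) hanti
      ⟨0, by rw [CantorC_E_vol]; exact ENNReal.ofReal_ne_top⟩
  refine le_trans (ge_of_tendsto' ht fun n => ?_) (measure_mono hsub)
  rw [CantorC_E_vol, zero_add]
  apply ENNReal.ofReal_le_ofReal
  have h1 := CantorA_le_ell n
  have h2 : (2 : ℝ) ^ n * (1 / 2) ^ n = 1 := by
    rw [← mul_pow]; norm_num
  have h3 : (0 : ℝ) < 2 ^ n := by positivity
  calc (998 / 1000 : ℝ) = 2 ^ n * (998 / 1000 * (1 / 2) ^ n) := by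
        rw [mul_left_comm, h2, mul_one]
    _ ≤ 2 ^ n * ell n := mul_le_mul_of_nonneg_left h1 h3.le

/-- The area of `Lam` in the unit cell is at least `1/2`. -/
theorem volume_Lam : (1 / 2 : ℝ) ≤
    (volume (Lam ∩ {z : ℂ | z.re ∈ Ico (0 : ℝ) 1 ∧ z.im ∈ Ico (0 : ℝ) 1})).toReal := by
  have hpre : ∀ s : Set ℝ, MeasurableSet s →
      volume {z : ℂ | z.re ∈ s ∧ z.im ∈ s} = volume s * volume s := by
    intro s hs
    have h1 : {z : ℂ | z.re ∈ s ∧ z.im ∈ s} = Complex.measurableEquivRealProd ⁻¹' (s ×ˢ s) := by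
      ext z
      simp [Complex.measurableEquivRealProd]
    rw [h1, Complex.volume_preserving_equiv_real_prod.measure_preimage
      (hs.prod hs).nullMeasurableSet, Measure.volume_eq_prod, Measure.prod_prod]
  have hCm : MeasurableSet (CantorA_C 0) := (CantorA_isCompact_C 0).isClosed.measurableSet
  have hsub : {z : ℂ | z.re ∈ CantorA_C 0 ∧ z.im ∈ CantorA_C 0} ⊆
      Lam ∩ {z : ℂ | z.re ∈ Ico (0 : ℝ) 1 ∧ z.im ∈ Ico (0 : ℝ) 1} := by
    rintro z ⟨h1, h2⟩
    have h3 := CantorA_C_sub h1
    have h4 := CantorA_C_sub h2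
    have h5 := CantorA_ell_zero
    exact ⟨⟨CantorA_C_K1 h1, CantorA_C_K1 h2⟩, ⟨h3.1, by linarith⟩, ⟨h4.1, by linarith⟩⟩
  have hlow : ENNReal.ofReal (1 / 2) ≤
      volume (Lam ∩ {z : ℂ | z.re ∈ Ico (0 : ℝ) 1 ∧ z.im ∈ Ico (0 : ℝ) 1}) := by
    refine le_trans ?_ (measure_mono hsub)
    rw [hpre _ hCm]
    refine le_trans ?_ (mul_le_mul' CantorC_vol CantorC_vol)
    rw [← ENNReal.ofReal_mul (by norm_num)]
    exact ENNReal.ofReal_le_ofReal (by norm_num)
  have hfin : volume (Lam ∩ {z : ℂ | z.re ∈ Ico (0 : ℝ) 1 ∧ z.im ∈ Ico (0 : ℝ) 1}) ≠ ⊤ := by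
    refine ne_top_of_le_ne_top ?_ (measure_mono inter_subset_right)
    rw [hpre _ measurableSet_Ico, Real.volume_Ico]
    exact ENNReal.mul_ne_top ENNReal.ofReal_ne_top ENNReal.ofReal_ne_top
  exact (ENNReal.ofReal_le_iff_le_toReal hfin).1 hlow

end Pool.Agent.KK
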