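import Pool.Agent.W_bb4b37_h53.CantorA

/-!
# The product of two periodic fat Cantor sets (part D)
-/

set_option autoImplicit false

open Filter Topology Set MeasureTheory Metric
open scoped ContDiff

namespace Pool.Agent.KK

/-- A property of the points of `C m` which does not change at steps of length at most `g`,
`g ≥ gap m`, is constant. -/
theorem CantorD_const (g : ℝ) (n : ℕ) : ∀ m : ℕ, gap m ≤ g → ell (m + n) ≤ g →
    ∀ p : ℝ → Prop, (∀ x ∈ CantorA_C m, ∀ y ∈ CantorA_C m, |x - y| ≤ g → (p x → p y)) →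
      ∀ x ∈ CantorA_C m, ∀ y ∈ CantorA_C m, p x → p y := by
  induction n with
  | zero =>
    intro m _ hl p hp x hx y hy hpx
    have h1 := CantorA_C_sub hx
    have h2 := CantorA_C_sub hy
    rw [add_zero] at hl
    refine hp x hx y hy ?_ hpx
    rw [abs_le]
    constructor <;> linarith
  | succ n ih =>
    intro m hg hl p hp
    have h0 : m + (n + 1) = m + 1 + n := by ring
    rw [h0] at hl
    have hg' : gap (m + 1) ≤ g := (CantorA_gap_anti (Nat.le_succ m)).trans hg
    have hshf := CantorA_shf m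
    have hgp := CantorA_gap_pos m
    -- the two halves
    have hL := ih (m + 1) hg' hl p fun x hx y hy h => hp x (CantorA_C_left hx) y (CantorA_C_left hy) h
    have hR := ih (m + 1) hg' hl (fun x => p (shf m + x)) fun x hx y hy h =>
      hp _ (CantorA_C_right hx) _ (CantorA_C_right hy) (by
        have h1 : shf m + x - (shf m + y) = x - y := by ring
        rw [h1]; exact h)
    have hR' : ∀ x, x - shf m ∈ CantorA_C (m + 1) → ∀ y, y - shf m ∈ CantorA_C (m + 1) → p x → p y := by
      intro x hx y hy hpx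
      have h1 := hR _ hx _ hy
      simp only [add_sub_cancel] at h1
      exact h1 hpx
    have hmid1 : p (ell (m + 1)) → p (shf m) := by
      refine hp _ (CantorA_C_left (CantorA_C_ell_mem _)) _ ?_ ?_
      · have h1 := CantorA_C_right (CantorA_C_zero_mem (m + 1))
        rwa [add_zero] at h1
      · rw [abs_le]
        constructor <;> linarith
    have hmid2 : p (shf m) → p (ell (m + 1)) := by
      refine hp _ ?_ _ (CantorA_C_left (CantorA_C_ell_mem _)) ?_
      · have h1 := CantorA_C_right (CantorA_C_zero_mem (m + 1))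
        rwa [add_zero] at h1
      · rw [abs_le]
        constructor <;> linarith
    have hshf0 : shf m - shf m ∈ CantorA_C (m + 1) := by
      rw [sub_self]; exact CantorA_C_zero_mem _
    intro x hx y hy hpx
    rcases CantorA_C_cases.1 hx with h1 | h1
    · rcases CantorA_C_cases.1 hy with h2 | h2
      · exact hL x h1 y h2 hpx
      · exact hR' _ hshf0 y h2 (hmid1 (hL x h1 _ (CantorA_C_ell_mem _) hpx))
    · rcases CantorA_C_cases.1 hy with h2 | h2
      · exact hL _ (CantorA_C_ell_mem _) y h2 (hmid2 (hR' x h1 _ hshf0 hpx))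
      · exact hR' x h1 y h2 hpx

/-- every point of `C m` is in a translate of `C (m + n)` inside `C m` -/
theorem CantorD_sub (n : ℕ) : ∀ m : ℕ, ∀ x ∈ CantorA_C m,
    ∃ a : ℝ, x - a ∈ CantorA_C (m + n) ∧ ∀ w ∈ CantorA_C (m + n), a + w ∈ CantorA_C m := by
  induction n with
  | zero =>
    intro m x hx
    refine ⟨0, by simpa using hx, fun w hw => by simpa using hw⟩
  | succ n ih =>
    intro m x hx
    have h0 : m + (n + 1) = m + 1 + n := by ring
    rw [h0]
    rcases CantorA_C_cases.1 hx with h | h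
    · obtain ⟨a, h1, h2⟩ := ih (m + 1) x h
      exact ⟨a, h1, fun w hw => CantorA_C_left (h2 w hw)⟩
    · obtain ⟨a, h1, h2⟩ := ih (m + 1) _ h
      refine ⟨shf m + a, ?_, fun w hw => ?_⟩
      · have h3 : x - (shf m + a) = x - shf m - a := by ring
        rwa [h3]
      · rw [add_assoc]
        exact CantorA_C_right (h2 w hw)

/-- The gaps are small compared with the pieces. For a nonempty piece `P` of `Lam` of diameter at
most `d` (small) there are `x ∈ P` and `y ∈ Lam \ P` at distance at most `η d`.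

Proof: let `x₀ ∈ P` and choose `n` with `ell (n+1) / 2 ≤ d < ell n / 2`. The square `Q` of
generation `n` containing `x₀` contains a point of `Lam` at distance `≥ ell n / 2 > d` from `x₀`,
so `P ∩ Q` is a nonempty proper subset of `Lam ∩ Q`. Suppose all distances between points of `P`
and of `Lam \ P` were `> gap n`. Call a square of generation `m ≥ n` inside `Q` pure if its points of
`Lam` are all in `P` or all outside. For large `m` (side `√2 ell m < gap n`) all squares are pure.
Two subsquares of generation `m+1` of a square of generation `m` which are adjacent (horizontally or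
vertically) contain points of `Lam` at distance `gap m ≤ gap n` (the end points of intervals
belong to `K1`), so if all four are pure, then the big one is pure. By downward induction `Q` is
pure: contradiction. So the distance is `≤ gap n = (3/4)(1/1000) 8^{-n} ≤ η ell (n+1) / 2 ≤ η d`
for `n` large, i.e. `d` small. -/
theorem chain_Lam : ∀ η > 0, ∃ d₀ > 0, ∀ d : ℝ, 0 < d → d ≤ d₀ → ∀ P : Set ℂ, P ⊆ Lam →
    P.Nonempty → (∀ x ∈ P, ∀ y ∈ P, ‖x - y‖ ≤ d) →
    ∃ x ∈ P, ∃ y ∈ Lam \ P, ‖x - y‖ ≤ η * d := by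
  intro η hη
  obtain ⟨N, hN⟩ := exists_pow_lt_of_lt_one hη (show (1 / 4 : ℝ) < 1 by norm_num)
  refine ⟨ell N / 2, by have := CantorA_ell_pos N; positivity, ?_⟩
  intro d hd hdN P hPL hPne hdiam
  by_contra hcon
  push Not at hcon
  -- the generation
  have hex : ∃ n, ell n ≤ d :=
    ((CantorA_ell_tendsto.eventually (gt_mem_nhds hd)).exists).imp fun n hn => hn.le
  classical
  have hn1 := Nat.find_spec hex
  set n1 := Nat.find hex with hn1def
  have hNpos := CantorA_ell_pos N
  have hNn : N < n1 := by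
    by_contra h
    push Not at h
    have h1 := CantorA_ell_anti h
    linarith
  obtain ⟨n, hn⟩ : ∃ n, n1 = n + 1 := ⟨n1 - 1, by omega⟩
  have hdn : d < ell n := by
    have h1 : ¬ ell n ≤ d := Nat.find_min hex (by omega)
    exact not_le.1 h1
  have hgap : gap n ≤ η * d := by
    have h1 : ell (n + 1) ≤ d := by rw [← hn]; exact hn1
    have h2 := CantorA_le_ell (n + 1)
    have h3 : ((1 : ℝ) / 4) ^ n ≤ η := by
      refine (pow_le_pow_of_le_one (by norm_num) (by norm_num) (by omega : N ≤ n)).trans hN.le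
    rw [gap_eq]
    have h4 : ((1 : ℝ) / 8) ^ n = (1 / 2) ^ n * (1 / 4) ^ n := by
      rw [← mul_pow]; norm_num
    have h5 : (0 : ℝ) < (1 / 2) ^ n := by positivity
    have h6 : (0 : ℝ) < (1 / 4) ^ n := by positivity
    rw [pow_succ] at h2
    have h7 : 499 / 1000 * (1 / 2) ^ n ≤ d := by linarith
    calc 3 / 4 * (1 / 1000) * (1 / 8 : ℝ) ^ n = 3 / 4000 * ((1 / 2) ^ n * (1 / 4) ^ n) := by
          rw [h4]; ring
      _ ≤ (1 / 4) ^ n * (499 / 1000 * (1 / 2) ^ n) := by nlinarith [mul_pos h5 h6]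
      _ ≤ η * d := mul_le_mul h3 h7 (by positivity) hη.le
  obtain ⟨x₀, hx₀⟩ := hPne
  obtain ⟨hre, him⟩ := hPL hx₀
  obtain ⟨k, hk⟩ := CantorA_mem_K1.1 hre
  obtain ⟨a, ha1, ha2⟩ := CantorD_sub n 0 _ hk
  rw [zero_add] at ha1 ha2
  have hmemL : ∀ w ∈ CantorA_C n, (⟨(k : ℝ) + (a + w), x₀.im⟩ : ℂ) ∈ Lam := by
    intro w hw
    refine ⟨CantorA_mem_K1.2 ⟨k, ?_⟩, him⟩
    have h1 : (k : ℝ) + (a + w) - k = a + w := by ring
    show (k : ℝ) + (a + w) - k ∈ CantorA_C 0
    rw [h1]
    exact ha2 w hw
  have hnorm : ∀ w w' : ℝ, ‖(⟨(k : ℝ) + (a + w), x₀.im⟩ : ℂ) - ⟨(k : ℝ) + (a + w'), x₀.im⟩‖ =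
      |w - w'| := by
    intro w w'
    have h1 : (⟨(k : ℝ) + (a + w), x₀.im⟩ : ℂ) - ⟨(k : ℝ) + (a + w'), x₀.im⟩ =
        ((w - w' : ℝ) : ℂ) := by
      apply Complex.ext
      · simp only [Complex.sub_re, Complex.ofReal_re]; ring
      · simp only [Complex.sub_im, Complex.ofReal_im]; ring
    rw [h1, Complex.norm_real, Real.norm_eq_abs]
  obtain ⟨M, hM⟩ := (CantorA_ell_tendsto.eventually
    (gt_mem_nhds (mul_pos hη hd))).exists_forall_of_atTop
  have hconst := CantorD_const (η * d) M n hgap (hM (n + M) (Nat.le_add_left _ _)).le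
    (fun w => (⟨(k : ℝ) + (a + w), x₀.im⟩ : ℂ) ∈ P) (by
      intro w hw w' hw' hww hP
      by_contra hP'
      have h1 := hcon _ hP _ ⟨hmemL w' hw', hP'⟩
      rw [hnorm] at h1
      linarith)
  have hstart : (⟨(k : ℝ) + (a + (x₀.re - k - a)), x₀.im⟩ : ℂ) ∈ P := by
    have h1 : (⟨(k : ℝ) + (a + (x₀.re - k - a)), x₀.im⟩ : ℂ) = x₀ := by
      apply Complex.ext
      · show (k : ℝ) + (a + (x₀.re - k - a)) = x₀.re
        ring
      · rfl
    rw [h1]; exact hx₀
  have h0P := hconst _ ha1 0 (CantorA_C_zero_mem n) hstart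
  have hlP := hconst _ ha1 (ell n) (CantorA_C_ell_mem n) hstart
  have h1 := hdiam _ hlP _ h0P
  rw [hnorm, sub_zero, abs_of_pos (CantorA_ell_pos n)] at h1
  linarith

end Pool.Agent.KK
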