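import Pool.Agent.W_bb4b37_h53.CantorA

/-!
# The product of two periodic fat Cantor sets (part E)
-/

set_option autoImplicit false

open Filter Topology Set MeasureTheory Metric
open scoped ContDiff

namespace Pool.Agent.KK

/-- A bounded separated piece: `Q = Lam ∩ [0, ell 0]²` is compact, nonempty, at distance
`≥ 1 / 1000` from the rest of `Lam`, and its integer translates cover `Lam`. -/
theorem piece_Lam : ∃ Q : Set ℂ, IsCompact Q ∧ Q ⊆ Lam ∧ (0 : ℂ) ∈ Q ∧ (∀ x ∈ Q, ‖x‖ ≤ 2) ∧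
    (∀ x ∈ Q, ∀ y ∈ Lam \ Q, 1 / 1000 ≤ ‖x - y‖) ∧
    ∀ x ∈ Lam, ∃ v ∈ Lat 0, x - v ∈ Q := by
  have h0 := CantorA_ell_zero
  have hsep : ∀ u ∈ CantorA_C 0, ∀ v ∈ K1, v ∉ CantorA_C 0 → 1 / 1000 ≤ |u - v| := by
    intro u hu v hv hv'
    obtain ⟨k, hk⟩ := CantorA_mem_K1.1 hv
    have h1 := CantorA_C_sub hu
    have h2 := CantorA_C_sub hk
    have hk0 : k ≠ 0 := by
      rintro rfl
      exact hv' (by simpa using hk)
    rcases lt_or_gt_of_ne hk0 with h3 | h3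
    · have h4 : (k : ℝ) ≤ -1 := by exact_mod_cast (by omega : k ≤ -1)
      rw [abs_of_nonneg (by linarith)]
      linarith
    · have h4 : (1 : ℝ) ≤ k := by exact_mod_cast (by omega : 1 ≤ k)
      rw [abs_sub_comm, abs_of_nonneg (by linarith)]
      linarith
  refine ⟨{z : ℂ | z.re ∈ CantorA_C 0 ∧ z.im ∈ CantorA_C 0}, ?_, ?_, ?_, ?_, ?_, ?_⟩
  · have h1 : {z : ℂ | z.re ∈ CantorA_C 0 ∧ z.im ∈ CantorA_C 0} =
        Complex.equivRealProdCLM.symm '' (CantorA_C 0 ×ˢ CantorA_C 0) := by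
      ext z
      constructor
      · rintro ⟨h2, h3⟩
        exact ⟨(z.re, z.im), ⟨h2, h3⟩, by apply Complex.ext <;> simp⟩
      · rintro ⟨⟨x, y⟩, ⟨h2, h3⟩, rfl⟩
        exact ⟨by simpa using h2, by simpa using h3⟩
    rw [h1]
    exact ((CantorA_isCompact_C 0).prod (CantorA_isCompact_C 0)).image
      Complex.equivRealProdCLM.symm.continuous
  · rintro z ⟨h1, h2⟩
    exact ⟨CantorA_C_K1 h1, CantorA_C_K1 h2⟩
  · exact ⟨CantorA_C_zero_mem 0, CantorA_C_zero_mem 0⟩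
  · rintro z ⟨h1, h2⟩
    have h3 := CantorA_C_sub h1
    have h4 := CantorA_C_sub h2
    refine (Complex.norm_le_abs_re_add_abs_im z).trans ?_
    rw [abs_of_nonneg h3.1, abs_of_nonneg h4.1]
    linarith
  · rintro x ⟨hx1, hx2⟩ y ⟨⟨hy1, hy2⟩, hy3⟩
    by_cases h1 : y.re ∈ CantorA_C 0
    · have h2 : y.im ∉ CantorA_C 0 := fun h => hy3 ⟨h1, h⟩
      refine (hsep _ hx2 _ hy2 h2).trans ?_
      rw [← Complex.sub_im]
      exact Complex.abs_im_le_norm _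
    · refine (hsep _ hx1 _ hy1 h1).trans ?_
      rw [← Complex.sub_re]
      exact Complex.abs_re_le_norm _
  · rintro x ⟨hx1, hx2⟩
    obtain ⟨k, hk⟩ := CantorA_mem_K1.1 hx1
    obtain ⟨l, hl⟩ := CantorA_mem_K1.1 hx2
    refine ⟨(k : ℂ) * (1 + ((0 : ℝ) : ℂ)) + (l : ℂ) * ((1 - ((0 : ℝ) : ℂ)) * Complex.I),
      ⟨k, l, rfl⟩, ?_, ?_⟩
    · simpa using hk
    · simpa using hl

end Pool.Agent.KK
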