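import Pool.Agent.W_bb4b37_h53.ConvB

/-!
# Convergence lemmas

`conv_smooth`: uniform convergence together with uniform bounds on all derivatives gives a smooth
limit. `ulim_C2`: ultrafilter limits of `C²` functions with locally uniform `C^{2,1/2}` bounds.
-/
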