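import Pool.Agent.W_bb4b37_h53.CalcE

/-!
# Convergence lemmas (part B)
-/

set_option autoImplicit false

open Filter Topology Set MeasureTheory Metric
open scoped ContDiff

namespace Pool.Agent.KK

variable {V : Type*} [NormedAddCommGroup V] [NormedSpace ℝ V]

/-- Smoothness of `DD l f` for a `C²` function `f`. -/
theorem ConvB_contDiff {f : ℂ → ℝ} (hf : ContDiff ℝ 2 f) (l : List Bool) :
    ∀ n : ℕ, n + l.length ≤ 2 → ContDiff ℝ n (DD l f) := by
  induction l with
  | nil =>
    intro n hn
    refine hf.of_le ?_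
    have : n ≤ 2 := by simpa using hn
    exact_mod_cast this
  | cons b l ih =>
    intro n hn
    have h1 : ContDiff ℝ ((n + 1 : ℕ) : WithTop ℕ∞) (DD l f) := by
      apply ih
      simp only [List.length_cons] at hn
      omega
    cases b with
    | true => exact contDiff_Dx h1 (by norm_cast)
    | false => exact contDiff_Dy h1 (by norm_cast)

/-- Bounded families have limits along ultrafilters. -/
theorem ConvB_exists_lim {ι : Type*} (𝒰 : Ultrafilter ι) {F : ι → ℝ} {K : ℝ}
    (h : ∀ᶠ i in (𝒰 : Filter ι), |F i| ≤ K) :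
    ∃ c, Tendsto F (𝒰 : Filter ι) (𝓝 c) := by
  have h1 : ((𝒰.map F : Ultrafilter ℝ) : Filter ℝ) ≤ 𝓟 (Icc (-K) K) := by
    rw [le_principal_iff]
    change F ⁻¹' (Icc (-K) K) ∈ (𝒰 : Filter ι)
    filter_upwards [h] with i hi
    exact abs_le.1 hi
  obtain ⟨c, -, hc⟩ := isCompact_Icc.ultrafilter_le_nhds (𝒰.map F) h1
  exact ⟨c, hc⟩

/-- Pointwise convergence plus uniform equicontinuity gives uniform convergence on balls. -/
theorem ConvB_unif {ι : Type*} (𝒰 : Ultrafilter ι) {F : ι → ℂ → ℝ} {G : ℂ → ℝ} {z : ℂ} {r : ℝ}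
    (hp : ∀ y ∈ ball z r, Tendsto (fun i => F i y) (𝒰 : Filter ι) (𝓝 (G y)))
    (he : ∀ ε > 0, ∃ δ > 0, ∀ᶠ i in (𝒰 : Filter ι), ∀ y ∈ ball z r, ∀ y' ∈ ball z r,
      ‖y - y'‖ < δ → |F i y - F i y'| ≤ ε) :
    TendstoUniformlyOn F G (𝒰 : Filter ι) (ball z r) := by
  rw [Metric.tendstoUniformlyOn_iff]
  intro ε hε
  obtain ⟨δ, hδ, h1⟩ := he (ε / 4) (by positivity)
  have htb : TotallyBounded (ball z r) :=
    (isCompact_closedBall z r).totallyBounded.subset ball_subset_closedBall
  obtain ⟨t, hts, htf, hcov⟩ := Metric.finite_approx_of_totallyBounded htb δ hδ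
  have h2 : ∀ᶠ i in (𝒰 : Filter ι), ∀ y ∈ t, |F i y - G y| < ε / 4 := by
    rw [Filter.eventually_all_finite htf]
    intro y hy
    have := Metric.tendsto_nhds.1 (hp y (hts hy)) (ε / 4) (by positivity)
    filter_upwards [this] with i hi
    simpa [Real.dist_eq] using hi
  have h3 : ∀ y ∈ ball z r, ∀ y' ∈ ball z r, ‖y - y'‖ < δ → |G y - G y'| ≤ ε / 4 := by
    intro y hy y' hy' hyy
    have ht : Tendsto (fun i => |F i y - F i y'|) (𝒰 : Filter ι) (𝓝 (|G y - G y'|)) :=
      ((hp y hy).sub (hp y' hy')).abs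
    refine le_of_tendsto ht ?_
    filter_upwards [h1] with i hi
    exact hi y hy y' hy' hyy
  filter_upwards [h1, h2] with i hi1 hi2 y hy
  obtain ⟨y', hy't, hyy'⟩ := mem_iUnion₂.1 (hcov hy)
  have hd : ‖y - y'‖ < δ := by rw [← dist_eq_norm]; exact hyy'
  have a1 := h3 y hy y' (hts hy't) hd
  have a2 := hi2 y' hy't
  have a3 := hi1 y hy y' (hts hy't) hd
  rw [Real.dist_eq]
  rw [abs_le] at a1 a3
  rw [abs_lt] at a2 ⊢
  constructor <;> linarith [a1.1, a1.2, a2.1, a2.2, a3.1, a3.2]

/-- The linear map with given coordinates. -/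
noncomputable def ConvBL (p : ℝ × ℝ) : ℂ →L[ℝ] ℝ := p.1 • Complex.reCLM + p.2 • Complex.imCLM

theorem ConvBL_apply (p : ℝ × ℝ) (v : ℂ) : ConvBL p v = p.1 * v.re + p.2 * v.im := by
  simp [ConvBL]

theorem ConvBL_uc : UniformContinuous ConvBL := by
  have h : LipschitzWith 2 ConvBL := by
    refine LipschitzWith.of_dist_le_mul fun p q => ?_
    rw [dist_eq_norm]
    refine ContinuousLinearMap.opNorm_le_bound _ (by positivity) fun v => ?_
    rw [sub_apply, ConvBL_apply, ConvBL_apply]
    have e : p.1 * v.re + p.2 * v.im - (q.1 * v.re + q.2 * v.im)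
        = (p.1 - q.1) * v.re + (p.2 - q.2) * v.im := by ring
    rw [e, Real.norm_eq_abs]
    have b1 : |p.1 - q.1| ≤ dist p q := by
      rw [Prod.dist_eq, ← Real.dist_eq]; exact le_max_left _ _
    have b2 : |p.2 - q.2| ≤ dist p q := by
      rw [Prod.dist_eq, ← Real.dist_eq]; exact le_max_right _ _
    have c1 := Complex.abs_re_le_norm v
    have c2 := Complex.abs_im_le_norm v
    calc |(p.1 - q.1) * v.re + (p.2 - q.2) * v.im|
        ≤ |(p.1 - q.1) * v.re| + |(p.2 - q.2) * v.im| := abs_add_le _ _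
      _ = |p.1 - q.1| * |v.re| + |p.2 - q.2| * |v.im| := by rw [abs_mul, abs_mul]
      _ ≤ dist p q * ‖v‖ + dist p q * ‖v‖ := by gcongr
      _ = (2 : NNReal) * dist p q * ‖v‖ := by push_cast; ring
  exact h.uniformContinuous

theorem ConvBL_Dx {g : ℂ → ℝ} {z : ℂ} {p : ℝ × ℝ} (h : HasFDerivAt g (ConvBL p) z) :
    Dx g z = p.1 := by
  simp [Dx, h.fderiv, ConvBL_apply]

theorem ConvBL_Dy {g : ℂ → ℝ} {z : ℂ} {p : ℝ × ℝ} (h : HasFDerivAt g (ConvBL p) z) :
    Dy g z = p.2 := by
  simp [Dy, h.fderiv, ConvBL_apply]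

theorem ConvBL_contDiff {n : WithTop ℕ∞} : ContDiff ℝ n ConvBL := by
  unfold ConvBL
  exact (contDiff_fst.smul contDiff_const).add (contDiff_snd.smul contDiff_const)

/-- The derivative of a differentiable function in terms of `ConvBL`. -/
theorem ConvBL_hasFDerivAt {g : ℂ → ℝ} {z : ℂ} (h : DifferentiableAt ℝ g z) :
    HasFDerivAt g (ConvBL (Dx g z, Dy g z)) z := by
  have e : fderiv ℝ g z = ConvBL (Dx g z, Dy g z) := by
    refine ContinuousLinearMap.ext fun v => ?_
    rw [ConvBL_apply, fderiv_eq g z v, smul_eq_mul, smul_eq_mul]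
    ring
  rw [← e]
  exact h.hasFDerivAt

/-- Smoothness from the smoothness of the coordinates of the derivative. -/
theorem ConvB_succ {g g1 g2 : ℂ → ℝ} {U : Set ℂ} (hU : IsOpen U) {n : ℕ}
    (hg : ∀ z ∈ U, HasFDerivAt g (ConvBL (g1 z, g2 z)) z)
    (h1 : ContDiffOn ℝ n g1 U) (h2 : ContDiffOn ℝ n g2 U) :
    ContDiffOn ℝ ((n : WithTop ℕ∞) + 1) g U := by
  rw [contDiffOn_succ_iff_fderiv_of_isOpen hU]
  refine ⟨fun z hz => (hg z hz).differentiableAt.differentiableWithinAt, ?_, ?_⟩
  · intro h
    exact absurd h (by exact_mod_cast WithTop.coe_ne_top)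
  · have h3 : ContDiffOn ℝ n (fun z => ConvBL (g1 z, g2 z)) U :=
      ConvBL_contDiff.comp_contDiffOn (h1.prodMk h2)
    exact h3.congr fun z hz => (hg z hz).fderiv

/-- Ultrafilter limits of `C²` functions. For every `z ∈ U` there is a ball `B(z,r)` on which, for
`𝒰`-almost all `i`, the derivatives of order at most two are bounded by `K` and the second
derivatives are Hölder continuous with exponent `1/2` and constant `K`. Then the pointwise limit
`g` along `𝒰` is `C²` on `U` and all derivatives of order at most two converge, uniformly on small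
balls. Proof: bounded real families have limits along ultrafilters; put
`g_l z = lim_𝒰 DD l (f i) z`. Equicontinuity (mean value inequality for `l.length ≤ 1`, the Hölder
bound for `l.length = 2`) and total boundedness of the ball upgrade pointwise convergence along
`𝒰` to uniform convergence on a smaller ball. Then use the theorem on derivatives of uniform
limits (it holds for an arbitrary filter) to get `Dx g_l = g_{true :: l}` etc. -/
theorem ulim_C2 {ι : Type*} (𝒰 : Ultrafilter ι) {f : ι → ℂ → ℝ} {U : Set ℂ} (hU : IsOpen U)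
    (hf : ∀ i, ContDiff ℝ 2 (f i))
    (hb : ∀ z ∈ U, ∃ r > 0, ∃ K : ℝ, ∀ᶠ i in (𝒰 : Filter ι),
      (∀ y ∈ ball z r, ∀ l : List Bool, l.length ≤ 2 → |DD l (f i) y| ≤ K) ∧
      ∀ y ∈ ball z r, ∀ y' ∈ ball z r, ∀ l : List Bool, l.length = 2 →
        |DD l (f i) y - DD l (f i) y'| ≤ K * Real.sqrt ‖y - y'‖) :
    ∃ g : ℂ → ℝ, ContDiffOn ℝ 2 g U ∧
      (∀ z ∈ U, ∃ r > 0, ∀ l : List Bool, l.length ≤ 2 →
        TendstoUniformlyOn (fun i => DD l (f i)) (DD l g) (𝒰 : Filter ι) (ball z r)) := by
  classical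
  -- the limits
  set G : List Bool → ℂ → ℝ := fun l z => limUnder (𝒰 : Filter ι) (fun i => DD l (f i) z)
    with hG
  have hlim : ∀ z ∈ U, ∀ l : List Bool, l.length ≤ 2 →
      Tendsto (fun i => DD l (f i) z) (𝒰 : Filter ι) (𝓝 (G l z)) := by
    intro z hz l hl
    obtain ⟨r, hr, K, hK⟩ := hb z hz
    have : ∃ c, Tendsto (fun i => DD l (f i) z) (𝒰 : Filter ι) (𝓝 c) := by
      refine ConvB_exists_lim 𝒰 (K := K) ?_
      filter_upwards [hK] with i hi
      exact hi.1 z (mem_ball_self hr) l hl
    exact tendsto_nhds_limUnder this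
  -- uniform convergence on small balls
  have hunif : ∀ z ∈ U, ∃ r > 0, ball z r ⊆ U ∧ ∀ l : List Bool, l.length ≤ 2 →
      TendstoUniformlyOn (fun i => DD l (f i)) (G l) (𝒰 : Filter ι) (ball z r) := by
    intro z hz
    obtain ⟨r₁, hr₁, K, hK⟩ := hb z hz
    obtain ⟨r₂, hr₂, hUr⟩ := Metric.isOpen_iff.1 hU z hz
    refine ⟨min r₁ r₂, lt_min hr₁ hr₂, (ball_subset_ball (min_le_right _ _)).trans hUr, ?_⟩
    intro l hl
    have hsub : ball z (min r₁ r₂) ⊆ ball z r₁ := ball_subset_ball (min_le_left _ _)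
    refine ConvB_unif 𝒰 (fun y hy => hlim y (hUr (ball_subset_ball (min_le_right _ _) hy)) l hl) ?_
    intro ε hε
    have hK1 : 0 < |K| + 1 := by positivity
    rcases Nat.lt_or_ge l.length 2 with hl1 | hl2
    · refine ⟨ε / (2 * (|K| + 1)), by positivity, ?_⟩
      filter_upwards [hK] with i hi y hy y' hy' hyy
      have hd : ∀ w ∈ ball z (min r₁ r₂), DifferentiableAt ℝ (DD l (f i)) w := by
        intro w _
        have : ContDiff ℝ ((1 : ℕ) : WithTop ℕ∞) (DD l (f i)) :=
          ConvB_contDiff (hf i) l 1 (by omega)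
        exact (this.differentiable (by norm_num)).differentiableAt
      have hm := mean_value (K := |K| + 1) hd (fun w hw l' hl' => by
        rw [← DD_append, Real.norm_eq_abs]
        have := hi.1 w (hsub hw) (l' ++ l) (by rw [List.length_append, hl']; omega)
        exact this.trans ((le_abs_self K).trans (by linarith))) hy hy'
      rw [Real.norm_eq_abs] at hm
      refine hm.trans ?_
      have := mul_le_mul_of_nonneg_left hyy.le (by positivity : (0 : ℝ) ≤ 2 * (|K| + 1))
      refine this.trans (le_of_eq ?_)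
      field_simp
    · have hl3 : l.length = 2 := le_antisymm hl hl2
      refine ⟨(ε / (|K| + 1)) ^ 2, by positivity, ?_⟩
      filter_upwards [hK] with i hi y hy y' hy' hyy
      have h1 := hi.2 y (hsub hy) y' (hsub hy') l hl3
      have h2 : Real.sqrt ‖y - y'‖ ≤ ε / (|K| + 1) := by
        rw [Real.sqrt_le_left (by positivity)]
        exact hyy.le
      calc |DD l (f i) y - DD l (f i) y'| ≤ K * Real.sqrt ‖y - y'‖ := h1
        _ ≤ (|K| + 1) * Real.sqrt ‖y - y'‖ := by
            gcongr
            exact (le_abs_self K).trans (by linarith)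
        _ ≤ (|K| + 1) * (ε / (|K| + 1)) := by gcongr
        _ = ε := by field_simp
  -- derivatives of the limits
  have hder : ∀ z ∈ U, ∀ l : List Bool, l.length ≤ 1 →
      HasFDerivAt (G l) (ConvBL (G (true :: l) z, G (false :: l) z)) z := by
    intro z hz l hl
    obtain ⟨r, hr, hrU, hu⟩ := hunif z hz
    have ht := hu (true :: l) (by simp; omega)
    have hf' := hu (false :: l) (by simp; omega)
    have hpair : TendstoUniformlyOn
        (fun i y => ConvBL (DD (true :: l) (f i) y, DD (false :: l) (f i) y))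
        (fun y => ConvBL (G (true :: l) y, G (false :: l) y)) (𝒰 : Filter ι) (ball z r) :=
      ConvBL_uc.comp_tendstoUniformlyOn
        (fun u hu => (tendsto_id.prodMk tendsto_id).eventually ((ht.prodMk hf') u hu))
    refine hasFDerivAt_of_tendstoUniformlyOn (f := fun i => DD l (f i)) isOpen_ball hpair ?_ ?_
      (mem_ball_self hr)
    · intro i y _
      have : ContDiff ℝ ((1 : ℕ) : WithTop ℕ∞) (DD l (f i)) :=
        ConvB_contDiff (hf i) l 1 (by omega)
      exact ConvBL_hasFDerivAt (this.differentiable (by norm_num)).differentiableAt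
    · intro y hy
      exact hlim y (hrU hy) l (by omega)
  -- continuity of the limits
  have hcont : ∀ l : List Bool, l.length ≤ 2 → ContinuousOn (G l) U := by
    intro l hl z hz
    obtain ⟨r, hr, hrU, hu⟩ := hunif z hz
    have hc : ContinuousOn (G l) (ball z r) := by
      refine (hu l hl).continuousOn (Filter.Eventually.frequently ?_)
      refine Filter.Eventually.of_forall fun i => ?_
      have : ContDiff ℝ ((0 : ℕ) : WithTop ℕ∞) (DD l (f i)) :=
        ConvB_contDiff (hf i) l 0 (by omega)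
      exact this.continuous.continuousOn
    exact (hc.continuousAt (ball_mem_nhds z hr)).continuousWithinAt
  have hDD : ∀ l : List Bool, l.length ≤ 2 → ∀ z ∈ U, DD l (G []) z = G l z := by
    intro l
    induction l with
    | nil => intro _ z _; rfl
    | cons b l ih =>
      intro hl z hz
      have hl' : l.length ≤ 1 := by simpa using hl
      have hev : DD l (G []) =ᶠ[𝓝 z] G l := by
        filter_upwards [hU.mem_nhds hz] with y hy
        exact ih (by omega) y hy
      cases b with
      | true =>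
        rw [DD_true, Dx_congr hev]
        exact ConvBL_Dx (hder z hz l hl')
      | false =>
        rw [DD_false, Dy_congr hev]
        exact ConvBL_Dy (hder z hz l hl')
  refine ⟨G [], ?_, ?_⟩
  · have c0 : ∀ l : List Bool, l.length ≤ 2 → ContDiffOn ℝ ((0 : ℕ) : WithTop ℕ∞) (G l) U := by
      intro l hl
      exact_mod_cast contDiffOn_zero.2 (hcont l hl)
    have c1 : ∀ l : List Bool, l.length ≤ 1 → ContDiffOn ℝ ((1 : ℕ) : WithTop ℕ∞) (G l) U := by
      intro l hl
      have := ConvB_succ hU (n := 0) (fun z hz => hder z hz l hl)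
        (c0 (true :: l) (by simp; omega)) (c0 (false :: l) (by simp; omega))
      simpa using this
    have := ConvB_succ hU (n := 1) (fun z hz => hder z hz [] (by simp))
      (c1 [true] (by simp)) (c1 [false] (by simp))
    have e : (((1 : ℕ) : WithTop ℕ∞) + 1) = 2 := by norm_num
    rwa [e] at this
  · intro z hz
    obtain ⟨r, hr, hrU, hu⟩ := hunif z hz
    refine ⟨r, hr, fun l hl => ?_⟩
    exact (hu l hl).congr_right fun y hy => (hDD l hl y (hrU hy)).symm

end Pool.Agent.KK
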