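import Mathlib

/-!
# Common definitions for MP_bb4b37_gt (helper53)

Functions of `z = x + i y : ℂ`, partial derivatives, lattices, uniformly perfect sets,
the penalty function, the fully nonlinear equation of the dual `K`-surface.
-/

set_option autoImplicit false

open Filter Topology Set MeasureTheory
open scoped ContDiff

namespace Pool.Agent.KK

noncomputable section

variable {V : Type*} [NormedAddCommGroup V] [NormedSpace ℝ V]

/-- Partial derivative in the direction `1`. -/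
def Dx (f : ℂ → V) : ℂ → V := fun z => fderiv ℝ f z 1

/-- Partial derivative in the direction `i`. -/
def Dy (f : ℂ → V) : ℂ → V := fun z => fderiv ℝ f z Complex.I

/-- Iterated partial derivatives: `true` stands for `Dx`, `false` for `Dy`. -/
def DD : List Bool → (ℂ → V) → ℂ → V
  | [], f => f
  | true :: l, f => Dx (DD l f)
  | false :: l, f => Dy (DD l f)

/-- The Laplacian. -/
def Lap (f : ℂ → V) : ℂ → V := fun z => Dx (Dx f) z + Dy (Dy f) z

/-- The operator `∂ / ∂ z`. -/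
def Dz (f : ℂ → ℂ) : ℂ → ℂ := fun z => (Dx f z - Complex.I * Dy f z) / 2

/-- The operator `∂ / ∂ z̄`. -/
def Dzb (f : ℂ → ℂ) : ℂ → ℂ := fun z => (Dx f z + Complex.I * Dy f z) / 2

/-- Smooth functions all of whose derivatives are bounded on `ℂ`. -/
def BCinf (f : ℂ → V) : Prop :=
  ContDiff ℝ ∞ f ∧ ∀ n : ℕ, ∃ B : ℝ, ∀ z, ‖iteratedFDeriv ℝ n f z‖ ≤ B

/-- The lattice generated by `1 + a` and `(1 - a) i`. -/
def Lat (a : ℝ) : Set ℂ :=
  {v | ∃ m n : ℤ, v = (m : ℂ) * (1 + (a : ℂ)) + (n : ℂ) * ((1 - (a : ℂ)) * Complex.I)}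

/-- `f` is periodic under the lattice `Lat a`. -/
def Per {W : Type*} (a : ℝ) (f : ℂ → W) : Prop := ∀ z, ∀ v ∈ Lat a, f (z + v) = f z

/-- The set `S` is invariant under the lattice `Lat a`. -/
def PerSet (a : ℝ) (S : Set ℂ) : Prop := ∀ z ∈ S, ∀ v ∈ Lat a, z + v ∈ S

/-- The real linear map `x ↦ x + a x̄`; it maps the Gaussian integers `Lat 0` onto `Lat a`. -/
def Aff (a : ℝ) (x : ℂ) : ℂ := x + (a : ℂ) * (starRingEnd ℂ) x

/-- Uniformly perfect sets (with constant `A`, at all scales). -/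
def UP (A : ℝ) (S : Set ℂ) : Prop :=
  ∀ z ∈ S, ∀ t : ℝ, 0 < t → ∃ y ∈ S, t / A ≤ ‖y - z‖ ∧ ‖y - z‖ ≤ t

/-- A fixed mollifier: smooth, nonnegative, supported in the closed unit disc, integral one. -/
def moll : ℂ → ℝ :=
  (⟨1 / 2, 1, by norm_num, by norm_num⟩ : ContDiffBump (0 : ℂ)).normed volume

/-- The Lipschitz cut-off `1` on `(-∞, 2]`, `0` on `[3, ∞)`. -/
def cut (t : ℝ) : ℝ := max 0 (min 1 (3 - t))

/-- The penalty function: `s + B / s ^ 2` within distance `s` of `S`, and `s` at distance at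
least `4 s` from `S`. -/
def pen (B : ℝ) (S : Set ℂ) (s : ℝ) (z : ℂ) : ℝ :=
  s + B / s ^ 2 * ∫ y : ℂ, moll y * cut (Metric.infDist (z - (s : ℂ) * y) S / s)

/-- The nonlinear term: `(1 + ε²) e^{-2w} |∇w|⁴ - 2 |∇w|² - e^{-2w} det (D²w - 2 ∇w ⊗ ∇w)`. -/
def QQ (ε : ℝ) (w : ℂ → ℝ) (z : ℂ) : ℝ :=
  (1 + ε ^ 2) * Real.exp (-(2 * w z)) * ((Dx w z) ^ 2 + (Dy w z) ^ 2) ^ 2
    - 2 * ((Dx w z) ^ 2 + (Dy w z) ^ 2)
    - Real.exp (-(2 * w z)) *
      ((Dx (Dx w) z - 2 * (Dx w z) ^ 2) * (Dy (Dy w) z - 2 * (Dy w z) ^ 2)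
        - (Dx (Dy w) z - 2 * (Dx w z * Dy w z)) ^ 2)

/-- The equation `Δ w = e^{2w} - X + ε² QQ` on the set `U`. -/
def IsSol (ε : ℝ) (X : ℂ → ℝ) (U : Set ℂ) (w : ℂ → ℝ) : Prop :=
  ∀ z ∈ U, Lap w z = Real.exp (2 * w z) - X z + ε ^ 2 * QQ ε w z

/-- Scale invariant bounds for the first and second derivatives of `w` on `U`, and a scale
invariant Hölder bound (exponent `1/2`) for the second derivatives; `e ^ {-w}` is the scale. -/
structure Scaled (C : ℝ) (U : Set ℂ) (w : ℂ → ℝ) : Prop where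
  d1 : ∀ z ∈ U, ∀ l : List Bool, l.length = 1 → |DD l w z| ≤ C * Real.exp (w z)
  d2 : ∀ z ∈ U, ∀ l : List Bool, l.length = 2 → |DD l w z| ≤ C * Real.exp (w z) ^ 2
  h2 : ∀ z ∈ U, ∀ y, C * ‖y - z‖ ≤ Real.exp (-(w z)) → ∀ l : List Bool, l.length = 2 →
    |DD l w y - DD l w z| ≤ C * Real.exp (w z) ^ 2 * Real.sqrt (Real.exp (w z) * ‖y - z‖)

end

end Pool.Agent.KK
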