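import Mathlib

/-!
# Statement: circle domains, K-surfaces, third fundamental form
-/

set_option autoImplicit false

open Filter Topology Set MeasureTheory
open scoped ContDiff

namespace Pool.Agent.KKS

/-- Minkowski form of signature `(3,1)` on `ℝ⁴`; the first coordinate is the time coordinate. -/
def mink (x y : Fin 4 → ℝ) : ℝ := x 1 * y 1 + x 2 * y 2 + x 3 * y 3 - x 0 * y 0

/-- Hyperbolic space `ℍ³`: the upper sheet of the hyperboloid. -/
def Hyp : Set (Fin 4 → ℝ) := {x | mink x x = -1 ∧ 0 < x 0}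

/-- The projective (Klein) model: central projection to the open unit ball of `ℝ³`. Geodesics
become straight line segments. -/
noncomputable def klein (x : Fin 4 → ℝ) : Fin 3 → ℝ := ![x 1 / x 0, x 2 / x 0, x 3 / x 0]

/-- The unit sphere of `ℝ³`, the ideal boundary of the Klein model. -/
def sphere2 : Set (Fin 3 → ℝ) := {p | p 0 ^ 2 + p 1 ^ 2 + p 2 ^ 2 = 1}

/-- The Riemann sphere `ℂ ∪ {∞}` as the ideal boundary (stereographic projection). -/
noncomputable def sph : OnePoint ℂ → (Fin 3 → ℝ)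
  | OnePoint.infty => ![0, 0, 1]
  | OnePoint.some z => ![2 * z.re / (‖z‖ ^ 2 + 1), 2 * z.im / (‖z‖ ^ 2 + 1),
      (‖z‖ ^ 2 - 1) / (‖z‖ ^ 2 + 1)]

/-- Closed round disks of the Riemann sphere: the part of the sphere in a closed half space
`{p | c ≤ n · p}` with `|c| < |n|`. -/
def IsRoundDisk (D : Set (OnePoint ℂ)) : Prop :=
  ∃ (n : Fin 3 → ℝ) (c : ℝ), c ^ 2 < n 0 ^ 2 + n 1 ^ 2 + n 2 ^ 2 ∧
    D = {p | c ≤ n 0 * sph p 0 + n 1 * sph p 1 + n 2 * sph p 2}

/-- Circle domains: connected open sets of the Riemann sphere with nonempty complement, all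
components of which are closed round disks or points. -/
structure IsCircleDomain (Γ : Set (OnePoint ℂ)) : Prop where
  isOpen : IsOpen Γ
  isConnected : IsConnected Γ
  compl_nonempty : Γᶜ.Nonempty
  component : ∀ x ∈ Γᶜ, connectedComponentIn Γᶜ x = {x} ∨ IsRoundDisk (connectedComponentIn Γᶜ x)

/-- Möbius transformations `z ↦ (a z + b) / (c z + d)`. -/
noncomputable def mobius (a b c d : ℂ) : OnePoint ℂ → OnePoint ℂ
  | OnePoint.infty => if c = 0 then OnePoint.infty else OnePoint.some (a / c)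
  | OnePoint.some z => if c * z + d = 0 then OnePoint.infty
      else OnePoint.some ((a * z + b) / (c * z + d))

/-- Complex conjugation on the Riemann sphere. -/
noncomputable def conjS : OnePoint ℂ → OnePoint ℂ
  | OnePoint.infty => OnePoint.infty
  | OnePoint.some z => OnePoint.some ((starRingEnd ℂ) z)

/-- `Γ₁` is the image of `Γ₂` under a Möbius transformation, or the image of the mirror image
of `Γ₂`. -/
def MobiusEquiv (Γ₁ Γ₂ : Set (OnePoint ℂ)) : Prop :=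
  ∃ a b c d : ℂ, a * d - b * c ≠ 0 ∧
    (mobius a b c d '' Γ₂ = Γ₁ ∨ mobius a b c d '' (conjS '' Γ₂) = Γ₁)

/-- A Riemannian metric `E dx² + 2 F dx dy + G dy²` on a plane domain. -/
structure Metric2 where
  E : ℂ → ℝ
  F : ℂ → ℝ
  G : ℂ → ℝ

/-- Smooth and positive definite on `S`. -/
def Metric2.IsRiemannian (g : Metric2) (S : Set ℂ) : Prop :=
  ContDiffOn ℝ ∞ g.E S ∧ ContDiffOn ℝ ∞ g.F S ∧ ContDiffOn ℝ ∞ g.G S ∧
    ∀ z ∈ S, 0 < g.E z ∧ 0 < g.E z * g.G z - g.F z ^ 2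

/-- Partial derivatives. -/
noncomputable def dx {V : Type*} [NormedAddCommGroup V] [NormedSpace ℝ V] (f : ℂ → V) : ℂ → V :=
  fun z => fderiv ℝ f z 1

noncomputable def dy {V : Type*} [NormedAddCommGroup V] [NormedSpace ℝ V] (f : ℂ → V) : ℂ → V :=
  fun z => fderiv ℝ f z Complex.I

/-- Gaussian curvature by the formula of Brioschi. -/
noncomputable def gaussK (g : Metric2) (z : ℂ) : ℝ :=
  (Matrix.det !![-(dy (dy g.E) z) / 2 + dx (dy g.F) z - dx (dx g.G) z / 2, dx g.E z / 2,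
        dx g.F z - dy g.E z / 2;
      dy g.F z - dx g.G z / 2, g.E z, g.F z;
      dy g.G z / 2, g.F z, g.G z]
    - Matrix.det !![0, dy g.E z / 2, dx g.G z / 2;
      dy g.E z / 2, g.E z, g.F z;
      dx g.G z / 2, g.F z, g.G z]) / (g.E z * g.G z - g.F z ^ 2) ^ 2

/-- Length of the velocity vector. -/
noncomputable def Metric2.speed (g : Metric2) (γ : ℝ → ℂ) (t : ℝ) : ℝ :=
  Real.sqrt (g.E (γ t) * (deriv γ t).re ^ 2 + 2 * g.F (γ t) * ((deriv γ t).re * (deriv γ t).im)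
    + g.G (γ t) * (deriv γ t).im ^ 2)

/-- Completeness of the Riemannian distance: every Cauchy sequence converges. Two points of `S` are
at distance less than `η` if they are joined by a `C¹` curve in `S` of length less than `η`. -/
def Metric2.IsComplete (g : Metric2) (S : Set ℂ) : Prop :=
  ∀ u : ℕ → ℂ, (∀ n, u n ∈ S) →
    (∀ η > 0, ∃ N, ∀ m ≥ N, ∀ n ≥ N, ∃ γ : ℝ → ℂ, ContDiff ℝ 1 γ ∧ (∀ t ∈ Icc (0 : ℝ) 1, γ t ∈ S) ∧
      γ 0 = u m ∧ γ 1 = u n ∧ ∫ t in (0 : ℝ)..1, g.speed γ t < η) →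
    ∃ p ∈ S, Tendsto u atTop (𝓝 p)

/-- Closed geodesics: nonconstant smooth periodic curves satisfying the geodesic equations
`d/dt (g_{ij} γ̇^j) = (1/2) ∂_i g_{jk} γ̇^j γ̇^k`. -/
structure Metric2.IsClosedGeodesic (g : Metric2) (S : Set ℂ) (γ : ℝ → ℂ) (T : ℝ) : Prop where
  pos : 0 < T
  smooth : ContDiff ℝ ∞ γ
  mem : ∀ t, γ t ∈ S
  periodic : ∀ t, γ (t + T) = γ t
  nonconst : ∃ t, deriv γ t ≠ 0
  eqx : ∀ t, deriv (fun s => g.E (γ s) * (deriv γ s).re + g.F (γ s) * (deriv γ s).im) t =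
    (dx g.E (γ t) * (deriv γ t).re ^ 2 + 2 * dx g.F (γ t) * ((deriv γ t).re * (deriv γ t).im)
      + dx g.G (γ t) * (deriv γ t).im ^ 2) / 2
  eqy : ∀ t, deriv (fun s => g.F (γ s) * (deriv γ s).re + g.G (γ s) * (deriv γ s).im) t =
    (dy g.E (γ t) * (deriv γ t).re ^ 2 + 2 * dy g.F (γ t) * ((deriv γ t).re * (deriv γ t).im)
      + dy g.G (γ t) * (deriv γ t).im ^ 2) / 2

/-- The pull back of the Minkowski form under `X`, that is, the first fundamental form of an
immersed surface `X` of `ℍ³`, and, applied to the unit normal `N`, the third fundamental form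
`⟨dN, dN⟩` (the derivative of `N` in `ℝ⁴` is tangent to `ℍ³`, hence equal to `∇N`). -/
noncomputable def form (X : ℂ → Fin 4 → ℝ) : Metric2 where
  E := fun z => mink (dx X z) (dx X z)
  F := fun z => mink (dx X z) (dy X z)
  G := fun z => mink (dy X z) (dy X z)

/-- `X : S → ℍ³` parametrizes the surface `S_K(Γ)` bounding the convex set `C = C_K(Γ)`. -/
structure IsKSurface (K : ℝ) (Γ : Set (OnePoint ℂ)) (C : Set (Fin 4 → ℝ)) (S : Set ℂ)
    (X : ℂ → Fin 4 → ℝ) : Prop where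
  sub : C ⊆ Hyp
  closed : IsClosed C
  convex : Convex ℝ (klein '' C)
  hull : ∀ x ∈ Hyp, klein x ∈ convexHull ℝ (sph '' Γᶜ) → x ∈ C
  smooth : ContDiffOn ℝ ∞ X S
  embedding : Topology.IsEmbedding (fun z : S => X z)
  image : X '' S = {x ∈ C | x ∈ closure (Hyp \ C)}
  immersion : (form X).IsRiemannian S
  curvature : ∀ z ∈ S, gaussK (form X) z = K
  ideal : closure (klein '' (X '' S)) ∩ sphere2 = sph '' (frontier Γ)

/-- `(S, g)` is isometric, by the parametrization `X`, to the surface with its third fundamental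
form. -/
def HasThirdForm (S : Set ℂ) (X : ℂ → Fin 4 → ℝ) (g : Metric2) : Prop :=
  ∃ N : ℂ → Fin 4 → ℝ, ContDiffOn ℝ ∞ N S ∧
    (∀ z ∈ S, mink (N z) (N z) = 1 ∧ mink (N z) (X z) = 0 ∧ mink (N z) (dx X z) = 0 ∧
      mink (N z) (dy X z) = 0) ∧
    ∀ z ∈ S, (form N).E z = g.E z ∧ (form N).F z = g.F z ∧ (form N).G z = g.G z

/-- `(S, g)` is isometric to `S_K(Γ)` with its third fundamental form. -/
def Realizes (K : ℝ) (S : Set ℂ) (g : Metric2) (Γ : Set (OnePoint ℂ)) : Prop :=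
  ∃ (C : Set (Fin 4 → ℝ)) (X : ℂ → Fin 4 → ℝ), IsKSurface K Γ C S X ∧ HasThirdForm S X g

/-- The failure of uniqueness in Q1 for the curvature `K`. -/
def NonUnique (K : ℝ) : Prop :=
  ∃ (S : Set ℂ) (g : Metric2), IsOpen S ∧ IsConnected S ∧ g.IsRiemannian S ∧ g.IsComplete S ∧
    (∀ z ∈ S, gaussK g z = K / (K + 1)) ∧
    (∀ γ T, g.IsClosedGeodesic S γ T → 2 * Real.pi < ∫ t in (0 : ℝ)..T, g.speed γ t) ∧
    ∃ Γ₁ Γ₂ : Set (OnePoint ℂ), IsCircleDomain Γ₁ ∧ IsCircleDomain Γ₂ ∧ ¬ MobiusEquiv Γ₁ Γ₂ ∧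
      Realizes K S g Γ₁ ∧ Realizes K S g Γ₂

/-- The main statement. -/
def Main : Prop := ∃ K₀ : ℝ, -1 < K₀ ∧ K₀ < 0 ∧ ∀ K : ℝ, K₀ < K → K < 0 → NonUnique K

end Pool.Agent.KKS
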