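import Pool.Agent.W_bb4b37_h53.RealDefs
import Pool.Agent.W_bb4b37_h53.Stmt

/-!
# Assembly (part A)
-/

set_option autoImplicit false

open Filter Topology Set MeasureTheory Metric
open scoped ContDiff

namespace Pool.Agent.KK

open Pool.Agent.KKS (mink Hyp klein sphere2 sph form gaussK Metric2 NonUnique)

theorem FinalA_not_mem (m : ℤ) : ((m : ℝ) - 1 / 2000) ∉ K1 := by
  intro h
  obtain ⟨k, hk⟩ := CantorA_mem_K1.1 h
  have h1 := CantorA_C_sub hk
  rw [CantorA_ell_zero] at h1
  rcases le_or_gt m k with h2 | h2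
  · have h3 : (m : ℝ) ≤ k := by exact_mod_cast h2
    linarith [h1.1]
  · have h3 : (k : ℝ) + 1 ≤ m := by exact_mod_cast h2
    linarith [h1.2]

/-- The open box of size `2 n`, bounded by lines in the gaps of `K1`. -/
def FinalA_box (n : ℕ) : Set ℂ :=
  {z | z.re ∈ Set.Ioo (-(n : ℝ) - 1 / 2000) ((n : ℝ) - 1 / 2000) ∧
    z.im ∈ Set.Ioo (-(n : ℝ) - 1 / 2000) ((n : ℝ) - 1 / 2000)}

/-- The closed box of size `2 n`. -/
def FinalA_cbox (n : ℕ) : Set ℂ :=
  {z | z.re ∈ Set.Icc (-(n : ℝ) - 1 / 2000) ((n : ℝ) - 1 / 2000) ∧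
    z.im ∈ Set.Icc (-(n : ℝ) - 1 / 2000) ((n : ℝ) - 1 / 2000)}

theorem FinalA_isOpen_box (n : ℕ) : IsOpen (FinalA_box n) :=
  (isOpen_Ioo.preimage Complex.continuous_re).inter (isOpen_Ioo.preimage Complex.continuous_im)

theorem FinalA_box_sub (n : ℕ) : FinalA_box n ⊆ FinalA_cbox n :=
  fun _ hz => ⟨Set.Ioo_subset_Icc_self hz.1, Set.Ioo_subset_Icc_self hz.2⟩

theorem FinalA_isCompact_cbox (n : ℕ) : IsCompact (FinalA_cbox n) := by
  refine Metric.isCompact_of_isClosed_isBounded
    ((isClosed_Icc.preimage Complex.continuous_re).inter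
      (isClosed_Icc.preimage Complex.continuous_im)) ?_
  refine (Metric.isBounded_closedBall (x := (0 : ℂ)) (r := 2 * ((n : ℝ) + 1))).subset ?_
  intro z hz
  rw [mem_closedBall_zero_iff]
  have h1 := Complex.norm_le_abs_re_add_abs_im z
  obtain ⟨⟨h2, h3⟩, h4, h5⟩ := hz
  have h6 : |z.re| ≤ (n : ℝ) + 1 := abs_le.2 ⟨by linarith, by linarith⟩
  have h7 : |z.im| ≤ (n : ℝ) + 1 := abs_le.2 ⟨by linarith, by linarith⟩
  linarith

theorem FinalA_box_of_mem {n : ℕ} {z : ℂ} (hz : z ∈ Lam) (h : z ∈ FinalA_cbox n) :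
    z ∈ FinalA_box n := by
  have key : ∀ x : ℝ, x ∈ K1 → x ∈ Set.Icc (-(n : ℝ) - 1 / 2000) ((n : ℝ) - 1 / 2000) →
      x ∈ Set.Ioo (-(n : ℝ) - 1 / 2000) ((n : ℝ) - 1 / 2000) := by
    intro x hx hI
    refine ⟨lt_of_le_of_ne hI.1 ?_, lt_of_le_of_ne hI.2 ?_⟩
    · intro he
      have h1 := FinalA_not_mem (-(n : ℤ))
      apply h1
      push_cast
      rw [he]
      exact hx
    · intro he
      have h1 := FinalA_not_mem (n : ℤ)
      apply h1
      push_cast
      rw [← he]
      exact hx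
  exact ⟨key _ hz.1 h.1, key _ hz.2 h.2⟩

theorem FinalA_exists_box (z : ℂ) : ∃ n : ℕ, z ∈ FinalA_box n := by
  obtain ⟨n, hn⟩ := exists_nat_gt (|z.re| + |z.im| + 1)
  have h1 := neg_abs_le z.re
  have h2 := le_abs_self z.re
  have h3 := neg_abs_le z.im
  have h4 := le_abs_self z.im
  have h5 := abs_nonneg z.re
  have h6 := abs_nonneg z.im
  exact ⟨n, ⟨by linarith, by linarith⟩, by linarith, by linarith⟩

theorem FinalA_compl (S : Set ℂ) :
    ((OnePoint.some '' Sᶜ : Set (OnePoint ℂ)))ᶜ = {OnePoint.infty} ∪ OnePoint.some '' S := by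
  ext p
  induction p using OnePoint.rec with
  | infty => simp
  | coe z =>
    simp only [Set.mem_compl_iff, Set.mem_image, Set.mem_union, Set.mem_singleton_iff]
    constructor
    · intro h
      right
      refine ⟨z, ?_, rfl⟩
      by_contra hz
      exact h ⟨z, hz, rfl⟩
    · rintro (h | ⟨y, hy, hyz⟩)
      · exact absurd h (OnePoint.coe_ne_infty z)
      · rintro ⟨y', hy', hyz'⟩
        have h1 : y = z := OnePoint.coe_injective hyz
        have h2 : y' = z := OnePoint.coe_injective hyz'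
        rw [h2, ← h1] at hy'
        exact hy' hy

theorem FinalA_totDisc (F : ℂ ≃ₜ ℂ) :
    IsTotallyDisconnected ({OnePoint.infty} ∪ OnePoint.some '' (F ⁻¹' Lam) : Set (OnePoint ℂ)) := by
  intro t ht hpre
  by_cases hinf : OnePoint.infty ∈ t
  · -- then `t` has no other points
    have hno : ∀ z : ℂ, (OnePoint.some z : OnePoint ℂ) ∉ t := by
      intro z hz
      obtain ⟨n, hn⟩ := FinalA_exists_box (F z)
      have hU : IsOpen (OnePoint.some '' (F ⁻¹' (FinalA_box n)) : Set (OnePoint ℂ)) :=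
        OnePoint.isOpenEmbedding_coe.isOpenMap _ ((FinalA_isOpen_box n).preimage F.continuous)
      have hV : IsOpen ((OnePoint.some '' (F ⁻¹' (FinalA_cbox n)) : Set (OnePoint ℂ))ᶜ) := by
        rw [isOpen_compl_iff]
        refine IsCompact.isClosed (IsCompact.image ?_ OnePoint.continuous_coe)
        exact (F.isCompact_preimage).2 (FinalA_isCompact_cbox n)
      have hcov : t ⊆ (OnePoint.some '' (F ⁻¹' (FinalA_box n)) : Set (OnePoint ℂ)) ∪
          ((OnePoint.some '' (F ⁻¹' (FinalA_cbox n)) : Set (OnePoint ℂ))ᶜ) := by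
        intro p hp
        rcases ht hp with h1 | ⟨y, hy, rfl⟩
        · right
          rw [Set.mem_singleton_iff.1 h1]
          rintro ⟨y, -, hy⟩
          exact OnePoint.coe_ne_infty y hy
        · by_cases h2 : F y ∈ FinalA_cbox n
          · left
            exact ⟨y, FinalA_box_of_mem hy h2, rfl⟩
          · right
            rintro ⟨y', hy', hyy⟩
            have h3 : y' = y := OnePoint.coe_injective hyy
            rw [h3] at hy'
            exact h2 hy'
      obtain ⟨p, -, hp1, hp2⟩ := hpre _ _ hU hV hcov ⟨_, hz, ⟨z, hn, rfl⟩⟩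
        ⟨_, hinf, by
          rintro ⟨y, -, hy⟩
          exact OnePoint.coe_ne_infty y hy⟩
      obtain ⟨y, hy, rfl⟩ := hp1
      exact hp2 ⟨y, FinalA_box_sub n hy, rfl⟩
    intro p hp q hq
    have h1 : ∀ p ∈ t, p = OnePoint.infty := by
      intro p hp
      induction p using OnePoint.rec with
      | infty => rfl
      | coe z => exact absurd hp (hno z)
    rw [h1 p hp, h1 q hq]
  · have hsub : t ⊆ OnePoint.some '' (F ⁻¹' Lam) := by
      intro p hp
      rcases ht hp with h1 | h1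
      · rw [Set.mem_singleton_iff.1 h1] at hp
        exact absurd hp hinf
      · exact h1
    have himg : (OnePoint.some : ℂ → OnePoint ℂ) '' (OnePoint.some ⁻¹' t) = t := by
      refine Set.image_preimage_eq_of_subset ?_
      intro p hp
      obtain ⟨y, -, hy⟩ := hsub hp
      exact ⟨y, hy⟩
    have hpre' : IsPreconnected ((OnePoint.some : ℂ → OnePoint ℂ) ⁻¹' t) := by
      refine (OnePoint.isOpenEmbedding_coe.isInducing.isPreconnected_image).1 ?_
      rw [himg]
      exact hpre
    have hF : (F '' ((OnePoint.some : ℂ → OnePoint ℂ) ⁻¹' t)).Subsingleton := by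
      refine totallyDisconnected_Lam _ ?_ (hpre'.image F F.continuous.continuousOn)
      rintro _ ⟨y, hy, rfl⟩
      obtain ⟨y', hy', hyy⟩ := hsub hy
      have h3 : y' = y := OnePoint.coe_injective hyy
      rw [h3] at hy'
      exact hy'
    have hs : ((OnePoint.some : ℂ → OnePoint ℂ) ⁻¹' t).Subsingleton :=
      Set.subsingleton_of_image F.injective _ hF
    rw [← himg]
    exact hs.image _

/-- `(F ⁻¹' Lam)ᶜ` gives a circle domain. -/
theorem Realization.circleDomain {C H ε a : ℝ} {F : ℂ ≃ₜ ℂ} {w : ℂ → ℝ}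
    (hr : Realization C H ε a F w) : KKS.IsCircleDomain (OnePoint.some '' (F ⁻¹' Lam)ᶜ) := by
  have hopen : IsOpen (F ⁻¹' Lam)ᶜ := (isClosed_Lam.preimage F.continuous).isOpen_compl
  have htd := FinalA_totDisc F
  refine ⟨OnePoint.isOpenEmbedding_coe.isOpenMap _ hopen, ?_, ?_, ?_⟩
  · refine IsConnected.image ?_ _ OnePoint.continuous_coe.continuousOn
    have h1 : (F ⁻¹' Lam)ᶜ = F.symm '' Lamᶜ := by
      rw [← Set.preimage_compl, ← F.image_symm]
    rw [h1]
    exact isConnected_compl_Lam.image _ F.symm.continuous.continuousOn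
  · rw [FinalA_compl]
    exact ⟨OnePoint.infty, Or.inl rfl⟩
  · intro x hx
    left
    rw [FinalA_compl] at hx ⊢
    exact (htd _ (connectedComponentIn_subset _ _) isPreconnected_connectedComponentIn).eq_singleton_of_mem
      (mem_connectedComponentIn hx)

end Pool.Agent.KK
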