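import Pool.Agent.W_bb4b37_h53.Geo3A

/-!
# Assembly (part B)
-/

set_option autoImplicit false

open Filter Topology Set MeasureTheory Metric
open scoped ContDiff

namespace Pool.Agent.KK

open Pool.Agent.KKS (mink Hyp klein sphere2 sph form gaussK Metric2 NonUnique)

/-- The restriction of a homeomorphism of the plane. -/
theorem FinalB_restrict {U V : Set ℂ} (g : ℂ ≃ₜ ℂ) (hm : g '' U = V) :
    ∃ e : U ≃ₜ V, ∀ z : U, ((e z : V) : ℂ) = g z := by
  subst hm
  exact ⟨g.image U, fun z => rfl⟩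

/-- The first fundamental form in new parameters is positive definite. -/
theorem FinalB_riem {C ε : ℝ} {S : Set ℂ} {w : ℂ → ℝ} (h : Geo C ε S w) {U : Set ℂ}
    (hU : IsOpen U) {g : ℂ → ℂ} (hg : ContDiffOn ℝ ∞ g U) (hm : MapsTo g U Sᶜ)
    (hJ : ∀ z ∈ U, (fderiv ℝ g z).det ≠ 0) :
    (form (fun y => Xs ε w (g y))).IsRiemannian U := by
  obtain ⟨-, -, -, -, hX, -⟩ := h.smooth_all
  have hXg : ContDiffOn ℝ ∞ (fun y => Xs ε w (g y)) U := hX.comp hg hm
  have hgd : ∀ z ∈ U, DifferentiableAt ℝ g z := fun z hz =>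
    (hg.contDiffAt (hU.mem_nhds hz)).differentiableAt (by simp)
  obtain ⟨h1, h2, h3⟩ := contDiffOn_form hU hXg
  refine ⟨h1, h2, h3, ?_⟩
  intro z hz
  have hd := (h.diff_X (hm hz)).1
  have hdet : 0 < detg (form (fun y => Xs ε w (g y))) z := by
    rw [detg_comp (hgd z hz) hd]
    have e1 := (h.detI_pos (hm hz)).1
    have e2 := hJ z hz
    positivity
  refine ⟨?_, hdet⟩
  obtain ⟨e1, -, -⟩ := form_comp (hgd z hz) hd
  rw [e1]
  have hE : 0 < (form (Xs ε w)).E (g z) := (h.detI_eq (hm hz)).2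
  have hD : 0 < (form (Xs ε w)).E (g z) * (form (Xs ε w)).G (g z) -
      (form (Xs ε w)).F (g z) ^ 2 := (h.detI_pos (hm hz)).1
  have hJz := hJ z hz
  rw [det_fderiv_re] at hJz
  set a := (Dx g z).re
  set b := (Dx g z).im
  set E := (form (Xs ε w)).E (g z)
  set F := (form (Xs ε w)).F (g z)
  set G := (form (Xs ε w)).G (g z)
  have hsq : E * (E * a ^ 2 + 2 * F * (a * b) + G * b ^ 2) =
      (E * a + F * b) ^ 2 + (E * G - F ^ 2) * b ^ 2 := by ring
  have hpos : 0 < (E * a + F * b) ^ 2 + (E * G - F ^ 2) * b ^ 2 := by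
    by_cases hb : b = 0
    · have ha : a ≠ 0 := by
        intro ha
        apply hJz
        rw [ha, hb]
        ring
      rw [hb]
      have : 0 < (E * a) ^ 2 := by positivity
      nlinarith
    · have e2 : 0 < (E * G - F ^ 2) * b ^ 2 := by positivity
      have e3 := sq_nonneg (E * a + F * b)
      linarith
  rw [← hsq] at hpos
  exact (mul_pos_iff_of_pos_left hE).mp hpos

/-- The `K`-surface over `F ⁻¹' Lam`, parametrized by an open set `U` through a smooth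
homeomorphism `g` of `U` onto `(F ⁻¹' Lam)ᶜ` with nonvanishing Jacobian. -/
theorem isKSurface {C ε : ℝ} {S : Set ℂ} {w : ℂ → ℝ} (h : Geo C ε S w) {U : Set ℂ}
    (hU : IsOpen U) {g : ℂ ≃ₜ ℂ} (hg : ContDiffOn ℝ ∞ g U) (hm : g '' U = Sᶜ)
    (hJ : ∀ z ∈ U, (fderiv ℝ g z).det ≠ 0) :
    KKS.IsKSurface (-(ε ^ 2 / (1 + ε ^ 2))) (OnePoint.some '' Sᶜ) (CC ε S w) U
      (fun y => Xs ε w (g y)) := by
  have hmaps : MapsTo g U Sᶜ := by
    intro z hz
    rw [← hm]
    exact ⟨z, hz, rfl⟩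
  have himg : (fun y => Xs ε w (g y)) '' U = Xs ε w '' Sᶜ := by
    rw [← hm, image_image]
  obtain ⟨-, -, -, -, hX, -⟩ := h.smooth_all
  refine ⟨fun x hx => hx.1, h.CC_closed, h.CC_convex, h.CC_hull, hX.comp hg hmaps, ?_, ?_,
    FinalB_riem h hU hg hmaps hJ, h.curv_I_comp hU hg hmaps hJ, ?_⟩
  · obtain ⟨e, he⟩ := FinalB_restrict g hm
    have h1 := h.embedding.comp e.isEmbedding
    have h2 : (fun z : U => Xs ε w (g z)) =
        (fun z : (Sᶜ : Set ℂ) => Xs ε w z) ∘ e := by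
      funext z
      show Xs ε w (g z) = Xs ε w ((e z : (Sᶜ : Set ℂ)) : ℂ)
      rw [he]
    rw [h2]
    exact h1
  · rw [himg]
    exact h.frontier_CC
  · rw [himg]
    exact h.ideal

end Pool.Agent.KK
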