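import Pool.Agent.W_bb4b37_h53.Geo3A

/-!
# Completeness
-/

set_option autoImplicit false

open Filter Topology Set MeasureTheory Metric
open scoped ContDiff

namespace Pool.Agent.KK

open Pool.Agent.KKS (mink Hyp klein sphere2 sph form gaussK Metric2)

variable {C ε : ℝ} {S : Set ℂ} {w : ℂ → ℝ}

theorem Geo.eC (h : Geo C ε S w) : 3 * C * ε ≤ 1 := by
  have h1 := h.hC
  have h2 := h.hε
  have h3 := h.small
  have h4 : C * ε ≤ ε * C ^ 2 := by
    have h5 : C * 1 ≤ C * C := mul_le_mul_of_nonneg_left h1 (by linarith)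
    have h6 := mul_le_mul_of_nonneg_left h5 h2.le
    linarith
  linarith

theorem Geo.dw_le (h : Geo C ε S w) {z : ℂ} (hz : z ∈ Sᶜ) (v : ℂ) :
    |fderiv ℝ w z v| ≤ 2 * C * Real.exp (w z) * ‖v‖ := by
  have h1 : |Dx w z| ≤ C * Real.exp (w z) := h.scaled.d1 z hz [true] rfl
  have h2 : |Dy w z| ≤ C * Real.exp (w z) := h.scaled.d1 z hz [false] rfl
  have h3 : 0 ≤ C * Real.exp (w z) := (abs_nonneg _).trans h1
  rw [fderiv_eq, smul_eq_mul, smul_eq_mul]
  have h4 := abs_add_le (v.re * Dx w z) (v.im * Dy w z)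
  rw [abs_mul, abs_mul] at h4
  have h5 : |v.re| * |Dx w z| ≤ ‖v‖ * (C * Real.exp (w z)) :=
    mul_le_mul (Complex.abs_re_le_norm v) h1 (abs_nonneg _) (norm_nonneg _)
  have h6 : |v.im| * |Dy w z| ≤ ‖v‖ * (C * Real.exp (w z)) :=
    mul_le_mul (Complex.abs_im_le_norm v) h2 (abs_nonneg _) (norm_nonneg _)
  linarith

theorem Geo.speed_lower (h : Geo C ε S w) {γ : ℝ → ℂ} {t : ℝ} (ht : γ t ∈ Sᶜ) :
    ‖deriv γ t‖ ≤ 10 / 9 * (ε * Real.exp (-(w (γ t)))) * (form (Ns ε w)).speed γ t := by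
  have h1 := (h.speed_bounds ht).1
  have h2 : 0 < Rr ε w (γ t) := h.Rr_pos (γ t)
  rw [div_le_iff₀ h2] at h1
  have h3 : Rr ε w (γ t) = ε * Real.exp (-(w (γ t))) := rfl
  rw [h3] at h1
  linarith

theorem Geo.dw_speed (h : Geo C ε S w) {γ : ℝ → ℂ} {t : ℝ} (ht : γ t ∈ Sᶜ) :
    |fderiv ℝ w (γ t) (deriv γ t)| ≤ 3 * C * ε * (form (Ns ε w)).speed γ t := by
  have h0 : 0 ≤ (form (Ns ε w)).speed γ t := Real.sqrt_nonneg _
  have h1 := h.dw_le ht (deriv γ t)
  have h2 := h.speed_lower ht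
  have hC := h.hC
  have hε := h.hε
  have h3 : 0 ≤ 2 * C * Real.exp (w (γ t)) := by positivity
  have h4 := mul_le_mul_of_nonneg_left h2 h3
  have h5 : Real.exp (w (γ t)) * Real.exp (-(w (γ t))) = 1 := by
    rw [← Real.exp_add, add_neg_cancel, Real.exp_zero]
  have h6 : 2 * C * Real.exp (w (γ t)) * (10 / 9 * (ε * Real.exp (-(w (γ t)))) *
      (form (Ns ε w)).speed γ t) = 20 / 9 * C * ε * (form (Ns ε w)).speed γ t := by
    calc _ = 20 / 9 * C * ε * (form (Ns ε w)).speed γ t *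
          (Real.exp (w (γ t)) * Real.exp (-(w (γ t)))) := by ring
      _ = _ := by rw [h5, mul_one]
  have h7 : 0 ≤ C * ε * (form (Ns ε w)).speed γ t := by positivity
  linarith

theorem Geo.speed_cont (h : Geo C ε S w) {γ : ℝ → ℂ} (hγ : ContDiff ℝ 1 γ)
    (hS : ∀ t ∈ Icc (0 : ℝ) 1, γ t ∈ Sᶜ) :
    ContinuousOn (fun t => (form (Ns ε w)).speed γ t) (Icc 0 1) := by
  obtain ⟨hE, hF, hG, -⟩ := h.riem_III
  have hc : ContinuousOn γ (Icc 0 1) := hγ.continuous.continuousOn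
  have hd : Continuous (deriv γ) := hγ.continuous_deriv le_rfl
  have hre : ContinuousOn (fun t => (deriv γ t).re) (Icc 0 1) :=
    (Complex.continuous_re.comp hd).continuousOn
  have him : ContinuousOn (fun t => (deriv γ t).im) (Icc 0 1) :=
    (Complex.continuous_im.comp hd).continuousOn
  have hE' : ContinuousOn (fun t => (form (Ns ε w)).E (γ t)) (Icc 0 1) :=
    hE.continuousOn.comp hc hS
  have hF' : ContinuousOn (fun t => (form (Ns ε w)).F (γ t)) (Icc 0 1) :=
    hF.continuousOn.comp hc hS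
  have hG' : ContinuousOn (fun t => (form (Ns ε w)).G (γ t)) (Icc 0 1) :=
    hG.continuousOn.comp hc hS
  unfold Metric2.speed
  exact (((hE'.mul (hre.pow 2)).add ((continuousOn_const.mul hF').mul (hre.mul him))).add
    (hG'.mul (him.pow 2))).sqrt

/-- variation of `w` along a curve -/
theorem Geo.curve_w (h : Geo C ε S w) {γ : ℝ → ℂ} (hγ : ContDiff ℝ 1 γ)
    (hS : ∀ t ∈ Icc (0 : ℝ) 1, γ t ∈ Sᶜ) {t : ℝ} (ht : t ∈ Icc (0 : ℝ) 1) :
    |w (γ t) - w (γ 0)| ≤ 3 * C * ε * ∫ s in (0 : ℝ)..1, (form (Ns ε w)).speed γ s := by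
  have hopen : IsOpen Sᶜ := h.closed.isOpen_compl
  have hC := h.hC
  have hε := h.hε
  have hsub : uIcc 0 t ⊆ Icc (0 : ℝ) 1 := by
    rw [uIcc_of_le ht.1]
    exact Icc_subset_Icc_right ht.2
  have hder : ∀ s ∈ uIcc 0 t, HasDerivAt (fun s => w (γ s)) (fderiv ℝ w (γ s) (deriv γ s)) s := by
    intro s hs
    have h1 : DifferentiableAt ℝ w (γ s) :=
      (h.smooth.contDiffAt (hopen.mem_nhds (hS s (hsub hs)))).differentiableAt (by simp)
    have h2 : HasDerivAt γ (deriv γ s) s :=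
      ((hγ.differentiable one_ne_zero) s).hasDerivAt
    exact h1.hasFDerivAt.comp_hasDerivAt s h2
  have hcont : ContinuousOn (fun s => fderiv ℝ w (γ s) (deriv γ s)) (uIcc 0 t) := by
    have h1 : ContinuousOn (fderiv ℝ w) Sᶜ := h.smooth.continuousOn_fderiv_of_isOpen hopen (by simp)
    have h2 : ContinuousOn (fun s => fderiv ℝ w (γ s)) (uIcc 0 t) :=
      h1.comp hγ.continuous.continuousOn (fun s hs => hS s (hsub hs))
    exact h2.clm_apply (hγ.continuous_deriv le_rfl).continuousOn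
  have hint := intervalIntegral.integral_eq_sub_of_hasDerivAt hder hcont.intervalIntegrable
  have hsp := h.speed_cont hγ hS
  have hspi : IntervalIntegrable (fun s => (form (Ns ε w)).speed γ s) volume 0 1 := by
    apply ContinuousOn.intervalIntegrable
    rwa [uIcc_of_le zero_le_one]
  have hspt : IntervalIntegrable (fun s => (form (Ns ε w)).speed γ s) volume 0 t :=
    (hsp.mono hsub).intervalIntegrable
  rw [← hint, ← Real.norm_eq_abs]
  have h1 : ‖∫ s in (0 : ℝ)..t, fderiv ℝ w (γ s) (deriv γ s)‖ ≤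
      ∫ s in (0 : ℝ)..t, 3 * C * ε * (form (Ns ε w)).speed γ s := by
    refine intervalIntegral.norm_integral_le_of_norm_le ht.1 ?_ (hspt.const_mul _)
    refine Eventually.of_forall fun s hs => ?_
    rw [Real.norm_eq_abs]
    exact h.dw_speed (hS s ⟨hs.1.le, hs.2.trans ht.2⟩)
  refine h1.trans ?_
  rw [intervalIntegral.integral_const_mul]
  refine mul_le_mul_of_nonneg_left ?_ (by positivity)
  refine intervalIntegral.integral_mono_interval le_rfl ht.1 ht.2 ?_ hspi
  exact Eventually.of_forall fun s => Real.sqrt_nonneg _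

/-- displacement along a curve -/
theorem Geo.curve_dist (h : Geo C ε S w) {γ : ℝ → ℂ} (hγ : ContDiff ℝ 1 γ)
    (hS : ∀ t ∈ Icc (0 : ℝ) 1, γ t ∈ Sᶜ) {b : ℝ} (hb : ∀ t ∈ Icc (0 : ℝ) 1, b ≤ w (γ t)) :
    ‖γ 1 - γ 0‖ ≤ 2 * ε * Real.exp (-b) * ∫ s in (0 : ℝ)..1, (form (Ns ε w)).speed γ s := by
  have hε := h.hε
  have hder : ∀ s ∈ uIcc (0 : ℝ) 1, HasDerivAt γ (deriv γ s) s := fun s _ =>
    ((hγ.differentiable one_ne_zero) s).hasDerivAt
  have hcont : ContinuousOn (deriv γ) (uIcc (0 : ℝ) 1) :=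
    (hγ.continuous_deriv le_rfl).continuousOn
  have hint := intervalIntegral.integral_eq_sub_of_hasDerivAt hder hcont.intervalIntegrable
  have hsp := h.speed_cont hγ hS
  have hspi : IntervalIntegrable (fun s => (form (Ns ε w)).speed γ s) volume 0 1 := by
    apply ContinuousOn.intervalIntegrable
    rwa [uIcc_of_le zero_le_one]
  rw [← hint]
  have h1 : ‖∫ s in (0 : ℝ)..1, deriv γ s‖ ≤
      ∫ s in (0 : ℝ)..1, 2 * ε * Real.exp (-b) * (form (Ns ε w)).speed γ s := by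
    refine intervalIntegral.norm_integral_le_of_norm_le zero_le_one ?_ (hspi.const_mul _)
    refine Eventually.of_forall fun s hs => ?_
    have hs' : s ∈ Icc (0 : ℝ) 1 := ⟨hs.1.le, hs.2⟩
    refine (h.speed_lower (hS s hs')).trans ?_
    refine mul_le_mul_of_nonneg_right ?_ (Real.sqrt_nonneg _)
    have h2 : Real.exp (-(w (γ s))) ≤ Real.exp (-b) :=
      Real.exp_le_exp.2 (neg_le_neg (hb s hs'))
    have h3 : 0 < Real.exp (-b) := Real.exp_pos _
    have h4 := mul_le_mul_of_nonneg_left h2 hε.le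
    have h5 := mul_pos hε h3
    linarith
  refine h1.trans ?_
  rw [intervalIntegral.integral_const_mul]

/-- **Completeness** of the third fundamental form. Proof: along a curve of length `< η ≤ 1`,
`|d w| ≤ 2 C e^w |dc| ≤ 3 C ε ds`, so `w` changes by at most `3 C ε η ≤ 1`, and
`|dc| ≤ (10/9) ε e^{-w} ds`. Hence for a Cauchy sequence `u n` the values `w (u n)` are bounded and
`u n` is a Cauchy sequence in `ℂ`, with limit `p`; since `infDist (u n) S ≥ e^{-w (u n)} / C` is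
bounded below, `p ∈ Sᶜ`. -/
theorem Geo.complete (h : Geo C ε S w) : (form (Ns ε w)).IsComplete Sᶜ := by
  intro u hu hcau
  have hC := h.hC
  have hε := h.hε
  have heC := h.eC
  have hCε : 0 ≤ 3 * C * ε := by positivity
  obtain ⟨N₀, hN₀⟩ := hcau 1 one_pos
  -- `w` along the sequence
  have hw : ∀ m ≥ N₀, |w (u m) - w (u N₀)| ≤ 1 := by
    intro m hm
    obtain ⟨γ, hγ, hγS, h0, h1, hlen⟩ := hN₀ N₀ le_rfl m hm
    have h2 := h.curve_w hγ hγS (t := 1) ⟨zero_le_one, le_rfl⟩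
    rw [h0, h1] at h2
    refine h2.trans ?_
    have h3 := mul_le_mul_of_nonneg_left hlen.le hCε
    linarith
  set b := w (u N₀) - 2 with hb
  have hdist : ∀ η : ℝ, 0 < η → η ≤ 1 → ∃ N, ∀ m ≥ N, ∀ n ≥ N,
      ‖u n - u m‖ ≤ 2 * ε * Real.exp (-b) * η := by
    intro η hη hη1
    obtain ⟨N, hN⟩ := hcau η hη
    refine ⟨max N N₀, fun m hm n hn => ?_⟩
    have hm1 := (le_max_left N N₀).trans hm
    have hm2 := (le_max_right N N₀).trans hm
    have hn1 := (le_max_left N N₀).trans hn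
    obtain ⟨γ, hγ, hγS, h0, h1, hlen⟩ := hN m hm1 n hn1
    have hbb : ∀ t ∈ Icc (0 : ℝ) 1, b ≤ w (γ t) := by
      intro t ht
      have h2 := h.curve_w hγ hγS ht
      rw [h0] at h2
      have h3 := mul_le_mul_of_nonneg_left (hlen.le.trans hη1) hCε
      have h4 := (abs_le.1 h2).1
      have h5 := (abs_le.1 (hw m hm2)).1
      linarith
    have h2 := h.curve_dist hγ hγS hbb
    rw [h0, h1] at h2
    refine h2.trans ?_
    exact mul_le_mul_of_nonneg_left hlen.le (by positivity)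
  have hK : 0 < 2 * ε * Real.exp (-b) := by positivity
  have hcs : CauchySeq u := by
    rw [Metric.cauchySeq_iff]
    intro δ hδ
    have hη : 0 < min 1 (δ / (2 * (2 * ε * Real.exp (-b)))) := lt_min one_pos (by positivity)
    obtain ⟨N, hN⟩ := hdist _ hη (min_le_left _ _)
    refine ⟨N, fun m hm n hn => ?_⟩
    rw [dist_eq_norm, norm_sub_rev]
    refine (hN m hm n hn).trans_lt ?_
    calc 2 * ε * Real.exp (-b) * min 1 (δ / (2 * (2 * ε * Real.exp (-b))))
        ≤ 2 * ε * Real.exp (-b) * (δ / (2 * (2 * ε * Real.exp (-b)))) :=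
          mul_le_mul_of_nonneg_left (min_le_right _ _) hK.le
      _ = δ / 2 := by field_simp
      _ < δ := by linarith
  obtain ⟨p, hp⟩ := cauchySeq_tendsto_of_complete hcs
  refine ⟨p, ?_, hp⟩
  have hlow : ∀ m ≥ N₀, Real.exp (-(w (u N₀) + 1)) / C ≤ infDist (u m) S := by
    intro m hm
    have h1 := h.lower (u m) (hu m)
    have h2 : w (u m) ≤ w (u N₀) + 1 := by
      have := (abs_le.1 (hw m hm)).2
      linarith
    have h3 : Real.exp (w (u m)) ≤ Real.exp (w (u N₀) + 1) := Real.exp_le_exp.2 h2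
    have h4 : 0 ≤ infDist (u m) S := infDist_nonneg
    have h5 : 1 / C ≤ Real.exp (w (u N₀) + 1) * infDist (u m) S :=
      h1.trans (mul_le_mul_of_nonneg_right h3 h4)
    rw [Real.exp_neg]
    have h6 : 0 < Real.exp (w (u N₀) + 1) := Real.exp_pos _
    calc (Real.exp (w (u N₀) + 1))⁻¹ / C = (Real.exp (w (u N₀) + 1))⁻¹ * (1 / C) := by ring
      _ ≤ (Real.exp (w (u N₀) + 1))⁻¹ * (Real.exp (w (u N₀) + 1) * infDist (u m) S) :=
          mul_le_mul_of_nonneg_left h5 (by positivity)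
      _ = infDist (u m) S := by rw [inv_mul_cancel_left₀ h6.ne']
  have hlim : Real.exp (-(w (u N₀) + 1)) / C ≤ infDist p S := by
    have h1 : Tendsto (fun m => infDist (u m) S) atTop (𝓝 (infDist p S)) :=
      ((continuous_infDist_pt S).tendsto p).comp hp
    exact ge_of_tendsto h1 (eventually_atTop.2 ⟨N₀, hlow⟩)
  intro hpS
  rw [infDist_zero_of_mem hpS] at hlim
  have : 0 < Real.exp (-(w (u N₀) + 1)) / C := by positivity
  linarith

end Pool.Agent.KK
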