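import Pool.Agent.W_bb4b37_h53.Geo3A

/-!
# Closed geodesics
-/

set_option autoImplicit false

open Filter Topology Set MeasureTheory Metric
open scoped ContDiff

namespace Pool.Agent.KK

open Pool.Agent.KKS (mink Hyp klein sphere2 sph form gaussK Metric2)

variable {C ε : ℝ} {S : Set ℂ} {w : ℂ → ℝ}

theorem Geo3C_accel {κ N p q a1 a2 v1 v2 Ex Ey Fx Fy Gx Gy m V : ℝ} (hN : 0 ≤ N)
    (hEx : |Ex| ≤ 201 / 100 * N) (hEy : |Ey| ≤ 201 / 100 * N)
    (hFx : |Fx| ≤ 1 / 100 * N) (hFy : |Fy| ≤ 1 / 100 * N)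
    (hGx : |Gx| ≤ 201 / 100 * N) (hGy : |Gy| ≤ 201 / 100 * N)
    (hpq : p ^ 2 + q ^ 2 ≤ 1 / 100 * κ)
    (eq1 : (Ex * v1 + Ey * v2) * v1 + (κ - p ^ 2) * a1 + ((Fx * v1 + Fy * v2) * v2
      + (-(p * q)) * a2) = (Ex * v1 ^ 2 + 2 * Fx * (v1 * v2) + Gx * v2 ^ 2) / 2)
    (eq2 : (Fx * v1 + Fy * v2) * v1 + (-(p * q)) * a1 + ((Gx * v1 + Gy * v2) * v2
      + (κ - q ^ 2) * a2) = (Ey * v1 ^ 2 + 2 * Fy * (v1 * v2) + Gy * v2 ^ 2) / 2)
    (hm : 0 ≤ m) (hm2 : m ^ 2 = a1 ^ 2 + a2 ^ 2) (hV : V = v1 ^ 2 + v2 ^ 2) :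
    κ * m ≤ 4 * N * V := by
  have hV0 : 0 ≤ V := by rw [hV]; positivity
  have hNV : 0 ≤ N * V := mul_nonneg hN hV0
  have prod : ∀ {x y c d : ℝ}, |x| ≤ c → |y| ≤ d → |x * y| ≤ c * d := by
    intro x y c d h1 h2
    rw [abs_mul]
    exact mul_le_mul h1 h2 (abs_nonneg _) ((abs_nonneg _).trans h1)
  have hv1 : |v1 ^ 2| ≤ v1 ^ 2 := (abs_of_nonneg (sq_nonneg _)).le
  have hv2 : |v2 ^ 2| ≤ v2 ^ 2 := (abs_of_nonneg (sq_nonneg _)).le
  have hv12 : |v1 * v2| ≤ V / 2 := by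
    rw [hV, abs_le]
    constructor
    · nlinarith [sq_nonneg (v1 + v2)]
    · nlinarith [sq_nonneg (v1 - v2)]
  have r1 : |κ * a1 - p * (p * a1 + q * a2)| ≤ 203 / 100 * (N * V) := by
    have e : κ * a1 - p * (p * a1 + q * a2)
        = -(Ex * v1 ^ 2) / 2 + Gx * v2 ^ 2 / 2 - Ey * (v1 * v2) - Fy * v2 ^ 2 := by
      linarith [eq1]
    rw [e]
    have b1 := abs_le.1 (prod hEx hv1)
    have b2 := abs_le.1 (prod hGx hv2)
    have b3 := abs_le.1 (prod hEy hv12)
    have b4 := abs_le.1 (prod hFy hv2)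
    have b5 : N * v1 ^ 2 + N * v2 ^ 2 = N * V := by rw [hV]; ring
    have b6 : 0 ≤ N * v1 ^ 2 := by positivity
    have b7 : 0 ≤ N * v2 ^ 2 := by positivity
    rw [abs_le]
    constructor <;> nlinarith [b1.1, b1.2, b2.1, b2.2, b3.1, b3.2, b4.1, b4.2]
  have r2 : |κ * a2 - q * (p * a1 + q * a2)| ≤ 203 / 100 * (N * V) := by
    have e : κ * a2 - q * (p * a1 + q * a2)
        = Ey * v1 ^ 2 / 2 - Gy * v2 ^ 2 / 2 - Gx * (v1 * v2) - Fx * v1 ^ 2 := by
      linarith [eq2]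
    rw [e]
    have b1 := abs_le.1 (prod hEy hv1)
    have b2 := abs_le.1 (prod hGy hv2)
    have b3 := abs_le.1 (prod hGx hv12)
    have b4 := abs_le.1 (prod hFx hv1)
    have b5 : N * v1 ^ 2 + N * v2 ^ 2 = N * V := by rw [hV]; ring
    have b6 : 0 ≤ N * v1 ^ 2 := by positivity
    have b7 : 0 ≤ N * v2 ^ 2 := by positivity
    rw [abs_le]
    constructor <;> nlinarith [b1.1, b1.2, b2.1, b2.2, b3.1, b3.2, b4.1, b4.2]
  have hsum : |a1| + |a2| ≤ 3 / 2 * m := by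
    apply abs_le_of_sq_le_sq' _ (by positivity) |>.2
    have h1 := sq_abs a1
    have h2 := sq_abs a2
    nlinarith [sq_nonneg (|a1| - |a2|), sq_nonneg m]
  have hcs : (p * a1 + q * a2) ^ 2 ≤ (p ^ 2 + q ^ 2) * m ^ 2 := by
    rw [hm2]
    nlinarith [sq_nonneg (p * a2 - q * a1)]
  have hcs2 : (p * a1 + q * a2) ^ 2 ≤ 1 / 100 * κ * m ^ 2 :=
    hcs.trans (mul_le_mul_of_nonneg_right hpq (sq_nonneg _))
  have key : κ * m ^ 2 - (p * a1 + q * a2) ^ 2
      = (κ * a1 - p * (p * a1 + q * a2)) * a1 + (κ * a2 - q * (p * a1 + q * a2)) * a2 := by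
    rw [hm2]; ring
  have k1 : (κ * a1 - p * (p * a1 + q * a2)) * a1 ≤ 203 / 100 * (N * V) * |a1| :=
    (le_abs_self _).trans (prod r1 le_rfl)
  have k2 : (κ * a2 - q * (p * a1 + q * a2)) * a2 ≤ 203 / 100 * (N * V) * |a2| :=
    (le_abs_self _).trans (prod r2 le_rfl)
  have k3 : 203 / 100 * (N * V) * |a1| + 203 / 100 * (N * V) * |a2|
      ≤ 203 / 100 * (N * V) * (3 / 2 * m) := by
    rw [← mul_add]
    exact mul_le_mul_of_nonneg_left hsum (by positivity)
  have k4 : 99 / 100 * (κ * m) * m ≤ 609 / 200 * (N * V) * m := by nlinarith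
  rcases hm.eq_or_lt with hm0 | hm0
  · rw [← hm0]; nlinarith
  · have := le_of_mul_le_mul_right k4 hm0
    nlinarith

theorem Geo3C_nhds (h : Geo C ε S w) {z : ℂ} (hz : z ∈ Sᶜ) : ∀ᶠ y in 𝓝 z, y ∈ Sᶜ :=
  h.closed.isOpen_compl.mem_nhds hz

theorem Geo3C_inv (h : Geo C ε S w) (z : ℂ) :
    1 / Rr ε w z ^ 2 = (ε ^ 2)⁻¹ * Real.exp (2 * w z) := by
  have hε := h.hε
  unfold Rr
  rw [mul_pow, ← Real.exp_nat_mul, one_div, mul_inv, ← Real.exp_neg]
  congr 2
  push_cast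
  ring

theorem Geo3C_wdiff (h : Geo C ε S w) {z : ℂ} (hz : z ∈ Sᶜ) : HasFDerivAt w (fderiv ℝ w z) z :=
  ((h.smooth.contDiffAt (Geo3C_nhds h hz)).differentiableAt (by simp)).hasFDerivAt

theorem Geo3C_two : (1 + 1 : WithTop ℕ∞) ≤ ∞ := by
  have h2 : ((2 : ℕ∞) : WithTop ℕ∞) ≤ ((⊤ : ℕ∞) : WithTop ℕ∞) := WithTop.coe_le_coe.2 le_top
  have h3 : (1 + 1 : WithTop ℕ∞) = ((2 : ℕ∞) : WithTop ℕ∞) := by norm_num
  rw [h3]
  exact h2

theorem Geo3C_wxdiff (h : Geo C ε S w) {z : ℂ} (hz : z ∈ Sᶜ) :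
    HasFDerivAt (Dx w) (fderiv ℝ (Dx w) z) z :=
  (((contDiffOn_Dx (m := 1) h.closed.isOpen_compl h.smooth
    Geo3C_two).contDiffAt (Geo3C_nhds h hz)).differentiableAt (by simp)).hasFDerivAt

theorem Geo3C_wydiff (h : Geo C ε S w) {z : ℂ} (hz : z ∈ Sᶜ) :
    HasFDerivAt (Dy w) (fderiv ℝ (Dy w) z) z :=
  (((contDiffOn_Dy (m := 1) h.closed.isOpen_compl h.smooth
    Geo3C_two).contDiffAt (Geo3C_nhds h hz)).differentiableAt (by simp)).hasFDerivAt

theorem Geo3C_Kdiff (h : Geo C ε S w) {z : ℂ} (hz : z ∈ Sᶜ) :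
    HasFDerivAt (fun y => 1 / Rr ε w y ^ 2) ((2 * (1 / Rr ε w z ^ 2)) • fderiv ℝ w z) z := by
  have e : (fun y => 1 / Rr ε w y ^ 2) = fun y => (ε ^ 2)⁻¹ * Real.exp (2 * w y) := by
    funext y
    exact Geo3C_inv h y
  rw [e, Geo3C_inv h z]
  have h1 := (((Geo3C_wdiff h hz).const_mul 2).exp).const_mul ((ε ^ 2)⁻¹)
  refine h1.congr_fderiv ?_
  rw [smul_smul, smul_smul]
  congr 1
  ring

theorem Geo3C_Ediff (h : Geo C ε S w) {z : ℂ} (hz : z ∈ Sᶜ) :
    HasFDerivAt (form (Ns ε w)).E ((2 * (1 / Rr ε w z ^ 2)) • fderiv ℝ w z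
      - (2 * Dx w z) • fderiv ℝ (Dx w) z) z := by
  have e : (form (Ns ε w)).E =ᶠ[𝓝 z] fun y => 1 / Rr ε w y ^ 2 - (Dx w y) ^ 2 := by
    filter_upwards [Geo3C_nhds h hz] with y hy
    exact (h.form_Ns hy).1
  refine HasFDerivAt.congr_of_eventuallyEq ?_ e
  have h1 := (Geo3C_Kdiff h hz).sub ((Geo3C_wxdiff h hz).pow 2)
  refine h1.congr_fderiv ?_
  congr 2
  simp

theorem Geo3C_Gdiff (h : Geo C ε S w) {z : ℂ} (hz : z ∈ Sᶜ) :
    HasFDerivAt (form (Ns ε w)).G ((2 * (1 / Rr ε w z ^ 2)) • fderiv ℝ w z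
      - (2 * Dy w z) • fderiv ℝ (Dy w) z) z := by
  have e : (form (Ns ε w)).G =ᶠ[𝓝 z] fun y => 1 / Rr ε w y ^ 2 - (Dy w y) ^ 2 := by
    filter_upwards [Geo3C_nhds h hz] with y hy
    exact (h.form_Ns hy).2.2
  refine HasFDerivAt.congr_of_eventuallyEq ?_ e
  have h1 := (Geo3C_Kdiff h hz).sub ((Geo3C_wydiff h hz).pow 2)
  refine h1.congr_fderiv ?_
  congr 2
  simp

theorem Geo3C_Fdiff (h : Geo C ε S w) {z : ℂ} (hz : z ∈ Sᶜ) :
    HasFDerivAt (form (Ns ε w)).F (-(Dx w z • fderiv ℝ (Dy w) z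
      + Dy w z • fderiv ℝ (Dx w) z)) z := by
  have e : (form (Ns ε w)).F =ᶠ[𝓝 z] fun y => - (Dx w y * Dy w y) := by
    filter_upwards [Geo3C_nhds h hz] with y hy
    exact (h.form_Ns hy).2.1
  refine HasFDerivAt.congr_of_eventuallyEq ?_ e
  exact ((Geo3C_wxdiff h hz).mul (Geo3C_wydiff h hz)).neg

theorem Geo3C_lin (L : ℂ →L[ℝ] ℝ) (v : ℂ) : L v = L 1 * v.re + L Complex.I * v.im := by
  have e : v = v.re • (1 : ℂ) + v.im • Complex.I := by
    rw [Complex.real_smul, Complex.real_smul, mul_one]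
    exact (Complex.re_add_im v).symm
  conv_lhs => rw [e]
  rw [map_add, map_smul, map_smul, smul_eq_mul, smul_eq_mul]
  ring

/-- Bounds for `w` in terms of `A = e^w`. -/
theorem Geo3C_bounds (h : Geo C ε S w) {z : ℂ} (hz : z ∈ Sᶜ) :
    |Dx w z| ≤ C * Real.exp (w z) ∧ |Dy w z| ≤ C * Real.exp (w z) ∧
    |Dx (Dx w) z| ≤ C * Real.exp (w z) ^ 2 ∧ |Dx (Dy w) z| ≤ C * Real.exp (w z) ^ 2 ∧
    |Dy (Dx w) z| ≤ C * Real.exp (w z) ^ 2 ∧ |Dy (Dy w) z| ≤ C * Real.exp (w z) ^ 2 :=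
  ⟨h.scaled.d1 z hz [true] rfl, h.scaled.d1 z hz [false] rfl,
    h.scaled.d2 z hz [true, true] rfl, h.scaled.d2 z hz [true, false] rfl,
    h.scaled.d2 z hz [false, true] rfl, h.scaled.d2 z hz [false, false] rfl⟩

theorem Geo3C_small (h : Geo C ε S w) : ε ≤ 1 / 100000 ∧ ε * C ≤ 1 / 100000 := by
  have h1 := h.hC
  have h2 := h.hε
  have h3 := h.small
  constructor
  · nlinarith [mul_pos h2 (by linarith : (0 : ℝ) < C)]
  · nlinarith [mul_pos h2 (by linarith : (0 : ℝ) < C)]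

/-- The acceleration of a geodesic. -/
theorem Geo3C_acc (h : Geo C ε S w) {γ : ℝ → ℂ} {T : ℝ}
    (hγ : (form (Ns ε w)).IsClosedGeodesic Sᶜ γ T) (t : ℝ) :
    ‖deriv (deriv γ) t‖ ≤ 4 * C * Real.exp (w (γ t)) * ‖deriv γ t‖ ^ 2 := by
  have hz := hγ.mem t
  set z := γ t with hzdef
  have hC := h.hC
  have hε := h.hε
  obtain ⟨sm1, sm2⟩ := Geo3C_small h
  obtain ⟨b1, b2, b3, b4, b5, b6⟩ := Geo3C_bounds h hz
  have hg1 : HasDerivAt γ (deriv γ t) t :=
    ((hγ.smooth.differentiable (by simp)) t).hasDerivAt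
  have hg2s : ContDiff ℝ 1 (deriv γ) := by
    have : ContDiff ℝ (1 + 1) γ := hγ.smooth.of_le Geo3C_two
    exact (contDiff_succ_iff_deriv.1 this).2.2
  have hg2 : HasDerivAt (deriv γ) (deriv (deriv γ) t) t :=
    ((hg2s.differentiable (by simp)) t).hasDerivAt
  have hre : HasDerivAt (fun s => (deriv γ s).re) (deriv (deriv γ) t).re t :=
    Complex.reCLM.hasFDerivAt.comp_hasDerivAt t hg2
  have him : HasDerivAt (fun s => (deriv γ s).im) (deriv (deriv γ) t).im t :=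
    Complex.imCLM.hasFDerivAt.comp_hasDerivAt t hg2
  have hE := (Geo3C_Ediff h hz).comp_hasDerivAt t hg1
  have hF := (Geo3C_Fdiff h hz).comp_hasDerivAt t hg1
  have hG := (Geo3C_Gdiff h hz).comp_hasDerivAt t hg1
  have eqx := hγ.eqx t
  have eqy := hγ.eqy t
  have d1 := ((hE.mul hre).add (hF.mul him)).deriv
  have d2 := ((hF.mul hre).add (hG.mul him)).deriv
  have d1' : deriv (fun s => (form (Ns ε w)).E (γ s) * (deriv γ s).re
      + (form (Ns ε w)).F (γ s) * (deriv γ s).im) t = _ := d1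
  have d2' : deriv (fun s => (form (Ns ε w)).F (γ s) * (deriv γ s).re
      + (form (Ns ε w)).G (γ s) * (deriv γ s).im) t = _ := d2
  rw [d1'] at eqx
  rw [d2'] at eqy
  have fE : fderiv ℝ (form (Ns ε w)).E z = _ := (Geo3C_Ediff h hz).fderiv
  have fF : fderiv ℝ (form (Ns ε w)).F z = _ := (Geo3C_Fdiff h hz).fderiv
  have fG : fderiv ℝ (form (Ns ε w)).G z = _ := (Geo3C_Gdiff h hz).fderiv
  rw [← fE, ← fF] at eqx
  rw [← fF, ← fG] at eqy
  rw [Geo3C_lin (fderiv ℝ (form (Ns ε w)).E z), Geo3C_lin (fderiv ℝ (form (Ns ε w)).F z)] at eqx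
  rw [Geo3C_lin (fderiv ℝ (form (Ns ε w)).F z), Geo3C_lin (fderiv ℝ (form (Ns ε w)).G z)] at eqy
  set κ : ℝ := 1 / Rr ε w z ^ 2 with hκdef
  have hκ : 0 < κ := by
    have := h.Rr_pos z
    positivity
  set A : ℝ := Real.exp (w z) with hA
  have hA0 : 0 < A := Real.exp_pos _
  have hκA : ε ^ 2 * κ = A ^ 2 := by
    rw [hκdef, Geo3C_inv h z, hA, ← mul_assoc, mul_inv_cancel₀ (by positivity), one_mul,
      ← Real.exp_nat_mul]
    norm_num
  have vEx : fderiv ℝ (form (Ns ε w)).E z 1 = 2 * κ * Dx w z - 2 * Dx w z * Dx (Dx w) z := by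
    rw [fE]; rfl
  have vEy : fderiv ℝ (form (Ns ε w)).E z Complex.I
      = 2 * κ * Dy w z - 2 * Dx w z * Dy (Dx w) z := by
    rw [fE]; rfl
  have vGx : fderiv ℝ (form (Ns ε w)).G z 1 = 2 * κ * Dx w z - 2 * Dy w z * Dx (Dy w) z := by
    rw [fG]; rfl
  have vGy : fderiv ℝ (form (Ns ε w)).G z Complex.I
      = 2 * κ * Dy w z - 2 * Dy w z * Dy (Dy w) z := by
    rw [fG]; rfl
  have vFx : fderiv ℝ (form (Ns ε w)).F z 1
      = -(Dx w z * Dx (Dy w) z + Dy w z * Dx (Dx w) z) := by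
    rw [fF]; rfl
  have vFy : fderiv ℝ (form (Ns ε w)).F z Complex.I
      = -(Dx w z * Dy (Dy w) z + Dy w z * Dy (Dx w) z) := by
    rw [fF]; rfl
  set N : ℝ := C * A * κ with hN
  have hN0 : 0 ≤ N := by positivity
  have prod : ∀ {x y c d : ℝ}, |x| ≤ c → |y| ≤ d → |x * y| ≤ c * d := by
    intro x y c d h1 h2
    rw [abs_mul]
    exact mul_le_mul h1 h2 (abs_nonneg _) ((abs_nonneg _).trans h1)
  have sec : ∀ {x y : ℝ}, |x| ≤ C * A → |y| ≤ C * A ^ 2 → |x * y| ≤ 1 / 1000 * N := by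
    intro x y h1 h2
    have h3 := prod h1 h2
    have h4 : C * A * (C * A ^ 2) = (C * ε * ε) * N := by
      rw [hN, ← hκA]; ring
    have h5 : C * ε * ε ≤ 1 / 1000 := by nlinarith
    rw [h4] at h3
    exact h3.trans (mul_le_mul_of_nonneg_right h5 hN0)
  have fir : ∀ {x : ℝ}, |x| ≤ C * A → |κ * x| ≤ N := by
    intro x h1
    rw [abs_mul, abs_of_pos hκ, hN]
    nlinarith [mul_le_mul_of_nonneg_left h1 hκ.le]
  have tri : ∀ {x y : ℝ}, |x| ≤ N → |y| ≤ 1 / 1000 * N → |2 * x - 2 * y| ≤ 201 / 100 * N := by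
    intro x y h1 h2
    rw [abs_le] at *
    constructor <;> linarith [h1.1, h1.2, h2.1, h2.2]
  have tri2 : ∀ {x y : ℝ}, |x| ≤ 1 / 1000 * N → |y| ≤ 1 / 1000 * N →
      |-(x + y)| ≤ 1 / 100 * N := by
    intro x y h1 h2
    rw [abs_le] at *
    constructor <;> linarith [h1.1, h1.2, h2.1, h2.2]
  have hEx : |fderiv ℝ (form (Ns ε w)).E z 1| ≤ 201 / 100 * N := by
    rw [vEx]
    have := tri (fir b1) (sec b1 b3)
    rwa [← mul_assoc, ← mul_assoc] at this
  have hEy : |fderiv ℝ (form (Ns ε w)).E z Complex.I| ≤ 201 / 100 * N := by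
    rw [vEy]
    have := tri (fir b2) (sec b1 b5)
    rwa [← mul_assoc, ← mul_assoc] at this
  have hGx : |fderiv ℝ (form (Ns ε w)).G z 1| ≤ 201 / 100 * N := by
    rw [vGx]
    have := tri (fir b1) (sec b2 b4)
    rwa [← mul_assoc, ← mul_assoc] at this
  have hGy : |fderiv ℝ (form (Ns ε w)).G z Complex.I| ≤ 201 / 100 * N := by
    rw [vGy]
    have := tri (fir b2) (sec b2 b6)
    rwa [← mul_assoc, ← mul_assoc] at this
  have hFx : |fderiv ℝ (form (Ns ε w)).F z 1| ≤ 1 / 100 * N := by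
    rw [vFx]
    exact tri2 (sec b1 b4) (sec b2 b3)
  have hFy : |fderiv ℝ (form (Ns ε w)).F z Complex.I| ≤ 1 / 100 * N := by
    rw [vFy]
    exact tri2 (sec b1 b6) (sec b2 b5)
  have hpq : (Dx w z) ^ 2 + (Dy w z) ^ 2 ≤ 1 / 100 * κ := by
    have h1 : (Dx w z) ^ 2 ≤ (C * A) ^ 2 := by
      rw [← sq_abs]; exact pow_le_pow_left₀ (abs_nonneg _) b1 2
    have h2 : (Dy w z) ^ 2 ≤ (C * A) ^ 2 := by
      rw [← sq_abs]; exact pow_le_pow_left₀ (abs_nonneg _) b2 2
    have h3 : (C * A) ^ 2 = (ε * C) ^ 2 * κ := by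
      rw [mul_pow, ← hκA]; ring
    have h4 : (ε * C) ^ 2 ≤ 1 / 1000 := by
      have : 0 ≤ ε * C := by positivity
      nlinarith
    have h5 := mul_le_mul_of_nonneg_right h4 hκ.le
    linarith
  obtain ⟨fE0, fF0, fG0⟩ := h.form_Ns hz
  have heq1 : (fderiv ℝ (form (Ns ε w)).E z 1 * (deriv γ t).re
        + fderiv ℝ (form (Ns ε w)).E z Complex.I * (deriv γ t).im) * (deriv γ t).re
      + (κ - (Dx w z) ^ 2) * (deriv (deriv γ) t).re
      + ((fderiv ℝ (form (Ns ε w)).F z 1 * (deriv γ t).re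
        + fderiv ℝ (form (Ns ε w)).F z Complex.I * (deriv γ t).im) * (deriv γ t).im
      + (-(Dx w z * Dy w z)) * (deriv (deriv γ) t).im)
      = (fderiv ℝ (form (Ns ε w)).E z 1 * (deriv γ t).re ^ 2
        + 2 * fderiv ℝ (form (Ns ε w)).F z 1 * ((deriv γ t).re * (deriv γ t).im)
        + fderiv ℝ (form (Ns ε w)).G z 1 * (deriv γ t).im ^ 2) / 2 := by
    rw [← fE0, ← fF0]
    exact eqx
  have heq2 : (fderiv ℝ (form (Ns ε w)).F z 1 * (deriv γ t).re
        + fderiv ℝ (form (Ns ε w)).F z Complex.I * (deriv γ t).im) * (deriv γ t).re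
      + (-(Dx w z * Dy w z)) * (deriv (deriv γ) t).re
      + ((fderiv ℝ (form (Ns ε w)).G z 1 * (deriv γ t).re
        + fderiv ℝ (form (Ns ε w)).G z Complex.I * (deriv γ t).im) * (deriv γ t).im
      + (κ - (Dy w z) ^ 2) * (deriv (deriv γ) t).im)
      = (fderiv ℝ (form (Ns ε w)).E z Complex.I * (deriv γ t).re ^ 2
        + 2 * fderiv ℝ (form (Ns ε w)).F z Complex.I * ((deriv γ t).re * (deriv γ t).im)
        + fderiv ℝ (form (Ns ε w)).G z Complex.I * (deriv γ t).im ^ 2) / 2 := by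
    rw [← fG0, ← fF0]
    exact eqy
  have nsq : ∀ v : ℂ, ‖v‖ ^ 2 = v.re ^ 2 + v.im ^ 2 := by
    intro v
    rw [← Complex.normSq_eq_norm_sq, Complex.normSq_apply]
    ring
  have key := Geo3C_accel hN0 hEx hEy hFx hFy hGx hGy hpq heq1 heq2
    (norm_nonneg (deriv (deriv γ) t)) (nsq _) (nsq (deriv γ t))
  have : κ * ‖deriv (deriv γ) t‖ ≤ κ * (4 * C * A * ‖deriv γ t‖ ^ 2) := by
    calc κ * ‖deriv (deriv γ) t‖ ≤ 4 * N * ‖deriv γ t‖ ^ 2 := key
      _ = κ * (4 * C * A * ‖deriv γ t‖ ^ 2) := by rw [hN]; ring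
  exact le_of_mul_le_mul_left this hκ

theorem Geo3C_const {f : ℝ → ℝ} {T : ℝ} (hT : 0 < T) (hper : ∀ t, f (t + T) = f t)
    (hmono : Monotone f) (s t : ℝ) : f s = f t := by
  have hp : Function.Periodic f T := hper
  wlog hst : s ≤ t with H
  · exact (H hT hper hmono t s hp (le_of_not_ge hst)).symm
  apply le_antisymm (hmono hst)
  obtain ⟨n, hn⟩ := exists_nat_ge ((t - s) / T)
  have h1 : t ≤ s + n * T := by
    have := (div_le_iff₀ hT).1 hn
    linarith
  calc f t ≤ f (s + n * T) := hmono h1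
    _ = f s := by
      have := hp.nat_mul n
      exact this s

/-- **Closed geodesics are long.** Proof. The speed of a geodesic is constant, positive. Suppose the
length over a period is at most `2π`. Let `c₀ = γ 0`, `ρ = e^{w c₀}`; as in `Geo.complete` the whole
curve stays in the ball `|c - c₀| ≤ 20 ε / ρ`, on which `e^w` is comparable with `ρ` (factor 2). The
metric `g_ij = (δ_ij - R_i R_j) / R²` has Christoffel symbols bounded by `100 C e^w` (`R = ε e^{-w}`,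
`|∇R| ≤ 2 C ε`, `|D²R| ≤ 4 C² ε e^w`). So `f t = |γ t - c₀|²` satisfies
`f'' ≥ 2 |γ̇|² - 2 |γ - c₀| |γ̈| ≥ 2 |γ̇|² - 2 (20 ε / ρ) (400 C ρ) |γ̇|² > 0`, because
`ε C ≤ 1/100000`: a periodic function cannot be strictly convex. -/
theorem Geo.closed_geodesic (h : Geo C ε S w) {γ : ℝ → ℂ} {T : ℝ}
    (hγ : (form (Ns ε w)).IsClosedGeodesic Sᶜ γ T) :
    2 * Real.pi < ∫ t in (0 : ℝ)..T, (form (Ns ε w)).speed γ t := by
  by_contra hcon
  rw [not_lt] at hcon
  have hC := h.hC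
  have hε := h.hε
  obtain ⟨sm1, sm2⟩ := Geo3C_small h
  have hT := hγ.pos
  have hg1 : ∀ t, HasDerivAt γ (deriv γ t) t := fun t =>
    ((hγ.smooth.differentiable (by simp)) t).hasDerivAt
  have hg2s : ContDiff ℝ 1 (deriv γ) := by
    have : ContDiff ℝ (1 + 1) γ := hγ.smooth.of_le Geo3C_two
    exact (contDiff_succ_iff_deriv.1 this).2.2
  have hg2 : ∀ t, HasDerivAt (deriv γ) (deriv (deriv γ) t) t := fun t =>
    ((hg2s.differentiable (by simp)) t).hasDerivAt
  have hcg : Continuous γ := hγ.smooth.continuous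
  have hcd : Continuous (deriv γ) := hg2s.continuous
  -- the function `e^{w γ} |γ'|`
  set L : ℝ → ℝ := fun t => Real.exp (w (γ t)) * ‖deriv γ t‖ with hL
  have hcw : Continuous fun t => w (γ t) :=
    h.smooth.continuousOn.comp_continuous hcg hγ.mem
  have hcL : Continuous L := (Real.continuous_exp.comp hcw).mul hcd.norm
  have hL0 : ∀ t, 0 ≤ L t := fun t => by positivity
  have hLs : ∀ t, L t ≤ ε * (10 / 9) * (form (Ns ε w)).speed γ t := by
    intro t
    have h1 := (h.speed_bounds (hγ.mem t)).1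
    have e : 9 / 10 * ‖deriv γ t‖ / Rr ε w (γ t) = 9 / 10 * (L t / ε) := by
      unfold Rr
      rw [hL, Real.exp_neg]
      have := Real.exp_pos (w (γ t))
      field_simp
    rw [e] at h1
    have h2 : L t = ε * (10 / 9) * (9 / 10 * (L t / ε)) := by field_simp
    rw [h2]
    exact mul_le_mul_of_nonneg_left h1 (by positivity)
  have hcs : Continuous fun t => (form (Ns ε w)).speed γ t := by
    obtain ⟨r1, r2, r3, -⟩ := h.riem_III
    have c1 := r1.continuousOn.comp_continuous hcg hγ.mem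
    have c2 := r2.continuousOn.comp_continuous hcg hγ.mem
    have c3 := r3.continuousOn.comp_continuous hcg hγ.mem
    have cr : Continuous fun t => (deriv γ t).re := Complex.continuous_re.comp hcd
    have ci : Continuous fun t => (deriv γ t).im := Complex.continuous_im.comp hcd
    unfold Metric2.speed
    exact Real.continuous_sqrt.comp
      (((c1.mul (cr.pow 2)).add ((continuous_const.mul c2).mul (cr.mul ci))).add
        (c3.mul (ci.pow 2)))
  have hLT : ∫ t in (0 : ℝ)..T, L t ≤ 7 * ε := by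
    have h1 : ∫ t in (0 : ℝ)..T, L t
        ≤ ∫ t in (0 : ℝ)..T, ε * (10 / 9) * (form (Ns ε w)).speed γ t := by
      apply intervalIntegral.integral_mono_on hT.le (hcL.intervalIntegrable _ _)
        ((continuous_const.mul hcs).intervalIntegrable _ _)
      intro t _
      exact hLs t
    rw [intervalIntegral.integral_const_mul] at h1
    have h2 : ε * (10 / 9) * ∫ t in (0 : ℝ)..T, (form (Ns ε w)).speed γ t
        ≤ ε * (10 / 9) * (2 * Real.pi) := mul_le_mul_of_nonneg_left hcon (by positivity)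
    have h3 := Real.pi_lt_d2
    nlinarith
  have hLt : ∀ t ∈ Icc (0 : ℝ) T, ∫ s in (0 : ℝ)..t, L s ≤ 7 * ε := by
    intro t ht
    refine le_trans ?_ hLT
    have h1 := intervalIntegral.integral_add_adjacent_intervals
      (hcL.intervalIntegrable (μ := volume) 0 t) (hcL.intervalIntegrable (μ := volume) t T)
    have h2 : 0 ≤ ∫ s in t..T, L s :=
      intervalIntegral.integral_nonneg ht.2 (fun s _ => hL0 s)
    linarith
  -- variation of `w`
  have hwd : ∀ t, HasDerivAt (fun s => w (γ s)) (fderiv ℝ w (γ t) (deriv γ t)) t := fun t =>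
    (Geo3C_wdiff h (hγ.mem t)).comp_hasDerivAt t (hg1 t)
  have hwb : ∀ t, |fderiv ℝ w (γ t) (deriv γ t)| ≤ 2 * C * L t := by
    intro t
    rw [Geo3C_lin]
    obtain ⟨b1, b2, -⟩ := Geo3C_bounds h (hγ.mem t)
    have h1 : |fderiv ℝ w (γ t) 1 * (deriv γ t).re| ≤ C * L t := by
      rw [abs_mul]
      calc |fderiv ℝ w (γ t) 1| * |(deriv γ t).re|
          ≤ (C * Real.exp (w (γ t))) * ‖deriv γ t‖ :=
            mul_le_mul b1 (Complex.abs_re_le_norm _) (abs_nonneg _) (by positivity)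
        _ = C * L t := by rw [hL]; ring
    have h2 : |fderiv ℝ w (γ t) Complex.I * (deriv γ t).im| ≤ C * L t := by
      rw [abs_mul]
      calc |fderiv ℝ w (γ t) Complex.I| * |(deriv γ t).im|
          ≤ (C * Real.exp (w (γ t))) * ‖deriv γ t‖ :=
            mul_le_mul b2 (Complex.abs_im_le_norm _) (abs_nonneg _) (by positivity)
        _ = C * L t := by rw [hL]; ring
    have h3 := abs_add_le (fderiv ℝ w (γ t) 1 * (deriv γ t).re)
      (fderiv ℝ w (γ t) Complex.I * (deriv γ t).im)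
    linarith
  have hwvar : ∀ t ∈ Icc (0 : ℝ) T, |w (γ t) - w (γ 0)| ≤ 1 / 1000 := by
    intro t ht
    -- compare with the primitive of `2 C L`
    have hprim : ∀ s, HasDerivAt (fun s => ∫ r in (0 : ℝ)..s, 2 * C * L r) (2 * C * L s) s := by
      intro s
      exact intervalIntegral.integral_hasDerivAt_right
        ((continuous_const.mul hcL).intervalIntegrable _ _)
        ((continuous_const.mul hcL).stronglyMeasurableAtFilter _ _)
        (continuous_const.mul hcL).continuousAt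
    have hb := image_norm_le_of_norm_deriv_right_le_deriv_boundary
      (a := (0 : ℝ)) (b := T) (f := fun s => w (γ s) - w (γ 0))
      (f' := fun s => fderiv ℝ w (γ s) (deriv γ s))
      (B := fun s => ∫ r in (0 : ℝ)..s, 2 * C * L r) (B' := fun s => 2 * C * L s)
      ((hcw.sub continuous_const).continuousOn)
      (fun s _ => ((hwd s).sub_const _).hasDerivWithinAt)
      (by simp)
      (fun s => hprim s)
      (fun s _ => by rw [Real.norm_eq_abs]; exact hwb s) ht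
    rw [Real.norm_eq_abs, intervalIntegral.integral_const_mul] at hb
    have h1 := hLt t ht
    have h2 : 2 * C * ∫ r in (0 : ℝ)..t, L r ≤ 2 * C * (7 * ε) :=
      mul_le_mul_of_nonneg_left h1 (by positivity)
    nlinarith
  have hexp : Real.exp (1 / 1000) ≤ 101 / 100 := by
    have := Real.exp_bound_div_one_sub_of_interval (x := 1 / 1000) (by norm_num) (by norm_num)
    refine this.trans (by norm_num)
  -- the displacement
  have hdis : ∀ t ∈ Icc (0 : ℝ) T, ‖γ t - γ 0‖ * Real.exp (w (γ t)) ≤ 8 * ε := by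
    intro t ht
    have hprim : ∀ s, HasDerivAt (fun s => ∫ r in (0 : ℝ)..s, 101 / 100 * L r)
        (101 / 100 * L s) s := by
      intro s
      exact intervalIntegral.integral_hasDerivAt_right
        ((continuous_const.mul hcL).intervalIntegrable _ _)
        ((continuous_const.mul hcL).stronglyMeasurableAtFilter _ _)
        (continuous_const.mul hcL).continuousAt
    have hcdisp : Continuous fun s => Real.exp (w (γ 0)) • (γ s - γ 0) := by
      fun_prop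
    have hb := image_norm_le_of_norm_deriv_right_le_deriv_boundary
      (a := (0 : ℝ)) (b := T) (f := fun s => Real.exp (w (γ 0)) • (γ s - γ 0))
      (f' := fun s => Real.exp (w (γ 0)) • deriv γ s)
      (B := fun s => ∫ r in (0 : ℝ)..s, 101 / 100 * L r) (B' := fun s => 101 / 100 * L s)
      hcdisp.continuousOn
      (fun s _ => (((hg1 s).sub_const _).fun_const_smul _).hasDerivWithinAt)
      (by simp)
      (fun s => hprim s)
      (fun s hs => by
        rw [norm_smul, Real.norm_eq_abs, abs_of_pos (Real.exp_pos _)]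
        have h1 := hwvar s ⟨hs.1, hs.2.le⟩
        have h2 : Real.exp (w (γ 0)) ≤ 101 / 100 * Real.exp (w (γ s)) := by
          have h3 : w (γ 0) ≤ 1 / 1000 + w (γ s) := by linarith [(abs_le.1 h1).1]
          calc Real.exp (w (γ 0)) ≤ Real.exp (1 / 1000 + w (γ s)) := Real.exp_le_exp.2 h3
            _ = Real.exp (1 / 1000) * Real.exp (w (γ s)) := Real.exp_add _ _
            _ ≤ 101 / 100 * Real.exp (w (γ s)) :=
              mul_le_mul_of_nonneg_right hexp (Real.exp_pos _).le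
        calc Real.exp (w (γ 0)) * ‖deriv γ s‖
            ≤ 101 / 100 * Real.exp (w (γ s)) * ‖deriv γ s‖ :=
              mul_le_mul_of_nonneg_right h2 (norm_nonneg _)
          _ = 101 / 100 * L s := by rw [hL]; ring) ht
    rw [norm_smul, Real.norm_eq_abs, abs_of_pos (Real.exp_pos _),
      intervalIntegral.integral_const_mul] at hb
    have h1 := hLt t ht
    have h2 := hwvar t ht
    have h3 : Real.exp (w (γ t)) ≤ 101 / 100 * Real.exp (w (γ 0)) := by
      have h3 : w (γ t) ≤ 1 / 1000 + w (γ 0) := by linarith [(abs_le.1 h2).2]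
      calc Real.exp (w (γ t)) ≤ Real.exp (1 / 1000 + w (γ 0)) := Real.exp_le_exp.2 h3
        _ = Real.exp (1 / 1000) * Real.exp (w (γ 0)) := Real.exp_add _ _
        _ ≤ 101 / 100 * Real.exp (w (γ 0)) :=
          mul_le_mul_of_nonneg_right hexp (Real.exp_pos _).le
    have h4 := mul_le_mul_of_nonneg_left h3 (norm_nonneg (γ t - γ 0))
    nlinarith
  have hp : Function.Periodic γ T := hγ.periodic
  have hall : ∀ t, ‖γ t - γ 0‖ * Real.exp (w (γ t)) ≤ 8 * ε := by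
    intro t
    obtain ⟨s, hs, he⟩ := hp.exists_mem_Ico₀ hT t
    rw [he]
    exact hdis s ⟨hs.1, hs.2.le⟩
  -- the convex function
  set f1 : ℝ → ℝ := fun t => inner ℝ (γ t - γ 0) (deriv γ t) with hf1
  have hf1d : ∀ t, HasDerivAt f1 (inner ℝ (γ t - γ 0) (deriv (deriv γ) t)
      + inner ℝ (deriv γ t) (deriv γ t)) t := by
    intro t
    exact ((hg1 t).sub_const (γ 0)).inner ℝ (hg2 t)
  have hpos : ∀ t, 1 / 2 * ‖deriv γ t‖ ^ 2 ≤ inner ℝ (γ t - γ 0) (deriv (deriv γ) t)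
      + inner ℝ (deriv γ t) (deriv γ t) := by
    intro t
    rw [real_inner_self_eq_norm_sq]
    have h1 := abs_real_inner_le_norm (γ t - γ 0) (deriv (deriv γ) t)
    have h2 := Geo3C_acc h hγ t
    have h3 := hall t
    have h4 : ‖γ t - γ 0‖ * ‖deriv (deriv γ) t‖ ≤ 1 / 2 * ‖deriv γ t‖ ^ 2 := by
      calc ‖γ t - γ 0‖ * ‖deriv (deriv γ) t‖
          ≤ ‖γ t - γ 0‖ * (4 * C * Real.exp (w (γ t)) * ‖deriv γ t‖ ^ 2) :=
            mul_le_mul_of_nonneg_left h2 (norm_nonneg _)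
        _ = (4 * C) * (‖γ t - γ 0‖ * Real.exp (w (γ t))) * ‖deriv γ t‖ ^ 2 := by ring
        _ ≤ (4 * C) * (8 * ε) * ‖deriv γ t‖ ^ 2 :=
            mul_le_mul_of_nonneg_right (mul_le_mul_of_nonneg_left h3 (by positivity))
              (sq_nonneg _)
        _ ≤ 1 / 2 * ‖deriv γ t‖ ^ 2 :=
            mul_le_mul_of_nonneg_right (by nlinarith) (sq_nonneg _)
    have h5 := (abs_le.1 h1).1
    linarith
  have hmono : Monotone f1 := by
    apply monotone_of_deriv_nonneg (fun t => (hf1d t).differentiableAt)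
    intro t
    rw [(hf1d t).deriv]
    exact le_trans (by positivity) (hpos t)
  have hdper : ∀ t, deriv γ (t + T) = deriv γ t := by
    intro t
    have h1 : deriv (fun s => γ (s + T)) t = deriv γ (t + T) := deriv_comp_add_const _ _ _
    rw [← h1]
    congr 1
    funext s
    exact hγ.periodic s
  have hf1p : ∀ t, f1 (t + T) = f1 t := by
    intro t
    simp only [hf1]
    rw [hγ.periodic t, hdper t]
  obtain ⟨t₀, ht₀⟩ := hγ.nonconst
  have hcst : f1 = fun _ => f1 0 := by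
    funext t
    exact Geo3C_const hT hf1p hmono t 0
  have hd0 : deriv f1 t₀ = 0 := by
    rw [hcst]
    simp
  have h1 := hpos t₀
  rw [← (hf1d t₀).deriv, hd0] at h1
  have h2 : 0 < ‖deriv γ t₀‖ := norm_pos_iff.2 ht₀
  nlinarith

end Pool.Agent.KK
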