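import Pool.Agent.W_bb4b37_h53.RealDefs

/-!
# Level realizations: elementary facts about `thet`, distance functions and `nu`
-/

set_option autoImplicit false

open Filter Topology Set MeasureTheory Metric
open scoped ContDiff

namespace Pool.Agent.KK

theorem LevG0_aux {F G : ℂ ≃ₜ ℂ} {η : ℝ} (h : ∀ ζ, ‖F.symm ζ - G.symm ζ‖ ≤ η) (z : ℂ) :
    infDist z (F ⁻¹' Lam) ≤ infDist z (G ⁻¹' Lam) + η := by
  have hne : (G ⁻¹' Lam).Nonempty := ⟨G.symm 0, by simpa using zero_mem_Lam⟩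
  rw [← sub_le_iff_le_add, le_infDist hne]
  intro y hy
  have h1 : F.symm (G y) ∈ F ⁻¹' Lam := by
    simpa using hy
  have h2 := infDist_le_dist_of_mem (x := z) h1
  have h3 := h (G y)
  rw [G.symm_apply_apply] at h3
  have h4 : dist z (F.symm (G y)) ≤ dist z y + dist y (F.symm (G y)) := dist_triangle _ _ _
  have h5 : dist y (F.symm (G y)) ≤ η := by
    rw [dist_comm, dist_eq_norm]
    exact h3
  linarith

/-- Distance functions of the sets `F ⁻¹' Lam` depend continuously on the inverse maps. -/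
theorem infDist_preimage {F G : ℂ ≃ₜ ℂ} {η : ℝ} (h : ∀ ζ, ‖F.symm ζ - G.symm ζ‖ ≤ η) (z : ℂ) :
    |infDist z (F ⁻¹' Lam) - infDist z (G ⁻¹' Lam)| ≤ η := by
  rw [abs_le]
  have h1 := LevG0_aux h z
  have h2 := LevG0_aux (F := G) (G := F) (η := η) (fun ζ => by rw [norm_sub_rev]; exact h ζ) z
  constructor <;> linarith

theorem thet_nonneg (s : ℝ) (ζ : ℂ) : 0 ≤ thet s ζ := by
  exact le_max_left _ _

theorem thet_le_one (s : ℝ) (ζ : ℂ) : thet s ζ ≤ 1 := by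
  exact max_le zero_le_one (min_le_left _ _)

theorem thet_eq_one {s : ℝ} (hs : 0 < s) {ζ : ℂ} (hζ : ζ ∈ Lam) : thet s ζ = 1 := by
  unfold thet
  rw [infDist_zero_of_mem hζ, zero_div, sub_zero, min_eq_left (by norm_num),
    max_eq_right (by norm_num)]

theorem thet_eq_zero {s : ℝ} (hs : 0 < s) {ζ : ℂ} (hζ : 2 * s ≤ infDist ζ Lam) :
    thet s ζ = 0 := by
  unfold thet
  have h1 : 2 - infDist ζ Lam / s ≤ 0 := by
    rw [sub_nonpos, le_div_iff₀ hs]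
    exact hζ
  rw [min_eq_right (by linarith), max_eq_left h1]

theorem thet_lipschitz {s : ℝ} (hs : 0 < s) (ζ ζ' : ℂ) :
    |thet s ζ - thet s ζ'| ≤ ‖ζ - ζ'‖ / s := by
  have h1 : |infDist ζ Lam - infDist ζ' Lam| ≤ ‖ζ - ζ'‖ := by
    have h := (lipschitz_infDist_pt Lam).dist_le_mul ζ ζ'
    rw [Real.dist_eq, dist_eq_norm] at h
    simpa using h
  have h2 : |(2 - infDist ζ Lam / s) - (2 - infDist ζ' Lam / s)| ≤ ‖ζ - ζ'‖ / s := by
    have h3 : (2 - infDist ζ Lam / s) - (2 - infDist ζ' Lam / s) =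
        -((infDist ζ Lam - infDist ζ' Lam) / s) := by ring
    rw [h3, abs_neg, abs_div, abs_of_pos hs]
    exact div_le_div_of_nonneg_right h1 hs.le
  refine le_trans ?_ h2
  unfold thet
  have h4 := abs_max_sub_max_le_max (0 : ℝ) (min 1 (2 - infDist ζ Lam / s)) 0
    (min 1 (2 - infDist ζ' Lam / s))
  have h5 := abs_min_sub_min_le_max (1 : ℝ) (2 - infDist ζ Lam / s) 1 (2 - infDist ζ' Lam / s)
  rw [sub_self, abs_zero] at h4 h5
  exact h4.trans (max_le (abs_nonneg _) (h5.trans (max_le (abs_nonneg _) le_rfl)))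

theorem thet_per (s : ℝ) : Per 0 (thet s) := by
  intro z v hv
  unfold thet
  have h1 : infDist (z + v) Lam = infDist z Lam := by
    have hne : Lam.Nonempty := ⟨0, zero_mem_Lam⟩
    have hneg : -v ∈ Lat 0 := by
      obtain ⟨m, n, rfl⟩ := hv
      refine ⟨-m, -n, ?_⟩
      push_cast
      ring
    apply le_antisymm
    · rw [le_infDist hne]
      intro y hy
      have h2 := infDist_le_dist_of_mem (x := z + v) (perSet_Lam y hy v hv)
      rwa [dist_add_right] at h2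
    · rw [le_infDist hne]
      intro y hy
      have h2 := infDist_le_dist_of_mem (x := z) (perSet_Lam y hy (-v) hneg)
      have h3 : dist z (y + -v) = dist (z + v) y := by
        rw [dist_eq_norm, dist_eq_norm]
        congr 1
        ring
      rwa [h3] at h2
  rw [h1]

/-- `nu` as a function of the values of `w` and its first derivatives. -/
noncomputable def Psi (ε t p q : ℝ) : ℂ :=
  -((ε * Real.exp (-t) : ℝ) : ℂ) ^ 2 * ((p : ℂ) + Complex.I * (q : ℂ)) ^ 2 /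
    (((1 + Real.sqrt (1 - (ε * Real.exp (-t)) ^ 2 * (p ^ 2 + q ^ 2))) ^ 2 : ℝ) : ℂ)

theorem nu_eq_Psi (ε : ℝ) (w : ℂ → ℝ) (z : ℂ) : nu ε w z = Psi ε (w z) (Dx w z) (Dy w z) := by
  rfl

theorem continuous_Psi (ε : ℝ) : Continuous (fun x : ℝ × ℝ × ℝ => Psi ε x.1 x.2.1 x.2.2) := by
  unfold Psi
  refine Continuous.div ?_ ?_ ?_
  · fun_prop
  · fun_prop
  · intro x
    have h : (0 : ℝ) < (1 + Real.sqrt (1 - (ε * Real.exp (-x.1)) ^ 2 *
        (x.2.1 ^ 2 + x.2.2 ^ 2))) ^ 2 := by positivity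
    exact_mod_cast h.ne'

/-- The boxes are compact, so `Psi ε` is uniformly continuous on them. -/
theorem Psi_unif (ε B : ℝ) : ∀ η > 0, ∃ δ > 0, ∀ t p q t' p' q' : ℝ, |t| ≤ B → |p| ≤ B →
    |q| ≤ B → |t'| ≤ B → |p'| ≤ B → |q'| ≤ B → |t - t'| ≤ δ → |p - p'| ≤ δ → |q - q'| ≤ δ →
    ‖Psi ε t p q - Psi ε t' p' q'‖ ≤ η := by
  intro η hη
  have hK : IsCompact (Icc (-B) B ×ˢ (Icc (-B) B ×ˢ Icc (-B) B) : Set (ℝ × ℝ × ℝ)) :=
    isCompact_Icc.prod (isCompact_Icc.prod isCompact_Icc)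
  have hu := hK.uniformContinuousOn_of_continuous (continuous_Psi ε).continuousOn
  rw [Metric.uniformContinuousOn_iff] at hu
  obtain ⟨δ, hδ, h⟩ := hu η hη
  refine ⟨δ / 2, by positivity, ?_⟩
  intro t p q t' p' q' ht hp hq ht' hp' hq' h1 h2 h3
  have h4 := h (t, p, q) ⟨abs_le.1 ht, abs_le.1 hp, abs_le.1 hq⟩ (t', p', q')
    ⟨abs_le.1 ht', abs_le.1 hp', abs_le.1 hq'⟩ (by
      rw [Prod.dist_eq, Prod.dist_eq, max_lt_iff, max_lt_iff, Real.dist_eq, Real.dist_eq,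
        Real.dist_eq]
      refine ⟨?_, ?_, ?_⟩ <;> simp only <;> linarith)
  rw [dist_eq_norm] at h4
  exact h4.le

theorem nu_per {a ε : ℝ} {w : ℂ → ℝ} (hw : Per a w) : Per a (nu ε w) := by
  intro z v hv
  rw [nu_eq_Psi, nu_eq_Psi, hw z v hv, per_Dx hw z v hv, per_Dy hw z v hv]

/-- Smoothness of `nu`. -/
theorem nu_smooth {C ε : ℝ} {U : Set ℂ} (hU : IsOpen U) {w : ℂ → ℝ} (hw : ContDiffOn ℝ ∞ w U)
    (hs : ∀ z ∈ U, |Dx w z| ≤ C * Real.exp (w z) ∧ |Dy w z| ≤ C * Real.exp (w z))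
    (hε : 2 * C ^ 2 * ε ^ 2 ≤ 1 / 2) : ContDiffOn ℝ ∞ (nu ε w) U := by
  have hx : ContDiffOn ℝ ∞ (Dx w) U := contDiffOn_Dx hU hw (by simp)
  have hy : ContDiffOn ℝ ∞ (Dy w) U := contDiffOn_Dy hU hw (by simp)
  have hR : ContDiffOn ℝ ∞ (fun z => ε * Real.exp (-(w z))) U :=
    contDiffOn_const.mul hw.neg.exp
  have hq : ContDiffOn ℝ ∞ (fun z => 1 - (ε * Real.exp (-(w z))) ^ 2 *
      ((Dx w z) ^ 2 + (Dy w z) ^ 2)) U :=
    contDiffOn_const.sub ((hR.pow 2).mul ((hx.pow 2).add (hy.pow 2)))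
  have hpos : ∀ z ∈ U, 0 < 1 - (ε * Real.exp (-(w z))) ^ 2 * ((Dx w z) ^ 2 + (Dy w z) ^ 2) := by
    intro z hz
    obtain ⟨h1, h2⟩ := hs z hz
    have hE : Real.exp (-(w z)) * Real.exp (w z) = 1 := by
      rw [← Real.exp_add]
      simp
    have h3 : (Dx w z) ^ 2 ≤ (C * Real.exp (w z)) ^ 2 := sq_le_sq' (by linarith [(abs_le.1 h1).1])
      (abs_le.1 h1).2
    have h4 : (Dy w z) ^ 2 ≤ (C * Real.exp (w z)) ^ 2 := sq_le_sq' (by linarith [(abs_le.1 h2).1])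
      (abs_le.1 h2).2
    have h5 : (ε * Real.exp (-(w z))) ^ 2 * ((Dx w z) ^ 2 + (Dy w z) ^ 2) ≤
        (ε * Real.exp (-(w z))) ^ 2 * ((C * Real.exp (w z)) ^ 2 + (C * Real.exp (w z)) ^ 2) :=
      mul_le_mul_of_nonneg_left (add_le_add h3 h4) (sq_nonneg _)
    have h6 : (ε * Real.exp (-(w z))) ^ 2 * ((C * Real.exp (w z)) ^ 2 + (C * Real.exp (w z)) ^ 2) =
        2 * C ^ 2 * ε ^ 2 * (Real.exp (-(w z)) * Real.exp (w z)) ^ 2 := by ring
    rw [h6, hE, one_pow, mul_one] at h5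
    linarith
  have hsq : ContDiffOn ℝ ∞ (fun z => Real.sqrt (1 - (ε * Real.exp (-(w z))) ^ 2 *
      ((Dx w z) ^ 2 + (Dy w z) ^ 2))) U := hq.sqrt fun z hz => (hpos z hz).ne'
  have hof : ∀ {f : ℂ → ℝ}, ContDiffOn ℝ ∞ f U → ContDiffOn ℝ ∞ (fun z => (f z : ℂ)) U :=
    fun hf => Complex.ofRealCLM.contDiff.comp_contDiffOn hf
  unfold nu
  simp only [div_eq_mul_inv]
  refine ContDiffOn.mul ?_ ((hof ((contDiffOn_const.add hsq).pow 2)).inv ?_)
  · exact ((hof hR).pow 2).neg.mul (((hof hx).add (contDiffOn_const.mul (hof hy))).pow 2)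
  · intro z hz
    have h : (0 : ℝ) < (1 + Real.sqrt (1 - (ε * Real.exp (-(w z))) ^ 2 *
        ((Dx w z) ^ 2 + (Dy w z) ^ 2))) ^ 2 := by positivity
    exact_mod_cast h.ne'

end Pool.Agent.KK
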