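import Pool.Agent.W_bb4b37_h53.ConvB
import Pool.Agent.W_bb4b37_h53.LevG0

/-!
# The limit: data and the `C²` limit of the level solutions
-/

set_option autoImplicit false

open Filter Topology Set MeasureTheory Metric
open scoped ContDiff

namespace Pool.Agent.KK

/-- A sequence of level realizations (`s_n = η_n = 1 / (n + 1)`) and the limit map `G` along the
ultrafilter `𝒰`. -/
structure Seq (C H ε a : ℝ) (𝒰 : Ultrafilter ℕ) (F : ℕ → (ℂ ≃ₜ ℂ)) (μ : ℕ → ℂ → ℂ) (m : ℕ → ℂ)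
    (w : ℕ → ℂ → ℝ) (G : ℂ ≃ₜ ℂ) : Prop where
  hC : 1 ≤ C
  hH : 1 ≤ H
  hε : 0 < ε
  ha0 : 0 ≤ a
  ha : a ≤ 1 / 10
  top : (𝒰 : Filter ℕ) ≤ atTop
  real : ∀ n : ℕ, LevelReal C H ε a (1 / ((n : ℝ) + 1)) (1 / ((n : ℝ) + 1)) (F n) (μ n) (m n) (w n)
  conv : ∀ η > 0, ∀ᶠ n in (𝒰 : Filter ℕ), ∀ z, ‖F n z - G z‖ ≤ η
  convInv : ∀ η > 0, ∀ᶠ n in (𝒰 : Filter ℕ), ∀ z, ‖(F n).symm z - G.symm z‖ ≤ η
  perG : ∀ z : ℂ, ∀ p q : ℤ, G (z + (p * (1 + (a : ℂ)) + q * ((1 - (a : ℂ)) * Complex.I)))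
    = G z + (p + q * Complex.I)

/-- `W` is the limit of the `w n` off `G ⁻¹' Lam`. -/
structure LimW (a : ℝ) (𝒰 : Ultrafilter ℕ) (w : ℕ → ℂ → ℝ) (G : ℂ ≃ₜ ℂ) (W : ℂ → ℝ) : Prop where
  per : Per a W
  smooth : ContDiffOn ℝ 2 W (G ⁻¹' Lam)ᶜ
  conv : ∀ z ∈ (G ⁻¹' Lam)ᶜ, ∃ r > 0, ball z r ⊆ (G ⁻¹' Lam)ᶜ ∧ ∀ l : List Bool, l.length ≤ 2 →
    TendstoUniformlyOn (fun n => DD l (w n)) (DD l W) (𝒰 : Filter ℕ) (ball z r)

variable {C H ε a : ℝ} {𝒰 : Ultrafilter ℕ} {F : ℕ → (ℂ ≃ₜ ℂ)} {μ : ℕ → ℂ → ℂ} {m : ℕ → ℂ}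
  {w : ℕ → ℂ → ℝ} {G : ℂ ≃ₜ ℂ} {W : ℂ → ℝ}

/-- Convergence of the distance functions (`infDist_preimage`). -/
theorem Seq.dist (h : Seq C H ε a 𝒰 F μ m w G) : ∀ η > 0, ∀ᶠ n in (𝒰 : Filter ℕ), ∀ z,
    |infDist z (F n ⁻¹' Lam) - infDist z (G ⁻¹' Lam)| ≤ η := by
  intro η hη
  filter_upwards [h.convInv η hη] with n hn z
  exact infDist_preimage hn z

/-- `G ⁻¹' Lam` is closed, nonempty and periodic, and every point is at distance `≤ 2` from it. -/
theorem Seq.set_props (h : Seq C H ε a 𝒰 F μ m w G) : IsClosed (G ⁻¹' Lam) ∧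
    (G ⁻¹' Lam).Nonempty ∧ PerSet a (G ⁻¹' Lam) ∧ ∀ z, infDist z (G ⁻¹' Lam) ≤ 3 := by
  have hz0 : G.symm 0 ∈ G ⁻¹' Lam := by
    rw [mem_preimage, G.apply_symm_apply]; exact zero_mem_Lam
  have hper : PerSet a (G ⁻¹' Lam) := by
    rintro z hz v ⟨p, q, rfl⟩
    rw [mem_preimage, h.perG z p q]
    exact perSet_Lam (G z) hz _ ⟨p, q, by push_cast; ring⟩
  refine ⟨isClosed_Lam.preimage G.continuous, ⟨_, hz0⟩, hper, ?_⟩
  intro z
  have ha' : |a| < 1 := by
    rw [abs_lt]; constructor <;> linarith [h.ha0, h.ha]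
  obtain ⟨v, hv, hzv⟩ := exists_lat_near ha' (z - G.symm 0)
  have hmem := hper _ hz0 v hv
  have h1 := infDist_le_dist_of_mem (x := z) hmem
  rw [dist_eq_norm] at h1
  have e : z - (G.symm 0 + v) = z - G.symm 0 - v := by ring
  rw [e] at h1
  linarith

/-- Local bounds. For `z` off `G ⁻¹' Lam`, `d = infDist z (G ⁻¹' Lam)`: for almost all `n` along `𝒰` and
all `y ∈ ball z (d / 4)`: `infDist y (F n ⁻¹' Lam) ≥ d / 2`, so `e^{w n y} ≤ 2 C / d` and
`e^{- w n y} ≤ C max (infDist y ..) s ≤ 5 C`. -/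
theorem Seq.local_bounds (h : Seq C H ε a 𝒰 F μ m w G) {z : ℂ} (hz : z ∈ (G ⁻¹' Lam)ᶜ) :
    ∀ᶠ n in (𝒰 : Filter ℕ), ∀ y ∈ ball z (infDist z (G ⁻¹' Lam) / 4),
      infDist z (G ⁻¹' Lam) / 2 ≤ infDist y (F n ⁻¹' Lam) ∧
      Real.exp (w n y) ≤ 2 * C / infDist z (G ⁻¹' Lam) ∧ Real.exp (-(w n y)) ≤ 5 * C := by
  obtain ⟨hcl, hne, hper, h3⟩ := h.set_props
  set S : Set ℂ := G ⁻¹' Lam with hS
  set d : ℝ := infDist z S with hd
  have hd0 : 0 < d := (hcl.notMem_iff_infDist_pos hne).1 hz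
  have hd3 : d ≤ 3 := h3 z
  have hC0 : 0 < C := by linarith [h.hC]
  filter_upwards [h.dist (d / 8) (by positivity)] with n hn y hy
  have hyz : Dist.dist y z < d / 4 := hy
  have h4 : d ≤ infDist y S + Dist.dist z y := infDist_le_infDist_add_dist
  rw [dist_comm] at h4
  have h5 := abs_le.1 (hn y)
  have h6 := h3 y
  have hlow : d / 2 ≤ infDist y (F n ⁻¹' Lam) := by linarith [h5.1]
  have hs1 : 1 / ((n : ℝ) + 1) ≤ 1 := by
    rw [div_le_one (by positivity)]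
    have : (0 : ℝ) ≤ n := Nat.cast_nonneg n
    linarith
  have hlev := (h.real n).level
  refine ⟨hlow, ?_, ?_⟩
  · have h7 := hlev.upper y
    have h8 : d / 2 ≤ max (infDist y (F n ⁻¹' Lam)) (1 / ((n : ℝ) + 1)) := hlow.trans (le_max_left _ _)
    have h9 : Real.exp (w n y) * (d / 2) ≤ C :=
      (mul_le_mul_of_nonneg_left h8 (Real.exp_pos _).le).trans h7
    rw [le_div_iff₀ hd0]
    linarith
  · have h7 := hlev.lower y
    have h8 : max (infDist y (F n ⁻¹' Lam)) (1 / ((n : ℝ) + 1)) ≤ 5 :=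
      max_le (by linarith [h5.2]) (by linarith)
    have h9 : 1 / C ≤ Real.exp (w n y) * 5 :=
      h7.trans (mul_le_mul_of_nonneg_left h8 (Real.exp_pos _).le)
    rw [Real.exp_neg, inv_le_comm₀ (Real.exp_pos _) (by positivity)]
    rw [div_le_iff₀ hC0] at h9
    rw [inv_le_comm₀ (by positivity) (Real.exp_pos _)]
    rw [inv_eq_one_div, div_le_iff₀ (Real.exp_pos _)]
    linarith

/-- **The limit.** Proof: `Seq.local_bounds`, the bounds `Scaled` of `w n` and `ulim_C2` with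
`U = (G ⁻¹' Lam)ᶜ` give `g`; put `W = g` off `G ⁻¹' Lam` and `W = 0` on it. Periodicity: uniqueness of
limits. -/
theorem Seq.exists_limW (h : Seq C H ε a 𝒰 F μ m w G) : ∃ W, LimW a 𝒰 w G W := by
  classical
  obtain ⟨hcl, hne, hper, h3⟩ := h.set_props
  set S : Set ℂ := G ⁻¹' Lam with hS
  have hU : IsOpen Sᶜ := hcl.isOpen_compl
  have hC0 : 0 < C := by linarith [h.hC]
  have hb : ∀ z ∈ Sᶜ, ∃ r > 0, ∃ K : ℝ, ∀ᶠ i in (𝒰 : Filter ℕ),
      (∀ y ∈ ball z r, ∀ l : List Bool, l.length ≤ 2 → |DD l (w i) y| ≤ K) ∧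
      ∀ y ∈ ball z r, ∀ y' ∈ ball z r, ∀ l : List Bool, l.length = 2 →
        |DD l (w i) y - DD l (w i) y'| ≤ K * Real.sqrt ‖y - y'‖ := by
    intro z hz
    set d : ℝ := infDist z S with hd
    have hd0 : 0 < d := (hcl.notMem_iff_infDist_pos hne).1 hz
    set E : ℝ := 2 * C / d with hE
    have hE0 : 0 < E := by positivity
    refine ⟨d / (4 * C ^ 2), by positivity,
      (E + 5 * C) + C * E + C * E ^ 2 + C * E ^ 2 * Real.sqrt E, ?_⟩
    filter_upwards [h.local_bounds hz] with n hn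
    have hrd : d / (4 * C ^ 2) ≤ d / 4 := by
      apply div_le_div_of_nonneg_left hd0.le (by norm_num)
      nlinarith [h.hC]
    have hlev := (h.real n).level
    have hbd : ∀ y ∈ ball z (d / (4 * C ^ 2)), Real.exp (w n y) ≤ E ∧
        Real.exp (-(w n y)) ≤ 5 * C := fun y hy =>
      ⟨(hn y (ball_subset_ball hrd hy)).2.1, (hn y (ball_subset_ball hrd hy)).2.2⟩
    have hp1 : 0 ≤ C * E := by positivity
    have hp2 : 0 ≤ C * E ^ 2 := by positivity
    have hp3 : 0 ≤ C * E ^ 2 * Real.sqrt E := by positivity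
    constructor
    · intro y hy l hl
      obtain ⟨b1, b2⟩ := hbd y hy
      have hexp : 0 < Real.exp (w n y) := Real.exp_pos _
      have hcase : l.length = 0 ∨ l.length = 1 ∨ l.length = 2 := by omega
      rcases hcase with h0 | h1 | h2
      · have hl0 : l = [] := List.length_eq_zero_iff.1 h0
        subst hl0
        rw [DD_nil]
        have c1 := Real.add_one_le_exp (w n y)
        have c2 := Real.add_one_le_exp (-(w n y))
        rw [abs_le]
        constructor <;> linarith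
      · have c1 := hlev.scaled.d1 y (mem_univ _) l h1
        have c2 : C * Real.exp (w n y) ≤ C * E := mul_le_mul_of_nonneg_left b1 hC0.le
        linarith
      · have c1 := hlev.scaled.d2 y (mem_univ _) l h2
        have c2 : C * Real.exp (w n y) ^ 2 ≤ C * E ^ 2 :=
          mul_le_mul_of_nonneg_left (pow_le_pow_left₀ hexp.le b1 2) hC0.le
        linarith
    · intro y hy y' hy' l hl
      obtain ⟨b1, b2⟩ := hbd y' hy'
      have hexp : 0 < Real.exp (w n y') := Real.exp_pos _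
      have hyy : ‖y - y'‖ ≤ 2 * (d / (4 * C ^ 2)) := by
        rw [← dist_eq_norm]
        have t1 := dist_triangle_right y y' z
        have t2 : Dist.dist y z < d / (4 * C ^ 2) := hy
        have t3 : Dist.dist y' z < d / (4 * C ^ 2) := hy'
        linarith
      have hcond : C * ‖y - y'‖ ≤ Real.exp (-(w n y')) := by
        have t1 : C * ‖y - y'‖ ≤ C * (2 * (d / (4 * C ^ 2))) := mul_le_mul_of_nonneg_left hyy hC0.le
        have t2 : C * (2 * (d / (4 * C ^ 2))) = E⁻¹ := by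
          rw [hE]; field_simp; norm_num
        have t3 : E⁻¹ ≤ Real.exp (-(w n y')) := by
          rw [Real.exp_neg]
          exact inv_anti₀ hexp b1
        linarith
      have c1 := hlev.scaled.h2 y' (mem_univ _) y hcond l hl
      have c2 : Real.exp (w n y') ^ 2 ≤ E ^ 2 := pow_le_pow_left₀ hexp.le b1 2
      have c3 : Real.sqrt (Real.exp (w n y') * ‖y - y'‖) ≤ Real.sqrt E * Real.sqrt ‖y - y'‖ := by
        rw [← Real.sqrt_mul hE0.le]
        exact Real.sqrt_le_sqrt (mul_le_mul_of_nonneg_right b1 (norm_nonneg _))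
      have c4 : C * Real.exp (w n y') ^ 2 * Real.sqrt (Real.exp (w n y') * ‖y - y'‖) ≤
          C * E ^ 2 * (Real.sqrt E * Real.sqrt ‖y - y'‖) := by
        apply mul_le_mul (mul_le_mul_of_nonneg_left c2 hC0.le) c3 (Real.sqrt_nonneg _) hp2
      have c5 : C * E ^ 2 * (Real.sqrt E * Real.sqrt ‖y - y'‖) =
          (C * E ^ 2 * Real.sqrt E) * Real.sqrt ‖y - y'‖ := by ring
      have c6 : (C * E ^ 2 * Real.sqrt E) * Real.sqrt ‖y - y'‖ ≤
          ((E + 5 * C) + C * E + C * E ^ 2 + C * E ^ 2 * Real.sqrt E) * Real.sqrt ‖y - y'‖ := by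
        apply mul_le_mul_of_nonneg_right _ (Real.sqrt_nonneg _)
        linarith
      linarith
  obtain ⟨g, hg1, hg2⟩ := ulim_C2 𝒰 hU (fun i => (h.real i).level.smooth) hb
  have hcongr : ∀ y ∈ Sᶜ, (fun z => if z ∈ S then 0 else g z) =ᶠ[𝓝 y] g := by
    intro y hy
    filter_upwards [hU.mem_nhds hy] with x hx
    exact if_neg hx
  have htend : ∀ z ∈ Sᶜ, Tendsto (fun n => w n z) (𝒰 : Filter ℕ) (𝓝 (g z)) := by
    intro z hz
    obtain ⟨r, hr, hu⟩ := hg2 z hz
    exact (hu [] (by simp)).tendsto_at (mem_ball_self hr)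
  refine ⟨fun z => if z ∈ S then 0 else g z, ?_, ?_, ?_⟩
  · intro z v hv
    have hmv : -v ∈ Lat a := by
      obtain ⟨p, q, rfl⟩ := hv
      exact ⟨-p, -q, by push_cast; ring⟩
    by_cases hz : z ∈ S
    · have hz' : z + v ∈ S := hper z hz v hv
      simp only [if_pos hz, if_pos hz']
    · have hz' : z + v ∉ S := by
        intro hc
        apply hz
        have := hper (z + v) hc (-v) hmv
        rwa [add_neg_cancel_right] at this
      simp only [if_neg hz, if_neg hz']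
      have t1 := htend z hz
      have t2 := htend (z + v) hz'
      have e : (fun n => w n (z + v)) = fun n => w n z := by
        funext n; exact (h.real n).level.per z v hv
      rw [e] at t2
      exact tendsto_nhds_unique t2 t1
  · exact hg1.congr fun z hz => if_neg hz
  · intro z hz
    obtain ⟨r, hr, hu⟩ := hg2 z hz
    obtain ⟨r', hr', hrU⟩ := Metric.isOpen_iff.1 hU z hz
    refine ⟨min r r', lt_min hr hr', (ball_subset_ball (min_le_right _ _)).trans hrU, ?_⟩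
    intro l hl
    refine ((hu l hl).mono (ball_subset_ball (min_le_left _ _))).congr_right ?_
    intro y hy
    exact (DD_congr (hcongr y (hrU (ball_subset_ball (min_le_right _ _) hy))) l).symm

end Pool.Agent.KK
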