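import Pool.Agent.W_bb4b37_h53.LevelB
import Pool.Agent.W_bb4b37_h53.LimC0

/-!
# The limit: properties of the limit function
-/

set_option autoImplicit false

open Filter Topology Set MeasureTheory Metric
open scoped ContDiff

namespace Pool.Agent.KK

variable {C H ε a : ℝ} {𝒰 : Ultrafilter ℕ} {F : ℕ → (ℂ ≃ₜ ℂ)} {μ : ℕ → ℂ → ℂ} {m : ℕ → ℂ}
  {w : ℕ → ℂ → ℝ} {G : ℂ ≃ₜ ℂ} {W : ℂ → ℝ}

/-- Pointwise convergence of the derivatives. -/
theorem LimC1_tendsto (hW : LimW a 𝒰 w G W) {z : ℂ} (hz : z ∈ (G ⁻¹' Lam)ᶜ) {l : List Bool}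
    (hl : l.length ≤ 2) : Tendsto (fun n => DD l (w n) z) (𝒰 : Filter ℕ) (𝓝 (DD l W z)) := by
  obtain ⟨r, hr, _, hx⟩ := hW.conv z hz
  exact (hx l hl).tendsto_at (mem_ball_self hr)

/-- Pointwise convergence of the distance functions. -/
theorem LimC1_infDist (h : Seq C H ε a 𝒰 F μ m w G) (z : ℂ) :
    Tendsto (fun n => infDist z (F n ⁻¹' Lam)) (𝒰 : Filter ℕ) (𝓝 (infDist z (G ⁻¹' Lam))) := by
  rw [Metric.tendsto_nhds]
  intro e he
  filter_upwards [h.dist (e / 2) (by positivity)] with n hn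
  rw [Real.dist_eq]
  linarith [hn z]

/-- The levels tend to zero. -/
theorem LimC1_level (h : Seq C H ε a 𝒰 F μ m w G) :
    Tendsto (fun n : ℕ => 1 / ((n : ℝ) + 1)) (𝒰 : Filter ℕ) (𝓝 0) :=
  tendsto_one_div_add_atTop_nhds_zero_nat.mono_left h.top

/-- The distance is positive off the set. -/
theorem LimC1_pos (h : Seq C H ε a 𝒰 F μ m w G) {z : ℂ} (hz : z ∈ (G ⁻¹' Lam)ᶜ) :
    0 < infDist z (G ⁻¹' Lam) := by
  obtain ⟨h1, h2, _, _⟩ := h.set_props
  exact (h1.notMem_iff_infDist_pos h2).1 hz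

/-- The limit equation: `pen Bpen (F n ⁻¹' Lam) s_n z = s_n → 0` by `pen_far` and `Seq.dist`. -/
theorem Seq.limW_sol (h : Seq C H ε a 𝒰 F μ m w G) (hW : LimW a 𝒰 w G W) :
    IsSol ε (fun _ => 0) (G ⁻¹' Lam)ᶜ W := by
  intro z hz
  have ht : ∀ l : List Bool, l.length ≤ 2 →
      Tendsto (fun n => DD l (w n) z) (𝒰 : Filter ℕ) (𝓝 (DD l W z)) :=
    fun l hl => LimC1_tendsto hW hz hl
  have h0 : Tendsto (fun n => w n z) (𝒰 : Filter ℕ) (𝓝 (W z)) := ht [] (by simp)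
  have hxx : Tendsto (fun n => Dx (Dx (w n)) z) (𝒰 : Filter ℕ) (𝓝 (Dx (Dx W) z)) :=
    ht [true, true] (by simp)
  have hyy : Tendsto (fun n => Dy (Dy (w n)) z) (𝒰 : Filter ℕ) (𝓝 (Dy (Dy W) z)) :=
    ht [false, false] (by simp)
  have hL : Tendsto (fun n => Lap (w n) z) (𝒰 : Filter ℕ) (𝓝 (Lap W z)) := hxx.add hyy
  have h2 : Tendsto (fun n => Real.exp (2 * w n z)) (𝒰 : Filter ℕ) (𝓝 (Real.exp (2 * W z))) :=
    (Real.continuous_exp.tendsto _).comp ((h0.const_mul 2))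
  have hd := LimC1_pos h hz
  have hpen : Tendsto (fun n : ℕ => pen Bpen (F n ⁻¹' Lam) (1 / ((n : ℝ) + 1)) z) (𝒰 : Filter ℕ)
      (𝓝 0) := by
    refine (LimC1_level h).congr' ?_
    have h3 : ∀ᶠ n : ℕ in (𝒰 : Filter ℕ), 4 * (1 / ((n : ℝ) + 1)) < infDist z (G ⁻¹' Lam) / 2 := by
      have h4 := (LimC1_level h).const_mul 4
      rw [mul_zero] at h4
      exact h4.eventually_lt_const (by positivity)
    have h5 : ∀ᶠ n : ℕ in (𝒰 : Filter ℕ), infDist z (G ⁻¹' Lam) / 2 < infDist z (F n ⁻¹' Lam) :=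
      (LimC1_infDist h z).eventually_const_lt (by linarith)
    filter_upwards [h3, h5] with n h6 h7
    exact (pen_far (by positivity) (by linarith)).symm
  have hR := (h2.sub hpen).add ((LevelB_QQ (ε := ε) ht).const_mul (ε ^ 2))
  exact tendsto_nhds_unique hL (hR.congr fun n => ((h.real n).level.sol z (mem_univ z)).symm)

/-- Bounds: limits of the bounds in `LevelSol`. -/
theorem Seq.limW_lower (h : Seq C H ε a 𝒰 F μ m w G) (hW : LimW a 𝒰 w G W) {z : ℂ}
    (hz : z ∈ (G ⁻¹' Lam)ᶜ) : 1 / C ≤ Real.exp (W z) * infDist z (G ⁻¹' Lam) ∧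
      Real.exp (W z) * infDist z (G ⁻¹' Lam) ≤ C := by
  have h0 : Tendsto (fun n => w n z) (𝒰 : Filter ℕ) (𝓝 (W z)) :=
    LimC1_tendsto hW hz (l := []) (by simp)
  have he : Tendsto (fun n => Real.exp (w n z)) (𝒰 : Filter ℕ) (𝓝 (Real.exp (W z))) :=
    (Real.continuous_exp.tendsto _).comp h0
  have hmax : Tendsto (fun n : ℕ => max (infDist z (F n ⁻¹' Lam)) (1 / ((n : ℝ) + 1)))
      (𝒰 : Filter ℕ) (𝓝 (infDist z (G ⁻¹' Lam))) := by
    have h1 := (LimC1_infDist h z).max (LimC1_level h)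
    rwa [max_eq_left infDist_nonneg] at h1
  exact ⟨ge_of_tendsto' (he.mul hmax) fun n => (h.real n).level.lower z,
    le_of_tendsto' (he.mul hmax) fun n => (h.real n).level.upper z⟩

/-- Scaled bounds with the constant `2 C`. For `h2`: if `2 C ‖y - z‖ ≤ e^{- W z}` then
`‖y - z‖ ≤ infDist z (G ⁻¹' Lam) / 2` by `Seq.limW_lower`, so `y` is off `G ⁻¹' Lam` and
`DD l (w n) y → DD l W y`; moreover `C ‖y - z‖ ≤ e^{- W z} / 2 ≤ e^{- w n z}` for almost all `n`. -/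
theorem Seq.limW_scaled (h : Seq C H ε a 𝒰 F μ m w G) (hW : LimW a 𝒰 w G W) :
    Scaled (2 * C) (G ⁻¹' Lam)ᶜ W := by
  have hC : 0 < C := by linarith [h.hC]
  have h0 : ∀ z ∈ (G ⁻¹' Lam)ᶜ, Tendsto (fun n => w n z) (𝒰 : Filter ℕ) (𝓝 (W z)) :=
    fun z hz => LimC1_tendsto hW hz (l := []) (by simp)
  have he : ∀ z ∈ (G ⁻¹' Lam)ᶜ,
      Tendsto (fun n => Real.exp (w n z)) (𝒰 : Filter ℕ) (𝓝 (Real.exp (W z))) :=
    fun z hz => (Real.continuous_exp.tendsto _).comp (h0 z hz)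
  have hen : ∀ z ∈ (G ⁻¹' Lam)ᶜ,
      Tendsto (fun n => Real.exp (-(w n z))) (𝒰 : Filter ℕ) (𝓝 (Real.exp (-(W z)))) :=
    fun z hz => (Real.continuous_exp.tendsto _).comp (h0 z hz).neg
  refine ⟨?_, ?_, ?_⟩
  · intro z hz l hl
    have h1 : |DD l W z| ≤ C * Real.exp (W z) :=
      le_of_tendsto_of_tendsto' (LimC1_tendsto hW hz (l := l) (by omega)).abs
        ((he z hz).const_mul C) fun n => (h.real n).level.scaled.d1 z (mem_univ z) l hl
    have h2 : 0 ≤ C * Real.exp (W z) := by positivity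
    linarith
  · intro z hz l hl
    have h1 : |DD l W z| ≤ C * Real.exp (W z) ^ 2 :=
      le_of_tendsto_of_tendsto' (LimC1_tendsto hW hz (l := l) (by omega)).abs
        (((he z hz).pow 2).const_mul C) fun n => (h.real n).level.scaled.d2 z (mem_univ z) l hl
    have h2 : 0 ≤ C * Real.exp (W z) ^ 2 := by positivity
    linarith
  · intro z hz y hy l hl
    have hd := LimC1_pos h hz
    have hlow := (h.limW_lower hW hz).1
    have hE := Real.exp_pos (W z)
    have hE2 := Real.exp_pos (-(W z))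
    have hEE : Real.exp (W z) * Real.exp (-(W z)) = 1 := by
      rw [← Real.exp_add, add_neg_cancel, Real.exp_zero]
    have h3 : Real.exp (-(W z)) ≤ C * infDist z (G ⁻¹' Lam) := by
      have h4 : 1 ≤ C * (Real.exp (W z) * infDist z (G ⁻¹' Lam)) := by
        rw [div_le_iff₀ hC] at hlow
        linarith
      have h5 := mul_le_mul_of_nonneg_left h4 hE2.le
      calc Real.exp (-(W z)) = Real.exp (-(W z)) * 1 := (mul_one _).symm
        _ ≤ Real.exp (-(W z)) * (C * (Real.exp (W z) * infDist z (G ⁻¹' Lam))) := h5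
        _ = (Real.exp (W z) * Real.exp (-(W z))) * (C * infDist z (G ⁻¹' Lam)) := by ring
        _ = C * infDist z (G ⁻¹' Lam) := by rw [hEE, one_mul]
    have h4 : ‖y - z‖ ≤ infDist z (G ⁻¹' Lam) / 2 := by
      have h5 : C * (2 * ‖y - z‖) ≤ C * infDist z (G ⁻¹' Lam) := by
        calc C * (2 * ‖y - z‖) = 2 * C * ‖y - z‖ := by ring
          _ ≤ _ := hy.trans h3
      have h6 := le_of_mul_le_mul_left h5 hC
      linarith
    have hyG : y ∈ (G ⁻¹' Lam)ᶜ := by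
      intro h5
      have h6 : infDist z (G ⁻¹' Lam) ≤ Dist.dist z y := infDist_le_dist_of_mem h5
      rw [dist_comm, dist_eq_norm] at h6
      linarith
    have h5 : C * ‖y - z‖ < Real.exp (-(W z)) := by
      have h6 : 2 * (C * ‖y - z‖) ≤ Real.exp (-(W z)) := by
        calc 2 * (C * ‖y - z‖) = 2 * C * ‖y - z‖ := by ring
          _ ≤ _ := hy
      linarith
    have h6 : ∀ᶠ n in (𝒰 : Filter ℕ), C * ‖y - z‖ < Real.exp (-(w n z)) :=
      (hen z hz).eventually (lt_mem_nhds h5)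
    have h7 : Tendsto (fun n => |DD l (w n) y - DD l (w n) z|) (𝒰 : Filter ℕ)
        (𝓝 (|DD l W y - DD l W z|)) :=
      ((LimC1_tendsto hW hyG (l := l) hl.le).sub (LimC1_tendsto hW hz (l := l) hl.le)).abs
    have h8 : Tendsto (fun n => C * Real.exp (w n z) ^ 2 *
        Real.sqrt (Real.exp (w n z) * ‖y - z‖)) (𝒰 : Filter ℕ)
        (𝓝 (C * Real.exp (W z) ^ 2 * Real.sqrt (Real.exp (W z) * ‖y - z‖))) :=
      (((he z hz).pow 2).const_mul C).mul
        ((Real.continuous_sqrt.tendsto _).comp ((he z hz).mul_const _))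
    have h9 : |DD l W y - DD l W z| ≤
        C * Real.exp (W z) ^ 2 * Real.sqrt (Real.exp (W z) * ‖y - z‖) := by
      refine le_of_tendsto_of_tendsto h7 h8 ?_
      filter_upwards [h6] with n hn
      exact (h.real n).level.scaled.h2 z (mem_univ z) y hn.le l hl
    have h10 : 0 ≤ C * Real.exp (W z) ^ 2 * Real.sqrt (Real.exp (W z) * ‖y - z‖) := by positivity
    calc |DD l W y - DD l W z| ≤
        C * Real.exp (W z) ^ 2 * Real.sqrt (Real.exp (W z) * ‖y - z‖) := h9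
      _ ≤ 2 * (C * Real.exp (W z) ^ 2 * Real.sqrt (Real.exp (W z) * ‖y - z‖)) := by linarith
      _ = _ := by ring

end Pool.Agent.KK
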