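import Pool.Agent.W_bb4b37_h53.RegC

/-!
# The limit: smoothness
-/

set_option autoImplicit false

open Filter Topology Set MeasureTheory Metric
open scoped ContDiff

namespace Pool.Agent.KK

variable {C H ε a : ℝ} {𝒰 : Ultrafilter ℕ} {F : ℕ → (ℂ ≃ₜ ℂ)} {μ : ℕ → ℂ → ℂ} {m : ℕ → ℂ}
  {w : ℕ → ℂ → ℝ} {G : ℂ ≃ₜ ℂ} {W : ℂ → ℝ}

theorem LimC3_cstar_pos : 0 < cstar := by
  have h := (Classical.choose_spec schauder_C2).1
  rw [cstar]
  positivity

/-- `C¹` functions are locally Hölder. -/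
theorem LimC3_LH_of_C1 {U : Set ℂ} (hU : IsOpen U) {f : ℂ → ℝ} (hf : ContDiffOn ℝ 1 f U) :
    LH U f := by
  intro z hz
  have h1 : ContDiffAt ℝ 1 f z := hf.contDiffAt (hU.mem_nhds hz)
  obtain ⟨K, t, ht, hK⟩ := h1.exists_lipschitzOnWith
  obtain ⟨r, hr, hrt⟩ := Metric.mem_nhds_iff.1 ht
  refine ⟨min r (1 / 2), lt_min hr (by norm_num), K, fun y hy y' hy' => ?_⟩
  have hy1 : y ∈ t := hrt (ball_subset_ball (min_le_left _ _) hy)
  have hy1' : y' ∈ t := hrt (ball_subset_ball (min_le_left _ _) hy')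
  have h2 := hK.dist_le_mul y hy1 y' hy1'
  rw [Real.dist_eq, dist_eq_norm] at h2
  refine h2.trans (mul_le_mul_of_nonneg_left ?_ K.2)
  have h3 : ‖y - y'‖ ≤ 1 := by
    have h4 : dist y z < 1 / 2 := lt_of_lt_of_le (mem_ball.1 hy) (min_le_right _ _)
    have h5 : dist y' z < 1 / 2 := lt_of_lt_of_le (mem_ball.1 hy') (min_le_right _ _)
    have h6 := dist_triangle_right y y' z
    rw [dist_eq_norm] at h6
    linarith
  refine Real.le_sqrt_of_sq_le ?_
  have := norm_nonneg (y - y')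
  nlinarith

/-- scaled second derivatives are locally Hölder -/
theorem LimC3_LH_of_scaled {C : ℝ} (hC : 1 ≤ C) {U : Set ℂ} (hU : IsOpen U) {W : ℂ → ℝ}
    (hWc : ContinuousOn W U) (hs : Scaled C U W) {l : List Bool} (hl : l.length = 2) :
    LH U (DD l W) := by
  intro z hz
  have hc : ContinuousAt W z := hWc.continuousAt (hU.mem_nhds hz)
  have h1 : ∀ᶠ y in 𝓝 z, W y < W z + 1 := hc.eventually (gt_mem_nhds (by linarith))
  have h2 : ∀ᶠ y in 𝓝 z, y ∈ U := hU.mem_nhds hz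
  obtain ⟨r, hr, hr1⟩ := Metric.mem_nhds_iff.1 (h1.and h2)
  have hC0 : 0 < C := by linarith
  set R : ℝ := Real.exp (-(W z + 1)) / (2 * C) with hR
  have hR0 : 0 < R := by positivity
  refine ⟨min r R, lt_min hr hR0,
    C * Real.exp (W z + 1) ^ 2 * Real.sqrt (Real.exp (W z + 1)), fun y hy y' hy' => ?_⟩
  have hy1 := hr1 (ball_subset_ball (min_le_left _ _) hy)
  have hWy : Real.exp (W y) ≤ Real.exp (W z + 1) := Real.exp_le_exp.2 hy1.1.le
  have h3 : ‖y' - y‖ ≤ 2 * R := by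
    have h4 : dist y z < R := lt_of_lt_of_le (mem_ball.1 hy) (min_le_right _ _)
    have h5 : dist y' z < R := lt_of_lt_of_le (mem_ball.1 hy') (min_le_right _ _)
    have h6 := dist_triangle_right y' y z
    rw [dist_eq_norm] at h6
    linarith
  have h4 : C * ‖y' - y‖ ≤ Real.exp (-(W y)) := by
    have h5 : C * ‖y' - y‖ ≤ C * (2 * R) := mul_le_mul_of_nonneg_left h3 hC0.le
    have h6 : C * (2 * R) = Real.exp (-(W z + 1)) := by
      rw [hR]
      field_simp
    rw [h6] at h5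
    refine h5.trans (Real.exp_le_exp.2 ?_)
    have : W y < W z + 1 := hy1.1
    linarith
  have h5 := hs.h2 y hy1.2 y' h4 l hl
  rw [abs_sub_comm, norm_sub_rev] at h5
  refine h5.trans ?_
  rw [Real.sqrt_mul (Real.exp_pos _).le]
  have h6 : Real.sqrt (Real.exp (W y)) ≤ Real.sqrt (Real.exp (W z + 1)) := Real.sqrt_le_sqrt hWy
  have h7 : Real.exp (W y) ^ 2 ≤ Real.exp (W z + 1) ^ 2 :=
    pow_le_pow_left₀ (Real.exp_pos _).le hWy 2
  calc C * Real.exp (W y) ^ 2 * (Real.sqrt (Real.exp (W y)) * Real.sqrt ‖y - y'‖)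
      = C * (Real.exp (W y) ^ 2 * Real.sqrt (Real.exp (W y))) * Real.sqrt ‖y - y'‖ := by ring
    _ ≤ C * (Real.exp (W z + 1) ^ 2 * Real.sqrt (Real.exp (W z + 1))) * Real.sqrt ‖y - y'‖ := by
        refine mul_le_mul_of_nonneg_right (mul_le_mul_of_nonneg_left ?_ hC0.le)
          (Real.sqrt_nonneg _)
        exact mul_le_mul h7 h6 (Real.sqrt_nonneg _) (by positivity)
    _ = _ := by ring

/-- Smoothness of `C²` solutions with scaled bounds for small `ε`. Proof: `CH 2 U W` (the second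
derivatives are locally Hölder by `h2`, the others by the mean value inequality) and
`nonlinear_smooth` with `X = 0`; the coefficients are at most `ε² (C + 2 C²) ≤ cstar / 8`. -/
theorem smooth_of_scaled (C : ℝ) (hC : 1 ≤ C) : ∃ ε₀ : ℝ, 0 < ε₀ ∧ ∀ ε : ℝ, 0 < ε → ε ≤ ε₀ →
    ∀ (U : Set ℂ) (W : ℂ → ℝ), IsOpen U → ContDiffOn ℝ 2 W U → IsSol ε (fun _ => 0) U W →
      Scaled C U W → ContDiffOn ℝ ∞ W U := by
  have hcs := LimC3_cstar_pos
  have hC0 : 0 < C := by linarith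
  refine ⟨min 1 (cstar / (8 * (C + 2 * C ^ 2))), lt_min one_pos (by positivity), ?_⟩
  intro ε hε hε0 U W hU hW hsol hsc
  have hε1 : ε ≤ 1 := hε0.trans (min_le_left _ _)
  have hε2 : ε * (C + 2 * C ^ 2) ≤ cstar / 8 := by
    have h1 : ε ≤ cstar / (8 * (C + 2 * C ^ 2)) := hε0.trans (min_le_right _ _)
    rw [le_div_iff₀ (by positivity)] at h1
    linarith
  have hε3 : ε ^ 2 * (C + 2 * C ^ 2) ≤ cstar / 8 := by
    refine le_trans ?_ hε2
    refine mul_le_mul_of_nonneg_right ?_ (by positivity)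
    nlinarith
  -- Hölder regularity
  have hch : CH 2 U W := by
    refine ⟨hW, fun l hl => ?_⟩
    have h12 : ContDiffOn ℝ 1 W U := hW.of_le (by norm_num)
    match l, hl with
    | [], _ => exact LimC3_LH_of_C1 hU h12
    | [true], _ => exact LimC3_LH_of_C1 hU (contDiffOn_Dx hU hW (by norm_num))
    | [false], _ => exact LimC3_LH_of_C1 hU (contDiffOn_Dy hU hW (by norm_num))
    | [b, c], _ => exact LimC3_LH_of_scaled hC hU hW.continuousOn hsc rfl
    | _ :: _ :: _ :: _, h => simp at h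
  -- coefficient bounds
  have key : ∀ z ∈ U, ∀ s t : ℝ, |s| ≤ C * Real.exp (W z) ^ 2 → |t| ≤ (C * Real.exp (W z)) ^ 2 →
      ε ^ 2 * Real.exp (-(2 * W z)) * |s - 2 * t| ≤ cstar / 8 := by
    intro z _ s t hs ht
    have h1 : |s - 2 * t| ≤ (C + 2 * C ^ 2) * Real.exp (W z) ^ 2 := by
      calc |s - 2 * t| ≤ |s| + |2 * t| := abs_sub _ _
        _ = |s| + 2 * |t| := by rw [abs_mul, abs_two]
        _ ≤ C * Real.exp (W z) ^ 2 + 2 * (C * Real.exp (W z)) ^ 2 := by linarith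
        _ = _ := by ring
    have h2 : Real.exp (-(2 * W z)) * Real.exp (W z) ^ 2 = 1 := by
      rw [← Real.exp_nat_mul, ← Real.exp_add]
      simp
    calc ε ^ 2 * Real.exp (-(2 * W z)) * |s - 2 * t|
        ≤ ε ^ 2 * Real.exp (-(2 * W z)) * ((C + 2 * C ^ 2) * Real.exp (W z) ^ 2) :=
          mul_le_mul_of_nonneg_left h1 (by positivity)
      _ = ε ^ 2 * (C + 2 * C ^ 2) * (Real.exp (-(2 * W z)) * Real.exp (W z) ^ 2) := by ring
      _ ≤ cstar / 8 := by rw [h2, mul_one]; exact hε3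
  have hx : ∀ z ∈ U, |Dx W z| ≤ C * Real.exp (W z) := fun z hz => hsc.d1 z hz [true] rfl
  have hy : ∀ z ∈ U, |Dy W z| ≤ C * Real.exp (W z) := fun z hz => hsc.d1 z hz [false] rfl
  refine nonlinear_smooth (X := 0) hU hch hsol ?_ ?_ ?_
  · intro z hz
    refine key z hz _ _ (hsc.d2 z hz [true, true] rfl) ?_
    rw [abs_pow]
    exact pow_le_pow_left₀ (abs_nonneg _) (hx z hz) 2
  · intro z hz
    refine key z hz _ _ (hsc.d2 z hz [true, false] rfl) ?_
    rw [abs_mul, sq]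
    exact mul_le_mul (hx z hz) (hy z hz) (abs_nonneg _) (by positivity)
  · intro z hz
    refine key z hz _ _ (hsc.d2 z hz [false, false] rfl) ?_
    rw [abs_pow]
    exact pow_le_pow_left₀ (abs_nonneg _) (hy z hz) 2

end Pool.Agent.KK
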