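import Pool.Agent.W_bb4b37_h53.CalcC

/-!
# The limit `s → 0`: realizations (part B)
-/

set_option autoImplicit false

open Filter Topology Set MeasureTheory Metric
open scoped ContDiff

namespace Pool.Agent.KK

/-- Local `L²` bound: `∫_K ‖Dz F‖² ≤ 2 area (F K)` for a smooth bijection with `∂̄F = μ ∂F`,
`‖μ‖ ≤ 1/4`. -/
theorem energy_bound {F : ℂ ≃ₜ ℂ} {μ : ℂ → ℂ} (hF : ContDiff ℝ ∞ F)
    (hb : ∀ z, Dzb F z = μ z * Dz F z) (hμ : ∀ z, ‖μ z‖ ≤ 1 / 4) (hne : ∀ z, Dz F z ≠ 0)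
    {K : Set ℂ} (hK : IsCompact K) :
    ∫ z in K, ‖Dz F z‖ ^ 2 ≤ 2 * (volume (F '' K)).toReal := by
  have hlow : ∀ z, ‖Dz F z‖ ^ 2 ≤ 2 * |(fderiv ℝ F z).det| := by
    intro z
    have h1 : (fderiv ℝ F z).det = ‖Dz F z‖ ^ 2 - ‖Dzb F z‖ ^ 2 := det_fderiv F z
    have h2 : ‖Dzb F z‖ ≤ 1 / 4 * ‖Dz F z‖ := by
      rw [hb z, norm_mul]
      exact mul_le_mul_of_nonneg_right (hμ z) (norm_nonneg _)
    have h3 : ‖Dzb F z‖ ^ 2 ≤ (1 / 4 * ‖Dz F z‖) ^ 2 := pow_le_pow_left₀ (norm_nonneg _) h2 2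
    have h4 : (fderiv ℝ F z).det ≤ |(fderiv ℝ F z).det| := le_abs_self _
    nlinarith [sq_nonneg (‖Dz F z‖)]
  have hc1 : Continuous (fderiv ℝ F) := hF.continuous_fderiv (by simp)
  have hcDx : Continuous (Dx F) := hc1.clm_apply continuous_const
  have hcDy : Continuous (Dy F) := hc1.clm_apply continuous_const
  have hcDz : Continuous (Dz F) := (hcDx.sub (continuous_const.mul hcDy)).div_const 2
  have hcDzb : Continuous (Dzb F) := (hcDx.add (continuous_const.mul hcDy)).div_const 2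
  have hcdet : Continuous fun z => (fderiv ℝ F z).det := by
    have : (fun z => (fderiv ℝ F z).det) = fun z => ‖Dz F z‖ ^ 2 - ‖Dzb F z‖ ^ 2 := by
      funext z
      exact det_fderiv F z
    rw [this]
    exact (hcDz.norm.pow 2).sub (hcDzb.norm.pow 2)
  have hder : ∀ x ∈ K, HasFDerivWithinAt F (fderiv ℝ F x) K x := fun x _ =>
    ((hF.differentiable (by simp)) x).hasFDerivAt.hasFDerivWithinAt
  have e1 := MeasureTheory.integral_image_eq_integral_abs_det_fderiv_smul volume hK.measurableSet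
    hder F.injective.injOn (fun _ => (1 : ℝ))
  have e2 : ∫ _ in F '' K, (1 : ℝ) = (volume (F '' K)).toReal := by
    rw [setIntegral_const, smul_eq_mul, mul_one]
    rfl
  rw [e2] at e1
  rw [e1, ← integral_const_mul]
  have hc2 : Continuous fun z => 2 * |(fderiv ℝ F z).det| • (1 : ℝ) :=
    continuous_const.mul (hcdet.abs.smul continuous_const)
  refine integral_mono ((hcDz.norm.pow 2).continuousOn.integrableOn_compact hK)
    (hc2.continuousOn.integrableOn_compact hK) ?_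
  intro z
  have h1 := hlow z
  simpa using h1

end Pool.Agent.KK
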