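import Pool.Agent.W_bb4b37_h53.LimC2
import Pool.Agent.W_bb4b37_h53.LimitB

/-!
# The limit: the weak Beltrami equation
-/

set_option autoImplicit false

open Filter Topology Set MeasureTheory Metric
open scoped ContDiff

namespace Pool.Agent.KK

variable {C H ε a : ℝ} {𝒰 : Ultrafilter ℕ} {F : ℕ → (ℂ ≃ₜ ℂ)} {μ : ℕ → ℂ → ℂ} {m : ℕ → ℂ}
  {w : ℕ → ℂ → ℝ} {G : ℂ ≃ₜ ℂ} {W : ℂ → ℝ}

theorem LimC4_contDz {f : ℂ → ℂ} (hf : ContDiff ℝ ∞ f) : Continuous (Dz f) := by
  have h1 : Continuous (fderiv ℝ f) := hf.continuous_fderiv (by simp)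
  exact ((h1.clm_apply continuous_const).sub
    (continuous_const.mul (h1.clm_apply continuous_const))).div_const 2

theorem LimC4_contDzb {f : ℂ → ℂ} (hf : ContDiff ℝ ∞ f) : Continuous (Dzb f) := by
  have h1 : Continuous (fderiv ℝ f) := hf.continuous_fderiv (by simp)
  exact ((h1.clm_apply continuous_const).add
    (continuous_const.mul (h1.clm_apply continuous_const))).div_const 2

theorem LimC4_suppDz {f : ℂ → ℂ} (hf : HasCompactSupport f) : HasCompactSupport (Dz f) := by
  have h1 : HasCompactSupport (Dx f) := hf.fderiv_apply ℝ 1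
  have h2 : HasCompactSupport (Dy f) := hf.fderiv_apply ℝ Complex.I
  have h3 : Dz f = (fun z => Dx f z - Complex.I * Dy f z) * (fun _ => (2 : ℂ)⁻¹) := by
    funext z
    simp only [Dz, Pi.mul_apply, div_eq_mul_inv]
  rw [h3]
  refine HasCompactSupport.mul_right ?_
  exact h1.sub (HasCompactSupport.mul_left (f := fun _ => Complex.I) h2)

theorem LimC4_suppDzb {f : ℂ → ℂ} (hf : HasCompactSupport f) : HasCompactSupport (Dzb f) := by
  have h1 : HasCompactSupport (Dx f) := hf.fderiv_apply ℝ 1
  have h2 : HasCompactSupport (Dy f) := hf.fderiv_apply ℝ Complex.I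
  have h3 : Dzb f = (fun z => Dx f z + Complex.I * Dy f z) * (fun _ => (2 : ℂ)⁻¹) := by
    funext z
    simp only [Dzb, Pi.mul_apply, div_eq_mul_inv]
  rw [h3]
  refine HasCompactSupport.mul_right ?_
  exact h1.add (HasCompactSupport.mul_left (f := fun _ => Complex.I) h2)

theorem LimC4_contDiff {U : Set ℂ} (hU : IsOpen U) {ν φ : ℂ → ℂ} (hν : ContDiffOn ℝ ∞ ν U)
    (hφ : ContDiff ℝ ∞ φ) (hs : tsupport φ ⊆ U) : ContDiff ℝ ∞ (fun y => ν y * φ y) := by
  rw [contDiff_iff_contDiffAt]
  intro x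
  by_cases hx : x ∈ tsupport φ
  · exact (hν.contDiffAt (hU.mem_nhds (hs hx))).mul hφ.contDiffAt
  · have h1 : (fun y => ν y * φ y) =ᶠ[𝓝 x] fun _ => 0 := by
      filter_upwards [notMem_tsupport_iff_eventuallyEq.1 hx] with y hy
      rw [hy, Pi.zero_apply, mul_zero]
    exact contDiffAt_const.congr_of_eventuallyEq h1

/-- Integration by parts. -/
theorem integral_parts {f φ : ℂ → ℂ} (hf : ContDiff ℝ 1 f) (hφ : ContDiff ℝ 1 φ)
    (hc : HasCompactSupport φ) :
    ∫ z, f z * Dzb φ z = - ∫ z, Dzb f z * φ z ∧ ∫ z, f z * Dz φ z = - ∫ z, Dz f z * φ z := by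
  have hfd : Differentiable ℝ f := hf.differentiable (by norm_num)
  have hφd : Differentiable ℝ φ := hφ.differentiable (by norm_num)
  have hfc : Continuous (fderiv ℝ f) := hf.continuous_fderiv (by norm_num)
  have hφc : Continuous (fderiv ℝ φ) := hφ.continuous_fderiv (by norm_num)
  have i1 : ∀ v : ℂ, Integrable (fun z => f z * fderiv ℝ φ z v) := fun v =>
    Continuous.integrable_of_hasCompactSupport (hf.continuous.mul (hφc.clm_apply continuous_const))
      (HasCompactSupport.mul_left (hc.fderiv_apply ℝ v))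
  have i2 : ∀ v : ℂ, Integrable (fun z => fderiv ℝ f z v * φ z) := fun v =>
    Continuous.integrable_of_hasCompactSupport ((hfc.clm_apply continuous_const).mul hφ.continuous)
      (HasCompactSupport.mul_left hc)
  have i3 : Integrable (fun z => f z * φ z) :=
    Continuous.integrable_of_hasCompactSupport (hf.continuous.mul hφ.continuous)
      (HasCompactSupport.mul_left hc)
  have key : ∀ v : ℂ, ∫ z, f z * fderiv ℝ φ z v = - ∫ z, fderiv ℝ f z v * φ z := fun v =>
    integral_mul_fderiv_eq_neg_fderiv_mul_of_integrable (i2 v) (i1 v) i3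
      (fun x _ => hfd x) (fun x _ => hφd x)
  have comb : ∀ c : ℂ, ∫ z, f z * ((Dx φ z + c * Dy φ z) / 2) =
      - ∫ z, (Dx f z + c * Dy f z) / 2 * φ z := by
    intro c
    have e1 : (fun z => f z * ((Dx φ z + c * Dy φ z) / 2)) =
        fun z => 1 / 2 * (f z * fderiv ℝ φ z 1) + c / 2 * (f z * fderiv ℝ φ z Complex.I) := by
      funext z
      simp only [Dx, Dy]
      ring
    have e2 : (fun z => (Dx f z + c * Dy f z) / 2 * φ z) =
        fun z => 1 / 2 * (fderiv ℝ f z 1 * φ z) + c / 2 * (fderiv ℝ f z Complex.I * φ z) := by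
      funext z
      simp only [Dx, Dy]
      ring
    rw [e1, e2, integral_add ((i1 1).const_mul _) ((i1 Complex.I).const_mul _),
      integral_add ((i2 1).const_mul _) ((i2 Complex.I).const_mul _), integral_const_mul,
      integral_const_mul, integral_const_mul, integral_const_mul, key, key]
    ring
  refine ⟨comb Complex.I, ?_⟩
  have h1 := comb (-Complex.I)
  simp only [neg_mul, ← sub_eq_add_neg] at h1
  exact h1

/-- Uniform `L¹` bound: `∫_K ‖Dz (F n)‖ ≤ B` for almost all `n`, `K` compact. Proof: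
`energy_bound`, Cauchy-Schwarz, and `F n '' K` is contained in the `1`-neighbourhood of the
compact set `G '' K`. -/
theorem Seq.l1_bound (h : Seq C H ε a 𝒰 F μ m w G) {K : Set ℂ} (hK : IsCompact K) :
    ∃ B : ℝ, ∀ᶠ n in (𝒰 : Filter ℕ), ∫ z in K, ‖Dz (F n) z‖ ≤ B := by
  have hGK : IsCompact (cthickening 1 (G '' K)) := (hK.image G.continuous).cthickening
  refine ⟨(∫ _z in K, (1 : ℝ)) + 2 * (volume (cthickening 1 (G '' K))).toReal, ?_⟩
  filter_upwards [h.conv 1 one_pos] with n hn
  have hr := h.real n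
  have hc : Continuous (Dz (F n)) := LimC4_contDz hr.smooth
  have h1 := energy_bound hr.smooth hr.belt hr.bound hr.ne hK
  have h2 : F n '' K ⊆ cthickening 1 (G '' K) := by
    rintro y ⟨x, hx, rfl⟩
    refine mem_cthickening_of_dist_le _ (G x) 1 _ (mem_image_of_mem _ hx) ?_
    rw [dist_eq_norm]
    exact hn x
  have h3 : (volume (F n '' K)).toReal ≤ (volume (cthickening 1 (G '' K))).toReal :=
    ENNReal.toReal_mono hGK.measure_lt_top.ne (measure_mono h2)
  have h4 : ∫ z in K, ‖Dz (F n) z‖ ≤ ∫ z in K, (1 + ‖Dz (F n) z‖ ^ 2) := by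
    refine setIntegral_mono (hc.norm.continuousOn.integrableOn_compact hK)
      ((continuous_const.add (hc.norm.pow 2)).continuousOn.integrableOn_compact hK) (fun z => ?_)
    show ‖Dz (F n) z‖ ≤ 1 + ‖Dz (F n) z‖ ^ 2
    nlinarith only [sq_nonneg (‖Dz (F n) z‖ - 1 / 2)]
  have i1 : IntegrableOn (fun _ : ℂ => (1 : ℝ)) K :=
    continuous_const.continuousOn.integrableOn_compact hK
  have i2 : IntegrableOn (fun z => ‖Dz (F n) z‖ ^ 2) K :=
    (hc.norm.pow 2).continuousOn.integrableOn_compact hK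
  rw [integral_add i1 i2] at h4
  linarith only [h4, h1, h3]

/-- **The weak equation.** Proof: `K = tsupport φ`. For every `n`,
`∫ F n (∂̄φ - ∂(νφ)) = ∫ (ν - μ n) ∂(F n) φ` (`integral_parts`, `belt`), which is at most
`sup_K ‖μ n - ν‖ * sup ‖φ‖ * B`, and `∫ F n ψ → ∫ G ψ` for the fixed continuous compactly supported
`ψ = ∂̄φ - ∂(νφ)` by uniform convergence. -/
theorem Seq.weak (h : Seq C H ε a 𝒰 F μ m w G) (hW : LimW a 𝒰 w G W)
    (hν : ContDiffOn ℝ ∞ (nu ε W) (G ⁻¹' Lam)ᶜ) {φ : ℂ → ℂ} (hφ : ContDiff ℝ ∞ φ)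
    (hc : HasCompactSupport φ) (hs : tsupport φ ⊆ (G ⁻¹' Lam)ᶜ) :
    ∫ z, G z * (Dzb φ z - Dz (fun y => nu ε W y * φ y) z) = 0 := by
  have hUo : IsOpen (G ⁻¹' Lam)ᶜ := h.set_props.1.isOpen_compl
  obtain ⟨χ, hχ⟩ : ∃ χ : ℂ → ℂ, χ = fun y => nu ε W y * φ y := ⟨_, rfl⟩
  have hχs : ContDiff ℝ ∞ χ := by
    rw [hχ]
    exact LimC4_contDiff hUo hν hφ hs
  have hχc : HasCompactSupport χ := by
    rw [hχ]
    exact HasCompactSupport.mul_left hc
  rw [← hχ]
  have c1 : Continuous (Dzb φ) := LimC4_contDzb hφ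
  have c2 : Continuous (Dz χ) := LimC4_contDz hχs
  have s1 : HasCompactSupport (Dzb φ) := LimC4_suppDzb hc
  have s2 : HasCompactSupport (Dz χ) := LimC4_suppDz hχc
  have c3 : Continuous (fun z => Dzb φ z - Dz χ z) := c1.sub c2
  have s3 : HasCompactSupport (fun z => Dzb φ z - Dz χ z) := s1.sub s2
  have hKc : IsCompact (tsupport φ) := hc
  obtain ⟨B, hB⟩ := h.l1_bound hKc
  obtain ⟨M, hM⟩ := hφ.continuous.bounded_above_of_compact_support hc
  have hM0 : 0 ≤ M := (norm_nonneg _).trans (hM 0)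
  have i3 : Integrable (fun z => ‖Dzb φ z - Dz χ z‖) :=
    (c3.integrable_of_hasCompactSupport s3).norm
  have hA0 : 0 ≤ ∫ z, ‖Dzb φ z - Dz χ z‖ := integral_nonneg (fun z => norm_nonneg _)
  have hkey : ∀ η > 0, ‖∫ z, G z * (Dzb φ z - Dz χ z)‖ ≤
      η * ((∫ z, ‖Dzb φ z - Dz χ z‖) + M * |B|) := by
    intro η hη
    obtain ⟨n, h1, h2, h3⟩ := ((h.conv η hη).and ((h.lim_mu hW hKc hs η hη).and hB)).exists
    have hr := h.real n
    have cF : Continuous (F n) := (F n).continuous
    have cD : Continuous (Dz (F n)) := LimC4_contDz hr.smooth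
    have i4 : Integrable (fun z => (G z - F n z) * (Dzb φ z - Dz χ z)) :=
      Continuous.integrable_of_hasCompactSupport ((G.continuous.sub cF).mul c3)
        (HasCompactSupport.mul_left s3)
    have i5 : Integrable (fun z => F n z * Dzb φ z) :=
      Continuous.integrable_of_hasCompactSupport (cF.mul c1) (HasCompactSupport.mul_left s1)
    have i6 : Integrable (fun z => F n z * Dz χ z) :=
      Continuous.integrable_of_hasCompactSupport (cF.mul c2) (HasCompactSupport.mul_left s2)
    have i7 : Integrable (fun z => Dzb (F n) z * φ z) :=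
      Continuous.integrable_of_hasCompactSupport ((LimC4_contDzb hr.smooth).mul hφ.continuous)
        (HasCompactSupport.mul_left hc)
    have i8 : Integrable (fun z => Dz (F n) z * χ z) :=
      Continuous.integrable_of_hasCompactSupport (cD.mul hχs.continuous)
        (HasCompactSupport.mul_left hχc)
    have e1 : (fun z => G z * (Dzb φ z - Dz χ z)) = fun z =>
        (G z - F n z) * (Dzb φ z - Dz χ z) + (F n z * Dzb φ z - F n z * Dz χ z) := by
      funext z
      ring
    have e2 : ∫ z, (F n z * Dzb φ z - F n z * Dz χ z) =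
        ∫ z, (nu ε W z - μ n z) * Dz (F n) z * φ z := by
      rw [integral_sub i5 i6,
        (integral_parts (contDiff_infty.1 hr.smooth 1) (contDiff_infty.1 hφ 1) hc).1,
        (integral_parts (contDiff_infty.1 hr.smooth 1) (contDiff_infty.1 hχs 1) hχc).2,
        sub_neg_eq_add, neg_add_eq_sub, ← integral_sub i8 i7]
      refine integral_congr_ae (Eventually.of_forall (fun z => ?_))
      show Dz (F n) z * χ z - Dzb (F n) z * φ z = (nu ε W z - μ n z) * Dz (F n) z * φ z
      rw [hr.belt, hχ]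
      ring
    have b1 : ‖∫ z, (G z - F n z) * (Dzb φ z - Dz χ z)‖ ≤
        η * ∫ z, ‖Dzb φ z - Dz χ z‖ := by
      rw [← integral_const_mul]
      refine norm_integral_le_of_norm_le (i3.const_mul η) (Eventually.of_forall (fun z => ?_))
      rw [norm_mul]
      refine mul_le_mul_of_nonneg_right ?_ (norm_nonneg _)
      rw [norm_sub_rev]
      exact h1 z
    have b2 : ‖∫ z, (nu ε W z - μ n z) * Dz (F n) z * φ z‖ ≤ η * (M * |B|) := by
      have iK : IntegrableOn (fun z => η * M * ‖Dz (F n) z‖) (tsupport φ) :=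
        (continuous_const.mul cD.norm).continuousOn.integrableOn_compact hKc
      have j1 : Integrable ((tsupport φ).indicator (fun z => η * M * ‖Dz (F n) z‖)) :=
        (integrable_indicator_iff (isClosed_tsupport φ).measurableSet).2 iK
      have j2 := norm_integral_le_of_norm_le (μ := (volume : Measure ℂ))
        (f := fun z => (nu ε W z - μ n z) * Dz (F n) z * φ z) j1
        (Eventually.of_forall (fun z => by
          by_cases hz : z ∈ tsupport φ
          · rw [indicator_of_mem hz, norm_mul, norm_mul]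
            have k1 : ‖nu ε W z - μ n z‖ ≤ η := by
              rw [norm_sub_rev]
              exact h2 z hz
            have k2 := mul_le_mul_of_nonneg_right k1 (norm_nonneg (Dz (F n) z))
            have k3 := mul_le_mul k2 (hM z) (norm_nonneg _)
              (mul_nonneg hη.le (norm_nonneg (Dz (F n) z)))
            refine k3.trans (le_of_eq (by ring))
          · rw [indicator_of_notMem hz, image_eq_zero_of_notMem_tsupport hz, mul_zero,
              norm_zero]))
      rw [integral_indicator (isClosed_tsupport φ).measurableSet, integral_const_mul] at j2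
      refine j2.trans ?_
      rw [mul_assoc]
      refine mul_le_mul_of_nonneg_left ?_ hη.le
      exact mul_le_mul_of_nonneg_left (h3.trans (le_abs_self B)) hM0
    have i9 : Integrable (fun z => F n z * Dzb φ z - F n z * Dz χ z) := i5.sub i6
    rw [e1, integral_add i4 i9, e2]
    refine (norm_add_le _ _).trans ?_
    rw [mul_add]
    exact add_le_add b1 b2
  by_contra hne
  have hpos : 0 < ‖∫ z, G z * (Dzb φ z - Dz χ z)‖ := norm_pos_iff.2 hne
  set I := ‖∫ z, G z * (Dzb φ z - Dz χ z)‖ with hI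
  set A := (∫ z, ‖Dzb φ z - Dz χ z‖) + M * |B| with hA
  have hA1 : 0 ≤ A := add_nonneg hA0 (mul_nonneg hM0 (abs_nonneg B))
  have h1 := hkey (I / (2 * (A + 1))) (by positivity)
  have h2 : I / (2 * (A + 1)) * A < I := by
    rw [div_mul_eq_mul_div, div_lt_iff₀ (by positivity)]
    nlinarith only [hpos, hA1]
  exact absurd h1 (not_le.2 h2)

end Pool.Agent.KK
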