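import Pool.Agent.W_bb4b37_h53.QSA

/-!
# Metric consequences of weak quasisymmetry (part A)
-/

set_option autoImplicit false

open Filter Topology Set MeasureTheory Metric
open scoped ContDiff

namespace Pool.Agent.KK

/-- Doubling chain: if `‖x - a‖ ≤ 2^n ‖y - a‖` then `‖f x - f a‖ ≤ (H (H + 1))^n H ‖f y - f a‖`.
Proof: induction; for the midpoint `p` of `a` and `x`, `‖f p - f a‖` is controlled by the case
`n - 1`, and `‖x - p‖ = ‖a - p‖` gives `‖f x - f p‖ ≤ H ‖f a - f p‖`. -/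
theorem WQS.chain {H : ℝ} (hH : 1 ≤ H) {f : ℂ → ℂ} (hf : WQS H f) (n : ℕ) {a x y : ℂ}
    (h : ‖x - a‖ ≤ 2 ^ n * ‖y - a‖) :
    ‖f x - f a‖ ≤ (H * (H + 1)) ^ n * H * ‖f y - f a‖ := by
  induction n generalizing x with
  | zero =>
    have h1 : ‖x - a‖ ≤ ‖y - a‖ := by simpa using h
    simpa using hf a x y h1
  | succ n ih =>
    set p : ℂ := (a + x) / 2 with hp
    have hpa : ‖p - a‖ = ‖x - a‖ / 2 := by
      have e : p - a = (x - a) / 2 := by rw [hp]; ring
      rw [e, norm_div]; norm_num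
    have hxp : ‖x - p‖ = ‖x - a‖ / 2 := by
      have e : x - p = (x - a) / 2 := by rw [hp]; ring
      rw [e, norm_div]; norm_num
    have hap : ‖a - p‖ = ‖x - a‖ / 2 := by rw [norm_sub_rev]; exact hpa
    have h1 : ‖p - a‖ ≤ 2 ^ n * ‖y - a‖ := by
      rw [hpa]; rw [pow_succ] at h; linarith
    have h2 := ih h1
    have h3 := hf p x a (by rw [hxp, hap])
    have h4 : ‖f x - f a‖ ≤ ‖f x - f p‖ + ‖f p - f a‖ := norm_sub_le_norm_sub_add_norm_sub _ _ _
    have h5 : ‖f a - f p‖ = ‖f p - f a‖ := norm_sub_rev _ _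
    rw [h5] at h3
    set M : ℝ := (H * (H + 1)) ^ n * H * ‖f y - f a‖ with hM
    have hM0 : 0 ≤ M := le_trans (norm_nonneg _) h2
    have h6 : ‖f x - f a‖ ≤ (H + 1) * M := by nlinarith
    have h7 : (H * (H + 1)) ^ (n + 1) * H * ‖f y - f a‖ = H * ((H + 1) * M) := by
      rw [hM, pow_succ]; ring
    rw [h7]
    have h8 : 0 ≤ (H + 1) * M := mul_nonneg (by linarith) hM0
    nlinarith

/-- Modulus of continuity: for maps with `‖f x - f y‖ ≤ D` whenever `‖x - y‖ ≤ 1`.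
Proof: let `ρ = ‖x - a‖` be small, `v = (x - a)/ρ`, `x_j = a + 3^j ρ v` for `0 ≤ j ≤ n`,
`3^n ρ ≤ 1`. For `i < j`: `‖x_i - a‖ ≤ ‖x_i - x_j‖`, so
`‖f x_i - f a‖ ≤ H ‖f x_j - f x_i‖`, and `‖f x - f a‖ ≤ H ‖f x_i - f a‖`. So the `n + 1` points
`f x_j` lie in a ball of radius `D` and have mutual distances `≥ ‖f x - f a‖ / H²`; by packing,
`n + 1 ≤ (1 + 2 D H² / ‖f x - f a‖)²`. -/
theorem wqs_modulus (H D : ℝ) (hH : 1 ≤ H) (hD : 0 < D) : ∀ η > 0, ∃ δ > 0, ∀ f : ℂ → ℂ,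
    WQS H f → (∀ x y, ‖x - y‖ ≤ 1 → ‖f x - f y‖ ≤ D) →
    ∀ x y, ‖x - y‖ ≤ δ → ‖f x - f y‖ ≤ η := by
  intro η hη
  have hH0 : 0 < H := by linarith
  set ε : ℝ := η / H ^ 2 with hε
  have hε0 : 0 < ε := by positivity
  obtain ⟨t, ht, hcov⟩ := Metric.totallyBounded_iff.1
    (isCompact_closedBall (0 : ℂ) D).totallyBounded (ε / 2) (by positivity)
  set N : ℕ := ht.toFinset.card with hN
  refine ⟨(1 / 3) ^ N, by positivity, ?_⟩
  intro f hf hDf x a hxa
  by_contra hcon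
  push Not at hcon
  set ρ : ℝ := ‖x - a‖ with hρ
  have hρ0 : 0 ≤ ρ := norm_nonneg _
  set p : ℕ → ℂ := fun j => a + (3 : ℂ) ^ j * (x - a) with hp
  have hpn : ∀ j, ‖p j - a‖ = 3 ^ j * ρ := by
    intro j
    have e : p j - a = (3 : ℂ) ^ j * (x - a) := by simp only [hp]; ring
    rw [e, norm_mul, norm_pow, ← hρ]; norm_num
  have hp1 : ∀ j, j ≤ N → ‖p j - a‖ ≤ 1 := by
    intro j hj
    rw [hpn]
    have h1 : (3 : ℝ) ^ j ≤ 3 ^ N := pow_le_pow_right₀ (by norm_num) hj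
    calc (3 : ℝ) ^ j * ρ ≤ 3 ^ N * (1 / 3) ^ N := by
          apply mul_le_mul h1 hxa hρ0 (by positivity)
      _ = 1 := by rw [← mul_pow]; norm_num
  have hmem : ∀ j, j ≤ N → ∃ c ∈ t, f (p j) - f a ∈ ball c (ε / 2) := by
    intro j hj
    have h1 : f (p j) - f a ∈ closedBall (0 : ℂ) D := by
      rw [mem_closedBall_zero_iff]; exact hDf _ _ (hp1 j hj)
    have h2 := hcov h1
    simpa only [mem_iUnion, exists_prop] using h2
  choose! c hc1 hc2 using hmem
  have hcard : ht.toFinset.card < (Finset.range (N + 1)).card := by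
    rw [Finset.card_range]; omega
  obtain ⟨i0, hi0, j0, hj0, hne0, hcc0⟩ := Finset.exists_ne_map_eq_of_card_lt_of_maps_to hcard
    (f := c) (by
      intro j hj
      have hj' : j ≤ N := by
        have h9 : j ∈ Finset.range (N + 1) := hj
        have := Finset.mem_range.1 h9
        omega
      simpa using hc1 j hj')
  -- main estimate
  have key : ∀ i j, i < j → j ≤ N → c i = c j → False := by
    intro i j hij hjN hcc
    have hiN : i ≤ N := by omega
    have hd1 := hc2 i hiN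
    have hd2 := hc2 j hjN
    rw [← hcc] at hd2
    rw [mem_ball, dist_eq_norm] at hd1 hd2
    have hd : ‖f (p j) - f (p i)‖ < ε := by
      have e : f (p j) - f (p i) = (f (p j) - f a - c i) - (f (p i) - f a - c i) := by ring
      rw [e]
      have := norm_sub_le (f (p j) - f a - c i) (f (p i) - f a - c i)
      linarith
    have hij3 : (3 : ℝ) ^ i * 3 ≤ 3 ^ j := by
      rw [← pow_succ]; exact pow_le_pow_right₀ (by norm_num) hij
    have h3i : (1 : ℝ) ≤ 3 ^ i := one_le_pow₀ (by norm_num)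
    have h1 : ‖a - p i‖ ≤ ‖p j - p i‖ := by
      rw [norm_sub_rev, hpn]
      have e : p j - p i = ((3 : ℂ) ^ j - 3 ^ i) * (x - a) := by simp only [hp]; ring
      rw [e, norm_mul]
      have e2 : ((3 : ℂ) ^ j - 3 ^ i) = (((3 : ℝ) ^ j - 3 ^ i : ℝ) : ℂ) := by push_cast; ring
      rw [e2, Complex.norm_real, Real.norm_eq_abs]
      apply mul_le_mul_of_nonneg_right _ hρ0
      have h9 : (3 : ℝ) ^ i ≤ 3 ^ j - 3 ^ i := by linarith
      exact le_trans h9 (le_abs_self _)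
    have h2 : ‖x - a‖ ≤ ‖p i - a‖ := by
      rw [hpn, ← hρ]; nlinarith
    have h4 := hf (p i) a (p j) h1
    have h5 := hf a x (p i) h2
    rw [norm_sub_rev] at h4
    have h6 : ‖f x - f a‖ ≤ H * (H * ‖f (p j) - f (p i)‖) :=
      le_trans h5 (mul_le_mul_of_nonneg_left h4 hH0.le)
    have h7 : H * (H * ‖f (p j) - f (p i)‖) < H * (H * ε) := by
      apply mul_lt_mul_of_pos_left _ hH0
      exact mul_lt_mul_of_pos_left hd hH0
    have h8 : H * (H * ε) = η := by rw [hε]; field_simp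
    linarith
  have hi0' : i0 ≤ N := by have := Finset.mem_range.1 hi0; omega
  have hj0' : j0 ≤ N := by have := Finset.mem_range.1 hj0; omega
  rcases lt_or_gt_of_ne hne0 with h | h
  · exact key i0 j0 h hj0' hcc0
  · exact key j0 i0 h hi0' hcc0.symm

end Pool.Agent.KK
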