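import Pool.Agent.W_bb4b37_h53.CalcD
import Pool.Agent.W_bb4b37_h53.QSMetricA

/-!
# The limit `s → 0`: realizations (part A)
-/

set_option autoImplicit false

open Filter Topology Set MeasureTheory Metric
open scoped ContDiff

namespace Pool.Agent.KK

/-- Ultrafilter limits of equicontinuous maps commuting with translations. -/
theorem LimitA_core (𝒰 : Ultrafilter ℕ) (f : ℕ → ℂ → ℂ) (T T' : ℤ → ℤ → ℂ)
    (hper : ∀ n z p q, f n (z + T p q) = f n z + T' p q)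
    (hnear : ∀ z, ∃ p q, ‖z - T p q‖ ≤ 2)
    (hb : ∀ z, ∃ B : ℝ, ∀ n, ‖f n z‖ ≤ B)
    (hm : ∀ η > 0, ∃ δ > 0, ∀ n x y, ‖x - y‖ ≤ δ → ‖f n x - f n y‖ ≤ η) :
    ∃ g : ℂ → ℂ, (∀ z, Tendsto (fun n => f n z) (𝒰 : Filter ℕ) (𝓝 (g z))) ∧
      (∀ η > 0, ∃ δ > 0, ∀ x y, ‖x - y‖ ≤ δ → ‖g x - g y‖ ≤ η) ∧
      (∀ z p q, g (z + T p q) = g z + T' p q) ∧
      ∀ η > 0, ∀ᶠ n in (𝒰 : Filter ℕ), ∀ z, ‖f n z - g z‖ ≤ η := by
  have hlim : ∀ z, ∃ y, Tendsto (fun n => f n z) (𝒰 : Filter ℕ) (𝓝 y) := by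
    intro z
    obtain ⟨B, hB⟩ := hb z
    have hK : IsCompact (Metric.closedBall (0 : ℂ) B) := isCompact_closedBall 0 B
    obtain ⟨y, -, hy⟩ := hK.ultrafilter_le_nhds (𝒰.map (fun n => f n z)) (by
      rw [Filter.le_principal_iff]
      have h1 : ∀ᶠ n in (𝒰 : Filter ℕ), f n z ∈ Metric.closedBall (0 : ℂ) B :=
        Eventually.of_forall fun n => mem_closedBall_zero_iff.2 (hB n)
      exact h1)
    exact ⟨y, hy⟩
  choose g hg using hlim
  have hgm : ∀ η > 0, ∃ δ > 0, ∀ x y, ‖x - y‖ ≤ δ → ‖g x - g y‖ ≤ η := by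
    intro η hη
    obtain ⟨δ, hδ, h⟩ := hm η hη
    refine ⟨δ, hδ, fun x y hxy => ?_⟩
    exact le_of_tendsto ((hg x).sub (hg y)).norm (Eventually.of_forall fun n => h n x y hxy)
  have hgp : ∀ z p q, g (z + T p q) = g z + T' p q := by
    intro z p q
    refine tendsto_nhds_unique (hg (z + T p q)) ?_
    refine ((hg z).add_const (T' p q)).congr fun n => ?_
    exact (hper n z p q).symm
  refine ⟨g, hg, hgm, hgp, ?_⟩
  intro η hη
  have hη3 : 0 < η / 3 := by positivity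
  obtain ⟨δ, hδ, h⟩ := hm (η / 3) hη3
  have hK : IsCompact (Metric.closedBall (0 : ℂ) 2) := isCompact_closedBall 0 2
  obtain ⟨t, -, htf, htc⟩ := hK.finite_cover_balls hδ
  have hev : ∀ᶠ n in (𝒰 : Filter ℕ), ∀ x ∈ t, ‖f n x - g x‖ ≤ η / 3 := by
    rw [Filter.eventually_all_finite htf]
    intro x _
    have h1 := (Metric.tendsto_nhds.1 (hg x)) (η / 3) hη3
    filter_upwards [h1] with n hn
    rw [← dist_eq_norm]
    exact hn.le
  filter_upwards [hev] with n hn z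
  obtain ⟨p, q, hpq⟩ := hnear z
  have hz : z = (z - T p q) + T p q := by ring
  have hmem : z - T p q ∈ Metric.closedBall (0 : ℂ) 2 := by
    rw [mem_closedBall_zero_iff]
    exact hpq
  obtain ⟨x, hx, hzx⟩ := mem_iUnion₂.1 (htc hmem)
  rw [Metric.mem_ball, dist_eq_norm] at hzx
  have h1 := h n (z - T p q) x hzx.le
  have h2 := hn x hx
  have h3 : ‖g x - g (z - T p q)‖ ≤ η / 3 := by
    refine le_of_tendsto ((hg x).sub (hg (z - T p q))).norm (Eventually.of_forall fun m => ?_)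
    refine h m x (z - T p q) ?_
    rw [norm_sub_rev]
    exact hzx.le
  have h4 : f n z - g z = (f n (z - T p q) - f n x) + (f n x - g x) + (g x - g (z - T p q)) := by
    have e1 : f n z = f n (z - T p q) + T' p q := by
      rw [← hper n (z - T p q) p q, ← hz]
    have e2 : g z = g (z - T p q) + T' p q := by
      rw [← hgp (z - T p q) p q, ← hz]
    rw [e1, e2]
    ring
  rw [h4]
  calc ‖(f n (z - T p q) - f n x) + (f n x - g x) + (g x - g (z - T p q))‖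
      ≤ ‖f n (z - T p q) - f n x‖ + ‖f n x - g x‖ + ‖g x - g (z - T p q)‖ := norm_add₃_le
    _ ≤ η / 3 + η / 3 + η / 3 := by linarith
    _ = η := by ring

/-- continuity from a modulus -/
theorem LimitA_cont {g : ℂ → ℂ}
    (hg : ∀ η > 0, ∃ δ > 0, ∀ x y, ‖x - y‖ ≤ δ → ‖g x - g y‖ ≤ η) : Continuous g := by
  rw [Metric.continuous_iff]
  intro y ε hε
  obtain ⟨δ, hδ, h⟩ := hg (ε / 2) (by positivity)
  refine ⟨δ, hδ, fun x hx => ?_⟩
  rw [dist_eq_norm] at hx ⊢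
  exact (h x y hx.le).trans_lt (by linarith)

/-- the limits are inverse to each other -/
theorem LimitA_inv (𝒰 : Ultrafilter ℕ) {f f' : ℕ → ℂ → ℂ} {g g' : ℂ → ℂ}
    (hff : ∀ n z, f n (f' n z) = z)
    (hm : ∀ η > 0, ∃ δ > 0, ∀ n x y, ‖x - y‖ ≤ δ → ‖f n x - f n y‖ ≤ η)
    (hg : ∀ z, Tendsto (fun n => f n z) (𝒰 : Filter ℕ) (𝓝 (g z)))
    (hg' : ∀ z, Tendsto (fun n => f' n z) (𝒰 : Filter ℕ) (𝓝 (g' z))) (z : ℂ) :
    g (g' z) = z := by
  have h1 : Tendsto (fun n => f n (g' z)) (𝒰 : Filter ℕ) (𝓝 z) := by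
    rw [Metric.tendsto_nhds]
    intro ε hε
    obtain ⟨δ, hδ, h⟩ := hm (ε / 2) (by positivity)
    filter_upwards [(Metric.tendsto_nhds.1 (hg' z)) δ hδ] with n hn
    rw [dist_comm, dist_eq_norm] at hn
    have h2 := h n _ _ hn.le
    rw [hff n z, ← dist_eq_norm] at h2
    exact h2.trans_lt (by linarith)
  exact tendsto_nhds_unique (hg (g' z)) h1

/-- limits of weakly quasisymmetric maps -/
theorem LimitA_wqs (𝒰 : Ultrafilter ℕ) {H : ℝ} {f : ℕ → ℂ → ℂ} {g : ℂ → ℂ}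
    (hf : ∀ n, WQS H (f n))
    (hg : ∀ z, Tendsto (fun n => f n z) (𝒰 : Filter ℕ) (𝓝 (g z))) : WQS H g := by
  intro c x y hxy
  exact le_of_tendsto_of_tendsto' ((hg x).sub (hg c)).norm
    (((hg y).sub (hg c)).norm.const_mul H) fun n => hf n c x y hxy

/-- Ultrafilter limits of equicontinuous homeomorphisms. Proof: pointwise limits along `𝒰` exist
(`F n z` stays in a bounded set by `wqs_displacement`); the uniform moduli of continuity
(`wqs_modulus`) of `F n` and of the inverses make the convergence locally uniform and show that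
the limits are inverse to each other. -/
theorem ulim_homeo {H a : ℝ} (hH : 1 ≤ H) (ha0 : 0 ≤ a) (ha : a ≤ 1 / 10) (𝒰 : Ultrafilter ℕ)
    (F : ℕ → (ℂ ≃ₜ ℂ)) (h0 : ∀ n, F n 0 = 0)
    (hper : ∀ n, ∀ z : ℂ, ∀ p q : ℤ,
      F n (z + (p * (1 + (a : ℂ)) + q * ((1 - (a : ℂ)) * Complex.I))) = F n z + (p + q * Complex.I))
    (h1 : ∀ n, WQS H (F n)) (h2 : ∀ n, WQS H (F n).symm) :
    ∃ G : ℂ ≃ₜ ℂ, WQS H G ∧ WQS H G.symm ∧
      (∀ z : ℂ, ∀ p q : ℤ,
        G (z + (p * (1 + (a : ℂ)) + q * ((1 - (a : ℂ)) * Complex.I))) = G z + (p + q * Complex.I)) ∧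
      (∀ η > 0, ∀ᶠ n in (𝒰 : Filter ℕ), ∀ z, ‖F n z - G z‖ ≤ η) ∧
      ∀ η > 0, ∀ᶠ n in (𝒰 : Filter ℕ), ∀ z, ‖(F n).symm z - G.symm z‖ ≤ η := by
  have ha1 : |a| < 1 := by
    rw [abs_of_nonneg ha0]
    linarith
  have hH0 : 0 < H := by linarith
  let T : ℤ → ℤ → ℂ := fun p q => p * (1 + (a : ℂ)) + q * ((1 - (a : ℂ)) * Complex.I)
  let T' : ℤ → ℤ → ℂ := fun p q => p + q * Complex.I
  have hperF : ∀ n z p q, F n (z + T p q) = F n z + T' p q := hper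
  have hperI : ∀ n z p q, (F n).symm (z + T' p q) = (F n).symm z + T p q := by
    intro n z p q
    rw [(F n).symm_apply_eq, hperF, (F n).apply_symm_apply]
  have hnearF : ∀ z, ∃ p q, ‖z - T p q‖ ≤ 2 := by
    intro z
    obtain ⟨v, ⟨p, q, hv⟩, hz⟩ := exists_lat_near ha1 z
    subst hv
    exact ⟨p, q, hz⟩
  have hnearI : ∀ z, ∃ p q, ‖z - T' p q‖ ≤ 2 := by
    intro z
    obtain ⟨v, ⟨p, q, hv⟩, hz⟩ := exists_lat_near (a := 0) (by norm_num) z
    refine ⟨p, q, ?_⟩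
    have h3 : v = T' p q := by
      rw [hv]
      simp [T']
    rw [← h3]
    exact hz
  have hT10 : T 1 0 = 1 + (a : ℂ) := by simp [T]
  have hT'10 : T' 1 0 = 1 := by simp [T']
  have hnorm : ‖(1 + (a : ℂ))‖ = 1 + a := by
    have h3 : (1 + (a : ℂ)) = ((1 + a : ℝ) : ℂ) := by push_cast; ring
    rw [h3, Complex.norm_real, Real.norm_of_nonneg (by linarith)]
  -- bounds
  have hDF : ∀ n x y, ‖x - y‖ ≤ 1 → ‖F n x - F n y‖ ≤ 2 * H := by
    intro n x y hxy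
    have h3 := h1 n y x (y + T 1 0) (by
      rw [add_sub_cancel_left, hT10, hnorm]
      linarith)
    rw [hperF n y 1 0, add_sub_cancel_left, hT'10, norm_one] at h3
    linarith
  have hDI : ∀ n x y, ‖x - y‖ ≤ 1 → ‖(F n).symm x - (F n).symm y‖ ≤ 2 * H := by
    intro n x y hxy
    have h3 := h2 n y x (y + T' 1 0) (by
      rw [add_sub_cancel_left, hT'10, norm_one]
      exact hxy)
    rw [hperI n y 1 0, add_sub_cancel_left, hT10, hnorm] at h3
    nlinarith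
  have hmF : ∀ η > 0, ∃ δ > 0, ∀ n x y, ‖x - y‖ ≤ δ → ‖F n x - F n y‖ ≤ η := by
    intro η hη
    obtain ⟨δ, hδ, h⟩ := wqs_modulus H (2 * H) hH (by positivity) η hη
    exact ⟨δ, hδ, fun n => h (F n) (h1 n) (hDF n)⟩
  have hmI : ∀ η > 0, ∃ δ > 0, ∀ n x y, ‖x - y‖ ≤ δ →
      ‖(F n).symm x - (F n).symm y‖ ≤ η := by
    intro η hη
    obtain ⟨δ, hδ, h⟩ := wqs_modulus H (2 * H) hH (by positivity) η hη
    exact ⟨δ, hδ, fun n => h (F n).symm (h2 n) (hDI n)⟩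
  have h0' : ∀ n, (F n).symm 0 = 0 := by
    intro n
    rw [(F n).symm_apply_eq, h0]
  have hTp : ∀ p : ℕ, T p 0 = ((p * (1 + a) : ℝ) : ℂ) := by
    intro p
    simp only [T]
    push_cast
    ring
  have hT'p : ∀ p : ℕ, T' p 0 = ((p : ℝ) : ℂ) := by
    intro p
    simp only [T']
    push_cast
    ring
  have hbF : ∀ z, ∃ B : ℝ, ∀ n, ‖F n z‖ ≤ B := by
    intro z
    obtain ⟨p, hp⟩ := exists_nat_ge ‖z‖
    have hp0 : (0 : ℝ) ≤ p := Nat.cast_nonneg p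
    refine ⟨H * p, fun n => ?_⟩
    have h3 := h1 n 0 z (0 + T p 0) (by
      rw [add_sub_cancel_left, hTp, Complex.norm_real, Real.norm_of_nonneg (by positivity),
        sub_zero]
      nlinarith)
    rw [hperF n 0 p 0, add_sub_cancel_left, hT'p, Complex.norm_real, Real.norm_of_nonneg hp0,
      h0 n, sub_zero] at h3
    exact h3
  have hbI : ∀ z, ∃ B : ℝ, ∀ n, ‖(F n).symm z‖ ≤ B := by
    intro z
    obtain ⟨p, hp⟩ := exists_nat_ge ‖z‖
    have hp0 : (0 : ℝ) ≤ p := Nat.cast_nonneg p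
    refine ⟨H * (p * (1 + a)), fun n => ?_⟩
    have h3 := h2 n 0 z (0 + T' p 0) (by
      rw [add_sub_cancel_left, hT'p, Complex.norm_real, Real.norm_of_nonneg hp0, sub_zero]
      exact hp)
    rw [hperI n 0 p 0, add_sub_cancel_left, hTp, Complex.norm_real,
      Real.norm_of_nonneg (by positivity), h0' n, sub_zero] at h3
    exact h3
  obtain ⟨g, hg, hgm, hgp, hgu⟩ := LimitA_core 𝒰 (fun n => F n) T T' hperF hnearF hbF hmF
  obtain ⟨g', hg', hgm', -, hgu'⟩ :=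
    LimitA_core 𝒰 (fun n => (F n).symm) T' T hperI hnearI hbI hmI
  have hl : ∀ z, g' (g z) = z :=
    LimitA_inv 𝒰 (f := fun n => (F n).symm) (f' := fun n => F n)
      (fun n z => (F n).symm_apply_apply z) hmI hg' hg
  have hr : ∀ z, g (g' z) = z :=
    LimitA_inv 𝒰 (f := fun n => F n) (f' := fun n => (F n).symm)
      (fun n z => (F n).apply_symm_apply z) hmF hg hg'
  refine ⟨⟨⟨g, g', hl, hr⟩, LimitA_cont hgm, LimitA_cont hgm'⟩, ?_, ?_, ?_, ?_, ?_⟩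
  · exact LimitA_wqs 𝒰 h1 hg
  · exact LimitA_wqs 𝒰 h2 hg'
  · exact hgp
  · exact hgu
  · exact hgu'

end Pool.Agent.KK
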