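import Pool.Agent.W_bb4b37_h53.DiffeoA
import Pool.Agent.W_bb4b37_h53.DiffeoB

/-!
# Regularity of the limit map: Weyl's lemma and local isothermal coordinates (part B)
-/

set_option autoImplicit false

open Filter Topology Set MeasureTheory Metric
open scoped ContDiff

namespace Pool.Agent.KK

/-- Rounding to the nearest Gaussian integer. -/
noncomputable def WeylB_rd (x : ℂ) : ℂ :=
  ((round x.re : ℤ) : ℂ) + ((round x.im : ℤ) : ℂ) * Complex.I

theorem WeylB_rd_re (x : ℂ) : (WeylB_rd x).re = round x.re := by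
  simp [WeylB_rd]

theorem WeylB_rd_im (x : ℂ) : (WeylB_rd x).im = round x.im := by
  simp [WeylB_rd]

theorem WeylB_rd_add (x v : ℂ) (hv : v ∈ Lat 0) : WeylB_rd (x + v) = WeylB_rd x + v := by
  obtain ⟨m, n, rfl⟩ := hv
  have e1 : (x + ((m : ℂ) * (1 + ((0 : ℝ) : ℂ)) + (n : ℂ) * ((1 - ((0 : ℝ) : ℂ)) * Complex.I))).re =
      x.re + m := by simp
  have e2 : (x + ((m : ℂ) * (1 + ((0 : ℝ) : ℂ)) + (n : ℂ) * ((1 - ((0 : ℝ) : ℂ)) * Complex.I))).im =
      x.im + n := by simp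
  unfold WeylB_rd
  rw [e1, e2, round_add_intCast, round_add_intCast]
  push_cast
  ring

theorem WeylB_rd_zero {x : ℂ} (hx : ‖x‖ < 1 / 2) : WeylB_rd x = 0 := by
  have h1 : |x.re| < 1 / 2 := (Complex.abs_re_le_norm x).trans_lt hx
  have h2 : |x.im| < 1 / 2 := (Complex.abs_im_le_norm x).trans_lt hx
  rw [abs_lt] at h1 h2
  have e1 : round x.re = 0 := by
    rw [round_eq, Int.floor_eq_iff]
    push_cast
    constructor <;> linarith
  have e2 : round x.im = 0 := by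
    rw [round_eq, Int.floor_eq_iff]
    push_cast
    constructor <;> linarith
  unfold WeylB_rd
  rw [e1, e2]
  simp

theorem WeylB_round_const {t : ℝ} (h : |t - round t| < 1 / 2) :
    ∀ᶠ s in 𝓝 t, round s = round t := by
  have h1 : t ∈ Ioo ((round t : ℝ) - 1 / 2) (round t + 1 / 2) := by
    rw [abs_lt] at h
    constructor <;> linarith
  filter_upwards [isOpen_Ioo.mem_nhds h1] with s hs
  rw [round_eq s, Int.floor_eq_iff]
  constructor
  · linarith [hs.1]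
  · linarith [hs.2]

theorem WeylB_round_far {t : ℝ} (h : 1 / 2 ≤ |t - round t|) :
    ∀ᶠ s : ℝ in 𝓝 t, (1 : ℝ) / 4 < |s - (round s : ℝ)| := by
  filter_upwards [Metric.ball_mem_nhds t (by norm_num : (0 : ℝ) < 1 / 8)] with s hs
  rw [mem_ball, Real.dist_eq, abs_sub_comm] at hs
  have h1 := round_le t (round s)
  have h2 : |t - round s| ≤ |t - s| + |s - round s| := abs_sub_le _ _ _
  linarith

theorem WeylB_smooth {f : ℂ → ℂ} (hf : ContDiff ℝ ∞ f) (h0 : ∀ x, 1 / 4 ≤ ‖x‖ → f x = 0) :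
    ContDiff ℝ ∞ (fun x => f (x - WeylB_rd x)) := by
  rw [contDiff_iff_contDiffAt]
  intro x
  by_cases h : |x.re - round x.re| < 1 / 2 ∧ |x.im - round x.im| < 1 / 2
  · have h1 : ∀ᶠ y : ℂ in 𝓝 x, round y.re = round x.re :=
      Complex.continuous_re.continuousAt.eventually (WeylB_round_const h.1)
    have h2 : ∀ᶠ y : ℂ in 𝓝 x, round y.im = round x.im :=
      Complex.continuous_im.continuousAt.eventually (WeylB_round_const h.2)
    have h3 : (fun y => f (y - WeylB_rd y)) =ᶠ[𝓝 x] fun y => f (y - WeylB_rd x) := by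
      filter_upwards [h1, h2] with y e1 e2
      unfold WeylB_rd
      rw [e1, e2]
    exact ((hf.comp (contDiff_id.sub contDiff_const)).contDiffAt).congr_of_eventuallyEq h3
  · have h3 : ∀ᶠ y : ℂ in 𝓝 x, 1 / 4 ≤ ‖y - WeylB_rd y‖ := by
      rw [not_and_or, not_lt, not_lt] at h
      rcases h with h | h
      · have h1 : ∀ᶠ y : ℂ in 𝓝 x, (1 : ℝ) / 4 < |y.re - (round y.re : ℝ)| :=
          Complex.continuous_re.continuousAt.eventually (WeylB_round_far h)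
        filter_upwards [h1] with y hy
        have := Complex.abs_re_le_norm (y - WeylB_rd y)
        rw [Complex.sub_re, WeylB_rd_re] at this
        linarith
      · have h1 : ∀ᶠ y : ℂ in 𝓝 x, (1 : ℝ) / 4 < |y.im - (round y.im : ℝ)| :=
          Complex.continuous_im.continuousAt.eventually (WeylB_round_far h)
        filter_upwards [h1] with y hy
        have := Complex.abs_im_le_norm (y - WeylB_rd y)
        rw [Complex.sub_im, WeylB_rd_im] at this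
        linarith
    have h4 : (fun y => f (y - WeylB_rd y)) =ᶠ[𝓝 x] fun _ => (0 : ℂ) := by
      filter_upwards [h3] with y hy
      exact h0 _ hy
    exact contDiffAt_const.congr_of_eventuallyEq h4

theorem WeylB_bump {ν : ℂ → ℂ} {U : Set ℂ} (hν : ContDiffOn ℝ ∞ ν U)
    (hb : ∀ z ∈ U, ‖ν z‖ ≤ 1 / 4) {z₀ : ℂ} {R : ℝ} (hR : 0 < R) (hRU : ball z₀ R ⊆ U) :
    ∃ μ : ℂ → ℂ, ContDiff ℝ ∞ μ ∧ Per 0 μ ∧ (∀ x, ‖μ x‖ ≤ 1 / 4) ∧
      ∀ x, ‖x‖ < 1 / 8 → μ x = ν (z₀ + (R : ℂ) * x) := by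
  let χ : ContDiffBump (0 : ℂ) := ⟨1 / 8, 1 / 4, by norm_num, by norm_num⟩
  have hχs : ContDiff ℝ ∞ (fun x : ℂ => χ x) := χ.contDiff
  have hχ0 : ∀ x : ℂ, 1 / 4 ≤ ‖x‖ → χ x = 0 := fun x hx =>
    χ.zero_of_le_dist (by rw [dist_zero_right]; exact hx)
  have hχ1 : ∀ x : ℂ, ‖x‖ < 1 / 8 → χ x = 1 := fun x hx =>
    χ.one_of_mem_closedBall (by rw [mem_closedBall_zero_iff]; exact hx.le)
  have hmem : ∀ x : ℂ, ‖x‖ < 1 → z₀ + (R : ℂ) * x ∈ U := by
    intro x hx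
    apply hRU
    rw [mem_ball_iff_norm, add_sub_cancel_left, norm_mul, Complex.norm_real, Real.norm_eq_abs,
      abs_of_pos hR]
    nlinarith
  set f : ℂ → ℂ := fun x => (χ x : ℂ) * ν (z₀ + (R : ℂ) * x) with hf
  have hf0 : ∀ x, 1 / 4 ≤ ‖x‖ → f x = 0 := by
    intro x hx
    simp only [hf]
    rw [hχ0 x hx]
    simp
  have hfs : ContDiff ℝ ∞ f := by
    rw [contDiff_iff_contDiffAt]
    intro x
    by_cases hx : ‖x‖ < 1
    · have h1 : ContDiffAt ℝ ∞ (fun x : ℂ => (χ x : ℂ)) x :=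
        (Complex.ofRealCLM.contDiff.comp hχs).contDiffAt
      have hset : IsOpen {y : ℂ | ‖y‖ < 1} := isOpen_lt continuous_norm continuous_const
      have h2 : ContDiffOn ℝ ∞ (fun x : ℂ => ν (z₀ + (R : ℂ) * x)) {y : ℂ | ‖y‖ < 1} :=
        hν.comp (contDiff_const.add (contDiff_const.mul contDiff_id)).contDiffOn
          fun y hy => hmem y hy
      exact h1.mul (h2.contDiffAt (hset.mem_nhds hx))
    · have h1 : f =ᶠ[𝓝 x] fun _ => (0 : ℂ) := by
        have hset : IsOpen {y : ℂ | 1 / 4 < ‖y‖} := isOpen_lt continuous_const continuous_norm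
        rw [not_lt] at hx
        filter_upwards [hset.mem_nhds (show 1 / 4 < ‖x‖ by linarith)] with y hy
        exact hf0 y (le_of_lt hy)
      exact contDiffAt_const.congr_of_eventuallyEq h1
  refine ⟨fun x => f (x - WeylB_rd x), WeylB_smooth hfs hf0, ?_, ?_, ?_⟩
  · intro x v hv
    show f (x + v - WeylB_rd (x + v)) = f (x - WeylB_rd x)
    rw [WeylB_rd_add x v hv]
    congr 1
    ring
  · intro x
    show ‖f (x - WeylB_rd x)‖ ≤ 1 / 4
    set y := x - WeylB_rd x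
    by_cases hy : 1 / 4 ≤ ‖y‖
    · rw [hf0 y hy, norm_zero]; norm_num
    · rw [not_le] at hy
      simp only [hf]
      rw [norm_mul, Complex.norm_real, Real.norm_eq_abs, abs_of_nonneg χ.nonneg]
      have h1 : ‖ν (z₀ + (R : ℂ) * y)‖ ≤ 1 / 4 := hb _ (hmem y (by linarith))
      have h2 : χ y ≤ 1 := χ.le_one
      have h3 : 0 ≤ χ y := χ.nonneg
      have h4 := norm_nonneg (ν (z₀ + (R : ℂ) * y))
      nlinarith
  · intro x hx
    show f (x - WeylB_rd x) = _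
    rw [WeylB_rd_zero (by linarith), sub_zero]
    simp only [hf]
    rw [hχ1 x hx]
    simp

theorem WeylB_Dz_affine (f : ℂ → ℂ) (c : ℂ) (r : ℝ) (z : ℂ) :
    Dz (fun y => f (c + (r : ℂ) * y)) z = (r : ℂ) * Dz f (c + (r : ℂ) * z) ∧
    Dzb (fun y => f (c + (r : ℂ) * y)) z = (r : ℂ) * Dzb f (c + (r : ℂ) * z) := by
  unfold Dz Dzb
  rw [Dx_comp_affine, Dy_comp_affine, Complex.real_smul, Complex.real_smul]
  constructor <;> ring

/-- **Local isothermal coordinates.** Let `ν` be smooth near `z₀` with `‖ν‖ ≤ 1/4`. There is a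
smooth diffeomorphism `P` of `ℂ` with `∂̄P = ν ∂P` near `z₀` and `∂P ≠ 0` everywhere.
Proof: choose `R > 0` with `ν` smooth and `‖ν‖ ≤ 1/4` on `ball z₀ R`, let `χ` be a smooth cut-off
supported in `ball 0 (1/2)`, equal to `1` on `ball 0 (1/4)`, and let `μ` be the `Lat 0`-periodic
extension of `x ↦ χ x * ν (z₀ + R x)`; apply `beltrami_exists`, `bijective_normalForm` and put
`P z = G ((z - z₀) / R)`. -/
theorem isothermal {ν : ℂ → ℂ} {U : Set ℂ} (hU : IsOpen U) (hν : ContDiffOn ℝ ∞ ν U)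
    (hb : ∀ z ∈ U, ‖ν z‖ ≤ 1 / 4) {z₀ : ℂ} (hz : z₀ ∈ U) :
    ∃ (P : ℂ ≃ₜ ℂ) (r : ℝ), 0 < r ∧ ball z₀ r ⊆ U ∧ ContDiff ℝ ∞ P ∧ ContDiff ℝ ∞ P.symm ∧
      (∀ z, 0 < (fderiv ℝ P z).det) ∧ (∀ z ∈ ball z₀ r, Dzb P z = ν z * Dz P z) ∧
      ∀ z, Dz P z ≠ 0 := by
  obtain ⟨R, hR, hRU⟩ := Metric.isOpen_iff.1 hU z₀ hz
  obtain ⟨μ, hμ, hμp, hμb, hμν⟩ := WeylB_bump hν hb hR hRU
  obtain ⟨β, φ, hφ, hφp, hφ0, hG1, hG2, -, hβ⟩ := beltrami_exists (k := 1 / 4) (by norm_num)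
    hμ hμp hμb
  set G : ℂ → ℂ := normalForm β φ with hGdef
  have hGs : ContDiff ℝ ∞ G := by
    have h1 : ContDiff ℝ ∞ (fun x : ℂ => β * (starRingEnd ℂ) x) :=
      contDiff_const.mul Complex.conjCLE.contDiff
    exact (contDiff_id.add h1).add hφ
  have hdet : ∀ x, 0 < (fderiv ℝ G x).det := by
    intro x
    rw [det_fderiv, hG1 x, norm_mul]
    have h1 : 0 < ‖Dz G x‖ := norm_pos_iff.2 (hG2 x)
    have h2 := hμb x
    have h3 := norm_nonneg (μ x)
    have h4 : ‖μ x‖ * ‖Dz G x‖ ≤ 1 / 4 * ‖Dz G x‖ := mul_le_mul_of_nonneg_right h2 h1.le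
    have h5 : 0 ≤ ‖μ x‖ * ‖Dz G x‖ := by positivity
    have h6 : (‖μ x‖ * ‖Dz G x‖) ^ 2 ≤ (1 / 4 * ‖Dz G x‖) ^ 2 := pow_le_pow_left₀ h5 h4 2
    have h7 : 0 < ‖Dz G x‖ ^ 2 := by positivity
    nlinarith
  have hβ1 : ‖β‖ < 1 := by
    have h1 : ‖∫ z in cell, μ z‖ ≤ 1 / 4 * (volume cell).toReal := by
      refine norm_setIntegral_le_of_norm_le_const ?_ fun x _ => hμb x
      rw [volume_cell]
      exact ENNReal.one_lt_top
    rw [volume_cell, ENNReal.toReal_one, mul_one] at h1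
    have h2 : ‖β‖ ≤ ‖β - ∫ z in cell, μ z‖ + ‖∫ z in cell, μ z‖ := by
      have := norm_add_le (β - ∫ z in cell, μ z) (∫ z in cell, μ z)
      rwa [sub_add_cancel] at this
    norm_num at hβ
    linarith
  have hbij : Function.Bijective G := bijective_normalForm hβ1 hφ hφp hdet
  obtain ⟨g, hg1, hg2⟩ := Function.bijective_iff_has_inverse.1 hbij
  have hgs : ContDiff ℝ ∞ g := contDiff_inverse hGs (fun x => (hdet x).ne') hg1 hg2
  have hR0 : (R : ℂ) ≠ 0 := Complex.ofReal_ne_zero.2 hR.ne'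
  set c : ℂ := -z₀ / R with hc
  have hPs : ContDiff ℝ ∞ (fun z : ℂ => G (c + ((R⁻¹ : ℝ) : ℂ) * z)) :=
    hGs.comp (contDiff_const.add (contDiff_const.mul contDiff_id))
  have hQs : ContDiff ℝ ∞ (fun w : ℂ => z₀ + (R : ℂ) * g w) :=
    contDiff_const.add (contDiff_const.mul hgs)
  let P : ℂ ≃ₜ ℂ :=
    { toFun := fun z => G (c + ((R⁻¹ : ℝ) : ℂ) * z)
      invFun := fun w => z₀ + (R : ℂ) * g w
      left_inv := by
        intro z
        show z₀ + (R : ℂ) * g (G (c + ((R⁻¹ : ℝ) : ℂ) * z)) = z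
        rw [hg1, hc]
        push_cast
        field_simp
        ring
      right_inv := by
        intro w
        show G (c + ((R⁻¹ : ℝ) : ℂ) * (z₀ + (R : ℂ) * g w)) = w
        have : c + ((R⁻¹ : ℝ) : ℂ) * (z₀ + (R : ℂ) * g w) = g w := by
          rw [hc]
          push_cast
          field_simp
          ring
        rw [this, hg2]
      continuous_toFun := hPs.continuous
      continuous_invFun := hQs.continuous }
  have hPe : (P : ℂ → ℂ) = fun z => G (c + ((R⁻¹ : ℝ) : ℂ) * z) := rfl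
  have hDz : ∀ z, Dz P z = ((R⁻¹ : ℝ) : ℂ) * Dz G (c + ((R⁻¹ : ℝ) : ℂ) * z) := fun z => by
    rw [hPe]; exact (WeylB_Dz_affine G c R⁻¹ z).1
  have hDzb : ∀ z, Dzb P z = ((R⁻¹ : ℝ) : ℂ) * Dzb G (c + ((R⁻¹ : ℝ) : ℂ) * z) := fun z => by
    rw [hPe]; exact (WeylB_Dz_affine G c R⁻¹ z).2
  have hRi : ((R⁻¹ : ℝ) : ℂ) ≠ 0 := Complex.ofReal_ne_zero.2 (inv_ne_zero hR.ne')
  refine ⟨P, R / 8, by positivity, ?_, hPs, hQs, ?_, ?_, ?_⟩
  · exact (ball_subset_ball (by linarith)).trans hRU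
  · intro z
    rw [det_fderiv, hDz, hDzb, norm_mul, norm_mul, mul_pow, mul_pow, ← mul_sub, ← det_fderiv]
    have h1 : 0 < ‖((R⁻¹ : ℝ) : ℂ)‖ := norm_pos_iff.2 hRi
    have h2 := hdet (c + ((R⁻¹ : ℝ) : ℂ) * z)
    positivity
  · intro z hz'
    rw [mem_ball_iff_norm] at hz'
    have e : c + ((R⁻¹ : ℝ) : ℂ) * z = (z - z₀) / R := by
      rw [hc]
      push_cast
      field_simp
      ring
    have h1 : ‖c + ((R⁻¹ : ℝ) : ℂ) * z‖ < 1 / 8 := by
      rw [e, norm_div, Complex.norm_real, Real.norm_eq_abs, abs_of_pos hR, div_lt_iff₀ hR]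
      linarith
    have h2 : z₀ + (R : ℂ) * (c + ((R⁻¹ : ℝ) : ℂ) * z) = z := by
      rw [e]
      field_simp
      ring
    rw [hDz, hDzb, hG1, hμν _ h1, h2]
    ring
  · intro z
    rw [hDz]
    exact mul_ne_zero hRi (hG2 _)

end Pool.Agent.KK
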