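import Pool.Agent.W_bb4b37_h53.WeylA
import Pool.Agent.W_bb4b37_h53.WeylB

/-!
# Regularity of the limit map: Weyl's lemma and local isothermal coordinates (part C)
-/

set_option autoImplicit false

open Filter Topology Set MeasureTheory Metric
open scoped ContDiff

namespace Pool.Agent.KK

theorem WeylC_congr {f g : ℂ → ℂ} {z : ℂ} (h : f =ᶠ[𝓝 z] g) :
    Dz f z = Dz g z ∧ Dzb f z = Dzb g z := by
  simp only [Dz, Dzb, Dx_congr h, Dy_congr h, and_self]

theorem WeylC_zero (z : ℂ) : Dz (fun _ => (0 : ℂ)) z = 0 ∧ Dzb (fun _ => (0 : ℂ)) z = 0 := by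
  simp only [Dz, Dzb, Dx_const, Dy_const]
  simp

theorem WeylC_contDiff {P : ℂ → ℂ} (hP : ContDiff ℝ ∞ P) :
    ContDiff ℝ ∞ (Dz P) ∧ ContDiff ℝ ∞ (Dzb P) := by
  have hx : ContDiff ℝ ∞ (Dx P) := contDiff_Dx hP (by simp)
  have hy : ContDiff ℝ ∞ (Dy P) := contDiff_Dy hP (by simp)
  constructor
  · unfold Dz
    exact (hx.sub (contDiff_const.mul hy)).div_const 2
  · unfold Dzb
    exact (hx.add (contDiff_const.mul hy)).div_const 2

/-- the identity behind the change of variables -/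
theorem WeylC_key {ν ψ P : ℂ → ℂ} {z : ℂ} (hP : ContDiff ℝ ∞ P) (hψ : ContDiff ℝ ∞ ψ)
    (hbelt : ∀ᶠ y in 𝓝 z, Dzb P y = ν y * Dz P y) :
    Dzb (fun y => ψ (P y) * Dz P y) z - Dz (fun y => ν y * (ψ (P y) * Dz P y)) z =
      Dzb ψ (P z) * (((fderiv ℝ P z).det : ℝ) : ℂ) := by
  have hPd : Differentiable ℝ P := hP.differentiable (by simp)
  have hψd : Differentiable ℝ ψ := hψ.differentiable (by simp)
  have hpd : Differentiable ℝ (Dz P) := (WeylC_contDiff hP).1.differentiable (by simp)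
  have hqd : Differentiable ℝ (Dzb P) := (WeylC_contDiff hP).2.differentiable (by simp)
  have hcd : Differentiable ℝ (fun y => ψ (P y)) := hψd.comp hPd
  have e1 : Dzb (fun y => ψ (P y) * Dz P y) z =
      Dzb (fun y => ψ (P y)) z * Dz P z + ψ (P z) * Dzb (Dz P) z := Dzb_mul (hcd z) (hpd z)
  have e2 : Dz (fun y => ν y * (ψ (P y) * Dz P y)) z = Dz (fun y => ψ (P y) * Dzb P y) z := by
    refine (WeylC_congr ?_).1
    filter_upwards [hbelt] with y hy
    rw [hy]; ring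
  have e3 : Dz (fun y => ψ (P y) * Dzb P y) z =
      Dz (fun y => ψ (P y)) z * Dzb P z + ψ (P z) * Dz (Dzb P) z := Dz_mul (hcd z) (hqd z)
  have e4 := Dz_comp (f := ψ) (g := P) (z := z) (hψd _) (hPd _)
  have e5 := Dzb_comp (f := ψ) (g := P) (z := z) (hψd _) (hPd _)
  have e6 : Dz (Dzb P) z = Dzb (Dz P) z := Dz_Dzb_comm
    (hP.contDiffAt.of_le (ENat.LEInfty.out : (2 : WithTop ℕ∞) ≤ ∞))
  rw [e1, e2, e3, e4, e5, e6, det_fderiv]
  have n1 : ((‖Dz P z‖ ^ 2 : ℝ) : ℂ) = Dz P z * (starRingEnd ℂ) (Dz P z) := by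
    rw [Complex.mul_conj, Complex.normSq_eq_norm_sq]
  have n2 : ((‖Dzb P z‖ ^ 2 : ℝ) : ℂ) = Dzb P z * (starRingEnd ℂ) (Dzb P z) := by
    rw [Complex.mul_conj, Complex.normSq_eq_norm_sq]
  rw [Complex.ofReal_sub, n1, n2]
  ring

theorem WeylC_local {ν : ℂ → ℂ} {U : Set ℂ} (hU : IsOpen U) (hν : ContDiffOn ℝ ∞ ν U)
    (hb : ∀ z ∈ U, ‖ν z‖ ≤ 1 / 4) (F : ℂ ≃ₜ ℂ)
    (h : ∀ φ : ℂ → ℂ, ContDiff ℝ ∞ φ → HasCompactSupport φ → tsupport φ ⊆ U →
      ∫ z, F z * (Dzb φ z - Dz (fun y => ν y * φ y) z) = 0) {z₀ : ℂ} (hz₀ : z₀ ∈ U) :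
    ContDiffAt ℝ ∞ F z₀ ∧ Dzb F z₀ = ν z₀ * Dz F z₀ ∧ Dz F z₀ ≠ 0 := by
  obtain ⟨P, r, hr, hrU, hP, -, hdet, hbelt, hPne⟩ := isothermal hU hν hb hz₀
  have hPd : Differentiable ℝ P := hP.differentiable (by simp)
  set W : Set ℂ := P '' ball z₀ r with hW
  have hWo : IsOpen W := P.isOpenMap _ isOpen_ball
  set f : ℂ → ℂ := fun w => F (P.symm w) with hf
  have hfP : ∀ z, f (P z) = F z := fun z => by rw [hf]; simp only [P.symm_apply_apply]
  have hfc : Continuous f := F.continuous.comp P.symm.continuous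
  -- weak equation for `f`
  have hweak : ∀ ψ : ℂ → ℂ, ContDiff ℝ ∞ ψ → HasCompactSupport ψ → tsupport ψ ⊆ W →
      ∫ z, f z * Dzb ψ z = 0 := by
    intro ψ hψ hψc hψW
    set φ : ℂ → ℂ := fun z => ψ (P z) * Dz P z with hφ
    have hφs : ContDiff ℝ ∞ φ := (hψ.comp hP).mul (WeylC_contDiff hP).1
    have hsub : tsupport φ ⊆ P ⁻¹' tsupport ψ := by
      refine closure_minimal ?_ ((isClosed_tsupport ψ).preimage P.continuous)
      intro z hz
      have h1 : ψ (P z) ≠ 0 := by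
        intro h0
        apply hz
        rw [hφ]
        simp only [h0, zero_mul]
      exact subset_tsupport ψ h1
    have hball : P ⁻¹' tsupport ψ ⊆ ball z₀ r := by
      intro z hz
      obtain ⟨y, hy, hyz⟩ := hψW hz
      rwa [← P.injective hyz]
    have hcomp : IsCompact (P ⁻¹' tsupport ψ) := by
      rw [← P.image_symm]
      exact hψc.image P.symm.continuous
    have hφc : HasCompactSupport φ := hcomp.of_isClosed_subset (isClosed_tsupport φ) hsub
    have h0 := h φ hφs hφc ((hsub.trans hball).trans hrU)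
    -- the integrand
    have hint : ∀ z, F z * (Dzb φ z - Dz (fun y => ν y * φ y) z) =
        |(fderiv ℝ P z).det| • (f (P z) * Dzb ψ (P z)) := by
      intro z
      rw [abs_of_pos (hdet z), Complex.real_smul, hfP]
      by_cases hz : z ∈ ball z₀ r
      · have hev : ∀ᶠ y in 𝓝 z, Dzb P y = ν y * Dz P y := by
          filter_upwards [isOpen_ball.mem_nhds hz] with y hy
          exact hbelt y hy
        rw [hφ, WeylC_key hP hψ hev]
        ring
      · have hz1 : z ∉ tsupport φ := fun hmem => hz (hball (hsub hmem))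
        have hz2 : P z ∉ tsupport ψ := fun hmem => hz (hball hmem)
        have c1 : φ =ᶠ[𝓝 z] fun _ => 0 := by
          have := notMem_tsupport_iff_eventuallyEq.1 hz1
          exact this
        have c2 : (fun y => ν y * φ y) =ᶠ[𝓝 z] fun _ => 0 := by
          filter_upwards [c1] with y hy
          rw [hy, mul_zero]
        have c3 : ψ =ᶠ[𝓝 (P z)] fun _ => 0 := by
          have := notMem_tsupport_iff_eventuallyEq.1 hz2
          exact this
        rw [(WeylC_congr c1).2, (WeylC_congr c2).1, (WeylC_congr c3).2, (WeylC_zero _).1,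
          (WeylC_zero _).2, (WeylC_zero _).2]
        ring
    have hcv := integral_image_eq_integral_abs_det_fderiv_smul volume MeasurableSet.univ
      (fun x _ => (hPd x).hasFDerivAt.hasFDerivWithinAt) P.injective.injOn
      (fun w => f w * Dzb ψ w)
    rw [image_univ, P.surjective.range_eq, Measure.restrict_univ] at hcv
    rw [hcv, ← h0]
    exact integral_congr_ae (Eventually.of_forall fun z => (hint z).symm)
  have hhol : DifferentiableOn ℂ f W := weyl hWo hfc.continuousOn hweak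
  have hinj : InjOn f W := (F.injective.comp P.symm.injective).injOn
  have hPz : P z₀ ∈ W := ⟨z₀, mem_ball_self hr, rfl⟩
  have hne : deriv f (P z₀) ≠ 0 := deriv_ne_zero_of_injOn hWo hhol hinj hPz
  have hda : HasDerivAt f (deriv f (P z₀)) (P z₀) :=
    (hhol.differentiableAt (hWo.mem_nhds hPz)).hasDerivAt
  have hFf : (F : ℂ → ℂ) = fun z => f (P z) := by
    funext z
    exact (hfP z).symm
  have hcf : ContDiffAt ℝ ∞ f (P z₀) :=
    ((hhol.contDiffOn hWo).contDiffAt (hWo.mem_nhds hPz)).restrict_scalars ℝ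
  have hfd : DifferentiableAt ℝ f (P z₀) := hcf.differentiableAt (by simp)
  obtain ⟨d1, d2⟩ := Dz_of_hasDerivAt hda
  have k1 := Dz_comp (f := f) (g := P) (z := z₀) hfd (hPd z₀)
  have k2 := Dzb_comp (f := f) (g := P) (z := z₀) hfd (hPd z₀)
  rw [d1, d2, zero_mul, add_zero] at k1
  rw [d1, d2, zero_mul, add_zero] at k2
  rw [hFf]
  refine ⟨hcf.comp z₀ hP.contDiffAt, ?_, ?_⟩
  · rw [k1, k2, hbelt z₀ (mem_ball_self hr)]
    ring
  · rw [k1]
    exact mul_ne_zero hne (hPne z₀)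

/-- **Regularity.** `F` is a homeomorphism of `ℂ` which satisfies `∂̄F = ν ∂F` weakly on `U`, `ν`
smooth with `‖ν‖ ≤ 1/4`. Then `F` is smooth on `U`, `∂̄F = ν ∂F` and `∂F ≠ 0` there.
Proof: near `z₀ ∈ U` take `P` from `isothermal`, `W = P (ball z₀ r)`, `f = F ∘ P⁻¹`. For a test
function `ψ` on `W` the function `φ = (ψ ∘ P) ∂P` is a test function on `ball z₀ r`, and
`∂̄φ - ∂(ν φ) = (∂̄ψ ∘ P) J_P`, `J_P = |∂P|² (1 - |ν|²) = det DP` (because `∂̄∂P = ∂(ν ∂P)`).
Hence `∫ f ∂̄ψ = ∫ F (∂̄φ - ∂(νφ)) = 0` (change of variables) and `f` is holomorphic on `W` by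
`weyl`; it is injective, so `f' ≠ 0`; `F = f ∘ P`. -/
theorem weak_regularity {ν : ℂ → ℂ} {U : Set ℂ} (hU : IsOpen U) (hν : ContDiffOn ℝ ∞ ν U)
    (hb : ∀ z ∈ U, ‖ν z‖ ≤ 1 / 4) (F : ℂ ≃ₜ ℂ)
    (h : ∀ φ : ℂ → ℂ, ContDiff ℝ ∞ φ → HasCompactSupport φ → tsupport φ ⊆ U →
      ∫ z, F z * (Dzb φ z - Dz (fun y => ν y * φ y) z) = 0) :
    ContDiffOn ℝ ∞ F U ∧ (∀ z ∈ U, Dzb F z = ν z * Dz F z) ∧ ∀ z ∈ U, Dz F z ≠ 0 := by
  refine ⟨fun z hz => ?_, fun z hz => ?_, fun z hz => ?_⟩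
  · exact (WeylC_local hU hν hb F h hz).1.contDiffWithinAt
  · exact (WeylC_local hU hν hb F h hz).2.1
  · exact (WeylC_local hU hν hb F h hz).2.2

end Pool.Agent.KK
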