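import Pool.Agent.W_bb4b37_h53.LevelMapG
import Pool.Agent.W_bb4b37_h53.LimC1
import Pool.Agent.W_bb4b37_h53.LimC3
import Pool.Agent.W_bb4b37_h53.LimC4
import Pool.Agent.W_bb4b37_h53.LimitA
import Pool.Agent.W_bb4b37_h53.WeylC

/-!
# The limit `s → 0`: realizations (part C)
-/

set_option autoImplicit false

open Filter Topology Set MeasureTheory Metric
open scoped ContDiff

namespace Pool.Agent.KK

/-- **Main existence theorem.** Proof: `level_real`; for given `ε, a` the realizations for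
`s_n = η_n = 1 / (n + 1)`, `𝒰 = hyperfilter ℕ`, `G` from `ulim_homeo`, so `Seq` holds;
`W` from `Seq.exists_limW`; `Seq.limW_sol`, `Seq.limW_lower`, `Seq.limW_scaled`, `smooth_of_scaled`
(constant `2 C`), `nu_smooth`, `nu_le`, `Seq.weak` and `weak_regularity`. The constant of the
realization is `2 C`. -/
theorem main_existence : ∃ C H ε₁ a₁ : ℝ, 1 ≤ C ∧ 1 ≤ H ∧ 0 < ε₁ ∧ 0 < a₁ ∧ a₁ ≤ 1 / 10 ∧
    ∀ ε : ℝ, 0 < ε → ε ≤ ε₁ → ∀ a : ℝ, 0 ≤ a → a ≤ a₁ →
    ∃ (F : ℂ ≃ₜ ℂ) (w : ℂ → ℝ), Realization C H ε a F w := by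
  obtain ⟨C, H, ε₁, a₁, hC, hH, hε₁, ha₁, ha₁', hreal⟩ := level_real
  obtain ⟨ε₀, hε₀, hsm⟩ := smooth_of_scaled (2 * C) (by linarith)
  refine ⟨2 * C, H, min ε₁ (min ε₀ (1 / (6 * C))), a₁, by linarith, hH, by positivity, ha₁, ha₁',
    ?_⟩
  intro ε hε hεle a ha0 haa
  have hε1 : ε ≤ ε₁ := hεle.trans (min_le_left _ _)
  have hε2 : ε ≤ ε₀ := hεle.trans ((min_le_right _ _).trans (min_le_left _ _))
  have hε3 : ε ≤ 1 / (6 * C) := hεle.trans ((min_le_right _ _).trans (min_le_right _ _))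
  have hC0 : 0 < C := by linarith
  have hCε : C * ε ≤ 1 / 6 := by
    rw [le_div_iff₀ (by positivity)] at hε3
    linarith
  have hCε2 : C ^ 2 * ε ^ 2 ≤ 1 / 36 := by
    have h1 : C ^ 2 * ε ^ 2 = (C * ε) ^ 2 := by ring
    rw [h1]
    have h2 : 0 ≤ C * ε := by positivity
    nlinarith
  have hsn : ∀ n : ℕ, (0 : ℝ) < 1 / ((n : ℝ) + 1) := fun n => by positivity
  have hsn1 : ∀ n : ℕ, 1 / ((n : ℝ) + 1) ≤ 1 := fun n => by
    rw [div_le_one (by positivity)]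
    have : (0 : ℝ) ≤ n := Nat.cast_nonneg n
    linarith
  choose F μ m w hL using fun n : ℕ => hreal ε hε hε1 a ha0 haa (1 / ((n : ℝ) + 1)) (hsn n) (hsn1 n)
    (1 / ((n : ℝ) + 1)) (hsn n)
  have ha10 : a ≤ 1 / 10 := haa.trans ha₁'
  obtain ⟨G, hG1, hG2, hGper, hconv, hconv'⟩ := ulim_homeo hH ha0 ha10 (hyperfilter ℕ) F
    (fun n => (hL n).zero) (fun n => (hL n).per) (fun n => (hL n).wqs) (fun n => (hL n).wqsInv)
  have hS : Seq C H ε a (hyperfilter ℕ) F μ m w G :=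
    { hC := hC
      hH := hH
      hε := hε
      ha0 := ha0
      ha := ha10
      top := Nat.hyperfilter_le_atTop
      real := hL
      conv := hconv
      convInv := hconv'
      perG := hGper }
  obtain ⟨W, hW⟩ := hS.exists_limW
  have hU : IsOpen (G ⁻¹' Lam)ᶜ := hS.set_props.1.isOpen_compl
  have hsol := hS.limW_sol hW
  have hsc := hS.limW_scaled hW
  have hsmooth : ContDiffOn ℝ ∞ W (G ⁻¹' Lam)ᶜ := hsm ε hε hε2 _ W hU hW.smooth hsol hsc
  have hd : ∀ z ∈ (G ⁻¹' Lam)ᶜ, |Dx W z| ≤ 2 * C * Real.exp (W z) ∧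
      |Dy W z| ≤ 2 * C * Real.exp (W z) := fun z hz =>
    ⟨hsc.d1 z hz [true] rfl, hsc.d1 z hz [false] rfl⟩
  have hν : ContDiffOn ℝ ∞ (nu ε W) (G ⁻¹' Lam)ᶜ := nu_smooth hU hsmooth hd (by nlinarith)
  have hb : ∀ z ∈ (G ⁻¹' Lam)ᶜ, ‖nu ε W z‖ ≤ 1 / 4 := by
    intro z hz
    have h1 := nu_le (C := 2 * C) (ε := ε) (w := W) (z := z) hε.le (hd z hz).1 (hd z hz).2
    refine h1.trans ?_
    nlinarith
  obtain ⟨h1, h2, h3⟩ := weak_regularity hU hν hb G
    (fun φ hφ hc hs => hS.weak hW hν hφ hc hs)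
  refine ⟨G, W, ?_⟩
  exact
    { per := hGper
      wqs := hG1
      wqsInv := hG2
      smoothF := h1
      belt := h2
      ne := h3
      smoothw := hsmooth
      perw := hW.per
      sol := hsol
      scaled := hsc
      lower := fun z hz => by
        refine le_trans ?_ (hS.limW_lower hW hz).1
        exact one_div_le_one_div_of_le hC0 (by linarith)
      upper := fun z hz => (hS.limW_lower hW hz).2.trans (by linarith) }

end Pool.Agent.KK
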