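import Pool.Agent.W_bb4b37_h53.CalcB
import Pool.Agent.W_bb4b37_h53.CalcE

/-!
# An explicit subsolution of the penalised Liouville equation for two points
-/

set_option autoImplicit false

open Filter Topology Set MeasureTheory Metric
open scoped ContDiff

namespace Pool.Agent.KK

/-- A smooth function with `m t = t` for `t ≥ 1/2`, and `1/4 ≤ m t`. -/
noncomputable def SubSol_m (t : ℝ) : ℝ :=
  (1 - Real.smoothTransition (4 * t - 1)) / 4 + Real.smoothTransition (4 * t - 1) * t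

theorem SubSol_m_contDiff : ContDiff ℝ ∞ SubSol_m := by
  have h1 : ContDiff ℝ ∞ (fun t : ℝ => Real.smoothTransition (4 * t - 1)) :=
    Real.smoothTransition.contDiff.comp ((contDiff_const.mul contDiff_id).sub contDiff_const)
  unfold SubSol_m
  exact ((contDiff_const.sub h1).div_const _).add (h1.mul contDiff_id)

theorem SubSol_m_eq {t : ℝ} (ht : 1 / 2 ≤ t) : SubSol_m t = t := by
  unfold SubSol_m
  rw [Real.smoothTransition.one_of_one_le (by linarith)]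
  ring

theorem SubSol_m_ge (t : ℝ) : 1 / 4 ≤ SubSol_m t := by
  unfold SubSol_m
  rcases le_total t (1 / 4) with h | h
  · rw [Real.smoothTransition.zero_of_nonpos (by linarith)]
    linarith
  · have h1 := Real.smoothTransition.nonneg (4 * t - 1)
    nlinarith

theorem SubSol_m_le (t : ℝ) (ht : t ≤ 1) : SubSol_m t ≤ 1 := by
  unfold SubSol_m
  have h1 := Real.smoothTransition.nonneg (4 * t - 1)
  have h2 := Real.smoothTransition.le_one (4 * t - 1)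
  nlinarith

/-- The function `Φ` and its derivatives. -/
noncomputable def SubSol_P (t : ℝ) : ℝ :=
  1 / 2 * Real.log (1 + Real.exp (-t / 3)) + 5 / 6 * t

noncomputable def SubSol_P1 (t : ℝ) : ℝ :=
  5 / 6 - 1 / 6 * (Real.exp (-t / 3) / (1 + Real.exp (-t / 3)))

noncomputable def SubSol_P2 (t : ℝ) : ℝ :=
  1 / 18 * (Real.exp (-t / 3) / (1 + Real.exp (-t / 3)) ^ 2)

theorem SubSol_E_deriv (t : ℝ) :
    HasDerivAt (fun t : ℝ => Real.exp (-t / 3)) (-(1 / 3) * Real.exp (-t / 3)) t := by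
  have h1 : HasDerivAt (fun t : ℝ => -t / 3) (-1 / 3) t := (hasDerivAt_id t).neg.div_const 3
  have h2 := h1.exp
  convert h2 using 1
  ring

theorem SubSol_P_deriv (t : ℝ) : HasDerivAt SubSol_P (SubSol_P1 t) t := by
  have hE : 0 < Real.exp (-t / 3) := Real.exp_pos _
  have h1 : HasDerivAt (fun t : ℝ => 1 + Real.exp (-t / 3)) (-(1 / 3) * Real.exp (-t / 3)) t :=
    (SubSol_E_deriv t).const_add 1
  have h2 := ((h1.log (by positivity)).const_mul (1 / 2)).add ((hasDerivAt_id t).const_mul (5 / 6))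
  refine h2.congr_deriv ?_
  unfold SubSol_P1
  field_simp
  ring

theorem SubSol_P1_deriv (t : ℝ) : HasDerivAt SubSol_P1 (SubSol_P2 t) t := by
  have hE : 0 < Real.exp (-t / 3) := Real.exp_pos _
  have h1 : HasDerivAt (fun t : ℝ => 1 + Real.exp (-t / 3)) (-(1 / 3) * Real.exp (-t / 3)) t :=
    (SubSol_E_deriv t).const_add 1
  have h2 := (((SubSol_E_deriv t).div h1 (by positivity)).const_mul (1 / 6)).const_sub (5 / 6)
  refine h2.congr_deriv ?_
  unfold SubSol_P2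
  field_simp
  ring

theorem SubSol_P_contDiff : ContDiff ℝ ∞ SubSol_P := by
  unfold SubSol_P
  have h1 : ContDiff ℝ ∞ (fun t : ℝ => 1 + Real.exp (-t / 3)) :=
    contDiff_const.add (Real.contDiff_exp.comp (contDiff_id.neg.div_const 3))
  exact (contDiff_const.mul (h1.log fun t => by positivity)).add (contDiff_const.mul contDiff_id)

theorem SubSol_P_ge (t : ℝ) : 5 / 6 * t ≤ SubSol_P t := by
  unfold SubSol_P
  have hE : 0 < Real.exp (-t / 3) := Real.exp_pos _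
  have h1 : 0 ≤ Real.log (1 + Real.exp (-t / 3)) := Real.log_nonneg (by linarith)
  linarith

theorem SubSol_P1_abs (t : ℝ) : |SubSol_P1 t| ≤ 1 := by
  unfold SubSol_P1
  have hE : 0 < Real.exp (-t / 3) := Real.exp_pos _
  have h1 : 0 ≤ Real.exp (-t / 3) / (1 + Real.exp (-t / 3)) := by positivity
  have h2 : Real.exp (-t / 3) / (1 + Real.exp (-t / 3)) ≤ 1 := by
    rw [div_le_one (by positivity)]
    linarith
  rw [abs_le]
  constructor <;> linarith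

theorem SubSol_P2_nonneg (t : ℝ) : 0 ≤ SubSol_P2 t := by
  unfold SubSol_P2
  positivity

theorem SubSol_exp_P (t : ℝ) : Real.exp (2 * SubSol_P t) =
    (1 + Real.exp (-t / 3)) * (Real.exp (t / 3)) ^ 5 := by
  have hE : 0 < Real.exp (-t / 3) := Real.exp_pos _
  have h1 : 2 * SubSol_P t = Real.log (1 + Real.exp (-t / 3)) + (5 : ℕ) * (t / 3) := by
    unfold SubSol_P
    push_cast
    ring
  rw [h1, Real.exp_add, Real.exp_log (by positivity), Real.exp_nat_mul]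

theorem SubSol_P_tendsto : Tendsto SubSol_P atBot atBot := by
  have h1 : ∀ᶠ t : ℝ in atBot, SubSol_P t ≤ 1 / 2 * Real.log 2 + 2 / 3 * t := by
    filter_upwards [eventually_le_atBot (0 : ℝ)] with t ht
    unfold SubSol_P
    have h2 : 1 ≤ Real.exp (-t / 3) := Real.one_le_exp (by linarith)
    have h3 : Real.log (1 + Real.exp (-t / 3)) ≤ Real.log (2 * Real.exp (-t / 3)) :=
      Real.log_le_log (by positivity) (by linarith)
    rw [Real.log_mul (by norm_num) (by positivity), Real.log_exp] at h3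
    linarith
  refine tendsto_atBot_mono' _ h1 ?_
  exact tendsto_atBot_add_const_left _ _ (tendsto_id.const_mul_atBot (by norm_num))

/-- The truncated function `-log |y|`. -/
noncomputable def SubSol_ell (y : ℂ) : ℝ := -(1 / 2) * Real.log (SubSol_m (‖y‖ ^ 2))

theorem SubSol_ell_contDiff : ContDiff ℝ ∞ SubSol_ell := by
  unfold SubSol_ell
  have h1 : ContDiff ℝ ∞ (fun y : ℂ => SubSol_m (‖y‖ ^ 2)) :=
    SubSol_m_contDiff.comp (contDiff_norm_sq ℝ)
  refine contDiff_const.mul (h1.log fun y => ?_)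
  have := SubSol_m_ge (‖y‖ ^ 2)
  linarith

theorem SubSol_ell_eq {y : ℂ} (hy : 1 ≤ ‖y‖) : SubSol_ell y = -Real.log ‖y‖ := by
  unfold SubSol_ell
  rw [SubSol_m_eq (by nlinarith), Real.log_pow]
  push_cast
  ring

theorem SubSol_ell_nonneg {y : ℂ} (hy : ‖y‖ ≤ 1) : 0 ≤ SubSol_ell y := by
  unfold SubSol_ell
  have h1 : SubSol_m (‖y‖ ^ 2) ≤ 1 := SubSol_m_le _ (by
    have := norm_nonneg y
    nlinarith)
  have h2 : Real.log (SubSol_m (‖y‖ ^ 2)) ≤ 0 :=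
    Real.log_nonpos (by linarith [SubSol_m_ge (‖y‖ ^ 2)]) h1
  linarith

theorem SubSol_ell_le (y : ℂ) : SubSol_ell y ≤ Real.log 2 := by
  unfold SubSol_ell
  have h1 := SubSol_m_ge (‖y‖ ^ 2)
  have h2 : Real.log (1 / 4) ≤ Real.log (SubSol_m (‖y‖ ^ 2)) := Real.log_le_log (by norm_num) h1
  have h3 : Real.log (1 / 4 : ℝ) = -2 * Real.log 2 := by
    rw [show (1 / 4 : ℝ) = (2 ^ 2)⁻¹ by norm_num, Real.log_inv, Real.log_pow]
    push_cast
    ring
  linarith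

/-- `Dx` and `Dy` of a composition with a real function, and the Laplacian. -/
theorem SubSol_Lap_comp {f : ℂ → ℝ} {g g1 g2 : ℝ → ℝ} (z : ℂ) (hf : ContDiffAt ℝ 2 f z)
    (hg : ∀ᶠ y in 𝓝 z, HasDerivAt g (g1 (f y)) (f y)) (hg1 : HasDerivAt g1 (g2 (f z)) (f z)) :
    Dx (fun y => g (f y)) z = Dx f z * g1 (f z) ∧ Dy (fun y => g (f y)) z = Dy f z * g1 (f z) ∧
    Lap (fun y => g (f y)) z = g2 (f z) * (Dx f z ^ 2 + Dy f z ^ 2) + g1 (f z) * Lap f z := by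
  have hev : ∀ᶠ y in 𝓝 z, DifferentiableAt ℝ f y :=
    (hf.eventually (by simp)).mono fun w hw => hw.differentiableAt (by norm_num)
  obtain ⟨hdx, hdy⟩ := CalcE_differentiableAt hf
  have hfz := hev.self_of_nhds
  have h1 : Dx (fun y => g (f y)) =ᶠ[𝓝 z] fun y => Dx f y * g1 (f y) := by
    filter_upwards [hev, hg] with y h2 h3
    rw [Dx_comp_real h2 h3, smul_eq_mul]
  have h2 : Dy (fun y => g (f y)) =ᶠ[𝓝 z] fun y => Dy f y * g1 (f y) := by
    filter_upwards [hev, hg] with y h2 h3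
    rw [Dy_comp_real h2 h3, smul_eq_mul]
  have hg1f : DifferentiableAt ℝ (fun y => g1 (f y)) z :=
    hg1.differentiableAt.comp z hfz
  refine ⟨h1.self_of_nhds, h2.self_of_nhds, ?_⟩
  unfold Lap
  rw [Dx_congr h1, Dy_congr h2, Dx_mul hdx hg1f, Dy_mul hdy hg1f, Dx_comp_real hfz hg1,
    Dy_comp_real hfz hg1, smul_eq_mul, smul_eq_mul]
  ring

/-- The derivatives of `‖y‖²`. -/
theorem SubSol_normsq (z : ℂ) : Dx (fun y : ℂ => ‖y‖ ^ 2) z = 2 * z.re ∧
    Dy (fun y : ℂ => ‖y‖ ^ 2) z = 2 * z.im ∧ Lap (fun y : ℂ => ‖y‖ ^ 2) z = 4 := by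
  have h1 : Dx (fun y : ℂ => ‖y‖ ^ 2) = fun y => 2 * y.re := by
    funext y
    show fderiv ℝ (fun y : ℂ => ‖y‖ ^ 2) y 1 = _
    rw [fderiv_norm_sq_apply]
    simp
  have h2 : Dy (fun y : ℂ => ‖y‖ ^ 2) = fun y => 2 * y.im := by
    funext y
    show fderiv ℝ (fun y : ℂ => ‖y‖ ^ 2) y Complex.I = _
    rw [fderiv_norm_sq_apply]
    simp
  have h3 : HasFDerivAt (fun y : ℂ => 2 * y.re) ((2 : ℝ) • Complex.reCLM) z :=
    Complex.reCLM.hasFDerivAt.const_mul 2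
  have h4 : HasFDerivAt (fun y : ℂ => 2 * y.im) ((2 : ℝ) • Complex.imCLM) z :=
    Complex.imCLM.hasFDerivAt.const_mul 2
  refine ⟨?_, ?_, ?_⟩
  · rw [h1]
  · rw [h2]
  · unfold Lap
    rw [h1, h2]
    show fderiv ℝ (fun y : ℂ => 2 * y.re) z 1 +
      fderiv ℝ (fun y : ℂ => 2 * y.im) z Complex.I = 4
    rw [h3.fderiv, h4.fderiv]
    simp
    norm_num

/-- Near a point with `1 ≤ ‖y‖` the truncated function is `-log ‖y‖`. -/
theorem SubSol_ell_far {z : ℂ} (hz : 1 ≤ ‖z‖) :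
    Dx SubSol_ell z ^ 2 + Dy SubSol_ell z ^ 2 = 1 / ‖z‖ ^ 2 ∧ Lap SubSol_ell z = 0 := by
  have hN : (0 : ℝ) < ‖z‖ ^ 2 := by positivity
  have hfc : ContDiff ℝ ∞ (fun y : ℂ => ‖y‖ ^ 2) := contDiff_norm_sq ℝ
  have hlim : Tendsto (fun y : ℂ => ‖y‖ ^ 2) (𝓝 z) (𝓝 (‖z‖ ^ 2)) := hfc.continuous.tendsto z
  have hev : ∀ᶠ y : ℂ in 𝓝 z, 1 / 2 < ‖y‖ ^ 2 :=
    hlim.eventually (lt_mem_nhds (by nlinarith))
  have heq : SubSol_ell =ᶠ[𝓝 z] fun y => (fun t : ℝ => -(1 / 2) * Real.log t) (‖y‖ ^ 2) := by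
    filter_upwards [hev] with y hy
    unfold SubSol_ell
    rw [SubSol_m_eq hy.le]
  have hg : ∀ᶠ y : ℂ in 𝓝 z, HasDerivAt (fun t : ℝ => -(1 / 2) * Real.log t)
      ((fun t : ℝ => -(1 / 2) * t⁻¹) (‖y‖ ^ 2)) (‖y‖ ^ 2) := by
    filter_upwards [hev] with y hy
    exact (Real.hasDerivAt_log (by linarith)).const_mul _
  have hg1 : HasDerivAt (fun t : ℝ => -(1 / 2) * t⁻¹)
      ((fun t : ℝ => 1 / 2 * (t ^ 2)⁻¹) (‖z‖ ^ 2)) (‖z‖ ^ 2) := by
    refine ((hasDerivAt_inv hN.ne').const_mul (-(1 / 2) : ℝ)).congr_deriv ?_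
    ring
  obtain ⟨h1, h2, h3⟩ := SubSol_Lap_comp (f := fun y : ℂ => ‖y‖ ^ 2)
    (g := fun t : ℝ => -(1 / 2) * Real.log t) (g1 := fun t : ℝ => -(1 / 2) * t⁻¹)
    (g2 := fun t : ℝ => 1 / 2 * (t ^ 2)⁻¹) z (hfc.contDiffAt.of_le (by norm_cast)) hg hg1
  obtain ⟨n1, n2, n3⟩ := SubSol_normsq z
  rw [n1] at h1
  rw [n2] at h2
  rw [n1, n2, n3] at h3
  have hre : z.re ^ 2 + z.im ^ 2 = ‖z‖ ^ 2 := by
    rw [← Complex.normSq_eq_norm_sq, Complex.normSq_apply]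
    ring
  rw [Dx_congr heq, Dy_congr heq, Lap_congr heq, h1, h2, h3]
  constructor
  · have h4 : (2 * z.re * (-(1 / 2) * (‖z‖ ^ 2)⁻¹)) ^ 2 + (2 * z.im * (-(1 / 2) * (‖z‖ ^ 2)⁻¹)) ^ 2
        = (z.re ^ 2 + z.im ^ 2) * ((‖z‖ ^ 2)⁻¹) ^ 2 := by ring
    rw [h4, hre]
    field_simp
  · have h4 : (2 * z.re) ^ 2 + (2 * z.im) ^ 2 = 4 * ‖z‖ ^ 2 := by
      rw [← hre]
      ring
    rw [h4]
    field_simp
    ring

/-- The building block `ψ`. -/
noncomputable def SubSol_psi (c : ℝ) (y : ℂ) : ℝ := SubSol_P (SubSol_ell y + c)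

theorem SubSol_psi_contDiff (c : ℝ) : ContDiff ℝ ∞ (SubSol_psi c) :=
  SubSol_P_contDiff.comp (SubSol_ell_contDiff.add contDiff_const)

theorem SubSol_psi_Lap (c : ℝ) (z : ℂ) : Lap (SubSol_psi c) z =
    SubSol_P2 (SubSol_ell z + c) * (Dx SubSol_ell z ^ 2 + Dy SubSol_ell z ^ 2) +
      SubSol_P1 (SubSol_ell z + c) * Lap SubSol_ell z := by
  obtain ⟨-, -, h3⟩ := SubSol_Lap_comp (f := SubSol_ell) (g := fun t => SubSol_P (t + c))
    (g1 := fun t => SubSol_P1 (t + c)) (g2 := fun t => SubSol_P2 (t + c)) z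
    (SubSol_ell_contDiff.contDiffAt.of_le (by norm_cast))
    (Filter.Eventually.of_forall fun y => (SubSol_P_deriv (SubSol_ell y + c)).comp_add_const _ _)
    ((SubSol_P1_deriv (SubSol_ell z + c)).comp_add_const _ _)
  exact h3

theorem SubSol_psi_Lap_far (c : ℝ) {z : ℂ} (hz : 1 ≤ ‖z‖) : Lap (SubSol_psi c) z =
    SubSol_P2 (SubSol_ell z + c) / ‖z‖ ^ 2 := by
  obtain ⟨h1, h2⟩ := SubSol_ell_far hz
  rw [SubSol_psi_Lap, h1, h2]
  ring

theorem SubSol_psi_Lap_ge : ∃ C : ℝ, 0 < C ∧ ∀ (c : ℝ) (z : ℂ), -C ≤ Lap (SubSol_psi c) z := by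
  have hc : Continuous (Lap SubSol_ell) := by
    have h1 : Continuous (DD [true, true] SubSol_ell) :=
      (contDiff_DD SubSol_ell_contDiff [true, true]).continuous
    have h2 : Continuous (DD [false, false] SubSol_ell) :=
      (contDiff_DD SubSol_ell_contDiff [false, false]).continuous
    exact h1.add h2
  obtain ⟨C, hC⟩ := (isCompact_closedBall (0 : ℂ) 1).exists_bound_of_continuousOn hc.continuousOn
  refine ⟨max C 1, by positivity, fun c z => ?_⟩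
  rcases le_total 1 ‖z‖ with h | h
  · rw [SubSol_psi_Lap_far c h]
    have h1 : 0 ≤ SubSol_P2 (SubSol_ell z + c) / ‖z‖ ^ 2 := by
      have := SubSol_P2_nonneg (SubSol_ell z + c)
      positivity
    have h2 : (0 : ℝ) ≤ max C 1 := by positivity
    linarith
  · rw [SubSol_psi_Lap]
    have h1 : 0 ≤ SubSol_P2 (SubSol_ell z + c) *
        (Dx SubSol_ell z ^ 2 + Dy SubSol_ell z ^ 2) := by
      have := SubSol_P2_nonneg (SubSol_ell z + c)
      positivity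
    have h2 := hC z (by simpa using h)
    have h3 := SubSol_P1_abs (SubSol_ell z + c)
    have h4 : |SubSol_P1 (SubSol_ell z + c) * Lap SubSol_ell z| ≤ max C 1 := by
      rw [abs_mul]
      have h5 : |SubSol_P1 (SubSol_ell z + c)| * |Lap SubSol_ell z| ≤ 1 * |Lap SubSol_ell z| :=
        mul_le_mul_of_nonneg_right h3 (abs_nonneg _)
      rw [one_mul] at h5
      exact (h5.trans h2).trans (le_max_left _ _)
    have h6 := (abs_le.1 h4).1
    linarith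

theorem SubSol_psi_tendsto (c : ℝ) : Tendsto (SubSol_psi c) (cocompact ℂ) atBot := by
  refine SubSol_P_tendsto.comp (tendsto_atBot_add_const_right _ _ ?_)
  have h1 : Tendsto (fun y : ℂ => -Real.log ‖y‖) (cocompact ℂ) atBot :=
    tendsto_neg_atTop_atBot.comp (Real.tendsto_log_atTop.comp tendsto_norm_cocompact_atTop)
  refine h1.congr' ?_
  have h2 : ∀ᶠ y : ℂ in cocompact ℂ, 1 ≤ ‖y‖ :=
    tendsto_norm_cocompact_atTop.eventually (eventually_ge_atTop 1)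
  filter_upwards [h2] with y hy
  rw [SubSol_ell_eq hy]

/-- The algebraic inequality. -/
theorem SubSol_alg {a b : ℝ} (ha : 0 < a) (hab : a ≤ b) (h : 1 ≤ a ^ 3 + b ^ 3) :
    1 / 1000 * ((1 + a) * (a⁻¹) ^ 5) * ((1 + b) * (b⁻¹) ^ 5) ≤
      1 / 18 * (a / (1 + a) ^ 2) / (a ^ 3) ^ 2 + 1 / 18 * (b / (1 + b) ^ 2) / (b ^ 3) ^ 2 := by
  have hb : 0 < b := ha.trans_le hab
  have hb3 : 1 / 2 ≤ b ^ 3 := by
    have : a ^ 3 ≤ b ^ 3 := pow_le_pow_left₀ ha.le hab 3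
    linarith
  have hb34 : 3 / 4 ≤ b := by
    by_contra hcon
    have h1 : b < 3 / 4 := not_le.1 hcon
    have h2 : b ^ 3 < (3 / 4) ^ 3 := pow_lt_pow_left₀ h1 hb.le (by norm_num)
    norm_num at h2
    linarith
  have h1 : (1 + a) ^ 3 ≤ (1 + b) ^ 3 := pow_le_pow_left₀ (by linarith) (by linarith) 3
  have h2 : (1 + b) ^ 4 ≤ (7 / 3 * b) ^ 4 := pow_le_pow_left₀ (by linarith) (by linarith) 4
  have h3 : (1 + a) ^ 3 * (1 + b) ≤ 1000 / 18 * b ^ 5 := by
    calc (1 + a) ^ 3 * (1 + b) ≤ (1 + b) ^ 3 * (1 + b) :=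
          mul_le_mul_of_nonneg_right h1 (by linarith)
      _ = (1 + b) ^ 4 := by ring
      _ ≤ (7 / 3 * b) ^ 4 := h2
      _ = (7 / 3) ^ 4 * b ^ 4 := by ring
      _ ≤ 1000 / 18 * b * b ^ 4 := by
          apply mul_le_mul_of_nonneg_right _ (by positivity)
          norm_num
          linarith
      _ = 1000 / 18 * b ^ 5 := by ring
  have h4 : 0 ≤ 1 / 18 * (b / (1 + b) ^ 2) / (b ^ 3) ^ 2 := by positivity
  have h5 : 1 / 1000 * ((1 + a) * (a⁻¹) ^ 5) * ((1 + b) * (b⁻¹) ^ 5) ≤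
      1 / 18 * (a / (1 + a) ^ 2) / (a ^ 3) ^ 2 := by
    have h6 : 1 / 1000 * ((1 + a) * (a⁻¹) ^ 5) * ((1 + b) * (b⁻¹) ^ 5) =
        ((1 + a) ^ 3 * (1 + b)) * (1 / 1000 / ((1 + a) ^ 2 * a ^ 5 * b ^ 5)) := by
      field_simp
    have h7 : 1 / 18 * (a / (1 + a) ^ 2) / (a ^ 3) ^ 2 =
        (1000 / 18 * b ^ 5) * (1 / 1000 / ((1 + a) ^ 2 * a ^ 5 * b ^ 5)) := by
      field_simp
    rw [h6, h7]
    exact mul_le_mul_of_nonneg_right h3 (by positivity)
  linarith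

theorem SubSol_alg' {a b : ℝ} (ha : 0 < a) (hb : 0 < b) (h : 1 ≤ a ^ 3 + b ^ 3) :
    1 / 1000 * ((1 + a) * (a⁻¹) ^ 5) * ((1 + b) * (b⁻¹) ^ 5) ≤
      1 / 18 * (a / (1 + a) ^ 2) / (a ^ 3) ^ 2 + 1 / 18 * (b / (1 + b) ^ 2) / (b ^ 3) ^ 2 := by
  rcases le_total a b with hab | hab
  · exact SubSol_alg ha hab h
  · have h1 := SubSol_alg hb hab (by linarith)
    linarith

theorem SubSol_exp_psi (c : ℝ) (y : ℂ) : Real.exp (2 * SubSol_psi c y) =
    (1 + Real.exp (-(SubSol_ell y + c) / 3)) * ((Real.exp (-(SubSol_ell y + c) / 3))⁻¹) ^ 5 := by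
  unfold SubSol_psi
  rw [SubSol_exp_P, ← Real.exp_neg]
  congr 3
  ring

theorem SubSol_cube {D : ℝ} (hD : 0 < D) {y : ℂ} (hy : 1 ≤ ‖y‖) :
    (Real.exp (-(SubSol_ell y + Real.log D) / 3)) ^ 3 = ‖y‖ / D := by
  have hy0 : 0 < ‖y‖ := by linarith
  rw [← Real.exp_nat_mul, SubSol_ell_eq hy]
  have h1 : ((3 : ℕ) : ℝ) * (-(-Real.log ‖y‖ + Real.log D) / 3) = Real.log (‖y‖ / D) := by
    rw [Real.log_div hy0.ne' hD.ne']
    push_cast
    ring
  rw [h1, Real.exp_log (by positivity)]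

/-- Inequality (1) in scaled coordinates. -/
theorem SubSol_one {D : ℝ} (hD : 0 < D) {y₀ y₁ : ℂ} (h : D ≤ ‖y₀‖ + ‖y₁‖) (h₀ : 1 ≤ ‖y₀‖)
    (h₁ : 1 ≤ ‖y₁‖) :
    1 / 1000 * Real.exp (2 * SubSol_psi (Real.log D) y₀) *
      Real.exp (2 * SubSol_psi (Real.log D) y₁) / D ^ 2 ≤
      Lap (SubSol_psi (Real.log D)) y₀ + Lap (SubSol_psi (Real.log D)) y₁ := by
  have c0 := SubSol_cube hD h₀
  have c1 := SubSol_cube hD h₁
  have e0 := SubSol_exp_psi (Real.log D) y₀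
  have e1 := SubSol_exp_psi (Real.log D) y₁
  have l0 := SubSol_psi_Lap_far (Real.log D) h₀
  have l1 := SubSol_psi_Lap_far (Real.log D) h₁
  have p0 : 0 < Real.exp (-(SubSol_ell y₀ + Real.log D) / 3) := Real.exp_pos _
  have p1 : 0 < Real.exp (-(SubSol_ell y₁ + Real.log D) / 3) := Real.exp_pos _
  unfold SubSol_P2 at l0 l1
  rw [e0, e1, l0, l1]
  set a := Real.exp (-(SubSol_ell y₀ + Real.log D) / 3) with ha
  set b := Real.exp (-(SubSol_ell y₁ + Real.log D) / 3) with hb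
  have n0 : ‖y₀‖ = D * a ^ 3 := by rw [c0]; field_simp
  have n1 : ‖y₁‖ = D * b ^ 3 := by rw [c1]; field_simp
  have hs : 1 ≤ a ^ 3 + b ^ 3 := by
    rw [c0, c1, ← add_div, one_le_div hD]
    exact h
  have key := SubSol_alg' p0 p1 hs
  rw [n0, n1]
  have h3 : 1 / 18 * (a / (1 + a) ^ 2) / (D * a ^ 3) ^ 2 + 1 / 18 * (b / (1 + b) ^ 2) /
      (D * b ^ 3) ^ 2 = (1 / 18 * (a / (1 + a) ^ 2) / (a ^ 3) ^ 2 +
        1 / 18 * (b / (1 + b) ^ 2) / (b ^ 3) ^ 2) / D ^ 2 := by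
    field_simp
  rw [h3]
  exact div_le_div_of_nonneg_right key (by positivity)

/-- Inequality (2) in scaled coordinates. -/
theorem SubSol_two {D : ℝ} (hD : 2 ≤ D) {y₀ y₁ : ℂ} (h : D ≤ ‖y₀‖ + ‖y₁‖) (h₀ : ‖y₀‖ < 1) :
    1 / 1000 * Real.exp (2 * SubSol_psi (Real.log D) y₀) *
      Real.exp (2 * SubSol_psi (Real.log D) y₁) / D ^ 2 ≤ 1 := by
  have hD0 : 0 < D := by linarith
  have h₁ : 1 ≤ ‖y₁‖ := by linarith
  have c1 := SubSol_cube hD0 h₁
  have e0 := SubSol_exp_psi (Real.log D) y₀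
  have e1 := SubSol_exp_psi (Real.log D) y₁
  have p0 : 0 < Real.exp (-(SubSol_ell y₀ + Real.log D) / 3) := Real.exp_pos _
  have p1 : 0 < Real.exp (-(SubSol_ell y₁ + Real.log D) / 3) := Real.exp_pos _
  have q0 : ((Real.exp (-(SubSol_ell y₀ + Real.log D) / 3))⁻¹) ^ 3 ≤ 2 * D := by
    rw [← Real.exp_neg, ← Real.exp_nat_mul]
    have h2 := SubSol_ell_le y₀
    have h3 : ((3 : ℕ) : ℝ) * -(-(SubSol_ell y₀ + Real.log D) / 3) ≤ Real.log (2 * D) := by
      rw [Real.log_mul (by norm_num) hD0.ne']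
      push_cast
      linarith
    calc Real.exp (((3 : ℕ) : ℝ) * -(-(SubSol_ell y₀ + Real.log D) / 3))
        ≤ Real.exp (Real.log (2 * D)) := Real.exp_le_exp.2 h3
      _ = 2 * D := Real.exp_log (by positivity)
  rw [e0, e1]
  set a := Real.exp (-(SubSol_ell y₀ + Real.log D) / 3) with ha
  set b := Real.exp (-(SubSol_ell y₁ + Real.log D) / 3) with hb
  have hb3 : 1 / 2 ≤ b ^ 3 := by
    rw [c1, div_le_div_iff₀ (by norm_num) hD0]
    linarith
  have hb34 : 3 / 4 ≤ b := by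
    by_contra hcon
    have h1 : b < 3 / 4 := not_le.1 hcon
    have h2 : b ^ 3 < (3 / 4) ^ 3 := pow_lt_pow_left₀ h1 p1.le (by norm_num)
    norm_num at h2
    linarith
  set f := a⁻¹ with hf
  have hfp : 0 < f := by positivity
  have haf : a * f = 1 := mul_inv_cancel₀ p0.ne'
  have hg : b⁻¹ ≤ 4 / 3 := by
    rw [inv_le_comm₀ p1 (by norm_num)]
    norm_num
    linarith
  have hgp : 0 < b⁻¹ := by positivity
  have hbg : b * b⁻¹ = 1 := mul_inv_cancel₀ p1.ne'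
  have hA : (1 + a) * f ^ 5 ≤ 8 * D ^ 2 := by
    have h1 : (1 + a) * f ^ 5 = f ^ 5 + f ^ 4 := by
      have : (1 + a) * f ^ 5 = f ^ 5 + (a * f) * f ^ 4 := by ring
      rw [this, haf, one_mul]
    rw [h1]
    have h6 : f ^ 6 ≤ (2 * D) ^ 2 := by
      calc f ^ 6 = (f ^ 3) ^ 2 := by ring
        _ ≤ (2 * D) ^ 2 := pow_le_pow_left₀ (by positivity) q0 2
    rcases le_total 1 f with h7 | h7
    · have h8 : f ^ 5 ≤ f ^ 6 := pow_le_pow_right₀ h7 (by norm_num)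
      have h9 : f ^ 4 ≤ f ^ 6 := pow_le_pow_right₀ h7 (by norm_num)
      nlinarith
    · have h8 : f ^ 5 ≤ 1 := pow_le_one₀ hfp.le h7
      have h9 : f ^ 4 ≤ 1 := pow_le_one₀ hfp.le h7
      nlinarith
  have hB : (1 + b) * b⁻¹ ^ 5 ≤ 8 := by
    have h1 : (1 + b) * b⁻¹ ^ 5 = b⁻¹ ^ 5 + b⁻¹ ^ 4 := by
      have : (1 + b) * b⁻¹ ^ 5 = b⁻¹ ^ 5 + (b * b⁻¹) * b⁻¹ ^ 4 := by ring
      rw [this, hbg, one_mul]
    rw [h1]
    have h8 : b⁻¹ ^ 5 ≤ (4 / 3) ^ 5 := pow_le_pow_left₀ hgp.le hg 5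
    have h9 : b⁻¹ ^ 4 ≤ (4 / 3) ^ 4 := pow_le_pow_left₀ hgp.le hg 4
    norm_num at h8 h9 ⊢
    linarith
  rw [div_le_one (by positivity)]
  have hB0 : 0 ≤ (1 + b) * b⁻¹ ^ 5 := by positivity
  have hA0 : 0 ≤ (1 + a) * f ^ 5 := by positivity
  calc 1 / 1000 * ((1 + a) * f ^ 5) * ((1 + b) * b⁻¹ ^ 5)
      ≤ 1 / 1000 * (8 * D ^ 2) * 8 := by
        apply mul_le_mul _ hB hB0 (by positivity)
        exact mul_le_mul_of_nonneg_left hA (by norm_num)
    _ ≤ D ^ 2 := by nlinarith [sq_nonneg D]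

theorem SubSol_Lap_add {f g : ℂ → ℝ} (hf : ContDiff ℝ ∞ f) (hg : ContDiff ℝ ∞ g) (k : ℝ) (z : ℂ) :
    Lap (fun y => f y + g y + k) z = Lap f z + Lap g z := by
  have df : Differentiable ℝ f := hf.differentiable (by simp)
  have dg : Differentiable ℝ g := hg.differentiable (by simp)
  have dfx : Differentiable ℝ (Dx f) := (contDiff_DD hf [true]).differentiable (by simp)
  have dgx : Differentiable ℝ (Dx g) := (contDiff_DD hg [true]).differentiable (by simp)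
  have dfy : Differentiable ℝ (Dy f) := (contDiff_DD hf [false]).differentiable (by simp)
  have dgy : Differentiable ℝ (Dy g) := (contDiff_DD hg [false]).differentiable (by simp)
  have h1 : Dx (fun y => f y + g y + k) = fun y => Dx f y + Dx g y := by
    funext y
    rw [Dx_add (f := fun y => f y + g y) (g := fun _ => k) ((df y).add (dg y))
      (differentiableAt_const _), Dx_add (df y) (dg y), Dx_const, add_zero]
  have h2 : Dy (fun y => f y + g y + k) = fun y => Dy f y + Dy g y := by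
    funext y
    rw [Dy_add (f := fun y => f y + g y) (g := fun _ => k) ((df y).add (dg y))
      (differentiableAt_const _), Dy_add (df y) (dg y), Dy_const, add_zero]
  unfold Lap
  rw [h1, h2, Dx_add (dfx z) (dgx z), Dy_add (dfy z) (dgy z)]
  ring

theorem SubSol_psi_lower {D : ℝ} (hD : 1 ≤ D) {y : ℂ} {k : ℝ} (hk : 1 ≤ k)
    (hy : ‖y‖ ≤ k * D) : -(5 / 6 * Real.log k) ≤ SubSol_psi (Real.log D) y := by
  have h1 : -Real.log k ≤ SubSol_ell y + Real.log D := by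
    have hlD : 0 ≤ Real.log D := Real.log_nonneg hD
    have hlk : 0 ≤ Real.log k := Real.log_nonneg hk
    rcases le_total 1 ‖y‖ with h | h
    · rw [SubSol_ell_eq h]
      have h2 : Real.log ‖y‖ ≤ Real.log (k * D) := Real.log_le_log (by linarith) hy
      rw [Real.log_mul (by linarith) (by linarith)] at h2
      linarith
    · have := SubSol_ell_nonneg h
      linarith
  have h2 := SubSol_P_ge (SubSol_ell y + Real.log D)
  unfold SubSol_psi
  linarith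

/-- **Explicit subsolution** (Ahlfors' metric of the plane minus two points, truncated).

Let `m : ℝ → ℝ` be smooth with `m t = t` for `t ≥ 1` and `1/2 ≤ m t ≤ 1` for `t ≤ 1`; put
`ell y = - (1/2) log m(|y|²)`, a smooth function with `ell y = - log |y|` for `|y| ≥ 1` and
`0 ≤ ell ≤ (log 2) / 2` on `|y| ≤ 1`; for `s > 0` put `ell_s y = ell (y / s) - log s`
(`= - log |y|` for `|y| ≥ s`). Let `Φ t = (1/2) log (1 + e^{-t/3}) + (5/6) t`; `|Φ'| ≤ 1`,
`|Φ''| ≤ 1`, `Φ t ≥ (5/6) t`. With `d = |z₁ - z₀|` and `κ = 1/1000` put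
`u z = Φ (ell_s (z - z₀) + log d) + Φ (ell_s (z - z₁) + log d) - log d + (1/2) log κ`.

(1) If `|z - z₀| ≥ s` and `|z - z₁| ≥ s`: with `p = |z - z₀| / d`, `q = |z - z₁| / d`
(so `p + q ≥ 1`), `u = (1/2) log (1 + p^{1/3}) - (5/6) log p + (the same for q) - log d
+ (1/2) log κ`; as `Δ ((1/2) log (1 + r^{1/3})) = (1/18) r^{-5/3} (1 + r^{1/3})^{-2}` (`r = |y|`)
and `log` is harmonic,
`Δu = (1/(18 d²)) [p^{-5/3} (1+p^{1/3})^{-2} + q^{-5/3} (1+q^{1/3})^{-2}]` and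
`e^{2u} = κ d^{-2} (1+p^{1/3}) (1+q^{1/3}) p^{-5/3} q^{-5/3}`. So `e^{2u} ≤ Δu` iff
`18 κ ≤ q^{5/3} / ((1+p^{1/3})³ (1+q^{1/3})) + p^{5/3} / ((1+q^{1/3})³ (1+p^{1/3}))`. If `q ≥ p`
then `q ≥ 1/2` and the first summand is at least `q^{5/3} / (1+q^{1/3})^4 ≥ 0.029 > 18 κ`
(with `t = q^{1/3}`, `t^5 / (1+t)^4` is increasing). The case `p ≥ q` is symmetric.

(2) If `|z - z₀| < s` then `|z - z₁| ≥ d - s ≥ s`, `Δ` of the second `Φ` term is `≥ 0`, and `Δ` of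
the first one is at least `- C / s²`; moreover
`e^{2u} ≤ C κ d^{-2} (d/s)^{5/3} ≤ C s^{-2}`. Hence `e^{2u} - B₀ / s² ≤ Δu` for an absolute `B₀`.
The case `|z - z₁| < s` is symmetric.

(3) `u → -∞` at infinity (`u` is about `- (4/3) log |z|`).

(4) If `|z - z₀| ≤ d` then the argument of the first `Φ` is `≥ 0`, that of the second is
`≥ - log 2`, so `u ≥ - (5/6) log 2 - log d + (1/2) log κ`.

Instead of `z ↦ |z|^{1/3}` it may be convenient to write everything with `Φ (ell_s ...)`; for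
`|y| > 0` one has `Δ (g (log |y|)) = g''(log |y|) / |y|²`. -/
theorem exists_subsol : ∃ B₀ c₁ : ℝ, 0 < B₀ ∧ ∀ (z₀ z₁ : ℂ) (s : ℝ), 0 < s →
    2 * s ≤ ‖z₁ - z₀‖ → ∃ u : ℂ → ℝ, ContDiff ℝ ∞ u ∧
      (∀ z, s ≤ ‖z - z₀‖ → s ≤ ‖z - z₁‖ → Real.exp (2 * u z) ≤ Lap u z) ∧
      (∀ z, Real.exp (2 * u z) - B₀ / s ^ 2 ≤ Lap u z) ∧
      Tendsto u (cocompact ℂ) atBot ∧
      ∀ z, ‖z - z₀‖ ≤ ‖z₁ - z₀‖ → - Real.log ‖z₁ - z₀‖ - c₁ ≤ u z := by
  obtain ⟨C, hC0, hC⟩ := SubSol_psi_Lap_ge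
  refine ⟨1 + C, 5 / 6 * Real.log 2 - 1 / 2 * Real.log (1 / 1000), by positivity,
    fun z₀ z₁ s hs hd => ?_⟩
  set d := ‖z₁ - z₀‖ with hd'
  have hd0 : 0 < d := by linarith
  set D := d / s with hD'
  have hD : 2 ≤ D := by
    rw [hD', le_div_iff₀ hs]
    exact hd
  have hD0 : 0 < D := by linarith
  have hs' : s ≠ 0 := hs.ne'
  set A : ℂ → ℂ → ℂ := fun w z => -(w / (s : ℂ)) + (((1 / s : ℝ)) : ℂ) * z with hA
  have hAn : ∀ w z, ‖A w z‖ = ‖z - w‖ / s := by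
    intro w z
    have h1 : A w z = (z - w) / (s : ℂ) := by
      rw [hA]
      push_cast
      field_simp
      ring
    rw [h1, norm_div, Complex.norm_real, Real.norm_eq_abs, abs_of_pos hs]
  have hAc : ∀ w, ContDiff ℝ ∞ (A w) := fun w => contDiff_const.add (contDiff_const.mul contDiff_id)
  set ψ := SubSol_psi (Real.log D) with hψ
  have hψc : ∀ w, ContDiff ℝ ∞ (fun z => ψ (A w z)) := fun w =>
    (SubSol_psi_contDiff (Real.log D)).comp (hAc w)
  set k : ℝ := 1 / 2 * Real.log (1 / 1000) - Real.log d with hk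
  have hLap : ∀ w z, Lap (fun z => ψ (A w z)) z = Lap ψ (A w z) / s ^ 2 := by
    intro w z
    have h1 := Lap_comp_affine ψ (-(w / (s : ℂ))) (1 / s) z
    rw [hA]
    rw [h1, smul_eq_mul]
    field_simp
  have hL : ∀ z, Lap (fun z => ψ (A z₀ z) + ψ (A z₁ z) + k) z =
      (Lap ψ (A z₀ z) + Lap ψ (A z₁ z)) / s ^ 2 := by
    intro z
    rw [SubSol_Lap_add (hψc z₀) (hψc z₁), hLap, hLap]
    ring
  have hE : ∀ z, Real.exp (2 * (ψ (A z₀ z) + ψ (A z₁ z) + k)) =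
      (1 / 1000 * Real.exp (2 * ψ (A z₀ z)) * Real.exp (2 * ψ (A z₁ z)) / D ^ 2) / s ^ 2 := by
    intro z
    have h1 : 2 * (ψ (A z₀ z) + ψ (A z₁ z) + k) = Real.log (1 / 1000) + 2 * ψ (A z₀ z) +
        2 * ψ (A z₁ z) + -(Real.log d + Real.log d) := by
      rw [hk]
      ring
    rw [h1, Real.exp_add, Real.exp_add, Real.exp_add, Real.exp_log (by norm_num), Real.exp_neg,
      Real.exp_add, Real.exp_log hd0, hD']
    field_simp
  have hsum : ∀ z, D ≤ ‖A z₀ z‖ + ‖A z₁ z‖ := by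
    intro z
    rw [hAn, hAn, ← add_div, hD']
    apply div_le_div_of_nonneg_right _ hs.le
    calc d = ‖(z - z₀) - (z - z₁)‖ := by rw [hd']; congr 1; ring
      _ ≤ _ := norm_sub_le _ _
  have hone : ∀ z, s ≤ ‖z - z₀‖ → s ≤ ‖z - z₁‖ →
      Real.exp (2 * (ψ (A z₀ z) + ψ (A z₁ z) + k)) ≤
        Lap (fun z => ψ (A z₀ z) + ψ (A z₁ z) + k) z := by
    intro z h0 h1
    rw [hE, hL]
    apply div_le_div_of_nonneg_right _ (by positivity)
    apply SubSol_one hD0 (hsum z)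
    · rw [hAn, one_le_div hs]; exact h0
    · rw [hAn, one_le_div hs]; exact h1
  refine ⟨fun z => ψ (A z₀ z) + ψ (A z₁ z) + k, ((hψc z₀).add (hψc z₁)).add contDiff_const,
    hone, ?_, ?_, ?_⟩
  · intro z
    have hfar : ∀ w, s ≤ ‖z - w‖ → 0 ≤ Lap ψ (A w z) := by
      intro w hw
      have h1 : 1 ≤ ‖A w z‖ := by rw [hAn, one_le_div hs]; exact hw
      rw [hψ, SubSol_psi_Lap_far _ h1]
      have := SubSol_P2_nonneg (SubSol_ell (A w z) + Real.log D)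
      positivity
    have hBs : 0 ≤ (1 + C) / s ^ 2 := by positivity
    have hdist : ‖z - z₀‖ < s → s ≤ ‖z - z₁‖ := by
      intro h
      have h1 : d ≤ ‖z - z₀‖ + ‖z - z₁‖ := by
        calc d = ‖(z - z₀) - (z - z₁)‖ := by rw [hd']; congr 1; ring
          _ ≤ _ := norm_sub_le _ _
      linarith
    rcases lt_or_ge ‖z - z₀‖ s with h0 | h0
    · have h1 := hdist h0
      have h2 := hfar z₁ h1
      have h3 := hC (Real.log D) (A z₀ z)
      have h4 : ‖A z₀ z‖ < 1 := by rw [hAn, div_lt_one hs]; exact h0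
      have h5 := SubSol_two hD (hsum z) h4
      rw [hE, hL, ← sub_div]
      apply div_le_div_of_nonneg_right _ (by positivity)
      linarith
    · rcases lt_or_ge ‖z - z₁‖ s with h1 | h1
      · have h2 := hfar z₀ h0
        have h3 := hC (Real.log D) (A z₁ z)
        have h4 : ‖A z₁ z‖ < 1 := by rw [hAn, div_lt_one hs]; exact h1
        have h5 := SubSol_two hD (y₀ := A z₁ z) (y₁ := A z₀ z) (by linarith [hsum z]) h4
        rw [hE, hL, ← sub_div]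
        apply div_le_div_of_nonneg_right _ (by positivity)
        have h6 : 1 / 1000 * Real.exp (2 * ψ (A z₀ z)) * Real.exp (2 * ψ (A z₁ z)) / D ^ 2 =
          1 / 1000 * Real.exp (2 * ψ (A z₁ z)) * Real.exp (2 * ψ (A z₀ z)) / D ^ 2 := by ring
        rw [h6]
        linarith
      · have := hone z h0 h1
        linarith
  · have ht : ∀ w, Tendsto (fun z => ψ (A w z)) (cocompact ℂ) atBot := by
      intro w
      refine (SubSol_psi_tendsto (Real.log D)).comp ?_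
      have h1 : Tendsto (fun z : ℂ => (‖z‖ - ‖w‖) / s) (cocompact ℂ) atTop := by
        apply Tendsto.atTop_div_const hs
        exact tendsto_atTop_add_const_right _ _ tendsto_norm_cocompact_atTop
      have h2 : Tendsto (fun z : ℂ => ‖A w z‖) (cocompact ℂ) atTop := by
        refine tendsto_atTop_mono (fun z => ?_) h1
        rw [hAn]
        exact div_le_div_of_nonneg_right (norm_sub_norm_le _ _) hs.le
      have h3 : Tendsto (A w) (cocompact ℂ) (Bornology.cobounded ℂ) :=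
        tendsto_norm_atTop_iff_cobounded.1 h2
      rwa [Metric.cobounded_eq_cocompact] at h3
    exact tendsto_atBot_add_const_right _ _ ((ht z₀).atBot_add_atBot (ht z₁))
  · intro z hz
    have h0 : ‖A z₀ z‖ ≤ 1 * D := by
      rw [hAn, one_mul, hD']
      exact div_le_div_of_nonneg_right hz hs.le
    have h1 : ‖A z₁ z‖ ≤ 2 * D := by
      rw [hAn, hD', ← mul_div_assoc]
      apply div_le_div_of_nonneg_right _ hs.le
      calc ‖z - z₁‖ = ‖(z - z₀) - (z₁ - z₀)‖ := by congr 1; ring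
        _ ≤ ‖z - z₀‖ + ‖z₁ - z₀‖ := norm_sub_le _ _
        _ ≤ 2 * d := by linarith
    have h2 := SubSol_psi_lower (by linarith) le_rfl h0
    have h3 := SubSol_psi_lower (by linarith) (by norm_num : (1 : ℝ) ≤ 2) h1
    rw [Real.log_one, mul_zero, neg_zero] at h2
    show _ ≤ ψ (A z₀ z) + ψ (A z₁ z) + k
    rw [hk]
    linarith

/-- The absolute constant in the penalty function. -/
noncomputable def Bpen : ℝ := Classical.choose exists_subsol

theorem Bpen_spec : ∃ c₁ : ℝ, 0 < Bpen ∧ ∀ (z₀ z₁ : ℂ) (s : ℝ), 0 < s →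
    2 * s ≤ ‖z₁ - z₀‖ → ∃ u : ℂ → ℝ, ContDiff ℝ ∞ u ∧
      (∀ z, s ≤ ‖z - z₀‖ → s ≤ ‖z - z₁‖ → Real.exp (2 * u z) ≤ Lap u z) ∧
      (∀ z, Real.exp (2 * u z) - Bpen / s ^ 2 ≤ Lap u z) ∧
      Tendsto u (cocompact ℂ) atBot ∧
      ∀ z, ‖z - z₀‖ ≤ ‖z₁ - z₀‖ → - Real.log ‖z₁ - z₀‖ - c₁ ≤ u z :=
  Classical.choose_spec exists_subsol

end Pool.Agent.KK
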