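import Pool.Agent.W_bb4b37_h53.PenA
import Pool.Agent.W_bb4b37_h53.SubSol

/-!
# The penalised Liouville equation `Δ w = e^{2w} - X` (part C)
-/

set_option autoImplicit false

open Filter Topology Set MeasureTheory Metric
open scoped ContDiff

namespace Pool.Agent.KK

/-- the Laplacian of a difference of `C²` functions -/
private theorem LiouvilleC_Lap_sub {f g : ℂ → ℝ} (hf : ContDiff ℝ 2 f) (hg : ContDiff ℝ 2 g)
    (z : ℂ) : Lap (fun y => f y - g y) z = Lap f z - Lap g z := by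
  have hfd : ∀ y, DifferentiableAt ℝ f y := fun y => hf.differentiable (by norm_num) y
  have hgd : ∀ y, DifferentiableAt ℝ g y := fun y => hg.differentiable (by norm_num) y
  have h1 : Dx (fun y => f y - g y) = fun y => Dx f y - Dx g y := by
    funext y
    exact Dx_sub (hfd y) (hgd y)
  have h2 : Dy (fun y => f y - g y) = fun y => Dy f y - Dy g y := by
    funext y
    exact Dy_sub (hfd y) (hgd y)
  have h3 := CalcE_differentiableAt (hf.contDiffAt (x := z))
  have h4 := CalcE_differentiableAt (hg.contDiffAt (x := z))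
  unfold Lap
  rw [h1, h2, Dx_sub h3.1 h4.1, Dy_sub h3.2 h4.2]
  ring

/-- comparison of a subsolution tending to `-∞` with a periodic solution -/
private theorem LiouvilleC_comp {a s : ℝ} (ha : |a| < 1) (hs : 0 < s) {S : Set ℂ}
    (hne : S.Nonempty) {w u : ℂ → ℝ} (hw : ContDiff ℝ 2 w) (hp : Per a w)
    (hsol : ∀ z, Lap w z = Real.exp (2 * w z) - pen Bpen S s z) (hB : 0 < Bpen)
    {z₀ z₁ : ℂ} (hz₀ : z₀ ∈ S) (hz₁ : z₁ ∈ S) (hu : ContDiff ℝ ∞ u)
    (h1 : ∀ z, s ≤ ‖z - z₀‖ → s ≤ ‖z - z₁‖ → Real.exp (2 * u z) ≤ Lap u z)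
    (h2 : ∀ z, Real.exp (2 * u z) - Bpen / s ^ 2 ≤ Lap u z)
    (h3 : Tendsto u (cocompact ℂ) atBot) (z : ℂ) : u z ≤ w z := by
  have hu2 : ContDiff ℝ 2 u := hu.of_le (by exact WithTop.coe_le_coe.2 le_top)
  have hwc : Continuous w := hw.continuous
  have huc : Continuous u := hu.continuous
  obtain ⟨B, hBw⟩ := per_bounded ha hp hwc
  have hlim : Tendsto (fun y => w y - u y) (cocompact ℂ) atTop := by
    have h4 : Tendsto (fun y => -u y) (cocompact ℂ) atTop := tendsto_neg_atBot_atTop.comp h3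
    have h5 : Tendsto (fun y => -B + -u y) (cocompact ℂ) atTop :=
      tendsto_atTop_add_const_left _ _ h4
    refine tendsto_atTop_mono (fun y => ?_) h5
    have h6 := (abs_le.1 (hBw y)).1
    linarith
  obtain ⟨p, hpmin⟩ := (hwc.sub huc).exists_forall_le hlim
  have hmax : IsLocalMax (fun y => u y - w y) p := by
    refine Filter.Eventually.of_forall fun y => ?_
    have h4 := hpmin y
    simp only [Pi.sub_apply] at h4
    show u y - w y ≤ u p - w p
    linarith
  have hC2 : ContDiffAt ℝ 2 (fun y => u y - w y) p := (hu2.sub hw).contDiffAt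
  obtain ⟨-, -, h5, h6, -⟩ := second_deriv_of_isLocalMax hC2 hmax
  have h7 : Lap (fun y => u y - w y) p ≤ 0 := add_nonpos h5 h6
  rw [LiouvilleC_Lap_sub hu2 hw, hsol p] at h7
  have hexp : Real.exp (2 * u p) ≤ Real.exp (2 * w p) := by
    by_cases hcase : s ≤ ‖p - z₀‖ ∧ s ≤ ‖p - z₁‖
    · have h8 := h1 p hcase.1 hcase.2
      have h9 := pen_ge (s := s) hB.le S p
      linarith
    · have hd : infDist p S ≤ s := by
        rcases not_and_or.1 hcase with h | h
        · refine (infDist_le_dist_of_mem hz₀).trans ?_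
          rw [dist_eq_norm]
          exact (not_le.1 h).le
        · refine (infDist_le_dist_of_mem hz₁).trans ?_
          rw [dist_eq_norm]
          exact (not_le.1 h).le
      have h8 := h2 p
      have h9 := pen_near (B := Bpen) hs hd
      rw [h9] at h7
      linarith
  have h10 : u p ≤ w p := by
    have := Real.exp_le_exp.1 hexp
    linarith
  have h11 := hpmin z
  simp only [Pi.sub_apply] at h11
  linarith

/-- Lower bound: let `δ = infDist z S`, `z₀ ∈ S` with `|z - z₀| = δ`, `T = max δ s`; by uniform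
perfectness at the scale `2 A T` there is `z₁ ∈ S` with `2 T ≤ d = |z₁ - z₀| ≤ 2 A T`. Let `u` be
the function of `Bpen_spec`. Then `Δ u ≥ e^{2u} - pen` everywhere (near `z₀`, `z₁` the penalty is
`≥ Bpen / s²`, `pen_near`; elsewhere `Δ u ≥ e^{2u}`), `u - w → -∞` at infinity, and at a maximum of
`u - w` we get `e^{2u} ≤ e^{2w}`; hence `u ≤ w`, and `w z ≥ u z ≥ - log (2 A T) - c₁`. -/
theorem liouville_lower (A : ℝ) (hA : 1 ≤ A) : ∃ C : ℝ, 1 ≤ C ∧ ∀ (a s : ℝ), 0 ≤ a →
    a ≤ 1 / 10 → 0 < s → s ≤ 1 → ∀ S : Set ℂ, IsClosed S → S.Nonempty → PerSet a S → UP A S →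
    ∀ w : ℂ → ℝ, ContDiff ℝ 2 w → Per a w →
    (∀ z, Lap w z = Real.exp (2 * w z) - pen Bpen S s z) → ∀ z,
      1 / C ≤ Real.exp (w z) * max (infDist z S) s := by
  obtain ⟨c₁, hB, hspec⟩ := Bpen_spec
  refine ⟨max 1 (2 * A * Real.exp c₁), le_max_left _ _, ?_⟩
  intro a s ha0 ha hs hs1 S hS hne hSp hUP w hw hp hsol z
  have haa : |a| < 1 := by
    rw [abs_of_nonneg ha0]
    linarith
  obtain ⟨z₀, hz₀, hdist⟩ := hS.exists_infDist_eq_dist hne z
  set T : ℝ := max (infDist z S) s with hT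
  have hTs : s ≤ T := le_max_right _ _
  have hT0 : 0 < T := hs.trans_le hTs
  have hA0 : 0 < A := lt_of_lt_of_le one_pos hA
  obtain ⟨z₁, hz₁, hd1, hd2⟩ := hUP z₀ hz₀ (2 * A * T) (by positivity)
  have hd1' : 2 * T ≤ ‖z₁ - z₀‖ := by
    have : 2 * A * T / A = 2 * T := by field_simp
    rwa [this] at hd1
  obtain ⟨u, hu, hu1, hu2, hu3, hu4⟩ := hspec z₀ z₁ s hs (by linarith)
  have hcomp := LiouvilleC_comp haa hs hne hw hp hsol hB hz₀ hz₁ hu hu1 hu2 hu3 z
  have hzz : ‖z - z₀‖ ≤ ‖z₁ - z₀‖ := by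
    rw [← dist_eq_norm, ← hdist]
    have : infDist z S ≤ T := le_max_left _ _
    linarith
  have h5 := hu4 z hzz
  have hpos : 0 < ‖z₁ - z₀‖ := by linarith
  have h6 : Real.log ‖z₁ - z₀‖ ≤ Real.log (2 * A * T) := Real.log_le_log hpos hd2
  have h7 : -Real.log (2 * A * T) - c₁ ≤ w z := by linarith
  have h8 : Real.exp (-Real.log (2 * A * T) - c₁) ≤ Real.exp (w z) := Real.exp_le_exp.2 h7
  have h9 : Real.exp (-Real.log (2 * A * T) - c₁) * T = 1 / (2 * A * Real.exp c₁) := by
    rw [Real.exp_sub, Real.exp_neg, Real.exp_log (by positivity)]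
    have := Real.exp_pos c₁
    field_simp
  have h10 : 1 / (2 * A * Real.exp c₁) ≤ Real.exp (w z) * T := by
    rw [← h9]
    exact mul_le_mul_of_nonneg_right h8 hT0.le
  refine le_trans ?_ h10
  have h11 : 0 < 2 * A * Real.exp c₁ := by
    have := Real.exp_pos c₁
    positivity
  exact one_div_le_one_div_of_le h11 (le_max_right _ _)

end Pool.Agent.KK
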