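import Pool.Agent.W_bb4b37_h53.Defs

/-!
# Properties of the penalty function `pen B S s` (part A)
-/

set_option autoImplicit false

open Filter Topology Set MeasureTheory Metric
open scoped ContDiff

namespace Pool.Agent.KK

theorem moll_nonneg (y : ℂ) : 0 ≤ moll y := by
  exact ContDiffBump.nonneg_normed _ _

theorem integral_moll : ∫ y : ℂ, moll y = 1 := by
  exact ContDiffBump.integral_normed _

theorem moll_eq_zero {y : ℂ} (hy : 1 ≤ ‖y‖) : moll y = 0 := by
  unfold moll
  rw [ContDiffBump.normed_def, ContDiffBump.zero_of_le_dist, zero_div]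
  rw [dist_zero_right]
  exact hy

theorem moll_contDiff : ContDiff ℝ ∞ moll := by
  exact ContDiffBump.contDiff_normed _

theorem cut_lipschitz (t u : ℝ) : |cut t - cut u| ≤ |t - u| := by
  unfold cut
  have h1 : |max 0 (min 1 (3 - t)) - max 0 (min 1 (3 - u))| ≤ |min 1 (3 - t) - min 1 (3 - u)| := by
    rw [max_comm 0, max_comm 0]
    exact abs_max_sub_max_le_abs _ _ _
  have h2 : |min 1 (3 - t) - min 1 (3 - u)| ≤ |(3 - t) - (3 - u)| := by
    have := abs_min_sub_min_le_max 1 (3 - t) 1 (3 - u)
    rw [sub_self, abs_zero] at this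
    exact this.trans (max_le (abs_nonneg _) le_rfl)
  have h3 : |(3 - t) - (3 - u)| = |t - u| := by
    rw [abs_sub_comm]; congr 1; ring
  exact h1.trans (h2.trans h3.le)

/-- `infDist` is invariant under the lattice for an invariant set. -/
theorem infDist_add_lat {a : ℝ} {S : Set ℂ} (hS : PerSet a S) (z : ℂ) {v : ℂ} (hv : v ∈ Lat a) :
    infDist (z + v) S = infDist z S := by
  have key : ∀ (z v : ℂ), v ∈ Lat a → infDist (z + v) S ≤ infDist z S := by
    intro z v hv
    rcases S.eq_empty_or_nonempty with h | h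
    · subst h; simp
    · rw [le_infDist h]
      intro y hy
      have h1 : y + v ∈ S := hS y hy v hv
      have h2 := infDist_le_dist_of_mem (x := z + v) h1
      rwa [dist_add_right] at h2
  apply le_antisymm (key z v hv)
  have hv' : -v ∈ Lat a := by
    obtain ⟨m, n, hmn⟩ := hv
    refine ⟨-m, -n, ?_⟩
    rw [hmn]; push_cast; ring
  have := key (z + v) (-v) hv'
  rwa [add_neg_cancel_right] at this

theorem pen_per {a B s : ℝ} {S : Set ℂ} (hS : PerSet a S) : Per a (pen B S s) := by
  intro z v hv
  unfold pen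
  have h1 : ∀ y : ℂ, infDist (z + v - (s : ℂ) * y) S = infDist (z - (s : ℂ) * y) S := by
    intro y
    have : z + v - (s : ℂ) * y = (z - (s : ℂ) * y) + v := by ring
    rw [this, infDist_add_lat hS _ hv]
  simp only [h1]

theorem pen_ge {B s : ℝ} (hB : 0 ≤ B) (S : Set ℂ) (z : ℂ) : s ≤ pen B S s z := by
  unfold pen
  have h1 : 0 ≤ ∫ y : ℂ, moll y * cut (Metric.infDist (z - (s : ℂ) * y) S / s) :=
    integral_nonneg fun y => mul_nonneg (moll_nonneg y) (le_max_left _ _)
  have h2 : 0 ≤ B / s ^ 2 := div_nonneg hB (sq_nonneg s)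
  nlinarith [mul_nonneg h2 h1]

theorem pen_le {B s : ℝ} (hB : 0 ≤ B) (S : Set ℂ) (z : ℂ) : pen B S s z ≤ s + B / s ^ 2 := by
  unfold pen
  have hi : Integrable moll := ContDiffBump.integrable_normed _
  have h1 : ∫ y : ℂ, moll y * cut (Metric.infDist (z - (s : ℂ) * y) S / s) ≤ 1 := by
    rw [← integral_moll]
    apply integral_mono_of_nonneg
    · exact Filter.Eventually.of_forall fun y => mul_nonneg (moll_nonneg y) (le_max_left _ _)
    · exact hi
    · apply Filter.Eventually.of_forall
      intro y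
      have h3 : cut (Metric.infDist (z - (s : ℂ) * y) S / s) ≤ 1 :=
        max_le zero_le_one (min_le_left _ _)
      exact mul_le_of_le_one_right (moll_nonneg y) h3
  have h2 : 0 ≤ B / s ^ 2 := div_nonneg hB (sq_nonneg s)
  nlinarith [mul_le_mul_of_nonneg_left h1 h2]

/-- For `|y| ≤ 1`, `infDist (z - s y) S / s ≤ infDist z S / s + 1 ≤ 2`, so `cut = 1`. -/
theorem pen_near {B s : ℝ} (hs : 0 < s) {S : Set ℂ} {z : ℂ} (hz : infDist z S ≤ s) :
    pen B S s z = s + B / s ^ 2 := by
  unfold pen
  have h1 : (∫ y : ℂ, moll y * cut (Metric.infDist (z - (s : ℂ) * y) S / s)) = ∫ y : ℂ, moll y := by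
    congr 1
    funext y
    rcases le_or_gt 1 ‖y‖ with hy | hy
    · rw [moll_eq_zero hy, zero_mul]
    · have h2 : infDist (z - (s : ℂ) * y) S ≤ infDist z S + dist (z - (s : ℂ) * y) z :=
        infDist_le_infDist_add_dist
      have h3 : dist (z - (s : ℂ) * y) z ≤ s := by
        rw [dist_eq_norm, sub_sub_cancel_left, norm_neg, norm_mul, Complex.norm_real,
          Real.norm_eq_abs, abs_of_pos hs]
        nlinarith
      have h4 : infDist (z - (s : ℂ) * y) S / s ≤ 2 := by
        rw [div_le_iff₀ hs]; linarith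
      have h5 : cut (infDist (z - (s : ℂ) * y) S / s) = 1 := by
        unfold cut
        rw [min_eq_left (by linarith), max_eq_right zero_le_one]
      rw [h5, mul_one]
  rw [h1, integral_moll, mul_one]

theorem pen_far {B s : ℝ} (hs : 0 < s) {S : Set ℂ} {z : ℂ} (hz : 4 * s ≤ infDist z S) :
    pen B S s z = s := by
  unfold pen
  have h1 : (∫ y : ℂ, moll y * cut (Metric.infDist (z - (s : ℂ) * y) S / s)) = ∫ _y : ℂ, (0 : ℝ) := by
    congr 1
    funext y
    rcases le_or_gt 1 ‖y‖ with hy | hy
    · rw [moll_eq_zero hy, zero_mul]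
    · have h2 : infDist z S ≤ infDist (z - (s : ℂ) * y) S + dist z (z - (s : ℂ) * y) :=
        infDist_le_infDist_add_dist
      have h3 : dist z (z - (s : ℂ) * y) ≤ s := by
        rw [dist_comm, dist_eq_norm, sub_sub_cancel_left, norm_neg, norm_mul, Complex.norm_real,
          Real.norm_eq_abs, abs_of_pos hs]
        nlinarith
      have h4 : 3 ≤ infDist (z - (s : ℂ) * y) S / s := by
        rw [le_div_iff₀ hs]; linarith
      have h5 : cut (infDist (z - (s : ℂ) * y) S / s) = 0 := by
        unfold cut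
        rw [max_eq_left]
        exact (min_le_right _ _).trans (by linarith)
      rw [h5, mul_zero]
  rw [h1, integral_zero, mul_zero, add_zero]

end Pool.Agent.KK
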