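import Pool.Agent.W_bb4b37_h53.CalcA
import Pool.Agent.W_bb4b37_h53.CalcB
import Pool.Agent.W_bb4b37_h53.PenA

/-!
# Properties of the penalty function `pen B S s` (part B)
-/

set_option autoImplicit false

open Filter Topology Set MeasureTheory Metric
open scoped ContDiff

namespace Pool.Agent.KK

/-- The convolution of `g` and `c`. -/
noncomputable def PenB_conv (g c : ℂ → ℝ) (x : ℂ) : ℝ := ∫ y : ℂ, g y * c (x - y)

theorem PenB_fderiv {g c : ℂ → ℝ} (hg : ContDiff ℝ ∞ g) (hs : HasCompactSupport g)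
    (hc : Continuous c) (x v : ℂ) :
    fderiv ℝ (PenB_conv g c) x v = ∫ y : ℂ, fderiv ℝ g y v * c (x - y) := by
  have h1 := hs.hasFDerivAt_convolution_left (μ := (volume : Measure ℂ))
    (ContinuousLinearMap.mul ℝ ℝ) (hg.of_le (by simp)) hc.locallyIntegrable x
  have h2 : HasFDerivAt (PenB_conv g c) _ x := h1
  rw [h2.fderiv]
  have h3 := (hs.fderiv ℝ).convolutionExists_left (μ := (volume : Measure ℂ))
    ((ContinuousLinearMap.mul ℝ ℝ).precompL ℂ) (hg.continuous_fderiv (by simp))
    hc.locallyIntegrable x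
  show (∫ t : ℂ, ((ContinuousLinearMap.mul ℝ ℝ).precompL ℂ) (fderiv ℝ g t) (c (x - t))) v = _
  rw [ContinuousLinearMap.integral_apply h3]
  rfl

theorem PenB_contDiff {g c : ℂ → ℝ} (hg : ContDiff ℝ ∞ g) (hs : HasCompactSupport g)
    (hc : Continuous c) : ContDiff ℝ ∞ (PenB_conv g c) :=
  hs.contDiff_convolution_left (μ := (volume : Measure ℂ)) (ContinuousLinearMap.mul ℝ ℝ) hg
    hc.locallyIntegrable

theorem PenB_supp {g : ℂ → ℝ} (hs : HasCompactSupport g) (l : List Bool) :
    HasCompactSupport (DD l g) := by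
  induction l with
  | nil => exact hs
  | cons b l ih =>
    cases b with
    | true => exact ih.fderiv_apply ℝ 1
    | false => exact ih.fderiv_apply ℝ Complex.I

theorem PenB_DD {g c : ℂ → ℝ} (hg : ContDiff ℝ ∞ g) (hs : HasCompactSupport g)
    (hc : Continuous c) (l : List Bool) : DD l (PenB_conv g c) = PenB_conv (DD l g) c := by
  induction l with
  | nil => rfl
  | cons b l ih =>
    cases b with
    | true =>
      rw [DD_true, DD_true, ih]
      funext x
      exact PenB_fderiv (contDiff_DD hg l) (PenB_supp hs l) hc x 1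
    | false =>
      rw [DD_false, DD_false, ih]
      funext x
      exact PenB_fderiv (contDiff_DD hg l) (PenB_supp hs l) hc x Complex.I

theorem PenB_abs_le {g c : ℂ → ℝ} (hg : Continuous g) (hs : HasCompactSupport g)
    (hc : ∀ w, |c w| ≤ 1) (x : ℂ) : |PenB_conv g c x| ≤ ∫ y : ℂ, |g y| := by
  have h1 : Integrable (fun y : ℂ => |g y|) := (hg.integrable_of_hasCompactSupport hs).abs
  have h2 : ‖∫ y : ℂ, g y * c (x - y)‖ ≤ ∫ y : ℂ, |g y| := by
    apply norm_integral_le_of_norm_le h1
    filter_upwards with y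
    rw [norm_mul, Real.norm_eq_abs, Real.norm_eq_abs]
    exact mul_le_of_le_one_right (abs_nonneg _) (hc _)
  exact h2

theorem PenB_cut_cont : Continuous cut := by
  unfold cut
  fun_prop

theorem PenB_cut_abs (t : ℝ) : |cut t| ≤ 1 := by
  have h1 : 0 ≤ cut t := le_max_left _ _
  have h2 : cut t ≤ 1 := max_le zero_le_one (min_le_left _ _)
  rw [abs_of_nonneg h1]
  exact h2

/-- The rescaled cut-off of the distance. -/
noncomputable def PenB_c (S : Set ℂ) (s : ℝ) (w : ℂ) : ℝ := cut (infDist ((s : ℂ) * w) S / s)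

theorem PenB_c_cont (S : Set ℂ) (s : ℝ) : Continuous (PenB_c S s) := by
  unfold PenB_c
  apply PenB_cut_cont.comp
  apply Continuous.div_const
  exact (continuous_infDist_pt S).comp (by fun_prop)

theorem PenB_moll_supp : HasCompactSupport moll := by
  exact ContDiffBump.hasCompactSupport_normed _

theorem PenB_pen_eq {B s : ℝ} (hs : 0 < s) (S : Set ℂ) :
    pen B S s = fun z => s + (B / s ^ 2) • PenB_conv moll (PenB_c S s) (0 + ((s⁻¹ : ℝ) : ℂ) * z) := by
  funext z
  unfold pen PenB_conv PenB_c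
  rw [smul_eq_mul]
  congr 2
  congr 1
  funext y
  have h1 : (s : ℂ) * (0 + ((s⁻¹ : ℝ) : ℂ) * z - y) = z - (s : ℂ) * y := by
    have : (s : ℂ) ≠ 0 := by exact_mod_cast hs.ne'
    push_cast
    field_simp
    ring
  rw [h1]

/-- Smoothness: `pen` is a convolution with the smooth kernel `moll (· / s)`. -/
theorem pen_contDiff {B s : ℝ} (hs : 0 < s) (S : Set ℂ) : ContDiff ℝ ∞ (pen B S s) := by
  rw [PenB_pen_eq hs]
  have h1 := PenB_contDiff moll_contDiff PenB_moll_supp (PenB_c_cont S s)
  have h2 : ContDiff ℝ ∞ (fun z : ℂ => (0 : ℂ) + ((s⁻¹ : ℝ) : ℂ) * z) := by fun_prop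
  exact contDiff_const.add ((h1.comp h2).const_smul _)

theorem PenB_DD_affine {Q : ℂ → ℝ} (hQ : ContDiff ℝ ∞ Q) (a k : ℝ) (l : List Bool)
    (hl : 1 ≤ l.length) : DD l (fun z => a + k • Q z) = fun z => k • DD l Q z := by
  have hd : ∀ (l : List Bool) (z : ℂ), DifferentiableAt ℝ (DD l Q) z := fun l z =>
    (contDiff_DD hQ l).contDiffAt.differentiableAt (by simp)
  induction l with
  | nil => simp at hl
  | cons b l ih =>
    rcases l with _ | ⟨b', l⟩
    · cases b with
      | true =>
        funext z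
        show Dx (fun z => a + k • Q z) z = k • Dx Q z
        have h1 : DifferentiableAt ℝ (fun z => k • Q z) z := (hd [] z).const_smul k
        rw [Dx_add (differentiableAt_const a) h1, Dx_const, zero_add]
        exact Dx_const_smul k (hd [] z)
      | false =>
        funext z
        show Dy (fun z => a + k • Q z) z = k • Dy Q z
        have h1 : DifferentiableAt ℝ (fun z => k • Q z) z := (hd [] z).const_smul k
        rw [Dy_add (differentiableAt_const a) h1, Dy_const, zero_add]
        exact Dy_const_smul k (hd [] z)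
    · have ih' := ih (by simp)
      cases b with
      | true =>
        rw [DD_true, ih']
        funext z
        exact Dx_const_smul k (hd (b' :: l) z)
      | false =>
        rw [DD_false, ih']
        funext z
        exact Dy_const_smul k (hd (b' :: l) z)

theorem pen_deriv : ∃ C : ℝ, 0 < C ∧ ∀ (B s : ℝ) (S : Set ℂ), 0 ≤ B → 0 < s →
    ∀ l : List Bool, 1 ≤ l.length → l.length ≤ 3 → ∀ z,
      |DD l (pen B S s) z| ≤ C * B / s ^ (2 + l.length) := by
  obtain ⟨C, hC⟩ := ((List.finite_length_le Bool 3).image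
    (fun l => ∫ y : ℂ, |DD l moll y|)).bddAbove
  refine ⟨max C 1, lt_max_of_lt_right one_pos, fun B s S hB hs l hl1 hl3 z => ?_⟩
  have hP := PenB_contDiff moll_contDiff PenB_moll_supp (PenB_c_cont S s)
  have hQ : ContDiff ℝ ∞ (fun z : ℂ =>
      PenB_conv moll (PenB_c S s) (0 + ((s⁻¹ : ℝ) : ℂ) * z)) := by
    have h2 : ContDiff ℝ ∞ (fun z : ℂ => (0 : ℂ) + ((s⁻¹ : ℝ) : ℂ) * z) := by fun_prop
    exact hP.comp h2
  rw [PenB_pen_eq hs, PenB_DD_affine hQ s (B / s ^ 2) l hl1]
  show |(B / s ^ 2) • DD l (fun z => PenB_conv moll (PenB_c S s) (0 + ((s⁻¹ : ℝ) : ℂ) * z)) z| ≤ _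
  rw [DD_comp_affine (PenB_conv moll (PenB_c S s)) 0 s⁻¹ l z,
    PenB_DD moll_contDiff PenB_moll_supp (PenB_c_cont S s)]
  have h3 : |PenB_conv (DD l moll) (PenB_c S s) (0 + ((s⁻¹ : ℝ) : ℂ) * z)| ≤ max C 1 := by
    refine (PenB_abs_le (contDiff_DD moll_contDiff l).continuous (PenB_supp PenB_moll_supp l)
      (fun w => PenB_cut_abs _) _).trans ?_
    exact (hC ⟨l, hl3, rfl⟩).trans (le_max_left _ _)
  rw [smul_eq_mul, smul_eq_mul, abs_mul, abs_mul, abs_of_nonneg (by positivity : 0 ≤ B / s ^ 2),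
    abs_of_nonneg (by positivity : 0 ≤ s⁻¹ ^ l.length)]
  calc B / s ^ 2 * (s⁻¹ ^ l.length *
        |PenB_conv (DD l moll) (PenB_c S s) (0 + ((s⁻¹ : ℝ) : ℂ) * z)|)
      ≤ B / s ^ 2 * (s⁻¹ ^ l.length * max C 1) := by gcongr
    _ = max C 1 * B / s ^ (2 + l.length) := by
        rw [pow_add, inv_pow]
        field_simp

/-- Continuity in the set. -/
theorem pen_cont {B s η : ℝ} (hB : 0 ≤ B) (hs : 0 < s) {S S' : Set ℂ}
    (h : ∀ z, |infDist z S - infDist z S'| ≤ η) (z : ℂ) :
    |pen B S s z - pen B S' s z| ≤ B / s ^ 3 * η := by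
  have hint : ∀ S : Set ℂ, Integrable
      (fun y : ℂ => moll y * cut (Metric.infDist (z - (s : ℂ) * y) S / s)) := by
    intro S
    apply Continuous.integrable_of_hasCompactSupport
    · apply moll_contDiff.continuous.mul
      apply PenB_cut_cont.comp
      apply Continuous.div_const
      exact (continuous_infDist_pt S).comp (by fun_prop)
    · exact PenB_moll_supp.mul_right
  have hm : Integrable moll := moll_contDiff.continuous.integrable_of_hasCompactSupport PenB_moll_supp
  have h1 : ‖∫ y : ℂ, (moll y * cut (Metric.infDist (z - (s : ℂ) * y) S / s) -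
      moll y * cut (Metric.infDist (z - (s : ℂ) * y) S' / s))‖ ≤ ∫ y : ℂ, moll y * (η / s) := by
    apply norm_integral_le_of_norm_le (hm.mul_const _)
    filter_upwards with y
    rw [← mul_sub, norm_mul, Real.norm_of_nonneg (moll_nonneg y)]
    apply mul_le_mul_of_nonneg_left _ (moll_nonneg y)
    refine (cut_lipschitz _ _).trans ?_
    rw [← sub_div, abs_div, abs_of_pos hs]
    exact div_le_div_of_nonneg_right (h _) hs.le
  rw [integral_sub (hint S) (hint S'), integral_mul_const, integral_moll, one_mul] at h1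
  unfold pen
  rw [add_sub_add_left_eq_sub, ← mul_sub, abs_mul, abs_of_nonneg (by positivity : 0 ≤ B / s ^ 2)]
  calc B / s ^ 2 * |(∫ y : ℂ, moll y * cut (Metric.infDist (z - (s : ℂ) * y) S / s)) -
        ∫ y : ℂ, moll y * cut (Metric.infDist (z - (s : ℂ) * y) S' / s)|
      ≤ B / s ^ 2 * (η / s) := by gcongr; exact h1
    _ = B / s ^ 3 * η := by
        field_simp

end Pool.Agent.KK
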