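import Pool.Agent.W_bb4b37_h53.HeatA

/-!
# The heat semigroup on bounded smooth functions of the plane (part B)
-/

set_option autoImplicit false

open Filter Topology Set MeasureTheory Metric
open scoped ContDiff

namespace Pool.Agent.KK

theorem HeatB_gam_nonneg (y : ℂ) : 0 ≤ gam y := by
  unfold gam
  positivity

theorem HeatB_gam_cont : Continuous gam := by
  unfold gam
  fun_prop

theorem HeatB_gam_hasFDerivAt (y : ℂ) :
    HasFDerivAt gam ((-(gam y) / 2) • innerSL ℝ y) y := by
  have h1 : HasFDerivAt (fun x : ℂ => ‖x‖ ^ 2) (2 • (innerSL ℝ y)) y :=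
    (hasStrictFDerivAt_norm_sq y).hasFDerivAt
  have h2 := (((h1.const_mul (1 / 4)).neg).exp).const_mul (1 / (4 * Real.pi))
  have h3 : gam = fun x : ℂ => 1 / (4 * Real.pi) * Real.exp (-(1 / 4 * ‖x‖ ^ 2)) := by
    funext x
    unfold gam
    rw [show -(‖x‖ ^ 2 / 4) = -(1 / 4 * ‖x‖ ^ 2) by ring]
    ring
  rw [h3]
  refine h2.congr_fderiv ?_
  ext v
  simp
  ring

theorem HeatB_gam_fderiv (y v : ℂ) :
    fderiv ℝ gam y v = -(gam y) / 2 * (inner ℝ y v) := by
  rw [(HeatB_gam_hasFDerivAt y).fderiv]
  simp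

theorem HeatB_gam_diff : Differentiable ℝ gam := fun y =>
  (HeatB_gam_hasFDerivAt y).differentiableAt

theorem HeatB_gam_int : Integrable gam := by
  have := integrable_gam_mul 0
  simpa using this

/-- Integration by parts against the Gaussian. -/
theorem HeatB_parts {g : ℂ → ℝ} (hg : ContDiff ℝ 1 g) {M N : ℝ} (hM : ∀ z, |g z| ≤ M) (v : ℂ)
    (hN : ∀ z, |fderiv ℝ g z v| ≤ N) :
    ∫ y, g y * (inner ℝ y v * gam y) = 2 * ∫ y, fderiv ℝ g y v * gam y := by
  have hgc : Continuous g := hg.continuous
  have hgd : Continuous (fun y => fderiv ℝ g y v) := by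
    have := hg.continuous_fderiv (by norm_num)
    exact this.clm_apply continuous_const
  have hi1 : Integrable (fun y => fderiv ℝ g y v * gam y) :=
    HeatB_gam_int.bdd_mul (c := N) hgd.aestronglyMeasurable
      (Eventually.of_forall fun z => by rw [Real.norm_eq_abs]; exact hN z)
  have hi2 : Integrable (fun y => g y * gam y) :=
    HeatB_gam_int.bdd_mul (c := M) hgc.aestronglyMeasurable
      (Eventually.of_forall fun z => by rw [Real.norm_eq_abs]; exact hM z)
  have hi3 : Integrable (fun y => inner ℝ y v * gam y) := by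
    have h1 := (integrable_gam_mul 1).const_mul ‖v‖
    refine h1.mono' ?_ (Eventually.of_forall fun y => ?_)
    · have : Continuous (fun y : ℂ => inner ℝ y v * gam y) :=
        (continuous_id.inner continuous_const).mul HeatB_gam_cont
      exact this.aestronglyMeasurable
    · rw [norm_mul, Real.norm_eq_abs (gam y), abs_of_nonneg (HeatB_gam_nonneg y), pow_one,
        ← mul_assoc]
      refine mul_le_mul_of_nonneg_right ?_ (HeatB_gam_nonneg y)
      rw [mul_comm]
      exact norm_inner_le_norm y v
  have hi4 : Integrable (fun y => g y * (inner ℝ y v * gam y)) :=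
    hi3.bdd_mul (c := M) hgc.aestronglyMeasurable
      (Eventually.of_forall fun z => by rw [Real.norm_eq_abs]; exact hM z)
  have key := integral_mul_fderiv_eq_neg_fderiv_mul_of_integrable (μ := (volume : Measure ℂ))
    (f := g) (g := gam) (v := v) hi1 (by
      have : (fun x => g x * fderiv ℝ gam x v) =
          fun y => (-(1 / 2 : ℝ)) * (g y * (inner ℝ y v * gam y)) := by
        funext y
        rw [HeatB_gam_fderiv]
        ring
      rw [this]
      exact hi4.const_mul _) hi2
    (fun x _ => (hg.differentiable (by norm_num)) x) (fun x _ => HeatB_gam_diff x)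
  have h5 : (fun x => g x * fderiv ℝ gam x v) =
      fun y => (-(1 / 2 : ℝ)) * (g y * (inner ℝ y v * gam y)) := by
    funext y
    rw [HeatB_gam_fderiv]
    ring
  rw [h5, integral_const_mul] at key
  linarith

theorem HeatB_bdd {f : ℂ → ℝ} (hf : BCinf f) (l : List Bool) :
    ∃ B : ℝ, ∀ z, |DD l f z| ≤ B := by
  obtain ⟨B, hB⟩ := (BCinf_iff.1 hf).2 l
  exact ⟨B, fun z => by simpa [Real.norm_eq_abs] using hB z⟩

/-- The affine substitution. -/
theorem HeatB_fderiv_affine {f : ℂ → ℝ} (hf : Differentiable ℝ f) (z : ℂ) (r : ℝ) (y v : ℂ) :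
    fderiv ℝ (fun y : ℂ => f (z + (r : ℂ) * y)) y v =
      r * fderiv ℝ f (z + (r : ℂ) * y) v := by
  have h1 : HasFDerivAt (fun y : ℂ => z + (r : ℂ) * y)
      ((r : ℝ) • ContinuousLinearMap.id ℝ ℂ) y := by
    have h2 : HasFDerivAt (fun y : ℂ => r • y) ((r : ℝ) • ContinuousLinearMap.id ℝ ℂ) y :=
      (hasFDerivAt_id y).const_smul r
    have h3 := h2.const_add z
    refine h3.congr_of_eventuallyEq (Eventually.of_forall fun y => ?_)
    simp
  have h4 := (hf (z + (r : ℂ) * y)).hasFDerivAt.comp y h1
  have h5 : fderiv ℝ (fun y : ℂ => f (z + (r : ℂ) * y)) y = _ := h4.fderiv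
  rw [h5]
  simp

/-- `d/dσ heat σ f = heat σ (Δ f)` for `σ > 0`. Proof: differentiate under the integral,
`d/dσ f (z + √σ y) = (∇f (z + √σ y) · y) / (2 √σ)`; since `y γ(y) = - 2 ∇γ(y)`, integration by
parts gives `∫ Δf (z + √σ y) γ(y) dy`. -/
theorem hasDerivAt_heat {f : ℂ → ℝ} (hf : BCinf f) {σ : ℝ} (hσ : 0 < σ) (z : ℂ) :
    HasDerivAt (fun t => heat t f z) (heat σ (Lap f) z) σ := by
  have hc : ContDiff ℝ ∞ f := hf.1
  have hfd : Differentiable ℝ f := hc.differentiable (by simp)
  obtain ⟨M, hM⟩ := HeatB_bdd hf []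
  obtain ⟨A1, hA1⟩ := HeatB_bdd hf [true]
  obtain ⟨A2, hA2⟩ := HeatB_bdd hf [false]
  obtain ⟨A3, hA3⟩ := HeatB_bdd hf [true, true]
  obtain ⟨A4, hA4⟩ := HeatB_bdd hf [false, false]
  simp only [DD_nil, DD_true, DD_false] at hM hA1 hA2 hA3 hA4
  have hA1' : 0 ≤ A1 := (abs_nonneg _).trans (hA1 0)
  have hA2' : 0 ≤ A2 := (abs_nonneg _).trans (hA2 0)
  have hDx : ContDiff ℝ ∞ (Dx f) := contDiff_DD hc [true]
  have hDy : ContDiff ℝ ∞ (Dy f) := contDiff_DD hc [false]
  have hfdc : Continuous (fderiv ℝ f) := hc.continuous_fderiv (by simp)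
  -- the differentiation under the integral
  have hkey := hasDerivAt_integral_of_dominated_loc_of_deriv_le (𝕜 := ℝ)
    (μ := (volume : Measure ℂ)) (x₀ := σ) (s := Ioi (σ / 2))
    (F := fun t y => f (z + (Real.sqrt t : ℂ) * y) * gam y)
    (F' := fun t y => (1 / (2 * Real.sqrt t)) * fderiv ℝ f (z + (Real.sqrt t : ℂ) * y) y * gam y)
    (bound := fun y => (1 / (2 * Real.sqrt (σ / 2)) * (A1 + A2)) * (‖y‖ ^ 1 * gam y))
    (Ioi_mem_nhds (by linarith))
    (Eventually.of_forall fun t => by
      have : Continuous (fun y : ℂ => f (z + (Real.sqrt t : ℂ) * y) * gam y) :=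
        (hc.continuous.comp (by fun_prop)).mul HeatB_gam_cont
      exact this.aestronglyMeasurable)
    (HeatB_gam_int.bdd_mul (c := M)
      (hc.continuous.comp (by fun_prop)).aestronglyMeasurable
      (Eventually.of_forall fun y => by rw [Real.norm_eq_abs]; exact hM _))
    (by
      have : Continuous (fun y : ℂ => (1 / (2 * Real.sqrt σ)) *
          fderiv ℝ f (z + (Real.sqrt σ : ℂ) * y) y * gam y) := by
        refine (continuous_const.mul ?_).mul HeatB_gam_cont
        exact (hfdc.comp (by fun_prop)).clm_apply continuous_id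
      exact this.aestronglyMeasurable)
    (Eventually.of_forall fun y t ht => by
      have ht' : σ / 2 < t := ht
      have hs1 : 0 < Real.sqrt (σ / 2) := Real.sqrt_pos.2 (by linarith)
      have hs2 : Real.sqrt (σ / 2) ≤ Real.sqrt t := Real.sqrt_le_sqrt ht'.le
      have hs3 : 0 < Real.sqrt t := hs1.trans_le hs2
      rw [norm_mul, norm_mul, Real.norm_eq_abs (gam y), abs_of_nonneg (HeatB_gam_nonneg y),
        Real.norm_eq_abs, Real.norm_eq_abs, abs_of_pos (by positivity), pow_one, ← mul_assoc]
      refine mul_le_mul_of_nonneg_right ?_ (HeatB_gam_nonneg y)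
      rw [mul_assoc]
      refine mul_le_mul ?_ ?_ (abs_nonneg _) (by positivity)
      · exact one_div_le_one_div_of_le (by positivity) (by linarith)
      · rw [fderiv_eq]
        simp only [smul_eq_mul]
        calc |y.re * Dx f (z + (Real.sqrt t : ℂ) * y) + y.im * Dy f (z + (Real.sqrt t : ℂ) * y)|
            ≤ |y.re * Dx f (z + (Real.sqrt t : ℂ) * y)| +
              |y.im * Dy f (z + (Real.sqrt t : ℂ) * y)| := abs_add_le _ _
          _ ≤ ‖y‖ * A1 + ‖y‖ * A2 := by
              rw [abs_mul, abs_mul]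
              exact add_le_add
                (mul_le_mul (Complex.abs_re_le_norm y) (hA1 _) (abs_nonneg _) (norm_nonneg _))
                (mul_le_mul (Complex.abs_im_le_norm y) (hA2 _) (abs_nonneg _) (norm_nonneg _))
          _ = (A1 + A2) * ‖y‖ := by ring)
    ((integrable_gam_mul 1).const_mul _)
    (Eventually.of_forall fun y t ht => by
      have ht' : σ / 2 < t := ht
      have htp : 0 < t := by linarith
      have h1 : HasDerivAt (fun s : ℝ => z + (Real.sqrt s : ℂ) * y)
          (((1 / (2 * Real.sqrt t) : ℝ) : ℂ) * y) t := by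
        have h2 := (Real.hasDerivAt_sqrt htp.ne').ofReal_comp
        exact (h2.mul_const y).const_add z
      have h3 := (hfd (z + (Real.sqrt t : ℂ) * y)).hasFDerivAt.comp_hasDerivAt t h1
      have h4 : fderiv ℝ f (z + (Real.sqrt t : ℂ) * y) (((1 / (2 * Real.sqrt t) : ℝ) : ℂ) * y) =
          (1 / (2 * Real.sqrt t)) * fderiv ℝ f (z + (Real.sqrt t : ℂ) * y) y := by
        rw [← Complex.real_smul (x := 1 / (2 * Real.sqrt t)), map_smul, smul_eq_mul]
      rw [h4] at h3
      exact h3.mul_const (gam y))
  -- the integration by parts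
  have hs : 0 < Real.sqrt σ := Real.sqrt_pos.2 hσ
  have hx := HeatB_parts (g := fun y => Dx f (z + (Real.sqrt σ : ℂ) * y))
    (M := A1) (N := Real.sqrt σ * A3)
    ((hDx.comp (contDiff_const.add (contDiff_const.mul contDiff_id))).of_le (by simp))
    (fun w => hA1 _) 1 (fun w => by
      rw [HeatB_fderiv_affine (hDx.differentiable (by simp)), abs_mul, abs_of_pos hs]
      exact mul_le_mul_of_nonneg_left (hA3 _) hs.le)
  have hy := HeatB_parts (g := fun y => Dy f (z + (Real.sqrt σ : ℂ) * y))
    (M := A2) (N := Real.sqrt σ * A4)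
    ((hDy.comp (contDiff_const.add (contDiff_const.mul contDiff_id))).of_le (by simp))
    (fun w => hA2 _) Complex.I (fun w => by
      rw [HeatB_fderiv_affine (hDy.differentiable (by simp)), abs_mul, abs_of_pos hs]
      exact mul_le_mul_of_nonneg_left (hA4 _) hs.le)
  have hlap : heat σ (Lap f) z = ∫ y, (1 / (2 * Real.sqrt σ)) *
      fderiv ℝ f (z + (Real.sqrt σ : ℂ) * y) y * gam y := by
    have hix : Integrable (fun y : ℂ =>
        Dx f (z + (Real.sqrt σ : ℂ) * y) * (inner ℝ y 1 * gam y)) := by
      refine ((integrable_gam_mul 1).const_mul A1).mono' ?_ (Eventually.of_forall fun y => ?_)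
      · have : Continuous (fun y : ℂ =>
            Dx f (z + (Real.sqrt σ : ℂ) * y) * (inner ℝ y 1 * gam y)) :=
          (hDx.continuous.comp (by fun_prop)).mul
            ((continuous_id.inner continuous_const).mul HeatB_gam_cont)
        exact this.aestronglyMeasurable
      · rw [norm_mul, norm_mul, Real.norm_eq_abs (gam y), abs_of_nonneg (HeatB_gam_nonneg y),
          pow_one, Real.norm_eq_abs]
        have : ‖(inner ℝ y (1 : ℂ) : ℝ)‖ ≤ ‖y‖ := by
          simpa using norm_inner_le_norm (𝕜 := ℝ) y (1 : ℂ)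
        exact mul_le_mul (hA1 _) (mul_le_mul_of_nonneg_right this (HeatB_gam_nonneg y))
          (mul_nonneg (norm_nonneg _) (HeatB_gam_nonneg y)) hA1'
    have hiy : Integrable (fun y : ℂ =>
        Dy f (z + (Real.sqrt σ : ℂ) * y) * (inner ℝ y Complex.I * gam y)) := by
      refine ((integrable_gam_mul 1).const_mul A2).mono' ?_ (Eventually.of_forall fun y => ?_)
      · have : Continuous (fun y : ℂ =>
            Dy f (z + (Real.sqrt σ : ℂ) * y) * (inner ℝ y Complex.I * gam y)) :=
          (hDy.continuous.comp (by fun_prop)).mul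
            ((continuous_id.inner continuous_const).mul HeatB_gam_cont)
        exact this.aestronglyMeasurable
      · rw [norm_mul, norm_mul, Real.norm_eq_abs (gam y), abs_of_nonneg (HeatB_gam_nonneg y),
          pow_one, Real.norm_eq_abs]
        have : ‖(inner ℝ y Complex.I : ℝ)‖ ≤ ‖y‖ := by
          simpa using norm_inner_le_norm (𝕜 := ℝ) y Complex.I
        exact mul_le_mul (hA2 _) (mul_le_mul_of_nonneg_right this (HeatB_gam_nonneg y))
          (mul_nonneg (norm_nonneg _) (HeatB_gam_nonneg y)) hA2'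
    have hjx : Integrable (fun y : ℂ => Dx (Dx f) (z + (Real.sqrt σ : ℂ) * y) * gam y) :=
      HeatB_gam_int.bdd_mul (c := A3)
        ((contDiff_DD hc [true, true]).continuous.comp (by fun_prop)).aestronglyMeasurable
        (Eventually.of_forall fun y => by rw [Real.norm_eq_abs]; exact hA3 _)
    have hjy : Integrable (fun y : ℂ => Dy (Dy f) (z + (Real.sqrt σ : ℂ) * y) * gam y) :=
      HeatB_gam_int.bdd_mul (c := A4)
        ((contDiff_DD hc [false, false]).continuous.comp (by fun_prop)).aestronglyMeasurable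
        (Eventually.of_forall fun y => by rw [Real.norm_eq_abs]; exact hA4 _)
    have hx' : ∫ y, Dx f (z + (Real.sqrt σ : ℂ) * y) * (inner ℝ y 1 * gam y) =
        2 * (Real.sqrt σ * ∫ y, Dx (Dx f) (z + (Real.sqrt σ : ℂ) * y) * gam y) := by
      rw [hx, ← integral_const_mul (Real.sqrt σ)]
      congr 1
      refine integral_congr_ae (Eventually.of_forall fun y => ?_)
      simp only
      rw [HeatB_fderiv_affine (hDx.differentiable (by simp))]
      simp only [Dx]
      ring
    have hy' : ∫ y, Dy f (z + (Real.sqrt σ : ℂ) * y) * (inner ℝ y Complex.I * gam y) =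
        2 * (Real.sqrt σ * ∫ y, Dy (Dy f) (z + (Real.sqrt σ : ℂ) * y) * gam y) := by
      rw [hy, ← integral_const_mul (Real.sqrt σ)]
      congr 1
      refine integral_congr_ae (Eventually.of_forall fun y => ?_)
      simp only
      rw [HeatB_fderiv_affine (hDy.differentiable (by simp))]
      simp only [Dy]
      ring
    have hL : heat σ (Lap f) z =
        (∫ y, Dx (Dx f) (z + (Real.sqrt σ : ℂ) * y) * gam y) +
          ∫ y, Dy (Dy f) (z + (Real.sqrt σ : ℂ) * y) * gam y := by
      rw [← integral_add hjx hjy]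
      unfold heat
      refine integral_congr_ae (Eventually.of_forall fun y => ?_)
      simp only [Lap]
      ring
    have hR : (∫ y, (1 / (2 * Real.sqrt σ)) *
        fderiv ℝ f (z + (Real.sqrt σ : ℂ) * y) y * gam y) =
        (1 / (2 * Real.sqrt σ)) *
          ((∫ y, Dx f (z + (Real.sqrt σ : ℂ) * y) * (inner ℝ y 1 * gam y)) +
            ∫ y, Dy f (z + (Real.sqrt σ : ℂ) * y) * (inner ℝ y Complex.I * gam y)) := by
      rw [← integral_add hix hiy, ← integral_const_mul]
      refine integral_congr_ae (Eventually.of_forall fun y => ?_)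
      simp only
      rw [fderiv_eq]
      have e1 : (inner ℝ y (1 : ℂ) : ℝ) = y.re := by
        simp [Complex.inner]
      have e2 : (inner ℝ y Complex.I : ℝ) = y.im := by
        simp [Complex.inner]
      rw [e1, e2]
      simp only [smul_eq_mul]
      ring
    rw [hL, hR, hx', hy']
    field_simp
  rw [hlap]
  exact hkey.2

/-- `σ ↦ heat σ f z` is continuous on `[0, ∞)`. -/
theorem continuousOn_heat {f : ℂ → ℝ} (hf : BCinf f) (z : ℂ) :
    ContinuousOn (fun t => heat t f z) (Ici 0) := by
  refine Continuous.continuousOn ?_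
  obtain ⟨M, hM⟩ := HeatB_bdd hf []
  simp only [DD_nil] at hM
  refine continuous_of_dominated (bound := fun y => M * gam y)
    (fun t => ?_) (fun t => Eventually.of_forall fun y => ?_) (HeatB_gam_int.const_mul M)
    (Eventually.of_forall fun y => ?_)
  · have : Continuous (fun y : ℂ => f (z + (Real.sqrt t : ℂ) * y) * gam y) :=
      (hf.1.continuous.comp (by fun_prop)).mul HeatB_gam_cont
    exact this.aestronglyMeasurable
  · rw [norm_mul, Real.norm_eq_abs, Real.norm_eq_abs (gam y),
      abs_of_nonneg (HeatB_gam_nonneg y)]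
    exact mul_le_mul_of_nonneg_right (hM _) (HeatB_gam_nonneg y)
  · exact (hf.1.continuous.comp (by fun_prop)).mul continuous_const

end Pool.Agent.KK
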