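import Pool.Agent.W_bb4b37_h53.CalcD

/-!
# The heat semigroup on bounded smooth functions of the plane

`heat σ f z = ∫ f (z + √σ y) γ(y) dy` with the Gaussian `γ(y) = e^{-|y|²/4} / (4π)`.
-/

set_option autoImplicit false

open Filter Topology Set MeasureTheory Metric
open scoped ContDiff

namespace Pool.Agent.KK

/-- The Gaussian `e^{-|y|²/4} / (4π)` on the plane. -/
noncomputable def gam (y : ℂ) : ℝ := Real.exp (-(‖y‖ ^ 2 / 4)) / (4 * Real.pi)

/-- The heat semigroup. -/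
noncomputable def heat (σ : ℝ) (f : ℂ → ℝ) (z : ℂ) : ℝ :=
  ∫ y : ℂ, f (z + (Real.sqrt σ : ℂ) * y) * gam y

theorem HeatA_gauss {b : ℝ} (hb : 0 < b) :
    ∫ v : ℂ, Real.exp (-b * ‖v‖ ^ 2) = Real.pi / b := by
  rw [GaussianFourier.integral_rexp_neg_mul_sq_norm hb, Complex.finrank_real_complex]
  norm_num

theorem HeatA_gauss_int {b : ℝ} (hb : 0 < b) :
    Integrable (fun v : ℂ => Real.exp (-b * ‖v‖ ^ 2)) := by
  apply Integrable.of_integral_ne_zero
  rw [HeatA_gauss hb]
  positivity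

theorem HeatA_gam_eq : gam = fun y => Real.exp (-(1 / 4) * ‖y‖ ^ 2) * (1 / (4 * Real.pi)) := by
  funext y
  unfold gam
  rw [mul_one_div]
  congr 2
  ring

theorem HeatA_gam_nonneg (y : ℂ) : 0 ≤ gam y := by
  unfold gam
  positivity

theorem HeatA_gam_cont : Continuous gam := by
  unfold gam
  fun_prop

theorem integral_gam : ∫ y : ℂ, gam y = 1 := by
  rw [HeatA_gam_eq, integral_mul_const, HeatA_gauss (by norm_num)]
  have := Real.pi_pos.ne'
  field_simp

theorem HeatA_gam_int : Integrable gam := by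
  rw [HeatA_gam_eq]
  exact (HeatA_gauss_int (by norm_num)).mul_const _

theorem integrable_gam_mul (n : ℕ) : Integrable (fun y : ℂ => ‖y‖ ^ n * gam y) := by
  have h1 : ∀ t : ℝ, 0 ≤ t → t ^ n ≤ (1 + 8 ^ n * n.factorial) * Real.exp (t ^ 2 / 8) := by
    intro t ht
    have h2 := Real.pow_div_factorial_le_exp (t ^ 2 / 8) (by positivity) n
    have h3 : t ^ n ≤ 1 + (t ^ 2) ^ n := by
      rw [← pow_mul, mul_comm, pow_mul]
      nlinarith [sq_nonneg (t ^ n - 1), sq_nonneg (t ^ n), pow_nonneg ht n]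
    have h4 : (t ^ 2) ^ n ≤ 8 ^ n * n.factorial * Real.exp (t ^ 2 / 8) := by
      rw [div_le_iff₀ (by positivity), div_pow, div_le_iff₀ (by positivity)] at h2
      calc (t ^ 2) ^ n ≤ Real.exp (t ^ 2 / 8) * n.factorial * 8 ^ n := h2
        _ = _ := by ring
    have h5 : 1 ≤ Real.exp (t ^ 2 / 8) := Real.one_le_exp (by positivity)
    calc t ^ n ≤ 1 + (t ^ 2) ^ n := h3
      _ ≤ Real.exp (t ^ 2 / 8) + 8 ^ n * n.factorial * Real.exp (t ^ 2 / 8) := add_le_add h5 h4
      _ = _ := by ring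
  have h6 : Integrable (fun y : ℂ => ((1 + 8 ^ n * n.factorial) * (1 / (4 * Real.pi))) *
      Real.exp (-(1 / 8) * ‖y‖ ^ 2)) := (HeatA_gauss_int (by norm_num)).const_mul _
  refine h6.mono' ?_ ?_
  · exact ((continuous_norm.pow n).mul HeatA_gam_cont).aestronglyMeasurable
  · filter_upwards with y
    have h7 : 0 ≤ ‖y‖ ^ n * gam y := mul_nonneg (by positivity) (HeatA_gam_nonneg y)
    rw [Real.norm_of_nonneg h7]
    have h8 := h1 ‖y‖ (norm_nonneg _)
    calc ‖y‖ ^ n * gam y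
        ≤ ((1 + 8 ^ n * n.factorial) * Real.exp (‖y‖ ^ 2 / 8)) * gam y :=
          mul_le_mul_of_nonneg_right h8 (HeatA_gam_nonneg y)
      _ = ((1 + 8 ^ n * n.factorial) * (1 / (4 * Real.pi))) *
          (Real.exp (‖y‖ ^ 2 / 8) * Real.exp (-(1 / 4) * ‖y‖ ^ 2)) := by
          rw [HeatA_gam_eq]
          ring
      _ = _ := by
          rw [← Real.exp_add]
          congr 2
          ring

theorem heat_zero {f : ℂ → ℝ} (hf : Continuous f) (z : ℂ) : heat 0 f z = f z := by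
  unfold heat
  rw [Real.sqrt_zero]
  simp only [Complex.ofReal_zero, zero_mul, add_zero]
  rw [integral_const_mul, integral_gam, mul_one]

theorem heat_abs_le {f : ℂ → ℝ} {M : ℝ} (hM : ∀ z, |f z| ≤ M) (σ : ℝ) (z : ℂ) :
    |heat σ f z| ≤ M := by
  have h1 : ‖∫ y : ℂ, f (z + (Real.sqrt σ : ℂ) * y) * gam y‖ ≤ ∫ y : ℂ, M * gam y := by
    apply norm_integral_le_of_norm_le (HeatA_gam_int.const_mul M)
    filter_upwards with y
    rw [norm_mul, Real.norm_of_nonneg (HeatA_gam_nonneg y)]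
    exact mul_le_mul_of_nonneg_right (hM _) (HeatA_gam_nonneg y)
  rw [integral_const_mul, integral_gam, mul_one] at h1
  exact h1

theorem HeatA_diff {f : ℂ → ℝ} (hf : BCinf f) (z : ℂ) : HasFDerivAt f (fderiv ℝ f z) z :=
  (hf.1.contDiffAt.differentiableAt (by simp)).hasFDerivAt

theorem HeatA_bound {f : ℂ → ℝ} (hf : BCinf f) : ∃ B : ℝ, ∀ z, ‖fderiv ℝ f z‖ ≤ B := by
  obtain ⟨B, hB⟩ := hf.2 1
  exact ⟨B, fun z => by rw [← norm_iteratedFDeriv_one]; exact hB z⟩

theorem HeatA_bound0 {f : ℂ → ℝ} (hf : BCinf f) : ∃ B : ℝ, ∀ z, |f z| ≤ B := by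
  obtain ⟨B, hB⟩ := hf.2 0
  exact ⟨B, fun z => by
    have := hB z
    rwa [norm_iteratedFDeriv_zero] at this⟩

theorem HeatA_int_fderiv {f : ℂ → ℝ} (hf : BCinf f) (σ : ℝ) (z : ℂ) :
    Integrable (fun y : ℂ => gam y • fderiv ℝ f (z + (Real.sqrt σ : ℂ) * y)) := by
  obtain ⟨B, hB⟩ := HeatA_bound hf
  refine (HeatA_gam_int.mul_const B).mono' ?_ ?_
  · have hc : Continuous (fderiv ℝ f) := hf.1.continuous_fderiv (by simp)
    have : Continuous (fun y : ℂ => gam y • fderiv ℝ f (z + (Real.sqrt σ : ℂ) * y)) :=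
      HeatA_gam_cont.smul (hc.comp (by fun_prop))
    exact this.aestronglyMeasurable
  · filter_upwards with y
    rw [norm_smul, Real.norm_of_nonneg (HeatA_gam_nonneg y)]
    exact mul_le_mul_of_nonneg_left (hB _) (HeatA_gam_nonneg y)

theorem HeatA_hasFDerivAt {f : ℂ → ℝ} (hf : BCinf f) (σ : ℝ) (z : ℂ) :
    HasFDerivAt (heat σ f) (∫ y : ℂ, gam y • fderiv ℝ f (z + (Real.sqrt σ : ℂ) * y)) z := by
  obtain ⟨B, hB⟩ := HeatA_bound hf
  obtain ⟨B0, hB0⟩ := HeatA_bound0 hf
  have hcf : Continuous f := hf.1.continuous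
  have hcF : ∀ x : ℂ, Continuous (fun y : ℂ => f (x + (Real.sqrt σ : ℂ) * y) * gam y) := by
    intro x
    exact (hcf.comp (by fun_prop)).mul HeatA_gam_cont
  apply hasFDerivAt_integral_of_dominated_of_fderiv_le (𝕜 := ℝ) (s := univ)
    (F := fun x y => f (x + (Real.sqrt σ : ℂ) * y) * gam y)
    (F' := fun x y => gam y • fderiv ℝ f (x + (Real.sqrt σ : ℂ) * y))
    (bound := fun y => gam y * B) univ_mem
  · filter_upwards with x
    exact (hcF x).aestronglyMeasurable
  · refine (HeatA_gam_int.const_mul B0).mono' (hcF z).aestronglyMeasurable ?_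
    filter_upwards with y
    rw [norm_mul, Real.norm_of_nonneg (HeatA_gam_nonneg y)]
    exact mul_le_mul_of_nonneg_right (hB0 _) (HeatA_gam_nonneg y)
  · exact (HeatA_int_fderiv hf σ z).aestronglyMeasurable
  · filter_upwards with y x _
    rw [norm_smul, Real.norm_of_nonneg (HeatA_gam_nonneg y)]
    exact mul_le_mul_of_nonneg_left (hB _) (HeatA_gam_nonneg y)
  · exact HeatA_gam_int.mul_const B
  · filter_upwards with y x _
    have h1 := (HeatA_diff hf (x + (Real.sqrt σ : ℂ) * y)).comp x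
      ((hasFDerivAt_id x).add_const ((Real.sqrt σ : ℂ) * y))
    have h2 := h1.mul_const (gam y)
    exact h2

theorem HeatA_Dx {f : ℂ → ℝ} (hf : BCinf f) (σ : ℝ) : Dx (heat σ f) = heat σ (Dx f) := by
  funext z
  have h1 : Dx (heat σ f) z =
      (∫ y : ℂ, gam y • fderiv ℝ f (z + (Real.sqrt σ : ℂ) * y)) 1 := by
    show fderiv ℝ (heat σ f) z 1 = _
    rw [(HeatA_hasFDerivAt hf σ z).fderiv]
  rw [h1, ContinuousLinearMap.integral_apply (HeatA_int_fderiv hf σ z)]
  unfold heat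
  congr 1
  funext y
  rw [smul_apply, smul_eq_mul, mul_comm]
  rfl

theorem HeatA_Dy {f : ℂ → ℝ} (hf : BCinf f) (σ : ℝ) : Dy (heat σ f) = heat σ (Dy f) := by
  funext z
  have h1 : Dy (heat σ f) z =
      (∫ y : ℂ, gam y • fderiv ℝ f (z + (Real.sqrt σ : ℂ) * y)) Complex.I := by
    show fderiv ℝ (heat σ f) z Complex.I = _
    rw [(HeatA_hasFDerivAt hf σ z).fderiv]
  rw [h1, ContinuousLinearMap.integral_apply (HeatA_int_fderiv hf σ z)]
  unfold heat
  congr 1
  funext y
  rw [smul_apply, smul_eq_mul, mul_comm]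
  rfl

theorem HeatA_DD {f : ℂ → ℝ} (hf : BCinf f) (σ : ℝ) (l : List Bool) :
    DD l (heat σ f) = heat σ (DD l f) := by
  induction l with
  | nil => rfl
  | cons b l ih =>
    cases b with
    | true => rw [DD_true, DD_true, ih, HeatA_Dx (bcinf_DD hf l)]
    | false => rw [DD_false, DD_false, ih, HeatA_Dy (bcinf_DD hf l)]

theorem HeatA_contDiff (n : ℕ) : ∀ {f : ℂ → ℝ}, BCinf f → ∀ σ : ℝ, ContDiff ℝ n (heat σ f) := by
  induction n with
  | zero =>
    intro f hf σ
    have : Differentiable ℝ (heat σ f) := fun z => (HeatA_hasFDerivAt hf σ z).differentiableAt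
    exact contDiff_zero.2 this.continuous
  | succ n ih =>
    intro f hf σ
    have hd : Differentiable ℝ (heat σ f) := fun z => (HeatA_hasFDerivAt hf σ z).differentiableAt
    have hx := ih (bcinf_DD hf [true]) σ
    have hy := ih (bcinf_DD hf [false]) σ
    have hfd : fderiv ℝ (heat σ f) = fun z => heat σ (Dx f) z • Complex.reCLM +
        heat σ (Dy f) z • Complex.imCLM := by
      funext z
      apply ContinuousLinearMap.ext
      intro v
      rw [fderiv_eq, HeatA_Dx hf, HeatA_Dy hf]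
      simp only [add_apply, smul_apply, Complex.reCLM_apply, Complex.imCLM_apply, smul_eq_mul]
      ring
    have h1 : ContDiff ℝ n (fderiv ℝ (heat σ f)) := by
      rw [hfd]
      exact (hx.smul contDiff_const).add (hy.smul contDiff_const)
    have h2 : ContDiff ℝ ((n : WithTop ℕ∞) + 1) (heat σ f) := by
      rw [contDiff_succ_iff_fderiv]
      exact ⟨hd, by simp, h1⟩
    exact_mod_cast h2

/-- The heat semigroup preserves `BCinf` and commutes with derivatives (differentiation under the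
integral sign). -/
theorem heat_bcinf {f : ℂ → ℝ} (hf : BCinf f) (σ : ℝ) : BCinf (heat σ f) := by
  rw [BCinf_iff]
  refine ⟨contDiff_infty.2 fun n => HeatA_contDiff n hf σ, fun l => ?_⟩
  obtain ⟨B, hB⟩ := HeatA_bound0 (bcinf_DD hf l)
  refine ⟨B, fun z => ?_⟩
  rw [HeatA_DD hf]
  exact heat_abs_le hB σ z

theorem DD_heat {f : ℂ → ℝ} (hf : BCinf f) (σ : ℝ) (l : List Bool) (z : ℂ) :
    DD l (heat σ f) z = heat σ (DD l f) z := by
  rw [HeatA_DD hf]

theorem heat_per {a : ℝ} {f : ℂ → ℝ} (hf : Per a f) (σ : ℝ) : Per a (heat σ f) := by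
  intro z v hv
  unfold heat
  congr 1
  funext y
  have h1 : z + v + (Real.sqrt σ : ℂ) * y = z + (Real.sqrt σ : ℂ) * y + v := by ring
  rw [h1, hf _ v hv]

end Pool.Agent.KK
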