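import Pool.Agent.W_bb4b37_h53.CalcC
import Pool.Agent.W_bb4b37_h53.HeatA

/-!
# The heat semigroup on bounded smooth functions of the plane (part C)
-/

set_option autoImplicit false

open Filter Topology Set MeasureTheory Metric
open scoped ContDiff

namespace Pool.Agent.KK

/-- monomials times the Gaussian -/
noncomputable def HeatC_F (p q : ℕ) (y : ℂ) : ℝ := y.re ^ p * y.im ^ q * gam y

theorem HeatC_gam (y : ℂ) : HasFDerivAt gam
    (-(y.re / 2 * gam y) • Complex.reCLM + (-(y.im / 2 * gam y)) • Complex.imCLM) y := by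
  have h0 : gam = fun y : ℂ => Real.exp (-((y.re ^ 2 + y.im ^ 2) / 4)) / (4 * Real.pi) := by
    funext y
    rw [gam, Complex.sq_norm, Complex.normSq_apply]
    congr 3
    ring
  have hr : HasFDerivAt (fun y : ℂ => y.re) Complex.reCLM y := Complex.reCLM.hasFDerivAt
  have hi : HasFDerivAt (fun y : ℂ => y.im) Complex.imCLM y := Complex.imCLM.hasFDerivAt
  have h1 : HasFDerivAt (fun y : ℂ => -((y.re ^ 2 + y.im ^ 2) / 4))
      (-((4 : ℝ)⁻¹ • ((2 * y.re) • Complex.reCLM + (2 * y.im) • Complex.imCLM))) y := by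
    have h2 := ((hr.pow 2).add (hi.pow 2)).const_mul (4 : ℝ)⁻¹
    have h3 := h2.neg
    refine (h3.congr_fderiv ?_).congr_of_eventuallyEq (Eventually.of_forall fun x => ?_)
    · ext v
      simp
    · simp only [Pi.neg_apply, Pi.add_apply]
      ring
  have h4 := h1.exp.mul_const (4 * Real.pi)⁻¹
  rw [h0]
  refine (h4.congr_fderiv ?_).congr_of_eventuallyEq (Eventually.of_forall fun x => ?_)
  · ext v
    simp
    ring
  · simp only [div_eq_mul_inv]

theorem HeatC_der (p q : ℕ) (y : ℂ) : HasFDerivAt (HeatC_F p q)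
    ((p * HeatC_F (p - 1) q y - HeatC_F (p + 1) q y / 2) • Complex.reCLM +
      (q * HeatC_F p (q - 1) y - HeatC_F p (q + 1) y / 2) • Complex.imCLM) y := by
  have hr : HasFDerivAt (fun y : ℂ => y.re) Complex.reCLM y := Complex.reCLM.hasFDerivAt
  have hi : HasFDerivAt (fun y : ℂ => y.im) Complex.imCLM y := Complex.imCLM.hasFDerivAt
  have h1 := ((hr.pow p).mul (hi.pow q)).mul (HeatC_gam y)
  refine h1.congr_fderiv ?_
  ext v
  simp [HeatC_F]
  ring

theorem HeatC_cont (p q : ℕ) : Continuous (HeatC_F p q) :=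
  continuous_iff_continuousAt.2 fun y => (HeatC_der p q y).continuousAt

theorem HeatC_gam_nonneg (y : ℂ) : 0 ≤ gam y := by
  unfold gam
  positivity

theorem HeatC_int (p q m : ℕ) : Integrable (fun y : ℂ => ‖y‖ ^ m * HeatC_F p q y) := by
  refine (integrable_gam_mul (m + p + q)).mono' ?_ ?_
  · exact ((continuous_norm.pow m).mul (HeatC_cont p q)).aestronglyMeasurable
  · refine Eventually.of_forall fun y => ?_
    rw [HeatC_F, Real.norm_eq_abs, abs_mul, abs_mul, abs_mul, abs_pow, abs_pow, abs_pow,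
      abs_of_nonneg (HeatC_gam_nonneg y), abs_of_nonneg (norm_nonneg y)]
    have h1 : |y.re| ^ p ≤ ‖y‖ ^ p := pow_le_pow_left₀ (abs_nonneg _) (Complex.abs_re_le_norm y) p
    have h2 : |y.im| ^ q ≤ ‖y‖ ^ q := pow_le_pow_left₀ (abs_nonneg _) (Complex.abs_im_le_norm y) q
    have h3 : |y.re| ^ p * |y.im| ^ q ≤ ‖y‖ ^ p * ‖y‖ ^ q :=
      mul_le_mul h1 h2 (by positivity) (by positivity)
    have h4 := HeatC_gam_nonneg y
    calc ‖y‖ ^ m * (|y.re| ^ p * |y.im| ^ q * gam y)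
        ≤ ‖y‖ ^ m * (‖y‖ ^ p * ‖y‖ ^ q * gam y) := by gcongr
      _ = ‖y‖ ^ (m + p + q) * gam y := by ring

/-- polynomials times the Gaussian -/
noncomputable def HeatC_PG : Submodule ℝ (ℂ → ℝ) :=
  Submodule.span ℝ (Set.range fun p : ℕ × ℕ => HeatC_F p.1 p.2)

theorem HeatC_F_mem (p q : ℕ) : HeatC_F p q ∈ HeatC_PG :=
  Submodule.subset_span ⟨(p, q), rfl⟩

theorem HeatC_props {κ : ℂ → ℝ} (hκ : κ ∈ HeatC_PG) :
    Differentiable ℝ κ ∧ Dx κ ∈ HeatC_PG ∧ Dy κ ∈ HeatC_PG ∧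
      ∀ m : ℕ, Integrable (fun y : ℂ => ‖y‖ ^ m * κ y) := by
  unfold HeatC_PG at hκ
  induction hκ using Submodule.span_induction with
  | mem x hx =>
    obtain ⟨⟨p, q⟩, rfl⟩ := hx
    refine ⟨fun y => (HeatC_der p q y).differentiableAt, ?_, ?_, HeatC_int p q⟩
    · have h1 : Dx (HeatC_F p q) =
          (p : ℝ) • HeatC_F (p - 1) q + (-(1 / 2) : ℝ) • HeatC_F (p + 1) q := by
        funext y
        rw [Dx, (HeatC_der p q y).fderiv]
        simp
        ring
      show Dx (HeatC_F p q) ∈ HeatC_PG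
      rw [h1]
      exact HeatC_PG.add_mem (HeatC_PG.smul_mem _ (HeatC_F_mem _ _))
        (HeatC_PG.smul_mem _ (HeatC_F_mem _ _))
    · have h1 : Dy (HeatC_F p q) =
          (q : ℝ) • HeatC_F p (q - 1) + (-(1 / 2) : ℝ) • HeatC_F p (q + 1) := by
        funext y
        rw [Dy, (HeatC_der p q y).fderiv]
        simp
        ring
      show Dy (HeatC_F p q) ∈ HeatC_PG
      rw [h1]
      exact HeatC_PG.add_mem (HeatC_PG.smul_mem _ (HeatC_F_mem _ _))
        (HeatC_PG.smul_mem _ (HeatC_F_mem _ _))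
  | zero =>
    refine ⟨differentiable_const _, ?_, ?_, fun m => ?_⟩
    · have : Dx (0 : ℂ → ℝ) = 0 := by
        funext y
        simp [Dx]
      rw [this]
      exact HeatC_PG.zero_mem
    · have : Dy (0 : ℂ → ℝ) = 0 := by
        funext y
        simp [Dy]
      rw [this]
      exact HeatC_PG.zero_mem
    · simp
  | add x y _ _ hx hy =>
    obtain ⟨a1, a2, a3, a4⟩ := hx
    obtain ⟨b1, b2, b3, b4⟩ := hy
    refine ⟨a1.add b1, ?_, ?_, fun m => ?_⟩
    · have : Dx (x + y) = Dx x + Dx y := by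
        funext z
        simp only [Dx, Pi.add_apply]
        rw [fderiv_add (a1 z) (b1 z)]
        rfl
      rw [this]
      exact HeatC_PG.add_mem a2 b2
    · have : Dy (x + y) = Dy x + Dy y := by
        funext z
        simp only [Dy, Pi.add_apply]
        rw [fderiv_add (a1 z) (b1 z)]
        rfl
      rw [this]
      exact HeatC_PG.add_mem a3 b3
    · have h := (a4 m).add (b4 m)
      refine h.congr (Eventually.of_forall fun z => ?_)
      simp only [Pi.add_apply]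
      ring
  | smul c x _ hx =>
    obtain ⟨a1, a2, a3, a4⟩ := hx
    refine ⟨a1.const_smul c, ?_, ?_, fun m => ?_⟩
    · have : Dx (c • x) = c • Dx x := by
        funext z
        simp only [Dx, Pi.smul_apply]
        rw [fderiv_const_smul (a1 z)]
        rfl
      rw [this]
      exact HeatC_PG.smul_mem _ a2
    · have : Dy (c • x) = c • Dy x := by
        funext z
        simp only [Dy, Pi.smul_apply]
        rw [fderiv_const_smul (a1 z)]
        rfl
      rw [this]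
      exact HeatC_PG.smul_mem _ a3
    · have h := (a4 m).const_mul c
      refine h.congr (Eventually.of_forall fun z => ?_)
      simp only [Pi.smul_apply, smul_eq_mul]
      ring

theorem HeatC_int0 {κ : ℂ → ℝ} (hκ : κ ∈ HeatC_PG) : Integrable κ := by
  have := (HeatC_props hκ).2.2.2 0
  simpa using this

/-- a bounded continuous function times a kernel is integrable -/
theorem HeatC_bint {κ g : ℂ → ℝ} (hκ : κ ∈ HeatC_PG) (hg : Continuous g) {B : ℝ}
    (hB : ∀ z, |g z| ≤ B) : Integrable (fun y => g y * κ y) :=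
  (HeatC_int0 hκ).bdd_mul hg.aestronglyMeasurable (Eventually.of_forall hB)

/-- one integration by parts -/
theorem HeatC_ibp {κ g : ℂ → ℝ} (hκ : κ ∈ HeatC_PG) (hg : BCinf g) (z : ℂ) {r : ℝ}
    (v : ℂ) (hv : (fun y => fderiv ℝ κ y v) ∈ HeatC_PG) :
    r * ∫ y : ℂ, fderiv ℝ g (z + (r : ℂ) * y) v * κ y =
      ∫ y : ℂ, g (z + (r : ℂ) * y) * (-fderiv ℝ κ y v) := by
  have hgd : Differentiable ℝ g := hg.1.differentiable (by simp)
  have hA : ∀ y : ℂ, HasFDerivAt (fun y : ℂ => z + (r : ℂ) * y)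
      (r • ContinuousLinearMap.id ℝ ℂ) y := by
    intro y
    have h1 := ((hasFDerivAt_id (𝕜 := ℝ) y).const_smul r).const_add z
    refine h1.congr_of_eventuallyEq (Eventually.of_forall fun x => ?_)
    simp
  have hG : ∀ y : ℂ, HasFDerivAt (fun y : ℂ => g (z + (r : ℂ) * y))
      ((fderiv ℝ g (z + (r : ℂ) * y)).comp (r • ContinuousLinearMap.id ℝ ℂ)) y := fun y =>
    (hgd (z + (r : ℂ) * y)).hasFDerivAt.comp y (hA y)
  have hGv : ∀ y : ℂ, fderiv ℝ (fun y : ℂ => g (z + (r : ℂ) * y)) y v =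
      r * fderiv ℝ g (z + (r : ℂ) * y) v := by
    intro y
    rw [(hG y).fderiv]
    simp
  obtain ⟨B0, hB0⟩ := hg.2 0
  obtain ⟨B1, hB1⟩ := hg.2 1
  have hc : Continuous fun y : ℂ => z + (r : ℂ) * y := by fun_prop
  have hcg : Continuous fun y : ℂ => g (z + (r : ℂ) * y) := hgd.continuous.comp hc
  have hcf : Continuous fun y : ℂ => fderiv ℝ g (z + (r : ℂ) * y) v :=
    ((hg.1.continuous_fderiv (by simp)).comp hc).clm_apply continuous_const
  have hb0 : ∀ y : ℂ, |g (z + (r : ℂ) * y)| ≤ B0 := by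
    intro y
    have := hB0 (z + (r : ℂ) * y)
    rwa [norm_iteratedFDeriv_zero, Real.norm_eq_abs] at this
  have hb1 : ∀ y : ℂ, |fderiv ℝ g (z + (r : ℂ) * y) v| ≤ B1 * ‖v‖ := by
    intro y
    have := hB1 (z + (r : ℂ) * y)
    rw [norm_iteratedFDeriv_one] at this
    rw [← Real.norm_eq_abs]
    exact (ContinuousLinearMap.le_opNorm _ _).trans (mul_le_mul_of_nonneg_right this (norm_nonneg v))
  obtain ⟨k1, -, -, -⟩ := HeatC_props hκ
  have i1 : Integrable (fun y => fderiv ℝ κ y v * g (z + (r : ℂ) * y)) := by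
    refine (HeatC_bint hv hcg hb0).congr (Eventually.of_forall fun y => ?_)
    ring
  have i2 : Integrable (fun y => κ y * fderiv ℝ (fun y : ℂ => g (z + (r : ℂ) * y)) y v) := by
    refine ((HeatC_bint hκ hcf hb1).const_mul r).congr (Eventually.of_forall fun y => ?_)
    simp only [hGv]
    ring
  have i3 : Integrable (fun y => κ y * g (z + (r : ℂ) * y)) := by
    refine (HeatC_bint hκ hcg hb0).congr (Eventually.of_forall fun y => ?_)
    ring
  have key := integral_mul_fderiv_eq_neg_fderiv_mul_of_integrable (μ := volume) (v := v) i1 i2 i3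
    (fun x _ => k1 x) (fun x _ => (hG x).differentiableAt)
  have e1 : ∫ y : ℂ, κ y * fderiv ℝ (fun y : ℂ => g (z + (r : ℂ) * y)) y v =
      r * ∫ y : ℂ, fderiv ℝ g (z + (r : ℂ) * y) v * κ y := by
    rw [← integral_const_mul]
    refine integral_congr_ae (Eventually.of_forall fun y => ?_)
    simp only [hGv]
    ring
  rw [← e1, key, ← integral_neg]
  refine integral_congr_ae (Eventually.of_forall fun y => ?_)
  ring

/-- all the derivatives are moved to the kernel -/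
theorem HeatC_move (l : List Bool) : ∀ κ ∈ HeatC_PG, ∃ κ' ∈ HeatC_PG, ∀ (f : ℂ → ℝ), BCinf f →
    ∀ (r : ℝ) (z : ℂ), r ^ l.length * ∫ y : ℂ, DD l f (z + (r : ℂ) * y) * κ y =
      ∫ y : ℂ, f (z + (r : ℂ) * y) * κ' y := by
  induction l with
  | nil =>
    intro κ hκ
    exact ⟨κ, hκ, fun f _ r z => by simp⟩
  | cons b l ih =>
    intro κ hκ
    obtain ⟨-, kx, ky, -⟩ := HeatC_props hκ
    cases b with
    | true =>
      obtain ⟨κ', hκ', h'⟩ := ih (-Dx κ) (HeatC_PG.neg_mem kx)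
      refine ⟨κ', hκ', fun f hf r z => ?_⟩
      rw [← h' f hf r z, List.length_cons, pow_succ, mul_assoc]
      congr 1
      exact HeatC_ibp hκ (bcinf_DD hf l) z 1 kx
    | false =>
      obtain ⟨κ', hκ', h'⟩ := ih (-Dy κ) (HeatC_PG.neg_mem ky)
      refine ⟨κ', hκ', fun f hf r z => ?_⟩
      rw [← h' f hf r z, List.length_cons, pow_succ, mul_assoc]
      congr 1
      exact HeatC_ibp hκ (bcinf_DD hf l) z Complex.I ky

theorem HeatC_gam_mem : gam ∈ HeatC_PG := by
  have h : gam = HeatC_F 0 0 := by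
    funext y
    simp [HeatC_F]
  rw [h]
  exact HeatC_F_mem 0 0

/-- the kernel formula for `DD l (heat σ f)` -/
theorem HeatC_kernel (l : List Bool) : ∃ κ ∈ HeatC_PG, ∀ (f : ℂ → ℝ), BCinf f →
    ∀ (σ : ℝ) (z : ℂ), Real.sqrt σ ^ l.length * DD l (heat σ f) z =
      ∫ y : ℂ, f (z + (Real.sqrt σ : ℂ) * y) * κ y := by
  obtain ⟨κ, hκ, h⟩ := HeatC_move l gam HeatC_gam_mem
  refine ⟨κ, hκ, fun f hf σ z => ?_⟩
  rw [← h f hf (Real.sqrt σ) z, DD_heat hf]
  rfl

theorem HeatC_const (c : ℝ) : BCinf (fun _ : ℂ => c) := by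
  refine ⟨contDiff_const, fun n => ⟨|c|, fun z => ?_⟩⟩
  rcases n with _ | n
  · rw [norm_iteratedFDeriv_zero, Real.norm_eq_abs]
  · have : iteratedFDeriv ℝ (n + 1) (fun _ : ℂ => c) = 0 := iteratedFDeriv_succ_const n c
    rw [this]
    simp

theorem HeatC_DD_const (l : List Bool) (hl : 1 ≤ l.length) (c : ℝ) (z : ℂ) :
    DD l (fun _ : ℂ => c) z = 0 := by
  have h0 : ∀ l : List Bool, 1 ≤ l.length → DD l (fun _ : ℂ => c) = fun _ => 0 := by
    intro l
    induction l with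
    | nil => intro h; simp at h
    | cons b l ih =>
      intro _
      rcases l with _ | ⟨b', l⟩
      · cases b
        · funext z
          simp [DD, Dy]
        · funext z
          simp [DD, Dx]
      · have h1 := ih (by simp)
        cases b
        · funext z
          show Dy (DD (b' :: l) fun _ : ℂ => c) z = 0
          rw [h1]
          simp [Dy]
        · funext z
          show Dx (DD (b' :: l) fun _ : ℂ => c) z = 0
          rw [h1]
          simp [Dx]
  exact congrFun (h0 l hl) z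

/-- one constant for all the lists of length at most `3` -/
theorem HeatC_unif {P : List Bool → ℝ → Prop} (hP : ∀ l C C', P l C → C ≤ C' → P l C')
    (h : ∀ l, ∃ C, 0 ≤ C ∧ P l C) : ∃ C, 0 < C ∧ ∀ l : List Bool, l.length ≤ 3 → P l C := by
  choose c hc0 hc using h
  have hfin : {l : List Bool | l.length ≤ 3}.Finite := List.finite_length_le Bool 3
  refine ⟨∑ l ∈ hfin.toFinset, c l + 1, ?_, fun l hl => ?_⟩
  · have := Finset.sum_nonneg (s := hfin.toFinset) fun l _ => hc0 l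
    linarith
  · refine hP l (c l) _ (hc l) ?_
    have h1 : c l ≤ ∑ l ∈ hfin.toFinset, c l :=
      Finset.single_le_sum (fun l _ => hc0 l) (hfin.mem_toFinset.2 hl)
    linarith

theorem HeatC_deriv_one (l : List Bool) : ∃ C : ℝ, 0 ≤ C ∧ ∀ (f : ℂ → ℝ) (M σ : ℝ), BCinf f →
    (∀ z, |f z| ≤ M) → 0 < σ → ∀ z,
      |DD l (heat σ f) z| ≤ C * M / Real.sqrt σ ^ l.length := by
  obtain ⟨κ, hκ, h⟩ := HeatC_kernel l
  refine ⟨∫ y, |κ y|, integral_nonneg fun y => abs_nonneg _, ?_⟩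
  intro f M σ hf hM hσ z
  have hs : 0 < Real.sqrt σ := Real.sqrt_pos.2 hσ
  rw [le_div_iff₀ (by positivity)]
  have h1 := h f hf σ z
  have h2 : |DD l (heat σ f) z| * Real.sqrt σ ^ l.length =
      |∫ y : ℂ, f (z + (Real.sqrt σ : ℂ) * y) * κ y| := by
    rw [← h1, abs_mul, abs_of_pos (pow_pos hs _), mul_comm]
  rw [h2, ← Real.norm_eq_abs, mul_comm, ← integral_const_mul]
  refine norm_integral_le_of_norm_le ((HeatC_int0 hκ).abs.const_mul M)
    (Eventually.of_forall fun y => ?_)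
  rw [Real.norm_eq_abs, abs_mul]
  exact mul_le_mul_of_nonneg_right (hM _) (abs_nonneg _)

theorem HeatC_holder_one (l : List Bool) : ∃ C : ℝ, 0 ≤ C ∧ (1 ≤ l.length →
    ∀ (f : ℂ → ℝ) (M t : ℝ), BCinf f →
    (∀ z z', |f z - f z'| ≤ M * Real.sqrt ‖z - z'‖) → 0 < t → ∀ z,
      |DD l (heat (t ^ 4) f) z| ≤ C * M * t / t ^ (2 * l.length)) := by
  obtain ⟨κ, hκ, h⟩ := HeatC_kernel l
  obtain ⟨-, -, -, hint⟩ := HeatC_props hκ
  refine ⟨∫ y, (1 + ‖y‖) * |κ y|, integral_nonneg fun y => by positivity, ?_⟩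
  intro hl f M t hf hM ht z
  have hM0 : 0 ≤ M := by
    have := (abs_nonneg _).trans (hM 1 0)
    simpa using this
  have hst : Real.sqrt (t ^ 4) = t ^ 2 := by
    rw [show t ^ 4 = (t ^ 2) ^ 2 by ring]
    exact Real.sqrt_sq (by positivity)
  have h1 := h f hf (t ^ 4) z
  have h2 := h (fun _ => f z) (HeatC_const _) (t ^ 4) z
  have h3 : DD l (heat (t ^ 4) fun _ => f z) z = 0 := by
    rw [DD_heat (HeatC_const _)]
    unfold heat
    simp only [HeatC_DD_const l hl]
    simp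
  rw [h3, mul_zero] at h2
  rw [hst] at h1
  have hcf : Continuous f := hf.1.continuous
  have hc : Continuous fun y : ℂ => z + ((t ^ 2 : ℝ) : ℂ) * y := by fun_prop
  obtain ⟨B0, hB0⟩ := hf.2 0
  have hb0 : ∀ y : ℂ, |f (z + ((t ^ 2 : ℝ) : ℂ) * y)| ≤ B0 := by
    intro y
    have := hB0 (z + ((t ^ 2 : ℝ) : ℂ) * y)
    rwa [norm_iteratedFDeriv_zero, Real.norm_eq_abs] at this
  have i1 : Integrable (fun y : ℂ => f (z + ((t ^ 2 : ℝ) : ℂ) * y) * κ y) :=
    HeatC_bint hκ (hcf.comp hc) hb0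
  have i2 : Integrable (fun y => f z * κ y) := (HeatC_int0 hκ).const_mul _
  have h4 : ∫ y : ℂ, f (z + ((t ^ 2 : ℝ) : ℂ) * y) * κ y =
      ∫ y : ℂ, (f (z + ((t ^ 2 : ℝ) : ℂ) * y) - f z) * κ y := by
    have h5 := integral_sub i1 i2
    rw [← h2, sub_zero] at h5
    rw [← h5]
    refine integral_congr_ae (Eventually.of_forall fun y => ?_)
    ring
  rw [le_div_iff₀ (by positivity)]
  have h6 : |DD l (heat (t ^ 4) f) z| * t ^ (2 * l.length) =
      |∫ y : ℂ, (f (z + ((t ^ 2 : ℝ) : ℂ) * y) - f z) * κ y| := by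
    rw [← h4, ← h1, abs_mul, ← pow_mul, abs_of_pos (pow_pos ht _), mul_comm]
  have h7 : (∫ y : ℂ, (1 + ‖y‖) * |κ y|) * M * t = ∫ y : ℂ, M * t * ((1 + ‖y‖) * |κ y|) := by
    rw [integral_const_mul]
    ring
  rw [h6, h7, ← Real.norm_eq_abs]
  have i3 : Integrable (fun y : ℂ => (1 + ‖y‖) * |κ y|) := by
    have j1 := (hint 0).abs
    have j2 := (hint 1).abs
    refine (j1.add j2).congr (Eventually.of_forall fun y => ?_)
    simp only [Pi.add_apply, pow_zero, one_mul, pow_one, abs_mul, abs_norm]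
    ring
  refine norm_integral_le_of_norm_le (i3.const_mul (M * t)) (Eventually.of_forall fun y => ?_)
  rw [Real.norm_eq_abs, abs_mul]
  have h8 : |f (z + ((t ^ 2 : ℝ) : ℂ) * y) - f z| ≤ M * t * (1 + ‖y‖) := by
    refine (hM _ _).trans ?_
    rw [add_sub_cancel_left, norm_mul, Complex.norm_real, Real.norm_of_nonneg (by positivity),
      Real.sqrt_mul (by positivity), Real.sqrt_sq ht.le, mul_assoc]
    refine mul_le_mul_of_nonneg_left (mul_le_mul_of_nonneg_left ?_ ht.le) hM0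
    rw [Real.sqrt_le_left (by positivity)]
    have := norm_nonneg y
    have h9 := sq_nonneg ‖y‖
    linarith
  calc |f (z + ((t ^ 2 : ℝ) : ℂ) * y) - f z| * |κ y| ≤ M * t * (1 + ‖y‖) * |κ y| :=
        mul_le_mul_of_nonneg_right h8 (abs_nonneg _)
    _ = M * t * ((1 + ‖y‖) * |κ y|) := by ring

/-- Gradient bound: `|∇ heat σ f| ≤ C σ^{-1/2} sup |f|`. Proof: Gaussian integration by parts,
`D_e heat σ f (z) = ∫ f (z + √σ y) (y · e) / (2 √σ) γ(y) dy`. -/
theorem heat_grad : ∃ C : ℝ, 0 < C ∧ ∀ (f : ℂ → ℝ) (M σ : ℝ), BCinf f → (∀ z, |f z| ≤ M) →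
    0 < σ → ∀ z, ∀ l : List Bool, l.length = 1 →
      |DD l (heat σ f) z| ≤ C * M / Real.sqrt σ := by
  obtain ⟨C, hC, h⟩ := HeatC_unif (P := fun l C => ∀ (f : ℂ → ℝ) (M σ : ℝ), BCinf f →
    (∀ z, |f z| ≤ M) → 0 < σ → ∀ z, |DD l (heat σ f) z| ≤ C * M / Real.sqrt σ ^ l.length)
    (fun l C C' hP hCC' f M σ hf hM hσ z => by
      have hM0 : 0 ≤ M := (abs_nonneg _).trans (hM 0)
      refine (hP f M σ hf hM hσ z).trans ?_
      gcongr) HeatC_deriv_one
  refine ⟨C, hC, fun f M σ hf hM hσ z l hl => ?_⟩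
  have h1 := h l (by omega) f M σ hf hM hσ z
  rwa [hl, pow_one] at h1

/-- Higher derivatives: for `n ≤ 3`, `|D^n heat σ f| ≤ C σ^{-n/2} sup |f|`. Proof: semigroup
property or `n`-fold Gaussian integration by parts. -/
theorem heat_deriv : ∃ C : ℝ, 0 < C ∧ ∀ (f : ℂ → ℝ) (M σ : ℝ), BCinf f → (∀ z, |f z| ≤ M) →
    0 < σ → ∀ z, ∀ l : List Bool, l.length ≤ 3 →
      |DD l (heat σ f) z| ≤ C * M / Real.sqrt σ ^ l.length := by
  obtain ⟨C, hC, h⟩ := HeatC_unif (P := fun l C => ∀ (f : ℂ → ℝ) (M σ : ℝ), BCinf f →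
    (∀ z, |f z| ≤ M) → 0 < σ → ∀ z, |DD l (heat σ f) z| ≤ C * M / Real.sqrt σ ^ l.length)
    (fun l C C' hP hCC' f M σ hf hM hσ z => by
      have hM0 : 0 ≤ M := (abs_nonneg _).trans (hM 0)
      refine (hP f M σ hf hM hσ z).trans ?_
      gcongr) HeatC_deriv_one
  exact ⟨C, hC, fun f M σ hf hM hσ z l hl => h l hl f M σ hf hM hσ z⟩

/-- Hölder version: if `|f z - f z'| ≤ M √‖z - z'‖` then for `1 ≤ n ≤ 3`,
`|D^n heat σ f| ≤ C M σ^{1/4 - n/2}`. Proof: in the formula of `heat_deriv` the kernel has integral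
zero, so `f (z + √σ y)` may be replaced by `f (z + √σ y) - f z`, which is at most
`M σ^{1/4} |y|^{1/2}`. Here `σ = t ^ 4`, so that no fractional powers are needed:
`|D^n heat (t^4) f| ≤ C M t^{1 - 2n}`. -/
theorem heat_deriv_holder : ∃ C : ℝ, 0 < C ∧ ∀ (f : ℂ → ℝ) (M t : ℝ), BCinf f →
    (∀ z z', |f z - f z'| ≤ M * Real.sqrt ‖z - z'‖) → 0 < t → ∀ z, ∀ l : List Bool,
      1 ≤ l.length → l.length ≤ 3 →
      |DD l (heat (t ^ 4) f) z| ≤ C * M * t / t ^ (2 * l.length) := by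
  obtain ⟨C, hC, h⟩ := HeatC_unif (P := fun l C => 1 ≤ l.length → ∀ (f : ℂ → ℝ) (M t : ℝ),
    BCinf f → (∀ z z', |f z - f z'| ≤ M * Real.sqrt ‖z - z'‖) → 0 < t → ∀ z,
      |DD l (heat (t ^ 4) f) z| ≤ C * M * t / t ^ (2 * l.length))
    (fun l C C' hP hCC' hl f M t hf hM ht z => by
      have hM0 : 0 ≤ M := by
        have := (abs_nonneg _).trans (hM 1 0)
        simpa using this
      refine (hP hl f M t hf hM ht z).trans ?_
      gcongr) HeatC_holder_one
  exact ⟨C, hC, fun f M t hf hM ht z l hl hl3 => h l hl3 hl f M t hf hM ht z⟩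

end Pool.Agent.KK
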