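import Pool.Agent.W_bb4b37_h53.CalcB
import Pool.Agent.W_bb4b37_h53.CalcE
import Pool.Agent.W_bb4b37_h53.HeatB
import Pool.Agent.W_bb4b37_h53.HeatC

/-!
# Global Schauder estimates for the Laplacian on the plane, by the heat semigroup (part B)
-/

set_option autoImplicit false

open Filter Topology Set MeasureTheory Metric
open scoped ContDiff

namespace Pool.Agent.KK

theorem SchauderB_Dx_Lap {v : ℂ → ℝ} (hv : ContDiff ℝ ∞ v) : Dx (Lap v) = Lap (Dx v) := by
  have h2 : ∀ y, ContDiffAt ℝ 2 v y := fun y => (hv.of_le (WithTop.coe_le_coe.2 le_top)).contDiffAt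
  have h3 : ∀ y, ContDiffAt ℝ 2 (Dy v) y := fun y =>
    ((contDiff_DD hv [false]).of_le (WithTop.coe_le_coe.2 le_top)).contDiffAt
  have d1 : Differentiable ℝ (Dx (Dx v)) := (contDiff_DD hv [true, true]).differentiable (by simp)
  have d2 : Differentiable ℝ (Dy (Dy v)) := (contDiff_DD hv [false, false]).differentiable (by simp)
  have hc : Dx (Dy v) = Dy (Dx v) := funext fun y => Dx_Dy_comm (h2 y)
  funext z
  have e1 : Dx (Lap v) z = Dx (Dx (Dx v)) z + Dx (Dy (Dy v)) z := Dx_add (d1 z) (d2 z)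
  rw [e1, Dx_Dy_comm (h3 z), hc]
  rfl

theorem SchauderB_Dy_Lap {v : ℂ → ℝ} (hv : ContDiff ℝ ∞ v) : Dy (Lap v) = Lap (Dy v) := by
  have h2 : ∀ y, ContDiffAt ℝ 2 v y := fun y => (hv.of_le (WithTop.coe_le_coe.2 le_top)).contDiffAt
  have h3 : ∀ y, ContDiffAt ℝ 2 (Dx v) y := fun y =>
    ((contDiff_DD hv [true]).of_le (WithTop.coe_le_coe.2 le_top)).contDiffAt
  have d1 : Differentiable ℝ (Dx (Dx v)) := (contDiff_DD hv [true, true]).differentiable (by simp)
  have d2 : Differentiable ℝ (Dy (Dy v)) := (contDiff_DD hv [false, false]).differentiable (by simp)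
  have hc : Dx (Dy v) = Dy (Dx v) := funext fun y => Dx_Dy_comm (h2 y)
  funext z
  have e1 : Dy (Lap v) z = Dy (Dx (Dx v)) z + Dy (Dy (Dy v)) z := Dy_add (d1 z) (d2 z)
  rw [e1, ← Dx_Dy_comm (h3 z), ← hc]
  rfl

theorem SchauderB_DD_Lap {u : ℂ → ℝ} (hu : ContDiff ℝ ∞ u) (l : List Bool) :
    DD l (Lap u) = Lap (DD l u) := by
  induction l with
  | nil => rfl
  | cons b l ih =>
    have hv : ContDiff ℝ ∞ (DD l u) := contDiff_DD hu l
    cases b
    · rw [DD_false, ih, DD_false]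
      exact SchauderB_Dy_Lap hv
    · rw [DD_true, ih, DD_true]
      exact SchauderB_Dx_Lap hv

theorem SchauderB_bcinf_Lap {u : ℂ → ℝ} (hu : BCinf u) : BCinf (Lap u) := by
  obtain ⟨h1, h2⟩ := BCinf_iff.1 hu
  refine BCinf_iff.2 ⟨(contDiff_DD h1 [true, true]).add (contDiff_DD h1 [false, false]), fun l => ?_⟩
  obtain ⟨B1, hB1⟩ := h2 (true :: true :: l)
  obtain ⟨B2, hB2⟩ := h2 (false :: false :: l)
  refine ⟨B1 + B2, fun z => ?_⟩
  rw [SchauderB_DD_Lap h1]
  exact (norm_add_le _ _).trans (add_le_add (hB1 z) (hB2 z))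

theorem SchauderB_decay {φ φ' : ℝ → ℝ} {A : ℝ} (hd : ∀ t, 0 < t → HasDerivAt φ (φ' t) t)
    (hb : ∀ t, 0 < t → |φ' t| ≤ A / t ^ 2) (hlim : Tendsto φ atTop (𝓝 0)) {t : ℝ} (ht : 0 < t) :
    |φ t| ≤ A / t := by
  have hinv : ∀ s : ℝ, 0 < s → HasDerivAt (fun r : ℝ => A / r) (-(A / s ^ 2)) s := by
    intro s hs
    have h1 := (hasDerivAt_inv hs.ne').const_mul A
    refine (h1.congr_of_eventuallyEq (Eventually.of_forall fun r => ?_)).congr_deriv ?_
    · rw [div_eq_mul_inv]
    · field_simp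
  have hlA : Tendsto (fun r : ℝ => A / r) atTop (𝓝 0) := tendsto_const_nhds.div_atTop tendsto_id
  have m1 : MonotoneOn (fun s => φ s - A / s) (Ioi 0) := by
    refine monotoneOn_of_deriv_nonneg (convex_Ioi 0)
      (fun s hs => ((hd s hs).sub (hinv s hs)).continuousAt.continuousWithinAt)
      (fun s hs => ?_) (fun s hs => ?_)
    · rw [interior_Ioi] at hs
      exact ((hd s hs).sub (hinv s hs)).differentiableAt.differentiableWithinAt
    · rw [interior_Ioi] at hs
      have h1 : deriv (fun s => φ s - A / s) s = φ' s - -(A / s ^ 2) :=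
        ((hd s hs).sub (hinv s hs)).deriv
      rw [h1]
      have h2 := abs_le.1 (hb s hs)
      linarith [h2.1]
  have m2 : AntitoneOn (fun s => φ s + A / s) (Ioi 0) := by
    refine antitoneOn_of_deriv_nonpos (convex_Ioi 0)
      (fun s hs => ((hd s hs).add (hinv s hs)).continuousAt.continuousWithinAt)
      (fun s hs => ?_) (fun s hs => ?_)
    · rw [interior_Ioi] at hs
      exact ((hd s hs).add (hinv s hs)).differentiableAt.differentiableWithinAt
    · rw [interior_Ioi] at hs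
      have h1 : deriv (fun s => φ s + A / s) s = φ' s + -(A / s ^ 2) :=
        ((hd s hs).add (hinv s hs)).deriv
      rw [h1]
      have h2 := abs_le.1 (hb s hs)
      linarith [h2.2]
  have l1 : Tendsto (fun s => φ s - A / s) atTop (𝓝 0) := by simpa using hlim.sub hlA
  have l2 : Tendsto (fun s => φ s + A / s) atTop (𝓝 0) := by simpa using hlim.add hlA
  have e1 : φ t - A / t ≤ 0 := by
    refine ge_of_tendsto l1 ?_
    filter_upwards [eventually_ge_atTop t] with s hs
    exact m1 ht (lt_of_lt_of_le ht hs) hs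
  have e2 : 0 ≤ φ t + A / t := by
    refine le_of_tendsto l2 ?_
    filter_upwards [eventually_ge_atTop t] with s hs
    exact m2 ht (lt_of_lt_of_le ht hs) hs
  rw [abs_le]
  constructor <;> linarith

theorem SchauderB_lip {χ χ' : ℝ → ℝ} {A : ℝ} (hc : ContinuousOn χ (Ici 0))
    (hd : ∀ t, 0 < t → HasDerivAt χ (χ' t) t)
    (hb : ∀ t, 0 < t → |χ' t| ≤ A) {t : ℝ} (ht : 0 < t) : |χ 0 - χ t| ≤ A * t := by
  have hid : ∀ s : ℝ, HasDerivAt (fun r : ℝ => A * r) A s := by
    intro s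
    simpa using (hasDerivAt_id s).const_mul A
  have hcl : Continuous (fun r : ℝ => A * r) := continuous_const.mul continuous_id
  have m1 : MonotoneOn (fun s => χ s + A * s) (Ici 0) := by
    refine monotoneOn_of_deriv_nonneg (convex_Ici 0) (hc.add hcl.continuousOn)
      (fun s hs => ?_) (fun s hs => ?_)
    · rw [interior_Ici] at hs
      exact ((hd s hs).add (hid s)).differentiableAt.differentiableWithinAt
    · rw [interior_Ici] at hs
      have h1 : deriv (fun s => χ s + A * s) s = χ' s + A := ((hd s hs).add (hid s)).deriv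
      rw [h1]
      have h2 := abs_le.1 (hb s hs)
      linarith [h2.1]
  have m2 : AntitoneOn (fun s => χ s - A * s) (Ici 0) := by
    refine antitoneOn_of_deriv_nonpos (convex_Ici 0) (hc.sub hcl.continuousOn)
      (fun s hs => ?_) (fun s hs => ?_)
    · rw [interior_Ici] at hs
      exact ((hd s hs).sub (hid s)).differentiableAt.differentiableWithinAt
    · rw [interior_Ici] at hs
      have h1 : deriv (fun s => χ s - A * s) s = χ' s - A := ((hd s hs).sub (hid s)).deriv
      rw [h1]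
      have h2 := abs_le.1 (hb s hs)
      linarith [h2.2]
  have e1 := m1 (mem_Ici.2 le_rfl) (mem_Ici.2 ht.le) ht.le
  have e2 := m2 (mem_Ici.2 le_rfl) (mem_Ici.2 ht.le) ht.le
  simp only [mul_zero, add_zero, sub_zero] at e1 e2
  rw [abs_le]
  constructor <;> linarith

/-- **Schauder estimate.** `[D²u]_{1/2} ≤ C [Δu]_{1/2}` for all `u` with bounded derivatives.
Proof: let `f = Δu`, `|f z - f z'| ≤ M √‖z - z'‖`. For `|l| = 3`,
`d/dσ DD l (heat σ u) = DD l (heat σ f)` is at most `C M σ^{1/4 - 3/2} = C M σ^{-5/4}` and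
`DD l (heat σ u) → 0` as `σ → ∞` (`heat_deriv`), so `|DD l (heat σ u)| ≤ 4 C M σ^{-1/4}`.
For `|l| = 2`, `|DD l u - DD l (heat σ u)| ≤ ∫_0^σ |DD l (heat τ f)| dτ ≤ C M ∫_0^σ τ^{-3/4} dτ
= 4 C M σ^{1/4}`. Take `σ = ‖z - z'‖²`. (Substituting `σ = t⁴` all powers are integers:
`dσ = 4 t³ dt`.) -/
theorem schauder : ∃ C : ℝ, 0 < C ∧ ∀ (u : ℂ → ℝ) (M : ℝ), BCinf u →
    (∀ z z', |Lap u z - Lap u z'| ≤ M * Real.sqrt ‖z - z'‖) →
    ∀ l : List Bool, l.length = 2 → ∀ z z',
      |DD l u z - DD l u z'| ≤ C * M * Real.sqrt ‖z - z'‖ := by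
  obtain ⟨C1, hC1, H1⟩ := heat_deriv
  obtain ⟨C2, hC2, H2⟩ := heat_deriv_holder
  refine ⟨16 * C2, by positivity, fun u M hu hM l hl z z' => ?_⟩
  have hM0 : 0 ≤ M := by
    have h1 := (abs_nonneg _).trans (hM 0 1)
    simpa using h1
  obtain ⟨hus, hub⟩ := BCinf_iff.1 hu
  obtain ⟨K, hK⟩ := hub []
  have hf : BCinf (Lap u) := SchauderB_bcinf_Lap hu
  have hder : ∀ (l : List Bool) (z : ℂ) (t : ℝ), 0 < t →
      HasDerivAt (fun s : ℝ => heat (s ^ 4) (DD l u) z)
        (DD l (heat (t ^ 4) (Lap u)) z * (4 * t ^ 3)) t := by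
    intro l z t ht
    have h1 := hasDerivAt_heat (bcinf_DD hu l) (pow_pos ht 4) z
    rw [← SchauderB_DD_Lap hus, ← DD_heat hf] at h1
    have h2 : HasDerivAt (fun s : ℝ => s ^ 4) (4 * t ^ 3) t := by
      simpa using hasDerivAt_pow 4 t
    exact HasDerivAt.comp (h₂ := fun s : ℝ => heat s (DD l u) z) (h := fun s : ℝ => s ^ 4) t h1 h2
  have hsq4 : ∀ t : ℝ, 0 < t → Real.sqrt (t ^ 4) = t ^ 2 := by
    intro t ht
    rw [show t ^ 4 = (t ^ 2) ^ 2 by ring]
    exact Real.sqrt_sq (by positivity)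
  -- third derivatives
  have hA : ∀ (l : List Bool), l.length = 3 → ∀ (z : ℂ) (t : ℝ), 0 < t →
      |DD l (heat (t ^ 4) u) z| ≤ 4 * C2 * M / t := by
    intro l hl z t ht
    rw [DD_heat hu]
    refine SchauderB_decay (φ := fun s : ℝ => heat (s ^ 4) (DD l u) z) (hder l z) ?_ ?_ ht
    · intro s hs
      have h1 := H2 (Lap u) M s hf hM hs z l (by omega) (by omega)
      rw [hl] at h1
      rw [abs_mul, abs_of_pos (show 0 < 4 * s ^ 3 by positivity)]
      calc |DD l (heat (s ^ 4) (Lap u)) z| * (4 * s ^ 3)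
          ≤ (C2 * M * s / s ^ (2 * 3)) * (4 * s ^ 3) :=
            mul_le_mul_of_nonneg_right h1 (by positivity)
        _ = 4 * C2 * M / s ^ 2 := by
            field_simp
    · have hlim : Tendsto (fun s : ℝ => C1 * K / s) atTop (𝓝 0) :=
        tendsto_const_nhds.div_atTop tendsto_id
      refine squeeze_zero_norm' ?_ hlim
      filter_upwards [eventually_ge_atTop (1 : ℝ)] with s hs
      have hs0 : 0 < s := by linarith
      have h1 := H1 u K (s ^ 4) hu (fun z => hK z) (pow_pos hs0 4) z l (by omega)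
      have hK0 : 0 ≤ K := (norm_nonneg _).trans (hK 0)
      rw [DD_heat hu, hl, hsq4 s hs0] at h1
      rw [Real.norm_eq_abs]
      refine h1.trans ?_
      refine div_le_div_of_nonneg_left (by positivity) hs0 ?_
      calc s = s ^ 1 := (pow_one s).symm
        _ ≤ s ^ 6 := pow_le_pow_right₀ hs (by norm_num)
        _ = (s ^ 2) ^ 3 := by ring
  -- second derivatives
  have hB : ∀ (z : ℂ) (t : ℝ), 0 < t →
      |DD l u z - DD l (heat (t ^ 4) u) z| ≤ 4 * C2 * M * t := by
    intro z t ht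
    rw [DD_heat hu]
    have h0 : DD l u z = heat ((0 : ℝ) ^ 4) (DD l u) z := by
      rw [zero_pow four_ne_zero, heat_zero (contDiff_DD hus l).continuous]
    rw [h0]
    refine SchauderB_lip (χ := fun s : ℝ => heat (s ^ 4) (DD l u) z) ?_ (hder l z) ?_ ht
    · refine (continuousOn_heat (bcinf_DD hu l) z).comp (continuous_pow 4).continuousOn ?_
      intro s hs
      exact pow_nonneg (mem_Ici.1 hs) 4
    · intro s hs
      have h1 := H2 (Lap u) M s hf hM hs z l (by omega) (by omega)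
      rw [hl] at h1
      rw [abs_mul, abs_of_pos (show 0 < 4 * s ^ 3 by positivity)]
      calc |DD l (heat (s ^ 4) (Lap u)) z| * (4 * s ^ 3)
          ≤ (C2 * M * s / s ^ (2 * 2)) * (4 * s ^ 3) :=
            mul_le_mul_of_nonneg_right h1 (by positivity)
        _ = 4 * C2 * M := by
            field_simp
  by_cases hz : z = z'
  · rw [hz]
    simp
  have hn : 0 < ‖z - z'‖ := norm_pos_iff.2 (sub_ne_zero.2 hz)
  set t : ℝ := Real.sqrt ‖z - z'‖ with ht
  have ht0 : 0 < t := Real.sqrt_pos.2 hn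
  have ht2 : ‖z - z'‖ = t * t := (Real.mul_self_sqrt hn.le).symm
  have hC : |DD l (heat (t ^ 4) u) z - DD l (heat (t ^ 4) u) z'| ≤
      2 * (4 * C2 * M / t) * ‖z - z'‖ := by
    have hd : Differentiable ℝ (DD l (heat (t ^ 4) u)) :=
      (contDiff_DD (heat_bcinf hu (t ^ 4)).1 l).differentiable (by simp)
    refine mean_value_univ hd (fun y l' hl' => ?_) z z'
    rw [← DD_append, Real.norm_eq_abs]
    exact hA (l' ++ l) (by simp [hl, hl']) y t ht0
  have hC' : 2 * (4 * C2 * M / t) * ‖z - z'‖ = 8 * C2 * M * t := by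
    rw [ht2]
    field_simp
    ring
  rw [hC'] at hC
  have hB1 := hB z t ht0
  have hB2 := hB z' t ht0
  have e1 : DD l u z - DD l u z' = (DD l u z - DD l (heat (t ^ 4) u) z) +
      (DD l (heat (t ^ 4) u) z - DD l (heat (t ^ 4) u) z') -
      (DD l u z' - DD l (heat (t ^ 4) u) z') := by ring
  rw [e1]
  refine (abs_sub _ _).trans ?_
  have e2 := abs_add_le (DD l u z - DD l (heat (t ^ 4) u) z)
    (DD l (heat (t ^ 4) u) z - DD l (heat (t ^ 4) u) z')
  linarith

end Pool.Agent.KK
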