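import Pool.Agent.W_bb4b37_h53.InteriorA
import Pool.Agent.W_bb4b37_h53.PenB
import Pool.Agent.W_bb4b37_h53.SchauderB
import Pool.Agent.W_bb4b37_h53.SubSol

/-!
# The penalised Liouville equation `Δ w = e^{2w} - X` (part D)
-/

set_option autoImplicit false

open Filter Topology Set MeasureTheory Metric
open scoped ContDiff

namespace Pool.Agent.KK

theorem LiouvilleD_m_half {S : Set ℂ} {s : ℝ} {z y : ℂ}
    (hy : y ∈ ball z (max (infDist z S) s / 2)) :
    max (infDist z S) s / 2 ≤ max (infDist y S) s ∧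
      max (infDist y S) s ≤ 2 * max (infDist z S) s := by
  have h1 : dist y z < max (infDist z S) s / 2 := mem_ball.1 hy
  have h2 : infDist z S ≤ infDist y S + dist z y := infDist_le_infDist_add_dist
  have h3 : infDist y S ≤ infDist z S + dist y z := infDist_le_infDist_add_dist
  rw [dist_comm z y] at h2
  have h0 : 0 ≤ dist y z := dist_nonneg
  have h4 : max (infDist z S) s ≤ max (infDist y S) s + dist y z :=
    max_le (h2.trans (add_le_add (le_max_left _ _) le_rfl))
      ((le_max_right (infDist y S) s).trans (by linarith))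
  have h5 : max (infDist y S) s ≤ max (infDist z S) s + dist y z :=
    max_le (h3.trans (add_le_add (le_max_left _ _) le_rfl))
      ((le_max_right (infDist z S) s).trans (by linarith))
  constructor <;> linarith

theorem LiouvilleD_rho {S : Set ℂ} {s : ℝ} (hs : 0 < s) {z y : ℂ}
    (hy : y ∈ ball z (max (infDist z S) s / 2)) :
    (max (infDist y S) s)⁻¹ ≤ 2 * (max (infDist z S) s)⁻¹ := by
  have hz : 0 < max (infDist z S) s := lt_max_of_lt_right hs
  have h1 := (LiouvilleD_m_half hy).1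
  calc (max (infDist y S) s)⁻¹ ≤ (max (infDist z S) s / 2)⁻¹ := inv_anti₀ (by positivity) h1
    _ = 2 * (max (infDist z S) s)⁻¹ := by
        rw [inv_div, div_eq_mul_inv]

/-- one differentiation -/
theorem LiouvilleD_step {Cg : ℝ} (hCg : 0 < Cg)
    (HG : ∀ (u : ℂ → ℝ) (z₀ : ℂ) (r M : ℝ), ContDiff ℝ ∞ u →
      0 < r → (∀ z ∈ ball z₀ r, |u z| ≤ M) → (∀ z ∈ ball z₀ r, r ^ 2 * |Lap u z| ≤ M) →
      ∀ z ∈ ball z₀ (r / 2), ∀ l : List Bool, l.length = 1 → r * |DD l u z| ≤ Cg * M)
    {S : Set ℂ} {s : ℝ} (hs : 0 < s) {v : ℂ → ℝ} (hv : ContDiff ℝ ∞ v) {A B : ℝ} (k : ℕ)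
    (hA0 : 0 ≤ A) (hB0 : 0 ≤ B) (hA : ∀ y, |v y| ≤ A * (max (infDist y S) s)⁻¹ ^ k)
    (hB : ∀ y, |Lap v y| ≤ B * (max (infDist y S) s)⁻¹ ^ (k + 2)) (z : ℂ) (e : Bool) :
    |DD [e] v z| ≤ 2 ^ (k + 1) * Cg * (A + B) * (max (infDist z S) s)⁻¹ ^ (k + 1) := by
  have hm : 0 < max (infDist z S) s := lt_max_of_lt_right hs
  have h1 := HG v z (max (infDist z S) s / 2) (2 ^ k * (A + B) * (max (infDist z S) s)⁻¹ ^ k) hv
    (by positivity) ?_ ?_ z (mem_ball_self (by positivity)) [e] rfl
  · set m := max (infDist z S) s with hmdef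
    have h2 : |DD [e] v z| = (2 * m⁻¹) * (m / 2 * |DD [e] v z|) := by
      field_simp
    rw [h2]
    calc (2 * m⁻¹) * (m / 2 * |DD [e] v z|) ≤ (2 * m⁻¹) * (Cg * (2 ^ k * (A + B) * m⁻¹ ^ k)) :=
          mul_le_mul_of_nonneg_left h1 (by positivity)
      _ = 2 ^ (k + 1) * Cg * (A + B) * m⁻¹ ^ (k + 1) := by ring
  · intro y hy
    have hmy : 0 < max (infDist y S) s := lt_max_of_lt_right hs
    have h2 := LiouvilleD_rho hs hy
    refine (hA y).trans ?_
    calc A * (max (infDist y S) s)⁻¹ ^ k ≤ A * (2 * (max (infDist z S) s)⁻¹) ^ k :=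
          mul_le_mul_of_nonneg_left (pow_le_pow_left₀ (by positivity) h2 k) hA0
      _ = 2 ^ k * A * (max (infDist z S) s)⁻¹ ^ k := by rw [mul_pow]; ring
      _ ≤ 2 ^ k * (A + B) * (max (infDist z S) s)⁻¹ ^ k := by
          refine mul_le_mul_of_nonneg_right ?_ (by positivity)
          exact mul_le_mul_of_nonneg_left (by linarith) (by positivity)
  · intro y hy
    have hmy : 0 < max (infDist y S) s := lt_max_of_lt_right hs
    have h2 := LiouvilleD_rho hs hy
    calc (max (infDist z S) s / 2) ^ 2 * |Lap v y|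
        ≤ (max (infDist z S) s / 2) ^ 2 * (B * (2 * (max (infDist z S) s)⁻¹) ^ (k + 2)) := by
          refine mul_le_mul_of_nonneg_left ((hB y).trans ?_) (by positivity)
          exact mul_le_mul_of_nonneg_left (pow_le_pow_left₀ (by positivity) h2 _) hB0
      _ = 2 ^ k * B * (max (infDist z S) s)⁻¹ ^ k := by
          rw [mul_pow, pow_add, pow_add]
          field_simp
      _ ≤ 2 ^ k * (A + B) * (max (infDist z S) s)⁻¹ ^ k := by
          refine mul_le_mul_of_nonneg_right ?_ (by positivity)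
          exact mul_le_mul_of_nonneg_left (by linarith) (by positivity)

/-- the distance to a nonempty periodic set is at most `2` -/
theorem LiouvilleD_dist_le {a : ℝ} (ha0 : 0 ≤ a) (ha : a ≤ 1 / 10) {S : Set ℂ} (hne : S.Nonempty)
    (hSp : PerSet a S) (z : ℂ) : infDist z S ≤ 2 := by
  obtain ⟨x, hx⟩ := hne
  obtain ⟨v, hv, hv2⟩ := exists_lat_near (a := a) (by rw [abs_of_nonneg ha0]; linarith) (z - x)
  refine (infDist_le_dist_of_mem (hSp x hx v hv)).trans ?_
  rw [dist_eq_norm, show z - (x + v) = z - x - v by ring]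
  exact hv2

theorem LiouvilleD_pen : ∃ K : ℝ, 0 < K ∧ ∀ (a s : ℝ), 0 ≤ a →
    a ≤ 1 / 10 → 0 < s → s ≤ 1 → ∀ S : Set ℂ, IsClosed S → S.Nonempty → PerSet a S →
    ∀ l : List Bool, l.length ≤ 3 → ∀ y,
      |DD l (pen Bpen S s) y| ≤ K * (max (infDist y S) s)⁻¹ ^ (2 + l.length) := by
  obtain ⟨Cp, hCp, HP⟩ := pen_deriv
  obtain ⟨c₁, hB, -⟩ := Bpen_spec
  refine ⟨4 + 16 * Bpen + Cp * Bpen * 4 ^ 5, by positivity, ?_⟩
  intro a s ha0 ha hs hs1 S hS hne hSp l hl y
  have hmy : 0 < max (infDist y S) s := lt_max_of_lt_right hs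
  have hd2 := LiouvilleD_dist_le ha0 ha hne hSp y
  have hm2 : max (infDist y S) s ≤ 2 := max_le hd2 (by linarith)
  have hpp : 0 ≤ Cp * Bpen * 4 ^ 5 := by positivity
  by_cases h4 : 4 * s < infDist y S
  · -- far
    have hms : max (infDist y S) s = infDist y S := max_eq_left (by linarith)
    rcases Nat.eq_zero_or_pos l.length with h0 | h0
    · have hl0 : l = [] := List.eq_nil_of_length_eq_zero h0
      subst hl0
      rw [DD_nil, pen_far hs h4.le, abs_of_pos hs]
      simp only [List.length_nil, add_zero]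
      have h1 : 1 ≤ 4 * (max (infDist y S) s)⁻¹ ^ 2 := by
        have h2 : (2 : ℝ)⁻¹ ≤ (max (infDist y S) s)⁻¹ := inv_anti₀ hmy hm2
        have h3 : ((2 : ℝ)⁻¹) ^ 2 ≤ (max (infDist y S) s)⁻¹ ^ 2 :=
          pow_le_pow_left₀ (by norm_num) h2 2
        have h4' : ((2 : ℝ)⁻¹) ^ 2 = 1 / 4 := by norm_num
        rw [h4'] at h3
        linarith
      have h5 : 0 ≤ (16 * Bpen + Cp * Bpen * 4 ^ 5) * (max (infDist y S) s)⁻¹ ^ 2 := by positivity
      nlinarith
    · have hev : pen Bpen S s =ᶠ[𝓝 y] fun _ => s := by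
        have hop : IsOpen {x : ℂ | 4 * s < infDist x S} :=
          isOpen_lt continuous_const (continuous_infDist_pt S)
        filter_upwards [hop.mem_nhds h4] with x hx
        exact pen_far hs (le_of_lt hx)
      have hz : ∀ l' : List Bool, 1 ≤ l'.length → DD l' (fun _ : ℂ => s) = fun _ => 0 := by
        intro l' hl'
        induction l' with
        | nil => simp at hl'
        | cons b t ih =>
          rcases Nat.eq_zero_or_pos t.length with ht | ht
          · have ht0 : t = [] := List.eq_nil_of_length_eq_zero ht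
            subst ht0
            funext x
            cases b
            · exact Dy_const s x
            · exact Dx_const s x
          · have ih' := ih ht
            funext x
            cases b
            · rw [DD_false, ih']
              exact Dy_const 0 x
            · rw [DD_true, ih']
              exact Dx_const 0 x
      rw [DD_congr hev l, hz l h0, abs_zero]
      positivity
  · -- near
    have hle : infDist y S ≤ 4 * s := not_lt.1 h4
    have hms : max (infDist y S) s ≤ 4 * s := max_le hle (by linarith)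
    have hsi : s⁻¹ ≤ 4 * (max (infDist y S) s)⁻¹ := by
      rw [← div_eq_mul_inv, le_div_iff₀ hmy, ← div_eq_inv_mul, div_le_iff₀ hs]
      exact hms
    rcases Nat.eq_zero_or_pos l.length with h0 | h0
    · have hl0 : l = [] := List.eq_nil_of_length_eq_zero h0
      subst hl0
      rw [DD_nil, abs_of_pos (lt_of_lt_of_le hs (pen_ge hB.le S y))]
      simp only [List.length_nil, add_zero]
      refine (pen_le hB.le S y).trans ?_
      have h1 : 1 ≤ 4 * (max (infDist y S) s)⁻¹ ^ 2 := by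
        have h2 : (2 : ℝ)⁻¹ ≤ (max (infDist y S) s)⁻¹ := inv_anti₀ hmy hm2
        have h3 : ((2 : ℝ)⁻¹) ^ 2 ≤ (max (infDist y S) s)⁻¹ ^ 2 :=
          pow_le_pow_left₀ (by norm_num) h2 2
        have h4' : ((2 : ℝ)⁻¹) ^ 2 = 1 / 4 := by norm_num
        rw [h4'] at h3
        linarith
      have h2 : Bpen / s ^ 2 ≤ 16 * Bpen * (max (infDist y S) s)⁻¹ ^ 2 := by
        calc Bpen / s ^ 2 = Bpen * s⁻¹ ^ 2 := by rw [inv_pow, div_eq_mul_inv]
          _ ≤ Bpen * (4 * (max (infDist y S) s)⁻¹) ^ 2 :=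
              mul_le_mul_of_nonneg_left (pow_le_pow_left₀ (by positivity) hsi 2) hB.le
          _ = 16 * Bpen * (max (infDist y S) s)⁻¹ ^ 2 := by ring
      have h5 : 0 ≤ (Cp * Bpen * 4 ^ 5) * (max (infDist y S) s)⁻¹ ^ 2 := by positivity
      nlinarith
    · refine (HP Bpen s S hB.le hs l h0 hl y).trans ?_
      have e1 : Cp * Bpen / s ^ (2 + l.length) = Cp * Bpen * s⁻¹ ^ (2 + l.length) := by
        rw [inv_pow, div_eq_mul_inv]
      rw [e1]
      calc Cp * Bpen * s⁻¹ ^ (2 + l.length)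
          ≤ Cp * Bpen * (4 * (max (infDist y S) s)⁻¹) ^ (2 + l.length) :=
            mul_le_mul_of_nonneg_left (pow_le_pow_left₀ (by positivity) hsi _) (by positivity)
        _ = (Cp * Bpen * 4 ^ (2 + l.length)) * (max (infDist y S) s)⁻¹ ^ (2 + l.length) := by
            rw [mul_pow]; ring
        _ ≤ (4 + 16 * Bpen + Cp * Bpen * 4 ^ 5) * (max (infDist y S) s)⁻¹ ^ (2 + l.length) := by
            refine mul_le_mul_of_nonneg_right ?_ (by positivity)
            have h6 : Cp * Bpen * 4 ^ (2 + l.length) ≤ Cp * Bpen * 4 ^ 5 :=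
              mul_le_mul_of_nonneg_left (pow_le_pow_right₀ (by norm_num) (by omega))
                (by positivity)
            linarith

theorem LiouvilleD_DD1_sub {f g : ℂ → ℝ} {z : ℂ} (e : Bool) (hf : DifferentiableAt ℝ f z)
    (hg : DifferentiableAt ℝ g z) :
    DD [e] (fun y => f y - g y) z = DD [e] f z - DD [e] g z := by
  cases e
  · exact Dy_sub hf hg
  · exact Dx_sub hf hg

theorem LiouvilleD_DD1_mul {f g : ℂ → ℝ} {z : ℂ} (e : Bool) (hf : DifferentiableAt ℝ f z)
    (hg : DifferentiableAt ℝ g z) :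
    DD [e] (fun y => f y * g y) z = DD [e] f z * g z + f z * DD [e] g z := by
  cases e
  · exact Dy_mul hf hg
  · exact Dx_mul hf hg

theorem LiouvilleD_DD1_exp {f : ℂ → ℝ} {z : ℂ} (e : Bool) (hf : DifferentiableAt ℝ f z) (c : ℝ) :
    DD [e] (fun y => Real.exp (c * f y)) z = c * Real.exp (c * f z) * DD [e] f z := by
  cases e
  · exact Dy_exp hf c
  · exact Dx_exp hf c

theorem LiouvilleD_DD1_const (e : Bool) (c : ℝ) (z : ℂ) : DD [e] (fun _ : ℂ => c) z = 0 := by
  cases e
  · exact Dy_const c z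
  · exact Dx_const c z

/-- Scale invariant bounds for the derivatives up to order three. Proof: let
`m = max (infDist z S) s`; on `ball z (m / 16)` the function `u = w + log m` is bounded, the
function `r² X` (`r = m / 16`) and its scaled derivatives are bounded (`pen_far` if
`infDist z S ≥ 8 s`, `pen_deriv` otherwise), hence `r² |Δ u|` is bounded and `interior_grad` bounds
`r |∇ w z|`. Since `z` is arbitrary this holds near `z` as well; apply `interior_grad` to
`r Dx w`, `r Dy w` (`Δ (Dx w) = 2 e^{2w} Dx w - Dx X`) and then to the second derivatives. -/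
theorem liouville_deriv (C₀ : ℝ) (hC₀ : 1 ≤ C₀) : ∃ C : ℝ, 1 ≤ C ∧ ∀ (a s : ℝ), 0 ≤ a →
    a ≤ 1 / 10 → 0 < s → s ≤ 1 → ∀ S : Set ℂ, IsClosed S → S.Nonempty → PerSet a S →
    ∀ w : ℂ → ℝ, ContDiff ℝ ∞ w → Per a w →
    (∀ z, Lap w z = Real.exp (2 * w z) - pen Bpen S s z) →
    (∀ z, 1 / C₀ ≤ Real.exp (w z) * max (infDist z S) s) →
    (∀ z, Real.exp (w z) * max (infDist z S) s ≤ C₀) →
    ∀ z, ∀ l : List Bool, 1 ≤ l.length → l.length ≤ 3 →
      |DD l w z| ≤ C * Real.exp (w z) ^ l.length := by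
  obtain ⟨Cg, hCg, HG⟩ := interior_grad
  obtain ⟨Kp, hKp, HP⟩ := LiouvilleD_pen
  have hC₀0 : 0 < C₀ := by linarith
  obtain ⟨K₁, hK₁⟩ : ∃ K₁ : ℝ, K₁ = 2 * Cg * (2 * C₀ + C₀ ^ 2 + Kp) := ⟨_, rfl⟩
  obtain ⟨K₂, hK₂⟩ : ∃ K₂ : ℝ, K₂ = 2 ^ (1 + 1) * Cg * (K₁ + (2 * C₀ ^ 2 * K₁ + Kp)) := ⟨_, rfl⟩
  obtain ⟨K₃, hK₃⟩ : ∃ K₃ : ℝ, K₃ = 2 ^ (2 + 1) * Cg *
    (K₂ + (4 * C₀ ^ 2 * K₁ ^ 2 + 2 * C₀ ^ 2 * K₂ + Kp)) := ⟨_, rfl⟩
  have hK₁0 : 0 < K₁ := by rw [hK₁]; positivity
  have hK₂0 : 0 < K₂ := by rw [hK₂]; positivity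
  have hK₃0 : 0 < K₃ := by rw [hK₃]; positivity
  refine ⟨1 + K₁ * C₀ + K₂ * C₀ ^ 2 + K₃ * C₀ ^ 3, ?_, ?_⟩
  · have : 0 < K₁ * C₀ + K₂ * C₀ ^ 2 + K₃ * C₀ ^ 3 := by positivity
    linarith
  intro a s ha0 ha hs hs1 S hS hne hSp w hw hwp hsol hlo hup
  have hP := HP a s ha0 ha hs hs1 S hS hne hSp
  have hm0 : ∀ y : ℂ, 0 < max (infDist y S) s := fun y => lt_max_of_lt_right hs
  have hd : ∀ l : List Bool, Differentiable ℝ (DD l w) := fun l =>
    (contDiff_DD hw l).differentiable (by simp)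
  have hdw : Differentiable ℝ w := hd []
  have hpd : ∀ l : List Bool, Differentiable ℝ (DD l (pen Bpen S s)) := fun l =>
    (contDiff_DD (pen_contDiff hs S) l).differentiable (by simp)
  -- the exponential
  have hg : ∀ y, Real.exp (2 * w y) ≤ C₀ ^ 2 * (max (infDist y S) s)⁻¹ ^ 2 := by
    intro y
    have h1 : Real.exp (w y) ≤ C₀ * (max (infDist y S) s)⁻¹ := by
      rw [← div_eq_mul_inv, le_div_iff₀ (hm0 y)]
      exact hup y
    have h2 : Real.exp (2 * w y) = Real.exp (w y) ^ 2 := by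
      rw [← Real.exp_nat_mul]
      norm_num
    rw [h2, ← mul_pow]
    exact pow_le_pow_left₀ (Real.exp_pos _).le h1 2
  have hge : Differentiable ℝ (fun y => Real.exp (2 * w y)) :=
    ((hd []).const_mul 2).exp
  have hL0 : Lap w = fun y => Real.exp (2 * w y) - DD [] (pen Bpen S s) y := funext hsol
  have hL1 : ∀ e : Bool, Lap (DD [e] w) = fun y =>
      (2 * Real.exp (2 * w y)) * DD [e] w y - DD [e] (pen Bpen S s) y := by
    intro e
    rw [← SchauderB_DD_Lap hw [e], hL0]
    funext y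
    rw [LiouvilleD_DD1_sub e (hge y) (hpd [] y), LiouvilleD_DD1_exp e (hdw y) 2]
    rfl
  have hL2 : ∀ e' e : Bool, Lap (DD [e', e] w) = fun y =>
      (4 * Real.exp (2 * w y) * DD [e'] w y) * DD [e] w y +
        (2 * Real.exp (2 * w y)) * DD [e', e] w y - DD [e', e] (pen Bpen S s) y := by
    intro e' e
    have h1 : DD [e', e] w = DD [e'] (DD [e] w) := DD_append [e'] [e] w
    have h2 : DD [e', e] (pen Bpen S s) = DD [e'] (DD [e] (pen Bpen S s)) := DD_append [e'] [e] _
    have h3 : DD [e'] (Lap (DD [e] w)) = Lap (DD [e'] (DD [e] w)) :=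
      SchauderB_DD_Lap (contDiff_DD hw [e]) [e']
    rw [h1, ← h3, hL1 e]
    funext y
    have d2 : DifferentiableAt ℝ (fun y => 2 * Real.exp (2 * w y)) y := (hge y).const_mul 2
    have d3 : DifferentiableAt ℝ (fun y => (2 * Real.exp (2 * w y)) * DD [e] w y) y :=
      d2.mul (hd [e] y)
    rw [LiouvilleD_DD1_sub e' d3 (hpd [e] y), LiouvilleD_DD1_mul e' d2 (hd [e] y),
      LiouvilleD_DD1_mul e' (differentiableAt_const 2) (hge y), LiouvilleD_DD1_const,
      LiouvilleD_DD1_exp e' (hdw y) 2, ← h2]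
    ring
  -- first derivatives
  have h1 : ∀ (e : Bool) (z : ℂ), |DD [e] w z| ≤ K₁ * (max (infDist z S) s)⁻¹ ^ 1 := by
    intro e z
    have hm := hm0 z
    have hu : ContDiff ℝ ∞ (fun y => w y + Real.log (max (infDist z S) s)) :=
      hw.add contDiff_const
    have hDe : ∀ y, DD [e] (fun y => w y + Real.log (max (infDist z S) s)) y = DD [e] w y := by
      intro y
      cases e
      · show Dy (fun y => w y + Real.log (max (infDist z S) s)) y = Dy w y
        rw [Dy_add (hdw y) (differentiableAt_const _), Dy_const, add_zero]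
      · show Dx (fun y => w y + Real.log (max (infDist z S) s)) y = Dx w y
        rw [Dx_add (hdw y) (differentiableAt_const _), Dx_const, add_zero]
    have hLu : ∀ y, Lap (fun y => w y + Real.log (max (infDist z S) s)) y = Lap w y := by
      intro y
      have e1 : Dx (fun y => w y + Real.log (max (infDist z S) s)) = Dx w := by
        funext x
        rw [Dx_add (hdw x) (differentiableAt_const _), Dx_const, add_zero]
      have e2 : Dy (fun y => w y + Real.log (max (infDist z S) s)) = Dy w := by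
        funext x
        rw [Dy_add (hdw x) (differentiableAt_const _), Dy_const, add_zero]
      rw [Lap, e1, e2]
      rfl
    have key := HG _ z (max (infDist z S) s / 2) (2 * C₀ + C₀ ^ 2 + Kp) hu (by positivity) ?_ ?_ z
      (mem_ball_self (by positivity)) [e] rfl
    · rw [hDe] at key
      have h2 : |DD [e] w z| = (2 * (max (infDist z S) s)⁻¹) *
          (max (infDist z S) s / 2 * |DD [e] w z|) := by
        field_simp
      rw [h2, hK₁, pow_one]
      calc (2 * (max (infDist z S) s)⁻¹) * (max (infDist z S) s / 2 * |DD [e] w z|)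
          ≤ (2 * (max (infDist z S) s)⁻¹) * (Cg * (2 * C₀ + C₀ ^ 2 + Kp)) :=
            mul_le_mul_of_nonneg_left key (by positivity)
        _ = 2 * Cg * (2 * C₀ + C₀ ^ 2 + Kp) * (max (infDist z S) s)⁻¹ := by ring
    · intro y hy
      obtain ⟨m1, m2⟩ := LiouvilleD_m_half hy
      have hmy := hm0 y
      have l1 : Real.exp (w y + Real.log (max (infDist z S) s)) =
          Real.exp (w y) * max (infDist z S) s := by
        rw [Real.exp_add, Real.exp_log hm]
      have l2 : Real.exp (w y + Real.log (max (infDist z S) s)) ≤ 2 * C₀ := by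
        rw [l1]
        calc Real.exp (w y) * max (infDist z S) s
            ≤ Real.exp (w y) * (2 * max (infDist y S) s) :=
              mul_le_mul_of_nonneg_left (by linarith) (Real.exp_pos _).le
          _ = 2 * (Real.exp (w y) * max (infDist y S) s) := by ring
          _ ≤ 2 * C₀ := by linarith [hup y]
      have l3 : 1 / (2 * C₀) ≤ Real.exp (w y + Real.log (max (infDist z S) s)) := by
        rw [l1]
        calc 1 / (2 * C₀) = 1 / 2 * (1 / C₀) := by field_simp
          _ ≤ 1 / 2 * (Real.exp (w y) * max (infDist y S) s) := by linarith [hlo y]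
          _ ≤ 1 / 2 * (Real.exp (w y) * (2 * max (infDist z S) s)) := by
              refine mul_le_mul_of_nonneg_left ?_ (by norm_num)
              exact mul_le_mul_of_nonneg_left m2 (Real.exp_pos _).le
          _ = Real.exp (w y) * max (infDist z S) s := by ring
      have l4 : w y + Real.log (max (infDist z S) s) ≤ 2 * C₀ := by
        have := Real.add_one_le_exp (w y + Real.log (max (infDist z S) s))
        linarith
      have l5 : -(2 * C₀) ≤ w y + Real.log (max (infDist z S) s) := by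
        have h3 := Real.add_one_le_exp (-(w y + Real.log (max (infDist z S) s)))
        rw [Real.exp_neg] at h3
        have h4 : (Real.exp (w y + Real.log (max (infDist z S) s)))⁻¹ ≤ 2 * C₀ := by
          have h5 := inv_anti₀ (by positivity) l3
          rw [one_div, inv_inv] at h5
          exact h5
        linarith
      have l6 : 0 < C₀ ^ 2 + Kp := by positivity
      rw [abs_le]
      constructor <;> linarith
    · intro y hy
      obtain ⟨m1, m2⟩ := LiouvilleD_m_half hy
      have hmy := hm0 y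
      rw [hLu, hL0]
      have l1 := hg y
      have l2 := hP [] (by simp) y
      have l3 : |Real.exp (2 * w y) - DD [] (pen Bpen S s) y| ≤
          (C₀ ^ 2 + Kp) * (max (infDist y S) s)⁻¹ ^ 2 := by
        refine (abs_sub _ _).trans ?_
        rw [abs_of_pos (Real.exp_pos _), add_mul]
        exact add_le_add l1 (by simpa using l2)
      calc (max (infDist z S) s / 2) ^ 2 * |Real.exp (2 * w y) - DD [] (pen Bpen S s) y|
          ≤ (max (infDist y S) s) ^ 2 * ((C₀ ^ 2 + Kp) * (max (infDist y S) s)⁻¹ ^ 2) :=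
            mul_le_mul (pow_le_pow_left₀ (by positivity) m1 2) l3 (abs_nonneg _) (by positivity)
        _ = C₀ ^ 2 + Kp := by
            field_simp
        _ ≤ 2 * C₀ + C₀ ^ 2 + Kp := by linarith
  -- second derivatives
  have h2 : ∀ (e' e : Bool) (z : ℂ), |DD [e', e] w z| ≤ K₂ * (max (infDist z S) s)⁻¹ ^ 2 := by
    intro e' e z
    have h3 := LiouvilleD_step hCg HG hs (S := S) (v := DD [e] w) (contDiff_DD hw [e]) (A := K₁)
      (B := 2 * C₀ ^ 2 * K₁ + Kp) 1 hK₁0.le (by positivity) (h1 e) ?_ z e'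
    · rw [← DD_append, ← hK₂] at h3
      exact h3
    · intro y
      have hmy := hm0 y
      rw [hL1 e]
      refine (abs_sub _ _).trans ?_
      have l1 : |2 * Real.exp (2 * w y) * DD [e] w y| ≤
          2 * (C₀ ^ 2 * (max (infDist y S) s)⁻¹ ^ 2) * (K₁ * (max (infDist y S) s)⁻¹ ^ 1) := by
        rw [abs_mul, abs_of_pos (by positivity)]
        refine mul_le_mul (by linarith [hg y]) (h1 e y) (abs_nonneg _) (by positivity)
      have l2 : |DD [e] (pen Bpen S s) y| ≤ Kp * (max (infDist y S) s)⁻¹ ^ 3 := hP [e] (by simp) y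
      calc |2 * Real.exp (2 * w y) * DD [e] w y| + |DD [e] (pen Bpen S s) y|
          ≤ 2 * (C₀ ^ 2 * (max (infDist y S) s)⁻¹ ^ 2) * (K₁ * (max (infDist y S) s)⁻¹ ^ 1) +
            Kp * (max (infDist y S) s)⁻¹ ^ 3 := add_le_add l1 l2
        _ = (2 * C₀ ^ 2 * K₁ + Kp) * (max (infDist y S) s)⁻¹ ^ (1 + 2) := by ring
  -- third derivatives
  have h3 : ∀ (e'' e' e : Bool) (z : ℂ),
      |DD [e'', e', e] w z| ≤ K₃ * (max (infDist z S) s)⁻¹ ^ 3 := by
    intro e'' e' e z
    have h3 := LiouvilleD_step hCg HG hs (S := S) (v := DD [e', e] w) (contDiff_DD hw [e', e])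
      (A := K₂) (B := 4 * C₀ ^ 2 * K₁ ^ 2 + 2 * C₀ ^ 2 * K₂ + Kp) 2 hK₂0.le (by positivity)
      (h2 e' e) ?_ z e''
    · rw [← DD_append, ← hK₃] at h3
      exact h3
    · intro y
      have hmy := hm0 y
      rw [hL2 e' e]
      refine (abs_sub _ _).trans ((add_le_add (abs_add_le _ _) le_rfl).trans ?_)
      have l1 : |4 * Real.exp (2 * w y) * DD [e'] w y * DD [e] w y| ≤
          (4 * (C₀ ^ 2 * (max (infDist y S) s)⁻¹ ^ 2) * (K₁ * (max (infDist y S) s)⁻¹ ^ 1)) *
            (K₁ * (max (infDist y S) s)⁻¹ ^ 1) := by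
        rw [abs_mul, abs_mul, abs_of_pos (show 0 < 4 * Real.exp (2 * w y) by positivity)]
        refine mul_le_mul ?_ (h1 e y) (abs_nonneg _) (by positivity)
        exact mul_le_mul (by linarith [hg y]) (h1 e' y) (abs_nonneg _) (by positivity)
      have l3 : |2 * Real.exp (2 * w y) * DD [e', e] w y| ≤
          2 * (C₀ ^ 2 * (max (infDist y S) s)⁻¹ ^ 2) * (K₂ * (max (infDist y S) s)⁻¹ ^ 2) := by
        rw [abs_mul, abs_of_pos (show 0 < 2 * Real.exp (2 * w y) by positivity)]
        exact mul_le_mul (by linarith [hg y]) (h2 e' e y) (abs_nonneg _) (by positivity)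
      have l2 : |DD [e', e] (pen Bpen S s) y| ≤ Kp * (max (infDist y S) s)⁻¹ ^ 4 :=
        hP [e', e] (by simp) y
      calc |4 * Real.exp (2 * w y) * DD [e'] w y * DD [e] w y| +
            |2 * Real.exp (2 * w y) * DD [e', e] w y| + |DD [e', e] (pen Bpen S s) y|
          ≤ (4 * (C₀ ^ 2 * (max (infDist y S) s)⁻¹ ^ 2) * (K₁ * (max (infDist y S) s)⁻¹ ^ 1)) *
            (K₁ * (max (infDist y S) s)⁻¹ ^ 1) +
            2 * (C₀ ^ 2 * (max (infDist y S) s)⁻¹ ^ 2) * (K₂ * (max (infDist y S) s)⁻¹ ^ 2) +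
            Kp * (max (infDist y S) s)⁻¹ ^ 4 := add_le_add (add_le_add l1 l3) l2
        _ = (4 * C₀ ^ 2 * K₁ ^ 2 + 2 * C₀ ^ 2 * K₂ + Kp) *
              (max (infDist y S) s)⁻¹ ^ (2 + 2) := by ring
  -- conclusion
  intro z l hl1 hl3
  have hmz := hm0 z
  have hinv : (max (infDist z S) s)⁻¹ ≤ C₀ * Real.exp (w z) := by
    have h4 := hlo z
    rw [div_le_iff₀ hC₀0] at h4
    rw [inv_le_iff_one_le_mul₀ hmz]
    linarith
  have hE := Real.exp_pos (w z)
  have p1 : 0 ≤ K₁ * C₀ := by positivity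
  have p2 : 0 ≤ K₂ * C₀ ^ 2 := by positivity
  have p3 : 0 ≤ K₃ * C₀ ^ 3 := by positivity
  have fin : ∀ (K : ℝ) (n : ℕ), 0 ≤ K →
      K * (max (infDist z S) s)⁻¹ ^ n ≤ (K * C₀ ^ n) * Real.exp (w z) ^ n := by
    intro K n hK
    calc K * (max (infDist z S) s)⁻¹ ^ n ≤ K * (C₀ * Real.exp (w z)) ^ n :=
          mul_le_mul_of_nonneg_left (pow_le_pow_left₀ (by positivity) hinv n) hK
      _ = (K * C₀ ^ n) * Real.exp (w z) ^ n := by rw [mul_pow]; ring
  match l, hl1, hl3 with
  | [], h, _ => simp at h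
  | [e], _, _ =>
    refine (h1 e z).trans ((fin K₁ 1 hK₁0.le).trans ?_)
    refine mul_le_mul_of_nonneg_right ?_ (by positivity)
    rw [pow_one]
    linarith
  | [e', e], _, _ =>
    refine (h2 e' e z).trans ((fin K₂ 2 hK₂0.le).trans ?_)
    exact mul_le_mul_of_nonneg_right (by linarith) (by positivity)
  | [e'', e', e], _, _ =>
    refine (h3 e'' e' e z).trans ((fin K₃ 3 hK₃0.le).trans ?_)
    exact mul_le_mul_of_nonneg_right (by linarith) (by positivity)
  | _ :: _ :: _ :: _ :: t, _, h => simp at h; omega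

end Pool.Agent.KK
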