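import Pool.Agent.W_bb4b37_h53.CalcB
import Pool.Agent.W_bb4b37_h53.CalcE

/-!
# Scaled Hölder classes

`w₀` is the logarithm of the scale: `e^{-w₀ z}` is the unit of length at `z`.
-/

set_option autoImplicit false

open Filter Topology Set MeasureTheory Metric
open scoped ContDiff

namespace Pool.Agent.KK

/-- `f` is bounded by `M ρ^p` and Hölder continuous (exponent `1/2`) with constant `M ρ^p` at the
scale `1/ρ`, `ρ = e^{w₀}`; only pairs with `ρ z * ‖y - z‖ ≤ κ` are considered. -/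
structure SH (κ : ℝ) (w₀ : ℂ → ℝ) (p : ℤ) (M : ℝ) (f : ℂ → ℝ) : Prop where
  bd : ∀ z, |f z| ≤ M * Real.exp (w₀ z) ^ p
  hol : ∀ z y, Real.exp (w₀ z) * ‖y - z‖ ≤ κ →
    |f y - f z| ≤ M * Real.exp (w₀ z) ^ p * Real.sqrt (Real.exp (w₀ z) * ‖y - z‖)

/-- `v` together with its first and second derivatives is in the scaled Hölder classes. -/
structure WB (κ : ℝ) (w₀ : ℂ → ℝ) (M : ℝ) (v : ℂ → ℝ) : Prop where
  b0 : SH κ w₀ 0 M v
  b1 : ∀ l : List Bool, l.length = 1 → SH κ w₀ 1 M (DD l v)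
  b2 : ∀ l : List Bool, l.length = 2 → SH κ w₀ 2 M (DD l v)

/-- Scale invariant bounds for the background `w₀` up to order three. -/
def Bg (C : ℝ) (w₀ : ℂ → ℝ) : Prop :=
  ContDiff ℝ ∞ w₀ ∧ ∀ z, ∀ l : List Bool, 1 ≤ l.length → l.length ≤ 3 →
    |DD l w₀ z| ≤ C * Real.exp (w₀ z) ^ l.length

/-- The nonlinear right side. -/
noncomputable def RR (ε : ℝ) (w₀ v : ℂ → ℝ) (z : ℂ) : ℝ :=
  Real.exp (2 * w₀ z) * (Real.exp (2 * v z) - 1 - 2 * v z) + ε ^ 2 * QQ ε (fun y => w₀ y + v y) z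

/-- Variation of the reciprocal of the scale. -/
theorem NlinDefsA_recip {C : ℝ} {w₀ : ℂ → ℝ} (hw : Bg C w₀) (z y : ℂ) :
    |Real.exp (-(w₀ y)) - Real.exp (-(w₀ z))| ≤ 2 * C * ‖y - z‖ := by
  have hd : Differentiable ℝ w₀ := hw.1.differentiable (by simp)
  have hd' : Differentiable ℝ (fun x => Real.exp ((-1) * w₀ x)) :=
    (hd.const_mul (-1)).exp
  have key := mean_value_univ (K := C) hd' (fun x l hl => by
    have hb := hw.2 x l (by omega) (by omega)
    obtain ⟨b, rfl⟩ := List.length_eq_one_iff.1 hl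
    have hE : Real.exp ((-1) * w₀ x) * Real.exp (w₀ x) = 1 := by
      rw [← Real.exp_add]; simp
    have hp : 0 < Real.exp ((-1) * w₀ x) := Real.exp_pos _
    cases b with
    | true =>
      simp only [DD_true, DD_nil, List.length_singleton, pow_one] at hb ⊢
      rw [Dx_exp hd.differentiableAt (-1), Real.norm_eq_abs, abs_mul, abs_mul, abs_neg, abs_one,
        one_mul, abs_of_pos hp]
      calc Real.exp ((-1) * w₀ x) * |Dx w₀ x|
          ≤ Real.exp ((-1) * w₀ x) * (C * Real.exp (w₀ x)) := by gcongr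
        _ = C * (Real.exp ((-1) * w₀ x) * Real.exp (w₀ x)) := by ring
        _ = C := by rw [hE, mul_one]
    | false =>
      simp only [DD_false, DD_nil, List.length_singleton, pow_one] at hb ⊢
      rw [Dy_exp hd.differentiableAt (-1), Real.norm_eq_abs, abs_mul, abs_mul, abs_neg, abs_one,
        one_mul, abs_of_pos hp]
      calc Real.exp ((-1) * w₀ x) * |Dy w₀ x|
          ≤ Real.exp ((-1) * w₀ x) * (C * Real.exp (w₀ x)) := by gcongr
        _ = C * (Real.exp ((-1) * w₀ x) * Real.exp (w₀ x)) := by ring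
        _ = C := by rw [hE, mul_one]) y z
  rw [Real.norm_eq_abs] at key
  simpa [neg_one_mul] using key

/-- The quotient of the reciprocal scales. -/
theorem NlinDefsA_quot {C : ℝ} {w₀ : ℂ → ℝ} (hw : Bg C w₀) (z y : ℂ) :
    |Real.exp (w₀ z - w₀ y) - 1| ≤ 2 * C * (Real.exp (w₀ z) * ‖y - z‖) := by
  have h := NlinDefsA_recip hw z y
  have hp : 0 < Real.exp (w₀ z) := Real.exp_pos _
  have e : Real.exp (w₀ z - w₀ y) - 1
      = Real.exp (w₀ z) * (Real.exp (-(w₀ y)) - Real.exp (-(w₀ z))) := by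
    rw [mul_sub, ← Real.exp_add, ← Real.exp_add, add_neg_cancel, Real.exp_zero,
      sub_eq_add_neg (w₀ z)]
  rw [e, abs_mul, abs_of_pos hp]
  calc Real.exp (w₀ z) * |Real.exp (-(w₀ y)) - Real.exp (-(w₀ z))|
      ≤ Real.exp (w₀ z) * (2 * C * ‖y - z‖) := by gcongr
    _ = 2 * C * (Real.exp (w₀ z) * ‖y - z‖) := by ring

/-- Slow variation, with a larger radius. -/
theorem NlinDefsA_slow {C : ℝ} (hC : 1 ≤ C) {w₀ : ℂ → ℝ} (hw : Bg C w₀) {z y : ℂ}
    (h : Real.exp (w₀ z) * ‖y - z‖ ≤ 1 / (8 * C)) :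
    Real.exp (w₀ y) ≤ 2 * Real.exp (w₀ z) ∧ Real.exp (w₀ z) ≤ 2 * Real.exp (w₀ y) := by
  have h1 := NlinDefsA_quot hw z y
  have hC0 : 0 < C := by linarith
  have h2 : 2 * C * (Real.exp (w₀ z) * ‖y - z‖) ≤ 1 / 4 := by
    calc 2 * C * (Real.exp (w₀ z) * ‖y - z‖) ≤ 2 * C * (1 / (8 * C)) := by gcongr
      _ = 1 / 4 := by field_simp; norm_num
  have h3 := abs_le.1 (h1.trans h2)
  have e : Real.exp (w₀ z) = Real.exp (w₀ z - w₀ y) * Real.exp (w₀ y) := by
    rw [← Real.exp_add]; simp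
  have hy : 0 < Real.exp (w₀ y) := Real.exp_pos _
  constructor
  · rw [e]; nlinarith [h3.1, h3.2]
  · rw [e]; nlinarith [h3.1, h3.2]

/-- Powers close to one. -/
theorem NlinDefsA_pow {a : ℝ} (h0 : 0 ≤ a) (h2 : a ≤ 2) (n : ℕ) :
    |a ^ n - 1| ≤ (2 ^ n - 1) * |a - 1| := by
  induction n with
  | zero => simp
  | succ n ih =>
    have e : a ^ (n + 1) - 1 = a * (a ^ n - 1) + (a - 1) := by ring
    rw [e]
    calc |a * (a ^ n - 1) + (a - 1)| ≤ |a * (a ^ n - 1)| + |a - 1| := abs_add_le _ _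
      _ = a * |a ^ n - 1| + |a - 1| := by rw [abs_mul, abs_of_nonneg h0]
      _ ≤ 2 * ((2 ^ n - 1) * |a - 1|) + |a - 1| := by
          have : 0 ≤ |a ^ n - 1| := abs_nonneg _
          nlinarith
      _ = (2 ^ (n + 1) - 1) * |a - 1| := by ring

theorem NlinDefsA_sqrt {t : ℝ} (h0 : 0 ≤ t) (h1 : t ≤ 1) :
    t ≤ Real.sqrt t ∧ Real.sqrt t ≤ 1 := by
  constructor
  · apply Real.le_sqrt_of_sq_le
    nlinarith
  · rw [Real.sqrt_le_left (by norm_num)]
    linarith

theorem NlinDefsA_pow8 {a : ℝ} (h0 : 0 ≤ a) (h2 : a ≤ 2) {n : ℕ} (hn : n ≤ 8) :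
    |a ^ n - 1| ≤ 255 * |a - 1| := by
  refine (NlinDefsA_pow h0 h2 n).trans ?_
  have : (2 : ℝ) ^ n ≤ 2 ^ 8 := pow_le_pow_right₀ (by norm_num) hn
  have h3 : (2 : ℝ) ^ n - 1 ≤ 255 := by linarith [this, (by norm_num : (2 : ℝ) ^ 8 = 256)]
  exact mul_le_mul_of_nonneg_right h3 (abs_nonneg _)

/-- Slow variation of the scale: `1/ρ` has gradient at most `2 C`, so for
`ρ z ‖y - z‖ ≤ 1 / (16 C)` the ratio `ρ y / ρ z` is between `1/2` and `2`. -/
theorem slow {C : ℝ} (hC : 1 ≤ C) {w₀ : ℂ → ℝ} (hw : Bg C w₀) {z y : ℂ}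
    (h : Real.exp (w₀ z) * ‖y - z‖ ≤ 1 / (16 * C)) :
    Real.exp (w₀ y) ≤ 2 * Real.exp (w₀ z) ∧ Real.exp (w₀ z) ≤ 2 * Real.exp (w₀ y) := by
  refine NlinDefsA_slow hC hw (h.trans ?_)
  have hC0 : 0 < C := by linarith
  gcongr
  norm_num

/-- Algebra of the classes (`κ = 1 / (16 C)`). -/
theorem SH.add {κ : ℝ} {w₀ : ℂ → ℝ} {p : ℤ} {M N : ℝ} {f g : ℂ → ℝ} (hf : SH κ w₀ p M f)
    (hg : SH κ w₀ p N g) : SH κ w₀ p (M + N) (fun z => f z + g z) := by
  constructor
  · intro z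
    calc |f z + g z| ≤ |f z| + |g z| := abs_add_le _ _
      _ ≤ M * Real.exp (w₀ z) ^ p + N * Real.exp (w₀ z) ^ p := add_le_add (hf.bd z) (hg.bd z)
      _ = (M + N) * Real.exp (w₀ z) ^ p := by ring
  · intro z y h
    have e : f y + g y - (f z + g z) = (f y - f z) + (g y - g z) := by ring
    calc |f y + g y - (f z + g z)| = |(f y - f z) + (g y - g z)| := by rw [e]
      _ ≤ |f y - f z| + |g y - g z| := abs_add_le _ _
      _ ≤ M * Real.exp (w₀ z) ^ p * Real.sqrt (Real.exp (w₀ z) * ‖y - z‖)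
          + N * Real.exp (w₀ z) ^ p * Real.sqrt (Real.exp (w₀ z) * ‖y - z‖) :=
          add_le_add (hf.hol z y h) (hg.hol z y h)
      _ = (M + N) * Real.exp (w₀ z) ^ p * Real.sqrt (Real.exp (w₀ z) * ‖y - z‖) := by ring

theorem SH.sub {κ : ℝ} {w₀ : ℂ → ℝ} {p : ℤ} {M N : ℝ} {f g : ℂ → ℝ} (hf : SH κ w₀ p M f)
    (hg : SH κ w₀ p N g) : SH κ w₀ p (M + N) (fun z => f z - g z) := by
  constructor
  · intro z
    calc |f z - g z| ≤ |f z| + |g z| := abs_sub _ _
      _ ≤ M * Real.exp (w₀ z) ^ p + N * Real.exp (w₀ z) ^ p := add_le_add (hf.bd z) (hg.bd z)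
      _ = (M + N) * Real.exp (w₀ z) ^ p := by ring
  · intro z y h
    have e : f y - g y - (f z - g z) = (f y - f z) - (g y - g z) := by ring
    calc |f y - g y - (f z - g z)| = |(f y - f z) - (g y - g z)| := by rw [e]
      _ ≤ |f y - f z| + |g y - g z| := abs_sub _ _
      _ ≤ M * Real.exp (w₀ z) ^ p * Real.sqrt (Real.exp (w₀ z) * ‖y - z‖)
          + N * Real.exp (w₀ z) ^ p * Real.sqrt (Real.exp (w₀ z) * ‖y - z‖) :=
          add_le_add (hf.hol z y h) (hg.hol z y h)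
      _ = (M + N) * Real.exp (w₀ z) ^ p * Real.sqrt (Real.exp (w₀ z) * ‖y - z‖) := by ring

theorem SH.const_mul {κ : ℝ} {w₀ : ℂ → ℝ} {p : ℤ} {M : ℝ} {f : ℂ → ℝ} (hf : SH κ w₀ p M f)
    (c : ℝ) : SH κ w₀ p (|c| * M) (fun z => c * f z) := by
  constructor
  · intro z
    rw [abs_mul, mul_assoc]
    exact mul_le_mul_of_nonneg_left (hf.bd z) (abs_nonneg c)
  · intro z y h
    rw [← mul_sub, abs_mul, mul_assoc, mul_assoc, ← mul_assoc M]
    exact mul_le_mul_of_nonneg_left (hf.hol z y h) (abs_nonneg c)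

theorem SH.mono {κ : ℝ} {w₀ : ℂ → ℝ} {p : ℤ} {M N : ℝ} {f : ℂ → ℝ} (hf : SH κ w₀ p M f)
    (h : M ≤ N) : SH κ w₀ p N f := by
  constructor
  · intro z
    refine (hf.bd z).trans ?_
    have : 0 ≤ Real.exp (w₀ z) ^ p := by positivity
    gcongr
  · intro z y h'
    refine (hf.hol z y h').trans ?_
    gcongr

theorem SH.mul {C : ℝ} (hC : 1 ≤ C) {w₀ : ℂ → ℝ} (hw : Bg C w₀) {p q : ℤ} (hq : |q| ≤ 8)
    {M N : ℝ} (hM : 0 ≤ M) (hN : 0 ≤ N) {f g : ℂ → ℝ} (hf : SH (1 / (16 * C)) w₀ p M f)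
    (hg : SH (1 / (16 * C)) w₀ q N g) :
    SH (1 / (16 * C)) w₀ (p + q) (1000 * M * N) (fun z => f z * g z) := by
  have hC0 : 0 < C := by linarith
  constructor
  · intro z
    have h1 := hf.bd z
    have h2 := hg.bd z
    rw [abs_mul, zpow_add₀ (Real.exp_ne_zero _)]
    have hA : 0 < Real.exp (w₀ z) ^ p := by positivity
    have hB : 0 < Real.exp (w₀ z) ^ q := by positivity
    calc |f z| * |g z| ≤ (M * Real.exp (w₀ z) ^ p) * (N * Real.exp (w₀ z) ^ q) := by gcongr
      _ = 1 * (M * N * (Real.exp (w₀ z) ^ p * Real.exp (w₀ z) ^ q)) := by ring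
      _ ≤ 1000 * (M * N * (Real.exp (w₀ z) ^ p * Real.exp (w₀ z) ^ q)) := by gcongr; norm_num
      _ = 1000 * M * N * (Real.exp (w₀ z) ^ p * Real.exp (w₀ z) ^ q) := by ring
  · intro z y h
    have f1 := hf.bd z
    have g1 := hg.bd z
    have f2 := hf.hol z y h
    have g2 := hg.hol z y h
    rw [zpow_add₀ (Real.exp_ne_zero _)]
    have hA : 0 < Real.exp (w₀ z) ^ p := by positivity
    have hB : 0 < Real.exp (w₀ z) ^ q := by positivity
    set A := Real.exp (w₀ z) ^ p with hAd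
    set B := Real.exp (w₀ z) ^ q with hBd
    set t := Real.sqrt (Real.exp (w₀ z) * ‖y - z‖) with htd
    have ht0 : 0 ≤ t := Real.sqrt_nonneg _
    have ht1 : t ≤ 1 := by
      refine (NlinDefsA_sqrt (by positivity) (h.trans ?_)).2
      rw [div_le_one (by positivity)]
      linarith
    have f3 : |f y| ≤ 2 * (M * A) := by
      have : |f y| ≤ |f y - f z| + |f z| := by
        have := abs_add_le (f y - f z) (f z)
        rwa [sub_add_cancel] at this
      have h5 : M * A * t ≤ M * A * 1 := by gcongr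
      linarith
    have e : f y * g y - f z * g z = f y * (g y - g z) + (f y - f z) * g z := by ring
    calc |f y * g y - f z * g z| = |f y * (g y - g z) + (f y - f z) * g z| := by rw [e]
      _ ≤ |f y * (g y - g z)| + |(f y - f z) * g z| := abs_add_le _ _
      _ = |f y| * |g y - g z| + |f y - f z| * |g z| := by rw [abs_mul, abs_mul]
      _ ≤ (2 * (M * A)) * (N * B * t) + (M * A * t) * (N * B) := by gcongr
      _ = 3 * (M * N * (A * B) * t) := by ring
      _ ≤ 1000 * (M * N * (A * B) * t) := by gcongr; norm_num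
      _ = 1000 * M * N * (A * B) * t := by ring

/-- The powers of `ρ` and the derivatives of `w₀` belong to the classes. -/
theorem SH.exp_bg {C : ℝ} (hC : 1 ≤ C) {w₀ : ℂ → ℝ} (hw : Bg C w₀) (p : ℤ) (hp : |p| ≤ 8) :
    SH (1 / (16 * C)) w₀ p (1000 * C) (fun z => Real.exp (w₀ z) ^ p) := by
  have hC0 : 0 < C := by linarith
  constructor
  · intro z
    have hA : 0 < Real.exp (w₀ z) ^ p := by positivity
    rw [abs_of_pos hA]
    have : 1 * Real.exp (w₀ z) ^ p ≤ 1000 * C * Real.exp (w₀ z) ^ p := by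
      gcongr
      linarith
    linarith
  · intro z y h
    have hA : 0 < Real.exp (w₀ z) ^ p := by positivity
    have hu := NlinDefsA_quot hw z y
    have hs := NlinDefsA_slow hC hw (z := z) (y := y) (h.trans (by gcongr; norm_num))
    set t := Real.exp (w₀ z) * ‖y - z‖ with htd
    have ht0 : 0 ≤ t := by positivity
    have ht1 : t ≤ 1 := by
      refine h.trans ?_
      rw [div_le_one (by positivity)]
      linarith
    have hts : t ≤ Real.sqrt t := by
      exact (NlinDefsA_sqrt ht0 ht1).1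
    have hu8 : 2 * C * t ≤ 1 / 8 := by
      calc 2 * C * t ≤ 2 * C * (1 / (16 * C)) := by gcongr
        _ = 1 / 8 := by field_simp; norm_num
    have hu9 := abs_le.1 (hu.trans hu8)
    have hCt : 0 ≤ C * t := by positivity
    have hau : Real.exp (w₀ y - w₀ z) * Real.exp (w₀ z - w₀ y) = 1 := by
      rw [← Real.exp_add]; simp
    have hkey : |Real.exp (w₀ y - w₀ z) ^ p - 1| ≤ 1000 * C * t := by
      obtain ⟨n, rfl | rfl⟩ := Int.eq_nat_or_neg p
      · have hn : n ≤ 8 := by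
          rw [Nat.abs_cast] at hp
          exact_mod_cast hp
        rw [zpow_natCast]
        set a := Real.exp (w₀ y - w₀ z) with ha
        set u := Real.exp (w₀ z - w₀ y) with hud
        have ha0 : 0 < a := Real.exp_pos _
        have ha1 : a ≤ 8 / 7 := by nlinarith [hu9.1]
        have ha2 : |a - 1| ≤ 8 / 7 * (2 * C * t) := by
          have e : a - 1 = a * (1 - u) := by rw [mul_sub, hau, mul_one]
          rw [e, abs_mul, abs_of_pos ha0, abs_sub_comm]
          gcongr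
        have := NlinDefsA_pow8 ha0.le (by linarith : a ≤ 2) hn
        nlinarith
      · have hn : n ≤ 8 := by
          rw [abs_neg, Nat.abs_cast] at hp
          exact_mod_cast hp
        have e : Real.exp (w₀ y - w₀ z) ^ (-(n : ℤ)) = Real.exp (w₀ z - w₀ y) ^ n := by
          rw [zpow_neg, zpow_natCast, ← inv_pow, ← Real.exp_neg, neg_sub]
        rw [e]
        have := NlinDefsA_pow8 (Real.exp_pos (w₀ z - w₀ y)).le
          (by linarith [hu9.2] : Real.exp (w₀ z - w₀ y) ≤ 2) hn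
        nlinarith
    have e : Real.exp (w₀ y) ^ p - Real.exp (w₀ z) ^ p
        = Real.exp (w₀ z) ^ p * (Real.exp (w₀ y - w₀ z) ^ p - 1) := by
      rw [mul_sub, mul_one, ← mul_zpow, ← Real.exp_add]
      congr 3
      ring
    rw [e, abs_mul, abs_of_pos hA]
    calc Real.exp (w₀ z) ^ p * |Real.exp (w₀ y - w₀ z) ^ p - 1|
        ≤ Real.exp (w₀ z) ^ p * (1000 * C * t) := by gcongr
      _ ≤ Real.exp (w₀ z) ^ p * (1000 * C * Real.sqrt t) := by gcongr
      _ = 1000 * C * Real.exp (w₀ z) ^ p * Real.sqrt t := by ring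

theorem SH.deriv_bg {C : ℝ} (hC : 1 ≤ C) {w₀ : ℂ → ℝ} (hw : Bg C w₀) (l : List Bool)
    (h1 : 1 ≤ l.length) (h2 : l.length ≤ 2) :
    SH (1 / (16 * C)) w₀ (l.length : ℤ) (1000 * C) (DD l w₀) := by
  have hC0 : 0 < C := by linarith
  constructor
  · intro z
    rw [zpow_natCast]
    refine (hw.2 z l h1 (by omega)).trans ?_
    have : 0 < Real.exp (w₀ z) ^ l.length := by positivity
    gcongr
    linarith
  · intro z y h
    rw [zpow_natCast]
    set t := Real.exp (w₀ z) * ‖y - z‖ with htd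
    have ht0 : 0 ≤ t := by positivity
    have ht1 : t ≤ 1 := by
      refine h.trans ?_
      rw [div_le_one (by positivity)]
      linarith
    have hts := (NlinDefsA_sqrt ht0 ht1).1
    have hez : 0 < Real.exp (w₀ z) := Real.exp_pos _
    have hmem : ∀ x : ℂ, x ∈ Metric.ball z (1 / (8 * C) / Real.exp (w₀ z)) ↔
        Real.exp (w₀ z) * ‖x - z‖ < 1 / (8 * C) := by
      intro x
      rw [Metric.mem_ball, dist_eq_norm, lt_div_iff₀ hez, mul_comm]
    have hy : y ∈ Metric.ball z (1 / (8 * C) / Real.exp (w₀ z)) := by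
      rw [hmem]
      refine lt_of_le_of_lt h ?_
      apply one_div_lt_one_div_of_lt (by positivity)
      linarith
    have hz : z ∈ Metric.ball z (1 / (8 * C) / Real.exp (w₀ z)) := by
      rw [hmem]
      simp
      positivity
    have hsm := contDiff_DD hw.1 l
    have key := mean_value (f := DD l w₀) (z₀ := z) (r := 1 / (8 * C) / Real.exp (w₀ z))
      (K := C * (2 * Real.exp (w₀ z)) ^ (l.length + 1))
      (fun x _ => (hsm.differentiable (by simp)).differentiableAt)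
      (fun x hx l' hl' => by
        rw [← DD_append, Real.norm_eq_abs]
        have h3 := hw.2 x (l' ++ l) (by rw [List.length_append]; omega)
          (by rw [List.length_append]; omega)
        have h4 := (NlinDefsA_slow hC hw (((hmem x).1 hx).le)).1
        have e : (l' ++ l).length = l.length + 1 := by rw [List.length_append, hl']; omega
        rw [e] at h3
        refine h3.trans ?_
        gcongr) hy hz
    rw [Real.norm_eq_abs] at key
    refine key.trans ?_
    have h8 : (2 : ℝ) ^ (l.length + 1) ≤ 8 := by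
      calc (2 : ℝ) ^ (l.length + 1) ≤ 2 ^ 3 := pow_le_pow_right₀ (by norm_num) (by omega)
        _ = 8 := by norm_num
    have hA : 0 < Real.exp (w₀ z) ^ l.length := by positivity
    calc 2 * (C * (2 * Real.exp (w₀ z)) ^ (l.length + 1)) * ‖y - z‖
        = 2 ^ (l.length + 1) * (2 * C * Real.exp (w₀ z) ^ l.length * t) := by
          rw [htd, mul_pow, pow_succ (Real.exp (w₀ z))]; ring
      _ ≤ 8 * (2 * C * Real.exp (w₀ z) ^ l.length * Real.sqrt t) := by gcongr
      _ = 16 * (C * Real.exp (w₀ z) ^ l.length * Real.sqrt t) := by ring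
      _ ≤ 1000 * (C * Real.exp (w₀ z) ^ l.length * Real.sqrt t) := by gcongr; norm_num
      _ = 1000 * C * Real.exp (w₀ z) ^ l.length * Real.sqrt t := by ring

end Pool.Agent.KK
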