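import Pool.Agent.W_bb4b37_h53.InteriorB
import Pool.Agent.W_bb4b37_h53.NlinDefsA

/-!
# The fully nonlinear equation at level `s`: estimates and existence (part A)
-/

set_option autoImplicit false

open Filter Topology Set MeasureTheory Metric
open scoped ContDiff

namespace Pool.Agent.KK

theorem NlinA_le_sqrt {t : ℝ} (h0 : 0 ≤ t) (h1 : t ≤ 1) : t ≤ Real.sqrt t := by
  apply Real.le_sqrt_of_sq_le
  nlinarith

/-- Scaled mean value inequality. -/
theorem NlinA_mv {C : ℝ} (hC : 1 ≤ C) {w₀ : ℂ → ℝ} (hw : Bg C w₀) {g : ℂ → ℝ}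
    (hg : Differentiable ℝ g) (p : ℕ) {B : ℝ} (hB : 0 ≤ B)
    (h1 : ∀ x, ∀ l : List Bool, l.length = 1 → |DD l g x| ≤ B * Real.exp (w₀ x) ^ (p + 1))
    {z y : ℂ} (hzy : Real.exp (w₀ z) * ‖y - z‖ ≤ 1 / (16 * C)) :
    |g y - g z| ≤ 2 ^ (p + 2) * B * Real.exp (w₀ z) ^ p *
      Real.sqrt (Real.exp (w₀ z) * ‖y - z‖) := by
  have hR : 0 < Real.exp (w₀ z) := Real.exp_pos _
  have hbound : ∀ x ∈ closedBall z ‖y - z‖,
      ‖fderiv ℝ g x‖ ≤ 2 * (B * (2 * Real.exp (w₀ z)) ^ (p + 1)) := by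
    intro x hx
    rw [mem_closedBall, dist_eq_norm] at hx
    have h2 : Real.exp (w₀ z) * ‖x - z‖ ≤ 1 / (16 * C) :=
      (mul_le_mul_of_nonneg_left hx hR.le).trans hzy
    have h3 := (slow hC hw h2).1
    apply CalcE_norm_fderiv_le
    intro l hl
    rw [Real.norm_eq_abs]
    refine (h1 x l hl).trans (mul_le_mul_of_nonneg_left ?_ hB)
    exact pow_le_pow_left₀ (Real.exp_pos _).le h3 _
  have h4 : ‖g y - g z‖ ≤ 2 * (B * (2 * Real.exp (w₀ z)) ^ (p + 1)) * ‖y - z‖ :=
    Convex.norm_image_sub_le_of_norm_fderiv_le (𝕜 := ℝ) (fun x _ => hg x) hbound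
      (convex_closedBall z ‖y - z‖) (mem_closedBall_self (norm_nonneg _))
      (by rw [mem_closedBall, dist_eq_norm])
  rw [Real.norm_eq_abs] at h4
  have ht0 : 0 ≤ Real.exp (w₀ z) * ‖y - z‖ := by positivity
  have ht1 : Real.exp (w₀ z) * ‖y - z‖ ≤ 1 := by
    refine hzy.trans ?_
    rw [div_le_one (by positivity)]
    linarith
  have h5 := NlinA_le_sqrt ht0 ht1
  calc |g y - g z| ≤ 2 * (B * (2 * Real.exp (w₀ z)) ^ (p + 1)) * ‖y - z‖ := h4
    _ = 2 ^ (p + 2) * B * Real.exp (w₀ z) ^ p * (Real.exp (w₀ z) * ‖y - z‖) := by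
        rw [mul_pow]; ring
    _ ≤ 2 ^ (p + 2) * B * Real.exp (w₀ z) ^ p * Real.sqrt (Real.exp (w₀ z) * ‖y - z‖) :=
        mul_le_mul_of_nonneg_left h5 (by positivity)

/-- **Linear estimate.** Let `f = Δ v - 2 ρ² v`, `ρ = e^{w₀}`. Proof: `|v| ≤ M / 2` by
`max_principle`. Fix `z`, `r = 1 / (100 C ρ z)`; on `ball z r` the scale `ρ` varies by a factor
`≤ 2` (`slow`), `|v| ≤ M`, `r² |Δ v| ≤ r² (2 ρ² |v| + |f|) ≤ M`; `interior_grad` gives
`|∇v| ≤ C' M ρ` everywhere. Then `2 ρ² v + f` is Hölder continuous on `ball z r` with the right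
scaling and `interior_schauder` gives the second derivatives and their Hölder bound for pairs with
`‖y - z‖ ≤ r / 2`; for the remaining pairs with `ρ z ‖y - z‖ ≤ 1 / (16 C)` use the sup bound. The
Hölder bounds of `v` and `∇v` follow from the bounds of `∇v` and `D²v`. -/
theorem lin_est (C : ℝ) (hC : 1 ≤ C) : ∃ C₁ : ℝ, 1 ≤ C₁ ∧ ∀ a : ℝ, |a| < 1 →
    ∀ w₀ : ℂ → ℝ, Bg C w₀ → Per a w₀ → ∀ v : ℂ → ℝ, ContDiff ℝ ∞ v → Per a v →
    ∀ M : ℝ, 0 ≤ M →
    SH (1 / (16 * C)) w₀ 2 M (fun z => Lap v z - 2 * Real.exp (w₀ z) ^ 2 * v z) →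
    WB (1 / (16 * C)) w₀ (C₁ * M) v := by
  obtain ⟨Cg, hCg, hgrad⟩ := interior_grad
  obtain ⟨Cs, hCs, hsch⟩ := interior_schauder
  have hC0 : 0 < C := by linarith
  obtain ⟨Λ, hΛ⟩ : ∃ Λ : ℝ, Λ = 1 + 2 * (1000 * (1000 * C) * (1 + 64 * C * Cg)) := ⟨_, rfl⟩
  have hΛ1 : 1 ≤ Λ := by
    rw [hΛ]
    have : 0 ≤ 2 * (1000 * (1000 * C) * (1 + 64 * C * Cg)) := by positivity
    linarith
  have hΛ0 : 0 < Λ := by linarith
  obtain ⟨D, hD⟩ : ∃ D : ℝ, D = 4096 * C ^ 2 * Cs * Λ := ⟨_, rfl⟩
  have hD0 : 0 < D := by rw [hD]; positivity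
  refine ⟨(1 + 64 * C * Cg) + (16 * C * Cg + 8 * D) + 60 * C * D, ?_, ?_⟩
  · have h1 : 0 ≤ 64 * C * Cg + (16 * C * Cg + 8 * D) + 60 * C * D := by positivity
    linarith
  intro a ha w₀ hw hp v hv hpv M hM hf
  have hzp : ∀ z, Real.exp (w₀ z) ^ (2 : ℤ) = Real.exp (w₀ z) ^ 2 := fun z => zpow_ofNat _ 2
  -- sup bound
  have hv0 : ∀ z, |v z| ≤ M / 2 := by
    refine max_principle ha (v := v) (q := fun z => 2 * Real.exp (w₀ z) ^ 2)
      (f := fun z => Lap v z - 2 * Real.exp (w₀ z) ^ 2 * v z) (M := M / 2)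
      (contDiff_infty.1 hv 2) hpv (fun z => by positivity) (fun z => ?_)
      (fun z => rfl)
    have h1 := hf.bd z
    rw [hzp] at h1
    calc |Lap v z - 2 * Real.exp (w₀ z) ^ 2 * v z| ≤ M * Real.exp (w₀ z) ^ 2 := h1
      _ = M / 2 * (2 * Real.exp (w₀ z) ^ 2) := by ring
  have hLap : ∀ z, |Lap v z| ≤ 2 * M * Real.exp (w₀ z) ^ 2 := by
    intro z
    have h1 := hf.bd z
    rw [hzp] at h1
    have h2 : |2 * Real.exp (w₀ z) ^ 2 * v z| ≤ M * Real.exp (w₀ z) ^ 2 := by
      rw [abs_mul, abs_of_pos (by positivity : 0 < 2 * Real.exp (w₀ z) ^ 2)]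
      calc 2 * Real.exp (w₀ z) ^ 2 * |v z| ≤ 2 * Real.exp (w₀ z) ^ 2 * (M / 2) :=
            mul_le_mul_of_nonneg_left (hv0 z) (by positivity)
        _ = M * Real.exp (w₀ z) ^ 2 := by ring
    calc |Lap v z| = |(Lap v z - 2 * Real.exp (w₀ z) ^ 2 * v z)
          + 2 * Real.exp (w₀ z) ^ 2 * v z| := by ring_nf
      _ ≤ |Lap v z - 2 * Real.exp (w₀ z) ^ 2 * v z| + |2 * Real.exp (w₀ z) ^ 2 * v z| :=
          abs_add_le _ _
      _ ≤ 2 * M * Real.exp (w₀ z) ^ 2 := by linarith
  obtain ⟨κ, hκ⟩ : ∃ κ : ℝ, κ = 1 / (16 * C) := ⟨_, rfl⟩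
  have hκ0 : 0 < κ := by rw [hκ]; positivity
  have hκ16 : κ ≤ 1 / 16 := by
    rw [hκ]
    apply one_div_le_one_div_of_le (by norm_num)
    linarith
  have hκC : κ * (16 * C) = 1 := by
    rw [hκ]
    field_simp
  have hslow : ∀ z y : ℂ, Real.exp (w₀ z) * ‖y - z‖ ≤ κ →
      Real.exp (w₀ y) ≤ 2 * Real.exp (w₀ z) := by
    intro z y h
    rw [hκ] at h
    exact (slow hC hw h).1
  -- gradient bound
  have hg1 : ∀ z, ∀ l : List Bool, l.length = 1 →
      |DD l v z| ≤ 16 * C * Cg * M * Real.exp (w₀ z) := by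
    intro z₀ l hl
    have hR : 0 < Real.exp (w₀ z₀) := Real.exp_pos _
    generalize hRdef : Real.exp (w₀ z₀) = R at *
    have hr : 0 < κ / R := by positivity
    have hball : ∀ z ∈ ball z₀ (κ / R), Real.exp (w₀ z) ≤ 2 * R := by
      intro z hz
      rw [mem_ball, dist_eq_norm, lt_div_iff₀ hR] at hz
      have := hslow z₀ z (by rw [hRdef]; linarith)
      rwa [hRdef] at this
    have h1 := hgrad v z₀ (κ / R) M hv hr (fun z _ => (hv0 z).trans (by linarith))
      (fun z hz => by
        have h2 := hball z hz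
        have h3 : Real.exp (w₀ z) ^ 2 ≤ (2 * R) ^ 2 :=
          pow_le_pow_left₀ (Real.exp_pos _).le h2 2
        have h4 : |Lap v z| ≤ 2 * M * (2 * R) ^ 2 :=
          (hLap z).trans (mul_le_mul_of_nonneg_left h3 (by linarith))
        calc (κ / R) ^ 2 * |Lap v z| ≤ (κ / R) ^ 2 * (2 * M * (2 * R) ^ 2) :=
              mul_le_mul_of_nonneg_left h4 (by positivity)
          _ = (8 * κ ^ 2) * M := by field_simp; ring
          _ ≤ 1 * M := by
              apply mul_le_mul_of_nonneg_right _ hM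
              nlinarith
          _ = M := one_mul M) z₀ (mem_ball_self (by positivity)) l hl
    have h5 : κ * |DD l v z₀| ≤ Cg * M * R := by
      have h6 : κ / R * |DD l v z₀| * R ≤ Cg * M * R := mul_le_mul_of_nonneg_right h1 hR.le
      have h7 : κ / R * |DD l v z₀| * R = κ * |DD l v z₀| := by field_simp
      rwa [h7] at h6
    calc |DD l v z₀| = (κ * (16 * C)) * |DD l v z₀| := by rw [hκC, one_mul]
      _ = 16 * C * (κ * |DD l v z₀|) := by ring
      _ ≤ 16 * C * (Cg * M * R) := mul_le_mul_of_nonneg_left h5 (by positivity)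
      _ = 16 * C * Cg * M * R := by ring
  have hvd : Differentiable ℝ v := hv.differentiable (by simp)
  -- order zero class
  have hb0 : SH (1 / (16 * C)) w₀ 0 ((1 + 64 * C * Cg) * M) v := by
    constructor
    · intro z
      rw [zpow_zero, mul_one]
      have h1 : 0 ≤ 64 * C * Cg * M := by positivity
      have h2 := hv0 z
      linarith
    · intro z y hzy
      rw [zpow_zero, mul_one]
      have h1 := NlinA_mv hC hw hvd 0 (B := 16 * C * Cg * M) (by positivity)
        (fun x l hl => by rw [zero_add, pow_one]; exact hg1 x l hl) hzy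
      rw [pow_zero, mul_one, zero_add] at h1
      refine h1.trans (mul_le_mul_of_nonneg_right ?_ (Real.sqrt_nonneg _))
      linarith
  -- the Laplacian
  have hL : SH (1 / (16 * C)) w₀ 2 (Λ * M) (Lap v) := by
    have h1 := SH.exp_bg hC hw 2 (by norm_num)
    have h2 := SH.mul hC hw (p := 2) (q := 0) (by norm_num) (M := 1000 * C)
      (N := (1 + 64 * C * Cg) * M) (by positivity) (by positivity) h1 hb0
    rw [add_zero] at h2
    have h3 := hf.add (h2.const_mul 2)
    have e1 : (fun z => Lap v z - 2 * Real.exp (w₀ z) ^ 2 * v z +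
        2 * (Real.exp (w₀ z) ^ (2 : ℤ) * v z)) = Lap v := by
      funext z
      rw [hzp]
      ring
    have e2 : M + |(2 : ℝ)| * (1000 * (1000 * C) * ((1 + 64 * C * Cg) * M)) = Λ * M := by
      rw [hΛ, abs_of_pos (by norm_num : (0 : ℝ) < 2)]
      ring
    rw [e1, e2] at h3
    exact h3
  -- second derivatives
  have hΛM : M ≤ Λ * M := by
    calc M = 1 * M := (one_mul M).symm
      _ ≤ Λ * M := mul_le_mul_of_nonneg_right hΛ1 hM
  have hΛM0 : 0 ≤ Λ * M := by positivity
  have hS : ∀ z₀, (∀ l : List Bool, l.length = 2 →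
        |DD l v z₀| ≤ D * M * Real.exp (w₀ z₀) ^ 2) ∧
      ∀ y, Real.exp (w₀ z₀) * ‖y - z₀‖ < κ / 8 → ∀ l : List Bool, l.length = 2 →
        |DD l v y - DD l v z₀| ≤ D * M * Real.exp (w₀ z₀) ^ 2 *
          (8 * C * Real.sqrt (Real.exp (w₀ z₀) * ‖y - z₀‖)) := by
    intro z₀
    have hR : 0 < Real.exp (w₀ z₀) := Real.exp_pos _
    generalize hRdef : Real.exp (w₀ z₀) = R at *
    have hr : 0 < κ / (4 * R) := by positivity
    have hball : ∀ z ∈ ball z₀ (κ / (4 * R)), Real.exp (w₀ z) ≤ 2 * R := by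
      intro z hz
      rw [mem_ball, dist_eq_norm, lt_div_iff₀ (by positivity)] at hz
      have h0 : 0 ≤ ‖z - z₀‖ * R := by positivity
      have := hslow z₀ z (by rw [hRdef]; linarith)
      rwa [hRdef] at this
    have hball2 : ∀ z ∈ ball z₀ (κ / (4 * R)), Real.exp (w₀ z) ^ 2 ≤ (2 * R) ^ 2 :=
      fun z hz => pow_le_pow_left₀ (Real.exp_pos _).le (hball z hz) 2
    have hmain := hsch v z₀ (κ / (4 * R)) (Λ * M) hv hr
      (fun z _ => (hv0 z).trans (by linarith))
      (fun z hz => by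
        have h1 := hL.bd z
        rw [hzp] at h1
        have h2 : |Lap v z| ≤ Λ * M * (2 * R) ^ 2 :=
          h1.trans (mul_le_mul_of_nonneg_left (hball2 z hz) hΛM0)
        calc (κ / (4 * R)) ^ 2 * |Lap v z| ≤ (κ / (4 * R)) ^ 2 * (Λ * M * (2 * R) ^ 2) :=
              mul_le_mul_of_nonneg_left h2 (by positivity)
          _ = (κ ^ 2 / 4) * (Λ * M) := by field_simp; ring
          _ ≤ 1 * (Λ * M) := by
              apply mul_le_mul_of_nonneg_right _ hΛM0
              nlinarith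
          _ = Λ * M := one_mul _)
      (fun z hz z' hz' => by
        have hzz : ‖z - z'‖ ≤ κ / (2 * R) := by
          rw [mem_ball] at hz hz'
          have h3 := dist_triangle_right z z' z₀
          rw [dist_eq_norm] at h3
          have h4 : κ / (2 * R) = κ / (4 * R) + κ / (4 * R) := by field_simp; ring
          linarith
        have h5 : Real.exp (w₀ z') * ‖z - z'‖ ≤ 2 * R * ‖z - z'‖ :=
          mul_le_mul_of_nonneg_right (hball z' hz') (norm_nonneg _)
        have h6 : 2 * R * ‖z - z'‖ ≤ κ := by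
          rw [le_div_iff₀ (by positivity)] at hzz
          linarith
        have h7 := hL.hol z' z (by rw [← hκ]; linarith)
        rw [hzp] at h7
        have h8 : Real.sqrt (Real.exp (w₀ z') * ‖z - z'‖) ≤
            Real.sqrt (‖z - z'‖ / (κ / (4 * R))) := by
          apply Real.sqrt_le_sqrt
          refine h5.trans ?_
          rw [le_div_iff₀ hr]
          have h9 : 2 * R * ‖z - z'‖ * (κ / (4 * R)) = (κ / 2) * ‖z - z'‖ := by
            field_simp; ring
          rw [h9]
          calc κ / 2 * ‖z - z'‖ ≤ 1 * ‖z - z'‖ :=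
                mul_le_mul_of_nonneg_right (by linarith) (norm_nonneg _)
            _ = ‖z - z'‖ := one_mul _
        have h10 : |Lap v z - Lap v z'| ≤ Λ * M * (2 * R) ^ 2 *
            Real.sqrt (‖z - z'‖ / (κ / (4 * R))) := by
          refine h7.trans (mul_le_mul ?_ h8 (Real.sqrt_nonneg _) (by positivity))
          exact mul_le_mul_of_nonneg_left (hball2 z' hz') hΛM0
        calc (κ / (4 * R)) ^ 2 * |Lap v z - Lap v z'|
            ≤ (κ / (4 * R)) ^ 2 * (Λ * M * (2 * R) ^ 2 *
              Real.sqrt (‖z - z'‖ / (κ / (4 * R)))) :=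
              mul_le_mul_of_nonneg_left h10 (by positivity)
          _ = (κ ^ 2 / 4) * (Λ * M * Real.sqrt (‖z - z'‖ / (κ / (4 * R)))) := by
              generalize Real.sqrt (‖z - z'‖ / (κ / (4 * R))) = S
              field_simp; ring
          _ ≤ 1 * (Λ * M * Real.sqrt (‖z - z'‖ / (κ / (4 * R)))) := by
              apply mul_le_mul_of_nonneg_right _ (by positivity)
              nlinarith
          _ = Λ * M * Real.sqrt (‖z - z'‖ / (κ / (4 * R))) := one_mul _)
    -- the factor 1 / r^2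
    have hfac : ∀ x : ℝ, x = (4096 * C ^ 2 * R ^ 2) * ((κ / (4 * R)) ^ 2 * x) := by
      intro x
      have h1 : (4096 * C ^ 2 * R ^ 2) * ((κ / (4 * R)) ^ 2 * x) = (κ * (16 * C)) ^ 2 * x := by
        field_simp; ring
      rw [h1, hκC]
      ring
    refine ⟨fun l hl => ?_, fun y hy l hl => ?_⟩
    · have h1 := hmain.1 z₀ (mem_ball_self (by positivity)) l hl
      calc |DD l v z₀| = (4096 * C ^ 2 * R ^ 2) * ((κ / (4 * R)) ^ 2 * |DD l v z₀|) := hfac _
        _ ≤ (4096 * C ^ 2 * R ^ 2) * (Cs * (Λ * M)) :=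
            mul_le_mul_of_nonneg_left h1 (by positivity)
        _ = D * M * R ^ 2 := by rw [hD]; ring
    · have hyb : y ∈ ball z₀ (κ / (4 * R) / 2) := by
        rw [mem_ball, dist_eq_norm]
        have h1 : κ / (4 * R) / 2 = κ / 8 / R := by field_simp; ring
        rw [h1, lt_div_iff₀ hR]
        linarith
      have h1 := hmain.2 y hyb z₀ (mem_ball_self (by positivity)) l hl
      have h2 : Real.sqrt (‖y - z₀‖ / (κ / (4 * R))) ≤ 8 * C * Real.sqrt (R * ‖y - z₀‖) := by
        rw [Real.sqrt_le_left (by positivity), mul_pow, Real.sq_sqrt (by positivity),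
          div_le_iff₀ hr]
        have h3 : (8 * C) ^ 2 * (R * ‖y - z₀‖) * (κ / (4 * R)) =
            C * (κ * (16 * C)) * ‖y - z₀‖ := by
          field_simp; ring
        rw [h3, hκC, mul_one]
        calc ‖y - z₀‖ = 1 * ‖y - z₀‖ := (one_mul _).symm
          _ ≤ C * ‖y - z₀‖ := mul_le_mul_of_nonneg_right hC (norm_nonneg _)
      calc |DD l v y - DD l v z₀|
          = (4096 * C ^ 2 * R ^ 2) * ((κ / (4 * R)) ^ 2 * |DD l v y - DD l v z₀|) := hfac _
        _ ≤ (4096 * C ^ 2 * R ^ 2) * (Cs * (Λ * M) * Real.sqrt (‖y - z₀‖ / (κ / (4 * R)))) :=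
            mul_le_mul_of_nonneg_left h1 (by positivity)
        _ ≤ (4096 * C ^ 2 * R ^ 2) * (Cs * (Λ * M) * (8 * C * Real.sqrt (R * ‖y - z₀‖))) := by
            apply mul_le_mul_of_nonneg_left _ (by positivity)
            exact mul_le_mul_of_nonneg_left h2 (by positivity)
        _ = D * M * R ^ 2 * (8 * C * Real.sqrt (R * ‖y - z₀‖)) := by rw [hD]; ring
  refine ⟨?_, ?_, ?_⟩
  · apply hb0.mono
    apply mul_le_mul_of_nonneg_right _ hM
    have h1 : 0 ≤ (16 * C * Cg + 8 * D) + 60 * C * D := by positivity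
    linarith
  · intro l hl
    have hN : SH (1 / (16 * C)) w₀ 1 ((16 * C * Cg + 8 * D) * M) (DD l v) := by
      constructor
      · intro z
        rw [zpow_one]
        have h1 := hg1 z l hl
        have h2 : 0 ≤ 8 * D * M * Real.exp (w₀ z) := by positivity
        linarith
      · intro z y hzy
        rw [zpow_one]
        have hd : Differentiable ℝ (DD l v) := (contDiff_DD hv l).differentiable (by simp)
        have h1 := NlinA_mv hC hw hd 1 (B := D * M) (by positivity)
          (fun x l' hl' => by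
            have h2 := (hS x).1 (l' ++ l) (by rw [List.length_append, hl, hl'])
            rw [DD_append] at h2
            exact h2) hzy
        rw [pow_one] at h1
        have h3 : 0 ≤ Real.exp (w₀ z) * Real.sqrt (Real.exp (w₀ z) * ‖y - z‖) := by positivity
        have h4 : 0 ≤ 16 * C * Cg * M * (Real.exp (w₀ z) *
            Real.sqrt (Real.exp (w₀ z) * ‖y - z‖)) := by positivity
        have h5 : (2 : ℝ) ^ (1 + 2) = 8 := by norm_num
        rw [h5] at h1
        linarith
    apply hN.mono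
    apply mul_le_mul_of_nonneg_right _ hM
    have h1 : 0 ≤ (1 + 64 * C * Cg) + 60 * C * D := by positivity
    linarith
  · intro l hl
    have hN : SH (1 / (16 * C)) w₀ 2 (60 * C * D * M) (DD l v) := by
      constructor
      · intro z
        rw [hzp]
        have h1 := (hS z).1 l hl
        refine h1.trans ?_
        have h2 : 0 ≤ D * M * Real.exp (w₀ z) ^ 2 := by positivity
        calc D * M * Real.exp (w₀ z) ^ 2 = 1 * (D * M * Real.exp (w₀ z) ^ 2) := (one_mul _).symm
          _ ≤ (60 * C) * (D * M * Real.exp (w₀ z) ^ 2) :=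
              mul_le_mul_of_nonneg_right (by linarith) h2
          _ = 60 * C * D * M * Real.exp (w₀ z) ^ 2 := by ring
      · intro z y hzy
        rw [hzp]
        rw [← hκ] at hzy
        have hR : 0 < Real.exp (w₀ z) := Real.exp_pos _
        have h0 : 0 ≤ D * M * Real.exp (w₀ z) ^ 2 := by positivity
        have hs0 : 0 ≤ Real.sqrt (Real.exp (w₀ z) * ‖y - z‖) := Real.sqrt_nonneg _
        rcases lt_or_ge (Real.exp (w₀ z) * ‖y - z‖) (κ / 8) with hlt | hge
        · have h1 := (hS z).2 y hlt l hl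
          refine h1.trans ?_
          calc D * M * Real.exp (w₀ z) ^ 2 *
                (8 * C * Real.sqrt (Real.exp (w₀ z) * ‖y - z‖))
              ≤ D * M * Real.exp (w₀ z) ^ 2 *
                (60 * C * Real.sqrt (Real.exp (w₀ z) * ‖y - z‖)) := by
                apply mul_le_mul_of_nonneg_left _ h0
                apply mul_le_mul_of_nonneg_right _ hs0
                linarith
            _ = 60 * C * D * M * Real.exp (w₀ z) ^ 2 *
                Real.sqrt (Real.exp (w₀ z) * ‖y - z‖) := by ring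
        · have h1 := (hS z).1 l hl
          have h2 := (hS y).1 l hl
          have h3 := hslow z y hzy
          have h4 : Real.exp (w₀ y) ^ 2 ≤ (2 * Real.exp (w₀ z)) ^ 2 :=
            pow_le_pow_left₀ (Real.exp_pos _).le h3 2
          have h5 : |DD l v y| ≤ D * M * (2 * Real.exp (w₀ z)) ^ 2 :=
            h2.trans (mul_le_mul_of_nonneg_left h4 (by positivity))
          have h6 : |DD l v y - DD l v z| ≤ 5 * (D * M * Real.exp (w₀ z) ^ 2) := by
            refine (abs_sub _ _).trans ?_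
            have e : D * M * (2 * Real.exp (w₀ z)) ^ 2 = 4 * (D * M * Real.exp (w₀ z) ^ 2) := by
              ring
            linarith
          have h7 : 1 ≤ 12 * C * Real.sqrt (Real.exp (w₀ z) * ‖y - z‖) := by
            have h8 : 1 ≤ Real.sqrt ((12 * C) ^ 2 * (Real.exp (w₀ z) * ‖y - z‖)) := by
              rw [Real.one_le_sqrt]
              calc (1 : ℝ) ≤ (12 * C) ^ 2 * (κ / 8) := by
                    have e : (12 * C) ^ 2 * (κ / 8) = 9 / 8 * C * (κ * (16 * C)) := by ring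
                    rw [e, hκC]
                    linarith
                _ ≤ (12 * C) ^ 2 * (Real.exp (w₀ z) * ‖y - z‖) :=
                    mul_le_mul_of_nonneg_left hge (by positivity)
            rwa [Real.sqrt_mul (by positivity), Real.sqrt_sq (by positivity)] at h8
          calc |DD l v y - DD l v z| ≤ 5 * (D * M * Real.exp (w₀ z) ^ 2) * 1 := by
                rw [mul_one]; exact h6
            _ ≤ 5 * (D * M * Real.exp (w₀ z) ^ 2) *
                (12 * C * Real.sqrt (Real.exp (w₀ z) * ‖y - z‖)) :=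
                mul_le_mul_of_nonneg_left h7 (by positivity)
            _ = 60 * C * D * M * Real.exp (w₀ z) ^ 2 *
                Real.sqrt (Real.exp (w₀ z) * ‖y - z‖) := by ring
    apply hN.mono
    apply mul_le_mul_of_nonneg_right _ hM
    have h1 : 0 ≤ (1 + 64 * C * Cg) + (16 * C * Cg + 8 * D) := by positivity
    linarith

end Pool.Agent.KK
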