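import Pool.Agent.W_bb4b37_h53.NlinDefsB

/-!
# The fully nonlinear equation at level `s`: estimates and existence (part B)
-/

set_option autoImplicit false

open Filter Topology Set MeasureTheory Metric
open scoped ContDiff

namespace Pool.Agent.KK

/-- Pairs of functions in the class of order `p` with constant `A`, whose difference has the
constant `A * d`. -/
structure NlinB_PH (C : ℝ) (w₀ : ℂ → ℝ) (d : ℝ) (p : ℤ) (A : ℝ) (f f' : ℂ → ℝ) : Prop where
  l : SH (1 / (16 * C)) w₀ p A f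
  r : SH (1 / (16 * C)) w₀ p A f'
  s : SH (1 / (16 * C)) w₀ p (A * d) (fun z => f z - f' z)

theorem NlinB_PH.mono {C : ℝ} {w₀ : ℂ → ℝ} {d : ℝ} {p : ℤ} {A B : ℝ} {f f' : ℂ → ℝ}
    (h : NlinB_PH C w₀ d p A f f') (hd : 0 ≤ d) (hAB : A ≤ B) : NlinB_PH C w₀ d p B f f' :=
  ⟨h.l.mono hAB, h.r.mono hAB, h.s.mono (mul_le_mul_of_nonneg_right hAB hd)⟩

theorem NlinB_PH.add {C : ℝ} {w₀ : ℂ → ℝ} {d : ℝ} {p : ℤ} {A B : ℝ} {f f' g g' : ℂ → ℝ}
    (h : NlinB_PH C w₀ d p A f f') (h' : NlinB_PH C w₀ d p B g g') :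
    NlinB_PH C w₀ d p (A + B) (fun z => f z + g z) (fun z => f' z + g' z) := by
  refine ⟨h.l.add h'.l, h.r.add h'.r, ?_⟩
  have h1 := h.s.add h'.s
  have e : (fun z => f z - f' z + (g z - g' z)) = fun z => f z + g z - (f' z + g' z) := by
    funext z; ring
  rw [e] at h1
  rwa [add_mul]

theorem NlinB_PH.sub {C : ℝ} {w₀ : ℂ → ℝ} {d : ℝ} {p : ℤ} {A B : ℝ} {f f' g g' : ℂ → ℝ}
    (h : NlinB_PH C w₀ d p A f f') (h' : NlinB_PH C w₀ d p B g g') :
    NlinB_PH C w₀ d p (A + B) (fun z => f z - g z) (fun z => f' z - g' z) := by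
  refine ⟨h.l.sub h'.l, h.r.sub h'.r, ?_⟩
  have h1 := h.s.sub h'.s
  have e : (fun z => f z - f' z - (g z - g' z)) = fun z => f z - g z - (f' z - g' z) := by
    funext z; ring
  rw [e] at h1
  rwa [add_mul]

theorem NlinB_PH.cmul {C : ℝ} {w₀ : ℂ → ℝ} {d : ℝ} {p : ℤ} {A : ℝ} {f f' : ℂ → ℝ}
    (h : NlinB_PH C w₀ d p A f f') (hd : 0 ≤ d) (hA : 0 ≤ A) (c c₀ : ℝ) (hc : |c| ≤ c₀) :
    NlinB_PH C w₀ d p (c₀ * A) (fun z => c * f z) (fun z => c * f' z) := by
  have h0 : |c| * A ≤ c₀ * A := mul_le_mul_of_nonneg_right hc hA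
  refine ⟨(h.l.const_mul c).mono h0, (h.r.const_mul c).mono h0, ?_⟩
  have h1 := h.s.const_mul c
  have e : (fun z => c * (f z - f' z)) = fun z => c * f z - c * f' z := by
    funext z; ring
  rw [e] at h1
  refine h1.mono ?_
  have : |c| * A * d ≤ c₀ * A * d := mul_le_mul_of_nonneg_right h0 hd
  linarith

theorem NlinB_PH.mul {C : ℝ} (hC : 1 ≤ C) {w₀ : ℂ → ℝ} (hw : Bg C w₀) {d : ℝ} (hd : 0 ≤ d)
    {p q r : ℤ} (hq : |q| ≤ 8) (hr : p + q = r) {A B : ℝ} (hA : 0 ≤ A) (hB : 0 ≤ B)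
    {f f' g g' : ℂ → ℝ}
    (h : NlinB_PH C w₀ d p A f f') (h' : NlinB_PH C w₀ d q B g g') :
    NlinB_PH C w₀ d r (2000 * A * B) (fun z => f z * g z) (fun z => f' z * g' z) := by
  subst hr
  have hAB : 0 ≤ A * B := mul_nonneg hA hB
  refine ⟨(SH.mul hC hw hq hA hB h.l h'.l).mono (by nlinarith),
    (SH.mul hC hw hq hA hB h.r h'.r).mono (by nlinarith), ?_⟩
  have h1 := SH.mul hC hw hq (mul_nonneg hA hd) hB h.s h'.l
  have h2 := SH.mul hC hw hq hA (mul_nonneg hB hd) h.r h'.s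
  have h3 := h1.add h2
  have e : (fun z => (f z - f' z) * g z + f' z * (g z - g' z)) =
      fun z => f z * g z - f' z * g' z := by
    funext z; ring
  rw [e] at h3
  refine h3.mono (le_of_eq ?_)
  ring

theorem NlinB_WB_mono {κ : ℝ} {w₀ : ℂ → ℝ} {M N : ℝ} {v : ℂ → ℝ} (h : WB κ w₀ M v) (hMN : M ≤ N) :
    WB κ w₀ N v :=
  ⟨h.b0.mono hMN, fun l hl => (h.b1 l hl).mono hMN, fun l hl => (h.b2 l hl).mono hMN⟩

theorem NlinB_DD_zero (l : List Bool) : DD l (fun _ : ℂ => (0 : ℝ)) = fun _ => 0 := by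
  induction l with
  | nil => rfl
  | cons b l ih =>
    cases b
    · rw [DD_false, ih]
      funext z
      exact Dy_const _ _
    · rw [DD_true, ih]
      funext z
      exact Dx_const _ _

theorem NlinB_SH_zero (κ : ℝ) (w₀ : ℂ → ℝ) (p : ℤ) {M : ℝ} (hM : 0 ≤ M) :
    SH κ w₀ p M (fun _ => 0) := by
  refine ⟨fun z => ?_, fun z y _ => ?_⟩
  · rw [abs_zero]
    positivity
  · rw [sub_self, abs_zero]
    positivity

theorem NlinB_WB_zero (κ : ℝ) (w₀ : ℂ → ℝ) {M : ℝ} (hM : 0 ≤ M) : WB κ w₀ M (fun _ => 0) := by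
  refine ⟨NlinB_SH_zero κ w₀ 0 hM, fun l _ => ?_, fun l _ => ?_⟩
  · rw [NlinB_DD_zero]
    exact NlinB_SH_zero κ w₀ 1 hM
  · rw [NlinB_DD_zero]
    exact NlinB_SH_zero κ w₀ 2 hM

theorem NlinB_Dx_sub {v v' : ℂ → ℝ} (hv : Differentiable ℝ v) (hv' : Differentiable ℝ v') :
    Dx (fun y => v y - v' y) = fun z => Dx v z - Dx v' z := by
  funext z
  exact Dx_sub (hv z) (hv' z)

theorem NlinB_Dy_sub {v v' : ℂ → ℝ} (hv : Differentiable ℝ v) (hv' : Differentiable ℝ v') :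
    Dy (fun y => v y - v' y) = fun z => Dy v z - Dy v' z := by
  funext z
  exact Dy_sub (hv z) (hv' z)

theorem NlinB_Dx_add {v v' : ℂ → ℝ} (hv : Differentiable ℝ v) (hv' : Differentiable ℝ v') :
    Dx (fun y => v y + v' y) = fun z => Dx v z + Dx v' z := by
  funext z
  exact Dx_add (hv z) (hv' z)

theorem NlinB_Dy_add {v v' : ℂ → ℝ} (hv : Differentiable ℝ v) (hv' : Differentiable ℝ v') :
    Dy (fun y => v y + v' y) = fun z => Dy v z + Dy v' z := by
  funext z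
  exact Dy_add (hv z) (hv' z)

/-- background plus a pair -/
theorem NlinB_base {C : ℝ} (hC : 1 ≤ C) {w₀ : ℂ → ℝ} {d : ℝ} (hd : 0 ≤ d) {p : ℤ}
    {g f f' : ℂ → ℝ} (hg : SH (1 / (16 * C)) w₀ p (1000 * C) g)
    (hf : SH (1 / (16 * C)) w₀ p 1 f) (hf' : SH (1 / (16 * C)) w₀ p 1 f')
    (hs : SH (1 / (16 * C)) w₀ p d (fun z => f z - f' z)) :
    NlinB_PH C w₀ d p (20000000000 * C) (fun z => g z + f z) (fun z => g z + f' z) := by
  refine ⟨(hg.add hf).mono (by linarith), (hg.add hf').mono (by linarith), ?_⟩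
  have e : (fun z => g z + f z - (g z + f' z)) = fun z => f z - f' z := by
    funext z; ring
  rw [e]
  refine hs.mono ?_
  nlinarith

theorem NlinB_exp_two (x : ℝ) : Real.exp (2 * x) = Real.exp x ^ (2 : ℤ) := by
  rw [show (2 : ℤ) = ((2 : ℕ) : ℤ) from rfl, zpow_natCast, ← Real.exp_nat_mul]
  norm_num

/-- the polynomial of `QQ` -/
theorem NlinB_QQ_eq (ε : ℝ) {w₀ v : ℂ → ℝ} (hw : ContDiff ℝ ∞ w₀) (hv : ContDiff ℝ 2 v) (z : ℂ) :
    QQ ε (fun y => w₀ y + v y) z =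
      (Real.exp (w₀ z) ^ (-2 : ℤ) * Real.exp (-2 * v z)) *
        ((1 + ε ^ 2) * (((Dx w₀ z + Dx v z) * (Dx w₀ z + Dx v z) +
            (Dy w₀ z + Dy v z) * (Dy w₀ z + Dy v z)) *
            ((Dx w₀ z + Dx v z) * (Dx w₀ z + Dx v z) +
            (Dy w₀ z + Dy v z) * (Dy w₀ z + Dy v z)))
          - (Dx (Dx w₀) z + Dx (Dx v) z) * (Dy (Dy w₀) z + Dy (Dy v) z)
          + (Dx (Dy w₀) z + Dx (Dy v) z) * (Dx (Dy w₀) z + Dx (Dy v) z)
          + 2 * ((Dx (Dx w₀) z + Dx (Dx v) z) * ((Dy w₀ z + Dy v z) * (Dy w₀ z + Dy v z)))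
          + 2 * ((Dy (Dy w₀) z + Dy (Dy v) z) * ((Dx w₀ z + Dx v z) * (Dx w₀ z + Dx v z)))
          - 4 * ((Dx (Dy w₀) z + Dx (Dy v) z) * ((Dx w₀ z + Dx v z) * (Dy w₀ z + Dy v z))))
        - 2 * ((Dx w₀ z + Dx v z) * (Dx w₀ z + Dx v z) +
            (Dy w₀ z + Dy v z) * (Dy w₀ z + Dy v z)) := by
  have hw0 : Differentiable ℝ w₀ := hw.differentiable (by simp)
  have hv0 : Differentiable ℝ v := hv.differentiable (by norm_num)
  have hwx : Differentiable ℝ (Dx w₀) := (contDiff_DD hw [true]).differentiable (by simp)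
  have hwy : Differentiable ℝ (Dy w₀) := (contDiff_DD hw [false]).differentiable (by simp)
  have hvx : Differentiable ℝ (Dx v) :=
    (contDiff_Dx (m := 1) hv (by norm_num)).differentiable (by norm_num)
  have hvy : Differentiable ℝ (Dy v) :=
    (contDiff_Dy (m := 1) hv (by norm_num)).differentiable (by norm_num)
  have hE : Real.exp (-(2 * (w₀ z + v z))) = Real.exp (w₀ z) ^ (-2 : ℤ) * Real.exp (-2 * v z) := by
    rw [zpow_neg, ← NlinB_exp_two, ← Real.exp_neg, ← Real.exp_add]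
    congr 1
    ring
  rw [QQ, NlinB_Dx_add hw0 hv0, NlinB_Dy_add hw0 hv0, NlinB_Dx_add hwx hvx, NlinB_Dx_add hwy hvy,
    NlinB_Dy_add hwy hvy, hE]
  ring

/-- `QQ` for a pair -/
theorem NlinB_QQ_pair {C : ℝ} (hC : 1 ≤ C) {w₀ : ℂ → ℝ} (hw : Bg C w₀) {ε : ℝ} (h0 : 0 ≤ ε)
    (h1 : ε ≤ 1) {d : ℝ} (hd : 0 ≤ d) {v v' : ℂ → ℝ} (hv : ContDiff ℝ 2 v)
    (hv' : ContDiff ℝ 2 v') (hb : WB (1 / (16 * C)) w₀ 1 v) (hb' : WB (1 / (16 * C)) w₀ 1 v')
    (hs : WB (1 / (16 * C)) w₀ d (fun z => v z - v' z)) {A K1 K2 K3 K5 K : ℝ}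
    (hA : A = 20000000000 * C) (hK1 : K1 = 2000 * A * A) (hK2 : K2 = K1 + K1)
    (hK3 : K3 = 2000 * K2 * K2) (hK5 : K5 = 2000 * A * K1)
    (hK : K = 2000 * A * (2 * K3 + K1 + K1 + 2 * K5 + 2 * K5 + 4 * K5) + 2 * K2) :
    NlinB_PH C w₀ d 2 K (QQ ε (fun y => w₀ y + v y)) (QQ ε (fun y => w₀ y + v' y)) := by
  have hC0 : 0 ≤ C := by linarith
  have hA0 : 0 ≤ A := by rw [hA]; positivity
  have hK10 : 0 ≤ K1 := by rw [hK1]; positivity
  have hK20 : 0 ≤ K2 := by rw [hK2]; positivity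
  have hK30 : 0 ≤ K3 := by rw [hK3]; positivity
  have hK50 : 0 ≤ K5 := by rw [hK5]; positivity
  have hv0 : Differentiable ℝ v := hv.differentiable (by norm_num)
  have hvx : Differentiable ℝ (Dx v) :=
    (contDiff_Dx (m := 1) hv (by norm_num)).differentiable (by norm_num)
  have hvy : Differentiable ℝ (Dy v) :=
    (contDiff_Dy (m := 1) hv (by norm_num)).differentiable (by norm_num)
  have hv0' : Differentiable ℝ v' := hv'.differentiable (by norm_num)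
  have hvx' : Differentiable ℝ (Dx v') :=
    (contDiff_Dx (m := 1) hv' (by norm_num)).differentiable (by norm_num)
  have hvy' : Differentiable ℝ (Dy v') :=
    (contDiff_Dy (m := 1) hv' (by norm_num)).differentiable (by norm_num)
  -- the base functions
  have a : NlinB_PH C w₀ d 1 A (fun z => Dx w₀ z + Dx v z) (fun z => Dx w₀ z + Dx v' z) := by
    rw [hA]
    refine NlinB_base hC hd (SH.deriv_bg hC hw [true] (by simp) (by simp)) (hb.b1 [true] rfl)
      (hb'.b1 [true] rfl) ?_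
    have := hs.b1 [true] rfl
    rw [DD_true, DD_nil, NlinB_Dx_sub hv0 hv0'] at this
    exact this
  have b : NlinB_PH C w₀ d 1 A (fun z => Dy w₀ z + Dy v z) (fun z => Dy w₀ z + Dy v' z) := by
    rw [hA]
    refine NlinB_base hC hd (SH.deriv_bg hC hw [false] (by simp) (by simp)) (hb.b1 [false] rfl)
      (hb'.b1 [false] rfl) ?_
    have := hs.b1 [false] rfl
    rw [DD_false, DD_nil, NlinB_Dy_sub hv0 hv0'] at this
    exact this
  have p : NlinB_PH C w₀ d 2 A (fun z => Dx (Dx w₀) z + Dx (Dx v) z)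
      (fun z => Dx (Dx w₀) z + Dx (Dx v') z) := by
    rw [hA]
    refine NlinB_base hC hd (SH.deriv_bg hC hw [true, true] (by simp) (by simp))
      (hb.b2 [true, true] rfl) (hb'.b2 [true, true] rfl) ?_
    have := hs.b2 [true, true] rfl
    rw [DD_true, DD_true, DD_nil, NlinB_Dx_sub hv0 hv0', NlinB_Dx_sub hvx hvx'] at this
    exact this
  have q : NlinB_PH C w₀ d 2 A (fun z => Dy (Dy w₀) z + Dy (Dy v) z)
      (fun z => Dy (Dy w₀) z + Dy (Dy v') z) := by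
    rw [hA]
    refine NlinB_base hC hd (SH.deriv_bg hC hw [false, false] (by simp) (by simp))
      (hb.b2 [false, false] rfl) (hb'.b2 [false, false] rfl) ?_
    have := hs.b2 [false, false] rfl
    rw [DD_false, DD_false, DD_nil, NlinB_Dy_sub hv0 hv0', NlinB_Dy_sub hvy hvy'] at this
    exact this
  have r : NlinB_PH C w₀ d 2 A (fun z => Dx (Dy w₀) z + Dx (Dy v) z)
      (fun z => Dx (Dy w₀) z + Dx (Dy v') z) := by
    rw [hA]
    refine NlinB_base hC hd (SH.deriv_bg hC hw [true, false] (by simp) (by simp))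
      (hb.b2 [true, false] rfl) (hb'.b2 [true, false] rfl) ?_
    have := hs.b2 [true, false] rfl
    rw [DD_true, DD_false, DD_nil, NlinB_Dy_sub hv0 hv0', NlinB_Dx_sub hvy hvy'] at this
    exact this
  have e : NlinB_PH C w₀ d (-2) A (fun z => Real.exp (w₀ z) ^ (-2 : ℤ) * Real.exp (-2 * v z))
      (fun z => Real.exp (w₀ z) ^ (-2 : ℤ) * Real.exp (-2 * v' z)) := by
    have e1 : NlinB_PH C w₀ d (-2) (1000 * C) (fun z => Real.exp (w₀ z) ^ (-2 : ℤ))
        (fun z => Real.exp (w₀ z) ^ (-2 : ℤ)) := by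
      have h2 := SH.exp_bg hC hw (-2) (by norm_num)
      refine ⟨h2, h2, ?_⟩
      have h3 := NlinB_SH_zero (1 / (16 * C)) w₀ (-2) (M := 1000 * C * d) (by positivity)
      simpa only [sub_self] using h3
    have e2 : NlinB_PH C w₀ d 0 10000 (fun z => Real.exp (-2 * v z))
        (fun z => Real.exp (-2 * v' z)) :=
      ⟨(SH.exp_comp (c := -2) (by norm_num) hb.b0).mono (by norm_num),
        (SH.exp_comp (c := -2) (by norm_num) hb'.b0).mono (by norm_num),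
        SH.exp_sub (c := -2) (by norm_num) hd hb.b0 hb'.b0 hs.b0⟩
    have e3 := NlinB_PH.mul (r := -2) hC hw hd (by norm_num) (by norm_num) (by positivity)
      (by norm_num) e1 e2
    refine e3.mono hd (le_of_eq ?_)
    rw [hA]
    ring
  -- products
  have aa := NlinB_PH.mul (r := 2) hC hw hd (by norm_num) (by norm_num) hA0 hA0 a a
  have bb := NlinB_PH.mul (r := 2) hC hw hd (by norm_num) (by norm_num) hA0 hA0 b b
  have ab := NlinB_PH.mul (r := 2) hC hw hd (by norm_num) (by norm_num) hA0 hA0 a b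
  rw [← hK1] at aa bb ab
  have S := aa.add bb
  rw [← hK2] at S
  have SS := NlinB_PH.mul (r := 4) hC hw hd (by norm_num) (by norm_num) hK20 hK20 S S
  rw [← hK3] at SS
  have T1 := SS.cmul hd hK30 (1 + ε ^ 2) 2 (by
    rw [abs_of_nonneg (by positivity)]
    nlinarith)
  have pq := NlinB_PH.mul (r := 4) hC hw hd (by norm_num) (by norm_num) hA0 hA0 p q
  have rr := NlinB_PH.mul (r := 4) hC hw hd (by norm_num) (by norm_num) hA0 hA0 r r
  rw [← hK1] at pq rr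
  have pbb := NlinB_PH.mul (r := 4) hC hw hd (by norm_num) (by norm_num) hA0 hK10 p bb
  have qaa := NlinB_PH.mul (r := 4) hC hw hd (by norm_num) (by norm_num) hA0 hK10 q aa
  have rab := NlinB_PH.mul (r := 4) hC hw hd (by norm_num) (by norm_num) hA0 hK10 r ab
  rw [← hK5] at pbb qaa rab
  have T4 := pbb.cmul hd hK50 2 2 (by norm_num)
  have T5 := qaa.cmul hd hK50 2 2 (by norm_num)
  have T6 := rab.cmul hd hK50 4 4 (by norm_num)
  have T := ((((T1.sub pq).add rr).add T4).add T5).sub T6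
  have ET := NlinB_PH.mul (r := 2) hC hw hd (by norm_num) (by norm_num) hA0 (by positivity) e T
  have S2 := S.cmul hd hK20 2 2 (by norm_num)
  have F := ET.sub S2
  rw [← hK] at F
  have E1 : QQ ε (fun y => w₀ y + v y) = _ := funext fun z => NlinB_QQ_eq ε hw.1 hv z
  have E2 : QQ ε (fun y => w₀ y + v' y) = _ := funext fun z => NlinB_QQ_eq ε hw.1 hv' z
  rw [E1, E2]
  exact F

/-- **Nonlinear estimate.** `QQ ε w` is a polynomial in `e^{-2w}`, `Dx w`, `Dy w` and the second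
derivatives of `w = w₀ + v`; the monomials are of the form (order `-2`) × (four orders) or
(two orders), so that the total order is `2`. Use the algebra of the classes `SH` and telescoping
for the difference. The first part is the case `v = 0` with `|QQ| ≤ C₂`, the second one contains
the factor `M` from `SH.quad_sub` (multiplied by `e^{2 w₀}`, of order 2) and `ε²`. -/
theorem nonlin_est (C : ℝ) (hC : 1 ≤ C) : ∃ C₂ : ℝ, 1 ≤ C₂ ∧ ∀ w₀ : ℂ → ℝ, Bg C w₀ →
    ∀ ε : ℝ, 0 ≤ ε → ε ≤ 1 →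
      SH (1 / (16 * C)) w₀ 2 (C₂ * ε ^ 2) (RR ε w₀ (fun _ => 0)) ∧
      ∀ (M d : ℝ), 0 ≤ M → M ≤ 1 → 0 ≤ d → ∀ v v' : ℂ → ℝ, ContDiff ℝ 2 v → ContDiff ℝ 2 v' →
        WB (1 / (16 * C)) w₀ M v → WB (1 / (16 * C)) w₀ M v' →
        WB (1 / (16 * C)) w₀ d (fun z => v z - v' z) →
        SH (1 / (16 * C)) w₀ 2 (C₂ * (M + ε ^ 2) * d) (fun z => RR ε w₀ v z - RR ε w₀ v' z) := by
  have hC0 : 0 ≤ C := by linarith
  obtain ⟨A, hA⟩ : ∃ A : ℝ, A = 20000000000 * C := ⟨_, rfl⟩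
  obtain ⟨K1, hK1⟩ : ∃ K1 : ℝ, K1 = 2000 * A * A := ⟨_, rfl⟩
  obtain ⟨K2, hK2⟩ : ∃ K2 : ℝ, K2 = K1 + K1 := ⟨_, rfl⟩
  obtain ⟨K3, hK3⟩ : ∃ K3 : ℝ, K3 = 2000 * K2 * K2 := ⟨_, rfl⟩
  obtain ⟨K5, hK5⟩ : ∃ K5 : ℝ, K5 = 2000 * A * K1 := ⟨_, rfl⟩
  obtain ⟨K, hK⟩ : ∃ K : ℝ,
      K = 2000 * A * (2 * K3 + K1 + K1 + 2 * K5 + 2 * K5 + 4 * K5) + 2 * K2 := ⟨_, rfl⟩
  refine ⟨1 + max K (10000000000 * C), ?_, ?_⟩
  · have : 0 ≤ max K (10000000000 * C) := le_max_of_le_right (by positivity)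
    linarith
  intro w₀ hw ε h0 h1
  constructor
  · have hz : ContDiff ℝ 2 (fun _ : ℂ => (0 : ℝ)) := contDiff_const
    have hz1 := NlinB_WB_zero (1 / (16 * C)) w₀ (M := 1) zero_le_one
    have hzs : WB (1 / (16 * C)) w₀ 0 (fun _ => (0 : ℝ) - 0) := by
      simpa only [sub_self] using NlinB_WB_zero (1 / (16 * C)) w₀ (M := 0) le_rfl
    have h2 := NlinB_QQ_pair hC hw h0 h1 (d := 0) le_rfl hz hz hz1 hz1 hzs hA hK1 hK2 hK3 hK5 hK
    have h3 := h2.l.const_mul (ε ^ 2)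
    have e : (fun z => ε ^ 2 * QQ ε (fun y => w₀ y + (fun _ => (0 : ℝ)) y) z) =
        RR ε w₀ (fun _ => 0) := by
      funext z
      simp [RR]
    have h4 : SH (1 / (16 * C)) w₀ 2 (|ε ^ 2| * K)
        (fun z => ε ^ 2 * QQ ε (fun y => w₀ y + (fun _ => (0 : ℝ)) y) z) := h3
    rw [e] at h4
    refine h4.mono ?_
    rw [abs_of_nonneg (by positivity), mul_comm]
    refine mul_le_mul_of_nonneg_right ?_ (by positivity)
    have := le_max_left K (10000000000 * C)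
    linarith
  · intro M d hM hM1 hd v v' hv hv' hb hb' hs
    have h2 := NlinB_QQ_pair hC hw h0 h1 hd hv hv' (NlinB_WB_mono hb hM1) (NlinB_WB_mono hb' hM1)
      hs hA hK1 hK2 hK3 hK5 hK
    have h3 := h2.s.const_mul (ε ^ 2)
    have h4 := SH.quad_sub hM hM1 hd hb.b0 hb'.b0 hs.b0
    have h5 := SH.mul hC hw (p := 2) (q := 0) (by norm_num) (by positivity) (by positivity)
      (SH.exp_bg hC hw 2 (by norm_num)) h4
    have h6 := h5.add h3
    have e : (fun z => Real.exp (w₀ z) ^ (2 : ℤ) * ((Real.exp (2 * v z) - 1 - 2 * v z)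
        - (Real.exp (2 * v' z) - 1 - 2 * v' z)) +
        ε ^ 2 * (QQ ε (fun y => w₀ y + v y) z - QQ ε (fun y => w₀ y + v' y) z)) =
        fun z => RR ε w₀ v z - RR ε w₀ v' z := by
      funext z
      rw [RR, RR, NlinB_exp_two (w₀ z)]
      ring
    rw [e, add_zero] at h6
    refine h6.mono ?_
    rw [abs_of_nonneg (by positivity : 0 ≤ ε ^ 2)]
    have m1 : K ≤ 1 + max K (10000000000 * C) := by
      have := le_max_left K (10000000000 * C)
      linarith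
    have m2 : 10000000000 * C ≤ 1 + max K (10000000000 * C) := by
      have := le_max_right K (10000000000 * C)
      linarith
    have m3 : 10000000000 * C * (M * d) ≤ (1 + max K (10000000000 * C)) * (M * d) :=
      mul_le_mul_of_nonneg_right m2 (by positivity)
    have m4 : K * (ε ^ 2 * d) ≤ (1 + max K (10000000000 * C)) * (ε ^ 2 * d) :=
      mul_le_mul_of_nonneg_right m1 (by positivity)
    linarith

end Pool.Agent.KK
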