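import Pool.Agent.W_bb4b37_h53.LinearB
import Pool.Agent.W_bb4b37_h53.NlinA
import Pool.Agent.W_bb4b37_h53.NlinB

/-!
# The fully nonlinear equation at level `s`: estimates and existence (part C)
-/

set_option autoImplicit false

open Filter Topology Set MeasureTheory Metric
open scoped ContDiff

namespace Pool.Agent.KK

theorem NlinC_two_le : (2 : WithTop ℕ∞) ≤ ∞ := WithTop.coe_le_coe.mpr (le_top : (2 : ℕ∞) ≤ ⊤)

theorem NlinC_Dx_add {f g : ℂ → ℝ} (hf : Differentiable ℝ f) (hg : Differentiable ℝ g) :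
    Dx (fun y => f y + g y) = fun z => Dx f z + Dx g z :=
  funext fun z => Dx_add (hf z) (hg z)

theorem NlinC_Dy_add {f g : ℂ → ℝ} (hf : Differentiable ℝ f) (hg : Differentiable ℝ g) :
    Dy (fun y => f y + g y) = fun z => Dy f z + Dy g z :=
  funext fun z => Dy_add (hf z) (hg z)

theorem NlinC_Dx_sub {f g : ℂ → ℝ} (hf : Differentiable ℝ f) (hg : Differentiable ℝ g) :
    Dx (fun y => f y - g y) = fun z => Dx f z - Dx g z :=
  funext fun z => Dx_sub (hf z) (hg z)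

theorem NlinC_Dy_sub {f g : ℂ → ℝ} (hf : Differentiable ℝ f) (hg : Differentiable ℝ g) :
    Dy (fun y => f y - g y) = fun z => Dy f z - Dy g z :=
  funext fun z => Dy_sub (hf z) (hg z)

theorem NlinC_diff {f : ℂ → ℝ} (hf : ContDiff ℝ 2 f) :
    Differentiable ℝ f ∧ Differentiable ℝ (Dx f) ∧ Differentiable ℝ (Dy f) := by
  refine ⟨hf.differentiable (by norm_num), ?_, ?_⟩
  · exact (contDiff_Dx (m := 1) hf (by norm_num)).differentiable (by norm_num)
  · exact (contDiff_Dy (m := 1) hf (by norm_num)).differentiable (by norm_num)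

theorem NlinC_DD_add {f g : ℂ → ℝ} (hf : ContDiff ℝ 2 f) (hg : ContDiff ℝ 2 g) (l : List Bool)
    (hl : l.length ≤ 2) : DD l (fun z => f z + g z) = fun z => DD l f z + DD l g z := by
  obtain ⟨f0, fx, fy⟩ := NlinC_diff hf
  obtain ⟨g0, gx, gy⟩ := NlinC_diff hg
  match l, hl with
  | [], _ => rfl
  | [true], _ => exact NlinC_Dx_add f0 g0
  | [false], _ => exact NlinC_Dy_add f0 g0
  | [true, true], _ =>
    show Dx (Dx (fun z => f z + g z)) = fun z => Dx (Dx f) z + Dx (Dx g) z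
    rw [NlinC_Dx_add f0 g0, NlinC_Dx_add fx gx]
  | [true, false], _ =>
    show Dx (Dy (fun z => f z + g z)) = fun z => Dx (Dy f) z + Dx (Dy g) z
    rw [NlinC_Dy_add f0 g0, NlinC_Dx_add fy gy]
  | [false, true], _ =>
    show Dy (Dx (fun z => f z + g z)) = fun z => Dy (Dx f) z + Dy (Dx g) z
    rw [NlinC_Dx_add f0 g0, NlinC_Dy_add fx gx]
  | [false, false], _ =>
    show Dy (Dy (fun z => f z + g z)) = fun z => Dy (Dy f) z + Dy (Dy g) z
    rw [NlinC_Dy_add f0 g0, NlinC_Dy_add fy gy]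
  | (_ :: _ :: _ :: _), h => exact absurd h (by simp)

theorem NlinC_DD_sub {f g : ℂ → ℝ} (hf : ContDiff ℝ 2 f) (hg : ContDiff ℝ 2 g) (l : List Bool)
    (hl : l.length ≤ 2) : DD l (fun z => f z - g z) = fun z => DD l f z - DD l g z := by
  obtain ⟨f0, fx, fy⟩ := NlinC_diff hf
  obtain ⟨g0, gx, gy⟩ := NlinC_diff hg
  match l, hl with
  | [], _ => rfl
  | [true], _ => exact NlinC_Dx_sub f0 g0
  | [false], _ => exact NlinC_Dy_sub f0 g0
  | [true, true], _ =>
    show Dx (Dx (fun z => f z - g z)) = fun z => Dx (Dx f) z - Dx (Dx g) z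
    rw [NlinC_Dx_sub f0 g0, NlinC_Dx_sub fx gx]
  | [true, false], _ =>
    show Dx (Dy (fun z => f z - g z)) = fun z => Dx (Dy f) z - Dx (Dy g) z
    rw [NlinC_Dy_sub f0 g0, NlinC_Dx_sub fy gy]
  | [false, true], _ =>
    show Dy (Dx (fun z => f z - g z)) = fun z => Dy (Dx f) z - Dy (Dx g) z
    rw [NlinC_Dx_sub f0 g0, NlinC_Dy_sub fx gx]
  | [false, false], _ =>
    show Dy (Dy (fun z => f z - g z)) = fun z => Dy (Dy f) z - Dy (Dy g) z
    rw [NlinC_Dy_sub f0 g0, NlinC_Dy_sub fy gy]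
  | (_ :: _ :: _ :: _), h => exact absurd h (by simp)

theorem NlinC_Lap_add {f g : ℂ → ℝ} (hf : ContDiff ℝ 2 f) (hg : ContDiff ℝ 2 g) (z : ℂ) :
    Lap (fun z => f z + g z) z = Lap f z + Lap g z := by
  have h1 := congrFun (NlinC_DD_add hf hg [true, true] (by simp)) z
  have h2 := congrFun (NlinC_DD_add hf hg [false, false] (by simp)) z
  simp only [DD_true, DD_false, DD_nil] at h1 h2
  show Dx (Dx (fun z => f z + g z)) z + Dy (Dy (fun z => f z + g z)) z =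
    (Dx (Dx f) z + Dy (Dy f) z) + (Dx (Dx g) z + Dy (Dy g) z)
  rw [h1, h2]; ring

theorem NlinC_Lap_sub {f g : ℂ → ℝ} (hf : ContDiff ℝ 2 f) (hg : ContDiff ℝ 2 g) (z : ℂ) :
    Lap (fun z => f z - g z) z = Lap f z - Lap g z := by
  have h1 := congrFun (NlinC_DD_sub hf hg [true, true] (by simp)) z
  have h2 := congrFun (NlinC_DD_sub hf hg [false, false] (by simp)) z
  simp only [DD_true, DD_false, DD_nil] at h1 h2
  show Dx (Dx (fun z => f z - g z)) z + Dy (Dy (fun z => f z - g z)) z =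
    (Dx (Dx f) z + Dy (Dy f) z) - (Dx (Dx g) z + Dy (Dy g) z)
  rw [h1, h2]; ring

theorem NlinC_WB_add {κ : ℝ} {w₀ : ℂ → ℝ} {M N : ℝ} {f g : ℂ → ℝ} (hf : WB κ w₀ M f)
    (hg : WB κ w₀ N g) (cf : ContDiff ℝ 2 f) (cg : ContDiff ℝ 2 g) :
    WB κ w₀ (M + N) (fun z => f z + g z) where
  b0 := hf.b0.add hg.b0
  b1 l hl := by
    rw [NlinC_DD_add cf cg l (by omega)]; exact (hf.b1 l hl).add (hg.b1 l hl)
  b2 l hl := by
    rw [NlinC_DD_add cf cg l (by omega)]; exact (hf.b2 l hl).add (hg.b2 l hl)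

theorem NlinC_WB_mono {κ : ℝ} {w₀ : ℂ → ℝ} {M N : ℝ} {f : ℂ → ℝ} (hf : WB κ w₀ M f)
    (h : M ≤ N) : WB κ w₀ N f :=
  ⟨hf.b0.mono h, fun l hl => (hf.b1 l hl).mono h, fun l hl => (hf.b2 l hl).mono h⟩

theorem NlinC_DD_zero (l : List Bool) : DD l (fun _ : ℂ => (0 : ℝ)) = fun _ => 0 := by
  induction l with
  | nil => rfl
  | cons b l ih =>
    cases b
    · rw [DD_false, ih]; funext z; exact Dy_const 0 z
    · rw [DD_true, ih]; funext z; exact Dx_const 0 z

theorem NlinC_SH_zero {κ : ℝ} {w₀ : ℂ → ℝ} (p : ℤ) {M : ℝ} (hM : 0 ≤ M) :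
    SH κ w₀ p M (fun _ => 0) where
  bd z := by rw [abs_zero]; positivity
  hol z y _ := by rw [sub_self, abs_zero]; positivity

theorem NlinC_WB_zero {κ : ℝ} {w₀ : ℂ → ℝ} {M : ℝ} (hM : 0 ≤ M) :
    WB κ w₀ M (fun _ => 0) where
  b0 := NlinC_SH_zero 0 hM
  b1 l _ := by rw [NlinC_DD_zero]; exact NlinC_SH_zero 1 hM
  b2 l _ := by rw [NlinC_DD_zero]; exact NlinC_SH_zero 2 hM

theorem NlinC_SH_lim {κ : ℝ} {w₀ : ℂ → ℝ} {p : ℤ} {M : ℝ} {f : ℕ → ℂ → ℝ} {g : ℂ → ℝ}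
    (h : ∀ n, SH κ w₀ p M (f n)) (hl : ∀ z, Tendsto (fun n => f n z) atTop (𝓝 (g z))) :
    SH κ w₀ p M g where
  bd z := le_of_tendsto (hl z).abs (Filter.Eventually.of_forall fun n => (h n).bd z)
  hol z y hzy := le_of_tendsto ((hl y).sub (hl z)).abs
    (Filter.Eventually.of_forall fun n => (h n).hol z y hzy)

theorem NlinC_QQ_smooth (ε : ℝ) {w : ℂ → ℝ} (hw : ContDiff ℝ ∞ w) : ContDiff ℝ ∞ (QQ ε w) := by
  have hx : ContDiff ℝ ∞ (Dx w) := contDiff_DD hw [true]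
  have hy : ContDiff ℝ ∞ (Dy w) := contDiff_DD hw [false]
  have hxx : ContDiff ℝ ∞ (Dx (Dx w)) := contDiff_DD hw [true, true]
  have hyy : ContDiff ℝ ∞ (Dy (Dy w)) := contDiff_DD hw [false, false]
  have hxy : ContDiff ℝ ∞ (Dx (Dy w)) := contDiff_DD hw [true, false]
  have he : ContDiff ℝ ∞ (fun z => Real.exp (-(2 * w z))) := (contDiff_const.mul hw).neg.exp
  have h1 : ContDiff ℝ ∞ (fun z => (Dx w z) ^ 2 + (Dy w z) ^ 2) := (hx.pow 2).add (hy.pow 2)
  have h2 := ((contDiff_const (c := 1 + ε ^ 2)).mul he).mul (h1.pow 2)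
  have h3 := (contDiff_const (c := (2 : ℝ))).mul h1
  have h4 := hxx.sub ((contDiff_const (c := (2 : ℝ))).mul (hx.pow 2))
  have h5 := hyy.sub ((contDiff_const (c := (2 : ℝ))).mul (hy.pow 2))
  have h6 := hxy.sub ((contDiff_const (c := (2 : ℝ))).mul (hx.mul hy))
  exact (h2.sub h3).sub (he.mul ((h4.mul h5).sub (h6.pow 2)))

theorem NlinC_QQ_per {a : ℝ} (ε : ℝ) {w : ℂ → ℝ} (hw : Per a w) : Per a (QQ ε w) := by
  intro z v hv
  unfold QQ
  rw [hw z v hv, per_Dx hw z v hv, per_Dy hw z v hv, per_Dx (per_Dx hw) z v hv,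
    per_Dy (per_Dy hw) z v hv, per_Dx (per_Dy hw) z v hv]

theorem NlinC_QQ_lim (ε : ℝ) {f : ℕ → ℂ → ℝ} {g : ℂ → ℝ} {z : ℂ}
    (h : ∀ l : List Bool, l.length ≤ 2 →
      Tendsto (fun n => DD l (f n) z) atTop (𝓝 (DD l g z))) :
    Tendsto (fun n => QQ ε (f n) z) atTop (𝓝 (QQ ε g z)) := by
  have h0 : Tendsto (fun n => f n z) atTop (𝓝 (g z)) := h [] (by simp)
  have hx : Tendsto (fun n => Dx (f n) z) atTop (𝓝 (Dx g z)) := h [true] (by simp)
  have hy : Tendsto (fun n => Dy (f n) z) atTop (𝓝 (Dy g z)) := h [false] (by simp)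
  have hxx : Tendsto (fun n => Dx (Dx (f n)) z) atTop (𝓝 (Dx (Dx g) z)) :=
    h [true, true] (by simp)
  have hyy : Tendsto (fun n => Dy (Dy (f n)) z) atTop (𝓝 (Dy (Dy g) z)) :=
    h [false, false] (by simp)
  have hxy : Tendsto (fun n => Dx (Dy (f n)) z) atTop (𝓝 (Dx (Dy g) z)) :=
    h [true, false] (by simp)
  have he : Tendsto (fun n => Real.exp (-(2 * f n z))) atTop (𝓝 (Real.exp (-(2 * g z)))) :=
    (Real.continuous_exp.tendsto _).comp (h0.const_mul 2).neg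
  have h1 := (hx.pow 2).add (hy.pow 2)
  have h2 := (he.const_mul (1 + ε ^ 2)).mul (h1.pow 2)
  have h3 := h1.const_mul 2
  have h4 := hxx.sub ((hx.pow 2).const_mul 2)
  have h5 := hyy.sub ((hy.pow 2).const_mul 2)
  have h6 := hxy.sub ((hx.mul hy).const_mul 2)
  exact (h2.sub h3).sub (he.mul ((h4.mul h5).sub (h6.pow 2)))

theorem NlinC_RR_smooth (ε : ℝ) {w₀ v : ℂ → ℝ} (hw : ContDiff ℝ ∞ w₀) (hv : ContDiff ℝ ∞ v) :
    ContDiff ℝ ∞ (RR ε w₀ v) := by
  have h1 : ContDiff ℝ ∞ (fun z => Real.exp (2 * w₀ z)) := (contDiff_const.mul hw).exp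
  have h2 : ContDiff ℝ ∞ (fun z => Real.exp (2 * v z)) := (contDiff_const.mul hv).exp
  have h3 := (h2.sub (contDiff_const (c := (1 : ℝ)))).sub
    ((contDiff_const (c := (2 : ℝ))).mul hv)
  have h4 := (contDiff_const (c := ε ^ 2)).mul (NlinC_QQ_smooth ε (hw.add hv))
  exact (h1.mul h3).add h4

theorem NlinC_RR_per {a : ℝ} (ε : ℝ) {w₀ v : ℂ → ℝ} (hw : Per a w₀) (hv : Per a v) :
    Per a (RR ε w₀ v) := by
  have h1 : Per a (fun y => w₀ y + v y) := fun z u hu => by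
    show w₀ (z + u) + v (z + u) = w₀ z + v z
    rw [hw z u hu, hv z u hu]
  intro z u hu
  unfold RR
  rw [hw z u hu, hv z u hu, NlinC_QQ_per ε h1 z u hu]

/-- telescoping with a geometric bound -/
theorem NlinC_tele {x : ℕ → ℝ} {B : ℝ} (hB : ∀ k, |x (k + 1) - x k| ≤ B / 2 ^ (k + 1)) (m n : ℕ) :
    |x (m + n) - x m| ≤ B / 2 ^ m - B / 2 ^ (m + n) := by
  induction n with
  | zero => simp
  | succ n ih =>
    have h1 := hB (m + n)
    have h2 : |x (m + n + 1) - x m| ≤ |x (m + n + 1) - x (m + n)| + |x (m + n) - x m| := by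
      have := abs_add_le (x (m + n + 1) - x (m + n)) (x (m + n) - x m)
      rwa [sub_add_sub_cancel] at this
    have h3 : B / 2 ^ (m + n) = 2 * (B / 2 ^ (m + n + 1)) := by
      rw [pow_succ]; field_simp
    show |x (m + n + 1) - x m| ≤ B / 2 ^ m - B / 2 ^ (m + n + 1)
    linarith

theorem NlinC_cauchy {F : ℕ → ℂ → ℝ} {B : ℝ} (hB0 : 0 ≤ B)
    (hB : ∀ k z, |F (k + 1) z - F k z| ≤ B / 2 ^ (k + 1)) : UniformCauchySeqOn F atTop univ := by
  rw [Metric.uniformCauchySeqOn_iff]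
  intro η hη
  have hlim : Tendsto (fun n : ℕ => 2 * B * (1 / 2 : ℝ) ^ n) atTop (𝓝 (2 * B * 0)) :=
    (tendsto_pow_atTop_nhds_zero_of_lt_one (by norm_num) (by norm_num)).const_mul _
  rw [mul_zero] at hlim
  obtain ⟨N, hN⟩ := ((hlim.eventually (gt_mem_nhds hη)).and (eventually_ge_atTop 0)).exists
  refine ⟨N, fun m hm n hn z _ => ?_⟩
  have key : ∀ k, N ≤ k → |F k z - F N z| ≤ B / 2 ^ N := by
    intro k hk
    obtain ⟨j, rfl⟩ := Nat.exists_eq_add_of_le hk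
    have h1 := NlinC_tele (x := fun n => F n z) (fun k => hB k z) N j
    have h2 : 0 ≤ B / 2 ^ (N + j) := by positivity
    show |F (N + j) z - F N z| ≤ _
    have h3 : |F (N + j) z - F N z| ≤ B / 2 ^ N - B / 2 ^ (N + j) := h1
    linarith
  rw [Real.dist_eq]
  have h4 : |F m z - F n z| ≤ |F m z - F N z| + |F n z - F N z| := by
    have := abs_sub_le (F m z) (F N z) (F n z)
    rwa [abs_sub_comm (F N z) (F n z)] at this
  have h5 : 2 * B * (1 / 2 : ℝ) ^ N = B / 2 ^ N + B / 2 ^ N := by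
    rw [one_div, inv_pow]; ring
  have h6 := hN.1
  rw [h5] at h6
  linarith [key m hm, key n hn]

/-- **Existence.** Proof: `v_0 = 0`, `Δ v_{k+1} - 2 ρ² v_{k+1} = RR ε w₀ v_k` (`linear_solver`; the
right side is smooth and periodic). With `M = 4 C₁ C₂ ε²` and `ε` small, induction with `lin_est`
and `nonlin_est` gives `WB (M / 2^{k+1}) (v_{k+1} - v_k)` and `WB M v_k`. So the derivatives of
order `≤ 2` converge uniformly (`ρ` is bounded: `per_bounded`), `conv_C2` gives a `C²` limit `v`,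
`WB M v`, and the equation passes to the limit: `Δ (w₀ + v) = e^{2 w₀} - X + 2 e^{2 w₀} v + RR
= e^{2 (w₀ + v)} - X + ε² QQ`. -/
theorem level_exists_v (C : ℝ) (hC : 1 ≤ C) : ∃ ε₀ C₃ : ℝ, 0 < ε₀ ∧ 1 ≤ C₃ ∧
    ∀ ε : ℝ, 0 < ε → ε ≤ ε₀ → ∀ a : ℝ, |a| < 1 → ∀ w₀ X : ℂ → ℝ, Bg C w₀ → Per a w₀ →
    ContDiff ℝ ∞ X → Per a X → (∀ z, Lap w₀ z = Real.exp (2 * w₀ z) - X z) →
    ∃ v : ℂ → ℝ, ContDiff ℝ 2 v ∧ Per a v ∧ WB (1 / (16 * C)) w₀ (C₃ * ε ^ 2) v ∧
      IsSol ε X univ (fun z => w₀ z + v z) := by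
  obtain ⟨C₁, hC₁, L⟩ := lin_est C hC
  obtain ⟨C₂, hC₂, NL⟩ := nonlin_est C hC
  obtain ⟨K, hKdef⟩ : ∃ K, K = C₁ * C₂ := ⟨_, rfl⟩
  have hK1 : 1 ≤ K := by rw [hKdef]; nlinarith
  have hK0 : 0 < K := by linarith
  refine ⟨1 / (4 * K), 4 * K, by positivity, by linarith, ?_⟩
  intro ε hε hε0 a ha w₀ X hw hwp hX hXp hLw
  have hεK : K * ε ≤ 1 / 4 := by
    have h1 : K * ε ≤ K * (1 / (4 * K)) := mul_le_mul_of_nonneg_left hε0 hK0.le
    have h2 : K * (1 / (4 * K)) = 1 / 4 := by field_simp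
    linarith
  have hε1 : ε ≤ 1 / 4 := by nlinarith
  obtain ⟨M, hMdef⟩ : ∃ M, M = 4 * K * ε ^ 2 := ⟨_, rfl⟩
  have hM0 : 0 ≤ M := by rw [hMdef]; positivity
  have hM1 : M ≤ 1 := by
    rw [hMdef]
    have : 4 * K * ε ^ 2 = 4 * (K * ε) * ε := by ring
    rw [this]; nlinarith [mul_nonneg hK0.le hε.le]
  have hcontr : K * (M + ε ^ 2) ≤ 1 / 2 := by
    have h1 : K * (M + ε ^ 2) = 4 * (K * ε) ^ 2 + (K * ε) * ε := by rw [hMdef]; ring
    have h2 : 0 ≤ K * ε := mul_nonneg hK0.le hε.le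
    rw [h1]; nlinarith
  have hwS : ContDiff ℝ ∞ w₀ := hw.1
  -- the coefficient
  obtain ⟨B, hB⟩ := per_bounded ha hwp hwS.continuous
  have hBz : ∀ z, |w₀ z| ≤ B := fun z => by have := hB z; rwa [Real.norm_eq_abs] at this
  have hB0 : 0 ≤ B := (abs_nonneg _).trans (hBz 0)
  have hq : ContDiff ℝ ∞ (fun z => 2 * Real.exp (w₀ z) ^ 2) :=
    contDiff_const.mul ((hwS.exp).pow 2)
  have hqp : Per a (fun z => 2 * Real.exp (w₀ z) ^ 2) := fun z u hu => by
    show 2 * Real.exp (w₀ (z + u)) ^ 2 = 2 * Real.exp (w₀ z) ^ 2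
    rw [hwp z u hu]
  have hqq : ∀ z, 2 * Real.exp (-B) ^ 2 ≤ 2 * Real.exp (w₀ z) ^ 2 := by
    intro z
    have h1 : -B ≤ w₀ z := (abs_le.mp (hBz z)).1
    have h2 := Real.exp_le_exp.mpr h1
    have h3 := pow_le_pow_left₀ (Real.exp_pos (-B)).le h2 2
    linarith
  have hq0 : 0 < 2 * Real.exp (-B) ^ 2 := by positivity
  -- the iteration
  have step : ∀ v : {v : ℂ → ℝ // ContDiff ℝ ∞ v ∧ Per a v},
      ∃ v' : {v : ℂ → ℝ // ContDiff ℝ ∞ v ∧ Per a v},
        ∀ z, Lap v'.1 z - 2 * Real.exp (w₀ z) ^ 2 * v'.1 z = RR ε w₀ v.1 z := by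
    rintro ⟨v, hv, hvp⟩
    obtain ⟨v', h1, h2, h3⟩ := linear_solver ha hq0 hq hqp hqq (NlinC_RR_smooth ε hwS hv)
      (NlinC_RR_per ε hwp hvp)
    exact ⟨⟨v', h1, h2⟩, h3⟩
  choose T hT using step
  let x0 : {v : ℂ → ℝ // ContDiff ℝ ∞ v ∧ Per a v} := ⟨fun _ => 0, contDiff_const, fun _ _ _ => rfl⟩
  obtain ⟨v, hvdef⟩ : ∃ v : ℕ → ℂ → ℝ, ∀ n, v n = (T^[n] x0).1 := ⟨fun n => (T^[n] x0).1, fun _ => rfl⟩
  have hv0 : v 0 = fun _ => 0 := by rw [hvdef]; rfl
  have hvS : ∀ n, ContDiff ℝ ∞ (v n) := fun n => by rw [hvdef]; exact (T^[n] x0).2.1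
  have hvP : ∀ n, Per a (v n) := fun n => by rw [hvdef]; exact (T^[n] x0).2.2
  have hvE : ∀ n z, Lap (v (n + 1)) z - 2 * Real.exp (w₀ z) ^ 2 * v (n + 1) z =
      RR ε w₀ (v n) z := by
    intro n z
    rw [hvdef, hvdef, Function.iterate_succ_apply']
    exact hT _ z
  have hv2 : ∀ n, ContDiff ℝ 2 (v n) := fun n => (hvS n).of_le NlinC_two_le
  obtain ⟨κ, hκ⟩ : ∃ κ, κ = 1 / (16 * C) := ⟨_, rfl⟩
  rw [← hκ] at L NL ⊢
  -- the estimates
  have hmain : ∀ k : ℕ, WB κ w₀ (M * (1 - 1 / 2 ^ k)) (v k) ∧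
      WB κ w₀ (M / 2 ^ (k + 1)) (fun z => v (k + 1) z - v k z) := by
    intro k
    induction k with
    | zero =>
      constructor
      · rw [hv0]; exact NlinC_WB_zero (by simp)
      · have h1 : (fun z => v (0 + 1) z - v 0 z) = v 1 := by
          funext z; rw [hv0]; simp
        rw [h1]
        have h2 := (NL w₀ hw ε hε.le (by linarith)).1
        have h3 : (fun z => Lap (v 1) z - 2 * Real.exp (w₀ z) ^ 2 * v 1 z) =
            RR ε w₀ (fun _ => 0) := by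
          funext z; rw [hvE 0 z, hv0]
        rw [← h3] at h2
        have h4 := L a ha w₀ hw hwp (v 1) (hvS 1) (hvP 1) (C₂ * ε ^ 2) (by positivity) h2
        apply NlinC_WB_mono h4
        rw [hMdef, hKdef]
        have h5 : 0 ≤ C₁ * C₂ * ε ^ 2 := by positivity
        norm_num
        nlinarith
    | succ k ih =>
      obtain ⟨ih1, ih2⟩ := ih
      have hadd := NlinC_WB_add ih1 ih2 (hv2 k) ((hv2 (k + 1)).sub (hv2 k))
      have h1 : (fun z => v k z + (v (k + 1) z - v k z)) = v (k + 1) := by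
        funext z; ring
      rw [h1] at hadd
      have h2 : M * (1 - 1 / 2 ^ k) + M / 2 ^ (k + 1) = M * (1 - 1 / 2 ^ (k + 1)) := by
        rw [pow_succ]; field_simp; ring
      rw [h2] at hadd
      have hle : ∀ j : ℕ, M * (1 - 1 / 2 ^ j) ≤ M := by
        intro j
        have h3 : (0 : ℝ) ≤ 1 / 2 ^ j := by positivity
        nlinarith
      refine ⟨hadd, ?_⟩
      have hd0 : 0 ≤ M / 2 ^ (k + 1) := by positivity
      have h4 := (NL w₀ hw ε hε.le (by linarith)).2 M (M / 2 ^ (k + 1)) hM0 hM1 hd0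
        (v (k + 1)) (v k) (hv2 _) (hv2 _) (NlinC_WB_mono hadd (hle _))
        (NlinC_WB_mono ih1 (hle _)) ih2
      have h5 : (fun z => Lap (fun z => v (k + 2) z - v (k + 1) z) z -
          2 * Real.exp (w₀ z) ^ 2 * (fun z => v (k + 2) z - v (k + 1) z) z) =
          fun z => RR ε w₀ (v (k + 1)) z - RR ε w₀ (v k) z := by
        funext z
        rw [← hvE (k + 1) z, ← hvE k z, NlinC_Lap_sub (hv2 _) (hv2 _)]
        ring
      rw [← h5] at h4
      have h6 := L a ha w₀ hw hwp (fun z => v (k + 2) z - v (k + 1) z)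
        ((hvS _).sub (hvS _)) (fun z u hu => by
          show v (k + 2) (z + u) - v (k + 1) (z + u) = v (k + 2) z - v (k + 1) z
          rw [hvP _ z u hu, hvP _ z u hu]) (C₂ * (M + ε ^ 2) * (M / 2 ^ (k + 1)))
        (by positivity) h4
      apply NlinC_WB_mono h6
      have h7 : C₁ * (C₂ * (M + ε ^ 2) * (M / 2 ^ (k + 1))) =
          K * (M + ε ^ 2) * (M / 2 ^ (k + 1)) := by rw [hKdef]; ring
      have h8 : M / 2 ^ (k + 1 + 1) = 1 / 2 * (M / 2 ^ (k + 1)) := by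
        rw [pow_succ _ (k + 1)]; field_simp
      rw [h7, h8]
      exact mul_le_mul_of_nonneg_right hcontr hd0
  -- uniform convergence
  have hρ : ∀ z, Real.exp (w₀ z) ≤ Real.exp B := fun z =>
    Real.exp_le_exp.mpr ((le_abs_self _).trans (hBz z))
  have hE1 : 1 ≤ Real.exp B := Real.one_le_exp hB0
  have hstep : ∀ l : List Bool, l.length ≤ 2 → ∀ k z,
      |DD l (v (k + 1)) z - DD l (v k) z| ≤ (M * Real.exp B ^ 2) / 2 ^ (k + 1) := by
    intro l hl k z
    have hsub := congrFun (NlinC_DD_sub (hv2 (k + 1)) (hv2 k) l hl) z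
    have h0 : 0 ≤ M / 2 ^ (k + 1) := by positivity
    have h1 : |DD l (fun z => v (k + 1) z - v k z) z| ≤
        M / 2 ^ (k + 1) * Real.exp B ^ 2 := by
      obtain ⟨b0, b1, b2⟩ := (hmain k).2
      rcases Nat.lt_or_ge l.length 1 with hl0 | hl0
      · have : l = [] := List.length_eq_zero_iff.mp (by omega)
        subst this
        have h3 := b0.bd z
        rw [zpow_zero] at h3
        refine h3.trans (mul_le_mul_of_nonneg_left ?_ h0)
        nlinarith
      · rcases Nat.lt_or_ge l.length 2 with hl1 | hl1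
        · have h3 := (b1 l (by omega)).bd z
          rw [zpow_one] at h3
          refine h3.trans (mul_le_mul_of_nonneg_left ?_ h0)
          nlinarith [hρ z]
        · have h3 := (b2 l (by omega)).bd z
          refine h3.trans (mul_le_mul_of_nonneg_left ?_ h0)
          have h4 : Real.exp (w₀ z) ^ (2 : ℤ) = Real.exp (w₀ z) ^ 2 := by norm_cast
          rw [h4]
          exact pow_le_pow_left₀ (Real.exp_pos _).le (hρ z) 2
    rw [hsub] at h1
    refine h1.trans (le_of_eq ?_)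
    ring
  obtain ⟨g, hg2, hglim⟩ := conv_C2 hv2 (fun l hl =>
    NlinC_cauchy (F := fun n => DD l (v n)) (by positivity) (hstep l hl))
  have hpt : ∀ l : List Bool, l.length ≤ 2 → ∀ z,
      Tendsto (fun n => DD l (v n) z) atTop (𝓝 (DD l g z)) :=
    fun l hl z => (hglim l hl).tendsto_at z
  have hle : ∀ j : ℕ, M * (1 - 1 / 2 ^ j) ≤ M := by
    intro j
    have h3 : (0 : ℝ) ≤ 1 / 2 ^ j := by positivity
    nlinarith
  refine ⟨g, hg2, ?_, ?_, ?_⟩
  · intro z u hu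
    have h1 := hpt [] (by simp) (z + u)
    have h2 := hpt [] (by simp) z
    simp only [DD_nil] at h1 h2
    have h3 : (fun n => v n (z + u)) = fun n => v n z := by
      funext n; exact hvP n z u hu
    rw [h3] at h1
    exact tendsto_nhds_unique h1 h2
  · rw [← hMdef]
    exact ⟨NlinC_SH_lim (f := v) (fun n => ((hmain n).1.b0).mono (hle n)) (hpt [] (by simp)),
      fun l hl => NlinC_SH_lim (f := fun n => DD l (v n))
        (fun n => ((hmain n).1.b1 l hl).mono (hle n)) (hpt l (by omega)),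
      fun l hl => NlinC_SH_lim (f := fun n => DD l (v n))
        (fun n => ((hmain n).1.b2 l hl).mono (hle n)) (hpt l (by omega))⟩
  · intro z _
    have hw2 : ContDiff ℝ 2 w₀ := hwS.of_le NlinC_two_le
    have e1 : Tendsto (fun n => Lap (v (n + 1)) z - 2 * Real.exp (w₀ z) ^ 2 * v (n + 1) z) atTop
        (𝓝 (Lap g z - 2 * Real.exp (w₀ z) ^ 2 * g z)) := by
      have h1 := (tendsto_add_atTop_iff_nat 1).mpr (hpt [true, true] (by simp) z)
      have h2 := (tendsto_add_atTop_iff_nat 1).mpr (hpt [false, false] (by simp) z)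
      have h3 := (tendsto_add_atTop_iff_nat 1).mpr (hpt [] (by simp) z)
      exact (h1.add h2).sub (h3.const_mul _)
    have e2 : Tendsto (fun n => RR ε w₀ (v n) z) atTop (𝓝 (RR ε w₀ g z)) := by
      have h0 : Tendsto (fun n => v n z) atTop (𝓝 (g z)) := hpt [] (by simp) z
      have h1 : Tendsto (fun n => Real.exp (2 * v n z)) atTop (𝓝 (Real.exp (2 * g z))) :=
        (Real.continuous_exp.tendsto _).comp (h0.const_mul 2)
      have h2 : Tendsto (fun n => QQ ε (fun y => w₀ y + v n y) z) atTop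
          (𝓝 (QQ ε (fun y => w₀ y + g y) z)) := by
        apply NlinC_QQ_lim
        intro l hl
        rw [NlinC_DD_add hw2 hg2 l hl]
        have h3 : (fun n => DD l (fun y => w₀ y + v n y) z) =
            fun n => DD l w₀ z + DD l (v n) z := by
          funext n
          rw [NlinC_DD_add hw2 (hv2 n) l hl]
        rw [h3]
        exact (hpt l hl z).const_add _
      exact (((h1.sub_const 1).sub (h0.const_mul 2)).const_mul _).add (h2.const_mul _)
    have e3 : (fun n => Lap (v (n + 1)) z - 2 * Real.exp (w₀ z) ^ 2 * v (n + 1) z) =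
        fun n => RR ε w₀ (v n) z := funext fun n => hvE n z
    rw [e3] at e1
    have e4 := tendsto_nhds_unique e1 e2
    rw [NlinC_Lap_add hw2 hg2, hLw z]
    unfold RR at e4
    have e5 : Real.exp (2 * (w₀ z + g z)) = Real.exp (2 * w₀ z) * Real.exp (2 * g z) := by
      rw [← Real.exp_add]; congr 1; ring
    have e6 : Real.exp (2 * w₀ z) = Real.exp (w₀ z) ^ 2 := by
      rw [← Real.exp_nat_mul]; norm_num
    rw [e5]
    rw [e6] at e4 ⊢
    linarith

end Pool.Agent.KK
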