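import Pool.Agent.W_bb4b37_h53.CalcB
import Pool.Agent.W_bb4b37_h53.CalcE

/-!
# The fully nonlinear equation at level `s`: estimates and existence (part D)
-/

set_option autoImplicit false

open Filter Topology Set MeasureTheory Metric
open scoped ContDiff

namespace Pool.Agent.KK

theorem NlinD_abs2 {a b B D : ℝ} (h1 : |a| ≤ B) (h2 : |b| ≤ D) : |a * b| ≤ B * D := by
  rw [abs_mul]
  exact mul_le_mul h1 h2 (abs_nonneg _) ((abs_nonneg _).trans h1)

/-- The algebraic part of the uniqueness proof. -/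
theorem NlinD_alg {C ε E E' x y P R S P' R' S' X : ℝ} (hC : 1 ≤ C)
    (hε : 36 * C ^ 4 * ε ^ 2 ≤ 1) (hE' : 0 < E') (hE : E' < E)
    (hx : x ^ 2 ≤ C ^ 2 * E') (hy : y ^ 2 ≤ C ^ 2 * E')
    (hP : |P| ≤ C * E) (hR : |R| ≤ C * E) (hS : |S| ≤ C * E)
    (hP' : |P'| ≤ C * E') (hR' : |R'| ≤ C * E') (hS' : |S'| ≤ C * E')
    (e1 : P + S = E - X + ε ^ 2 * ((1 + ε ^ 2) * E⁻¹ * (x ^ 2 + y ^ 2) ^ 2
      - 2 * (x ^ 2 + y ^ 2)
      - E⁻¹ * ((P - 2 * x ^ 2) * (S - 2 * y ^ 2) - (R - 2 * (x * y)) ^ 2)))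
    (e2 : P' + S' = E' - X + ε ^ 2 * ((1 + ε ^ 2) * E'⁻¹ * (x ^ 2 + y ^ 2) ^ 2
      - 2 * (x ^ 2 + y ^ 2)
      - E'⁻¹ * ((P' - 2 * x ^ 2) * (S' - 2 * y ^ 2) - (R' - 2 * (x * y)) ^ 2)))
    (d1 : P - P' ≤ 0) (d2 : S - S' ≤ 0) (d3 : (R - R') ^ 2 ≤ (P - P') * (S - S')) : False := by
  have hE0 : 0 < E := hE'.trans hE
  have hC2 : C ≤ C ^ 2 := by nlinarith
  have hC2' : 1 ≤ C ^ 2 := by nlinarith
  have hCE : C ^ 2 * E' ≤ C ^ 2 * E := mul_le_mul_of_nonneg_left hE.le (by positivity)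
  have hCE1 : C * E ≤ C ^ 2 * E := mul_le_mul_of_nonneg_right hC2 hE0.le
  have hCE1' : C * E' ≤ C ^ 2 * E' := mul_le_mul_of_nonneg_right hC2 hE'.le
  have hxy : |x * y| ≤ C ^ 2 * E' := by
    rw [abs_le]
    constructor <;> linarith [sq_nonneg (x + y), sq_nonneg (x - y)]
  obtain ⟨hxy1, hxy2⟩ := abs_le.1 hxy
  obtain ⟨hP1, hP2⟩ := abs_le.1 hP
  obtain ⟨hR1, hR2⟩ := abs_le.1 hR
  obtain ⟨hS1, hS2⟩ := abs_le.1 hS
  obtain ⟨hP1', hP2'⟩ := abs_le.1 hP'
  obtain ⟨hR1', hR2'⟩ := abs_le.1 hR'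
  obtain ⟨hS1', hS2'⟩ := abs_le.1 hS'
  have hx0 := sq_nonneg x
  have hy0 := sq_nonneg y
  -- the averaged matrix
  have ha : |(P + P') / 2 - 2 * x ^ 2| ≤ 3 * C ^ 2 * E := by
    rw [abs_le]
    constructor <;> linarith
  have hb : |(R + R') / 2 - 2 * (x * y)| ≤ 3 * C ^ 2 * E := by
    rw [abs_le]
    constructor <;> linarith
  have hc : |(S + S') / 2 - 2 * y ^ 2| ≤ 3 * C ^ 2 * E := by
    rw [abs_le]
    constructor <;> linarith
  have hinv : ∀ t : ℝ, |t| ≤ 3 * C ^ 2 * E → |E⁻¹ * t| ≤ 3 * C ^ 2 := by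
    intro t ht
    rw [abs_mul, abs_of_pos (inv_pos.2 hE0), inv_mul_le_iff₀ hE0]
    linarith
  have ha' := hinv _ ha
  have hb' := hinv _ hb
  have hc' := hinv _ hc
  set α := E⁻¹ * ((P + P') / 2 - 2 * x ^ 2) with hα
  set β := E⁻¹ * ((R + R') / 2 - 2 * (x * y)) with hβ
  set γ := E⁻¹ * ((S + S') / 2 - 2 * y ^ 2) with hγ
  have hr : |R - R'| ≤ ((P' - P) + (S' - S)) / 2 := by
    apply abs_le_of_sq_le_sq _ (by linarith)
    have h0 := sq_nonneg ((P' - P) - (S' - S))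
    linarith
  have hD : |(P' - 2 * x ^ 2) * (S' - 2 * y ^ 2) - (R' - 2 * (x * y)) ^ 2| ≤
      18 * (C ^ 2 * E') ^ 2 := by
    have h1 : |P' - 2 * x ^ 2| ≤ 3 * (C ^ 2 * E') := by
      rw [abs_le]
      constructor <;> linarith
    have h2 : |S' - 2 * y ^ 2| ≤ 3 * (C ^ 2 * E') := by
      rw [abs_le]
      constructor <;> linarith
    have h3 : |R' - 2 * (x * y)| ≤ 3 * (C ^ 2 * E') := by
      rw [abs_le]
      constructor <;> linarith
    have h4 := NlinD_abs2 h1 h2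
    have h5 := NlinD_abs2 h3 h3
    have h6 : (R' - 2 * (x * y)) ^ 2 = (R' - 2 * (x * y)) * (R' - 2 * (x * y)) := by ring
    rw [h6]
    refine (abs_sub _ _).trans ?_
    linarith
  have hG : |(1 + ε ^ 2) * (x ^ 2 + y ^ 2) ^ 2| ≤ 8 * (C ^ 2 * E') ^ 2 := by
    have h1 : |x ^ 2 + y ^ 2| ≤ 2 * (C ^ 2 * E') := by
      rw [abs_le]
      constructor <;> linarith
    have h2 := NlinD_abs2 h1 h1
    have h3 : |1 + ε ^ 2| ≤ 2 := by
      rw [abs_le]
      have h4 : 1 ≤ C ^ 4 := one_le_pow₀ hC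
      have h5 : 1 * ε ^ 2 ≤ C ^ 4 * ε ^ 2 := mul_le_mul_of_nonneg_right h4 (sq_nonneg ε)
      have h6 := sq_nonneg ε
      constructor <;> linarith
    have h5 := NlinD_abs2 h3 h2
    have h6 : (x ^ 2 + y ^ 2) ^ 2 = (x ^ 2 + y ^ 2) * (x ^ 2 + y ^ 2) := by ring
    rw [h6]
    linarith
  set D := (P' - 2 * x ^ 2) * (S' - 2 * y ^ 2) - (R' - 2 * (x * y)) ^ 2 with hDdef
  set G := (x ^ 2 + y ^ 2) ^ 2 with hGdef
  have key : -((P' - P) + (S' - S)) + ε ^ 2 *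
      (-(α * (S' - S)) - γ * (P' - P) - 2 * (β * (R - R'))) =
      (E - E') + ε ^ 2 * ((E⁻¹ - E'⁻¹) * ((1 + ε ^ 2) * G - D)) := by
    rw [hα, hβ, hγ, hDdef]
    linear_combination e1 - e2
  have hL : ε ^ 2 * (-(α * (S' - S)) - γ * (P' - P) - 2 * (β * (R - R'))) ≤
      ε ^ 2 * (6 * C ^ 2 * ((P' - P) + (S' - S))) := by
    apply mul_le_mul_of_nonneg_left _ (sq_nonneg ε)
    have h1 : |S' - S| ≤ S' - S := (abs_of_nonneg (by linarith)).le
    have h2 : |P' - P| ≤ P' - P := (abs_of_nonneg (by linarith)).le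
    have h3 := (abs_le.1 (NlinD_abs2 ha' h1)).1
    have h4 := (abs_le.1 (NlinD_abs2 hc' h2)).1
    have h5 := (abs_le.1 (NlinD_abs2 hb' hr)).1
    linarith
  have hε1 : 36 * (C ^ 2 * ε ^ 2) ≤ 1 := by
    have h1 : C ^ 2 * ε ^ 2 ≤ C ^ 4 * ε ^ 2 := by
      apply mul_le_mul_of_nonneg_right _ (sq_nonneg ε)
      exact pow_le_pow_right₀ hC (by norm_num)
    linarith
  have hL2 : ε ^ 2 * (6 * C ^ 2 * ((P' - P) + (S' - S))) ≤ (P' - P) + (S' - S) := by
    have h1 : 0 ≤ (P' - P) + (S' - S) := by linarith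
    have h2 : 6 * (C ^ 2 * ε ^ 2) * ((P' - P) + (S' - S)) ≤ 1 * ((P' - P) + (S' - S)) := by
      apply mul_le_mul_of_nonneg_right _ h1
      have h3 : 0 ≤ C ^ 2 * ε ^ 2 := by positivity
      linarith
    linarith
  have hinvE : E⁻¹ - E'⁻¹ = -((E - E') * (E⁻¹ * E'⁻¹)) := by
    field_simp
    ring
  have hRr : |ε ^ 2 * ((E⁻¹ - E'⁻¹) * ((1 + ε ^ 2) * G - D))| ≤ (E - E') * (26 / 36) := by
    have h1 : |(1 + ε ^ 2) * G - D| ≤ 26 * (C ^ 2 * E') ^ 2 := by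
      refine (abs_sub _ _).trans ?_
      linarith
    have h2 : |E⁻¹ - E'⁻¹| ≤ (E - E') * (E⁻¹ * E'⁻¹) := by
      rw [hinvE, abs_neg, abs_of_nonneg]
      have : 0 < E - E' := by linarith
      positivity
    have h3 := NlinD_abs2 h2 h1
    have h4 : E⁻¹ * E' ≤ 1 := by
      rw [inv_mul_le_iff₀ hE0]
      linarith
    have h5 : (E - E') * (E⁻¹ * E'⁻¹) * (26 * (C ^ 2 * E') ^ 2) =
        26 * C ^ 4 * (E - E') * (E⁻¹ * E') := by
      field_simp
    rw [h5] at h3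
    have h6 : 26 * C ^ 4 * (E - E') * (E⁻¹ * E') ≤ 26 * C ^ 4 * (E - E') * 1 := by
      apply mul_le_mul_of_nonneg_left h4
      have : 0 < E - E' := by linarith
      positivity
    have h7 : |ε ^ 2| ≤ ε ^ 2 := (abs_of_nonneg (sq_nonneg ε)).le
    have h8 := NlinD_abs2 h7 (h3.trans h6)
    refine h8.trans ?_
    have h9 : 36 * C ^ 4 * ε ^ 2 * (E - E') ≤ 1 * (E - E') :=
      mul_le_mul_of_nonneg_right hε (by linarith)
    linarith
  have hR0 := (abs_le.1 hRr).1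
  linarith

/-- One half of the uniqueness. -/
theorem NlinD_le {C ε a : ℝ} (hC : 1 ≤ C) (hε : 36 * C ^ 4 * ε ^ 2 ≤ 1) (ha : |a| < 1)
    {w w' X : ℂ → ℝ} (hw : ContDiff ℝ 2 w) (hw' : ContDiff ℝ 2 w') (hp : Per a w)
    (hp' : Per a w') (hs : IsSol ε X univ w) (hs' : IsSol ε X univ w')
    (hb : ∀ z, ∀ l : List Bool, 1 ≤ l.length → l.length ≤ 2 →
      |DD l w z| ≤ C * Real.exp (w z) ^ l.length)
    (hb' : ∀ z, ∀ l : List Bool, 1 ≤ l.length → l.length ≤ 2 →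
      |DD l w' z| ≤ C * Real.exp (w' z) ^ l.length) (z : ℂ) : w z ≤ w' z := by
  have hpv : Per a (fun z => w z - w' z) := by
    intro z v hv
    change w (z + v) - w' (z + v) = w z - w' z
    rw [hp z v hv, hp' z v hv]
  have hcv : ContDiff ℝ 2 (fun z => w z - w' z) := hw.sub hw'
  obtain ⟨p, hmax⟩ := per_exists_max ha hpv hcv.continuous
  by_contra hcon
  have hpos : 0 < w p - w' p := by
    have h1 := hmax z
    have h2 : 0 < w z - w' z := by linarith [not_le.1 hcon]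
    exact h2.trans_le h1
  have hloc : IsLocalMax (fun z => w z - w' z) p := Filter.Eventually.of_forall hmax
  obtain ⟨g1, g2, k1, k2, k3⟩ := second_deriv_of_isLocalMax hcv.contDiffAt hloc
  have hdw : Differentiable ℝ w := hw.differentiable (by norm_num)
  have hdw' : Differentiable ℝ w' := hw'.differentiable (by norm_num)
  have hxw : Differentiable ℝ (Dx w) :=
    (contDiff_Dx (m := 1) hw (by norm_num)).differentiable (by norm_num)
  have hxw' : Differentiable ℝ (Dx w') :=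
    (contDiff_Dx (m := 1) hw' (by norm_num)).differentiable (by norm_num)
  have hyw : Differentiable ℝ (Dy w) :=
    (contDiff_Dy (m := 1) hw (by norm_num)).differentiable (by norm_num)
  have hyw' : Differentiable ℝ (Dy w') :=
    (contDiff_Dy (m := 1) hw' (by norm_num)).differentiable (by norm_num)
  have fx : Dx (fun z => w z - w' z) = fun z => Dx w z - Dx w' z := by
    funext y
    exact Dx_sub (hdw y) (hdw' y)
  have fy : Dy (fun z => w z - w' z) = fun z => Dy w z - Dy w' z := by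
    funext y
    exact Dy_sub (hdw y) (hdw' y)
  rw [fx] at g1 k1 k3
  rw [fy] at g2 k2 k3
  rw [Dx_sub (hxw p) (hxw' p)] at k1 k3
  rw [Dy_sub (hyw p) (hyw' p)] at k2 k3
  rw [Dx_sub (hyw p) (hyw' p)] at k3
  have g1' : Dx w p = Dx w' p := by linarith
  have g2' : Dy w p = Dy w' p := by linarith
  have s1 := hs p (mem_univ p)
  have s2 := hs' p (mem_univ p)
  unfold QQ Lap at s1 s2
  have ex : ∀ t : ℝ, Real.exp (2 * t) = Real.exp t ^ 2 := by
    intro t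
    rw [← Real.exp_nat_mul]
    norm_num
  have exn : ∀ t : ℝ, Real.exp (-(2 * t)) = (Real.exp t ^ 2)⁻¹ := by
    intro t
    rw [Real.exp_neg, ex]
  rw [ex, exn, g1', g2'] at s1
  rw [ex, exn] at s2
  have hEpos := Real.exp_pos (w p)
  have hEpos' := Real.exp_pos (w' p)
  have hElt : Real.exp (w' p) < Real.exp (w p) := Real.exp_lt_exp.2 (by linarith)
  have b1 : |Dx w' p| ≤ C * Real.exp (w' p) := by
    have h := hb' p [true] (by simp) (by simp)
    simpa using h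
  have b2 : |Dy w' p| ≤ C * Real.exp (w' p) := by
    have h := hb' p [false] (by simp) (by simp)
    simpa using h
  have sqb : ∀ t : ℝ, |t| ≤ C * Real.exp (w' p) → t ^ 2 ≤ C ^ 2 * Real.exp (w' p) ^ 2 := by
    intro t ht
    have h := sq_le_sq' (abs_le.1 ht).1 (abs_le.1 ht).2
    rw [mul_pow] at h
    exact h
  exact NlinD_alg (x := Dx w' p) (y := Dy w' p) (E := Real.exp (w p) ^ 2)
    (E' := Real.exp (w' p) ^ 2) (X := X p) hC hε (by positivity)
    (pow_lt_pow_left₀ hElt hEpos'.le (by norm_num)) (sqb _ b1) (sqb _ b2)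
    (hb p [true, true] (by simp) (by simp)) (hb p [true, false] (by simp) (by simp))
    (hb p [false, false] (by simp) (by simp))
    (hb' p [true, true] (by simp) (by simp)) (hb' p [true, false] (by simp) (by simp))
    (hb' p [false, false] (by simp) (by simp)) s1 s2 k1 k2 k3

/-- **Uniqueness.** Proof: let `v = w - w'` attain its maximum at `p` (`per_exists_max`) and
suppose `v p > 0`. At `p`: `∇w = ∇w' =: g`, `D²w ≤ D²w'` (`second_deriv_of_isLocalMax`). Put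
`H = D²w - 2 g ⊗ g`, `H' = D²w' - 2 g ⊗ g`. For symmetric `2 × 2` matrices
`det H - det H' = trace (cof ((H + H') / 2) (H - H'))`. Subtracting the equations:
`trace ((I + ε² e^{-2w} cof ((H+H')/2)) (D²w - D²w')) =
 e^{2w} - e^{2w'} + ε² (e^{-2w} - e^{-2w'}) ((1 + ε²) |g|⁴ - det H')`.
The left side is `≤ 0` since the matrix `I + ...` is positive (its second part is at most
`C' ε²`) and `D²w - D²w' ≤ 0`. The right side is at least
`2 v e^{2w'} (1 - C'' ε²) > 0`. Contradiction. Note `|H|, |H'| ≤ C' e^{2w'}` at `p`: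
for `H'` directly; `|g|` is bounded by `C e^{w'}`; `|D²w| ≤ C e^{2w}` with `e^{w}` possibly larger
than `e^{w'}`, but `e^{-2w} |D²w| ≤ C` is all that is needed for the first matrix, and
`e^{-2w} |H'| ≤ e^{-2w'} |H'|`. -/
theorem level_unique (C : ℝ) (hC : 1 ≤ C) : ∃ ε₀ : ℝ, 0 < ε₀ ∧ ∀ ε : ℝ, 0 < ε → ε ≤ ε₀ →
    ∀ a : ℝ, |a| < 1 → ∀ w w' X : ℂ → ℝ, ContDiff ℝ 2 w → ContDiff ℝ 2 w' → Per a w → Per a w' →
    IsSol ε X univ w → IsSol ε X univ w' →
    (∀ z, ∀ l : List Bool, 1 ≤ l.length → l.length ≤ 2 →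
      |DD l w z| ≤ C * Real.exp (w z) ^ l.length) →
    (∀ z, ∀ l : List Bool, 1 ≤ l.length → l.length ≤ 2 →
      |DD l w' z| ≤ C * Real.exp (w' z) ^ l.length) →
    w = w' := by
  have hC0 : 0 < C := by linarith
  refine ⟨1 / (6 * C ^ 2), by positivity, ?_⟩
  intro ε hε0 hε a ha w w' X hw hw' hp hp' hs hs' hb hb'
  have h1 : 6 * C ^ 2 * ε ≤ 1 := by
    rw [le_div_iff₀ (by positivity)] at hε
    linarith
  have h2 : 36 * C ^ 4 * ε ^ 2 ≤ 1 := by
    have h3 : 36 * C ^ 4 * ε ^ 2 = (6 * C ^ 2 * ε) ^ 2 := by ring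
    rw [h3]
    exact pow_le_one₀ (by positivity) h1
  funext z
  exact le_antisymm (NlinD_le hC h2 ha hw hw' hp hp' hs hs' hb hb' z)
    (NlinD_le hC h2 ha hw' hw hp' hp hs' hs hb' hb z)

end Pool.Agent.KK
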