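import Pool.Agent.W_bb4b37_h53.LiouvilleB
import Pool.Agent.W_bb4b37_h53.LiouvilleC
import Pool.Agent.W_bb4b37_h53.LiouvilleD
import Pool.Agent.W_bb4b37_h53.NlinC
import Pool.Agent.W_bb4b37_h53.NlinD

/-!
# Solutions at level `s`: existence, uniqueness, continuity in the set (part A)
-/

set_option autoImplicit false

open Filter Topology Set MeasureTheory Metric
open scoped ContDiff

namespace Pool.Agent.KK

/-- The solution at level `s` for the closed set `S`. -/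
structure LevelSol (C ε a : ℝ) (S : Set ℂ) (s : ℝ) (w : ℂ → ℝ) : Prop where
  smooth : ContDiff ℝ 2 w
  per : Per a w
  sol : IsSol ε (pen Bpen S s) univ w
  scaled : Scaled C univ w
  lower : ∀ z, 1 / C ≤ Real.exp (w z) * max (infDist z S) s
  upper : ∀ z, Real.exp (w z) * max (infDist z S) s ≤ C

theorem LevelA_add1 {f g : ℂ → ℝ} (hf : ContDiff ℝ 2 f) (hg : ContDiff ℝ 2 g) {l : List Bool}
    (hl : l.length = 1) : DD l (fun z => f z + g z) = fun z => DD l f z + DD l g z := by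
  have h2 : (2 : WithTop ℕ∞) ≠ 0 := by norm_num
  match l, hl with
  | [true], _ => exact funext fun z => Dx_add (hf.differentiable h2 z) (hg.differentiable h2 z)
  | [false], _ => exact funext fun z => Dy_add (hf.differentiable h2 z) (hg.differentiable h2 z)

theorem LevelA_add2 {f g : ℂ → ℝ} (hf : ContDiff ℝ 2 f) (hg : ContDiff ℝ 2 g) {l : List Bool}
    (hl : l.length = 2) : DD l (fun z => f z + g z) = fun z => DD l f z + DD l g z := by
  have h1 : (1 : WithTop ℕ∞) ≠ 0 := by norm_num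
  have h12 : (1 : WithTop ℕ∞) + 1 ≤ 2 := by norm_num
  have hx : ∀ {f : ℂ → ℝ}, ContDiff ℝ 2 f → ∀ b : Bool, Differentiable ℝ (DD [b] f) := by
    intro f hf b
    cases b
    · exact (contDiff_Dy hf h12).differentiable h1
    · exact (contDiff_Dx hf h12).differentiable h1
  match l, hl with
  | [a, b], _ =>
    have e : DD [a, b] (fun z => f z + g z) = DD [a] (fun z => DD [b] f z + DD [b] g z) := by
      rw [← LevelA_add1 hf hg (l := [b]) rfl]
      exact DD_append [a] [b] _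
    rw [e]
    have e2 : ∀ f : ℂ → ℝ, DD [a, b] f = DD [a] (DD [b] f) := fun f => DD_append [a] [b] f
    rw [e2 f, e2 g]
    cases a
    · exact funext fun z => Dy_add (hx hf b z) (hx hg b z)
    · exact funext fun z => Dx_add (hx hf b z) (hx hg b z)

theorem LevelA_exp {x y : ℝ} (h : |x| ≤ 1) : Real.exp y ≤ 3 * Real.exp (y + x) ∧
    Real.exp (y + x) ≤ 3 * Real.exp y := by
  have h1 := Real.exp_one_lt_d9
  obtain ⟨h2, h3⟩ := abs_le.1 h
  constructor
  · have : Real.exp y = Real.exp (y + x) * Real.exp (-x) := by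
      rw [← Real.exp_add]
      congr 1
      ring
    rw [this, mul_comm]
    refine mul_le_mul_of_nonneg_right ?_ (Real.exp_pos _).le
    have h4 : Real.exp (-x) ≤ Real.exp 1 := Real.exp_le_exp.2 (by linarith)
    linarith
  · rw [Real.exp_add, mul_comm]
    refine mul_le_mul_of_nonneg_right ?_ (Real.exp_pos _).le
    exact (Real.exp_le_exp.2 h3).trans (by linarith)

/-- Existence. Proof: `liouville_exists` (with `X = pen Bpen S s`), `liouville_upper`,
`liouville_lower`, `liouville_deriv` give a background `w₀` with `Bg C₀ w₀`; `level_exists_v` gives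
`w = w₀ + v` with `|v| ≤ 1`. -/
theorem levelSol_exists (A : ℝ) (hA : 1 ≤ A) : ∃ C ε₀ : ℝ, 1 ≤ C ∧ 0 < ε₀ ∧
    ∀ ε : ℝ, 0 < ε → ε ≤ ε₀ → ∀ a : ℝ, 0 ≤ a → a ≤ 1 / 10 → ∀ S : Set ℂ, IsClosed S →
    S.Nonempty → PerSet a S → UP A S → ∀ s : ℝ, 0 < s → s ≤ 1 → ∃ w, LevelSol C ε a S s w := by
  obtain ⟨Cl, hCl, hlow⟩ := liouville_lower A hA
  set Cu : ℝ := 100 * (1 + Bpen) with hCu
  set C₀ : ℝ := max Cl Cu with hC₀
  have hC₀1 : 1 ≤ C₀ := hCl.trans (le_max_left _ _)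
  obtain ⟨Cd, hCd, hder⟩ := liouville_deriv C₀ hC₀1
  obtain ⟨ε₀, C₃, hε₀, hC₃, hlev⟩ := level_exists_v Cd hCd
  refine ⟨27 * (1000 * Cd + 1) + 3 * C₀, min ε₀ (1 / C₃), by linarith,
    lt_min hε₀ (by positivity), ?_⟩
  intro ε hε hεle a ha0 ha S hS hne hSp hUP s hs hs1
  have ha1 : |a| < 1 := by rw [abs_of_nonneg ha0]; linarith
  have hBpos : 0 < Bpen := Bpen_spec.choose_spec.1
  obtain ⟨w₀, hw₀, hp₀, hsol₀⟩ := liouville_exists ha1 (pen_contDiff (B := Bpen) hs S)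
    (pen_per hSp) hs (fun z => pen_ge hBpos.le S z) (fun z => pen_le hBpos.le S z)
  have hw₀2 : ContDiff ℝ 2 w₀ := hw₀.of_le (by
    have : ((2 : ℕ∞) : WithTop ℕ∞) ≤ ∞ := WithTop.coe_le_coe.2 le_top
    exact this)
  have hup : ∀ z, Real.exp (w₀ z) * max (infDist z S) s ≤ Cu := fun z =>
    liouville_upper ha0 ha hs hs1 hS hne hSp hw₀2 hp₀ hsol₀ z
  have hlo : ∀ z, 1 / Cl ≤ Real.exp (w₀ z) * max (infDist z S) s :=
    hlow a s ha0 ha hs hs1 S hS hne hSp hUP w₀ hw₀2 hp₀ hsol₀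
  have hlo' : ∀ z, 1 / C₀ ≤ Real.exp (w₀ z) * max (infDist z S) s := fun z =>
    (one_div_le_one_div_of_le (by linarith) (le_max_left _ _)).trans (hlo z)
  have hup' : ∀ z, Real.exp (w₀ z) * max (infDist z S) s ≤ C₀ := fun z =>
    (hup z).trans (le_max_right _ _)
  have hBg : Bg Cd w₀ := ⟨hw₀, hder a s ha0 ha hs hs1 S hS hne hSp w₀ hw₀ hp₀ hsol₀ hlo' hup'⟩
  obtain ⟨v, hv, hvp, hWB, hsol⟩ := hlev ε hε (hεle.trans (min_le_left _ _)) a ha1 w₀
    (pen Bpen S s) hBg hp₀ (pen_contDiff hs S) (pen_per hSp) hsol₀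
  have hM : C₃ * ε ^ 2 ≤ 1 := by
    have h1 : ε ≤ 1 / C₃ := hεle.trans (min_le_right _ _)
    have h2 : C₃ * ε ≤ 1 := by
      rw [le_div_iff₀ (by linarith)] at h1
      linarith
    have h3 : ε ≤ 1 := h1.trans (by rw [div_le_one (by linarith)]; exact hC₃)
    calc C₃ * ε ^ 2 = (C₃ * ε) * ε := by ring
      _ ≤ 1 * 1 := mul_le_mul h2 h3 hε.le zero_le_one
      _ = 1 := one_mul 1
  have hvb : ∀ z, |v z| ≤ 1 := fun z => by
    have := hWB.b0.bd z
    rw [zpow_zero, mul_one] at this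
    exact this.trans hM
  have hE : ∀ z, Real.exp (w₀ z) ≤ 3 * Real.exp (w₀ z + v z) ∧
      Real.exp (w₀ z + v z) ≤ 3 * Real.exp (w₀ z) := fun z => LevelA_exp (hvb z)
  have hC₀0 : 0 < C₀ := by linarith
  refine ⟨fun z => w₀ z + v z, ⟨hw₀2.add hv, ?_, hsol, ⟨?_, ?_, ?_⟩, ?_, ?_⟩⟩
  · intro z u hu
    simp only
    rw [hp₀ z u hu, hvp z u hu]
  · -- first derivatives
    intro z _ l hl
    rw [LevelA_add1 hw₀2 hv hl]
    have h1 := hBg.2 z l (by omega) (by omega)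
    have h2 := (hWB.b1 l hl).bd z
    rw [hl, pow_one] at h1
    rw [zpow_one] at h2
    have h3 := (hE z).1
    have h4 := Real.exp_pos (w₀ z)
    have h5 := Real.exp_pos (w₀ z + v z)
    simp only
    have h6 : C₃ * ε ^ 2 * Real.exp (w₀ z) ≤ 1 * Real.exp (w₀ z) :=
      mul_le_mul_of_nonneg_right hM h4.le
    calc |DD l w₀ z + DD l v z| ≤ |DD l w₀ z| + |DD l v z| := abs_add_le _ _
      _ ≤ Cd * Real.exp (w₀ z) + 1 * Real.exp (w₀ z) := add_le_add h1 (h2.trans h6)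
      _ = (Cd + 1) * Real.exp (w₀ z) := by ring
      _ ≤ (Cd + 1) * (3 * Real.exp (w₀ z + v z)) := mul_le_mul_of_nonneg_left h3 (by linarith)
      _ = (3 * (Cd + 1)) * Real.exp (w₀ z + v z) := by ring
      _ ≤ _ := mul_le_mul_of_nonneg_right (by linarith) h5.le
  · -- second derivatives
    intro z _ l hl
    rw [LevelA_add2 hw₀2 hv hl]
    have h1 := hBg.2 z l (by omega) (by omega)
    have h2 := (hWB.b2 l hl).bd z
    rw [hl] at h1
    rw [show (2 : ℤ) = ((2 : ℕ) : ℤ) from rfl, zpow_natCast] at h2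
    have h3 := (hE z).1
    have h4 := Real.exp_pos (w₀ z)
    have h5 := Real.exp_pos (w₀ z + v z)
    simp only
    have h6 : C₃ * ε ^ 2 * Real.exp (w₀ z) ^ 2 ≤ 1 * Real.exp (w₀ z) ^ 2 :=
      mul_le_mul_of_nonneg_right hM (by positivity)
    have h7 : Real.exp (w₀ z) ^ 2 ≤ (3 * Real.exp (w₀ z + v z)) ^ 2 :=
      pow_le_pow_left₀ h4.le h3 2
    calc |DD l w₀ z + DD l v z| ≤ |DD l w₀ z| + |DD l v z| := abs_add_le _ _
      _ ≤ Cd * Real.exp (w₀ z) ^ 2 + 1 * Real.exp (w₀ z) ^ 2 := add_le_add h1 (h2.trans h6)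
      _ = (Cd + 1) * Real.exp (w₀ z) ^ 2 := by ring
      _ ≤ (Cd + 1) * (3 * Real.exp (w₀ z + v z)) ^ 2 := mul_le_mul_of_nonneg_left h7 (by linarith)
      _ = (9 * (Cd + 1)) * Real.exp (w₀ z + v z) ^ 2 := by ring
      _ ≤ _ := mul_le_mul_of_nonneg_right (by linarith) (by positivity)
  · -- Hoelder bound
    intro z _ y hy l hl
    rw [LevelA_add2 hw₀2 hv hl]
    simp only at hy ⊢
    have h3 := (hE z).1
    have h4 := Real.exp_pos (w₀ z)
    have h5 := Real.exp_pos (w₀ z + v z)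
    have hy1 : (27 * (1000 * Cd + 1) + 3 * C₀) * (Real.exp (w₀ z + v z) * ‖y - z‖) ≤ 1 := by
      have := mul_le_mul_of_nonneg_left hy h5.le
      rw [← Real.exp_add, add_neg_cancel, Real.exp_zero] at this
      calc _ = Real.exp (w₀ z + v z) * ((27 * (1000 * Cd + 1) + 3 * C₀) * ‖y - z‖) := by ring
        _ ≤ 1 := this
    have hny : 0 ≤ Real.exp (w₀ z + v z) * ‖y - z‖ := by positivity
    have hy2 : Real.exp (w₀ z) * ‖y - z‖ ≤ 3 * (Real.exp (w₀ z + v z) * ‖y - z‖) := by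
      have := mul_le_mul_of_nonneg_right h3 (norm_nonneg (y - z))
      linarith
    have hκ : Real.exp (w₀ z) * ‖y - z‖ ≤ 1 / (16 * Cd) := by
      rw [le_div_iff₀ (by linarith)]
      have h8 : 48 * Cd * (Real.exp (w₀ z + v z) * ‖y - z‖) ≤
          (27 * (1000 * Cd + 1) + 3 * C₀) * (Real.exp (w₀ z + v z) * ‖y - z‖) :=
        mul_le_mul_of_nonneg_right (by linarith) hny
      calc Real.exp (w₀ z) * ‖y - z‖ * (16 * Cd)
          ≤ 3 * (Real.exp (w₀ z + v z) * ‖y - z‖) * (16 * Cd) :=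
            mul_le_mul_of_nonneg_right hy2 (by linarith)
        _ = 48 * Cd * (Real.exp (w₀ z + v z) * ‖y - z‖) := by ring
        _ ≤ 1 := h8.trans hy1
    have h1 := (SH.deriv_bg hCd hBg l (by omega) (by omega)).hol z y hκ
    have h2 := (hWB.b2 l hl).hol z y hκ
    rw [hl, zpow_natCast] at h1
    rw [show (2 : ℤ) = ((2 : ℕ) : ℤ) from rfl, zpow_natCast] at h2
    set S0 := Real.sqrt (Real.exp (w₀ z) * ‖y - z‖) with hS0
    set S1 := Real.sqrt (Real.exp (w₀ z + v z) * ‖y - z‖) with hS1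
    have hS0n : 0 ≤ S0 := Real.sqrt_nonneg _
    have hS1n : 0 ≤ S1 := Real.sqrt_nonneg _
    have hSS : S0 ≤ 3 * S1 := by
      rw [hS0, Real.sqrt_le_left (by positivity)]
      rw [mul_pow, hS1, Real.sq_sqrt hny]
      linarith
    have h6 : C₃ * ε ^ 2 * Real.exp (w₀ z) ^ 2 * S0 ≤ 1 * Real.exp (w₀ z) ^ 2 * S0 :=
      mul_le_mul_of_nonneg_right (mul_le_mul_of_nonneg_right hM (by positivity)) hS0n
    have h7 : Real.exp (w₀ z) ^ 2 ≤ (3 * Real.exp (w₀ z + v z)) ^ 2 :=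
      pow_le_pow_left₀ h4.le h3 2
    calc |DD l w₀ y + DD l v y - (DD l w₀ z + DD l v z)|
        = |(DD l w₀ y - DD l w₀ z) + (DD l v y - DD l v z)| := by congr 1; ring
      _ ≤ |DD l w₀ y - DD l w₀ z| + |DD l v y - DD l v z| := abs_add_le _ _
      _ ≤ 1000 * Cd * Real.exp (w₀ z) ^ 2 * S0 + 1 * Real.exp (w₀ z) ^ 2 * S0 :=
          add_le_add h1 (h2.trans h6)
      _ = (1000 * Cd + 1) * (Real.exp (w₀ z) ^ 2 * S0) := by ring
      _ ≤ (1000 * Cd + 1) * ((3 * Real.exp (w₀ z + v z)) ^ 2 * (3 * S1)) :=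
          mul_le_mul_of_nonneg_left (mul_le_mul h7 hSS hS0n (by positivity)) (by linarith)
      _ = (27 * (1000 * Cd + 1)) * Real.exp (w₀ z + v z) ^ 2 * S1 := by ring
      _ ≤ _ := mul_le_mul_of_nonneg_right (mul_le_mul_of_nonneg_right (by linarith)
          (by positivity)) hS1n
  · -- lower bound
    intro z
    have h1 := hlo' z
    have hm : 0 ≤ max (infDist z S) s := hs.le.trans (le_max_right _ _)
    have h2 := mul_le_mul_of_nonneg_right (hE z).1 hm
    have h3 : 1 / (27 * (1000 * Cd + 1) + 3 * C₀) ≤ 1 / (3 * C₀) :=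
      one_div_le_one_div_of_le (by positivity) (by linarith)
    have h4 : 1 / (3 * C₀) = 1 / 3 * (1 / C₀) := by
      field_simp
    rw [h4] at h3
    linarith
  · intro z
    have h1 := hup' z
    have hm : 0 ≤ max (infDist z S) s := hs.le.trans (le_max_right _ _)
    have h2 := mul_le_mul_of_nonneg_right (hE z).2 hm
    linarith

theorem levelSol_unique (C : ℝ) (hC : 1 ≤ C) : ∃ ε₀ : ℝ, 0 < ε₀ ∧ ∀ ε : ℝ, 0 < ε → ε ≤ ε₀ →
    ∀ (a s : ℝ) (S : Set ℂ) (w w' : ℂ → ℝ), |a| < 1 → LevelSol C ε a S s w →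
      LevelSol C ε a S s w' → w = w' := by
  obtain ⟨ε₀, hε₀, h⟩ := level_unique C hC
  refine ⟨ε₀, hε₀, fun ε hε hεle a s S w w' ha hw hw' => ?_⟩
  have key : ∀ {w : ℂ → ℝ}, LevelSol C ε a S s w → ∀ z, ∀ l : List Bool, 1 ≤ l.length →
      l.length ≤ 2 → |DD l w z| ≤ C * Real.exp (w z) ^ l.length := by
    intro w hw z l h1 h2
    have h3 : l.length = 1 ∨ l.length = 2 := by omega
    rcases h3 with h3 | h3
    · rw [h3, pow_one]
      exact hw.scaled.d1 z (mem_univ z) l h3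
    · rw [h3]
      exact hw.scaled.d2 z (mem_univ z) l h3
  exact h ε hε hεle a ha w w' (pen Bpen S s) hw.smooth hw'.smooth hw.per hw'.per hw.sol hw'.sol
    (key hw) (key hw')

end Pool.Agent.KK
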