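import Pool.Agent.W_bb4b37_h53.CalcC

/-!
# Quasisymmetry of smooth quasiconformal diffeomorphisms of the plane (length-area method) (part A)
-/

set_option autoImplicit false

open Filter Topology Set MeasureTheory Metric
open scoped ContDiff

namespace Pool.Agent.KK

/-- Weakly quasisymmetric maps with constant `H`. -/
def WQS (H : ℝ) (f : ℂ → ℂ) : Prop :=
  ∀ a x y : ℂ, ‖x - a‖ ≤ ‖y - a‖ → ‖f x - f a‖ ≤ H * ‖f y - f a‖

/-- The inverse satisfies the same hypotheses: `det Dg = 1 / det Df`, `‖Dg‖ = ‖Df‖ / det Df`. -/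
theorem qc_inverse {K : ℝ} {f g : ℂ → ℂ} (hf : ContDiff ℝ ∞ f)
    (hdet : ∀ x, 0 < (fderiv ℝ f x).det)
    (hKf : ∀ x, ‖fderiv ℝ f x‖ ^ 2 ≤ K * (fderiv ℝ f x).det)
    (hfg : ∀ x, g (f x) = x) (hgf : ∀ x, f (g x) = x) :
    ContDiff ℝ ∞ g ∧ (∀ x, 0 < (fderiv ℝ g x).det) ∧
      ∀ x, ‖fderiv ℝ g x‖ ^ 2 ≤ K * (fderiv ℝ g x).det := by
  have hdf : ∀ x, HasStrictFDerivAt f (fderiv ℝ f x) x := fun x =>
    (hf.contDiffAt).hasStrictFDerivAt (by simp)
  let e : ℂ → ℂ ≃L[ℝ] ℂ := fun x =>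
    ContinuousLinearMap.toContinuousLinearEquivOfDetNeZero (fderiv ℝ f x) (hdet x).ne'
  have he : ∀ x, (e x : ℂ →L[ℝ] ℂ) = fderiv ℝ f x := fun x =>
    ContinuousLinearMap.coe_toContinuousLinearEquivOfDetNeZero _ _
  have hopen : IsOpenMap f := isOpenMap_of_hasStrictFDerivAt_equiv (f' := e)
    (fun x => by rw [he]; exact hdf x)
  let F : ℂ ≃ₜ ℂ :=
    { toFun := f
      invFun := g
      left_inv := hfg
      right_inv := hgf
      continuous_toFun := hf.continuous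
      continuous_invFun := by
        refine continuous_def.2 fun s hs => ?_
        rw [← image_eq_preimage_of_inverse hfg hgf]
        exact hopen s hs }
  have hg : ContDiff ℝ ∞ g := F.contDiff_symm (f₀' := e)
    (fun x => by rw [he]; exact (hdf x).hasFDerivAt) hf
  have dg : Differentiable ℝ g := hg.differentiable (by simp)
  have df : Differentiable ℝ f := hf.differentiable (by simp)
  have key : ∀ x, 0 < ‖Dz f (g x)‖ ^ 2 - ‖Dzb f (g x)‖ ^ 2 ∧
      ‖Dz g x‖ = ‖Dz f (g x)‖ / (‖Dz f (g x)‖ ^ 2 - ‖Dzb f (g x)‖ ^ 2) ∧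
      ‖Dzb g x‖ = ‖Dzb f (g x)‖ / (‖Dz f (g x)‖ ^ 2 - ‖Dzb f (g x)‖ ^ 2) := by
    intro x
    set y := g x with hy
    have hx : f y = x := hgf x
    have hid : (fun w => g (f w)) = fun w : ℂ => w := funext hfg
    have i1 : Dz (fun w : ℂ => w) y = 1 ∧ Dzb (fun w : ℂ => w) y = 0 :=
      Dz_of_hasDerivAt (hasDerivAt_id y)
    have e1 := Dz_comp (f := g) (g := f) (z := y) (dg _) (df _)
    have e2 := Dzb_comp (f := g) (g := f) (z := y) (dg _) (df _)
    rw [hid, i1.1, hx] at e1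
    rw [hid, i1.2, hx] at e2
    set a := Dz f y with ha
    set b := Dzb f y with hb
    set p := Dz g x with hp
    set q := Dzb g x with hq
    have hD : 0 < ‖a‖ ^ 2 - ‖b‖ ^ 2 := by
      have := hdet y
      rwa [det_fderiv] at this
    set D : ℝ := ‖a‖ ^ 2 - ‖b‖ ^ 2 with hDD
    have haa : a * (starRingEnd ℂ) a = ((‖a‖ ^ 2 : ℝ) : ℂ) := by
      rw [Complex.mul_conj, Complex.normSq_eq_norm_sq]
    have hbb : b * (starRingEnd ℂ) b = ((‖b‖ ^ 2 : ℝ) : ℂ) := by
      rw [Complex.mul_conj, Complex.normSq_eq_norm_sq]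
    have hDc : (D : ℂ) = a * (starRingEnd ℂ) a - b * (starRingEnd ℂ) b := by
      rw [haa, hbb, hDD]; push_cast; ring
    have p1 : p * (D : ℂ) = (starRingEnd ℂ) a := by
      rw [hDc]
      linear_combination (-(starRingEnd ℂ) a) * e1 + (starRingEnd ℂ) b * e2
    have q1 : q * (D : ℂ) = -b := by
      rw [hDc]
      linear_combination b * e1 - a * e2
    refine ⟨hD, ?_, ?_⟩
    · have := congrArg norm p1
      rw [norm_mul, Complex.norm_real, Real.norm_eq_abs, abs_of_pos hD, RCLike.norm_conj] at this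
      rw [eq_div_iff hD.ne', this]
    · have := congrArg norm q1
      rw [norm_mul, Complex.norm_real, Real.norm_eq_abs, abs_of_pos hD, norm_neg] at this
      rw [eq_div_iff hD.ne', this]
  have hdetg : ∀ x, (fderiv ℝ g x).det = 1 / (‖Dz f (g x)‖ ^ 2 - ‖Dzb f (g x)‖ ^ 2) := by
    intro x
    obtain ⟨h0, h1, h2⟩ := key x
    rw [det_fderiv, h1, h2]
    field_simp
  refine ⟨hg, fun x => ?_, fun x => ?_⟩
  · rw [hdetg x]
    have := (key x).1
    positivity
  · obtain ⟨h0, h1, h2⟩ := key x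
    have h3 := hKf (g x)
    rw [det_fderiv, norm_fderiv] at h3
    rw [hdetg x, norm_fderiv, h1, h2, ← add_div, div_pow, mul_one_div, div_le_div_iff₀
      (by positivity) h0]
    nlinarith

end Pool.Agent.KK
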