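import Pool.Agent.W_bb4b37_h53.CantorA
import Pool.Agent.W_bb4b37_h53.LevelA
import Pool.Agent.W_bb4b37_h53.QSA

/-!
# The Beltrami coefficient `nu`, realizations at level `s` and limit realizations
-/

set_option autoImplicit false

open Filter Topology Set MeasureTheory Metric
open scoped ContDiff

namespace Pool.Agent.KK

/-- The Beltrami coefficient (with respect to `z`) of the conformal structure of
`|dz|² - dR²`, `R = ε e^{-w}`: `- (R_x + i R_y)² / (1 + √(1 - |∇R|²))²`. -/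
noncomputable def nu (ε : ℝ) (w : ℂ → ℝ) (z : ℂ) : ℂ :=
  -((ε * Real.exp (-(w z)) : ℝ) : ℂ) ^ 2 * (((Dx w z : ℝ) : ℂ) + Complex.I * ((Dy w z : ℝ) : ℂ)) ^ 2 /
    (((1 + Real.sqrt (1 - (ε * Real.exp (-(w z))) ^ 2 * ((Dx w z) ^ 2 + (Dy w z) ^ 2))) ^ 2 : ℝ)
      : ℂ)

/-- The cut-off in the `ζ`-plane: `1` within distance `s` of `Lam`, `0` at distance `≥ 2 s`. -/
noncomputable def thet (s : ℝ) (ζ : ℂ) : ℝ := max 0 (min 1 (2 - infDist ζ Lam / s))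

/-- Realization at level `s` with mesh error `η`. -/
structure LevelReal (C H ε a s η : ℝ) (F : ℂ ≃ₜ ℂ) (μ : ℂ → ℂ) (m : ℂ) (w : ℂ → ℝ) : Prop where
  smooth : ContDiff ℝ ∞ F
  zero : F 0 = 0
  per : ∀ z : ℂ, ∀ p q : ℤ, F (z + (p * (1 + (a : ℂ)) + q * ((1 - (a : ℂ)) * Complex.I)))
    = F z + (p + q * Complex.I)
  wqs : WQS H F
  wqsInv : WQS H F.symm
  belt : ∀ z, Dzb F z = μ z * Dz F z
  ne : ∀ z, Dz F z ≠ 0
  bound : ∀ z, ‖μ z‖ ≤ 1 / 4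
  level : LevelSol C ε a (F ⁻¹' Lam) s w
  close : ∀ z, ‖μ z - ((1 - thet s (F z) : ℝ) * nu ε w z + (thet s (F z) : ℝ) * m)‖ ≤ η

/-- Limit realization: the domain is `(F ⁻¹' Lam)ᶜ`. -/
structure Realization (C H ε a : ℝ) (F : ℂ ≃ₜ ℂ) (w : ℂ → ℝ) : Prop where
  per : ∀ z : ℂ, ∀ p q : ℤ, F (z + (p * (1 + (a : ℂ)) + q * ((1 - (a : ℂ)) * Complex.I)))
    = F z + (p + q * Complex.I)
  wqs : WQS H F
  wqsInv : WQS H F.symm
  smoothF : ContDiffOn ℝ ∞ F (F ⁻¹' Lam)ᶜ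
  belt : ∀ z ∈ (F ⁻¹' Lam)ᶜ, Dzb F z = nu ε w z * Dz F z
  ne : ∀ z ∈ (F ⁻¹' Lam)ᶜ, Dz F z ≠ 0
  smoothw : ContDiffOn ℝ ∞ w (F ⁻¹' Lam)ᶜ
  perw : Per a w
  sol : IsSol ε (fun _ => 0) (F ⁻¹' Lam)ᶜ w
  scaled : Scaled C (F ⁻¹' Lam)ᶜ w
  lower : ∀ z ∈ (F ⁻¹' Lam)ᶜ, 1 / C ≤ Real.exp (w z) * infDist z (F ⁻¹' Lam)
  upper : ∀ z ∈ (F ⁻¹' Lam)ᶜ, Real.exp (w z) * infDist z (F ⁻¹' Lam) ≤ C

/-- Size of `nu`: for `|∇w| ≤ 2 C e^w` and `ε C` small, `‖nu‖ ≤ 8 C² ε²`. -/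
theorem nu_le {C ε : ℝ} {w : ℂ → ℝ} {z : ℂ} (hε : 0 ≤ ε)
    (hx : |Dx w z| ≤ C * Real.exp (w z)) (hy : |Dy w z| ≤ C * Real.exp (w z)) :
    ‖nu ε w z‖ ≤ 2 * C ^ 2 * ε ^ 2 := by
  set E := ε * Real.exp (-(w z)) with hE
  have hE0 : 0 ≤ E := mul_nonneg hε (Real.exp_pos _).le
  have hC : 0 ≤ C * Real.exp (w z) := (abs_nonneg _).trans hx
  have hnum : ‖(((Dx w z : ℝ) : ℂ) + Complex.I * ((Dy w z : ℝ) : ℂ))‖ ^ 2 =
      (Dx w z) ^ 2 + (Dy w z) ^ 2 := by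
    rw [← Complex.normSq_eq_norm_sq, Complex.normSq_apply]
    simp
    ring
  have hx2 : (Dx w z) ^ 2 ≤ (C * Real.exp (w z)) ^ 2 := by
    rw [← sq_abs (Dx w z)]
    exact pow_le_pow_left₀ (abs_nonneg _) hx 2
  have hy2 : (Dy w z) ^ 2 ≤ (C * Real.exp (w z)) ^ 2 := by
    rw [← sq_abs (Dy w z)]
    exact pow_le_pow_left₀ (abs_nonneg _) hy 2
  have hden : (1 : ℝ) ≤ (1 + Real.sqrt (1 - E ^ 2 * ((Dx w z) ^ 2 + (Dy w z) ^ 2))) ^ 2 := by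
    have := Real.sqrt_nonneg (1 - E ^ 2 * ((Dx w z) ^ 2 + (Dy w z) ^ 2))
    nlinarith
  have hEC : E ^ 2 * (C * Real.exp (w z)) ^ 2 = C ^ 2 * ε ^ 2 := by
    rw [← mul_pow, hE]
    have : ε * Real.exp (-(w z)) * (C * Real.exp (w z)) = C * ε := by
      have h1 : Real.exp (-(w z)) * Real.exp (w z) = 1 := by
        rw [← Real.exp_add]
        simp
      calc ε * Real.exp (-(w z)) * (C * Real.exp (w z))
          = C * ε * (Real.exp (-(w z)) * Real.exp (w z)) := by ring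
        _ = C * ε := by rw [h1, mul_one]
    rw [this, mul_pow]
  unfold nu
  rw [norm_div, norm_mul, norm_neg, norm_pow, norm_pow, hnum, Complex.norm_real,
    Complex.norm_real, Real.norm_eq_abs, Real.norm_eq_abs, ← hE, abs_of_nonneg hE0,
    abs_of_nonneg (by positivity)]
  refine (div_le_self (by positivity) hden).trans ?_
  have h3 := mul_le_mul_of_nonneg_left (add_le_add hx2 hy2) (sq_nonneg E)
  linarith

/-- `nu` as a continuous function of the values `w z`, `Dx w z`, `Dy w z` (in the region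
`ε² e^{-2w} |∇w|² ≤ 1`, in fact everywhere). -/
theorem nu_tendsto {ι : Type*} {l : Filter ι} {ε : ℝ} {w : ι → ℂ → ℝ} {w' : ℂ → ℝ} {z : ℂ}
    (h0 : Tendsto (fun i => w i z) l (𝓝 (w' z)))
    (hx : Tendsto (fun i => Dx (w i) z) l (𝓝 (Dx w' z)))
    (hy : Tendsto (fun i => Dy (w i) z) l (𝓝 (Dy w' z))) :
    Tendsto (fun i => nu ε (w i) z) l (𝓝 (nu ε w' z)) := by
  unfold nu
  have hE : Tendsto (fun i => ε * Real.exp (-(w i z))) l (𝓝 (ε * Real.exp (-(w' z)))) :=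
    ((Real.continuous_exp.tendsto _).comp h0.neg).const_mul ε
  have hxc : Tendsto (fun i => ((Dx (w i) z : ℝ) : ℂ)) l (𝓝 ((Dx w' z : ℝ) : ℂ)) :=
    (Complex.continuous_ofReal.tendsto _).comp hx
  have hyc : Tendsto (fun i => ((Dy (w i) z : ℝ) : ℂ)) l (𝓝 ((Dy w' z : ℝ) : ℂ)) :=
    (Complex.continuous_ofReal.tendsto _).comp hy
  have hEc : Tendsto (fun i => ((ε * Real.exp (-(w i z)) : ℝ) : ℂ)) l
      (𝓝 ((ε * Real.exp (-(w' z)) : ℝ) : ℂ)) :=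
    (Complex.continuous_ofReal.tendsto _).comp hE
  have hden : Tendsto (fun i => (1 + Real.sqrt (1 - (ε * Real.exp (-(w i z))) ^ 2 *
      ((Dx (w i) z) ^ 2 + (Dy (w i) z) ^ 2))) ^ 2) l
      (𝓝 ((1 + Real.sqrt (1 - (ε * Real.exp (-(w' z))) ^ 2 *
      ((Dx w' z) ^ 2 + (Dy w' z) ^ 2))) ^ 2)) :=
    (((Real.continuous_sqrt.tendsto _).comp
      (((hE.pow 2).mul ((hx.pow 2).add (hy.pow 2))).const_sub 1)).const_add 1).pow 2
  have hdc := (Complex.continuous_ofReal.tendsto _).comp hden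
  have hpos : (1 + Real.sqrt (1 - (ε * Real.exp (-(w' z))) ^ 2 *
      ((Dx w' z) ^ 2 + (Dy w' z) ^ 2))) ^ 2 ≠ 0 := by
    have := Real.sqrt_nonneg (1 - (ε * Real.exp (-(w' z))) ^ 2 * ((Dx w' z) ^ 2 + (Dy w' z) ^ 2))
    positivity
  exact (((hEc.pow 2).neg).mul ((hxc.add (hyc.const_mul Complex.I)).pow 2)).div hdc
    (by exact_mod_cast hpos)

end Pool.Agent.KK
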