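import Pool.Agent.W_bb4b37_h53.NonEqC
import Pool.Agent.W_bb4b37_h53.RealDefs
import Pool.Agent.W_bb4b37_h53.Stmt

/-!
# The two circle domains are not related by a Möbius transformation (part D)
-/

set_option autoImplicit false

open Filter Topology Set MeasureTheory Metric
open scoped ContDiff

namespace Pool.Agent.KK

/-- Complex conjugation as a homeomorphism. -/
noncomputable def NonEqD_conj : ℂ ≃ₜ ℂ where
  toFun z := (starRingEnd ℂ) z
  invFun z := (starRingEnd ℂ) z
  left_inv z := Complex.conj_conj z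
  right_inv z := Complex.conj_conj z
  continuous_toFun := Complex.continuous_conj
  continuous_invFun := Complex.continuous_conj

theorem NonEqD_qdata {C H ε a : ℝ} {F : ℂ ≃ₜ ℂ} {w : ℂ → ℝ} (h : Realization C H ε a F w) :
    QData H a F := by
  refine ⟨h.wqs, h.wqsInv, ?_⟩
  rintro z hz v ⟨p, q, rfl⟩
  show F _ ∈ Lam
  rw [h.per]
  exact perSet_Lam _ hz _ ⟨p, q, by push_cast; ring⟩

theorem NonEqD_mirror {H : ℝ} {G : ℂ ≃ₜ ℂ} (h : QData H 0 G) :
    QData H 0 (NonEqD_conj.trans G) := by
  have key : ∀ x y : ℂ, ‖(starRingEnd ℂ) x - (starRingEnd ℂ) y‖ = ‖x - y‖ := by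
    intro x y
    rw [← map_sub, RCLike.norm_conj]
  refine ⟨?_, ?_, ?_⟩
  · intro a x y hxy
    apply h.wqs
    show ‖(starRingEnd ℂ) x - (starRingEnd ℂ) a‖ ≤ ‖(starRingEnd ℂ) y - (starRingEnd ℂ) a‖
    rw [key, key]
    exact hxy
  · intro a x y hxy
    show ‖(starRingEnd ℂ) (G.symm x) - (starRingEnd ℂ) (G.symm a)‖ ≤
      H * ‖(starRingEnd ℂ) (G.symm y) - (starRingEnd ℂ) (G.symm a)‖
    rw [key, key]
    exact h.wqsInv a x y hxy
  · rintro z hz v ⟨p, q, rfl⟩
    have h1 := h.per _ (show (starRingEnd ℂ) z ∈ G ⁻¹' Lam from hz) _ ⟨p, -q, rfl⟩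
    show (starRingEnd ℂ) (z + _) ∈ G ⁻¹' Lam
    have h2 : (starRingEnd ℂ) (z + ((p : ℂ) * (1 + ((0 : ℝ) : ℂ)) +
        (q : ℂ) * ((1 - ((0 : ℝ) : ℂ)) * Complex.I))) = (starRingEnd ℂ) z +
        ((p : ℂ) * (1 + ((0 : ℝ) : ℂ)) + ((-q : ℤ) : ℂ) * ((1 - ((0 : ℝ) : ℂ)) * Complex.I)) := by
      simp
    rw [h2]
    exact h1

theorem NonEqD_left {α b c d : ℂ} (hdet : α * d - b * c ≠ 0) (x : OnePoint ℂ) :
    KKS.mobius d (-b) (-c) α (KKS.mobius α b c d x) = x := by
  rcases x with _ | z
  · show KKS.mobius d (-b) (-c) α (if c = 0 then OnePoint.infty else OnePoint.some (α / c)) =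
      OnePoint.infty
    split_ifs with hc
    · show (if -c = 0 then OnePoint.infty else OnePoint.some (d / -c)) = OnePoint.infty
      rw [if_pos (by rw [hc, neg_zero])]
    · show (if -c * (α / c) + α = 0 then OnePoint.infty else
        OnePoint.some ((d * (α / c) + -b) / (-c * (α / c) + α))) = OnePoint.infty
      rw [if_pos]
      field_simp
      ring
  · show KKS.mobius d (-b) (-c) α (if c * z + d = 0 then OnePoint.infty else
      OnePoint.some ((α * z + b) / (c * z + d))) = OnePoint.some z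
    split_ifs with hz
    · have hc : c ≠ 0 := by
        rintro rfl
        rw [zero_mul, zero_add] at hz
        apply hdet
        rw [hz]; ring
      show (if -c = 0 then OnePoint.infty else OnePoint.some (d / -c)) = OnePoint.some z
      rw [if_neg (neg_ne_zero.2 hc)]
      congr 1
      rw [div_eq_iff (neg_ne_zero.2 hc)]
      linear_combination hz
    · have h1 : -c * ((α * z + b) / (c * z + d)) + α = (α * d - b * c) / (c * z + d) := by
        field_simp
        ring
      have h2 : d * ((α * z + b) / (c * z + d)) + -b = (α * d - b * c) * z / (c * z + d) := by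
        rw [eq_div_iff hz, add_mul, mul_assoc d, div_mul_cancel₀ _ hz]
        ring
      show (if -c * ((α * z + b) / (c * z + d)) + α = 0 then OnePoint.infty else
        OnePoint.some ((d * ((α * z + b) / (c * z + d)) + -b) /
          (-c * ((α * z + b) / (c * z + d)) + α))) = OnePoint.some z
      rw [h1, h2, if_neg (div_ne_zero hdet hz)]
      congr 1
      field_simp

theorem NonEqD_right {α b c d : ℂ} (hdet : α * d - b * c ≠ 0) (x : OnePoint ℂ) :
    KKS.mobius α b c d (KKS.mobius d (-b) (-c) α x) = x := by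
  have h := NonEqD_left (α := d) (b := -b) (c := -c) (d := α) (by
    intro h
    apply hdet
    linear_combination h) x
  rwa [neg_neg, neg_neg] at h

theorem NonEqD_core {H a : ℝ} (hH : 1 ≤ H) (ha0 : 0 < a) (ha : a ≤ 1 / 10)
    (hirr : Irrational ((1 - a) / (1 + a))) {G₀ G₁ : ℂ ≃ₜ ℂ} (h0 : QData H 0 G₀)
    (h1 : QData H a G₁) {α b c d : ℂ} (hdet : α * d - b * c ≠ 0) :
    KKS.mobius α b c d '' (OnePoint.some '' (G₀ ⁻¹' Lam)ᶜ) ≠ OnePoint.some '' (G₁ ⁻¹' Lam)ᶜ := by
  intro hE
  have hinj : Function.Injective (KKS.mobius α b c d) :=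
    Function.LeftInverse.injective (NonEqD_left hdet)
  have hsome : ∀ (T : Set ℂ) (z : ℂ), (OnePoint.some z : OnePoint ℂ) ∈
      (OnePoint.some '' T : Set (OnePoint ℂ)) ↔ z ∈ T := by
    intro T z
    constructor
    · rintro ⟨y, hy, hyz⟩
      have : y = z := OnePoint.coe_injective hyz
      rwa [← this]
    · intro hz
      exact ⟨z, hz, rfl⟩
  have hinf : ∀ T : Set ℂ, (OnePoint.infty : OnePoint ℂ) ∉
      (OnePoint.some '' T : Set (OnePoint ℂ)) := by
    rintro T ⟨y, -, hy⟩
    exact OnePoint.coe_ne_infty y hy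
  -- the two basic facts
  have hA : ∀ z : ℂ, KKS.mobius α b c d (OnePoint.some z) ∈
      (OnePoint.some '' (G₁ ⁻¹' Lam)ᶜ : Set (OnePoint ℂ)) ↔ z ∉ G₀ ⁻¹' Lam := by
    intro z
    rw [← hE, hinj.mem_set_image, hsome]
    rfl
  have hB : KKS.mobius α b c d OnePoint.infty ∉
      (OnePoint.some '' (G₁ ⁻¹' Lam)ᶜ : Set (OnePoint ℂ)) := by
    rw [← hE, hinj.mem_set_image]
    exact hinf _
  have hval : ∀ z : ℂ, c * z + d ≠ 0 →
      KKS.mobius α b c d (OnePoint.some z) = OnePoint.some ((α * z + b) / (c * z + d)) := by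
    intro z hz
    show (if c * z + d = 0 then OnePoint.infty else
      OnePoint.some ((α * z + b) / (c * z + d))) = _
    rw [if_neg hz]
  have hpole : ∀ z : ℂ, c * z + d = 0 →
      KKS.mobius α b c d (OnePoint.some z) = OnePoint.infty := by
    intro z hz
    show (if c * z + d = 0 then OnePoint.infty else
      OnePoint.some ((α * z + b) / (c * z + d))) = _
    rw [if_pos hz]
  have hA' : ∀ z : ℂ, c * z + d ≠ 0 →
      ((α * z + b) / (c * z + d) ∈ G₁ ⁻¹' Lam ↔ z ∈ G₀ ⁻¹' Lam) := by
    intro z hz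
    have h2 := hA z
    rw [hval z hz, hsome] at h2
    constructor
    · intro h3
      by_contra h4
      exact h2.2 h4 h3
    · intro h3
      by_contra h4
      exact h2.1 h4 h3
  by_cases hc : c = 0
  · subst hc
    have hd : d ≠ 0 := by
      rintro rfl
      apply hdet; ring
    have hα : α ≠ 0 := by
      rintro rfl
      apply hdet; ring
    refine not_affine ha0.le ha hirr h0 h1 (α := α / d) (b := b / d) (div_ne_zero hα hd) ?_
    have hz0 : ∀ z : ℂ, (0 : ℂ) * z + d ≠ 0 := fun z => by rwa [zero_mul, zero_add]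
    have hform : ∀ z : ℂ, (α * z + b) / (0 * z + d) = α / d * z + b / d := by
      intro z
      rw [zero_mul, zero_add]
      field_simp
    ext y
    constructor
    · rintro ⟨z, hz, rfl⟩
      have h3 := (hA' z (hz0 z)).2 hz
      rwa [hform] at h3
    · intro hy
      have h4 : α / d * ((d * y - b) / α) + b / d = y := by
        field_simp
        ring
      refine ⟨(d * y - b) / α, ?_, h4⟩
      refine (hA' _ (hz0 _)).1 ?_
      rw [hform, h4]
      exact hy
  · have hq : c * (-d / c) + d = 0 := by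
      field_simp
      ring
    have hqS : -d / c ∈ G₀ ⁻¹' Lam := by
      by_contra h3
      have h4 := (hA (-d / c)).2 h3
      rw [hpole _ hq] at h4
      exact hinf _ h4
    have hMinf : KKS.mobius α b c d OnePoint.infty = OnePoint.some (α / c) := by
      show (if c = 0 then OnePoint.infty else OnePoint.some (α / c)) = _
      rw [if_neg hc]
    have hp : α / c ∈ G₁ ⁻¹' Lam := by
      rw [hMinf, hsome] at hB
      by_contra h3
      exact hB h3
    refine not_pole hH h0 h1 hc hdet hqS hq hp ?_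
    ext y
    constructor
    · rintro ⟨z, ⟨hz, hzq⟩, rfl⟩
      have hz0 : c * z + d ≠ 0 := by
        intro h3
        apply hzq
        show z = -d / c
        rw [eq_div_iff hc]
        linear_combination h3
      refine ⟨(hA' z hz0).2 hz, ?_⟩
      intro h3
      have h3' : (α * z + b) / (c * z + d) = α / c := h3
      rw [div_eq_div_iff hz0 hc] at h3'
      apply hdet
      linear_combination -h3'
    · rintro ⟨hy, hyp⟩
      have hr := NonEqD_right hdet (OnePoint.some y)
      obtain ⟨x, hx⟩ : ∃ x, x = KKS.mobius d (-b) (-c) α (OnePoint.some y) := ⟨_, rfl⟩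
      rw [← hx] at hr
      rcases x with _ | z
      · have h3 : KKS.mobius α b c d OnePoint.infty = OnePoint.some y := hr
        rw [hMinf] at h3
        have h4 : α / c = y := OnePoint.coe_injective h3
        exact absurd h4.symm hyp
      · have h3 : KKS.mobius α b c d (OnePoint.some z) = OnePoint.some y := hr
        by_cases hz : c * z + d = 0
        · rw [hpole z hz] at h3
          exact absurd h3.symm (OnePoint.coe_ne_infty y)
        · rw [hval z hz] at h3
          have h4 : (α * z + b) / (c * z + d) = y := OnePoint.coe_injective h3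
          refine ⟨z, ⟨(hA' z hz).1 (by rw [h4]; exact hy), ?_⟩, h4⟩
          intro h5
          have h5' : z = -d / c := h5
          apply hz
          rw [h5']
          exact hq

/-- **Non-equivalence.** From `MobiusEquiv` (complements are mapped onto complements): if `c = 0` the
map is affine (`not_affine`); otherwise `not_pole`. The mirror image of `Γ₀` is
`(conj ∘ G₀) ...`: replace `G₀` by `G₀ ∘ conj`, which again satisfies `QData H 0`. -/
theorem not_mobiusEquiv {C H ε a : ℝ} (hH : 1 ≤ H) (ha0 : 0 < a) (ha : a ≤ 1 / 10)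
    (hirr : Irrational ((1 - a) / (1 + a))) {F₀ F₁ : ℂ ≃ₜ ℂ} {w₀ w₁ : ℂ → ℝ}
    (h0 : Realization C H ε 0 F₀ w₀) (h1 : Realization C H ε a F₁ w₁) :
    ¬ KKS.MobiusEquiv (OnePoint.some '' (F₁ ⁻¹' Lam)ᶜ) (OnePoint.some '' (F₀ ⁻¹' Lam)ᶜ) := by
  rintro ⟨α, b, c, d, hdet, h | h⟩
  · exact NonEqD_core hH ha0 ha hirr (NonEqD_qdata h0) (NonEqD_qdata h1) hdet h
  · refine NonEqD_core hH ha0 ha hirr (NonEqD_mirror (NonEqD_qdata h0)) (NonEqD_qdata h1) hdet ?_
    rw [← h]
    congr 1
    ext x
    constructor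
    · rintro ⟨z, hz, rfl⟩
      exact ⟨OnePoint.some ((starRingEnd ℂ) z), ⟨(starRingEnd ℂ) z, hz, rfl⟩, by
        show OnePoint.some ((starRingEnd ℂ) ((starRingEnd ℂ) z)) = OnePoint.some z
        rw [Complex.conj_conj]⟩
    · rintro ⟨_, ⟨z, hz, rfl⟩, rfl⟩
      refine ⟨(starRingEnd ℂ) z, ?_, rfl⟩
      show F₀ ((starRingEnd ℂ) ((starRingEnd ℂ) z)) ∉ Lam
      rw [Complex.conj_conj]
      exact hz

end Pool.Agent.KK
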