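import Pool.Agent.W_bb4b37_h53.Stmt
import Pool.Agent.W_bb4b37_h53.CalcE
import Pool.Agent.W_bb4b37_h53.CantorA

/-!
# The third fundamental form in the conformal coordinate `ζ = F z`; independence of `a` (part D)
-/

set_option autoImplicit false

open Filter Topology Set MeasureTheory Metric
open scoped ContDiff

namespace Pool.Agent.KK

open Pool.Agent.KKS (mink Hyp klein sphere2 sph form gaussK Metric2)

variable {C H ε a : ℝ} {F : ℂ ≃ₜ ℂ} {w : ℂ → ℝ}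

theorem UniqLD_first {f g B : ℂ → ℝ} {c T : ℝ} {z v : ℂ} (hf : DifferentiableAt ℝ f z)
    (hg : DifferentiableAt ℝ g z) (hB : DifferentiableAt ℝ B z) (h0 : T - (B z + c) ≠ 0) :
    fderiv ℝ (fun y => f y - g y + 2 * Real.log (T - (B y + c))) z v =
      fderiv ℝ f z v - fderiv ℝ g z v - 2 * (fderiv ℝ B z v * (T - (B z + c))⁻¹) := by
  have h1 : HasFDerivAt (fun y => T - (B y + c)) (-fderiv ℝ B z) z :=
    (hB.hasFDerivAt.add_const c).const_sub T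
  have h2 := ((hf.hasFDerivAt.sub hg.hasFDerivAt).add ((h1.log h0).const_mul 2)).fderiv
  have h3 : (fun y => f y - g y + 2 * Real.log (T - (B y + c))) =
      (fun y => f y - g y) + fun y => 2 * Real.log (T - (B y + c)) := rfl
  rw [h3]
  erw [h2]
  simp only [ContinuousLinearMap.add_apply, ContinuousLinearMap.sub_apply,
    ContinuousLinearMap.smul_apply, ContinuousLinearMap.neg_apply, smul_eq_mul]
  ring

theorem UniqLD_diff {f : ℂ → ℝ} {p : ℂ} (hf : ContDiffAt ℝ 2 f p) (v : ℂ) :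
    DifferentiableAt ℝ (fun y => fderiv ℝ f y v) p := by
  have h1 : ContDiffAt ℝ 1 (fderiv ℝ f) p := hf.fderiv_right (m := 1) (by norm_num)
  exact (h1.differentiableAt (by norm_num)).clm_apply (differentiableAt_const v)

theorem UniqLD_second {f g B : ℂ → ℝ} {c T : ℝ} {p : ℂ} (v : ℂ) (hf : ContDiffAt ℝ 2 f p)
    (hg : ContDiffAt ℝ 2 g p) (hB : ContDiffAt ℝ 2 B p) (h0 : T - (B p + c) ≠ 0) :
    fderiv ℝ (fun y => fderiv ℝ (fun y => f y - g y + 2 * Real.log (T - (B y + c))) y v) p v =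
      fderiv ℝ (fun y => fderiv ℝ f y v) p v - fderiv ℝ (fun y => fderiv ℝ g y v) p v -
        2 * (fderiv ℝ (fun y => fderiv ℝ B y v) p v * (T - (B p + c))⁻¹ +
          (fderiv ℝ B p v) ^ 2 * ((T - (B p + c))⁻¹) ^ 2) := by
  have df : ∀ᶠ y in 𝓝 p, DifferentiableAt ℝ f y :=
    (hf.eventually (by simp)).mono fun y hy => hy.differentiableAt (by norm_num)
  have dg : ∀ᶠ y in 𝓝 p, DifferentiableAt ℝ g y :=
    (hg.eventually (by simp)).mono fun y hy => hy.differentiableAt (by norm_num)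
  have dB : ∀ᶠ y in 𝓝 p, DifferentiableAt ℝ B y :=
    (hB.eventually (by simp)).mono fun y hy => hy.differentiableAt (by norm_num)
  have d0 : ∀ᶠ y in 𝓝 p, T - (B y + c) ≠ 0 := by
    have hc : ContinuousAt (fun y => T - (B y + c)) p :=
      continuousAt_const.sub (hB.continuousAt.add continuousAt_const)
    exact hc.eventually_ne h0
  have hev : (fun y => fderiv ℝ (fun y => f y - g y + 2 * Real.log (T - (B y + c))) y v)
      =ᶠ[𝓝 p] fun y => fderiv ℝ f y v - fderiv ℝ g y v -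
        2 * (fderiv ℝ B y v * (T - (B y + c))⁻¹) := by
    filter_upwards [df, dg, dB, d0] with y h1 h2 h3 h4
    exact UniqLD_first h1 h2 h3 h4
  rw [hev.fderiv_eq]
  have hB1 : HasFDerivAt B (fderiv ℝ B p) p := (hB.differentiableAt (by norm_num)).hasFDerivAt
  have h1 : HasFDerivAt (fun y => T - (B y + c)) (-fderiv ℝ B p) p :=
    (hB1.add_const c).const_sub T
  have h2 : HasFDerivAt (fun y => (T - (B y + c))⁻¹)
      (-((T - (B p + c)) ^ 2)⁻¹ • (-fderiv ℝ B p)) p :=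
    (hasDerivAt_inv h0).comp_hasFDerivAt p h1
  have h3 := (UniqLD_diff hB v).hasFDerivAt.mul h2
  have h4 := (((UniqLD_diff hf v).hasFDerivAt.sub (UniqLD_diff hg v).hasFDerivAt).sub
    (h3.const_mul 2)).fderiv
  have h5 : (fun y => fderiv ℝ f y v - fderiv ℝ g y v - 2 * (fderiv ℝ B y v * (T - (B y + c))⁻¹))
      = ((fun y => fderiv ℝ f y v) - fun y => fderiv ℝ g y v) -
        fun y => 2 * (fderiv ℝ B y v * (T - (B y + c))⁻¹) := rfl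
  rw [h5]
  erw [h4]
  simp only [ContinuousLinearMap.add_apply, ContinuousLinearMap.sub_apply,
    ContinuousLinearMap.smul_apply, ContinuousLinearMap.neg_apply, smul_eq_mul]
  rw [← inv_pow]
  ring

theorem UniqLD_Lap {f g B : ℂ → ℝ} {c T : ℝ} {p : ℂ} (hf : ContDiffAt ℝ 2 f p)
    (hg : ContDiffAt ℝ 2 g p) (hB : ContDiffAt ℝ 2 B p) (h0 : T - (B p + c) ≠ 0) :
    Lap (fun y => f y - g y + 2 * Real.log (T - (B y + c))) p =
      Lap f p - Lap g p - 2 * (Lap B p * (T - (B p + c))⁻¹ +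
          ((Dx B p) ^ 2 + (Dy B p) ^ 2) * ((T - (B p + c))⁻¹) ^ 2) := by
  have h1 := UniqLD_second 1 hf hg hB h0
  have h2 := UniqLD_second Complex.I hf hg hB h0
  show fderiv ℝ (fun y => fderiv ℝ (fun y => f y - g y + 2 * Real.log (T - (B y + c))) y 1) p 1 +
    fderiv ℝ (fun y => fderiv ℝ (fun y => f y - g y + 2 * Real.log (T - (B y + c))) y
      Complex.I) p Complex.I = _
  rw [h1, h2]
  show _ = (fderiv ℝ (fun y => fderiv ℝ f y 1) p 1 +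
      fderiv ℝ (fun y => fderiv ℝ f y Complex.I) p Complex.I) -
    (fderiv ℝ (fun y => fderiv ℝ g y 1) p 1 +
      fderiv ℝ (fun y => fderiv ℝ g y Complex.I) p Complex.I) -
    2 * ((fderiv ℝ (fun y => fderiv ℝ B y 1) p 1 +
      fderiv ℝ (fun y => fderiv ℝ B y Complex.I) p Complex.I) * (T - (B p + c))⁻¹ +
      ((fderiv ℝ B p 1) ^ 2 + (fderiv ℝ B p Complex.I) ^ 2) * ((T - (B p + c))⁻¹) ^ 2)
  ring

theorem UniqLD_near (ζ : ℂ) : ∃ v ∈ Lat 0, ‖ζ - v‖ ≤ 2 := exists_lat_near (by norm_num) ζ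

theorem UniqLD_compl {ζ v : ℂ} (hζ : ζ ∈ Lamᶜ) (hv : v ∈ Lat 0) : ζ - v ∈ Lamᶜ := by
  intro h
  apply hζ
  have := perSet_Lam (ζ - v) h v hv
  rwa [sub_add_cancel] at this

theorem UniqLD_per {f : ℂ → ℝ} (hf : Per 0 f) {ζ v : ℂ} (hv : v ∈ Lat 0) :
    f (ζ - v) = f ζ := by
  have := hf (ζ - v) v hv
  rw [sub_add_cancel] at this
  exact this.symm

/-- A function which is large near `Lam` is bounded below. -/
theorem UniqLD_below {B : ℂ → ℝ} (hB : ContinuousOn B Lamᶜ) (pB : Per 0 B)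
    (hex : ∀ M : ℝ, ∃ δ > 0, ∀ ζ ∈ Lamᶜ, B ζ ≤ M → δ ≤ infDist ζ Lam) :
    ∃ b : ℝ, 0 ≤ b ∧ ∀ ζ ∈ Lamᶜ, -b ≤ B ζ := by
  obtain ⟨δ, hδ, hδ'⟩ := hex 0
  have hcl : IsClosed {ζ : ℂ | δ ≤ infDist ζ Lam} :=
    isClosed_le continuous_const (continuous_infDist_pt Lam)
  have hcomp : IsCompact (closedBall (0 : ℂ) 2 ∩ {ζ : ℂ | δ ≤ infDist ζ Lam}) :=
    (isCompact_closedBall 0 2).inter_right hcl
  have hsub : closedBall (0 : ℂ) 2 ∩ {ζ : ℂ | δ ≤ infDist ζ Lam} ⊆ Lamᶜ := by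
    intro ζ hζ h
    have h1 : infDist ζ Lam = 0 := infDist_zero_of_mem h
    have h2 : δ ≤ infDist ζ Lam := hζ.2
    linarith
  obtain ⟨m, hm⟩ := hcomp.bddBelow_image (hB.mono hsub)
  refine ⟨|m|, abs_nonneg m, ?_⟩
  intro ζ hζ
  rcases le_or_gt (B ζ) 0 with h | h
  · obtain ⟨v, hv, hv2⟩ := UniqLD_near ζ
    have h1 := UniqLD_compl hζ hv
    have h2 : B (ζ - v) = B ζ := UniqLD_per pB hv
    have h3 := hδ' (ζ - v) h1 (by rw [h2]; exact h)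
    have h4 : m ≤ B (ζ - v) := hm ⟨ζ - v, ⟨by simpa using hv2, h3⟩, rfl⟩
    rw [h2] at h4
    exact (neg_abs_le m).trans h4
  · have := abs_nonneg m
    linarith

/-- The estimate for a fixed `T`. -/
theorem UniqLD_step {u₁ u₂ B : ℂ → ℝ} {K c T : ℝ} (hK : 0 < K) (hT : 1 ≤ T)
    (h1 : ContDiffOn ℝ 2 u₁ Lamᶜ)
    (h2 : ContDiffOn ℝ 2 u₂ Lamᶜ) (hB : ContDiffOn ℝ 2 B Lamᶜ) (p1 : Per 0 u₁) (p2 : Per 0 u₂)
    (pB : Per 0 B) (e1 : ∀ ζ ∈ Lamᶜ, Lap u₁ ζ = Real.exp (2 * u₁ ζ))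
    (e2 : ∀ ζ ∈ Lamᶜ, Lap u₂ ζ = Real.exp (2 * u₂ ζ))
    (hg : ∀ ζ ∈ Lamᶜ, (Dx B ζ) ^ 2 + (Dy B ζ) ^ 2 ≤ K * Real.exp (2 * u₁ ζ))
    (hl : ∀ ζ ∈ Lamᶜ, |Lap B ζ| ≤ K * Real.exp (2 * u₁ ζ))
    (hex : ∀ M : ℝ, ∃ δ > 0, ∀ ζ ∈ Lamᶜ, B ζ ≤ M → δ ≤ infDist ζ Lam)
    (hc : ∀ ζ ∈ Lamᶜ, 0 ≤ B ζ + c) {ζ₀ : ℂ} (hζ₀ : ζ₀ ∈ Lamᶜ) (hBT : B ζ₀ + c < T) :
    Real.exp (2 * (u₂ ζ₀ - u₁ ζ₀)) * ((T - (B ζ₀ + c)) / T) ^ 4 ≤
      1 + 2 * K * T⁻¹ + 2 * K * (T⁻¹) ^ 2 := by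
  have hopen : IsOpen Lamᶜ := isClosed_Lam.isOpen_compl
  obtain ⟨δ, hδ, hδ'⟩ := hex (T - c)
  have hT0 : 0 < T := by linarith
  -- the compact set
  have hcl : IsClosed {ζ : ℂ | δ ≤ infDist ζ Lam} :=
    isClosed_le continuous_const (continuous_infDist_pt Lam)
  set K1 : Set ℂ := closedBall (0 : ℂ) 2 ∩ {ζ : ℂ | δ ≤ infDist ζ Lam} with hK1
  have hK1c : IsCompact K1 := (isCompact_closedBall 0 2).inter_right hcl
  have hsub : K1 ⊆ Lamᶜ := by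
    intro ζ hζ h
    have h1 : infDist ζ Lam = 0 := infDist_zero_of_mem h
    have h2 : δ ≤ infDist ζ Lam := hζ.2
    linarith
  set S : Set ℂ := K1 ∩ B ⁻¹' (Iic (T - c)) with hS
  have hSc : IsCompact S := by
    have : IsClosed S := ContinuousOn.preimage_isClosed_of_isClosed (hB.continuousOn.mono hsub)
      hK1c.isClosed isClosed_Iic
    exact hK1c.of_isClosed_subset this inter_subset_left
  let g : ℂ → ℝ := fun ζ => Real.exp (u₂ ζ - u₁ ζ) * (T - (B ζ + c)) ^ 2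
  have hgc : ContinuousOn g Lamᶜ := by
    apply ContinuousOn.mul
    · exact Real.continuous_exp.comp_continuousOn (h2.continuousOn.sub h1.continuousOn)
    · exact (continuousOn_const.sub (hB.continuousOn.add continuousOn_const)).pow 2
  have hrep : ∀ ζ ∈ Lamᶜ, B ζ + c ≤ T → ∃ ζ' ∈ S, g ζ' = g ζ := by
    intro ζ hζ hle
    obtain ⟨v, hv, hv2⟩ := UniqLD_near ζ
    have h3 := UniqLD_compl hζ hv
    have h4 : B (ζ - v) = B ζ := UniqLD_per pB hv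
    refine ⟨ζ - v, ⟨⟨by simpa using hv2, hδ' _ h3 (by rw [h4]; linarith)⟩, ?_⟩, ?_⟩
    · show B (ζ - v) ≤ T - c
      rw [h4]; linarith
    · show Real.exp (u₂ (ζ - v) - u₁ (ζ - v)) * (T - (B (ζ - v) + c)) ^ 2 = _
      rw [h4, UniqLD_per p1 hv, UniqLD_per p2 hv]
  obtain ⟨ζ₁, hζ₁, hgζ₁⟩ := hrep ζ₀ hζ₀ hBT.le
  obtain ⟨p, hp, hmax⟩ := hSc.exists_isMaxOn ⟨ζ₁, hζ₁⟩ (hgc.mono (inter_subset_left.trans hsub))
  have hpL : p ∈ Lamᶜ := hsub hp.1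
  have hle : ∀ ζ ∈ Lamᶜ, B ζ + c ≤ T → g ζ ≤ g p := by
    intro ζ hζ hle
    obtain ⟨ζ', hζ', he⟩ := hrep ζ hζ hle
    rw [← he]
    exact hmax hζ'
  have hg0 : 0 < g ζ₀ := by
    apply mul_pos (Real.exp_pos _)
    apply pow_pos
    linarith
  have hgp : 0 < g p := lt_of_lt_of_le hg0 (hle ζ₀ hζ₀ hBT.le)
  have hsp0 : 0 ≤ T - (B p + c) := by
    have : B p ≤ T - c := hp.2
    linarith
  have hsp : 0 < T - (B p + c) := by
    rcases hsp0.lt_or_eq with h | h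
    · exact h
    · exfalso
      have : g p = 0 := by
        show Real.exp (u₂ p - u₁ p) * (T - (B p + c)) ^ 2 = 0
        rw [← h]; ring
      linarith
  -- the local maximum
  let G : ℂ → ℝ := fun y => u₂ y - u₁ y + 2 * Real.log (T - (B y + c))
  have hlog : ∀ ζ, 0 < T - (B ζ + c) → G ζ = Real.log (g ζ) := by
    intro ζ hζ
    show u₂ ζ - u₁ ζ + 2 * Real.log (T - (B ζ + c)) =
      Real.log (Real.exp (u₂ ζ - u₁ ζ) * (T - (B ζ + c)) ^ 2)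
    rw [Real.log_mul (Real.exp_pos _).ne' (pow_pos hζ 2).ne', Real.log_exp, Real.log_pow]
    norm_num
  have hBp : ContDiffAt ℝ 2 B p := hB.contDiffAt (hopen.mem_nhds hpL)
  have h1p : ContDiffAt ℝ 2 u₁ p := h1.contDiffAt (hopen.mem_nhds hpL)
  have h2p : ContDiffAt ℝ 2 u₂ p := h2.contDiffAt (hopen.mem_nhds hpL)
  have hev : ∀ᶠ ζ in 𝓝 p, 0 < T - (B ζ + c) := by
    have hc : ContinuousAt (fun y => T - (B y + c)) p :=
      continuousAt_const.sub (hBp.continuousAt.add continuousAt_const)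
    exact hc.eventually_const_lt hsp
  have hloc : IsLocalMax G p := by
    filter_upwards [hev, hopen.mem_nhds hpL] with ζ hζ1 hζ2
    rw [hlog ζ hζ1, hlog p hsp]
    apply Real.log_le_log
    · exact mul_pos (Real.exp_pos _) (pow_pos hζ1 2)
    · exact hle ζ hζ2 (by linarith)
  have hGC : ContDiffAt ℝ 2 G p := by
    apply ContDiffAt.add (h2p.sub h1p)
    apply contDiffAt_const.mul
    exact ContDiffAt.log (f := fun x => T - (B x + c))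
      (contDiffAt_const.sub (hBp.add contDiffAt_const)) hsp.ne'
  obtain ⟨-, -, hxx, hyy, -⟩ := second_deriv_of_isLocalMax hGC hloc
  have hLap : Lap G p ≤ 0 := add_nonpos hxx hyy
  have hLapE : Lap G p = Lap u₂ p - Lap u₁ p - 2 * (Lap B p * (T - (B p + c))⁻¹ +
          ((Dx B p) ^ 2 + (Dy B p) ^ 2) * ((T - (B p + c))⁻¹) ^ 2) :=
    UniqLD_Lap h2p h1p hBp hsp.ne'
  rw [hLapE, e1 p hpL, e2 p hpL] at hLap
  -- the algebra
  set s := T - (B p + c) with hs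
  set E := Real.exp (2 * u₁ p) with hE
  have hE0 : 0 < E := Real.exp_pos _
  have hexp : Real.exp (2 * u₂ p) = E * Real.exp (2 * (u₂ p - u₁ p)) := by
    rw [hE, ← Real.exp_add]; congr 1; ring
  have hsi : 0 < s⁻¹ := inv_pos.mpr hsp
  have hb1 : Lap B p * s⁻¹ ≤ K * E * s⁻¹ :=
    mul_le_mul_of_nonneg_right ((le_abs_self _).trans (hl p hpL)) hsi.le
  have hb2 : ((Dx B p) ^ 2 + (Dy B p) ^ 2) * (s⁻¹) ^ 2 ≤ K * E * (s⁻¹) ^ 2 :=
    mul_le_mul_of_nonneg_right (hg p hpL) (by positivity)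
  have hkey : Real.exp (2 * (u₂ p - u₁ p)) ≤ 1 + 2 * K * s⁻¹ + 2 * K * (s⁻¹) ^ 2 := by
    have h3 : E * Real.exp (2 * (u₂ p - u₁ p)) ≤
        E * (1 + 2 * K * s⁻¹ + 2 * K * (s⁻¹) ^ 2) := by
      rw [← hexp]
      nlinarith [hLap, hb1, hb2]
    exact le_of_mul_le_mul_left h3 hE0
  have hsT : s ≤ T := by
    have := hc p hpL
    rw [hs]; linarith
  have hgg : ∀ ζ, Real.exp (2 * (u₂ ζ - u₁ ζ)) * (T - (B ζ + c)) ^ 4 = (g ζ) ^ 2 := by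
    intro ζ
    show _ = (Real.exp (u₂ ζ - u₁ ζ) * (T - (B ζ + c)) ^ 2) ^ 2
    rw [mul_pow, ← Real.exp_nat_mul]
    push_cast
    ring
  have hfin : (g ζ₀) ^ 2 ≤ (g p) ^ 2 :=
    pow_le_pow_left₀ hg0.le (hle ζ₀ hζ₀ hBT.le) 2
  rw [← hgg, ← hgg, ← hs] at hfin
  have hs4 : Real.exp (2 * (u₂ p - u₁ p)) * s ^ 4 ≤
      (1 + 2 * K * T⁻¹ + 2 * K * (T⁻¹) ^ 2) * T ^ 4 := by
    calc Real.exp (2 * (u₂ p - u₁ p)) * s ^ 4 ≤
          (1 + 2 * K * s⁻¹ + 2 * K * (s⁻¹) ^ 2) * s ^ 4 :=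
          mul_le_mul_of_nonneg_right hkey (by positivity)
      _ = s ^ 4 + 2 * K * s ^ 3 + 2 * K * s ^ 2 := by field_simp
      _ ≤ T ^ 4 + 2 * K * T ^ 3 + 2 * K * T ^ 2 := by
          have a1 : s ^ 4 ≤ T ^ 4 := pow_le_pow_left₀ hsp.le hsT 4
          have a2 : s ^ 3 ≤ T ^ 3 := pow_le_pow_left₀ hsp.le hsT 3
          have a3 : s ^ 2 ≤ T ^ 2 := pow_le_pow_left₀ hsp.le hsT 2
          have a4 := mul_le_mul_of_nonneg_left a2 (by positivity : (0 : ℝ) ≤ 2 * K)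
          have a5 := mul_le_mul_of_nonneg_left a3 (by positivity : (0 : ℝ) ≤ 2 * K)
          linarith
      _ = (1 + 2 * K * T⁻¹ + 2 * K * (T⁻¹) ^ 2) * T ^ 4 := by field_simp
  rw [div_pow, ← mul_div_assoc, div_le_iff₀ (pow_pos hT0 4)]
  exact hfin.trans hs4

/-- **Uniqueness** (Yau-Ahlfors-Schwarz lemma for periodic conformal metrics). `u₁, u₂` solve
Liouville's equation on `Lamᶜ`, both periodic; `B` is a periodic exhaustion function for `u₁`.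
Then `u₂ ≤ u₁`. Proof: we may assume `B ≥ 1`. Let `φ = u₂ - u₁`, `T > 1` and
`G = φ + 2 log (1 - B / T)` on `{B < T}`; `G → -∞` at the boundary of `{B < T}` (modulo periods the
closure of this set is a compact subset of `Lamᶜ`), so `G` has a maximum `p`. There
`Δφ ≤ - 2 Δ log (T - B) = 2 ΔB / (T - B) + 2 |∇B|² / (T - B)²
 ≤ 2 K e^{2u₁} (1/(T-B) + 1/(T-B)²)`, and `Δφ = e^{2u₁} (e^{2φ} - 1)`. Multiplying by
`(1 - B/T)⁴ ≤ 1` one gets `e^{2 G(p)} ≤ 1 + 4 K (1/T + 1/T²)`. For fixed `ζ`,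
`φ ζ ≤ (1/2) log (1 + 8 K / T) - 2 log (1 - B ζ / T) → 0` as `T → ∞`. -/
theorem yau {u₁ u₂ B : ℂ → ℝ} {K : ℝ} (hK : 0 < K) (h1 : ContDiffOn ℝ 2 u₁ Lamᶜ)
    (h2 : ContDiffOn ℝ 2 u₂ Lamᶜ) (hB : ContDiffOn ℝ 2 B Lamᶜ) (p1 : Per 0 u₁) (p2 : Per 0 u₂)
    (pB : Per 0 B) (e1 : ∀ ζ ∈ Lamᶜ, Lap u₁ ζ = Real.exp (2 * u₁ ζ))
    (e2 : ∀ ζ ∈ Lamᶜ, Lap u₂ ζ = Real.exp (2 * u₂ ζ))
    (hg : ∀ ζ ∈ Lamᶜ, (Dx B ζ) ^ 2 + (Dy B ζ) ^ 2 ≤ K * Real.exp (2 * u₁ ζ))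
    (hl : ∀ ζ ∈ Lamᶜ, |Lap B ζ| ≤ K * Real.exp (2 * u₁ ζ))
    (hex : ∀ M : ℝ, ∃ δ > 0, ∀ ζ ∈ Lamᶜ, B ζ ≤ M → δ ≤ infDist ζ Lam) :
    ∀ ζ ∈ Lamᶜ, u₂ ζ ≤ u₁ ζ := by
  intro ζ₀ hζ₀
  obtain ⟨b, hb0, hb⟩ := UniqLD_below hB.continuousOn pB hex
  have hc : ∀ ζ ∈ Lamᶜ, 0 ≤ B ζ + b := fun ζ hζ => by have := hb ζ hζ; linarith
  have hstep : ∀ᶠ T : ℝ in atTop,
      Real.exp (2 * (u₂ ζ₀ - u₁ ζ₀)) * (1 - (B ζ₀ + b) * T⁻¹) ^ 4 ≤
        1 + 2 * K * T⁻¹ + 2 * K * (T⁻¹) ^ 2 := by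
    filter_upwards [eventually_ge_atTop (1 : ℝ), eventually_gt_atTop (B ζ₀ + b)] with T hT hT2
    have h3 := UniqLD_step hK hT h1 h2 hB p1 p2 pB e1 e2 hg hl hex hc hζ₀ hT2
    have h4 : (T - (B ζ₀ + b)) / T = 1 - (B ζ₀ + b) * T⁻¹ := by
      have : T ≠ 0 := by linarith
      field_simp
    rw [h4] at h3
    exact h3
  have hinv : Tendsto (fun T : ℝ => T⁻¹) atTop (𝓝 0) := tendsto_inv_atTop_zero
  have hL : Tendsto (fun T : ℝ => Real.exp (2 * (u₂ ζ₀ - u₁ ζ₀)) *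
      (1 - (B ζ₀ + b) * T⁻¹) ^ 4) atTop (𝓝 (Real.exp (2 * (u₂ ζ₀ - u₁ ζ₀)) *
      (1 - (B ζ₀ + b) * 0) ^ 4)) :=
    ((tendsto_const_nhds.sub (hinv.const_mul _)).pow 4).const_mul _
  have hR : Tendsto (fun T : ℝ => 1 + 2 * K * T⁻¹ + 2 * K * (T⁻¹) ^ 2) atTop
      (𝓝 (1 + 2 * K * 0 + 2 * K * 0 ^ 2)) :=
    (tendsto_const_nhds.add (hinv.const_mul _)).add ((hinv.pow 2).const_mul _)
  have hle := le_of_tendsto_of_tendsto hL hR hstep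
  have h5 : Real.exp (2 * (u₂ ζ₀ - u₁ ζ₀)) ≤ 1 := by
    have : Real.exp (2 * (u₂ ζ₀ - u₁ ζ₀)) * (1 - (B ζ₀ + b) * 0) ^ 4 =
        Real.exp (2 * (u₂ ζ₀ - u₁ ζ₀)) := by ring
    rw [this] at hle
    linarith
  have h6 := Real.exp_le_one_iff.mp h5
  linarith

end Pool.Agent.KK
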