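import Pool.Agent.W_bb4b37_h53.UniqLC
import Pool.Agent.W_bb4b37_h53.UniqLD

/-!
# The third fundamental form in the conformal coordinate `ζ = F z`; independence of `a` (part E)
-/

set_option autoImplicit false

open Filter Topology Set MeasureTheory Metric
open scoped ContDiff

namespace Pool.Agent.KK

open Pool.Agent.KKS (mink Hyp klein sphere2 sph form gaussK Metric2)

variable {C H ε a : ℝ} {F : ℂ ≃ₜ ℂ} {w : ℂ → ℝ}

theorem UniqLE_two_le : (2 : WithTop ℕ∞) ≤ ∞ := WithTop.coe_le_coe.2 le_top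

/-- The inverse map intertwines the lattices. -/
theorem UniqLE_symm_add (hr : Realization C H ε a F w) (ζ : ℂ) {v : ℂ} (hv : v ∈ Lat 0) :
    ∃ v' ∈ Lat a, F.symm (ζ + v) = F.symm ζ + v' ∧ ∀ z, F (z + v') = F z + v := by
  obtain ⟨m, n, rfl⟩ := hv
  refine ⟨_, ⟨m, n, rfl⟩, ?_, fun z => ?_⟩
  · rw [Homeomorph.symm_apply_eq, hr.per, Homeomorph.apply_symm_apply]
    simp
  · rw [hr.per]
    simp

theorem UniqLE_perB (hr : Realization C H ε a F w) : Per 0 (fun ζ => w (F.symm ζ)) := by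
  intro ζ v hv
  obtain ⟨v', hv', h1, _⟩ := UniqLE_symm_add hr ζ hv
  show w (F.symm (ζ + v)) = w (F.symm ζ)
  rw [h1]
  exact hr.perw _ _ hv'

theorem UniqLE_peru (hr : Realization C H ε a F w) :
    Per 0 (fun ζ => Uc ε F w (F.symm ζ)) := by
  intro ζ v hv
  obtain ⟨v', hv', h1, h2⟩ := UniqLE_symm_add hr ζ hv
  show Uc ε F w (F.symm (ζ + v)) = Uc ε F w (F.symm ζ)
  rw [h1]
  have h3 : w (F.symm ζ + v') = w (F.symm ζ) := hr.perw _ _ hv'
  have h4 : Dx w (F.symm ζ + v') = Dx w (F.symm ζ) := per_Dx hr.perw _ _ hv'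
  have h5 : Dy w (F.symm ζ + v') = Dy w (F.symm ζ) := per_Dy hr.perw _ _ hv'
  have h6 : fderiv ℝ F (F.symm ζ + v') = fderiv ℝ F (F.symm ζ) := by
    rw [← fderiv_comp_add_right]
    have h7 : (fun x => F (x + v')) = fun x => F x + v := by
      funext x; exact h2 x
    rw [h7, fderiv_add_const]
  have h8 : Dz F (F.symm ζ + v') = Dz F (F.symm ζ) := by
    unfold Dz Dx Dy
    rw [h6]
  have h9 : gR ε w (F.symm ζ + v') = gR ε w (F.symm ζ) := by
    unfold gR Rr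
    rw [h3, h4, h5]
  unfold Uc
  rw [h3, h8, h9]

theorem UniqLE_maps (F : ℂ ≃ₜ ℂ) {ζ : ℂ} (hζ : ζ ∈ Lamᶜ) : F.symm ζ ∈ (F ⁻¹' Lam)ᶜ := by
  intro h
  apply hζ
  have h1 : F (F.symm ζ) ∈ Lam := h
  rwa [Homeomorph.apply_symm_apply] at h1

theorem UniqLE_smoothB (hr : Realization C H ε a F w) (hg : Geo C ε (F ⁻¹' Lam) w) :
    ContDiffOn ℝ 2 (fun ζ => w (F.symm ζ)) Lamᶜ := by
  have h1 := (symm_smooth hr hg).1
  have h2 : ContDiffOn ℝ ∞ (fun ζ => w (F.symm ζ)) Lamᶜ :=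
    hr.smoothw.comp h1 fun ζ hζ => UniqLE_maps F hζ
  exact h2.of_le UniqLE_two_le

/-- Lower bound for the distortion of a weakly quasisymmetric map commuting with a translation. -/
theorem UniqLE_chain {f : ℂ → ℂ} (hf : WQS H f) (hH : 0 ≤ H) (z v : ℂ) (n : ℕ) :
    ‖f (z + n • v) - f z‖ ≤ (∑ k ∈ Finset.range n, H ^ k) * ‖f (z + v) - f z‖ := by
  have h1 : ∀ k : ℕ, ‖f (z + (k + 1) • v) - f (z + k • v)‖ ≤ H ^ k * ‖f (z + v) - f z‖ := by
    intro k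
    induction k with
    | zero => simp
    | succ k ih =>
      have h2 := hf (z + (k + 1) • v) (z + (k + 1 + 1) • v) (z + k • v) (by
        have e1 : z + (k + 1 + 1) • v - (z + (k + 1) • v) = v := by
          rw [add_smul (k + 1) 1 v, one_smul]; ring
        have e2 : z + k • v - (z + (k + 1) • v) = - v := by
          rw [add_smul k 1 v, one_smul]; ring
        rw [e1, e2, norm_neg])
      rw [norm_sub_rev (f (z + k • v))] at h2
      calc _ ≤ _ := h2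
        _ ≤ H * (H ^ k * ‖f (z + v) - f z‖) := mul_le_mul_of_nonneg_left ih hH
        _ = _ := by ring
  induction n with
  | zero => simp
  | succ n ih =>
    rw [Finset.sum_range_succ, add_mul]
    calc ‖f (z + (n + 1) • v) - f z‖
        = ‖(f (z + n • v) - f z) + (f (z + (n + 1) • v) - f (z + n • v))‖ := by
          congr 1; ring
      _ ≤ _ := (norm_add_le _ _).trans (add_le_add ih (h1 n))

theorem UniqLE_hex (hr : Realization C H ε a F w) (hC : 1 ≤ C) (M : ℝ) :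
    ∃ δ > 0, ∀ ζ ∈ Lamᶜ, w (F.symm ζ) ≤ M → δ ≤ infDist ζ Lam := by
  have hC0 : 0 < C := lt_of_lt_of_le one_pos hC
  set d : ℝ := Real.exp (-M) / C with hd
  have hd0 : 0 < d := by positivity
  -- the constant of weak quasisymmetry is at least one
  have hH1 : 1 ≤ H := by
    have h1 := hr.wqs 0 1 1 le_rfl
    have h2 : 0 < ‖F 1 - F 0‖ := by
      rw [norm_pos_iff, sub_ne_zero]
      intro h
      exact one_ne_zero (F.injective h)
    by_contra hcon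
    push Not at hcon
    nlinarith
  have hH0 : 0 < H := lt_of_lt_of_le one_pos hH1
  -- a lattice vector
  set v : ℂ := 1 + (a : ℂ) with hv
  have hFv : ∀ z, F (z + v) = F z + 1 := by
    intro z
    have h1 := hr.per z 1 0
    simpa using h1
  obtain ⟨n, hn⟩ := exists_nat_gt (‖v‖ / d)
  have hn0 : (0 : ℝ) < n := lt_of_le_of_lt (by positivity) hn
  have hn0' : (n : ℂ) ≠ 0 := by
    intro h
    have : (n : ℝ) = 0 := by exact_mod_cast h
    linarith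
  have hn1 : ‖v / n‖ ≤ d := by
    rw [norm_div, Complex.norm_natCast, div_le_iff₀ hn0]
    rw [div_lt_iff₀ hd0] at hn
    linarith
  set A : ℝ := ∑ k ∈ Finset.range n, H ^ k with hA
  have hApos : 0 ≤ A := Finset.sum_nonneg fun k _ => by positivity
  have hlow : ∀ z y : ℂ, d ≤ ‖y - z‖ → 1 ≤ A * (H * ‖F y - F z‖) := by
    intro z y hy
    have h1 := UniqLE_chain hr.wqs hH0.le z (v / n) n
    have h2 : n • (v / (n : ℂ)) = v := by
      rw [nsmul_eq_mul]; field_simp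
    rw [h2, hFv] at h1
    have h3 : ‖F z + 1 - F z‖ = 1 := by
      rw [add_sub_cancel_left]; simp
    rw [h3] at h1
    have h4 := hr.wqs z (z + v / n) y (by
      rw [add_sub_cancel_left]; exact hn1.trans hy)
    exact h1.trans (mul_le_mul_of_nonneg_left h4 hApos)
  have hApos' : 0 < A := by
    have h1 := hlow 0 d (by simp [abs_of_pos hd0])
    by_contra hcon
    have h2 : A = 0 := le_antisymm (not_lt.1 hcon) hApos
    rw [h2, zero_mul] at h1
    linarith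
  refine ⟨1 / (A * H), by positivity, fun ζ hζ hM => ?_⟩
  have hz := UniqLE_maps F hζ
  have h1 := hr.lower _ hz
  have h2 : d ≤ infDist (F.symm ζ) (F ⁻¹' Lam) := by
    have h3 : Real.exp (w (F.symm ζ)) ≤ Real.exp M := Real.exp_le_exp.2 hM
    have h4 : 1 / C ≤ Real.exp M * infDist (F.symm ζ) (F ⁻¹' Lam) :=
      h1.trans (mul_le_mul_of_nonneg_right h3 infDist_nonneg)
    rw [hd, Real.exp_neg, div_le_iff₀ hC0, inv_le_iff_one_le_mul₀ (Real.exp_pos M)]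
    rw [div_le_iff₀ hC0] at h4
    linarith
  rw [le_infDist ⟨0, zero_mem_Lam⟩]
  intro s hs
  have h5 : F.symm s ∈ F ⁻¹' Lam := by
    show F (F.symm s) ∈ Lam
    rwa [Homeomorph.apply_symm_apply]
  have h6 : d ≤ ‖F.symm s - F.symm ζ‖ := by
    have := infDist_le_dist_of_mem (x := F.symm ζ) h5
    rw [dist_comm, dist_eq_norm] at this
    exact h2.trans this
  have h7 := hlow _ _ h6
  rw [Homeomorph.apply_symm_apply, Homeomorph.apply_symm_apply] at h7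
  rw [dist_comm, dist_eq_norm, div_le_iff₀ (by positivity)]
  linarith

/-- The comparison of the conformal factors. -/
theorem UniqLE_le {a₀ a₁ : ℝ} {F₀ F₁ : ℂ ≃ₜ ℂ} {w₀ w₁ : ℂ → ℝ}
    (hr₀ : Realization C H ε a₀ F₀ w₀) (hr₁ : Realization C H ε a₁ F₁ w₁) (hC : 1 ≤ C)
    (hε : 0 < ε) (hs : ε * C ^ 2 ≤ 1 / 100000) {ζ : ℂ} (hζ : ζ ∈ Lamᶜ) :
    Uc ε F₀ w₀ (F₀.symm ζ) ≤ Uc ε F₁ w₁ (F₁.symm ζ) := by
  have hg₀ := hr₀.geo hC hε hs
  have hg₁ := hr₁.geo hC hε hs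
  obtain ⟨K, hK, hex⟩ := exhaustion hr₁ hg₁
  obtain ⟨s0, e0⟩ := liouville_u hr₀ hg₀
  obtain ⟨s1, e1⟩ := liouville_u hr₁ hg₁
  exact yau (u₁ := fun ζ => Uc ε F₁ w₁ (F₁.symm ζ)) (u₂ := fun ζ => Uc ε F₀ w₀ (F₀.symm ζ))
    (B := fun ζ => w₁ (F₁.symm ζ)) hK (s1.of_le UniqLE_two_le)
    (s0.of_le UniqLE_two_le) (UniqLE_smoothB hr₁ hg₁) (UniqLE_peru hr₁)
    (UniqLE_peru hr₀) (UniqLE_perB hr₁) e1 e0 (fun ζ hζ => (hex ζ hζ).1)
    (fun ζ hζ => (hex ζ hζ).2) (fun M => UniqLE_hex hr₁ hC M) ζ hζ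

/-- Two realizations with the same `ε` have isometric third fundamental forms: with
`f = F₁⁻¹ ∘ F₀ : Γ₀ → Γ₁`, `form (Ns ε w₁ ∘ f) = form (Ns ε w₀)` on `Γ₀`. -/
theorem same_third_form {a₀ a₁ : ℝ} {F₀ F₁ : ℂ ≃ₜ ℂ} {w₀ w₁ : ℂ → ℝ}
    (hr₀ : Realization C H ε a₀ F₀ w₀) (hr₁ : Realization C H ε a₁ F₁ w₁) (hC : 1 ≤ C)
    (hε : 0 < ε) (hs : ε * C ^ 2 ≤ 1 / 100000) {z : ℂ} (hz : z ∈ (F₀ ⁻¹' Lam)ᶜ) :
    (form (fun y => Ns ε w₁ (F₁.symm (F₀ y)))).E z = (form (Ns ε w₀)).E z ∧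
    (form (fun y => Ns ε w₁ (F₁.symm (F₀ y)))).F z = (form (Ns ε w₀)).F z ∧
    (form (fun y => Ns ε w₁ (F₁.symm (F₀ y)))).G z = (form (Ns ε w₀)).G z := by
  have hg₀ := hr₀.geo hC hε hs
  have hg₁ := hr₁.geo hC hε hs
  have hζ : F₀ z ∈ Lamᶜ := hz
  have hfz := UniqLE_maps F₁ hζ
  have hu : Uc ε F₀ w₀ z = Uc ε F₁ w₁ (F₁.symm (F₀ z)) := by
    have h1 := UniqLE_le hr₀ hr₁ hC hε hs hζ
    have h2 := UniqLE_le hr₁ hr₀ hC hε hs hζ
    have h3 := le_antisymm h1 h2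
    rwa [Homeomorph.symm_apply_apply] at h3
  have hLo : IsOpen (Lamᶜ : Set ℂ) := isClosed_Lam.isOpen_compl
  have hd0 : DifferentiableAt ℝ F₀ z :=
    (hr₀.smoothF.contDiffAt (hg₀.closed.isOpen_compl.mem_nhds hz)).differentiableAt (by simp)
  have hd1 : DifferentiableAt ℝ F₁.symm (F₀ z) :=
    ((symm_smooth hr₁ hg₁).1.contDiffAt (hLo.mem_nhds hζ)).differentiableAt (by simp)
  have hd2 : DifferentiableAt ℝ F₁ (F₁.symm (F₀ z)) :=
    (hr₁.smoothF.contDiffAt (hg₁.closed.isOpen_compl.mem_nhds hfz)).differentiableAt (by simp)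
  have hdf : DifferentiableAt ℝ (fun y => F₁.symm (F₀ y)) z := hd1.comp z hd0
  have hN : DifferentiableAt ℝ (Ns ε w₁) (F₁.symm (F₀ z)) :=
    (hg₁.smooth_all.2.2.2.2.2.contDiffAt
      (hg₁.closed.isOpen_compl.mem_nhds hfz)).differentiableAt (by simp)
  have hcx := Dx_comp_vec (Y := F₁) hdf hd2
  have hcy := Dy_comp_vec (Y := F₁) hdf hd2
  have hFF : (fun y => F₁ (F₁.symm (F₀ y))) = F₀ := by
    funext y; exact Homeomorph.apply_symm_apply _ _
  rw [hFF] at hcx hcy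
  obtain ⟨E1, E2, E3⟩ := form_comp hdf hN
  obtain ⟨G1, G2, G3⟩ := form_Ns_conformal hr₁ hg₁ hfz
  obtain ⟨I1, I2, I3⟩ := form_Ns_conformal hr₀ hg₀ hz
  rw [E1, E2, E3, G1, G2, G3, I1, I2, I3, hu, hcx, hcy]
  simp only [← Complex.normSq_eq_norm_sq, Complex.normSq_apply, Complex.add_re, Complex.add_im,
    Complex.smul_re, Complex.smul_im, smul_eq_mul]
  refine ⟨?_, ?_, ?_⟩ <;> ring

end Pool.Agent.KK
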