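import Pool.Agent.W_bb4b37_h53.FinalA
import Pool.Agent.W_bb4b37_h53.FinalB
import Pool.Agent.W_bb4b37_h53.Geo3B
import Pool.Agent.W_bb4b37_h53.Geo3C
import Pool.Agent.W_bb4b37_h53.LimitC
import Pool.Agent.W_bb4b37_h53.NonEqD
import Pool.Agent.W_bb4b37_h53.UniqLE

/-!
# Assembly (part C)
-/

set_option autoImplicit false

open Filter Topology Set MeasureTheory Metric
open scoped ContDiff

namespace Pool.Agent.KK

open Pool.Agent.KKS (mink Hyp klein sphere2 sph form gaussK Metric2 NonUnique)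

/-- The third fundamental form of the reparametrized surface. -/
theorem FinalC_third {C ε : ℝ} {S : Set ℂ} {w : ℂ → ℝ} (h : Geo C ε S w) {U : Set ℂ}
    (hU : IsOpen U) {g : ℂ → ℂ} (hg : ContDiffOn ℝ ∞ g U) (hm : MapsTo g U Sᶜ)
    (G : Metric2) (hG : ∀ z ∈ U, (form (fun y => Ns ε w (g y))).E z = G.E z ∧
      (form (fun y => Ns ε w (g y))).F z = G.F z ∧ (form (fun y => Ns ε w (g y))).G z = G.G z) :
    KKS.HasThirdForm U (fun y => Xs ε w (g y)) G := by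
  obtain ⟨-, -, -, -, hX, hN⟩ := h.smooth_all
  have hgd : ∀ z ∈ U, DifferentiableAt ℝ g z := fun z hz =>
    (hg.contDiffAt (hU.mem_nhds hz)).differentiableAt (by simp)
  refine ⟨fun y => Ns ε w (g y), hN.comp hg hm, ?_, hG⟩
  intro z hz
  have ho := h.ortho (hm hz)
  refine ⟨ho.2.1, by rw [mink_comm]; exact ho.2.2.1, ?_, ?_⟩
  · have e0 : KKS.dx (fun y => Xs ε w (g y)) z = Dx (fun y => Xs ε w (g y)) z := rfl
    rw [e0, Dx_comp_vec (hgd z hz) (h.diff_X (hm hz)).1, mink_comm]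
    have e := mink_smul_add (Dx g z).re (Dx g z).im 1 0 (Dx (Xs ε w) (g z)) (Dy (Xs ε w) (g z))
      (Ns ε w (g z)) 0
    rw [one_smul, smul_zero, add_zero] at e
    rw [e, ho.2.2.2.1, ho.2.2.2.2.1]
    ring
  · have e0 : KKS.dy (fun y => Xs ε w (g y)) z = Dy (fun y => Xs ε w (g y)) z := rfl
    rw [e0, Dy_comp_vec (hgd z hz) (h.diff_X (hm hz)).1, mink_comm]
    have e := mink_smul_add (Dy g z).re (Dy g z).im 1 0 (Dx (Xs ε w) (g z)) (Dy (Xs ε w) (g z))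
      (Ns ε w (g z)) 0
    rw [one_smul, smul_zero, add_zero] at e
    rw [e, ho.2.2.2.1, ho.2.2.2.2.1]
    ring

/-- The Jacobian of `F` does not vanish. -/
theorem FinalC_det {C H ε a : ℝ} {F : ℂ ≃ₜ ℂ} {w : ℂ → ℝ} (hr : Realization C H ε a F w)
    (hC : 1 ≤ C) (hε : 0 < ε) (hs : ε * C ^ 2 ≤ 1 / 100000) {z : ℂ} (hz : z ∈ (F ⁻¹' Lam)ᶜ) :
    (fderiv ℝ F z).det ≠ 0 := by
  rw [det_fderiv, hr.belt z hz, norm_mul]
  have hn := hr.ne z hz
  have hn' : 0 < ‖Dz F z‖ := norm_pos_iff.2 hn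
  have h1 := hr.scaled.d1 z hz [true] rfl
  have h2 := hr.scaled.d1 z hz [false] rfl
  have hν := nu_le (C := C) (w := w) (z := z) hε.le h1 h2
  have hCε : ε * C ≤ 1 / 100000 := by nlinarith
  have h3 : 2 * C ^ 2 * ε ^ 2 ≤ 1 / 2 := by
    have : 0 ≤ ε * C := by positivity
    nlinarith
  have h4 : ‖nu ε w z‖ ≤ 1 / 2 := hν.trans h3
  have h5 : 0 ≤ ‖nu ε w z‖ := norm_nonneg _
  have h6 : (‖nu ε w z‖ * ‖Dz F z‖) ^ 2 < ‖Dz F z‖ ^ 2 := by
    rw [mul_pow]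
    have : ‖nu ε w z‖ ^ 2 ≤ 1 / 4 := by nlinarith
    have h7 : 0 < ‖Dz F z‖ ^ 2 := by positivity
    nlinarith
  exact (sub_pos.2 h6).ne'

/-- **Main theorem.** -/
theorem main : KKS.Main := by
  obtain ⟨C, H, ε₁, a₁, hC, hH, hε₁, ha₁, ha₁', hex⟩ := main_existence
  have hC0 : 0 < C := by linarith
  obtain ⟨e₂, he₂, he₂1, he₂2⟩ : ∃ e₂ : ℝ, 0 < e₂ ∧ e₂ ≤ ε₁ ∧ e₂ * C ^ 2 ≤ 1 / 100000 := by
    refine ⟨min ε₁ (1 / (100000 * C ^ 2)), ?_, min_le_left _ _, ?_⟩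
    · positivity
    · calc min ε₁ (1 / (100000 * C ^ 2)) * C ^ 2 ≤ 1 / (100000 * C ^ 2) * C ^ 2 := by
            gcongr
            exact min_le_right _ _
        _ = 1 / 100000 := by field_simp
  refine ⟨-(e₂ ^ 2 / (1 + e₂ ^ 2)), ?_, ?_, ?_⟩
  · have : e₂ ^ 2 / (1 + e₂ ^ 2) < 1 := by
      rw [div_lt_one (by positivity)]
      linarith
    linarith
  · have : 0 < e₂ ^ 2 / (1 + e₂ ^ 2) := by positivity
    linarith
  intro K hK0 hK1
  have hKm : -1 < K := by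
    have : e₂ ^ 2 / (1 + e₂ ^ 2) < 1 := by
      rw [div_lt_one (by positivity)]
      linarith
    linarith
  have hK1' : 0 < 1 + K := by linarith
  set e : ℝ := -K / (1 + K) with he
  have hepos : 0 < e := div_pos (by linarith) hK1'
  have hele : e ≤ e₂ ^ 2 := by
    rw [he, div_le_iff₀ hK1']
    have h1 : -K < e₂ ^ 2 / (1 + e₂ ^ 2) := by linarith
    rw [lt_div_iff₀ (by positivity)] at h1
    nlinarith
  set ε : ℝ := Real.sqrt e with hεd
  have hε : 0 < ε := Real.sqrt_pos.2 hepos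
  have hε2 : ε ^ 2 = e := Real.sq_sqrt hepos.le
  have hεle : ε ≤ e₂ := by
    rw [hεd]
    calc Real.sqrt e ≤ Real.sqrt (e₂ ^ 2) := Real.sqrt_le_sqrt hele
      _ = e₂ := Real.sqrt_sq he₂.le
  have hεs : ε * C ^ 2 ≤ 1 / 100000 :=
    le_trans (by gcongr) he₂2
  have hKe : K = -(ε ^ 2 / (1 + ε ^ 2)) := by
    rw [hε2, he]
    field_simp
    ring
  have hKe' : K / (K + 1) = - ε ^ 2 := by
    rw [hε2, he]
    have : K + 1 ≠ 0 := by linarith
    rw [add_comm K 1]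
    ring
  -- the parameter a
  obtain ⟨t, ht, ht0, ht1⟩ : ∃ t : ℝ, Irrational t ∧ (1 - a₁) / (1 + a₁) < t ∧ t < 1 := by
    apply exists_irrational_btwn
    rw [div_lt_one (by linarith)]
    linarith
  have ht00 : 0 < t := lt_of_le_of_lt (div_nonneg (by linarith) (by linarith)) ht0
  set a : ℝ := (1 - t) / (1 + t) with ha
  have ha0 : 0 < a := div_pos (by linarith) (by linarith)
  have haa : a ≤ a₁ := by
    rw [ha, div_le_iff₀ (by linarith)]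
    rw [div_lt_iff₀ (by linarith)] at ht0
    nlinarith
  have hat : (1 - a) / (1 + a) = t := by
    have h1 : (1 + t) ≠ 0 := by linarith
    have h2 : 1 + a = 2 / (1 + t) := by rw [ha]; field_simp; ring
    have h3 : 1 - a = 2 * t / (1 + t) := by rw [ha]; field_simp; ring
    rw [h2, h3]
    field_simp
  have hirr : Irrational ((1 - a) / (1 + a)) := by rw [hat]; exact ht
  obtain ⟨F₀, w₀, hr₀⟩ := hex ε hε (hεle.trans he₂1) 0 le_rfl ha₁.le
  obtain ⟨F₁, w₁, hr₁⟩ := hex ε hε (hεle.trans he₂1) a ha0.le haa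
  have hg₀ := hr₀.geo hC hε hεs
  have hg₁ := hr₁.geo hC hε hεs
  have hSo : IsOpen (F₀ ⁻¹' Lam)ᶜ := hg₀.closed.isOpen_compl
  obtain ⟨hs₁, hj₁⟩ := symm_smooth hr₁ hg₁
  have hmaps : MapsTo (fun y => F₁.symm (F₀ y)) (F₀ ⁻¹' Lam)ᶜ (F₁ ⁻¹' Lam)ᶜ := by
    intro z hz h
    apply hz
    simpa using h
  have hmaps0 : MapsTo F₀ (F₀ ⁻¹' Lam)ᶜ Lamᶜ := fun z hz h => hz h
  have hsm : ContDiffOn ℝ ∞ (fun y => F₁.symm (F₀ y)) (F₀ ⁻¹' Lam)ᶜ :=
    hs₁.comp hr₀.smoothF hmaps0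
  have hLo : IsOpen Lamᶜ := isClosed_Lam.isOpen_compl
  have hdet : ∀ z ∈ (F₀ ⁻¹' Lam)ᶜ, (fderiv ℝ (fun y => F₁.symm (F₀ y)) z).det ≠ 0 := by
    intro z hz
    have hF0 : DifferentiableAt ℝ F₀ z :=
      (hr₀.smoothF.contDiffAt (hSo.mem_nhds hz)).differentiableAt (by simp)
    have hF1 : DifferentiableAt ℝ F₁.symm (F₀ z) :=
      (hs₁.contDiffAt (hLo.mem_nhds (hmaps0 hz))).differentiableAt (by simp)
    have hc : fderiv ℝ (fun y => F₁.symm (F₀ y)) z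
        = (fderiv ℝ F₁.symm (F₀ z)).comp (fderiv ℝ F₀ z) :=
      (hF1.hasFDerivAt.comp z hF0.hasFDerivAt).fderiv
    rw [hc]
    have hdc : ((fderiv ℝ F₁.symm (F₀ z)).comp (fderiv ℝ F₀ z)).det
        = (fderiv ℝ F₁.symm (F₀ z)).det * (fderiv ℝ F₀ z).det := by
      simp only [ContinuousLinearMap.det]
      exact LinearMap.det_comp _ _
    rw [hdc]
    exact mul_ne_zero (hj₁ _ (hmaps0 hz)) (FinalC_det hr₀ hC hε hεs hz)
  refine ⟨(F₀ ⁻¹' Lam)ᶜ, form (Ns ε w₀), hSo, ?_, hg₀.riem_III, hg₀.complete, ?_, ?_,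
    OnePoint.some '' (F₁ ⁻¹' Lam)ᶜ, OnePoint.some '' (F₀ ⁻¹' Lam)ᶜ, hr₁.circleDomain,
    hr₀.circleDomain, not_mobiusEquiv hH ha0 (haa.trans ha₁') hirr hr₀ hr₁, ?_, ?_⟩
  · have : (F₀ ⁻¹' Lam)ᶜ = F₀.symm '' Lamᶜ := by
      rw [F₀.symm.image_eq_preimage_symm]
      rfl
    rw [this]
    exact isConnected_compl_Lam.image _ F₀.symm.continuous.continuousOn
  · intro z hz
    rw [hKe']
    exact hg₀.curv_III hz
  · intro γ T hγ
    exact hg₀.closed_geodesic hγ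
  · refine ⟨CC ε (F₁ ⁻¹' Lam) w₁, fun y => Xs ε w₁ (F₁.symm (F₀ y)), ?_, ?_⟩
    · rw [hKe]
      have himg : (F₀.trans F₁.symm) '' (F₀ ⁻¹' Lam)ᶜ = (F₁ ⁻¹' Lam)ᶜ := by
        ext y
        constructor
        · rintro ⟨z, hz, rfl⟩
          exact hmaps hz
        · intro hy
          refine ⟨F₀.symm (F₁ y), ?_, ?_⟩
          · intro h
            apply hy
            simpa using h
          · simp
      exact isKSurface hg₁ hSo (g := F₀.trans F₁.symm) hsm himg hdet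
    · exact FinalC_third hg₁ hSo hsm hmaps _ (fun z hz => same_third_form hr₀ hr₁ hC hε hεs hz)
  · refine ⟨CC ε (F₀ ⁻¹' Lam) w₀, fun y => Xs ε w₀ y, ?_, ?_⟩
    · rw [hKe]
      have hid : ∀ z ∈ (F₀ ⁻¹' Lam)ᶜ, (fderiv ℝ (Homeomorph.refl ℂ) z).det ≠ 0 := by
        intro z _
        have h0 : ((Homeomorph.refl ℂ : ℂ ≃ₜ ℂ) : ℂ → ℂ) = fun y => y := rfl
        rw [h0, det_fderiv_re]
        have h1 : Dx (fun y : ℂ => y) z = 1 := by simp [Dx]
        have h2 : Dy (fun y : ℂ => y) z = Complex.I := by simp [Dy]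
        rw [h1, h2]
        simp
      exact isKSurface hg₀ hSo (g := Homeomorph.refl ℂ) contDiff_id.contDiffOn (by simp) hid
    · exact FinalC_third hg₀ hSo (g := fun y => y) contDiff_id.contDiffOn (fun z hz => hz) _
        (fun z hz => ⟨rfl, rfl, rfl⟩)

end Pool.Agent.KK
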