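import Pool.Agent.W_bb4b37_h53.Geo1C

/-!
# The map from centres to points of the envelope, the convex set (all)
-/

set_option autoImplicit false

open Filter Topology Set MeasureTheory Metric
open scoped ContDiff

namespace Pool.Agent.KK

open Pool.Agent.KKS (mink Hyp klein sphere2 sph form gaussK Metric2)


end Pool.Agent.KK
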