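import Pool.Agent.W_bb4b37_h53.GeoDefs

/-!
# The map from centres to points of the envelope
-/

set_option autoImplicit false

open Filter Topology Set MeasureTheory Metric
open scoped ContDiff

namespace Pool.Agent.KK

open Pool.Agent.KKS (mink Hyp klein sphere2 sph form gaussK Metric2)

variable {C ε : ℝ} {S : Set ℂ} {w : ℂ → ℝ}

theorem Geo.g1a_infDist_pos (h : Geo C ε S w) {z : ℂ} (hz : z ∈ Sᶜ) : 0 < infDist z S :=
  (h.closed.notMem_iff_infDist_pos h.nonempty).1 hz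

theorem Geo.g1a_eC (h : Geo C ε S w) : ε * C ≤ 1 / 100000 := by
  have h1 := h.hC
  have h2 := h.hε
  have h3 := h.small
  nlinarith [mul_nonneg h2.le (mul_nonneg (by linarith : (0 : ℝ) ≤ C) (sub_nonneg.2 h1))]

theorem Geo.g1a_est1 (h : Geo C ε S w) {z : ℂ} (hz : z ∈ Sᶜ) {l : List Bool} (hl : l.length = 1) :
    Rr ε w z * |DD l w z| ≤ 1 / 100000 := by
  have h1 := h.scaled.d1 z hz l hl
  have h2 := h.Rr_pos z
  have h3 : Rr ε w z * Real.exp (w z) = ε := by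
    rw [Rr, mul_assoc, ← Real.exp_add]
    simp
  calc Rr ε w z * |DD l w z| ≤ Rr ε w z * (C * Real.exp (w z)) :=
        mul_le_mul_of_nonneg_left h1 h2.le
    _ = (Rr ε w z * Real.exp (w z)) * C := by ring
    _ = ε * C := by rw [h3]
    _ ≤ 1 / 100000 := h.g1a_eC

theorem Geo.g1a_est2 (h : Geo C ε S w) {z : ℂ} (hz : z ∈ Sᶜ) {l : List Bool} (hl : l.length = 2) :
    Rr ε w z ^ 2 * |DD l w z| ≤ 1 / 100000 := by
  have h1 := h.scaled.d2 z hz l hl
  have h2 := h.Rr_pos z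
  have h3 : Rr ε w z * Real.exp (w z) = ε := by
    rw [Rr, mul_assoc, ← Real.exp_add]
    simp
  have h4 := h.g1a_eC
  have h5 := h.hC
  have h6 := h.hε
  have h7 : ε ≤ 1 := by nlinarith
  calc Rr ε w z ^ 2 * |DD l w z| ≤ Rr ε w z ^ 2 * (C * Real.exp (w z) ^ 2) :=
        mul_le_mul_of_nonneg_left h1 (by positivity)
    _ = (Rr ε w z * Real.exp (w z)) ^ 2 * C := by ring
    _ = ε * (ε * C) := by rw [h3]; ring
    _ ≤ 1 * (1 / 100000) := by
        apply mul_le_mul h7 h4 (by positivity) zero_le_one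
    _ = 1 / 100000 := by ring

theorem g1a_gP_compl (ε : ℝ) (w : ℂ → ℝ) {z : ℂ} (hz : z ∈ Sᶜ) :
    gP ε S w z = -((((Rr ε w z * Rr ε w z) * Dx w z : ℝ) : ℂ) +
      Complex.I * (((Rr ε w z * Rr ε w z) * Dy w z : ℝ) : ℂ)) := by
  rw [gP, if_neg hz, ZZ]
  push_cast
  ring

theorem Geo.g1a_gP_norm (h : Geo C ε S w) (z : ℂ) : ‖gP ε S w z‖ ≤ infDist z S / 1000000 := by
  by_cases hz : z ∈ S
  · rw [gP, if_pos hz, norm_zero]
    exact div_nonneg infDist_nonneg (by norm_num)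
  · have hz' : z ∈ Sᶜ := hz
    have h1 : Rr ε w z * |Dx w z| ≤ 1 / 100000 := h.g1a_est1 hz' (l := [true]) rfl
    have h2 : Rr ε w z * |Dy w z| ≤ 1 / 100000 := h.g1a_est1 hz' (l := [false]) rfl
    have h3 := h.Rr_pos z
    have h4 := h.Rr_le hz'
    rw [g1a_gP_compl ε w hz', norm_neg]
    refine (norm_add_le _ _).trans ?_
    rw [norm_mul, Complex.norm_I, one_mul, Complex.norm_real, Complex.norm_real, Real.norm_eq_abs,
      Real.norm_eq_abs, abs_mul (Rr ε w z * Rr ε w z), abs_mul (Rr ε w z * Rr ε w z),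
      abs_of_pos (mul_pos h3 h3)]
    have h5 : Rr ε w z * Rr ε w z * |Dx w z| ≤ Rr ε w z * (1 / 100000) := by
      rw [mul_assoc]
      exact mul_le_mul_of_nonneg_left h1 h3.le
    have h6 : Rr ε w z * Rr ε w z * |Dy w z| ≤ Rr ε w z * (1 / 100000) := by
      rw [mul_assoc]
      exact mul_le_mul_of_nonneg_left h2 h3.le
    have h7 := h.g1a_infDist_pos hz'
    linarith

theorem g1a_fderiv_le {f : ℂ → ℝ} {z : ℂ} {K : ℝ} (hx : |Dx f z| ≤ K) (hy : |Dy f z| ≤ K) :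
    ‖fderiv ℝ f z‖ ≤ 2 * K := by
  have hK : 0 ≤ K := (abs_nonneg _).trans hx
  refine ContinuousLinearMap.opNorm_le_bound _ (by positivity) fun v => ?_
  rw [fderiv_eq]
  refine (norm_add_le _ _).trans ?_
  rw [norm_smul, norm_smul, Real.norm_eq_abs, Real.norm_eq_abs, Real.norm_eq_abs,
    Real.norm_eq_abs]
  have h1 := Complex.abs_re_le_norm v
  have h2 := Complex.abs_im_le_norm v
  have h3 : |v.re| * |Dx f z| ≤ ‖v‖ * K := mul_le_mul h1 hx (abs_nonneg _) (norm_nonneg _)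
  have h4 : |v.im| * |Dy f z| ≤ ‖v‖ * K := mul_le_mul h2 hy (abs_nonneg _) (norm_nonneg _)
  linarith

/-- differentiability on `Sᶜ` -/
theorem Geo.g1a_diff (h : Geo C ε S w) {z : ℂ} (hz : z ∈ Sᶜ) :
    DifferentiableAt ℝ (Rr ε w) z ∧ DifferentiableAt ℝ (Dx w) z ∧ DifferentiableAt ℝ (Dy w) z := by
  have hU : IsOpen Sᶜ := h.closed.isOpen_compl
  have hn : Sᶜ ∈ 𝓝 z := hU.mem_nhds hz
  have h1 := h.smooth_all.1
  have h2 : ContDiffOn ℝ 1 (Dx w) Sᶜ := contDiffOn_Dx hU h.smooth (by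
    rw [show ((1 : WithTop ℕ∞) + 1) = 2 by norm_num]
    exact WithTop.coe_le_coe.2 le_top)
  have h3 : ContDiffOn ℝ 1 (Dy w) Sᶜ := contDiffOn_Dy hU h.smooth (by
    rw [show ((1 : WithTop ℕ∞) + 1) = 2 by norm_num]
    exact WithTop.coe_le_coe.2 le_top)
  exact ⟨(h1.contDiffAt hn).differentiableAt (by simp), (h2.contDiffAt hn).differentiableAt (by simp),
    (h3.contDiffAt hn).differentiableAt (by simp)⟩

theorem Geo.g1a_prod (h : Geo C ε S w) {z : ℂ} (hz : z ∈ Sᶜ) {f : ℂ → ℝ}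
    (hf : DifferentiableAt ℝ f z) (hf0 : Rr ε w z * |f z| ≤ 1 / 100000)
    (hfx : Rr ε w z ^ 2 * |Dx f z| ≤ 1 / 100000) (hfy : Rr ε w z ^ 2 * |Dy f z| ≤ 1 / 100000) :
    DifferentiableAt ℝ (fun y => (Rr ε w y * Rr ε w y) * f y) z ∧
      ‖fderiv ℝ (fun y => (Rr ε w y * Rr ε w y) * f y) z‖ ≤ 1 / 10000 := by
  obtain ⟨d1, -, -⟩ := h.g1a_diff hz
  have d2 : DifferentiableAt ℝ (fun y => Rr ε w y * Rr ε w y) z := d1.mul d1
  have hx : Rr ε w z * |Dx w z| ≤ 1 / 100000 := h.g1a_est1 hz (l := [true]) rfl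
  have hy : Rr ε w z * |Dy w z| ≤ 1 / 100000 := h.g1a_est1 hz (l := [false]) rfl
  have hr := h.Rr_pos z
  obtain ⟨r1, r2⟩ := h.Dx_Rr hz
  refine ⟨d2.mul hf, ?_⟩
  have key : ∀ a b : ℝ, Rr ε w z * |a| ≤ 1 / 100000 → Rr ε w z ^ 2 * |b| ≤ 1 / 100000 →
      |((-Rr ε w z * a) * Rr ε w z + Rr ε w z * (-Rr ε w z * a)) * f z +
        Rr ε w z * Rr ε w z * b| ≤ 1 / 20000 := by
    intro a b ha hb
    have e1 : ((-Rr ε w z * a) * Rr ε w z + Rr ε w z * (-Rr ε w z * a)) * f z +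
        Rr ε w z * Rr ε w z * b = (-2) * ((Rr ε w z * a) * (Rr ε w z * f z)) +
          Rr ε w z ^ 2 * b := by ring
    rw [e1]
    refine (abs_add_le _ _).trans ?_
    rw [abs_mul, abs_mul, abs_mul (Rr ε w z), abs_mul (Rr ε w z), abs_mul (Rr ε w z ^ 2),
      abs_of_pos hr, abs_of_pos (show 0 < Rr ε w z ^ 2 by positivity)]
    have e2 : (Rr ε w z * |a|) * (Rr ε w z * |f z|) ≤ (1 / 100000) * (1 / 100000) :=
      mul_le_mul ha hf0 (by positivity) (by norm_num)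
    have e3 : |(-2 : ℝ)| = 2 := by norm_num
    rw [e3]
    linarith
  have hX : |Dx (fun y => (Rr ε w y * Rr ε w y) * f y) z| ≤ 1 / 20000 := by
    rw [Dx_mul d2 hf, Dx_mul d1 d1, r1]
    exact key _ _ hx hfx
  have hY : |Dy (fun y => (Rr ε w y * Rr ε w y) * f y) z| ≤ 1 / 20000 := by
    rw [Dy_mul d2 hf, Dy_mul d1 d1, r2]
    exact key _ _ hy hfy
  refine (g1a_fderiv_le hX hY).trans (by norm_num)

theorem Geo.g1a_gP_deriv (h : Geo C ε S w) {z : ℂ} (hz : z ∈ Sᶜ) :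
    DifferentiableAt ℝ (gP ε S w) z ∧ ‖fderiv ℝ (gP ε S w) z‖ ≤ 1 / 1000 := by
  obtain ⟨-, d2, d3⟩ := h.g1a_diff hz
  have hx : Rr ε w z * |Dx w z| ≤ 1 / 100000 := h.g1a_est1 hz (l := [true]) rfl
  have hy : Rr ε w z * |Dy w z| ≤ 1 / 100000 := h.g1a_est1 hz (l := [false]) rfl
  obtain ⟨p1, p2⟩ := h.g1a_prod hz d2 hx (h.g1a_est2 hz (l := [true, true]) rfl)
    (h.g1a_est2 hz (l := [false, true]) rfl)
  obtain ⟨q1, q2⟩ := h.g1a_prod hz d3 hy (h.g1a_est2 hz (l := [true, false]) rfl)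
    (h.g1a_est2 hz (l := [false, false]) rfl)
  have hp := Complex.ofRealCLM.hasFDerivAt.comp z p1.hasFDerivAt
  have hq := (Complex.ofRealCLM.hasFDerivAt.comp z q1.hasFDerivAt).const_mul Complex.I
  have hF := (hp.add hq).neg
  have hev : gP ε S w =ᶠ[𝓝 z] fun y => -((((Rr ε w y * Rr ε w y) * Dx w y : ℝ) : ℂ) +
      Complex.I * (((Rr ε w y * Rr ε w y) * Dy w y : ℝ) : ℂ)) := by
    filter_upwards [h.closed.isOpen_compl.mem_nhds hz] with y hy
    exact g1a_gP_compl ε w hy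
  have hG := hF.congr_of_eventuallyEq hev
  refine ⟨hG.differentiableAt, ?_⟩
  rw [hG.fderiv, norm_neg]
  refine (norm_add_le _ _).trans ?_
  rw [norm_smul, Complex.norm_I, one_mul]
  have n1 := ContinuousLinearMap.opNorm_comp_le Complex.ofRealCLM
    (fderiv ℝ (fun y => (Rr ε w y * Rr ε w y) * Dx w y) z)
  have n2 := ContinuousLinearMap.opNorm_comp_le Complex.ofRealCLM
    (fderiv ℝ (fun y => (Rr ε w y * Rr ε w y) * Dy w y) z)
  rw [Complex.ofRealCLM_norm, one_mul] at n1 n2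
  linarith

/-- `P` is differentiable everywhere with gradient `gP`. At points of `S` use
`0 ≤ P z ≤ (infDist z S)²`. -/
theorem Geo.hasFDerivAt_Pp (h : Geo C ε S w) (z v : ℂ) :
    HasDerivAt (fun t : ℝ => Pp ε S w (z + (t : ℂ) * v))
      ((gP ε S w z).re * v.re + (gP ε S w z).im * v.im) 0 := by
  have hline : HasDerivAt (fun t : ℝ => z + (t : ℂ) * v) v 0 := by
    have := ((hasDerivAt_id (0 : ℝ)).ofReal_comp.mul_const v).const_add z
    simpa using this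
  by_cases hz : z ∈ S
  · have e0 : gP ε S w z = 0 := by rw [gP, if_pos hz]
    have hP0 : Pp ε S w z = 0 := by rw [Pp, if_pos hz]
    have hb : ∀ y : ℂ, |Pp ε S w y| ≤ infDist y S ^ 2 := by
      intro y
      by_cases hy : y ∈ S
      · rw [Pp, if_pos hy, abs_zero]
        positivity
      · have hr := h.Rr_pos y
        have hr2 := h.Rr_le (z := y) hy
        have hd := h.g1a_infDist_pos (z := y) hy
        rw [Pp, if_neg hy, abs_of_pos (by positivity)]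
        nlinarith
    rw [e0, Complex.zero_re, Complex.zero_im, zero_mul, zero_mul, add_zero,
      hasDerivAt_iff_isLittleO]
    simp only [sub_zero, smul_zero, Complex.ofReal_zero, zero_mul, add_zero, hP0]
    refine Asymptotics.IsBigO.trans_isLittleO (g := fun t : ℝ => t ^ 2) ?_ ?_
    · refine Asymptotics.IsBigO.of_bound (‖v‖ ^ 2) (Eventually.of_forall fun t => ?_)
      rw [Real.norm_eq_abs, Real.norm_eq_abs]
      refine (hb _).trans ?_
      have h1 : infDist (z + (t : ℂ) * v) S ≤ |t| * ‖v‖ := by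
        refine (infDist_le_dist_of_mem hz).trans ?_
        rw [dist_eq_norm, add_sub_cancel_left, norm_mul, Complex.norm_real, Real.norm_eq_abs]
      have h2 : (0 : ℝ) ≤ infDist (z + (t : ℂ) * v) S := infDist_nonneg
      calc infDist (z + (t : ℂ) * v) S ^ 2 ≤ (|t| * ‖v‖) ^ 2 := pow_le_pow_left₀ h2 h1 2
        _ = ‖v‖ ^ 2 * |t ^ 2| := by rw [mul_pow, abs_pow]; ring
    · simpa using Asymptotics.isLittleO_pow_id (𝕜 := ℝ) (n := 2) one_lt_two
  · have hz' : z ∈ Sᶜ := hz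
    obtain ⟨d1, -, -⟩ := h.g1a_diff hz'
    obtain ⟨r1, r2⟩ := h.Dx_Rr hz'
    have hR : HasFDerivAt (Rr ε w) (fderiv ℝ (Rr ε w) z) (z + ((0 : ℝ) : ℂ) * v) := by
      simpa using d1.hasFDerivAt
    have h1 : HasDerivAt (fun t : ℝ => Rr ε w (z + (t : ℂ) * v)) (fderiv ℝ (Rr ε w) z v) 0 := by
      have h0 := hR.comp_hasDerivAt (0 : ℝ) hline
      exact h0
    have h2 := (h1.mul h1).div_const 2
    have hev : (fun t : ℝ => Pp ε S w (z + (t : ℂ) * v)) =ᶠ[𝓝 0] fun t : ℝ =>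
        Rr ε w (z + (t : ℂ) * v) * Rr ε w (z + (t : ℂ) * v) / 2 := by
      have hc : ContinuousAt (fun t : ℝ => z + (t : ℂ) * v) 0 := hline.continuousAt
      have hm : Sᶜ ∈ 𝓝 (z + ((0 : ℝ) : ℂ) * v) := by
        simpa using h.closed.isOpen_compl.mem_nhds hz'
      filter_upwards [hc.preimage_mem_nhds hm] with t ht
      have ht' : z + (t : ℂ) * v ∉ S := ht
      rw [Pp, if_neg ht', pow_two]
    refine (h2.congr_of_eventuallyEq hev).congr_deriv ?_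
    rw [fderiv_eq, r1, r2, g1a_gP_compl ε w hz']
    simp
    ring

/-- The gradient of `P` is Lipschitz with a small constant. Proof: on `Sᶜ` the second derivatives of
`P = ε² e^{-2w} / 2` are bounded by `ε² (2 C² + C) ≤ 1/10000`. If the segment `[z, z']` does not
meet `S` use the mean value inequality; otherwise let `e` be a point of `S` on it and use
`|gP z| ≤ ε² e^{-2w} |∇w| ≤ 2 ε² C² infDist z S ≤ (1/10000) |z - e|` and the same for `z'`. -/
theorem Geo.gP_lip (h : Geo C ε S w) (z z' : ℂ) :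
    ‖gP ε S w z - gP ε S w z'‖ ≤ 1 / 1000 * ‖z - z'‖ := by
  by_cases hS : ∃ e ∈ segment ℝ z z', e ∈ S
  · obtain ⟨e, he, heS⟩ := hS
    have h1 := h.g1a_gP_norm z
    have h2 := h.g1a_gP_norm z'
    have h3 : infDist z S ≤ dist z e := infDist_le_dist_of_mem heS
    have h4 : infDist z' S ≤ dist z' e := infDist_le_dist_of_mem heS
    have h5 : dist z e + dist e z' = dist z z' := dist_add_dist_of_mem_segment he
    rw [dist_comm e z'] at h5
    rw [← dist_eq_norm z z']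
    refine (norm_sub_le _ _).trans ?_
    have h6 : (0 : ℝ) ≤ dist z z' := dist_nonneg
    linarith
  · have hS' : ∀ x ∈ segment ℝ z z', x ∈ Sᶜ := fun x hx hxS => hS ⟨x, hx, hxS⟩
    exact (convex_segment z z').norm_image_sub_le_of_norm_fderiv_le (𝕜 := ℝ)
      (fun x hx => (h.g1a_gP_deriv (hS' x hx)).1) (fun x hx => (h.g1a_gP_deriv (hS' x hx)).2)
      (right_mem_segment ℝ z z') (left_mem_segment ℝ z z')

/-- The map `z ↦ z - gP z` is a homeomorphism of `ℂ` (a small Lipschitz perturbation of the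
identity), the identity on `S`, and equal to `ZZ` on `Sᶜ`. -/
theorem Geo.exists_homeo (h : Geo C ε S w) : ∃ Φ : ℂ ≃ₜ ℂ, (∀ z ∈ S, Φ z = z) ∧
    (∀ z ∈ Sᶜ, Φ z = ZZ ε w z) ∧ (∀ z, Φ z = z - gP ε S w z) ∧
    (∀ z, z ∈ Sᶜ ↔ Φ z ∈ Sᶜ) ∧ ∀ z, ‖Φ z - z‖ ≤ infDist z S / 1000 := by
  have happ : ApproximatesLinearOn (fun z => z - gP ε S w z)
      ((ContinuousLinearEquiv.refl ℝ ℂ : ℂ ≃L[ℝ] ℂ) : ℂ →L[ℝ] ℂ) univ (1 / 1000) := by
    intro x _ y _
    have h1 := h.gP_lip x y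
    have h2 : x - gP ε S w x - (y - gP ε S w y) -
        ((ContinuousLinearEquiv.refl ℝ ℂ : ℂ ≃L[ℝ] ℂ) : ℂ →L[ℝ] ℂ) (x - y) =
        -(gP ε S w x - gP ε S w y) := by
      simp
      ring
    rw [h2, norm_neg]
    simpa using h1
  have hc : Subsingleton ℂ ∨ (1 / 1000 : NNReal) <
      ‖((ContinuousLinearEquiv.refl ℝ ℂ).symm : ℂ →L[ℝ] ℂ)‖₊⁻¹ := by
    right
    have h1 : ‖((ContinuousLinearEquiv.refl ℝ ℂ).symm : ℂ →L[ℝ] ℂ)‖₊ = 1 := by
      have : ((ContinuousLinearEquiv.refl ℝ ℂ).symm : ℂ →L[ℝ] ℂ) = ContinuousLinearMap.id ℝ ℂ := rfl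
      rw [this]
      exact ContinuousLinearMap.nnnorm_id
    rw [h1, inv_one]
    rw [one_div]
    exact inv_lt_one_of_one_lt₀ (by norm_num)
  let Φ : ℂ ≃ₜ ℂ := ApproximatesLinearOn.toHomeomorph (fun z => z - gP ε S w z) happ hc
  have hΦ : ∀ z, Φ z = z - gP ε S w z := fun z => rfl
  have hΦS : ∀ z ∈ S, Φ z = z := by
    intro z hz
    rw [hΦ, gP, if_pos hz, sub_zero]
  refine ⟨Φ, hΦS, ?_, hΦ, ?_, ?_⟩
  · intro z hz
    have hz' : z ∉ S := hz
    rw [hΦ, gP, if_neg hz']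
    ring
  · intro z
    constructor
    · intro hz h2
      exact hz (Φ.injective (hΦS _ h2) ▸ h2)
    · intro hz h2
      rw [hΦS z h2] at hz
      exact hz h2
  · intro z
    have h1 := h.g1a_gP_norm z
    have h2 : (0 : ℝ) ≤ infDist z S := infDist_nonneg
    rw [hΦ, show z - gP ε S w z - z = - gP ε S w z by ring, norm_neg]
    linarith

/-- The supporting property. For `c ∈ Sᶜ` and every `c'`:
`2 P c' - ‖ZZ c - c'‖² ≤ TT c² - (1/2) ‖c - c'‖²`. Proof: `q t = 2 P (c_t) - ‖ZZ c - c_t‖²`,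
`c_t = c + t (c' - c)`, has `q 0 = TT c²` (as `‖ZZ c - c‖² = R² |∇R|²`), `q' 0 = 0`, and
`q' t = 2 ⟨gP c_t - gP c - (c_t - c), c' - c⟩ ≤ - 2 t (1 - 1/1000) ‖c' - c‖²`
(`Geo.gP_lip`, `Geo.hasFDerivAt_Pp`); integrate. -/
theorem Geo.support (h : Geo C ε S w) {c : ℂ} (hc : c ∈ Sᶜ) (c' : ℂ) :
    2 * Pp ε S w c' - ‖ZZ ε w c - c'‖ ^ 2 ≤ TT ε w c ^ 2 - 1 / 2 * ‖c - c'‖ ^ 2 := by
  have hcS : c ∉ S := hc
  have hn2 : ∀ a : ℂ, ‖a‖ ^ 2 = a.re * a.re + a.im * a.im := fun a => by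
    rw [← Complex.normSq_eq_norm_sq, Complex.normSq_apply]
  set u : ℂ := c' - c with hu
  -- derivative along the segment
  have hline : ∀ t : ℝ, HasDerivAt (fun s : ℝ => c + (s : ℂ) * u) u t := by
    intro t
    have := ((hasDerivAt_id t).ofReal_comp.mul_const u).const_add c
    simpa using this
  have hPd : ∀ t : ℝ, HasDerivAt (fun s : ℝ => Pp ε S w (c + (s : ℂ) * u))
      ((gP ε S w (c + (t : ℂ) * u)).re * u.re + (gP ε S w (c + (t : ℂ) * u)).im * u.im) t := by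
    intro t
    have h1 := h.hasFDerivAt_Pp (c + (t : ℂ) * u) u
    have h2 : HasDerivAt (fun s : ℝ => s - t) 1 t := (hasDerivAt_id t).sub_const t
    have h1' : HasDerivAt (fun s : ℝ => Pp ε S w (c + (t : ℂ) * u + (s : ℂ) * u))
      ((gP ε S w (c + (t : ℂ) * u)).re * u.re + (gP ε S w (c + (t : ℂ) * u)).im * u.im)
        (t - t) := by
      rw [sub_self]
      exact h1
    have h3 := HasDerivAt.comp (h₂ := fun s : ℝ => Pp ε S w (c + (t : ℂ) * u + (s : ℂ) * u))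
      (h := fun s : ℝ => s - t) t h1' h2
    rw [mul_one] at h3
    refine h3.congr_of_eventuallyEq (Eventually.of_forall fun s => ?_)
    show Pp ε S w (c + (s : ℂ) * u) = Pp ε S w (c + (t : ℂ) * u + ((s - t : ℝ) : ℂ) * u)
    congr 1
    push_cast
    ring
  have hZ : ZZ ε w c = c - gP ε S w c := by
    rw [gP, if_neg hcS]
    ring
  have hre : ∀ t : ℝ, HasDerivAt (fun s : ℝ => (ZZ ε w c - (c + (s : ℂ) * u)).re) (-u.re) t := by
    intro t
    have h1 : HasDerivAt (fun s : ℝ => (ZZ ε w c).re - c.re - s * u.re) (-(1 * u.re)) t :=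
      ((hasDerivAt_id t).mul_const u.re).const_sub _
    rw [one_mul] at h1
    refine h1.congr_of_eventuallyEq (Eventually.of_forall fun s => ?_)
    simp
    ring
  have him : ∀ t : ℝ, HasDerivAt (fun s : ℝ => (ZZ ε w c - (c + (s : ℂ) * u)).im) (-u.im) t := by
    intro t
    have h1 : HasDerivAt (fun s : ℝ => (ZZ ε w c).im - c.im - s * u.im) (-(1 * u.im)) t :=
      ((hasDerivAt_id t).mul_const u.im).const_sub _
    rw [one_mul] at h1
    refine h1.congr_of_eventuallyEq (Eventually.of_forall fun s => ?_)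
    simp
    ring
  have hsq : ∀ t : ℝ, HasDerivAt (fun s : ℝ => s * s * (‖u‖ ^ 2 / 2)) (t * ‖u‖ ^ 2) t := by
    intro t
    have h1 := ((hasDerivAt_id t).mul (hasDerivAt_id t)).mul_const (‖u‖ ^ 2 / 2)
    refine h1.congr_deriv ?_
    simp
    ring
  let q : ℝ → ℝ := fun s => 2 * Pp ε S w (c + (s : ℂ) * u) -
    ((ZZ ε w c - (c + (s : ℂ) * u)).re * (ZZ ε w c - (c + (s : ℂ) * u)).re +
      (ZZ ε w c - (c + (s : ℂ) * u)).im * (ZZ ε w c - (c + (s : ℂ) * u)).im) +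
    s * s * (‖u‖ ^ 2 / 2)
  have hq : ∀ t : ℝ, HasDerivAt q
      (2 * ((gP ε S w (c + (t : ℂ) * u)).re * u.re + (gP ε S w (c + (t : ℂ) * u)).im * u.im) -
        (((-u.re) * (ZZ ε w c - (c + (t : ℂ) * u)).re + (ZZ ε w c - (c + (t : ℂ) * u)).re * (-u.re)) +
        ((-u.im) * (ZZ ε w c - (c + (t : ℂ) * u)).im + (ZZ ε w c - (c + (t : ℂ) * u)).im * (-u.im)))
        + t * ‖u‖ ^ 2) t := fun t =>
    (((hPd t).const_mul 2).sub (((hre t).mul (hre t)).add ((him t).mul (him t)))).add (hsq t)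
  have hanti : AntitoneOn q (Icc 0 1) := by
    refine antitoneOn_of_deriv_nonpos (convex_Icc 0 1)
      (fun t _ => (hq t).continuousAt.continuousWithinAt)
      (fun t _ => (hq t).differentiableAt.differentiableWithinAt) ?_
    intro t ht
    rw [interior_Icc] at ht
    rw [(hq t).deriv]
    set G : ℂ := gP ε S w (c + (t : ℂ) * u) - gP ε S w c with hG
    have hGn : ‖G‖ ≤ 1 / 1000 * (t * ‖u‖) := by
      have h1 := h.gP_lip (c + (t : ℂ) * u) c
      rw [add_sub_cancel_left, norm_mul, Complex.norm_real, Real.norm_eq_abs,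
        abs_of_pos ht.1] at h1
      exact h1
    have hin : G.re * u.re + G.im * u.im ≤ ‖G‖ * ‖u‖ := by
      have h1 : G.re * u.re + G.im * u.im = (G * (starRingEnd ℂ) u).re := by
        simp
      rw [h1]
      calc (G * (starRingEnd ℂ) u).re ≤ ‖G * (starRingEnd ℂ) u‖ := Complex.re_le_norm _
        _ = ‖G‖ * ‖u‖ := by rw [norm_mul, Complex.norm_conj]
    have hin2 : ‖G‖ * ‖u‖ ≤ 1 / 1000 * (t * ‖u‖ ^ 2) := by
      calc ‖G‖ * ‖u‖ ≤ (1 / 1000 * (t * ‖u‖)) * ‖u‖ :=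
            mul_le_mul_of_nonneg_right hGn (norm_nonneg _)
        _ = 1 / 1000 * (t * ‖u‖ ^ 2) := by ring
    have e : 2 * ((gP ε S w (c + (t : ℂ) * u)).re * u.re + (gP ε S w (c + (t : ℂ) * u)).im * u.im) -
        (((-u.re) * (ZZ ε w c - (c + (t : ℂ) * u)).re + (ZZ ε w c - (c + (t : ℂ) * u)).re * (-u.re)) +
        ((-u.im) * (ZZ ε w c - (c + (t : ℂ) * u)).im + (ZZ ε w c - (c + (t : ℂ) * u)).im * (-u.im)))
        + t * ‖u‖ ^ 2 = 2 * (G.re * u.re + G.im * u.im) - t * ‖u‖ ^ 2 := by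
      rw [hZ, hG, hn2 u]
      simp
      ring
    rw [e]
    have h0 : 0 ≤ t * ‖u‖ ^ 2 := mul_nonneg ht.1.le (by positivity)
    linarith
  have h01 := hanti (left_mem_Icc.2 zero_le_one) (right_mem_Icc.2 zero_le_one) zero_le_one
  have hq1 : q 1 = 2 * Pp ε S w c' - ‖ZZ ε w c - c'‖ ^ 2 + ‖u‖ ^ 2 / 2 := by
    show 2 * Pp ε S w (c + ((1 : ℝ) : ℂ) * u) -
      ((ZZ ε w c - (c + ((1 : ℝ) : ℂ) * u)).re * (ZZ ε w c - (c + ((1 : ℝ) : ℂ) * u)).re +
      (ZZ ε w c - (c + ((1 : ℝ) : ℂ) * u)).im * (ZZ ε w c - (c + ((1 : ℝ) : ℂ) * u)).im) +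
      1 * 1 * (‖u‖ ^ 2 / 2) = _
    rw [← hn2, Complex.ofReal_one, one_mul, hu, add_sub_cancel]
    ring
  have hq0 : q 0 = TT ε w c ^ 2 := by
    show 2 * Pp ε S w (c + ((0 : ℝ) : ℂ) * u) -
      ((ZZ ε w c - (c + ((0 : ℝ) : ℂ) * u)).re * (ZZ ε w c - (c + ((0 : ℝ) : ℂ) * u)).re +
      (ZZ ε w c - (c + ((0 : ℝ) : ℂ) * u)).im * (ZZ ε w c - (c + ((0 : ℝ) : ℂ) * u)).im) +
      0 * 0 * (‖u‖ ^ 2 / 2) = _
    have hg := h.gR_le hc
    rw [Complex.ofReal_zero, zero_mul, add_zero, TT, mul_pow, Real.sq_sqrt (by linarith), Pp,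
      if_neg hcS, gR, ZZ]
    simp [-Complex.ofReal_pow]
    ring
  rw [hq1, hq0] at h01
  have h2 : ‖c - c'‖ = ‖u‖ := by rw [hu, norm_sub_rev]
  rw [h2]
  linarith

/-- For points of `S`. -/
theorem Geo.support_S (h : Geo C ε S w) {z : ℂ} (hz : z ∈ S) {c' : ℂ} (hc' : c' ∈ Sᶜ) :
    Rr ε w c' ^ 2 < ‖z - c'‖ ^ 2 := by
  have h1 := h.Rr_pos c'
  have h2 := h.Rr_le hc'
  have h3 := h.g1a_infDist_pos hc'
  have h4 : infDist c' S ≤ ‖z - c'‖ := by
    refine (infDist_le_dist_of_mem hz).trans ?_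
    rw [dist_comm, dist_eq_norm]
  have h5 : Rr ε w c' < ‖z - c'‖ := by linarith
  exact pow_lt_pow_left₀ h5 h1.le two_ne_zero

end Pool.Agent.KK
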