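import Pool.Agent.W_bb4b37_h53.Geo1A

/-!
# The convex set
-/

set_option autoImplicit false

open Filter Topology Set MeasureTheory Metric
open scoped ContDiff

namespace Pool.Agent.KK

open Pool.Agent.KKS (mink Hyp klein sphere2 sph form gaussK Metric2)

variable {C ε : ℝ} {S : Set ℂ} {w : ℂ → ℝ}

/-- On the hyperboloid the time coordinate is at least one. -/
theorem geo1b_one_le {x : Fin 4 → ℝ} (h : mink x x = -1) (h0 : 0 < x 0) : 1 ≤ x 0 := by
  unfold mink at h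
  nlinarith [sq_nonneg (x 1), sq_nonneg (x 2), sq_nonneg (x 3)]

theorem geo1b_Hyp_closed : IsClosed Hyp := by
  have h1 : Hyp = {x : Fin 4 → ℝ | mink x x = -1 ∧ 1 ≤ x 0} := by
    ext x
    constructor
    · rintro ⟨h, h0⟩
      exact ⟨h, geo1b_one_le h h0⟩
    · rintro ⟨h, h0⟩
      exact ⟨h, by linarith⟩
  rw [h1]
  have hc : Continuous fun x : Fin 4 → ℝ => mink x x := by
    unfold mink
    fun_prop
  exact (isClosed_eq hc continuous_const).inter
    (isClosed_le continuous_const (continuous_apply 0))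

theorem Geo.CC_closed (h : Geo C ε S w) : IsClosed (CC ε S w) := by
  have h1 : CC ε S w = Hyp ∩ ⋂ c ∈ Sᶜ, {x : Fin 4 → ℝ | mink x (Ns ε w c) ≤ 0} := by
    ext x
    simp only [CC, mem_ofPred_eq, mem_inter_iff, mem_iInter]
  rw [h1]
  refine geo1b_Hyp_closed.inter (isClosed_biInter fun c _ => ?_)
  have hc : Continuous fun x : Fin 4 → ℝ => mink x (Ns ε w c) := by
    unfold mink
    fun_prop
  exact isClosed_le hc continuous_const

/-- The Minkowski product in the Klein model. -/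
theorem geo1b_mink {x : Fin 4 → ℝ} (hx : 0 < x 0) (N : Fin 4 → ℝ) :
    mink x N = x 0 * (klein x 0 * N 1 + klein x 1 * N 2 + klein x 2 * N 3 - N 0) := by
  have h0 : klein x 0 = x 1 / x 0 := rfl
  have h1 : klein x 1 = x 2 / x 0 := rfl
  have h2 : klein x 2 = x 3 / x 0 := rfl
  rw [h0, h1, h2]
  unfold mink
  field_simp

/-- The open unit ball is the image of the hyperboloid. -/
theorem geo1b_klein_image (T : Set (Fin 4 → ℝ)) :
    klein '' {x | x ∈ Hyp ∧ ∀ N ∈ T, mink x N ≤ 0} =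
      {p : Fin 3 → ℝ | p 0 ^ 2 + p 1 ^ 2 + p 2 ^ 2 < 1 ∧
        ∀ N ∈ T, p 0 * N 1 + p 1 * N 2 + p 2 * N 3 - N 0 ≤ 0} := by
  ext p
  constructor
  · rintro ⟨x, ⟨⟨hx, hx0⟩, hN⟩, rfl⟩
    refine ⟨?_, fun N hNT => ?_⟩
    · have h0 : klein x 0 = x 1 / x 0 := rfl
      have h1 : klein x 1 = x 2 / x 0 := rfl
      have h2 : klein x 2 = x 3 / x 0 := rfl
      rw [h0, h1, h2, div_pow, div_pow, div_pow, ← add_div, ← add_div, div_lt_one (by positivity)]
      unfold mink at hx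
      nlinarith
    · have h1 := hN N hNT
      rw [geo1b_mink hx0] at h1
      by_contra hc
      push Not at hc
      exact absurd h1 (not_le.2 (mul_pos hx0 hc))
  · rintro ⟨hp, hN⟩
    set r : ℝ := Real.sqrt (1 - (p 0 ^ 2 + p 1 ^ 2 + p 2 ^ 2)) with hr
    have hr0 : 0 < r := Real.sqrt_pos.2 (by linarith)
    have hr2 : r ^ 2 = 1 - (p 0 ^ 2 + p 1 ^ 2 + p 2 ^ 2) := Real.sq_sqrt (by linarith)
    let x : Fin 4 → ℝ := ![1 / r, p 0 / r, p 1 / r, p 2 / r]
    have x0 : x 0 = 1 / r := rfl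
    have x1 : x 1 = p 0 / r := rfl
    have x2 : x 2 = p 1 / r := rfl
    have x3 : x 3 = p 2 / r := rfl
    have hx0 : 0 < x 0 := by rw [x0]; positivity
    have hk : klein x = p := by
      funext i
      fin_cases i
      · show x 1 / x 0 = p 0
        rw [x1, x0]
        field_simp
      · show x 2 / x 0 = p 1
        rw [x2, x0]
        field_simp
      · show x 3 / x 0 = p 2
        rw [x3, x0]
        field_simp
    refine ⟨x, ⟨⟨?_, hx0⟩, fun N hNT => ?_⟩, hk⟩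
    · unfold mink
      rw [x0, x1, x2, x3]
      have : p 0 / r * (p 0 / r) + p 1 / r * (p 1 / r) + p 2 / r * (p 2 / r) - 1 / r * (1 / r) =
          ((p 0 ^ 2 + p 1 ^ 2 + p 2 ^ 2) - 1) / r ^ 2 := by
        field_simp
      rw [this, hr2, div_eq_iff (by linarith)]
      ring
    · rw [geo1b_mink hx0, hk]
      exact mul_nonpos_of_nonneg_of_nonpos hx0.le (hN N hNT)

/-- In the Klein model `CC` is the intersection of the open ball with half spaces. -/
theorem Geo.CC_convex (h : Geo C ε S w) : Convex ℝ (klein '' CC ε S w) := by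
  have h1 : CC ε S w = {x | x ∈ Hyp ∧ ∀ N ∈ (Ns ε w) '' Sᶜ, mink x N ≤ 0} := by
    ext x
    simp only [CC, mem_ofPred_eq, mem_image, forall_exists_index, and_imp,
      forall_apply_eq_imp_iff₂]
  rw [h1, geo1b_klein_image]
  intro p hp q hq a b ha hb hab
  obtain ⟨hp1, hp2⟩ := hp
  obtain ⟨hq1, hq2⟩ := hq
  have e : ∀ i, (a • p + b • q) i = a * p i + b * q i := fun i => rfl
  refine ⟨?_, fun N hN => ?_⟩
  · rw [e, e, e]
    have key : (a * p 0 + b * q 0) ^ 2 + (a * p 1 + b * q 1) ^ 2 + (a * p 2 + b * q 2) ^ 2 ≤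
        a * (p 0 ^ 2 + p 1 ^ 2 + p 2 ^ 2) + b * (q 0 ^ 2 + q 1 ^ 2 + q 2 ^ 2) := by
      have hb' : b = 1 - a := by linarith
      subst hb'
      nlinarith [mul_nonneg (mul_nonneg ha hb) (sq_nonneg (p 0 - q 0)),
        mul_nonneg (mul_nonneg ha hb) (sq_nonneg (p 1 - q 1)),
        mul_nonneg (mul_nonneg ha hb) (sq_nonneg (p 2 - q 2))]
    refine lt_of_le_of_lt key ?_
    rcases ha.eq_or_lt with h0 | h0
    · rw [← h0, zero_add] at hab
      rw [← h0, hab]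
      linarith
    · have h2 : a * (p 0 ^ 2 + p 1 ^ 2 + p 2 ^ 2) < a * 1 := mul_lt_mul_of_pos_left hp1 h0
      have h3 : b * (q 0 ^ 2 + q 1 ^ 2 + q 2 ^ 2) ≤ b * 1 := mul_le_mul_of_nonneg_left hq1.le hb
      linarith
  · rw [e, e, e]
    have h2 := mul_nonpos_of_nonneg_of_nonpos ha (hp2 N hN)
    have h3 := mul_nonpos_of_nonneg_of_nonpos hb (hq2 N hN)
    have h4 : (a * p 0 + b * q 0) * N 1 + (a * p 1 + b * q 1) * N 2 + (a * p 2 + b * q 2) * N 3 -
        N 0 = a * (p 0 * N 1 + p 1 * N 2 + p 2 * N 3 - N 0) +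
          b * (q 0 * N 1 + q 1 * N 2 + q 2 * N 3 - N 0) := by
      linear_combination N 0 * hab
    rw [h4]
    linarith

/-- A half space is convex. -/
theorem geo1b_half (N : Fin 4 → ℝ) :
    Convex ℝ {p : Fin 3 → ℝ | p 0 * N 1 + p 1 * N 2 + p 2 * N 3 - N 0 ≤ 0} := by
  intro p hp q hq a b ha hb hab
  simp only [mem_ofPred_eq] at hp hq ⊢
  have e : ∀ i, (a • p + b • q) i = a * p i + b * q i := fun i => rfl
  rw [e, e, e]
  have h2 := mul_nonpos_of_nonneg_of_nonpos ha hp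
  have h3 := mul_nonpos_of_nonneg_of_nonpos hb hq
  have h4 : (a * p 0 + b * q 0) * N 1 + (a * p 1 + b * q 1) * N 2 + (a * p 2 + b * q 2) * N 3 -
      N 0 = a * (p 0 * N 1 + p 1 * N 2 + p 2 * N 3 - N 0) +
        b * (q 0 * N 1 + q 1 * N 2 + q 2 * N 3 - N 0) := by
    linear_combination N 0 * hab
  rw [h4]
  linarith

theorem geo1b_normsq (z c : ℂ) : ‖z - c‖ ^ 2 = (z.re - c.re) ^ 2 + (z.im - c.im) ^ 2 := by
  rw [← Complex.normSq_eq_norm_sq, Complex.normSq_apply, Complex.sub_re, Complex.sub_im]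
  ring

theorem geo1b_normsq' (z : ℂ) : ‖z‖ ^ 2 = z.re ^ 2 + z.im ^ 2 := by
  rw [← Complex.normSq_eq_norm_sq, Complex.normSq_apply]
  ring

/-- `CC` contains the convex hull of `S ∪ {∞}`: the closed half spaces (in the Klein model) contain
`sph p` for `p ∈ S ∪ {∞}` (`Geo.support_S`). -/
theorem Geo.CC_hull (h : Geo C ε S w) (x : Fin 4 → ℝ) (hx : x ∈ Hyp)
    (hk : klein x ∈ convexHull ℝ (sph '' (OnePoint.some '' Sᶜ)ᶜ)) : x ∈ CC ε S w := by
  refine ⟨hx, fun c hc => ?_⟩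
  have hR : 0 < Rr ε w c := h.Rr_pos c
  have hsub : convexHull ℝ (sph '' (OnePoint.some '' Sᶜ)ᶜ) ⊆
      {p : Fin 3 → ℝ | p 0 * Ns ε w c 1 + p 1 * Ns ε w c 2 + p 2 * Ns ε w c 3 - Ns ε w c 0 ≤ 0} := by
    refine convexHull_min ?_ (geo1b_half _)
    rintro _ ⟨q, hq, rfl⟩
    have n0 : Ns ε w c 0 = (‖c‖ ^ 2 - Rr ε w c ^ 2 + 1) / (2 * Rr ε w c) := rfl
    have n1 : Ns ε w c 1 = c.re / Rr ε w c := rfl
    have n2 : Ns ε w c 2 = c.im / Rr ε w c := rfl
    have n3 : Ns ε w c 3 = (‖c‖ ^ 2 - Rr ε w c ^ 2 - 1) / (2 * Rr ε w c) := rfl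
    simp only [mem_ofPred_eq]
    rw [n0, n1, n2, n3]
    have hsup : ∀ z ∈ S, Rr ε w c ^ 2 < ‖z - c‖ ^ 2 := fun z hz => h.support_S hz hc
    generalize Rr ε w c = R at hR hsup
    induction q using OnePoint.rec with
    | infty =>
      have s0 : sph (OnePoint.infty : OnePoint ℂ) 0 = 0 := rfl
      have s1 : sph (OnePoint.infty : OnePoint ℂ) 1 = 0 := rfl
      have s2 : sph (OnePoint.infty : OnePoint ℂ) 2 = 1 := rfl
      rw [s0, s1, s2]
      have : 0 * (c.re / R) + 0 * (c.im / R) + 1 * ((‖c‖ ^ 2 - R ^ 2 - 1) / (2 * R)) -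
          (‖c‖ ^ 2 - R ^ 2 + 1) / (2 * R) = -(1 / R) := by
        field_simp
        ring
      rw [this]
      have : 0 < 1 / R := by positivity
      linarith
    | coe z =>
      have hz : z ∈ S := by
        by_contra hzS
        exact hq ⟨z, hzS, rfl⟩
      have h1 := hsup z hz
      rw [geo1b_normsq] at h1
      have s0 : sph (z : OnePoint ℂ) 0 = 2 * z.re / (‖z‖ ^ 2 + 1) := rfl
      have s1 : sph (z : OnePoint ℂ) 1 = 2 * z.im / (‖z‖ ^ 2 + 1) := rfl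
      have s2 : sph (z : OnePoint ℂ) 2 = (‖z‖ ^ 2 - 1) / (‖z‖ ^ 2 + 1) := rfl
      rw [s0, s1, s2, geo1b_normsq', geo1b_normsq']
      have hz1 : 0 < z.re ^ 2 + z.im ^ 2 + 1 := by positivity
      have : 2 * z.re / (z.re ^ 2 + z.im ^ 2 + 1) * (c.re / R) +
          2 * z.im / (z.re ^ 2 + z.im ^ 2 + 1) * (c.im / R) +
          (z.re ^ 2 + z.im ^ 2 - 1) / (z.re ^ 2 + z.im ^ 2 + 1) *
            ((c.re ^ 2 + c.im ^ 2 - R ^ 2 - 1) / (2 * R)) -
          (c.re ^ 2 + c.im ^ 2 - R ^ 2 + 1) / (2 * R) =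
          (R ^ 2 - ((z.re - c.re) ^ 2 + (z.im - c.im) ^ 2)) / (R * (z.re ^ 2 + z.im ^ 2 + 1)) := by
        field_simp
        ring
      rw [this]
      exact div_nonpos_of_nonpos_of_nonneg (by linarith) (by positivity)
  have h2 := hsub hk
  rw [geo1b_mink hx.2]
  exact mul_nonpos_of_nonneg_of_nonpos hx.2.le h2

/-- The square of the height. -/
theorem geo1b_TT (h : Geo C ε S w) {c : ℂ} (hc : c ∈ Sᶜ) :
    TT ε w c ^ 2 = Rr ε w c ^ 2 - ‖ZZ ε w c - c‖ ^ 2 := by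
  have h1 : gR ε w c ≤ 1 := (h.gR_le hc).trans (by norm_num)
  have h2 : ‖ZZ ε w c - c‖ ^ 2 = Rr ε w c ^ 2 * gR ε w c := by
    unfold ZZ gR
    rw [add_sub_cancel_left, norm_mul, mul_pow, Complex.norm_real, Real.norm_eq_abs, sq_abs,
      geo1b_normsq']
    simp
    ring
  unfold TT
  rw [mul_pow, Real.sq_sqrt (by linarith), h2]
  ring

/-- Description of `CC`: `hyp z t ∈ CC` iff `z ∈ S` or `t ≥ TT c` where `z = ZZ c`. -/
theorem Geo.mem_CC_iff (h : Geo C ε S w) {t : ℝ} (ht : 0 < t) :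
    (∀ z ∈ S, hyp z t ∈ CC ε S w) ∧
    ∀ c ∈ Sᶜ, (hyp (ZZ ε w c) t ∈ CC ε S w ↔ TT ε w c ≤ t) := by
  refine ⟨fun z hz => ⟨hyp_mem ht, fun c hc => ?_⟩, fun c hc => ⟨fun hm => ?_, fun hT => ?_⟩⟩
  · have hR := h.Rr_pos c
    have h1 := h.support_S hz hc
    show mink (hyp z t) (dsp c (Rr ε w c)) ≤ 0
    rw [mink_hyp_dsp ht.ne' hR.ne']
    refine div_nonpos_of_nonpos_of_nonneg ?_ (by positivity)
    nlinarith [sq_nonneg t]
  · have hR := h.Rr_pos c
    have h1 : mink (hyp (ZZ ε w c) t) (dsp c (Rr ε w c)) ≤ 0 := hm.2 c hc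
    rw [mink_hyp_dsp ht.ne' hR.ne', div_nonpos_iff] at h1
    have hpos : 0 < 2 * t * Rr ε w c := by positivity
    have h2 : Rr ε w c ^ 2 - t ^ 2 - ‖ZZ ε w c - c‖ ^ 2 ≤ 0 := by
      rcases h1 with h1 | h1
      · exact absurd h1.2 (not_le.2 hpos)
      · exact h1.1
    have h3 := geo1b_TT h hc
    have h4 := h.TT_pos hc
    nlinarith
  · refine ⟨hyp_mem ht, fun c' hc' => ?_⟩
    have hR := h.Rr_pos c'
    show mink (hyp (ZZ ε w c) t) (dsp c' (Rr ε w c')) ≤ 0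
    rw [mink_hyp_dsp ht.ne' hR.ne']
    refine div_nonpos_of_nonpos_of_nonneg ?_ (by positivity)
    have h1 := h.support hc c'
    have h2 : 2 * Pp ε S w c' = Rr ε w c' ^ 2 := by
      unfold Pp
      rw [if_neg hc']
      ring
    rw [h2] at h1
    have h4 := h.TT_pos hc
    nlinarith [sq_nonneg ‖c - c'‖]

end Pool.Agent.KK
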