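import Pool.Agent.W_bb4b37_h53.Geo1B

/-!
# Frontier, embedding, ideal boundary
-/

set_option autoImplicit false

open Filter Topology Set MeasureTheory Metric
open scoped ContDiff

namespace Pool.Agent.KK

open Pool.Agent.KKS (mink Hyp klein sphere2 sph form gaussK Metric2)

variable {C ε : ℝ} {S : Set ℂ} {w : ℂ → ℝ}

/-- height of a point of the hyperboloid -/
noncomputable def g1cT (x : Fin 4 → ℝ) : ℝ := 1 / (x 0 - x 3)

/-- horizontal coordinate of a point of the hyperboloid -/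
noncomputable def g1cZ (x : Fin 4 → ℝ) : ℂ :=
  ((1 / (x 0 - x 3) * x 1 : ℝ) : ℂ) + Complex.I * ((1 / (x 0 - x 3) * x 2 : ℝ) : ℂ)

theorem g1c_hyp {z : ℂ} {t : ℝ} (ht : 0 < t) : g1cZ (hyp z t) = z ∧ g1cT (hyp z t) = t := by
  obtain ⟨h1, h2⟩ := exists_hyp (hyp_mem (z := z) ht)
  have h3 := hyp_inj ht (one_div_pos.2 h1) h2
  exact ⟨h3.1.symm, h3.2.symm⟩

theorem g1c_contT {x : Fin 4 → ℝ} (hx : 0 < x 0 - x 3) : ContinuousAt g1cT x := by
  unfold g1cT
  exact ContinuousAt.div continuousAt_const (by fun_prop) hx.ne'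

theorem g1c_contZ {x : Fin 4 → ℝ} (hx : 0 < x 0 - x 3) : ContinuousAt g1cZ x := by
  have hT : ContinuousAt (fun x : Fin 4 → ℝ => 1 / (x 0 - x 3)) x := g1c_contT hx
  unfold g1cZ
  refine ContinuousAt.add ?_ (ContinuousAt.mul continuousAt_const ?_)
  · exact Complex.continuous_ofReal.continuousAt.comp (hT.mul (continuous_apply 1).continuousAt)
  · exact Complex.continuous_ofReal.continuousAt.comp (hT.mul (continuous_apply 2).continuousAt)

theorem g1c_cont_hyp {z : ℂ} {t : ℝ} (ht : 0 < t) :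
    ContinuousAt (fun q : ℂ × ℝ => hyp q.1 q.2) (z, t) := by
  have h2 : (2 * t) ≠ 0 := by positivity
  rw [continuousAt_pi]
  intro i
  fin_cases i
  · show ContinuousAt (fun q : ℂ × ℝ => (‖q.1‖ ^ 2 + q.2 ^ 2 + 1) / (2 * q.2)) (z, t)
    exact ContinuousAt.div (by fun_prop) (by fun_prop) h2
  · show ContinuousAt (fun q : ℂ × ℝ => q.1.re / q.2) (z, t)
    exact ContinuousAt.div (Complex.continuous_re.comp continuous_fst).continuousAt
      (by fun_prop) ht.ne'
  · show ContinuousAt (fun q : ℂ × ℝ => q.1.im / q.2) (z, t)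
    exact ContinuousAt.div (Complex.continuous_im.comp continuous_fst).continuousAt
      (by fun_prop) ht.ne'
  · show ContinuousAt (fun q : ℂ × ℝ => (‖q.1‖ ^ 2 + q.2 ^ 2 - 1) / (2 * q.2)) (z, t)
    exact ContinuousAt.div (by fun_prop) (by fun_prop) h2

/-- The height of the surface as a function on the plane, `0` on `S`. -/
theorem Geo.exists_tau (h : Geo C ε S w) : ∃ (Φ : ℂ ≃ₜ ℂ) (τ : ℂ → ℝ), Continuous τ ∧
    (∀ z ∈ S, τ z = 0) ∧ (∀ z ∈ S, Φ z = z) ∧
    (∀ c ∈ Sᶜ, Φ c = ZZ ε w c ∧ τ (Φ c) = TT ε w c) ∧ (∀ z, z ∈ Sᶜ ↔ Φ z ∈ Sᶜ) ∧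
    (∀ z, ‖Φ z - z‖ ≤ infDist z S / 1000) ∧
    ∀ z t, 0 < t → (hyp z t ∈ CC ε S w ↔ τ z ≤ t) := by
  classical
  obtain ⟨Φ, hΦS, hΦc, -, hΦiff, hΦd⟩ := h.exists_homeo
  have hsymm : ∀ z ∈ Sᶜ, Φ.symm z ∈ Sᶜ := by
    intro z hz
    rw [hΦiff, Φ.apply_symm_apply]
    exact hz
  have hsymmS : ∀ z ∈ S, Φ.symm z = z := by
    intro z hz
    rw [Φ.symm_apply_eq]
    exact (hΦS z hz).symm
  let τ : ℂ → ℝ := fun z => if z ∈ S then 0 else TT ε w (Φ.symm z)
  have hτS : ∀ z ∈ S, τ z = 0 := fun z hz => if_pos hz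
  have hτc : ∀ z ∈ Sᶜ, τ z = TT ε w (Φ.symm z) := fun z hz => if_neg hz
  have hτ0 : ∀ z, 0 ≤ τ z := by
    intro z
    by_cases hz : z ∈ S
    · rw [hτS z hz]
    · rw [hτc z hz]
      exact (h.TT_pos (hsymm z hz)).le
  have hTT : ∀ c ∈ Sᶜ, TT ε w c ≤ infDist c S := by
    intro c hc
    have h1 := h.Rr_le hc
    have h2 := h.Rr_pos c
    have h3 : Real.sqrt (1 - gR ε w c) ≤ 1 := by
      rw [Real.sqrt_le_one]
      have h4 : 0 ≤ gR ε w c := by unfold gR; positivity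
      linarith
    have h5 : 0 ≤ infDist c S := infDist_nonneg
    unfold TT
    nlinarith
  have hτle : ∀ z, τ z ≤ infDist (Φ.symm z) S := by
    intro z
    by_cases hz : z ∈ S
    · rw [hτS z hz]
      exact infDist_nonneg
    · rw [hτc z hz]
      exact hTT _ (hsymm z hz)
  have hcontTT : ∀ c ∈ Sᶜ, ContinuousAt (TT ε w) c := by
    intro c hc
    exact (h.smooth_all.2.2.2.1.continuousOn c hc).continuousAt
      (h.closed.isOpen_compl.mem_nhds hc)
  have hcont : Continuous τ := by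
    rw [continuous_iff_continuousAt]
    intro z
    by_cases hz : z ∈ S
    · have h1 : Tendsto (fun z' => infDist (Φ.symm z') S) (𝓝 z) (𝓝 0) := by
        have h2 : Continuous fun z' => infDist (Φ.symm z') S :=
          (continuous_infDist_pt S).comp Φ.symm.continuous
        have h3 := h2.tendsto z
        rw [hsymmS z hz, infDist_zero_of_mem hz] at h3
        exact h3
      rw [ContinuousAt, hτS z hz]
      exact squeeze_zero hτ0 hτle h1
    · have h1 : ContinuousAt (fun z' => TT ε w (Φ.symm z')) z :=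
        ContinuousAt.comp (f := Φ.symm) (g := TT ε w) (hcontTT _ (hsymm z hz))
          Φ.symm.continuous.continuousAt
      refine h1.congr ?_
      filter_upwards [h.closed.isOpen_compl.mem_nhds hz] with z' hz'
      exact (hτc z' hz').symm
  refine ⟨Φ, τ, hcont, hτS, hΦS, ?_, hΦiff, hΦd, ?_⟩
  · intro c hc
    refine ⟨hΦc c hc, ?_⟩
    rw [hτc _ ((hΦiff c).1 hc), Φ.symm_apply_apply]
  · intro z t ht
    obtain ⟨h1, h2⟩ := h.mem_CC_iff ht
    by_cases hz : z ∈ S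
    · rw [hτS z hz]
      exact ⟨fun _ => ht.le, fun _ => h1 z hz⟩
    · have h3 := h2 _ (hsymm z hz)
      rw [← hΦc _ (hsymm z hz), Φ.apply_symm_apply] at h3
      rw [h3, hτc z hz]

theorem Geo.g1c_Xs (h : Geo C ε S w) {c : ℂ} (hc : c ∈ Sᶜ) :
    g1cZ (Xs ε w c) = ZZ ε w c ∧ g1cT (Xs ε w c) = TT ε w c := g1c_hyp (h.TT_pos hc)

/-- The boundary of `CC` in `Hyp` is the `K`-surface. -/
theorem Geo.frontier_CC (h : Geo C ε S w) :
    Xs ε w '' Sᶜ = {x ∈ CC ε S w | x ∈ closure (Hyp \ CC ε S w)} := by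
  obtain ⟨Φ, τ, hτ, hτS, hΦS, hΦc, hΦiff, -, hCC⟩ := h.exists_tau
  apply Set.Subset.antisymm
  · rintro x ⟨c, hc, rfl⟩
    obtain ⟨h1, h2⟩ := hΦc c hc
    have hT := h.TT_pos hc
    refine ⟨(hCC _ _ hT).2 (by rw [← h1, h2]), ?_⟩
    -- points just below
    have h3 : Tendsto (fun t : ℝ => hyp (ZZ ε w c) t) (𝓝[<] (TT ε w c)) (𝓝 (Xs ε w c)) := by
      have h4 : ContinuousAt (fun t : ℝ => hyp (ZZ ε w c) t) (TT ε w c) :=
        ContinuousAt.comp (f := fun t : ℝ => (ZZ ε w c, t)) (g := fun q : ℂ × ℝ => hyp q.1 q.2)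
          (g1c_cont_hyp hT) (by fun_prop)
      exact h4.tendsto.mono_left nhdsWithin_le_nhds
    refine mem_closure_of_tendsto h3 ?_
    have h5 : ∀ᶠ t in 𝓝[<] (TT ε w c), 0 < t :=
      (eventually_gt_nhds hT).filter_mono nhdsWithin_le_nhds
    filter_upwards [h5, self_mem_nhdsWithin] with t ht0 htT
    refine ⟨hyp_mem ht0, fun hcc => ?_⟩
    have h6 := (hCC _ _ ht0).1 hcc
    rw [← h1, h2] at h6
    exact absurd h6 (not_le.2 htT)
  · rintro x ⟨hx, hcl⟩
    have hxH : x ∈ Hyp := hx.1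
    obtain ⟨hpos, hxe⟩ := exists_hyp hxH
    change x = hyp (g1cZ x) (g1cT x) at hxe
    have hTx : 0 < g1cT x := one_div_pos.2 hpos
    have hle : τ (g1cZ x) ≤ g1cT x := by
      rw [← hCC _ _ hTx, ← hxe]
      exact hx
    have hge : g1cT x ≤ τ (g1cZ x) := by
      obtain ⟨u, hu, hux⟩ := mem_closure_iff_seq_limit.1 hcl
      have h1 : Tendsto (fun n => g1cT (u n)) atTop (𝓝 (g1cT x)) :=
        (g1c_contT hpos).tendsto.comp hux
      have h2 : Tendsto (fun n => τ (g1cZ (u n))) atTop (𝓝 (τ (g1cZ x))) :=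
        (hτ.tendsto _).comp ((g1c_contZ hpos).tendsto.comp hux)
      refine le_of_tendsto_of_tendsto' h1 h2 fun n => ?_
      obtain ⟨hun, hnc⟩ := hu n
      obtain ⟨hposn, hun2⟩ := exists_hyp hun
      change u n = hyp (g1cZ (u n)) (g1cT (u n)) at hun2
      have hTn : 0 < g1cT (u n) := one_div_pos.2 hposn
      by_contra hlt
      push Not at hlt
      apply hnc
      rw [hun2]
      exact (hCC _ _ hTn).2 hlt.le
    have heq : τ (g1cZ x) = g1cT x := le_antisymm hle hge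
    have hz : g1cZ x ∈ Sᶜ := by
      intro hzS
      rw [hτS _ hzS] at heq
      exact absurd heq hTx.ne
    have hc : Φ.symm (g1cZ x) ∈ Sᶜ := by
      rw [hΦiff, Φ.apply_symm_apply]
      exact hz
    obtain ⟨h1, h2⟩ := hΦc _ hc
    rw [Φ.apply_symm_apply] at h1 h2
    refine ⟨Φ.symm (g1cZ x), hc, ?_⟩
    rw [Xs, ← h1, ← h2, heq]
    exact hxe.symm

/-- `Xs` restricted to `Sᶜ` is an embedding. -/
theorem Geo.embedding (h : Geo C ε S w) :
    Topology.IsEmbedding (fun z : (Sᶜ : Set ℂ) => Xs ε w z) := by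
  obtain ⟨Φ, τ, -, -, -, hΦc, -, -, -⟩ := h.exists_tau
  let U : Set (Fin 4 → ℝ) := {x | 0 < x 0 - x 3}
  have hU : ∀ z : (Sᶜ : Set ℂ), Xs ε w z ∈ U := by
    intro z
    exact (exists_hyp (hyp_mem (h.TT_pos z.2))).1
  have hcontX : Continuous (fun z : (Sᶜ : Set ℂ) => Xs ε w z) := by
    rw [continuous_iff_continuousAt]
    intro z
    have h1 := (h.smooth_all.2.2.2.2.1.continuousOn z z.2).continuousAt
      (h.closed.isOpen_compl.mem_nhds z.2)
    exact ContinuousAt.comp (f := fun z : (Sᶜ : Set ℂ) => (z : ℂ)) (g := Xs ε w) h1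
      continuous_subtype_val.continuousAt
  let f : (Sᶜ : Set ℂ) → U := fun z => ⟨Xs ε w z, hU z⟩
  let g : U → ℂ := fun x => Φ.symm (g1cZ x)
  have hf : Continuous f := Continuous.subtype_mk hcontX _
  have hg : Continuous g := by
    refine Φ.symm.continuous.comp ?_
    rw [continuous_iff_continuousAt]
    intro x
    exact ContinuousAt.comp (f := fun x : U => (x : Fin 4 → ℝ)) (g := g1cZ) (g1c_contZ x.2)
      continuous_subtype_val.continuousAt
  have hgf : g ∘ f = (Subtype.val : (Sᶜ : Set ℂ) → ℂ) := by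
    funext z
    show Φ.symm (g1cZ (Xs ε w z)) = z
    rw [(h.g1c_Xs z.2).1, ← (hΦc z z.2).1, Φ.symm_apply_apply]
  have h1 : Topology.IsEmbedding f := by
    refine Topology.IsEmbedding.of_comp hf hg ?_
    rw [hgf]
    exact Topology.IsEmbedding.subtypeVal
  exact Topology.IsEmbedding.subtypeVal.comp h1

/-- the Klein model in the coordinates of the upper half space -/
noncomputable def g1cK (z : ℂ) (t : ℝ) : Fin 3 → ℝ :=
  ![2 * z.re / (‖z‖ ^ 2 + t ^ 2 + 1), 2 * z.im / (‖z‖ ^ 2 + t ^ 2 + 1),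
      (‖z‖ ^ 2 + t ^ 2 - 1) / (‖z‖ ^ 2 + t ^ 2 + 1)]

theorem g1c_contK : Continuous (fun q : ℂ × ℝ => g1cK q.1 q.2) := by
  rw [continuous_pi_iff]
  intro i
  have h0 : ∀ q : ℂ × ℝ, ‖q.1‖ ^ 2 + q.2 ^ 2 + 1 ≠ 0 := fun q => by positivity
  have hre : Continuous fun q : ℂ × ℝ => q.1.re := Complex.continuous_re.comp continuous_fst
  have him : Continuous fun q : ℂ × ℝ => q.1.im := Complex.continuous_im.comp continuous_fst
  fin_cases i
  · show Continuous (fun q : ℂ × ℝ => 2 * q.1.re / (‖q.1‖ ^ 2 + q.2 ^ 2 + 1))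
    exact Continuous.div (continuous_const.mul hre) (by fun_prop) h0
  · show Continuous (fun q : ℂ × ℝ => 2 * q.1.im / (‖q.1‖ ^ 2 + q.2 ^ 2 + 1))
    exact Continuous.div (continuous_const.mul him) (by fun_prop) h0
  · show Continuous (fun q : ℂ × ℝ => (‖q.1‖ ^ 2 + q.2 ^ 2 - 1) / (‖q.1‖ ^ 2 + q.2 ^ 2 + 1))
    exact Continuous.div (by fun_prop) (by fun_prop) h0

theorem g1c_K_sphere {z : ℂ} {t : ℝ} (h : g1cK z t ∈ sphere2) : t = 0 := by
  have h0 : 0 < ‖z‖ ^ 2 + t ^ 2 + 1 := by positivity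
  have h1 : (2 * z.re / (‖z‖ ^ 2 + t ^ 2 + 1)) ^ 2 + (2 * z.im / (‖z‖ ^ 2 + t ^ 2 + 1)) ^ 2 +
      ((‖z‖ ^ 2 + t ^ 2 - 1) / (‖z‖ ^ 2 + t ^ 2 + 1)) ^ 2 = 1 := h
  have h2 : ‖z‖ ^ 2 = z.re ^ 2 + z.im ^ 2 := by
    rw [Complex.sq_norm, Complex.normSq_apply]
    ring
  rw [div_pow, div_pow, div_pow, ← add_div, ← add_div, div_eq_one_iff_eq (by positivity)] at h1
  have h3 : t ^ 2 = 0 := by nlinarith
  exact pow_eq_zero_iff two_ne_zero |>.1 h3

theorem g1c_K_zero (z : ℂ) : g1cK z 0 = sph (z : OnePoint ℂ) := by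
  show g1cK z 0 = ![2 * z.re / (‖z‖ ^ 2 + 1), 2 * z.im / (‖z‖ ^ 2 + 1),
      (‖z‖ ^ 2 - 1) / (‖z‖ ^ 2 + 1)]
  unfold g1cK
  simp

theorem g1c_sph_mem (z : ℂ) : sph (z : OnePoint ℂ) ∈ sphere2 := by
  show (2 * z.re / (‖z‖ ^ 2 + 1)) ^ 2 + (2 * z.im / (‖z‖ ^ 2 + 1)) ^ 2 +
      ((‖z‖ ^ 2 - 1) / (‖z‖ ^ 2 + 1)) ^ 2 = 1
  have h2 : ‖z‖ ^ 2 = z.re ^ 2 + z.im ^ 2 := by
    rw [Complex.sq_norm, Complex.normSq_apply]
    ring
  have h0 : 0 < ‖z‖ ^ 2 + 1 := by positivity
  rw [div_pow, div_pow, div_pow, ← add_div, ← add_div, div_eq_one_iff_eq (by positivity)]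
  rw [h2]
  ring

/-- the frontier of the open dense set -/
theorem Geo.g1c_frontier (h : Geo C ε S w) :
    frontier (OnePoint.some '' Sᶜ : Set (OnePoint ℂ)) = (OnePoint.some '' Sᶜ)ᶜ := by
  have ho : IsOpen (OnePoint.some '' Sᶜ : Set (OnePoint ℂ)) :=
    OnePoint.isOpen_image_coe.2 h.closed.isOpen_compl
  have hd : Dense (OnePoint.some '' Sᶜ : Set (OnePoint ℂ)) :=
    (OnePoint.denseRange_coe).dense_image OnePoint.continuous_coe h.dense
  rw [ho.frontier_eq, hd.closure_eq]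
  exact (Set.compl_eq_univ_sdiff _).symm

/-- far away points of the upper half space are close to the point at infinity -/
theorem g1c_K_infty {z : ℕ → ℂ} {t : ℕ → ℝ} (hz : Tendsto (fun n => ‖z n‖) atTop atTop) :
    Tendsto (fun n => g1cK (z n) (t n)) atTop (𝓝 (sph OnePoint.infty)) := by
  have hi : Tendsto (fun n => ‖z n‖⁻¹) atTop (𝓝 0) := tendsto_inv_atTop_zero.comp hz
  have hi2 : Tendsto (fun n => 2 * ‖z n‖⁻¹) atTop (𝓝 0) := by
    simpa using hi.const_mul 2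
  have hev : ∀ᶠ n in atTop, 1 ≤ ‖z n‖ := hz.eventually_ge_atTop 1
  have key : ∀ᶠ n in atTop, 2 * ‖z n‖ / (‖z n‖ ^ 2 + t n ^ 2 + 1) ≤ 2 * ‖z n‖⁻¹ ∧
      2 / (‖z n‖ ^ 2 + t n ^ 2 + 1) ≤ 2 * ‖z n‖⁻¹ := by
    filter_upwards [hev] with n hn
    have h0 : 0 < ‖z n‖ := by linarith
    have h1 : 0 < ‖z n‖ ^ 2 + t n ^ 2 + 1 := by positivity
    have h2 := sq_nonneg (t n)
    rw [← div_eq_mul_inv]
    constructor
    · rw [div_le_div_iff₀ h1 h0]
      nlinarith
    · rw [div_le_div_iff₀ h1 h0]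
      nlinarith
  rw [tendsto_pi_nhds]
  intro i
  fin_cases i
  · show Tendsto (fun n => 2 * (z n).re / (‖z n‖ ^ 2 + t n ^ 2 + 1)) atTop (𝓝 0)
    refine squeeze_zero_norm' ?_ hi2
    filter_upwards [key] with n hn
    refine le_trans ?_ hn.1
    have h1 : 0 < ‖z n‖ ^ 2 + t n ^ 2 + 1 := by positivity
    rw [norm_div, norm_mul, Real.norm_of_nonneg h1.le, Real.norm_two, Real.norm_eq_abs]
    have := Complex.abs_re_le_norm (z n)
    gcongr
  · show Tendsto (fun n => 2 * (z n).im / (‖z n‖ ^ 2 + t n ^ 2 + 1)) atTop (𝓝 0)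
    refine squeeze_zero_norm' ?_ hi2
    filter_upwards [key] with n hn
    refine le_trans ?_ hn.1
    have h1 : 0 < ‖z n‖ ^ 2 + t n ^ 2 + 1 := by positivity
    rw [norm_div, norm_mul, Real.norm_of_nonneg h1.le, Real.norm_two, Real.norm_eq_abs]
    have := Complex.abs_im_le_norm (z n)
    gcongr
  · show Tendsto (fun n => (‖z n‖ ^ 2 + t n ^ 2 - 1) / (‖z n‖ ^ 2 + t n ^ 2 + 1)) atTop (𝓝 1)
    have h3 : Tendsto (fun n => 2 / (‖z n‖ ^ 2 + t n ^ 2 + 1)) atTop (𝓝 0) := by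
      refine squeeze_zero' ?_ ?_ hi2
      · exact Eventually.of_forall fun n => by positivity
      · filter_upwards [key] with n hn
        exact hn.2
    have h4 := h3.const_sub 1
    rw [sub_zero] at h4
    refine h4.congr fun n => ?_
    have h1 : ‖z n‖ ^ 2 + t n ^ 2 + 1 ≠ 0 := by positivity
    field_simp
    ring

/-- The ideal boundary of the surface is `S ∪ {∞}`. Let `c n ∈ Sᶜ` with
`klein (Xs (c n)) → q ∈ sphere2`. If `c n` has a bounded subsequence, a limit point `c` of it cannot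
be in `Sᶜ`, so it is in `S`, `ZZ (c n) → c`, `TT (c n) → 0` and `q = sph c`; otherwise
`|ZZ (c n)| → ∞` and `q = sph ∞`. Conversely `Sᶜ` is dense (and unbounded). -/
theorem Geo.ideal (h : Geo C ε S w) :
    closure (klein '' (Xs ε w '' Sᶜ)) ∩ sphere2 =
      sph '' (frontier (OnePoint.some '' Sᶜ : Set (OnePoint ℂ))) := by
  obtain ⟨Φ, τ, hτ, hτS, hΦS, hΦc, hΦiff, hΦd, hCC⟩ := h.exists_tau
  have hK : ∀ c ∈ Sᶜ, klein (Xs ε w c) = g1cK (Φ c) (τ (Φ c)) := by
    intro c hc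
    obtain ⟨h1, h2⟩ := hΦc c hc
    rw [Xs, klein_hyp (h.TT_pos hc), h1, ← h1, h2]
    rfl
  have hcK : Continuous (fun z : ℂ => g1cK z (τ z)) :=
    g1c_contK.comp (continuous_id.prodMk hτ)
  rw [h.g1c_frontier]
  apply Set.Subset.antisymm
  · rintro q ⟨hq, hqs⟩
    obtain ⟨u, hu, huq⟩ := mem_closure_iff_seq_limit.1 hq
    have hu' : ∀ n, ∃ z : ℂ, u n = g1cK z (τ z) := by
      intro n
      obtain ⟨x, ⟨c, hc, rfl⟩, hx⟩ := hu n
      exact ⟨Φ c, by rw [← hx, hK c hc]⟩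
    choose z hz using hu'
    have hm : ∀ n, 0 < ‖z n‖ ^ 2 + τ (z n) ^ 2 + 1 := fun n => by positivity
    have h2 : Tendsto (fun n => u n 2) atTop (𝓝 (q 2)) := (tendsto_pi_nhds.1 huq) 2
    have h0 : Tendsto (fun n => u n 0) atTop (𝓝 (q 0)) := (tendsto_pi_nhds.1 huq) 0
    have h1 : Tendsto (fun n => u n 1) atTop (𝓝 (q 1)) := (tendsto_pi_nhds.1 huq) 1
    have e2 : ∀ n, u n 2 = 1 - 2 / (‖z n‖ ^ 2 + τ (z n) ^ 2 + 1) := by
      intro n
      rw [hz n]
      show (‖z n‖ ^ 2 + τ (z n) ^ 2 - 1) / (‖z n‖ ^ 2 + τ (z n) ^ 2 + 1) = _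
      have := (hm n).ne'
      field_simp
      ring
    have e0 : ∀ n, u n 0 = 2 * (z n).re / (‖z n‖ ^ 2 + τ (z n) ^ 2 + 1) := by
      intro n
      rw [hz n]
      rfl
    have e1 : ∀ n, u n 1 = 2 * (z n).im / (‖z n‖ ^ 2 + τ (z n) ^ 2 + 1) := by
      intro n
      rw [hz n]
      rfl
    have hqs' : q 0 ^ 2 + q 1 ^ 2 + q 2 ^ 2 = 1 := hqs
    by_cases hq2 : q 2 = 1
    · refine ⟨OnePoint.infty, ?_, ?_⟩
      · rintro ⟨c, _, hc⟩
        exact OnePoint.coe_ne_infty c hc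
      · have h3 : q 0 ^ 2 = 0 := by nlinarith [sq_nonneg (q 0), sq_nonneg (q 1)]
        have h4 : q 1 ^ 2 = 0 := by nlinarith [sq_nonneg (q 0), sq_nonneg (q 1)]
        have h3' : q 0 = 0 := pow_eq_zero_iff two_ne_zero |>.1 h3
        have h4' : q 1 = 0 := pow_eq_zero_iff two_ne_zero |>.1 h4
        funext i
        fin_cases i
        · exact h3'.symm
        · exact h4'.symm
        · exact hq2.symm
    · -- the horizontal coordinates converge
      have hne : 1 - q 2 ≠ 0 := sub_ne_zero.2 (Ne.symm hq2)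
      have hr : Tendsto (fun n => u n 0 / (1 - u n 2)) atTop (𝓝 (q 0 / (1 - q 2))) :=
        h0.div (h2.const_sub 1) hne
      have hi : Tendsto (fun n => u n 1 / (1 - u n 2)) atTop (𝓝 (q 1 / (1 - q 2))) :=
        h1.div (h2.const_sub 1) hne
      have er : ∀ n, u n 0 / (1 - u n 2) = (z n).re := by
        intro n
        rw [e0, e2]
        have := (hm n).ne'
        field_simp
        ring
      have ei : ∀ n, u n 1 / (1 - u n 2) = (z n).im := by
        intro n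
        rw [e1, e2]
        have := (hm n).ne'
        field_simp
        ring
      simp only [er] at hr
      simp only [ei] at hi
      obtain ⟨z0, hz0⟩ : ∃ z0 : ℂ, z0 = ⟨q 0 / (1 - q 2), q 1 / (1 - q 2)⟩ := ⟨_, rfl⟩
      have hzlim : Tendsto z atTop (𝓝 z0) := by
        have h5 : Tendsto (fun n => (((z n).re : ℝ) : ℂ) + ((z n).im : ℂ) * Complex.I) atTop
            (𝓝 (((q 0 / (1 - q 2) : ℝ) : ℂ) + ((q 1 / (1 - q 2) : ℝ) : ℂ) * Complex.I)) :=
          ((Complex.continuous_ofReal.tendsto _).comp hr).add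
            (((Complex.continuous_ofReal.tendsto _).comp hi).mul tendsto_const_nhds)
        have h6 : ((q 0 / (1 - q 2) : ℝ) : ℂ) + ((q 1 / (1 - q 2) : ℝ) : ℂ) * Complex.I = z0 := by
          rw [hz0, Complex.mk_eq_add_mul_I]
        rw [h6] at h5
        refine h5.congr fun n => ?_
        exact Complex.re_add_im (z n)
      have hlim : Tendsto u atTop (𝓝 (g1cK z0 (τ z0))) := by
        have h5 := (hcK.tendsto z0).comp hzlim
        refine h5.congr fun n => ?_
        exact (hz n).symm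
      have hqe : q = g1cK z0 (τ z0) := tendsto_nhds_unique huq hlim
      have hτ0 : τ z0 = 0 := by
        apply g1c_K_sphere (z := z0)
        rw [← hqe]
        exact hqs
      have hz0S : z0 ∈ S := by
        by_contra hz0c
        have hc : Φ.symm z0 ∈ Sᶜ := by
          rw [hΦiff, Φ.apply_symm_apply]
          exact hz0c
        have h6 := (hΦc _ hc).2
        rw [Φ.apply_symm_apply, hτ0] at h6
        exact absurd h6 (h.TT_pos hc).ne
      refine ⟨(z0 : OnePoint ℂ), ?_, ?_⟩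
      · rintro ⟨c, hc, hcz⟩
        have : c = z0 := OnePoint.coe_injective hcz
        rw [this] at hc
        exact hc hz0S
      · rw [hqe, hτ0, g1c_K_zero]
  · rintro q ⟨ζ, hζ, rfl⟩
    induction ζ using OnePoint.rec with
    | infty =>
      refine ⟨?_, ?_⟩
      · -- points far away
        obtain ⟨s0, hs0⟩ := h.nonempty
        have h1 : ∀ n : ℕ, ∃ z ∈ Sᶜ, ‖z - (n : ℂ)‖ < 1 := by
          intro n
          obtain ⟨z, hz1, hz2⟩ := h.dense.exists_dist_lt (n : ℂ) one_pos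
          refine ⟨z, hz1, ?_⟩
          rw [← dist_eq_norm, dist_comm]; exact hz2
        choose z hz hz1 using h1
        have hzn : Tendsto (fun n => ‖z n‖) atTop atTop := by
          refine tendsto_atTop_mono (f := fun n : ℕ => (n : ℝ) - 1) (fun n => ?_) ?_
          · have h2 := norm_sub_norm_le (n : ℂ) (z n)
            rw [norm_sub_rev, Complex.norm_natCast] at h2
            linarith [hz1 n]
          · exact tendsto_atTop_add_const_right _ _ tendsto_natCast_atTop_atTop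
        have hΦn : Tendsto (fun n => ‖Φ (z n)‖) atTop atTop := by
          refine tendsto_atTop_mono (f := fun n : ℕ => (1 / 2) * ‖z n‖ + (- ‖s0‖)) (fun n => ?_) ?_
          · have h2 := hΦd (z n)
            have h3 : infDist (z n) S ≤ ‖z n - s0‖ := by
              rw [← dist_eq_norm]
              exact infDist_le_dist_of_mem hs0
            have h4 := norm_sub_le (z n) s0
            have h5 := norm_sub_norm_le (z n) (Φ (z n))
            rw [norm_sub_rev] at h5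
            have h6 := norm_nonneg (z n)
            have h7 := norm_nonneg s0
            linarith
          · exact tendsto_atTop_add_const_right _ _ (hzn.const_mul_atTop (by norm_num))
        refine mem_closure_of_tendsto (g1c_K_infty (t := fun n => τ (Φ (z n))) hΦn) ?_
        refine Eventually.of_forall fun n => ?_
        rw [← hK _ (hz n)]
        exact ⟨_, ⟨_, hz n, rfl⟩, rfl⟩
      · show (0 : ℝ) ^ 2 + 0 ^ 2 + 1 ^ 2 = 1
        norm_num
    | coe e =>
      have heS : e ∈ S := by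
        by_contra hc
        exact hζ ⟨e, hc, rfl⟩
      refine ⟨?_, g1c_sph_mem e⟩
      obtain ⟨z, hz, hze⟩ := mem_closure_iff_seq_limit.1 (h.dense e)
      have h1 : Tendsto (fun n => g1cK (Φ (z n)) (τ (Φ (z n)))) atTop
          (𝓝 (g1cK (Φ e) (τ (Φ e)))) :=
        (hcK.tendsto (Φ e)).comp ((Φ.continuous.tendsto e).comp hze)
      rw [hΦS e heS, hτS e heS, g1c_K_zero] at h1
      refine mem_closure_of_tendsto h1 ?_
      refine Eventually.of_forall fun n => ?_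
      rw [← hK _ (hz n)]
      exact ⟨_, ⟨_, hz n, rfl⟩, rfl⟩

end Pool.Agent.KK
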