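import Pool.Agent.W_bb4b37_h53.CalcA
import Pool.Agent.W_bb4b37_h53.CalcB
import Pool.Agent.W_bb4b37_h53.Stmt

/-!
# Geometry of the dual surface: definitions and standing assumptions

`c` is the centre and `R = ε e^{-w}` the radius of the hemisphere orthogonal to the boundary
plane; the `K`-surface is the envelope of these hemispheres (geodesic planes). In the upper half
space the point of the surface on the hemisphere with centre `c` is `(Z, T)`,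
`Z = c - R ∇R = c + ε² e^{-2w} ∇w`, `T = R √(1 - |∇R|²)`.
-/

set_option autoImplicit false

open Filter Topology Set MeasureTheory Metric
open scoped ContDiff

namespace Pool.Agent.KK

open Pool.Agent.KKS (mink Hyp klein sphere2 sph form gaussK Metric2)

noncomputable section

/-- Radius. -/
def Rr (ε : ℝ) (w : ℂ → ℝ) (z : ℂ) : ℝ := ε * Real.exp (-(w z))

/-- `|∇R|²`. -/
def gR (ε : ℝ) (w : ℂ → ℝ) (z : ℂ) : ℝ := Rr ε w z ^ 2 * ((Dx w z) ^ 2 + (Dy w z) ^ 2)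

/-- Horizontal coordinate of the envelope. -/
def ZZ (ε : ℝ) (w : ℂ → ℝ) (z : ℂ) : ℂ :=
  z + ((Rr ε w z ^ 2 : ℝ) : ℂ) * (((Dx w z : ℝ) : ℂ) + Complex.I * ((Dy w z : ℝ) : ℂ))

/-- Height of the envelope. -/
def TT (ε : ℝ) (w : ℂ → ℝ) (z : ℂ) : ℝ := Rr ε w z * Real.sqrt (1 - gR ε w z)

/-- The point `(z, t)` of the upper half space in the hyperboloid. -/
def hyp (z : ℂ) (t : ℝ) : Fin 4 → ℝ :=
  ![(‖z‖ ^ 2 + t ^ 2 + 1) / (2 * t), z.re / t, z.im / t, (‖z‖ ^ 2 + t ^ 2 - 1) / (2 * t)]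

/-- The unit vector of the hemisphere with centre `c` and radius `R`. -/
def dsp (c : ℂ) (R : ℝ) : Fin 4 → ℝ :=
  ![(‖c‖ ^ 2 - R ^ 2 + 1) / (2 * R), c.re / R, c.im / R, (‖c‖ ^ 2 - R ^ 2 - 1) / (2 * R)]

/-- The `K`-surface, parametrized by the centres. -/
def Xs (ε : ℝ) (w : ℂ → ℝ) (z : ℂ) : Fin 4 → ℝ := hyp (ZZ ε w z) (TT ε w z)

/-- Its unit normal. -/
def Ns (ε : ℝ) (w : ℂ → ℝ) (z : ℂ) : Fin 4 → ℝ := dsp z (Rr ε w z)

/-- Standing assumptions. -/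
structure Geo (C ε : ℝ) (S : Set ℂ) (w : ℂ → ℝ) : Prop where
  closed : IsClosed S
  nonempty : S.Nonempty
  dense : Dense Sᶜ
  smooth : ContDiffOn ℝ ∞ w Sᶜ
  sol : IsSol ε (fun _ => 0) Sᶜ w
  scaled : Scaled C Sᶜ w
  lower : ∀ z ∈ Sᶜ, 1 / C ≤ Real.exp (w z) * infDist z S
  upper : ∀ z ∈ Sᶜ, Real.exp (w z) * infDist z S ≤ C
  hC : 1 ≤ C
  hε : 0 < ε
  small : ε * C ^ 2 ≤ 1 / 100000

open Classical in
/-- `P = R² / 2` on `Sᶜ`, extended by `0`. -/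
def Pp (ε : ℝ) (S : Set ℂ) (w : ℂ → ℝ) (z : ℂ) : ℝ := if z ∈ S then 0 else Rr ε w z ^ 2 / 2

open Classical in
/-- The gradient of `P` (as a complex number), extended by `0`. -/
def gP (ε : ℝ) (S : Set ℂ) (w : ℂ → ℝ) (z : ℂ) : ℂ := if z ∈ S then 0 else z - ZZ ε w z

/-- The convex set. -/
def CC (ε : ℝ) (S : Set ℂ) (w : ℂ → ℝ) : Set (Fin 4 → ℝ) :=
  {x | x ∈ Hyp ∧ ∀ c ∈ Sᶜ, mink x (Ns ε w c) ≤ 0}

/-- Determinant of the second fundamental form `⟨∂_i Y, ∂_j V⟩`. -/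
def detII (Y V : ℂ → Fin 4 → ℝ) (z : ℂ) : ℝ :=
  mink (Dx Y z) (Dx V z) * mink (Dy Y z) (Dy V z) - mink (Dx Y z) (Dy V z) ^ 2

/-- Determinant of a metric. -/
def detg (g : Metric2) (z : ℂ) : ℝ := g.E z * g.G z - g.F z ^ 2

end

open Complex

/-- The scalar product of a point and a hemisphere. -/
theorem mink_hyp_dsp {z c : ℂ} {t R : ℝ} (ht : t ≠ 0) (hR : R ≠ 0) :
    mink (hyp z t) (dsp c R) = (R ^ 2 - t ^ 2 - ‖z - c‖ ^ 2) / (2 * t * R) := by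
  have hz : ‖z‖ ^ 2 = z.re ^ 2 + z.im ^ 2 := by
    rw [← Complex.normSq_eq_norm_sq, Complex.normSq_apply]; ring
  have hc : ‖c‖ ^ 2 = c.re ^ 2 + c.im ^ 2 := by
    rw [← Complex.normSq_eq_norm_sq, Complex.normSq_apply]; ring
  have hzc : ‖z - c‖ ^ 2 = (z.re - c.re) ^ 2 + (z.im - c.im) ^ 2 := by
    rw [← Complex.normSq_eq_norm_sq, Complex.normSq_apply]
    simp only [Complex.sub_re, Complex.sub_im]; ring
  simp only [mink, hyp, dsp, Matrix.cons_val_zero, Matrix.cons_val_one, Matrix.cons_val]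
  rw [hz, hc, hzc]
  field_simp
  ring

theorem mink_hyp_hyp {z : ℂ} {t : ℝ} (ht : t ≠ 0) : mink (hyp z t) (hyp z t) = -1 := by
  have hz : ‖z‖ ^ 2 = z.re ^ 2 + z.im ^ 2 := by
    rw [← Complex.normSq_eq_norm_sq, Complex.normSq_apply]; ring
  simp only [mink, hyp, Matrix.cons_val_zero, Matrix.cons_val_one, Matrix.cons_val]
  rw [hz]
  field_simp
  ring

theorem mink_dsp_dsp {c : ℂ} {R : ℝ} (hR : R ≠ 0) : mink (dsp c R) (dsp c R) = 1 := by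
  have hz : ‖c‖ ^ 2 = c.re ^ 2 + c.im ^ 2 := by
    rw [← Complex.normSq_eq_norm_sq, Complex.normSq_apply]; ring
  simp only [mink, dsp, Matrix.cons_val_zero, Matrix.cons_val_one, Matrix.cons_val]
  rw [hz]
  field_simp
  ring

theorem hyp_mem {z : ℂ} {t : ℝ} (ht : 0 < t) : hyp z t ∈ Hyp := by
  refine ⟨mink_hyp_hyp ht.ne', ?_⟩
  simp only [hyp, Matrix.cons_val_zero]
  positivity

/-- Every point of `Hyp` is `hyp z t` for a unique `(z, t)`, depending continuously on it: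
`t = 1 / (x 0 - x 3)`, `z = t (x 1 + i x 2)`. -/
theorem exists_hyp {x : Fin 4 → ℝ} (hx : x ∈ Hyp) : 0 < x 0 - x 3 ∧
    x = hyp (((1 / (x 0 - x 3) * x 1 : ℝ) : ℂ) + I * ((1 / (x 0 - x 3) * x 2 : ℝ) : ℂ))
      (1 / (x 0 - x 3)) := by
  obtain ⟨h1, h2⟩ := hx
  have h1' : x 1 * x 1 + x 2 * x 2 + x 3 * x 3 - x 0 * x 0 = -1 := h1
  have h3 : 0 < x 0 - x 3 := by nlinarith [sq_nonneg (x 1), sq_nonneg (x 2)]
  refine ⟨h3, ?_⟩
  set d := x 0 - x 3 with hd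
  have hn : ‖((1 / d * x 1 : ℝ) : ℂ) + I * ((1 / d * x 2 : ℝ) : ℂ)‖ ^ 2 =
      (x 1 ^ 2 + x 2 ^ 2) / d ^ 2 := by
    rw [← Complex.normSq_eq_norm_sq, Complex.normSq_apply]
    simp only [Complex.add_re, Complex.add_im, Complex.mul_re, Complex.mul_im, Complex.I_re,
      Complex.I_im, Complex.ofReal_re, Complex.ofReal_im]
    field_simp
    ring
  have hx0 : x 0 = d + x 3 := by rw [hd]; ring
  have hrel : x 1 ^ 2 + x 2 ^ 2 + 1 = d * (d + 2 * x 3) := by rw [hx0] at h1'; nlinarith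
  have hre : (((1 / d * x 1 : ℝ) : ℂ) + I * ((1 / d * x 2 : ℝ) : ℂ)).re = x 1 / d := by
    simp only [Complex.add_re, Complex.mul_re, Complex.I_re, Complex.I_im, Complex.ofReal_re,
      Complex.ofReal_im]
    ring
  have him : (((1 / d * x 1 : ℝ) : ℂ) + I * ((1 / d * x 2 : ℝ) : ℂ)).im = x 2 / d := by
    simp only [Complex.add_im, Complex.mul_im, Complex.I_re, Complex.I_im, Complex.ofReal_re,
      Complex.ofReal_im]
    ring
  have e0 : x 0 = ((x 1 ^ 2 + x 2 ^ 2) / d ^ 2 + (1 / d) ^ 2 + 1) / (2 * (1 / d)) := by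
    have : (x 1 ^ 2 + x 2 ^ 2) / d ^ 2 + (1 / d) ^ 2 + 1 = (2 * d + 2 * x 3) / d := by
      field_simp
      nlinarith
    rw [this, hx0]
    field_simp
  have e1 : x 1 = x 1 / d / (1 / d) := by field_simp
  have e2 : x 2 = x 2 / d / (1 / d) := by field_simp
  have e3 : x 3 = ((x 1 ^ 2 + x 2 ^ 2) / d ^ 2 + (1 / d) ^ 2 - 1) / (2 * (1 / d)) := by
    have : (x 1 ^ 2 + x 2 ^ 2) / d ^ 2 + (1 / d) ^ 2 - 1 = 2 * x 3 / d := by
      field_simp
      nlinarith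
    rw [this]
    field_simp
  have hh : hyp (((1 / d * x 1 : ℝ) : ℂ) + I * ((1 / d * x 2 : ℝ) : ℂ)) (1 / d) =
      ![((x 1 ^ 2 + x 2 ^ 2) / d ^ 2 + (1 / d) ^ 2 + 1) / (2 * (1 / d)), x 1 / d / (1 / d),
        x 2 / d / (1 / d), ((x 1 ^ 2 + x 2 ^ 2) / d ^ 2 + (1 / d) ^ 2 - 1) / (2 * (1 / d))] := by
    unfold hyp
    rw [hn, hre, him]
  rw [hh, ← e0, ← e1, ← e2, ← e3]
  ext i
  fin_cases i <;> rfl

theorem hyp_inj {z z' : ℂ} {t t' : ℝ} (ht : 0 < t) (ht' : 0 < t') (h : hyp z t = hyp z' t') :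
    z = z' ∧ t = t' := by
  have e0 := congrFun h 0
  have e1 := congrFun h 1
  have e2 := congrFun h 2
  have e3 := congrFun h 3
  simp only [hyp, Matrix.cons_val_zero, Matrix.cons_val_one, Matrix.cons_val] at e0 e1 e2 e3
  have h1 : 1 / t = 1 / t' := by
    have a1 : (‖z‖ ^ 2 + t ^ 2 + 1) / (2 * t) - (‖z‖ ^ 2 + t ^ 2 - 1) / (2 * t) = 1 / t := by
      field_simp; ring
    have a2 : (‖z'‖ ^ 2 + t' ^ 2 + 1) / (2 * t') - (‖z'‖ ^ 2 + t' ^ 2 - 1) / (2 * t') = 1 / t' := by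
      field_simp; ring
    rw [← a1, ← a2, e0, e3]
  have htt : t = t' := by
    have := congrArg (fun x => 1 / x) h1
    simpa using this
  subst htt
  refine ⟨?_, rfl⟩
  apply Complex.ext
  · field_simp at e1; exact e1
  · field_simp at e2; exact e2

theorem klein_hyp {z : ℂ} {t : ℝ} (ht : 0 < t) :
    klein (hyp z t) = ![2 * z.re / (‖z‖ ^ 2 + t ^ 2 + 1), 2 * z.im / (‖z‖ ^ 2 + t ^ 2 + 1),
      (‖z‖ ^ 2 + t ^ 2 - 1) / (‖z‖ ^ 2 + t ^ 2 + 1)] := by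
  have hp : 0 < ‖z‖ ^ 2 + t ^ 2 + 1 := by positivity
  ext i
  fin_cases i
  · simp only [klein, hyp, Fin.zero_eta, Matrix.cons_val_zero, Matrix.cons_val_one]
    field_simp
  · simp only [klein, hyp, Fin.mk_one, Matrix.cons_val_zero, Matrix.cons_val_one,
      Matrix.cons_val]
    field_simp
  · simp only [klein, hyp, Fin.reduceFinMk, Matrix.cons_val_zero, Matrix.cons_val]
    field_simp

variable {C ε : ℝ} {S : Set ℂ} {w : ℂ → ℝ}

/-- Elementary size estimates on `Sᶜ`. -/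
theorem Geo.Rr_pos (h : Geo C ε S w) (z : ℂ) : 0 < Rr ε w z := by
  exact mul_pos h.hε (Real.exp_pos _)

theorem Geo.Rr_le (h : Geo C ε S w) {z : ℂ} (hz : z ∈ Sᶜ) :
    Rr ε w z ≤ infDist z S / 100000 := by
  have h1 := h.lower z hz
  have hC : 0 < C := lt_of_lt_of_le one_pos h.hC
  have hd : 0 ≤ infDist z S := infDist_nonneg
  have h2 : Real.exp (-(w z)) ≤ C * infDist z S := by
    rw [Real.exp_neg]
    have he : 0 < Real.exp (w z) := Real.exp_pos _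
    rw [div_le_iff₀ hC] at h1
    rw [inv_le_iff_one_le_mul₀ he]
    linarith
  have h3 : ε * C ≤ 1 / 100000 := by
    have := h.small
    have := h.hC
    have := h.hε
    nlinarith
  unfold Rr
  calc ε * Real.exp (-(w z)) ≤ ε * (C * infDist z S) :=
        mul_le_mul_of_nonneg_left h2 h.hε.le
    _ = (ε * C) * infDist z S := by ring
    _ ≤ 1 / 100000 * infDist z S := mul_le_mul_of_nonneg_right h3 hd
    _ = infDist z S / 100000 := by ring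

theorem Geo.gR_le (h : Geo C ε S w) {z : ℂ} (hz : z ∈ Sᶜ) : gR ε w z ≤ 1 / 100000 := by
  have hC : 0 < C := lt_of_lt_of_le one_pos h.hC
  have hx : |Dx w z| ≤ C * Real.exp (w z) := h.scaled.d1 z hz [true] rfl
  have hy : |Dy w z| ≤ C * Real.exp (w z) := h.scaled.d1 z hz [false] rfl
  have he : Real.exp (-(w z)) * Real.exp (w z) = 1 := by
    rw [← Real.exp_add]; simp
  have hx2 : Dx w z ^ 2 ≤ C ^ 2 * Real.exp (w z) ^ 2 := by
    rw [← mul_pow, ← sq_abs]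
    exact pow_le_pow_left₀ (abs_nonneg _) hx 2
  have hy2 : Dy w z ^ 2 ≤ C ^ 2 * Real.exp (w z) ^ 2 := by
    rw [← mul_pow, ← sq_abs]
    exact pow_le_pow_left₀ (abs_nonneg _) hy 2
  have hsm := h.small
  have hε := h.hε
  have h1 := h.hC
  have h4 : 0 ≤ ε * C ^ 2 := by positivity
  have h5 : ε * C ≤ ε * C ^ 2 := by nlinarith
  have h6 : 0 ≤ ε * C := by positivity
  unfold gR Rr
  calc (ε * Real.exp (-(w z))) ^ 2 * (Dx w z ^ 2 + Dy w z ^ 2)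
      ≤ (ε * Real.exp (-(w z))) ^ 2 * (C ^ 2 * Real.exp (w z) ^ 2 + C ^ 2 * Real.exp (w z) ^ 2) :=
        mul_le_mul_of_nonneg_left (add_le_add hx2 hy2) (sq_nonneg _)
    _ = 2 * (ε * C) ^ 2 * (Real.exp (-(w z)) * Real.exp (w z)) ^ 2 := by ring
    _ = 2 * (ε * C) ^ 2 := by rw [he]; ring
    _ ≤ 1 / 100000 := by nlinarith

theorem Geo.TT_pos (h : Geo C ε S w) {z : ℂ} (hz : z ∈ Sᶜ) : 0 < TT ε w z := by
  unfold TT
  have h1 := h.gR_le hz
  exact mul_pos (h.Rr_pos z) (Real.sqrt_pos.mpr (by linarith))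

/-- `R_x = - R w_x`, `R_y = - R w_y`. -/
theorem Geo.Dx_Rr (h : Geo C ε S w) {z : ℂ} (hz : z ∈ Sᶜ) :
    Dx (Rr ε w) z = - Rr ε w z * Dx w z ∧ Dy (Rr ε w) z = - Rr ε w z * Dy w z := by
  have hd : DifferentiableAt ℝ w z :=
    (h.smooth.contDiffAt (h.closed.isOpen_compl.mem_nhds hz)).differentiableAt (by simp)
  have he : DifferentiableAt ℝ (fun y => Real.exp (-1 * w y)) z := by fun_prop
  have hR : Rr ε w = fun y => ε • Real.exp (-1 * w y) := by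
    funext y; simp [Rr]
  have hRz : Rr ε w z = ε * Real.exp (-1 * w z) := by simp [Rr]
  constructor
  · rw [hRz, hR, Dx_const_smul ε he, Dx_exp hd (-1)]
    simp only [smul_eq_mul]; ring
  · rw [hRz, hR, Dy_const_smul ε he, Dy_exp hd (-1)]
    simp only [smul_eq_mul]; ring

/-- Smoothness of all the functions on the open set `Sᶜ`. -/
theorem Geo.smooth_all (h : Geo C ε S w) :
    ContDiffOn ℝ ∞ (Rr ε w) Sᶜ ∧ ContDiffOn ℝ ∞ (gR ε w) Sᶜ ∧ ContDiffOn ℝ ∞ (ZZ ε w) Sᶜ ∧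
      ContDiffOn ℝ ∞ (TT ε w) Sᶜ ∧ ContDiffOn ℝ ∞ (Xs ε w) Sᶜ ∧ ContDiffOn ℝ ∞ (Ns ε w) Sᶜ := by
  have ho : IsOpen Sᶜ := h.closed.isOpen_compl
  have hw := h.smooth
  have hx : ContDiffOn ℝ ∞ (Dx w) Sᶜ := contDiffOn_Dx ho hw (by simp)
  have hy : ContDiffOn ℝ ∞ (Dy w) Sᶜ := contDiffOn_Dy ho hw (by simp)
  have hR : ContDiffOn ℝ ∞ (Rr ε w) Sᶜ := by
    unfold Rr
    exact contDiffOn_const.mul (Real.contDiff_exp.comp_contDiffOn hw.neg)
  have hg : ContDiffOn ℝ ∞ (gR ε w) Sᶜ := by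
    unfold gR
    exact (hR.pow 2).mul ((hx.pow 2).add (hy.pow 2))
  have hofR : ∀ {f : ℂ → ℝ}, ContDiffOn ℝ ∞ f Sᶜ → ContDiffOn ℝ ∞ (fun y => ((f y : ℝ) : ℂ)) Sᶜ :=
    fun hf => Complex.ofRealCLM.contDiff.comp_contDiffOn hf
  have hZ : ContDiffOn ℝ ∞ (ZZ ε w) Sᶜ := by
    unfold ZZ
    exact contDiffOn_id.add ((hofR (hR.pow 2)).mul
      ((hofR hx).add (contDiffOn_const.mul (hofR hy))))
  have hT : ContDiffOn ℝ ∞ (TT ε w) Sᶜ := by
    unfold TT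
    refine hR.mul ((contDiffOn_const.sub hg).sqrt ?_)
    intro z hz
    have := h.gR_le hz
    have h2 : (0 : ℝ) < 1 - gR ε w z := by linarith
    exact h2.ne'
  have hre : ContDiffOn ℝ ∞ (fun y => (ZZ ε w y).re) Sᶜ :=
    Complex.reCLM.contDiff.comp_contDiffOn hZ
  have him : ContDiffOn ℝ ∞ (fun y => (ZZ ε w y).im) Sᶜ :=
    Complex.imCLM.contDiff.comp_contDiffOn hZ
  have hre' : ContDiffOn ℝ ∞ (fun y : ℂ => y.re) Sᶜ :=
    Complex.reCLM.contDiff.contDiffOn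
  have him' : ContDiffOn ℝ ∞ (fun y : ℂ => y.im) Sᶜ :=
    Complex.imCLM.contDiff.contDiffOn
  have hn : ContDiffOn ℝ ∞ (fun y => ‖ZZ ε w y‖ ^ 2) Sᶜ := hZ.norm_sq ℝ
  have hn' : ContDiffOn ℝ ∞ (fun y : ℂ => ‖y‖ ^ 2) Sᶜ := contDiffOn_id.norm_sq ℝ
  have hT0 : ∀ z ∈ Sᶜ, TT ε w z ≠ 0 := fun z hz => (h.TT_pos hz).ne'
  have hT2 : ∀ z ∈ Sᶜ, 2 * TT ε w z ≠ 0 := fun z hz => by
    have := h.TT_pos hz; positivity
  have hR0 : ∀ z ∈ Sᶜ, Rr ε w z ≠ 0 := fun z _ => (h.Rr_pos z).ne'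
  have hR2 : ∀ z ∈ Sᶜ, 2 * Rr ε w z ≠ 0 := fun z _ => by
    have := h.Rr_pos z; positivity
  refine ⟨hR, hg, hZ, hT, ?_, ?_⟩
  · rw [contDiffOn_pi]
    intro i
    fin_cases i
    · exact ((hn.add (hT.pow 2)).add contDiffOn_const).div (contDiffOn_const.mul hT) hT2
    · exact hre.div hT hT0
    · exact him.div hT hT0
    · exact ((hn.add (hT.pow 2)).sub contDiffOn_const).div (contDiffOn_const.mul hT) hT2
  · rw [contDiffOn_pi]
    intro i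
    fin_cases i
    · exact ((hn'.sub (hR.pow 2)).add contDiffOn_const).div (contDiffOn_const.mul hR) hR2
    · exact hre'.div hR hR0
    · exact him'.div hR hR0
    · exact ((hn'.sub (hR.pow 2)).sub contDiffOn_const).div (contDiffOn_const.mul hR) hR2

end Pool.Agent.KK
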