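import Pool.Agent.W_bb4b37_h53.CalcC
import Pool.Agent.W_bb4b37_h53.GeoDefs

/-!
# Change of parameters
-/

set_option autoImplicit false

open Filter Topology Set MeasureTheory Metric
open scoped ContDiff

namespace Pool.Agent.KK

open Pool.Agent.KKS (mink Hyp klein sphere2 sph form gaussK Metric2)

/-- The chain rule for `Dx` and `Dy`. -/
theorem Dx_comp_vec {V : Type*} [NormedAddCommGroup V] [NormedSpace ℝ V] {Y : ℂ → V} {g : ℂ → ℂ}
    {z : ℂ} (hg : DifferentiableAt ℝ g z) (hY : DifferentiableAt ℝ Y (g z)) :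
    Dx (fun y => Y (g y)) z = (Dx g z).re • Dx Y (g z) + (Dx g z).im • Dy Y (g z) := by
  have h : HasFDerivAt (fun y => Y (g y)) ((fderiv ℝ Y (g z)).comp (fderiv ℝ g z)) z :=
    hY.hasFDerivAt.comp z hg.hasFDerivAt
  unfold Dx
  rw [h.fderiv, ContinuousLinearMap.comp_apply, fderiv_eq Y]
  rfl

theorem Dy_comp_vec {V : Type*} [NormedAddCommGroup V] [NormedSpace ℝ V] {Y : ℂ → V} {g : ℂ → ℂ}
    {z : ℂ} (hg : DifferentiableAt ℝ g z) (hY : DifferentiableAt ℝ Y (g z)) :
    Dy (fun y => Y (g y)) z = (Dy g z).re • Dx Y (g z) + (Dy g z).im • Dy Y (g z) := by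
  have h : HasFDerivAt (fun y => Y (g y)) ((fderiv ℝ Y (g z)).comp (fderiv ℝ g z)) z :=
    hY.hasFDerivAt.comp z hg.hasFDerivAt
  unfold Dy
  rw [h.fderiv, ContinuousLinearMap.comp_apply, fderiv_eq Y]
  rfl

/-- The determinant in terms of the partial derivatives. -/
theorem det_fderiv_re (g : ℂ → ℂ) (z : ℂ) :
    (fderiv ℝ g z).det = (Dx g z).re * (Dy g z).im - (Dx g z).im * (Dy g z).re := by
  rw [det_fderiv, ← Complex.normSq_eq_norm_sq, ← Complex.normSq_eq_norm_sq]
  unfold Dz Dzb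
  rw [Complex.normSq_apply, Complex.normSq_apply]
  simp only [Complex.div_ofNat_re, Complex.div_ofNat_im, Complex.sub_re, Complex.sub_im,
    Complex.add_re, Complex.add_im, Complex.mul_re, Complex.mul_im, Complex.I_re, Complex.I_im]
  ring

theorem mink_smul_add (a b c d : ℝ) (P Q P' Q' : Fin 4 → ℝ) :
    mink (a • P + b • Q) (c • P' + d • Q') =
      a * c * mink P P' + a * d * mink P Q' + b * c * mink Q P' + b * d * mink Q Q' := by
  simp only [mink, Pi.add_apply, Pi.smul_apply, smul_eq_mul]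
  ring

theorem mink_comm (P Q : Fin 4 → ℝ) : mink P Q = mink Q P := by
  simp only [mink]; ring

theorem form_comp {Y : ℂ → Fin 4 → ℝ} {g : ℂ → ℂ} {z : ℂ} (hg : DifferentiableAt ℝ g z)
    (hY : DifferentiableAt ℝ Y (g z)) :
    let a := (Dx g z).re; let b := (Dx g z).im; let c := (Dy g z).re; let d := (Dy g z).im
    let E := (form Y).E (g z); let F := (form Y).F (g z); let G := (form Y).G (g z)
    (form (fun y => Y (g y))).E z = E * a ^ 2 + 2 * F * (a * b) + G * b ^ 2 ∧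
    (form (fun y => Y (g y))).F z = E * (a * c) + F * (a * d + b * c) + G * (b * d) ∧
    (form (fun y => Y (g y))).G z = E * c ^ 2 + 2 * F * (c * d) + G * d ^ 2 := by
  intro a b c d E F G
  have hx := Dx_comp_vec hg hY
  have hy := Dy_comp_vec hg hY
  have e1 : (form (fun y => Y (g y))).E z =
      mink (Dx (fun y => Y (g y)) z) (Dx (fun y => Y (g y)) z) := rfl
  have e2 : (form (fun y => Y (g y))).F z =
      mink (Dx (fun y => Y (g y)) z) (Dy (fun y => Y (g y)) z) := rfl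
  have e3 : (form (fun y => Y (g y))).G z =
      mink (Dy (fun y => Y (g y)) z) (Dy (fun y => Y (g y)) z) := rfl
  have f1 : E = mink (Dx Y (g z)) (Dx Y (g z)) := rfl
  have f2 : F = mink (Dx Y (g z)) (Dy Y (g z)) := rfl
  have f3 : G = mink (Dy Y (g z)) (Dy Y (g z)) := rfl
  rw [e1, e2, e3, hx, hy]
  rw [mink_smul_add, mink_smul_add, mink_smul_add, mink_comm (Dy Y (g z)) (Dx Y (g z)), ← f1,
    ← f2, ← f3]
  refine ⟨?_, ?_, ?_⟩ <;> simp only [a, b, c, d] <;> ring

/-- Change of parameters: forms and determinants under `Y ∘ g`. -/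
theorem detg_comp {Y : ℂ → Fin 4 → ℝ} {g : ℂ → ℂ} {z : ℂ} (hg : DifferentiableAt ℝ g z)
    (hY : DifferentiableAt ℝ Y (g z)) :
    detg (form (fun y => Y (g y))) z = (fderiv ℝ g z).det ^ 2 * detg (form Y) (g z) := by
  obtain ⟨h1, h2, h3⟩ := form_comp hg hY
  rw [det_fderiv_re]
  unfold detg
  rw [h1, h2, h3]
  ring

theorem detII_comp {Y V : ℂ → Fin 4 → ℝ} {g : ℂ → ℂ} {z : ℂ} (hg : DifferentiableAt ℝ g z)
    (hY : DifferentiableAt ℝ Y (g z)) (hV : DifferentiableAt ℝ V (g z))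
    (hsym : mink (Dx Y (g z)) (Dy V (g z)) = mink (Dy Y (g z)) (Dx V (g z))) :
    detII (fun y => Y (g y)) (fun y => V (g y)) z =
      (fderiv ℝ g z).det ^ 2 * detII Y V (g z) := by
  rw [det_fderiv_re]
  unfold detII
  rw [Dx_comp_vec hg hY, Dy_comp_vec hg hY, Dx_comp_vec hg hV, Dy_comp_vec hg hV,
    mink_smul_add, mink_smul_add, mink_smul_add, ← hsym]
  ring

end Pool.Agent.KK
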