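import Pool.Agent.W_bb4b37_h53.Geo1C

/-!
# Orthogonality relations and fundamental forms of the K-surface
-/

set_option autoImplicit false

open Filter Topology Set MeasureTheory Metric
open scoped ContDiff

namespace Pool.Agent.KK

open Pool.Agent.KKS (mink Hyp klein sphere2 sph form gaussK Metric2)

variable {C ε : ℝ} {S : Set ℂ} {w : ℂ → ℝ}

/-! ### directional derivatives of `hyp` and `dsp` -/

/-- derivative of `hyp` in the direction `(Z', T')` -/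
noncomputable def dhyp (Z Z' : ℂ) (T T' : ℝ) : Fin 4 → ℝ :=
  ![(Z.re * Z'.re + Z.im * Z'.im + T * T') / T - (Z.re ^ 2 + Z.im ^ 2 + T ^ 2 + 1) * T' / (2 * T ^ 2),
    Z'.re / T - Z.re * T' / T ^ 2, Z'.im / T - Z.im * T' / T ^ 2,
    (Z.re * Z'.re + Z.im * Z'.im + T * T') / T - (Z.re ^ 2 + Z.im ^ 2 + T ^ 2 - 1) * T' / (2 * T ^ 2)]

/-- derivative of `dsp` in the direction `(u, R')` -/
noncomputable def ddsp (c u : ℂ) (R R' : ℝ) : Fin 4 → ℝ :=
  ![(c.re * u.re + c.im * u.im - R * R') / R - (c.re ^ 2 + c.im ^ 2 - R ^ 2 + 1) * R' / (2 * R ^ 2),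
    u.re / R - c.re * R' / R ^ 2, u.im / R - c.im * R' / R ^ 2,
    (c.re * u.re + c.im * u.im - R * R') / R - (c.re ^ 2 + c.im ^ 2 - R ^ 2 - 1) * R' / (2 * R ^ 2)]

theorem g2c_norm_sq (c : ℂ) : ‖c‖ ^ 2 = c.re ^ 2 + c.im ^ 2 := by
  rw [← Complex.normSq_eq_norm_sq, Complex.normSq_apply]
  ring

theorem g2c_line {f : ℂ → ℝ} {z v : ℂ} (hf : DifferentiableAt ℝ f z) :
    HasDerivAt (fun t : ℝ => f (z + t • v)) (fderiv ℝ f z v) 0 := by
  have hγ : HasDerivAt (fun t : ℝ => z + t • v) v 0 := by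
    simpa using ((hasDerivAt_id (0 : ℝ)).smul_const v).const_add z
  have h1 : HasFDerivAt f (fderiv ℝ f z) (z + (0 : ℝ) • v) := by
    rw [zero_smul, add_zero]
    exact hf.hasFDerivAt
  exact h1.comp_hasDerivAt (0 : ℝ) hγ

theorem g2c_line_re {f : ℂ → ℂ} {z v : ℂ} (hf : DifferentiableAt ℝ f z) :
    HasDerivAt (fun t : ℝ => (f (z + t • v)).re) (fderiv ℝ f z v).re 0 ∧
    HasDerivAt (fun t : ℝ => (f (z + t • v)).im) (fderiv ℝ f z v).im 0 := by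
  have hγ : HasDerivAt (fun t : ℝ => z + t • v) v 0 := by
    simpa using ((hasDerivAt_id (0 : ℝ)).smul_const v).const_add z
  have h1 : HasFDerivAt f (fderiv ℝ f z) (z + (0 : ℝ) • v) := by
    rw [zero_smul, add_zero]
    exact hf.hasFDerivAt
  have h2 := h1.comp_hasDerivAt (0 : ℝ) hγ
  have h3 := (Complex.reCLM.hasFDerivAt (x := f (z + (0 : ℝ) • v))).comp_hasDerivAt (0 : ℝ) h2
  have h4 := (Complex.imCLM.hasFDerivAt (x := f (z + (0 : ℝ) • v))).comp_hasDerivAt (0 : ℝ) h2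
  exact ⟨h3, h4⟩

theorem g2c_pi {f : ℂ → Fin 4 → ℝ} {z v : ℂ} (hf : DifferentiableAt ℝ f z) (i : Fin 4) {d : ℝ}
    (hd : HasDerivAt (fun t : ℝ => f (z + t • v) i) d 0) : fderiv ℝ f z v i = d := by
  have h1 : DifferentiableAt ℝ (fun y => f y i) z := differentiableAt_pi.1 hf i
  have h2 := g2c_line (v := v) h1
  have h3 : fderiv ℝ (fun y => f y i) z v = fderiv ℝ f z v i := by
    have h4 := (hasFDerivAt_pi'.1 hf.hasFDerivAt) i
    rw [h4.fderiv]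
    rfl
  rw [← h3]
  exact h2.unique hd

theorem g2c_fderiv_hyp {Z : ℂ → ℂ} {T : ℂ → ℝ} {z v : ℂ} (hZ : DifferentiableAt ℝ Z z)
    (hT : DifferentiableAt ℝ T z) (hT0 : T z ≠ 0) (hf : DifferentiableAt ℝ (fun y => hyp (Z y) (T y)) z) :
    fderiv ℝ (fun y => hyp (Z y) (T y)) z v = dhyp (Z z) (fderiv ℝ Z z v) (T z) (fderiv ℝ T z v) := by
  obtain ⟨hr, hi⟩ := g2c_line_re (v := v) hZ
  have ht := g2c_line (v := v) hT
  have hT0' : T (z + (0 : ℝ) • v) ≠ 0 := by rwa [zero_smul, add_zero]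
  have e0 : z + (0 : ℝ) • v = z := by rw [zero_smul, add_zero]
  funext i
  apply g2c_pi hf
  fin_cases i
  · have h := ((((hr.pow 2).add (hi.pow 2)).add (ht.pow 2)).add_const 1).div (ht.const_mul 2)
      (mul_ne_zero two_ne_zero hT0')
    simp only [hyp, dhyp, g2c_norm_sq, Fin.zero_eta, Matrix.cons_val_zero]
    refine h.congr_deriv ?_
    simp only [Pi.add_apply, Pi.pow_apply, e0]
    field_simp
    ring
  · have h := hr.div ht hT0'
    simp only [hyp, dhyp, Fin.mk_one, Matrix.cons_val_one, Matrix.cons_val_zero]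
    refine h.congr_deriv ?_
    simp only [e0]
    field_simp
  · have h := hi.div ht hT0'
    simp only [hyp, dhyp, Fin.reduceFinMk, Matrix.cons_val]
    refine h.congr_deriv ?_
    simp only [e0]
    field_simp
  · have h := ((((hr.pow 2).add (hi.pow 2)).add (ht.pow 2)).sub_const 1).div (ht.const_mul 2)
      (mul_ne_zero two_ne_zero hT0')
    simp only [hyp, dhyp, g2c_norm_sq, Fin.reduceFinMk, Matrix.cons_val]
    refine h.congr_deriv ?_
    simp only [Pi.add_apply, Pi.pow_apply, e0]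
    field_simp
    ring

theorem g2c_fderiv_dsp {R : ℂ → ℝ} {z v : ℂ}
    (hT : DifferentiableAt ℝ R z) (hT0 : R z ≠ 0) (hf : DifferentiableAt ℝ (fun y => dsp y (R y)) z) :
    fderiv ℝ (fun y => dsp y (R y)) z v = ddsp z v (R z) (fderiv ℝ R z v) := by
  have hid : DifferentiableAt ℝ (fun y : ℂ => y) z := differentiableAt_id
  obtain ⟨hr, hi⟩ := g2c_line_re (v := v) hid
  rw [fderiv_fun_id, ContinuousLinearMap.id_apply] at hr hi
  have ht := g2c_line (v := v) hT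
  have hT0' : R (z + (0 : ℝ) • v) ≠ 0 := by rwa [zero_smul, add_zero]
  have e0 : z + (0 : ℝ) • v = z := by rw [zero_smul, add_zero]
  funext i
  apply g2c_pi hf
  fin_cases i
  · have h := ((((hr.pow 2).add (hi.pow 2)).sub (ht.pow 2)).add_const 1).div (ht.const_mul 2)
      (mul_ne_zero two_ne_zero hT0')
    simp only [dsp, ddsp, g2c_norm_sq, Fin.zero_eta, Matrix.cons_val_zero]
    refine h.congr_deriv ?_
    simp only [Pi.add_apply, Pi.sub_apply, Pi.pow_apply, e0]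
    field_simp
    ring
  · have h := hr.div ht hT0'
    simp only [dsp, ddsp, Fin.mk_one, Matrix.cons_val_one, Matrix.cons_val_zero]
    refine h.congr_deriv ?_
    simp only [e0]
    field_simp
  · have h := hi.div ht hT0'
    simp only [dsp, ddsp, Fin.reduceFinMk, Matrix.cons_val]
    refine h.congr_deriv ?_
    simp only [e0]
    field_simp
  · have h := ((((hr.pow 2).add (hi.pow 2)).sub (ht.pow 2)).sub_const 1).div (ht.const_mul 2)
      (mul_ne_zero two_ne_zero hT0')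
    simp only [dsp, ddsp, g2c_norm_sq, Fin.reduceFinMk, Matrix.cons_val]
    refine h.congr_deriv ?_
    simp only [Pi.add_apply, Pi.sub_apply, Pi.pow_apply, e0]
    field_simp
    ring

/-! ### scalar products -/

theorem g2c_mink_dhyp_dsp {Z Z' c : ℂ} {T T' R : ℝ} (hT : T ≠ 0) (hR : R ≠ 0) :
    mink (dhyp Z Z' T T') (dsp c R) =
      -(T * T' + (Z.re - c.re) * Z'.re + (Z.im - c.im) * Z'.im) / (T * R) -
        (R ^ 2 - T ^ 2 - ((Z.re - c.re) ^ 2 + (Z.im - c.im) ^ 2)) * T' / (2 * T ^ 2 * R) := by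
  simp only [mink, dhyp, dsp, g2c_norm_sq, Matrix.cons_val_zero, Matrix.cons_val_one, Matrix.cons_val]
  field_simp
  ring

theorem g2c_mink_dhyp_ddsp {Z Z' c u : ℂ} {T T' R R' : ℝ} (hT : T ≠ 0) (hR : R ≠ 0) :
    mink (dhyp Z Z' T T') (ddsp c u R R') =
      (u.re * Z'.re + u.im * Z'.im) / (T * R) +
        (T * T' + (Z.re - c.re) * Z'.re + (Z.im - c.im) * Z'.im) * R' / (T * R ^ 2) -
        (R * R' + (Z.re - c.re) * u.re + (Z.im - c.im) * u.im) * T' / (T ^ 2 * R) +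
        (R ^ 2 - T ^ 2 - ((Z.re - c.re) ^ 2 + (Z.im - c.im) ^ 2)) * T' * R' / (2 * T ^ 2 * R ^ 2) := by
  simp only [mink, dhyp, ddsp, Matrix.cons_val_zero, Matrix.cons_val_one, Matrix.cons_val]
  field_simp
  ring

theorem g2c_mink_ddsp_ddsp {c u u' : ℂ} {R R' R'' : ℝ} (hR : R ≠ 0) :
    mink (ddsp c u R R') (ddsp c u' R R'') =
      (u.re * u'.re + u.im * u'.im) / R ^ 2 - R' * R'' / R ^ 2 := by
  simp only [mink, ddsp, Matrix.cons_val_zero, Matrix.cons_val_one, Matrix.cons_val]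
  field_simp
  ring

/-! ### the relations on the surface -/

theorem Geo.g2c_diff (h : Geo C ε S w) {z : ℂ} (hz : z ∈ Sᶜ) :
    DifferentiableAt ℝ (Rr ε w) z ∧ DifferentiableAt ℝ (ZZ ε w) z ∧ DifferentiableAt ℝ (TT ε w) z ∧
      DifferentiableAt ℝ (Xs ε w) z ∧ DifferentiableAt ℝ (Ns ε w) z := by
  obtain ⟨h1, h2, h3, h4, h5, h6⟩ := h.smooth_all
  have hn : Sᶜ ∈ 𝓝 z := h.closed.isOpen_compl.mem_nhds hz
  exact ⟨(h1.contDiffAt hn).differentiableAt (by simp), (h3.contDiffAt hn).differentiableAt (by simp),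
    (h4.contDiffAt hn).differentiableAt (by simp), (h5.contDiffAt hn).differentiableAt (by simp),
    (h6.contDiffAt hn).differentiableAt (by simp)⟩

theorem g2c_ZZ_re (z : ℂ) : (ZZ ε w z).re = z.re + Rr ε w z ^ 2 * Dx w z := by
  simp only [ZZ, Complex.add_re, Complex.mul_re, Complex.ofReal_re, Complex.ofReal_im, Complex.I_re,
    Complex.I_im, Complex.add_im, Complex.mul_im]
  ring

theorem g2c_ZZ_im (z : ℂ) : (ZZ ε w z).im = z.im + Rr ε w z ^ 2 * Dy w z := by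
  simp only [ZZ, Complex.add_re, Complex.mul_re, Complex.ofReal_re, Complex.ofReal_im, Complex.I_re,
    Complex.I_im, Complex.add_im, Complex.mul_im]
  ring

theorem Geo.g2c_TT_sq (h : Geo C ε S w) {z : ℂ} (hz : z ∈ Sᶜ) :
    TT ε w z ^ 2 = Rr ε w z ^ 2 - ((ZZ ε w z).re - z.re) ^ 2 - ((ZZ ε w z).im - z.im) ^ 2 := by
  have h1 := h.gR_le hz
  rw [g2c_ZZ_re, g2c_ZZ_im, TT, mul_pow, Real.sq_sqrt (by linarith), gR]
  ring

/-- derivative of the previous identity -/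
theorem Geo.g2c_TT_deriv (h : Geo C ε S w) {z : ℂ} (hz : z ∈ Sᶜ) (v : ℂ) :
    TT ε w z * fderiv ℝ (TT ε w) z v = Rr ε w z * fderiv ℝ (Rr ε w) z v -
      ((ZZ ε w z).re - z.re) * ((fderiv ℝ (ZZ ε w) z v).re - v.re) -
      ((ZZ ε w z).im - z.im) * ((fderiv ℝ (ZZ ε w) z v).im - v.im) := by
  obtain ⟨d1, d2, d3, -, -⟩ := h.g2c_diff hz
  have hid : DifferentiableAt ℝ (fun y : ℂ => y) z := differentiableAt_id
  obtain ⟨hr, hi⟩ := g2c_line_re (v := v) d2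
  obtain ⟨gr, gi⟩ := g2c_line_re (v := v) hid
  rw [fderiv_fun_id, ContinuousLinearMap.id_apply] at gr gi
  have hT := g2c_line (v := v) d3
  have hR := g2c_line (v := v) d1
  have e0 : z + (0 : ℝ) • v = z := by rw [zero_smul, add_zero]
  have k1 := hT.pow 2
  have k2 := ((hR.pow 2).sub ((hr.sub gr).pow 2)).sub ((hi.sub gi).pow 2)
  have he : (fun t : ℝ => TT ε w (z + t • v)) ^ 2 =ᶠ[𝓝 0] ((fun t : ℝ => Rr ε w (z + t • v)) ^ 2 -
      ((fun t : ℝ => (ZZ ε w (z + t • v)).re) - (fun t : ℝ => (z + t • v).re)) ^ 2) -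
      ((fun t : ℝ => (ZZ ε w (z + t • v)).im) - (fun t : ℝ => (z + t • v).im)) ^ 2 := by
    have hc : Tendsto (fun t : ℝ => z + t • v) (𝓝 0) (𝓝 z) := by
      have : Continuous fun t : ℝ => z + t • v := by fun_prop
      have h2 := this.tendsto 0
      rwa [e0] at h2
    have hn : Sᶜ ∈ 𝓝 z := h.closed.isOpen_compl.mem_nhds hz
    filter_upwards [hc hn] with t ht
    exact h.g2c_TT_sq ht
  have k3 := k1.unique (k2.congr_of_eventuallyEq he)
  simp only [Pi.sub_apply, e0] at k3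
  norm_num at k3
  linarith

theorem Geo.g2c_Dx_Xs (h : Geo C ε S w) {z : ℂ} (hz : z ∈ Sᶜ) (v : ℂ) :
    fderiv ℝ (Xs ε w) z v = dhyp (ZZ ε w z) (fderiv ℝ (ZZ ε w) z v) (TT ε w z) (fderiv ℝ (TT ε w) z v) ∧
    fderiv ℝ (Ns ε w) z v = ddsp z v (Rr ε w z) (fderiv ℝ (Rr ε w) z v) := by
  obtain ⟨d1, d2, d3, d4, d5⟩ := h.g2c_diff hz
  exact ⟨g2c_fderiv_hyp d2 d3 (h.TT_pos hz).ne' d4, g2c_fderiv_dsp d1 (h.Rr_pos z).ne' d5⟩

/-- the scalar products along the surface -/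
theorem Geo.g2c_main (h : Geo C ε S w) {z : ℂ} (hz : z ∈ Sᶜ) (v u : ℂ)
    (hv : fderiv ℝ (Rr ε w) z v = -Rr ε w z * (Dx w z * v.re + Dy w z * v.im))
    (hu : fderiv ℝ (Rr ε w) z u = -Rr ε w z * (Dx w z * u.re + Dy w z * u.im)) :
    mink (fderiv ℝ (Xs ε w) z v) (Ns ε w z) = 0 ∧
    mink (fderiv ℝ (Xs ε w) z v) (fderiv ℝ (Ns ε w) z u) =
      (u.re * (fderiv ℝ (ZZ ε w) z v).re + u.im * (fderiv ℝ (ZZ ε w) z v).im) / (TT ε w z * Rr ε w z) ∧
    mink (fderiv ℝ (Ns ε w) z v) (fderiv ℝ (Ns ε w) z u) =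
      (v.re * u.re + v.im * u.im) / Rr ε w z ^ 2 -
        (Dx w z * v.re + Dy w z * v.im) * (Dx w z * u.re + Dy w z * u.im) := by
  have hT0 := (h.TT_pos hz).ne'
  have hR0 := (h.Rr_pos z).ne'
  have k1 := h.g2c_TT_deriv hz v
  have k2 := h.g2c_TT_sq hz
  have a1 : TT ε w z * fderiv ℝ (TT ε w) z v + ((ZZ ε w z).re - z.re) * (fderiv ℝ (ZZ ε w) z v).re +
      ((ZZ ε w z).im - z.im) * (fderiv ℝ (ZZ ε w) z v).im = 0 := by
    rw [k1, hv, g2c_ZZ_re, g2c_ZZ_im]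
    ring
  have a2 : Rr ε w z ^ 2 - TT ε w z ^ 2 - (((ZZ ε w z).re - z.re) ^ 2 + ((ZZ ε w z).im - z.im) ^ 2) = 0 := by
    rw [k2]
    ring
  have a3 : Rr ε w z * fderiv ℝ (Rr ε w) z u + ((ZZ ε w z).re - z.re) * u.re +
      ((ZZ ε w z).im - z.im) * u.im = 0 := by
    rw [hu, g2c_ZZ_re, g2c_ZZ_im]
    ring
  refine ⟨?_, ?_, ?_⟩
  · rw [(h.g2c_Dx_Xs hz v).1, Ns, g2c_mink_dhyp_dsp hT0 hR0, a1, a2]
    simp
  · rw [(h.g2c_Dx_Xs hz v).1, (h.g2c_Dx_Xs hz u).2, g2c_mink_dhyp_ddsp hT0 hR0, a1, a2, a3]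
    simp
  · rw [(h.g2c_Dx_Xs hz v).2, (h.g2c_Dx_Xs hz u).2, g2c_mink_ddsp_ddsp hR0, hv, hu]
    field_simp

theorem Geo.g2c_R (h : Geo C ε S w) {z : ℂ} (hz : z ∈ Sᶜ) :
    fderiv ℝ (Rr ε w) z 1 = -Rr ε w z * (Dx w z * (1 : ℂ).re + Dy w z * (1 : ℂ).im) ∧
    fderiv ℝ (Rr ε w) z Complex.I = -Rr ε w z * (Dx w z * Complex.I.re + Dy w z * Complex.I.im) := by
  obtain ⟨h1, h2⟩ := h.Dx_Rr hz
  constructor
  · rw [Complex.one_re, Complex.one_im, mul_one, mul_zero, add_zero]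
    exact h1
  · rw [Complex.I_re, Complex.I_im, mul_one, mul_zero, zero_add]
    exact h2

theorem g2c_mink_line {X N : ℂ → Fin 4 → ℝ} {z : ℂ} (v : ℂ) (hX : DifferentiableAt ℝ X z)
    (hN : DifferentiableAt ℝ N z) (h0 : (fun y => mink (X y) (N y)) =ᶠ[𝓝 z] fun _ => 0) :
    mink (fderiv ℝ X z v) (N z) + mink (X z) (fderiv ℝ N z v) = 0 := by
  have e0 : z + (0 : ℝ) • v = z := by rw [zero_smul, add_zero]
  have hXi : ∀ i, HasDerivAt (fun t : ℝ => X (z + t • v) i) (fderiv ℝ X z v i) 0 := by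
    intro i
    have h1 := g2c_line (v := v) (differentiableAt_pi.1 hX i)
    have h4 := (hasFDerivAt_pi'.1 hX.hasFDerivAt) i
    rwa [h4.fderiv] at h1
  have hNi : ∀ i, HasDerivAt (fun t : ℝ => N (z + t • v) i) (fderiv ℝ N z v i) 0 := by
    intro i
    have h1 := g2c_line (v := v) (differentiableAt_pi.1 hN i)
    have h4 := (hasFDerivAt_pi'.1 hN.hasFDerivAt) i
    rwa [h4.fderiv] at h1
  have k := ((((hXi 1).mul (hNi 1)).add ((hXi 2).mul (hNi 2))).add ((hXi 3).mul (hNi 3))).sub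
    ((hXi 0).mul (hNi 0))
  have hc : Tendsto (fun t : ℝ => z + t • v) (𝓝 0) (𝓝 z) := by
    have : Continuous fun t : ℝ => z + t • v := by fun_prop
    have h2 := this.tendsto 0
    rwa [e0] at h2
  have k' := k.unique ((hasDerivAt_const (0 : ℝ) (0 : ℝ)).congr_of_eventuallyEq (by
    filter_upwards [hc.eventually h0] with t ht
    exact ht))
  simp only [e0] at k'
  simp only [mink]
  linarith

/-- Orthogonality relations on `Sᶜ`. Proof: with `Θ = (R² - T² - |Z - c|²) / (2 T R)` (`mink_hyp_dsp`):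
the numerator and its derivatives along the surface, with `c` fixed or with `(Z, T)` fixed, vanish
(`R ∇R + (Z - c) = 0`, `T² = R² - |Z - c|²`). -/
theorem Geo.ortho (h : Geo C ε S w) {z : ℂ} (hz : z ∈ Sᶜ) :
    mink (Xs ε w z) (Xs ε w z) = -1 ∧ mink (Ns ε w z) (Ns ε w z) = 1 ∧
    mink (Xs ε w z) (Ns ε w z) = 0 ∧
    mink (Dx (Xs ε w) z) (Ns ε w z) = 0 ∧ mink (Dy (Xs ε w) z) (Ns ε w z) = 0 ∧
    mink (Xs ε w z) (Dx (Ns ε w) z) = 0 ∧ mink (Xs ε w z) (Dy (Ns ε w) z) = 0 := by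
  have h3 : ∀ y ∈ Sᶜ, mink (Xs ε w y) (Ns ε w y) = 0 := by
    intro y hy
    rw [Xs, Ns, mink_hyp_dsp (h.TT_pos hy).ne' (h.Rr_pos y).ne', g2c_norm_sq, Complex.sub_re, Complex.sub_im,
      h.g2c_TT_sq hy]
    ring
  obtain ⟨r1, r2⟩ := h.g2c_R hz
  have hx := (h.g2c_main hz 1 1 r1 r1).1
  have hy := (h.g2c_main hz Complex.I Complex.I r2 r2).1
  obtain ⟨-, -, -, d4, d5⟩ := h.g2c_diff hz
  have hn : Sᶜ ∈ 𝓝 z := h.closed.isOpen_compl.mem_nhds hz
  have h0 : (fun y => mink (Xs ε w y) (Ns ε w y)) =ᶠ[𝓝 z] fun _ => 0 := by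
    filter_upwards [hn] with y hy
    exact h3 y hy
  have lx := g2c_mink_line 1 d4 d5 h0
  have ly := g2c_mink_line Complex.I d4 d5 h0
  rw [hx, zero_add] at lx
  rw [hy, zero_add] at ly
  exact ⟨mink_hyp_hyp (h.TT_pos hz).ne', mink_dsp_dsp (h.Rr_pos z).ne', h3 z hz, hx, hy, lx, ly⟩

/-- The third fundamental form `(|dc|² - dR²) / R²`. -/
theorem Geo.form_Ns (h : Geo C ε S w) {z : ℂ} (hz : z ∈ Sᶜ) :
    (form (Ns ε w)).E z = 1 / Rr ε w z ^ 2 - (Dx w z) ^ 2 ∧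
    (form (Ns ε w)).F z = - (Dx w z * Dy w z) ∧
    (form (Ns ε w)).G z = 1 / Rr ε w z ^ 2 - (Dy w z) ^ 2 := by
  obtain ⟨r1, r2⟩ := h.g2c_R hz
  have h1 := (h.g2c_main hz 1 1 r1 r1).2.2
  have h2 := (h.g2c_main hz 1 Complex.I r1 r2).2.2
  have h3 := (h.g2c_main hz Complex.I Complex.I r2 r2).2.2
  simp only [Complex.one_re, Complex.one_im, Complex.I_re, Complex.I_im] at h1 h2 h3
  refine ⟨?_, ?_, ?_⟩
  · refine h1.trans ?_
    ring
  · refine h2.trans ?_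
    ring
  · refine h3.trans ?_
    ring

theorem Geo.g2c_contDiffAt (h : Geo C ε S w) {z : ℂ} (hz : z ∈ Sᶜ) :
    ContDiffAt ℝ 2 w z ∧ DifferentiableAt ℝ (Dx w) z ∧ DifferentiableAt ℝ (Dy w) z := by
  have hn : Sᶜ ∈ 𝓝 z := h.closed.isOpen_compl.mem_nhds hz
  have hx := (contDiffOn_Dx (m := ∞) h.closed.isOpen_compl h.smooth (by simp)).contDiffAt hn
  have hy := (contDiffOn_Dy (m := ∞) h.closed.isOpen_compl h.smooth (by simp)).contDiffAt hn
  exact ⟨by exact_mod_cast contDiffAt_infty.1 (h.smooth.contDiffAt hn) 2, hx.differentiableAt (by simp),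
    hy.differentiableAt (by simp)⟩

/-- the derivatives of `ZZ` -/
theorem Geo.g2c_DZZ (h : Geo C ε S w) {z : ℂ} (hz : z ∈ Sᶜ) :
    (Dx (ZZ ε w) z).re = 1 + Rr ε w z ^ 2 * (Dx (Dx w) z - 2 * Dx w z ^ 2) ∧
    (Dx (ZZ ε w) z).im = Rr ε w z ^ 2 * (Dx (Dy w) z - 2 * (Dx w z * Dy w z)) ∧
    (Dy (ZZ ε w) z).re = Rr ε w z ^ 2 * (Dx (Dy w) z - 2 * (Dx w z * Dy w z)) ∧
    (Dy (ZZ ε w) z).im = 1 + Rr ε w z ^ 2 * (Dy (Dy w) z - 2 * Dy w z ^ 2) := by
  obtain ⟨c1, c2, c3⟩ := h.g2c_contDiffAt hz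
  obtain ⟨d1, d2, -, -, -⟩ := h.g2c_diff hz
  obtain ⟨r1, r2⟩ := h.g2c_R hz
  have hcomm := Dx_Dy_comm c1
  have key : ∀ v : ℂ, (fderiv ℝ (ZZ ε w) z v).re = v.re + (2 * Rr ε w z * fderiv ℝ (Rr ε w) z v * Dx w z +
      Rr ε w z ^ 2 * fderiv ℝ (Dx w) z v) ∧
      (fderiv ℝ (ZZ ε w) z v).im = v.im + (2 * Rr ε w z * fderiv ℝ (Rr ε w) z v * Dy w z +
      Rr ε w z ^ 2 * fderiv ℝ (Dy w) z v) := by
    intro v
    have e0 : z + (0 : ℝ) • v = z := by rw [zero_smul, add_zero]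
    have hid : DifferentiableAt ℝ (fun y : ℂ => y) z := differentiableAt_id
    obtain ⟨hr, hi⟩ := g2c_line_re (v := v) d2
    obtain ⟨gr, gi⟩ := g2c_line_re (v := v) hid
    rw [fderiv_fun_id, ContinuousLinearMap.id_apply] at gr gi
    have hR := g2c_line (v := v) d1
    have hwx := g2c_line (v := v) c2
    have hwy := g2c_line (v := v) c3
    have k1 := gr.add ((hR.pow 2).mul hwx)
    have k2 := gi.add ((hR.pow 2).mul hwy)
    have j1 := hr.unique (k1.congr_of_eventuallyEq (Filter.Eventually.of_forall fun t => g2c_ZZ_re _))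
    have j2 := hi.unique (k2.congr_of_eventuallyEq (Filter.Eventually.of_forall fun t => g2c_ZZ_im _))
    simp only [Pi.pow_apply, e0] at j1 j2
    norm_num at j1 j2
    exact ⟨j1, j2⟩
  have kx := key 1
  have ky := key Complex.I
  rw [r1] at kx
  rw [r2] at ky
  simp only [Complex.one_re, Complex.one_im, Complex.I_re, Complex.I_im] at kx ky
  have hcomm' : fderiv ℝ (Dx w) z Complex.I = Dx (Dy w) z := hcomm.symm
  rw [hcomm'] at ky
  refine ⟨?_, ?_, ?_, ?_⟩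
  · refine kx.1.trans ?_
    change _ + (_ + _ * Dx (Dx w) z) = _
    ring
  · refine kx.2.trans ?_
    change _ + (_ + _ * Dx (Dy w) z) = _
    ring
  · refine ky.1.trans ?_
    ring
  · refine ky.2.trans ?_
    change _ + (_ + _ * Dy (Dy w) z) = _
    ring

/-- The second fundamental form `⟨∂_i X, ∂_j N⟩ = ⟨∂_i Z, e_j⟩ / (T R)`, a symmetric matrix. -/
theorem Geo.second_form (h : Geo C ε S w) {z : ℂ} (hz : z ∈ Sᶜ) :
    mink (Dx (Xs ε w) z) (Dx (Ns ε w) z) = (Dx (ZZ ε w) z).re / (TT ε w z * Rr ε w z) ∧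
    mink (Dx (Xs ε w) z) (Dy (Ns ε w) z) = (Dx (ZZ ε w) z).im / (TT ε w z * Rr ε w z) ∧
    mink (Dy (Xs ε w) z) (Dx (Ns ε w) z) = (Dy (ZZ ε w) z).re / (TT ε w z * Rr ε w z) ∧
    mink (Dy (Xs ε w) z) (Dy (Ns ε w) z) = (Dy (ZZ ε w) z).im / (TT ε w z * Rr ε w z) ∧
    (Dx (ZZ ε w) z).im = (Dy (ZZ ε w) z).re := by
  obtain ⟨r1, r2⟩ := h.g2c_R hz
  have h1 := (h.g2c_main hz 1 1 r1 r1).2.1
  have h2 := (h.g2c_main hz 1 Complex.I r1 r2).2.1
  have h3 := (h.g2c_main hz Complex.I 1 r2 r1).2.1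
  have h4 := (h.g2c_main hz Complex.I Complex.I r2 r2).2.1
  simp only [Complex.one_re, Complex.one_im, Complex.I_re, Complex.I_im, one_mul, zero_mul, add_zero,
    zero_add] at h1 h2 h3 h4
  obtain ⟨-, e2, e3, -⟩ := h.g2c_DZZ hz
  exact ⟨h1, h2, h3, h4, e2.trans e3.symm⟩

/-- The equation `det DZ = (1 + ε²) (1 - |∇R|²)²`, equivalent to `IsSol ε 0`: with `P = R² / 2`,
`DZ = I - D²P`, `P = ε² e^{-2w} / 2`, `P_xx = ε² e^{-2w} (2 w_x² - w_xx)` etc. -/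
theorem Geo.det_ZZ (h : Geo C ε S w) {z : ℂ} (hz : z ∈ Sᶜ) :
    (Dx (ZZ ε w) z).re * (Dy (ZZ ε w) z).im - (Dx (ZZ ε w) z).im ^ 2 =
      (1 + ε ^ 2) * (1 - gR ε w z) ^ 2 := by
  obtain ⟨e1, e2, -, e4⟩ := h.g2c_DZZ hz
  have hs := h.sol z hz
  have hR2 : Rr ε w z ^ 2 = ε ^ 2 * Real.exp (-(2 * w z)) := by
    rw [Rr, mul_pow, ← Real.exp_nat_mul]
    congr 2
    push_cast
    ring
  have hexp : Real.exp (-(2 * w z)) * Real.exp (2 * w z) = 1 := by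
    rw [← Real.exp_add]
    simp
  rw [e1, e2, e4, gR, hR2]
  simp only [Lap, QQ] at hs
  generalize Real.exp (-(2 * w z)) = X at *
  generalize Real.exp (2 * w z) = Y at *
  linear_combination ε ^ 2 * X * hs + ε ^ 2 * hexp

end Pool.Agent.KK
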