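import Pool.Agent.W_bb4b37_h53.Geo2A
import Pool.Agent.W_bb4b37_h53.Geo2B
import Pool.Agent.W_bb4b37_h53.Geo2C

/-!
# Fundamental forms and curvature
-/

set_option autoImplicit false

open Filter Topology Set MeasureTheory Metric
open scoped ContDiff

namespace Pool.Agent.KK

open Pool.Agent.KKS (mink Hyp klein sphere2 sph form gaussK Metric2)

/-- Product rule for the Minkowski form. -/
theorem hasFDerivAt_mink {Y V : ℂ → Fin 4 → ℝ} {z : ℂ} (hY : DifferentiableAt ℝ Y z)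
    (hV : DifferentiableAt ℝ V z) (v : ℂ) :
    fderiv ℝ (fun y => mink (Y y) (V y)) z v =
      mink (fderiv ℝ Y z v) (V z) + mink (Y z) (fderiv ℝ V z v) := by
  have hYi : ∀ i, HasFDerivAt (fun y => Y y i)
      ((ContinuousLinearMap.proj (R := ℝ) i).comp (fderiv ℝ Y z)) z := fun i =>
    (ContinuousLinearMap.proj (R := ℝ) (φ := fun _ : Fin 4 => ℝ) i).hasFDerivAt.comp z
      hY.hasFDerivAt
  have hVi : ∀ i, HasFDerivAt (fun y => V y i)
      ((ContinuousLinearMap.proj (R := ℝ) i).comp (fderiv ℝ V z)) z := fun i =>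
    (ContinuousLinearMap.proj (R := ℝ) (φ := fun _ : Fin 4 => ℝ) i).hasFDerivAt.comp z
      hV.hasFDerivAt
  have h := (((hYi 1).mul (hVi 1)).add ((hYi 2).mul (hVi 2))).add ((hYi 3).mul (hVi 3))
    |>.sub ((hYi 0).mul (hVi 0))
  have h2 : HasFDerivAt (fun y => mink (Y y) (V y)) _ z := h
  rw [h2.fderiv]
  simp only [mink, _root_.sub_apply, _root_.add_apply,
    _root_.smul_apply, ContinuousLinearMap.comp_apply,
    ContinuousLinearMap.proj_apply, smul_eq_mul]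
  ring

theorem Dx_mink_self {Y : ℂ → Fin 4 → ℝ} {U : Set ℂ} {z : ℂ} {σ : ℝ} (hU : U ∈ 𝓝 z)
    (hY : DifferentiableAt ℝ Y z) (h : ∀ y ∈ U, mink (Y y) (Y y) = σ) (v : ℂ) :
    mink (fderiv ℝ Y z v) (Y z) = 0 := by
  have h1 := hasFDerivAt_mink hY hY v
  have h2 : (fun y => mink (Y y) (Y y)) =ᶠ[𝓝 z] fun _ => σ := by
    filter_upwards [hU] with y hy using h y hy
  rw [h2.fderiv_eq] at h1
  simp only [fderiv_fun_const, Pi.zero_apply, _root_.zero_apply] at h1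
  rw [mink_comm (Y z)] at h1
  linarith

variable {C ε : ℝ} {S : Set ℂ} {w : ℂ → ℝ}

/-- `det II = (1 + ε²) det III`. -/
theorem Geo.detII_eq (h : Geo C ε S w) {z : ℂ} (hz : z ∈ Sᶜ) :
    detII (Xs ε w) (Ns ε w) z = (1 + ε ^ 2) * detg (form (Ns ε w)) z ∧
      0 < detg (form (Ns ε w)) z ∧ 0 < (form (Ns ε w)).E z := by
  obtain ⟨hE, hF, hG⟩ := h.form_Ns hz
  obtain ⟨s1, s2, s3, s4, s5⟩ := h.second_form hz
  have hdet := h.det_ZZ hz
  have hg := h.gR_le hz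
  have hR := h.Rr_pos (z := z)
  have hT := h.TT_pos hz
  have hT2 : TT ε w z ^ 2 = Rr ε w z ^ 2 * (1 - gR ε w z) := by
    unfold TT
    rw [mul_pow, Real.sq_sqrt (by linarith)]
  have hgd : gR ε w z = Rr ε w z ^ 2 * ((Dx w z) ^ 2 + (Dy w z) ^ 2) := rfl
  have hdg : detg (form (Ns ε w)) z = (1 - gR ε w z) / Rr ε w z ^ 4 := by
    unfold detg
    rw [hE, hF, hG, hgd]
    field_simp
    ring
  have h1 : 0 < 1 - gR ε w z := by linarith
  refine ⟨?_, ?_, ?_⟩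
  · unfold detII
    rw [s1, s4, s2, hdg]
    have : (Dx (ZZ ε w) z).re / (TT ε w z * Rr ε w z) * ((Dy (ZZ ε w) z).im / (TT ε w z * Rr ε w z))
        - ((Dx (ZZ ε w) z).im / (TT ε w z * Rr ε w z)) ^ 2 =
        ((Dx (ZZ ε w) z).re * (Dy (ZZ ε w) z).im - (Dx (ZZ ε w) z).im ^ 2) /
          (TT ε w z ^ 2 * Rr ε w z ^ 2) := by
      field_simp
    rw [this, hdet, hT2]
    field_simp
  · rw [hdg]; positivity
  · rw [hE]
    have h2 : Dx w z ^ 2 * Rr ε w z ^ 2 ≤ gR ε w z := by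
      rw [hgd]; nlinarith [mul_nonneg (sq_nonneg (Rr ε w z)) (sq_nonneg (Dy w z))]
    have h3 : 0 < (1 - Dx w z ^ 2 * Rr ε w z ^ 2) / Rr ε w z ^ 2 := by
      apply div_pos _ (by positivity)
      linarith
    have h4 : (1 - Dx w z ^ 2 * Rr ε w z ^ 2) / Rr ε w z ^ 2 = 1 / Rr ε w z ^ 2 - Dx w z ^ 2 := by
      field_simp
    rwa [h4] at h3

theorem Geo.diff_X (h : Geo C ε S w) {z : ℂ} (hz : z ∈ Sᶜ) :
    DifferentiableAt ℝ (Xs ε w) z ∧ DifferentiableAt ℝ (Ns ε w) z := by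
  obtain ⟨-, -, -, -, hX, hN⟩ := h.smooth_all
  have hm := h.closed.isOpen_compl.mem_nhds hz
  exact ⟨(hX.contDiffAt hm).differentiableAt (by simp),
    (hN.contDiffAt hm).differentiableAt (by simp)⟩

/-- `det I · det III = (det II)²`: the vectors `X_x, X_y` and `N_x, N_y` span the same plane, the
orthogonal complement of `X` and `N`, on which the form is positive definite. -/
theorem Geo.detI_eq (h : Geo C ε S w) {z : ℂ} (hz : z ∈ Sᶜ) :
    detg (form (Xs ε w)) z * detg (form (Ns ε w)) z = detII (Xs ε w) (Ns ε w) z ^ 2 ∧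
      0 < (form (Xs ε w)).E z := by
  obtain ⟨o1, o2, o3, o4, o5, o6, o7⟩ := h.ortho hz
  obtain ⟨d1, d2, d3⟩ := h.detII_eq hz
  obtain ⟨s1, s2, s3, s4, s5⟩ := h.second_form hz
  obtain ⟨hX, hN⟩ := h.diff_X hz
  have hm := h.closed.isOpen_compl.mem_nhds hz
  have hnn : ∀ v, mink (fderiv ℝ (Ns ε w) z v) (Ns ε w z) = 0 :=
    Dx_mink_self hm hN (σ := 1) fun y hy => (h.ortho hy).2.1
  have hxx : ∀ v, mink (fderiv ℝ (Xs ε w) z v) (Xs ε w z) = 0 :=
    Dx_mink_self hm hX (σ := -1) fun y hy => (h.ortho hy).1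
  have hsym : mink (Dx (Xs ε w) z) (Dy (Ns ε w) z) = mink (Dy (Xs ε w) z) (Dx (Ns ε w) z) := by
    rw [s2, s3, s5]
  have hD : (form (Ns ε w)).E z * (form (Ns ε w)).G z - (form (Ns ε w)).F z ^ 2 ≠ 0 := d2.ne'
  have key := mink_expand (Y := Xs ε w z) (V := Ns ε w z) (P := Dx (Ns ε w) z)
    (Q := Dy (Ns ε w) z) (σ := -1) (E := (form (Ns ε w)).E z) (F := (form (Ns ε w)).F z)
    (G := (form (Ns ε w)).G z) (Or.inr rfl) o1 (by rw [o2]; norm_num) o3 o6 o7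
    (by rw [mink_comm]; exact hnn 1) (by rw [mink_comm]; exact hnn Complex.I) rfl rfl rfl hD
  have hXx : mink (Dx (Xs ε w) z) (Xs ε w z) = 0 := hxx 1
  have hXy : mink (Dy (Xs ε w) z) (Xs ε w z) = 0 := hxx Complex.I
  have k1 := key (Dx (Xs ε w) z) (Dx (Xs ε w) z)
  have k2 := key (Dx (Xs ε w) z) (Dy (Xs ε w) z)
  have k3 := key (Dy (Xs ε w) z) (Dy (Xs ε w) z)
  rw [hXx, o4] at k1
  rw [hXx, hXy, o4, o5, ← hsym] at k2
  rw [hXy, o5, ← hsym] at k3
  have e1 : (form (Xs ε w)).E z = mink (Dx (Xs ε w) z) (Dx (Xs ε w) z) := rfl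
  have e2 : (form (Xs ε w)).F z = mink (Dx (Xs ε w) z) (Dy (Xs ε w) z) := rfl
  have e3 : (form (Xs ε w)).G z = mink (Dy (Xs ε w) z) (Dy (Xs ε w) z) := rfl
  rw [← e1] at k1
  rw [← e2] at k2
  rw [← e3] at k3
  have hII : detII (Xs ε w) (Ns ε w) z =
      mink (Dx (Xs ε w) z) (Dx (Ns ε w) z) * mink (Dy (Xs ε w) z) (Dy (Ns ε w) z)
      - mink (Dx (Xs ε w) z) (Dy (Ns ε w) z) ^ 2 := rfl
  have hdN : detg (form (Ns ε w)) z =
    (form (Ns ε w)).E z * (form (Ns ε w)).G z - (form (Ns ε w)).F z ^ 2 := rfl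
  have hdX : detg (form (Xs ε w)) z =
    (form (Xs ε w)).E z * (form (Xs ε w)).G z - (form (Xs ε w)).F z ^ 2 := rfl
  set a1 := mink (Dx (Xs ε w) z) (Dx (Ns ε w) z)
  set a2 := mink (Dx (Xs ε w) z) (Dy (Ns ε w) z)
  set b2 := mink (Dy (Xs ε w) z) (Dy (Ns ε w) z)
  set E := (form (Ns ε w)).E z
  set F := (form (Ns ε w)).F z
  set G := (form (Ns ε w)).G z
  set E1 := (form (Xs ε w)).E z
  set F1 := (form (Xs ε w)).F z
  set G1 := (form (Xs ε w)).G z
  have k1' : (E * G - F ^ 2) * E1 = G * a1 ^ 2 - 2 * F * a1 * a2 + E * a2 ^ 2 := by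
    linear_combination k1
  have k2' : (E * G - F ^ 2) * F1 = G * a1 * a2 - F * (a1 * b2 + a2 ^ 2) + E * a2 * b2 := by
    linear_combination k2
  have k3' : (E * G - F ^ 2) * G1 = G * a2 ^ 2 - 2 * F * a2 * b2 + E * b2 ^ 2 := by
    linear_combination k3
  have hDpos : 0 < E * G - F ^ 2 := by rw [← hdN]; exact d2
  refine ⟨?_, ?_⟩
  · rw [hdX, hdN, hII]
    have : (E * G - F ^ 2) * ((E1 * G1 - F1 ^ 2) * (E * G - F ^ 2)) =
        (E * G - F ^ 2) * (a1 * b2 - a2 ^ 2) ^ 2 := by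
      have : (E * G - F ^ 2) * ((E1 * G1 - F1 ^ 2) * (E * G - F ^ 2)) =
        ((E * G - F ^ 2) * E1) * ((E * G - F ^ 2) * G1) - ((E * G - F ^ 2) * F1) ^ 2 := by ring
      rw [this, k1', k2', k3']
      ring
    exact mul_left_cancel₀ hDpos.ne' this
  · have hne : a1 ≠ 0 ∨ a2 ≠ 0 := by
      by_contra hcon
      push Not at hcon
      have : detII (Xs ε w) (Ns ε w) z = 0 := by rw [hII, hcon.1, hcon.2]; ring
      rw [d1] at this
      have h5 : 0 < (1 + ε ^ 2) * detg (form (Ns ε w)) z := by positivity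
      linarith
    have h6 : 0 < E * ((E * G - F ^ 2) * E1) := by
      rw [k1']
      have : E * (G * a1 ^ 2 - 2 * F * a1 * a2 + E * a2 ^ 2) =
        (E * a2 - F * a1) ^ 2 + (E * G - F ^ 2) * a1 ^ 2 := by ring
      rw [this]
      by_cases ha : a1 = 0
      · have ha2 : a2 ≠ 0 := by tauto
        rw [ha]
        have h8 : 0 < (E * a2) ^ 2 := by positivity
        have h9 : (E * a2 - F * 0) ^ 2 + (E * G - F ^ 2) * 0 ^ 2 = (E * a2) ^ 2 := by ring
        rw [h9]; exact h8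
      · positivity
    have h7 : 0 < (E * G - F ^ 2) * E1 := pos_of_mul_pos_right h6 d3.le
    exact pos_of_mul_pos_right h7 hDpos.le

theorem Geo.detI_pos (h : Geo C ε S w) {z : ℂ} (hz : z ∈ Sᶜ) :
    0 < detg (form (Xs ε w)) z ∧ 0 < detII (Xs ε w) (Ns ε w) z ∧
      detII (Xs ε w) (Ns ε w) z / detg (form (Xs ε w)) z = 1 / (1 + ε ^ 2) := by
  obtain ⟨d1, d2, d3⟩ := h.detII_eq hz
  obtain ⟨e1, e2⟩ := h.detI_eq hz
  have h5 : 0 < detII (Xs ε w) (Ns ε w) z := by rw [d1]; positivity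
  have h6 : 0 < detg (form (Xs ε w)) z := by
    by_contra hcon
    push Not at hcon
    nlinarith [mul_nonneg d2.le (neg_nonneg.mpr hcon), pow_pos h5 2]
  refine ⟨h6, h5, ?_⟩
  have h7 : (1 : ℝ) + ε ^ 2 ≠ 0 := by positivity
  rw [div_eq_div_iff h6.ne' h7]
  have h8 : detg (form (Xs ε w)) z * detg (form (Ns ε w)) z =
      detII (Xs ε w) (Ns ε w) z * ((1 + ε ^ 2) * detg (form (Ns ε w)) z) := by
    rw [e1, ← d1]; ring
  have h9 : detg (form (Ns ε w)) z * (detII (Xs ε w) (Ns ε w) z * (1 + ε ^ 2)) =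
      detg (form (Ns ε w)) z * (1 * detg (form (Xs ε w)) z) := by
    linear_combination -h8
  exact mul_left_cancel₀ d2.ne' h9

/-- The reparametrized versions: let `g` be a smooth map of an open set `U` into `Sᶜ` with
nonvanishing Jacobian. -/
theorem Geo.curv_I_comp (h : Geo C ε S w) {U : Set ℂ} (hU : IsOpen U) {g : ℂ → ℂ}
    (hg : ContDiffOn ℝ ∞ g U) (hm : MapsTo g U Sᶜ) (hJ : ∀ z ∈ U, (fderiv ℝ g z).det ≠ 0) :
    ∀ z ∈ U, gaussK (form (fun y => Xs ε w (g y))) z = -(ε ^ 2 / (1 + ε ^ 2)) := by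
  obtain ⟨-, -, -, -, hX, hN⟩ := h.smooth_all
  have hXg : ContDiffOn ℝ ∞ (fun y => Xs ε w (g y)) U := hX.comp hg hm
  have hNg : ContDiffOn ℝ ∞ (fun y => Ns ε w (g y)) U := hN.comp hg hm
  have hgd : ∀ z ∈ U, DifferentiableAt ℝ g z := fun z hz =>
    (hg.contDiffAt (hU.mem_nhds hz)).differentiableAt (by simp)
  have hdet : ∀ z ∈ U, detg (form (fun y => Xs ε w (g y))) z ≠ 0 := by
    intro z hz
    rw [detg_comp (hgd z hz) (h.diff_X (hm hz)).1]
    have := (h.detI_pos (hm hz)).1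
    have := hJ z hz
    positivity
  intro z hz
  rw [gauss_equation hU hXg hNg (Or.inr rfl) (fun y hy => (h.ortho (hm hy)).1)
    (fun y hy => by rw [(h.ortho (hm hy)).2.1]; norm_num) (fun y hy => (h.ortho (hm hy)).2.2.1)
    (fun y hy => ?_) (fun y hy => ?_) hdet z hz]
  · have hsym : mink (Dx (Xs ε w) (g z)) (Dy (Ns ε w) (g z)) =
        mink (Dy (Xs ε w) (g z)) (Dx (Ns ε w) (g z)) := by
      obtain ⟨s1, s2, s3, s4, s5⟩ := h.second_form (hm hz)
      rw [s2, s3, s5]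
    rw [detg_comp (hgd z hz) (h.diff_X (hm hz)).1,
      detII_comp (hgd z hz) (h.diff_X (hm hz)).1 (h.diff_X (hm hz)).2 hsym]
    obtain ⟨p1, p2, p3⟩ := h.detI_pos (hm hz)
    have hJ2 : (fderiv ℝ g z).det ^ 2 ≠ 0 := pow_ne_zero _ (hJ z hz)
    rw [mul_div_mul_left _ _ hJ2, p3]
    have h7 : (1 : ℝ) + ε ^ 2 ≠ 0 := by positivity
    field_simp
    ring
  · rw [Dx_comp_vec (hgd y hy) (h.diff_X (hm hy)).1]
    have := h.ortho (hm hy)
    have e := mink_smul_add (Dx g y).re (Dx g y).im 1 0 (Dx (Xs ε w) (g y)) (Dy (Xs ε w) (g y))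
      (Ns ε w (g y)) 0
    rw [one_smul, smul_zero, add_zero] at e
    rw [e, this.2.2.2.1, this.2.2.2.2.1]
    ring
  · rw [Dy_comp_vec (hgd y hy) (h.diff_X (hm hy)).1]
    have := h.ortho (hm hy)
    have e := mink_smul_add (Dy g y).re (Dy g y).im 1 0 (Dx (Xs ε w) (g y)) (Dy (Xs ε w) (g y))
      (Ns ε w (g y)) 0
    rw [one_smul, smul_zero, add_zero] at e
    rw [e, this.2.2.2.1, this.2.2.2.2.1]
    ring

theorem Geo.curv_III_comp (h : Geo C ε S w) {U : Set ℂ} (hU : IsOpen U) {g : ℂ → ℂ}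
    (hg : ContDiffOn ℝ ∞ g U) (hm : MapsTo g U Sᶜ) (hJ : ∀ z ∈ U, (fderiv ℝ g z).det ≠ 0) :
    ∀ z ∈ U, gaussK (form (fun y => Ns ε w (g y))) z = - ε ^ 2 := by
  obtain ⟨-, -, -, -, hX, hN⟩ := h.smooth_all
  have hXg : ContDiffOn ℝ ∞ (fun y => Xs ε w (g y)) U := hX.comp hg hm
  have hNg : ContDiffOn ℝ ∞ (fun y => Ns ε w (g y)) U := hN.comp hg hm
  have hgd : ∀ z ∈ U, DifferentiableAt ℝ g z := fun z hz =>
    (hg.contDiffAt (hU.mem_nhds hz)).differentiableAt (by simp)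
  have hdet : ∀ z ∈ U, detg (form (fun y => Ns ε w (g y))) z ≠ 0 := by
    intro z hz
    rw [detg_comp (hgd z hz) (h.diff_X (hm hz)).2]
    have := (h.detII_eq (hm hz)).2.1
    have := hJ z hz
    positivity
  intro z hz
  rw [gauss_equation hU hNg hXg (Or.inl rfl) (fun y hy => (h.ortho (hm hy)).2.1)
    (fun y hy => by rw [(h.ortho (hm hy)).1])
    (fun y hy => by rw [mink_comm]; exact (h.ortho (hm hy)).2.2.1)
    (fun y hy => ?_) (fun y hy => ?_) hdet z hz]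
  · have hs := h.second_form (hm hz)
    have hsym' : mink (Dx (Ns ε w) (g z)) (Dy (Xs ε w) (g z)) =
        mink (Dy (Ns ε w) (g z)) (Dx (Xs ε w) (g z)) := by
      obtain ⟨s1, s2, s3, s4, s5⟩ := hs
      rw [mink_comm, s3, mink_comm, s2, s5]
    rw [detg_comp (hgd z hz) (h.diff_X (hm hz)).2,
      detII_comp (hgd z hz) (h.diff_X (hm hz)).2 (h.diff_X (hm hz)).1 hsym']
    have hswap : detII (Ns ε w) (Xs ε w) (g z) = detII (Xs ε w) (Ns ε w) (g z) := by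
      obtain ⟨s1, s2, s3, s4, s5⟩ := hs
      unfold detII
      rw [mink_comm (Dx (Ns ε w) (g z)) (Dx (Xs ε w) (g z)),
        mink_comm (Dy (Ns ε w) (g z)) (Dy (Xs ε w) (g z)),
        mink_comm (Dx (Ns ε w) (g z)) (Dy (Xs ε w) (g z)), s3, ← s5, ← s2]
    obtain ⟨d1, d2, d3⟩ := h.detII_eq (hm hz)
    have hJ2 : (fderiv ℝ g z).det ^ 2 ≠ 0 := pow_ne_zero _ (hJ z hz)
    rw [mul_div_mul_left _ _ hJ2, hswap, d1, mul_div_assoc, div_self d2.ne']
    ring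
  · rw [Dx_comp_vec (hgd y hy) (h.diff_X (hm hy)).2]
    have := h.ortho (hm hy)
    have e := mink_smul_add (Dx g y).re (Dx g y).im 1 0 (Dx (Ns ε w) (g y)) (Dy (Ns ε w) (g y))
      (Xs ε w (g y)) 0
    rw [one_smul, smul_zero, add_zero] at e
    rw [e, mink_comm (Dx (Ns ε w) (g y)), mink_comm (Dy (Ns ε w) (g y)) (Xs ε w (g y)),
      this.2.2.2.2.2.1, this.2.2.2.2.2.2]
    ring
  · rw [Dy_comp_vec (hgd y hy) (h.diff_X (hm hy)).2]
    have := h.ortho (hm hy)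
    have e := mink_smul_add (Dy g y).re (Dy g y).im 1 0 (Dx (Ns ε w) (g y)) (Dy (Ns ε w) (g y))
      (Xs ε w (g y)) 0
    rw [one_smul, smul_zero, add_zero] at e
    rw [e, mink_comm (Dx (Ns ε w) (g y)), mink_comm (Dy (Ns ε w) (g y)) (Xs ε w (g y)),
      this.2.2.2.2.2.1, this.2.2.2.2.2.2]
    ring

/-- Curvature of the first and of the third fundamental form. -/
theorem Geo.curv_I (h : Geo C ε S w) {z : ℂ} (hz : z ∈ Sᶜ) :
    gaussK (form (Xs ε w)) z = -(ε ^ 2 / (1 + ε ^ 2)) := by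
  have hid : ∀ z ∈ Sᶜ, (fderiv ℝ (fun y : ℂ => y) z).det ≠ 0 := by
    intro z _
    rw [det_fderiv_re]
    have h1 : Dx (fun y : ℂ => y) z = 1 := by simp [Dx]
    have h2 : Dy (fun y : ℂ => y) z = Complex.I := by simp [Dy]
    rw [h1, h2]
    simp
  exact h.curv_I_comp (g := fun y => y) h.closed.isOpen_compl contDiffOn_id (fun _ h => h) hid
    z hz

theorem Geo.curv_III (h : Geo C ε S w) {z : ℂ} (hz : z ∈ Sᶜ) :
    gaussK (form (Ns ε w)) z = - ε ^ 2 := by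
  have hid : ∀ z ∈ Sᶜ, (fderiv ℝ (fun y : ℂ => y) z).det ≠ 0 := by
    intro z _
    rw [det_fderiv_re]
    have h1 : Dx (fun y : ℂ => y) z = 1 := by simp [Dx]
    have h2 : Dy (fun y : ℂ => y) z = Complex.I := by simp [Dy]
    rw [h1, h2]
    simp
  exact h.curv_III_comp (g := fun y => y) h.closed.isOpen_compl contDiffOn_id (fun _ h => h) hid
    z hz

end Pool.Agent.KK
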