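import Pool.Agent.W_bb4b37_h53.Stmt

/-!
# Linear algebra of the Minkowski form
-/

set_option autoImplicit false

open Filter Topology Set MeasureTheory Metric
open scoped ContDiff

namespace Pool.Agent.KK

open Pool.Agent.KKS (mink Hyp klein sphere2 sph form gaussK Metric2)

/-- Expansion in the basis `Y, V, P, Q` whose Gram matrix is `diag (σ, -σ)` plus
`[E, F; F, G]`. -/
theorem mink_expand {Y V P Q : Fin 4 → ℝ} {σ E F G : ℝ} (hσ : σ = 1 ∨ σ = -1)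
    (hYY : mink Y Y = σ) (hVV : mink V V = -σ) (hYV : mink Y V = 0)
    (hYP : mink Y P = 0) (hYQ : mink Y Q = 0) (hVP : mink V P = 0) (hVQ : mink V Q = 0)
    (hE : mink P P = E) (hF : mink P Q = F) (hG : mink Q Q = G) (hD : E * G - F ^ 2 ≠ 0)
    (A B : Fin 4 → ℝ) :
    (E * G - F ^ 2) * (mink A B - σ * mink A Y * mink B Y + σ * mink A V * mink B V) =
      G * mink A P * mink B P - F * (mink A P * mink B Q + mink A Q * mink B P)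
        + E * mink A Q * mink B Q := by
  have hσ2 : σ * σ = 1 := by rcases hσ with h | h <;> rw [h] <;> norm_num
  set D := E * G - F ^ 2 with hDdef
  have hDi : D⁻¹ * D = 1 := inv_mul_cancel₀ hD
  let M : Matrix (Fin 4) (Fin 4) ℝ := Matrix.of fun i j =>
    ![![-Y 0, Y 1, Y 2, Y 3], ![-V 0, V 1, V 2, V 3], ![-P 0, P 1, P 2, P 3],
      ![-Q 0, Q 1, Q 2, Q 3]] i j
  let N : Matrix (Fin 4) (Fin 4) ℝ := Matrix.of fun i j =>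
    ![σ * Y i, -(σ * V i), D⁻¹ * (G * P i - F * Q i), D⁻¹ * (E * Q i - F * P i)] j
  have hMN : M * N = 1 := by
    unfold mink at hYY hVV hYV hYP hYQ hVP hVQ hE hF hG
    ext i j
    rw [Matrix.mul_apply, Fin.sum_univ_four]
    fin_cases i <;> fin_cases j
    · show -Y 0 * (σ * Y 0) + Y 1 * (σ * Y 1) + Y 2 * (σ * Y 2) + Y 3 * (σ * Y 3) = 1
      linear_combination σ * hYY + hσ2
    · show -Y 0 * (-(σ * V 0)) + Y 1 * (-(σ * V 1)) + Y 2 * (-(σ * V 2)) + Y 3 * (-(σ * V 3)) = 0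
      linear_combination -σ * hYV
    · show -Y 0 * (D⁻¹ * (G * P 0 - F * Q 0)) + Y 1 * (D⁻¹ * (G * P 1 - F * Q 1)) + Y 2 * (D⁻¹ * (G * P 2 - F * Q 2)) + Y 3 * (D⁻¹ * (G * P 3 - F * Q 3)) = 0
      linear_combination D⁻¹ * (G * hYP - F * hYQ)
    · show -Y 0 * (D⁻¹ * (E * Q 0 - F * P 0)) + Y 1 * (D⁻¹ * (E * Q 1 - F * P 1)) + Y 2 * (D⁻¹ * (E * Q 2 - F * P 2)) + Y 3 * (D⁻¹ * (E * Q 3 - F * P 3)) = 0
      linear_combination D⁻¹ * (E * hYQ - F * hYP)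
    · show -V 0 * (σ * Y 0) + V 1 * (σ * Y 1) + V 2 * (σ * Y 2) + V 3 * (σ * Y 3) = 0
      linear_combination σ * hYV
    · show -V 0 * (-(σ * V 0)) + V 1 * (-(σ * V 1)) + V 2 * (-(σ * V 2)) + V 3 * (-(σ * V 3)) = 1
      linear_combination -σ * hVV + hσ2
    · show -V 0 * (D⁻¹ * (G * P 0 - F * Q 0)) + V 1 * (D⁻¹ * (G * P 1 - F * Q 1)) + V 2 * (D⁻¹ * (G * P 2 - F * Q 2)) + V 3 * (D⁻¹ * (G * P 3 - F * Q 3)) = 0
      linear_combination D⁻¹ * (G * hVP - F * hVQ)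
    · show -V 0 * (D⁻¹ * (E * Q 0 - F * P 0)) + V 1 * (D⁻¹ * (E * Q 1 - F * P 1)) + V 2 * (D⁻¹ * (E * Q 2 - F * P 2)) + V 3 * (D⁻¹ * (E * Q 3 - F * P 3)) = 0
      linear_combination D⁻¹ * (E * hVQ - F * hVP)
    · show -P 0 * (σ * Y 0) + P 1 * (σ * Y 1) + P 2 * (σ * Y 2) + P 3 * (σ * Y 3) = 0
      linear_combination σ * hYP
    · show -P 0 * (-(σ * V 0)) + P 1 * (-(σ * V 1)) + P 2 * (-(σ * V 2)) + P 3 * (-(σ * V 3)) = 0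
      linear_combination -σ * hVP
    · show -P 0 * (D⁻¹ * (G * P 0 - F * Q 0)) + P 1 * (D⁻¹ * (G * P 1 - F * Q 1)) + P 2 * (D⁻¹ * (G * P 2 - F * Q 2)) + P 3 * (D⁻¹ * (G * P 3 - F * Q 3)) = 1
      linear_combination D⁻¹ * (G * hE - F * hF) + hDi - D⁻¹ * hDdef
    · show -P 0 * (D⁻¹ * (E * Q 0 - F * P 0)) + P 1 * (D⁻¹ * (E * Q 1 - F * P 1)) + P 2 * (D⁻¹ * (E * Q 2 - F * P 2)) + P 3 * (D⁻¹ * (E * Q 3 - F * P 3)) = 0
      linear_combination D⁻¹ * (E * hF - F * hE)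
    · show -Q 0 * (σ * Y 0) + Q 1 * (σ * Y 1) + Q 2 * (σ * Y 2) + Q 3 * (σ * Y 3) = 0
      linear_combination σ * hYQ
    · show -Q 0 * (-(σ * V 0)) + Q 1 * (-(σ * V 1)) + Q 2 * (-(σ * V 2)) + Q 3 * (-(σ * V 3)) = 0
      linear_combination -σ * hVQ
    · show -Q 0 * (D⁻¹ * (G * P 0 - F * Q 0)) + Q 1 * (D⁻¹ * (G * P 1 - F * Q 1)) + Q 2 * (D⁻¹ * (G * P 2 - F * Q 2)) + Q 3 * (D⁻¹ * (G * P 3 - F * Q 3)) = 0
      linear_combination D⁻¹ * (G * hF - F * hG)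
    · show -Q 0 * (D⁻¹ * (E * Q 0 - F * P 0)) + Q 1 * (D⁻¹ * (E * Q 1 - F * P 1)) + Q 2 * (D⁻¹ * (E * Q 2 - F * P 2)) + Q 3 * (D⁻¹ * (E * Q 3 - F * P 3)) = 1
      linear_combination D⁻¹ * (E * hG - F * hF) + hDi - D⁻¹ * hDdef
  have hNM : N * M = 1 := mul_eq_one_comm.mp hMN
  have e : ∀ i k : Fin 4, N i 0 * M 0 k + N i 1 * M 1 k + N i 2 * M 2 k + N i 3 * M 3 k =
      (1 : Matrix (Fin 4) (Fin 4) ℝ) i k := by
    intro i k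
    rw [← hNM, Matrix.mul_apply, Fin.sum_univ_four]
  have e00 : σ * Y 0 * (-Y 0) + -(σ * V 0) * (-V 0) + D⁻¹ * (G * P 0 - F * Q 0) * (-P 0)
      + D⁻¹ * (E * Q 0 - F * P 0) * (-Q 0) = 1 := e 0 0
  have e01 : σ * Y 0 * Y 1 + -(σ * V 0) * V 1 + D⁻¹ * (G * P 0 - F * Q 0) * P 1
      + D⁻¹ * (E * Q 0 - F * P 0) * Q 1 = 0 := e 0 1
  have e02 : σ * Y 0 * Y 2 + -(σ * V 0) * V 2 + D⁻¹ * (G * P 0 - F * Q 0) * P 2
      + D⁻¹ * (E * Q 0 - F * P 0) * Q 2 = 0 := e 0 2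
  have e03 : σ * Y 0 * Y 3 + -(σ * V 0) * V 3 + D⁻¹ * (G * P 0 - F * Q 0) * P 3
      + D⁻¹ * (E * Q 0 - F * P 0) * Q 3 = 0 := e 0 3
  have e10 : σ * Y 1 * (-Y 0) + -(σ * V 1) * (-V 0) + D⁻¹ * (G * P 1 - F * Q 1) * (-P 0)
      + D⁻¹ * (E * Q 1 - F * P 1) * (-Q 0) = 0 := e 1 0
  have e11 : σ * Y 1 * Y 1 + -(σ * V 1) * V 1 + D⁻¹ * (G * P 1 - F * Q 1) * P 1
      + D⁻¹ * (E * Q 1 - F * P 1) * Q 1 = 1 := e 1 1
  have e12 : σ * Y 1 * Y 2 + -(σ * V 1) * V 2 + D⁻¹ * (G * P 1 - F * Q 1) * P 2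
      + D⁻¹ * (E * Q 1 - F * P 1) * Q 2 = 0 := e 1 2
  have e13 : σ * Y 1 * Y 3 + -(σ * V 1) * V 3 + D⁻¹ * (G * P 1 - F * Q 1) * P 3
      + D⁻¹ * (E * Q 1 - F * P 1) * Q 3 = 0 := e 1 3
  have e20 : σ * Y 2 * (-Y 0) + -(σ * V 2) * (-V 0) + D⁻¹ * (G * P 2 - F * Q 2) * (-P 0)
      + D⁻¹ * (E * Q 2 - F * P 2) * (-Q 0) = 0 := e 2 0
  have e21 : σ * Y 2 * Y 1 + -(σ * V 2) * V 1 + D⁻¹ * (G * P 2 - F * Q 2) * P 1
      + D⁻¹ * (E * Q 2 - F * P 2) * Q 1 = 0 := e 2 1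
  have e22 : σ * Y 2 * Y 2 + -(σ * V 2) * V 2 + D⁻¹ * (G * P 2 - F * Q 2) * P 2
      + D⁻¹ * (E * Q 2 - F * P 2) * Q 2 = 1 := e 2 2
  have e23 : σ * Y 2 * Y 3 + -(σ * V 2) * V 3 + D⁻¹ * (G * P 2 - F * Q 2) * P 3
      + D⁻¹ * (E * Q 2 - F * P 2) * Q 3 = 0 := e 2 3
  have e30 : σ * Y 3 * (-Y 0) + -(σ * V 3) * (-V 0) + D⁻¹ * (G * P 3 - F * Q 3) * (-P 0)
      + D⁻¹ * (E * Q 3 - F * P 3) * (-Q 0) = 0 := e 3 0
  have e31 : σ * Y 3 * Y 1 + -(σ * V 3) * V 1 + D⁻¹ * (G * P 3 - F * Q 3) * P 1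
      + D⁻¹ * (E * Q 3 - F * P 3) * Q 1 = 0 := e 3 1
  have e32 : σ * Y 3 * Y 2 + -(σ * V 3) * V 2 + D⁻¹ * (G * P 3 - F * Q 3) * P 2
      + D⁻¹ * (E * Q 3 - F * P 3) * Q 2 = 0 := e 3 2
  have e33 : σ * Y 3 * Y 3 + -(σ * V 3) * V 3 + D⁻¹ * (G * P 3 - F * Q 3) * P 3
      + D⁻¹ * (E * Q 3 - F * P 3) * Q 3 = 1 := e 3 3
  have key : mink A B = σ * mink A Y * mink B Y - σ * mink A V * mink B V
      + D⁻¹ * ((G * mink A P - F * mink A Q) * mink B P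
      + (E * mink A Q - F * mink A P) * mink B Q) := by
    unfold mink
    linear_combination -((-A 0) * B 0 * e00
      + (-A 0) * B 1 * e01
      + (-A 0) * B 2 * e02
      + (-A 0) * B 3 * e03
      + A 1 * B 0 * e10
      + A 1 * B 1 * e11
      + A 1 * B 2 * e12
      + A 1 * B 3 * e13
      + A 2 * B 0 * e20
      + A 2 * B 1 * e21
      + A 2 * B 2 * e22
      + A 2 * B 3 * e23
      + A 3 * B 0 * e30
      + A 3 * B 1 * e31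
      + A 3 * B 2 * e32
      + A 3 * B 3 * e33)
  have h2 : D * (D⁻¹ * ((G * mink A P - F * mink A Q) * mink B P
      + (E * mink A Q - F * mink A P) * mink B Q)) = (G * mink A P - F * mink A Q) * mink B P
      + (E * mink A Q - F * mink A P) * mink B Q := by
    rw [← mul_assoc, mul_inv_cancel₀ hD, one_mul]
  linear_combination D * key + h2

end Pool.Agent.KK
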