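import Pool.Agent.W_bb4b37_h53.GeoDefs
import Pool.Agent.W_bb4b37_h53.GeoLin

/-!
# The Gauss equation
-/

set_option autoImplicit false

open Filter Topology Set MeasureTheory Metric
open scoped ContDiff

namespace Pool.Agent.KK

open Pool.Agent.KKS (mink Hyp klein sphere2 sph form gaussK Metric2)

theorem G2A_two_le : (2 : WithTop ℕ∞) ≤ ∞ := by
  have : ((2 : ℕ∞) : WithTop ℕ∞) ≤ ∞ := WithTop.coe_le_coe.2 le_top
  exact this

/-- product rule for the Minkowski form -/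
theorem G2A_fd {A B : ℂ → Fin 4 → ℝ} {z : ℂ} (hA : DifferentiableAt ℝ A z)
    (hB : DifferentiableAt ℝ B z) (v : ℂ) :
    fderiv ℝ (fun y => mink (A y) (B y)) z v =
      mink (fderiv ℝ A z v) (B z) + mink (A z) (fderiv ℝ B z v) := by
  have hA' : ∀ i, HasFDerivAt (fun y => A y i)
      ((ContinuousLinearMap.proj i).comp (fderiv ℝ A z)) z :=
    fun i => (hasFDerivAt_pi'.1 hA.hasFDerivAt) i
  have hB' : ∀ i, HasFDerivAt (fun y => B y i)
      ((ContinuousLinearMap.proj i).comp (fderiv ℝ B z)) z :=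
    fun i => (hasFDerivAt_pi'.1 hB.hasFDerivAt) i
  have h : HasFDerivAt (fun y => mink (A y) (B y)) _ z :=
    ((((hA' 1).mul (hB' 1)).add ((hA' 2).mul (hB' 2))).add ((hA' 3).mul (hB' 3))).sub
      ((hA' 0).mul (hB' 0))
  rw [h.fderiv]
  simp only [mink, _root_.sub_apply, _root_.add_apply,
    _root_.smul_apply, ContinuousLinearMap.comp_apply,
    ContinuousLinearMap.proj_apply, smul_eq_mul]
  ring

theorem G2A_Dx {A B : ℂ → Fin 4 → ℝ} {z : ℂ} (hA : DifferentiableAt ℝ A z)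
    (hB : DifferentiableAt ℝ B z) :
    Dx (fun y => mink (A y) (B y)) z = mink (Dx A z) (B z) + mink (A z) (Dx B z) :=
  G2A_fd hA hB 1

theorem G2A_Dy {A B : ℂ → Fin 4 → ℝ} {z : ℂ} (hA : DifferentiableAt ℝ A z)
    (hB : DifferentiableAt ℝ B z) :
    Dy (fun y => mink (A y) (B y)) z = mink (Dy A z) (B z) + mink (A z) (Dy B z) :=
  G2A_fd hA hB Complex.I

theorem G2A_mink_comm (x y : Fin 4 → ℝ) : mink x y = mink y x := by
  unfold mink
  ring

/-- **Gauss equation** for a surface `Y` in the quadric `⟨Y, Y⟩ = σ` of `ℝ^{3,1}` with unit normal `V`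
(`⟨V, V⟩ = -σ`): `K = σ (1 - det II / det g)`.

Proof. Differentiating, `⟨Y_i, Y⟩ = 0`, `⟨Y_ij, Y⟩ = - g_ij`, `⟨Y_ij, V⟩ = - ⟨Y_i, V_j⟩`,
`⟨Y_xx, Y_x⟩ = E_x / 2`, `⟨Y_xx, Y_y⟩ = F_x - E_y / 2`, `⟨Y_xy, Y_x⟩ = E_y / 2`,
`⟨Y_xy, Y_y⟩ = G_x / 2`, `⟨Y_yy, Y_x⟩ = F_y - G_x / 2`, `⟨Y_yy, Y_y⟩ = G_y / 2`, and
`⟨Y_xx, Y_yy⟩ - ⟨Y_xy, Y_xy⟩ = - E_yy / 2 + F_xy - G_xx / 2` (third derivatives cancel).
The vectors `Y, V, Y_x, Y_y` form a basis of `ℝ⁴` (their Gram determinant is `- det g ≠ 0`), so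
for vectors `A, B` one has
`⟨A, B⟩ = σ ⟨A,Y⟩⟨B,Y⟩ - σ ⟨A,V⟩⟨B,V⟩ + (tangential part)`, the tangential part being
`(G a₁ b₁ - F (a₁ b₂ + a₂ b₁) + E a₂ b₂) / det g` with `a_i = ⟨A, Y_i⟩`, `b_i = ⟨B, Y_i⟩`.
Insert this in the two determinants of Brioschi's formula. (A pure polynomial identity once the
expansion of `⟨A, B⟩` is known; the expansion can be proved by solving for the coefficients of
`A - ...` in the basis, or from nondegeneracy of the form.) -/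
theorem gauss_equation {U : Set ℂ} (hU : IsOpen U) {Y V : ℂ → Fin 4 → ℝ}
    (hY : ContDiffOn ℝ ∞ Y U) (hV : ContDiffOn ℝ ∞ V U) {σ : ℝ} (hσ : σ = 1 ∨ σ = -1)
    (hYY : ∀ z ∈ U, mink (Y z) (Y z) = σ) (hVV : ∀ z ∈ U, mink (V z) (V z) = -σ)
    (hYV : ∀ z ∈ U, mink (Y z) (V z) = 0)
    (h1 : ∀ z ∈ U, mink (Dx Y z) (V z) = 0) (h2 : ∀ z ∈ U, mink (Dy Y z) (V z) = 0)
    (hdet : ∀ z ∈ U, detg (form Y) z ≠ 0) :
    ∀ z ∈ U, gaussK (form Y) z = σ * (1 - detII Y V z / detg (form Y) z) := by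
  -- smoothness
  have one : ∀ {W : Type} [NormedAddCommGroup W] [NormedSpace ℝ W] {f : ℂ → W},
      ContDiffOn ℝ ∞ f U → ContDiffOn ℝ ∞ (Dx f) U ∧ ContDiffOn ℝ ∞ (Dy f) U := fun {W} _ _ {f} hf =>
    ⟨contDiffOn_Dx hU hf (by norm_num), contDiffOn_Dy hU hf (by norm_num)⟩
  have df : ∀ {W : Type} [NormedAddCommGroup W] [NormedSpace ℝ W] {f : ℂ → W},
      ContDiffOn ℝ ∞ f U → ∀ z ∈ U, DifferentiableAt ℝ f z := fun {W} _ _ {f} hf z hz =>
    (hf.contDiffAt (hU.mem_nhds hz)).differentiableAt (by norm_num)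
  have hYx := (one hY).1
  have hYy := (one hY).2
  have hYxx := (one hYx).1
  have hYyx := (one hYx).2
  have hYxy := (one hYy).1
  have hYyy := (one hYy).2
  have hcomm : ∀ z ∈ U, Dy (Dx Y) z = Dx (Dy Y) z := fun z hz =>
    (Dx_Dy_comm ((hY.contDiffAt (hU.mem_nhds hz)).of_le G2A_two_le)).symm
  have ev : ∀ {α : Type} {f g : ℂ → α}, (∀ z ∈ U, f z = g z) → ∀ z ∈ U, f =ᶠ[𝓝 z] g :=
    fun {α} {f g} h z hz => Filter.eventuallyEq_of_mem (hU.mem_nhds hz) h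
  -- first order relations
  have r1 : ∀ z ∈ U, mink (Dx Y z) (Y z) = 0 := fun z hz => by
    have h := Dx_congr (ev (f := fun y => mink (Y y) (Y y)) (g := fun _ => σ) hYY z hz)
    rw [G2A_Dx (df hY z hz) (df hY z hz), Dx_const, G2A_mink_comm (Y z)] at h
    linarith
  have r2 : ∀ z ∈ U, mink (Dy Y z) (Y z) = 0 := fun z hz => by
    have h := Dy_congr (ev (f := fun y => mink (Y y) (Y y)) (g := fun _ => σ) hYY z hz)
    rw [G2A_Dy (df hY z hz) (df hY z hz), Dy_const, G2A_mink_comm (Y z)] at h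
    linarith
  intro z hz
  -- second order relations
  have s1 : mink (Dx (Dx Y) z) (Y z) = -mink (Dx Y z) (Dx Y z) := by
    have h := Dx_congr (ev (f := fun y => mink (Dx Y y) (Y y)) (g := fun _ => (0 : ℝ)) r1 z hz)
    rw [G2A_Dx (df hYx z hz) (df hY z hz), Dx_const] at h
    linarith
  have s2 : mink (Dy (Dx Y) z) (Y z) = -mink (Dx Y z) (Dy Y z) := by
    have h := Dy_congr (ev (f := fun y => mink (Dx Y y) (Y y)) (g := fun _ => (0 : ℝ)) r1 z hz)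
    rw [G2A_Dy (df hYx z hz) (df hY z hz), Dy_const] at h
    linarith
  have s3 : mink (Dy (Dy Y) z) (Y z) = -mink (Dy Y z) (Dy Y z) := by
    have h := Dy_congr (ev (f := fun y => mink (Dy Y y) (Y y)) (g := fun _ => (0 : ℝ)) r2 z hz)
    rw [G2A_Dy (df hYy z hz) (df hY z hz), Dy_const] at h
    linarith
  have t1 : mink (Dx (Dx Y) z) (V z) = -mink (Dx Y z) (Dx V z) := by
    have h := Dx_congr (ev (f := fun y => mink (Dx Y y) (V y)) (g := fun _ => (0 : ℝ)) h1 z hz)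
    rw [G2A_Dx (df hYx z hz) (df hV z hz), Dx_const] at h
    linarith
  have t2 : mink (Dy (Dx Y) z) (V z) = -mink (Dx Y z) (Dy V z) := by
    have h := Dy_congr (ev (f := fun y => mink (Dx Y y) (V y)) (g := fun _ => (0 : ℝ)) h1 z hz)
    rw [G2A_Dy (df hYx z hz) (df hV z hz), Dy_const] at h
    linarith
  have t3 : mink (Dy (Dy Y) z) (V z) = -mink (Dy Y z) (Dy V z) := by
    have h := Dy_congr (ev (f := fun y => mink (Dy Y y) (V y)) (g := fun _ => (0 : ℝ)) h2 z hz)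
    rw [G2A_Dy (df hYy z hz) (df hV z hz), Dy_const] at h
    linarith
  -- first derivatives of the coefficients
  have Ex : ∀ z ∈ U, Dx (fun y => mink (Dx Y y) (Dx Y y)) z =
      2 * mink (Dx (Dx Y) z) (Dx Y z) := fun z hz => by
    rw [G2A_Dx (df hYx z hz) (df hYx z hz), G2A_mink_comm (Dx Y z)]
    ring
  have Ey : ∀ z ∈ U, Dy (fun y => mink (Dx Y y) (Dx Y y)) z =
      2 * mink (Dy (Dx Y) z) (Dx Y z) := fun z hz => by
    rw [G2A_Dy (df hYx z hz) (df hYx z hz), G2A_mink_comm (Dx Y z)]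
    ring
  have Fx : ∀ z ∈ U, Dx (fun y => mink (Dx Y y) (Dy Y y)) z =
      mink (Dx (Dx Y) z) (Dy Y z) + mink (Dx Y z) (Dx (Dy Y) z) := fun z hz =>
    G2A_Dx (df hYx z hz) (df hYy z hz)
  have Fy : ∀ z ∈ U, Dy (fun y => mink (Dx Y y) (Dy Y y)) z =
      mink (Dy (Dx Y) z) (Dy Y z) + mink (Dx Y z) (Dy (Dy Y) z) := fun z hz =>
    G2A_Dy (df hYx z hz) (df hYy z hz)
  have Gx : ∀ z ∈ U, Dx (fun y => mink (Dy Y y) (Dy Y y)) z =
      2 * mink (Dx (Dy Y) z) (Dy Y z) := fun z hz => by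
    rw [G2A_Dx (df hYy z hz) (df hYy z hz), G2A_mink_comm (Dy Y z)]
    ring
  have Gy : ∀ z ∈ U, Dy (fun y => mink (Dy Y y) (Dy Y y)) z =
      2 * mink (Dy (Dy Y) z) (Dy Y z) := fun z hz => by
    rw [G2A_Dy (df hYy z hz) (df hYy z hz), G2A_mink_comm (Dy Y z)]
    ring
  -- second derivatives of the coefficients
  have mulc : ∀ {A B : ℂ → Fin 4 → ℝ}, DifferentiableAt ℝ A z → DifferentiableAt ℝ B z →
      DifferentiableAt ℝ (fun y => mink (A y) (B y)) z := by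
    intro A B hA hB
    have hA' : ∀ i, DifferentiableAt ℝ (fun y => A y i) z := fun i => differentiableAt_pi.1 hA i
    have hB' : ∀ i, DifferentiableAt ℝ (fun y => B y i) z := fun i => differentiableAt_pi.1 hB i
    exact ((((hA' 1).mul (hB' 1)).add ((hA' 2).mul (hB' 2))).add ((hA' 3).mul (hB' 3))).sub
      ((hA' 0).mul (hB' 0))
  have Eyy : Dy (Dy (fun y => mink (Dx Y y) (Dx Y y))) z =
      2 * (mink (Dy (Dy (Dx Y)) z) (Dx Y z) + mink (Dy (Dx Y) z) (Dy (Dx Y) z)) := by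
    rw [Dy_congr (ev Ey z hz)]
    have h := Dy_const_smul (2 : ℝ) (mulc (df hYyx z hz) (df hYx z hz))
    simp only [smul_eq_mul] at h
    rw [h, G2A_Dy (df hYyx z hz) (df hYx z hz)]
  have Fxy : Dx (Dy (fun y => mink (Dx Y y) (Dy Y y))) z =
      (mink (Dx (Dy (Dx Y)) z) (Dy Y z) + mink (Dy (Dx Y) z) (Dx (Dy Y) z)) +
        (mink (Dx (Dx Y) z) (Dy (Dy Y) z) + mink (Dx Y z) (Dx (Dy (Dy Y)) z)) := by
    rw [Dx_congr (ev Fy z hz), Dx_add (mulc (df hYyx z hz) (df hYy z hz))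
      (mulc (df hYx z hz) (df hYyy z hz)), G2A_Dx (df hYyx z hz) (df hYy z hz),
      G2A_Dx (df hYx z hz) (df hYyy z hz)]
  have Gxx : Dx (Dx (fun y => mink (Dy Y y) (Dy Y y))) z =
      2 * (mink (Dx (Dx (Dy Y)) z) (Dy Y z) + mink (Dx (Dy Y) z) (Dx (Dy Y) z)) := by
    rw [Dx_congr (ev Gx z hz)]
    have h := Dx_const_smul (2 : ℝ) (mulc (df hYxy z hz) (df hYy z hz))
    simp only [smul_eq_mul] at h
    rw [h, G2A_Dx (df hYxy z hz) (df hYy z hz)]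
  have th1 : Dy (Dy (Dx Y)) z = Dx (Dy (Dy Y)) z := by
    rw [Dy_congr (ev hcomm z hz)]
    exact (Dx_Dy_comm ((hYy.contDiffAt (hU.mem_nhds hz)).of_le G2A_two_le)).symm
  have th2 : Dx (Dy (Dx Y)) z = Dx (Dx (Dy Y)) z := Dx_congr (ev hcomm z hz)
  -- the expansions
  have hD := hdet z hz
  have hc := hcomm z hz
  have hexp := fun A B => mink_expand (Y := Y z) (V := V z) (P := Dx Y z) (Q := Dy Y z) hσ
    (hYY z hz) (hVV z hz) (hYV z hz) (by rw [G2A_mink_comm]; exact r1 z hz)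
    (by rw [G2A_mink_comm]; exact r2 z hz) (by rw [G2A_mink_comm]; exact h1 z hz)
    (by rw [G2A_mink_comm]; exact h2 z hz) rfl rfl rfl hD A B
  have e1 := hexp (Dx (Dx Y) z) (Dy (Dy Y) z)
  have e2 := hexp (Dy (Dx Y) z) (Dy (Dx Y) z)
  rw [s1, s3, t1, t3] at e1
  rw [s2, t2] at e2
  have gK : gaussK (form Y) z = (Matrix.det
      !![-(Dy (Dy (fun y => mink (Dx Y y) (Dx Y y))) z) / 2 +
            Dx (Dy (fun y => mink (Dx Y y) (Dy Y y))) z -
            Dx (Dx (fun y => mink (Dy Y y) (Dy Y y))) z / 2,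
          Dx (fun y => mink (Dx Y y) (Dx Y y)) z / 2,
          Dx (fun y => mink (Dx Y y) (Dy Y y)) z - Dy (fun y => mink (Dx Y y) (Dx Y y)) z / 2;
        Dy (fun y => mink (Dx Y y) (Dy Y y)) z - Dx (fun y => mink (Dy Y y) (Dy Y y)) z / 2,
          mink (Dx Y z) (Dx Y z), mink (Dx Y z) (Dy Y z);
        Dy (fun y => mink (Dy Y y) (Dy Y y)) z / 2, mink (Dx Y z) (Dy Y z), mink (Dy Y z) (Dy Y z)]
      - Matrix.det !![0, Dy (fun y => mink (Dx Y y) (Dx Y y)) z / 2,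
          Dx (fun y => mink (Dy Y y) (Dy Y y)) z / 2;
        Dy (fun y => mink (Dx Y y) (Dx Y y)) z / 2, mink (Dx Y z) (Dx Y z), mink (Dx Y z) (Dy Y z);
        Dx (fun y => mink (Dy Y y) (Dy Y y)) z / 2, mink (Dx Y z) (Dy Y z),
          mink (Dy Y z) (Dy Y z)]) /
      (mink (Dx Y z) (Dx Y z) * mink (Dy Y z) (Dy Y z) - mink (Dx Y z) (Dy Y z) ^ 2) ^ 2 := rfl
  have hdg : detg (form Y) z =
      mink (Dx Y z) (Dx Y z) * mink (Dy Y z) (Dy Y z) - mink (Dx Y z) (Dy Y z) ^ 2 := rfl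
  rw [gK, hdg]
  rw [hdg] at hD
  rw [Eyy, Fxy, Gxx, Ex z hz, Ey z hz, Fx z hz, Fy z hz, Gx z hz, Gy z hz, ← hc, ← th2, ← th1]
  unfold detII
  rw [Matrix.det_fin_three, Matrix.det_fin_three]
  simp only [Matrix.of_apply, Matrix.cons_val', Matrix.cons_val_zero, Matrix.cons_val_one,
    Matrix.cons_val_two, Matrix.head_cons, Matrix.tail_cons, Matrix.head_fin_const,
    Matrix.cons_val_fin_one, Matrix.empty_val']
  rw [G2A_mink_comm (Dx Y z) (Dy (Dx Y) z), G2A_mink_comm (Dx Y z) (Dy (Dy Y) z),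
    G2A_mink_comm (Dx Y z) (Dy (Dy (Dx Y)) z)]
  set E := mink (Dx Y z) (Dx Y z)
  set F := mink (Dx Y z) (Dy Y z)
  set G := mink (Dy Y z) (Dy Y z)
  set II := mink (Dx Y z) (Dx V z) * mink (Dy Y z) (Dy V z) - mink (Dx Y z) (Dy V z) ^ 2 with hII
  have fin : σ * (1 - II / (E * G - F ^ 2)) * (E * G - F ^ 2) ^ 2 =
      σ * (E * G - F ^ 2 - II) * (E * G - F ^ 2) := by
    field_simp
  rw [div_eq_iff (pow_ne_zero 2 hD), fin, hII]
  linear_combination e1 - e2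

end Pool.Agent.KK
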