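import Pool.Agent.W_bb4b37_h53.GeoDefs

/-!
# Circle domains
-/

set_option autoImplicit false

open Filter Topology Set MeasureTheory Metric
open scoped ContDiff

namespace Pool.Agent.KK

open Pool.Agent.KKS (mink Hyp klein sphere2 sph form gaussK Metric2)

/-- The complement of `S ∪ {∞}` in the Riemann sphere is a circle domain if `S` is closed, totally
disconnected, has connected complement and every point of `S` lies in a compact subset `Q` of `S`
with `S \ Q` closed. All components of `S ∪ {∞}` are points. -/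
theorem circleDomain_of {S : Set ℂ} (hS : IsClosed S) (htd : IsTotallyDisconnected S)
    (hc : IsConnected Sᶜ)
    (hQ : ∀ x ∈ S, ∃ Q : Set ℂ, IsCompact Q ∧ Q ⊆ S ∧ x ∈ Q ∧ IsClosed (S \ Q)) :
    KKS.IsCircleDomain (OnePoint.some '' Sᶜ) := by
  have hemb : Topology.IsOpenEmbedding (OnePoint.some : ℂ → OnePoint ℂ) :=
    OnePoint.isOpenEmbedding_coe
  have hcont : Continuous (OnePoint.some : ℂ → OnePoint ℂ) := hemb.continuous
  have hinf : ∀ B : Set ℂ, (OnePoint.infty : OnePoint ℂ) ∈ (OnePoint.some '' B)ᶜ := by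
    rintro B ⟨y, -, hy⟩
    exact OnePoint.coe_ne_infty y hy
  have hmem : ∀ (B : Set ℂ) (y : ℂ), (OnePoint.some y : OnePoint ℂ) ∈ (OnePoint.some '' B)ᶜ →
      y ∉ B := fun B y hy hyB => hy ⟨y, hyB, rfl⟩
  have hT : ∀ A : Set (OnePoint ℂ), A ⊆ (OnePoint.some '' Sᶜ)ᶜ → IsPreconnected A →
      ∀ x ∈ A, ∀ y ∈ A, x = y := by
    intro A hA hpre
    by_cases hAi : (OnePoint.infty : OnePoint ℂ) ∈ A
    · have hall : ∀ x ∈ A, x = OnePoint.infty := by
        intro x hx
        by_contra hne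
        obtain ⟨y, rfl⟩ := OnePoint.ne_infty_iff_exists.1 hne
        have hyS : y ∈ S := not_not.1 (hmem _ _ (hA hx))
        obtain ⟨Q, hQc, hQS, hyQ, hQcl⟩ := hQ y hyS
        have h1 : IsClosed ((OnePoint.some : ℂ → OnePoint ℂ) '' Q) := (hQc.image hcont).isClosed
        have h2 : IsClosed (((OnePoint.some : ℂ → OnePoint ℂ) '' (S \ Q)ᶜ)ᶜ) :=
          (hemb.isOpenMap _ hQcl.isOpen_compl).isClosed_compl
        have h3 : A ⊆ (OnePoint.some '' Q) ∪ ((OnePoint.some : ℂ → OnePoint ℂ) '' (S \ Q)ᶜ)ᶜ := by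
          intro w hw
          by_cases hwQ : w ∈ (OnePoint.some : ℂ → OnePoint ℂ) '' Q
          · exact Or.inl hwQ
          · right
            rintro ⟨v, hv, rfl⟩
            have hvS : v ∈ S := not_not.1 (hmem _ _ (hA hw))
            exact hv ⟨hvS, fun hvQ => hwQ ⟨v, hvQ, rfl⟩⟩
        obtain ⟨w, -, hw1, hw2⟩ := (isPreconnected_closed_iff.1 hpre) _ _ h1 h2 h3
          ⟨_, hx, ⟨y, hyQ, rfl⟩⟩ ⟨_, hAi, hinf _⟩
        obtain ⟨v, hvQ, rfl⟩ := hw1
        exact hw2 ⟨v, fun hv => hv.2 hvQ, rfl⟩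
      intro x hx y hy
      rw [hall x hx, hall y hy]
    · have hB : IsPreconnected ((OnePoint.some : ℂ → OnePoint ℂ) ⁻¹' A) := by
        rw [← hemb.isInducing.isPreconnected_image, Set.image_preimage_eq_of_subset]
        · exact hpre
        · intro x hx
          have hne : x ≠ OnePoint.infty := fun h => hAi (h ▸ hx)
          obtain ⟨y, rfl⟩ := OnePoint.ne_infty_iff_exists.1 hne
          exact ⟨y, rfl⟩
      have hBS : (OnePoint.some : ℂ → OnePoint ℂ) ⁻¹' A ⊆ S := fun y hy =>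
        not_not.1 (hmem _ _ (hA hy))
      have hsub := htd _ hBS hB
      intro x hx y hy
      have hnx : x ≠ OnePoint.infty := fun h => hAi (h ▸ hx)
      have hny : y ≠ OnePoint.infty := fun h => hAi (h ▸ hy)
      obtain ⟨x', rfl⟩ := OnePoint.ne_infty_iff_exists.1 hnx
      obtain ⟨y', rfl⟩ := OnePoint.ne_infty_iff_exists.1 hny
      rw [hsub hx hy]
  refine ⟨hemb.isOpenMap _ hS.isOpen_compl, hc.image _ hcont.continuousOn,
    ⟨OnePoint.infty, hinf _⟩, fun x hx => Or.inl ?_⟩
  apply Set.Subset.antisymm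
  · intro y hy
    exact hT _ (connectedComponentIn_subset _ _) isPreconnected_connectedComponentIn y hy x
      (mem_connectedComponentIn hx)
  · rintro y rfl
    exact mem_connectedComponentIn hx

end Pool.Agent.KK
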