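import Pool.Agent.W_bb4b37_h53.Geo3B
import Pool.Agent.W_bb4b37_h53.Geo3C
import Pool.Agent.W_bb4b37_h53.Geo3D

/-!
# Completeness, closed geodesics, circle domains (all)
-/

set_option autoImplicit false

open Filter Topology Set MeasureTheory Metric
open scoped ContDiff

namespace Pool.Agent.KK

open Pool.Agent.KKS (mink Hyp klein sphere2 sph form gaussK Metric2)


end Pool.Agent.KK
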