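import Pool.Agent.W_bb4b37_h53.Geo2

/-!
# The metrics are Riemannian
-/

set_option autoImplicit false

open Filter Topology Set MeasureTheory Metric
open scoped ContDiff

namespace Pool.Agent.KK

open Pool.Agent.KKS (mink Hyp klein sphere2 sph form gaussK Metric2)

variable {C ε : ℝ} {S : Set ℂ} {w : ℂ → ℝ}

theorem contDiffOn_mink {Y V : ℂ → Fin 4 → ℝ} {U : Set ℂ} (hY : ContDiffOn ℝ ∞ Y U)
    (hV : ContDiffOn ℝ ∞ V U) : ContDiffOn ℝ ∞ (fun z => mink (Y z) (V z)) U := by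
  rw [contDiffOn_pi] at hY hV
  unfold mink
  exact ((((hY 1).mul (hV 1)).add ((hY 2).mul (hV 2))).add ((hY 3).mul (hV 3))).sub
    ((hY 0).mul (hV 0))

theorem contDiffOn_form {Y : ℂ → Fin 4 → ℝ} {U : Set ℂ} (hU : IsOpen U)
    (hY : ContDiffOn ℝ ∞ Y U) : ContDiffOn ℝ ∞ (form Y).E U ∧ ContDiffOn ℝ ∞ (form Y).F U ∧
      ContDiffOn ℝ ∞ (form Y).G U := by
  have hx : ContDiffOn ℝ ∞ (Dx Y) U := contDiffOn_Dx hU hY (by simp)
  have hy : ContDiffOn ℝ ∞ (Dy Y) U := contDiffOn_Dy hU hY (by simp)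
  exact ⟨contDiffOn_mink hx hx, contDiffOn_mink hx hy, contDiffOn_mink hy hy⟩

/-- `form (Ns ε w)` is a Riemannian metric on `Sᶜ`, and it is comparable with `|dc|² / R²`:
`(0.99 / R)² |v|² ≤ g (v, v) ≤ |v|² / R²`. -/
theorem Geo.riem_III (h : Geo C ε S w) : (form (Ns ε w)).IsRiemannian Sᶜ := by
  obtain ⟨-, -, -, -, hX, hN⟩ := h.smooth_all
  obtain ⟨h1, h2, h3⟩ := contDiffOn_form h.closed.isOpen_compl hN
  exact ⟨h1, h2, h3, fun z hz => ⟨(h.detII_eq hz).2.2, (h.detII_eq hz).2.1⟩⟩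

theorem Geo.riem_I (h : Geo C ε S w) : (form (Xs ε w)).IsRiemannian Sᶜ := by
  obtain ⟨-, -, -, -, hX, hN⟩ := h.smooth_all
  obtain ⟨h1, h2, h3⟩ := contDiffOn_form h.closed.isOpen_compl hX
  exact ⟨h1, h2, h3, fun z hz => ⟨(h.detI_eq hz).2, (h.detI_pos hz).1⟩⟩

theorem Geo.speed_bounds (h : Geo C ε S w) {γ : ℝ → ℂ} {t : ℝ} (ht : γ t ∈ Sᶜ) :
    9 / 10 * ‖deriv γ t‖ / Rr ε w (γ t) ≤ (form (Ns ε w)).speed γ t ∧
      (form (Ns ε w)).speed γ t ≤ ‖deriv γ t‖ / Rr ε w (γ t) := by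
  obtain ⟨hE, hF, hG⟩ := h.form_Ns ht
  have hR := h.Rr_pos (γ t)
  have hg := h.gR_le ht
  have hgd : gR ε w (γ t) = Rr ε w (γ t) ^ 2 * ((Dx w (γ t)) ^ 2 + (Dy w (γ t)) ^ 2) := rfl
  have hn : ‖deriv γ t‖ ^ 2 = (deriv γ t).re ^ 2 + (deriv γ t).im ^ 2 := by
    rw [← Complex.normSq_eq_norm_sq, Complex.normSq_apply]; ring
  unfold Metric2.speed
  rw [hE, hF, hG]
  rw [hgd] at hg
  set R := Rr ε w (γ t)
  set a := (deriv γ t).re
  set b := (deriv γ t).im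
  set p := Dx w (γ t)
  set q := Dy w (γ t)
  set n := ‖deriv γ t‖
  have hn0 : 0 ≤ n := norm_nonneg _
  have e1 : (1 / R ^ 2 - p ^ 2) * a ^ 2 + 2 * -(p * q) * (a * b) + (1 / R ^ 2 - q ^ 2) * b ^ 2 =
      (a ^ 2 + b ^ 2) / R ^ 2 - (p * a + q * b) ^ 2 := by
    field_simp
    ring
  rw [e1, ← hn]
  have e2 : (p * a + q * b) ^ 2 ≤ (p ^ 2 + q ^ 2) * n ^ 2 := by
    rw [hn]; nlinarith [sq_nonneg (p * b - q * a)]
  have e3 : (p ^ 2 + q ^ 2) * n ^ 2 ≤ 1 / 100000 * (n ^ 2 / R ^ 2) := by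
    have : (p ^ 2 + q ^ 2) * n ^ 2 = (R ^ 2 * (p ^ 2 + q ^ 2)) * (n ^ 2 / R ^ 2) := by
      field_simp
    rw [this]
    exact mul_le_mul_of_nonneg_right hg (by positivity)
  constructor
  · apply Real.le_sqrt_of_sq_le
    have : (9 / 10 * n / R) ^ 2 = 81 / 100 * (n ^ 2 / R ^ 2) := by
      field_simp; ring
    rw [this]
    have : 0 ≤ n ^ 2 / R ^ 2 := by positivity
    linarith
  · apply Real.sqrt_le_iff.mpr
    refine ⟨by positivity, ?_⟩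
    rw [div_pow]
    linarith [sq_nonneg (p * a + q * b)]

end Pool.Agent.KK
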