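import Pool.Agent.W_bb4b37_h53.HeatC

/-!
# The heat semigroup on bounded smooth functions of the plane

`heat σ f z = ∫ f (z + √σ y) γ(y) dy` with the Gaussian `γ(y) = e^{-|y|²/4} / (4π)`.
-/
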