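import Pool.Agent.W_bb4b37_h53.SchauderA

/-!
# Interior estimates for the Laplacian (part A)
-/

set_option autoImplicit false

open Filter Topology Set MeasureTheory Metric
open scoped ContDiff

namespace Pool.Agent.KK

/-- `DD l f z` is a value of the iterated derivative. -/
theorem InteriorA_DD_eq {f : ℂ → ℝ} (hf : ContDiff ℝ ∞ f) (l : List Bool) :
    ∃ v : Fin l.length → ℂ, (∀ i, ‖v i‖ ≤ 1) ∧
      ∀ z, DD l f z = iteratedFDeriv ℝ l.length f z v := by
  induction l with
  | nil => exact ⟨fun i => i.elim0, fun i => i.elim0, fun z => by simp⟩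
  | cons b l ih =>
    obtain ⟨v, hv, h⟩ := ih
    have hd : ∀ z, DifferentiableAt ℝ (iteratedFDeriv ℝ l.length f) z := fun z =>
      (hf.differentiable_iteratedFDeriv (by exact_mod_cast WithTop.coe_lt_top _)) z
    have key : ∀ (e : ℂ) z, fderiv ℝ (DD l f) z e =
        iteratedFDeriv ℝ (l.length + 1) f z (Fin.cons e v) := by
      intro e z
      have h1 : DD l f = fun z => iteratedFDeriv ℝ l.length f z v := funext h
      rw [h1, iteratedFDeriv_succ_apply_left,
        fderiv_continuousMultilinear_apply_const_apply (hd z) v e]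
      simp
    cases b
    · refine ⟨Fin.cons Complex.I v, ?_, fun z => key _ z⟩
      intro i
      refine Fin.cases ?_ (fun j => ?_) i
      · simp
      · simpa using hv j
    · refine ⟨Fin.cons 1 v, ?_, fun z => key _ z⟩
      intro i
      refine Fin.cases ?_ (fun j => ?_) i
      · simp
      · simpa using hv j

theorem InteriorA_DD_le {f : ℂ → ℝ} (hf : ContDiff ℝ ∞ f) (l : List Bool) (z : ℂ) :
    |DD l f z| ≤ ‖iteratedFDeriv ℝ l.length f z‖ := by
  obtain ⟨v, hv, h⟩ := InteriorA_DD_eq hf l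
  rw [h z, ← Real.norm_eq_abs]
  refine (ContinuousMultilinearMap.le_opNorm _ _).trans ?_
  refine mul_le_of_le_one_right (norm_nonneg _) ?_
  exact Finset.prod_le_one (fun i _ => norm_nonneg _) fun i _ => hv i

/-- The transition function has bounded derivatives. -/
theorem InteriorA_trans : ∃ H : ℝ, 0 < H ∧ ∀ n : ℕ, n ≤ 3 → ∀ s : ℝ,
    ‖iteratedFDeriv ℝ n (fun s : ℝ => Real.smoothTransition (1 - s)) s‖ ≤ H := by
  set h : ℝ → ℝ := fun s => Real.smoothTransition (1 - s) with hh
  have hs : ContDiff ℝ ∞ h := Real.smoothTransition.contDiff.comp (contDiff_const.sub contDiff_id)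
  have key : ∀ n : ℕ, ∃ H : ℝ, 0 ≤ H ∧ ∀ s, ‖iteratedFDeriv ℝ n h s‖ ≤ H := by
    intro n
    have hc : Continuous (iteratedFDeriv ℝ n h) :=
      hs.continuous_iteratedFDeriv (by exact_mod_cast le_top)
    obtain ⟨H, hH⟩ := (isCompact_Icc (a := (-1 : ℝ)) (b := 2)).exists_bound_of_continuousOn
      hc.continuousOn
    refine ⟨max H 1, le_max_of_le_right zero_le_one, fun s => ?_⟩
    by_cases hsI : s ∈ Icc (-1 : ℝ) 2
    · exact (hH s hsI).trans (le_max_left _ _)
    · refine le_trans ?_ (le_max_right _ _)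
      have hloc : ∃ c : ℝ, |c| ≤ 1 ∧ h =ᶠ[𝓝 s] fun _ => c := by
        by_cases h1 : s < -1
        · refine ⟨1, by simp, ?_⟩
          filter_upwards [Iio_mem_nhds h1] with y hy
          exact Real.smoothTransition.one_of_one_le (by rw [mem_Iio] at hy; linarith)
        · refine ⟨0, by simp, ?_⟩
          have h2 : 2 < s := by
            by_contra h2
            exact hsI ⟨not_lt.1 h1, not_lt.1 h2⟩
          filter_upwards [Ioi_mem_nhds h2] with y hy
          exact Real.smoothTransition.zero_of_nonpos (by rw [mem_Ioi] at hy; linarith)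
      obtain ⟨c, hc1, hc2⟩ := hloc
      rw [(hc2.iteratedFDeriv ℝ n).self_of_nhds]
      by_cases hn : n = 0
      · subst hn
        rw [norm_iteratedFDeriv_zero]
        exact hc1
      · rw [iteratedFDeriv_const_of_ne hn]
        simp
  choose H hH0 hH using key
  refine ⟨H 0 + H 1 + H 2 + H 3 + 1, ?_, ?_⟩
  · have := hH0 0; have := hH0 1; have := hH0 2; have := hH0 3; linarith
  · intro n hn s
    have h0 := hH0 0; have h1 := hH0 1; have h2 := hH0 2; have h3 := hH0 3
    refine (hH n s).trans ?_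
    interval_cases n <;> linarith

/-- Derivatives of the quadratic function `c (‖z - z₀‖² - d)`. -/
theorem InteriorA_quad (z₀ : ℂ) (c d : ℝ) (hc : 0 < c) (z : ℂ) :
    ContDiff ℝ ∞ (fun z : ℂ => c * (‖z - z₀‖ ^ 2 - d)) ∧
    ‖iteratedFDeriv ℝ 1 (fun z : ℂ => c * (‖z - z₀‖ ^ 2 - d)) z‖ ≤ 2 * c * ‖z - z₀‖ ∧
    ‖iteratedFDeriv ℝ 2 (fun z : ℂ => c * (‖z - z₀‖ ^ 2 - d)) z‖ ≤ 2 * c ∧
    ‖iteratedFDeriv ℝ 3 (fun z : ℂ => c * (‖z - z₀‖ ^ 2 - d)) z‖ ≤ 0 := by
  have hfd : fderiv ℝ (fun z : ℂ => c * (‖z - z₀‖ ^ 2 - d)) =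
      fun z => (2 * c) • innerSL ℝ (z - z₀) := by
    funext z
    have h1 : HasFDerivAt (fun z : ℂ => z - z₀) (ContinuousLinearMap.id ℝ ℂ) z :=
      (hasFDerivAt_id z).sub_const z₀
    have h2 := (h1.norm_sq.sub_const d).const_mul c
    rw [h2.fderiv]
    ext v
    simp
    ring
  have hfd2 : fderiv ℝ (fun z : ℂ => (2 * c) • innerSL ℝ (z - z₀)) =
      fun _ => (2 * c) • innerSL ℝ := by
    funext z
    have h1 : HasFDerivAt (fun z : ℂ => z - z₀) (ContinuousLinearMap.id ℝ ℂ) z :=
      (hasFDerivAt_id z).sub_const z₀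
    have h3 : HasFDerivAt (fun z : ℂ => innerSL ℝ (z - z₀))
        ((innerSL ℝ).comp (ContinuousLinearMap.id ℝ ℂ)) z :=
      (innerSL ℝ : ℂ →L[ℝ] ℂ →L[ℝ] ℝ).hasFDerivAt.comp z h1
    have h2 := h3.const_smul (2 * c)
    exact h2.fderiv
  refine ⟨?_, ?_, ?_, ?_⟩
  · exact contDiff_const.mul (((contDiff_id.sub contDiff_const).norm_sq ℝ).sub contDiff_const)
  · rw [norm_iteratedFDeriv_one, hfd]
    simp only
    rw [norm_smul, innerSL_apply_norm, Real.norm_eq_abs, abs_of_pos (by positivity)]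
  · rw [← norm_iteratedFDeriv_fderiv, hfd, norm_iteratedFDeriv_one, hfd2]
    simp only
    rw [norm_smul, Real.norm_eq_abs, abs_of_pos (by positivity : 0 < 2 * c)]
    refine mul_le_of_le_one_right (by positivity) ?_
    exact norm_innerSL_le ℝ
  · rw [← norm_iteratedFDeriv_fderiv, hfd, ← norm_iteratedFDeriv_fderiv, hfd2,
      norm_iteratedFDeriv_one]
    simp


/-- Cut-off functions: for `0 < t < T` there is a smooth `χ` with values in `[0,1]`, `χ = 1` on
`ball z₀ t`, support in `closedBall z₀ T` and derivatives of order `≤ 3` bounded by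
`C / (T - t)^n`. Proof: a fixed smooth function of one variable `h` with `h = 1` on `(-∞, 0]` and
`h = 0` on `[1, ∞)`, and `χ z = h ((‖z - z₀‖² - t²) / (T² - t²))` for `t ≥ T / 2` (the general case
is reduced to this one by increasing `t`). Only `T ≤ 2 t` is needed. -/
theorem exists_cutoff : ∃ C : ℝ, 0 < C ∧ ∀ (z₀ : ℂ) (t T : ℝ), 0 < t → t < T → T ≤ 2 * t →
    ∃ χ : ℂ → ℝ, ContDiff ℝ ∞ χ ∧ (∀ z, 0 ≤ χ z ∧ χ z ≤ 1) ∧ (∀ z ∈ ball z₀ t, χ z = 1) ∧
      (∀ z, z ∉ ball z₀ T → χ z = 0) ∧
      ∀ l : List Bool, l.length ≤ 3 → ∀ z, |DD l χ z| ≤ C / (T - t) ^ l.length := by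
  obtain ⟨H, hH0, hH⟩ := InteriorA_trans
  refine ⟨48 * H, by positivity, fun z₀ t T ht htT _ => ?_⟩
  have hT : 0 < T := ht.trans htT
  have hTt : 0 < T - t := sub_pos.2 htT
  have hD : 0 < T ^ 2 - t ^ 2 := by nlinarith
  set c : ℝ := 1 / (T ^ 2 - t ^ 2) with hcdef
  have hc : 0 < c := by positivity
  have hcD : c * (T ^ 2 - t ^ 2) = 1 := by
    rw [hcdef]; field_simp
  set g : ℝ → ℝ := fun s => Real.smoothTransition (1 - s) with hg
  set q : ℂ → ℝ := fun z : ℂ => c * (‖z - z₀‖ ^ 2 - t ^ 2) with hq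
  have hgs : ContDiff ℝ ∞ g := Real.smoothTransition.contDiff.comp (contDiff_const.sub contDiff_id)
  have hqs : ContDiff ℝ ∞ q := (InteriorA_quad z₀ c (t ^ 2) hc 0).1
  have hχs : ContDiff ℝ ∞ (g ∘ q) := hgs.comp hqs
  have hout : ∀ z, T ≤ ‖z - z₀‖ → (g ∘ q) z = 0 := by
    intro z hz
    refine Real.smoothTransition.zero_of_nonpos ?_
    have h1 : T ^ 2 ≤ ‖z - z₀‖ ^ 2 := pow_le_pow_left₀ hT.le hz 2
    have h2 : c * (T ^ 2 - t ^ 2) ≤ c * (‖z - z₀‖ ^ 2 - t ^ 2) :=
      mul_le_mul_of_nonneg_left (by linarith) hc.le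
    rw [hcD] at h2
    simp only [hq]
    linarith
  refine ⟨g ∘ q, hχs, fun z => ⟨Real.smoothTransition.nonneg _, Real.smoothTransition.le_one _⟩,
    ?_, ?_, ?_⟩
  · intro z hz
    rw [mem_ball_iff_norm] at hz
    refine Real.smoothTransition.one_of_one_le ?_
    have h1 : ‖z - z₀‖ ^ 2 ≤ t ^ 2 := pow_le_pow_left₀ (norm_nonneg _) hz.le 2
    have h2 : c * (‖z - z₀‖ ^ 2 - t ^ 2) ≤ 0 := mul_nonpos_of_nonneg_of_nonpos hc.le (by linarith)
    simp only [hq]
    linarith
  · intro z hz
    rw [mem_ball_iff_norm, not_lt] at hz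
    exact hout z hz
  · intro l hl z
    by_cases hz : ‖z - z₀‖ ≤ T
    · refine (InteriorA_DD_le hχs l z).trans ?_
      have h1 := norm_iteratedFDeriv_comp_le (n := l.length) (N := ∞) hgs hqs
        (by exact_mod_cast le_top) z (C := H) (D := 2 / (T - t))
        (fun i hi => hH i (hi.trans hl) _) (fun i hi1 hi2 => by
          obtain ⟨_, d1, d2, d3⟩ := InteriorA_quad z₀ c (t ^ 2) hc z
          have hi3 : i ≤ 3 := hi2.trans hl
          have hc1 : c * (T - t) * (T + t) = 1 := by rw [← hcD]; ring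
          interval_cases i
          · refine d1.trans ?_
            rw [pow_one, le_div_iff₀ hTt]
            have h3 : c * (T - t) * ‖z - z₀‖ ≤ c * (T - t) * (T + t) :=
              mul_le_mul_of_nonneg_left (by linarith) (by positivity)
            nlinarith
          · refine d2.trans ?_
            rw [div_pow, le_div_iff₀ (by positivity)]
            have h3 : c * (T - t) * (T - t) ≤ c * (T - t) * (T + t) :=
              mul_le_mul_of_nonneg_left (by linarith) (by positivity)
            nlinarith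
          · refine d3.trans (by positivity))
      refine h1.trans ?_
      have h2 : ((l.length).factorial : ℝ) ≤ 6 := by
        have : (l.length).factorial ≤ Nat.factorial 3 := Nat.factorial_le hl
        exact_mod_cast this
      have h3 : (2 : ℝ) ^ l.length ≤ 8 := by
        have : (2 : ℝ) ^ l.length ≤ 2 ^ 3 := pow_le_pow_right₀ (by norm_num) hl
        linarith
      rw [div_pow, ← mul_div_assoc]
      refine div_le_div_of_nonneg_right ?_ (by positivity)
      calc ((l.length).factorial : ℝ) * H * 2 ^ l.length ≤ 6 * H * 8 := by gcongr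
        _ = 48 * H := by ring
    · rw [not_le] at hz
      have hloc : (g ∘ q) =ᶠ[𝓝 z] fun _ => (0 : ℝ) := by
        have ho : IsOpen {y : ℂ | T < ‖y - z₀‖} :=
          isOpen_lt continuous_const (continuous_id.sub continuous_const).norm
        filter_upwards [ho.mem_nhds hz] with y hy
        exact hout y (le_of_lt hy)
      have h0 : ∀ l : List Bool, ∀ z, DD l (fun _ : ℂ => (0 : ℝ)) z = 0 := by
        intro l
        induction l with
        | nil => intro z; rfl
        | cons b l ih =>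
          intro z
          have e : DD l (fun _ : ℂ => (0 : ℝ)) = fun _ => 0 := funext ih
          cases b
          · rw [DD_false, e]; exact Dy_const 0 z
          · rw [DD_true, e]; exact Dx_const 0 z
      rw [DD_congr hloc l, h0, abs_zero]
      positivity

theorem InteriorA_bcinf {f : ℂ → ℝ} (hf : ContDiff ℝ ∞ f) (hc : HasCompactSupport f) :
    BCinf f :=
  ⟨hf, fun n => (hf.continuous_iteratedFDeriv
    (by exact_mod_cast le_top)).bounded_above_of_compact_support (hc.iteratedFDeriv n)⟩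

theorem InteriorA_lap_mul {χ u : ℂ → ℝ} (hχ : ContDiff ℝ ∞ χ) (hu : ContDiff ℝ ∞ u) (z : ℂ) :
    Lap (fun y => χ y * u y) z =
      χ z * Lap u z + 2 * (Dx χ z * Dx u z + Dy χ z * Dy u z) + u z * Lap χ z := by
  have dχ : Differentiable ℝ χ := hχ.differentiable (by simp)
  have du : Differentiable ℝ u := hu.differentiable (by simp)
  have dχx : Differentiable ℝ (Dx χ) := (contDiff_DD hχ [true]).differentiable (by simp)
  have dχy : Differentiable ℝ (Dy χ) := (contDiff_DD hχ [false]).differentiable (by simp)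
  have dux : Differentiable ℝ (Dx u) := (contDiff_DD hu [true]).differentiable (by simp)
  have duy : Differentiable ℝ (Dy u) := (contDiff_DD hu [false]).differentiable (by simp)
  have e1 : Dx (fun y => χ y * u y) = fun y => Dx χ y * u y + χ y * Dx u y :=
    funext fun y => Dx_mul (dχ y) (du y)
  have e2 : Dy (fun y => χ y * u y) = fun y => Dy χ y * u y + χ y * Dy u y :=
    funext fun y => Dy_mul (dχ y) (du y)
  have h1 : Dx (fun y => Dx χ y * u y + χ y * Dx u y) z =
      (Dx (Dx χ) z * u z + Dx χ z * Dx u z) + (Dx χ z * Dx u z + χ z * Dx (Dx u) z) := by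
    rw [Dx_add (f := fun y => Dx χ y * u y) (g := fun y => χ y * Dx u y)
      ((dχx z).mul (du z)) ((dχ z).mul (dux z)), Dx_mul (dχx z) (du z), Dx_mul (dχ z) (dux z)]
  have h2 : Dy (fun y => Dy χ y * u y + χ y * Dy u y) z =
      (Dy (Dy χ) z * u z + Dy χ z * Dy u z) + (Dy χ z * Dy u z + χ z * Dy (Dy u) z) := by
    rw [Dy_add (f := fun y => Dy χ y * u y) (g := fun y => χ y * Dy u y)
      ((dχy z).mul (du z)) ((dχ z).mul (duy z)), Dy_mul (dχy z) (du z), Dy_mul (dχ z) (duy z)]
  unfold Lap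
  rw [e1, e2, h1, h2]
  ring

/-- Interior gradient estimate. Proof: by scaling `r = 1`, `z₀ = 0` (`DD_comp_affine`,
`Lap_comp_affine`). Let `Φ = sup_{|z|<1} (1 - |z|) |∇u z|` on a slightly smaller closed ball, so
that it is finite; for a point `z` put `d = 1 - |z|` and apply `landau_lap` to `χ u`, where `χ` is
a cut-off equal to `1` near `z` with support in `ball z (θ d)`, and with `t = κ θ d`:
`Δ(χu) = χ Δu + 2 ∇χ·∇u + u Δχ`. One gets `Φ ≤ 1/2 Φ + C (sup |u| + sup |Δu|)` for suitable
absolute `κ, θ`. -/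
theorem interior_grad : ∃ C : ℝ, 0 < C ∧ ∀ (u : ℂ → ℝ) (z₀ : ℂ) (r M : ℝ), ContDiff ℝ ∞ u →
    0 < r → (∀ z ∈ ball z₀ r, |u z| ≤ M) → (∀ z ∈ ball z₀ r, r ^ 2 * |Lap u z| ≤ M) →
    ∀ z ∈ ball z₀ (r / 2), ∀ l : List Bool, l.length = 1 → r * |DD l u z| ≤ C * M := by
  obtain ⟨C₁, hC₁, L⟩ := landau_lap
  obtain ⟨C₂, hC₂, K⟩ := exists_cutoff
  set κ : ℝ := 1 / (64 * C₁ * C₂) with hκ
  have hκ0 : 0 < κ := by positivity
  have hκ1 : 32 * C₁ * C₂ * κ = 1 / 2 := by
    rw [hκ]; field_simp; norm_num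
  set C₃ : ℝ := 2 * C₁ * (1 / κ + κ * (1 + 32 * C₂)) with hC₃
  have hC₃0 : 0 < C₃ := by positivity
  refine ⟨4 * C₃, by positivity, fun u z₀ r M hu hr hM hL z hz l hl => ?_⟩
  have hM0 : 0 ≤ M := (abs_nonneg _).trans (hM z₀ (mem_ball_self hr))
  set ρ : ℝ := 3 * r / 4 with hρ
  have hρ0 : 0 < ρ := by positivity
  have hρr : ρ < r := by rw [hρ]; linarith
  set G : ℂ → ℝ := fun y => max |Dx u y| |Dy u y| with hG
  have cG : Continuous G := ((contDiff_DD hu [true]).continuous.abs).max
    ((contDiff_DD hu [false]).continuous.abs)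
  have hG0 : ∀ y, 0 ≤ G y := fun y => (abs_nonneg _).trans (le_max_left _ _)
  have hGl : ∀ (l : List Bool), l.length = 1 → ∀ y, |DD l u y| ≤ G y := by
    intro l hl y
    match l, hl with
    | [true], _ => exact le_max_left _ _
    | [false], _ => exact le_max_right _ _
  set F : ℂ → ℝ := fun y => (ρ - ‖y - z₀‖) * G y with hF
  have cF : Continuous F :=
    (continuous_const.sub (continuous_id.sub continuous_const).norm).mul cG
  obtain ⟨zs, hzs, hmax⟩ := (isCompact_closedBall z₀ ρ).exists_isMaxOn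
    ⟨z₀, mem_closedBall_self hρ0.le⟩ cF.continuousOn
  have hmax' : ∀ y, ‖y - z₀‖ ≤ ρ → F y ≤ F zs := fun y hy =>
    hmax (mem_closedBall_iff_norm.2 hy)
  have hΦ0 : 0 ≤ F zs := by
    refine le_trans ?_ (hmax' z₀ (by simpa using hρ0.le))
    simp only [hF]
    exact mul_nonneg (by simpa using hρ0.le) (hG0 _)
  rw [mem_closedBall_iff_norm] at hzs
  have main : F zs ≤ C₃ * M := by
    set d : ℝ := ρ - ‖zs - z₀‖ with hd
    have hd0 : 0 ≤ d := by rw [hd]; linarith
    have hFd : F zs = d * G zs := rfl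
    rcases hd0.eq_or_lt with hd1 | hd1
    · rw [hFd, ← hd1, zero_mul]; positivity
    have hdr : d ≤ r := by
      have := norm_nonneg (zs - z₀)
      rw [hd]; linarith
    obtain ⟨χ, hχ, hχ01, hχ1, hχ0, hχd⟩ := K zs (d / 4) (d / 2) (by positivity) (by linarith)
      (by linarith)
    have hdd : d / 2 - d / 4 = d / 4 := by ring
    rw [hdd] at hχd
    set Φ : ℝ := F zs with hΦ
    -- points of the closed ball of radius `d / 2` around `zs`
    have hnear : ∀ y, ‖y - zs‖ ≤ d / 2 → d / 2 ≤ ρ - ‖y - z₀‖ := by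
      intro y hy
      have h1 : ‖y - z₀‖ ≤ ‖y - zs‖ + ‖zs - z₀‖ := norm_sub_le_norm_sub_add_norm_sub _ _ _
      rw [hd] at hy ⊢
      linarith
    have hnear2 : ∀ y, ‖y - zs‖ ≤ d / 2 → y ∈ ball z₀ r := by
      intro y hy
      have := hnear y hy
      rw [mem_ball_iff_norm]
      linarith
    have hGn : ∀ y, ‖y - zs‖ ≤ d / 2 → G y ≤ 2 * Φ / d := by
      intro y hy
      have h1 := hnear y hy
      have h2 : F y ≤ Φ := hmax' y (by linarith)
      have h3 : d / 2 * G y ≤ F y := mul_le_mul_of_nonneg_right h1 (hG0 y)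
      rw [le_div_iff₀ hd1]
      linarith
    set v : ℂ → ℝ := fun y => χ y * u y with hv
    have hvs : ContDiff ℝ ∞ v := hχ.mul hu
    have hvc : HasCompactSupport v := by
      refine HasCompactSupport.intro (isCompact_closedBall zs (d / 2)) fun y hy => ?_
      have : y ∉ ball zs (d / 2) := fun h => hy (ball_subset_closedBall h)
      simp only [hv]
      rw [hχ0 y this, zero_mul]
    have hvM : ∀ y, |v y| ≤ M := by
      intro y
      simp only [hv]
      by_cases hy : y ∈ ball zs (d / 2)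
      · have h1 := hM y (hnear2 y (by rw [mem_ball_iff_norm] at hy; exact hy.le))
        rw [abs_mul, abs_of_nonneg (hχ01 y).1]
        calc χ y * |u y| ≤ 1 * |u y| := mul_le_mul_of_nonneg_right (hχ01 y).2 (abs_nonneg _)
          _ ≤ M := by rw [one_mul]; exact h1
      · rw [hχ0 y hy, zero_mul, abs_zero]; exact hM0
    set N : ℝ := (M + 32 * C₂ * Φ + 32 * C₂ * M) / d ^ 2 with hN
    have hN0 : 0 ≤ N := by positivity
    have hvL : ∀ y, |Lap v y| ≤ N := by
      intro y
      by_cases hy : ‖y - zs‖ ≤ d / 2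
      · rw [InteriorA_lap_mul hχ hu]
        have a1 : |χ y * Lap u y| ≤ M / d ^ 2 := by
          rw [abs_mul, abs_of_nonneg (hχ01 y).1]
          have h1 : r ^ 2 * |Lap u y| ≤ M := hL y (hnear2 y hy)
          have h2 : d ^ 2 * |Lap u y| ≤ r ^ 2 * |Lap u y| :=
            mul_le_mul_of_nonneg_right (pow_le_pow_left₀ hd0 hdr 2) (abs_nonneg _)
          calc χ y * |Lap u y| ≤ 1 * |Lap u y| :=
                mul_le_mul_of_nonneg_right (hχ01 y).2 (abs_nonneg _)
            _ ≤ M / d ^ 2 := by rw [one_mul, le_div_iff₀ (by positivity)]; linarith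
        have g1 : |Dx χ y| ≤ 4 * C₂ / d := by
          have := hχd [true] (by simp) y
          simp only [List.length_cons, List.length_nil, DD_true, DD_nil] at this
          refine this.trans (le_of_eq ?_)
          field_simp
          try ring
        have g2 : |Dy χ y| ≤ 4 * C₂ / d := by
          have := hχd [false] (by simp) y
          simp only [List.length_cons, List.length_nil, DD_false, DD_nil] at this
          refine this.trans (le_of_eq ?_)
          field_simp
          try ring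
        have g3 : |Lap χ y| ≤ 32 * C₂ / d ^ 2 := by
          have t1 := hχd [true, true] (by simp) y
          have t2 := hχd [false, false] (by simp) y
          simp only [List.length_cons, List.length_nil, DD_false, DD_true, DD_nil] at t1 t2
          have e : 32 * C₂ / d ^ 2 = C₂ / (d / 4) ^ (0 + 1 + 1) + C₂ / (d / 4) ^ (0 + 1 + 1) := by
            field_simp
            ring
          rw [e]
          exact (abs_add_le _ _).trans (add_le_add t1 t2)
        have b1 : |Dx u y| ≤ 2 * Φ / d := (le_max_left _ _).trans (hGn y hy)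
        have b2 : |Dy u y| ≤ 2 * Φ / d := (le_max_right _ _).trans (hGn y hy)
        have a2 : |2 * (Dx χ y * Dx u y + Dy χ y * Dy u y)| ≤ 32 * C₂ * Φ / d ^ 2 := by
          rw [abs_mul, abs_two]
          have c1 : |Dx χ y * Dx u y| ≤ 4 * C₂ / d * (2 * Φ / d) := by
            rw [abs_mul]; exact mul_le_mul g1 b1 (abs_nonneg _) (by positivity)
          have c2 : |Dy χ y * Dy u y| ≤ 4 * C₂ / d * (2 * Φ / d) := by
            rw [abs_mul]; exact mul_le_mul g2 b2 (abs_nonneg _) (by positivity)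
          have e : 32 * C₂ * Φ / d ^ 2 =
              2 * (4 * C₂ / d * (2 * Φ / d) + 4 * C₂ / d * (2 * Φ / d)) := by
            field_simp
            ring
          rw [e]
          exact mul_le_mul_of_nonneg_left ((abs_add_le _ _).trans (add_le_add c1 c2)) (by norm_num)
        have a3 : |u y * Lap χ y| ≤ 32 * C₂ * M / d ^ 2 := by
          rw [abs_mul]
          have h1 := hM y (hnear2 y hy)
          have := mul_le_mul h1 g3 (abs_nonneg _) hM0
          refine this.trans (le_of_eq ?_)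
          ring
        have e : N = M / d ^ 2 + 32 * C₂ * Φ / d ^ 2 + 32 * C₂ * M / d ^ 2 := by
          rw [hN]; ring
        rw [e]
        exact (abs_add_le _ _).trans (add_le_add ((abs_add_le _ _).trans (add_le_add a1 a2)) a3)
      · rw [not_le] at hy
        have hloc : v =ᶠ[𝓝 y] fun _ => (0 : ℝ) := by
          have ho : IsOpen {w : ℂ | d / 2 < ‖w - zs‖} :=
            isOpen_lt continuous_const (continuous_id.sub continuous_const).norm
          filter_upwards [ho.mem_nhds hy] with w hw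
          have : w ∉ ball zs (d / 2) := by
            rw [mem_ball_iff_norm, not_lt]; exact le_of_lt hw
          simp only [hv]
          rw [hχ0 w this, zero_mul]
        have e1 : Dx (fun _ : ℂ => (0 : ℝ)) = fun _ => 0 := funext fun z => Dx_const 0 z
        have e2 : Dy (fun _ : ℂ => (0 : ℝ)) = fun _ => 0 := funext fun z => Dy_const 0 z
        have h0 : Lap (fun _ : ℂ => (0 : ℝ)) y = 0 := by
          unfold Lap
          rw [e1, e2, Dx_const, Dy_const, add_zero]
        rw [Lap_congr hloc, h0, abs_zero]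
        exact hN0
    have hland := fun l hl => L v M N (κ * d) (InteriorA_bcinf hvs hvc) hvM hvL (by positivity)
      zs l hl
    have hvu : v =ᶠ[𝓝 zs] u := by
      filter_upwards [ball_mem_nhds zs (by positivity : 0 < d / 4)] with y hy
      simp only [hv]
      rw [hχ1 y hy, one_mul]
    have k1 : |Dx u zs| ≤ C₁ * (M / (κ * d) + κ * d * N) := by
      have := hland [true] rfl
      rwa [DD_congr hvu] at this
    have k2 : |Dy u zs| ≤ C₁ * (M / (κ * d) + κ * d * N) := by
      have := hland [false] rfl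
      rwa [DD_congr hvu] at this
    have k3 : G zs ≤ C₁ * (M / (κ * d) + κ * d * N) := max_le k1 k2
    have k4 : Φ ≤ C₁ * (M / κ + κ * (M + 32 * C₂ * Φ + 32 * C₂ * M)) := by
      calc Φ = d * G zs := rfl
        _ ≤ d * (C₁ * (M / (κ * d) + κ * d * N)) := mul_le_mul_of_nonneg_left k3 hd0
        _ = C₁ * (M / κ + κ * (M + 32 * C₂ * Φ + 32 * C₂ * M)) := by
          rw [hN]
          field_simp
    have k5 : C₁ * (M / κ + κ * (M + 32 * C₂ * Φ + 32 * C₂ * M)) =
        C₃ * M / 2 + (32 * C₁ * C₂ * κ) * Φ := by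
      rw [hC₃]
      ring
    rw [k5, hκ1] at k4
    linarith
  have hzr : ‖z - z₀‖ < r / 2 := mem_ball_iff_norm.1 hz
  have h1 : F z ≤ F zs := hmax' z (by rw [hρ]; linarith)
  have h2 : r / 4 * G z ≤ F z := by
    refine mul_le_mul_of_nonneg_right ?_ (hG0 z)
    rw [hρ]
    linarith
  have h3 : r * |DD l u z| ≤ r * G z := mul_le_mul_of_nonneg_left (hGl l hl z) hr.le
  linarith

end Pool.Agent.KK
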