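import Pool.Agent.W_bb4b37_h53.InteriorA
import Pool.Agent.W_bb4b37_h53.SchauderB

/-!
# Interior estimates for the Laplacian (part B)
-/

set_option autoImplicit false

open Filter Topology Set MeasureTheory Metric
open scoped ContDiff

namespace Pool.Agent.KK

/-- smooth functions vanishing outside a ball have bounded derivatives -/
theorem InteriorB_bcinf {w : ℂ → ℝ} {T : ℝ} (hw : ContDiff ℝ ∞ w)
    (h : ∀ z, z ∉ ball (0 : ℂ) T → w z = 0) : BCinf w := by
  have hc : HasCompactSupport w := HasCompactSupport.intro (isCompact_closedBall (0 : ℂ) T)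
    (fun z hz => h z (fun h' => hz (ball_subset_closedBall h')))
  refine ⟨hw, fun n => ?_⟩
  obtain ⟨B, hB⟩ := (hc.iteratedFDeriv (𝕜 := ℝ) n).exists_bound_of_continuous
    (hw.continuous_iteratedFDeriv (by exact_mod_cast le_top))
  exact ⟨B, hB⟩

theorem InteriorB_Dx_mul {f g : ℂ → ℝ} (hf : ContDiff ℝ ∞ f) (hg : ContDiff ℝ ∞ g) :
    Dx (fun y => f y * g y) = fun y => Dx f y * g y + f y * Dx g y :=
  funext fun z => Dx_mul (hf.differentiable (by simp) z) (hg.differentiable (by simp) z)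

theorem InteriorB_Dy_mul {f g : ℂ → ℝ} (hf : ContDiff ℝ ∞ f) (hg : ContDiff ℝ ∞ g) :
    Dy (fun y => f y * g y) = fun y => Dy f y * g y + f y * Dy g y :=
  funext fun z => Dy_mul (hf.differentiable (by simp) z) (hg.differentiable (by simp) z)

theorem InteriorB_Lap_mul {f g : ℂ → ℝ} (hf : ContDiff ℝ ∞ f) (hg : ContDiff ℝ ∞ g) (z : ℂ) :
    Lap (fun y => f y * g y) z =
      f z * Lap g z + 2 * (Dx f z * Dx g z + Dy f z * Dy g z) + g z * Lap f z := by
  have hfx : ContDiff ℝ ∞ (Dx f) := contDiff_DD hf [true]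
  have hfy : ContDiff ℝ ∞ (Dy f) := contDiff_DD hf [false]
  have hgx : ContDiff ℝ ∞ (Dx g) := contDiff_DD hg [true]
  have hgy : ContDiff ℝ ∞ (Dy g) := contDiff_DD hg [false]
  have e1 : Dx (Dx (fun y => f y * g y)) z =
      Dx (Dx f) z * g z + Dx f z * Dx g z + (Dx f z * Dx g z + f z * Dx (Dx g) z) := by
    rw [InteriorB_Dx_mul hf hg, Dx_add ((hfx.mul hg).differentiable (by simp) z)
      ((hf.mul hgx).differentiable (by simp) z), InteriorB_Dx_mul hfx hg, InteriorB_Dx_mul hf hgx]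
  have e2 : Dy (Dy (fun y => f y * g y)) z =
      Dy (Dy f) z * g z + Dy f z * Dy g z + (Dy f z * Dy g z + f z * Dy (Dy g) z) := by
    rw [InteriorB_Dy_mul hf hg, Dy_add ((hfy.mul hg).differentiable (by simp) z)
      ((hf.mul hgy).differentiable (by simp) z), InteriorB_Dy_mul hfy hg, InteriorB_Dy_mul hf hgy]
  show Dx (Dx (fun y => f y * g y)) z + Dy (Dy (fun y => f y * g y)) z =
    f z * (Dx (Dx g) z + Dy (Dy g) z) + 2 * (Dx f z * Dx g z + Dy f z * Dy g z) +
      g z * (Dx (Dx f) z + Dy (Dy f) z)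
  rw [e1, e2]
  ring

/-- a fixed cut-off function -/
theorem InteriorB_cut : ∃ A : ℝ, 1 ≤ A ∧ ∃ χ : ℂ → ℝ, ContDiff ℝ ∞ χ ∧
    (∀ z ∈ ball (0 : ℂ) (1 / 2), χ z = 1) ∧ (∀ z, z ∉ ball (0 : ℂ) (3 / 4) → χ z = 0) ∧
      ∀ l : List Bool, l.length ≤ 3 → ∀ z, |DD l χ z| ≤ A := by
  obtain ⟨C, hC, h⟩ := exists_cutoff
  obtain ⟨χ, h1, h2, h3, h4, h5⟩ := h 0 (1 / 2) (3 / 4) (by norm_num) (by norm_num) (by norm_num)
  refine ⟨64 * C + 1, by linarith, χ, h1, h3, h4, fun l hl z => (h5 l hl z).trans ?_⟩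
  have e : (3 / 4 - 1 / 2 : ℝ) = 1 / 4 := by norm_num
  rw [e]
  have h6 : C / (1 / 4 : ℝ) ^ l.length = C * 4 ^ l.length := by
    rw [one_div, inv_pow, div_inv_eq_mul]
  rw [h6]
  have h7 : (4 : ℝ) ^ l.length ≤ 4 ^ 3 := pow_le_pow_right₀ (by norm_num) hl
  nlinarith

theorem InteriorB_grad : ∃ G : ℝ, 1 ≤ G ∧ ∀ (u : ℂ → ℝ) (M : ℝ), ContDiff ℝ ∞ u →
    (∀ z ∈ ball (0 : ℂ) 1, |u z| ≤ M) → (∀ z ∈ ball (0 : ℂ) 1, |Lap u z| ≤ M) →
    ∀ z ∈ ball (0 : ℂ) (7 / 8), ∀ l : List Bool, l.length = 1 → |DD l u z| ≤ G * M := by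
  obtain ⟨C, hC, h⟩ := interior_grad
  refine ⟨8 * C + 1, by linarith, fun u M hu h1 h2 z hz l hl => ?_⟩
  have hM : 0 ≤ M := (abs_nonneg _).trans (h1 0 (mem_ball_self one_pos))
  have hsub : ball z (1 / 8) ⊆ ball (0 : ℂ) 1 := by
    apply ball_subset_ball'
    rw [mem_ball] at hz
    linarith
  have h3 := h u z (1 / 8) M hu (by norm_num) (fun y hy => h1 y (hsub hy))
    (fun y hy => ?_) z (mem_ball_self (by norm_num)) l hl
  · have : |DD l u z| ≤ 8 * (C * M) := by linarith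
    nlinarith
  · have h4 := h2 y (hsub hy)
    have h5 := abs_nonneg (Lap u y)
    nlinarith

/-- the estimates of the localised function -/
theorem InteriorB_loc {A G : ℝ} {χ u : ℂ → ℝ} {M : ℝ} (hA : 1 ≤ A) (hG : 1 ≤ G)
    (hχ : ContDiff ℝ ∞ χ) (hχ0 : ∀ z, z ∉ ball (0 : ℂ) (3 / 4) → χ z = 0)
    (hχb : ∀ l : List Bool, l.length ≤ 3 → ∀ z, |DD l χ z| ≤ A)
    (hu : ContDiff ℝ ∞ u) (hu1 : ∀ z ∈ ball (0 : ℂ) 1, |u z| ≤ M)
    (hu2 : ∀ z ∈ ball (0 : ℂ) 1, |Lap u z| ≤ M)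
    (hu3 : ∀ z ∈ ball (0 : ℂ) (7 / 8), ∀ l : List Bool, l.length = 1 → |DD l u z| ≤ G * M) :
    (∀ z, |χ z * u z| ≤ 16 * A * G * M) ∧
      (∀ z, |Lap (fun y => χ y * u y) z| ≤ 16 * A * G * M) := by
  have hM : 0 ≤ M := (abs_nonneg _).trans (hu1 0 (mem_ball_self one_pos))
  have hAM : 0 ≤ A * M := by positivity
  have hAGM : A * M ≤ A * G * M := by nlinarith
  have hAGM0 : 0 ≤ A * G * M := by positivity
  constructor
  · intro z
    by_cases hz : z ∈ ball (0 : ℂ) (3 / 4)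
    · have h1 : |χ z| ≤ A := hχb [] (by simp) z
      have h2 := hu1 z (ball_subset_ball (by norm_num) hz)
      rw [abs_mul]
      have : |χ z| * |u z| ≤ A * M := mul_le_mul h1 h2 (abs_nonneg _) (by linarith)
      linarith
    · rw [hχ0 z hz, zero_mul, abs_zero]
      linarith
  · intro z
    by_cases hz : z ∈ ball (0 : ℂ) (7 / 8)
    · have hz1 : z ∈ ball (0 : ℂ) 1 := ball_subset_ball (by norm_num) hz
      rw [InteriorB_Lap_mul hχ hu]
      have a0 : |χ z| ≤ A := hχb [] (by simp) z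
      have a1 : |Dx χ z| ≤ A := hχb [true] (by simp) z
      have a2 : |Dy χ z| ≤ A := hχb [false] (by simp) z
      have a3 : |Dx (Dx χ) z| ≤ A := hχb [true, true] (by simp) z
      have a4 : |Dy (Dy χ) z| ≤ A := hχb [false, false] (by simp) z
      have a5 : |Lap χ z| ≤ 2 * A := by
        show |Dx (Dx χ) z + Dy (Dy χ) z| ≤ 2 * A
        refine (abs_add_le _ _).trans (by linarith)
      have b0 := hu1 z hz1
      have b1 : |Dx u z| ≤ G * M := hu3 z hz [true] rfl
      have b2 : |Dy u z| ≤ G * M := hu3 z hz [false] rfl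
      have b3 := hu2 z hz1
      have hA0 : 0 ≤ A := by linarith
      have c0 : |χ z * Lap u z| ≤ A * M := by
        rw [abs_mul]; exact mul_le_mul a0 b3 (abs_nonneg _) hA0
      have c1 : |Dx χ z * Dx u z| ≤ A * (G * M) := by
        rw [abs_mul]; exact mul_le_mul a1 b1 (abs_nonneg _) hA0
      have c2 : |Dy χ z * Dy u z| ≤ A * (G * M) := by
        rw [abs_mul]; exact mul_le_mul a2 b2 (abs_nonneg _) hA0
      have c3 : |u z * Lap χ z| ≤ M * (2 * A) := by
        rw [abs_mul]; exact mul_le_mul b0 a5 (abs_nonneg _) hM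
      have d1 : |2 * (Dx χ z * Dx u z + Dy χ z * Dy u z)| ≤ 4 * (A * (G * M)) := by
        rw [abs_mul, abs_of_pos (by norm_num : (0 : ℝ) < 2)]
        have := abs_add_le (Dx χ z * Dx u z) (Dy χ z * Dy u z)
        linarith
      have := abs_add_three (χ z * Lap u z) (2 * (Dx χ z * Dx u z + Dy χ z * Dy u z))
        (u z * Lap χ z)
      nlinarith
    · have hev : (fun y => χ y * u y) =ᶠ[𝓝 z] fun _ => (0 : ℝ) := by
        have hn : (closedBall (0 : ℂ) (3 / 4))ᶜ ∈ 𝓝 z := by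
          apply isClosed_closedBall.isOpen_compl.mem_nhds
          intro h'
          exact hz (closedBall_subset_ball (by norm_num) h')
        filter_upwards [hn] with y hy
        rw [hχ0 y (fun h' => hy (ball_subset_closedBall h')), zero_mul]
      rw [Lap_congr hev]
      have e0 : Lap (fun _ : ℂ => (0 : ℝ)) z = 0 := by
        have e1 : Dx (fun _ : ℂ => (0 : ℝ)) = fun _ => 0 := funext fun y => Dx_const 0 y
        have e2 : Dy (fun _ : ℂ => (0 : ℝ)) = fun _ => 0 := funext fun y => Dy_const 0 y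
        show Dx (Dx (fun _ : ℂ => (0 : ℝ))) z + Dy (Dy (fun _ : ℂ => (0 : ℝ))) z = 0
        rw [e1, e2, Dx_const, Dy_const, add_zero]
      rw [e0, abs_zero]
      linarith

theorem InteriorB_gh1 : ∃ C : ℝ, 0 < C ∧ ∀ (u : ℂ → ℝ) (M : ℝ), ContDiff ℝ ∞ u →
    (∀ z ∈ ball (0 : ℂ) 1, |u z| ≤ M) → (∀ z ∈ ball (0 : ℂ) 1, |Lap u z| ≤ M) →
    ∀ z ∈ ball (0 : ℂ) (1 / 2), ∀ z' ∈ ball (0 : ℂ) (1 / 2), ∀ l : List Bool, l.length = 1 →
      |DD l u z - DD l u z'| ≤ C * M * Real.sqrt ‖z - z'‖ := by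
  obtain ⟨A, hA, χ, hχ, hχ1, hχ0, hχb⟩ := InteriorB_cut
  obtain ⟨G, hG, hgrad⟩ := InteriorB_grad
  obtain ⟨C, hC, hgh⟩ := grad_holder
  refine ⟨C * (16 * A * G), by positivity, fun u M hu hu1 hu2 z hz z' hz' l hl => ?_⟩
  obtain ⟨l1, l2⟩ := InteriorB_loc hA hG hχ hχ0 hχb hu hu1 hu2 (hgrad u M hu hu1 hu2)
  have hw : BCinf (fun y => χ y * u y) :=
    InteriorB_bcinf (T := 3 / 4) (hχ.mul hu) (fun y hy => by rw [hχ0 y hy, zero_mul])
  have h1 := (hgh _ _ hw l1 l2 l hl).2 z z'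
  have hev : ∀ y ∈ ball (0 : ℂ) (1 / 2), (fun y => χ y * u y) =ᶠ[𝓝 y] u := by
    intro y hy
    filter_upwards [isOpen_ball.mem_nhds hy] with x hx
    rw [hχ1 x hx, one_mul]
  rw [DD_congr (hev z hz) l, DD_congr (hev z' hz') l] at h1
  refine h1.trans (le_of_eq ?_)
  ring

/-- scaling -/
theorem InteriorB_scale {u : ℂ → ℝ} {z₀ : ℂ} {r : ℝ} (hr : 0 < r) (t : ℝ) {z : ℂ}
    (hz : z ∈ ball z₀ (r * t)) :
    (z - z₀) / r ∈ ball (0 : ℂ) t ∧ z₀ + (r : ℂ) * ((z - z₀) / r) = z ∧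
      ∀ l : List Bool, DD l (fun y => u (z₀ + (r : ℂ) * y)) ((z - z₀) / r) =
        r ^ l.length * DD l u z := by
  have hrc : (r : ℂ) ≠ 0 := by exact_mod_cast hr.ne'
  have e : z₀ + (r : ℂ) * ((z - z₀) / r) = z := by
    field_simp
    ring
  refine ⟨?_, e, fun l => ?_⟩
  · rw [mem_ball_zero_iff, norm_div, Complex.norm_real, Real.norm_of_nonneg hr.le, div_lt_iff₀ hr]
    rw [mem_ball_iff_norm] at hz
    linarith
  · rw [DD_comp_affine, e, smul_eq_mul]

theorem InteriorB_ball {z₀ : ℂ} {r : ℝ} (hr : 0 < r) {y : ℂ} (hy : y ∈ ball (0 : ℂ) 1) :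
    z₀ + (r : ℂ) * y ∈ ball z₀ r := by
  rw [mem_ball_iff_norm, add_sub_cancel_left, norm_mul, Complex.norm_real,
    Real.norm_of_nonneg hr.le]
  rw [mem_ball_zero_iff] at hy
  nlinarith

theorem InteriorB_dist {z₀ z z' : ℂ} {r : ℝ} (hr : 0 < r) :
    ‖(z - z₀) / r - (z' - z₀) / r‖ = ‖z - z'‖ / r := by
  rw [← sub_div, norm_div, Complex.norm_real, Real.norm_of_nonneg hr.le]
  congr 2
  ring

theorem InteriorB_contDiff {u : ℂ → ℝ} (hu : ContDiff ℝ ∞ u) (z₀ : ℂ) (r : ℝ) :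
    ContDiff ℝ ∞ (fun y => u (z₀ + (r : ℂ) * y)) :=
  hu.comp (contDiff_const.add (contDiff_const.mul contDiff_id))

/-- Interior Hölder estimate for the gradient. Proof: apply `grad_holder` to `χ u`, the gradient of
`u` being bounded on a smaller ball by `interior_grad`. -/
theorem interior_grad_holder : ∃ C : ℝ, 0 < C ∧ ∀ (u : ℂ → ℝ) (z₀ : ℂ) (r M : ℝ),
    ContDiff ℝ ∞ u → 0 < r → (∀ z ∈ ball z₀ r, |u z| ≤ M) →
    (∀ z ∈ ball z₀ r, r ^ 2 * |Lap u z| ≤ M) →
    ∀ z ∈ ball z₀ (r / 2), ∀ z' ∈ ball z₀ (r / 2), ∀ l : List Bool, l.length = 1 →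
      r * |DD l u z - DD l u z'| ≤ C * M * Real.sqrt (‖z - z'‖ / r) := by
  obtain ⟨C, hC, h⟩ := InteriorB_gh1
  refine ⟨C, hC, fun u z₀ r M hu hr h1 h2 z hz z' hz' l hl => ?_⟩
  have e2 : r / 2 = r * (1 / 2) := by ring
  rw [e2] at hz hz'
  obtain ⟨a1, a2, a3⟩ := InteriorB_scale (u := u) hr (1 / 2) hz
  obtain ⟨b1, b2, b3⟩ := InteriorB_scale (u := u) hr (1 / 2) hz'
  have h3 := h (fun y => u (z₀ + (r : ℂ) * y)) M (InteriorB_contDiff hu z₀ r)
    (fun y hy => h1 _ (InteriorB_ball hr hy)) (fun y hy => by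
      rw [Lap_comp_affine, smul_eq_mul, abs_mul, abs_of_pos (by positivity : 0 < r ^ 2)]
      exact h2 _ (InteriorB_ball hr hy)) _ a1 _ b1 l hl
  rw [a3, b3, InteriorB_dist hr, hl, pow_one, ← mul_sub, abs_mul, abs_of_pos hr] at h3
  exact h3

/-- products of bounded Hölder functions -/
theorem InteriorB_prod {a a' b b' A B s : ℝ} (ha' : |a'| ≤ A) (hb : |b| ≤ B)
    (hda : |a - a'| ≤ A * s) (hdb : |b - b'| ≤ B * s) (hA : 0 ≤ A) (_hB : 0 ≤ B) (hs : 0 ≤ s) :
    |a * b - a' * b'| ≤ 2 * (A * B) * s := by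
  have e : a * b - a' * b' = (a - a') * b + a' * (b - b') := by ring
  rw [e]
  refine (abs_add_le _ _).trans ?_
  rw [abs_mul, abs_mul]
  have h1 : |a - a'| * |b| ≤ A * s * B := mul_le_mul hda hb (abs_nonneg _) (by positivity)
  have h2 : |a'| * |b - b'| ≤ A * (B * s) := mul_le_mul ha' hdb (abs_nonneg _) hA
  nlinarith

/-- algebra for `InteriorB_sch1` -/
theorem InteriorB_alg {A G M s H K : ℝ} {c0 c1 c2 c3 c4 L x y v c0' c1' c2' c3' c4' L' x' y' v' : ℝ}
    (hK : K = 256 * A * G + 16 * A * H) (hA : 0 ≤ A) (hG : 1 ≤ G) (hM : 0 ≤ M) (hs : 0 ≤ s)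
    (hH : 0 ≤ H)
    (p0 : |c0 * L - c0' * L'| ≤ 2 * (2 * A * M) * s)
    (p1 : |c1 * x - c1' * x'| ≤ 2 * (2 * A * (H * M)) * s)
    (p2 : |c2 * y - c2' * y'| ≤ 2 * (2 * A * (H * M)) * s)
    (q1 : |c3 * v - c3' * v'| ≤ 2 * (2 * A * (2 * G * M)) * s)
    (q2 : |c4 * v - c4' * v'| ≤ 2 * (2 * A * (2 * G * M)) * s) :
    |c0 * L + 2 * (c1 * x + c2 * y) + v * (c3 + c4) -
      (c0' * L' + 2 * (c1' * x' + c2' * y') + v' * (c3' + c4'))| ≤ K * M * s := by
  have e : c0 * L + 2 * (c1 * x + c2 * y) + v * (c3 + c4) -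
      (c0' * L' + 2 * (c1' * x' + c2' * y') + v' * (c3' + c4')) =
      (c0 * L - c0' * L') + 2 * (c1 * x - c1' * x') + 2 * (c2 * y - c2' * y') +
        (c3 * v - c3' * v') + (c4 * v - c4' * v') := by ring
  rw [e]
  have hAM : 0 ≤ A * M * s := by positivity
  have hAGM : A * M * s ≤ A * G * M * s := by
    have : A * G * M * s = (A * M * s) * G := by ring
    rw [this]
    nlinarith
  have hAHM : 0 ≤ A * H * M * s := by positivity
  have hKexp : K * M * s = 256 * (A * G * M * s) + 16 * (A * H * M * s) := by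
    rw [hK]; ring
  have e0 : 2 * (2 * A * M) * s = 4 * (A * M * s) := by ring
  have e1 : 2 * (2 * A * (H * M)) * s = 4 * (A * H * M * s) := by ring
  have e2 : 2 * (2 * A * (2 * G * M)) * s = 8 * (A * G * M * s) := by ring
  rw [e0, abs_le] at p0
  rw [e1, abs_le] at p1 p2
  rw [e2, abs_le] at q1 q2
  rw [hKexp, abs_le]
  generalize c0 * L - c0' * L' = r0 at *
  generalize c1 * x - c1' * x' = r1 at *
  generalize c2 * y - c2' * y' = r2 at *
  generalize c3 * v - c3' * v' = r3 at *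
  generalize c4 * v - c4' * v' = r4 at *
  generalize A * M * s = m0 at *
  generalize A * G * M * s = m1 at *
  generalize A * H * M * s = m2 at *
  obtain ⟨p0l, p0r⟩ := p0
  obtain ⟨p1l, p1r⟩ := p1
  obtain ⟨p2l, p2r⟩ := p2
  obtain ⟨q1l, q1r⟩ := q1
  obtain ⟨q2l, q2r⟩ := q2
  constructor <;> linarith

/-- Interior Schauder estimate, normalised. -/
theorem InteriorB_sch1 : ∃ C : ℝ, 0 < C ∧ ∀ (u : ℂ → ℝ) (M : ℝ), ContDiff ℝ ∞ u →
    (∀ z ∈ ball (0 : ℂ) 1, |u z| ≤ M) → (∀ z ∈ ball (0 : ℂ) 1, |Lap u z| ≤ M) →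
    (∀ z ∈ ball (0 : ℂ) 1, ∀ z' ∈ ball (0 : ℂ) 1, |Lap u z - Lap u z'| ≤
      M * Real.sqrt ‖z - z'‖) →
    (∀ z ∈ ball (0 : ℂ) (1 / 2), ∀ l : List Bool, l.length = 2 → |DD l u z| ≤ C * M) ∧
    ∀ z ∈ ball (0 : ℂ) (1 / 2), ∀ z' ∈ ball (0 : ℂ) (1 / 2), ∀ l : List Bool, l.length = 2 →
      |DD l u z - DD l u z'| ≤ C * M * Real.sqrt ‖z - z'‖ := by
  obtain ⟨A, hA, χ, hχ, hχ1, hχ0, hχb⟩ := InteriorB_cut
  obtain ⟨G, hG, hgrad⟩ := InteriorB_grad
  obtain ⟨Cg, hCg, hgh⟩ := interior_grad_holder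
  obtain ⟨C, hC, hsch⟩ := schauder
  set H : ℝ := 24 * Cg + 2 * G with hH
  have hHpos : 0 < H := by positivity
  set K : ℝ := 256 * A * G + 16 * A * H with hK
  have hKpos : 0 < K := by positivity
  refine ⟨2 * (C * K), by positivity, fun u M hu hu1 hu2 hu3 => ?_⟩
  have hM : 0 ≤ M := (abs_nonneg _).trans (hu1 0 (mem_ball_self one_pos))
  have hgr := hgrad u M hu hu1 hu2
  obtain ⟨l1, l2⟩ := InteriorB_loc hA hG hχ hχ0 hχb hu hu1 hu2 hgr
  have hwC : ContDiff ℝ ∞ (fun y => χ y * u y) := hχ.mul hu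
  have hw : BCinf (fun y => χ y * u y) :=
    InteriorB_bcinf (T := 3 / 4) hwC (fun y hy => by rw [hχ0 y hy, zero_mul])
  -- far points
  have hfar : ∀ z, z ∉ ball (0 : ℂ) (13 / 16) → (fun y => χ y * u y) =ᶠ[𝓝 z] fun _ => (0 : ℝ) := by
    intro z hz
    have hn : (closedBall (0 : ℂ) (3 / 4))ᶜ ∈ 𝓝 z := by
      apply isClosed_closedBall.isOpen_compl.mem_nhds
      intro h'
      exact hz (closedBall_subset_ball (by norm_num) h')
    filter_upwards [hn] with y hy
    rw [hχ0 y (fun h' => hy (ball_subset_closedBall h')), zero_mul]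
  have hDDz : ∀ (l : List Bool) (z : ℂ), DD l (fun _ : ℂ => (0 : ℝ)) z = 0 := by
    intro l
    induction l with
    | nil => intro z; rfl
    | cons b l ih =>
      intro z
      have e : DD l (fun _ : ℂ => (0 : ℝ)) = fun _ => 0 := funext ih
      cases b
      · rw [DD_false, e]; exact Dy_const 0 z
      · rw [DD_true, e]; exact Dx_const 0 z
  have hLap0 : ∀ z, z ∉ ball (0 : ℂ) (13 / 16) → Lap (fun y => χ y * u y) z = 0 := by
    intro z hz
    rw [Lap_congr (hfar z hz)]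
    have h1 := hDDz [true, true] z
    have h2 := hDDz [false, false] z
    show DD [true, true] (fun _ : ℂ => (0 : ℝ)) z + DD [false, false] (fun _ : ℂ => (0 : ℝ)) z = 0
    rw [h1, h2, add_zero]
  -- the Hölder estimate of the Laplacian
  have hχd : ∀ l : List Bool, l.length ≤ 2 → ∀ z z', ‖z - z'‖ ≤ 1 →
      |DD l χ z - DD l χ z'| ≤ 2 * A * Real.sqrt ‖z - z'‖ := by
    intro l hl z z' hd
    have h1 := mean_value_univ (f := DD l χ) (K := A)
      ((contDiff_DD hχ l).differentiable (by simp)) (fun y l' hl' => by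
        rw [← DD_append, Real.norm_eq_abs]
        exact hχb _ (by rw [List.length_append]; omega) y) z z'
    rw [Real.norm_eq_abs] at h1
    have h2 : ‖z - z'‖ ≤ Real.sqrt ‖z - z'‖ := by
      have h3 := Real.sq_sqrt (norm_nonneg (z - z'))
      have h4 : Real.sqrt ‖z - z'‖ ≤ 1 := by
        rw [Real.sqrt_le_one]
        exact hd
      nlinarith [Real.sqrt_nonneg ‖z - z'‖]
    have h5 : 2 * A * ‖z - z'‖ ≤ 2 * A * Real.sqrt ‖z - z'‖ := by gcongr
    linarith
  have hlapH : ∀ z z', |Lap (fun y => χ y * u y) z - Lap (fun y => χ y * u y) z'| ≤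
      K * M * Real.sqrt ‖z - z'‖ := by
    intro z z'
    set s := Real.sqrt ‖z - z'‖ with hs
    have hs0 : 0 ≤ s := Real.sqrt_nonneg _
    have hs2 : s ^ 2 = ‖z - z'‖ := Real.sq_sqrt (norm_nonneg _)
    by_cases hd : ‖z - z'‖ < 1 / 16
    · by_cases hz : z ∈ ball (0 : ℂ) (7 / 8) ∧ z' ∈ ball (0 : ℂ) (7 / 8)
      · obtain ⟨hz1, hz2⟩ := hz
        have hs1 : ‖z - z'‖ ≤ s := by
          have : s ≤ 1 := by
            rw [hs, Real.sqrt_le_one]
            linarith
          nlinarith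
        have hzb : z ∈ ball (0 : ℂ) 1 := ball_subset_ball (by norm_num) hz1
        have hzb' : z' ∈ ball (0 : ℂ) 1 := ball_subset_ball (by norm_num) hz2
        -- u
        have u0 : |u z - u z'| ≤ 2 * G * M * s := by
          have h1 := mean_value (f := u) (z₀ := 0) (r := 7 / 8) (K := G * M)
            (fun y _ => hu.differentiable (by simp) y)
            (fun y hy l hl => by rw [Real.norm_eq_abs]; exact hgr y hy l hl) hz1 hz2
          rw [Real.norm_eq_abs] at h1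
          have h2 : 2 * (G * M) * ‖z - z'‖ ≤ 2 * (G * M) * s := by gcongr
          linarith
        -- gradient
        have u1 : ∀ l : List Bool, l.length = 1 → |DD l u z - DD l u z'| ≤ H * M * s := by
          intro l hl
          have hsub : ball z (1 / 8) ⊆ ball (0 : ℂ) 1 := by
            apply ball_subset_ball'
            rw [mem_ball] at hz1
            linarith
          have h1 := hgh u z (1 / 8) M hu (by norm_num) (fun y hy => hu1 y (hsub hy))
            (fun y hy => by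
              have h4 := hu2 y (hsub hy)
              have h5 := abs_nonneg (Lap u y)
              nlinarith) z (mem_ball_self (by norm_num)) z' (by
              rw [mem_ball, dist_comm, dist_eq_norm]; linarith) l hl
          have h6 : Real.sqrt (‖z - z'‖ / (1 / 8)) ≤ 3 * s := by
            have : ‖z - z'‖ / (1 / 8) ≤ (3 * s) ^ 2 := by
              rw [mul_pow, hs2]
              have := norm_nonneg (z - z')
              linarith
            exact (Real.sqrt_le_left (by positivity)).2 this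
          have h7 : C * M * 0 ≤ 0 := by simp
          have h8 : Cg * M * Real.sqrt (‖z - z'‖ / (1 / 8)) ≤ Cg * M * (3 * s) := by
            gcongr
          have h9 : |DD l u z - DD l u z'| ≤ 24 * Cg * M * s := by linarith
          have h10 : 0 ≤ 2 * G * M * s := by positivity
          rw [hH]
          linarith
        -- Laplacian
        have u2 := hu3 z hzb z' hzb'
        have g1 := hgr z hz1
        have hHG : G ≤ H := by rw [hH]; linarith
        have gx : |Dx u z| ≤ H * M := (g1 [true] rfl).trans (by gcongr)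
        have gy : |Dy u z| ≤ H * M := (g1 [false] rfl).trans (by gcongr)
        have hd1 : ‖z - z'‖ ≤ 1 := by linarith
        rw [InteriorB_Lap_mul hχ hu, InteriorB_Lap_mul hχ hu]
        have A0 : (0 : ℝ) ≤ 2 * A := by linarith
        have hb0 := fun (l : List Bool) (hl : l.length ≤ 3) (y : ℂ) =>
          (hχb l hl y).trans (by linarith : A ≤ 2 * A)
        have p0 : |χ z * Lap u z - χ z' * Lap u z'| ≤ 2 * (2 * A * M) * s :=
          InteriorB_prod (hb0 [] (by simp) z') (hu2 z hzb) (hχd [] (by simp) z z' hd1) u2 A0 hM hs0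
        have p1 : |Dx χ z * Dx u z - Dx χ z' * Dx u z'| ≤ 2 * (2 * A * (H * M)) * s :=
          InteriorB_prod (hb0 [true] (by simp) z') gx (hχd [true] (by simp) z z' hd1)
            (u1 [true] rfl) A0 (by positivity) hs0
        have p2 : |Dy χ z * Dy u z - Dy χ z' * Dy u z'| ≤ 2 * (2 * A * (H * M)) * s :=
          InteriorB_prod (hb0 [false] (by simp) z') gy (hχd [false] (by simp) z z' hd1)
            (u1 [false] rfl) A0 (by positivity) hs0
        have q : ∀ l : List Bool, l.length = 2 →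
            |DD l χ z * u z - DD l χ z' * u z'| ≤ 2 * (2 * A * (2 * G * M)) * s := by
          intro l hl
          refine InteriorB_prod (hb0 l (by omega) z') ?_ (hχd l (by omega) z z' hd1) u0 A0
            (by positivity) hs0
          refine (hu1 z hzb).trans ?_
          nlinarith
        have q1 := q [true, true] rfl
        have q2 := q [false, false] rfl
        exact InteriorB_alg hK (by linarith) hG hM hs0 hHpos.le p0 p1 p2 q1 q2
      · have h1 : z ∉ ball (0 : ℂ) (13 / 16) ∧ z' ∉ ball (0 : ℂ) (13 / 16) := by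
          simp only [mem_ball_zero_iff, not_and_or, not_lt] at hz ⊢
          have t1 := norm_sub_norm_le z z'
          have t2 := norm_sub_norm_le z' z
          rw [norm_sub_rev] at t2
          rcases hz with hz | hz
          · exact ⟨by linarith, by linarith⟩
          · exact ⟨by linarith, by linarith⟩
        rw [hLap0 z h1.1, hLap0 z' h1.2, sub_zero, abs_zero]
        positivity
    · have hs4 : 1 / 4 ≤ s := by
        by_contra hcon
        push Not at hcon hd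
        nlinarith
      have t1 := l2 z
      have t2 := l2 z'
      have t3 : |Lap (fun y => χ y * u y) z - Lap (fun y => χ y * u y) z'| ≤
          32 * A * G * M := by
        have := abs_sub (Lap (fun y => χ y * u y) z) (Lap (fun y => χ y * u y) z')
        linarith
      refine t3.trans ?_
      have hAGM0 : 0 ≤ A * G * M := by positivity
      have h5 : 32 * A * G * M ≤ 128 * (A * G * M) * s := by nlinarith
      have hKexp : K * M * s = 256 * (A * G * M) * s + 16 * (A * H * M * s) := by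
        rw [hK]; ring
      have h6 : 0 ≤ A * H * M * s := by positivity
      have h7 : 0 ≤ A * G * M * s := by positivity
      rw [hKexp]
      nlinarith
  have hS := hsch _ _ hw hlapH
  have hev : ∀ y ∈ ball (0 : ℂ) (1 / 2), (fun y => χ y * u y) =ᶠ[𝓝 y] u := by
    intro y hy
    filter_upwards [isOpen_ball.mem_nhds hy] with x hx
    rw [hχ1 x hx, one_mul]
  have hCKM : 0 ≤ C * K * M := by positivity
  constructor
  · intro z hz l hl
    have h1 := hS l hl z 1
    have h2 : DD l (fun y => χ y * u y) 1 = 0 := by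
      rw [DD_congr (hfar 1 (by rw [mem_ball_zero_iff]; norm_num)) l]
      exact hDDz l 1
    rw [h2, DD_congr (hev z hz) l, sub_zero] at h1
    have h3 : Real.sqrt ‖z - 1‖ ≤ 2 := by
      have h4 : ‖z - 1‖ ≤ ‖z‖ + ‖(1 : ℂ)‖ := norm_sub_le z 1
      rw [mem_ball_zero_iff] at hz
      rw [norm_one] at h4
      have : ‖z - 1‖ ≤ 2 ^ 2 := by linarith
      exact (Real.sqrt_le_left (by norm_num)).2 this
    refine h1.trans ?_
    have h5 : C * (K * M) * Real.sqrt ‖z - 1‖ ≤ C * (K * M) * 2 := by gcongr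
    linarith
  · intro z hz z' hz' l hl
    have h1 := hS l hl z z'
    rw [DD_congr (hev z hz) l, DD_congr (hev z' hz') l] at h1
    refine h1.trans ?_
    have h2 : 0 ≤ C * (K * M) * Real.sqrt ‖z - z'‖ := by positivity
    linarith

/-- Interior Schauder estimate. Proof: apply `schauder` to `χ u`:
`Δ(χu) = χ Δu + 2 ∇χ·∇u + u Δχ` is Hölder continuous by `interior_grad_holder`; the sup bound of
`D²(χu)` follows from its Hölder bound, since it vanishes outside a ball. -/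
theorem interior_schauder : ∃ C : ℝ, 0 < C ∧ ∀ (u : ℂ → ℝ) (z₀ : ℂ) (r M : ℝ),
    ContDiff ℝ ∞ u → 0 < r → (∀ z ∈ ball z₀ r, |u z| ≤ M) →
    (∀ z ∈ ball z₀ r, r ^ 2 * |Lap u z| ≤ M) →
    (∀ z ∈ ball z₀ r, ∀ z' ∈ ball z₀ r,
      r ^ 2 * |Lap u z - Lap u z'| ≤ M * Real.sqrt (‖z - z'‖ / r)) →
    (∀ z ∈ ball z₀ (r / 2), ∀ l : List Bool, l.length = 2 → r ^ 2 * |DD l u z| ≤ C * M) ∧
    ∀ z ∈ ball z₀ (r / 2), ∀ z' ∈ ball z₀ (r / 2), ∀ l : List Bool, l.length = 2 →
      r ^ 2 * |DD l u z - DD l u z'| ≤ C * M * Real.sqrt (‖z - z'‖ / r) := by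
  obtain ⟨C, hC, h⟩ := InteriorB_sch1
  refine ⟨C, hC, fun u z₀ r M hu hr h1 h2 h3 => ?_⟩
  have hr2 : 0 < r ^ 2 := by positivity
  have h4 := h (fun y => u (z₀ + (r : ℂ) * y)) M (InteriorB_contDiff hu z₀ r)
    (fun y hy => h1 _ (InteriorB_ball hr hy)) (fun y hy => by
      rw [Lap_comp_affine, smul_eq_mul, abs_mul, abs_of_pos hr2]
      exact h2 _ (InteriorB_ball hr hy)) (fun y hy y' hy' => by
      rw [Lap_comp_affine, Lap_comp_affine, smul_eq_mul, smul_eq_mul, ← mul_sub, abs_mul,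
        abs_of_pos hr2]
      have h5 := h3 _ (InteriorB_ball hr hy) _ (InteriorB_ball hr hy')
      have e : ‖z₀ + (r : ℂ) * y - (z₀ + (r : ℂ) * y')‖ / r = ‖y - y'‖ := by
        rw [add_sub_add_left_eq_sub, ← mul_sub, norm_mul, Complex.norm_real,
          Real.norm_of_nonneg hr.le, mul_div_cancel_left₀ _ hr.ne']
      rw [e] at h5
      exact h5)
  have e2 : r / 2 = r * (1 / 2) := by ring
  rw [e2]
  constructor
  · intro z hz l hl
    obtain ⟨a1, a2, a3⟩ := InteriorB_scale (u := u) hr (1 / 2) hz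
    have h6 := h4.1 _ a1 l hl
    rw [a3, hl, abs_mul, abs_of_pos hr2] at h6
    exact h6
  · intro z hz z' hz' l hl
    obtain ⟨a1, a2, a3⟩ := InteriorB_scale (u := u) hr (1 / 2) hz
    obtain ⟨b1, b2, b3⟩ := InteriorB_scale (u := u) hr (1 / 2) hz'
    have h6 := h4.2 _ a1 _ b1 l hl
    rw [a3, b3, InteriorB_dist hr, hl, ← mul_sub, abs_mul, abs_of_pos hr2] at h6
    exact h6

end Pool.Agent.KK
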