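import Pool.Agent.W_bb4b37_h53.ConvB
import Pool.Agent.W_bb4b37_h53.LevelA

/-!
# Solutions at level `s`: existence, uniqueness, continuity in the set (part B)
-/

set_option autoImplicit false

open Filter Topology Set MeasureTheory Metric
open scoped ContDiff

namespace Pool.Agent.KK

/-- Upper bound for the scale. -/
theorem LevelB_exp_le {C ε a s : ℝ} {S : Set ℂ} {w : ℂ → ℝ} (hs : 0 < s)
    (h : LevelSol C ε a S s w) (z : ℂ) : Real.exp (w z) ≤ C / s := by
  rw [le_div_iff₀ hs]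
  exact (mul_le_mul_of_nonneg_left (le_max_right _ _) (Real.exp_pos _).le).trans (h.upper z)

/-- Lower bound for the scale. -/
theorem LevelB_le_exp {C ε a s D : ℝ} {S : Set ℂ} {w : ℂ → ℝ} (hC : 1 ≤ C) (hs : 0 < s)
    (h : LevelSol C ε a S s w) (z : ℂ) (hD : max (infDist z S) s ≤ D) :
    1 / (C * D) ≤ Real.exp (w z) := by
  have hD0 : 0 < D := hs.trans_le ((le_max_right _ _).trans hD)
  have hC0 : 0 < C := by linarith
  have h1 := h.lower z
  have h2 : Real.exp (w z) * max (infDist z S) s ≤ Real.exp (w z) * D :=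
    mul_le_mul_of_nonneg_left hD (Real.exp_pos _).le
  have h3 := h1.trans h2
  rw [div_le_iff₀ (by positivity)] at h3 ⊢
  linarith

/-- Locally uniform bounds. -/
theorem LevelB_local {C ε a s : ℝ} (hC : 1 ≤ C) (hs : 0 < s) (hs1 : s ≤ 1) {S : ℕ → Set ℂ}
    {S' : Set ℂ} {w : ℕ → ℂ → ℝ}
    (hS : ∀ η > 0, ∀ᶠ n in atTop, ∀ z, |infDist z (S n) - infDist z S'| ≤ η)
    (hw : ∀ n, LevelSol C ε a (S n) s (w n)) (z : ℂ) :
    ∃ r > 0, ∃ K : ℝ, ∀ᶠ i in atTop,
      (∀ y ∈ ball z r, ∀ l : List Bool, l.length ≤ 2 → |DD l (w i) y| ≤ K) ∧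
      ∀ y ∈ ball z r, ∀ y' ∈ ball z r, ∀ l : List Bool, l.length = 2 →
        |DD l (w i) y - DD l (w i) y'| ≤ K * Real.sqrt ‖y - y'‖ := by
  have hC0 : 0 < C := by linarith
  obtain ⟨E, hE⟩ : ∃ E, E = C / s := ⟨_, rfl⟩
  obtain ⟨D, hD⟩ : ∃ D, D = infDist z S' + 2 := ⟨_, rfl⟩
  have hE0 : 0 < E := by rw [hE]; positivity
  have hi0 : 0 ≤ infDist z S' := infDist_nonneg
  have hD0 : 0 < D := by rw [hD]; linarith
  have hr1 : s / (2 * C ^ 2) ≤ 1 := by
    rw [div_le_one (by positivity)]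
    nlinarith
  have k1 : 0 ≤ |Real.log (1 / (C * D))| := abs_nonneg _
  have k2 : 0 ≤ |Real.log E| := abs_nonneg _
  have k3 : 0 ≤ C * E := by positivity
  have k4 : 0 ≤ C * E ^ 2 := by positivity
  have k5 : 0 ≤ C * E ^ 2 * Real.sqrt E := by positivity
  refine ⟨s / (2 * C ^ 2), by positivity, |Real.log (1 / (C * D))| + |Real.log E| + C * E +
    C * E ^ 2 + C * E ^ 2 * Real.sqrt E, ?_⟩
  filter_upwards [hS 1 one_pos] with n hn
  have hup : ∀ y, Real.exp (w n y) ≤ E := fun y => by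
    rw [hE]
    exact LevelB_exp_le hs (hw n) y
  have hlo : ∀ y ∈ ball z (s / (2 * C ^ 2)), 1 / (C * D) ≤ Real.exp (w n y) := by
    intro y hy
    refine LevelB_le_exp hC hs (hw n) y (max_le ?_ (by rw [hD]; linarith))
    have h1 := (abs_le.1 (hn y)).2
    have h2 : infDist y S' ≤ infDist z S' + dist y z := infDist_le_infDist_add_dist
    have h3 : dist y z < s / (2 * C ^ 2) := hy
    rw [hD]
    linarith
  refine ⟨fun y hy l hl => ?_, fun y hy y' hy' l hl => ?_⟩
  · have e0 := hup y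
    have e1 := Real.exp_pos (w n y)
    rcases Nat.lt_or_ge l.length 1 with h0 | h0
    · have : l = [] := List.length_eq_zero_iff.1 (by omega)
      subst this
      rw [DD_nil]
      have h1 : w n y ≤ Real.log E := by
        rw [Real.le_log_iff_exp_le hE0]
        exact e0
      have h2 : Real.log (1 / (C * D)) ≤ w n y := by
        rw [Real.log_le_iff_le_exp (by positivity)]
        exact hlo y hy
      rw [abs_le]
      constructor
      · linarith [neg_abs_le (Real.log (1 / (C * D)))]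
      · linarith [le_abs_self (Real.log E)]
    · rcases Nat.lt_or_ge l.length 2 with h1 | h1
      · have h2 := (hw n).scaled.d1 y (mem_univ y) l (by omega)
        have h3 : C * Real.exp (w n y) ≤ C * E := by gcongr
        linarith
      · have h2 := (hw n).scaled.d2 y (mem_univ y) l (by omega)
        have h3 : C * Real.exp (w n y) ^ 2 ≤ C * E ^ 2 := by gcongr
        linarith
  · have e0 := hup y'
    have e1 := Real.exp_pos (w n y')
    have hd : ‖y - y'‖ ≤ s / C ^ 2 := by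
      have h1 : dist y z < s / (2 * C ^ 2) := hy
      have h2 : dist y' z < s / (2 * C ^ 2) := hy'
      have h3 : ‖y - y'‖ ≤ dist y z + dist y' z := by
        rw [← dist_eq_norm]
        exact dist_triangle_right _ _ _
      have h4 : s / C ^ 2 = s / (2 * C ^ 2) + s / (2 * C ^ 2) := by
        field_simp
        ring
      linarith
    have hc : C * ‖y - y'‖ ≤ Real.exp (-(w n y')) := by
      have h1 : C * ‖y - y'‖ ≤ C * (s / C ^ 2) := by gcongr
      have h2 : C * (s / C ^ 2) = E⁻¹ := by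
        rw [hE]
        field_simp
      rw [Real.exp_neg]
      rw [h2] at h1
      exact h1.trans (inv_anti₀ e1 e0)
    have h2 := (hw n).scaled.h2 y' (mem_univ y') y hc l hl
    refine h2.trans ?_
    have h3 : Real.sqrt (Real.exp (w n y') * ‖y - y'‖) ≤ Real.sqrt E * Real.sqrt ‖y - y'‖ := by
      rw [← Real.sqrt_mul hE0.le]
      apply Real.sqrt_le_sqrt
      gcongr
    have h4 : C * Real.exp (w n y') ^ 2 * Real.sqrt (Real.exp (w n y') * ‖y - y'‖) ≤
        C * E ^ 2 * (Real.sqrt E * Real.sqrt ‖y - y'‖) := by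
      gcongr
    refine h4.trans ?_
    rw [← mul_assoc]
    refine mul_le_mul_of_nonneg_right ?_ (Real.sqrt_nonneg _)
    linarith

/-- Convergence of the distance functions. -/
theorem LevelB_infDist {S : ℕ → Set ℂ} {S' : Set ℂ}
    (hS : ∀ η > 0, ∀ᶠ n in atTop, ∀ z, |infDist z (S n) - infDist z S'| ≤ η) (z : ℂ) :
    Tendsto (fun n => infDist z (S n)) atTop (𝓝 (infDist z S')) := by
  rw [Metric.tendsto_nhds]
  intro e he
  filter_upwards [hS (e / 2) (by positivity)] with n hn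
  rw [Real.dist_eq]
  linarith [hn z]

/-- Convergence of the penalty functions. -/
theorem LevelB_pen {s : ℝ} (hs : 0 < s) {S : ℕ → Set ℂ} {S' : Set ℂ}
    (hS : ∀ η > 0, ∀ᶠ n in atTop, ∀ z, |infDist z (S n) - infDist z S'| ≤ η) (z : ℂ) :
    Tendsto (fun n => pen Bpen (S n) s z) atTop (𝓝 (pen Bpen S' s z)) := by
  obtain ⟨_, hB, _⟩ := Bpen_spec
  rw [Metric.tendsto_nhds]
  intro e he
  have hq : 0 < Bpen / s ^ 3 + 1 := by positivity
  filter_upwards [hS (e / (2 * (Bpen / s ^ 3 + 1))) (by positivity)] with n hn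
  rw [Real.dist_eq]
  refine (pen_cont hB.le hs hn z).trans_lt ?_
  have h1 : Bpen / s ^ 3 * (e / (2 * (Bpen / s ^ 3 + 1))) ≤
      (Bpen / s ^ 3 + 1) * (e / (2 * (Bpen / s ^ 3 + 1))) := by
    apply mul_le_mul_of_nonneg_right _ (by positivity)
    linarith
  have h2 : (Bpen / s ^ 3 + 1) * (e / (2 * (Bpen / s ^ 3 + 1))) = e / 2 := by
    field_simp
  linarith

/-- Convergence of the nonlinear term. -/
theorem LevelB_QQ {ε : ℝ} {w : ℕ → ℂ → ℝ} {g : ℂ → ℝ} {F : Filter ℕ} {z : ℂ}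
    (ht : ∀ l : List Bool, l.length ≤ 2 →
      Tendsto (fun n => DD l (w n) z) F (𝓝 (DD l g z))) :
    Tendsto (fun n => QQ ε (w n) z) F (𝓝 (QQ ε g z)) := by
  have h0 : Tendsto (fun n => w n z) F (𝓝 (g z)) := ht [] (by simp)
  have hx : Tendsto (fun n => Dx (w n) z) F (𝓝 (Dx g z)) := ht [true] (by simp)
  have hy : Tendsto (fun n => Dy (w n) z) F (𝓝 (Dy g z)) := ht [false] (by simp)
  have hxx : Tendsto (fun n => Dx (Dx (w n)) z) F (𝓝 (Dx (Dx g) z)) := ht [true, true] (by simp)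
  have hyy : Tendsto (fun n => Dy (Dy (w n)) z) F (𝓝 (Dy (Dy g) z)) :=
    ht [false, false] (by simp)
  have hxy : Tendsto (fun n => Dx (Dy (w n)) z) F (𝓝 (Dx (Dy g) z)) :=
    ht [true, false] (by simp)
  have he : Tendsto (fun n => Real.exp (-(2 * w n z))) F (𝓝 (Real.exp (-(2 * g z)))) :=
    (Real.continuous_exp.tendsto _).comp ((h0.const_mul 2).neg)
  have hq : Tendsto (fun n => (Dx (w n) z) ^ 2 + (Dy (w n) z) ^ 2) F
      (𝓝 ((Dx g z) ^ 2 + (Dy g z) ^ 2)) := (hx.pow 2).add (hy.pow 2)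
  exact (((tendsto_const_nhds.mul he).mul (hq.pow 2)).sub (hq.const_mul 2)).sub
    (he.mul (((hxx.sub ((hx.pow 2).const_mul 2)).mul (hyy.sub ((hy.pow 2).const_mul 2))).sub
      ((hxy.sub ((hx.mul hy).const_mul 2)).pow 2)))

/-- The limit along an ultrafilter is a solution at level `s`. -/
theorem LevelB_limit {C ε a s : ℝ} (hC : 1 ≤ C) (hs : 0 < s) {S : ℕ → Set ℂ} {S' : Set ℂ}
    {w : ℕ → ℂ → ℝ} {g : ℂ → ℝ} (F : Filter ℕ) [F.NeBot] (hF : F ≤ atTop)
    (hS : ∀ η > 0, ∀ᶠ n in atTop, ∀ z, |infDist z (S n) - infDist z S'| ≤ η)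
    (hw : ∀ n, LevelSol C ε a (S n) s (w n)) (hg : ContDiff ℝ 2 g)
    (ht : ∀ z, ∀ l : List Bool, l.length ≤ 2 →
      Tendsto (fun n => DD l (w n) z) F (𝓝 (DD l g z))) :
    LevelSol C ε a S' s g := by
  have hC0 : 0 < C := by linarith
  have h0 : ∀ z, Tendsto (fun n => w n z) F (𝓝 (g z)) := fun z => ht z [] (by simp)
  have he : ∀ z, Tendsto (fun n => Real.exp (w n z)) F (𝓝 (Real.exp (g z))) := fun z =>
    (Real.continuous_exp.tendsto _).comp (h0 z)
  have hen : ∀ z, Tendsto (fun n => Real.exp (-(w n z))) F (𝓝 (Real.exp (-(g z)))) := fun z =>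
    (Real.continuous_exp.tendsto _).comp (h0 z).neg
  have hmax : ∀ z, Tendsto (fun n => max (infDist z (S n)) s) F (𝓝 (max (infDist z S') s)) :=
    fun z => ((LevelB_infDist hS z).mono_left hF).max tendsto_const_nhds
  refine ⟨hg, ?_, ?_, ⟨?_, ?_, ?_⟩, ?_, ?_⟩
  · intro z v hv
    exact tendsto_nhds_unique (h0 (z + v)) ((h0 z).congr fun n => ((hw n).per z v hv).symm)
  · intro z _
    have hxx : Tendsto (fun n => Dx (Dx (w n)) z) F (𝓝 (Dx (Dx g) z)) :=
      ht z [true, true] (by simp)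
    have hyy : Tendsto (fun n => Dy (Dy (w n)) z) F (𝓝 (Dy (Dy g) z)) :=
      ht z [false, false] (by simp)
    have hL : Tendsto (fun n => Lap (w n) z) F (𝓝 (Lap g z)) := hxx.add hyy
    have h2 : Tendsto (fun n => Real.exp (2 * w n z)) F (𝓝 (Real.exp (2 * g z))) :=
      (Real.continuous_exp.tendsto _).comp ((h0 z).const_mul 2)
    have hR := (h2.sub ((LevelB_pen hs hS z).mono_left hF)).add
      ((LevelB_QQ (ε := ε) (ht z)).const_mul (ε ^ 2))
    exact tendsto_nhds_unique hL (hR.congr fun n => ((hw n).sol z (mem_univ z)).symm)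
  · intro z _ l hl
    exact le_of_tendsto_of_tendsto' (ht z l (by omega)).abs ((he z).const_mul C)
      fun n => (hw n).scaled.d1 z (mem_univ z) l hl
  · intro z _ l hl
    exact le_of_tendsto_of_tendsto' (ht z l (by omega)).abs (((he z).pow 2).const_mul C)
      fun n => (hw n).scaled.d2 z (mem_univ z) l hl
  · intro z _ y hy l hl
    have strict : ∀ y, C * ‖y - z‖ < Real.exp (-(g z)) →
        |DD l g y - DD l g z| ≤
          C * Real.exp (g z) ^ 2 * Real.sqrt (Real.exp (g z) * ‖y - z‖) := by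
      intro y hy
      have h1 : ∀ᶠ n in F, C * ‖y - z‖ < Real.exp (-(w n z)) :=
        (hen z).eventually (lt_mem_nhds hy)
      have h2 : Tendsto (fun n => |DD l (w n) y - DD l (w n) z|) F
          (𝓝 (|DD l g y - DD l g z|)) := ((ht y l hl.le).sub (ht z l hl.le)).abs
      have h3 : Tendsto (fun n => C * Real.exp (w n z) ^ 2 *
          Real.sqrt (Real.exp (w n z) * ‖y - z‖)) F
          (𝓝 (C * Real.exp (g z) ^ 2 * Real.sqrt (Real.exp (g z) * ‖y - z‖))) :=
        (((he z).pow 2).const_mul C).mul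
          ((Real.continuous_sqrt.tendsto _).comp ((he z).mul_const _))
      refine le_of_tendsto_of_tendsto h2 h3 ?_
      filter_upwards [h1] with n hn
      exact (hw n).scaled.h2 z (mem_univ z) y hn.le l hl
    have hcont : Continuous (DD l g) := (ConvB_contDiff hg l 0 (by omega)).continuous
    have hpath : Continuous (fun t : ℝ => z + (t : ℂ) * (y - z)) := by fun_prop
    have c1 : Tendsto (fun t : ℝ => |DD l g (z + (t : ℂ) * (y - z)) - DD l g z|) (𝓝[<] 1)
        (𝓝 (|DD l g (z + ((1 : ℝ) : ℂ) * (y - z)) - DD l g z|)) :=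
      (((hcont.comp hpath).sub continuous_const).abs.tendsto 1).mono_left nhdsWithin_le_nhds
    have c2 : Tendsto (fun t : ℝ => C * Real.exp (g z) ^ 2 *
        Real.sqrt (Real.exp (g z) * ‖z + (t : ℂ) * (y - z) - z‖)) (𝓝[<] 1)
        (𝓝 (C * Real.exp (g z) ^ 2 *
          Real.sqrt (Real.exp (g z) * ‖z + ((1 : ℝ) : ℂ) * (y - z) - z‖))) := by
      have hc : Continuous (fun t : ℝ => C * Real.exp (g z) ^ 2 *
        Real.sqrt (Real.exp (g z) * ‖z + (t : ℂ) * (y - z) - z‖)) := by fun_prop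
      exact (hc.tendsto 1).mono_left nhdsWithin_le_nhds
    have c3 : z + ((1 : ℝ) : ℂ) * (y - z) = y := by push_cast; ring
    rw [c3] at c1 c2
    refine le_of_tendsto_of_tendsto c1 c2 ?_
    have h01 : Ioo (0 : ℝ) 1 ∈ 𝓝[<] (1 : ℝ) := Ioo_mem_nhdsLT one_pos
    filter_upwards [h01] with t htt
    apply strict
    have h5 : z + (t : ℂ) * (y - z) - z = (t : ℂ) * (y - z) := by ring
    rw [h5, norm_mul, Complex.norm_real, Real.norm_eq_abs, abs_of_pos htt.1]
    have h6 := Real.exp_pos (-(g z))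
    have h7 : t * (C * ‖y - z‖) ≤ t * Real.exp (-(g z)) := mul_le_mul_of_nonneg_left hy htt.1.le
    have h8 : t * Real.exp (-(g z)) < 1 * Real.exp (-(g z)) :=
      mul_lt_mul_of_pos_right htt.2 h6
    calc C * (t * ‖y - z‖) = t * (C * ‖y - z‖) := by ring
      _ < Real.exp (-(g z)) := by linarith
  · intro z
    exact ge_of_tendsto' ((he z).mul (hmax z)) fun n => (hw n).lower z
  · intro z
    exact le_of_tendsto' ((he z).mul (hmax z)) fun n => (hw n).upper z

/-- Continuity in the set. Proof: it suffices to show that for every ultrafilter `𝒰 ≤ atTop` the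
limit of `DD l (w n) z` along `𝒰` is `DD l w z`. By `ulim_C2` (the bounds in `LevelSol` are uniform
for fixed `s`, since `e^{w_n}` is bounded by `C / s` and from below by `1 / (C · 3)`) there is a
`C²` limit `w'`; it is again a `LevelSol C ε a S∞ s w'` (`pen_cont`), so `w' = w` by
`levelSol_unique`. -/
theorem levelSol_cont (C : ℝ) (hC : 1 ≤ C) : ∃ ε₀ : ℝ, 0 < ε₀ ∧ ∀ ε : ℝ, 0 < ε → ε ≤ ε₀ →
    ∀ (a s : ℝ) (S : ℕ → Set ℂ) (S' : Set ℂ) (w : ℕ → ℂ → ℝ) (w' : ℂ → ℝ), |a| < 1 → 0 < s →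
    s ≤ 1 → S'.Nonempty → PerSet a S' →
    (∀ η > 0, ∀ᶠ n in atTop, ∀ z, |infDist z (S n) - infDist z S'| ≤ η) →
    (∀ n, LevelSol C ε a (S n) s (w n)) → LevelSol C ε a S' s w' →
    ∀ z, ∀ l : List Bool, l.length ≤ 1 →
      Tendsto (fun n => DD l (w n) z) atTop (𝓝 (DD l w' z)) := by
  obtain ⟨ε₀, hε₀, huniq⟩ := levelSol_unique C hC
  refine ⟨ε₀, hε₀, ?_⟩
  intro ε hε hεε a s S S' w w' ha hs hs1 _ _ hS hw hw' z l hl
  rw [tendsto_iff_ultrafilter]
  intro 𝒰 h𝒰
  obtain ⟨g, hg, hconv⟩ := ulim_C2 𝒰 (f := w) (U := univ) isOpen_univ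
    (fun n => (hw n).smooth) (fun x _ => by
      obtain ⟨r, hr, K, hK⟩ := LevelB_local hC hs hs1 hS hw x
      exact ⟨r, hr, K, h𝒰 hK⟩)
  have hg2 : ContDiff ℝ 2 g := contDiffOn_univ.1 hg
  have ht : ∀ z, ∀ l : List Bool, l.length ≤ 2 →
      Tendsto (fun n => DD l (w n) z) (𝒰 : Filter ℕ) (𝓝 (DD l g z)) := by
    intro x m hm
    obtain ⟨r, hr, hx⟩ := hconv x (mem_univ x)
    exact (hx m hm).tendsto_at (mem_ball_self hr)
  have hsol := LevelB_limit hC hs (𝒰 : Filter ℕ) h𝒰 hS hw hg2 ht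
  have heq : g = w' := huniq ε hε hεε a s S' g w' ha hsol hw'
  rw [← heq]
  exact ht z l (by omega)

end Pool.Agent.KK
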