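import Pool.Agent.W_bb4b37_h53.LevelMapD
import Pool.Agent.W_bb4b37_h53.QSMetricA

/-!
# Realizations at level `s` (fixed point argument) (part E)
-/

set_option autoImplicit false

open Filter Topology Set MeasureTheory Metric
open scoped ContDiff

namespace Pool.Agent.KK

theorem LevelMapE_aff_contDiff (a : ℝ) : ContDiff ℝ ∞ (Aff a) := by
  show ContDiff ℝ ∞ (fun x : ℂ => x + (a : ℂ) * (starRingEnd ℂ) x)
  exact contDiff_id.add (contDiff_const.mul Complex.conjCLE.contDiff)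

theorem LevelMapE_aff_add (a : ℝ) (x y : ℂ) : Aff a (x + y) = Aff a x + Aff a y := by
  simp only [Aff, map_add]
  ring

theorem LevelMapE_aff_sub (a : ℝ) (x y : ℂ) : Aff a (x - y) = Aff a x - Aff a y := by
  simp only [Aff, map_sub]
  ring

theorem LevelMapE_aff_norm {a : ℝ} (ha0 : 0 ≤ a) (x : ℂ) : ‖Aff a x‖ ≤ (1 + a) * ‖x‖ := by
  unfold Aff
  refine (norm_add_le _ _).trans ?_
  rw [norm_mul, Complex.norm_real, Real.norm_eq_abs, abs_of_nonneg ha0, Complex.norm_conj]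
  linarith

theorem LevelMapE_aff_surj {a : ℝ} (ha0 : 0 ≤ a) (ha : a < 1) (z : ℂ) : ∃ x, Aff a x = z := by
  refine ⟨(z - (a : ℂ) * (starRingEnd ℂ) z) / ((1 - a ^ 2 : ℝ) : ℂ), ?_⟩
  have h1 : (1 - a ^ 2 : ℝ) ≠ 0 := by nlinarith
  have h2 : ((1 - a ^ 2 : ℝ) : ℂ) ≠ 0 := by exact_mod_cast h1
  unfold Aff
  rw [map_div₀, map_sub, map_mul, Complex.conj_ofReal, Complex.conj_ofReal, Complex.conj_conj]
  field_simp
  push_cast
  ring

theorem LevelMapE_aff_lat (a : ℝ) (p q : ℤ) :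
    Aff a ((p : ℂ) * (1 + ((0 : ℝ) : ℂ)) + (q : ℂ) * ((1 - ((0 : ℝ) : ℂ)) * Complex.I)) =
      p * (1 + (a : ℂ)) + q * ((1 - (a : ℂ)) * Complex.I) := by
  unfold Aff
  rw [map_add, map_mul, map_mul, map_mul, map_add, map_sub, Complex.conj_ofReal, map_one,
    Complex.conj_I, map_intCast, map_intCast]
  push_cast
  ring

/-- the periodic part of `G ∘ Aff a` -/
noncomputable def LevelMapE_psi (a : ℝ) (G : ℂ → ℂ) (x : ℂ) : ℂ := G (Aff a x) - x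

noncomputable def LevelMapE_phi (a : ℝ) (β : ℂ) (G : ℂ → ℂ) (x : ℂ) : ℂ :=
  LevelMapE_psi a G x + β * (starRingEnd ℂ) (LevelMapE_psi a G x)

theorem LevelMapE_nf (a : ℝ) (β : ℂ) (G : ℂ → ℂ) :
    normalForm β (LevelMapE_phi a β G) =
      fun x => (fun y => G y + β * (starRingEnd ℂ) (G y)) (Aff a x) := by
  funext x
  simp only [normalForm, LevelMapE_phi, LevelMapE_psi, map_sub]
  ring

theorem LevelMapE_Dz_aff (a : ℝ) (x : ℂ) : Dz (Aff a) x = 1 ∧ Dzb (Aff a) x = a := by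
  have h1 : HasFDerivAt (Aff a) ((ContinuousLinearMap.id ℝ ℂ) +
      (a : ℂ) • (Complex.conjCLE : ℂ →L[ℝ] ℂ)) x := by
    have h2 : HasFDerivAt (fun x : ℂ => x) (ContinuousLinearMap.id ℝ ℂ) x := hasFDerivAt_id x
    have h3 : HasFDerivAt (fun x : ℂ => (starRingEnd ℂ) x) (Complex.conjCLE : ℂ →L[ℝ] ℂ) x :=
      (Complex.conjCLE : ℂ →L[ℝ] ℂ).hasFDerivAt
    exact h2.add (h3.const_mul (a : ℂ))
  refine CalcC_of_hasFDerivAt h1 fun v => ?_
  simp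

theorem LevelMapE_psi_contDiff {a : ℝ} {G : ℂ → ℂ} (hG : ContDiff ℝ ∞ G) :
    ContDiff ℝ ∞ (LevelMapE_psi a G) :=
  (hG.comp (LevelMapE_aff_contDiff a)).sub contDiff_id

theorem LevelMapE_phi_contDiff {a : ℝ} {β : ℂ} {G : ℂ → ℂ} (hG : ContDiff ℝ ∞ G) :
    ContDiff ℝ ∞ (LevelMapE_phi a β G) := by
  have h := LevelMapE_psi_contDiff (a := a) hG
  exact h.add (contDiff_const.mul (Complex.conjCLE.contDiff.comp h))

theorem LevelMapE_psi_per {a : ℝ} {μ : ℂ → ℂ} {β : ℂ} {G : ℂ ≃ₜ ℂ} (h : Sol a μ β G) :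
    Per 0 (LevelMapE_psi a G) := by
  rintro x v ⟨p, q, rfl⟩
  unfold LevelMapE_psi
  rw [LevelMapE_aff_add, LevelMapE_aff_lat, h.per]
  push_cast
  ring

theorem LevelMapE_phi_per {a : ℝ} {μ : ℂ → ℂ} {β : ℂ} {G : ℂ ≃ₜ ℂ} (h : Sol a μ β G) :
    Per 0 (LevelMapE_phi a β G) := by
  intro x v hv
  unfold LevelMapE_phi
  rw [LevelMapE_psi_per h x v hv]

theorem LevelMapE_phi_zero {a : ℝ} {μ : ℂ → ℂ} {β : ℂ} {G : ℂ ≃ₜ ℂ} (h : Sol a μ β G) :
    LevelMapE_phi a β G 0 = 0 := by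
  have : Aff a 0 = 0 := by simp [Aff]
  simp [LevelMapE_phi, LevelMapE_psi, this, h.zero]

theorem LevelMapE_small {a : ℝ} (ha0 : 0 ≤ a) (ha : a ≤ 1 / 100000) {m : ℂ}
    (hm : ‖m‖ ≤ 1 / 1000) : (99 / 100 : ℝ) ≤ ‖1 + (a : ℂ) * m‖ := by
  have h1 : ‖(a : ℂ) * m‖ ≤ 1 / 100 := by
    rw [norm_mul, Complex.norm_real, Real.norm_eq_abs, abs_of_nonneg ha0]
    nlinarith [norm_nonneg m]
  have h2 : ‖(1 : ℂ)‖ - ‖(a : ℂ) * m‖ ≤ ‖1 + (a : ℂ) * m‖ := by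
    have := norm_sub_norm_le (1 : ℂ) (-((a : ℂ) * m))
    rwa [norm_neg, sub_neg_eq_add] at this
  rw [norm_one] at h2
  linarith

noncomputable def LevelMapE_mu (a : ℝ) (μ : ℂ → ℂ) (x : ℂ) : ℂ :=
  ((a : ℂ) + μ (Aff a x)) / (1 + (a : ℂ) * μ (Aff a x))

theorem LevelMapE_belt {a : ℝ} (ha0 : 0 ≤ a) (ha : a ≤ 1 / 100000) {μ : ℂ → ℂ}
    (hb : ∀ z, ‖μ z‖ ≤ 1 / 1000) {β : ℂ} {G : ℂ ≃ₜ ℂ} (h : Sol a μ β G) (x : ℂ) :
    Dzb (normalForm β (LevelMapE_phi a β G)) x =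
      LevelMapE_mu a μ x * Dz (normalForm β (LevelMapE_phi a β G)) x := by
  rw [LevelMapE_nf]
  have hF : ContDiff ℝ ∞ (fun y => G y + β * (starRingEnd ℂ) (G y)) :=
    h.smooth.add (contDiff_const.mul (Complex.conjCLE.contDiff.comp h.smooth))
  have hFd := (hF.differentiable (by simp)) (Aff a x)
  have hAd := ((LevelMapE_aff_contDiff a).differentiable (by simp)) x
  rw [Dz_comp hFd hAd, Dzb_comp hFd hAd, (LevelMapE_Dz_aff a x).1, (LevelMapE_Dz_aff a x).2,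
    h.belt (Aff a x), map_one, Complex.conj_ofReal]
  have h1 := LevelMapE_small ha0 ha (hb (Aff a x))
  have h2 : 1 + (a : ℂ) * μ (Aff a x) ≠ 0 := by
    intro h3
    rw [h3, norm_zero] at h1
    norm_num at h1
  unfold LevelMapE_mu
  field_simp

theorem LevelMapE_mu_norm {a : ℝ} (ha0 : 0 ≤ a) (ha : a ≤ 1 / 100000) {μ : ℂ → ℂ}
    (hb : ∀ z, ‖μ z‖ ≤ 1 / 1000) (x : ℂ) : ‖LevelMapE_mu a μ x‖ ≤ 1 / 2 := by
  unfold LevelMapE_mu
  have h1 := LevelMapE_small ha0 ha (hb (Aff a x))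
  have h0 : (0 : ℝ) < ‖1 + (a : ℂ) * μ (Aff a x)‖ := by linarith
  rw [norm_div, div_le_iff₀ h0]
  have h2 := norm_add_le (a : ℂ) (μ (Aff a x))
  rw [Complex.norm_real, Real.norm_eq_abs, abs_of_nonneg ha0] at h2
  have h3 := hb (Aff a x)
  linarith

theorem LevelMapE_mu_cont {a : ℝ} (ha0 : 0 ≤ a) (ha : a ≤ 1 / 100000) {μ : ℂ → ℂ}
    (hc : Continuous μ) (hb : ∀ z, ‖μ z‖ ≤ 1 / 1000) : Continuous (LevelMapE_mu a μ) := by
  have h1 : Continuous fun x => μ (Aff a x) := hc.comp (LevelMapE_aff_contDiff a).continuous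
  unfold LevelMapE_mu
  refine (continuous_const.add h1).div (continuous_const.add (continuous_const.mul h1)) ?_
  intro x h3
  have h1 := LevelMapE_small ha0 ha (hb (Aff a x))
  rw [h3, norm_zero] at h1
  norm_num at h1

theorem LevelMapE_mu_sub {a : ℝ} (ha0 : 0 ≤ a) (ha : a ≤ 1 / 100000) {μ μ' : ℂ → ℂ}
    (hb : ∀ z, ‖μ z‖ ≤ 1 / 1000) (hb' : ∀ z, ‖μ' z‖ ≤ 1 / 1000) {δ : ℝ}
    (hd : ∀ z, ‖μ z - μ' z‖ ≤ δ) (x : ℂ) :
    ‖LevelMapE_mu a μ x - LevelMapE_mu a μ' x‖ ≤ 2 * δ := by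
  have h1 := LevelMapE_small ha0 ha (hb (Aff a x))
  have h2 := LevelMapE_small ha0 ha (hb' (Aff a x))
  have h0 := hd (Aff a x)
  have hδ : 0 ≤ δ := (norm_nonneg _).trans h0
  unfold LevelMapE_mu
  generalize μ (Aff a x) = m at *
  generalize μ' (Aff a x) = m' at *
  have hm : 1 + (a : ℂ) * m ≠ 0 := by
    intro h3
    rw [h3, norm_zero] at h1
    norm_num at h1
  have hm' : 1 + (a : ℂ) * m' ≠ 0 := by
    intro h3
    rw [h3, norm_zero] at h2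
    norm_num at h2
  have e : ((a : ℂ) + m) / (1 + (a : ℂ) * m) - ((a : ℂ) + m') / (1 + (a : ℂ) * m') =
      ((1 - a ^ 2 : ℝ) : ℂ) * (m - m') / ((1 + (a : ℂ) * m) * (1 + (a : ℂ) * m')) := by
    field_simp
    push_cast
    ring
  have hpos : 0 < ‖1 + (a : ℂ) * m‖ * ‖1 + (a : ℂ) * m'‖ :=
    mul_pos (by linarith) (by linarith)
  rw [e, norm_div, norm_mul, norm_mul, div_le_iff₀ hpos, Complex.norm_real, Real.norm_eq_abs,
    abs_of_nonneg (by nlinarith : (0 : ℝ) ≤ 1 - a ^ 2)]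
  have h3 : (1 / 2 : ℝ) ≤ ‖1 + (a : ℂ) * m‖ * ‖1 + (a : ℂ) * m'‖ := by nlinarith
  have h4 : (1 - a ^ 2) * ‖m - m'‖ ≤ δ := by nlinarith [norm_nonneg (m - m'), sq_nonneg a]
  nlinarith

/-- volume of a rectangle -/
theorem LevelMapE_vol (s t d : ℝ) :
    volume {z : ℂ | z.re ∈ Ico s (s + d) ∧ z.im ∈ Ico t (t + d)} =
      ENNReal.ofReal d * ENNReal.ofReal d := by
  have h1 : {z : ℂ | z.re ∈ Ico s (s + d) ∧ z.im ∈ Ico t (t + d)} =
      Complex.measurableEquivRealProd ⁻¹' (Ico s (s + d) ×ˢ Ico t (t + d)) := by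
    ext z
    simp [Complex.measurableEquivRealProd_apply]
  rw [h1, Complex.volume_preserving_equiv_real_prod.measure_preimage
    (measurableSet_Ico.prod measurableSet_Ico).nullMeasurableSet, Measure.volume_eq_prod,
    Measure.prod_prod, Real.volume_Ico, Real.volume_Ico]
  congr 2 <;> ring

theorem LevelMapE_near {s d : ℝ} (hs : s ∈ Ico (0 : ℝ) 1) (hd : 0 < d) (hd1 : d ≤ 1 / 2) :
    ∃ s' : ℝ, Ico s' (s' + d) ⊆ Ico (0 : ℝ) 1 ∧ ∀ t ∈ Ico s' (s' + d), |t - s| ≤ d := by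
  rcases lt_or_ge s (1 / 2) with h | h
  · refine ⟨s, fun t ht => ⟨hs.1.trans ht.1, by linarith [ht.2]⟩, fun t ht => ?_⟩
    rw [abs_le]
    exact ⟨by linarith [ht.1], by linarith [ht.2]⟩
  · refine ⟨s - d, fun t ht => ⟨by linarith [ht.1], by linarith [ht.2, hs.2]⟩, fun t ht => ?_⟩
    rw [abs_le]
    exact ⟨by linarith [ht.1], by linarith [ht.2]⟩

theorem LevelMapE_cell {f : ℂ → ℂ} (hp : Per 0 f) (x : ℂ) : ∃ y ∈ cell, f y = f x := by
  refine ⟨(Int.fract x.re : ℝ) + (Int.fract x.im : ℝ) * Complex.I, ?_, ?_⟩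
  · constructor
    · simpa using Int.fract_lt_one x.re
    · simpa using Int.fract_lt_one x.im
  · have hv : ((⌊x.re⌋ : ℤ) : ℂ) * (1 + ((0 : ℝ) : ℂ)) +
        ((⌊x.im⌋ : ℤ) : ℂ) * ((1 - ((0 : ℝ) : ℂ)) * Complex.I) ∈ Lat 0 := ⟨_, _, rfl⟩
    rw [← hp _ _ hv]
    congr 1
    have e1 : x.re = ⌊x.re⌋ + Int.fract x.re := (Int.floor_add_fract _).symm
    have e2 : x.im = ⌊x.im⌋ + Int.fract x.im := (Int.floor_add_fract _).symm
    apply Complex.ext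
    · simp [add_comm]
    · simp [add_comm]

/-- a function which is small in `L²` and equicontinuous is uniformly small -/
theorem LevelMapE_sup {f : ℂ → ℂ} (hf : Continuous f) (hp : Per 0 f) {m : ℂ} {c d : ℝ}
    (hc : 0 < c) (hd : 0 < d) (hd1 : d ≤ 1 / 2)
    (hmod : ∀ x y, ‖x - y‖ ≤ 2 * d → ‖f x - f y‖ ≤ c)
    (hI : ∫ z in cell, ‖f z - m‖ ^ 2 < c ^ 2 * d ^ 2) (x : ℂ) : ‖f x - m‖ ≤ 2 * c := by
  by_contra hcon
  push Not at hcon
  obtain ⟨y, hy, hyx⟩ := LevelMapE_cell hp x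
  rw [← hyx] at hcon
  obtain ⟨s, hs1, hs2⟩ := LevelMapE_near hy.1 hd hd1
  obtain ⟨t, ht1, ht2⟩ := LevelMapE_near hy.2 hd hd1
  set Q : Set ℂ := {z : ℂ | z.re ∈ Ico s (s + d) ∧ z.im ∈ Ico t (t + d)} with hQ
  have hQc : Q ⊆ cell := fun z hz => ⟨hs1 hz.1, ht1 hz.2⟩
  have hQm : MeasurableSet Q :=
    (Complex.measurable_re measurableSet_Ico).inter (Complex.measurable_im measurableSet_Ico)
  have hint : IntegrableOn (fun z => ‖f z - m‖ ^ 2) cell :=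
    BeltramiF_integrable ((hf.sub continuous_const).norm.pow 2)
  have h1 : ∫ z in Q, ‖f z - m‖ ^ 2 ≤ ∫ z in cell, ‖f z - m‖ ^ 2 :=
    setIntegral_mono_set hint (Filter.Eventually.of_forall fun z => by positivity)
      (Filter.Eventually.of_forall hQc)
  have hvol : volume Q = ENNReal.ofReal d * ENNReal.ofReal d := LevelMapE_vol s t d
  have hvolr : volume.real Q = d ^ 2 := by
    rw [measureReal_def, hvol, ENNReal.toReal_mul, ENNReal.toReal_ofReal hd.le]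
    ring
  have hfin : volume Q ≠ ⊤ := by
    rw [hvol]
    exact ENNReal.mul_ne_top ENNReal.ofReal_ne_top ENNReal.ofReal_ne_top
  have h2 : ∫ _z in Q, c ^ 2 ≤ ∫ z in Q, ‖f z - m‖ ^ 2 := by
    refine setIntegral_mono_on (integrableOn_const hfin) (hint.mono_set hQc) hQm ?_
    intro z hz
    have h3 : ‖z - y‖ ≤ 2 * d := by
      have h4 := Complex.norm_le_abs_re_add_abs_im (z - y)
      rw [Complex.sub_re, Complex.sub_im] at h4
      linarith [hs2 _ hz.1, ht2 _ hz.2]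
    have h5 := hmod z y h3
    have h6 : ‖f y - m‖ ≤ ‖f z - m‖ + ‖f z - f y‖ := by
      have := norm_sub_le (f z - m) (f z - f y)
      rwa [show f z - m - (f z - f y) = f y - m by ring] at this
    exact pow_le_pow_left₀ hc.le (by linarith) 2
  rw [setIntegral_const, hvolr, smul_eq_mul] at h2
  linarith [mul_comm (d ^ 2) (c ^ 2)]

/-- the modulus hypothesis `‖G x - G y‖ ≤ 2 H` for `‖x - y‖ ≤ 1` -/
theorem LevelMapE_D {a H : ℝ} (ha0 : 0 ≤ a) (hH : 1 ≤ H) {μ : ℂ → ℂ} {β : ℂ} {G : ℂ ≃ₜ ℂ}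
    (h : Sol a μ β G) (hw : WQS H G) : ∀ x y, ‖x - y‖ ≤ 1 → ‖G x - G y‖ ≤ 2 * H := by
  intro x y hxy
  have h1 := hw y x (y + (((1 : ℤ) : ℂ) * (1 + (a : ℂ)) + ((0 : ℤ) : ℂ) * ((1 - (a : ℂ)) * Complex.I)))
    (by
      rw [add_sub_cancel_left]
      have : ((1 : ℤ) : ℂ) * (1 + (a : ℂ)) + ((0 : ℤ) : ℂ) * ((1 - (a : ℂ)) * Complex.I) =
          ((1 + a : ℝ) : ℂ) := by push_cast; ring
      rw [this, Complex.norm_real, Real.norm_eq_abs, abs_of_nonneg (by linarith)]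
      linarith)
  rw [h.per] at h1
  have h2 : ‖G y + (((1 : ℤ) : ℂ) + ((0 : ℤ) : ℂ) * Complex.I) - G y‖ = 1 := by
    rw [add_sub_cancel_left]
    simp
  rw [h2] at h1
  linarith

theorem LevelMapE_Dsymm {a H : ℝ} (ha0 : 0 ≤ a) (ha : a ≤ 1 / 100000) (hH : 1 ≤ H) {μ : ℂ → ℂ}
    {β : ℂ} {G : ℂ ≃ₜ ℂ} (h : Sol a μ β G) (hw : WQS H G.symm) :
    ∀ x y, ‖x - y‖ ≤ 1 → ‖G.symm x - G.symm y‖ ≤ 2 * H := by
  intro x y hxy
  have h0 := h.per (G.symm y) 1 0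
  rw [G.apply_symm_apply] at h0
  have h3 : G.symm (y + (((1 : ℤ) : ℂ) + ((0 : ℤ) : ℂ) * Complex.I)) =
      G.symm y + (((1 : ℤ) : ℂ) * (1 + (a : ℂ)) + ((0 : ℤ) : ℂ) * ((1 - (a : ℂ)) * Complex.I)) := by
    rw [← h0, G.symm_apply_apply]
  have h1 := hw y x (y + (((1 : ℤ) : ℂ) + ((0 : ℤ) : ℂ) * Complex.I))
    (by
      rw [add_sub_cancel_left]
      simpa using hxy)
  rw [h3, add_sub_cancel_left] at h1
  have h4 : ‖((1 : ℤ) : ℂ) * (1 + (a : ℂ)) + ((0 : ℤ) : ℂ) * ((1 - (a : ℂ)) * Complex.I)‖ =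
      1 + a := by
    have : ((1 : ℤ) : ℂ) * (1 + (a : ℂ)) + ((0 : ℤ) : ℂ) * ((1 - (a : ℂ)) * Complex.I) =
        ((1 + a : ℝ) : ℂ) := by push_cast; ring
    rw [this, Complex.norm_real, Real.norm_eq_abs, abs_of_nonneg (by linarith)]
  rw [h4] at h1
  nlinarith

theorem LevelMapE_psi_bd {a H : ℝ} (ha0 : 0 ≤ a) (_hH : 1 ≤ H) {μ : ℂ → ℂ}
    {β : ℂ} {G : ℂ ≃ₜ ℂ} (h : Sol a μ β G) (hw : WQS H G) (x : ℂ) :
    ‖LevelMapE_psi a G x‖ ≤ 2 * (H + 1) := by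
  obtain ⟨v, hv, hxv⟩ := exists_lat_near (a := 0) (by norm_num) x
  have h1 : LevelMapE_psi a G x = LevelMapE_psi a G (x - v) := by
    have := LevelMapE_psi_per h (x - v) v hv
    rw [sub_add_cancel] at this
    exact this
  rw [h1]
  unfold LevelMapE_psi
  refine (norm_sub_le _ _).trans ?_
  have h2 := hw 0 (Aff a (x - v)) (0 + (((2 : ℤ) : ℂ) * (1 + (a : ℂ)) +
    ((0 : ℤ) : ℂ) * ((1 - (a : ℂ)) * Complex.I)))
    (by
      rw [sub_zero, sub_zero, zero_add]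
      have : ((2 : ℤ) : ℂ) * (1 + (a : ℂ)) + ((0 : ℤ) : ℂ) * ((1 - (a : ℂ)) * Complex.I) =
          ((2 * (1 + a) : ℝ) : ℂ) := by push_cast; ring
      rw [this, Complex.norm_real, Real.norm_eq_abs, abs_of_nonneg (by linarith)]
      refine (LevelMapE_aff_norm ha0 _).trans ?_
      nlinarith)
  rw [h.per, h.zero, sub_zero, sub_zero, zero_add] at h2
  have h3 : ‖((2 : ℤ) : ℂ) + ((0 : ℤ) : ℂ) * Complex.I‖ = 2 := by simp
  rw [h3] at h2
  linarith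

theorem LevelMapE_psi_mod {a c d : ℝ} (ha0 : 0 ≤ a) (ha : a ≤ 1) {G : ℂ → ℂ}
    (hG : ∀ x y, ‖x - y‖ ≤ d → ‖G x - G y‖ ≤ c) (x y : ℂ) (hxy : 2 * ‖x - y‖ ≤ d) :
    ‖LevelMapE_psi a G x - LevelMapE_psi a G y‖ ≤ c + ‖x - y‖ := by
  have h1 : ‖Aff a x - Aff a y‖ ≤ d := by
    rw [← LevelMapE_aff_sub]
    refine (LevelMapE_aff_norm ha0 _).trans ?_
    nlinarith [norm_nonneg (x - y)]
  have h2 := hG _ _ h1
  have e : LevelMapE_psi a G x - LevelMapE_psi a G y = (G (Aff a x) - G (Aff a y)) - (x - y) := by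
    unfold LevelMapE_psi
    ring
  rw [e]
  refine (norm_sub_le _ _).trans ?_
  linarith

theorem LevelMapE_phi_mod {a : ℝ} {β : ℂ} (hβ : ‖β‖ ≤ 1) (G : ℂ → ℂ) (x y : ℂ) :
    ‖LevelMapE_phi a β G x - LevelMapE_phi a β G y‖ ≤
      2 * ‖LevelMapE_psi a G x - LevelMapE_psi a G y‖ := by
  have e : LevelMapE_phi a β G x - LevelMapE_phi a β G y =
      (LevelMapE_psi a G x - LevelMapE_psi a G y) +
        β * (starRingEnd ℂ) (LevelMapE_psi a G x - LevelMapE_psi a G y) := by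
    unfold LevelMapE_phi
    rw [map_sub]
    ring
  rw [e]
  refine (norm_add_le _ _).trans ?_
  rw [norm_mul, Complex.norm_conj]
  nlinarith [norm_nonneg (LevelMapE_psi a G x - LevelMapE_psi a G y)]

/-- Uniform continuity in the coefficient. Proof: `beltrami_l2_cont`, `poincare` and the uniform
modulus of continuity of `G` (`wqs_modulus`, `wqs_displacement`): a function that is small in `L²`
and equicontinuous is uniformly small; the mean is controlled by `φ 0 = 0`. For the inverses: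
`G⁻¹ ζ - G'⁻¹ ζ` is controlled by the modulus of continuity of `G'⁻¹` at `G' (G⁻¹ ζ) - ζ`. -/
theorem sol_cont : ∀ η > 0, ∃ δ > 0, ∀ (a : ℝ), 0 ≤ a → a ≤ 1 / 100000 → ∀ (μ μ' : ℂ → ℂ)
    (β β' : ℂ) (G G' : ℂ ≃ₜ ℂ), ContDiff ℝ ∞ μ → Per a μ → (∀ z, ‖μ z‖ ≤ 1 / 1000) →
    ContDiff ℝ ∞ μ' → Per a μ' → (∀ z, ‖μ' z‖ ≤ 1 / 1000) → Sol a μ β G → Sol a μ' β' G' →
    (∀ z, ‖μ z - μ' z‖ ≤ δ) →
    ‖β - β'‖ ≤ η ∧ (∀ z, ‖G z - G' z‖ ≤ η) ∧ ∀ z, ‖G.symm z - G'.symm z‖ ≤ η := by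
  intro η hη
  obtain ⟨H, hH, hwqs⟩ := sol_wqs
  obtain ⟨δs, hδs, hmods⟩ := wqs_modulus H (2 * H) hH (by linarith) η hη
  obtain ⟨η₂, hη₂, hη₂η, hη₂δ⟩ : ∃ η₂ : ℝ, 0 < η₂ ∧ η₂ ≤ η ∧ η₂ ≤ δs :=
    ⟨min η δs, lt_min hη hδs, min_le_left _ _, min_le_right _ _⟩
  obtain ⟨c, hc, hcη⟩ : ∃ c : ℝ, 0 < c ∧ 32 * c = η₂ := ⟨η₂ / 32, by positivity, by ring⟩
  obtain ⟨δG, hδG, hmodG⟩ := wqs_modulus H (2 * H) hH (by linarith) (c / 16) (by positivity)
  obtain ⟨d, hd, hd1, hd2, hd3⟩ : ∃ d : ℝ, 0 < d ∧ d ≤ 1 / 2 ∧ 32 * d ≤ c ∧ 4 * d ≤ δG :=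
    ⟨min (1 / 2) (min (c / 32) (δG / 4)), by positivity, min_le_left _ _, by
      have := (min_le_right (1 / 2 : ℝ) (min (c / 32) (δG / 4))).trans (min_le_left _ _)
      linarith, by
      have := (min_le_right (1 / 2 : ℝ) (min (c / 32) (δG / 4))).trans (min_le_right _ _)
      linarith⟩
  obtain ⟨η₁, hη₁, hη₁a, hη₁b, hη₁c⟩ : ∃ η₁ : ℝ, 0 < η₁ ∧ 16 * η₁ ≤ η ∧
      256 * (H + 1) * η₁ ≤ η₂ ∧ 8 * η₁ ≤ c * d := by
    refine ⟨min (η / 16) (min (η₂ / (256 * (H + 1))) (c * d / 8)), ?_, ?_, ?_, ?_⟩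
    · have : 0 < H + 1 := by linarith
      positivity
    · have := min_le_left (η / 16) (min (η₂ / (256 * (H + 1))) (c * d / 8))
      linarith
    · have h1 := (min_le_right (η / 16) (min (η₂ / (256 * (H + 1))) (c * d / 8))).trans
        (min_le_left _ _)
      have h2 : 0 < 256 * (H + 1) := by linarith
      rw [le_div_iff₀ h2] at h1
      linarith
    · have := (min_le_right (η / 16) (min (η₂ / (256 * (H + 1))) (c * d / 8))).trans
        (min_le_right _ _)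
      linarith
  refine ⟨η₁ / 2, by positivity, ?_⟩
  intro a ha0 ha μ μ' β β' G G' hμ hμp hμb hμ' hμp' hμb' hS hS' hdiff
  obtain ⟨hwG, hwGs⟩ := hwqs a μ β G ha0 ha hμb hS
  obtain ⟨hwG', hwGs'⟩ := hwqs a μ' β' G' ha0 ha hμb' hS'
  have hmG := hmodG G hwG (LevelMapE_D ha0 hH hS hwG)
  have hmG' := hmodG G' hwG' (LevelMapE_D ha0 hH hS' hwG')
  have hmGs' := hmods G'.symm hwGs' (LevelMapE_Dsymm ha0 ha hH hS' hwGs')
  have hφ := LevelMapE_phi_contDiff (a := a) (β := β) hS.smooth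
  have hφ' := LevelMapE_phi_contDiff (a := a) (β := β') hS'.smooth
  have hmu : ∀ x, ‖LevelMapE_mu a μ x - LevelMapE_mu a μ' x‖ ≤ η₁ := by
    intro x
    have := LevelMapE_mu_sub ha0 ha hμb hμb' hdiff x
    linarith
  obtain ⟨hL1, hL2, hββ⟩ := beltrami_l2_cont (k := 1 / 2) le_rfl (LevelMapE_mu_norm ha0 ha hμb)
    (LevelMapE_mu_norm ha0 ha hμb') (LevelMapE_mu_cont ha0 ha hμ.continuous hμb)
    (LevelMapE_mu_cont ha0 ha hμ'.continuous hμb') hmu hφ (LevelMapE_phi_per hS) hφ'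
    (LevelMapE_phi_per hS') (LevelMapE_belt ha0 ha hμb hS) (LevelMapE_belt ha0 ha hμb' hS')
  -- the difference
  set f : ℂ → ℂ := fun x => LevelMapE_phi a β G x - LevelMapE_phi a β' G' x with hf
  have hfs : ContDiff ℝ ∞ f := hφ.sub hφ'
  have hfp : Per 0 f := by
    intro x v hv
    simp only [hf]
    rw [LevelMapE_phi_per hS x v hv, LevelMapE_phi_per hS' x v hv]
  have hf0 : f 0 = 0 := by
    simp only [hf]
    rw [LevelMapE_phi_zero hS, LevelMapE_phi_zero hS', sub_zero]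
  have hβ1 : ‖β‖ ≤ 1 := hS.beta.trans (by norm_num)
  have hβ1' : ‖β'‖ ≤ 1 := hS'.beta.trans (by norm_num)
  have hmodf : ∀ x y, ‖x - y‖ ≤ 2 * d → ‖f x - f y‖ ≤ c := by
    intro x y hxy
    have h1 := LevelMapE_psi_mod ha0 (by linarith) hmG x y (by linarith)
    have h2 := LevelMapE_psi_mod ha0 (by linarith) hmG' x y (by linarith)
    have h3 := LevelMapE_phi_mod (a := a) hβ1 G x y
    have h4 := LevelMapE_phi_mod (a := a) hβ1' G' x y
    have e : f x - f y = (LevelMapE_phi a β G x - LevelMapE_phi a β G y) -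
        (LevelMapE_phi a β' G' x - LevelMapE_phi a β' G' y) := by
      simp only [hf]
      ring
    rw [e]
    refine (norm_sub_le _ _).trans ?_
    linarith
  have hP := poincare hfs hfp
  have hDz : ∀ z, Dz f z = Dz (LevelMapE_phi a β G) z - Dz (LevelMapE_phi a β' G') z := fun z =>
    BeltramiF_Dz_sub hφ hφ' z
  have hDzb : ∀ z, Dzb f z = Dzb (LevelMapE_phi a β G) z - Dzb (LevelMapE_phi a β' G') z :=
    fun z => BeltramiF_Dzb_sub hφ hφ' z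
  have hI1 : IntegrableOn (fun z => ‖Dz f z‖ ^ 2) cell :=
    BeltramiF_integrable ((BeltramiF_contDiff_Dz hfs).continuous.norm.pow 2)
  have hI2 : IntegrableOn (fun z => ‖Dzb f z‖ ^ 2) cell :=
    BeltramiF_integrable ((BeltramiF_contDiff_Dzb hfs).continuous.norm.pow 2)
  rw [integral_add hI1 hI2] at hP
  have hL1' : ∫ z in cell, ‖Dz f z‖ ^ 2 ≤ 16 * η₁ ^ 2 := by
    simp only [hDz]
    exact hL1
  have hL2' : ∫ z in cell, ‖Dzb f z‖ ^ 2 ≤ 16 * η₁ ^ 2 := by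
    simp only [hDzb]
    exact hL2
  have hlt : ∫ z in cell, ‖f z - ∫ y in cell, f y‖ ^ 2 < c ^ 2 * d ^ 2 := by
    have hcd : 0 < c * d := mul_pos hc hd
    have h1 : (8 * η₁) ^ 2 ≤ (c * d) ^ 2 := pow_le_pow_left₀ (by positivity) hη₁c 2
    have h2 : 0 < c ^ 2 * d ^ 2 := by positivity
    nlinarith
  have hsup := LevelMapE_sup hfs.continuous hfp hc hd hd1 hmodf hlt
  have hfsup : ∀ x, ‖f x‖ ≤ 4 * c := by
    intro x
    have h1 := hsup x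
    have h2 := hsup 0
    rw [hf0, zero_sub, norm_neg] at h2
    have h3 := norm_add_le (f x - ∫ y in cell, f y) (∫ y in cell, f y)
    rw [sub_add_cancel] at h3
    linarith
  have hpsi : ∀ x, ‖LevelMapE_psi a G x - LevelMapE_psi a G' x‖ ≤ η₂ := by
    intro x
    set g := LevelMapE_psi a G x - LevelMapE_psi a G' x with hg
    have e : g = f x - β * (starRingEnd ℂ) g - (β - β') * (starRingEnd ℂ) (LevelMapE_psi a G' x) := by
      simp only [hf, hg, LevelMapE_phi, map_sub]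
      ring
    have h1 : ‖g‖ ≤ ‖f x‖ + ‖β‖ * ‖g‖ + ‖β - β'‖ * ‖LevelMapE_psi a G' x‖ := by
      conv_lhs => rw [e]
      refine (norm_sub_le _ _).trans ?_
      rw [norm_mul (β - β'), Complex.norm_conj]
      gcongr
      refine (norm_sub_le _ _).trans ?_
      rw [norm_mul β, Complex.norm_conj]
    have h2 := LevelMapE_psi_bd ha0 hH hS' hwG' x
    have h3 := hfsup x
    have h4 := hS.beta
    have h5 : ‖β - β'‖ * ‖LevelMapE_psi a G' x‖ ≤ 16 * η₁ * (2 * (H + 1)) :=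
      mul_le_mul hββ h2 (norm_nonneg _) (by positivity)
    have h6 : ‖β‖ * ‖g‖ ≤ 1 / 100 * ‖g‖ := mul_le_mul_of_nonneg_right h4 (norm_nonneg _)
    nlinarith [norm_nonneg g]
  have hGG : ∀ z, ‖G z - G' z‖ ≤ η₂ := by
    intro z
    obtain ⟨x, rfl⟩ := LevelMapE_aff_surj ha0 (by linarith : a < 1) z
    have h1 := hpsi x
    unfold LevelMapE_psi at h1
    rwa [sub_sub_sub_cancel_right] at h1
  refine ⟨hββ.trans hη₁a, fun z => (hGG z).trans hη₂η, fun z => ?_⟩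
  have h1 := hGG (G.symm z)
  rw [G.apply_symm_apply] at h1
  have h2 := hmGs' (G' (G.symm z)) z (by rw [norm_sub_rev]; exact h1.trans hη₂δ)
  rwa [G'.symm_apply_apply] at h2

end Pool.Agent.KK
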