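import Pool.Agent.W_bb4b37_h53.CalcD
import Pool.Agent.W_bb4b37_h53.QSMetricA

/-!
# Metric consequences of weak quasisymmetry (part B)
-/

set_option autoImplicit false

open Filter Topology Set MeasureTheory Metric
open scoped ContDiff

namespace Pool.Agent.KK

/-- Images of uniformly perfect sets. Proof: `z₀ = f ζ₀`, `t > 0`; let
`τ = inf {‖ζ - ζ₀‖ : ‖f ζ - z₀‖ ≥ t} > 0` (`f` is continuous and surjective), choose `ζ'` with
`‖f ζ' - z₀‖ ≥ t`, `‖ζ' - ζ₀‖ ≤ 2 τ`, and `ζ₁ ∈ S` with `τ / (2 A) ≤ ‖ζ₁ - ζ₀‖ ≤ τ / 2`. Then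
`‖f ζ₁ - z₀‖ < t`, and `‖ζ' - ζ₀‖ ≤ 4 A ‖ζ₁ - ζ₀‖` gives the lower bound by `WQS.chain`. -/
theorem wqs_UP (H A : ℝ) (hH : 1 ≤ H) (hA : 1 ≤ A) : ∃ A' : ℝ, 1 ≤ A' ∧ ∀ (f : ℂ → ℂ)
    (S : Set ℂ), WQS H f → Continuous f → Function.Bijective f → UP A S → UP A' (f '' S) := by
  obtain ⟨n, hn⟩ := pow_unbounded_of_one_lt (2 * A) (one_lt_two : (1 : ℝ) < 2)
  have hH0 : 0 < H := by linarith
  have hC1 : (1 : ℝ) ≤ (H * (H + 1)) ^ n * H := by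
    have h1 : (1 : ℝ) ≤ H * (H + 1) := by nlinarith
    have h2 : (1 : ℝ) ≤ (H * (H + 1)) ^ n := one_le_pow₀ h1
    nlinarith
  refine ⟨(H * (H + 1)) ^ n * H, hC1, ?_⟩
  intro f S hf hfc hfb hS
  rintro z₀ ⟨ζ₀, hζ₀, rfl⟩ t ht
  set T : Set ℂ := {ζ | t ≤ ‖f ζ - f ζ₀‖} with hT
  have hTc : IsClosed T := isClosed_le continuous_const ((hfc.sub continuous_const).norm)
  have hTne : T.Nonempty := by
    obtain ⟨ζ, hζ⟩ := hfb.2 (f ζ₀ + (t : ℂ))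
    refine ⟨ζ, ?_⟩
    rw [hT, mem_ofPred_eq, hζ]
    have e : f ζ₀ + (t : ℂ) - f ζ₀ = (t : ℂ) := by ring
    rw [e, Complex.norm_real, Real.norm_eq_abs]
    exact le_abs_self t
  obtain ⟨ζ', hζ', hdist⟩ := hTc.exists_infDist_eq_dist hTne ζ₀
  set τ : ℝ := infDist ζ₀ T with hτ
  have hζ'n : ‖ζ' - ζ₀‖ = τ := by rw [hdist, dist_comm, dist_eq_norm]
  have hne : ζ' ≠ ζ₀ := by
    intro e
    rw [e] at hζ'
    rw [hT, mem_ofPred_eq, sub_self, norm_zero] at hζ'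
    linarith
  have hτ0 : 0 < τ := by
    rw [← hζ'n]; exact norm_pos_iff.2 (sub_ne_zero.2 hne)
  obtain ⟨ζ₁, hζ₁, hlo, hhi⟩ := hS ζ₀ hζ₀ (τ / 2) (by positivity)
  have hA0 : 0 < A := by linarith
  refine ⟨f ζ₁, ⟨ζ₁, hζ₁, rfl⟩, ?_, ?_⟩
  · have h1 : ‖ζ' - ζ₀‖ ≤ 2 ^ n * ‖ζ₁ - ζ₀‖ := by
      rw [hζ'n]
      rw [div_le_iff₀ hA0] at hlo
      have h2 : τ ≤ (2 * A) * ‖ζ₁ - ζ₀‖ := by nlinarith
      exact le_trans h2 (mul_le_mul_of_nonneg_right hn.le (norm_nonneg _))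
    have h3 := hf.chain hH n h1
    have h4 : t ≤ ‖f ζ' - f ζ₀‖ := hζ'
    rw [div_le_iff₀ (by linarith)]
    linarith
  · by_contra hcon
    push Not at hcon
    have h5 : ζ₁ ∈ T := hcon.le
    have h6 := infDist_le_dist_of_mem (x := ζ₀) h5
    rw [← hτ, dist_comm, dist_eq_norm] at h6
    linarith

/-- A weakly quasisymmetric map commuting with the integer translations moves points by a bounded
amount: if `f (x + v) = f x + v` for `v ∈ Lat 0` and `f 0 = 0` then `‖f x - x‖ ≤ 10 H`.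
Proof: for `‖x‖ ≤ 2`, `‖f x‖ ≤ H ‖f 2‖ = 2 H`; then use `exists_lat_near`. -/
theorem wqs_displacement {H : ℝ} (hH : 1 ≤ H) {f : ℂ → ℂ} (hf : WQS H f) (h0 : f 0 = 0)
    (hper : ∀ x, ∀ v ∈ Lat 0, f (x + v) = f x + v) (x : ℂ) : ‖f x - x‖ ≤ 10 * H := by
  obtain ⟨v, hv, hxv⟩ := exists_lat_near (a := 0) (by norm_num) x
  have h2 : (2 : ℂ) ∈ Lat 0 := ⟨2, 0, by push_cast; ring⟩
  have hf2 : f 2 = 2 := by
    have := hper 0 2 h2
    simpa [h0] using this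
  have h3 : f x = f (x - v) + v := by
    have := hper (x - v) v hv
    rwa [sub_add_cancel] at this
  have h4 : f x - x = f (x - v) - (x - v) := by rw [h3]; ring
  have h5 := hf 0 (x - v) 2 (by simpa using hxv)
  rw [h0, hf2, sub_zero, sub_zero] at h5
  have h6 : ‖(2 : ℂ)‖ = 2 := by norm_num
  rw [h6] at h5
  rw [h4]
  have h7 := norm_sub_le (f (x - v)) (x - v)
  linarith

end Pool.Agent.KK
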