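import Pool.Agent.W_bb4b37_h53.CantorB
import Pool.Agent.W_bb4b37_h53.LevG0
import Pool.Agent.W_bb4b37_h53.LevelB
import Pool.Agent.W_bb4b37_h53.LevelMapE
import Pool.Agent.W_bb4b37_h53.QSMetricB

/-!
# Level realizations: one step of the fixed point map
-/

set_option autoImplicit false

open Filter Topology Set MeasureTheory Metric
open scoped ContDiff

namespace Pool.Agent.KK

/-- Admissible coefficients. -/
structure Coef (a : ℝ) (μ : ℂ → ℂ) : Prop where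
  smooth : ContDiff ℝ ∞ μ
  per : Per a μ
  bound : ∀ z, ‖μ z‖ ≤ 1 / 1000

/-- The normalized map `G` of the coefficient `μ` and the level solution `w` of `G ⁻¹' Lam`. -/
structure Step (C ε a s : ℝ) (μ : ℂ → ℂ) (β : ℂ) (G : ℂ ≃ₜ ℂ) (w : ℂ → ℝ) : Prop where
  sol : Sol a μ β G
  lev : LevelSol C ε a (G ⁻¹' Lam) s w

/-- The new coefficient. -/
noncomputable def tauS (ε s : ℝ) (G : ℂ → ℂ) (w : ℂ → ℝ) (m : ℂ) (z : ℂ) : ℂ :=
  ((1 - thet s (G z) : ℝ) : ℂ) * nu ε w z + ((thet s (G z) : ℝ) : ℂ) * m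

/-- The set `G ⁻¹' Lam` of a normalized map is closed, nonempty, periodic, uniformly perfect. -/
theorem exists_UP_const : ∃ A H : ℝ, 1 ≤ A ∧ 1 ≤ H ∧ ∀ (a : ℝ) (μ : ℂ → ℂ) (β : ℂ) (G : ℂ ≃ₜ ℂ),
    0 ≤ a → a ≤ 1 / 100000 → (∀ z, ‖μ z‖ ≤ 1 / 1000) → Sol a μ β G →
    WQS H G ∧ WQS H G.symm ∧ IsClosed (G ⁻¹' Lam) ∧ (G ⁻¹' Lam).Nonempty ∧
      PerSet a (G ⁻¹' Lam) ∧ UP A (G ⁻¹' Lam) := by
  obtain ⟨H, hH, hw⟩ := sol_wqs
  obtain ⟨A, hA, hup⟩ := wqs_UP H 10 hH (by norm_num)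
  refine ⟨A, H, hA, hH, fun a μ β G ha0 ha hμ hG => ?_⟩
  obtain ⟨h1, h2⟩ := hw a μ β G ha0 ha hμ hG
  refine ⟨h1, h2, isClosed_Lam.preimage G.continuous, ⟨0, ?_⟩, ?_, ?_⟩
  · rw [mem_preimage, hG.zero]
    exact zero_mem_Lam
  · intro z hz v hv
    obtain ⟨m, n, rfl⟩ := hv
    rw [mem_preimage, hG.per z m n]
    refine perSet_Lam _ hz _ ⟨m, n, ?_⟩
    simp
  · have h3 := hup G.symm Lam h2 G.symm.continuous G.symm.bijective up_Lam
    rwa [G.image_symm] at h3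

/-- The constants. Proof: `H, A` from `exists_UP_const`; `C` and `ε₀` from `levelSol_exists A`,
`levelSol_unique C`, `levelSol_cont C`. Existence: `sol_exists`, `levelSol_exists`. Uniqueness:
`sol_unique`, `levelSol_unique`. Continuity: `sol_cont` gives `β_n → β'` and uniform convergence of
`G_n` and of the inverses, `infDist_preimage` and `levelSol_cont` give the convergence of `w_n` and of
its first derivatives, `nu_tendsto`. -/
theorem step_consts : ∃ C H ε₀ : ℝ, 1 ≤ C ∧ 1 ≤ H ∧ 0 < ε₀ ∧ ε₀ ≤ 1 ∧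
    2 * C ^ 2 * ε₀ ^ 2 ≤ 1 / 100000 ∧
    (∀ (a : ℝ) (μ : ℂ → ℂ) (β : ℂ) (G : ℂ ≃ₜ ℂ), 0 ≤ a → a ≤ 1 / 100000 →
      (∀ z, ‖μ z‖ ≤ 1 / 1000) → Sol a μ β G → WQS H G ∧ WQS H G.symm) ∧
    ∀ ε : ℝ, 0 < ε → ε ≤ ε₀ → ∀ a : ℝ, 0 ≤ a → a ≤ 1 / 100000 → ∀ s : ℝ, 0 < s → s ≤ 1 →
      (∀ μ, Coef a μ → ∃ β G w, Step C ε a s μ β G w) ∧
      (∀ μ β G w β' G' w', Coef a μ → Step C ε a s μ β G w → Step C ε a s μ β' G' w' →
        β = β' ∧ G = G' ∧ w = w') ∧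
      (∀ (μ : ℕ → ℂ → ℂ) (μ' : ℂ → ℂ) (β : ℕ → ℂ) (G : ℕ → (ℂ ≃ₜ ℂ)) (w : ℕ → ℂ → ℝ) (β' : ℂ)
        (G' : ℂ ≃ₜ ℂ) (w' : ℂ → ℝ), (∀ n, Coef a (μ n)) → Coef a μ' →
        (∀ n, Step C ε a s (μ n) (β n) (G n) (w n)) → Step C ε a s μ' β' G' w' →
        (∀ η > 0, ∀ᶠ n in atTop, ∀ z, ‖μ n z - μ' z‖ ≤ η) →
        Tendsto β atTop (𝓝 β') ∧ ∀ z, Tendsto (fun n => nu ε (w n) z) atTop (𝓝 (nu ε w' z)) ∧
          Tendsto (fun n => G n z) atTop (𝓝 (G' z))) := by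
  obtain ⟨A, H, hA, hH, hUP⟩ := exists_UP_const
  obtain ⟨C, ε₁, hC, hε₁, hex⟩ := levelSol_exists A hA
  obtain ⟨ε₂, hε₂, hun⟩ := levelSol_unique C hC
  obtain ⟨ε₃, hε₃, hco⟩ := levelSol_cont C hC
  have hC0 : 0 < C := by linarith
  refine ⟨C, H, min (min (min ε₁ ε₂) ε₃) (1 / (1000 * C)), hC, hH, by positivity, ?_, ?_, ?_, ?_⟩
  · refine (min_le_right _ _).trans ?_
    rw [div_le_one (by positivity)]
    linarith
  · have h1 : min (min (min ε₁ ε₂) ε₃) (1 / (1000 * C)) ≤ 1 / (1000 * C) := min_le_right _ _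
    have h0 : 0 ≤ min (min (min ε₁ ε₂) ε₃) (1 / (1000 * C)) := by positivity
    calc 2 * C ^ 2 * min (min (min ε₁ ε₂) ε₃) (1 / (1000 * C)) ^ 2
        ≤ 2 * C ^ 2 * (1 / (1000 * C)) ^ 2 :=
          mul_le_mul_of_nonneg_left (pow_le_pow_left₀ h0 h1 2) (by positivity)
      _ = 2 / 1000000 := by
          field_simp
          norm_num
      _ ≤ 1 / 100000 := by norm_num
  · intro a μ β G ha0 ha hμ hG
    obtain ⟨h1, h2, _⟩ := hUP a μ β G ha0 ha hμ hG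
    exact ⟨h1, h2⟩
  intro ε hε hεle a ha0 ha s hs hs1
  have e1 : ε ≤ ε₁ := hεle.trans ((min_le_left _ _).trans ((min_le_left _ _).trans (min_le_left _ _)))
  have e2 : ε ≤ ε₂ := hεle.trans ((min_le_left _ _).trans ((min_le_left _ _).trans (min_le_right _ _)))
  have e3 : ε ≤ ε₃ := hεle.trans ((min_le_left _ _).trans (min_le_right _ _))
  have haa : |a| < 1 := by
    rw [abs_of_nonneg ha0]
    linarith
  refine ⟨?_, ?_, ?_⟩
  · intro μ hμ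
    obtain ⟨β, G, hG⟩ := sol_exists ha0 ha hμ.smooth hμ.per hμ.bound
    obtain ⟨_, _, g1, g2, g3, g4⟩ := hUP a μ β G ha0 ha hμ.bound hG
    obtain ⟨w, hw⟩ := hex ε hε e1 a ha0 (by linarith) (G ⁻¹' Lam) g1 g2 g3 g4 s hs hs1
    exact ⟨β, G, w, hG, hw⟩
  · intro μ β G w β' G' w' hμ h h'
    obtain ⟨rfl, rfl⟩ := sol_unique ha0 ha hμ.smooth hμ.per hμ.bound h.sol h'.sol
    exact ⟨rfl, rfl, hun ε hε e2 a s _ w w' haa h.lev h'.lev⟩
  · intro μ μ' β G w β' G' w' hμ hμ' h h' hlim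
    have key : ∀ η > 0, ∀ᶠ n in atTop, ‖β n - β'‖ ≤ η ∧ (∀ z, ‖G n z - G' z‖ ≤ η) ∧
        ∀ z, ‖(G n).symm z - G'.symm z‖ ≤ η := by
      intro η hη
      obtain ⟨δ, hδ, hd⟩ := sol_cont η hη
      filter_upwards [hlim δ hδ] with n hn
      exact hd a ha0 ha (μ n) μ' (β n) β' (G n) G' (hμ n).smooth (hμ n).per (hμ n).bound
        hμ'.smooth hμ'.per hμ'.bound (h n).sol h'.sol hn
    obtain ⟨_, _, g1, g2, g3, g4⟩ := hUP a μ' β' G' ha0 ha hμ'.bound h'.sol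
    have hS : ∀ η > 0, ∀ᶠ n in atTop, ∀ z,
        |infDist z (G n ⁻¹' Lam) - infDist z (G' ⁻¹' Lam)| ≤ η := by
      intro η hη
      filter_upwards [key η hη] with n hn
      intro z
      exact infDist_preimage hn.2.2 z
    have hcon := hco ε hε e3 a s (fun n => G n ⁻¹' Lam) (G' ⁻¹' Lam) w w' haa hs hs1 g2 g3 hS
      (fun n => (h n).lev) h'.lev
    refine ⟨?_, fun z => ⟨?_, ?_⟩⟩
    · rw [Metric.tendsto_nhds]
      intro e he
      filter_upwards [key (e / 2) (by positivity)] with n hn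
      rw [dist_eq_norm]
      linarith [hn.1]
    · exact nu_tendsto (hcon z [] (by simp)) (hcon z [true] (by simp)) (hcon z [false] (by simp))
    · rw [Metric.tendsto_nhds]
      intro e he
      filter_upwards [key (e / 2) (by positivity)] with n hn
      rw [dist_eq_norm]
      linarith [hn.2.1 z]

end Pool.Agent.KK
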