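import Pool.Agent.W_bb4b37_h53.LevG1

/-!
# Level realizations: equicontinuity of the new coefficient, the estimate for `m - β`
-/

set_option autoImplicit false

open Filter Topology Set MeasureTheory Metric
open scoped ContDiff

namespace Pool.Agent.KK

theorem LevG2_nu {C ε a s : ℝ} {μ : ℂ → ℂ} {β : ℂ} {G : ℂ ≃ₜ ℂ} {w : ℂ → ℝ}
    (hε0 : 0 < ε) (hε : 2 * C ^ 2 * ε ^ 2 ≤ 1 / 100000) (h : Step C ε a s μ β G w) (z : ℂ) :
    ‖nu ε w z‖ ≤ 1 / 1000 := by
  have h1 := nu_le (C := C) (ε := ε) (w := w) (z := z) hε0.le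
    (by simpa using h.lev.scaled.d1 z (mem_univ z) [true] rfl)
    (by simpa using h.lev.scaled.d1 z (mem_univ z) [false] rfl)
  linarith

/-- The lattice translations. -/
theorem LevG2_per {a : ℝ} {μ : ℂ → ℂ} {β : ℂ} {G : ℂ ≃ₜ ℂ} (h : Sol a μ β G) (z : ℂ) {v : ℂ}
    (hv : v ∈ Lat a) : ∃ v' ∈ Lat 0, ∀ z, G (z + v) = G z + v' := by
  obtain ⟨m, n, rfl⟩ := hv
  refine ⟨(m : ℂ) + (n : ℂ) * Complex.I, ⟨m, n, by push_cast; ring⟩, fun z => ?_⟩
  exact h.per z m n

/-- Points at distance at most one have images at distance at most `8 H`. -/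
theorem LevG2_dist {a H : ℝ} (hH : 1 ≤ H) (ha0 : 0 ≤ a) (ha : a ≤ 1 / 100000) {μ : ℂ → ℂ} {β : ℂ}
    {G : ℂ ≃ₜ ℂ} (h : Sol a μ β G) (hq : WQS H G) (x y : ℂ) (hxy : ‖x - y‖ ≤ 1) :
    ‖G x - G y‖ ≤ 8 * H := by
  have ha' : |a| < 1 := by
    rw [abs_of_nonneg ha0]
    linarith
  obtain ⟨v, hv, hvn⟩ := exists_lat_near ha' x
  obtain ⟨v', -, hG⟩ := LevG2_per h 0 hv
  have h4 : G (((4 : ℤ) : ℂ) * (1 + (a : ℂ)) + ((0 : ℤ) : ℂ) * ((1 - (a : ℂ)) * Complex.I)) =
      4 := by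
    have := h.per 0 4 0
    rw [zero_add, h.zero, zero_add] at this
    rw [this]
    push_cast
    ring
  have hbd : ∀ u : ℂ, ‖u‖ ≤ 4 → ‖G u‖ ≤ 4 * H := by
    intro u hu
    have h5 := hq 0 u (((4 : ℤ) : ℂ) * (1 + (a : ℂ)) +
      ((0 : ℤ) : ℂ) * ((1 - (a : ℂ)) * Complex.I)) (by
        rw [sub_zero, sub_zero]
        refine hu.trans ?_
        have : ((4 : ℤ) : ℂ) * (1 + (a : ℂ)) + ((0 : ℤ) : ℂ) * ((1 - (a : ℂ)) * Complex.I) =
            ((4 * (1 + a) : ℝ) : ℂ) := by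
          push_cast
          ring
        rw [this, Complex.norm_real, Real.norm_eq_abs, abs_of_nonneg (by positivity)]
        linarith)
    rw [h4, h.zero, sub_zero, sub_zero] at h5
    have h6 : ‖(4 : ℂ)‖ = 4 := by simp
    rw [h6] at h5
    linarith
  have hx : G x = G (x - v) + v' := by
    rw [← hG, sub_add_cancel]
  have hy : G y = G (y - v) + v' := by
    rw [← hG, sub_add_cancel]
  have hyn : ‖y - v‖ ≤ 4 := by
    have : y - v = (x - v) - (x - y) := by ring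
    rw [this]
    refine (norm_sub_le _ _).trans ?_
    linarith
  rw [hx, hy, add_sub_add_right_eq_sub]
  refine (norm_sub_le _ _).trans ?_
  have h7 := hbd (x - v) (by linarith)
  have h8 := hbd (y - v) hyn
  linarith

theorem LevG2_infDist {a : ℝ} (ha0 : 0 ≤ a) (ha : a ≤ 1 / 100000) {μ : ℂ → ℂ} {β : ℂ}
    {G : ℂ ≃ₜ ℂ} (h : Sol a μ β G) (z : ℂ) : infDist z (G ⁻¹' Lam) ≤ 2 := by
  have ha' : |a| < 1 := by
    rw [abs_of_nonneg ha0]
    linarith
  obtain ⟨v, hv, hvn⟩ := exists_lat_near ha' z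
  obtain ⟨v', hv', hG⟩ := LevG2_per h 0 hv
  have h1 : v ∈ G ⁻¹' Lam := by
    show G v ∈ Lam
    have h2 := hG 0
    rw [zero_add, h.zero] at h2
    rw [h2]
    exact perSet_Lam 0 zero_mem_Lam v' hv'
  have h3 := infDist_le_dist_of_mem (x := z) h1
  rw [dist_eq_norm] at h3
  exact h3.trans hvn

/-- The values of `w` and its derivatives. -/
theorem LevG2_vals {C ε a s : ℝ} (hC : 1 ≤ C) (hs : 0 < s) (hs1 : s ≤ 1)
    (ha0 : 0 ≤ a) (ha : a ≤ 1 / 100000)
    {μ : ℂ → ℂ} {β : ℂ} {G : ℂ ≃ₜ ℂ} {w : ℂ → ℝ} (h : Step C ε a s μ β G w) (z : ℂ) :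
    |w z| ≤ |Real.log (C / s)| + |Real.log (2 * C)| ∧
    ∀ l : List Bool, 1 ≤ l.length → l.length ≤ 2 → |DD l w z| ≤ C * (C / s) + C * (C / s) ^ 2 := by
  have hC0 : 0 < C := by linarith
  have hup : Real.exp (w z) ≤ C / s := LevelB_exp_le hs h.lev z
  have hlo : 1 / (C * 2) ≤ Real.exp (w z) := by
    refine LevelB_le_exp hC hs h.lev z (max_le (LevG2_infDist ha0 ha h.sol z) (by linarith))
  constructor
  · have h1 : w z ≤ Real.log (C / s) := by
      rw [Real.le_log_iff_exp_le (by positivity)]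
      exact hup
    have h2 : Real.log (1 / (C * 2)) ≤ w z := by
      rw [Real.log_le_iff_le_exp (by positivity)]
      exact hlo
    have h3 : Real.log (1 / (C * 2)) = -Real.log (2 * C) := by
      rw [one_div, Real.log_inv, mul_comm]
    rw [h3] at h2
    rw [abs_le]
    constructor
    · linarith [neg_abs_le (Real.log (C / s)), abs_nonneg (Real.log (C / s)),
        le_abs_self (Real.log (2 * C))]
    · linarith [le_abs_self (Real.log (C / s)), abs_nonneg (Real.log (2 * C))]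
  · intro l hl1 hl2
    have he := Real.exp_pos (w z)
    have k1 : 0 ≤ C * (C / s) := by positivity
    have k2 : 0 ≤ C * (C / s) ^ 2 := by positivity
    rcases Nat.lt_or_ge l.length 2 with h0 | h0
    · have h1 := h.lev.scaled.d1 z (mem_univ z) l (by omega)
      have h2 : C * Real.exp (w z) ≤ C * (C / s) := by gcongr
      linarith
    · have h1 := h.lev.scaled.d2 z (mem_univ z) l (by omega)
      have h2 : C * Real.exp (w z) ^ 2 ≤ C * (C / s) ^ 2 := by gcongr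
      linarith

/-- Bound of the new coefficient. -/
theorem tauS_le {C ε a s : ℝ} {μ : ℂ → ℂ} {β : ℂ} {G : ℂ ≃ₜ ℂ} {w : ℂ → ℝ} (hC : 1 ≤ C)
    (hε0 : 0 < ε) (hε : 2 * C ^ 2 * ε ^ 2 ≤ 1 / 100000) (h : Step C ε a s μ β G w) {m : ℂ}
    (hm : ‖m‖ ≤ 1 / 1000) (z : ℂ) : ‖tauS ε s G w m z‖ ≤ 1 / 1000 := by
  unfold tauS
  have h1 := thet_nonneg s (G z)
  have h2 := thet_le_one s (G z)
  have h3 := LevG2_nu hε0 hε h z
  refine (norm_add_le _ _).trans ?_
  rw [norm_mul, norm_mul, Complex.norm_real, Complex.norm_real, Real.norm_eq_abs,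
    Real.norm_eq_abs, abs_of_nonneg h1, abs_of_nonneg (by linarith)]
  have h4 := mul_le_mul_of_nonneg_left h3 (sub_nonneg.2 h2)
  have h5 := mul_le_mul_of_nonneg_left hm h1
  linarith

theorem tauS_per {C ε a s : ℝ} {μ : ℂ → ℂ} {β : ℂ} {G : ℂ ≃ₜ ℂ} {w : ℂ → ℝ}
    (h : Step C ε a s μ β G w) (m : ℂ) : Per a (tauS ε s G w m) := by
  intro z v hv
  obtain ⟨v', hv', hG⟩ := LevG2_per h.sol 0 hv
  unfold tauS
  rw [hG z, thet_per s (G z) v' hv', nu_per h.lev.per z v hv]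

/-- **Equicontinuity.** Proof: `G` maps points at distance `≤ 1` to points at distance `≤ 8 H`
(translate by a lattice vector, `exists_lat_near`; `G 0 = 0`, `G (4 (1 + a)) = 4` and `WQS H G` give
`‖G x‖ ≤ 4 H` for `‖x‖ ≤ 4`), so `wqs_modulus` gives a modulus of continuity for `G`;
`thet_lipschitz`. The values `w`, `Dx w`, `Dy w` are bounded by constants depending on `C, s` only
(`e^{w} ≤ C / s`, `e^{-w} ≤ C max (infDist z S) s ≤ 3 C`) and Lipschitz (`mean_value_univ`, second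
derivatives `≤ C e^{2w}`); use `nu_eq_Psi`, `Psi_unif`. -/
theorem tauS_osc {C H ε a s : ℝ} (hC : 1 ≤ C) (hH : 1 ≤ H) (hε0 : 0 < ε) (hε1 : ε ≤ 1)
    (hε : 2 * C ^ 2 * ε ^ 2 ≤ 1 / 100000) (ha0 : 0 ≤ a) (ha : a ≤ 1 / 100000) (hs : 0 < s)
    (hs1 : s ≤ 1) : ∀ η > 0, ∃ δ > 0, ∀ (μ : ℂ → ℂ) (β : ℂ) (G : ℂ ≃ₜ ℂ) (w : ℂ → ℝ) (m : ℂ),
      Step C ε a s μ β G w → WQS H G → ‖m‖ ≤ 1 / 1000 → ∀ z z', ‖z - z'‖ ≤ δ →
      ‖tauS ε s G w m z - tauS ε s G w m z'‖ ≤ η := by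
  intro η hη
  have hC0 : 0 < C := by linarith
  obtain ⟨δ₁, hδ₁, hmod⟩ := wqs_modulus H (8 * H) hH (by linarith) (s * η) (by positivity)
  obtain ⟨B, hB⟩ : ∃ B, B = |Real.log (C / s)| + |Real.log (2 * C)| +
    (C * (C / s) + C * (C / s) ^ 2) := ⟨_, rfl⟩
  have k1 : 0 ≤ |Real.log (C / s)| + |Real.log (2 * C)| := by positivity
  have k2 : 0 < C * (C / s) + C * (C / s) ^ 2 := by positivity
  have hB0 : 0 < B := by linarith
  obtain ⟨δ₂, hδ₂, hPsi⟩ := Psi_unif ε B (η / 2) (by positivity)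
  refine ⟨min δ₁ (δ₂ / (2 * B)), lt_min hδ₁ (by positivity), ?_⟩
  intro μ β G w m h hq hm z z' hzz
  have hz1 : ‖z - z'‖ ≤ δ₁ := hzz.trans (min_le_left _ _)
  have hz2 : 2 * B * ‖z - z'‖ ≤ δ₂ := by
    have := hzz.trans (min_le_right _ _)
    rw [le_div_iff₀ (by positivity)] at this
    linarith
  have hG := hmod G hq (fun x y hxy => LevG2_dist hH ha0 ha h.sol hq x y hxy) z z' hz1
  have hth : |thet s (G z) - thet s (G z')| ≤ η := by
    refine (thet_lipschitz hs _ _).trans ?_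
    rw [div_le_iff₀ hs]
    linarith
  have hval := LevG2_vals hC hs hs1 ha0 ha h
  have hw2 : ContDiff ℝ 2 w := h.lev.smooth
  have hDxc : ContDiff ℝ 1 (Dx w) := contDiff_Dx hw2 (by norm_num)
  have hDyc : ContDiff ℝ 1 (Dy w) := contDiff_Dy hw2 (by norm_num)
  have hw0 : ∀ z, |w z| ≤ B := fun z => by
    have := (hval z).1
    linarith
  have hd : ∀ (l : List Bool), 1 ≤ l.length → l.length ≤ 2 → ∀ z, |DD l w z| ≤ B :=
    fun l h1 h2 z => by
      have := (hval z).2 l h1 h2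
      linarith
  have hd1 : ∀ z, |Dx w z| ≤ B := fun z => by
    simpa using hd [true] (by simp) (by simp) z
  have hd2 : ∀ z, |Dy w z| ≤ B := fun z => by
    simpa using hd [false] (by simp) (by simp) z
  have l0 : |w z - w z'| ≤ δ₂ := by
    have := mean_value_univ (f := w) (K := B) (hw2.differentiable (by norm_num))
      (fun z l hl => by
        rw [Real.norm_eq_abs]
        exact hd l (by omega) (by omega) z) z z'
    rw [Real.norm_eq_abs] at this
    linarith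
  have l1 : |Dx w z - Dx w z'| ≤ δ₂ := by
    have := mean_value_univ (f := Dx w) (K := B) (hDxc.differentiable (by norm_num))
      (fun z l hl => by
        rw [Real.norm_eq_abs]
        have h1 : DD (l ++ [true]) w = DD l (Dx w) := DD_append l [true] w
        rw [← h1]
        exact hd _ (by simp) (by simp [hl]) z) z z'
    rw [Real.norm_eq_abs] at this
    linarith
  have l2 : |Dy w z - Dy w z'| ≤ δ₂ := by
    have := mean_value_univ (f := Dy w) (K := B) (hDyc.differentiable (by norm_num))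
      (fun z l hl => by
        rw [Real.norm_eq_abs]
        have h1 : DD (l ++ [false]) w = DD l (Dy w) := DD_append l [false] w
        rw [← h1]
        exact hd _ (by simp) (by simp [hl]) z) z z'
    rw [Real.norm_eq_abs] at this
    linarith
  have hnu : ‖nu ε w z - nu ε w z'‖ ≤ η / 2 := by
    rw [nu_eq_Psi, nu_eq_Psi]
    exact hPsi _ _ _ _ _ _ (hw0 z) (hd1 z) (hd2 z) (hw0 z') (hd1 z') (hd2 z') l0 l1 l2
  have hnu' := LevG2_nu hε0 hε h z'
  have e : tauS ε s G w m z - tauS ε s G w m z' =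
      ((1 - thet s (G z) : ℝ) : ℂ) * (nu ε w z - nu ε w z') +
        ((thet s (G z) - thet s (G z') : ℝ) : ℂ) * (m - nu ε w z') := by
    unfold tauS
    push_cast
    ring
  have h1 := thet_nonneg s (G z)
  have h2 := thet_le_one s (G z)
  rw [e]
  refine (norm_add_le _ _).trans ?_
  rw [norm_mul, norm_mul, Complex.norm_real, Complex.norm_real, Real.norm_eq_abs,
    Real.norm_eq_abs, abs_of_nonneg (sub_nonneg.2 h2)]
  have h3 : (1 - thet s (G z)) * ‖nu ε w z - nu ε w z'‖ ≤ 1 * (η / 2) :=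
    mul_le_mul (by linarith) hnu (norm_nonneg _) zero_le_one
  have h4 : ‖m - nu ε w z'‖ ≤ 1 / 1000 + 1 / 1000 := (norm_sub_le _ _).trans (add_le_add hm hnu')
  have h5 : |thet s (G z) - thet s (G z')| * ‖m - nu ε w z'‖ ≤ η * (1 / 1000 + 1 / 1000) :=
    mul_le_mul hth h4 (norm_nonneg _) hη.le
  linarith

end Pool.Agent.KK
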