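import Pool.Agent.W_bb4b37_h53.BeltramiA

/-!
# Realizations at level `s` (fixed point argument) (part B)
-/

set_option autoImplicit false

open Filter Topology Set MeasureTheory Metric
open scoped ContDiff

namespace Pool.Agent.KK

/-- the lattice of Gaussian integers as an additive subgroup -/
def LevelMapB_L : AddSubgroup ℂ where
  carrier := Lat 0
  zero_mem' := ⟨0, 0, by simp⟩
  add_mem' := by
    rintro x y ⟨m, n, hx⟩ ⟨m', n', hy⟩
    refine ⟨m + m', n + n', ?_⟩
    rw [hx, hy]; push_cast; ring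
  neg_mem' := by
    rintro x ⟨m, n, hx⟩
    refine ⟨-m, -n, ?_⟩
    rw [hx]; push_cast; ring

theorem LevelMapB_mem (g : LevelMapB_L) : (g : ℂ) ∈ Lat 0 := g.2

theorem LevelMapB_countable : Countable LevelMapB_L := by
  have h : (Lat 0).Countable := by
    have h1 : Lat 0 ⊆ Set.range (fun p : ℤ × ℤ =>
        (p.1 : ℂ) * (1 + ((0 : ℝ) : ℂ)) + (p.2 : ℂ) * ((1 - ((0 : ℝ) : ℂ)) * Complex.I)) := by
      rintro x ⟨m, n, hx⟩
      exact ⟨(m, n), hx.symm⟩
    exact (Set.countable_range _).mono h1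
  exact h.to_subtype

theorem LevelMapB_vadd (g : LevelMapB_L) (x : ℂ) : g +ᵥ x = (g : ℂ) + x := rfl

theorem LevelMapB_cell_meas : MeasurableSet cell := by
  have h1 : cell = Complex.re ⁻¹' (Ico (0 : ℝ) 1) ∩ Complex.im ⁻¹' (Ico (0 : ℝ) 1) := rfl
  rw [h1]
  exact (Complex.measurable_re measurableSet_Ico).inter (Complex.measurable_im measurableSet_Ico)

theorem LevelMapB_unique (x : ℂ) : ∃! g : LevelMapB_L, (g : ℂ) + x ∈ cell := by
  have hmem : ∀ m n : ℤ, ((m : ℂ) + (n : ℂ) * Complex.I) ∈ LevelMapB_L := by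
    intro m n
    exact ⟨m, n, by push_cast; ring⟩
  refine ⟨⟨((-⌊x.re⌋ : ℤ) : ℂ) + ((-⌊x.im⌋ : ℤ) : ℂ) * Complex.I, hmem _ _⟩, ?_, ?_⟩
  · show (((-⌊x.re⌋ : ℤ) : ℂ) + ((-⌊x.im⌋ : ℤ) : ℂ) * Complex.I) + x ∈ cell
    have h1 := Int.floor_le x.re
    have h2 := Int.lt_floor_add_one x.re
    have h3 := Int.floor_le x.im
    have h4 := Int.lt_floor_add_one x.im
    constructor
    · simp only [Complex.add_re, Complex.mul_re, Complex.intCast_re, Complex.intCast_im,
        Complex.I_re, Complex.I_im, mem_Ico]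
      push_cast
      constructor <;> linarith
    · simp only [Complex.add_im, Complex.mul_im, Complex.intCast_re, Complex.intCast_im,
        Complex.I_re, Complex.I_im, mem_Ico]
      push_cast
      constructor <;> linarith
  · rintro ⟨g, m, n, hg⟩ hgx
    have hg' : g = (m : ℂ) + (n : ℂ) * Complex.I := by rw [hg]; push_cast; ring
    have hgx' : g + x ∈ cell := hgx
    obtain ⟨hr, hi⟩ := hgx'
    rw [hg'] at hr hi
    simp only [Complex.add_re, Complex.mul_re, Complex.intCast_re, Complex.intCast_im,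
        Complex.I_re, Complex.I_im, mem_Ico] at hr
    simp only [Complex.add_im, Complex.mul_im, Complex.intCast_re, Complex.intCast_im,
        Complex.I_re, Complex.I_im, mem_Ico] at hi
    have hm : ⌊x.re⌋ = -m := by
      rw [Int.floor_eq_iff]; push_cast
      constructor <;> linarith [hr.1, hr.2]
    have hn : ⌊x.im⌋ = -n := by
      rw [Int.floor_eq_iff]; push_cast
      constructor <;> linarith [hi.1, hi.2]
    apply Subtype.ext
    show g = ((-⌊x.re⌋ : ℤ) : ℂ) + ((-⌊x.im⌋ : ℤ) : ℂ) * Complex.I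
    rw [hm, hn, hg', neg_neg, neg_neg]

theorem LevelMapB_fund : IsAddFundamentalDomain LevelMapB_L cell (volume : Measure ℂ) :=
  IsAddFundamentalDomain.mk' LevelMapB_cell_meas.nullMeasurableSet fun x => LevelMapB_unique x

theorem LevelMapB_fund_image {G : ℂ → ℂ} (hc : Continuous G) (hb : Function.Bijective G)
    (hper : ∀ x, ∀ v ∈ Lat 0, G (x + v) = G x + v) :
    IsAddFundamentalDomain LevelMapB_L (G '' cell) (volume : Measure ℂ) := by
  refine IsAddFundamentalDomain.mk' ?_ fun x => ?_
  · exact (LevelMapB_cell_meas.image_of_continuousOn_injOn hc.continuousOn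
      hb.1.injOn).nullMeasurableSet
  · obtain ⟨y, rfl⟩ := hb.2 x
    obtain ⟨g, hg, hu⟩ := LevelMapB_unique y
    refine ⟨g, ?_, ?_⟩
    · show (g : ℂ) + G y ∈ G '' cell
      refine ⟨(g : ℂ) + y, hg, ?_⟩
      rw [add_comm (g : ℂ) y, hper y g (LevelMapB_mem g), add_comm]
    · intro g' hg'
      obtain ⟨z, hz, hzg⟩ := hg'
      apply hu
      have h1 : G z = G (y + (g' : ℂ)) := by
        rw [hper y g' (LevelMapB_mem g'), hzg]
        show (g' : ℂ) + G y = G y + (g' : ℂ)
        rw [add_comm]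
      have h2 := hb.1 h1
      show (g' : ℂ) + y ∈ cell
      rw [add_comm, ← h2]; exact hz

/-- Change of variables on the torus: if `G` is a smooth bijection of `ℂ` with positive Jacobian
which commutes with the integer translations then `∫_cell h (G x) det DG x = ∫_cell h` for
bounded measurable periodic `h`; here for the indicator of a periodic set. -/
theorem area_periodic {G : ℂ → ℂ} (hG : ContDiff ℝ ∞ G) (hb : Function.Bijective G)
    (hdet : ∀ x, 0 < (fderiv ℝ G x).det) (hper : ∀ x, ∀ v ∈ Lat 0, G (x + v) = G x + v)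
    {S : Set ℂ} (hS : MeasurableSet S) (hSp : PerSet 0 S) :
    ∫ x in cell ∩ G ⁻¹' S, (fderiv ℝ G x).det = (volume (S ∩ cell)).toReal := by
  have hc : Continuous G := hG.continuous
  have hd : Differentiable ℝ G := hG.differentiable (by simp)
  have hA : MeasurableSet (cell ∩ G ⁻¹' S) := LevelMapB_cell_meas.inter (hc.measurable hS)
  have h1 := integral_image_eq_integral_abs_det_fderiv_smul (volume : Measure ℂ) hA
    (f := G) (f' := fun x => fderiv ℝ G x) (fun x _ => (hd x).hasFDerivAt.hasFDerivWithinAt)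
    hb.1.injOn (fun _ => (1 : ℝ))
  have h2 : (∫ x in cell ∩ G ⁻¹' S, |(fderiv ℝ G x).det| • (1 : ℝ)) =
      ∫ x in cell ∩ G ⁻¹' S, (fderiv ℝ G x).det := by
    congr 1
    funext x
    rw [abs_of_pos (hdet x), smul_eq_mul, mul_one]
  rw [h2] at h1
  rw [← h1]
  have h3 : G '' (cell ∩ G ⁻¹' S) = S ∩ G '' cell := by
    rw [Set.image_inter_preimage, inter_comm]
  rw [h3]
  have := LevelMapB_countable
  have h4 := (LevelMapB_fund_image hc hb hper).measure_set_eq LevelMapB_fund hS (by
    intro g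
    ext x
    show (g : ℂ) + x ∈ S ↔ x ∈ S
    constructor
    · intro h
      have hg : -(g : ℂ) ∈ Lat 0 := LevelMapB_mem (-g)
      have := hSp _ h _ hg
      rwa [add_comm (g : ℂ) x, add_neg_cancel_right] at this
    · intro h
      have := hSp _ h _ (LevelMapB_mem g)
      rwa [add_comm] at this)
  rw [setIntegral_const, smul_eq_mul, mul_one, Measure.real, h4]

end Pool.Agent.KK
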