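import Pool.Agent.W_bb4b37_h53.DiffeoA
import Pool.Agent.W_bb4b37_h53.DiffeoB

/-!
# Realizations at level `s` (fixed point argument) (part C)
-/

set_option autoImplicit false

open Filter Topology Set MeasureTheory Metric
open scoped ContDiff

namespace Pool.Agent.KK

/-- The normalized map of the coefficient `μ` (periodic under `Lat a`). Data: `μ` smooth and
periodic, `‖μ‖ ≤ 1/1000`, `0 ≤ a ≤ 1/10^5`. There are `β` and a homeomorphism `G` of `ℂ` with the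
following properties. `G = F̂` is the affine correction of the solution `F` of
`∂̄F = μ ∂F`: in the coordinate `x`, `z = Aff a x`, `F (Aff a x) = normalForm β φ x` with the
coefficient `(a + μ) / (1 + a μ)` and `F̂ = B ∘ F`, `B y = (y - β ȳ) / (1 - |β|²)`. If `β = 0` then
`∂̄G = μ ∂G`. -/
structure Sol (a : ℝ) (μ : ℂ → ℂ) (β : ℂ) (G : ℂ ≃ₜ ℂ) : Prop where
  smooth : ContDiff ℝ ∞ G
  zero : G 0 = 0
  per : ∀ z : ℂ, ∀ p q : ℤ, G (z + (p * (1 + (a : ℂ)) + q * ((1 - (a : ℂ)) * Complex.I)))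
    = G z + (p + q * Complex.I)
  beta : ‖β‖ ≤ 1 / 100
  belt : ∀ z, Dzb (fun y => G y + β * (starRingEnd ℂ) (G y)) z =
    μ z * Dz (fun y => G y + β * (starRingEnd ℂ) (G y)) z
  ne : ∀ z, Dz (fun y => G y + β * (starRingEnd ℂ) (G y)) z ≠ 0

/-- the real linear map `y + c ȳ` -/
noncomputable def LevelMapC_lin (c : ℂ) (hc : ‖c‖ < 1) : ℂ ≃ₜ ℂ where
  toFun y := y + c * (starRingEnd ℂ) y
  invFun y := (y - c * (starRingEnd ℂ) y) / ((1 - ‖c‖ ^ 2 : ℝ) : ℂ)
  left_inv y := by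
    have h1 : ((1 - ‖c‖ ^ 2 : ℝ) : ℂ) ≠ 0 := by
      rw [Complex.ofReal_ne_zero]
      have := norm_nonneg c
      nlinarith
    have h2 : ((1 - ‖c‖ ^ 2 : ℝ) : ℂ) = 1 - c * (starRingEnd ℂ) c := by
      rw [Complex.mul_conj, Complex.normSq_eq_norm_sq]
      push_cast
      ring
    show (y + c * (starRingEnd ℂ) y - c * (starRingEnd ℂ) (y + c * (starRingEnd ℂ) y)) / _ = y
    rw [div_eq_iff h1, h2, map_add, map_mul, Complex.conj_conj]
    ring
  right_inv y := by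
    have h1 : ((1 - ‖c‖ ^ 2 : ℝ) : ℂ) ≠ 0 := by
      rw [Complex.ofReal_ne_zero]
      have := norm_nonneg c
      nlinarith
    have h2 : ((1 - ‖c‖ ^ 2 : ℝ) : ℂ) = 1 - c * (starRingEnd ℂ) c := by
      rw [Complex.mul_conj, Complex.normSq_eq_norm_sq]
      push_cast
      ring
    show (y - c * (starRingEnd ℂ) y) / ((1 - ‖c‖ ^ 2 : ℝ) : ℂ) +
      c * (starRingEnd ℂ) ((y - c * (starRingEnd ℂ) y) / ((1 - ‖c‖ ^ 2 : ℝ) : ℂ)) = y
    rw [map_div₀, Complex.conj_ofReal, mul_div_assoc', ← add_div, div_eq_iff h1, h2, map_sub,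
      map_mul, Complex.conj_conj]
    ring
  continuous_toFun := continuous_id.add (continuous_const.mul Complex.continuous_conj)
  continuous_invFun := (continuous_id.sub
    (continuous_const.mul Complex.continuous_conj)).div_const _

theorem LevelMapC_lin_apply (c : ℂ) (hc : ‖c‖ < 1) (y : ℂ) :
    LevelMapC_lin c hc y = y + c * (starRingEnd ℂ) y := rfl

theorem LevelMapC_symm_apply (c : ℂ) (hc : ‖c‖ < 1) (y : ℂ) :
    (LevelMapC_lin c hc).symm y = (y - c * (starRingEnd ℂ) y) / ((1 - ‖c‖ ^ 2 : ℝ) : ℂ) := rfl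

theorem LevelMapC_conj : ContDiff ℝ ∞ (fun x : ℂ => (starRingEnd ℂ) x) :=
  Complex.conjCLE.contDiff

theorem LevelMapC_smooth (c : ℂ) (hc : ‖c‖ < 1) : ContDiff ℝ ∞ (LevelMapC_lin c hc) := by
  have e : ⇑(LevelMapC_lin c hc) = fun y => y + c * (starRingEnd ℂ) y := rfl
  rw [e]
  exact contDiff_id.add (contDiff_const.mul LevelMapC_conj)

theorem LevelMapC_smooth_symm (c : ℂ) (hc : ‖c‖ < 1) :
    ContDiff ℝ ∞ (LevelMapC_lin c hc).symm := by
  have e : ⇑(LevelMapC_lin c hc).symm =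
    fun y => (y - c * (starRingEnd ℂ) y) / ((1 - ‖c‖ ^ 2 : ℝ) : ℂ) := rfl
  rw [e]
  exact (contDiff_id.sub (contDiff_const.mul LevelMapC_conj)).div_const _

theorem LevelMapC_Dz_lin (c z : ℂ) : Dz (fun y : ℂ => y + c * (starRingEnd ℂ) y) z = 1 ∧
    Dzb (fun y : ℂ => y + c * (starRingEnd ℂ) y) z = c := by
  have h : HasFDerivAt (fun y : ℂ => y + c * (starRingEnd ℂ) y)
      (ContinuousLinearMap.id ℝ ℂ + c • (Complex.conjCLE : ℂ →L[ℝ] ℂ)) z :=
    (hasFDerivAt_id z).add ((Complex.conjCLE.toContinuousLinearMap.hasFDerivAt).const_mul c)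
  apply CalcC_of_hasFDerivAt h
  intro v
  simp

/-- the points of the lattice -/
theorem LevelMapC_lat {a : ℝ} (p q : ℤ) :
    ((p : ℂ) * (1 + (a : ℂ)) + q * ((1 - (a : ℂ)) * Complex.I)) =
      ((p : ℂ) + q * Complex.I) + (a : ℂ) * (starRingEnd ℂ) ((p : ℂ) + q * Complex.I) := by
  simp only [map_add, map_mul, Complex.conj_I, map_intCast]
  ring

theorem LevelMapC_per0 {W : Type*} {f : ℂ → W} :
    Per 0 f ↔ ∀ (z : ℂ) (p q : ℤ), f (z + (p + q * Complex.I)) = f z := by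
  have e : ∀ p q : ℤ, (p : ℂ) * (1 + ((0 : ℝ) : ℂ)) + (q : ℂ) * ((1 - ((0 : ℝ) : ℂ)) * Complex.I) =
      p + q * Complex.I := by
    intro p q; push_cast; ring
  constructor
  · intro h z p q
    exact h z _ ⟨p, q, (e p q).symm⟩
  · rintro h z v ⟨p, q, rfl⟩
    rw [e]
    exact h z p q

/-- the transferred coefficient -/
noncomputable def LevelMapC_nu (a : ℝ) (μ : ℂ → ℂ) (x : ℂ) : ℂ :=
  ((a : ℂ) + μ (x + (a : ℂ) * (starRingEnd ℂ) x)) /
    (1 + (a : ℂ) * μ (x + (a : ℂ) * (starRingEnd ℂ) x))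

theorem LevelMapC_ne {a : ℝ} (ha0 : 0 ≤ a) (ha : a ≤ 1 / 100000) {m : ℂ} (hb : ‖m‖ ≤ 1 / 1000) :
    1 / 2 ≤ ‖1 + (a : ℂ) * m‖ := by
  have h1 : ‖(a : ℂ) * m‖ ≤ 1 / 2 := by
    rw [norm_mul, Complex.norm_real, Real.norm_of_nonneg ha0]
    nlinarith [norm_nonneg m]
  have h2 := norm_sub_norm_le (1 : ℂ) (-((a : ℂ) * m))
  rw [norm_one, norm_neg, sub_neg_eq_add] at h2
  linarith

theorem LevelMapC_nu_norm {a : ℝ} (ha0 : 0 ≤ a) (ha : a ≤ 1 / 100000) {μ : ℂ → ℂ}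
    (hb : ∀ z, ‖μ z‖ ≤ 1 / 1000) (x : ℂ) : ‖LevelMapC_nu a μ x‖ ≤ 1 / 400 := by
  have h1 := LevelMapC_ne ha0 ha (hb (x + (a : ℂ) * (starRingEnd ℂ) x))
  rw [LevelMapC_nu, norm_div, div_le_iff₀ (by linarith)]
  have h2 : ‖(a : ℂ) + μ (x + (a : ℂ) * (starRingEnd ℂ) x)‖ ≤ a + 1 / 1000 := by
    refine (norm_add_le _ _).trans ?_
    rw [Complex.norm_real, Real.norm_of_nonneg ha0]
    linarith [hb (x + (a : ℂ) * (starRingEnd ℂ) x)]
  linarith

theorem LevelMapC_nu_smooth {a : ℝ} (ha0 : 0 ≤ a) (ha : a ≤ 1 / 100000) {μ : ℂ → ℂ}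
    (hμ : ContDiff ℝ ∞ μ) (hb : ∀ z, ‖μ z‖ ≤ 1 / 1000) : ContDiff ℝ ∞ (LevelMapC_nu a μ) := by
  have h1 : ContDiff ℝ ∞ (fun x : ℂ => μ (x + (a : ℂ) * (starRingEnd ℂ) x)) :=
    hμ.comp (contDiff_id.add (contDiff_const.mul LevelMapC_conj))
  unfold LevelMapC_nu
  have h3 : ContDiff ℝ ∞ (fun x : ℂ => 1 + (a : ℂ) * μ (x + (a : ℂ) * (starRingEnd ℂ) x)) :=
    contDiff_const.add (contDiff_const.mul h1)
  simp only [div_eq_mul_inv]
  refine (contDiff_const.add h1).mul (h3.inv fun x h0 => ?_)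
  have h2 := LevelMapC_ne ha0 ha (hb (x + (a : ℂ) * (starRingEnd ℂ) x))
  rw [h0, norm_zero] at h2
  linarith

theorem LevelMapC_nu_per {a : ℝ} {μ : ℂ → ℂ} (hp : Per a μ) : Per 0 (LevelMapC_nu a μ) := by
  rw [LevelMapC_per0]
  intro z p q
  have e : z + (p + q * Complex.I) + (a : ℂ) * (starRingEnd ℂ) (z + (p + q * Complex.I)) =
      (z + (a : ℂ) * (starRingEnd ℂ) z) +
        ((p : ℂ) * (1 + (a : ℂ)) + q * ((1 - (a : ℂ)) * Complex.I)) := by
    rw [LevelMapC_lat, map_add]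
    ring
  have e2 := hp (z + (a : ℂ) * (starRingEnd ℂ) z) _ ⟨p, q, rfl⟩
  rw [LevelMapC_nu, LevelMapC_nu, e, e2]

/-- the equation of `F ∘ Aff a` -/
theorem LevelMapC_beltrami {a : ℝ} (ha0 : 0 ≤ a) (ha : a ≤ 1 / 100000) {m P Q : ℂ}
    (hb : ‖m‖ ≤ 1 / 1000) :
    (a * P + Q = ((a : ℂ) + m) / (1 + (a : ℂ) * m) * (P + a * Q)) ↔ Q = m * P := by
  have h1 := LevelMapC_ne ha0 ha hb
  have h2 : (1 + (a : ℂ) * m) ≠ 0 := by
    intro h0
    rw [h0, norm_zero] at h1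
    linarith
  have h3 : (1 - (a : ℂ) ^ 2) ≠ 0 := by
    have h4 : (1 - a ^ 2 : ℝ) ≠ 0 := by nlinarith
    intro h0
    apply h4
    exact_mod_cast h0
  constructor
  · intro h
    rw [div_mul_eq_mul_div, eq_div_iff h2] at h
    have h5 : (1 - (a : ℂ) ^ 2) * (Q - m * P) = 0 := by linear_combination h
    rcases mul_eq_zero.1 h5 with h6 | h6
    · exact absurd h6 h3
    · exact sub_eq_zero.1 h6
  · intro h
    rw [div_mul_eq_mul_div, eq_div_iff h2, h]
    ring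

theorem LevelMapC_norm_a {a : ℝ} (ha0 : 0 ≤ a) (ha : a ≤ 1 / 100000) : ‖(a : ℂ)‖ < 1 := by
  rw [Complex.norm_real, Real.norm_of_nonneg ha0]
  linarith

/-- Note: `F = G + β Ḡ` recovers the solution from `G = B ∘ F`. Existence from
`beltrami_exists` (with the coefficient `(a + μ (Aff a x)) / (1 + a μ (Aff a x))`),
`bijective_normalForm`, `contDiff_inverse`. -/
theorem sol_exists {a : ℝ} (ha0 : 0 ≤ a) (ha : a ≤ 1 / 100000) {μ : ℂ → ℂ}
    (hμ : ContDiff ℝ ∞ μ) (hp : Per a μ) (hb : ∀ z, ‖μ z‖ ≤ 1 / 1000) :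
    ∃ β G, Sol a μ β G := by
  obtain ⟨β, φ, hφ, hφp, hφ0, hbel, hne, -, hβ⟩ := beltrami_exists (k := 1 / 400) (by norm_num)
    (LevelMapC_nu_smooth ha0 ha hμ hb) (LevelMapC_nu_per hp) (LevelMapC_nu_norm ha0 ha hb)
  have hβ1 : ‖β‖ ≤ 1 / 100 := by
    have h1 : ‖∫ z in cell, LevelMapC_nu a μ z‖ ≤ 1 / 400 := by
      have h2 := norm_setIntegral_le_of_norm_le_const (μ := volume) (s := cell)
        (f := LevelMapC_nu a μ) (C := 1 / 400) (by rw [volume_cell]; exact ENNReal.one_lt_top)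
        (fun z _ => LevelMapC_nu_norm ha0 ha hb z)
      rw [measureReal_def, volume_cell] at h2
      simpa using h2
    have h3 := norm_add_le (β - ∫ z in cell, LevelMapC_nu a μ z) (∫ z in cell, LevelMapC_nu a μ z)
    rw [sub_add_cancel] at h3
    norm_num at hβ h1 h3 ⊢
    linarith
  have hβ' : ‖β‖ < 1 := by linarith
  have ha' := LevelMapC_norm_a ha0 ha
  have hNs : ContDiff ℝ ∞ (normalForm β φ) := by
    have e : normalForm β φ = fun x => x + β * (starRingEnd ℂ) x + φ x := rfl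
    rw [e]
    exact (contDiff_id.add (contDiff_const.mul LevelMapC_conj)).add hφ
  have hdet : ∀ x, 0 < (fderiv ℝ (normalForm β φ) x).det := by
    intro x
    rw [det_fderiv, hbel x, norm_mul]
    have h1 := LevelMapC_nu_norm ha0 ha hb x
    have h2 : 0 < ‖Dz (normalForm β φ) x‖ := norm_pos_iff.2 (hne x)
    have h3 := norm_nonneg (LevelMapC_nu a μ x)
    have h4 : ‖LevelMapC_nu a μ x‖ ^ 2 < 1 := by nlinarith
    have h5 : 0 < ‖Dz (normalForm β φ) x‖ ^ 2 := by positivity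
    nlinarith
  have hbij := bijective_normalForm hβ' hφ hφp hdet
  set e := Equiv.ofBijective _ hbij with he
  have heN : ∀ x, e x = normalForm β φ x := fun x => rfl
  have hinv : ContDiff ℝ ∞ e.symm :=
    contDiff_inverse hNs (fun x => (hdet x).ne') (fun x => e.symm_apply_apply x)
      (fun x => e.apply_symm_apply x)
  let N : ℂ ≃ₜ ℂ := ⟨e, hNs.continuous, hinv.continuous⟩
  have hN : ∀ x, N x = x + β * (starRingEnd ℂ) x + φ x := fun x => rfl
  set LA := LevelMapC_lin (a : ℂ) ha' with hLA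
  set LB := LevelMapC_lin β hβ' with hLB
  let G : ℂ ≃ₜ ℂ := (LA.symm.trans N).trans LB.symm
  have hG : ∀ z, G z = LB.symm (N (LA.symm z)) := fun z => rfl
  have hGF : ∀ z, G z + β * (starRingEnd ℂ) (G z) = N (LA.symm z) := by
    intro z
    have := LB.apply_symm_apply (N (LA.symm z))
    rw [hLB, LevelMapC_lin_apply] at this
    exact this
  have hFs : ContDiff ℝ ∞ (fun z => N (LA.symm z)) :=
    hNs.comp (LevelMapC_smooth_symm _ ha')
  have hFA : (fun x => N (LA.symm (LA x))) = normalForm β φ := by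
    funext x
    rw [LA.symm_apply_apply]
    rfl
  -- the equation of `F`
  have hF : ∀ z, Dzb (fun z => N (LA.symm z)) z = μ z * Dz (fun z => N (LA.symm z)) z ∧
      Dz (fun z => N (LA.symm z)) z ≠ 0 := by
    intro z
    obtain ⟨x, rfl⟩ := LA.surjective z
    have hLx : LA x = x + (a : ℂ) * (starRingEnd ℂ) x := rfl
    have hd1 : DifferentiableAt ℝ (fun z => N (LA.symm z)) (LA x) := hFs.differentiable (by simp) _
    have hd2 : DifferentiableAt ℝ LA x := (LevelMapC_smooth _ ha').differentiable (by simp) _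
    have c1 := Dz_comp hd1 hd2
    have c2 := Dzb_comp hd1 hd2
    have hLfun : ⇑LA = fun y => y + (a : ℂ) * (starRingEnd ℂ) y := rfl
    have hl := LevelMapC_Dz_lin (a : ℂ) x
    rw [← hLfun] at hl
    rw [hl.1, hl.2, hFA, Complex.conj_ofReal, mul_one] at c1
    rw [hl.1, hl.2, hFA, map_one, mul_one] at c2
    have h1 := hbel x
    set P := Dz (fun z => N (LA.symm z)) (LA x) with hP
    set Q := Dzb (fun z => N (LA.symm z)) (LA x) with hQ
    have h2 : (a : ℂ) * P + Q = ((a : ℂ) + μ (LA x)) / (1 + (a : ℂ) * μ (LA x)) * (P + a * Q) := by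
      rw [c1, c2] at h1
      have h3 : LevelMapC_nu a μ x = ((a : ℂ) + μ (LA x)) / (1 + (a : ℂ) * μ (LA x)) := rfl
      rw [h3] at h1
      rw [mul_comm (a : ℂ) P, mul_comm (a : ℂ) Q]
      exact h1
    have h4 := (LevelMapC_beltrami ha0 ha (hb (LA x))).1 h2
    refine ⟨h4, fun h5 => hne x ?_⟩
    rw [c1, h4, h5]
    ring
  refine ⟨β, G, ?_, ?_, ?_, hβ1, ?_, ?_⟩
  · exact (LevelMapC_smooth_symm β hβ').comp hFs
  · have h1 : LA.symm 0 = 0 := by
      rw [hLA, LevelMapC_symm_apply]; simp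
    have h2 : N 0 = 0 := by rw [hN, hφ0]; simp
    rw [hG, h1, h2, hLB, LevelMapC_symm_apply]
    simp
  · intro z p q
    obtain ⟨x, rfl⟩ := LA.surjective z
    have h1 : LA x + ((p : ℂ) * (1 + (a : ℂ)) + q * ((1 - (a : ℂ)) * Complex.I)) =
        LA (x + (p + q * Complex.I)) := by
      show x + (a : ℂ) * (starRingEnd ℂ) x + _ =
        x + (p + q * Complex.I) + (a : ℂ) * (starRingEnd ℂ) (x + (p + q * Complex.I))
      rw [LevelMapC_lat, map_add (starRingEnd ℂ) x]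
      ring
    apply LB.injective
    rw [h1, hG, hG, LA.symm_apply_apply, LA.symm_apply_apply, LB.apply_symm_apply]
    have h2 : ∀ u v : ℂ, LB (u + v) = LB u + (v + β * (starRingEnd ℂ) v) := by
      intro u v
      show (u + v) + β * (starRingEnd ℂ) (u + v) = u + β * (starRingEnd ℂ) u + _
      rw [map_add]
      ring
    rw [h2, LB.apply_symm_apply, hN, hN, LevelMapC_per0.1 hφp x p q, map_add]
    ring
  · intro z
    have e1 : (fun y => G y + β * (starRingEnd ℂ) (G y)) = fun z => N (LA.symm z) := funext hGF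
    rw [e1]
    exact (hF z).1
  · intro z
    have e1 : (fun y => G y + β * (starRingEnd ℂ) (G y)) = fun z => N (LA.symm z) := funext hGF
    rw [e1]
    exact (hF z).2

/-- the normal form of a solution -/
theorem LevelMapC_nf {a : ℝ} (ha0 : 0 ≤ a) (ha : a ≤ 1 / 100000) {μ : ℂ → ℂ}
    (hb : ∀ z, ‖μ z‖ ≤ 1 / 1000) {β : ℂ} {G : ℂ ≃ₜ ℂ} (h : Sol a μ β G) :
    ∃ φ : ℂ → ℂ, ContDiff ℝ ∞ φ ∧ Per 0 φ ∧ φ 0 = 0 ∧
      (∀ x, normalForm β φ x = G (x + (a : ℂ) * (starRingEnd ℂ) x) +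
        β * (starRingEnd ℂ) (G (x + (a : ℂ) * (starRingEnd ℂ) x))) ∧
      ∀ x, Dzb (normalForm β φ) x = LevelMapC_nu a μ x * Dz (normalForm β φ) x := by
  set F : ℂ → ℂ := fun y => G y + β * (starRingEnd ℂ) (G y) with hF
  set A : ℂ → ℂ := fun x => x + (a : ℂ) * (starRingEnd ℂ) x with hA
  have hFs : ContDiff ℝ ∞ F := h.smooth.add (contDiff_const.mul (LevelMapC_conj.comp h.smooth))
  have hAs : ContDiff ℝ ∞ A := contDiff_id.add (contDiff_const.mul LevelMapC_conj)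
  set φ : ℂ → ℂ := fun x => F (A x) - (x + β * (starRingEnd ℂ) x) with hφ
  have hnf : normalForm β φ = fun x => F (A x) := by
    funext x
    show x + β * (starRingEnd ℂ) x + (F (A x) - (x + β * (starRingEnd ℂ) x)) = F (A x)
    ring
  refine ⟨φ, (hFs.comp hAs).sub (contDiff_id.add (contDiff_const.mul LevelMapC_conj)), ?_, ?_,
    fun x => congrFun hnf x, ?_⟩
  · rw [LevelMapC_per0]
    intro z p q
    have e : A (z + (p + q * Complex.I)) = A z +
        ((p : ℂ) * (1 + (a : ℂ)) + q * ((1 - (a : ℂ)) * Complex.I)) := by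
      show z + (p + q * Complex.I) + (a : ℂ) * (starRingEnd ℂ) (z + (p + q * Complex.I)) =
        z + (a : ℂ) * (starRingEnd ℂ) z + _
      rw [LevelMapC_lat, map_add (starRingEnd ℂ) z]
      ring
    show F (A (z + (p + q * Complex.I))) - (z + (p + q * Complex.I) +
      β * (starRingEnd ℂ) (z + (p + q * Complex.I))) = F (A z) - (z + β * (starRingEnd ℂ) z)
    rw [e]
    show G _ + β * (starRingEnd ℂ) (G _) - _ = G (A z) + β * (starRingEnd ℂ) (G (A z)) - _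
    rw [h.per, map_add (starRingEnd ℂ) (G (A z)), map_add (starRingEnd ℂ) z]
    ring
  · show G (A 0) + β * (starRingEnd ℂ) (G (A 0)) - (0 + β * (starRingEnd ℂ) 0) = 0
    have : A 0 = 0 := by simp [hA]
    rw [this, h.zero]
    simp
  · intro x
    rw [hnf]
    have hd1 : DifferentiableAt ℝ F (A x) := hFs.differentiable (by simp) _
    have hd2 : DifferentiableAt ℝ A x := hAs.differentiable (by simp) _
    have c1 := Dz_comp hd1 hd2
    have c2 := Dzb_comp hd1 hd2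
    have hl := LevelMapC_Dz_lin (a : ℂ) x
    rw [hl.1, hl.2, Complex.conj_ofReal, mul_one] at c1
    rw [hl.1, hl.2, map_one, mul_one] at c2
    rw [c1, c2]
    have h1 := h.belt (A x)
    have h2 := (LevelMapC_beltrami ha0 ha (hb (A x))).2 h1
    have h3 : LevelMapC_nu a μ x = ((a : ℂ) + μ (A x)) / (1 + (a : ℂ) * μ (A x)) := rfl
    rw [h3, mul_comm (Dz F (A x)) (a : ℂ), mul_comm (Dzb F (A x)) (a : ℂ)]
    exact h2

theorem sol_unique {a : ℝ} (ha0 : 0 ≤ a) (ha : a ≤ 1 / 100000) {μ : ℂ → ℂ}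
    (hμ : ContDiff ℝ ∞ μ) (hp : Per a μ) (hb : ∀ z, ‖μ z‖ ≤ 1 / 1000) {β β' : ℂ}
    {G G' : ℂ ≃ₜ ℂ} (h : Sol a μ β G) (h' : Sol a μ β' G') : β = β' ∧ G = G' := by
  obtain ⟨φ, k1, k2, k3, k4, k5⟩ := LevelMapC_nf ha0 ha hb h
  obtain ⟨φ', k1', k2', k3', k4', k5'⟩ := LevelMapC_nf ha0 ha hb h'
  obtain ⟨e1, e2⟩ := beltrami_exists_unique (k := 1 / 400) (by norm_num)
    (LevelMapC_nu_smooth ha0 ha hμ hb) (LevelMapC_nu_per hp) (LevelMapC_nu_norm ha0 ha hb)
    k1 k2 k3 k1' k2' k3' k5 k5'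
  refine ⟨e1, ?_⟩
  subst e1
  have hβ' : ‖β‖ < 1 := by linarith [h.beta]
  have ha' := LevelMapC_norm_a ha0 ha
  ext z
  obtain ⟨x, rfl⟩ := (LevelMapC_lin (a : ℂ) ha').surjective z
  rw [LevelMapC_lin_apply]
  apply (LevelMapC_lin β hβ').injective
  rw [LevelMapC_lin_apply, LevelMapC_lin_apply, ← k4, ← k4', e2]

end Pool.Agent.KK
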