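import Pool.Agent.W_bb4b37_h53.CantorC
import Pool.Agent.W_bb4b37_h53.LevelMapB
import Pool.Agent.W_bb4b37_h53.LevelMapC

/-!
# Realizations at level `s` (fixed point argument) (part F)
-/

set_option autoImplicit false

open Filter Topology Set MeasureTheory Metric
open scoped ContDiff

namespace Pool.Agent.KK

private theorem LevelMapF_hasFDerivAt_Aff (a : ℝ) (x : ℂ) :
    HasFDerivAt (Aff a) (ContinuousLinearMap.id ℝ ℂ +
      (a : ℂ) • (Complex.conjCLE : ℂ →L[ℝ] ℂ)) x := by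
  have h1 : HasFDerivAt (fun y : ℂ => (starRingEnd ℂ) y) (Complex.conjCLE : ℂ →L[ℝ] ℂ) x :=
    Complex.conjCLE.hasFDerivAt
  exact (hasFDerivAt_id x).add (h1.const_smul (a : ℂ))

private theorem LevelMapF_Aff_Dz (a : ℝ) (x : ℂ) : Dz (Aff a) x = 1 ∧ Dzb (Aff a) x = a := by
  apply CalcC_of_hasFDerivAt (LevelMapF_hasFDerivAt_Aff a x)
  intro v
  show v + (a : ℂ) * (starRingEnd ℂ) v = 1 * v + (a : ℂ) * (starRingEnd ℂ) v
  ring

private theorem LevelMapF_contDiff_conj : ContDiff ℝ ∞ (fun y : ℂ => (starRingEnd ℂ) y) :=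
  Complex.conjCLE.contDiff

private theorem LevelMapF_contDiff_Aff (a : ℝ) : ContDiff ℝ ∞ (Aff a) := by
  have : ContDiff ℝ ∞ (fun y : ℂ => y + (a : ℂ) * (starRingEnd ℂ) y) :=
    contDiff_id.add (contDiff_const.mul LevelMapF_contDiff_conj)
  exact this

/-- `Aff a` maps the lattice `Lat 0` to `Lat a`. -/
private theorem LevelMapF_Aff_add (a : ℝ) (x : ℂ) (p q : ℤ) :
    Aff a (x + ((p : ℂ) * (1 + ((0 : ℝ) : ℂ)) + (q : ℂ) * ((1 - ((0 : ℝ) : ℂ)) * Complex.I))) =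
      Aff a x + ((p : ℂ) * (1 + (a : ℂ)) + (q : ℂ) * ((1 - (a : ℂ)) * Complex.I)) := by
  have h1 : (starRingEnd ℂ) (p : ℂ) = p := map_intCast _ p
  have h2 : (starRingEnd ℂ) (q : ℂ) = q := map_intCast _ q
  simp only [Aff, map_add, map_mul, h1, h2, Complex.conj_I, map_one, Complex.ofReal_zero,
    map_zero, map_sub]
  ring

private theorem LevelMapF_Aff_bij {a : ℝ} (ha0 : 0 ≤ a) (ha : a ≤ 1 / 100000) :
    Function.Bijective (Aff a) := by
  have hne : (1 - (a : ℂ) ^ 2) ≠ 0 := by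
    have : (1 - a ^ 2 : ℝ) ≠ 0 := by nlinarith
    exact_mod_cast this
  have hc : (starRingEnd ℂ) (a : ℂ) = a := Complex.conj_ofReal a
  constructor
  · intro x y hxy
    simp only [Aff] at hxy
    have h2 := congrArg (starRingEnd ℂ) hxy
    simp only [map_add, map_mul, hc, Complex.conj_conj] at h2
    have h3 : (1 - (a : ℂ) ^ 2) * (x - y) = 0 := by
      linear_combination hxy - (a : ℂ) * h2
    have h4 := (mul_eq_zero.1 h3).resolve_left hne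
    exact sub_eq_zero.1 h4
  · intro y
    refine ⟨(y - a * (starRingEnd ℂ) y) / (1 - (a : ℂ) ^ 2), ?_⟩
    simp only [Aff, map_div₀, map_sub, map_mul, hc, Complex.conj_conj, map_one, map_pow]
    field_simp
    ring

/-- the coefficient in the coordinate `x` -/
private noncomputable def LevelMapF_mu (a : ℝ) (μ : ℂ → ℂ) : ℂ → ℂ :=
  fun x => ((a : ℂ) + μ (Aff a x)) / (1 + (a : ℂ) * μ (Aff a x))

/-- the periodic part of `G ∘ Aff a` -/
private noncomputable def LevelMapF_g (a : ℝ) (G : ℂ ≃ₜ ℂ) : ℂ → ℂ :=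
  fun x => G (Aff a x) - x

/-- the periodic part of `F ∘ Aff a` -/
private noncomputable def LevelMapF_phi (a : ℝ) (β : ℂ) (G : ℂ ≃ₜ ℂ) : ℂ → ℂ :=
  fun x => LevelMapF_g a G x + β * (starRingEnd ℂ) (LevelMapF_g a G x)

private theorem LevelMapF_den {a k : ℝ} (ha0 : 0 ≤ a) (ha : a ≤ 1 / 100000)
    (hk : k ≤ 1 / 1000) {m : ℂ} (hm : ‖m‖ ≤ k) :
    (10 / 11 : ℝ) ≤ ‖1 + (a : ℂ) * m‖ := by
  have h1 : ‖(1 : ℂ)‖ - ‖(a : ℂ) * m‖ ≤ ‖1 + (a : ℂ) * m‖ := by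
    have := norm_sub_norm_le (1 : ℂ) (-((a : ℂ) * m))
    rwa [norm_neg, sub_neg_eq_add] at this
  rw [norm_one, norm_mul, Complex.norm_real, Real.norm_eq_abs, abs_of_nonneg ha0] at h1
  have h0 := norm_nonneg m
  have h2 : a * ‖m‖ ≤ 1 / 100000 * (1 / 1000) :=
    mul_le_mul ha (hm.trans hk) h0 (by norm_num)
  linarith

private theorem LevelMapF_mu_le {a k : ℝ} (ha0 : 0 ≤ a) (ha : a ≤ 1 / 100000)
    (hk : k ≤ 1 / 1000) {μ : ℂ → ℂ} (hb : ∀ z, ‖μ z‖ ≤ k) (x : ℂ) :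
    ‖LevelMapF_mu a μ x‖ ≤ 11 / 10 * (a + k) := by
  have h1 := LevelMapF_den ha0 ha hk (hb (Aff a x))
  have h2 : ‖(a : ℂ) + μ (Aff a x)‖ ≤ a + k := by
    refine (norm_add_le _ _).trans ?_
    rw [Complex.norm_real, Real.norm_eq_abs, abs_of_nonneg ha0]
    linarith [hb (Aff a x)]
  have hk0 : 0 ≤ k := (norm_nonneg _).trans (hb 0)
  unfold LevelMapF_mu
  rw [norm_div, div_le_iff₀ (by linarith)]
  nlinarith

private theorem LevelMapF_mu_sub {a k : ℝ} (ha0 : 0 ≤ a) (ha : a ≤ 1 / 100000)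
    (hk : k ≤ 1 / 1000) {μ : ℂ → ℂ} (hb : ∀ z, ‖μ z‖ ≤ k) (x : ℂ) :
    ‖LevelMapF_mu a μ x - (a + μ (Aff a x))‖ ≤ (k + a) ^ 2 := by
  have h1 := LevelMapF_den ha0 ha hk (hb (Aff a x))
  have hne : 1 + (a : ℂ) * μ (Aff a x) ≠ 0 := by
    intro h
    rw [h, norm_zero] at h1
    linarith
  have h2 : ‖(a : ℂ) + μ (Aff a x)‖ ≤ a + k := by
    refine (norm_add_le _ _).trans ?_
    rw [Complex.norm_real, Real.norm_eq_abs, abs_of_nonneg ha0]
    linarith [hb (Aff a x)]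
  have hk0 : 0 ≤ k := (norm_nonneg _).trans (hb 0)
  have h3 : LevelMapF_mu a μ x - (a + μ (Aff a x)) =
      -(((a : ℂ) + μ (Aff a x)) * ((a : ℂ) * μ (Aff a x))) / (1 + (a : ℂ) * μ (Aff a x)) := by
    unfold LevelMapF_mu
    field_simp
    ring
  rw [h3, norm_div, norm_neg, norm_mul, norm_mul, Complex.norm_real, Real.norm_eq_abs,
    abs_of_nonneg ha0, div_le_iff₀ (by linarith)]
  have h4 : a * ‖μ (Aff a x)‖ ≤ a * k := mul_le_mul_of_nonneg_left (hb _) ha0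
  have h5 : ‖(a : ℂ) + μ (Aff a x)‖ * (a * ‖μ (Aff a x)‖) ≤ (a + k) * (a * k) :=
    mul_le_mul h2 h4 (by positivity) (by linarith)
  have h6 : a * k ≤ (a + k) * (1 / 1000) := by nlinarith
  have h7 : (a + k) * (a * k) ≤ (a + k) * ((a + k) * (1 / 1000)) :=
    mul_le_mul_of_nonneg_left h6 (by linarith)
  have h8 : (k + a) ^ 2 * (10 / 11) ≤ (k + a) ^ 2 * ‖1 + (a : ℂ) * μ (Aff a x)‖ :=
    mul_le_mul_of_nonneg_left h1 (by positivity)
  nlinarith [sq_nonneg (k + a)]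

private theorem LevelMapF_mu_smooth {a k : ℝ} (ha0 : 0 ≤ a) (ha : a ≤ 1 / 100000)
    (hk : k ≤ 1 / 1000) {μ : ℂ → ℂ} (hμ : ContDiff ℝ ∞ μ) (hb : ∀ z, ‖μ z‖ ≤ k) :
    ContDiff ℝ ∞ (LevelMapF_mu a μ) := by
  have h1 : ContDiff ℝ ∞ (fun x => μ (Aff a x)) := hμ.comp (LevelMapF_contDiff_Aff a)
  have h3 : ContDiff ℝ ∞ (fun x => (a : ℂ) + μ (Aff a x)) := contDiff_const.add h1
  have h4 : ContDiff ℝ ∞ (fun x => 1 + (a : ℂ) * μ (Aff a x)) :=
    contDiff_const.add (contDiff_const.mul h1)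
  have h5 : LevelMapF_mu a μ = fun x => ((a : ℂ) + μ (Aff a x)) * (1 + (a : ℂ) * μ (Aff a x))⁻¹ := by
    funext x
    rw [LevelMapF_mu, div_eq_mul_inv]
  rw [h5]
  refine h3.mul (h4.inv fun x => ?_)
  have h2 := LevelMapF_den ha0 ha hk (hb (Aff a x))
  intro h
  rw [h, norm_zero] at h2
  linarith

private theorem LevelMapF_per {a : ℝ} {μ : ℂ → ℂ} (hp : Per a μ) :
    Per 0 (fun x => μ (Aff a x)) := by
  rintro x v ⟨p, q, rfl⟩
  show μ (Aff a (x + _)) = μ (Aff a x)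
  rw [LevelMapF_Aff_add]
  exact hp _ _ ⟨p, q, rfl⟩

private theorem LevelMapF_mu_per {a : ℝ} {μ : ℂ → ℂ} (hp : Per a μ) :
    Per 0 (LevelMapF_mu a μ) := by
  intro x v hv
  have h := LevelMapF_per hp x v hv
  simp only at h
  unfold LevelMapF_mu
  rw [h]

private theorem LevelMapF_G_add {a : ℝ} {μ : ℂ → ℂ} {β : ℂ} {G : ℂ ≃ₜ ℂ} (h : Sol a μ β G)
    (x : ℂ) {v : ℂ} (hv : v ∈ Lat 0) : G (Aff a (x + v)) = G (Aff a x) + v := by
  obtain ⟨p, q, rfl⟩ := hv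
  rw [LevelMapF_Aff_add, h.per]
  simp

private theorem LevelMapF_g_per {a : ℝ} {μ : ℂ → ℂ} {β : ℂ} {G : ℂ ≃ₜ ℂ} (h : Sol a μ β G) :
    Per 0 (LevelMapF_g a G) := by
  intro x v hv
  unfold LevelMapF_g
  rw [LevelMapF_G_add h x hv]
  ring

private theorem LevelMapF_phi_per {a : ℝ} {μ : ℂ → ℂ} {β : ℂ} {G : ℂ ≃ₜ ℂ} (h : Sol a μ β G) :
    Per 0 (LevelMapF_phi a β G) := by
  intro x v hv
  unfold LevelMapF_phi
  rw [LevelMapF_g_per h x v hv]

private theorem LevelMapF_G_smooth {a : ℝ} {μ : ℂ → ℂ} {β : ℂ} {G : ℂ ≃ₜ ℂ}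
    (h : Sol a μ β G) : ContDiff ℝ ∞ (fun x => G (Aff a x)) :=
  h.smooth.comp (LevelMapF_contDiff_Aff a)

private theorem LevelMapF_g_smooth {a : ℝ} {μ : ℂ → ℂ} {β : ℂ} {G : ℂ ≃ₜ ℂ}
    (h : Sol a μ β G) : ContDiff ℝ ∞ (LevelMapF_g a G) :=
  (LevelMapF_G_smooth h).sub contDiff_id

private theorem LevelMapF_phi_smooth {a : ℝ} {μ : ℂ → ℂ} {β : ℂ} {G : ℂ ≃ₜ ℂ}
    (h : Sol a μ β G) : ContDiff ℝ ∞ (LevelMapF_phi a β G) :=
  (LevelMapF_g_smooth h).add (contDiff_const.mul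
    (LevelMapF_contDiff_conj.comp (LevelMapF_g_smooth h)))

private theorem LevelMapF_normalForm {a : ℝ} (β : ℂ) (G : ℂ ≃ₜ ℂ) :
    normalForm β (LevelMapF_phi a β G) =
      fun x => (fun y => G y + β * (starRingEnd ℂ) (G y)) (Aff a x) := by
  funext x
  simp only [normalForm, LevelMapF_phi, LevelMapF_g, map_sub]
  ring

private theorem LevelMapF_belt {a : ℝ} {μ : ℂ → ℂ} {β : ℂ} {G : ℂ ≃ₜ ℂ}
    (h : Sol a μ β G) (x : ℂ) :
    Dz (normalForm β (LevelMapF_phi a β G)) x =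
      (1 + (a : ℂ) * μ (Aff a x)) * Dz (fun y => G y + β * (starRingEnd ℂ) (G y)) (Aff a x) ∧
    Dzb (normalForm β (LevelMapF_phi a β G)) x =
      ((a : ℂ) + μ (Aff a x)) * Dz (fun y => G y + β * (starRingEnd ℂ) (G y)) (Aff a x) := by
  have hF : ContDiff ℝ ∞ (fun y => G y + β * (starRingEnd ℂ) (G y)) :=
    h.smooth.add (contDiff_const.mul (LevelMapF_contDiff_conj.comp h.smooth))
  have h1 : DifferentiableAt ℝ (fun y => G y + β * (starRingEnd ℂ) (G y)) (Aff a x) :=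
    (hF.differentiable (by simp)) _
  have h2 : DifferentiableAt ℝ (Aff a) x := ((LevelMapF_contDiff_Aff a).differentiable (by simp)) _
  obtain ⟨h3, h4⟩ := LevelMapF_Aff_Dz a x
  rw [LevelMapF_normalForm, Dz_comp h1 h2, Dzb_comp h1 h2, h3, h4, h.belt]
  simp only [Complex.conj_ofReal, map_one]
  constructor <;> ring

private theorem LevelMapF_main {a k : ℝ} (ha0 : 0 ≤ a) (ha : a ≤ 1 / 100000)
    (hk : k ≤ 1 / 1000) {μ : ℂ → ℂ} (hμ : ContDiff ℝ ∞ μ) (hp : Per a μ)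
    (hb : ∀ z, ‖μ z‖ ≤ k) {β : ℂ} {G : ℂ ≃ₜ ℂ} (h : Sol a μ β G) :
    (∀ x, Dzb (normalForm β (LevelMapF_phi a β G)) x =
      LevelMapF_mu a μ x * Dz (normalForm β (LevelMapF_phi a β G)) x) ∧
    (∀ x, Dz (normalForm β (LevelMapF_phi a β G)) x ≠ 0) ∧
    ∫ z in cell, ‖Dz (LevelMapF_phi a β G) z‖ ^ 2 ≤ 2 * (11 / 10 * (a + k)) ^ 2 ∧
    ‖β - ∫ z in cell, LevelMapF_mu a μ z‖ ≤ 2 * (11 / 10 * (a + k)) ^ 2 := by
  have hden : ∀ x, 1 + (a : ℂ) * μ (Aff a x) ≠ 0 := by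
    intro x hx
    have h2 := LevelMapF_den ha0 ha hk (hb (Aff a x))
    rw [hx, norm_zero] at h2
    linarith
  have e1 : ∀ x, Dzb (normalForm β (LevelMapF_phi a β G)) x =
      LevelMapF_mu a μ x * Dz (normalForm β (LevelMapF_phi a β G)) x := by
    intro x
    obtain ⟨h3, h4⟩ := LevelMapF_belt h x
    rw [h3, h4, LevelMapF_mu]
    have := hden x
    field_simp
  have e2 : ∀ x, Dz (normalForm β (LevelMapF_phi a β G)) x ≠ 0 := by
    intro x
    rw [(LevelMapF_belt h x).1]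
    exact mul_ne_zero (hden x) (h.ne _)
  have hK : 11 / 10 * (a + k) ≤ 1 / 2 := by linarith
  have hms := LevelMapF_mu_smooth ha0 ha hk hμ hb
  have hmp := LevelMapF_mu_per hp
  have hml := LevelMapF_mu_le ha0 ha hk hb
  have h0 : LevelMapF_phi a β G 0 = 0 := by
    simp [LevelMapF_phi, LevelMapF_g, Aff, h.zero]
  obtain ⟨β', φ', hφ', hφp', hφ0', hbelt', -, hI, hβ⟩ := beltrami_exists hK hms hmp hml
  obtain ⟨h5, h6⟩ := beltrami_exists_unique hK hms hmp hml (LevelMapF_phi_smooth h)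
    (LevelMapF_phi_per h) h0 hφ' hφp' hφ0' e1 hbelt'
  refine ⟨e1, e2, ?_, ?_⟩
  · rw [h6]
    exact hI
  · rw [h5]
    exact hβ

/-- The formula for `β` to first order: if `‖μ‖ ≤ k` then `β` is `a` plus the mean of `μ`
(in the coordinate `x`) up to `10 (k + a)²`. Proof: `beltrami_exists`:
`‖β - ∫ μ̃‖ ≤ 2 (k + 2a)²`, `μ̃ = (a + μ) / (1 + a μ)`, `|μ̃ - a - μ| ≤ 2 a k (a + k)`. -/
theorem sol_beta {a k : ℝ} (ha0 : 0 ≤ a) (ha : a ≤ 1 / 100000) (hk0 : 0 ≤ k)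
    (hk : k ≤ 1 / 1000) {μ : ℂ → ℂ} (hμ : ContDiff ℝ ∞ μ) (hp : Per a μ)
    (hb : ∀ z, ‖μ z‖ ≤ k) {β : ℂ} {G : ℂ ≃ₜ ℂ} (h : Sol a μ β G) :
    ‖β - a - ∫ x in cell, μ (Aff a x)‖ ≤ 10 * (k + a) ^ 2 := by
  obtain ⟨-, -, -, h1⟩ := LevelMapF_main ha0 ha hk hμ hp hb h
  have hc1 : Continuous (LevelMapF_mu a μ) := (LevelMapF_mu_smooth ha0 ha hk hμ hb).continuous
  have hc2 : Continuous (fun x => μ (Aff a x)) :=
    hμ.continuous.comp (LevelMapF_contDiff_Aff a).continuous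
  have h2 : ∫ x in cell, (LevelMapF_mu a μ x - (a + μ (Aff a x))) =
      (∫ x in cell, LevelMapF_mu a μ x) - (a + ∫ x in cell, μ (Aff a x)) := by
    have hc3 : Continuous (fun x => (a : ℂ) + μ (Aff a x)) := continuous_const.add hc2
    rw [integral_sub (BeltramiF_integrable hc1) (BeltramiF_integrable hc3),
      integral_add (BeltramiF_integrable continuous_const) (BeltramiF_integrable hc2),
      BeltramiF_integral_const]
  have h3 : ‖∫ x in cell, (LevelMapF_mu a μ x - (a + μ (Aff a x)))‖ ≤ (k + a) ^ 2 := by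
    have h4 := norm_setIntegral_le_of_norm_le_const (μ := volume) (s := cell)
      (C := (k + a) ^ 2) (f := fun x => LevelMapF_mu a μ x - (a + μ (Aff a x)))
      (by rw [volume_cell]; exact ENNReal.one_lt_top)
      (fun x _ => LevelMapF_mu_sub ha0 ha hk hb x)
    rwa [measureReal_def, volume_cell, ENNReal.toReal_one, mul_one] at h4
  rw [h2] at h3
  have h5 : β - a - ∫ x in cell, μ (Aff a x) = (β - ∫ x in cell, LevelMapF_mu a μ x) +
      ((∫ x in cell, LevelMapF_mu a μ x) - (a + ∫ x in cell, μ (Aff a x))) := by ring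
  rw [h5]
  refine (norm_add_le _ _).trans ?_
  nlinarith [sq_nonneg (k + a)]

/-- pointwise bounds -/
private theorem LevelMapF_pointwise {β p q u v : ℂ} (hβ : ‖β‖ ≤ 1 / 100)
    (hp : p = u + β * (starRingEnd ℂ) v) (hq : q = v + β * (starRingEnd ℂ) u) :
    ‖1 + u‖ ^ 2 - ‖v‖ ^ 2 ≤ 1 + (1 / 20 + 176 * (‖p‖ ^ 2 + ‖q‖ ^ 2)) := by
  have h1 : ‖u‖ ≤ ‖p‖ + 1 / 100 * ‖v‖ := by
    have h2 : u = p - β * (starRingEnd ℂ) v := by rw [hp]; ring
    calc ‖u‖ = ‖p - β * (starRingEnd ℂ) v‖ := by rw [← h2]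
      _ ≤ ‖p‖ + ‖β * (starRingEnd ℂ) v‖ := norm_sub_le _ _
      _ ≤ ‖p‖ + 1 / 100 * ‖v‖ := by
        rw [norm_mul, RCLike.norm_conj]
        gcongr
  have h3 : ‖v‖ ≤ ‖q‖ + 1 / 100 * ‖u‖ := by
    have h2 : v = q - β * (starRingEnd ℂ) u := by rw [hq]; ring
    calc ‖v‖ = ‖q - β * (starRingEnd ℂ) u‖ := by rw [← h2]
      _ ≤ ‖q‖ + ‖β * (starRingEnd ℂ) u‖ := norm_sub_le _ _
      _ ≤ ‖q‖ + 1 / 100 * ‖u‖ := by
        rw [norm_mul, RCLike.norm_conj]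
        gcongr
  have h4 : ‖1 + u‖ ≤ 1 + ‖u‖ := by
    have := norm_add_le (1 : ℂ) u
    rwa [norm_one] at this
  have hp0 := norm_nonneg p
  have hq0 := norm_nonneg q
  have hu0 := norm_nonneg u
  have hv0 := norm_nonneg v
  have h5 : ‖1 + u‖ ^ 2 ≤ (1 + ‖u‖) ^ 2 := pow_le_pow_left₀ (norm_nonneg _) h4 2
  have h6 : ‖u‖ ≤ 2 * (‖p‖ + ‖q‖) := by linarith
  have h7 : ‖u‖ ^ 2 ≤ (2 * (‖p‖ + ‖q‖)) ^ 2 := pow_le_pow_left₀ hu0 h6 2
  have h8 : (2 * (‖p‖ + ‖q‖)) ^ 2 ≤ 8 * (‖p‖ ^ 2 + ‖q‖ ^ 2) := by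
    nlinarith [sq_nonneg (‖p‖ - ‖q‖)]
  have h9 : 2 * ‖u‖ ≤ 1 / 20 + 20 * ‖u‖ ^ 2 := by nlinarith [sq_nonneg (20 * ‖u‖ - 1)]
  nlinarith [sq_nonneg ‖v‖]

/-- the determinant of the affine correction -/
private theorem LevelMapF_det {β A B : ℂ} :
    ‖A + β * (starRingEnd ℂ) B‖ ^ 2 - ‖B + β * (starRingEnd ℂ) A‖ ^ 2 =
      (1 - ‖β‖ ^ 2) * (‖A‖ ^ 2 - ‖B‖ ^ 2) := by
  simp only [← Complex.normSq_eq_norm_sq, Complex.normSq_apply, Complex.add_re, Complex.add_im,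
    Complex.mul_re, Complex.mul_im, Complex.conj_re, Complex.conj_im]
  ring

/-- The area estimate: the preimage of `Lam` has area fraction at least `1/4`. Proof:
`G ∘ Aff a = x + φ̂ x` commutes with the integer translations and `‖D (G ∘ Aff a) - 1‖_{L²}` is
small (at most `1/100`) by the `L²` bound in `beltrami_exists`, so
`∫_cell |det D (G ∘ Aff a) - 1| ≤ 1/10`; then `area_periodic` for the complement of `Lam` and
`volume_Lam`. -/
theorem sol_area {a : ℝ} (ha0 : 0 ≤ a) (ha : a ≤ 1 / 100000) {μ : ℂ → ℂ}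
    (hμ : ContDiff ℝ ∞ μ) (hp : Per a μ) (hb : ∀ z, ‖μ z‖ ≤ 1 / 1000) {β : ℂ} {G : ℂ ≃ₜ ℂ}
    (h : Sol a μ β G) :
    (1 / 4 : ℝ) ≤ (volume ({x | G (Aff a x) ∈ Lam} ∩ cell)).toReal := by
  obtain ⟨h1, h2, h3, -⟩ := LevelMapF_main ha0 ha le_rfl hμ hp hb h
  have hφ := LevelMapF_phi_smooth h
  have hg := LevelMapF_g_smooth h
  have hΓ := LevelMapF_G_smooth h
  have hgd : ∀ x, DifferentiableAt ℝ (LevelMapF_g a G) x := fun x =>
    (hg.differentiable (by simp)) x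
  have hΓd : ∀ x, DifferentiableAt ℝ (fun x => G (Aff a x)) x := fun x =>
    (hΓ.differentiable (by simp)) x
  -- the derivatives of `φ` in terms of those of `g`
  have hderiv : ∀ (f : ℂ → ℂ), ContDiff ℝ ∞ f → ∀ x,
      Dz (fun y => f y + β * (starRingEnd ℂ) (f y)) x =
        Dz f x + β * (starRingEnd ℂ) (Dzb f x) ∧
      Dzb (fun y => f y + β * (starRingEnd ℂ) (f y)) x =
        Dzb f x + β * (starRingEnd ℂ) (Dz f x) := by
    intro f hf x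
    have hfd : DifferentiableAt ℝ f x := (hf.differentiable (by simp)) x
    apply CalcC_of_hasFDerivAt (L := fderiv ℝ f x +
      β • ((Complex.conjCLE : ℂ →L[ℝ] ℂ).comp (fderiv ℝ f x)))
    · have e1 : HasFDerivAt (fun y => (starRingEnd ℂ) (f y))
          ((Complex.conjCLE : ℂ →L[ℝ] ℂ).comp (fderiv ℝ f x)) x :=
        (Complex.conjCLE.hasFDerivAt (x := f x)).comp x hfd.hasFDerivAt
      exact hfd.hasFDerivAt.add (e1.const_smul β)
    · intro v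
      show fderiv ℝ f x v + β * (starRingEnd ℂ) (fderiv ℝ f x v) = _
      rw [fderiv_eq_Dz]
      simp only [map_add, map_mul, Complex.conj_conj]
      ring
  have hgΓ : ∀ x, Dz (LevelMapF_g a G) x = Dz (fun x => G (Aff a x)) x - 1 ∧
      Dzb (LevelMapF_g a G) x = Dzb (fun x => G (Aff a x)) x := by
    intro x
    have e1 := BeltramiF_Dz_sub hΓ contDiff_id x
    have e2 := BeltramiF_Dzb_sub hΓ contDiff_id x
    obtain ⟨e3, e4⟩ := Dz_of_hasDerivAt (hasDerivAt_id x)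
    rw [e3] at e1
    rw [e4, sub_zero] at e2
    exact ⟨e1, e2⟩
  have hdetΓ : ∀ x, (fderiv ℝ (fun x => G (Aff a x)) x).det =
      ‖Dz (fun x => G (Aff a x)) x‖ ^ 2 - ‖Dzb (fun x => G (Aff a x)) x‖ ^ 2 := fun x =>
    det_fderiv _ x
  have hpos : ∀ x, 0 < (fderiv ℝ (fun x => G (Aff a x)) x).det := by
    intro x
    rw [hdetΓ]
    obtain ⟨e1, e2⟩ := hderiv _ hΓ x
    have e3 : (fun y => (fun x => G (Aff a x)) y + β * (starRingEnd ℂ) ((fun x => G (Aff a x)) y))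
        = normalForm β (LevelMapF_phi a β G) := by
      rw [LevelMapF_normalForm]
    rw [e3] at e1 e2
    have e4 := LevelMapF_det (β := β) (A := Dz (fun x => G (Aff a x)) x)
      (B := Dzb (fun x => G (Aff a x)) x)
    rw [← e1, ← e2, h1 x, norm_mul, mul_pow] at e4
    have e5 : 0 < ‖Dz (normalForm β (LevelMapF_phi a β G)) x‖ ^ 2 := by
      have := norm_pos_iff.2 (h2 x)
      positivity
    have e6 := LevelMapF_mu_le ha0 ha le_rfl hb x
    have e7 : ‖LevelMapF_mu a μ x‖ ^ 2 ≤ 1 / 4 := by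
      have e8 : ‖LevelMapF_mu a μ x‖ ≤ 1 / 2 := by linarith
      nlinarith [norm_nonneg (LevelMapF_mu a μ x)]
    have e9 : 0 < (1 - ‖β‖ ^ 2) * (‖Dz (fun x => G (Aff a x)) x‖ ^ 2 -
        ‖Dzb (fun x => G (Aff a x)) x‖ ^ 2) := by
      rw [← e4]
      nlinarith
    have e10 : 0 < 1 - ‖β‖ ^ 2 := by
      have := h.beta
      nlinarith [norm_nonneg β]
    exact (pos_iff_pos_of_mul_pos e9).1 e10
  have hbij : Function.Bijective (fun x => G (Aff a x)) :=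
    G.bijective.comp (LevelMapF_Aff_bij ha0 ha)
  have harea := area_periodic hΓ hbij hpos (fun x v hv => LevelMapF_G_add h x hv)
    isClosed_Lam.measurableSet perSet_Lam
  have hLam : (1 / 2 : ℝ) ≤ (volume (Lam ∩ cell)).toReal := volume_Lam
  rw [← harea] at hLam
  -- pointwise bound
  have hcφ : Continuous (Dz (LevelMapF_phi a β G)) := (BeltramiF_contDiff_Dz hφ).continuous
  have hcφb : Continuous (Dzb (LevelMapF_phi a β G)) := (BeltramiF_contDiff_Dzb hφ).continuous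
  have hpt : ∀ x, (fderiv ℝ (fun x => G (Aff a x)) x).det ≤
      1 + (1 / 20 + 176 * (‖Dz (LevelMapF_phi a β G) x‖ ^ 2 +
        ‖Dzb (LevelMapF_phi a β G) x‖ ^ 2)) := by
    intro x
    obtain ⟨e1, e2⟩ := hderiv _ hg x
    obtain ⟨e3, e4⟩ := hgΓ x
    have e5 := LevelMapF_pointwise h.beta e1 e2
    have e6 : 1 + Dz (LevelMapF_g a G) x = Dz (fun x => G (Aff a x)) x := by
      rw [e3]; ring
    rw [e6, e4] at e5
    rw [hdetΓ]
    exact e5
  set E : Set ℂ := cell ∩ (fun x => G (Aff a x)) ⁻¹' Lam with hE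
  have hEm : MeasurableSet E := measurableSet_cell.inter
    (isClosed_Lam.preimage hΓ.continuous).measurableSet
  have hEc : E ⊆ cell := inter_subset_left
  have hB : Continuous (fun x => (1 / 20 + 176 * (‖Dz (LevelMapF_phi a β G) x‖ ^ 2 +
        ‖Dzb (LevelMapF_phi a β G) x‖ ^ 2) : ℝ)) :=
    continuous_const.add (continuous_const.mul ((hcφ.norm.pow 2).add (hcφb.norm.pow 2)))
  have hB1 : Continuous (fun x => 1 + (1 / 20 + 176 * (‖Dz (LevelMapF_phi a β G) x‖ ^ 2 +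
        ‖Dzb (LevelMapF_phi a β G) x‖ ^ 2) : ℝ)) := continuous_const.add hB
  have hdetc : Continuous (fun x => (fderiv ℝ (fun x => G (Aff a x)) x).det) := by
    have e1 : (fun x => (fderiv ℝ (fun x => G (Aff a x)) x).det) = fun x =>
      ‖Dz (fun x => G (Aff a x)) x‖ ^ 2 - ‖Dzb (fun x => G (Aff a x)) x‖ ^ 2 := funext hdetΓ
    rw [e1]
    exact ((BeltramiF_contDiff_Dz hΓ).continuous.norm.pow 2).sub
      ((BeltramiF_contDiff_Dzb hΓ).continuous.norm.pow 2)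
  have e1 : ∫ x in E, (fderiv ℝ (fun x => G (Aff a x)) x).det ≤
      ∫ x in E, (1 + (1 / 20 + 176 * (‖Dz (LevelMapF_phi a β G) x‖ ^ 2 +
        ‖Dzb (LevelMapF_phi a β G) x‖ ^ 2)) : ℝ) := by
    refine setIntegral_mono ((BeltramiF_integrable hdetc).mono_set hEc)
      ((BeltramiF_integrable hB1).mono_set hEc) hpt
  have e2 : ∫ x in E, (1 + (1 / 20 + 176 * (‖Dz (LevelMapF_phi a β G) x‖ ^ 2 +
        ‖Dzb (LevelMapF_phi a β G) x‖ ^ 2)) : ℝ) = (volume E).toReal +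
      ∫ x in E, (1 / 20 + 176 * (‖Dz (LevelMapF_phi a β G) x‖ ^ 2 +
        ‖Dzb (LevelMapF_phi a β G) x‖ ^ 2) : ℝ) := by
    have hI1 : IntegrableOn (fun _ : ℂ => (1 : ℝ)) E :=
      (BeltramiF_integrable continuous_const).mono_set hEc
    rw [integral_add hI1 ((BeltramiF_integrable hB).mono_set hEc)]
    simp [measureReal_def]
  have e3 : ∫ x in E, (1 / 20 + 176 * (‖Dz (LevelMapF_phi a β G) x‖ ^ 2 +
        ‖Dzb (LevelMapF_phi a β G) x‖ ^ 2) : ℝ) ≤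
      ∫ x in cell, (1 / 20 + 176 * (‖Dz (LevelMapF_phi a β G) x‖ ^ 2 +
        ‖Dzb (LevelMapF_phi a β G) x‖ ^ 2) : ℝ) := by
    refine setIntegral_mono_set (BeltramiF_integrable hB) ?_ hEc.eventuallyLE
    exact Eventually.of_forall fun x => by positivity
  have e4 : ∫ x in cell, (1 / 20 + 176 * (‖Dz (LevelMapF_phi a β G) x‖ ^ 2 +
        ‖Dzb (LevelMapF_phi a β G) x‖ ^ 2) : ℝ) = 1 / 20 + 176 *
      ((∫ x in cell, ‖Dz (LevelMapF_phi a β G) x‖ ^ 2) +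
        ∫ x in cell, ‖Dzb (LevelMapF_phi a β G) x‖ ^ 2) := by
    have c1 : Continuous (fun x => ‖Dz (LevelMapF_phi a β G) x‖ ^ 2) := hcφ.norm.pow 2
    have c2 : Continuous (fun x => ‖Dzb (LevelMapF_phi a β G) x‖ ^ 2) := hcφb.norm.pow 2
    have c3 : Continuous (fun x => (176 : ℝ) * (‖Dz (LevelMapF_phi a β G) x‖ ^ 2 +
        ‖Dzb (LevelMapF_phi a β G) x‖ ^ 2)) := continuous_const.mul (c1.add c2)
    rw [integral_add (BeltramiF_integrable continuous_const) (BeltramiF_integrable c3),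
      integral_const_mul, integral_add (BeltramiF_integrable c1) (BeltramiF_integrable c2),
      BeltramiF_integral_const]
  have e5 := l2_identity hφ (LevelMapF_phi_per h)
  rw [← e5] at e4
  have e6 : (1 / 2 : ℝ) ≤ (volume E).toReal + (1 / 20 + 176 * (2 * (2 * (11 / 10 *
      (a + 1 / 1000)) ^ 2))) := by
    linarith
  have e7 : (11 / 10 * (a + 1 / 1000)) ^ 2 ≤ (1 / 500) ^ 2 := by
    apply pow_le_pow_left₀ (by positivity)
    linarith
  have e8 : {x | G (Aff a x) ∈ Lam} ∩ cell = E := by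
    rw [hE, inter_comm]
    rfl
  rw [e8]
  linarith

end Pool.Agent.KK
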