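import Pool.Agent.W_bb4b37_h53.LevG1
import Pool.Agent.W_bb4b37_h53.LevelMapF

/-!
# Level realizations: the estimate for `m - β`
-/

set_option autoImplicit false

open Filter Topology Set MeasureTheory Metric
open scoped ContDiff

namespace Pool.Agent.KK

/-- **Estimate of `m - β`.** Proof: `sol_beta` with `k = 1/1000`:
`|β - a - ∫_cell μ (Aff a x) dx| ≤ 10 (1/1000 + 1/100000)² ≤ 1.1 / 100000`;
`μ = tauS + O(1/100000)`, `tauS = (1 - θ) ν + θ m`, `|ν| ≤ 1/100000` (`nu_le`), and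
`∫_cell thet s (G (Aff a x)) dx ∈ [1/4, 1]` by `sol_area` and `thet_eq_one`. So
`|m - β| ≤ (3/4) |m| + (1 + 1 + 1 + 1.1) / 100000 < 1/1000`. -/
theorem beta_small {C ε a s : ℝ} (hC : 1 ≤ C) (hε0 : 0 < ε)
    (hε : 2 * C ^ 2 * ε ^ 2 ≤ 1 / 100000) (ha0 : 0 ≤ a) (ha : a ≤ 1 / 100000) (hs : 0 < s)
    {μ : ℂ → ℂ} {β : ℂ} {G : ℂ ≃ₜ ℂ} {w : ℂ → ℝ} (hμ : Coef a μ) (h : Step C ε a s μ β G w)
    {m : ℂ} (hm : ‖m‖ ≤ 1 / 1000) (hc : ∀ z, ‖μ z - tauS ε s G w m z‖ ≤ 1 / 100000) :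
    ‖m - β‖ < 1 / 1000 := by
  have hAff : Continuous (Aff a) :=
    continuous_id.add (continuous_const.mul Complex.continuous_conj)
  have hGA : Continuous (fun x : ℂ => G (Aff a x)) := G.continuous.comp hAff
  have hθ0c : Continuous (thet s) :=
    continuous_const.max (continuous_const.min
      (continuous_const.sub ((continuous_infDist_pt Lam).div_const s)))
  obtain ⟨θ, hθ⟩ : ∃ θ : ℂ → ℝ, θ = fun x => thet s (G (Aff a x)) := ⟨_, rfl⟩
  have hθc : Continuous θ := by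
    rw [hθ]
    exact hθ0c.comp hGA
  have hθ0 : ∀ x, 0 ≤ θ x := fun x => by
    rw [hθ]
    exact thet_nonneg s _
  have hθ1 : ∀ x, θ x ≤ 1 := fun x => by
    rw [hθ]
    exact thet_le_one s _
  have hIθ : IntegrableOn θ cell := BeltramiA_int hθc
  have hIμ : IntegrableOn (fun x => μ (Aff a x)) cell :=
    BeltramiA_int (hμ.smooth.continuous.comp hAff)
  have hIθm : IntegrableOn (fun x => ((θ x : ℝ) : ℂ) * m) cell :=
    BeltramiA_int ((Complex.continuous_ofReal.comp hθc).mul continuous_const)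
  have hvol : volume.real cell = 1 := by
    rw [Measure.real, volume_cell]
    rfl
  have hfin : volume cell < ⊤ := by
    rw [volume_cell]
    exact ENNReal.one_lt_top
  obtain ⟨T, hT⟩ : ∃ T : ℝ, T = ∫ x in cell, θ x := ⟨_, rfl⟩
  have hT1 : T ≤ 1 := by
    have h1 : ‖∫ x in cell, θ x‖ ≤ 1 * volume.real cell :=
      norm_setIntegral_le_of_norm_le_const hfin fun x _ => by
        rw [Real.norm_eq_abs, abs_of_nonneg (hθ0 x)]
        exact hθ1 x
    rw [hvol, mul_one, ← hT] at h1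
    exact (le_abs_self T).trans h1
  have hT4 : 1 / 4 ≤ T := by
    have h1 := sol_area ha0 ha hμ.smooth hμ.per hμ.bound h.sol
    refine h1.trans ?_
    have hA : MeasurableSet {x : ℂ | G (Aff a x) ∈ Lam} :=
      (isClosed_Lam.preimage hGA).measurableSet
    have h2 : (volume ({x | G (Aff a x) ∈ Lam} ∩ cell)).toReal =
        ∫ x in cell, ({x : ℂ | G (Aff a x) ∈ Lam}).indicator (1 : ℂ → ℝ) x := by
      rw [integral_indicator_one hA, measureReal_restrict_apply hA]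
      rfl
    rw [h2, hT]
    refine integral_mono_of_nonneg ?_ hIθ ?_
    · exact Eventually.of_forall fun x => indicator_nonneg (fun _ _ => zero_le_one) x
    · refine Eventually.of_forall fun x => ?_
      show ({x : ℂ | G (Aff a x) ∈ Lam}).indicator (1 : ℂ → ℝ) x ≤ θ x
      by_cases hx : G (Aff a x) ∈ Lam
      · rw [indicator_of_mem (show x ∈ {x : ℂ | G (Aff a x) ∈ Lam} from hx), hθ]
        simp only
        rw [thet_eq_one hs hx]
        exact le_rfl
      · rw [indicator_of_notMem (show x ∉ {x : ℂ | G (Aff a x) ∈ Lam} from hx)]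
        exact hθ0 x
  obtain ⟨I, hI⟩ : ∃ I : ℂ, I = ∫ x in cell, μ (Aff a x) := ⟨_, rfl⟩
  have hdiff : ‖I - (T : ℂ) * m‖ ≤ 2 / 100000 := by
    have e : I - (T : ℂ) * m = ∫ x in cell, (μ (Aff a x) - ((θ x : ℝ) : ℂ) * m) := by
      rw [integral_sub hIμ hIθm, integral_mul_const, integral_complex_ofReal, ← hT, ← hI]
    rw [e]
    have h1 : ‖∫ x in cell, (μ (Aff a x) - ((θ x : ℝ) : ℂ) * m)‖ ≤
        (2 / 100000) * volume.real cell := by
      refine norm_setIntegral_le_of_norm_le_const hfin fun x _ => ?_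
      have e2 : μ (Aff a x) - ((θ x : ℝ) : ℂ) * m = (μ (Aff a x) - tauS ε s G w m (Aff a x)) +
          ((1 - θ x : ℝ) : ℂ) * nu ε w (Aff a x) := by
        rw [tauS, hθ]
        push_cast
        ring
      rw [e2]
      refine (norm_add_le _ _).trans ?_
      have h3 := hc (Aff a x)
      have h4 : ‖nu ε w (Aff a x)‖ ≤ 2 * C ^ 2 * ε ^ 2 :=
        nu_le hε0.le (h.lev.scaled.d1 _ (mem_univ _) [true] rfl)
          (h.lev.scaled.d1 _ (mem_univ _) [false] rfl)
      have h5 : ‖((1 - θ x : ℝ) : ℂ) * nu ε w (Aff a x)‖ ≤ 1 * (1 / 100000) := by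
        rw [norm_mul, Complex.norm_real, Real.norm_eq_abs, abs_of_nonneg (by linarith [hθ1 x])]
        exact mul_le_mul (by linarith [hθ0 x]) (h4.trans hε) (norm_nonneg _) zero_le_one
      linarith
    rw [hvol, mul_one] at h1
    exact h1
  have hβ : ‖β - a - I‖ ≤ 10 * (1 / 1000 + a) ^ 2 := by
    rw [hI]
    exact sol_beta ha0 ha (by norm_num) le_rfl hμ.smooth hμ.per hμ.bound h.sol
  have hβ2 : 10 * (1 / 1000 + a) ^ 2 ≤ 2 / 100000 := by nlinarith
  have e3 : m - β = (((1 - T : ℝ) : ℂ) * m - (a : ℂ)) - (I - (T : ℂ) * m) - (β - a - I) := by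
    push_cast
    ring
  have h6 : ‖((1 - T : ℝ) : ℂ) * m‖ ≤ (3 / 4) * (1 / 1000) := by
    rw [norm_mul, Complex.norm_real, Real.norm_eq_abs, abs_of_nonneg (by linarith)]
    exact mul_le_mul (by linarith) hm (norm_nonneg _) (by norm_num)
  have h7 : ‖((a : ℝ) : ℂ)‖ = a := by
    rw [Complex.norm_real, Real.norm_eq_abs, abs_of_nonneg ha0]
  have h8 := norm_sub_le (((1 - T : ℝ) : ℂ) * m - (a : ℂ) - (I - (T : ℂ) * m)) (β - a - I)
  have h9 := norm_sub_le (((1 - T : ℝ) : ℂ) * m - (a : ℂ)) (I - (T : ℂ) * m)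
  have h10 := norm_sub_le (((1 - T : ℝ) : ℂ) * m) (a : ℂ)
  rw [h7] at h10
  rw [e3]
  linarith

end Pool.Agent.KK
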