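import Pool.Agent.W_bb4b37_h53.LevelB

/-!
# Solutions at level `s`: existence, uniqueness, continuity in the set
-/
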