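import Pool.Agent.W_bb4b37_h53.Defs

/-!
# Realizations at level `s` (fixed point argument) (part A)
-/

set_option autoImplicit false

open Filter Topology Set MeasureTheory Metric
open scoped ContDiff

namespace Pool.Agent.KK

theorem LevelMapA_aux1 {r : ℝ} (hr : 0 < r) (hr2 : r ≤ 1 / 2) :
    ∃ g : ℝ → ℝ, ContDiff ℝ ∞ g ∧ (∀ t, 0 ≤ g t) ∧ (∀ (t : ℝ) (k : ℤ), g (t + k) = g t) ∧
      (∀ (t : ℝ) (k : ℤ), |t - k| < r → 0 < g t) ∧
      (∀ t : ℝ, g t ≠ 0 → ∃ k : ℤ, |t - k| < r) := by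
  refine ⟨fun t => Real.smoothTransition
    (Real.cos (2 * Real.pi * t) - Real.cos (2 * Real.pi * r)), ?_, ?_, ?_, ?_, ?_⟩
  · exact Real.smoothTransition.contDiff.comp (by fun_prop)
  · intro t; exact Real.smoothTransition.nonneg _
  · intro t k
    have : 2 * Real.pi * (t + k) = 2 * Real.pi * t + k * (2 * Real.pi) := by ring
    simp only [this, Real.cos_add_int_mul_two_pi]
  · intro t k hk
    apply Real.smoothTransition.pos_of_pos
    have h1 : Real.cos (2 * Real.pi * t) = Real.cos (2 * Real.pi * |t - k|) := by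
      have : 2 * Real.pi * |t - k| = |2 * Real.pi * (t - k)| := by
        rw [abs_mul, abs_of_pos Real.two_pi_pos]
      rw [this, Real.cos_abs]
      have : 2 * Real.pi * t = 2 * Real.pi * (t - k) + k * (2 * Real.pi) := by ring
      rw [this, Real.cos_add_int_mul_two_pi]
    rw [h1]
    have := Real.cos_lt_cos_of_nonneg_of_le_pi (x := 2 * Real.pi * |t - k|)
      (y := 2 * Real.pi * r) (by positivity) (by nlinarith [Real.pi_pos])
      (by nlinarith [Real.pi_pos])
    linarith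
  · intro t ht
    refine ⟨round t, ?_⟩
    by_contra hcon
    push Not at hcon
    apply ht
    apply Real.smoothTransition.zero_of_nonpos
    have h1 : Real.cos (2 * Real.pi * t) = Real.cos (2 * Real.pi * |t - round t|) := by
      have : 2 * Real.pi * |t - round t| = |2 * Real.pi * (t - round t)| := by
        rw [abs_mul, abs_of_pos Real.two_pi_pos]
      rw [this, Real.cos_abs]
      have : 2 * Real.pi * t = 2 * Real.pi * (t - round t) + (round t : ℤ) * (2 * Real.pi) := by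
        ring
      rw [this, Real.cos_add_int_mul_two_pi]
    rw [h1]
    have h2 := abs_sub_round t
    have := Real.cos_le_cos_of_nonneg_of_le_pi (x := 2 * Real.pi * r)
      (y := 2 * Real.pi * |t - round t|) (by positivity) (by nlinarith [Real.pi_pos])
      (by nlinarith [Real.pi_pos])
    linarith

/-- Partition of unity on `ℂ / Lat a` with small mesh. Proof: in the coordinate `x` with
`z = Aff a x`, use products `ψ (n Re x - i) ψ (n Im x - j)`, `0 ≤ i, j < n`, summed over the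
translates by `n ℤ`, where `ψ` is a smooth bump with `∑_k ψ (t - k) = 1`. -/
theorem exists_partition {a : ℝ} (ha : |a| < 1) {η : ℝ} (hη : 0 < η) :
    ∃ (n : ℕ) (χ : Fin n → ℂ → ℝ) (p : Fin n → ℂ), (∀ i, ContDiff ℝ ∞ (χ i)) ∧
      (∀ i, Per a (χ i)) ∧ (∀ i z, 0 ≤ χ i z) ∧ (∀ z, ∑ i, χ i z = 1) ∧
      ∀ i z, χ i z ≠ 0 → ∃ v ∈ Lat a, ‖z - p i - v‖ ≤ η := by
  obtain ⟨r, hr, hr2, hrη⟩ : ∃ r : ℝ, 0 < r ∧ r ≤ 1 / 2 ∧ 2 * r ≤ η :=
    ⟨min (η / 2) (1 / 2), by positivity, min_le_right _ _, by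
      have := min_le_left (η / 2) (1 / 2 : ℝ)
      linarith⟩
  obtain ⟨g, hg, hg0, hgper, hgpos, hgne⟩ := LevelMapA_aux1 hr hr2
  obtain ⟨ha1, ha2⟩ := abs_lt.1 ha
  obtain ⟨m, hm⟩ := exists_nat_gt (1 / r)
  have hm0 : (0 : ℝ) < m := lt_trans (by positivity) hm
  have hmr : 1 / (m : ℝ) < r := by
    rw [div_lt_iff₀ hm0]
    rw [div_lt_iff₀ hr] at hm
    linarith
  let X : ℂ → ℝ := fun z => z.re / (1 + a)
  let Y : ℂ → ℝ := fun z => z.im / (1 - a)
  have hX : ContDiff ℝ ∞ X := by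
    have : ContDiff ℝ ∞ (fun z : ℂ => z.re) := Complex.reCLM.contDiff
    exact this.div_const _
  have hY : ContDiff ℝ ∞ Y := by
    have : ContDiff ℝ ∞ (fun z : ℂ => z.im) := Complex.imCLM.contDiff
    exact this.div_const _
  let G : Fin m × Fin m → ℂ → ℝ := fun q z =>
    g (X z - (q.1 : ℕ) / m) * g (Y z - (q.2 : ℕ) / m)
  have hG : ∀ q, ContDiff ℝ ∞ (G q) := fun q =>
    (hg.comp (hX.sub contDiff_const)).mul (hg.comp (hY.sub contDiff_const))
  have hG0 : ∀ q z, 0 ≤ G q z := fun q z => mul_nonneg (hg0 _) (hg0 _)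
  have hGper : ∀ q, Per a (G q) := by
    rintro q z v ⟨k, l, rfl⟩
    have h1 : X (z + ((k : ℂ) * (1 + (a : ℂ)) + (l : ℂ) * ((1 - (a : ℂ)) * Complex.I))) =
        X z + k := by
      simp only [X]
      have : (z + ((k : ℂ) * (1 + (a : ℂ)) + (l : ℂ) * ((1 - (a : ℂ)) * Complex.I))).re =
          z.re + k * (1 + a) := by simp
      rw [this]
      have : (1 + a) ≠ 0 := by linarith
      field_simp
    have h2 : Y (z + ((k : ℂ) * (1 + (a : ℂ)) + (l : ℂ) * ((1 - (a : ℂ)) * Complex.I))) =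
        Y z + l := by
      simp only [Y]
      have : (z + ((k : ℂ) * (1 + (a : ℂ)) + (l : ℂ) * ((1 - (a : ℂ)) * Complex.I))).im =
          z.im + l * (1 - a) := by simp
      rw [this]
      have : (1 - a) ≠ 0 := by linarith
      field_simp
    simp only [G]
    rw [h1, h2]
    have e1 : X z + k - ((q.1 : ℕ) : ℝ) / m = X z - ((q.1 : ℕ) : ℝ) / m + k := by ring
    have e2 : Y z + l - ((q.2 : ℕ) : ℝ) / m = Y z - ((q.2 : ℕ) : ℝ) / m + l := by ring
    rw [e1, e2, hgper, hgper]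
  have hfl : ∀ t : ℝ, ∃ i : Fin m, 0 < g (t - ((i : ℕ) : ℝ) / m) := by
    intro t
    have hf0 := Int.fract_nonneg t
    have hf1 := Int.fract_lt_one t
    have hlt : ⌊(m : ℝ) * Int.fract t⌋₊ < m := by
      rw [Nat.floor_lt (by positivity)]
      nlinarith
    refine ⟨⟨⌊(m : ℝ) * Int.fract t⌋₊, hlt⟩, hgpos _ ⌊t⌋ ?_⟩
    have h1 := Nat.floor_le (show 0 ≤ (m : ℝ) * Int.fract t by positivity)
    have h2 := Nat.lt_floor_add_one ((m : ℝ) * Int.fract t)
    have h3 : t = ⌊t⌋ + Int.fract t := (Int.floor_add_fract t).symm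
    have h4 : t - (⌊(m : ℝ) * Int.fract t⌋₊ : ℝ) / m - ⌊t⌋ =
        ((m : ℝ) * Int.fract t - ⌊(m : ℝ) * Int.fract t⌋₊) / m := by
      field_simp
      have := Int.self_sub_floor t
      rw [← this]
      ring
    simp only
    rw [h4, abs_of_nonneg (div_nonneg (by linarith) hm0.le)]
    refine lt_of_le_of_lt ?_ hmr
    gcongr
    linarith
  have hSpos : ∀ z, 0 < ∑ q, G q z := by
    intro z
    obtain ⟨i, hi⟩ := hfl (X z)
    obtain ⟨j, hj⟩ := hfl (Y z)
    refine Finset.sum_pos' (fun q _ => hG0 q z) ⟨(i, j), Finset.mem_univ _, mul_pos hi hj⟩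
  have hS : ContDiff ℝ ∞ (fun z => ∑ q, G q z) := ContDiff.sum fun q _ => hG q
  let e : Fin (m * m) ≃ Fin m × Fin m := finProdFinEquiv.symm
  refine ⟨m * m, fun i z => G (e i) z / ∑ q, G q z,
    fun i => (((e i).1 : ℕ) : ℂ) / m * (1 + (a : ℂ)) +
      (((e i).2 : ℕ) : ℂ) / m * ((1 - (a : ℂ)) * Complex.I), ?_, ?_, ?_, ?_, ?_⟩
  · intro i
    exact (hG _).div hS fun z => (hSpos z).ne'
  · intro i z v hv
    simp only
    rw [hGper _ z v hv]
    congr 1
    exact Finset.sum_congr rfl fun q _ => hGper q z v hv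
  · intro i z
    exact div_nonneg (hG0 _ _) (hSpos z).le
  · intro z
    rw [← Finset.sum_div, e.sum_comp (fun q => G q z), div_self (hSpos z).ne']
  · intro i z hi
    have hne : G (e i) z ≠ 0 := by
      intro h
      apply hi
      simp only [h, zero_div]
    obtain ⟨k, hk⟩ := hgne _ (left_ne_zero_of_mul hne)
    obtain ⟨l, hl⟩ := hgne _ (right_ne_zero_of_mul hne)
    refine ⟨_, ⟨k, l, rfl⟩, ?_⟩
    have h1 : (1 + (a : ℂ)) ≠ 0 := by
      have : (1 + a : ℝ) ≠ 0 := by linarith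
      exact_mod_cast this
    have h2 : (1 - (a : ℂ)) ≠ 0 := by
      have : (1 - a : ℝ) ≠ 0 := by linarith
      exact_mod_cast this
    have key : z - ((((e i).1 : ℕ) : ℂ) / m * (1 + (a : ℂ)) +
        (((e i).2 : ℕ) : ℂ) / m * ((1 - (a : ℂ)) * Complex.I)) -
        ((k : ℂ) * (1 + (a : ℂ)) + (l : ℂ) * ((1 - (a : ℂ)) * Complex.I)) =
        (((X z - ((e i).1 : ℕ) / m - k) * (1 + a) : ℝ) : ℂ) +
        (((Y z - ((e i).2 : ℕ) / m - l) * (1 - a) : ℝ) : ℂ) * Complex.I := by
      have hz : z = ((X z * (1 + a) : ℝ) : ℂ) + ((Y z * (1 - a) : ℝ) : ℂ) * Complex.I := by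
        have e1 : X z * (1 + a) = z.re := by
          simp only [X]
          have : (1 + a) ≠ 0 := by linarith
          field_simp
        have e2 : Y z * (1 - a) = z.im := by
          simp only [Y]
          have : (1 - a) ≠ 0 := by linarith
          field_simp
        rw [e1, e2, Complex.re_add_im]
      conv_lhs => rw [hz]
      push_cast
      ring
    rw [key]
    refine (norm_add_le _ _).trans ?_
    rw [norm_mul, Complex.norm_I, mul_one, Complex.norm_real, Complex.norm_real,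
      Real.norm_eq_abs, Real.norm_eq_abs, abs_mul, abs_mul,
      abs_of_pos (show 0 < 1 + a by linarith), abs_of_pos (show 0 < 1 - a by linarith)]
    have b1 := mul_le_mul_of_nonneg_right hk.le (show 0 ≤ 1 + a by linarith)
    have b2 := mul_le_mul_of_nonneg_right hl.le (show 0 ≤ 1 - a by linarith)
    nlinarith [b1, b2]

end Pool.Agent.KK
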