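import Mathlib

/-!
# Quasisymmetry of smooth quasiconformal diffeomorphisms of the plane (length-area method) (part B)
-/

set_option autoImplicit false

open Filter Topology Set MeasureTheory Metric
open scoped ContDiff

namespace Pool.Agent.KK

/-- the point of the circle with a given position -/
theorem QSB_angle {ρ : ℝ} {z : ℂ} (hz : ‖z‖ = ρ) :
    (ρ : ℂ) * Complex.exp ((z.arg : ℂ) * Complex.I) = z := by
  rw [← hz]; exact Complex.norm_mul_exp_arg_mul_I z

/-- a half line that starts inside `g (ball 0 ρ)` meets the curve -/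
theorem QSB_ray {g : ℂ ≃ₜ ℂ} {ρ : ℝ} {p v : ℂ} (hv : v ≠ 0) (hp : ‖g.symm p‖ < ρ) :
    ∃ t : ℝ, 0 ≤ t ∧ ‖g.symm (p + (t : ℂ) * v)‖ = ρ := by
  have hcomp : IsCompact (g '' closedBall 0 ρ) := (isCompact_closedBall 0 ρ).image g.continuous
  obtain ⟨K, hK⟩ := hcomp.isBounded.exists_norm_le
  have hv0 : 0 < ‖v‖ := norm_pos_iff.2 hv
  set T : ℝ := (|K| + ‖p‖ + 1) / ‖v‖ with hT
  have hT0 : 0 ≤ T := by positivity
  have hTv : T * ‖v‖ = |K| + ‖p‖ + 1 := div_mul_cancel₀ _ hv0.ne'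
  have hcont : Continuous fun t : ℝ => ‖g.symm (p + (t : ℂ) * v)‖ :=
    (g.symm.continuous.comp (by fun_prop)).norm
  have h1 : ρ < ‖g.symm (p + (T : ℂ) * v)‖ := by
    by_contra hcon
    have h2 : p + (T : ℂ) * v ∈ g '' closedBall 0 ρ :=
      ⟨g.symm (p + (T : ℂ) * v), by rw [mem_closedBall_zero_iff]; exact not_lt.1 hcon,
        g.apply_symm_apply _⟩
    have h3 := hK _ h2
    have h4 : ‖(T : ℂ) * v‖ = T * ‖v‖ := by
      rw [norm_mul, Complex.norm_real, Real.norm_eq_abs, abs_of_nonneg hT0]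
    have h5 : ‖(T : ℂ) * v‖ ≤ ‖p + (T : ℂ) * v‖ + ‖p‖ := by
      have : (T : ℂ) * v = (p + (T : ℂ) * v) - p := by ring
      conv_lhs => rw [this]
      exact norm_sub_le _ _
    have h6 := le_abs_self K
    linarith
  have h2 : (fun t : ℝ => ‖g.symm (p + (t : ℂ) * v)‖) 0 ≤ ρ := by
    simpa using hp.le
  obtain ⟨t, ht, ht'⟩ := intermediate_value_Icc hT0 hcont.continuousOn ⟨h2, h1.le⟩
  exact ⟨t, ht.1, ht'⟩

/-- the length of an arc is at least the distance of its endpoints -/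
theorem QSB_arc {g : ℂ → ℂ} (hg : ContDiff ℝ ∞ g) {ρ : ℝ} (hρ : 0 ≤ ρ) {a b : ℝ} (hab : a ≤ b) :
    ‖g ((ρ : ℂ) * Complex.exp ((b : ℂ) * Complex.I)) -
      g ((ρ : ℂ) * Complex.exp ((a : ℂ) * Complex.I))‖ ≤
    ∫ θ in a..b, ρ * ‖fderiv ℝ g ((ρ : ℂ) * Complex.exp ((θ : ℂ) * Complex.I))‖ := by
  have hd : Differentiable ℝ g := hg.differentiable (by simp)
  have hfc : Continuous (fderiv ℝ g) := hg.continuous_fderiv (by simp)
  have hcd : ∀ θ : ℝ, HasDerivAt (fun θ : ℝ => g ((ρ : ℂ) * Complex.exp ((θ : ℂ) * Complex.I)))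
      (fderiv ℝ g ((ρ : ℂ) * Complex.exp ((θ : ℂ) * Complex.I))
        ((ρ : ℂ) * (Complex.exp ((θ : ℂ) * Complex.I) * Complex.I))) θ := by
    intro θ
    have h1 : HasDerivAt (fun θ : ℝ => (θ : ℂ) * Complex.I) Complex.I θ := by
      simpa using (Complex.ofRealCLM.hasDerivAt (x := θ)).mul_const Complex.I
    have h2 := (h1.cexp).const_mul (ρ : ℂ)
    exact (hd _).hasFDerivAt.comp_hasDerivAt θ h2
  have hint := intervalIntegral.integral_eq_sub_of_hasDerivAt (a := a) (b := b)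
    (fun θ _ => hcd θ) (by
      refine Continuous.intervalIntegrable ?_ _ _
      exact (hfc.comp (by fun_prop)).clm_apply (by fun_prop))
  rw [← hint]
  refine intervalIntegral.norm_integral_le_of_norm_le hab ?_ ?_
  · refine Filter.Eventually.of_forall fun θ _ => ?_
    refine (ContinuousLinearMap.le_opNorm _ _).trans (le_of_eq ?_)
    rw [norm_mul, norm_mul, Complex.norm_I, mul_one, Complex.norm_exp_ofReal_mul_I, mul_one,
      Complex.norm_real, Real.norm_eq_abs, abs_of_nonneg hρ, mul_comm]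
  · exact (continuous_const.mul (hfc.comp (by fun_prop)).norm).intervalIntegrable _ _

/-- **Length of image circles.** `g` is a smooth homeomorphism of `ℂ` with `g 0 = 0`,
`|x| ≤ |y|`, `y ≠ 0`, `|g⁻¹ y| < ρ < |g⁻¹ x|`. Then the part of the curve
`c θ = g (ρ e^{iθ})` inside the disc `D = ball 0 (2 |y|)` has length at least `|y|`
(`|c'| ≤ ρ ‖Dg‖`).

Proof. `U = g (ball 0 ρ)` is a bounded open set which contains `0` and `y`, its closure is
`g (closedBall 0 ρ)`, its boundary is the curve, and `x ∉ closure U`.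
Case 1: the curve stays in `D`. The linear functional `ℓ z = Re (z ȳ) / |y|` attains its maximum over
the compact set `closure U` on the boundary (an interior point cannot be a maximum), and this
maximum is `≥ ℓ y = |y|`; in the same way the minimum is `≤ ℓ 0 = 0`. So there are two angles
with `ℓ (c θ₁) ≥ |y|`, `ℓ (c θ₂) ≤ 0`, and `∫ |c'| ≥ |y|`.
Case 2: `|c θ₀| ≥ 2 |y|` for some `θ₀`. The segment `[0, x]` (connected) joins `0 ∈ U` to a point
outside `closure U`, so it meets the curve: `|c θ₁| ≤ |x| ≤ |y|` for some `θ₁`. Starting from `θ₁`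
let `θ*` be the first angle with `|c θ*| = 2 |y|` (in the direction of `θ₀`): on `[θ₁, θ*)` the curve
is in `D`, and `∫_{θ₁}^{θ*} |c'| ≥ |c θ* - c θ₁| ≥ |y|`. -/
theorem circle_length {g : ℂ ≃ₜ ℂ} (hg : ContDiff ℝ ∞ g) (h0 : g 0 = 0) {x y : ℂ} (hy : y ≠ 0)
    (hxy : ‖x‖ ≤ ‖y‖) {ρ : ℝ} (h1 : ‖g.symm y‖ < ρ) (h2 : ρ < ‖g.symm x‖) :
    ‖y‖ ≤ ∫ θ in (0 : ℝ)..(2 * Real.pi),
      Set.indicator {θ : ℝ | ‖g ((ρ : ℂ) * Complex.exp ((θ : ℂ) * Complex.I))‖ < 2 * ‖y‖}
        (fun θ => ρ * ‖fderiv ℝ g ((ρ : ℂ) * Complex.exp ((θ : ℂ) * Complex.I))‖) θ := by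
  have hρ : 0 < ρ := (norm_nonneg _).trans_lt h1
  have hfc : Continuous (fderiv ℝ g) := hg.continuous_fderiv (by simp)
  have hy0 : 0 < ‖y‖ := norm_pos_iff.2 hy
  set c : ℝ → ℂ := fun θ => g ((ρ : ℂ) * Complex.exp ((θ : ℂ) * Complex.I)) with hc
  set F : ℝ → ℝ := fun θ => ρ * ‖fderiv ℝ g ((ρ : ℂ) * Complex.exp ((θ : ℂ) * Complex.I))‖ with hF
  have hcc : Continuous c := g.continuous.comp (by fun_prop)
  have hFc : Continuous F := continuous_const.mul (hfc.comp (by fun_prop)).norm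
  have hF0 : ∀ θ, 0 ≤ F θ := fun θ => mul_nonneg hρ.le (norm_nonneg _)
  set S : Set ℝ := {θ : ℝ | ‖c θ‖ < 2 * ‖y‖} with hS
  have hSo : IsOpen S := isOpen_lt hcc.norm continuous_const
  have hIi : ∀ a b : ℝ, IntervalIntegrable (S.indicator F) volume a b := by
    intro a b
    rw [intervalIntegrable_iff]
    exact (intervalIntegrable_iff.1 (hFc.intervalIntegrable a b)).indicator hSo.measurableSet
  have hI0 : ∀ θ, 0 ≤ S.indicator F θ := fun θ => Set.indicator_nonneg (fun θ _ => hF0 θ) θ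
  have hexp : ∀ θ : ℝ, Complex.exp (((θ + 2 * Real.pi : ℝ) : ℂ) * Complex.I) =
      Complex.exp ((θ : ℂ) * Complex.I) := by
    intro θ
    have : ((θ + 2 * Real.pi : ℝ) : ℂ) * Complex.I = (θ : ℂ) * Complex.I + 2 * Real.pi * Complex.I := by
      push_cast; ring
    rw [this, Complex.exp_periodic]
  have hcp : Function.Periodic c (2 * Real.pi) := fun θ => by
    show g _ = g _
    rw [hexp]
  have hFp : Function.Periodic F (2 * Real.pi) := fun θ => by
    show ρ * _ = ρ * _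
    rw [hexp]
  have hIp : Function.Periodic (S.indicator F) (2 * Real.pi) := fun θ => by
    by_cases h : θ ∈ S
    · have h' : θ + 2 * Real.pi ∈ S := by
        show ‖c (θ + 2 * Real.pi)‖ < _
        rw [hcp]; exact h
      rw [Set.indicator_of_mem h, Set.indicator_of_mem h', hFp]
    · have h' : θ + 2 * Real.pi ∉ S := by
        intro h2
        apply h
        have h3 : ‖c (θ + 2 * Real.pi)‖ < 2 * ‖y‖ := h2
        rw [hcp] at h3; exact h3
      rw [Set.indicator_of_notMem h, Set.indicator_of_notMem h']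
  have hshift : ∀ a : ℝ, ∫ θ in a..(a + 2 * Real.pi), S.indicator F θ =
      ∫ θ in (0 : ℝ)..(2 * Real.pi), S.indicator F θ := by
    intro a
    have := hIp.intervalIntegral_add_eq a 0
    rwa [zero_add] at this
  -- comparison of integrals
  have hsub : ∀ a b d : ℝ, a ≤ b → b ≤ d → d ≤ a + 2 * Real.pi →
      (∀ θ, b ≤ θ → θ < d → θ ∈ S) →
      ‖c d - c b‖ ≤ ∫ θ in (0 : ℝ)..(2 * Real.pi), S.indicator F θ := by
    intro a b d hab hbd hda hin
    have e1 : ∫ θ in b..d, F θ = ∫ θ in b..d, S.indicator F θ := by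
      refine intervalIntegral.integral_congr_ae ?_
      have h3 : ∀ᵐ θ : ℝ, θ ≠ d := by
        have h4 : ({d} : Set ℝ)ᶜ ∈ ae volume := compl_mem_ae_iff.2 (measure_singleton d)
        exact h4
      filter_upwards [h3] with θ hθ hθ'
      rw [uIoc_of_le hbd] at hθ'
      rw [Set.indicator_of_mem (hin θ hθ'.1.le (lt_of_le_of_ne hθ'.2 hθ))]
    have e2 : ∫ θ in b..d, S.indicator F θ ≤ ∫ θ in a..(a + 2 * Real.pi), S.indicator F θ := by
      refine intervalIntegral.integral_mono_interval hab hbd hda ?_ (hIi _ _)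
      exact Filter.Eventually.of_forall hI0
    rw [← hshift a]
    refine le_trans ?_ e2
    rw [← e1]
    exact QSB_arc hg hρ.le hbd
  by_cases hcase : ∀ θ, θ ∈ S
  · -- the curve stays in the disc
    obtain ⟨t₁, ht₁, hr₁⟩ := QSB_ray (g := g) (p := y) (v := y) hy h1
    obtain ⟨t₂, ht₂, hr₂⟩ := QSB_ray (g := g) (p := 0) (v := -y) (neg_ne_zero.2 hy)
      (ρ := ρ) (by
        have : g.symm 0 = 0 := by rw [Homeomorph.symm_apply_eq, h0]
        rw [this, norm_zero]; exact hρ)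
    set z₁ := g.symm (y + (t₁ : ℂ) * y) with hz₁
    set z₂ := g.symm (0 + (t₂ : ℂ) * -y) with hz₂
    have hc₁ : c z₁.arg = y + (t₁ : ℂ) * y := by
      show g _ = _
      rw [QSB_angle hr₁, hz₁, g.apply_symm_apply]
    have hc₂ : c z₂.arg = (t₂ : ℂ) * -y := by
      show g _ = _
      rw [QSB_angle hr₂, hz₂, g.apply_symm_apply, zero_add]
    have hdist : ‖y‖ ≤ ‖c z₁.arg - c z₂.arg‖ := by
      rw [hc₁, hc₂]
      have : y + (t₁ : ℂ) * y - (t₂ : ℂ) * -y = ((1 + t₁ + t₂ : ℝ) : ℂ) * y := by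
        push_cast; ring
      rw [this, norm_mul, Complex.norm_real, Real.norm_eq_abs, abs_of_nonneg (by linarith)]
      nlinarith
    have hb : ∀ z : ℂ, -Real.pi ≤ z.arg ∧ z.arg ≤ -Real.pi + 2 * Real.pi := fun z =>
      ⟨(Complex.neg_pi_lt_arg z).le, by linarith [Complex.arg_le_pi z]⟩
    rcases le_total z₁.arg z₂.arg with hle | hle
    · refine hdist.trans ?_
      rw [norm_sub_rev]
      exact hsub (-Real.pi) _ _ (hb z₁).1 hle (hb z₂).2 fun θ _ _ => hcase θ
    · exact hdist.trans (hsub (-Real.pi) _ _ (hb z₂).1 hle (hb z₁).2 fun θ _ _ => hcase θ)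
  · -- the curve leaves the disc
    obtain ⟨θ₀, hθ₀⟩ := not_forall.1 hcase
    have hcont : Continuous fun t : ℝ => ‖g.symm ((t : ℂ) * x)‖ :=
      (g.symm.continuous.comp (by fun_prop)).norm
    have hs0 : g.symm 0 = 0 := by rw [Homeomorph.symm_apply_eq, h0]
    obtain ⟨t, ht, ht'⟩ := intermediate_value_Icc (zero_le_one' ℝ) hcont.continuousOn
      (show ρ ∈ Icc ((fun t : ℝ => ‖g.symm ((t : ℂ) * x)‖) 0) ((fun t : ℝ => ‖g.symm ((t : ℂ) * x)‖) 1) by
        constructor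
        · simp only [Complex.ofReal_zero, zero_mul, hs0, norm_zero]; exact hρ.le
        · simp only [Complex.ofReal_one, one_mul]; exact h2.le)
    set z₁ := g.symm ((t : ℂ) * x) with hz₁
    set θ₁ := z₁.arg with hθ₁
    have hc₁ : c θ₁ = (t : ℂ) * x := by
      show g _ = _
      rw [QSB_angle ht', g.apply_symm_apply]
    have hn₁ : ‖c θ₁‖ ≤ ‖y‖ := by
      rw [hc₁, norm_mul, Complex.norm_real, Real.norm_eq_abs, abs_of_nonneg ht.1]
      exact (mul_le_of_le_one_left (norm_nonneg _) ht.2).trans hxy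
    -- move the angle
    set θ₂ := toIcoMod Real.two_pi_pos θ₁ θ₀ with hθ₂
    have hθ₂m := toIcoMod_mem_Ico Real.two_pi_pos θ₁ θ₀
    have hc₂ : c θ₂ = c θ₀ := by
      rw [hθ₂, toIcoMod]
      exact hcp.sub_zsmul_eq _
    have hn₂ : 2 * ‖y‖ ≤ ‖c θ₂‖ := by
      rw [hc₂]; exact not_lt.1 hθ₀
    have hcomp : IsCompact (Icc θ₁ θ₂ ∩ {θ | 2 * ‖y‖ ≤ ‖c θ‖}) :=
      isCompact_Icc.inter_right (isClosed_le continuous_const hcc.norm)
    obtain ⟨θs, hθs, hmin⟩ := hcomp.exists_isLeast ⟨θ₂, ⟨hθ₂m.1, le_rfl⟩, hn₂⟩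
    have h3 := hsub θ₁ θ₁ θs le_rfl hθs.1.1 (hθs.1.2.trans hθ₂m.2.le) (fun θ h4 h5 => by
      by_contra h6
      have h7' : 2 * ‖y‖ ≤ ‖c θ‖ := not_lt.1 h6
      have h7 := hmin ⟨⟨h4, h5.le.trans hθs.1.2⟩, h7'⟩
      exact absurd h5 (not_lt.2 h7))
    refine le_trans ?_ h3
    have h8 : 2 * ‖y‖ ≤ ‖c θs‖ := hθs.2
    have h9 := norm_sub_norm_le (c θs) (c θ₁)
    linarith

end Pool.Agent.KK
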