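import Pool.Agent.W_bb4b37_h53.QSA
import Pool.Agent.W_bb4b37_h53.QSB

/-!
# Quasisymmetry of smooth quasiconformal diffeomorphisms of the plane (length-area method) (part C)
-/

set_option autoImplicit false

open Filter Topology Set MeasureTheory Metric
open scoped ContDiff

namespace Pool.Agent.KK

/-- Polar coordinates on a round annulus. -/
theorem QSC_polar {G : ℂ → ENNReal} (hG : Measurable G) {r R : ℝ} (hr : 0 < r) :
    ∫⁻ w in {w : ℂ | r < ‖w‖ ∧ ‖w‖ < R}, G w =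
      ∫⁻ ρ in Ioo r R, ∫⁻ θ in Ioo (-Real.pi) Real.pi,
        ENNReal.ofReal ρ * G ((ρ : ℂ) * Complex.exp ((θ : ℂ) * Complex.I)) := by
  have hA : MeasurableSet {w : ℂ | r < ‖w‖ ∧ ‖w‖ < R} := by
    have h1 : IsOpen {w : ℂ | r < ‖w‖ ∧ ‖w‖ < R} :=
      (isOpen_lt continuous_const continuous_norm).inter
        (isOpen_lt continuous_norm continuous_const)
    exact h1.measurableSet
  rw [← lintegral_indicator hA, ← Complex.lintegral_comp_polarCoord_symm]
  have htar : polarCoord.target = Ioi (0 : ℝ) ×ˢ Ioo (-Real.pi) Real.pi := rfl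
  have hsym : ∀ p : ℝ × ℝ, Complex.polarCoord.symm p
      = (p.1 : ℂ) * Complex.exp ((p.2 : ℂ) * Complex.I) := by
    intro p
    rw [Complex.polarCoord_symm_apply, Complex.exp_mul_I, Complex.ofReal_cos, Complex.ofReal_sin]
  rw [htar, Measure.volume_eq_prod, ← Measure.prod_restrict]
  have hmeas : Measurable (fun p : ℝ × ℝ => ENNReal.ofReal p.1 •
      {w : ℂ | r < ‖w‖ ∧ ‖w‖ < R}.indicator G (Complex.polarCoord.symm p)) := by
    have h2 : Measurable (fun p : ℝ × ℝ => Complex.polarCoord.symm p) := by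
      have : (fun p : ℝ × ℝ => Complex.polarCoord.symm p)
          = fun p : ℝ × ℝ => (p.1 : ℂ) * Complex.exp ((p.2 : ℂ) * Complex.I) := funext hsym
      rw [this]
      have hc : Continuous
          (fun p : ℝ × ℝ => (p.1 : ℂ) * Complex.exp ((p.2 : ℂ) * Complex.I)) := by
        fun_prop
      exact hc.measurable
    exact (measurable_fst.ennreal_ofReal).smul ((hG.indicator hA).comp h2)
  rw [lintegral_prod _ hmeas.aemeasurable]
  have hstep : ∀ ρ ∈ Ioi (0 : ℝ), (∫⁻ θ in Ioo (-Real.pi) Real.pi, ENNReal.ofReal (ρ, θ).1 •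
      {w : ℂ | r < ‖w‖ ∧ ‖w‖ < R}.indicator G (Complex.polarCoord.symm (ρ, θ)))
      = (Ioo r R).indicator (fun ρ => ∫⁻ θ in Ioo (-Real.pi) Real.pi,
        ENNReal.ofReal ρ * G ((ρ : ℂ) * Complex.exp ((θ : ℂ) * Complex.I))) ρ := by
    intro ρ hρ
    have hρ0 : 0 < ρ := hρ
    have hn : ∀ θ : ℝ, ‖(ρ : ℂ) * Complex.exp ((θ : ℂ) * Complex.I)‖ = ρ := by
      intro θ
      rw [norm_mul, Complex.norm_exp_ofReal_mul_I, mul_one, Complex.norm_real,
        Real.norm_of_nonneg hρ0.le]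
    by_cases hm : ρ ∈ Ioo r R
    · rw [indicator_of_mem hm]
      refine lintegral_congr fun θ => ?_
      rw [hsym, indicator_of_mem, smul_eq_mul]
      change r < ‖(ρ : ℂ) * Complex.exp ((θ : ℂ) * Complex.I)‖ ∧
        ‖(ρ : ℂ) * Complex.exp ((θ : ℂ) * Complex.I)‖ < R
      rw [hn]
      exact hm
    · rw [indicator_of_notMem hm]
      have : ∀ θ : ℝ, ENNReal.ofReal (ρ, θ).1 •
          {w : ℂ | r < ‖w‖ ∧ ‖w‖ < R}.indicator G (Complex.polarCoord.symm (ρ, θ)) = 0 := by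
        intro θ
        rw [hsym, indicator_of_notMem, smul_zero]
        intro h
        change r < ‖(ρ : ℂ) * Complex.exp ((θ : ℂ) * Complex.I)‖ ∧
          ‖(ρ : ℂ) * Complex.exp ((θ : ℂ) * Complex.I)‖ < R at h
        rw [hn] at h
        exact hm h
      simp only [this, lintegral_zero]
  rw [setLIntegral_congr_fun measurableSet_Ioi hstep, setLIntegral_indicator measurableSet_Ioo]
  have : Ioo r R ∩ Ioi 0 = Ioo r R := by
    apply inter_eq_left.2
    intro t ht
    exact lt_trans hr ht.1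
  rw [this]

theorem QSC_log {r R : ℝ} (hr : 0 < r) (h : r < R) :
    ∫⁻ ρ in Ioo r R, ENNReal.ofReal (1 / ρ) = ENNReal.ofReal (Real.log (R / r)) := by
  have hR : 0 < R := hr.trans h
  have h1 : ∫ ρ in r..R, 1 / ρ = Real.log (R / r) := integral_one_div_of_pos hr hR
  have hc : ContinuousOn (fun ρ : ℝ => 1 / ρ) (Icc r R) := by
    apply ContinuousOn.div continuousOn_const continuousOn_id
    intro x hx
    exact (lt_of_lt_of_le hr hx.1).ne'
  have hi : IntegrableOn (fun ρ : ℝ => 1 / ρ) (Ioo r R) :=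
    (hc.integrableOn_Icc).mono_set Ioo_subset_Icc_self
  rw [← h1, intervalIntegral.integral_of_le h.le, integral_Ioc_eq_integral_Ioo,
    ofReal_integral_eq_lintegral_ofReal hi]
  refine (ae_restrict_mem measurableSet_Ioo).mono fun x hx => ?_
  have : 0 < x := hr.trans hx.1
  change 0 ≤ 1 / x
  positivity

/-- The angular estimate in terms of the lower integral. -/
theorem QSC_angle {g : ℂ ≃ₜ ℂ} (hg : ContDiff ℝ ∞ g) (h0 : g 0 = 0) {x y : ℂ} (hy : y ≠ 0)
    (hxy : ‖x‖ ≤ ‖y‖) {ρ : ℝ} (h1 : ‖g.symm y‖ < ρ) (h2 : ρ < ‖g.symm x‖) :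
    ENNReal.ofReal ‖y‖ ≤ ∫⁻ θ in Ioo (-Real.pi) Real.pi, ENNReal.ofReal ρ *
      ENNReal.ofReal ({w : ℂ | ‖g w‖ < 2 * ‖y‖}.indicator (fun w => ‖fderiv ℝ g w‖)
        ((ρ : ℂ) * Complex.exp ((θ : ℂ) * Complex.I))) := by
  have hρ : 0 < ρ := lt_of_le_of_lt (norm_nonneg _) h1
  set F : ℂ → ℝ := {w : ℂ | ‖g w‖ < 2 * ‖y‖}.indicator (fun w => ‖fderiv ℝ g w‖) with hF
  have hFm : Measurable F := by
    apply Measurable.indicator
    · exact ((hg.continuous_fderiv (by simp)).norm).measurable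
    · exact (isOpen_lt (g.continuous.norm) continuous_const).measurableSet
  have hF0 : ∀ w, 0 ≤ F w := fun w => indicator_nonneg (fun _ _ => norm_nonneg _) w
  set E : ℝ → ℂ := fun θ => (ρ : ℂ) * Complex.exp ((θ : ℂ) * Complex.I) with hE
  have hEc : Continuous E := by rw [hE]; fun_prop
  have hEp : ∀ θ, E (θ + 2 * Real.pi) = E θ := by
    intro θ
    simp only [hE]
    congr 1
    have : (((θ + 2 * Real.pi : ℝ)) : ℂ) * Complex.I
        = (θ : ℂ) * Complex.I + 2 * Real.pi * Complex.I := by push_cast; ring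
    rw [this, Complex.exp_add, Complex.exp_two_pi_mul_I, mul_one]
  have hc := circle_length hg h0 hy hxy h1 h2
  have hfun : (fun θ : ℝ => Set.indicator
      {θ : ℝ | ‖g ((ρ : ℂ) * Complex.exp ((θ : ℂ) * Complex.I))‖ < 2 * ‖y‖}
        (fun θ => ρ * ‖fderiv ℝ g ((ρ : ℂ) * Complex.exp ((θ : ℂ) * Complex.I))‖) θ)
      = fun θ => ρ * F (E θ) := by
    funext θ
    by_cases hm : ‖g (E θ)‖ < 2 * ‖y‖
    · rw [indicator_of_mem (show θ ∈ {θ : ℝ | ‖g ((ρ : ℂ) *
        Complex.exp ((θ : ℂ) * Complex.I))‖ < 2 * ‖y‖} from hm), hF,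
        indicator_of_mem (show E θ ∈ {w : ℂ | ‖g w‖ < 2 * ‖y‖} from hm)]
    · rw [indicator_of_notMem (show θ ∉ {θ : ℝ | ‖g ((ρ : ℂ) *
        Complex.exp ((θ : ℂ) * Complex.I))‖ < 2 * ‖y‖} from hm), hF,
        indicator_of_notMem (show E θ ∉ {w : ℂ | ‖g w‖ < 2 * ‖y‖} from hm), mul_zero]
  rw [hfun] at hc
  have hper : Function.Periodic (fun θ => ρ * F (E θ)) (2 * Real.pi) := by
    intro θ
    simp only [hEp]
  have hshift := hper.intervalIntegral_add_eq 0 (-Real.pi)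
  have e1 : (0 : ℝ) + 2 * Real.pi = 2 * Real.pi := by ring
  have e2 : -Real.pi + 2 * Real.pi = Real.pi := by ring
  rw [e1, e2] at hshift
  rw [hshift, intervalIntegral.integral_of_le (by linarith [Real.pi_pos]),
    integral_Ioc_eq_integral_Ioo] at hc
  have hnn : ∀ θ, 0 ≤ ρ * F (E θ) := fun θ => mul_nonneg hρ.le (hF0 _)
  have hmm : Measurable (fun θ => ρ * F (E θ)) := (hFm.comp hEc.measurable).const_mul ρ
  rw [integral_eq_lintegral_of_nonneg_ae (Eventually.of_forall hnn)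
    hmm.aestronglyMeasurable] at hc
  refine (ENNReal.ofReal_le_ofReal hc).trans (ENNReal.ofReal_toReal_le.trans (le_of_eq ?_))
  refine lintegral_congr fun θ => ?_
  rw [ENNReal.ofReal_mul hρ.le]

/-- The length-area estimate for the inverse map. -/
theorem QSC_main {K : ℝ} (hK : 1 ≤ K) {g : ℂ ≃ₜ ℂ} (hg : ContDiff ℝ ∞ g) (h0 : g 0 = 0)
    (hdet : ∀ x, 0 < (fderiv ℝ g x).det)
    (hKg : ∀ x, ‖fderiv ℝ g x‖ ^ 2 ≤ K * (fderiv ℝ g x).det)
    {x y : ℂ} (hy : y ≠ 0) (hxy : ‖x‖ ≤ ‖y‖) :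
    ‖g.symm x‖ ≤ Real.exp (8 * Real.pi ^ 2 * K) * ‖g.symm y‖ := by
  have hpi := Real.pi_pos
  have hyn : 0 < ‖y‖ := norm_pos_iff.2 hy
  set r := ‖g.symm y‖ with hr
  set R := ‖g.symm x‖ with hR
  have hr0 : 0 < r := by
    rw [hr, norm_pos_iff]
    intro h
    apply hy
    rw [← g.apply_symm_apply y, h, h0]
  have hexp : 1 ≤ Real.exp (8 * Real.pi ^ 2 * K) := Real.one_le_exp (by positivity)
  rcases le_or_gt R r with hRr | hrR
  · calc R ≤ r := hRr
      _ = 1 * r := (one_mul r).symm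
      _ ≤ Real.exp (8 * Real.pi ^ 2 * K) * r := by gcongr
  have hR0 : 0 < R := hr0.trans hrR
  set L := Real.log (R / r) with hL
  have hL0 : 0 < L := Real.log_pos ((one_lt_div hr0).2 hrR)
  suffices hLK : L ≤ 8 * Real.pi ^ 2 * K by
    have : R / r ≤ Real.exp (8 * Real.pi ^ 2 * K) := by
      rw [← Real.exp_log (show 0 < R / r by positivity)]
      exact Real.exp_le_exp.2 hLK
    rwa [div_le_iff₀ hr0] at this
  set D : Set ℂ := {w : ℂ | ‖g w‖ < 2 * ‖y‖} with hD
  have hDo : IsOpen D := isOpen_lt (g.continuous.norm) continuous_const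
  set F : ℂ → ℝ := D.indicator (fun w => ‖fderiv ℝ g w‖) with hF
  have hFm : Measurable F := by
    apply Measurable.indicator
    · exact ((hg.continuous_fderiv (by simp)).norm).measurable
    · exact hDo.measurableSet
  set A : Set ℂ := {w : ℂ | r < ‖w‖ ∧ ‖w‖ < R} with hA
  have hAm : MeasurableSet A := by
    have h1 : IsOpen {w : ℂ | r < ‖w‖ ∧ ‖w‖ < R} :=
      (isOpen_lt continuous_const continuous_norm).inter
        (isOpen_lt continuous_norm continuous_const)
    exact h1.measurableSet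
  have hnorm : ∀ ρ : ℝ, 0 < ρ → ∀ θ : ℝ, ‖(ρ : ℂ) * Complex.exp ((θ : ℂ) * Complex.I)‖ = ρ := by
    intro ρ hρ θ
    rw [norm_mul, Complex.norm_exp_ofReal_mul_I, mul_one, Complex.norm_real,
      Real.norm_of_nonneg hρ.le]
  -- lower bound
  set G₁ : ℂ → ENNReal := fun w => ENNReal.ofReal (1 / ‖w‖) * ENNReal.ofReal (F w) with hG₁
  have hG₁m : Measurable G₁ :=
    ((measurable_norm.const_div 1).ennreal_ofReal).mul hFm.ennreal_ofReal
  have hlow : ENNReal.ofReal ‖y‖ * ENNReal.ofReal L ≤ ∫⁻ w in A, G₁ w := by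
    rw [QSC_polar hG₁m hr0, hL, ← QSC_log hr0 hrR, ← lintegral_const_mul']
    · refine setLIntegral_mono' measurableSet_Ioo fun ρ hρ => ?_
      have hρ0 : 0 < ρ := hr0.trans hρ.1
      have ha := QSC_angle hg h0 hy hxy hρ.1 hρ.2
      calc ENNReal.ofReal ‖y‖ * ENNReal.ofReal (1 / ρ)
          ≤ (∫⁻ θ in Ioo (-Real.pi) Real.pi, ENNReal.ofReal ρ *
              ENNReal.ofReal (F ((ρ : ℂ) * Complex.exp ((θ : ℂ) * Complex.I))))
              * ENNReal.ofReal (1 / ρ) := by gcongr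
        _ = ∫⁻ θ in Ioo (-Real.pi) Real.pi, (ENNReal.ofReal ρ *
              ENNReal.ofReal (F ((ρ : ℂ) * Complex.exp ((θ : ℂ) * Complex.I))))
              * ENNReal.ofReal (1 / ρ) := by
            rw [lintegral_mul_const' _ _ ENNReal.ofReal_ne_top]
        _ = _ := by
            refine lintegral_congr fun θ => ?_
            simp only [hG₁, hnorm ρ hρ0 θ]
            ring
    · exact ENNReal.ofReal_ne_top
  -- pointwise upper bound
  have hpt : ∀ w ∈ A, G₁ w ≤ ENNReal.ofReal (Real.pi / ‖y‖ * K) *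
      D.indicator (fun w => ENNReal.ofReal |(fderiv ℝ g w).det|) w
      + ENNReal.ofReal (‖y‖ / (4 * Real.pi)) * ENNReal.ofReal (1 / ‖w‖ ^ 2) := by
    intro w hw
    have hw0 : 0 < ‖w‖ := hr0.trans hw.1
    by_cases hwD : w ∈ D
    · simp only [hG₁, hF, indicator_of_mem hwD]
      rw [← ENNReal.ofReal_mul (by positivity), ← ENNReal.ofReal_mul (by positivity),
        ← ENNReal.ofReal_mul (by positivity), ← ENNReal.ofReal_add (by positivity) (by positivity)]
      apply ENNReal.ofReal_le_ofReal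
      rw [abs_of_pos (hdet w)]
      have h3 := hKg w
      have hd := hdet w
      set a := ‖fderiv ℝ g w‖ with ha
      set d := (fderiv ℝ g w).det with hdd
      have ha0 : 0 ≤ a := norm_nonneg _
      have h4 : 1 / ‖w‖ * a ≤ Real.pi / ‖y‖ * a ^ 2 + ‖y‖ / (4 * Real.pi) * (1 / ‖w‖ ^ 2) := by
        have h5 : 0 ≤ (Real.pi / ‖y‖) * (a - ‖y‖ / (2 * Real.pi) * (1 / ‖w‖)) ^ 2 := by positivity
        have h6 : (Real.pi / ‖y‖) * (a - ‖y‖ / (2 * Real.pi) * (1 / ‖w‖)) ^ 2
            = Real.pi / ‖y‖ * a ^ 2 + ‖y‖ / (4 * Real.pi) * (1 / ‖w‖ ^ 2) - 1 / ‖w‖ * a := by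
          field_simp
          ring
        linarith
      calc 1 / ‖w‖ * a ≤ Real.pi / ‖y‖ * a ^ 2 + ‖y‖ / (4 * Real.pi) * (1 / ‖w‖ ^ 2) := h4
        _ ≤ Real.pi / ‖y‖ * (K * d) + ‖y‖ / (4 * Real.pi) * (1 / ‖w‖ ^ 2) := by gcongr
        _ = Real.pi / ‖y‖ * K * d + ‖y‖ / (4 * Real.pi) * (1 / ‖w‖ ^ 2) := by ring
    · simp only [hG₁, hF, indicator_of_notMem hwD, ENNReal.ofReal_zero, mul_zero]
      exact zero_le
  -- the area term
  have harea : ∫⁻ w, D.indicator (fun w => ENNReal.ofReal |(fderiv ℝ g w).det|) w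
      = ENNReal.ofReal (4 * Real.pi * ‖y‖ ^ 2) := by
    rw [lintegral_indicator hDo.measurableSet,
      lintegral_abs_det_fderiv_eq_addHaar_image volume hDo.measurableSet
        (fun w _ => ((hg.differentiable (by simp)) w).hasFDerivAt.hasFDerivWithinAt)
        g.injective.injOn]
    have himg : g '' D = ball (0 : ℂ) (2 * ‖y‖) := by
      ext z
      constructor
      · rintro ⟨w, hw, rfl⟩
        rw [mem_ball_zero_iff]
        exact hw
      · intro hz
        refine ⟨g.symm z, ?_, g.apply_symm_apply z⟩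
        change ‖g (g.symm z)‖ < 2 * ‖y‖
        rw [g.apply_symm_apply]
        rwa [mem_ball_zero_iff] at hz
    rw [himg, Complex.volume_ball, ← ENNReal.ofReal_pow (by positivity),
      ← ENNReal.ofReal_coe_nnreal, NNReal.coe_real_pi, ← ENNReal.ofReal_mul (by positivity)]
    congr 1
    ring
  -- the annulus term
  have hann : ∫⁻ w in A, ENNReal.ofReal (1 / ‖w‖ ^ 2)
      = ENNReal.ofReal (2 * Real.pi) * ENNReal.ofReal L := by
    rw [QSC_polar (((measurable_norm.pow_const 2).const_div 1).ennreal_ofReal) hr0, hL,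
      ← QSC_log hr0 hrR, ← lintegral_const_mul']
    · refine setLIntegral_congr_fun measurableSet_Ioo fun ρ hρ => ?_
      have hρ0 : 0 < ρ := hr0.trans hρ.1
      simp only [hnorm ρ hρ0]
      rw [lintegral_const, Measure.restrict_apply_univ, Real.volume_Ioo,
        ← ENNReal.ofReal_mul hρ0.le, ← ENNReal.ofReal_mul (by positivity),
        ← ENNReal.ofReal_mul (by positivity)]
      congr 1
      field_simp
      ring
    · exact ENNReal.ofReal_ne_top
  -- conclusion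
  have hmD : Measurable (D.indicator (fun w => ENNReal.ofReal |(fderiv ℝ g w).det|)) := by
    apply Measurable.indicator _ hDo.measurableSet
    have : Continuous (fun w => (fderiv ℝ g w).det) :=
      ContinuousLinearMap.continuous_det.comp (hg.continuous_fderiv (by simp))
    exact this.abs.measurable.ennreal_ofReal
  have hup : ∫⁻ w in A, G₁ w ≤ ENNReal.ofReal (Real.pi / ‖y‖ * K) *
      ENNReal.ofReal (4 * Real.pi * ‖y‖ ^ 2)
      + ENNReal.ofReal (‖y‖ / (4 * Real.pi)) *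
        (ENNReal.ofReal (2 * Real.pi) * ENNReal.ofReal L) := by
    calc ∫⁻ w in A, G₁ w ≤ ∫⁻ w in A, (ENNReal.ofReal (Real.pi / ‖y‖ * K) *
          D.indicator (fun w => ENNReal.ofReal |(fderiv ℝ g w).det|) w
          + ENNReal.ofReal (‖y‖ / (4 * Real.pi)) * ENNReal.ofReal (1 / ‖w‖ ^ 2)) :=
          setLIntegral_mono' hAm hpt
      _ = (∫⁻ w in A, ENNReal.ofReal (Real.pi / ‖y‖ * K) *
          D.indicator (fun w => ENNReal.ofReal |(fderiv ℝ g w).det|) w)
          + ∫⁻ w in A, ENNReal.ofReal (‖y‖ / (4 * Real.pi)) * ENNReal.ofReal (1 / ‖w‖ ^ 2) :=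
          lintegral_add_left (hmD.const_mul _) _
      _ = ENNReal.ofReal (Real.pi / ‖y‖ * K) *
          (∫⁻ w in A, D.indicator (fun w => ENNReal.ofReal |(fderiv ℝ g w).det|) w)
          + ENNReal.ofReal (‖y‖ / (4 * Real.pi)) * ∫⁻ w in A, ENNReal.ofReal (1 / ‖w‖ ^ 2) := by
          rw [lintegral_const_mul' _ _ ENNReal.ofReal_ne_top,
            lintegral_const_mul' _ _ ENNReal.ofReal_ne_top]
      _ ≤ ENNReal.ofReal (Real.pi / ‖y‖ * K) *
          (∫⁻ w, D.indicator (fun w => ENNReal.ofReal |(fderiv ℝ g w).det|) w)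
          + ENNReal.ofReal (‖y‖ / (4 * Real.pi)) * ∫⁻ w in A, ENNReal.ofReal (1 / ‖w‖ ^ 2) := by
          gcongr
          exact Measure.restrict_le_self
      _ = _ := by rw [harea, hann]
  have hfin := hlow.trans hup
  rw [← ENNReal.ofReal_mul (by positivity), ← ENNReal.ofReal_mul (by positivity),
    ← ENNReal.ofReal_mul (by positivity), ← ENNReal.ofReal_mul (by positivity),
    ← ENNReal.ofReal_add (by positivity) (by positivity),
    ENNReal.ofReal_le_ofReal_iff (by positivity)] at hfin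
  have e1 : Real.pi / ‖y‖ * K * (4 * Real.pi * ‖y‖ ^ 2) = 4 * Real.pi ^ 2 * K * ‖y‖ := by
    field_simp
  have e2 : ‖y‖ / (4 * Real.pi) * (2 * Real.pi * L) = ‖y‖ * L / 2 := by
    field_simp
    ring
  rw [e1, e2] at hfin
  have h7 : ‖y‖ * L ≤ ‖y‖ * (8 * Real.pi ^ 2 * K) := by linarith
  exact le_of_mul_le_mul_left h7 hyn

/-- **Quasisymmetry.** `f` is a smooth bijection with `‖Df‖² ≤ K det Df`; then
`‖x - a‖ ≤ ‖y - a‖` implies `‖f x - f a‖ ≤ e^{8 π² K} ‖f y - f a‖`.

Proof. We may assume `a = 0 = f a`, `y ≠ 0`. Let `g = f⁻¹` (smooth, `‖Dg‖² ≤ K det Dg`,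
`qc_inverse`), `r = |f y| < R = |f x|` (otherwise nothing to prove), `D = ball 0 (2 |y|)`. For
`r < ρ < R` apply `circle_length`. Integrating over `ρ` against `dρ / ρ`, in polar coordinates
(`Complex.integral_comp_polarCoord_symm`) and with the Cauchy-Schwarz inequality,
`|y| log (R/r) ≤ ∫∫_{g w ∈ D, r < |w| < R} ‖Dg w‖ / |w| dA
  ≤ (∫∫_{g w ∈ D} ‖Dg‖²)^{1/2} (∫∫_{r<|w|<R} |w|^{-2})^{1/2}
  ≤ (K area D)^{1/2} (2 π log (R/r))^{1/2} = (K 4 π |y|²)^{1/2} (2 π log (R/r))^{1/2}`,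
using `∫∫_{g w ∈ D} det Dg = area D` (change of variables). Hence `log (R/r) ≤ 8 π² K`. -/
theorem qs_of_qc (K : ℝ) (hK : 1 ≤ K) {f : ℂ → ℂ} (hf : ContDiff ℝ ∞ f)
    (hb : Function.Bijective f) (hdet : ∀ x, 0 < (fderiv ℝ f x).det)
    (hKf : ∀ x, ‖fderiv ℝ f x‖ ^ 2 ≤ K * (fderiv ℝ f x).det) :
    WQS (Real.exp (8 * Real.pi ^ 2 * K)) f := by
  intro a x y hxy
  set f₁ : ℂ → ℂ := fun z => f (z + a) - f a with hf₁
  have hf₁s : ContDiff ℝ ∞ f₁ := (hf.comp (contDiff_id.add contDiff_const)).sub contDiff_const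
  have hfd : ∀ z, fderiv ℝ f₁ z = fderiv ℝ f (z + a) := by
    intro z
    have h1 : HasFDerivAt f (fderiv ℝ f (z + a)) (z + a) :=
      ((hf.differentiable (by simp)) (z + a)).hasFDerivAt
    have h2 : HasFDerivAt f₁ (fderiv ℝ f (z + a)) z := by
      have h3 := (h1.comp z ((hasFDerivAt_id z).add_const a)).sub_const (f a)
      simpa [hf₁] using h3
    exact h2.fderiv
  have hbij : Function.Bijective f₁ := by
    constructor
    · intro u v huv
      have h1 : f (u + a) = f (v + a) := by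
        have : f (u + a) - f a = f (v + a) - f a := huv
        exact sub_left_injective this
      exact add_right_cancel (hb.1 h1)
    · intro w
      obtain ⟨v, hv⟩ := hb.2 (w + f a)
      refine ⟨v - a, ?_⟩
      simp only [hf₁, sub_add_cancel, hv, add_sub_cancel_right]
  set g : ℂ → ℂ := fun z => (Equiv.ofBijective f₁ hbij).symm z with hgd
  have hgf : ∀ z, g (f₁ z) = z := fun z => (Equiv.ofBijective f₁ hbij).symm_apply_apply z
  have hfg : ∀ z, f₁ (g z) = z := fun z => (Equiv.ofBijective f₁ hbij).apply_symm_apply z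
  obtain ⟨hgs, hgdet, hgK⟩ := qc_inverse (K := K) hf₁s (fun z => by rw [hfd]; exact hdet _)
    (fun z => by rw [hfd]; exact hKf _) hgf hfg
  let e : ℂ ≃ₜ ℂ :=
    { toFun := g
      invFun := f₁
      left_inv := hfg
      right_inv := hgf
      continuous_toFun := hgs.continuous
      continuous_invFun := hf₁s.continuous }
  have he : ⇑e = g := rfl
  have hes : ⇑e.symm = f₁ := rfl
  have h0 : e 0 = 0 := by
    have : f₁ 0 = 0 := by simp [hf₁]
    rw [he, ← this, hgf, this]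
  rcases eq_or_ne y a with rfl | hya
  · have : x = y := by
      rw [sub_self, norm_zero] at hxy
      exact sub_eq_zero.1 (norm_le_zero_iff.1 hxy)
    rw [this]
    simp
  · have key := QSC_main hK (g := e) hgs h0 hgdet hgK (sub_ne_zero.2 hya) hxy
    rw [hes] at key
    simpa [hf₁] using key

end Pool.Agent.KK
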