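import Pool.Agent.W_bb4b37_h53.LevelMapC
import Pool.Agent.W_bb4b37_h53.QSC

/-!
# Realizations at level `s` (fixed point argument) (part D)
-/

set_option autoImplicit false

open Filter Topology Set MeasureTheory Metric
open scoped ContDiff

namespace Pool.Agent.KK

/-- pointwise dilatation of `G` -/
theorem LevelMapD_alg {a b β μ : ℂ} (hβ : ‖β‖ ≤ 1 / 100) (hμ : ‖μ‖ ≤ 1 / 1000)
    (h : b + β * (starRingEnd ℂ) a = μ * (a + β * (starRingEnd ℂ) b))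
    (hne : a + β * (starRingEnd ℂ) b ≠ 0) :
    0 < ‖a‖ ^ 2 - ‖b‖ ^ 2 ∧ (‖a‖ + ‖b‖) ^ 2 ≤ 2 * (‖a‖ ^ 2 - ‖b‖ ^ 2) := by
  have h1 : b = μ * (a + β * (starRingEnd ℂ) b) - β * (starRingEnd ℂ) a := by
    linear_combination h
  have hna := norm_nonneg a
  have hnb := norm_nonneg b
  have h2 : ‖b‖ ≤ ‖μ‖ * (‖a‖ + ‖β‖ * ‖b‖) + ‖β‖ * ‖a‖ := by
    calc ‖b‖ = ‖μ * (a + β * (starRingEnd ℂ) b) - β * (starRingEnd ℂ) a‖ := by rw [← h1]
      _ ≤ ‖μ * (a + β * (starRingEnd ℂ) b)‖ + ‖β * (starRingEnd ℂ) a‖ := norm_sub_le _ _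
      _ ≤ ‖μ‖ * (‖a‖ + ‖β‖ * ‖b‖) + ‖β‖ * ‖a‖ := by
          rw [norm_mul, norm_mul β, Complex.norm_conj]
          refine add_le_add_left (mul_le_mul_of_nonneg_left ((norm_add_le _ _).trans ?_) (norm_nonneg _)) _
          rw [norm_mul, Complex.norm_conj]
  have h3 : ‖β‖ * ‖b‖ ≤ 1 / 100 * ‖b‖ := mul_le_mul_of_nonneg_right hβ hnb
  have h4 : ‖β‖ * ‖a‖ ≤ 1 / 100 * ‖a‖ := mul_le_mul_of_nonneg_right hβ hna
  have h5 : ‖μ‖ * (‖a‖ + ‖β‖ * ‖b‖) ≤ 1 / 1000 * (‖a‖ + 1 / 100 * ‖b‖) :=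
    mul_le_mul hμ (by linarith) (by positivity) (by norm_num)
  have h6 : ‖b‖ ≤ 1 / 50 * ‖a‖ := by linarith
  have ha : 0 < ‖a‖ := by
    rcases hna.lt_or_eq with h7 | h7
    · exact h7
    · exfalso
      rw [← h7, mul_zero] at h6
      have hb0 : b = 0 := norm_eq_zero.1 (le_antisymm h6 hnb)
      have ha0 : a = 0 := norm_eq_zero.1 h7.symm
      apply hne
      rw [ha0, hb0]
      simp
  constructor <;> nlinarith

theorem LevelMapD_dil {a : ℝ} {μ : ℂ → ℂ} {β : ℂ} {G : ℂ ≃ₜ ℂ} (hμ : ∀ z, ‖μ z‖ ≤ 1 / 1000)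
    (h : Sol a μ β G) (z : ℂ) : 0 < (fderiv ℝ G z).det ∧ ‖fderiv ℝ G z‖ ^ 2 ≤ 2 * (fderiv ℝ G z).det := by
  have hd : DifferentiableAt ℝ G z := h.smooth.differentiable (by simp) z
  have hd' : DifferentiableAt ℝ (fun y => (starRingEnd ℂ) (G y)) z :=
    Complex.conjCLE.differentiableAt.comp z hd
  have hd'' : DifferentiableAt ℝ (fun y => β * (starRingEnd ℂ) (G y)) z := hd'.const_mul β
  have hcx : DifferentiableAt ℝ (fun _ : ℂ => β) z := differentiableAt_const _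
  have e1 : Dz (fun y => G y + β * (starRingEnd ℂ) (G y)) z = Dz G z + β * (starRingEnd ℂ) (Dzb G z) := by
    have k : Dz (fun y => β * (starRingEnd ℂ) (G y)) z = β * (starRingEnd ℂ) (Dzb G z) := by
      rw [Dz_mul hcx hd', Dz_conj]
      simp [Dz, Dx_const, Dy_const]
    rw [← k]
    unfold Dz
    rw [Dx_add hd hd'', Dy_add hd hd'']
    ring
  have e2 : Dzb (fun y => G y + β * (starRingEnd ℂ) (G y)) z = Dzb G z + β * (starRingEnd ℂ) (Dz G z) := by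
    have k : Dzb (fun y => β * (starRingEnd ℂ) (G y)) z = β * (starRingEnd ℂ) (Dz G z) := by
      rw [Dzb_mul hcx hd', Dzb_conj]
      simp [Dzb, Dx_const, Dy_const]
    rw [← k]
    unfold Dzb
    rw [Dx_add hd hd'', Dy_add hd hd'']
    ring
  have hb := h.belt z
  have hn := h.ne z
  rw [e1, e2] at hb
  rw [e1] at hn
  have k := LevelMapD_alg h.beta (hμ z) hb hn
  rw [det_fderiv, norm_fderiv]
  exact k

/-- Quasisymmetry with an absolute constant (`qs_of_qc`, `qc_inverse`; the dilatation of `G` is at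
most `2`). -/
theorem sol_wqs : ∃ H : ℝ, 1 ≤ H ∧ ∀ (a : ℝ) (μ : ℂ → ℂ) (β : ℂ) (G : ℂ ≃ₜ ℂ), 0 ≤ a →
    a ≤ 1 / 100000 → (∀ z, ‖μ z‖ ≤ 1 / 1000) → Sol a μ β G → WQS H G ∧ WQS H G.symm := by
  refine ⟨Real.exp (8 * Real.pi ^ 2 * 2), Real.one_le_exp (by positivity), ?_⟩
  intro a μ β G _ _ hμ h
  have hd := fun z => LevelMapD_dil hμ h z
  have hi := qc_inverse (g := G.symm) h.smooth (fun z => (hd z).1) (fun z => (hd z).2)
    (fun x => G.symm_apply_apply x) (fun x => G.apply_symm_apply x)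
  exact ⟨qs_of_qc 2 (by norm_num) h.smooth G.bijective (fun z => (hd z).1) (fun z => (hd z).2),
    qs_of_qc 2 (by norm_num) hi.1 G.symm.bijective hi.2.1 hi.2.2⟩

end Pool.Agent.KK
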