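import Pool.Agent.W_bb4b37_h53.BrouwerB
import Pool.Agent.W_bb4b37_h53.LevG2
import Pool.Agent.W_bb4b37_h53.LevG3
import Pool.Agent.W_bb4b37_h53.LevelMapA

/-!
# Realizations at level `s` (fixed point argument) (part G)
-/

set_option autoImplicit false

open Filter Topology Set MeasureTheory Metric
open scoped ContDiff

namespace Pool.Agent.KK

/-- The radial retraction onto the disc of radius `1/1000`. -/
noncomputable def LevelMapG_ret (x : ℂ) : ℂ := ((1 / 1000 / max (1 / 1000) ‖x‖ : ℝ) : ℂ) * x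

theorem LevelMapG_ret_cont : Continuous LevelMapG_ret := by
  have h1 : Continuous fun z : ℂ => (1 / 1000 : ℝ) / max (1 / 1000) ‖z‖ :=
    Continuous.div continuous_const (continuous_const.max continuous_norm)
      (fun z => (lt_of_lt_of_le (by norm_num : (0 : ℝ) < 1 / 1000) (le_max_left _ _)).ne')
  exact (Complex.continuous_ofReal.comp h1).mul continuous_id

theorem LevelMapG_ret_le (x : ℂ) : ‖LevelMapG_ret x‖ ≤ 1 / 1000 := by
  have h1 : 0 < max (1 / 1000) ‖x‖ := lt_of_lt_of_le (by norm_num) (le_max_left _ _)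
  unfold LevelMapG_ret
  rw [norm_mul, Complex.norm_real, Real.norm_eq_abs, abs_of_nonneg (by positivity),
    div_mul_eq_mul_div, div_le_iff₀ h1]
  exact mul_le_mul_of_nonneg_left (le_max_right _ _) (by norm_num)

theorem LevelMapG_ret_eq {x : ℂ} (hx : ‖x‖ ≤ 1 / 1000) : LevelMapG_ret x = x := by
  unfold LevelMapG_ret
  rw [max_eq_left hx, div_self (by norm_num)]
  simp

/-- The coefficient with the values `P`. -/
noncomputable def LevelMapG_mu {n : ℕ} (χ : Fin n → ℂ → ℝ) (P : Fin (n + 1) → ℂ) (z : ℂ) : ℂ :=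
  ∑ i : Fin n, ((χ i z : ℝ) : ℂ) * P i.castSucc

theorem LevelMapG_sum_le {n : ℕ} {χ : Fin n → ℂ → ℝ} {z : ℂ} (h0 : ∀ i, 0 ≤ χ i z)
    (h1 : ∑ i, χ i z = 1) {v : Fin n → ℂ} {K : ℝ} (hv : ∀ i, χ i z ≠ 0 → ‖v i‖ ≤ K) :
    ‖∑ i : Fin n, ((χ i z : ℝ) : ℂ) * v i‖ ≤ K := by
  refine (norm_sum_le _ _).trans ?_
  have h2 : ∑ i : Fin n, ‖((χ i z : ℝ) : ℂ) * v i‖ ≤ ∑ i : Fin n, χ i z * K := by
    apply Finset.sum_le_sum
    intro i _
    rw [norm_mul, Complex.norm_real, Real.norm_eq_abs, abs_of_nonneg (h0 i)]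
    by_cases h : χ i z = 0
    · rw [h, zero_mul, zero_mul]
    · exact mul_le_mul_of_nonneg_left (hv i h) (h0 i)
  rw [← Finset.sum_mul, h1, one_mul] at h2
  exact h2

theorem LevelMapG_coef {n : ℕ} {a : ℝ} {χ : Fin n → ℂ → ℝ} (hs : ∀ i, ContDiff ℝ ∞ (χ i))
    (hp : ∀ i, Per a (χ i)) (h0 : ∀ i z, 0 ≤ χ i z) (h1 : ∀ z, ∑ i, χ i z = 1)
    {P : Fin (n + 1) → ℂ} (hP : ∀ i, ‖P i‖ ≤ 1 / 1000) : Coef a (LevelMapG_mu χ P) := by
  refine ⟨?_, ?_, ?_⟩
  · unfold LevelMapG_mu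
    apply ContDiff.sum
    intro i _
    exact (Complex.ofRealCLM.contDiff.comp (hs i)).mul contDiff_const
  · intro z v hv
    unfold LevelMapG_mu
    exact Finset.sum_congr rfl fun i _ => by rw [hp i z v hv]
  · intro z
    exact LevelMapG_sum_le (h0 · z) (h1 z) fun i _ => hP _

theorem LevelMapG_mu_sub {n : ℕ} {χ : Fin n → ℂ → ℝ} (h0 : ∀ i z, 0 ≤ χ i z)
    (h1 : ∀ z, ∑ i, χ i z = 1) (P Q : Fin (n + 1) → ℂ) (z : ℂ) :
    ‖LevelMapG_mu χ P z - LevelMapG_mu χ Q z‖ ≤ dist P Q := by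
  unfold LevelMapG_mu
  rw [← Finset.sum_sub_distrib]
  have h2 : ∑ i : Fin n, (((χ i z : ℝ) : ℂ) * P i.castSucc - ((χ i z : ℝ) : ℂ) * Q i.castSucc) =
      ∑ i : Fin n, ((χ i z : ℝ) : ℂ) * (P i.castSucc - Q i.castSucc) :=
    Finset.sum_congr rfl fun i _ => by ring
  rw [h2]
  refine LevelMapG_sum_le (h0 · z) (h1 z) fun i _ => ?_
  rw [← dist_eq_norm]
  exact dist_le_pi_dist P Q _

theorem LevelMapG_thet_cont (s : ℝ) : Continuous (thet s) := by
  have h1 : Continuous fun ζ : ℂ => infDist ζ Lam := continuous_infDist_pt Lam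
  exact continuous_const.max (continuous_const.min (continuous_const.sub (h1.div_const s)))

/-- **Realizations at level `s`.** Proof. `C, H, ε₀` from `step_consts`, `a₁ = 1/100000`. Given `ε, a,
s, η`: let `δ` be from `tauS_osc` for `min η (1/100000)` and take a partition of unity
`(n, χ, p)` with mesh `δ` (`exists_partition`). For `P : Fin (n + 1) → ℂ` with `‖P i‖ ≤ 1/1000` let
`μ_P z = ∑ i : Fin n, χ i z * P i.castSucc` (`Coef a μ_P`), `(β_P, G_P, w_P)` the unique step, and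
`T P = (tauS ε s G_P w_P (P (last)) (p i))_{i < n}`, last coordinate `ret (P (last) - β_P)` where
`ret x = x` for `‖x‖ ≤ 1/1000` and `ret x = x / (1000 ‖x‖)` otherwise. `T` maps the product of discs
to itself (`tauS_le`) and is continuous (by sequences, the continuity part of `step_consts` and
`thet_lipschitz`), so `brouwer_discs` gives a fixed point. There
`μ_P z - tauS z = ∑ χ i z (tauS (p i) - tauS z)` is at most `min η (1/100000)` (if `χ i z ≠ 0` then
`z` is `δ`-close to `p i + v`, `v ∈ Lat a`; `tauS_per`), so `beta_small` gives `‖m - β‖ < 1/1000`,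
hence `m = ret (m - β) = m - β` and `β = 0`. -/
theorem level_real : ∃ C H ε₁ a₁ : ℝ, 1 ≤ C ∧ 1 ≤ H ∧ 0 < ε₁ ∧ 0 < a₁ ∧ a₁ ≤ 1 / 10 ∧
    ∀ ε : ℝ, 0 < ε → ε ≤ ε₁ → ∀ a : ℝ, 0 ≤ a → a ≤ a₁ → ∀ s : ℝ, 0 < s → s ≤ 1 → ∀ η > 0,
    ∃ F μ m w, LevelReal C H ε a s η F μ m w := by
  obtain ⟨C, H, ε₀, hC, hH, hε₀, hε₀1, hCε, hW, hmain⟩ := step_consts
  refine ⟨C, H, ε₀, 1 / 100000, hC, hH, hε₀, by norm_num, by norm_num, ?_⟩
  intro ε hε0 hε a ha0 ha s hs hs1 η hη
  obtain ⟨hex, -, hcont⟩ := hmain ε hε0 hε a ha0 ha s hs hs1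
  have hε1 : ε ≤ 1 := hε.trans hε₀1
  have hCε' : 2 * C ^ 2 * ε ^ 2 ≤ 1 / 100000 := by
    refine le_trans ?_ hCε
    have h1 : ε ^ 2 ≤ ε₀ ^ 2 := pow_le_pow_left₀ hε0.le hε 2
    exact mul_le_mul_of_nonneg_left h1 (by positivity)
  obtain ⟨δ, hδ, hosc⟩ := tauS_osc hC hH hε0 hε1 hCε' ha0 ha hs hs1 (min η (1 / 100000))
    (lt_min hη (by norm_num))
  have ha1 : |a| < 1 := by
    rw [abs_of_nonneg ha0]
    linarith
  obtain ⟨n, χ, p, hχs, hχp, hχ0, hχ1, hχd⟩ := exists_partition ha1 hδ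
  have : Nonempty (ℂ ≃ₜ ℂ) := ⟨Homeomorph.refl ℂ⟩
  choose! β G w hstep using hex
  set K : Set (Fin (n + 1) → ℂ) := {P | ∀ i, ‖P i‖ ≤ 1 / 1000} with hK
  have hcoef : ∀ P ∈ K, Coef a (LevelMapG_mu χ P) := fun P hP =>
    LevelMapG_coef hχs hχp hχ0 hχ1 hP
  -- the map
  set T : (Fin (n + 1) → ℂ) → (Fin (n + 1) → ℂ) := fun P =>
    Fin.snoc (α := fun _ => ℂ)
      (fun i : Fin n => tauS ε s (G (LevelMapG_mu χ P)) (w (LevelMapG_mu χ P))
        (P (Fin.last n)) (p i))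
      (LevelMapG_ret (P (Fin.last n) - β (LevelMapG_mu χ P))) with hT
  have hTlast : ∀ P, T P (Fin.last n) =
      LevelMapG_ret (P (Fin.last n) - β (LevelMapG_mu χ P)) := by
    intro P
    simp only [hT]
    exact Fin.snoc_last _ _
  have hTcast : ∀ P (i : Fin n), T P i.castSucc =
      tauS ε s (G (LevelMapG_mu χ P)) (w (LevelMapG_mu χ P)) (P (Fin.last n)) (p i) := by
    intro P i
    simp only [hT]
    exact Fin.snoc_castSucc (α := fun _ => ℂ) _ _ i
  have hTK : ∀ P, (∀ i, ‖P i‖ ≤ 1 / 1000) → ∀ i, ‖T P i‖ ≤ 1 / 1000 := by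
    intro P hP i
    refine Fin.lastCases ?_ (fun j => ?_) i
    · rw [hTlast]
      exact LevelMapG_ret_le _
    · rw [hTcast]
      exact tauS_le hC hε0 hCε' (hstep _ (hcoef P hP)) (hP _) _
  have hTc : ContinuousOn T K := by
    rw [continuousOn_iff_continuous_domRestrict]
    apply SeqContinuous.continuous
    intro u x hu
    have hu' : Tendsto (fun k => (u k : Fin (n + 1) → ℂ)) atTop (𝓝 (x : Fin (n + 1) → ℂ)) :=
      (continuous_subtype_val.tendsto x).comp hu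
    have hunif : ∀ η > 0, ∀ᶠ k in atTop, ∀ z,
        ‖LevelMapG_mu χ (u k) z - LevelMapG_mu χ x z‖ ≤ η := by
      intro e he
      filter_upwards [(Metric.tendsto_nhds.1 hu') e he] with k hk z
      exact (LevelMapG_mu_sub hχ0 hχ1 _ _ z).trans hk.le
    obtain ⟨c1, c2⟩ := hcont (fun k => LevelMapG_mu χ (u k)) (LevelMapG_mu χ x)
      (fun k => β (LevelMapG_mu χ (u k))) (fun k => G (LevelMapG_mu χ (u k)))
      (fun k => w (LevelMapG_mu χ (u k))) (β (LevelMapG_mu χ x)) (G (LevelMapG_mu χ x))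
      (w (LevelMapG_mu χ x)) (fun k => hcoef _ (u k).2) (hcoef _ x.2)
      (fun k => hstep _ (hcoef _ (u k).2)) (hstep _ (hcoef _ x.2)) hunif
    have hlast : Tendsto (fun k => (u k : Fin (n + 1) → ℂ) (Fin.last n)) atTop
        (𝓝 ((x : Fin (n + 1) → ℂ) (Fin.last n))) := (tendsto_pi_nhds.1 hu') _
    rw [tendsto_pi_nhds]
    intro i
    refine Fin.lastCases ?_ (fun j => ?_) i
    · simp only [Function.comp_def, Set.domRestrict_apply, hTlast]
      exact (LevelMapG_ret_cont.tendsto _).comp (hlast.sub c1)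
    · simp only [Function.comp_def, Set.domRestrict_apply, hTcast]
      obtain ⟨d1, d2⟩ := c2 (p j)
      have hth : Tendsto (fun k => thet s (G (LevelMapG_mu χ (u k)) (p j))) atTop
          (𝓝 (thet s (G (LevelMapG_mu χ x) (p j)))) :=
        ((LevelMapG_thet_cont s).tendsto _).comp d2
      unfold tauS
      refine Tendsto.add (Tendsto.mul ?_ d1) (Tendsto.mul ?_ hlast)
      · exact (Complex.continuous_ofReal.tendsto _).comp (tendsto_const_nhds.sub hth)
      · exact (Complex.continuous_ofReal.tendsto _).comp hth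
  obtain ⟨P, hPK, hPT⟩ := brouwer_discs (n + 1) (1 / 1000) (by norm_num) T hTc hTK
  obtain ⟨μ, hμ⟩ : ∃ μ, μ = LevelMapG_mu χ P := ⟨_, rfl⟩
  obtain ⟨m, hm⟩ : ∃ m, m = P (Fin.last n) := ⟨_, rfl⟩
  have hm1 : ‖m‖ ≤ 1 / 1000 := by
    rw [hm]
    exact hPK _
  have hμc : Coef a μ := by
    rw [hμ]
    exact hcoef P hPK
  have hst : Step C ε a s μ (β μ) (G μ) (w μ) := hstep μ hμc
  obtain ⟨hwq1, hwq2⟩ := hW a μ (β μ) (G μ) ha0 ha hμc.bound hst.sol
  have hPi : ∀ i : Fin n, P i.castSucc = tauS ε s (G μ) (w μ) m (p i) := by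
    intro i
    have h1 := hTcast P i
    rw [hPT, ← hμ, ← hm] at h1
    exact h1
  have hclose : ∀ z, ‖μ z - tauS ε s (G μ) (w μ) m z‖ ≤ min η (1 / 100000) := by
    intro z
    have h1 : μ z - tauS ε s (G μ) (w μ) m z = ∑ i : Fin n, ((χ i z : ℝ) : ℂ) *
        (tauS ε s (G μ) (w μ) m (p i) - tauS ε s (G μ) (w μ) m z) := by
      have h2 : μ z = ∑ i : Fin n, ((χ i z : ℝ) : ℂ) * tauS ε s (G μ) (w μ) m (p i) := by
        conv_lhs => rw [hμ]
        unfold LevelMapG_mu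
        exact Finset.sum_congr rfl fun i _ => by rw [hPi i]
      have h3 : tauS ε s (G μ) (w μ) m z =
          ∑ i : Fin n, ((χ i z : ℝ) : ℂ) * tauS ε s (G μ) (w μ) m z := by
        rw [← Finset.sum_mul]
        have h4 : ∑ i : Fin n, ((χ i z : ℝ) : ℂ) = 1 := by
          rw [← Complex.ofReal_sum, hχ1 z, Complex.ofReal_one]
        rw [h4, one_mul]
      rw [h2]
      conv_lhs => rw [h3]
      rw [← Finset.sum_sub_distrib]
      exact Finset.sum_congr rfl fun i _ => by ring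
    rw [h1]
    refine LevelMapG_sum_le (hχ0 · z) (hχ1 z) fun i hi => ?_
    obtain ⟨v, hv, hvd⟩ := hχd i z hi
    have h2 := tauS_per hst m (p i) v hv
    rw [← h2]
    refine hosc μ (β μ) (G μ) (w μ) m hst hwq1 hm1 (p i + v) z ?_
    rw [norm_sub_rev, ← sub_sub]
    exact hvd
  have hbs : ‖m - β μ‖ < 1 / 1000 :=
    beta_small hC hε0 hCε' ha0 ha hs hμc hst hm1 fun z => (hclose z).trans (min_le_right _ _)
  have hβ : β μ = 0 := by
    have h1 := hTlast P
    rw [hPT, ← hμ, ← hm, LevelMapG_ret_eq hbs.le] at h1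
    have h2 : m - (m - β μ) = 0 := by rw [← h1, sub_self]
    rwa [sub_sub_cancel] at h2
  have hbelt := hst.sol.belt
  have hne := hst.sol.ne
  rw [hβ] at hbelt hne
  have hfun : (fun y => (G μ) y + 0 * (starRingEnd ℂ) ((G μ) y)) = fun y => (G μ) y := by
    funext y
    rw [zero_mul, add_zero]
  rw [hfun] at hbelt hne
  exact ⟨G μ, μ, m, w μ, {
    smooth := hst.sol.smooth
    zero := hst.sol.zero
    per := hst.sol.per
    wqs := hwq1
    wqsInv := hwq2
    belt := hbelt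
    ne := hne
    bound := fun z => (hμc.bound z).trans (by norm_num)
    level := hst.lev
    close := fun z => (hclose z).trans (min_le_left _ _) }⟩

end Pool.Agent.KK
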