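import Pool.Agent.W_bb4b37_h53.LimC0

/-!
# The limit: the Beltrami equation
-/

set_option autoImplicit false

open Filter Topology Set MeasureTheory Metric
open scoped ContDiff

namespace Pool.Agent.KK

variable {C H ε a : ℝ} {𝒰 : Ultrafilter ℕ} {F : ℕ → (ℂ ≃ₜ ℂ)} {μ : ℕ → ℂ → ℂ} {m : ℕ → ℂ}
  {w : ℕ → ℂ → ℝ} {G : ℂ ≃ₜ ℂ} {W : ℂ → ℝ}

/-- the error of the coefficients near a point off `G ⁻¹' Lam` -/
theorem LimC2_close (h : Seq C H ε a 𝒰 F μ m w G) {z₀ : ℂ} (hz₀ : z₀ ∈ (G ⁻¹' Lam)ᶜ) {η : ℝ}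
    (hη : 0 < η) : ∃ r > 0, ∀ᶠ n in (𝒰 : Filter ℕ), ∀ z ∈ ball z₀ r,
      ‖μ n z - nu ε (w n) z‖ ≤ η := by
  have hne : Lam.Nonempty := ⟨0, zero_mem_Lam⟩
  obtain ⟨d, hd⟩ : ∃ d, d = infDist (G z₀) Lam := ⟨_, rfl⟩
  have hd0 : 0 < d := by
    rw [hd]
    exact (isClosed_Lam.notMem_iff_infDist_pos hne).mp hz₀
  have hcont : ContinuousAt G z₀ := G.continuous.continuousAt
  obtain ⟨r, hr, hrG⟩ := Metric.continuousAt_iff.mp hcont (d / 4) (by linarith)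
  refine ⟨r, hr, ?_⟩
  have h1 := h.conv (d / 4) (by linarith)
  have hlim : Tendsto (fun n : ℕ => 1 / ((n : ℝ) + 1)) atTop (𝓝 0) :=
    tendsto_one_div_add_atTop_nhds_zero_nat
  have h2 := h.top (hlim.eventually (ge_mem_nhds (show (0 : ℝ) < d / 4 by linarith)))
  have h3 := h.top (hlim.eventually (ge_mem_nhds hη))
  filter_upwards [h1, h2, h3] with n hn1 hn2 hn3 z hz
  have hs : 0 < 1 / ((n : ℝ) + 1) := by positivity
  have e1 : dist (G z) (G z₀) < d / 4 := hrG hz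
  have e2 : infDist (G z₀) Lam ≤ infDist (F n z) Lam + dist (G z₀) (F n z) :=
    infDist_le_infDist_add_dist
  have e3 : dist (G z₀) (F n z) ≤ dist (G z) (G z₀) + ‖F n z - G z‖ := by
    have := dist_triangle (G z₀) (G z) (F n z)
    rw [dist_comm (G z₀) (G z), dist_comm (G z) (F n z), dist_eq_norm (F n z) (G z)] at this
    exact this
  have e4 : thet (1 / ((n : ℝ) + 1)) (F n z) = 0 := by
    apply thet_eq_zero hs
    have := hn1 z
    have h2' : 1 / ((n : ℝ) + 1) ≤ d / 4 := hn2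
    rw [← hd] at e2
    linarith
  have e5 := (h.real n).close z
  rw [e4] at e5
  have e6 : ((1 - 0 : ℝ) : ℂ) * nu ε (w n) z + ((0 : ℝ) : ℂ) * m n = nu ε (w n) z := by
    push_cast; ring
  rw [e6] at e5
  exact e5.trans hn3

theorem LimC2_bound {f : ℂ → ℝ} {z₀ : ℂ} (hf : ContinuousAt f z₀) : ∃ r > 0, ∀ z ∈ ball z₀ r,
    |f z| ≤ |f z₀| + 1 := by
  obtain ⟨r, hr, h⟩ := Metric.continuousAt_iff.mp hf 1 one_pos
  refine ⟨r, hr, fun z hz => ?_⟩
  have h1 := h hz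
  rw [Real.dist_eq] at h1
  have h2 := abs_sub_abs_le_abs_sub (f z) (f z₀)
  linarith

/-- local convergence of `nu` -/
theorem LimC2_nu (hW : LimW a 𝒰 w G W) {z₀ : ℂ}
    (hz₀ : z₀ ∈ (G ⁻¹' Lam)ᶜ) {η : ℝ} (hη : 0 < η) : ∃ r > 0, ∀ᶠ n in (𝒰 : Filter ℕ),
      ∀ z ∈ ball z₀ r, ‖nu ε (w n) z - nu ε W z‖ ≤ η := by
  have hU : IsOpen (G ⁻¹' Lam)ᶜ := (isClosed_Lam.preimage G.continuous).isOpen_compl
  have hc0 : ContinuousAt W z₀ := (hW.smooth.continuousOn).continuousAt (hU.mem_nhds hz₀)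
  have hc1 : ContinuousAt (Dx W) z₀ :=
    (contDiffOn_Dx (m := 1) hU hW.smooth (by norm_num)).continuousOn.continuousAt
      (hU.mem_nhds hz₀)
  have hc2 : ContinuousAt (Dy W) z₀ :=
    (contDiffOn_Dy (m := 1) hU hW.smooth (by norm_num)).continuousOn.continuousAt
      (hU.mem_nhds hz₀)
  obtain ⟨r0, hr0, b0⟩ := LimC2_bound hc0
  obtain ⟨r1, hr1, b1⟩ := LimC2_bound hc1
  obtain ⟨r2, hr2, b2⟩ := LimC2_bound hc2
  obtain ⟨r, hr, -, hu⟩ := hW.conv z₀ hz₀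
  obtain ⟨B, hB⟩ : ∃ B, B = |W z₀| + |Dx W z₀| + |Dy W z₀| + 2 := ⟨_, rfl⟩
  obtain ⟨δ, hδ, hP⟩ := Psi_unif ε B η hη
  have hδ' : 0 < min δ 1 := lt_min hδ one_pos
  have u0 := Metric.tendstoUniformlyOn_iff.mp (hu [] (by simp)) (min δ 1) hδ'
  have u1 := Metric.tendstoUniformlyOn_iff.mp (hu [true] (by simp)) (min δ 1) hδ'
  have u2 := Metric.tendstoUniformlyOn_iff.mp (hu [false] (by simp)) (min δ 1) hδ'
  refine ⟨min (min r r0) (min r1 r2), lt_min (lt_min hr hr0) (lt_min hr1 hr2), ?_⟩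
  filter_upwards [u0, u1, u2] with n v0 v1 v2 z hz
  have hz' : dist z z₀ < min (min r r0) (min r1 r2) := hz
  have m1 : z ∈ ball z₀ r := lt_of_lt_of_le hz' ((min_le_left _ _).trans (min_le_left _ _))
  have m2 : z ∈ ball z₀ r0 := lt_of_lt_of_le hz' ((min_le_left _ _).trans (min_le_right _ _))
  have m3 : z ∈ ball z₀ r1 := lt_of_lt_of_le hz' ((min_le_right _ _).trans (min_le_left _ _))
  have m4 : z ∈ ball z₀ r2 := lt_of_lt_of_le hz' ((min_le_right _ _).trans (min_le_right _ _))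
  have t0 : |W z - w n z| < min δ 1 := v0 z m1
  have t1 : |Dx W z - Dx (w n) z| < min δ 1 := v1 z m1
  have t2 : |Dy W z - Dy (w n) z| < min δ 1 := v2 z m1
  have c0 := b0 z m2
  have c1 := b1 z m3
  have c2 := b2 z m4
  have p0 := abs_nonneg (W z₀)
  have p1 := abs_nonneg (Dx W z₀)
  have p2 := abs_nonneg (Dy W z₀)
  have q0 := abs_sub_abs_le_abs_sub (w n z) (W z)
  have q1 := abs_sub_abs_le_abs_sub (Dx (w n) z) (Dx W z)
  have q2 := abs_sub_abs_le_abs_sub (Dy (w n) z) (Dy W z)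
  rw [abs_sub_comm (w n z) (W z)] at q0
  rw [abs_sub_comm (Dx (w n) z) (Dx W z)] at q1
  rw [abs_sub_comm (Dy (w n) z) (Dy W z)] at q2
  have k1 : min δ 1 ≤ 1 := min_le_right _ _
  have k2 : min δ 1 ≤ δ := min_le_left _ _
  rw [nu_eq_Psi, nu_eq_Psi]
  apply hP
  · linarith
  · linarith
  · linarith
  · linarith
  · linarith
  · linarith
  · rw [abs_sub_comm]; linarith
  · rw [abs_sub_comm]; linarith
  · rw [abs_sub_comm]; linarith

/-- **Convergence of the coefficients** on compact subsets of the complement of `G ⁻¹' Lam`. Proof: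
`infDist (G z) Lam ≥ c > 0` on the compact set, so `thet (s_n) (F n z) = 0` for almost all `n`
(`thet_eq_zero`), and `‖μ n z - nu ε (w n) z‖ ≤ 1 / (n + 1)` by `close`. Cover `K` by finitely many
balls on which `w n`, `Dx (w n)`, `Dy (w n)` converge uniformly and use `nu_eq_Psi`, `Psi_unif`. -/
theorem Seq.lim_mu (h : Seq C H ε a 𝒰 F μ m w G) (hW : LimW a 𝒰 w G W) {K : Set ℂ}
    (hK : IsCompact K) (hKU : K ⊆ (G ⁻¹' Lam)ᶜ) : ∀ η > 0, ∀ᶠ n in (𝒰 : Filter ℕ),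
    ∀ z ∈ K, ‖μ n z - nu ε W z‖ ≤ η := by
  intro η hη
  refine hK.induction_on (p := fun s => ∀ᶠ n in (𝒰 : Filter ℕ), ∀ z ∈ s, ‖μ n z - nu ε W z‖ ≤ η)
    ?_ ?_ ?_ ?_
  · exact Filter.Eventually.of_forall fun n z hz => absurd hz (by simp)
  · intro s t hst ht
    filter_upwards [ht] with n hn z hz using hn z (hst hz)
  · intro s t hs ht
    filter_upwards [hs, ht] with n hn1 hn2 z hz
    rcases hz with hz | hz
    · exact hn1 z hz
    · exact hn2 z hz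
  · intro x hx
    obtain ⟨r1, hr1, h1⟩ := LimC2_close h (hKU hx) (half_pos hη)
    obtain ⟨r2, hr2, h2⟩ := LimC2_nu (ε := ε) hW (hKU hx) (half_pos hη)
    refine ⟨ball x (min r1 r2), mem_nhdsWithin_of_mem_nhds (ball_mem_nhds x (lt_min hr1 hr2)), ?_⟩
    filter_upwards [h1, h2] with n hn1 hn2 z hz
    have hz' : Dist.dist z x < min r1 r2 := hz
    have m1 : z ∈ ball x r1 := lt_of_lt_of_le hz' (min_le_left _ _)
    have m2 : z ∈ ball x r2 := lt_of_lt_of_le hz' (min_le_right _ _)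
    have e1 := hn1 z m1
    have e2 := hn2 z m2
    have e3 := norm_add_le (μ n z - nu ε (w n) z) (nu ε (w n) z - nu ε W z)
    rw [sub_add_sub_cancel] at e3
    linarith

end Pool.Agent.KK
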