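import Pool.Agent.W_bb4b37_h53.HeatB

/-!
# The linear equation `Δ v - q v = f` for periodic smooth functions (part A)
-/

set_option autoImplicit false

open Filter Topology Set MeasureTheory Metric
open scoped ContDiff

namespace Pool.Agent.KK

/-- the Laplace transform of the heat semigroup -/
noncomputable def LinearA_U (M : ℝ) (f : ℂ → ℝ) (z : ℂ) : ℝ :=
  ∫ σ in Ioi (0 : ℝ), Real.exp (-M * σ) * heat σ f z

theorem LinearA_bound {f : ℂ → ℝ} (hf : BCinf f) : ∃ B : ℝ, ∀ z, |f z| ≤ B := by
  obtain ⟨B, hB⟩ := (BCinf_iff.1 hf).2 []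
  exact ⟨B, hB⟩

theorem LinearA_Dx {f : ℂ → ℝ} (hf : BCinf f) : BCinf (Dx f) := bcinf_DD hf [true]

theorem LinearA_Dy {f : ℂ → ℝ} (hf : BCinf f) : BCinf (Dy f) := bcinf_DD hf [false]

theorem LinearA_integrable {M : ℝ} (hM : 0 < M) {f : ℂ → ℝ} (hf : BCinf f) (z : ℂ) :
    IntegrableOn (fun σ => Real.exp (-M * σ) * heat σ f z) (Ioi 0) := by
  obtain ⟨B, hB⟩ := LinearA_bound hf
  have h1 : IntegrableOn (fun σ : ℝ => Real.exp (-M * σ) * B) (Ioi 0) :=
    (integrableOn_exp_mul_Ioi (by linarith) 0).mul_const B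
  refine Integrable.mono' h1 ?_ ?_
  · have h2 : ContinuousOn (fun σ => Real.exp (-M * σ) * heat σ f z) (Ioi 0) :=
      (by fun_prop : Continuous fun σ : ℝ => Real.exp (-M * σ)).continuousOn.mul
        ((continuousOn_heat hf z).mono Ioi_subset_Ici_self)
    exact h2.aestronglyMeasurable measurableSet_Ioi
  · refine Filter.Eventually.of_forall fun σ => ?_
    rw [Real.norm_eq_abs, abs_mul, abs_of_pos (Real.exp_pos _)]
    exact mul_le_mul_of_nonneg_left (heat_abs_le hB σ z) (Real.exp_pos _).le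

theorem LinearA_fderiv_heat {f : ℂ → ℝ} (hf : BCinf f) (σ : ℝ) (z : ℂ) :
    fderiv ℝ (heat σ f) z = heat σ (Dx f) z • Complex.reCLM + heat σ (Dy f) z • Complex.imCLM := by
  ext v
  rw [fderiv_eq]
  have h1 := DD_heat hf σ [true] z
  have h2 := DD_heat hf σ [false] z
  simp only [DD_true, DD_false, DD_nil] at h1 h2
  rw [h1, h2]
  simp [mul_comm]

theorem LinearA_hasFDerivAt {M : ℝ} (hM : 0 < M) {f : ℂ → ℝ} (hf : BCinf f) (z : ℂ) :
    HasFDerivAt (LinearA_U M f)
      (LinearA_U M (Dx f) z • Complex.reCLM + LinearA_U M (Dy f) z • Complex.imCLM) z := by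
  obtain ⟨Bx, hBx⟩ := LinearA_bound (LinearA_Dx hf)
  obtain ⟨By, hBy⟩ := LinearA_bound (LinearA_Dy hf)
  have hcont : ∀ y : ℂ, ContinuousOn (fun σ => Real.exp (-M * σ) • fderiv ℝ (heat σ f) y) (Ioi 0) := by
    intro y
    have e : (fun σ => Real.exp (-M * σ) • fderiv ℝ (heat σ f) y) = fun σ => Real.exp (-M * σ) •
        (heat σ (Dx f) y • Complex.reCLM + heat σ (Dy f) y • Complex.imCLM) := by
      funext σ
      rw [LinearA_fderiv_heat hf]
    rw [e]
    exact (by fun_prop : Continuous fun σ : ℝ => Real.exp (-M * σ)).continuousOn.smul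
      ((((continuousOn_heat (LinearA_Dx hf) y).mono Ioi_subset_Ici_self).smul continuousOn_const).add
      (((continuousOn_heat (LinearA_Dy hf) y).mono Ioi_subset_Ici_self).smul continuousOn_const))
  have hint : Integrable (fun σ : ℝ => Real.exp (-M * σ) *
      (Bx * ‖(Complex.reCLM : ℂ →L[ℝ] ℝ)‖ + By * ‖(Complex.imCLM : ℂ →L[ℝ] ℝ)‖)) (volume.restrict (Ioi 0)) :=
    (integrableOn_exp_mul_Ioi (by linarith) 0).mul_const _
  have key := hasFDerivAt_integral_of_dominated_of_fderiv_le (μ := volume.restrict (Ioi (0 : ℝ)))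
    (F := fun z σ => Real.exp (-M * σ) * heat σ f z)
    (F' := fun z σ => Real.exp (-M * σ) • fderiv ℝ (heat σ f) z) (x₀ := z) (s := univ)
    (bound := fun σ : ℝ => Real.exp (-M * σ) *
      (Bx * ‖(Complex.reCLM : ℂ →L[ℝ] ℝ)‖ + By * ‖(Complex.imCLM : ℂ →L[ℝ] ℝ)‖))
    univ_mem (Filter.Eventually.of_forall fun y => (LinearA_integrable hM hf y).1)
    (LinearA_integrable hM hf z) ((hcont z).aestronglyMeasurable measurableSet_Ioi)
    (Filter.Eventually.of_forall fun σ y _ => by
      rw [norm_smul, Real.norm_eq_abs, abs_of_pos (Real.exp_pos _), LinearA_fderiv_heat hf]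
      refine mul_le_mul_of_nonneg_left ?_ (Real.exp_pos _).le
      refine (norm_add_le _ _).trans ?_
      rw [norm_smul, norm_smul]
      exact add_le_add (mul_le_mul_of_nonneg_right (heat_abs_le hBx σ y) (norm_nonneg _))
        (mul_le_mul_of_nonneg_right (heat_abs_le hBy σ y) (norm_nonneg _)))
    hint
    (Filter.Eventually.of_forall fun σ y _ => by
      have h1 : DifferentiableAt ℝ (heat σ f) y := (heat_bcinf hf σ).1.differentiable (by simp) y
      exact h1.hasFDerivAt.const_mul _)
  refine key.congr_fderiv ?_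
  have e : (fun σ => Real.exp (-M * σ) • fderiv ℝ (heat σ f) z) = fun σ =>
      (Real.exp (-M * σ) * heat σ (Dx f) z) • (Complex.reCLM : ℂ →L[ℝ] ℝ) +
      (Real.exp (-M * σ) * heat σ (Dy f) z) • (Complex.imCLM : ℂ →L[ℝ] ℝ) := by
    funext σ
    rw [LinearA_fderiv_heat hf, smul_add, smul_smul, smul_smul]
  rw [e, integral_add ((LinearA_integrable hM (LinearA_Dx hf) z).smul_const _)
    ((LinearA_integrable hM (LinearA_Dy hf) z).smul_const _), integral_smul_const, integral_smul_const]
  rfl

theorem LinearA_DxDy {M : ℝ} (hM : 0 < M) {f : ℂ → ℝ} (hf : BCinf f) :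
    Dx (LinearA_U M f) = LinearA_U M (Dx f) ∧ Dy (LinearA_U M f) = LinearA_U M (Dy f) := by
  constructor
  · funext z
    change fderiv ℝ (LinearA_U M f) z 1 = _
    rw [(LinearA_hasFDerivAt hM hf z).fderiv]
    simp
  · funext z
    change fderiv ℝ (LinearA_U M f) z Complex.I = _
    rw [(LinearA_hasFDerivAt hM hf z).fderiv]
    simp

theorem LinearA_contDiff {M : ℝ} (hM : 0 < M) (n : ℕ) :
    ∀ f : ℂ → ℝ, BCinf f → ContDiff ℝ n (LinearA_U M f) := by
  induction n with
  | zero =>
    intro f hf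
    rw [Nat.cast_zero, contDiff_zero]
    exact continuous_iff_continuousAt.2 fun z => (LinearA_hasFDerivAt hM hf z).continuousAt
  | succ n ih =>
    intro f hf
    rw [Nat.cast_succ, contDiff_succ_iff_fderiv]
    refine ⟨fun z => (LinearA_hasFDerivAt hM hf z).differentiableAt, by simp, ?_⟩
    have e : fderiv ℝ (LinearA_U M f) = fun z =>
        LinearA_U M (Dx f) z • (Complex.reCLM : ℂ →L[ℝ] ℝ) + LinearA_U M (Dy f) z • (Complex.imCLM : ℂ →L[ℝ] ℝ) := by
      funext z
      exact (LinearA_hasFDerivAt hM hf z).fderiv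
    rw [e]
    exact ((ih _ (LinearA_Dx hf)).smul contDiff_const).add ((ih _ (LinearA_Dy hf)).smul contDiff_const)

theorem LinearA_heat_integrable {f : ℂ → ℝ} (hf : BCinf f) (σ : ℝ) (z : ℂ) :
    Integrable (fun y : ℂ => f (z + (Real.sqrt σ : ℂ) * y) * gam y) := by
  obtain ⟨B, hB⟩ := LinearA_bound hf
  have h0 : Integrable (fun y : ℂ => gam y) := by
    have h := integrable_gam_mul 0
    simpa using h
  have hc : Continuous f := hf.1.continuous
  refine h0.bdd_mul (c := B) ?_ ?_
  · exact (hc.comp (by fun_prop)).aestronglyMeasurable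
  · exact Filter.Eventually.of_forall fun y => hB _

theorem LinearA_heat_lap {f : ℂ → ℝ} (hf : BCinf f) (σ : ℝ) (z : ℂ) :
    heat σ (Lap f) z = heat σ (Dx (Dx f)) z + heat σ (Dy (Dy f)) z := by
  unfold heat
  rw [← integral_add (LinearA_heat_integrable (LinearA_Dx (LinearA_Dx hf)) σ z)
    (LinearA_heat_integrable (LinearA_Dy (LinearA_Dy hf)) σ z)]
  refine integral_congr_ae (Filter.Eventually.of_forall fun y => ?_)
  simp only [Lap]
  ring

theorem LinearA_lap {M : ℝ} (hM : 0 < M) {f : ℂ → ℝ} (hf : BCinf f) (z : ℂ) :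
    Lap (LinearA_U M f) z - M * LinearA_U M f z = - f z := by
  have hxx := LinearA_Dx (LinearA_Dx hf)
  have hyy := LinearA_Dy (LinearA_Dy hf)
  have ixx := LinearA_integrable hM hxx z
  have iyy := LinearA_integrable hM hyy z
  have i0 := LinearA_integrable hM hf z
  have e1 : Lap (LinearA_U M f) z = ∫ σ in Ioi (0 : ℝ), Real.exp (-M * σ) * heat σ (Lap f) z := by
    unfold Lap
    rw [(LinearA_DxDy hM hf).1, (LinearA_DxDy hM hf).2, (LinearA_DxDy hM (LinearA_Dx hf)).1,
      (LinearA_DxDy hM (LinearA_Dy hf)).2]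
    unfold LinearA_U
    rw [← integral_add ixx iyy]
    refine integral_congr_ae (Filter.Eventually.of_forall fun σ => ?_)
    have h := LinearA_heat_lap hf σ z
    unfold Lap at h
    simp only
    rw [h]
    ring
  have iL : IntegrableOn (fun σ => Real.exp (-M * σ) * heat σ (Lap f) z) (Ioi 0) := by
    refine (ixx.add iyy).congr (Filter.Eventually.of_forall fun σ => ?_)
    simp only [Pi.add_apply]
    rw [LinearA_heat_lap hf]
    ring
  obtain ⟨B, hB⟩ := LinearA_bound hf
  have hexp : ∀ σ : ℝ, HasDerivAt (fun σ : ℝ => Real.exp (-M * σ)) (Real.exp (-M * σ) * (-M)) σ := by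
    intro σ
    have h := ((hasDerivAt_id σ).const_mul (-M)).exp
    simpa using h
  have key := integral_Ioi_of_hasDerivAt_of_tendsto (a := (0 : ℝ)) (m := (0 : ℝ))
    (f := fun σ => Real.exp (-M * σ) * heat σ f z)
    (f' := fun σ => Real.exp (-M * σ) * (-M) * heat σ f z + Real.exp (-M * σ) * heat σ (Lap f) z)
    (by
      refine ContinuousWithinAt.mul (by fun_prop) ?_
      exact (continuousOn_heat hf z) 0 (by simp))
    (fun σ hσ => (hexp σ).mul (hasDerivAt_heat hf hσ z))
    (by
      refine Integrable.add ?_ iL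
      refine (i0.const_mul (-M)).congr (Filter.Eventually.of_forall fun σ => ?_)
      simp only
      ring)
    (by
      have hg : Tendsto (fun σ : ℝ => Real.exp (-M * σ) * B) atTop (𝓝 0) := by
        have h1 : Tendsto (fun σ : ℝ => Real.exp (-M * σ)) atTop (𝓝 0) := by
          refine Real.tendsto_exp_atBot.comp ?_
          exact tendsto_id.const_mul_atTop_of_neg (by linarith)
        simpa using h1.mul_const B
      refine squeeze_zero_norm (fun σ => ?_) hg
      rw [Real.norm_eq_abs, abs_mul, abs_of_pos (Real.exp_pos _)]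
      exact mul_le_mul_of_nonneg_left (heat_abs_le hB σ z) (Real.exp_pos _).le)
  rw [integral_add ((i0.const_mul (-M)).congr (Filter.Eventually.of_forall fun σ => by
    simp only
    ring)) iL, ← e1] at key
  have e2 : (∫ σ in Ioi (0 : ℝ), Real.exp (-M * σ) * (-M) * heat σ f z) = -M * LinearA_U M f z := by
    unfold LinearA_U
    rw [← integral_const_mul]
    refine integral_congr_ae (Filter.Eventually.of_forall fun σ => ?_)
    simp only
    ring
  rw [e2] at key
  simp only [mul_zero, Real.exp_zero, one_mul, heat_zero hf.1.continuous] at key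
  linarith

/-- The resolvent: `Δ v - M v = g` has a smooth periodic solution for `M > 0`.
Proof: `v z = - ∫_0^∞ e^{-M σ} heat σ g z dσ`. All derivatives may be taken under the integral
(`DD_heat`, `heat_abs_le`), so `v` is smooth and periodic, `DD l v = - ∫ e^{-Mσ} heat σ (DD l g)`,
and `Δ v = - ∫ e^{-Mσ} d/dσ (heat σ g) dσ = g + M v` by integration by parts
(`hasDerivAt_heat`, `continuousOn_heat`, `heat_zero`). -/
theorem resolvent {a : ℝ} (ha : |a| < 1) {M : ℝ} (hM : 0 < M) {g : ℂ → ℝ}
    (hg : ContDiff ℝ ∞ g) (hp : Per a g) :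
    ∃ v : ℂ → ℝ, ContDiff ℝ ∞ v ∧ Per a v ∧ ∀ z, Lap v z - M * v z = g z := by
  have hb : BCinf g := per_BCinf ha hp hg
  have hs : ContDiff ℝ ∞ (LinearA_U M g) := contDiff_infty.2 fun n => LinearA_contDiff hM n g hb
  refine ⟨fun z => - LinearA_U M g z, hs.neg, ?_, fun z => ?_⟩
  · intro z v hv
    simp only [LinearA_U, heat_per hp _ z v hv]
  · have h1 := LinearA_lap hM hb z
    have e : Lap (fun z => - LinearA_U M g z) z = - Lap (LinearA_U M g) z := by
      have e1 : (Dx fun z => - LinearA_U M g z) = fun z => - Dx (LinearA_U M g) z := by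
        funext y
        unfold Dx
        rw [fderiv_fun_neg]
        rfl
      have e2 : (Dy fun z => - LinearA_U M g z) = fun z => - Dy (LinearA_U M g) z := by
        funext y
        unfold Dy
        rw [fderiv_fun_neg]
        rfl
      unfold Lap
      rw [e1, e2]
      unfold Dx Dy
      rw [fderiv_fun_neg, fderiv_fun_neg, _root_.neg_apply, _root_.neg_apply]
      ring
    rw [e]
    linarith

end Pool.Agent.KK
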