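import Pool.Agent.W_bb4b37_h53.CalcB
import Pool.Agent.W_bb4b37_h53.CalcE
import Pool.Agent.W_bb4b37_h53.HeatB
import Pool.Agent.W_bb4b37_h53.HeatC

/-!
# Global Schauder estimates for the Laplacian on the plane, by the heat semigroup (part A)
-/

set_option autoImplicit false

open Filter Topology Set MeasureTheory Metric
open scoped ContDiff

namespace Pool.Agent.KK

theorem SchauderA_comm {f : ℂ → ℝ} (hf : ContDiff ℝ ∞ f) : Dx (Dy f) = Dy (Dx f) := by
  funext z
  apply Dx_Dy_comm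
  exact (contDiff_infty.mp hf 2).contDiffAt

theorem SchauderA_smooth_Dx {f : ℂ → ℝ} (hf : ContDiff ℝ ∞ f) : ContDiff ℝ ∞ (Dx f) :=
  contDiff_DD hf [true]

theorem SchauderA_smooth_Dy {f : ℂ → ℝ} (hf : ContDiff ℝ ∞ f) : ContDiff ℝ ∞ (Dy f) :=
  contDiff_DD hf [false]

theorem SchauderA_diff {f : ℂ → ℝ} (hf : ContDiff ℝ ∞ f) (z : ℂ) : DifferentiableAt ℝ f z :=
  (hf.differentiable (by simp)) z

theorem SchauderA_Lap_Dx {f : ℂ → ℝ} (hf : ContDiff ℝ ∞ f) : Lap (Dx f) = Dx (Lap f) := by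
  have h1 := SchauderA_smooth_Dx hf
  have h2 := SchauderA_smooth_Dy hf
  funext z
  have e1 : Dx (Lap f) z = Dx (Dx (Dx f)) z + Dx (Dy (Dy f)) z :=
    Dx_add (SchauderA_diff (SchauderA_smooth_Dx h1) z) (SchauderA_diff (SchauderA_smooth_Dy h2) z)
  rw [e1, SchauderA_comm h2, SchauderA_comm hf]
  rfl

theorem SchauderA_Lap_Dy {f : ℂ → ℝ} (hf : ContDiff ℝ ∞ f) : Lap (Dy f) = Dy (Lap f) := by
  have h1 := SchauderA_smooth_Dx hf
  have h2 := SchauderA_smooth_Dy hf
  funext z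
  have e1 : Dy (Lap f) z = Dy (Dx (Dx f)) z + Dy (Dy (Dy f)) z :=
    Dy_add (SchauderA_diff (SchauderA_smooth_Dx h1) z) (SchauderA_diff (SchauderA_smooth_Dy h2) z)
  rw [e1, ← SchauderA_comm h1, ← SchauderA_comm hf]
  rfl

theorem SchauderA_Lap_smooth {f : ℂ → ℝ} (hf : ContDiff ℝ ∞ f) : ContDiff ℝ ∞ (Lap f) :=
  ContDiff.add (SchauderA_smooth_Dx (SchauderA_smooth_Dx hf))
    (SchauderA_smooth_Dy (SchauderA_smooth_Dy hf))

theorem SchauderA_Lap_DD {f : ℂ → ℝ} (hf : ContDiff ℝ ∞ f) (l : List Bool) :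
    Lap (DD l f) = DD l (Lap f) := by
  induction l with
  | nil => rfl
  | cons b l ih =>
    cases b with
    | true =>
      rw [DD_true, DD_true, SchauderA_Lap_Dx (contDiff_DD hf l), ih]
    | false =>
      rw [DD_false, DD_false, SchauderA_Lap_Dy (contDiff_DD hf l), ih]

theorem SchauderA_Lap_bcinf {f : ℂ → ℝ} (hf : BCinf f) : BCinf (Lap f) := by
  rw [BCinf_iff]
  refine ⟨SchauderA_Lap_smooth hf.1, ?_⟩
  intro l
  obtain ⟨B1, hB1⟩ := (BCinf_iff.mp hf).2 (true :: true :: l)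
  obtain ⟨B2, hB2⟩ := (BCinf_iff.mp hf).2 (false :: false :: l)
  refine ⟨B1 + B2, ?_⟩
  intro z
  rw [← SchauderA_Lap_DD hf.1 l]
  exact (norm_add_le _ _).trans (add_le_add (hB1 z) (hB2 z))

/-- The derivative in time of a space derivative of the heat semigroup. -/
theorem SchauderA_deriv {u : ℂ → ℝ} (hu : BCinf u) (l : List Bool) {σ : ℝ} (hσ : 0 < σ) (z : ℂ) :
    HasDerivAt (fun t => DD l (heat t u) z) (DD l (heat σ (Lap u)) z) σ := by
  have h1 := hasDerivAt_heat (bcinf_DD hu l) hσ z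
  rw [SchauderA_Lap_DD hu.1 l, ← DD_heat (SchauderA_Lap_bcinf hu)] at h1
  have h2 : (fun t => DD l (heat t u) z) = fun t => heat t (DD l u) z := by
    funext t
    exact DD_heat hu t l z
  rw [h2]
  exact h1

/-- The distance of the gradient from the gradient of the heat semigroup. -/
theorem SchauderA_near {C : ℝ}
    (hC : ∀ (f : ℂ → ℝ) (M σ : ℝ), BCinf f → (∀ z, |f z| ≤ M) →
      0 < σ → ∀ z, ∀ l : List Bool, l.length = 1 → |DD l (heat σ f) z| ≤ C * M / Real.sqrt σ)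
    {u : ℂ → ℝ} {N t : ℝ} (hu : BCinf u) (hN : ∀ z, |Lap u z| ≤ N) (ht : 0 < t) (z : ℂ)
    {l : List Bool} (hl : l.length = 1) :
    |DD l (heat (t ^ 2) u) z - DD l u z| ≤ 2 * C * N * t := by
  let G : ℝ → ℝ := fun s => DD l (heat (s ^ 2) u) z
  have hG0 : G 0 = DD l u z := by
    show DD l (heat (0 ^ 2) u) z = DD l u z
    rw [DD_heat hu]
    have h0 : (0 : ℝ) ^ 2 = 0 := by norm_num
    rw [h0]
    exact heat_zero (bcinf_DD hu l).1.continuous z
  have hcont : ContinuousOn G (Icc 0 t) := by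
    have h1 := continuousOn_heat (bcinf_DD hu l) z
    have h2 : G = fun s => (fun t => heat t (DD l u) z) (s ^ 2) := by
      funext s
      exact DD_heat hu _ l z
    rw [h2]
    refine h1.comp (continuous_pow 2).continuousOn ?_
    intro s _
    exact sq_nonneg s
  have hder : ∀ x ∈ Ioo 0 t, HasDerivAt G (DD l (heat (x ^ 2) (Lap u)) z * (2 * x)) x := by
    intro x hx
    have h1 := SchauderA_deriv hu l (pow_pos hx.1 2) z
    have h2 : HasDerivAt (fun s : ℝ => s ^ 2) (2 * x) x := by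
      simpa using hasDerivAt_pow 2 x
    exact HasDerivAt.comp (h₂ := fun t => DD l (heat t u) z) (h := fun s : ℝ => s ^ 2) x h1 h2
  obtain ⟨c, hc, hslope⟩ := exists_hasDerivAt_eq_slope G _ ht hcont hder
  have h3 : G t - G 0 = DD l (heat (c ^ 2) (Lap u)) z * (2 * c) * t := by
    rw [hslope, sub_zero]
    field_simp
  have h4 : |DD l (heat (c ^ 2) (Lap u)) z| ≤ C * N / c := by
    have := hC (Lap u) N (c ^ 2) (SchauderA_Lap_bcinf hu) hN (pow_pos hc.1 2) z l hl
    rwa [Real.sqrt_sq hc.1.le] at this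
  have h5 : |G t - G 0| ≤ 2 * C * N * t := by
    rw [h3, abs_mul, abs_mul, abs_of_pos ht, abs_of_pos (by have := hc.1; linarith : 0 < 2 * c)]
    apply mul_le_mul_of_nonneg_right _ ht.le
    calc |DD l (heat (c ^ 2) (Lap u)) z| * (2 * c) ≤ C * N / c * (2 * c) :=
          mul_le_mul_of_nonneg_right h4 (by have := hc.1; linarith)
      _ = 2 * C * N := by
          have := hc.1.ne'
          field_simp
  rw [hG0] at h5
  exact h5

/-- Landau type inequality for the Laplacian: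
`|∇u| ≤ C (sup |u| / t + t sup |Δu|)` for all `t > 0`.
Proof: `∇u = ∇ heat (t²) u - ∫_0^{t²} ∇ heat τ (Δu) dτ`; use `heat_grad` and
`∫_0^{t²} τ^{-1/2} dτ = 2 t`. -/
theorem landau_lap : ∃ C : ℝ, 0 < C ∧ ∀ (u : ℂ → ℝ) (M N t : ℝ), BCinf u →
    (∀ z, |u z| ≤ M) → (∀ z, |Lap u z| ≤ N) → 0 < t → ∀ z, ∀ l : List Bool, l.length = 1 →
      |DD l u z| ≤ C * (M / t + t * N) := by
  obtain ⟨C, hC0, hC⟩ := heat_grad
  refine ⟨2 * C, by linarith, ?_⟩
  intro u M N t hu hM hN ht z l hl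
  have hM0 : 0 ≤ M := (abs_nonneg _).trans (hM 0)
  have h1 := SchauderA_near hC hu hN ht z hl
  have h2 : |DD l (heat (t ^ 2) u) z| ≤ C * M / t := by
    have := hC u M (t ^ 2) hu hM (pow_pos ht 2) z l hl
    rwa [Real.sqrt_sq ht.le] at this
  have h3 : |DD l u z| ≤ |DD l (heat (t ^ 2) u) z| + |DD l (heat (t ^ 2) u) z - DD l u z| := by
    have := abs_sub_abs_le_abs_sub (DD l u z) (DD l (heat (t ^ 2) u) z)
    rw [abs_sub_comm] at this
    linarith
  have h4 : C * M / t ≤ 2 * C * (M / t) := by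
    have : 0 ≤ C * M / t := by positivity
    calc C * M / t ≤ C * M / t + C * M / t := by linarith
      _ = 2 * C * (M / t) := by ring
  calc |DD l u z| ≤ C * M / t + 2 * C * N * t := by linarith
    _ ≤ 2 * C * (M / t) + 2 * C * N * t := by linarith
    _ = 2 * C * (M / t + t * N) := by ring

/-- The second derivatives of the heat semigroup at time `r ^ (-4)`, `r ≥ 1`. -/
theorem SchauderA_second {C : ℝ}
    (hC : ∀ (f : ℂ → ℝ) (M σ : ℝ), BCinf f → (∀ z, |f z| ≤ M) →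
      0 < σ → ∀ z, ∀ l : List Bool, l.length ≤ 3 →
        |DD l (heat σ f) z| ≤ C * M / Real.sqrt σ ^ l.length)
    {u : ℂ → ℝ} {M r : ℝ} (hCM : 0 ≤ C * M) (hu : BCinf u) (hM : ∀ z, |u z| ≤ M)
    (hN : ∀ z, |Lap u z| ≤ M) (hr : 1 ≤ r) (z : ℂ) {l : List Bool} (hl : l.length = 2) :
    |DD l (heat ((r ^ 4)⁻¹) u) z| ≤ 4 * (C * M) * r := by
  let H : ℝ → ℝ := fun s => DD l (heat ((s ^ 4)⁻¹) u) z
  have h1 : |H 1| ≤ C * M := by
    have := hC u M 1 hu hM one_pos z l (by omega)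
    rw [Real.sqrt_one, one_pow, div_one] at this
    show |DD l (heat ((1 ^ 4)⁻¹) u) z| ≤ C * M
    rw [one_pow, inv_one]
    exact this
  have hder : ∀ x, 1 ≤ x → HasDerivAt H
      (DD l (heat ((x ^ 4)⁻¹) (Lap u)) z * (-(4 * x ^ 3) / (x ^ 4) ^ 2)) x := by
    intro x hx
    have hx0 : 0 < x := by linarith
    have e1 := SchauderA_deriv hu l (inv_pos.mpr (pow_pos hx0 4)) z
    have e2 : HasDerivAt (fun s : ℝ => s ^ 4) (4 * x ^ 3) x := by
      simpa using hasDerivAt_pow 4 x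
    have e3 : HasDerivAt (fun s : ℝ => (s ^ 4)⁻¹) (-(4 * x ^ 3) / (x ^ 4) ^ 2) x :=
      e2.fun_inv (pow_pos hx0 4).ne'
    exact e1.comp x e3
  have hbd : ∀ x, 1 ≤ x →
      |DD l (heat ((x ^ 4)⁻¹) (Lap u)) z * (-(4 * x ^ 3) / (x ^ 4) ^ 2)| ≤ 4 * (C * M) := by
    intro x hx
    have hx0 : 0 < x := by linarith
    have e1 := hC (Lap u) M ((x ^ 4)⁻¹) (SchauderA_Lap_bcinf hu) hN
      (inv_pos.mpr (pow_pos hx0 4)) z l (by omega)
    have e2 : Real.sqrt ((x ^ 4)⁻¹) = (x ^ 2)⁻¹ := by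
      have : (x ^ 4)⁻¹ = ((x ^ 2)⁻¹) ^ 2 := by rw [inv_pow, ← pow_mul]
      rw [this, Real.sqrt_sq (by positivity)]
    rw [e2, hl] at e1
    have e3 : C * M / (x ^ 2)⁻¹ ^ 2 = C * M * x ^ 4 := by
      rw [inv_pow, ← pow_mul, div_inv_eq_mul]
    rw [e3] at e1
    have e4 : |(-(4 * x ^ 3) / (x ^ 4) ^ 2)| = 4 * x ^ 3 / (x ^ 4) ^ 2 := by
      rw [neg_div, abs_neg, abs_of_pos (by positivity)]
    rw [abs_mul, e4]
    calc |DD l (heat ((x ^ 4)⁻¹) (Lap u)) z| * (4 * x ^ 3 / (x ^ 4) ^ 2)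
        ≤ C * M * x ^ 4 * (4 * x ^ 3 / (x ^ 4) ^ 2) :=
          mul_le_mul_of_nonneg_right e1 (by positivity)
      _ = 4 * (C * M) * x⁻¹ := by field_simp
      _ ≤ 4 * (C * M) * 1 := by
          apply mul_le_mul_of_nonneg_left (inv_le_one_of_one_le₀ hx)
          linarith
      _ = 4 * (C * M) := by ring
  have h2 : |H r - H 1| ≤ 4 * (C * M) * (r - 1) := by
    rcases eq_or_lt_of_le hr with h | h
    · rw [← h]; simp
    · obtain ⟨c, hc, hslope⟩ := exists_hasDerivAt_eq_slope H _ h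
        (fun x hx => (hder x hx.1).continuousAt.continuousWithinAt)
        (fun x hx => hder x hx.1.le)
      have e1 : H r - H 1 = DD l (heat ((c ^ 4)⁻¹) (Lap u)) z * (-(4 * c ^ 3) / (c ^ 4) ^ 2) *
          (r - 1) := by
        rw [hslope]
        have : r - 1 ≠ 0 := by linarith
        field_simp
      rw [e1, abs_mul, abs_of_pos (by linarith : 0 < r - 1)]
      exact mul_le_mul_of_nonneg_right (hbd c hc.1.le) (by linarith)
  have h3 : |H r| ≤ |H 1| + |H r - H 1| := by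
    have := abs_sub_abs_le_abs_sub (H r) (H 1)
    linarith
  show |H r| ≤ 4 * (C * M) * r
  nlinarith [h1, h2, h3, hCM]

/-- If `|u| ≤ M` and `|Δu| ≤ M` then the gradient is bounded by `C M` and Hölder continuous with
exponent `1/2`. Proof: the bound is `landau_lap` with `t = 1`. For the Hölder bound it suffices to
treat `‖z - z'‖ ≤ 1`; put `σ = ‖z - z'‖²`. Then
`|∇u - ∇ heat σ u| ≤ ∫_0^σ |∇ heat τ (Δu)| dτ ≤ C M √σ`,
`|D² heat σ u| ≤ |D² heat 1 u| + ∫_σ^1 |D² heat τ (Δu)| dτ ≤ C M (1 + log (1/σ))`, so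
`|∇u z - ∇u z'| ≤ C M ‖z - z'‖ (1 + log (1/σ)) ≤ C M √‖z - z'‖`. -/
theorem grad_holder : ∃ C : ℝ, 0 < C ∧ ∀ (u : ℂ → ℝ) (M : ℝ), BCinf u →
    (∀ z, |u z| ≤ M) → (∀ z, |Lap u z| ≤ M) → ∀ l : List Bool, l.length = 1 →
      (∀ z, |DD l u z| ≤ C * M) ∧
      ∀ z z', |DD l u z - DD l u z'| ≤ C * M * Real.sqrt ‖z - z'‖ := by
  obtain ⟨C1, hC10, hC1⟩ := landau_lap
  obtain ⟨C2, hC20, hC2⟩ := heat_grad
  obtain ⟨C3, hC30, hC3⟩ := heat_deriv
  refine ⟨4 * C1 + 4 * C2 + 8 * C3, by positivity, ?_⟩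
  intro u M hu hM hN l hl
  have hM0 : 0 ≤ M := (abs_nonneg _).trans (hM 0)
  have hbd : ∀ z, |DD l u z| ≤ 2 * C1 * M := by
    intro z
    have := hC1 u M M 1 hu hM hN one_pos z l hl
    calc |DD l u z| ≤ C1 * (M / 1 + 1 * M) := this
      _ = 2 * C1 * M := by ring
  refine ⟨?_, ?_⟩
  · intro z
    refine (hbd z).trans ?_
    apply mul_le_mul_of_nonneg_right _ hM0
    linarith
  · intro z z'
    rcases eq_or_ne z z' with h | h
    · rw [h]; simp
    have hd : 0 < ‖z - z'‖ := norm_pos_iff.mpr (sub_ne_zero.mpr h)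
    set d := ‖z - z'‖ with hdd
    by_cases hd1 : 1 < d
    · have h1 : |DD l u z - DD l u z'| ≤ 2 * C1 * M + 2 * C1 * M :=
        (abs_sub _ _).trans (add_le_add (hbd z) (hbd z'))
      have h2 : 1 ≤ Real.sqrt d := by
        rw [Real.one_le_sqrt]; exact hd1.le
      calc |DD l u z - DD l u z'| ≤ 4 * C1 * M * 1 := by linarith
        _ ≤ (4 * C1 + 4 * C2 + 8 * C3) * M * Real.sqrt d := by
          apply mul_le_mul _ h2 zero_le_one (by positivity)
          apply mul_le_mul_of_nonneg_right _ hM0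
          linarith
    · push Not at hd1
      have hs : 0 < Real.sqrt d := Real.sqrt_pos.mpr hd
      have hsd : Real.sqrt d ^ 2 = d := Real.sq_sqrt hd.le
      have hs1 : Real.sqrt d ≤ 1 := by
        rw [Real.sqrt_le_one]; exact hd1
      set r := (Real.sqrt d)⁻¹ with hr
      have hr1 : 1 ≤ r := by
        rw [hr]; exact (one_le_inv₀ hs).mpr hs1
      have hr4 : (r ^ 4)⁻¹ = d ^ 2 := by
        rw [hr, inv_pow, inv_inv]
        calc Real.sqrt d ^ 4 = (Real.sqrt d ^ 2) ^ 2 := by ring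
          _ = d ^ 2 := by rw [hsd]
      have h1 := SchauderA_near hC2 hu hN hd z hl
      have h2 := SchauderA_near hC2 hu hN hd z' hl
      have hheat := bcinf_DD (heat_bcinf hu (d ^ 2)) l
      have h3 : |DD l (heat (d ^ 2) u) z - DD l (heat (d ^ 2) u) z'| ≤
          2 * (4 * (C3 * M) * r) * d := by
        have h4 := mean_value_univ (f := DD l (heat (d ^ 2) u)) (K := 4 * (C3 * M) * r)
          (hheat.1.differentiable (by simp)) (by
            intro y l' hl'
            rw [← DD_append, Real.norm_eq_abs, ← hr4]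
            exact SchauderA_second hC3 (by positivity) hu hM hN hr1 y (by
              rw [List.length_append]; omega)) z z'
        exact h4
      have h5 : r * d = Real.sqrt d := by
        rw [hr]
        calc (Real.sqrt d)⁻¹ * d = (Real.sqrt d)⁻¹ * (Real.sqrt d ^ 2) := by rw [hsd]
          _ = Real.sqrt d := by field_simp
      have h6 : d ≤ Real.sqrt d := by
        calc d = Real.sqrt d ^ 2 := hsd.symm
          _ = Real.sqrt d * Real.sqrt d := by ring
          _ ≤ 1 * Real.sqrt d := mul_le_mul_of_nonneg_right hs1 hs.le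
          _ = Real.sqrt d := one_mul _
      have h7 : |DD l u z - DD l u z'| ≤ |DD l (heat (d ^ 2) u) z - DD l u z| +
          |DD l (heat (d ^ 2) u) z - DD l (heat (d ^ 2) u) z'| +
          |DD l (heat (d ^ 2) u) z' - DD l u z'| := by
        have e : DD l u z - DD l u z' = -(DD l (heat (d ^ 2) u) z - DD l u z) +
            (DD l (heat (d ^ 2) u) z - DD l (heat (d ^ 2) u) z') +
            (DD l (heat (d ^ 2) u) z' - DD l u z') := by ring
        rw [e]
        refine (abs_add_le _ _).trans ?_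
        refine add_le_add ((abs_add_le _ _).trans ?_) le_rfl
        rw [abs_neg]
      have h8 : 0 ≤ C1 * M * Real.sqrt d := by positivity
      have h9 : 2 * C2 * M * d ≤ 2 * C2 * M * Real.sqrt d :=
        mul_le_mul_of_nonneg_left h6 (by positivity)
      calc |DD l u z - DD l u z'| ≤ 2 * C2 * M * d + 2 * (4 * (C3 * M) * r) * d +
            2 * C2 * M * d := by linarith
        _ = 4 * C2 * M * d + 8 * C3 * M * (r * d) := by ring
        _ = 2 * (2 * C2 * M * d) + 8 * C3 * M * Real.sqrt d := by rw [h5]; ring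
        _ ≤ 2 * (2 * C2 * M * Real.sqrt d) + 8 * C3 * M * Real.sqrt d := by linarith
        _ ≤ (4 * C1 + 4 * C2 + 8 * C3) * M * Real.sqrt d := by nlinarith [h8]

end Pool.Agent.KK
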