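import Pool.Agent.W_bb4b37_h53.ConvA
import Pool.Agent.W_bb4b37_h53.LinearA
import Pool.Agent.W_bb4b37_h53.SchauderA

/-!
# The linear equation `Δ v - q v = f` for periodic smooth functions (part B)
-/

set_option autoImplicit false

open Filter Topology Set MeasureTheory Metric
open scoped ContDiff

namespace Pool.Agent.KK

theorem LinearB_diff {f : ℂ → ℝ} (hf : ContDiff ℝ ∞ f) (z : ℂ) : DifferentiableAt ℝ f z :=
  hf.contDiffAt.differentiableAt (by simp)

theorem LinearB_two {f : ℂ → ℝ} (hf : ContDiff ℝ ∞ f) : ContDiff ℝ 2 f :=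
  hf.of_le (WithTop.coe_le_coe.2 le_top)

theorem LinearB_DD_add {f g : ℂ → ℝ} (hf : ContDiff ℝ ∞ f) (hg : ContDiff ℝ ∞ g)
    (l : List Bool) : DD l (fun z => f z + g z) = fun z => DD l f z + DD l g z := by
  induction l with
  | nil => rfl
  | cons b l ih =>
    cases b
    · rw [DD_false, ih]
      funext z
      exact Dy_add (LinearB_diff (contDiff_DD hf l) z) (LinearB_diff (contDiff_DD hg l) z)
    · rw [DD_true, ih]
      funext z
      exact Dx_add (LinearB_diff (contDiff_DD hf l) z) (LinearB_diff (contDiff_DD hg l) z)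

theorem LinearB_DD_mul (c : ℝ) (f : ℂ → ℝ) (l : List Bool) :
    DD l (fun z => c * f z) = fun z => c * DD l f z := by
  induction l with
  | nil => rfl
  | cons b l ih =>
    cases b
    · rw [DD_false, ih]
      exact CalcA_Dy_smul c (DD l f)
    · rw [DD_true, ih]
      exact CalcA_Dx_smul c (DD l f)

theorem LinearB_DD_Dx {f : ℂ → ℝ} (hf : ContDiff ℝ ∞ f) (l : List Bool) :
    DD l (Dx f) = Dx (DD l f) := by
  induction l with
  | nil => rfl
  | cons b l ih =>
    cases b
    · rw [DD_false, ih]
      funext z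
      exact (Dx_Dy_comm (LinearB_two (contDiff_DD hf l)).contDiffAt).symm
    · rw [DD_true, ih]
      rfl

theorem LinearB_DD_Dy {f : ℂ → ℝ} (hf : ContDiff ℝ ∞ f) (l : List Bool) :
    DD l (Dy f) = Dy (DD l f) := by
  induction l with
  | nil => rfl
  | cons b l ih =>
    cases b
    · rw [DD_false, ih]
      rfl
    · rw [DD_true, ih]
      funext z
      exact Dx_Dy_comm (LinearB_two (contDiff_DD hf l)).contDiffAt

theorem LinearB_DD_Lap {f : ℂ → ℝ} (hf : ContDiff ℝ ∞ f) (l : List Bool) :
    DD l (Lap f) = Lap (DD l f) := by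
  have hx : ContDiff ℝ ∞ (Dx f) := contDiff_DD hf [true]
  have hy : ContDiff ℝ ∞ (Dy f) := contDiff_DD hf [false]
  have hxx : ContDiff ℝ ∞ (Dx (Dx f)) := contDiff_DD hf [true, true]
  have hyy : ContDiff ℝ ∞ (Dy (Dy f)) := contDiff_DD hf [false, false]
  have h1 : DD l (Lap f) = fun z => DD l (Dx (Dx f)) z + DD l (Dy (Dy f)) z :=
    LinearB_DD_add hxx hyy l
  rw [h1, LinearB_DD_Dx hx, LinearB_DD_Dx hf, LinearB_DD_Dy hy, LinearB_DD_Dy hf]
  rfl

/-- uniform bounds for the derivatives of order at most `n` of a sequence of functions -/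
def LinearB_UB (n : ℕ) (u : ℕ → ℂ → ℝ) : Prop :=
  ∀ l : List Bool, l.length ≤ n → ∃ B : ℝ, ∀ k z, |DD l (u k) z| ≤ B

theorem LinearB_UB_mul (n : ℕ) : ∀ (p : ℂ → ℝ) (u : ℕ → ℂ → ℝ), BCinf p →
    (∀ k, ContDiff ℝ ∞ (u k)) → LinearB_UB n u → LinearB_UB n (fun k z => p z * u k z) := by
  induction n with
  | zero =>
    intro p u hp _ hu l hl
    have hl0 : l = [] := List.length_eq_zero_iff.1 (Nat.le_zero.1 hl)
    subst hl0
    obtain ⟨B, hB⟩ := hu [] le_rfl
    obtain ⟨P, hP⟩ := (BCinf_iff.1 hp).2 []
    refine ⟨P * B, fun k z => ?_⟩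
    show |p z * u k z| ≤ P * B
    rw [abs_mul]
    exact mul_le_mul (hP z) (hB k z) (abs_nonneg _) ((abs_nonneg _).trans (hP z))
  | succ n ih =>
    intro p u hp hus hu l hl
    rcases List.eq_nil_or_concat' l with rfl | ⟨l', b, rfl⟩
    · obtain ⟨B, hB⟩ := hu [] (by simp)
      obtain ⟨P, hP⟩ := (BCinf_iff.1 hp).2 []
      refine ⟨P * B, fun k z => ?_⟩
      show |p z * u k z| ≤ P * B
      rw [abs_mul]
      exact mul_le_mul (hP z) (hB k z) (abs_nonneg _) ((abs_nonneg _).trans (hP z))
    · rw [List.length_append, List.length_singleton] at hl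
      have hl' : l'.length ≤ n := by omega
      have hps : ContDiff ℝ ∞ p := (BCinf_iff.1 hp).1
      have h1 := ih (DD [b] p) u (bcinf_DD hp [b]) hus (fun m hm => hu m (by omega)) l' hl'
      have h2 := ih p (fun k => DD [b] (u k)) hp (fun k => contDiff_DD (hus k) [b])
        (fun m hm => by
          obtain ⟨B, hB⟩ := hu (m ++ [b]) (by
            rw [List.length_append, List.length_singleton]; omega)
          refine ⟨B, fun k z => ?_⟩
          have := hB k z
          rwa [DD_append] at this) l' hl'
      obtain ⟨B1, hB1⟩ := h1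
      obtain ⟨B2, hB2⟩ := h2
      refine ⟨B1 + B2, fun k z => ?_⟩
      have hprod : DD [b] (fun z => p z * u k z) =
          fun z => DD [b] p z * u k z + p z * DD [b] (u k) z := by
        funext z
        cases b
        · exact Dy_mul (LinearB_diff hps z) (LinearB_diff (hus k) z)
        · exact Dx_mul (LinearB_diff hps z) (LinearB_diff (hus k) z)
      have hs1 : ContDiff ℝ ∞ (fun z => DD [b] p z * u k z) := (contDiff_DD hps [b]).mul (hus k)
      have hs2 : ContDiff ℝ ∞ (fun z => p z * DD [b] (u k) z) := hps.mul (contDiff_DD (hus k) [b])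
      show |DD (l' ++ [b]) (fun z => p z * u k z) z| ≤ B1 + B2
      rw [DD_append, hprod, LinearB_DD_add hs1 hs2]
      exact (abs_add_le _ _).trans (add_le_add (hB1 k z) (hB2 k z))

/-- Derivative bounds for the resolvent equation: if `Δ v - M v = g` with `|g| ≤ N` then
`|v| ≤ N / M` and `|∇v| ≤ C (M) N`. (`max_principle` and `landau_lap` or `grad_holder`; here the
constant depends on `M` only.) -/
theorem resolvent_grad {M : ℝ} (hM : 0 < M) : ∃ C : ℝ, 0 < C ∧ ∀ (a : ℝ), |a| < 1 →
    ∀ (v g : ℂ → ℝ) (N : ℝ), ContDiff ℝ ∞ v → Per a v → (∀ z, Lap v z - M * v z = g z) →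
    (∀ z, |g z| ≤ N) → ∀ z, |v z| ≤ N / M ∧ ∀ l : List Bool, l.length = 1 →
      |DD l v z| ≤ C * N := by
  obtain ⟨C, hC, hL⟩ := landau_lap
  refine ⟨C * (1 / M + 2), by positivity, ?_⟩
  intro a ha v g N hv hp heq hg z
  have h1 : ∀ z, |v z| ≤ N / M := by
    refine max_principle ha (q := fun _ => M) (f := g) (LinearB_two hv) hp (fun _ => hM) ?_ heq
    intro z
    rw [div_mul_cancel₀ _ hM.ne']
    exact hg z
  refine ⟨h1 z, fun l hl => ?_⟩
  have h2 : ∀ z, |Lap v z| ≤ 2 * N := by
    intro z
    have e1 : Lap v z = g z + M * v z := by linarith [heq z]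
    rw [e1]
    refine (abs_add_le _ _).trans ?_
    rw [abs_mul, abs_of_pos hM]
    have h3 := h1 z
    rw [le_div_iff₀ hM] at h3
    linarith [hg z]
  have h4 := hL v (N / M) (2 * N) 1 (per_BCinf ha hp hv) h1 h2 one_pos z l hl
  calc |DD l v z| ≤ C * (N / M / 1 + 1 * (2 * N)) := h4
    _ = C * (1 / M + 2) * N := by ring

/-- The linear equation with variable `q ≥ q₀ > 0`. Proof: let `M` be an upper bound of `q`
(`per_bounded`), and iterate: `v_0 = 0`, `Δ v_{k+1} - M v_{k+1} = f + (q - M) v_k` (`resolvent`).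
The differences `e_k = v_{k+1} - v_k` satisfy `Δ e_k - M e_k = (q - M) e_{k-1}`, so
`sup |e_k| ≤ (1 - q₀ / M) sup |e_{k-1}|` (`max_principle`). Derivatives: by `resolvent_grad` applied
to `DD l e_k`, whose equation has the right side `DD l ((q - M) e_{k-1})`, one gets by induction
on `|l|` that `sup |DD l e_k|` is bounded by `C_l θ^k` with some `θ < 1` (a derivative of order
`n + 1` of `e_k` is bounded by derivatives of order `≤ n` of `(q - M) e_{k-1}`). Hence all
derivatives of `v_k` converge uniformly; use `conv_smooth`. -/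
theorem linear_solver {a : ℝ} (ha : |a| < 1) {q f : ℂ → ℝ} {q₀ : ℝ} (hq₀ : 0 < q₀)
    (hq : ContDiff ℝ ∞ q) (hqp : Per a q) (hqq : ∀ z, q₀ ≤ q z)
    (hf : ContDiff ℝ ∞ f) (hfp : Per a f) :
    ∃ v : ℂ → ℝ, ContDiff ℝ ∞ v ∧ Per a v ∧ ∀ z, Lap v z - q z * v z = f z := by
  obtain ⟨M, hqM⟩ := per_bounded ha hqp hq.continuous
  obtain ⟨F, hF⟩ := per_bounded ha hfp hf.continuous
  have hqM' : ∀ z, q z ≤ M := fun z => (le_abs_self _).trans (hqM z)
  have hMq : q₀ ≤ M := (hqq 0).trans (hqM' 0)
  have hM : 0 < M := hq₀.trans_le hMq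
  have hF0 : 0 ≤ F := (norm_nonneg _).trans (hF 0)
  have hF' : ∀ z, |f z| ≤ F := hF
  -- the operator
  let X : Type := {v : ℂ → ℝ // ContDiff ℝ ∞ v ∧ Per a v}
  have hstep : ∀ v : X, ∃ u : X, ∀ z, Lap u.1 z - M * u.1 z = f z + (q z - M) * v.1 z := by
    rintro ⟨v, hv, hvp⟩
    have hg : ContDiff ℝ ∞ (fun z => f z + (q z - M) * v z) :=
      hf.add ((hq.sub contDiff_const).mul hv)
    have hgp : Per a (fun z => f z + (q z - M) * v z) := by
      intro z w hw
      show f (z + w) + (q (z + w) - M) * v (z + w) = f z + (q z - M) * v z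
      rw [hfp z w hw, hqp z w hw, hvp z w hw]
    obtain ⟨u, h1, h2, h3⟩ := resolvent ha hM hg hgp
    exact ⟨⟨u, h1, h2⟩, h3⟩
  choose R hR using hstep
  have hzero : ContDiff ℝ ∞ (fun _ : ℂ => (0 : ℝ)) ∧ Per a (fun _ : ℂ => (0 : ℝ)) :=
    ⟨contDiff_const, fun _ _ _ => rfl⟩
  let V : ℕ → X := fun n => Nat.rec ⟨fun _ => 0, hzero⟩ (fun _ v => R v) n
  let v : ℕ → ℂ → ℝ := fun n => (V n).1
  have hvs : ∀ n, ContDiff ℝ ∞ (v n) := fun n => (V n).2.1
  have hvp : ∀ n, Per a (v n) := fun n => (V n).2.2
  have hv0 : v 0 = fun _ => 0 := rfl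
  have hveq : ∀ n z, Lap (v (n + 1)) z - M * v (n + 1) z = f z + (q z - M) * v n z :=
    fun n z => hR (V n) z
  have hqMabs : ∀ z, |q z - M| ≤ M - q₀ := by
    intro z
    rw [abs_of_nonpos (by linarith [hqM' z])]
    linarith [hqq z]
  have hMq0 : 0 ≤ M - q₀ := by linarith
  -- the uniform bound
  have hb0 : ∀ n z, |v n z| ≤ F / q₀ := by
    intro n
    induction n with
    | zero =>
      intro z
      rw [hv0, abs_zero]
      positivity
    | succ n ih =>
      refine max_principle ha (q := fun _ => M) (f := fun z => f z + (q z - M) * v n z)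
        (LinearB_two (hvs (n + 1))) (hvp (n + 1)) (fun _ => hM) ?_ (hveq n)
      intro z
      have h1 : |(q z - M) * v n z| ≤ (M - q₀) * (F / q₀) := by
        rw [abs_mul]
        exact mul_le_mul (hqMabs z) (ih z) (abs_nonneg _) hMq0
      have h2 : F + (M - q₀) * (F / q₀) = F / q₀ * M := by
        field_simp
        ring
      calc |f z + (q z - M) * v n z| ≤ |f z| + |(q z - M) * v n z| := abs_add_le _ _
        _ ≤ F + (M - q₀) * (F / q₀) := add_le_add (hF' z) h1
        _ = F / q₀ * M := h2
  -- bounds for the derivatives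
  have hbd : ∀ n, LinearB_UB n v := by
    obtain ⟨C, hC, hres⟩ := resolvent_grad hM
    intro n
    induction n with
    | zero =>
      intro l hl
      have hl0 : l = [] := List.length_eq_zero_iff.1 (Nat.le_zero.1 hl)
      subst hl0
      exact ⟨F / q₀, hb0⟩
    | succ n ih =>
      intro l hl
      cases l with
      | nil => exact ⟨F / q₀, hb0⟩
      | cons b l =>
        have hl' : l.length ≤ n := by
          rw [List.length_cons] at hl
          omega
        have hqs : ContDiff ℝ ∞ (fun z => q z - M) := hq.sub contDiff_const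
        have hqB : BCinf (fun z => q z - M) := by
          refine per_BCinf ha ?_ hqs
          intro z w hw
          show q (z + w) - M = q z - M
          rw [hqp z w hw]
        obtain ⟨B1, hB1⟩ := LinearB_UB_mul n (fun z => q z - M) v hqB hvs ih l hl'
        obtain ⟨B2, hB2⟩ := (BCinf_iff.1 (per_BCinf ha hfp hf)).2 l
        have hB20 : 0 ≤ B2 := (norm_nonneg _).trans (hB2 0)
        have hB10 : 0 ≤ B1 := (abs_nonneg _).trans (hB1 0 0)
        refine ⟨C * (B2 + B1), fun k z => ?_⟩
        cases k with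
        | zero =>
          have h1 : DD (b :: l) (v 0) = fun _ => 0 := by
            have h2 : v 0 = fun z => (0 : ℝ) * (fun _ : ℂ => (0 : ℝ)) z := by
              rw [hv0]
              funext z
              exact (mul_zero _).symm
            rw [h2, LinearB_DD_mul]
            funext z
            exact zero_mul _
          rw [h1, abs_zero]
          positivity
        | succ k =>
          have hw : ContDiff ℝ ∞ (DD l (v (k + 1))) := contDiff_DD (hvs (k + 1)) l
          have heq : ∀ z, Lap (DD l (v (k + 1))) z - M * DD l (v (k + 1)) z =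
              DD l (fun z => f z + (q z - M) * v k z) z := by
            intro z
            have h1 : (fun z => f z + (q z - M) * v k z) =
                fun z => Lap (v (k + 1)) z + (-M) * v (k + 1) z := by
              funext z
              rw [← hveq k z]
              ring
            have hlap : ContDiff ℝ ∞ (Lap (v (k + 1))) := by
              have hxx : ContDiff ℝ ∞ (Dx (Dx (v (k + 1)))) :=
                contDiff_DD (hvs (k + 1)) [true, true]
              have hyy : ContDiff ℝ ∞ (Dy (Dy (v (k + 1)))) :=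
                contDiff_DD (hvs (k + 1)) [false, false]
              exact hxx.add hyy
            rw [h1, LinearB_DD_add hlap (contDiff_const.mul (hvs (k + 1))), LinearB_DD_mul,
              LinearB_DD_Lap (hvs (k + 1))]
            ring
          have hg : ∀ z, |DD l (fun z => f z + (q z - M) * v k z) z| ≤ B2 + B1 := by
            intro z
            rw [LinearB_DD_add hf (hqs.mul (hvs k))]
            exact (abs_add_le _ _).trans (add_le_add (hB2 z) (hB1 k z))
          have h3 := (hres a ha (DD l (v (k + 1))) _ (B2 + B1) hw (per_DD (hvp (k + 1)) l) heq hg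
            z).2 [b] rfl
          have h4 : DD [b] (DD l (v (k + 1))) = DD (b :: l) (v (k + 1)) :=
            (DD_append [b] l (v (k + 1))).symm
          rw [h4] at h3
          exact h3
  -- convergence
  obtain ⟨r, hr⟩ : ∃ r, r = (M - q₀) / M := ⟨_, rfl⟩
  have hr0 : 0 ≤ r := by rw [hr]; positivity
  have hr1 : r < 1 := by
    rw [hr, div_lt_one hM]
    linarith
  have hrM : r * M = M - q₀ := by
    rw [hr]
    field_simp
  have hc0 : 0 ≤ F / q₀ := by positivity
  have hdiff : ∀ n z, |v (n + 1) z - v n z| ≤ F / q₀ * r ^ n := by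
    intro n
    induction n with
    | zero =>
      intro z
      rw [hv0, sub_zero, pow_zero, mul_one]
      exact hb0 1 z
    | succ n ih =>
      have hs : ContDiff ℝ ∞ (fun z => v (n + 2) z - v (n + 1) z) :=
        (hvs (n + 2)).sub (hvs (n + 1))
      have hper : Per a (fun z => v (n + 2) z - v (n + 1) z) := by
        intro z w hw
        show v (n + 2) (z + w) - v (n + 1) (z + w) = v (n + 2) z - v (n + 1) z
        have e1 : v (n + 2) (z + w) = v (n + 2) z := hvp (n + 2) z w hw
        have e2 : v (n + 1) (z + w) = v (n + 1) z := hvp (n + 1) z w hw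
        rw [e1, e2]
      refine max_principle ha (q := fun _ => M) (f := fun z => (q z - M) * (v (n + 1) z - v n z))
        (LinearB_two hs) hper (fun _ => hM) ?_ ?_
      · intro z
        rw [abs_mul]
        calc |q z - M| * |v (n + 1) z - v n z| ≤ (M - q₀) * (F / q₀ * r ^ n) :=
              mul_le_mul (hqMabs z) (ih z) (abs_nonneg _) hMq0
          _ = F / q₀ * r ^ (n + 1) * M := by
              rw [← hrM]
              ring
      · intro z
        have h1 : Lap (fun z => v (n + 2) z - v (n + 1) z) z =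
            Lap (v (n + 2)) z - Lap (v (n + 1)) z := by
          have h2 : (fun z => v (n + 2) z - v (n + 1) z) =
              fun z => v (n + 2) z + (-1) * v (n + 1) z := by
            funext z
            ring
          rw [h2]
          have h3 := LinearB_DD_add (hvs (n + 2))
            (contDiff_const (c := (-1 : ℝ)) |>.mul (hvs (n + 1)))
          have h4 := congrFun (h3 [true, true]) z
          have h5 := congrFun (h3 [false, false]) z
          rw [LinearB_DD_mul] at h4 h5
          show DD [true, true] (fun z => v (n + 2) z + (-1) * v (n + 1) z) z +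
            DD [false, false] (fun z => v (n + 2) z + (-1) * v (n + 1) z) z =
              (DD [true, true] (v (n + 2)) z + DD [false, false] (v (n + 2)) z) -
              (DD [true, true] (v (n + 1)) z + DD [false, false] (v (n + 1)) z)
          rw [h4, h5]
          ring
        rw [h1]
        have h6 := hveq (n + 1) z
        have h7 := hveq n z
        show Lap (v (n + 2)) z - Lap (v (n + 1)) z - M * (v (n + 2) z - v (n + 1) z) =
          (q z - M) * (v (n + 1) z - v n z)
        linarith
  have hdist : ∀ z n, dist (v n z) (v (n + 1) z) ≤ F / q₀ * r ^ n := by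
    intro z n
    rw [dist_comm, Real.dist_eq]
    exact hdiff n z
  have hlim : ∀ z, ∃ y, Tendsto (fun n => v n z) atTop (𝓝 y) := fun z =>
    cauchySeq_tendsto_of_complete (cauchySeq_of_le_geometric r (F / q₀) hr1 (hdist z))
  choose g hg using hlim
  have hunif : TendstoUniformly v g atTop := by
    rw [Metric.tendstoUniformly_iff]
    intro ε hε
    have h1 : Tendsto (fun n : ℕ => F / q₀ * r ^ n / (1 - r)) atTop (𝓝 0) := by
      have h2 := ((tendsto_pow_atTop_nhds_zero_of_lt_one hr0 hr1).const_mul (F / q₀)).div_const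
        (1 - r)
      simpa using h2
    filter_upwards [h1.eventually_lt_const hε] with n hn z
    rw [dist_comm]
    exact (dist_le_of_le_geometric_of_tendsto r (F / q₀) hr1 (hdist z) (hg z) n).trans_lt hn
  obtain ⟨hgs, hgD⟩ := conv_smooth hvs (fun l => by
    obtain ⟨B, hB⟩ := hbd l.length l le_rfl
    exact ⟨B, hB⟩) hunif
  refine ⟨g, hgs, ?_, ?_⟩
  · intro z w hw
    refine tendsto_nhds_unique (hg (z + w)) ?_
    refine (hg z).congr fun n => ?_
    exact (hvp n z w hw).symm
  · intro z
    have h1 : Tendsto (fun n => Lap (v (n + 1)) z) atTop (𝓝 (Lap g z)) := by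
      have h2 := ((hgD [true, true]).tendsto_at z).add ((hgD [false, false]).tendsto_at z)
      exact (tendsto_add_atTop_iff_nat 1).2 h2
    have h2 : Tendsto (fun n => v (n + 1) z) atTop (𝓝 (g z)) :=
      (tendsto_add_atTop_iff_nat (f := fun n => v n z) 1).2 (hg z)
    have h3 : Tendsto (fun n => Lap (v (n + 1)) z - M * v (n + 1) z) atTop
        (𝓝 (Lap g z - M * g z)) := h1.sub (h2.const_mul M)
    have h4 : Tendsto (fun n => f z + (q z - M) * v n z) atTop
        (𝓝 (f z + (q z - M) * g z)) := ((hg z).const_mul (q z - M)).const_add (f z)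
    have h5 := tendsto_nhds_unique (h3.congr fun n => hveq n z) h4
    linarith

end Pool.Agent.KK
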