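import Pool.Agent.W_bb4b37_h53.LinearB

/-!
# The penalised Liouville equation `Δ w = e^{2w} - X` (part A)
-/

set_option autoImplicit false

open Filter Topology Set MeasureTheory Metric
open scoped ContDiff

namespace Pool.Agent.KK

/-- Products of two sequences with bounded derivatives. -/
theorem LiouvilleA_UB_mul (n : ℕ) : ∀ (p u : ℕ → ℂ → ℝ), (∀ k, ContDiff ℝ ∞ (p k)) →
    (∀ k, ContDiff ℝ ∞ (u k)) → LinearB_UB n p → LinearB_UB n u →
    LinearB_UB n (fun k z => p k z * u k z) := by
  induction n with
  | zero =>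
    intro p u _ _ hp hu l hl
    have hl0 : l = [] := List.length_eq_zero_iff.1 (Nat.le_zero.1 hl)
    subst hl0
    obtain ⟨B, hB⟩ := hu [] le_rfl
    obtain ⟨P, hP⟩ := hp [] le_rfl
    refine ⟨P * B, fun k z => ?_⟩
    show |p k z * u k z| ≤ P * B
    rw [abs_mul]
    exact mul_le_mul (hP k z) (hB k z) (abs_nonneg _) ((abs_nonneg _).trans (hP k z))
  | succ n ih =>
    intro p u hps hus hp hu l hl
    rcases List.eq_nil_or_concat' l with rfl | ⟨l', b, rfl⟩
    · obtain ⟨B, hB⟩ := hu [] (by simp)
      obtain ⟨P, hP⟩ := hp [] (by simp)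
      refine ⟨P * B, fun k z => ?_⟩
      show |p k z * u k z| ≤ P * B
      rw [abs_mul]
      exact mul_le_mul (hP k z) (hB k z) (abs_nonneg _) ((abs_nonneg _).trans (hP k z))
    · rw [List.length_append, List.length_singleton] at hl
      have hl' : l'.length ≤ n := by omega
      have hder : ∀ v : ℕ → ℂ → ℝ, LinearB_UB (n + 1) v →
          LinearB_UB n (fun k => DD [b] (v k)) := by
        intro v hv m hm
        obtain ⟨B, hB⟩ := hv (m ++ [b]) (by
          rw [List.length_append, List.length_singleton]; omega)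
        refine ⟨B, fun k z => ?_⟩
        have := hB k z
        rwa [DD_append] at this
      have h1 := ih (fun k => DD [b] (p k)) u (fun k => contDiff_DD (hps k) [b]) hus
        (hder p hp) (fun m hm => hu m (by omega)) l' hl'
      have h2 := ih p (fun k => DD [b] (u k)) hps (fun k => contDiff_DD (hus k) [b])
        (fun m hm => hp m (by omega)) (hder u hu) l' hl'
      obtain ⟨B1, hB1⟩ := h1
      obtain ⟨B2, hB2⟩ := h2
      refine ⟨B1 + B2, fun k z => ?_⟩
      have hprod : DD [b] (fun z => p k z * u k z) =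
          fun z => DD [b] (p k) z * u k z + p k z * DD [b] (u k) z := by
        funext z
        cases b
        · exact Dy_mul (LinearB_diff (hps k) z) (LinearB_diff (hus k) z)
        · exact Dx_mul (LinearB_diff (hps k) z) (LinearB_diff (hus k) z)
      have hs1 : ContDiff ℝ ∞ (fun z => DD [b] (p k) z * u k z) :=
        (contDiff_DD (hps k) [b]).mul (hus k)
      have hs2 : ContDiff ℝ ∞ (fun z => p k z * DD [b] (u k) z) :=
        (hps k).mul (contDiff_DD (hus k) [b])
      show |DD (l' ++ [b]) (fun z => p k z * u k z) z| ≤ B1 + B2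
      rw [DD_append, hprod, LinearB_DD_add hs1 hs2]
      exact (abs_add_le _ _).trans (add_le_add (hB1 k z) (hB2 k z))

/-- Exponentials of a sequence with bounded derivatives. -/
theorem LiouvilleA_UB_exp (u : ℕ → ℂ → ℝ) (hus : ∀ k, ContDiff ℝ ∞ (u k)) (n : ℕ)
    (hu : LinearB_UB n u) : LinearB_UB n (fun k z => Real.exp (2 * u k z)) := by
  have hes : ∀ k, ContDiff ℝ ∞ (fun z => Real.exp (2 * u k z)) := fun k =>
    Real.contDiff_exp.comp (contDiff_const.mul (hus k))
  induction n with
  | zero =>
    intro l hl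
    have hl0 : l = [] := List.length_eq_zero_iff.1 (Nat.le_zero.1 hl)
    subst hl0
    obtain ⟨B, hB⟩ := hu [] le_rfl
    refine ⟨Real.exp (2 * B), fun k z => ?_⟩
    show |Real.exp (2 * u k z)| ≤ Real.exp (2 * B)
    rw [abs_of_pos (Real.exp_pos _)]
    refine Real.exp_le_exp.2 ?_
    have h1 : u k z ≤ B := (le_abs_self _).trans (hB k z)
    linarith
  | succ n ih =>
    intro l hl
    rcases List.eq_nil_or_concat' l with rfl | ⟨l', b, rfl⟩
    · obtain ⟨B, hB⟩ := hu [] (by simp)
      refine ⟨Real.exp (2 * B), fun k z => ?_⟩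
      show |Real.exp (2 * u k z)| ≤ Real.exp (2 * B)
      rw [abs_of_pos (Real.exp_pos _)]
      refine Real.exp_le_exp.2 ?_
      have h1 : u k z ≤ B := (le_abs_self _).trans (hB k z)
      linarith
    · rw [List.length_append, List.length_singleton] at hl
      have hl' : l'.length ≤ n := by omega
      have h0 : LinearB_UB n (fun k z => Real.exp (2 * u k z)) :=
        ih fun m hm => hu m (by omega)
      have h1 : LinearB_UB n (fun k => DD [b] (u k)) := by
        intro m hm
        obtain ⟨B, hB⟩ := hu (m ++ [b]) (by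
          rw [List.length_append, List.length_singleton]; omega)
        refine ⟨B, fun k z => ?_⟩
        have := hB k z
        rwa [DD_append] at this
      obtain ⟨B, hB⟩ := LiouvilleA_UB_mul n _ _ hes (fun k => contDiff_DD (hus k) [b]) h0 h1 l' hl'
      refine ⟨2 * B, fun k z => ?_⟩
      have hder : DD [b] (fun z => Real.exp (2 * u k z)) =
          fun z => 2 * (Real.exp (2 * u k z) * DD [b] (u k) z) := by
        funext z
        cases b
        · exact (Dy_exp (LinearB_diff (hus k) z) 2).trans (mul_assoc _ _ _)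
        · exact (Dx_exp (LinearB_diff (hus k) z) 2).trans (mul_assoc _ _ _)
      show |DD (l' ++ [b]) (fun z => Real.exp (2 * u k z)) z| ≤ 2 * B
      rw [DD_append, hder, LinearB_DD_mul]
      show |2 * DD l' (fun z => Real.exp (2 * u k z) * DD [b] (u k) z) z| ≤ 2 * B
      rw [abs_mul, abs_two]
      exact mul_le_mul_of_nonneg_left (hB k z) zero_le_two

/-- Convexity of the exponential. -/
theorem LiouvilleA_exp {x y : ℝ} (_h : x ≤ y) :
    2 * Real.exp (2 * x) * (y - x) ≤ Real.exp (2 * y) - Real.exp (2 * x) ∧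
      Real.exp (2 * y) - Real.exp (2 * x) ≤ 2 * Real.exp (2 * y) * (y - x) := by
  constructor
  · have h1 := Real.add_one_le_exp (2 * (y - x))
    have h2 : Real.exp (2 * y) = Real.exp (2 * x) * Real.exp (2 * (y - x)) := by
      rw [← Real.exp_add]
      congr 1
      ring
    have h3 := mul_le_mul_of_nonneg_left h1 (Real.exp_pos (2 * x)).le
    rw [← h2] at h3
    linarith
  · have h1 := Real.add_one_le_exp (-(2 * (y - x)))
    have h2 : Real.exp (2 * x) = Real.exp (2 * y) * Real.exp (-(2 * (y - x))) := by
      rw [← Real.exp_add]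
      congr 1
      ring
    have h3 := mul_le_mul_of_nonneg_left h1 (Real.exp_pos (2 * y)).le
    rw [← h2] at h3
    linarith

theorem LiouvilleA_Lap_sub {f g : ℂ → ℝ} (hf : ContDiff ℝ ∞ f) (hg : ContDiff ℝ ∞ g) (z : ℂ) :
    Lap (fun y => f y - g y) z = Lap f z - Lap g z := by
  have h2 : (fun z => f z - g z) = fun z => f z + (-1) * g z := by
    funext z
    ring
  rw [h2]
  have h3 := LinearB_DD_add hf (contDiff_const (c := (-1 : ℝ)) |>.mul hg)
  have h4 := congrFun (h3 [true, true]) z
  have h5 := congrFun (h3 [false, false]) z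
  rw [LinearB_DD_mul] at h4 h5
  show DD [true, true] (fun z => f z + (-1) * g z) z +
    DD [false, false] (fun z => f z + (-1) * g z) z =
      (DD [true, true] f z + DD [false, false] f z) -
      (DD [true, true] g z + DD [false, false] g z)
  rw [h4, h5]
  ring

theorem LiouvilleA_Lap_const (c : ℝ) (z : ℂ) : Lap (fun _ : ℂ => c) z = 0 := by
  have h1 : Dx (fun _ : ℂ => c) = fun _ => 0 := by
    funext y
    exact Dx_const c y
  have h2 : Dy (fun _ : ℂ => c) = fun _ => 0 := by
    funext y
    exact Dy_const c y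
  unfold Lap
  rw [h1, h2]
  have h3 : Dx (fun _ : ℂ => (0 : ℝ)) z = 0 := Dx_const 0 z
  have h4 : Dy (fun _ : ℂ => (0 : ℝ)) z = 0 := Dy_const 0 z
  rw [h3, h4, add_zero]

/-- Existence. Proof: `M = 2 K + 1`, `w_0 = (1/2) log K` (constant), `w_{k+1}` the solution of
`Δ v - M v = e^{2 w_k} - X - M w_k` (`resolvent`). As `g t = e^{2t} - M t` is decreasing for
`t ≤ (1/2) log K`, the maximum principle gives `(1/2) log τ ≤ w_k ≤ (1/2) log K` for all `k`, and
`|g t - g t'| ≤ (M - 2 τ) |t - t'|` on this interval gives
`sup |w_{k+1} - w_k| ≤ (1 - 2 τ / M) sup |w_k - w_{k-1}|`. All derivatives of `w_k` are bounded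
uniformly in `k` (`resolvent_grad` applied to `DD l w_{k+1}`, induction on `|l|`; the right side
`DD l (e^{2 w_k} - X - M w_k)` contains derivatives of `w_k` of order `≤ |l|` only). Use
`conv_smooth`. -/
theorem liouville_exists {a : ℝ} (ha : |a| < 1) {X : ℂ → ℝ} (hX : ContDiff ℝ ∞ X) (hp : Per a X)
    {τ K : ℝ} (hτ : 0 < τ) (h1 : ∀ z, τ ≤ X z) (h2 : ∀ z, X z ≤ K) :
    ∃ w : ℂ → ℝ, ContDiff ℝ ∞ w ∧ Per a w ∧ (∀ z, Lap w z = Real.exp (2 * w z) - X z) := by
  have hτX : τ ≤ K := (h1 0).trans (h2 0)
  have hK : 0 < K := hτ.trans_le hτX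
  obtain ⟨M, hMdef⟩ : ∃ M, M = 2 * K + 1 := ⟨_, rfl⟩
  have hM : 0 < M := by rw [hMdef]; positivity
  obtain ⟨L, hL⟩ : ∃ L, L = 1 / 2 * Real.log K := ⟨_, rfl⟩
  obtain ⟨e, he⟩ : ∃ e, e = 1 / 2 * Real.log τ := ⟨_, rfl⟩
  have hLexp : Real.exp (2 * L) = K := by
    rw [hL, ← mul_assoc]
    norm_num
    exact Real.exp_log hK
  have heexp : Real.exp (2 * e) = τ := by
    rw [he, ← mul_assoc]
    norm_num
    exact Real.exp_log hτ
  have heL : e ≤ L := by
    rw [he, hL]
    exact mul_le_mul_of_nonneg_left (Real.log_le_log hτ hτX) (by norm_num)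
  -- the operator
  let Y : Type := {v : ℂ → ℝ // ContDiff ℝ ∞ v ∧ Per a v}
  have hstep : ∀ v : Y, ∃ u : Y, ∀ z, Lap u.1 z - M * u.1 z =
      Real.exp (2 * v.1 z) - X z - M * v.1 z := by
    rintro ⟨v, hv, hvp⟩
    have hg : ContDiff ℝ ∞ (fun z => Real.exp (2 * v z) - X z - M * v z) :=
      ((Real.contDiff_exp.comp (contDiff_const.mul hv)).sub hX).sub (contDiff_const.mul hv)
    have hgp : Per a (fun z => Real.exp (2 * v z) - X z - M * v z) := by
      intro z w hw
      show Real.exp (2 * v (z + w)) - X (z + w) - M * v (z + w) =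
        Real.exp (2 * v z) - X z - M * v z
      rw [hp z w hw, hvp z w hw]
    obtain ⟨u, h1, h2, h3⟩ := resolvent ha hM hg hgp
    exact ⟨⟨u, h1, h2⟩, h3⟩
  choose R hR using hstep
  have hzero : ContDiff ℝ ∞ (fun _ : ℂ => L) ∧ Per a (fun _ : ℂ => L) :=
    ⟨contDiff_const, fun _ _ _ => rfl⟩
  let V : ℕ → Y := fun n => Nat.rec ⟨fun _ => L, hzero⟩ (fun _ v => R v) n
  let v : ℕ → ℂ → ℝ := fun n => (V n).1
  have hvs : ∀ n, ContDiff ℝ ∞ (v n) := fun n => (V n).2.1
  have hvp : ∀ n, Per a (v n) := fun n => (V n).2.2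
  have hv0 : v 0 = fun _ => L := rfl
  have hveq : ∀ n z, Lap (v (n + 1)) z - M * v (n + 1) z =
      Real.exp (2 * v n z) - X z - M * v n z := fun n z => hR (V n) z
  -- the uniform bound
  have hb0 : ∀ n z, e ≤ v n z ∧ v n z ≤ L := by
    intro n
    induction n with
    | zero =>
      intro z
      rw [hv0]
      exact ⟨heL, le_rfl⟩
    | succ n ih =>
      have key : ∀ z, |v (n + 1) z - (L + e) / 2| ≤ (L - e) / 2 := by
        refine max_principle ha (v := fun z => v (n + 1) z - (L + e) / 2) (q := fun _ => M)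
          (f := fun z => Real.exp (2 * v n z) - X z - M * v n z + M * ((L + e) / 2))
          (LinearB_two ((hvs (n + 1)).sub contDiff_const)) ?_ (fun _ => hM) ?_ ?_
        · intro z w hw
          show v (n + 1) (z + w) - (L + e) / 2 = v (n + 1) z - (L + e) / 2
          rw [hvp (n + 1) z w hw]
        · intro z
          obtain ⟨i1, i2⟩ := ih z
          have j1 := (LiouvilleA_exp i2).2
          have j2 := (LiouvilleA_exp i1).2
          rw [hLexp] at j1
          rw [heexp] at j2
          have j3 : Real.exp (2 * v n z) ≤ K := by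
            rw [← hLexp]
            exact Real.exp_le_exp.2 (by linarith)
          have j4 : Real.exp (2 * v n z) * (v n z - e) ≤ K * (v n z - e) :=
            mul_le_mul_of_nonneg_right j3 (by linarith only [i1])
          have j5 := h1 z
          have j6 := h2 z
          rw [abs_le]
          constructor
          · rw [hMdef]
            linarith only [j1, j5, j6, i2]
          · rw [hMdef]
            linarith only [j2, j4, j5, i1]
        · intro z
          rw [LiouvilleA_Lap_sub (hvs (n + 1)) contDiff_const, LiouvilleA_Lap_const, sub_zero]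
          have h3 := hveq n z
          show Lap (v (n + 1)) z - M * (v (n + 1) z - (L + e) / 2) =
            Real.exp (2 * v n z) - X z - M * v n z + M * ((L + e) / 2)
          linarith
      intro z
      have h3 := abs_le.1 (key z)
      constructor
      · linarith [h3.1]
      · linarith [h3.2]
  obtain ⟨F, hF⟩ : ∃ F, F = |L| + |e| := ⟨_, rfl⟩
  have hF0 : 0 ≤ F := by rw [hF]; positivity
  have hbabs : ∀ n z, |v n z| ≤ F := by
    intro n z
    obtain ⟨i1, i2⟩ := hb0 n z
    rw [hF, abs_le]
    constructor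
    · linarith [neg_abs_le e, abs_nonneg L]
    · linarith [le_abs_self L, abs_nonneg e]
  -- bounds for the derivatives
  have hbd : ∀ n, LinearB_UB n v := by
    obtain ⟨C, hC, hres⟩ := resolvent_grad hM
    intro n
    induction n with
    | zero =>
      intro l hl
      have hl0 : l = [] := List.length_eq_zero_iff.1 (Nat.le_zero.1 hl)
      subst hl0
      exact ⟨F, hbabs⟩
    | succ n ih =>
      intro l hl
      cases l with
      | nil => exact ⟨F, hbabs⟩
      | cons b l =>
        have hl' : l.length ≤ n := by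
          rw [List.length_cons] at hl
          omega
        obtain ⟨B1, hB1⟩ := LiouvilleA_UB_exp v hvs n ih l hl'
        obtain ⟨B2, hB2⟩ := (BCinf_iff.1 (per_BCinf ha hp hX)).2 l
        obtain ⟨B3, hB3⟩ := ih l hl'
        have hB10 : 0 ≤ B1 := (abs_nonneg _).trans (hB1 0 0)
        have hB20 : 0 ≤ B2 := (norm_nonneg _).trans (hB2 0)
        have hB30 : 0 ≤ B3 := (abs_nonneg _).trans (hB3 0 0)
        refine ⟨C * (B1 + (B2 + M * B3)), fun k z => ?_⟩
        cases k with
        | zero =>
          have h3 : DD (b :: l) (v 0) = fun _ => 0 := by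
            have h4 : ∀ (m : List Bool) (c : ℝ), DD m (fun _ : ℂ => c) =
                fun _ => if m = [] then c else 0 := by
              intro m
              induction m with
              | nil => intro c; rfl
              | cons b m ihm =>
                intro c
                cases b
                · rw [DD_false, ihm]
                  funext y
                  exact (Dy_const _ y).trans (by simp)
                · rw [DD_true, ihm]
                  funext y
                  exact (Dx_const _ y).trans (by simp)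
            rw [hv0, h4]
            funext y
            simp
          rw [h3, abs_zero]
          positivity
        | succ k =>
          have hw : ContDiff ℝ ∞ (DD l (v (k + 1))) := contDiff_DD (hvs (k + 1)) l
          have hes : ContDiff ℝ ∞ (fun z => Real.exp (2 * v k z)) :=
            Real.contDiff_exp.comp (contDiff_const.mul (hvs k))
          have hform : (fun z => Real.exp (2 * v k z) - X z - M * v k z) =
              fun z => Real.exp (2 * v k z) + ((-1) * X z + (-M) * v k z) := by
            funext z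
            ring
          have heq : ∀ z, Lap (DD l (v (k + 1))) z - M * DD l (v (k + 1)) z =
              DD l (fun z => Real.exp (2 * v k z) - X z - M * v k z) z := by
            intro z
            have h3 : (fun z => Real.exp (2 * v k z) - X z - M * v k z) =
                fun z => Lap (v (k + 1)) z + (-M) * v (k + 1) z := by
              funext z
              rw [← hveq k z]
              ring
            have hlap : ContDiff ℝ ∞ (Lap (v (k + 1))) := by
              have hxx : ContDiff ℝ ∞ (Dx (Dx (v (k + 1)))) :=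
                contDiff_DD (hvs (k + 1)) [true, true]
              have hyy : ContDiff ℝ ∞ (Dy (Dy (v (k + 1)))) :=
                contDiff_DD (hvs (k + 1)) [false, false]
              exact hxx.add hyy
            rw [h3, LinearB_DD_add hlap (contDiff_const.mul (hvs (k + 1))), LinearB_DD_mul,
              LinearB_DD_Lap (hvs (k + 1))]
            ring
          have hg : ∀ z, |DD l (fun z => Real.exp (2 * v k z) - X z - M * v k z) z| ≤
              B1 + (B2 + M * B3) := by
            intro z
            rw [hform, LinearB_DD_add hes ((contDiff_const.mul hX).add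
              (contDiff_const.mul (hvs k))), LinearB_DD_add (contDiff_const.mul hX)
              (contDiff_const.mul (hvs k)), LinearB_DD_mul, LinearB_DD_mul]
            refine (abs_add_le _ _).trans (add_le_add (hB1 k z) ?_)
            refine (abs_add_le _ _).trans (add_le_add ?_ ?_)
            · show |(-1) * DD l X z| ≤ B2
              rw [neg_one_mul, abs_neg]
              exact hB2 z
            · show |-M * DD l (v k) z| ≤ M * B3
              rw [neg_mul, abs_neg, abs_mul, abs_of_pos hM]
              exact mul_le_mul_of_nonneg_left (hB3 k z) hM.le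
          have h3 := (hres a ha (DD l (v (k + 1))) _ (B1 + (B2 + M * B3)) hw
            (per_DD (hvp (k + 1)) l) heq hg z).2 [b] rfl
          have h4 : DD [b] (DD l (v (k + 1))) = DD (b :: l) (v (k + 1)) :=
            (DD_append [b] l (v (k + 1))).symm
          rw [h4] at h3
          exact h3
  -- convergence
  obtain ⟨r, hr⟩ : ∃ r, r = (M - 2 * τ) / M := ⟨_, rfl⟩
  have hMτ : 0 ≤ M - 2 * τ := by
    rw [hMdef]
    linarith
  have hr0 : 0 ≤ r := by rw [hr]; positivity
  have hr1 : r < 1 := by
    rw [hr, div_lt_one hM]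
    linarith
  have hrM : r * M = M - 2 * τ := by
    rw [hr]
    field_simp
  obtain ⟨c, hc⟩ : ∃ c, c = L - e := ⟨_, rfl⟩
  have hc0 : 0 ≤ c := by rw [hc]; linarith
  have hG : ∀ x y : ℝ, e ≤ x → x ≤ L → e ≤ y → y ≤ L →
      |(Real.exp (2 * x) - M * x) - (Real.exp (2 * y) - M * y)| ≤ (M - 2 * τ) * |x - y| := by
    have hG' : ∀ x y : ℝ, e ≤ x → x ≤ y → y ≤ L →
        |(Real.exp (2 * x) - M * x) - (Real.exp (2 * y) - M * y)| ≤ (M - 2 * τ) * |x - y| := by
      intro x y h3 h4 h5
      obtain ⟨j1, j2⟩ := LiouvilleA_exp h4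
      have j3 : τ ≤ Real.exp (2 * x) := by
        rw [← heexp]
        exact Real.exp_le_exp.2 (by linarith)
      have j4 : Real.exp (2 * y) ≤ K := by
        rw [← hLexp]
        exact Real.exp_le_exp.2 (by linarith)
      have j5 : 0 ≤ y - x := by linarith
      have j6 : τ * (y - x) ≤ Real.exp (2 * x) * (y - x) := mul_le_mul_of_nonneg_right j3 j5
      have j7 : Real.exp (2 * y) * (y - x) ≤ K * (y - x) := mul_le_mul_of_nonneg_right j4 j5
      have j8 : |x - y| = y - x := by
        rw [abs_sub_comm]
        exact abs_of_nonneg j5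
      have j9 : τ * (y - x) ≤ K * (y - x) := mul_le_mul_of_nonneg_right hτX j5
      have hMe : M * (y - x) = 2 * (K * (y - x)) + (y - x) := by
        rw [hMdef]
        ring
      rw [j8, abs_le]
      constructor
      · linarith only [j2, j7, hMe, j9, j5, j6, j1]
      · linarith only [j1, j6, hMe, j9, j5, j7, j2]
    intro x y h3 h4 h5 h6
    rcases le_total x y with h7 | h7
    · exact hG' x y h3 h7 h6
    · have h8 := hG' y x h5 h7 h4
      rw [abs_sub_comm, abs_sub_comm x y]
      exact h8
  have hdiff : ∀ n z, |v (n + 1) z - v n z| ≤ c * r ^ n := by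
    intro n
    induction n with
    | zero =>
      intro z
      obtain ⟨i1, i2⟩ := hb0 (0 + 1) z
      obtain ⟨i3, i4⟩ := hb0 0 z
      rw [pow_zero, mul_one, hc, abs_le]
      constructor <;> linarith
    | succ n ih =>
      have hs : ContDiff ℝ ∞ (fun z => v (n + 2) z - v (n + 1) z) :=
        (hvs (n + 2)).sub (hvs (n + 1))
      have hper : Per a (fun z => v (n + 2) z - v (n + 1) z) := by
        intro z w hw
        show v (n + 2) (z + w) - v (n + 1) (z + w) = v (n + 2) z - v (n + 1) z
        have e1 : v (n + 2) (z + w) = v (n + 2) z := hvp (n + 2) z w hw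
        have e2 : v (n + 1) (z + w) = v (n + 1) z := hvp (n + 1) z w hw
        rw [e1, e2]
      refine max_principle ha (q := fun _ => M)
        (f := fun z => (Real.exp (2 * v (n + 1) z) - M * v (n + 1) z) -
          (Real.exp (2 * v n z) - M * v n z))
        (LinearB_two hs) hper (fun _ => hM) ?_ ?_
      · intro z
        obtain ⟨i1, i2⟩ := hb0 (n + 1) z
        obtain ⟨i3, i4⟩ := hb0 n z
        calc |(Real.exp (2 * v (n + 1) z) - M * v (n + 1) z) -
              (Real.exp (2 * v n z) - M * v n z)| ≤ (M - 2 * τ) * |v (n + 1) z - v n z| :=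
              hG _ _ i1 i2 i3 i4
          _ ≤ (M - 2 * τ) * (c * r ^ n) := mul_le_mul_of_nonneg_left (ih z) hMτ
          _ = c * r ^ (n + 1) * M := by
              rw [← hrM]
              ring
      · intro z
        rw [LiouvilleA_Lap_sub (hvs (n + 2)) (hvs (n + 1))]
        have h6 := hveq (n + 1) z
        have h7 := hveq n z
        show Lap (v (n + 2)) z - Lap (v (n + 1)) z - M * (v (n + 2) z - v (n + 1) z) =
          (Real.exp (2 * v (n + 1) z) - M * v (n + 1) z) - (Real.exp (2 * v n z) - M * v n z)
        linarith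
  have hdist : ∀ z n, dist (v n z) (v (n + 1) z) ≤ c * r ^ n := by
    intro z n
    rw [dist_comm, Real.dist_eq]
    exact hdiff n z
  have hlim : ∀ z, ∃ y, Tendsto (fun n => v n z) atTop (𝓝 y) := fun z =>
    cauchySeq_tendsto_of_complete (cauchySeq_of_le_geometric r c hr1 (hdist z))
  choose g hg using hlim
  have hunif : TendstoUniformly v g atTop := by
    rw [Metric.tendstoUniformly_iff]
    intro ε hε
    have h1 : Tendsto (fun n : ℕ => c * r ^ n / (1 - r)) atTop (𝓝 0) := by
      have h2 := ((tendsto_pow_atTop_nhds_zero_of_lt_one hr0 hr1).const_mul c).div_const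
        (1 - r)
      simpa using h2
    filter_upwards [h1.eventually_lt_const hε] with n hn z
    rw [dist_comm]
    exact (dist_le_of_le_geometric_of_tendsto r c hr1 (hdist z) (hg z) n).trans_lt hn
  obtain ⟨hgs, hgD⟩ := conv_smooth hvs (fun l => by
    obtain ⟨B, hB⟩ := hbd l.length l le_rfl
    exact ⟨B, hB⟩) hunif
  refine ⟨g, hgs, ?_, ?_⟩
  · intro z w hw
    refine tendsto_nhds_unique (hg (z + w)) ?_
    refine (hg z).congr fun n => ?_
    exact (hvp n z w hw).symm
  · intro z
    have h1 : Tendsto (fun n => Lap (v (n + 1)) z) atTop (𝓝 (Lap g z)) := by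
      have h2 := ((hgD [true, true]).tendsto_at z).add ((hgD [false, false]).tendsto_at z)
      exact (tendsto_add_atTop_iff_nat 1).2 h2
    have h2 : Tendsto (fun n => v (n + 1) z) atTop (𝓝 (g z)) :=
      (tendsto_add_atTop_iff_nat (f := fun n => v n z) 1).2 (hg z)
    have h3 : Tendsto (fun n => Lap (v (n + 1)) z - M * v (n + 1) z) atTop
        (𝓝 (Lap g z - M * g z)) := h1.sub (h2.const_mul M)
    have h4 : Tendsto (fun n => Real.exp (2 * v n z) - X z - M * v n z) atTop
        (𝓝 (Real.exp (2 * g z) - X z - M * g z)) := by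
      have h5 : Tendsto (fun n => Real.exp (2 * v n z)) atTop (𝓝 (Real.exp (2 * g z))) :=
        (Real.continuous_exp.tendsto _).comp ((hg z).const_mul 2)
      exact (h5.sub_const (X z)).sub ((hg z).const_mul M)
    have h5 := tendsto_nhds_unique (h3.congr fun n => hveq n z) h4
    linarith

/-- Bounds from the maximum principle. -/
theorem liouville_le {a : ℝ} (ha : |a| < 1) {X w : ℂ → ℝ} (hw : ContDiff ℝ 2 w) (hp : Per a w)
    (hs : ∀ z, Lap w z = Real.exp (2 * w z) - X z) {τ K : ℝ} (hτ : 0 < τ)
    (h1 : ∀ z, τ ≤ X z) (h2 : ∀ z, X z ≤ K) (z : ℂ) :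
    τ ≤ Real.exp (2 * w z) ∧ Real.exp (2 * w z) ≤ K := by
  constructor
  · obtain ⟨z₁, hz₁⟩ := per_exists_max ha (f := fun y => -w y) (fun y v hv => by
      show -w (y + v) = -w y
      rw [hp y v hv]) hw.continuous.neg
    have hmax : IsLocalMax (fun y => -w y) z₁ := Filter.Eventually.of_forall hz₁
    obtain ⟨-, -, i1, i2, -⟩ := second_deriv_of_isLocalMax hw.neg.contDiffAt hmax
    rw [CalcE_Dx_neg, CalcE_Dx_neg] at i1
    rw [CalcE_Dy_neg, CalcE_Dy_neg] at i2
    have i3 : 0 ≤ Lap w z₁ := by
      have i4 : 0 ≤ Dx (Dx w) z₁ := by linarith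
      have i5 : 0 ≤ Dy (Dy w) z₁ := by linarith
      exact add_nonneg i4 i5
    have i6 : τ ≤ Real.exp (2 * w z₁) := by linarith [hs z₁, h1 z₁]
    refine i6.trans (Real.exp_le_exp.2 ?_)
    have i7 : -w z ≤ -w z₁ := hz₁ z
    linarith
  · obtain ⟨z₀, hz₀⟩ := per_exists_max ha hp hw.continuous
    have hmax : IsLocalMax w z₀ := Filter.Eventually.of_forall hz₀
    obtain ⟨-, -, i1, i2, -⟩ := second_deriv_of_isLocalMax hw.contDiffAt hmax
    have i3 : Lap w z₀ ≤ 0 := add_nonpos i1 i2
    have i6 : Real.exp (2 * w z₀) ≤ K := by linarith [hs z₀, h2 z₀]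
    refine (Real.exp_le_exp.2 ?_).trans i6
    have i7 : w z ≤ w z₀ := hz₀ z
    linarith

end Pool.Agent.KK
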