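import Pool.Agent.W_bb4b37_h53.LiouvilleA
import Pool.Agent.W_bb4b37_h53.PenA
import Pool.Agent.W_bb4b37_h53.SubSol

/-!
# The penalised Liouville equation `Δ w = e^{2w} - X` (part B)
-/

set_option autoImplicit false

open Filter Topology Set MeasureTheory Metric
open scoped ContDiff

namespace Pool.Agent.KK

theorem LiouvilleB_diff_Dx {f : ℂ → ℝ} {y : ℂ} (hf : ContDiffAt ℝ 2 f y) :
    DifferentiableAt ℝ (Dx f) y := by
  have h1 : ContDiffAt ℝ 1 (fderiv ℝ f) y := hf.fderiv_right (by norm_num)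
  exact (h1.differentiableAt (by norm_num)).clm_apply (differentiableAt_const _)

theorem LiouvilleB_diff_Dy {f : ℂ → ℝ} {y : ℂ} (hf : ContDiffAt ℝ 2 f y) :
    DifferentiableAt ℝ (Dy f) y := by
  have h1 : ContDiffAt ℝ 1 (fderiv ℝ f) y := hf.fderiv_right (by norm_num)
  exact (h1.differentiableAt (by norm_num)).clm_apply (differentiableAt_const _)

theorem LiouvilleB_DxDx_add {f g : ℂ → ℝ} {y : ℂ} (hf : ContDiffAt ℝ 2 f y)
    (hg : ContDiffAt ℝ 2 g y) :
    Dx (Dx (fun z => f z + g z)) y = Dx (Dx f) y + Dx (Dx g) y := by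
  have h1 : Dx (fun z => f z + g z) =ᶠ[𝓝 y] fun z => Dx f z + Dx g z := by
    filter_upwards [hf.eventually (by simp), hg.eventually (by simp)] with z h2 h3
    exact Dx_add (h2.differentiableAt (by norm_num)) (h3.differentiableAt (by norm_num))
  rw [Dx_congr h1, Dx_add (LiouvilleB_diff_Dx hf) (LiouvilleB_diff_Dx hg)]

theorem LiouvilleB_DyDy_add {f g : ℂ → ℝ} {y : ℂ} (hf : ContDiffAt ℝ 2 f y)
    (hg : ContDiffAt ℝ 2 g y) :
    Dy (Dy (fun z => f z + g z)) y = Dy (Dy f) y + Dy (Dy g) y := by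
  have h1 : Dy (fun z => f z + g z) =ᶠ[𝓝 y] fun z => Dy f z + Dy g z := by
    filter_upwards [hf.eventually (by simp), hg.eventually (by simp)] with z h2 h3
    exact Dy_add (h2.differentiableAt (by norm_num)) (h3.differentiableAt (by norm_num))
  rw [Dy_congr h1, Dy_add (LiouvilleB_diff_Dy hf) (LiouvilleB_diff_Dy hg)]

theorem LiouvilleB_DxDx_log {f : ℂ → ℝ} {y : ℂ} (hf : ContDiffAt ℝ 2 f y) (hy : 0 < f y) :
    Dx (Dx (fun z => Real.log (f z))) y = Dx (Dx f) y / f y - (Dx f y) ^ 2 / (f y) ^ 2 := by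
  have h0 : ∀ᶠ z in 𝓝 y, 0 < f z := hf.continuousAt.eventually (lt_mem_nhds hy)
  have h1 : Dx (fun z => Real.log (f z)) =ᶠ[𝓝 y] fun z => Dx f z * (f z)⁻¹ := by
    filter_upwards [hf.eventually (by simp), h0] with z h2 h3
    have := Dx_comp_real (f := f) (g := Real.log) (z := z) (h2.differentiableAt (by norm_num))
      (Real.hasDerivAt_log h3.ne')
    simpa using this
  have hd : DifferentiableAt ℝ f y := hf.differentiableAt (by norm_num)
  have h4 := Dx_comp_real (f := f) (g := fun t : ℝ => t⁻¹) (z := y) hd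
    (hasDerivAt_inv hy.ne')
  have h5 : DifferentiableAt ℝ (fun z => (f z)⁻¹) y := hd.inv hy.ne'
  rw [Dx_congr h1, Dx_mul (LiouvilleB_diff_Dx hf) h5, h4]
  simp only [smul_eq_mul]
  field_simp
  ring

theorem LiouvilleB_DyDy_log {f : ℂ → ℝ} {y : ℂ} (hf : ContDiffAt ℝ 2 f y) (hy : 0 < f y) :
    Dy (Dy (fun z => Real.log (f z))) y = Dy (Dy f) y / f y - (Dy f y) ^ 2 / (f y) ^ 2 := by
  have h0 : ∀ᶠ z in 𝓝 y, 0 < f z := hf.continuousAt.eventually (lt_mem_nhds hy)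
  have h1 : Dy (fun z => Real.log (f z)) =ᶠ[𝓝 y] fun z => Dy f z * (f z)⁻¹ := by
    filter_upwards [hf.eventually (by simp), h0] with z h2 h3
    have := Dy_comp_real (f := f) (g := Real.log) (z := z) (h2.differentiableAt (by norm_num))
      (Real.hasDerivAt_log h3.ne')
    simpa using this
  have hd : DifferentiableAt ℝ f y := hf.differentiableAt (by norm_num)
  have h4 := Dy_comp_real (f := f) (g := fun t : ℝ => t⁻¹) (z := y) hd
    (hasDerivAt_inv hy.ne')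
  have h5 : DifferentiableAt ℝ (fun z => (f z)⁻¹) y := hd.inv hy.ne'
  rw [Dy_congr h1, Dy_mul (LiouvilleB_diff_Dy hf) h5, h4]
  simp only [smul_eq_mul]
  field_simp
  ring

theorem LiouvilleB_re (c : ℝ) (y : ℂ) :
    HasFDerivAt (fun y : ℂ => y.re - c) (Complex.reCLM : ℂ →L[ℝ] ℝ) y :=
  (Complex.reCLM.hasFDerivAt (x := y)).sub_const c

theorem LiouvilleB_im (c : ℝ) (y : ℂ) :
    HasFDerivAt (fun y : ℂ => y.im - c) (Complex.imCLM : ℂ →L[ℝ] ℝ) y :=
  (Complex.imCLM.hasFDerivAt (x := y)).sub_const c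

/-- The function `R² - |y - z|²`. -/
theorem LiouvilleB_phi (R : ℝ) (z y : ℂ) :
    Dx (fun y : ℂ => R ^ 2 - ((y.re - z.re) ^ 2 + (y.im - z.im) ^ 2)) y = -2 * (y.re - z.re) ∧
    Dy (fun y : ℂ => R ^ 2 - ((y.re - z.re) ^ 2 + (y.im - z.im) ^ 2)) y =
      -2 * (y.im - z.im) := by
  have h := (((LiouvilleB_re z.re y).pow 2).add ((LiouvilleB_im z.im y).pow 2)).const_sub (R ^ 2)
  have h' : HasFDerivAt (fun y : ℂ => R ^ 2 - ((y.re - z.re) ^ 2 + (y.im - z.im) ^ 2)) _ y := h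
  constructor
  · unfold Dx
    rw [h'.fderiv]
    simp
    try ring
  · unfold Dy
    rw [h'.fderiv]
    simp
    try ring

theorem LiouvilleB_phi2 (R : ℝ) (z y : ℂ) :
    Dx (Dx (fun y : ℂ => R ^ 2 - ((y.re - z.re) ^ 2 + (y.im - z.im) ^ 2))) y = -2 ∧
    Dy (Dy (fun y : ℂ => R ^ 2 - ((y.re - z.re) ^ 2 + (y.im - z.im) ^ 2))) y = -2 := by
  have h1 : Dx (fun y : ℂ => R ^ 2 - ((y.re - z.re) ^ 2 + (y.im - z.im) ^ 2)) =
      fun y : ℂ => -2 * (y.re - z.re) := by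
    funext y
    exact (LiouvilleB_phi R z y).1
  have h2 : Dy (fun y : ℂ => R ^ 2 - ((y.re - z.re) ^ 2 + (y.im - z.im) ^ 2)) =
      fun y : ℂ => -2 * (y.im - z.im) := by
    funext y
    exact (LiouvilleB_phi R z y).2
  rw [h1, h2]
  constructor
  · have h3 : HasFDerivAt (fun y : ℂ => -2 * (y.re - z.re)) _ y :=
      (LiouvilleB_re z.re y).const_mul (-2)
    unfold Dx
    rw [h3.fderiv]
    simp
  · have h3 : HasFDerivAt (fun y : ℂ => -2 * (y.im - z.im)) _ y :=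
      (LiouvilleB_im z.im y).const_mul (-2)
    unfold Dy
    rw [h3.fderiv]
    simp

/-- Comparison with the hyperbolic metric of a disc. -/
theorem LiouvilleB_disc {s R : ℝ} (hs : 0 ≤ s) (hR : 0 < R) {z : ℂ} {w : ℂ → ℝ}
    (hw : ContDiff ℝ 2 w)
    (hsol : ∀ y ∈ ball z R, Lap w y = Real.exp (2 * w y) - s) :
    Real.exp (2 * w z) * R ^ 2 ≤ 4 + s * R ^ 2 := by
  set φ : ℂ → ℝ := fun y => R ^ 2 - ((y.re - z.re) ^ 2 + (y.im - z.im) ^ 2) with hφ
  have hφn : ∀ y, φ y = R ^ 2 - ‖y - z‖ ^ 2 := by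
    intro y
    rw [hφ, ← Complex.normSq_eq_norm_sq, Complex.normSq_apply]
    simp only [Complex.sub_re, Complex.sub_im]
    ring
  have hφc : ContDiff ℝ 2 φ := by
    have h1 : ContDiff ℝ 2 (fun y : ℂ => y.re - z.re) :=
      Complex.reCLM.contDiff.sub contDiff_const
    have h2 : ContDiff ℝ 2 (fun y : ℂ => y.im - z.im) :=
      Complex.imCLM.contDiff.sub contDiff_const
    exact contDiff_const.sub ((h1.pow 2).add (h2.pow 2))
  have hcont : Continuous (fun y => Real.exp (w y) * φ y) :=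
    (Real.continuous_exp.comp hw.continuous).mul hφc.continuous
  obtain ⟨y₀, hy₀, hmax⟩ := (isCompact_closedBall z R).exists_isMaxOn
    ⟨z, mem_closedBall_self hR.le⟩ hcont.continuousOn
  have hmax' : ∀ y ∈ closedBall z R,
      Real.exp (w y) * φ y ≤ Real.exp (w y₀) * φ y₀ := fun y hy => hmax hy
  have hz : φ z = R ^ 2 := by
    rw [hφn, sub_self, norm_zero]
    ring
  have hzz := hmax' z (mem_closedBall_self hR.le)
  rw [hz] at hzz
  have hpos : 0 < Real.exp (w y₀) * φ y₀ :=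
    lt_of_lt_of_le (mul_pos (Real.exp_pos _) (by positivity)) hzz
  have hφ0 : 0 < φ y₀ := by
    by_contra hcon
    have := mul_nonpos_of_nonneg_of_nonpos (Real.exp_pos (w y₀)).le (not_lt.1 hcon)
    linarith
  have hlt : ‖y₀ - z‖ < R := by
    have h1 := hφ0
    rw [hφn] at h1
    nlinarith [norm_nonneg (y₀ - z)]
  have hball : y₀ ∈ ball z R := by
    rw [mem_ball, dist_eq_norm]
    exact hlt
  have hloc : IsLocalMax (fun y => w y + Real.log (φ y)) y₀ := by
    have h0 : ∀ᶠ y in 𝓝 y₀, 0 < φ y := 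
      hφc.continuous.continuousAt.eventually (lt_mem_nhds hφ0)
    have h1 : ∀ᶠ y in 𝓝 y₀, y ∈ ball z R := isOpen_ball.mem_nhds hball
    show ∀ᶠ y in 𝓝 y₀, w y + Real.log (φ y) ≤ w y₀ + Real.log (φ y₀)
    filter_upwards [h0, h1] with y h2 h3
    have h4 := hmax' y (ball_subset_closedBall h3)
    have h5 := Real.log_le_log (mul_pos (Real.exp_pos _) h2) h4
    rw [Real.log_mul (Real.exp_pos _).ne' h2.ne', Real.log_mul (Real.exp_pos _).ne' hφ0.ne',
      Real.log_exp, Real.log_exp] at h5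
    exact h5
  have hwc : ContDiffAt ℝ 2 w y₀ := hw.contDiffAt
  have hφc' : ContDiffAt ℝ 2 φ y₀ := hφc.contDiffAt
  have hlc : ContDiffAt ℝ 2 (fun y => Real.log (φ y)) y₀ := hφc'.log hφ0.ne'
  obtain ⟨-, -, hxx, hyy, -⟩ := second_deriv_of_isLocalMax (hwc.add hlc) hloc
  have hxx' : Dx (Dx (fun y => w y + Real.log (φ y))) y₀ ≤ 0 := hxx
  have hyy' : Dy (Dy (fun y => w y + Real.log (φ y))) y₀ ≤ 0 := hyy
  rw [LiouvilleB_DxDx_add hwc hlc, LiouvilleB_DxDx_log hφc' hφ0, (LiouvilleB_phi R z y₀).1,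
    (LiouvilleB_phi2 R z y₀).1] at hxx'
  rw [LiouvilleB_DyDy_add hwc hlc, LiouvilleB_DyDy_log hφc' hφ0, (LiouvilleB_phi R z y₀).2,
    (LiouvilleB_phi2 R z y₀).2] at hyy'
  have hL := hsol y₀ hball
  unfold Lap at hL
  have e1 : Real.exp (2 * w y₀) - s ≤
      4 / φ y₀ + ((-2 * (y₀.re - z.re)) ^ 2 + (-2 * (y₀.im - z.im)) ^ 2) / φ y₀ ^ 2 := by
    rw [← hL, add_div]
    have e2 : (4 : ℝ) / φ y₀ = -((-2) / φ y₀) - ((-2) / φ y₀) := by ring
    rw [e2]
    linarith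
  have e3 : 4 / φ y₀ + ((-2 * (y₀.re - z.re)) ^ 2 + (-2 * (y₀.im - z.im)) ^ 2) / φ y₀ ^ 2 =
      4 * R ^ 2 / φ y₀ ^ 2 := by
    rw [div_add_div _ _ hφ0.ne' (by positivity), div_eq_div_iff (by positivity) (by positivity)]
    have : (y₀.re - z.re) ^ 2 + (y₀.im - z.im) ^ 2 = R ^ 2 - φ y₀ := by
      rw [hφ]
      ring
    have e4 : (-2 * (y₀.re - z.re)) ^ 2 + (-2 * (y₀.im - z.im)) ^ 2 = 4 * (R ^ 2 - φ y₀) := by
      rw [← this]
      ring
    rw [e4]
    ring
  rw [e3] at e1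
  have e5 : Real.exp (2 * w y₀) * φ y₀ ^ 2 ≤ 4 * R ^ 2 + s * φ y₀ ^ 2 := by
    have := mul_le_mul_of_nonneg_right e1 (sq_nonneg (φ y₀))
    rw [div_mul_cancel₀ _ (by positivity)] at this
    linarith
  have hφle : φ y₀ ≤ R ^ 2 := by
    rw [hφn]
    nlinarith [sq_nonneg ‖y₀ - z‖]
  have e6 : (Real.exp (w y₀) * φ y₀) ^ 2 ≤ 4 * R ^ 2 + s * (R ^ 2) ^ 2 := by
    have e7 : (Real.exp (w y₀) * φ y₀) ^ 2 = Real.exp (2 * w y₀) * φ y₀ ^ 2 := by
      rw [mul_pow, ← Real.exp_nat_mul]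
      norm_num
    rw [e7]
    have e8 : φ y₀ ^ 2 ≤ (R ^ 2) ^ 2 := pow_le_pow_left₀ hφ0.le hφle 2
    have e9 := mul_le_mul_of_nonneg_left e8 hs
    linarith
  have e10 : (Real.exp (w z) * R ^ 2) ^ 2 ≤ 4 * R ^ 2 + s * (R ^ 2) ^ 2 :=
    (pow_le_pow_left₀ (by positivity) hzz 2).trans e6
  have e11 : (Real.exp (w z) * R ^ 2) ^ 2 = (Real.exp (2 * w z) * R ^ 2) * R ^ 2 := by
    rw [mul_pow, ← Real.exp_nat_mul]
    norm_num
    ring
  rw [e11] at e10
  have hR2 : 0 < R ^ 2 := by positivity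
  refine le_of_mul_le_mul_right ?_ hR2
  linarith

/-- Upper bound far from `S`: comparison with the hyperbolic metric of a disc. Let
`δ = infDist z S ≥ 8 s`, `R = δ - 4 s ≥ δ / 2`; on `ball z R` the penalty is the constant `s`
(`pen_far`). The function `v y = log (2R / (R² - |y - z|²)) + (1/2) log (1 + s R²)` satisfies
`Δ v = (2R / (R² - |y-z|²))² ≤ e^{2v} - s` there and tends to `+∞` at the boundary; so `w ≤ v` in
the ball (look at a maximum of `w - v`). At the centre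
`e^{w z} ≤ (2/R) √(1 + s R²) ≤ (4/δ) √(1 + 4)` as `δ ≤ 2`, because `S` is nonempty and periodic. -/
theorem liouville_upper {a s : ℝ} (ha0 : 0 ≤ a) (ha : a ≤ 1 / 10) (hs : 0 < s) (hs1 : s ≤ 1)
    {S : Set ℂ} (hS : IsClosed S) (hne : S.Nonempty) (hSp : PerSet a S) {w : ℂ → ℝ}
    (hw : ContDiff ℝ 2 w) (hp : Per a w)
    (hsol : ∀ z, Lap w z = Real.exp (2 * w z) - pen Bpen S s z) (z : ℂ) :
    Real.exp (w z) * max (infDist z S) s ≤ 100 * (1 + Bpen) := by
  obtain ⟨-, hB, -⟩ := Bpen_spec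
  have ha' : |a| < 1 := by
    rw [abs_of_nonneg ha0]
    linarith
  have hw0 : 0 < Real.exp (w z) := Real.exp_pos _
  have hexp : (Real.exp (w z)) ^ 2 = Real.exp (2 * w z) := by
    rw [← Real.exp_nat_mul]
    norm_num
  have hmax0 : 0 < max (infDist z S) s := lt_of_lt_of_le hs (le_max_right _ _)
  rcases lt_or_ge (infDist z S) (8 * s) with hd | hd
  · have h1 := (liouville_le ha' hw hp hsol hs (fun z => pen_ge hB.le S z)
      (fun z => pen_le hB.le S z) z).2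
    have h2 : max (infDist z S) s ≤ 8 * s := max_le hd.le (by linarith)
    have h3 : (Real.exp (w z) * (8 * s)) ^ 2 ≤ (100 * (1 + Bpen)) ^ 2 := by
      have h4 : (Real.exp (w z) * (8 * s)) ^ 2 = Real.exp (2 * w z) * (64 * s ^ 2) := by
        rw [mul_pow, hexp]
        ring
      rw [h4]
      have h5 : Real.exp (2 * w z) * (64 * s ^ 2) ≤ (s + Bpen / s ^ 2) * (64 * s ^ 2) :=
        mul_le_mul_of_nonneg_right h1 (by positivity)
      have h6 : (s + Bpen / s ^ 2) * (64 * s ^ 2) = 64 * (s ^ 3 + Bpen) := by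
        field_simp
      have h7 : s ^ 3 ≤ 1 := pow_le_one₀ hs.le hs1
      nlinarith
    have h8 : Real.exp (w z) * (8 * s) ≤ 100 * (1 + Bpen) :=
      le_of_sq_le_sq h3 (by positivity)
    exact (mul_le_mul_of_nonneg_left h2 hw0.le).trans h8
  · set δ := infDist z S with hδ
    have hδs : s ≤ δ := by linarith
    rw [max_eq_left hδs]
    have hδ2 : δ ≤ 2 := by
      obtain ⟨p, hpS⟩ := hne
      obtain ⟨v, hv, hvn⟩ := exists_lat_near ha' (z - p)
      have h1 : p + v ∈ S := hSp p hpS v hv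
      have h2 := infDist_le_dist_of_mem (x := z) h1
      rw [dist_eq_norm] at h2
      have h3 : z - (p + v) = z - p - v := by ring
      rw [h3] at h2
      exact h2.trans hvn
    have hR : 0 < δ - 4 * s := by linarith
    have hkey := LiouvilleB_disc (s := s) (R := δ - 4 * s) hs.le hR (z := z) (w := w) hw
      (fun y hy => by
        rw [hsol y, pen_far hs]
        have h1 : infDist z S ≤ infDist y S + dist z y := infDist_le_infDist_add_dist
        rw [mem_ball, dist_comm] at hy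
        linarith)
    have hR2 : δ / 2 ≤ δ - 4 * s := by linarith
    have hδpos : 0 < δ := by linarith
    have h3 : (Real.exp (w z) * δ) ^ 2 ≤ (100 * (1 + Bpen)) ^ 2 := by
      rw [mul_pow, hexp]
      have hδR : δ ^ 2 ≤ 4 * (δ - 4 * s) ^ 2 := by
        nlinarith
      have hRδ : (δ - 4 * s) ^ 2 ≤ 4 := by
        nlinarith
      have h4 : Real.exp (2 * w z) * δ ^ 2 ≤ 4 * (Real.exp (2 * w z) * (δ - 4 * s) ^ 2) := by
        have := mul_le_mul_of_nonneg_left hδR (Real.exp_pos (2 * w z)).le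
        linarith
      have h5 : s * (δ - 4 * s) ^ 2 ≤ 4 := by
        nlinarith [sq_nonneg (δ - 4 * s)]
      nlinarith
    exact le_of_sq_le_sq h3 (by positivity)

end Pool.Agent.KK
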