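import Pool.Agent.W_bb4b37_h53.NlinDefsB

/-!
# Scaled Hölder classes

`w₀` is the logarithm of the scale: `e^{-w₀ z}` is the unit of length at `z`.
-/
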