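import Pool.Agent.W_bb4b37_h53.NlinDefsA

/-!
# Scaled Hölder classes (part B)
-/

set_option autoImplicit false

open Filter Topology Set MeasureTheory Metric
open scoped ContDiff

namespace Pool.Agent.KK

theorem NlinDefsB_exp2 : Real.exp 2 ≤ 7.4 := by
  have h : Real.exp 2 = Real.exp 1 * Real.exp 1 := by rw [← Real.exp_add]; norm_num
  have h1 := Real.exp_one_lt_d9
  have h2 := Real.exp_pos 1
  rw [h]
  nlinarith

theorem NlinDefsB_exp4 : Real.exp 4 ≤ 55 := by
  have h : Real.exp 4 = Real.exp 2 * Real.exp 2 := by rw [← Real.exp_add]; norm_num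
  have h1 := NlinDefsB_exp2
  have h2 := Real.exp_pos 2
  rw [h]
  nlinarith

/-- Lipschitz bound for the exponential -/
theorem NlinDefsB_lip {R x y : ℝ} (hx : |x| ≤ R) (hy : |y| ≤ R) :
    |Real.exp x - Real.exp y| ≤ Real.exp R * |x - y| := by
  have key : ∀ a b : ℝ, b ≤ a → a ≤ R → |Real.exp a - Real.exp b| ≤ Real.exp R * |a - b| := by
    intro a b hab ha
    rw [abs_of_nonneg (sub_nonneg.2 (Real.exp_le_exp.2 hab)), abs_of_nonneg (sub_nonneg.2 hab)]
    have h1 : b - a + 1 ≤ Real.exp (b - a) := Real.add_one_le_exp _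
    have h2 : Real.exp b = Real.exp a * Real.exp (b - a) := by rw [← Real.exp_add]; ring_nf
    have h3 : Real.exp a ≤ Real.exp R := Real.exp_le_exp.2 ha
    have h4 := Real.exp_pos a
    rw [h2]
    calc Real.exp a - Real.exp a * Real.exp (b - a) = Real.exp a * (1 - Real.exp (b - a)) := by
          ring
      _ ≤ Real.exp a * (a - b) := mul_le_mul_of_nonneg_left (by linarith) h4.le
      _ ≤ Real.exp R * (a - b) := mul_le_mul_of_nonneg_right h3 (by linarith)
  rcases le_total y x with h | h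
  · exact key x y h ((le_abs_self x).trans hx)
  · rw [abs_sub_comm, abs_sub_comm x y]
    exact key y x h ((le_abs_self y).trans hy)

theorem NlinDefsB_one {R x : ℝ} (hx : |x| ≤ R) : |Real.exp x - 1| ≤ Real.exp R * |x| := by
  have h := NlinDefsB_lip (R := R) (x := x) (y := 0) hx (by
    rw [abs_zero]; exact (abs_nonneg x).trans hx)
  rwa [Real.exp_zero, sub_zero] at h

/-- second order bound -/
theorem NlinDefsB_quad {K x y : ℝ} (hx : |Real.exp x - 1| ≤ K) (hy : |Real.exp y - 1| ≤ K) :
    |Real.exp x - Real.exp y - (x - y)| ≤ K * |x - y| := by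
  have key : ∀ a b : ℝ, b ≤ a → |Real.exp a - 1| ≤ K → |Real.exp b - 1| ≤ K →
      |Real.exp a - Real.exp b - (a - b)| ≤ K * |a - b| := by
    intro a b hab ha hb
    rw [abs_of_nonneg (sub_nonneg.2 hab)]
    have h1 : b - a + 1 ≤ Real.exp (b - a) := Real.add_one_le_exp _
    have h1' : a - b + 1 ≤ Real.exp (a - b) := Real.add_one_le_exp _
    have h2 : Real.exp b = Real.exp a * Real.exp (b - a) := by rw [← Real.exp_add]; ring_nf
    have h2' : Real.exp a = Real.exp b * Real.exp (a - b) := by rw [← Real.exp_add]; ring_nf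
    have h4 := Real.exp_pos a
    have h4' := Real.exp_pos b
    have u1 : Real.exp a - Real.exp b ≤ Real.exp a * (a - b) := by
      rw [h2]
      calc Real.exp a - Real.exp a * Real.exp (b - a) = Real.exp a * (1 - Real.exp (b - a)) := by
            ring
        _ ≤ Real.exp a * (a - b) := mul_le_mul_of_nonneg_left (by linarith) h4.le
    have u2 : Real.exp b * (a - b) ≤ Real.exp a - Real.exp b := by
      calc Real.exp b * (a - b) ≤ Real.exp b * (Real.exp (a - b) - 1) :=
            mul_le_mul_of_nonneg_left (by linarith) h4'.le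
        _ = Real.exp a - Real.exp b := by rw [h2']; ring
    have v1 : Real.exp a - 1 ≤ K := (le_abs_self _).trans ha
    have v2 : -K ≤ Real.exp b - 1 := (abs_le.1 hb).1
    have w1 : (Real.exp a - 1) * (a - b) ≤ K * (a - b) :=
      mul_le_mul_of_nonneg_right v1 (by linarith)
    have w2 : -K * (a - b) ≤ (Real.exp b - 1) * (a - b) :=
      mul_le_mul_of_nonneg_right v2 (by linarith)
    rw [abs_le]
    constructor <;> linarith
  rcases le_total y x with h | h
  · exact key x y h hx hy
  · have h1 := key y x h hy hx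
    have h2 : |Real.exp x - Real.exp y - (x - y)| = |Real.exp y - Real.exp x - (y - x)| := by
      rw [← abs_neg]
      congr 1
      ring
    rw [h2, abs_sub_comm x y]
    exact h1

/-- Composition with `t ↦ e^{c t}` (`|c| ≤ 2`) for functions bounded by `1`: `e^{c v}` is in the
class of order `0`, and the differences `e^{c v} - e^{c v'}` are controlled by `v - v'`. -/
theorem SH.exp_comp {κ : ℝ} {w₀ : ℂ → ℝ} {c : ℝ} (hc : |c| ≤ 2) {v : ℂ → ℝ}
    (hv : SH κ w₀ 0 1 v) : SH κ w₀ 0 100 (fun z => Real.exp (c * v z)) := by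
  have hb : ∀ z, |v z| ≤ 1 := fun z => by simpa using hv.bd z
  have hcb : ∀ z, |c * v z| ≤ 2 := by
    intro z
    rw [abs_mul]
    nlinarith [hb z, abs_nonneg c, abs_nonneg (v z)]
  constructor
  · intro z
    rw [zpow_zero, mul_one, abs_of_pos (Real.exp_pos _)]
    have h1 : Real.exp (c * v z) ≤ Real.exp 2 :=
      Real.exp_le_exp.2 ((le_abs_self _).trans (hcb z))
    linarith [NlinDefsB_exp2]
  · intro z y hzy
    have h1 := hv.hol z y hzy
    simp only [zpow_zero, mul_one, one_mul] at h1 ⊢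
    have h2 := NlinDefsB_lip (hcb y) (hcb z)
    have h3 : |c * v y - c * v z| = |c| * |v y - v z| := by rw [← mul_sub, abs_mul]
    rw [h3] at h2
    have h4 := NlinDefsB_exp2
    have h5 : |c| * |v y - v z| ≤ 2 * Real.sqrt (Real.exp (w₀ z) * ‖y - z‖) :=
      mul_le_mul hc h1 (abs_nonneg _) (by norm_num)
    calc |Real.exp (c * v y) - Real.exp (c * v z)| ≤ Real.exp 2 * (|c| * |v y - v z|) := h2
      _ ≤ 7.4 * (2 * Real.sqrt (Real.exp (w₀ z) * ‖y - z‖)) :=
          mul_le_mul h4 h5 (by positivity) (by norm_num)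
      _ ≤ 100 * Real.sqrt (Real.exp (w₀ z) * ‖y - z‖) := by
          have := Real.sqrt_nonneg (Real.exp (w₀ z) * ‖y - z‖)
          nlinarith

theorem SH.exp_sub {κ : ℝ} {w₀ : ℂ → ℝ} {c d : ℝ} (hc : |c| ≤ 2) (hd : 0 ≤ d) {v v' : ℂ → ℝ}
    (hv : SH κ w₀ 0 1 v) (hv' : SH κ w₀ 0 1 v') (h : SH κ w₀ 0 d (fun z => v z - v' z)) :
    SH κ w₀ 0 (10000 * d) (fun z => Real.exp (c * v z) - Real.exp (c * v' z)) := by
  have hb : ∀ z, |v z| ≤ 1 := fun z => by simpa using hv.bd z
  have hb' : ∀ z, |v' z| ≤ 1 := fun z => by simpa using hv'.bd z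
  have hcb : ∀ z, |c * v z| ≤ 2 := by
    intro z
    rw [abs_mul]
    nlinarith [hb z, abs_nonneg c, abs_nonneg (v z)]
  have hcb' : ∀ z, |c * v' z| ≤ 2 := by
    intro z
    rw [abs_mul]
    nlinarith [hb' z, abs_nonneg c, abs_nonneg (v' z)]
  have hDd : ∀ z, |c * v z - c * v' z| ≤ 2 * d := by
    intro z
    rw [← mul_sub, abs_mul]
    have h1 : |v z - v' z| ≤ d := by simpa using h.bd z
    exact mul_le_mul hc h1 (abs_nonneg _) (by norm_num)
  have hD4 : ∀ z, |c * v z - c * v' z| ≤ 4 := by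
    intro z
    have := abs_sub (c * v z) (c * v' z)
    linarith [hcb z, hcb' z]
  have e2 := NlinDefsB_exp2
  have e4 := NlinDefsB_exp4
  constructor
  · intro z
    rw [zpow_zero, mul_one]
    have h2 := NlinDefsB_lip (hcb z) (hcb' z)
    calc |Real.exp (c * v z) - Real.exp (c * v' z)| ≤ Real.exp 2 * |c * v z - c * v' z| := h2
      _ ≤ 7.4 * (2 * d) := mul_le_mul e2 (hDd z) (abs_nonneg _) (by norm_num)
      _ ≤ 10000 * d := by nlinarith
  · intro z y hzy
    have h1 := hv'.hol z y hzy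
    have h2 := h.hol z y hzy
    simp only [zpow_zero, mul_one, one_mul] at h1 h2 ⊢
    set s := Real.sqrt (Real.exp (w₀ z) * ‖y - z‖) with hs
    have hs0 : 0 ≤ s := Real.sqrt_nonneg _
    set B := c * v' y
    set B' := c * v' z
    set D := c * v y - c * v' y with hD
    set D' := c * v z - c * v' z with hD'
    have i1 : Real.exp (c * v y) = Real.exp B * Real.exp D := by
      rw [← Real.exp_add]; congr 1; ring
    have i2 : Real.exp (c * v z) = Real.exp B' * Real.exp D' := by
      rw [← Real.exp_add]; congr 1; ring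
    have e : Real.exp (c * v y) - Real.exp B - (Real.exp (c * v z) - Real.exp B') =
        (Real.exp B - Real.exp B') * (Real.exp D' - 1) + Real.exp B * (Real.exp D - Real.exp D') := by
      rw [i1, i2]; ring
    rw [e]
    have b1 : |Real.exp B - Real.exp B'| ≤ 7.4 * (2 * s) := by
      refine (NlinDefsB_lip (hcb' y) (hcb' z)).trans ?_
      refine mul_le_mul e2 ?_ (abs_nonneg _) (by norm_num)
      rw [← mul_sub, abs_mul]
      exact mul_le_mul hc h1 (abs_nonneg _) (by norm_num)
    have b2 : |Real.exp D' - 1| ≤ 55 * (2 * d) :=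
      (NlinDefsB_one (hD4 z)).trans (mul_le_mul e4 (hDd z) (abs_nonneg _) (by norm_num))
    have b3 : |Real.exp B| ≤ 7.4 := by
      rw [abs_of_pos (Real.exp_pos _)]
      exact (Real.exp_le_exp.2 ((le_abs_self _).trans (hcb' y))).trans e2
    have b4 : |Real.exp D - Real.exp D'| ≤ 55 * (2 * (d * s)) := by
      refine (NlinDefsB_lip (hD4 y) (hD4 z)).trans ?_
      refine mul_le_mul e4 ?_ (abs_nonneg _) (by norm_num)
      have : D - D' = c * ((v y - v' y) - (v z - v' z)) := by rw [hD, hD']; ring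
      rw [this, abs_mul]
      exact mul_le_mul hc h2 (abs_nonneg _) (by norm_num)
    have hds : 0 ≤ d * s := mul_nonneg hd hs0
    calc |(Real.exp B - Real.exp B') * (Real.exp D' - 1) + Real.exp B * (Real.exp D - Real.exp D')|
        ≤ |Real.exp B - Real.exp B'| * |Real.exp D' - 1| + |Real.exp B| * |Real.exp D - Real.exp D'| := by
          refine (abs_add_le _ _).trans ?_
          rw [abs_mul, abs_mul]
      _ ≤ (7.4 * (2 * s)) * (55 * (2 * d)) + 7.4 * (55 * (2 * (d * s))) :=
          add_le_add (mul_le_mul b1 b2 (abs_nonneg _) (by positivity))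
            (mul_le_mul b3 b4 (abs_nonneg _) (by norm_num))
      _ = 2442 * (d * s) := by ring
      _ ≤ 10000 * d * s := by nlinarith

/-- The function `E t = e^{2t} - 1 - 2t`: if `v, v'` are in the class with constant `M ≤ 1` and
`v - v'` with constant `d`, then `E v - E v'` has constant `10000 M d`. -/
theorem SH.quad_sub {κ : ℝ} {w₀ : ℂ → ℝ} {M d : ℝ} (hM : 0 ≤ M) (hM1 : M ≤ 1) (hd : 0 ≤ d)
    {v v' : ℂ → ℝ} (hv : SH κ w₀ 0 M v) (hv' : SH κ w₀ 0 M v')
    (h : SH κ w₀ 0 d (fun z => v z - v' z)) :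
    SH κ w₀ 0 (10000 * M * d) (fun z => (Real.exp (2 * v z) - 1 - 2 * v z)
      - (Real.exp (2 * v' z) - 1 - 2 * v' z)) := by
  have hb : ∀ z, |v z| ≤ M := fun z => by simpa using hv.bd z
  have hb' : ∀ z, |v' z| ≤ M := fun z => by simpa using hv'.bd z
  have hDb : ∀ z, |v z - v' z| ≤ d := fun z => by simpa using h.bd z
  have two : ∀ x : ℝ, |2 * x| = 2 * |x| := fun x => by
    rw [abs_mul, abs_of_pos (by norm_num : (0 : ℝ) < 2)]
  have h2b : ∀ z, |2 * v z| ≤ 2 * M := fun z => by rw [two]; linarith [hb z]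
  have h2b' : ∀ z, |2 * v' z| ≤ 2 * M := fun z => by rw [two]; linarith [hb' z]
  have h2D : ∀ z, |2 * (v z - v' z)| ≤ 2 * d := fun z => by rw [two]; linarith [hDb z]
  have h2D' : ∀ z, |2 * (v z - v' z)| ≤ 4 * M := fun z => by
    rw [two]
    have := abs_sub (v z) (v' z)
    linarith [hb z, hb' z]
  have e2 := NlinDefsB_exp2
  have e4 := NlinDefsB_exp4
  have c1 : ∀ z, |Real.exp (2 * v z) - 1| ≤ 7.4 * (2 * M) := fun z =>
    (NlinDefsB_one (R := 2) ((h2b z).trans (by linarith))).trans
      (mul_le_mul e2 (h2b z) (abs_nonneg _) (by norm_num))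
  have c2 : ∀ z, |Real.exp (2 * v' z) - 1| ≤ 7.4 * (2 * M) := fun z =>
    (NlinDefsB_one (R := 2) ((h2b' z).trans (by linarith))).trans
      (mul_le_mul e2 (h2b' z) (abs_nonneg _) (by norm_num))
  have c3 : ∀ z, |Real.exp (2 * (v z - v' z)) - 1| ≤ 55 * (2 * d) := fun z =>
    (NlinDefsB_one (R := 4) ((h2D' z).trans (by linarith))).trans
      (mul_le_mul e4 (h2D z) (abs_nonneg _) (by norm_num))
  have c4 : ∀ z, |Real.exp (2 * (v z - v' z)) - 1| ≤ 55 * (4 * M) := fun z =>
    (NlinDefsB_one (R := 4) ((h2D' z).trans (by linarith))).trans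
      (mul_le_mul e4 (h2D' z) (abs_nonneg _) (by norm_num))
  have hMd : 0 ≤ M * d := mul_nonneg hM hd
  constructor
  · intro z
    rw [zpow_zero, mul_one]
    have e : (Real.exp (2 * v z) - 1 - 2 * v z) - (Real.exp (2 * v' z) - 1 - 2 * v' z) =
        Real.exp (2 * v z) - Real.exp (2 * v' z) - (2 * v z - 2 * v' z) := by ring
    rw [e]
    refine (NlinDefsB_quad (c1 z) (c2 z)).trans ?_
    have h3 : |2 * v z - 2 * v' z| ≤ 2 * d := by
      rw [← mul_sub]; exact h2D z
    calc 7.4 * (2 * M) * |2 * v z - 2 * v' z| ≤ 7.4 * (2 * M) * (2 * d) :=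
          mul_le_mul_of_nonneg_left h3 (by positivity)
      _ = 29.6 * (M * d) := by ring
      _ ≤ 10000 * M * d := by nlinarith
  · intro z y hzy
    have h1 := hv'.hol z y hzy
    have h2 := h.hol z y hzy
    simp only [zpow_zero, mul_one] at h1 h2 ⊢
    set s := Real.sqrt (Real.exp (w₀ z) * ‖y - z‖) with hs
    have hs0 : 0 ≤ s := Real.sqrt_nonneg _
    have f1 : ∀ x, (Real.exp (2 * v x) - 1 - 2 * v x) - (Real.exp (2 * v' x) - 1 - 2 * v' x) =
        (Real.exp (2 * v' x) - 1) * (Real.exp (2 * (v x - v' x)) - 1) +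
          (Real.exp (2 * (v x - v' x)) - 1 - 2 * (v x - v' x)) := by
      intro x
      have : Real.exp (2 * v x) = Real.exp (2 * v' x) * Real.exp (2 * (v x - v' x)) := by
        rw [← Real.exp_add]; ring_nf
      rw [this]; ring
    rw [f1, f1]
    set D := v y - v' y with hD
    set D' := v z - v' z with hD'
    have e : (Real.exp (2 * v' y) - 1) * (Real.exp (2 * D) - 1) + (Real.exp (2 * D) - 1 - 2 * D) -
        ((Real.exp (2 * v' z) - 1) * (Real.exp (2 * D') - 1) + (Real.exp (2 * D') - 1 - 2 * D')) =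
        (Real.exp (2 * v' y) - Real.exp (2 * v' z)) * (Real.exp (2 * D) - 1) +
          (Real.exp (2 * v' z) - 1) * (Real.exp (2 * D) - Real.exp (2 * D')) +
          (Real.exp (2 * D) - Real.exp (2 * D') - (2 * D - 2 * D')) := by ring
    rw [e]
    have hDs : |2 * D - 2 * D'| ≤ 2 * (d * s) := by
      rw [← mul_sub, two]
      linarith
    have b1 : |Real.exp (2 * v' y) - Real.exp (2 * v' z)| ≤ 7.4 * (2 * (M * s)) := by
      refine (NlinDefsB_lip (R := 2) ((h2b' y).trans (by linarith))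
        ((h2b' z).trans (by linarith))).trans ?_
      refine mul_le_mul e2 ?_ (abs_nonneg _) (by norm_num)
      rw [← mul_sub, two]
      linarith
    have b2 : |Real.exp (2 * D) - Real.exp (2 * D')| ≤ 55 * (2 * (d * s)) := by
      refine (NlinDefsB_lip (R := 4) ((h2D' y).trans (by linarith))
        ((h2D' z).trans (by linarith))).trans ?_
      exact mul_le_mul e4 hDs (abs_nonneg _) (by norm_num)
    have b3 : |Real.exp (2 * D) - Real.exp (2 * D') - (2 * D - 2 * D')| ≤
        55 * (4 * M) * (2 * (d * s)) :=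
      (NlinDefsB_quad (c4 y) (c4 z)).trans (mul_le_mul_of_nonneg_left hDs (by positivity))
    have hMds : 0 ≤ M * d * s := mul_nonneg hMd hs0
    calc |(Real.exp (2 * v' y) - Real.exp (2 * v' z)) * (Real.exp (2 * D) - 1) +
          (Real.exp (2 * v' z) - 1) * (Real.exp (2 * D) - Real.exp (2 * D')) +
          (Real.exp (2 * D) - Real.exp (2 * D') - (2 * D - 2 * D'))|
        ≤ |Real.exp (2 * v' y) - Real.exp (2 * v' z)| * |Real.exp (2 * D) - 1| +
          |Real.exp (2 * v' z) - 1| * |Real.exp (2 * D) - Real.exp (2 * D')| +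
          |Real.exp (2 * D) - Real.exp (2 * D') - (2 * D - 2 * D')| := by
          refine (abs_add_le _ _).trans (add_le_add ((abs_add_le _ _).trans ?_) le_rfl)
          rw [abs_mul, abs_mul]
      _ ≤ (7.4 * (2 * (M * s))) * (55 * (2 * d)) + (7.4 * (2 * M)) * (55 * (2 * (d * s))) +
          55 * (4 * M) * (2 * (d * s)) := by
          refine add_le_add (add_le_add ?_ ?_) b3
          · exact mul_le_mul b1 (c3 y) (abs_nonneg _) (by positivity)
          · exact mul_le_mul (c2 z) b2 (abs_nonneg _) (by positivity)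
      _ = 3696 * (M * d * s) := by ring
      _ ≤ 10000 * M * d * s := by nlinarith

end Pool.Agent.KK
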