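import Pool.Agent.W_bb4b37_h53.NonEqD

/-!
# The two circle domains are not related by a Möbius transformation
-/
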