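import Pool.Agent.W_bb4b37_h53.CantorB
import Pool.Agent.W_bb4b37_h53.CantorE
import Pool.Agent.W_bb4b37_h53.QSA

/-!
# The two circle domains are not related by a Möbius transformation (part A)
-/

set_option autoImplicit false

open Filter Topology Set MeasureTheory Metric
open scoped ContDiff

namespace Pool.Agent.KK

/-- The data used: a homeomorphism `G`, quasisymmetric with its inverse, such that `G ⁻¹' Lam` is
invariant under `Lat a`. -/
structure QData (H a : ℝ) (G : ℂ ≃ₜ ℂ) : Prop where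
  wqs : WQS H G
  wqsInv : WQS H G.symm
  per : PerSet a (G ⁻¹' Lam)

/-- A compact set and a disjoint closed set have positive distance. -/
theorem NonEqA_gap {Q T : Set ℂ} (hQ : IsCompact Q) (hT : IsClosed T) (hd : Disjoint Q T) :
    ∃ g > 0, ∀ x ∈ Q, ∀ y ∈ T, g ≤ ‖x - y‖ := by
  obtain ⟨δ, hδ, h⟩ := hd.exists_thickenings hQ hT
  refine ⟨δ, hδ, fun x hx y hy => ?_⟩
  by_contra hlt
  rw [not_le] at hlt
  have h1 : x ∈ thickening δ Q := self_subset_thickening hδ Q hx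
  have h2 : x ∈ thickening δ T := by
    rw [mem_thickening_iff]
    exact ⟨y, hy, by rwa [dist_eq_norm]⟩
  exact (disjoint_left.1 h h1) h2

/-- A bounded separated piece of `G ⁻¹' Lam` (image of the piece of `piece_Lam`). -/
theorem QData.piece {H a : ℝ} {G : ℂ ≃ₜ ℂ} (h : QData H a G) :
    ∃ (Q : Set ℂ) (g D : ℝ), 0 < g ∧ IsCompact Q ∧ Q ⊆ G ⁻¹' Lam ∧ Q.Nonempty ∧
      (∃ x ∈ Q, ∃ y ∈ Q, x ≠ y) ∧ (∀ x ∈ Q, ∀ y ∈ Q, ‖x - y‖ ≤ D) ∧
      ∀ x ∈ Q, ∀ y ∈ G ⁻¹' Lam \ Q, g ≤ ‖x - y‖ := by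
  obtain ⟨Q, hQc, hQL, hQ0, _, hsep, _⟩ := piece_Lam
  -- a second point of `Q`
  obtain ⟨y, hyL, hy1, hy2⟩ := up_Lam 0 zero_mem_Lam (1 / 2000) (by norm_num)
  rw [sub_zero] at hy1 hy2
  have hyQ : y ∈ Q := by
    by_contra hy
    have h1 := hsep 0 hQ0 y ⟨hyL, hy⟩
    rw [zero_sub, norm_neg] at h1
    linarith
  have hy0 : y ≠ 0 := by
    rintro rfl
    rw [norm_zero] at hy1
    linarith
  -- the rest of `Lam` is closed
  have hcl : IsClosed (Lam \ Q) := by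
    have h1 : Lam \ Q = Lam ∩ (thickening (1 / 1000) Q)ᶜ := by
      ext x
      constructor
      · rintro ⟨hx, hxQ⟩
        refine ⟨hx, fun hx' => ?_⟩
        rw [mem_thickening_iff] at hx'
        obtain ⟨z, hz, hzx⟩ := hx'
        have h2 := hsep z hz x ⟨hx, hxQ⟩
        rw [dist_eq_norm, norm_sub_rev] at hzx
        linarith
      · rintro ⟨hx, hxQ⟩
        exact ⟨hx, fun hx' => hxQ (self_subset_thickening (by norm_num) Q hx')⟩
    rw [h1]
    exact isClosed_Lam.inter isOpen_thickening.isClosed_compl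
  have hQ' : IsCompact (G ⁻¹' Q) := G.isCompact_preimage.2 hQc
  have hcl' : IsClosed (G ⁻¹' Lam \ G ⁻¹' Q) := by
    rw [← preimage_sdiff]
    exact hcl.preimage G.continuous
  obtain ⟨g, hg, hgap⟩ := NonEqA_gap hQ' hcl' disjoint_sdiff_right
  obtain ⟨D, hD⟩ := hQ'.isBounded.exists_norm_le
  refine ⟨G ⁻¹' Q, g, D + D, hg, hQ', preimage_mono hQL, ⟨G.symm 0, by simpa using hQ0⟩,
    ⟨G.symm 0, by simpa using hQ0, G.symm y, by simpa using hyQ, ?_⟩, ?_, hgap⟩
  · intro h1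
    exact hy0 (G.symm.injective h1).symm
  · intro x hx z hz
    exact (norm_sub_le _ _).trans (add_le_add (hD x hx) (hD z hz))

/-- Small translations do not preserve `G ⁻¹' Lam`: with the piece `Q` and its gap `g`, if
`‖v‖ < g` and `S + v ⊆ S`, `S = G ⁻¹' Lam`, then `Q + v ⊆ Q`, so `Q + n v ⊆ Q` for all `n`, which is
impossible for `v ≠ 0` since `Q` is bounded. -/
theorem QData.discrete {H a : ℝ} {G : ℂ ≃ₜ ℂ} (h : QData H a G) :
    ∃ g > 0, ∀ v : ℂ, ‖v‖ < g → (∀ z ∈ G ⁻¹' Lam, z + v ∈ G ⁻¹' Lam) → v = 0 := by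
  obtain ⟨Q, g, D, hg, _, hQL, ⟨x, hx⟩, _, hD, hgap⟩ := h.piece
  refine ⟨g, hg, fun v hv hinv => ?_⟩
  have h1 : ∀ z ∈ Q, z + v ∈ Q := by
    intro z hz
    by_contra hz'
    have h2 := hgap z hz (z + v) ⟨hinv z (hQL hz), hz'⟩
    rw [sub_add_cancel_left, norm_neg] at h2
    linarith
  have h2 : ∀ n : ℕ, x + (n : ℂ) * v ∈ Q := by
    intro n
    induction n with
    | zero => simpa using hx
    | succ n ih =>
      have h3 := h1 _ ih
      have h4 : x + ((n + 1 : ℕ) : ℂ) * v = x + (n : ℂ) * v + v := by push_cast; ring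
      rw [h4]
      exact h3
  by_contra hv0
  have hpos : 0 < ‖v‖ := norm_pos_iff.2 hv0
  obtain ⟨n, hn⟩ := exists_nat_gt (D / ‖v‖)
  have h3 := hD _ (h2 n) x hx
  rw [add_sub_cancel_left, norm_mul, Complex.norm_natCast] at h3
  rw [div_lt_iff₀ hpos] at hn
  linarith

end Pool.Agent.KK
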