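import Pool.Agent.W_bb4b37_h53.NonEqA

/-!
# The two circle domains are not related by a Möbius transformation (part B)
-/

set_option autoImplicit false

open Filter Topology Set MeasureTheory Metric
open scoped ContDiff

namespace Pool.Agent.KK

theorem NonEqB_lat_add {a : ℝ} {u v : ℂ} (hu : u ∈ Lat a) (hv : v ∈ Lat a) : u + v ∈ Lat a := by
  obtain ⟨m, n, rfl⟩ := hu
  obtain ⟨m', n', rfl⟩ := hv
  exact ⟨m + m', n + n', by push_cast; ring⟩

theorem NonEqB_lat_neg {a : ℝ} {u : ℂ} (hu : u ∈ Lat a) : -u ∈ Lat a := by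
  obtain ⟨m, n, rfl⟩ := hu
  exact ⟨-m, -n, by push_cast; ring⟩

/-- Reduction modulo the lattice. -/
theorem NonEqB_reduce {a : ℝ} (ha0 : 0 ≤ a) (ha : a ≤ 1 / 10) (z : ℂ) :
    ∃ v ∈ Lat a, ‖z - v‖ ≤ 2 := by
  have h1 : (0 : ℝ) < 1 + a := by linarith
  have h2 : (0 : ℝ) < 1 - a := by linarith
  refine ⟨_, ⟨⌊z.re / (1 + a)⌋, ⌊z.im / (1 - a)⌋, rfl⟩, ?_⟩
  have key : z - ((⌊z.re / (1 + a)⌋ : ℂ) * (1 + (a : ℂ)) +
      (⌊z.im / (1 - a)⌋ : ℂ) * ((1 - (a : ℂ)) * Complex.I)) =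
      ((Int.fract (z.re / (1 + a)) * (1 + a) : ℝ) : ℂ) +
      ((Int.fract (z.im / (1 - a)) * (1 - a) : ℝ) : ℂ) * Complex.I := by
    have e1 : Int.fract (z.re / (1 + a)) * (1 + a) = z.re - ⌊z.re / (1 + a)⌋ * (1 + a) := by
      rw [← Int.self_sub_floor, sub_mul, div_mul_cancel₀ _ h1.ne']
    have e2 : Int.fract (z.im / (1 - a)) * (1 - a) = z.im - ⌊z.im / (1 - a)⌋ * (1 - a) := by
      rw [← Int.self_sub_floor, sub_mul, div_mul_cancel₀ _ h2.ne']
    rw [e1, e2]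
    push_cast
    linear_combination -(Complex.re_add_im z)
  rw [key]
  refine (norm_add_le _ _).trans ?_
  rw [norm_mul, Complex.norm_I, mul_one, Complex.norm_real, Complex.norm_real,
    Real.norm_eq_abs, Real.norm_eq_abs,
    abs_of_nonneg (mul_nonneg (Int.fract_nonneg _) h1.le),
    abs_of_nonneg (mul_nonneg (Int.fract_nonneg _) h2.le)]
  have b1 := mul_le_mul_of_nonneg_right (Int.fract_lt_one (z.re / (1 + a))).le h1.le
  have b2 := mul_le_mul_of_nonneg_right (Int.fract_lt_one (z.im / (1 - a))).le h2.le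
  linarith

/-- Pigeonhole: a period `β` of a set with discrete period group containing `Lat a` has a multiple
in `Lat a`. -/
theorem NonEqB_multiple {a : ℝ} (ha0 : 0 ≤ a) (ha : a ≤ 1 / 10) (P : AddSubgroup ℂ)
    (hP : ∀ v ∈ Lat a, v ∈ P) {g : ℝ} (hg : 0 < g) (hd : ∀ v ∈ P, ‖v‖ < g → v = 0) {β : ℂ}
    (hβ : β ∈ P) : ∃ n : ℕ, 0 < n ∧ (n : ℂ) * β ∈ Lat a := by
  choose lam hlam hr using fun n : ℕ => NonEqB_reduce ha0 ha ((n : ℂ) * β)
  obtain ⟨x, -, φ, hφ, hx⟩ := tendsto_subseq_of_bounded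
    (x := fun n : ℕ => (n : ℂ) * β - lam n) (s := Metric.closedBall (0 : ℂ) 2)
    Metric.isBounded_closedBall (fun n => by
      rw [mem_closedBall_zero_iff]; exact hr n)
  have hc := hx.cauchySeq
  rw [Metric.cauchySeq_iff'] at hc
  obtain ⟨N, hN⟩ := hc g hg
  have h1 := hN (N + 1) (Nat.le_succ N)
  have hlt : φ N < φ (N + 1) := hφ (Nat.lt_succ_self N)
  refine ⟨φ (N + 1) - φ N, Nat.sub_pos_of_lt hlt, ?_⟩
  have hcast : ((φ (N + 1) - φ N : ℕ) : ℂ) = (φ (N + 1) : ℂ) - (φ N : ℂ) := by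
    rw [Nat.cast_sub hlt.le]
  have hv : ((φ (N + 1) : ℂ) * β - lam (φ (N + 1))) - ((φ N : ℂ) * β - lam (φ N)) = 0 := by
    apply hd
    · have h2 : (φ (N + 1) : ℂ) * β ∈ P := by
        rw [← nsmul_eq_mul]; exact P.nsmul_mem hβ _
      have h3 : (φ N : ℂ) * β ∈ P := by
        rw [← nsmul_eq_mul]; exact P.nsmul_mem hβ _
      exact P.sub_mem (P.sub_mem h2 (hP _ (hlam _))) (P.sub_mem h3 (hP _ (hlam _)))
    · rw [dist_eq_norm] at h1
      exact h1
  have h4 : ((φ (N + 1) - φ N : ℕ) : ℂ) * β = lam (φ (N + 1)) + -lam (φ N) := by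
    rw [hcast]
    linear_combination hv
  rw [h4]
  exact NonEqB_lat_add (hlam _) (NonEqB_lat_neg (hlam _))

/-- **Affine case.** No similarity `z ↦ α z + b` maps `S₀ = G₀ ⁻¹' Lam` (invariant under
`Lat 0`) onto `S₁ = G₁ ⁻¹' Lam` (invariant under `Lat a`), if `(1 - a) / (1 + a)` is irrational.
Proof: `S₁` is invariant under `α Lat 0` and `Lat a`. The differences of `n α` and the nearest
points of `Lat a` (bounded vectors) repeat up to `g` by pigeonhole; so some `n α`, `n ≥ 1`, is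
within `g` of a point of `Lat a` and hence, by `QData.discrete`, belongs to `Lat a`; similarly
`n' α i ∈ Lat a`. So `n n' α = p (1 + a) + q (1 - a) i` and `n n' α i = r (1 + a) + t (1 - a) i` with
integers; hence `i (p (1+a) + q (1-a) i) = r (1+a) + t (1-a) i`, i.e. `- q (1-a) = r (1+a)` and
`p (1+a) = t (1-a)`; irrationality gives `p = q = 0`, `α = 0`. -/
theorem not_affine {H a : ℝ} (ha0 : 0 ≤ a) (ha : a ≤ 1 / 10)
    (hirr : Irrational ((1 - a) / (1 + a))) {G₀ G₁ : ℂ ≃ₜ ℂ} (h0 : QData H 0 G₀)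
    (h1 : QData H a G₁) {α b : ℂ} (hα : α ≠ 0) :
    (fun z => α * z + b) '' (G₀ ⁻¹' Lam) ≠ G₁ ⁻¹' Lam := by
  intro hEq
  obtain ⟨g, hg, hdisc⟩ := h1.discrete
  set S := G₁ ⁻¹' Lam with hS
  let P : AddSubgroup ℂ :=
    { carrier := {v | (∀ z ∈ S, z + v ∈ S) ∧ ∀ z ∈ S, z + -v ∈ S}
      zero_mem' := by simp
      add_mem' := by
        rintro u v ⟨hu, hu'⟩ ⟨hv, hv'⟩
        constructor
        · intro z hz
          have := hv _ (hu z hz)
          rwa [add_assoc] at this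
        · intro z hz
          have := hv' _ (hu' z hz)
          rwa [add_assoc, ← neg_add] at this
      neg_mem' := by
        rintro u ⟨hu, hu'⟩
        refine ⟨hu', ?_⟩
        simpa using hu }
  have hPlat : ∀ v ∈ Lat a, v ∈ P := fun v hv =>
    ⟨fun z hz => h1.per z hz v hv, fun z hz => h1.per z hz (-v) (NonEqB_lat_neg hv)⟩
  have hPd : ∀ v ∈ P, ‖v‖ < g → v = 0 := fun v hv hvg => hdisc v hvg hv.1
  have hα0 : ∀ w ∈ Lat 0, ∀ z ∈ S, z + α * w ∈ S := by
    intro w hw z hz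
    rw [← hEq] at hz
    obtain ⟨x, hx, rfl⟩ := hz
    rw [← hEq]
    refine ⟨x + w, h0.per x hx w hw, ?_⟩
    simp only
    ring
  have hαP : ∀ w ∈ Lat 0, α * w ∈ P := fun w hw =>
    ⟨hα0 w hw, fun z hz => by
      have := hα0 (-w) (NonEqB_lat_neg hw) z hz
      rwa [mul_neg] at this⟩
  have one_mem : (1 : ℂ) ∈ Lat 0 := ⟨1, 0, by simp⟩
  have I_mem : Complex.I ∈ Lat 0 := ⟨0, 1, by simp⟩
  obtain ⟨n, hn, p, q, hpq⟩ := NonEqB_multiple ha0 ha P hPlat hg hPd (hαP 1 one_mem)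
  obtain ⟨n', hn', r, t, hrt⟩ := NonEqB_multiple ha0 ha P hPlat hg hPd (hαP Complex.I I_mem)
  have e1 : (1 + a : ℝ) ≠ 0 := by linarith
  have e2 : (1 - a : ℝ) ≠ 0 := by linarith
  -- the two relations
  have hmain : (n' : ℂ) * Complex.I * ((p : ℂ) * (1 + (a : ℂ)) +
      (q : ℂ) * ((1 - (a : ℂ)) * Complex.I)) =
      (n : ℂ) * ((r : ℂ) * (1 + (a : ℂ)) + (t : ℂ) * ((1 - (a : ℂ)) * Complex.I)) := by
    rw [← hpq, ← hrt]; ring
  have hre := congrArg Complex.re hmain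
  have him := congrArg Complex.im hmain
  have hre' : -((n' : ℝ) * q * (1 - a)) = n * r * (1 + a) := by
    simp at hre
    linarith
  have him' : (n' : ℝ) * p * (1 + a) = n * t * (1 - a) := by
    simp at him
    linarith
  have hn0 : (n : ℝ) ≠ 0 := by positivity
  have hn0' : (n' : ℝ) ≠ 0 := by positivity
  have hq : q = 0 := by
    by_contra hq
    have hq' : (q : ℝ) ≠ 0 := by exact_mod_cast hq
    apply hirr
    refine ⟨(-(n * r) / (n' * q) : ℚ), ?_⟩
    push_cast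
    rw [div_eq_div_iff (mul_ne_zero hn0' hq') e1]
    linarith
  have ht : t = 0 := by
    by_contra ht
    have ht' : (t : ℝ) ≠ 0 := by exact_mod_cast ht
    apply hirr
    refine ⟨((n' * p) / (n * t) : ℚ), ?_⟩
    push_cast
    rw [div_eq_div_iff (mul_ne_zero hn0 ht') e1]
    linarith
  have hp : p = 0 := by
    rw [ht] at him'
    simp only [Int.cast_zero, mul_zero, zero_mul] at him'
    have : (p : ℝ) = 0 := by
      rcases mul_eq_zero.1 him' with h | h
      · rcases mul_eq_zero.1 h with h | h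
        · exact absurd h hn0'
        · exact h
      · exact absurd h e1
    exact_mod_cast this
  rw [hp, hq] at hpq
  simp only [Int.cast_zero, zero_mul, add_zero, mul_one, mul_eq_zero, Nat.cast_eq_zero] at hpq
  rcases hpq with h | h
  · omega
  · exact hα h

end Pool.Agent.KK
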