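import Pool.Agent.W_bb4b37_h53.CantorD
import Pool.Agent.W_bb4b37_h53.NonEqB
import Pool.Agent.W_bb4b37_h53.QSMetricA

/-!
# The two circle domains are not related by a Möbius transformation (part C)
-/

set_option autoImplicit false

open Filter Topology Set MeasureTheory Metric
open scoped ContDiff

namespace Pool.Agent.KK

/-- Distance of two images under inversion. -/
theorem NonEqC_norm {κ u v : ℂ} (hu : u ≠ 0) (hv : v ≠ 0) :
    ‖κ / v - κ / u‖ = ‖κ‖ * ‖u - v‖ / (‖u‖ * ‖v‖) := by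
  have : κ / v - κ / u = κ * (u - v) / (u * v) := by
    field_simp
  rw [this, norm_div, norm_mul, norm_mul]

/-- **Pole case.** Let `q` be a point of `S₀` and `φ z = (α z + b) / (c z + d)`, `c ≠ 0`,
`α d - b c ≠ 0`, `c q + d = 0`. It is impossible that `φ` maps `S₀ \ {q}` onto
`S₁ \ {α / c}` (and `∞` to `α / c`, `q` to `∞`).
Proof. Let `Q, g, D` be the piece of `S₀`; for `v ∈ Lat 0` large, `Q_v = Q + v ⊆ S₀` does not
contain `q` and has the same gap `g` and diameter `≤ D`. For `x, x' ∈ Q_v`, `y ∈ S₀ \ Q_v`, `y ≠ q`: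
`|φ x - φ x'| / |φ x - φ y| = (|x - x'| / |x - y|) (|y - q| / |x' - q|) ≤ 3 D / g` as soon as
`|x' - q| ≥ D` and `|x' - q| ≥ g`: if `|y - x| ≤ |x' - q|` the second factor is `≤ 3`, otherwise
`|y - q| / |x - y| ≤ 3` and `|x - x'| / |x' - q| ≤ D / g`; and for the point `φ ∞ = α / c`,
`|φ x - φ x'| / |φ x - α/c| = |x - x'| / |x' - q| ≤ D / g`.
So the pieces `P_v = φ '' Q_v ⊆ S₁` satisfy `|X - X'| ≤ K |X - Y|` for `X, X' ∈ P_v`,
`Y ∈ S₁ \ P_v`. By `WQS.chain` for `G₁` the sets `P'_v = G₁ '' P_v ⊆ Lam` satisfy the same with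
another constant `K'`; their diameter `d_v > 0` tends to `0` as `v → ∞`
(`P_v` shrinks to `α / c`). By `chain_Lam` with `η = 1 / (4 K')` there are `X ∈ P'_v`,
`Y ∈ Lam \ P'_v` with `|X - Y| ≤ η d_v`; choose `X' ∈ P'_v` with `|X - X'| ≥ d_v / 2`:
`d_v / 2 ≤ K' |X - Y| ≤ d_v / 4`, a contradiction. -/
theorem not_pole {H a : ℝ} (hH : 1 ≤ H) {G₀ G₁ : ℂ ≃ₜ ℂ} (h0 : QData H 0 G₀)
    (h1 : QData H a G₁) {α b c d q : ℂ} (hc : c ≠ 0) (hdet : α * d - b * c ≠ 0)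
    (hq : q ∈ G₀ ⁻¹' Lam) (hqd : c * q + d = 0) (hp : α / c ∈ G₁ ⁻¹' Lam)
    (h : (fun z => (α * z + b) / (c * z + d)) '' (G₀ ⁻¹' Lam \ {q}) = G₁ ⁻¹' Lam \ {α / c}) :
    False := by
  obtain ⟨Q, g, D, hg, hQc, hQS, ⟨x₀, hx₀⟩, ⟨u₁, hu₁, u₂, hu₂, hu⟩, hD, hsep⟩ := h0.piece
  have hDpos : 0 < D := lt_of_lt_of_le (norm_pos_iff.2 (sub_ne_zero.2 hu)) (hD u₁ hu₁ u₂ hu₂)
  obtain ⟨κ, hκdef⟩ : ∃ κ : ℂ, κ = (b + α * q) / c := ⟨_, rfl⟩
  obtain ⟨p, hpdef⟩ : ∃ p : ℂ, p = α / c := ⟨_, rfl⟩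
  rw [← hpdef] at hp h
  have hκ : κ ≠ 0 := by
    rw [hκdef]
    refine div_ne_zero ?_ hc
    intro h0'
    apply hdet
    linear_combination (-c) * h0' + α * hqd
  have hφ : ∀ z, z ≠ q → (α * z + b) / (c * z + d) = p + κ / (z - q) := by
    intro z hz
    have h2 : c * z + d = c * (z - q) := by linear_combination hqd
    have h3 : z - q ≠ 0 := sub_ne_zero.2 hz
    rw [h2, hκdef, hpdef]
    field_simp
    ring
  obtain ⟨n, hn⟩ := pow_unbounded_of_one_lt (3 * D / g) (one_lt_two (α := ℝ))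
  obtain ⟨K', hK'⟩ : ∃ K' : ℝ, K' = (H * (H + 1)) ^ n * H := ⟨_, rfl⟩
  have hH0 : 0 < H := by linarith
  have hK'0 : 0 < K' := by rw [hK']; positivity
  obtain ⟨d₀, hd₀, hchain⟩ := chain_Lam (1 / (4 * K')) (by positivity)
  obtain ⟨ρ, hρ, hρ'⟩ := Metric.continuousAt_iff.1 (G₁.continuous.continuousAt (x := p))
    (d₀ / 2) (by positivity)
  obtain ⟨N, hN⟩ := exists_nat_gt (‖x₀ - q‖ + D + (D + g + ‖κ‖ / ρ + 1))
  have hρκ : 0 ≤ ‖κ‖ / ρ := by positivity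
  have hfar : ∀ x ∈ Q, D + g + ‖κ‖ / ρ + 1 ≤ ‖x + N - q‖ := by
    intro x hx
    have e1 : ((N : ℕ) : ℂ) = (x + N - q) - (x - x₀) - (x₀ - q) := by ring
    have e2 : (N : ℝ) = ‖((N : ℕ) : ℂ)‖ := by simp
    have e3 := norm_sub_le ((x + N - q) - (x - x₀)) (x₀ - q)
    have e4 := norm_sub_le (x + N - q) (x - x₀)
    rw [← e1, ← e2] at e3
    have e5 := hD x hx x₀ hx₀
    linarith
  have hne : ∀ x ∈ Q, x + N - q ≠ 0 := by
    intro x hx h2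
    have := hfar x hx
    rw [h2, norm_zero] at this
    linarith
  have hNlat : ((N : ℕ) : ℂ) ∈ Lat 0 := ⟨N, 0, by simp⟩
  have hNlat' : -((N : ℕ) : ℂ) ∈ Lat 0 := NonEqB_lat_neg hNlat
  -- the piece in `S₁`
  let ψ : ℂ → ℂ := fun x => p + κ / (x + N - q)
  have hψmem : ∀ x ∈ Q, ψ x ∈ G₁ ⁻¹' Lam := by
    intro x hx
    have h2 : x + N ≠ q := fun h3 => hne x hx (by rw [h3, sub_self])
    have h3 : ψ x ∈ G₁ ⁻¹' Lam \ {p} := by
      rw [← h]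
      exact ⟨x + N, ⟨h0.per x (hQS hx) _ hNlat, h2⟩, hφ _ h2⟩
    exact h3.1
  have hψc : ContinuousOn ψ Q := by
    apply ContinuousOn.add continuousOn_const
    apply ContinuousOn.div continuousOn_const (by fun_prop) hne
  -- the basic estimate
  have hA : ∀ x ∈ Q, ∀ x' ∈ Q, ∀ Y ∈ G₁ ⁻¹' Lam, Y ∉ ψ '' Q →
      ‖ψ x' - ψ x‖ ≤ 3 * D / g * ‖Y - ψ x‖ := by
    intro x hx x' hx' Y hY hYn
    have hx0 := hne x hx
    have hx0' := hne x' hx'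
    have b1 : 0 < ‖x + N - q‖ := norm_pos_iff.2 hx0
    have b2 : 0 < ‖x' + N - q‖ := norm_pos_iff.2 hx0'
    have b3 := hfar x hx
    have b4 := hfar x' hx'
    have hκ0 : 0 < ‖κ‖ := norm_pos_iff.2 hκ
    have hxx := hD x hx x' hx'
    have e1 : ψ x' - ψ x = κ / (x' + N - q) - κ / (x + N - q) := by
      simp only [ψ]; ring
    have e2 : ‖ψ x' - ψ x‖ = ‖κ‖ * ‖x - x'‖ / (‖x + N - q‖ * ‖x' + N - q‖) := by
      rw [e1, NonEqC_norm hx0 hx0']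
      congr 3
      ring
    by_cases hYp : Y = p
    · have e3 : ‖Y - ψ x‖ = ‖κ‖ / ‖x + N - q‖ := by
        rw [hYp]
        have : p - ψ x = -(κ / (x + N - q)) := by simp only [ψ]; ring
        rw [this, norm_neg, norm_div]
      rw [e2, e3]
      have e4 : ‖κ‖ * ‖x - x'‖ / (‖x + N - q‖ * ‖x' + N - q‖) =
          ‖x - x'‖ / ‖x' + N - q‖ * (‖κ‖ / ‖x + N - q‖) := by
        field_simp
      rw [e4]
      refine mul_le_mul_of_nonneg_right ?_ (by positivity)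
      rw [div_le_div_iff₀ b2 hg]
      have c1 : ‖x - x'‖ * g ≤ D * g := mul_le_mul_of_nonneg_right hxx hg.le
      have c2 : D * g ≤ 3 * D * ‖x' + N - q‖ := by nlinarith
      linarith
    · have h2 : Y ∈ (fun z => (α * z + b) / (c * z + d)) '' (G₀ ⁻¹' Lam \ {q}) := by
        rw [h]; exact ⟨hY, hYp⟩
      obtain ⟨y, ⟨hy, hyq⟩, hyY⟩ := h2
      have hyq' : y ≠ q := hyq
      simp only at hyY
      rw [hφ y hyq'] at hyY
      have hy0 : y - q ≠ 0 := sub_ne_zero.2 hyq'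
      have b5 : 0 < ‖y - q‖ := norm_pos_iff.2 hy0
      have hyQ : y - N ∉ Q := by
        intro h3
        apply hYn
        refine ⟨y - N, h3, ?_⟩
        rw [← hyY]
        simp only [ψ]
        congr 2
        ring
      have hyS : y - N ∈ G₀ ⁻¹' Lam := by
        have := h0.per y hy _ hNlat'
        rwa [← sub_eq_add_neg] at this
      have hgy := hsep x hx (y - N) ⟨hyS, hyQ⟩
      have e3 : Y - ψ x = κ / (y - q) - κ / (x + N - q) := by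
        rw [← hyY]; simp only [ψ]; ring
      have e4 : ‖Y - ψ x‖ = ‖κ‖ * ‖x - (y - N)‖ / (‖x + N - q‖ * ‖y - q‖) := by
        rw [e3, NonEqC_norm hx0 hy0]
        congr 3
        ring
      rw [e2, e4]
      have e5 : ‖y - q‖ ≤ ‖x - (y - N)‖ + D + ‖x' + N - q‖ := by
        have t1 : y - q = -(x - (y - N)) + (x - x') + (x' + N - q) := by ring
        have t2 := norm_add₃_le (a := -(x - (y - N))) (b := x - x') (c := x' + N - q)
        rw [← t1, norm_neg] at t2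
        linarith
      have e6 : ‖x - x'‖ * ‖y - q‖ ≤ 3 * D / g * (‖x - (y - N)‖ * ‖x' + N - q‖) := by
        have c0 : ‖x - x'‖ * ‖y - q‖ ≤ D * (‖x - (y - N)‖ + D + ‖x' + N - q‖) :=
          mul_le_mul hxx e5 (norm_nonneg _) hDpos.le
        refine c0.trans ?_
        rw [div_mul_eq_mul_div, le_div_iff₀ hg]
        have s0 : 0 ≤ ‖x - (y - N)‖ := norm_nonneg _
        have c1 : ‖x - (y - N)‖ * g ≤ ‖x - (y - N)‖ * ‖x' + N - q‖ :=
          mul_le_mul_of_nonneg_left (by linarith) s0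
        have c2 : D * g ≤ ‖x' + N - q‖ * ‖x - (y - N)‖ :=
          mul_le_mul (by linarith) hgy hg.le b2.le
        have c3 : ‖x' + N - q‖ * g ≤ ‖x' + N - q‖ * ‖x - (y - N)‖ :=
          mul_le_mul_of_nonneg_left hgy b2.le
        nlinarith [mul_le_mul_of_nonneg_left (add_le_add (add_le_add c1 c2) c3) hDpos.le]
      have e7 : ‖κ‖ * ‖x - x'‖ / (‖x + N - q‖ * ‖x' + N - q‖) =
          (‖κ‖ / (‖x + N - q‖ * ‖x' + N - q‖ * ‖y - q‖)) * (‖x - x'‖ * ‖y - q‖) := by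
        field_simp
      have e8 : 3 * D / g * (‖κ‖ * ‖x - (y - N)‖ / (‖x + N - q‖ * ‖y - q‖)) =
          (‖κ‖ / (‖x + N - q‖ * ‖x' + N - q‖ * ‖y - q‖)) *
            (3 * D / g * (‖x - (y - N)‖ * ‖x' + N - q‖)) := by
        field_simp
      rw [e7, e8]
      exact mul_le_mul_of_nonneg_left e6 (by positivity)
  -- the estimate for the images under `G₁`
  have hB : ∀ x ∈ Q, ∀ x' ∈ Q, ∀ Y ∈ G₁ ⁻¹' Lam, Y ∉ ψ '' Q →
      ‖G₁ (ψ x') - G₁ (ψ x)‖ ≤ K' * ‖G₁ Y - G₁ (ψ x)‖ := by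
    intro x hx x' hx' Y hY hYn
    rw [hK']
    apply WQS.chain hH h1.wqs n
    refine (hA x hx x' hx' Y hY hYn).trans ?_
    exact mul_le_mul_of_nonneg_right hn.le (norm_nonneg _)
  -- the compact piece
  have hcomp : IsCompact ((fun x => G₁ (ψ x)) '' Q) :=
    hQc.image_of_continuousOn (G₁.continuous.comp_continuousOn hψc)
  obtain ⟨⟨A, B⟩, ⟨hAm, hBm⟩, hmax⟩ := (hcomp.prod hcomp).exists_isMaxOn
    ⟨(G₁ (ψ x₀), G₁ (ψ x₀)), ⟨x₀, hx₀, rfl⟩, ⟨x₀, hx₀, rfl⟩⟩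
    (f := fun z : ℂ × ℂ => ‖z.1 - z.2‖) (by fun_prop)
  simp only at hAm hBm
  have hmax' : ∀ X ∈ (fun x => G₁ (ψ x)) '' Q, ∀ X' ∈ (fun x => G₁ (ψ x)) '' Q,
      ‖X - X'‖ ≤ ‖A - B‖ := fun X hX X' hX' => hmax (a := (X, X')) ⟨hX, hX'⟩
  have hABpos : 0 < ‖A - B‖ := by
    have h2 := hmax' _ ⟨u₁, hu₁, rfl⟩ _ ⟨u₂, hu₂, rfl⟩
    refine lt_of_lt_of_le (norm_pos_iff.2 (sub_ne_zero.2 ?_)) h2
    intro h3
    have h4 := G₁.injective h3
    simp only [ψ, add_right_inj] at h4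
    rw [div_eq_div_iff (hne _ hu₁) (hne _ hu₂)] at h4
    have h5 := mul_left_cancel₀ hκ h4
    apply hu
    linear_combination -h5
  have hsmall : ∀ x ∈ Q, ‖G₁ (ψ x) - G₁ p‖ < d₀ / 2 := by
    intro x hx
    have h2 := hρ' (x := ψ x) (by
      rw [dist_eq_norm]
      have h3 : ψ x - p = κ / (x + N - q) := by simp only [ψ]; ring
      have b1 : 0 < ‖x + N - q‖ := norm_pos_iff.2 (hne x hx)
      rw [h3, norm_div, div_lt_iff₀ b1]
      have h4 := hfar x hx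
      have h5 : ‖κ‖ / ρ < ‖x + N - q‖ := by linarith
      rw [div_lt_iff₀ hρ] at h5
      linarith)
    rwa [dist_eq_norm] at h2
  have hABle : ‖A - B‖ ≤ d₀ := by
    obtain ⟨xa, hxa, rfl⟩ := hAm
    obtain ⟨xb, hxb, rfl⟩ := hBm
    have h2 := hsmall xa hxa
    have h3 := hsmall xb hxb
    have h4 := norm_sub_le (G₁ (ψ xa) - G₁ p) (G₁ (ψ xb) - G₁ p)
    have h5 : G₁ (ψ xa) - G₁ p - (G₁ (ψ xb) - G₁ p) = G₁ (ψ xa) - G₁ (ψ xb) := by ring
    rw [h5] at h4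
    simp only
    linarith
  obtain ⟨X, hX, Y, ⟨hYL, hYn⟩, hXY⟩ := hchain _ hABpos hABle ((fun x => G₁ (ψ x)) '' Q)
    (by rintro _ ⟨x, hx, rfl⟩; exact hψmem x hx) ⟨_, x₀, hx₀, rfl⟩ hmax'
  -- a point at distance at least half of the diameter
  obtain ⟨X', hX', hhalf⟩ : ∃ X' ∈ (fun x => G₁ (ψ x)) '' Q, ‖A - B‖ / 2 ≤ ‖X' - X‖ := by
    by_contra hcon
    push Not at hcon
    have h2 := hcon A hAm
    have h3 := hcon B hBm
    have h4 := norm_sub_le (A - X) (B - X)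
    have h5 : A - X - (B - X) = A - B := by ring
    rw [h5] at h4
    linarith
  obtain ⟨x, hx, rfl⟩ := hX
  obtain ⟨x', hx', rfl⟩ := hX'
  have hYmem : G₁.symm Y ∈ G₁ ⁻¹' Lam := by
    show G₁ (G₁.symm Y) ∈ Lam
    rw [G₁.apply_symm_apply]; exact hYL
  have hYnot : G₁.symm Y ∉ ψ '' Q := by
    rintro ⟨z, hz, hzY⟩
    apply hYn
    refine ⟨z, hz, ?_⟩
    simp only
    rw [hzY, G₁.apply_symm_apply]
  have h2 := hB x hx x' hx' _ hYmem hYnot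
  rw [G₁.apply_symm_apply] at h2
  have h3 : ‖Y - G₁ (ψ x)‖ ≤ 1 / (4 * K') * ‖A - B‖ := by
    rw [norm_sub_rev]; exact hXY
  have h4 : K' * ‖Y - G₁ (ψ x)‖ ≤ ‖A - B‖ / 4 := by
    calc K' * ‖Y - G₁ (ψ x)‖ ≤ K' * (1 / (4 * K') * ‖A - B‖) :=
          mul_le_mul_of_nonneg_left h3 hK'0.le
      _ = ‖A - B‖ / 4 := by field_simp
  simp only at hhalf
  linarith

end Pool.Agent.KK
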