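import Pool.Agent.W_bb4b37_h53.QSC

/-!
# Quasisymmetry of smooth quasiconformal diffeomorphisms of the plane (length-area method)
-/
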