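import Pool.Agent.W_bb4b37_h53.SchauderB

/-!
# Global Schauder estimates for the Laplacian on the plane, by the heat semigroup (part C)
-/

set_option autoImplicit false

open Filter Topology Set MeasureTheory Metric
open scoped ContDiff

namespace Pool.Agent.KK

open scoped Convolution in
/-- mollification -/
noncomputable def SchauderC_m (n : ℕ) (u : ℂ → ℝ) : ℂ → ℝ :=
  ((⟨1 / (2 * ((n : ℝ) + 1)), 1 / ((n : ℝ) + 1), by positivity, by
    rw [one_div_lt_one_div (by positivity) (by positivity)]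
    have : (0 : ℝ) ≤ n := Nat.cast_nonneg n
    linarith⟩ : ContDiffBump (0 : ℂ)).normed volume) ⋆[ContinuousLinearMap.lsmul ℝ ℝ, volume] u

open scoped Convolution in
theorem SchauderC_D (n : ℕ) {u : ℂ → ℝ} (hu : ContDiff ℝ 1 u) (hc : HasCompactSupport u) :
    Dx (SchauderC_m n u) = SchauderC_m n (Dx u) ∧ Dy (SchauderC_m n u) = SchauderC_m n (Dy u) := by
  set φ : ContDiffBump (0 : ℂ) := ⟨1 / (2 * ((n : ℝ) + 1)), 1 / ((n : ℝ) + 1), by positivity, by
    rw [one_div_lt_one_div (by positivity) (by positivity)]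
    have : (0 : ℝ) ≤ n := Nat.cast_nonneg n
    linarith⟩
  have hli : LocallyIntegrable (φ.normed volume) volume :=
    (φ.continuous_normed).locallyIntegrable
  have key : ∀ z v : ℂ, fderiv ℝ (SchauderC_m n u) z v =
      SchauderC_m n (fun a => fderiv ℝ u a v) z := by
    intro z v
    have h := HasCompactSupport.hasFDerivAt_convolution_right (ContinuousLinearMap.lsmul ℝ ℝ)
      (μ := volume) (f := φ.normed volume) hc hli hu z
    have h2 : fderiv ℝ (SchauderC_m n u) z = _ := h.fderiv
    rw [h2, convolution_precompR_apply (ContinuousLinearMap.lsmul ℝ ℝ) hli (hc.fderiv ℝ)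
      (hu.continuous_fderiv one_ne_zero)]
    rfl
  exact ⟨funext fun z => key z 1, funext fun z => key z Complex.I⟩

theorem SchauderC_supp {u : ℂ → ℝ} (hc : HasCompactSupport u) :
    HasCompactSupport (Dx u) ∧ HasCompactSupport (Dy u) :=
  ⟨hc.fderiv_apply ℝ 1, hc.fderiv_apply ℝ Complex.I⟩

theorem SchauderC_DD (m : ℕ) (l : List Bool) : ∀ (n : ℕ) {u : ℂ → ℝ},
    ContDiff ℝ ((n + l.length : ℕ) : WithTop ℕ∞) u → HasCompactSupport u →
    ContDiff ℝ (n : WithTop ℕ∞) (DD l u) ∧ HasCompactSupport (DD l u) ∧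
      DD l (SchauderC_m m u) = SchauderC_m m (DD l u) := by
  induction l with
  | nil =>
    intro n u hu hc
    exact ⟨by simpa using hu, hc, rfl⟩
  | cons a l ih =>
    intro n u hu hc
    have h1 : ((n + 1 + l.length : ℕ) : WithTop ℕ∞) = ((n + (a :: l).length : ℕ) : WithTop ℕ∞) := by
      rw [List.length_cons]
      congr 1
      omega
    obtain ⟨i1, i2, i3⟩ := ih (n + 1) (h1 ▸ hu) hc
    have i1' : ContDiff ℝ 1 (DD l u) := i1.of_le (by
      push_cast
      exact_mod_cast Nat.le_add_left 1 n)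
    have hle : (n : WithTop ℕ∞) + 1 ≤ ((n + 1 : ℕ) : WithTop ℕ∞) := by push_cast; exact le_rfl
    cases a
    · refine ⟨contDiff_Dy i1 hle, (SchauderC_supp i2).2, ?_⟩
      rw [DD_false, DD_false, i3, (SchauderC_D m i1' i2).2]
    · refine ⟨contDiff_Dx i1 hle, (SchauderC_supp i2).1, ?_⟩
      rw [DD_true, DD_true, i3, (SchauderC_D m i1' i2).1]

open scoped Convolution in
theorem SchauderC_int (n : ℕ) {g : ℂ → ℝ} (hg : Continuous g) (hc : HasCompactSupport g) :
    ∃ φ : ℂ → ℝ, (∀ t, 0 ≤ φ t) ∧ Integrable φ ∧ ∫ t, φ t = 1 ∧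
      (∀ z, Integrable (fun t => φ t * g (z - t))) ∧
      ∀ z, SchauderC_m n g z = ∫ t, φ t * g (z - t) := by
  set φ : ContDiffBump (0 : ℂ) := ⟨1 / (2 * ((n : ℝ) + 1)), 1 / ((n : ℝ) + 1), by positivity, by
    rw [one_div_lt_one_div (by positivity) (by positivity)]
    have : (0 : ℝ) ≤ n := Nat.cast_nonneg n
    linarith⟩
  refine ⟨φ.normed volume, fun t => φ.nonneg_normed t, φ.integrable_normed, φ.integral_normed,
    fun z => ?_, fun z => rfl⟩
  have h1 : Continuous (fun t => φ.normed volume t * g (z - t)) :=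
    φ.continuous_normed.mul (hg.comp (by fun_prop))
  exact h1.integrable_of_hasCompactSupport (φ.hasCompactSupport_normed.mul_right)

theorem SchauderC_add (n : ℕ) {f g : ℂ → ℝ} (hf : Continuous f) (hcf : HasCompactSupport f)
    (hg : Continuous g) (hcg : HasCompactSupport g) (z : ℂ) :
    SchauderC_m n f z + SchauderC_m n g z = SchauderC_m n (fun y => f y + g y) z := by
  set φ : ContDiffBump (0 : ℂ) := ⟨1 / (2 * ((n : ℝ) + 1)), 1 / ((n : ℝ) + 1), by positivity, by
    rw [one_div_lt_one_div (by positivity) (by positivity)]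
    have : (0 : ℝ) ≤ n := Nat.cast_nonneg n
    linarith⟩
  have h1 : ∀ {g : ℂ → ℝ}, Continuous g → HasCompactSupport g →
      Integrable (fun t => φ.normed volume t * g (z - t)) := by
    intro g hg hc
    have h1 : Continuous (fun t => φ.normed volume t * g (z - t)) :=
      φ.continuous_normed.mul (hg.comp (by fun_prop))
    exact h1.integrable_of_hasCompactSupport (φ.hasCompactSupport_normed.mul_right)
  change (∫ t, φ.normed volume t * f (z - t)) + (∫ t, φ.normed volume t * g (z - t)) =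
    ∫ t, φ.normed volume t * (f (z - t) + g (z - t))
  rw [← integral_add (h1 hf hcf) (h1 hg hcg)]
  simp only [mul_add]

theorem SchauderC_holder (n : ℕ) {g : ℂ → ℝ} (hg : Continuous g) (hc : HasCompactSupport g)
    {M : ℝ} (h : ∀ z z', |g z - g z'| ≤ M * Real.sqrt ‖z - z'‖) (z z' : ℂ) :
    |SchauderC_m n g z - SchauderC_m n g z'| ≤ M * Real.sqrt ‖z - z'‖ := by
  obtain ⟨φ, h0, hi, h1, h2, h3⟩ := SchauderC_int n hg hc
  rw [h3, h3, ← integral_sub (h2 z) (h2 z')]
  calc |∫ t, (φ t * g (z - t) - φ t * g (z' - t))|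
      ≤ ∫ t, |φ t * g (z - t) - φ t * g (z' - t)| := abs_integral_le_integral_abs
    _ ≤ ∫ t, φ t * (M * Real.sqrt ‖z - z'‖) := by
        refine integral_mono ((h2 z).sub (h2 z')).abs (hi.mul_const _) fun t => ?_
        simp only
        rw [← mul_sub, abs_mul, abs_of_nonneg (h0 t)]
        refine mul_le_mul_of_nonneg_left ?_ (h0 t)
        refine (h _ _).trans (le_of_eq ?_)
        congr 3
        ring
    _ = M * Real.sqrt ‖z - z'‖ := by rw [integral_mul_const, h1, one_mul]

open scoped Convolution in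
theorem SchauderC_tendsto {g : ℂ → ℝ} (hg : Continuous g) (z : ℂ) :
    Tendsto (fun n => SchauderC_m n g z) atTop (𝓝 (g z)) := by
  refine ContDiffBump.convolution_tendsto_right_of_continuous ?_ hg z
  exact tendsto_one_div_add_atTop_nhds_zero_nat

open scoped Convolution in
theorem SchauderC_bc (n : ℕ) {u : ℂ → ℝ} (hu : Continuous u) (hc : HasCompactSupport u) :
    BCinf (SchauderC_m n u) := by
  have hcd : ContDiff ℝ ∞ (SchauderC_m n u) :=
    HasCompactSupport.contDiff_convolution_left (ContinuousLinearMap.lsmul ℝ ℝ)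
      (ContDiffBump.hasCompactSupport_normed _) (ContDiffBump.contDiff_normed _)
      (hu.locallyIntegrable)
  have hcs : HasCompactSupport (SchauderC_m n u) :=
    HasCompactSupport.convolution (ContinuousLinearMap.lsmul ℝ ℝ)
      (ContDiffBump.hasCompactSupport_normed _) hc
  refine ⟨hcd, fun k => ?_⟩
  exact (hcd.continuous_iteratedFDeriv (mod_cast le_top)).bounded_above_of_compact_support
    (hcs.iteratedFDeriv k)

/-- The Schauder estimate for compactly supported `C²` functions. Proof: mollify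
(`u_ε = u * moll_ε` is smooth with compact support, hence `BCinf`; `Δ u_ε = (Δu) * moll_ε` has the
same Hölder constant; `D² u_ε → D² u` pointwise because `D² u` is continuous). -/
theorem schauder_C2 : ∃ C : ℝ, 0 < C ∧ ∀ (u : ℂ → ℝ) (M : ℝ), ContDiff ℝ 2 u →
    HasCompactSupport u →
    (∀ z z', |Lap u z - Lap u z'| ≤ M * Real.sqrt ‖z - z'‖) →
    ∀ l : List Bool, l.length = 2 → ∀ z z',
      |DD l u z - DD l u z'| ≤ C * M * Real.sqrt ‖z - z'‖ := by
  obtain ⟨C, hC, h⟩ := schauder
  refine ⟨C, hC, fun u M hu hc hL l hl z z' => ?_⟩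
  have hu2 : ∀ l : List Bool, l.length = 2 →
      ContDiff ℝ ((0 + l.length : ℕ) : WithTop ℕ∞) u := fun l hl => by
    rw [hl]
    exact hu
  have hd : ∀ l : List Bool, l.length = 2 → ∀ n, Continuous (DD l u) ∧
      HasCompactSupport (DD l u) ∧ DD l (SchauderC_m n u) = SchauderC_m n (DD l u) :=
    fun l hl n => by
      obtain ⟨h1, h2, h3⟩ := SchauderC_DD n l 0 (hu2 l hl) hc
      exact ⟨h1.continuous, h2, h3⟩
  have hLap : ∀ n z, Lap (SchauderC_m n u) z = SchauderC_m n (Lap u) z := by
    intro n z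
    obtain ⟨a1, a2, a3⟩ := hd [true, true] rfl n
    obtain ⟨b1, b2, b3⟩ := hd [false, false] rfl n
    have e := SchauderC_add n a1 a2 b1 b2 z
    rw [← a3, ← b3] at e
    exact e
  have hLc : Continuous (Lap u) := by
    obtain ⟨a1, a2, a3⟩ := hd [true, true] rfl 0
    obtain ⟨b1, b2, b3⟩ := hd [false, false] rfl 0
    exact a1.add b1
  have hLs : HasCompactSupport (Lap u) := by
    obtain ⟨a1, a2, a3⟩ := hd [true, true] rfl 0
    obtain ⟨b1, b2, b3⟩ := hd [false, false] rfl 0
    exact a2.add b2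
  have hn : ∀ n, |DD l (SchauderC_m n u) z - DD l (SchauderC_m n u) z'| ≤
      C * M * Real.sqrt ‖z - z'‖ := fun n =>
    h (SchauderC_m n u) M (SchauderC_bc n hu.continuous hc) (fun y y' => by
      rw [hLap, hLap]
      exact SchauderC_holder n hLc hLs hL y y') l hl z z'
  have h1 : Tendsto (fun n => DD l (SchauderC_m n u) z) atTop (𝓝 (DD l u z)) := by
    have := SchauderC_tendsto (hd l hl 0).1 z
    refine this.congr fun n => ?_
    rw [(hd l hl n).2.2]
  have h2 : Tendsto (fun n => DD l (SchauderC_m n u) z') atTop (𝓝 (DD l u z')) := by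
    have := SchauderC_tendsto (hd l hl 0).1 z'
    refine this.congr fun n => ?_
    rw [(hd l hl n).2.2]
  exact le_of_tendsto' ((h1.sub h2).abs) hn

end Pool.Agent.KK
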