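import Pool.Agent.W_bb4b37_h53.ConvB
import Pool.Agent.W_bb4b37_h53.InteriorA
import Pool.Agent.W_bb4b37_h53.SchauderC

/-!
# Regularity of `C^{2,1/2}` solutions of the fully nonlinear equation (part A)
-/

set_option autoImplicit false

open Filter Topology Set MeasureTheory Metric
open scoped ContDiff

namespace Pool.Agent.KK

/-- Locally Hölder continuous with exponent `1/2` on `U`. -/
def LH (U : Set ℂ) (f : ℂ → ℝ) : Prop :=
  ∀ z ∈ U, ∃ r > 0, ∃ K : ℝ, ∀ y ∈ ball z r, ∀ y' ∈ ball z r,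
    |f y - f y'| ≤ K * Real.sqrt ‖y - y'‖

/-- `C^{k,1/2}` on `U`: all derivatives of order `≤ k` exist, are continuous and locally Hölder. -/
def CH (k : ℕ) (U : Set ℂ) (f : ℂ → ℝ) : Prop :=
  ContDiffOn ℝ k f U ∧ ∀ l : List Bool, l.length ≤ k → LH U (DD l f)

/-- The absolute constant measuring how close to the Laplacian the equations are: `cstar` times the
Schauder constant is small. -/
noncomputable def cstar : ℝ := 1 / (100 * Classical.choose schauder_C2 + 100)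

/-! ## Bounded Hölder functions on a set -/

/-- Bounded by `K` and Hölder continuous with exponent `1/2` and constant `K` on `B`. -/
def RegA_HB (K : ℝ) (B : Set ℂ) (f : ℂ → ℝ) : Prop :=
  (∀ z ∈ B, |f z| ≤ K) ∧ ∀ z ∈ B, ∀ z' ∈ B, |f z - f z'| ≤ K * Real.sqrt ‖z - z'‖

theorem RegA_HB_mono {K K' : ℝ} {B B' : Set ℂ} {f : ℂ → ℝ} (hf : RegA_HB K B f) (hK : K ≤ K')
    (hB : B' ⊆ B) : RegA_HB K' B' f :=
  ⟨fun z hz => (hf.1 z (hB hz)).trans hK, fun z hz z' hz' =>
    (hf.2 z (hB hz) z' (hB hz')).trans (mul_le_mul_of_nonneg_right hK (Real.sqrt_nonneg _))⟩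

theorem RegA_HB_congr {K : ℝ} {B : Set ℂ} {f g : ℂ → ℝ} (hf : RegA_HB K B f)
    (h : ∀ z ∈ B, g z = f z) : RegA_HB K B g :=
  ⟨fun z hz => by rw [h z hz]; exact hf.1 z hz,
   fun z hz z' hz' => by rw [h z hz, h z' hz']; exact hf.2 z hz z' hz'⟩

theorem RegA_HB_add {K L : ℝ} {B : Set ℂ} {f g : ℂ → ℝ} (hf : RegA_HB K B f)
    (hg : RegA_HB L B g) : RegA_HB (K + L) B (fun z => f z + g z) := by
  refine ⟨fun z hz => (abs_add_le _ _).trans (add_le_add (hf.1 z hz) (hg.1 z hz)),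
    fun z hz z' hz' => ?_⟩
  have h1 : f z + g z - (f z' + g z') = (f z - f z') + (g z - g z') := by ring
  rw [h1, add_mul]
  exact (abs_add_le _ _).trans (add_le_add (hf.2 z hz z' hz') (hg.2 z hz z' hz'))

theorem RegA_HB_neg {K : ℝ} {B : Set ℂ} {f : ℂ → ℝ} (hf : RegA_HB K B f) :
    RegA_HB K B (fun z => - f z) := by
  refine ⟨fun z hz => by rw [abs_neg]; exact hf.1 z hz, fun z hz z' hz' => ?_⟩
  have h1 : - f z - - f z' = -(f z - f z') := by ring
  rw [h1, abs_neg]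
  exact hf.2 z hz z' hz'

theorem RegA_HB_sub {K L : ℝ} {B : Set ℂ} {f g : ℂ → ℝ} (hf : RegA_HB K B f)
    (hg : RegA_HB L B g) : RegA_HB (K + L) B (fun z => f z - g z) := by
  have h := RegA_HB_add hf (RegA_HB_neg hg)
  simpa only [sub_eq_add_neg] using h

theorem RegA_HB_mul {K L : ℝ} {B : Set ℂ} {f g : ℂ → ℝ} (hK : 0 ≤ K) (hL : 0 ≤ L)
    (hf : RegA_HB K B f) (hg : RegA_HB L B g) : RegA_HB (2 * K * L) B (fun z => f z * g z) := by
  have hKL : 0 ≤ K * L := mul_nonneg hK hL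
  refine ⟨fun z hz => ?_, fun z hz z' hz' => ?_⟩
  · rw [abs_mul]
    calc |f z| * |g z| ≤ K * L := mul_le_mul (hf.1 z hz) (hg.1 z hz) (abs_nonneg _) hK
      _ ≤ 2 * K * L := by linarith
  · have h1 : f z * g z - f z' * g z' = f z * (g z - g z') + (f z - f z') * g z' := by ring
    have h2 : |f z * (g z - g z')| ≤ K * (L * Real.sqrt ‖z - z'‖) := by
      rw [abs_mul]
      exact mul_le_mul (hf.1 z hz) (hg.2 z hz z' hz') (abs_nonneg _) hK
    have h3 : |(f z - f z') * g z'| ≤ (K * Real.sqrt ‖z - z'‖) * L := by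
      rw [abs_mul]
      exact mul_le_mul (hf.2 z hz z' hz') (hg.1 z' hz') (abs_nonneg _)
        (mul_nonneg hK (Real.sqrt_nonneg _))
    rw [h1]
    refine (abs_add_le _ _).trans ((add_le_add h2 h3).trans (le_of_eq ?_))
    ring

theorem RegA_HB_const {B : Set ℂ} (c : ℝ) : RegA_HB |c| B (fun _ => c) :=
  ⟨fun _ _ => le_rfl, fun z _ z' _ => by
    rw [sub_self, abs_zero]; exact mul_nonneg (abs_nonneg _) (Real.sqrt_nonneg _)⟩

/-- Product with a cut-off function. -/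
theorem RegA_HB_cut {M K : ℝ} {B : Set ℂ} {c f : ℂ → ℝ} (hM : 0 ≤ M) (hK : 0 ≤ K)
    (hc : RegA_HB M univ c) (hc0 : ∀ z, z ∉ B → c z = 0) (hf : RegA_HB K B f) :
    RegA_HB (2 * M * K) univ (fun z => c z * f z) := by
  have hMK : 0 ≤ M * K := mul_nonneg hM hK
  have key : ∀ z ∈ B, ∀ z', z' ∉ B →
      |c z * f z - c z' * f z'| ≤ 2 * M * K * Real.sqrt ‖z - z'‖ := by
    intro z hz z' hz'
    have h0 := hc0 z' hz'
    have h1 : c z * f z - c z' * f z' = (c z - c z') * f z := by rw [h0]; ring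
    rw [h1, abs_mul]
    calc |c z - c z'| * |f z| ≤ (M * Real.sqrt ‖z - z'‖) * K :=
          mul_le_mul (hc.2 z (mem_univ _) z' (mem_univ _)) (hf.1 z hz) (abs_nonneg _)
            (mul_nonneg hM (Real.sqrt_nonneg _))
      _ = M * K * Real.sqrt ‖z - z'‖ := by ring
      _ ≤ 2 * M * K * Real.sqrt ‖z - z'‖ :=
          mul_le_mul_of_nonneg_right (by linarith) (Real.sqrt_nonneg _)
  refine ⟨fun z _ => ?_, fun z _ z' _ => ?_⟩
  · by_cases hz : z ∈ B
    · exact (RegA_HB_mul hM hK (RegA_HB_mono hc le_rfl (subset_univ B)) hf).1 z hz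
    · simp only [hc0 z hz, zero_mul, abs_zero]; linarith
  · by_cases hz : z ∈ B
    · by_cases hz' : z' ∈ B
      · exact (RegA_HB_mul hM hK (RegA_HB_mono hc le_rfl (subset_univ B)) hf).2 z hz z' hz'
      · exact key z hz z' hz'
    · by_cases hz' : z' ∈ B
      · have := key z' hz' z hz
        rwa [abs_sub_comm, norm_sub_rev z z']
      · simp only [hc0 z hz, hc0 z' hz', zero_mul, sub_self, abs_zero]
        exact mul_nonneg (by linarith) (Real.sqrt_nonneg _)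

theorem RegA_le_sqrt {t : ℝ} (h0 : 0 ≤ t) (h1 : t ≤ 1) : t ≤ Real.sqrt t := by
  have h2 : Real.sqrt t * Real.sqrt t = t := Real.mul_self_sqrt h0
  have h3 : Real.sqrt t ≤ 1 := Real.sqrt_le_one.2 h1
  have h4 := Real.sqrt_nonneg t
  nlinarith

theorem RegA_LH_iff {U : Set ℂ} {f : ℂ → ℝ} :
    LH U f ↔ ∀ z ∈ U, ∃ r > 0, ∃ K : ℝ, 0 ≤ K ∧ RegA_HB K (ball z r) f := by
  constructor
  · intro h z hz
    obtain ⟨r, hr, K, hK⟩ := h z hz
    refine ⟨r, hr, |f z| + |K| * Real.sqrt r + |K|, by positivity, fun y hy => ?_,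
      fun y hy y' hy' => ?_⟩
    · have h1 := hK y hy z (mem_ball_self hr)
      have h2 : Real.sqrt ‖y - z‖ ≤ Real.sqrt r := by
        refine Real.sqrt_le_sqrt ?_
        rw [← dist_eq_norm]; exact (mem_ball.1 hy).le
      have h3 : K * Real.sqrt ‖y - z‖ ≤ |K| * Real.sqrt r :=
        mul_le_mul (le_abs_self K) h2 (Real.sqrt_nonneg _) (abs_nonneg _)
      have h4 : |f y| ≤ |f z| + |f y - f z| := by
        have := abs_add_le (f z) (f y - f z)
        rwa [add_sub_cancel] at this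
      have h5 := abs_nonneg K
      linarith
    · refine (hK y hy y' hy').trans (mul_le_mul_of_nonneg_right ?_ (Real.sqrt_nonneg _))
      have h1 := le_abs_self K
      have h2 := abs_nonneg (f z)
      have h3 := mul_nonneg (abs_nonneg K) (Real.sqrt_nonneg r)
      linarith
  · intro h z hz
    obtain ⟨r, hr, K, -, hK⟩ := h z hz
    exact ⟨r, hr, K, hK.2⟩

theorem RegA_LH_mono {U U' : Set ℂ} {f : ℂ → ℝ} (h : LH U f) (hU : U' ⊆ U) : LH U' f :=
  fun z hz => h z (hU hz)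

theorem RegA_LH_congr {U : Set ℂ} (hU : IsOpen U) {f g : ℂ → ℝ} (hf : LH U f)
    (h : ∀ z ∈ U, g z = f z) : LH U g := by
  intro z hz
  obtain ⟨r, hr, K, hK⟩ := hf z hz
  obtain ⟨ρ, hρ, hρU⟩ := Metric.isOpen_iff.1 hU z hz
  refine ⟨min r ρ, lt_min hr hρ, K, fun y hy y' hy' => ?_⟩
  rw [h y (hρU (ball_subset_ball (min_le_right _ _) hy)),
    h y' (hρU (ball_subset_ball (min_le_right _ _) hy'))]
  exact hK y (ball_subset_ball (min_le_left _ _) hy) y' (ball_subset_ball (min_le_left _ _) hy')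

theorem RegA_LH_add {U : Set ℂ} {f g : ℂ → ℝ} (hf : LH U f) (hg : LH U g) :
    LH U (fun z => f z + g z) := by
  rw [RegA_LH_iff] at *
  intro z hz
  obtain ⟨r, hr, K, hK0, hK⟩ := hf z hz
  obtain ⟨r', hr', K', hK0', hK'⟩ := hg z hz
  exact ⟨min r r', lt_min hr hr', K + K', add_nonneg hK0 hK0',
    RegA_HB_add (RegA_HB_mono hK le_rfl (ball_subset_ball (min_le_left _ _)))
      (RegA_HB_mono hK' le_rfl (ball_subset_ball (min_le_right _ _)))⟩

theorem RegA_LH_sub {U : Set ℂ} {f g : ℂ → ℝ} (hf : LH U f) (hg : LH U g) :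
    LH U (fun z => f z - g z) := by
  rw [RegA_LH_iff] at *
  intro z hz
  obtain ⟨r, hr, K, hK0, hK⟩ := hf z hz
  obtain ⟨r', hr', K', hK0', hK'⟩ := hg z hz
  exact ⟨min r r', lt_min hr hr', K + K', add_nonneg hK0 hK0',
    RegA_HB_sub (RegA_HB_mono hK le_rfl (ball_subset_ball (min_le_left _ _)))
      (RegA_HB_mono hK' le_rfl (ball_subset_ball (min_le_right _ _)))⟩

theorem RegA_LH_mul {U : Set ℂ} {f g : ℂ → ℝ} (hf : LH U f) (hg : LH U g) :
    LH U (fun z => f z * g z) := by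
  rw [RegA_LH_iff] at *
  intro z hz
  obtain ⟨r, hr, K, hK0, hK⟩ := hf z hz
  obtain ⟨r', hr', K', hK0', hK'⟩ := hg z hz
  exact ⟨min r r', lt_min hr hr', 2 * K * K', by positivity,
    RegA_HB_mul hK0 hK0' (RegA_HB_mono hK le_rfl (ball_subset_ball (min_le_left _ _)))
      (RegA_HB_mono hK' le_rfl (ball_subset_ball (min_le_right _ _)))⟩

/-- `C¹` functions are locally Hölder. -/
theorem RegA_LH_of_C1 {U : Set ℂ} (hU : IsOpen U) {f : ℂ → ℝ} (hf : ContDiffOn ℝ 1 f U) :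
    LH U f := by
  intro z hz
  have h1 : ContDiffAt ℝ 1 f z := hf.contDiffAt (hU.mem_nhds hz)
  obtain ⟨K, t, ht, hK⟩ := h1.exists_lipschitzOnWith
  obtain ⟨r, hr, hrt⟩ := Metric.mem_nhds_iff.1 ht
  refine ⟨min r (1 / 2), lt_min hr (by norm_num), K, fun y hy y' hy' => ?_⟩
  have h2 := hK.dist_le_mul y (hrt (ball_subset_ball (min_le_left _ _) hy)) y'
    (hrt (ball_subset_ball (min_le_left _ _) hy'))
  rw [Real.dist_eq, dist_eq_norm] at h2
  have h3 : ‖y - y'‖ ≤ 1 := by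
    have h4 := mem_ball.1 (ball_subset_ball (min_le_right r (1 / 2)) hy)
    have h5 := mem_ball'.1 (ball_subset_ball (min_le_right r (1 / 2)) hy')
    rw [← dist_eq_norm]
    have := dist_triangle y z y'
    linarith
  exact h2.trans (mul_le_mul_of_nonneg_left (RegA_le_sqrt (norm_nonneg _) h3) K.2)

/-! ## Iterated derivatives on open sets -/

theorem RegA_contDiffOn_DD {W : Set ℂ} (hW : IsOpen W) {f : ℂ → ℝ} {n : ℕ}
    (hf : ContDiffOn ℝ n f W) (l : List Bool) :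
    ∀ m : ℕ, m + l.length ≤ n → ContDiffOn ℝ m (DD l f) W := by
  induction l with
  | nil => intro m hm; exact hf.of_le (by exact_mod_cast hm)
  | cons b l ih =>
    intro m hm
    have h1 : ContDiffOn ℝ ((m + 1 : ℕ) : WithTop ℕ∞) (DD l f) W :=
      ih (m + 1) (by rw [List.length_cons] at hm; omega)
    have h2 : ((m : WithTop ℕ∞) + 1) ≤ ((m + 1 : ℕ) : WithTop ℕ∞) := by push_cast; exact le_rfl
    cases b
    · exact contDiffOn_Dy hW h1 h2
    · exact contDiffOn_Dx hW h1 h2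

theorem RegA_differentiableAt_DD {W : Set ℂ} (hW : IsOpen W) {f : ℂ → ℝ} {n : ℕ}
    (hf : ContDiffOn ℝ n f W) (l : List Bool) (hl : l.length + 1 ≤ n) {z : ℂ} (hz : z ∈ W) :
    DifferentiableAt ℝ (DD l f) z := by
  have h1 := RegA_contDiffOn_DD hW hf l 1 (by omega)
  exact (h1.contDiffAt (hW.mem_nhds hz)).differentiableAt (by norm_num)

theorem RegA_DD_sub {W : Set ℂ} (hW : IsOpen W) {f g : ℂ → ℝ} {n : ℕ}
    (hf : ContDiffOn ℝ n f W) (hg : ContDiffOn ℝ n g W) (l : List Bool) :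
    l.length ≤ n → ∀ z ∈ W, DD l (fun y => f y - g y) z = DD l f z - DD l g z := by
  induction l with
  | nil => intro _ z _; rfl
  | cons b l ih =>
    intro hl z hz
    rw [List.length_cons] at hl
    have h1 : DD l (fun y => f y - g y) =ᶠ[𝓝 z] fun y => DD l f y - DD l g y := by
      filter_upwards [hW.mem_nhds hz] with y hy
      exact ih (by omega) y hy
    have h2 := RegA_differentiableAt_DD hW hf l hl hz
    have h3 := RegA_differentiableAt_DD hW hg l hl hz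
    cases b
    · rw [DD_false, Dy_congr h1, Dy_sub h2 h3]; rfl
    · rw [DD_true, Dx_congr h1, Dx_sub h2 h3]; rfl

theorem RegA_DD_eqOn {W : Set ℂ} (hW : IsOpen W) {f g : ℂ → ℝ} (h : ∀ z ∈ W, f z = g z)
    (l : List Bool) {z : ℂ} (hz : z ∈ W) : DD l f z = DD l g z :=
  DD_congr (by filter_upwards [hW.mem_nhds hz] with y hy using h y hy) l

/-! ## The classes `CH` -/

theorem RegA_CH_mono {k k' : ℕ} {U : Set ℂ} {f : ℂ → ℝ} (h : CH k U f) (hk : k' ≤ k) :
    CH k' U f :=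
  ⟨h.1.of_le (by exact_mod_cast hk), fun l hl => h.2 l (hl.trans hk)⟩

theorem RegA_CH_set {k : ℕ} {U U' : Set ℂ} {f : ℂ → ℝ} (h : CH k U f) (hU : U' ⊆ U) :
    CH k U' f :=
  ⟨h.1.mono hU, fun l hl => RegA_LH_mono (h.2 l hl) hU⟩

theorem RegA_CH_congr {k : ℕ} {U : Set ℂ} (hU : IsOpen U) {f g : ℂ → ℝ} (hf : CH k U f)
    (h : ∀ z ∈ U, g z = f z) : CH k U g :=
  ⟨hf.1.congr h, fun l hl => RegA_LH_congr hU (hf.2 l hl) fun _ hz => RegA_DD_eqOn hU h l hz⟩

theorem RegA_CH_succ {k : ℕ} {U : Set ℂ} (hU : IsOpen U) {f : ℂ → ℝ} :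
    CH (k + 1) U f ↔ ContDiffOn ℝ 1 f U ∧ CH k U (Dx f) ∧ CH k U (Dy f) := by
  constructor
  · intro h
    have h1 : ((k : WithTop ℕ∞) + 1) ≤ ((k + 1 : ℕ) : WithTop ℕ∞) := by push_cast; exact le_rfl
    refine ⟨h.1.of_le (by exact_mod_cast (by omega : 1 ≤ k + 1)),
      ⟨contDiffOn_Dx hU h.1 h1, fun l hl => ?_⟩, ⟨contDiffOn_Dy hU h.1 h1, fun l hl => ?_⟩⟩
    · have h2 := h.2 (l ++ [true]) (by rw [List.length_append, List.length_singleton]; omega)
      rwa [DD_append] at h2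
    · have h2 := h.2 (l ++ [false]) (by rw [List.length_append, List.length_singleton]; omega)
      rwa [DD_append] at h2
  · rintro ⟨h0, hx, hy⟩
    constructor
    · have h1 : ((k + 1 : ℕ) : WithTop ℕ∞) = (k : WithTop ℕ∞) + 1 := by push_cast; rfl
      rw [h1, contDiffOn_succ_iff_fderiv_of_isOpen hU]
      refine ⟨h0.differentiableOn (by norm_num), fun h => ?_, ?_⟩
      · exact absurd h (by simp)
      · have h2 : fderiv ℝ f = fun z => (Dx f z) • Complex.reCLM + (Dy f z) • Complex.imCLM := by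
          funext z
          refine ContinuousLinearMap.ext fun v => ?_
          rw [fderiv_eq]
          simp [mul_comm]
        rw [h2]
        exact (hx.1.smul contDiffOn_const).add (hy.1.smul contDiffOn_const)
    · intro l hl
      rcases List.eq_nil_or_concat l with h | ⟨l', b, h⟩
      · rw [h]; exact RegA_LH_of_C1 hU h0
      · rw [h, List.concat_eq_append, DD_append]
        have h3 : l'.length ≤ k := by
          rw [h, List.length_concat] at hl; omega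
        cases b
        · exact hy.2 l' h3
        · exact hx.2 l' h3

theorem RegA_CH_zero {U : Set ℂ} {f : ℂ → ℝ} : CH 0 U f ↔ ContinuousOn f U ∧ LH U f := by
  constructor
  · intro h
    exact ⟨h.1.continuousOn, h.2 [] le_rfl⟩
  · rintro ⟨h1, h2⟩
    refine ⟨by simpa using (contDiffOn_zero (𝕜 := ℝ)).2 h1, fun l hl => ?_⟩
    rw [List.length_eq_zero_iff.1 (Nat.le_zero.1 hl)]
    exact h2

theorem RegA_CH_add {U : Set ℂ} (hU : IsOpen U) (k : ℕ) : ∀ {f g : ℂ → ℝ}, CH k U f → CH k U g →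
    CH k U (fun z => f z + g z) := by
  induction k with
  | zero =>
    intro f g hf hg
    rw [RegA_CH_zero] at *
    exact ⟨hf.1.add hg.1, RegA_LH_add hf.2 hg.2⟩
  | succ k ih =>
    intro f g hf hg
    rw [RegA_CH_succ hU] at *
    have hd : ∀ z ∈ U, DifferentiableAt ℝ f z := fun z hz =>
      (hf.1.contDiffAt (hU.mem_nhds hz)).differentiableAt (by norm_num)
    have hd' : ∀ z ∈ U, DifferentiableAt ℝ g z := fun z hz =>
      (hg.1.contDiffAt (hU.mem_nhds hz)).differentiableAt (by norm_num)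
    exact ⟨hf.1.add hg.1,
      RegA_CH_congr hU (ih hf.2.1 hg.2.1) (fun z hz => Dx_add (hd z hz) (hd' z hz)),
      RegA_CH_congr hU (ih hf.2.2 hg.2.2) (fun z hz => Dy_add (hd z hz) (hd' z hz))⟩

theorem RegA_CH_sub {U : Set ℂ} (hU : IsOpen U) (k : ℕ) : ∀ {f g : ℂ → ℝ}, CH k U f → CH k U g →
    CH k U (fun z => f z - g z) := by
  induction k with
  | zero =>
    intro f g hf hg
    rw [RegA_CH_zero] at *
    exact ⟨hf.1.sub hg.1, RegA_LH_sub hf.2 hg.2⟩
  | succ k ih =>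
    intro f g hf hg
    rw [RegA_CH_succ hU] at *
    have hd : ∀ z ∈ U, DifferentiableAt ℝ f z := fun z hz =>
      (hf.1.contDiffAt (hU.mem_nhds hz)).differentiableAt (by norm_num)
    have hd' : ∀ z ∈ U, DifferentiableAt ℝ g z := fun z hz =>
      (hg.1.contDiffAt (hU.mem_nhds hz)).differentiableAt (by norm_num)
    exact ⟨hf.1.sub hg.1,
      RegA_CH_congr hU (ih hf.2.1 hg.2.1) (fun z hz => Dx_sub (hd z hz) (hd' z hz)),
      RegA_CH_congr hU (ih hf.2.2 hg.2.2) (fun z hz => Dy_sub (hd z hz) (hd' z hz))⟩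

theorem RegA_CH_mul {U : Set ℂ} (hU : IsOpen U) (k : ℕ) : ∀ {f g : ℂ → ℝ}, CH k U f → CH k U g →
    CH k U (fun z => f z * g z) := by
  induction k with
  | zero =>
    intro f g hf hg
    rw [RegA_CH_zero] at *
    exact ⟨hf.1.mul hg.1, RegA_LH_mul hf.2 hg.2⟩
  | succ k ih =>
    intro f g hf hg
    have hf' := RegA_CH_mono hf (Nat.le_succ k)
    have hg' := RegA_CH_mono hg (Nat.le_succ k)
    rw [RegA_CH_succ hU] at *
    have hd : ∀ z ∈ U, DifferentiableAt ℝ f z := fun z hz =>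
      (hf.1.contDiffAt (hU.mem_nhds hz)).differentiableAt (by norm_num)
    have hd' : ∀ z ∈ U, DifferentiableAt ℝ g z := fun z hz =>
      (hg.1.contDiffAt (hU.mem_nhds hz)).differentiableAt (by norm_num)
    exact ⟨hf.1.mul hg.1,
      RegA_CH_congr hU (RegA_CH_add hU k (ih hf.2.1 hg') (ih hf' hg.2.1))
        (fun z hz => Dx_mul (hd z hz) (hd' z hz)),
      RegA_CH_congr hU (RegA_CH_add hU k (ih hf.2.2 hg') (ih hf' hg.2.2))
        (fun z hz => Dy_mul (hd z hz) (hd' z hz))⟩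

/-! ## Cut-off, product rule, interpolation -/

theorem RegA_cutoff (z₀ : ℂ) {ρ : ℝ} (hρ : 0 < ρ) : ∃ (χ : ℂ → ℝ) (M : ℝ), 0 ≤ M ∧
    ContDiff ℝ ∞ χ ∧ (∀ z ∈ ball z₀ (ρ / 2), χ z = 1) ∧
    (∀ z, z ∉ ball z₀ (3 * ρ / 4) → χ z = 0) ∧
    ∀ l : List Bool, l.length ≤ 2 → RegA_HB M univ (DD l χ) := by
  obtain ⟨C, hC, h⟩ := exists_cutoff
  obtain ⟨χ, h1, h2, h3, h4, h5⟩ := h z₀ (ρ / 2) (3 * ρ / 4) (by linarith) (by linarith) (by linarith)
  have hr : 3 * ρ / 4 - ρ / 2 = ρ / 4 := by ring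
  rw [hr] at h5
  set M₀ : ℝ := C * (1 + 4 / ρ) ^ 3 with hM₀
  have h4ρ : 0 < 4 / ρ := by positivity
  have hM₀0 : 0 ≤ M₀ := by positivity
  have hb : ∀ l : List Bool, l.length ≤ 3 → ∀ z, |DD l χ z| ≤ M₀ := by
    intro l hl z
    refine (h5 l hl z).trans ?_
    have e1 : C / (ρ / 4) ^ l.length = C * (4 / ρ) ^ l.length := by
      rw [div_eq_mul_inv, ← inv_pow, inv_div]
    rw [e1]
    refine mul_le_mul_of_nonneg_left ?_ hC.le
    calc (4 / ρ) ^ l.length ≤ (1 + 4 / ρ) ^ l.length :=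
          pow_le_pow_left₀ h4ρ.le (by linarith) _
      _ ≤ (1 + 4 / ρ) ^ 3 := pow_le_pow_right₀ (by linarith) hl
  refine ⟨χ, 2 * M₀, by linarith, h1, h3, h4, fun l hl => ⟨fun z _ => ?_, fun z _ z' _ => ?_⟩⟩
  · exact (hb l (by omega) z).trans (by linarith)
  · by_cases hz : ‖z - z'‖ ≤ 1
    · have h6 : ‖DD l χ z - DD l χ z'‖ ≤ 2 * M₀ * ‖z - z'‖ := by
        refine mean_value_univ ((contDiff_DD h1 l).differentiable (by simp)) ?_ z z'
        intro y l' hl'
        obtain ⟨b, rfl⟩ := List.length_eq_one_iff.1 hl'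
        have h7 : DD [b] (DD l χ) y = DD (b :: l) χ y := by cases b <;> rfl
        rw [h7, Real.norm_eq_abs]
        exact hb (b :: l) (by rw [List.length_cons]; omega) y
      rw [Real.norm_eq_abs] at h6
      exact h6.trans (mul_le_mul_of_nonneg_left (RegA_le_sqrt (norm_nonneg _) hz) (by linarith))
    · have h6 : 1 ≤ Real.sqrt ‖z - z'‖ := by
        rw [Real.one_le_sqrt]; exact (not_le.1 hz).le
      have h7 := abs_sub (DD l χ z) (DD l χ z')
      have h8 := hb l (by omega) z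
      have h9 := hb l (by omega) z'
      nlinarith

theorem RegA_DD_zero (l : List Bool) : DD l (fun _ : ℂ => (0 : ℝ)) = fun _ => 0 := by
  induction l with
  | nil => rfl
  | cons b l ih =>
    cases b
    · rw [DD_false, ih]; funext z; exact Dy_const 0 z
    · rw [DD_true, ih]; funext z; exact Dx_const 0 z

theorem RegA_contDiffAt_Dx {f : ℂ → ℝ} {z : ℂ} {n m : WithTop ℕ∞} (hf : ContDiffAt ℝ n f z)
    (h : m + 1 ≤ n) : ContDiffAt ℝ m (Dx f) z :=
  (hf.fderiv_right h).clm_apply contDiffAt_const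

theorem RegA_contDiffAt_Dy {f : ℂ → ℝ} {z : ℂ} {n m : WithTop ℕ∞} (hf : ContDiffAt ℝ n f z)
    (h : m + 1 ≤ n) : ContDiffAt ℝ m (Dy f) z :=
  (hf.fderiv_right h).clm_apply contDiffAt_const

/-- Product rule of order two. -/
theorem RegA_prod {f g : ℂ → ℝ} {z : ℂ} (hf : ContDiffAt ℝ 2 f z) (hg : ContDiffAt ℝ 2 g z) :
    Dx (Dx (fun y => f y * g y)) z =
      Dx (Dx f) z * g z + (Dx f z * Dx g z + Dx f z * Dx g z) + f z * Dx (Dx g) z ∧
    Dx (Dy (fun y => f y * g y)) z =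
      Dx (Dy f) z * g z + (Dy f z * Dx g z + Dx f z * Dy g z) + f z * Dx (Dy g) z ∧
    Dy (Dy (fun y => f y * g y)) z =
      Dy (Dy f) z * g z + (Dy f z * Dy g z + Dy f z * Dy g z) + f z * Dy (Dy g) z := by
  have hd : ∀ᶠ y in 𝓝 z, DifferentiableAt ℝ f y ∧ DifferentiableAt ℝ g y := by
    filter_upwards [hf.eventually (by simp), hg.eventually (by simp)] with y h1 h2
    exact ⟨h1.differentiableAt (by norm_num), h2.differentiableAt (by norm_num)⟩
  have hx : Dx (fun y => f y * g y) =ᶠ[𝓝 z] fun y => Dx f y * g y + f y * Dx g y := by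
    filter_upwards [hd] with y hy
    exact Dx_mul hy.1 hy.2
  have hy : Dy (fun y => f y * g y) =ᶠ[𝓝 z] fun y => Dy f y * g y + f y * Dy g y := by
    filter_upwards [hd] with y hy
    exact Dy_mul hy.1 hy.2
  have f0 : DifferentiableAt ℝ f z := hf.differentiableAt (by norm_num)
  have g0 : DifferentiableAt ℝ g z := hg.differentiableAt (by norm_num)
  have fx : DifferentiableAt ℝ (Dx f) z :=
    (RegA_contDiffAt_Dx (m := 1) hf (by norm_num)).differentiableAt (by norm_num)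
  have fy : DifferentiableAt ℝ (Dy f) z :=
    (RegA_contDiffAt_Dy (m := 1) hf (by norm_num)).differentiableAt (by norm_num)
  have gx : DifferentiableAt ℝ (Dx g) z :=
    (RegA_contDiffAt_Dx (m := 1) hg (by norm_num)).differentiableAt (by norm_num)
  have gy : DifferentiableAt ℝ (Dy g) z :=
    (RegA_contDiffAt_Dy (m := 1) hg (by norm_num)).differentiableAt (by norm_num)
  have a1 : DifferentiableAt ℝ (fun y => Dx f y * g y) z := fx.mul g0
  have a2 : DifferentiableAt ℝ (fun y => f y * Dx g y) z := f0.mul gx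
  have a3 : DifferentiableAt ℝ (fun y => Dy f y * g y) z := fy.mul g0
  have a4 : DifferentiableAt ℝ (fun y => f y * Dy g y) z := f0.mul gy
  refine ⟨?_, ?_, ?_⟩
  · rw [Dx_congr hx, Dx_add a1 a2, Dx_mul fx g0, Dx_mul f0 gx]; ring
  · rw [Dx_congr hy, Dx_add a3 a4, Dx_mul fy g0, Dx_mul f0 gy]; ring
  · rw [Dy_congr hy, Dy_add a3 a4, Dy_mul fy g0, Dy_mul f0 gy]; ring

/-- Interpolation between the function and the Hölder bound of its derivative. -/
theorem RegA_interp {f : ℂ → ℝ} (hf : Differentiable ℝ f) {e : ℂ} (he : ‖e‖ = 1) {K H t : ℝ}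
    (hH : 0 ≤ H) (hK : ∀ z, |f z| ≤ K)
    (hh : ∀ z z', |fderiv ℝ f z e - fderiv ℝ f z' e| ≤ H * Real.sqrt ‖z - z'‖) (ht : 0 < t)
    (z : ℂ) : |fderiv ℝ f z e| ≤ 2 * K / t + H * Real.sqrt t := by
  have hder : ∀ s : ℝ, HasDerivAt (fun s : ℝ => f (z + (s : ℂ) * e)) (fderiv ℝ f (z + (s : ℂ) * e) e) s := by
    intro s
    have h1 : HasDerivAt (fun s : ℝ => z + (s : ℂ) * e) e s := by
      have := ((Complex.ofRealCLM.hasDerivAt (x := s)).mul_const e).const_add z
      simpa using this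
    exact (hf (z + (s : ℂ) * e)).hasFDerivAt.comp_hasDerivAt s h1
  obtain ⟨c, hc, hc'⟩ := exists_hasDerivAt_eq_slope (fun s : ℝ => f (z + (s : ℂ) * e))
    (fun s => fderiv ℝ f (z + (s : ℂ) * e) e) ht
    (fun s _ => (hder s).continuousAt.continuousWithinAt) (fun s _ => hder s)
  have h1 : |fderiv ℝ f (z + (c : ℂ) * e) e| ≤ 2 * K / t := by
    rw [hc', abs_div, sub_zero, abs_of_pos ht]
    refine div_le_div_of_nonneg_right ?_ ht.le
    refine (abs_sub _ _).trans ?_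
    have h2 := hK (z + (t : ℂ) * e)
    have h3 := hK (z + ((0 : ℝ) : ℂ) * e)
    linarith
  have h2 := hh z (z + (c : ℂ) * e)
  have h3 : ‖z - (z + (c : ℂ) * e)‖ = c := by
    rw [sub_add_cancel_left, norm_neg, norm_mul, he, mul_one, Complex.norm_real, Real.norm_eq_abs,
      abs_of_pos hc.1]
  rw [h3] at h2
  have h4 : H * Real.sqrt c ≤ H * Real.sqrt t :=
    mul_le_mul_of_nonneg_left (Real.sqrt_le_sqrt hc.2.le) hH
  have h5 : |fderiv ℝ f z e| ≤ |fderiv ℝ f z e - fderiv ℝ f (z + (c : ℂ) * e) e| +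
      |fderiv ℝ f (z + (c : ℂ) * e) e| := by
    have := abs_add_le (fderiv ℝ f z e - fderiv ℝ f (z + (c : ℂ) * e) e) (fderiv ℝ f (z + (c : ℂ) * e) e)
    rwa [sub_add_cancel] at this
  linarith

/-- Product with a coefficient which is only defined on `B`. -/
theorem RegA_coef {cs K S H : ℝ} {B : Set ℂ} {p φ : ℂ → ℝ} (hcs : ∀ z ∈ B, |p z| ≤ cs)
    (hp : RegA_HB K B p) (hcs0 : 0 ≤ cs) (hK : 0 ≤ K) (hS0 : 0 ≤ S)
    (hφ0 : ∀ z, z ∉ B → φ z = 0) (hS : ∀ z, |φ z| ≤ S)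
    (hH : ∀ z z', |φ z - φ z'| ≤ H * Real.sqrt ‖z - z'‖) (z z' : ℂ) :
    |p z * φ z - p z' * φ z'| ≤ (cs * H + K * S) * Real.sqrt ‖z - z'‖ := by
  have hn := Real.sqrt_nonneg ‖z - z'‖
  have h0 : 0 ≤ H * Real.sqrt ‖z - z'‖ := (abs_nonneg _).trans (hH z z')
  have hKS : 0 ≤ K * S * Real.sqrt ‖z - z'‖ := by positivity
  by_cases hz : z ∈ B
  · by_cases hz' : z' ∈ B
    · have h1 : p z * φ z - p z' * φ z' = p z * (φ z - φ z') + (p z - p z') * φ z' := by ring
      rw [h1]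
      have h2 : |p z * (φ z - φ z')| ≤ cs * (H * Real.sqrt ‖z - z'‖) := by
        rw [abs_mul]; exact mul_le_mul (hcs z hz) (hH z z') (abs_nonneg _) hcs0
      have h3 : |(p z - p z') * φ z'| ≤ (K * Real.sqrt ‖z - z'‖) * S := by
        rw [abs_mul]
        exact mul_le_mul (hp.2 z hz z' hz') (hS z') (abs_nonneg _) (mul_nonneg hK hn)
      refine (abs_add_le _ _).trans ((add_le_add h2 h3).trans (le_of_eq ?_))
      ring
    · have h1 : p z * φ z - p z' * φ z' = p z * (φ z - φ z') := by rw [hφ0 z' hz']; ring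
      rw [h1, abs_mul]
      have h2 : |p z| * |φ z - φ z'| ≤ cs * (H * Real.sqrt ‖z - z'‖) :=
        mul_le_mul (hcs z hz) (hH z z') (abs_nonneg _) hcs0
      nlinarith
  · by_cases hz' : z' ∈ B
    · have h1 : p z * φ z - p z' * φ z' = p z' * (φ z - φ z') := by rw [hφ0 z hz]; ring
      rw [h1, abs_mul]
      have h2 : |p z'| * |φ z - φ z'| ≤ cs * (H * Real.sqrt ‖z - z'‖) :=
        mul_le_mul (hcs z' hz') (hH z z') (abs_nonneg _) hcs0
      nlinarith
    · rw [hφ0 z hz, hφ0 z' hz', mul_zero, mul_zero, sub_self, abs_zero]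
      nlinarith [mul_nonneg hcs0 h0]

/-- Absorption. -/
theorem RegA_absorb {A H₁ : ℝ} {P : ℝ → Prop} (h1 : P H₁) (hstep : ∀ H, P H → P (A + H / 2)) (n : ℕ) :
    P (2 * A + (H₁ - 2 * A) * (1 / 2) ^ n) := by
  induction n with
  | zero => simpa using h1
  | succ n ih =>
    have := hstep _ ih
    have e : A + (2 * A + (H₁ - 2 * A) * (1 / 2) ^ n) / 2 =
        2 * A + (H₁ - 2 * A) * (1 / 2) ^ (n + 1) := by rw [pow_succ]; ring
    rwa [e] at this

/-- The Schauder constant. -/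
noncomputable def RegA_CS : ℝ := Classical.choose schauder_C2

theorem RegA_CS_spec : 0 < RegA_CS ∧ ∀ (u : ℂ → ℝ) (M : ℝ), ContDiff ℝ 2 u →
    HasCompactSupport u →
    (∀ z z', |Lap u z - Lap u z'| ≤ M * Real.sqrt ‖z - z'‖) →
    ∀ l : List Bool, l.length = 2 → ∀ z z',
      |DD l u z - DD l u z'| ≤ RegA_CS * M * Real.sqrt ‖z - z'‖ :=
  Classical.choose_spec schauder_C2

theorem cstar_pos : 0 < cstar := by
  have h := RegA_CS_spec.1
  unfold cstar
  unfold RegA_CS at h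
  positivity

theorem RegA_cstar_le : RegA_CS * cstar ≤ 1 / 100 := by
  have h := RegA_CS_spec.1
  have e : cstar = 1 / (100 * RegA_CS + 100) := rfl
  rw [e, mul_one_div, div_le_div_iff₀ (by positivity) (by norm_num)]
  linarith

/-- **A priori estimate** for the linear equation, with a qualitative assumption on the Hölder
continuity of the second derivatives of `v`. -/
theorem RegA_apriori (z₀ : ℂ) {ρ K : ℝ} (hρ : 0 < ρ) (hK : 0 ≤ K) : ∃ K' : ℝ, 0 ≤ K' ∧
    ∀ v p q r g : ℂ → ℝ, ContDiffOn ℝ 2 v (ball z₀ ρ) → RegA_HB K (ball z₀ ρ) v →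
    RegA_HB K (ball z₀ ρ) (Dx v) → RegA_HB K (ball z₀ ρ) (Dy v) →
    (∃ K₁ : ℝ, 0 ≤ K₁ ∧ RegA_HB K₁ (ball z₀ ρ) (Dx (Dx v)) ∧
      RegA_HB K₁ (ball z₀ ρ) (Dx (Dy v)) ∧ RegA_HB K₁ (ball z₀ ρ) (Dy (Dy v))) →
    RegA_HB K (ball z₀ ρ) p → RegA_HB K (ball z₀ ρ) q → RegA_HB K (ball z₀ ρ) r →
    RegA_HB K (ball z₀ ρ) g →
    (∀ z ∈ ball z₀ ρ, |p z| ≤ cstar) → (∀ z ∈ ball z₀ ρ, |q z| ≤ cstar) →
    (∀ z ∈ ball z₀ ρ, |r z| ≤ cstar) →
    (∀ z ∈ ball z₀ ρ,
      Lap v z + p z * Dx (Dx v) z + q z * Dx (Dy v) z + r z * Dy (Dy v) z = g z) →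
    ∃ u : ℂ → ℝ, ContDiff ℝ 2 u ∧ (∀ z ∈ ball z₀ (ρ / 2), u z = v z) ∧
      ∀ l : List Bool, l.length ≤ 2 → RegA_HB K' univ (DD l u) := by
  obtain ⟨χ, M, hM, hχ, hχ1, hχ0, hχb⟩ := RegA_cutoff z₀ hρ
  have hCS := RegA_CS_spec.1
  set CS := RegA_CS with hCSdef
  set B := ball z₀ ρ with hB
  have hBo : IsOpen B := isOpen_ball
  set K₂ : ℝ := K + 2 * K * K with hK₂
  have hK₂0 : 0 ≤ K₂ := by positivity
  set L : ℝ := 2 * M * K₂ with hL
  have hL0 : 0 ≤ L := by positivity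
  set Ku : ℝ := 2 * M * K + 2 * M * K with hKu
  have hKu0 : 0 ≤ Ku := by positivity
  set t : ℝ := (1 / (12 * CS * K + 12)) ^ 2 with ht
  have hden : 0 < 12 * CS * K + 12 := by positivity
  have ht0 : 0 < t := by positivity
  have hst : Real.sqrt t = 1 / (12 * CS * K + 12) := by
    rw [ht, Real.sqrt_sq (by positivity)]
  set A : ℝ := CS * (16 * L + 6 * K * Ku / t) with hA
  have hA0 : 0 ≤ A := by positivity
  refine ⟨2 * M * K + Ku + (2 * Ku + 2 * A), by positivity, ?_⟩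
  intro v p q r g hv hv0 hvx hvy hv2 hp hq hr hg hps hqs hrs he
  -- the function `u`
  have hχ2 : ∀ z, ContDiffAt ℝ 2 χ z := fun z =>
    (show ContDiff ℝ 2 χ by exact_mod_cast contDiff_infty.1 hχ 2).contDiffAt
  have hv2' : ∀ z ∈ B, ContDiffAt ℝ 2 v z := fun z hz => hv.contDiffAt (hBo.mem_nhds hz)
  have hsub : closedBall z₀ (3 * ρ / 4) ⊆ B := closedBall_subset_ball (by linarith)
  have hout : ∀ z, z ∉ B → χ =ᶠ[𝓝 z] fun _ => 0 := by
    intro z hz
    have h1 : (closedBall z₀ (3 * ρ / 4))ᶜ ∈ 𝓝 z :=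
      isClosed_closedBall.isOpen_compl.mem_nhds fun h => hz (hsub h)
    filter_upwards [h1] with y hy
    exact hχ0 y fun h => hy (ball_subset_closedBall h)
  have hχD0 : ∀ l : List Bool, ∀ z, z ∉ B → DD l χ z = 0 := by
    intro l z hz
    rw [DD_congr (hout z hz) l, RegA_DD_zero]
  set u : ℂ → ℝ := fun z => χ z * v z with hu
  have huout : ∀ z, z ∉ B → u =ᶠ[𝓝 z] fun _ => 0 := by
    intro z hz
    filter_upwards [hout z hz] with y hy
    rw [hu]; simp only [hy, zero_mul]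
  have huD0 : ∀ l : List Bool, ∀ z, z ∉ B → DD l u z = 0 := by
    intro l z hz
    rw [DD_congr (huout z hz) l, RegA_DD_zero]
  have hu2 : ContDiff ℝ 2 u := by
    rw [contDiff_iff_contDiffAt]
    intro z
    by_cases hz : z ∈ B
    · exact (hχ2 z).mul (hv2' z hz)
    · exact contDiffAt_const.congr_of_eventuallyEq (huout z hz)
  have hucs : HasCompactSupport u := by
    refine HasCompactSupport.intro (isCompact_closedBall z₀ ρ) fun z hz => ?_
    exact (huout z fun h => hz (ball_subset_closedBall h)).self_of_nhds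
  -- products with the derivatives of the cut-off
  have cut : ∀ l : List Bool, l.length ≤ 2 → ∀ f : ℂ → ℝ, RegA_HB K₂ B f →
      RegA_HB L univ (fun z => DD l χ z * f z) := fun l hl f hf =>
    RegA_HB_cut hM hK₂0 (hχb l hl) (hχD0 l) hf
  have cutK : ∀ l : List Bool, l.length ≤ 2 → ∀ f : ℂ → ℝ, RegA_HB K B f →
      RegA_HB (2 * M * K) univ (fun z => DD l χ z * f z) := fun l hl f hf =>
    RegA_HB_cut hM hK (hχb l hl) (hχD0 l) hf
  have hKK₂ : K ≤ K₂ := by rw [hK₂]; nlinarith [mul_nonneg hK hK]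
  have hmulK : ∀ f h : ℂ → ℝ, RegA_HB K B f → RegA_HB K B h → RegA_HB K₂ B (fun z => f z * h z) :=
    fun f h hf hh => RegA_HB_mono (RegA_HB_mul hK hK hf hh) (by rw [hK₂]; linarith) Subset.rfl
  have w1 : ∀ f : ℂ → ℝ, RegA_HB K B f → RegA_HB K₂ B f := fun f hf =>
    RegA_HB_mono hf hKK₂ Subset.rfl
  -- first derivatives of `u`
  have hχd : ∀ z, DifferentiableAt ℝ χ z := fun z => (hχ2 z).differentiableAt (by norm_num)
  have hvd : ∀ z ∈ B, DifferentiableAt ℝ v z := fun z hz =>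
    (hv2' z hz).differentiableAt (by norm_num)
  have hu0 : RegA_HB (2 * M * K) univ u := cutK [] (by simp) v hv0
  have hux : RegA_HB Ku univ (Dx u) := by
    refine RegA_HB_congr (RegA_HB_add (cutK [true] (by simp) v hv0) (cutK [] (by simp) _ hvx)) ?_
    intro z _
    by_cases hz : z ∈ B
    · exact Dx_mul (hχd z) (hvd z hz)
    · have h1 := huD0 [true] z hz
      have h2 := hχD0 [true] z hz
      have h3 := hχD0 [] z hz
      simp only [DD_true, DD_nil] at h1 h2 h3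
      rw [DD_true, DD_nil, h1, h2, h3]; ring
  have huy : RegA_HB Ku univ (Dy u) := by
    refine RegA_HB_congr (RegA_HB_add (cutK [false] (by simp) v hv0) (cutK [] (by simp) _ hvy)) ?_
    intro z _
    by_cases hz : z ∈ B
    · exact Dy_mul (hχd z) (hvd z hz)
    · have h1 := huD0 [false] z hz
      have h2 := hχD0 [false] z hz
      have h3 := hχD0 [] z hz
      simp only [DD_false, DD_nil] at h1 h2 h3
      rw [DD_false, DD_nil, h1, h2, h3]; ring
  -- the equation of `u`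
  set G : ℂ → ℝ := fun z =>
    DD [] χ z * g z +
    (DD [true] χ z * Dx v z + DD [true] χ z * Dx v z) +
    (DD [false] χ z * Dy v z + DD [false] χ z * Dy v z) +
    (DD [true, true] χ z * v z + DD [false, false] χ z * v z) +
    (DD [true, true] χ z * (p z * v z) +
      (DD [true] χ z * (p z * Dx v z) + DD [true] χ z * (p z * Dx v z))) +
    (DD [true, false] χ z * (q z * v z) +
      (DD [false] χ z * (q z * Dx v z) + DD [true] χ z * (q z * Dy v z))) +
    (DD [false, false] χ z * (r z * v z) +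
      (DD [false] χ z * (r z * Dy v z) + DD [false] χ z * (r z * Dy v z))) with hG
  have hGHB : RegA_HB (16 * L) univ G := by
    have t1 := cut [] (by simp) g (w1 g hg)
    have t2 := cut [true] (by simp) (Dx v) (w1 _ hvx)
    have t3 := cut [false] (by simp) (Dy v) (w1 _ hvy)
    have t4 := cut [true, true] (by simp) v (w1 _ hv0)
    have t5 := cut [false, false] (by simp) v (w1 _ hv0)
    have t6 := cut [true, true] (by simp) _ (hmulK p v hp hv0)
    have t7 := cut [true] (by simp) _ (hmulK p _ hp hvx)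
    have t8 := cut [true, false] (by simp) _ (hmulK q v hq hv0)
    have t9 := cut [false] (by simp) _ (hmulK q _ hq hvx)
    have t10 := cut [true] (by simp) _ (hmulK q _ hq hvy)
    have t11 := cut [false, false] (by simp) _ (hmulK r v hr hv0)
    have t12 := cut [false] (by simp) _ (hmulK r _ hr hvy)
    have := RegA_HB_add (RegA_HB_add (RegA_HB_add (RegA_HB_add (RegA_HB_add (RegA_HB_add t1
      (RegA_HB_add t2 t2)) (RegA_HB_add t3 t3)) (RegA_HB_add t4 t5))
      (RegA_HB_add t6 (RegA_HB_add t7 t7))) (RegA_HB_add t8 (RegA_HB_add t9 t10)))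
      (RegA_HB_add t11 (RegA_HB_add t12 t12))
    exact RegA_HB_mono this (by linarith) Subset.rfl
  have hLapu : ∀ z, Lap u z = G z - p z * Dx (Dx u) z - q z * Dx (Dy u) z - r z * Dy (Dy u) z := by
    intro z
    by_cases hz : z ∈ B
    · obtain ⟨e1, e2, e3⟩ := RegA_prod (hχ2 z) (hv2' z hz)
      have e4 := he z hz
      have e5 : Lap u z = Dx (Dx u) z + Dy (Dy u) z := rfl
      have e6 : Lap v z = Dx (Dx v) z + Dy (Dy v) z := rfl
      rw [e6] at e4
      rw [e5]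
      simp only [hu, e1, e2, e3, hG, DD_true, DD_false, DD_nil]
      linear_combination χ z * e4
    · have h1 := huD0 [true, true] z hz
      have h2 := huD0 [true, false] z hz
      have h3 := huD0 [false, false] z hz
      simp only [DD_true, DD_false, DD_nil] at h1 h2 h3
      have e5 : Lap u z = Dx (Dx u) z + Dy (Dy u) z := rfl
      rw [e5, h1, h2, h3]
      simp only [hG, hχD0 [] z hz, hχD0 [true] z hz, hχD0 [false] z hz, hχD0 [true, true] z hz,
        hχD0 [true, false] z hz, hχD0 [false, false] z hz]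
      ring
  -- Hölder constants for the second derivatives
  let P : ℝ → Prop := fun H => 0 ≤ H ∧ ∀ l : List Bool, l.length = 2 → ∀ z z',
    |DD l u z - DD l u z'| ≤ H * Real.sqrt ‖z - z'‖
  have hsup : ∀ H, P H → ∀ t : ℝ, 0 < t → ∀ l : List Bool, l.length = 2 → ∀ z,
      |DD l u z| ≤ 2 * Ku / t + H * Real.sqrt t := by
    rintro H ⟨hH0, hH⟩ t ht l hl z
    obtain ⟨b, b', rfl⟩ := List.length_eq_two.1 hl
    have hD : Differentiable ℝ (DD [b'] u) := by
      intro y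
      have h1 := RegA_differentiableAt_DD isOpen_univ (n := 2)
        (by exact_mod_cast hu2.contDiffOn (s := univ)) [b'] (by simp) (mem_univ y)
      exact h1
    have hb : ∀ y, |DD [b'] u y| ≤ Ku := by
      intro y
      cases b'
      · exact huy.1 y (mem_univ _)
      · exact hux.1 y (mem_univ _)
    cases b
    · exact RegA_interp hD (e := Complex.I) (by simp) hH0 hb (hH _ hl) ht z
    · exact RegA_interp hD (e := 1) (by simp) hH0 hb (hH _ hl) ht z
  have hstep : ∀ H, P H → P (A + H / 2) := by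
    intro H hH
    refine ⟨by have := hH.1; positivity, ?_⟩
    have hS := hsup H hH t ht0
    set S : ℝ := 2 * Ku / t + H * Real.sqrt t with hSdef
    have hS0 : 0 ≤ S := by have := hH.1; positivity
    have c1 := RegA_coef hps hp cstar_pos.le hK hS0 (huD0 [true, true]) (hS [true, true] rfl)
      (hH.2 [true, true] rfl)
    have c2 := RegA_coef hqs hq cstar_pos.le hK hS0 (huD0 [true, false]) (hS [true, false] rfl)
      (hH.2 [true, false] rfl)
    have c3 := RegA_coef hrs hr cstar_pos.le hK hS0 (huD0 [false, false]) (hS [false, false] rfl)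
      (hH.2 [false, false] rfl)
    have hN : ∀ z z', |Lap u z - Lap u z'| ≤
        (16 * L + 3 * (cstar * H + K * S)) * Real.sqrt ‖z - z'‖ := by
      intro z z'
      have d0 := abs_le.1 (hGHB.2 z (mem_univ _) z' (mem_univ _))
      have d1 := abs_le.1 (c1 z z')
      have d2 := abs_le.1 (c2 z z')
      have d3 := abs_le.1 (c3 z z')
      simp only [DD_true, DD_false, DD_nil] at d1 d2 d3
      rw [hLapu z, hLapu z', abs_le]
      constructor <;> nlinarith [d0.1, d0.2, d1.1, d1.2, d2.1, d2.2, d3.1, d3.2]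
    have hR := RegA_CS_spec.2 u _ hu2 hucs hN
    intro l hl z z'
    refine (hR l hl z z').trans (mul_le_mul_of_nonneg_right ?_ (Real.sqrt_nonneg _))
    -- arithmetic
    have a1 := RegA_cstar_le
    rw [← hCSdef] at a1 ⊢
    have a2 : CS * K * Real.sqrt t ≤ 1 / 12 := by
      rw [hst, mul_one_div, div_le_div_iff₀ hden (by norm_num)]
      linarith
    have a3 : CS * (16 * L + 3 * (cstar * H + K * S)) =
        A + 3 * (CS * cstar) * H + 3 * (CS * K * Real.sqrt t) * H := by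
      rw [hA, hSdef]; ring
    rw [a3]
    have h0 := hH.1
    nlinarith [mul_le_mul_of_nonneg_right a1 h0, mul_le_mul_of_nonneg_right a2 h0]
  -- the qualitative bound
  have hP1 : ∃ H, P H := by
    obtain ⟨K₁, hK₁, k1, k2, k3⟩ := hv2
    set K₃ := K + K₁ with hK₃
    have hK₃0 : 0 ≤ K₃ := by positivity
    have cut3 : ∀ l : List Bool, l.length ≤ 2 → ∀ f : ℂ → ℝ, RegA_HB K₃ B f →
        RegA_HB (2 * M * K₃) univ (fun z => DD l χ z * f z) := fun l hl f hf =>
      RegA_HB_cut hM hK₃0 (hχb l hl) (hχD0 l) hf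
    have w2 : ∀ f : ℂ → ℝ, RegA_HB K B f → RegA_HB K₃ B f := fun f hf =>
      RegA_HB_mono hf (by linarith) Subset.rfl
    have w3 : ∀ f : ℂ → ℝ, RegA_HB K₁ B f → RegA_HB K₃ B f := fun f hf =>
      RegA_HB_mono hf (by linarith) Subset.rfl
    have hxx : RegA_HB (4 * (2 * M * K₃)) univ (Dx (Dx u)) := by
      refine RegA_HB_congr (RegA_HB_mono (RegA_HB_add (RegA_HB_add (cut3 [true, true] (by simp) v (w2 _ hv0))
        (RegA_HB_add (cut3 [true] (by simp) _ (w2 _ hvx)) (cut3 [true] (by simp) _ (w2 _ hvx))))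
        (cut3 [] (by simp) _ (w3 _ k1))) (by linarith) Subset.rfl) ?_
      intro z _
      by_cases hz : z ∈ B
      · exact (RegA_prod (hχ2 z) (hv2' z hz)).1
      · have h1 := huD0 [true, true] z hz
        simp only [DD_true, DD_nil] at h1
        rw [h1, hχD0 [true, true] z hz, hχD0 [true] z hz, hχD0 [] z hz]; ring
    have hxy : RegA_HB (4 * (2 * M * K₃)) univ (Dx (Dy u)) := by
      refine RegA_HB_congr (RegA_HB_mono (RegA_HB_add (RegA_HB_add (cut3 [true, false] (by simp) v (w2 _ hv0))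
        (RegA_HB_add (cut3 [false] (by simp) _ (w2 _ hvx)) (cut3 [true] (by simp) _ (w2 _ hvy))))
        (cut3 [] (by simp) _ (w3 _ k2))) (by linarith) Subset.rfl) ?_
      intro z _
      by_cases hz : z ∈ B
      · exact (RegA_prod (hχ2 z) (hv2' z hz)).2.1
      · have h1 := huD0 [true, false] z hz
        simp only [DD_true, DD_false, DD_nil] at h1
        rw [h1, hχD0 [true, false] z hz, hχD0 [true] z hz, hχD0 [false] z hz, hχD0 [] z hz]; ring
    have hyy : RegA_HB (4 * (2 * M * K₃)) univ (Dy (Dy u)) := by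
      refine RegA_HB_congr (RegA_HB_mono (RegA_HB_add (RegA_HB_add (cut3 [false, false] (by simp) v (w2 _ hv0))
        (RegA_HB_add (cut3 [false] (by simp) _ (w2 _ hvy)) (cut3 [false] (by simp) _ (w2 _ hvy))))
        (cut3 [] (by simp) _ (w3 _ k3))) (by linarith) Subset.rfl) ?_
      intro z _
      by_cases hz : z ∈ B
      · exact (RegA_prod (hχ2 z) (hv2' z hz)).2.2
      · have h1 := huD0 [false, false] z hz
        simp only [DD_false, DD_nil] at h1
        rw [h1, hχD0 [false, false] z hz, hχD0 [false] z hz, hχD0 [] z hz]; ring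
    refine ⟨4 * (2 * M * K₃), by positivity, ?_⟩
    intro l hl z z'
    obtain ⟨b, b', rfl⟩ := List.length_eq_two.1 hl
    cases b <;> cases b'
    · exact hyy.2 z (mem_univ _) z' (mem_univ _)
    · have e1 : ∀ y, DD [false, true] u y = Dx (Dy u) y := fun y =>
        (Dx_Dy_comm hu2.contDiffAt).symm
      rw [e1, e1]
      exact hxy.2 z (mem_univ _) z' (mem_univ _)
    · exact hxy.2 z (mem_univ _) z' (mem_univ _)
    · exact hxx.2 z (mem_univ _) z' (mem_univ _)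
  obtain ⟨H₁, hH₁⟩ := hP1
  have hPn := RegA_absorb hH₁ hstep
  have hlim : Tendsto (fun n : ℕ => 2 * A + (H₁ - 2 * A) * (1 / 2) ^ n) atTop (𝓝 (2 * A)) := by
    have h1 : Tendsto (fun n : ℕ => ((1 : ℝ) / 2) ^ n) atTop (𝓝 0) :=
      tendsto_pow_atTop_nhds_zero_of_lt_one (by norm_num) (by norm_num)
    have h2 := (h1.const_mul (H₁ - 2 * A)).const_add (2 * A)
    simpa using h2
  have hPA : P (2 * A) := by
    refine ⟨by positivity, fun l hl z z' => ?_⟩
    have h1 := hlim.mul_const (Real.sqrt ‖z - z'‖)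
    exact ge_of_tendsto' h1 fun n => (hPn n).2 l hl z z'
  refine ⟨u, hu2, fun z hz => ?_, fun l hl => ?_⟩
  · simp only [hu, hχ1 z hz, one_mul]
  · have h2 : 0 ≤ 2 * M * K := by positivity
    rcases Nat.lt_or_ge l.length 1 with h | h
    · rw [List.length_eq_zero_iff.1 (by omega : l.length = 0)]
      exact RegA_HB_mono hu0 (by linarith) Subset.rfl
    · rcases Nat.lt_or_ge l.length 2 with h' | h'
      · obtain ⟨b, rfl⟩ := List.length_eq_one_iff.1 (by omega : l.length = 1)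
        cases b
        · exact RegA_HB_mono huy (by linarith) Subset.rfl
        · exact RegA_HB_mono hux (by linarith) Subset.rfl
      · have hl2 : l.length = 2 := le_antisymm hl h'
        refine ⟨fun z _ => ?_, fun z _ z' _ => ?_⟩
        · have := hsup _ hPA 1 one_pos l hl2 z
          rw [Real.sqrt_one, div_one, mul_one] at this
          linarith
        · refine (hPA.2 l hl2 z z').trans (mul_le_mul_of_nonneg_right (by linarith)
            (Real.sqrt_nonneg _))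

/-! ## Difference quotients -/

/-- The direction vectors. -/
def RegA_e : Bool → ℂ
  | true => 1
  | false => Complex.I

theorem RegA_norm_e (b : Bool) : ‖RegA_e b‖ = 1 := by
  cases b <;> simp [RegA_e]

theorem RegA_DD_cons (b : Bool) (l : List Bool) (f : ℂ → ℝ) (z : ℂ) :
    DD (b :: l) f z = fderiv ℝ (DD l f) z (RegA_e b) := by
  cases b <;> rfl

/-- Difference quotient. -/
noncomputable def RegA_dq (h : ℝ) (e : ℂ) (f : ℂ → ℝ) (z : ℂ) : ℝ :=
  (f (z + (h : ℂ) * e) - f z) / h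

theorem RegA_mem {z₀ z e : ℂ} {ρ s : ℝ} (he : ‖e‖ = 1) (hz : z ∈ ball z₀ ρ) (hs0 : 0 ≤ s)
    (hs : s ≤ ρ) : z + (s : ℂ) * e ∈ ball z₀ (2 * ρ) := by
  rw [mem_ball, dist_eq_norm] at *
  have h1 : z + (s : ℂ) * e - z₀ = (z - z₀) + (s : ℂ) * e := by ring
  have h2 : ‖(s : ℂ) * e‖ = s := by
    rw [norm_mul, he, mul_one, Complex.norm_real, Real.norm_eq_abs, abs_of_nonneg hs0]
  rw [h1]
  refine (norm_add_le _ _).trans_lt ?_
  rw [h2]; linarith

theorem RegA_hasDerivAt_line {f : ℂ → ℝ} {z e : ℂ} {s : ℝ}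
    (hf : DifferentiableAt ℝ f (z + (s : ℂ) * e)) :
    HasDerivAt (fun s : ℝ => f (z + (s : ℂ) * e)) (fderiv ℝ f (z + (s : ℂ) * e) e) s := by
  have h1 : HasDerivAt (fun s : ℝ => z + (s : ℂ) * e) e s := by
    have := ((Complex.ofRealCLM.hasDerivAt (x := s)).mul_const e).const_add z
    simpa using this
  exact hf.hasFDerivAt.comp_hasDerivAt s h1

theorem RegA_dq_HB {f : ℂ → ℝ} {z₀ e : ℂ} {ρ K h : ℝ} (he : ‖e‖ = 1)
    (hf : ∀ z ∈ ball z₀ (2 * ρ), DifferentiableAt ℝ f z)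
    (hK : RegA_HB K (ball z₀ (2 * ρ)) (fun z => fderiv ℝ f z e)) (h0 : 0 < h) (hρ : h < ρ) :
    RegA_HB K (ball z₀ ρ) (RegA_dq h e f) := by
  have hmem : ∀ z ∈ ball z₀ ρ, ∀ s ∈ Icc (0 : ℝ) h, z + (s : ℂ) * e ∈ ball z₀ (2 * ρ) :=
    fun z hz s hs => RegA_mem he hz hs.1 (hs.2.trans hρ.le)
  constructor
  · intro z hz
    obtain ⟨c, hc, hc'⟩ := exists_hasDerivAt_eq_slope (fun s : ℝ => f (z + (s : ℂ) * e))
      (fun s => fderiv ℝ f (z + (s : ℂ) * e) e) h0
      (fun s hs => (RegA_hasDerivAt_line (hf _ (hmem z hz s hs))).continuousAt.continuousWithinAt)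
      (fun s hs => RegA_hasDerivAt_line (hf _ (hmem z hz s (Ioo_subset_Icc_self hs))))
    have e1 : RegA_dq h e f z = fderiv ℝ f (z + (c : ℂ) * e) e := by
      rw [hc', RegA_dq]; simp
    rw [e1]
    exact hK.1 _ (hmem z hz c (Ioo_subset_Icc_self hc))
  · intro z hz z' hz'
    obtain ⟨c, hc, hc'⟩ := exists_hasDerivAt_eq_slope
      (fun s : ℝ => f (z + (s : ℂ) * e) - f (z' + (s : ℂ) * e))
      (fun s => fderiv ℝ f (z + (s : ℂ) * e) e - fderiv ℝ f (z' + (s : ℂ) * e) e) h0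
      (fun s hs => ((RegA_hasDerivAt_line (hf _ (hmem z hz s hs))).sub
        (RegA_hasDerivAt_line (hf _ (hmem z' hz' s hs)))).continuousAt.continuousWithinAt)
      (fun s hs => (RegA_hasDerivAt_line (hf _ (hmem z hz s (Ioo_subset_Icc_self hs)))).sub
        (RegA_hasDerivAt_line (hf _ (hmem z' hz' s (Ioo_subset_Icc_self hs)))))
    have e1 : RegA_dq h e f z - RegA_dq h e f z' =
        fderiv ℝ f (z + (c : ℂ) * e) e - fderiv ℝ f (z' + (c : ℂ) * e) e := by
      rw [hc', RegA_dq, RegA_dq]; simp; ring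
    rw [e1]
    have h2 := hK.2 _ (hmem z hz c (Ioo_subset_Icc_self hc)) _ (hmem z' hz' c (Ioo_subset_Icc_self hc))
    rwa [add_sub_add_right_eq_sub] at h2

theorem RegA_translate {f : ℂ → ℝ} {z₀ e : ℂ} {ρ K h : ℝ} (he : ‖e‖ = 1)
    (hK : RegA_HB K (ball z₀ (2 * ρ)) f) (h0 : 0 < h) (hρ : h < ρ) :
    RegA_HB K (ball z₀ ρ) (fun z => f (z + (h : ℂ) * e)) := by
  refine ⟨fun z hz => hK.1 _ (RegA_mem he hz h0.le hρ.le), fun z hz z' hz' => ?_⟩
  have h2 := hK.2 _ (RegA_mem he hz h0.le hρ.le) _ (RegA_mem he hz' h0.le hρ.le)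
  rwa [add_sub_add_right_eq_sub] at h2

theorem RegA_dq_HB' {f : ℂ → ℝ} {z₀ e : ℂ} {ρ K h : ℝ} (he : ‖e‖ = 1) (hK0 : 0 ≤ K)
    (hK : RegA_HB K (ball z₀ (2 * ρ)) f) (h0 : 0 < h) (hρ : h < ρ) :
    RegA_HB (2 * (K + K) * |h⁻¹|) (ball z₀ ρ) (RegA_dq h e f) := by
  have h1 := RegA_translate he hK h0 hρ
  have h2 : RegA_HB K (ball z₀ ρ) f := RegA_HB_mono hK le_rfl (ball_subset_ball (by linarith))
  have h3 := RegA_HB_mul (by positivity) (abs_nonneg _) (RegA_HB_sub h1 h2) (RegA_HB_const h⁻¹)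
  exact h3

theorem RegA_dq_D {g : ℂ → ℝ} {z a : ℂ} {h : ℝ} (hg : DifferentiableAt ℝ g z)
    (hg' : DifferentiableAt ℝ g (z + a)) (v : ℂ) :
    fderiv ℝ (fun y => (g (y + a) - g y) / h) z v =
      (fderiv ℝ g (z + a) v - fderiv ℝ g z v) / h := by
  have h1 : HasFDerivAt (fun y => g (y + a)) (fderiv ℝ g (z + a)) z := by
    have h2 : HasFDerivAt (fun y : ℂ => y + a) (ContinuousLinearMap.id ℝ ℂ) z :=
      (hasFDerivAt_id z).add_const a
    exact hg'.hasFDerivAt.comp z h2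
  have h3 : HasFDerivAt (fun y => (g (y + a) - g y) * h⁻¹)
      (h⁻¹ • (fderiv ℝ g (z + a) - fderiv ℝ g z)) z := (h1.sub hg.hasFDerivAt).mul_const h⁻¹
  have h4 : (fun y => (g (y + a) - g y) / h) = fun y => (g (y + a) - g y) * h⁻¹ := by
    funext y; rw [div_eq_mul_inv]
  rw [h4, h3.fderiv]
  show h⁻¹ * (fderiv ℝ g (z + a) v - fderiv ℝ g z v) = _
  rw [div_eq_mul_inv, mul_comm]

theorem RegA_DD_dq {f : ℂ → ℝ} {z₀ e : ℂ} {ρ h : ℝ} {n : ℕ} (he : ‖e‖ = 1)
    (hf : ContDiffOn ℝ n f (ball z₀ (2 * ρ))) (h0 : 0 < h) (hρ : h < ρ) (l : List Bool) :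
    l.length ≤ n → ∀ z ∈ ball z₀ ρ, DD l (RegA_dq h e f) z = RegA_dq h e (DD l f) z := by
  induction l with
  | nil => intro _ z _; rfl
  | cons b l ih =>
    intro hl z hz
    rw [List.length_cons] at hl
    have h1 : DD l (RegA_dq h e f) =ᶠ[𝓝 z] RegA_dq h e (DD l f) := by
      filter_upwards [isOpen_ball.mem_nhds hz] with y hy
      exact ih (by omega) y hy
    have h2 := RegA_differentiableAt_DD isOpen_ball hf l hl
      (ball_subset_ball (by linarith : ρ ≤ 2 * ρ) hz)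
    have h3 := RegA_differentiableAt_DD isOpen_ball hf l hl (RegA_mem he hz h0.le hρ.le)
    rw [RegA_DD_cons, h1.fderiv_eq]
    have h4 := RegA_dq_D (h := h) h2 h3 (RegA_e b)
    rw [← RegA_DD_cons, ← RegA_DD_cons] at h4
    exact h4

theorem RegA_dq_contDiffOn {f : ℂ → ℝ} {z₀ e : ℂ} {ρ h : ℝ} {n : WithTop ℕ∞} (he : ‖e‖ = 1)
    (hf : ContDiffOn ℝ n f (ball z₀ (2 * ρ))) (h0 : 0 < h) (hρ : h < ρ) :
    ContDiffOn ℝ n (RegA_dq h e f) (ball z₀ ρ) := by
  have h1 : ContDiffOn ℝ n (fun z : ℂ => z + (h : ℂ) * e) (ball z₀ ρ) :=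
    contDiffOn_id.add contDiffOn_const
  have h2 : ContDiffOn ℝ n (fun z => f (z + (h : ℂ) * e)) (ball z₀ ρ) :=
    hf.comp h1 fun z hz => RegA_mem he hz h0.le hρ.le
  have h3 : ContDiffOn ℝ n f (ball z₀ ρ) := hf.mono (ball_subset_ball (by linarith))
  have h4 := (h2.sub h3).div_const h
  exact h4

/-- Local bounds at small scales. -/
theorem RegA_LH_ev {U : Set ℂ} {f : ℂ → ℝ} (hf : LH U f) {z₀ : ℂ} (hz : z₀ ∈ U) :
    ∀ᶠ R : ℝ in 𝓝[>] 0, RegA_HB (1 / R) (ball z₀ R) f := by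
  obtain ⟨r, hr, K, hK0, hK⟩ := RegA_LH_iff.1 hf z₀ hz
  have h1 : Ioo (0 : ℝ) (min r (1 / (K + 1))) ∈ 𝓝[>] (0 : ℝ) :=
    Ioo_mem_nhdsGT (lt_min hr (by positivity))
  filter_upwards [h1] with R hR
  refine RegA_HB_mono hK ?_ (ball_subset_ball (hR.2.le.trans (min_le_left _ _)))
  have h2 : R ≤ 1 / (K + 1) := hR.2.le.trans (min_le_right _ _)
  rw [le_div_iff₀ hR.1]
  rw [le_div_iff₀ (by positivity)] at h2
  nlinarith [hR.1]

theorem RegA_CH_ev {k : ℕ} {U : Set ℂ} {f : ℂ → ℝ} (hf : CH k U f) {z₀ : ℂ} (hz : z₀ ∈ U) :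
    ∀ᶠ R : ℝ in 𝓝[>] 0, ∀ l : List Bool, l.length ≤ k →
      RegA_HB (1 / R) (ball z₀ R) (DD l f) := by
  have h1 := (Filter.eventually_all_finite (List.finite_length_le Bool k) (l := 𝓝[>] (0 : ℝ))
    (p := fun l R => RegA_HB (1 / R) (ball z₀ R) (DD l f))).2
    fun l hl => RegA_LH_ev (hf.2 l hl) hz
  filter_upwards [h1] with R hR l hl
  exact hR l hl

theorem RegA_ball_ev {U : Set ℂ} (hU : IsOpen U) {z₀ : ℂ} (hz : z₀ ∈ U) :
    ∀ᶠ R : ℝ in 𝓝[>] 0, ball z₀ R ⊆ U := by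
  obtain ⟨r, hr, hrU⟩ := Metric.isOpen_iff.1 hU z₀ hz
  filter_upwards [Ioo_mem_nhdsGT hr] with R hR
  exact (ball_subset_ball hR.2.le).trans hrU

/-- **Lifting**: if the difference quotients of `y` satisfy linear equations with uniformly Hölder
continuous data, then the derivative `DD [b] y` is `C^{2,1/2}`. -/
theorem RegA_lift {U : Set ℂ} (hU : IsOpen U) {y : ℂ → ℝ} (hy : CH 2 U y) (b : Bool)
    (H : ∀ z₀ ∈ U, ∃ ρ : ℝ, 0 < ρ ∧ ∃ K : ℝ, 0 ≤ K ∧ ∀ h : ℝ, 0 < h → h < ρ →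
      ∃ p q r g : ℂ → ℝ, RegA_HB K (ball z₀ ρ) p ∧ RegA_HB K (ball z₀ ρ) q ∧
        RegA_HB K (ball z₀ ρ) r ∧ RegA_HB K (ball z₀ ρ) g ∧
        (∀ z ∈ ball z₀ ρ, |p z| ≤ cstar) ∧ (∀ z ∈ ball z₀ ρ, |q z| ≤ cstar) ∧
        (∀ z ∈ ball z₀ ρ, |r z| ≤ cstar) ∧
        ∀ z ∈ ball z₀ ρ, RegA_dq h (RegA_e b) (Lap y) z +
          p z * RegA_dq h (RegA_e b) (Dx (Dx y)) z + q z * RegA_dq h (RegA_e b) (Dx (Dy y)) z +
          r z * RegA_dq h (RegA_e b) (Dy (Dy y)) z = g z) :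
    CH 2 U (DD [b] y) := by
  have he := RegA_norm_e b
  set e := RegA_e b with hedef
  -- local statement
  have main : ∀ z₀ ∈ U, ∃ r > 0, ∃ g : ℂ → ℝ, ContDiffOn ℝ 2 g (ball z₀ r) ∧
      (∀ z ∈ ball z₀ r, DD [b] y z = g z) ∧ ∃ K' : ℝ, ∀ l : List Bool, l.length ≤ 2 →
        ∀ z ∈ ball z₀ r, ∀ z' ∈ ball z₀ r, |DD l g z - DD l g z'| ≤ K' * Real.sqrt ‖z - z'‖ := by
    intro z₀ hz₀
    obtain ⟨ρ₀, hρ₀, K₀, hK₀, hH⟩ := H z₀ hz₀
    have hev := ((RegA_CH_ev hy hz₀).and (RegA_ball_ev hU hz₀)).and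
      (Ioo_mem_nhdsGT (show (0 : ℝ) < ρ₀ by exact hρ₀))
    obtain ⟨R, ⟨hR1, hR2⟩, hR3⟩ := hev.exists
    have hR0 : 0 < R := hR3.1
    set ρ : ℝ := R / 2 with hρdef
    have hρ : 0 < ρ := by positivity
    have hRρ : R = 2 * ρ := by rw [hρdef]; ring
    have hρρ₀ : ρ ≤ ρ₀ := by have := hR3.2; linarith
    rw [hRρ] at hR1 hR2
    set K : ℝ := K₀ + 1 / (2 * ρ) with hKdef
    have hK : 0 ≤ K := by positivity
    have hk1 : 1 / (2 * ρ) ≤ K := by linarith
    obtain ⟨K', hK', hap⟩ := RegA_apriori z₀ hρ hK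
    have hyC : ContDiffOn ℝ ((2 : ℕ) : WithTop ℕ∞) y (ball z₀ (2 * ρ)) := hy.1.mono hR2
    -- the functions `u_h`
    have hex : ∀ h : ℝ, 0 < h → h < ρ → ∃ u : ℂ → ℝ, ContDiff ℝ 2 u ∧
        (∀ z ∈ ball z₀ (ρ / 2), u z = RegA_dq h e y z) ∧
        ∀ l : List Bool, l.length ≤ 2 → RegA_HB K' univ (DD l u) := by
      intro h h0 h1
      obtain ⟨p, q, r, g, a1, a2, a3, a4, a5, a6, a7, a8⟩ := hH h h0 (h1.trans_le hρρ₀)
      have hsub : ball z₀ ρ ⊆ ball z₀ ρ₀ := ball_subset_ball hρρ₀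
      have hKK : K₀ ≤ K := by rw [hKdef]; have : 0 ≤ 1 / (2 * ρ) := by positivity
                              linarith
      have hD : ∀ l : List Bool, l.length ≤ 2 → ∀ z ∈ ball z₀ ρ,
          DD l (RegA_dq h e y) z = RegA_dq h e (DD l y) z :=
        fun l hl => RegA_DD_dq he hyC h0 h1 l hl
      have hdiff : ∀ l : List Bool, l.length ≤ 1 → ∀ z ∈ ball z₀ (2 * ρ),
          DifferentiableAt ℝ (DD l y) z := fun l hl z hz =>
        RegA_differentiableAt_DD isOpen_ball hyC l (by omega) hz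
      have hHB1 : ∀ l : List Bool, l.length ≤ 1 → RegA_HB K (ball z₀ ρ) (DD l (RegA_dq h e y)) := by
        intro l hl
        refine RegA_HB_congr ?_ (hD l (by omega))
        refine RegA_dq_HB he (hdiff l hl) ?_ h0 h1
        have h3 := hR1 (b :: l) (by rw [List.length_cons]; omega)
        have h4 : DD (b :: l) y = fun z => fderiv ℝ (DD l y) z e := by
          funext z; exact RegA_DD_cons b l y z
        rw [h4] at h3
        exact RegA_HB_mono h3 hk1 Subset.rfl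
      have hHB2 : ∀ l : List Bool, l.length ≤ 2 →
          RegA_HB (2 * (K + K) * |h⁻¹|) (ball z₀ ρ) (DD l (RegA_dq h e y)) := by
        intro l hl
        refine RegA_HB_congr ?_ (hD l hl)
        exact RegA_dq_HB' he hK (RegA_HB_mono (hR1 l hl) hk1 Subset.rfl) h0 h1
      refine hap (RegA_dq h e y) p q r g ?_ (hHB1 [] (by simp)) (hHB1 [true] (by simp))
        (hHB1 [false] (by simp)) ⟨2 * (K + K) * |h⁻¹|, by positivity, hHB2 [true, true] (by simp),
          hHB2 [true, false] (by simp), hHB2 [false, false] (by simp)⟩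
        (RegA_HB_mono a1 hKK hsub) (RegA_HB_mono a2 hKK hsub) (RegA_HB_mono a3 hKK hsub)
        (RegA_HB_mono a4 hKK hsub) (fun z hz => a5 z (hsub hz)) (fun z hz => a6 z (hsub hz))
        (fun z hz => a7 z (hsub hz)) fun z hz => ?_
      · exact RegA_dq_contDiffOn he (by exact_mod_cast hyC) h0 h1
      · have b1 := hD [true, true] (by simp) z hz
        have b2 := hD [true, false] (by simp) z hz
        have b3 := hD [false, false] (by simp) z hz
        simp only [DD_true, DD_false, DD_nil] at b1 b2 b3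
        have b4 : Lap (RegA_dq h e y) z = RegA_dq h e (Lap y) z := by
          show Dx (Dx (RegA_dq h e y)) z + Dy (Dy (RegA_dq h e y)) z = _
          rw [b1, b3]
          simp only [RegA_dq, Lap]
          ring
        rw [b1, b2, b3, b4]
        exact a8 z (hsub hz)
    choose! uu hu1 hu2 hu3 using hex
    set hn : ℕ → ℝ := fun n => ρ / (n + 2) with hhn
    have hn0 : ∀ n, 0 < hn n := fun n => by rw [hhn]; positivity
    have hn1 : ∀ n, hn n < ρ := fun n => by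
      rw [hhn]
      refine div_lt_self hρ ?_
      have : (0 : ℝ) ≤ n := Nat.cast_nonneg n
      linarith
    obtain ⟨g, hg1, hg2⟩ := ulim_C2 (hyperfilter ℕ) (f := fun n => uu (hn n))
      (U := ball z₀ (ρ / 2)) isOpen_ball (fun n => hu1 _ (hn0 n) (hn1 n)) (by
        intro z hz
        refine ⟨1, one_pos, K', Eventually.of_forall fun n => ⟨fun y _ l hl => ?_,
          fun y _ y' _ l hl => ?_⟩⟩
        · exact (hu3 _ (hn0 n) (hn1 n) l hl).1 y (mem_univ _)
        · exact (hu3 _ (hn0 n) (hn1 n) l hl.le).2 y (mem_univ _) y' (mem_univ _))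
    have htend : ∀ l : List Bool, l.length ≤ 2 → ∀ z ∈ ball z₀ (ρ / 2),
        Tendsto (fun n => DD l (uu (hn n)) z) (hyperfilter ℕ : Filter ℕ) (𝓝 (DD l g z)) := by
      intro l hl z hz
      obtain ⟨r, hr, hr2⟩ := hg2 z hz
      exact (hr2 l hl).tendsto_at (mem_ball_self hr)
    refine ⟨ρ / 2, by positivity, g, hg1, fun z hz => ?_, K', fun l hl z hz z' hz' => ?_⟩
    · -- identification of the limit
      have h1 := htend [] (by simp) z hz
      have hzU : z ∈ ball z₀ (2 * ρ) := ball_subset_ball (by linarith) hz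
      have hd : DifferentiableAt ℝ y (z + ((0 : ℝ) : ℂ) * e) := by
        have h2 : z + ((0 : ℝ) : ℂ) * e = z := by simp
        rw [h2]
        exact RegA_differentiableAt_DD isOpen_ball hyC [] (by simp) hzU
      have h2 := (RegA_hasDerivAt_line hd).tendsto_slope_zero
      have h3 : Tendsto hn atTop (𝓝[≠] 0) := by
        refine tendsto_nhdsWithin_iff.2 ⟨?_, Eventually.of_forall fun n => (hn0 n).ne'⟩
        have h4 : Tendsto (fun n : ℕ => ((n : ℝ) + 2)) atTop atTop :=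
          tendsto_atTop_add_const_right _ _ tendsto_natCast_atTop_atTop
        exact tendsto_const_nhds.div_atTop h4
      have h5 := (h2.comp h3).mono_left Nat.hyperfilter_le_atTop
      have h6 : (fun n => DD [] (uu (hn n)) z) = ((fun t : ℝ => t⁻¹ • (y (z + ((0 + t : ℝ) : ℂ) * e) -
          y (z + ((0 : ℝ) : ℂ) * e))) ∘ hn) := by
        funext n
        show uu (hn n) z = (hn n)⁻¹ • (y (z + ((0 + hn n : ℝ) : ℂ) * e) - y (z + ((0 : ℝ) : ℂ) * e))
        rw [hu2 _ (hn0 n) (hn1 n) z hz, RegA_dq, smul_eq_mul, zero_add, div_eq_inv_mul]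
        simp
      rw [h6] at h1
      have h7 := tendsto_nhds_unique h5 h1
      rw [DD_nil] at h7
      rw [RegA_DD_cons, DD_nil, ← h7]
      simp [hedef]
    · have h1 := (htend l hl z hz).sub (htend l hl z' hz')
      refine le_of_tendsto h1.abs (Eventually.of_forall fun n => ?_)
      exact (hu3 _ (hn0 n) (hn1 n) l hl).2 z (mem_univ _) z' (mem_univ _)
  constructor
  · intro z₀ hz₀
    obtain ⟨r, hr, g, hg1, hg2, -⟩ := main z₀ hz₀
    have h1 : ContDiffAt ℝ 2 g z₀ := hg1.contDiffAt (isOpen_ball.mem_nhds (mem_ball_self hr))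
    have h2 : ContDiffAt ℝ 2 (DD [b] y) z₀ := by
      refine h1.congr_of_eventuallyEq ?_
      filter_upwards [isOpen_ball.mem_nhds (mem_ball_self hr)] with z hz
      exact hg2 z hz
    exact_mod_cast h2.contDiffWithinAt
  · intro l hl z₀ hz₀
    obtain ⟨r, hr, g, hg1, hg2, K', hK'⟩ := main z₀ hz₀
    refine ⟨r, hr, K', fun z hz z' hz' => ?_⟩
    rw [RegA_DD_eqOn isOpen_ball hg2 l hz, RegA_DD_eqOn isOpen_ball hg2 l hz']
    exact hK' l hl z hz z' hz'

theorem RegA_dq_HB_of {f : ℂ → ℝ} {z₀ : ℂ} {ρ K h : ℝ} (b : Bool) {n : ℕ} (hn : 1 ≤ n)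
    (hf : ContDiffOn ℝ n f (ball z₀ (2 * ρ)))
    (hK : RegA_HB K (ball z₀ (2 * ρ)) (DD [b] f)) (h0 : 0 < h) (hρ : h < ρ) :
    RegA_HB K (ball z₀ ρ) (RegA_dq h (RegA_e b) f) := by
  refine RegA_dq_HB (RegA_norm_e b) (fun z hz => ?_) ?_ h0 hρ
  · exact RegA_differentiableAt_DD isOpen_ball hf [] (by simpa using hn) hz
  · have h4 : DD [b] f = fun z => fderiv ℝ f z (RegA_e b) := by
      funext z; exact RegA_DD_cons b [] f z
    rw [← h4]; exact hK

theorem RegA_lin0 {U : Set ℂ} (hU : IsOpen U) {y p q r g : ℂ → ℝ}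
    (hy : CH 2 U y) (hp : CH 1 U p) (hq : CH 1 U q) (hr : CH 1 U r)
    (hg : CH 1 U g) (hps : ∀ z ∈ U, |p z| ≤ cstar) (hqs : ∀ z ∈ U, |q z| ≤ cstar)
    (hrs : ∀ z ∈ U, |r z| ≤ cstar)
    (he : ∀ z ∈ U, Lap y z + p z * Dx (Dx y) z + q z * Dx (Dy y) z + r z * Dy (Dy y) z = g z) :
    CH 3 U y := by
  have key : ∀ b : Bool, CH 2 U (DD [b] y) := by
    intro b
    refine RegA_lift hU hy b fun z₀ hz₀ => ?_
    have hev := (((((RegA_CH_ev hy hz₀).and (RegA_CH_ev hp hz₀)).and (RegA_CH_ev hq hz₀)).and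
      (RegA_CH_ev hr hz₀)).and (RegA_CH_ev hg hz₀)).and ((RegA_ball_ev hU hz₀).and
      (Ioo_mem_nhdsGT (show (0 : ℝ) < 1 by norm_num)))
    obtain ⟨R, ⟨⟨⟨⟨Ry, Rp⟩, Rq⟩, Rr⟩, Rg⟩, hR2, hR3⟩ := hev.exists
    have hR0 : 0 < R := hR3.1
    set ρ : ℝ := R / 2 with hρdef
    have hρ : 0 < ρ := by positivity
    have hRρ : R = 2 * ρ := by rw [hρdef]; ring
    rw [hRρ] at Ry Rp Rq Rr Rg hR2
    set K : ℝ := 1 / (2 * ρ) with hKdef
    have hK : 0 ≤ K := by positivity
    have hbb : ball z₀ ρ ⊆ ball z₀ (2 * ρ) := ball_subset_ball (by linarith)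
    refine ⟨ρ, hρ, K + 3 * (2 * K * K), by positivity, fun h h0 h1 => ?_⟩
    refine ⟨p, q, r, fun z => RegA_dq h (RegA_e b) g z -
      (RegA_dq h (RegA_e b) p z * Dx (Dx y) (z + (h : ℂ) * RegA_e b) +
       RegA_dq h (RegA_e b) q z * Dx (Dy y) (z + (h : ℂ) * RegA_e b) +
       RegA_dq h (RegA_e b) r z * Dy (Dy y) (z + (h : ℂ) * RegA_e b)), ?_, ?_, ?_, ?_, ?_, ?_, ?_, ?_⟩
    · exact RegA_HB_mono (Rp [] (by simp)) (by nlinarith [mul_nonneg hK hK]) hbb
    · exact RegA_HB_mono (Rq [] (by simp)) (by nlinarith [mul_nonneg hK hK]) hbb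
    · exact RegA_HB_mono (Rr [] (by simp)) (by nlinarith [mul_nonneg hK hK]) hbb
    · have c1 : ∀ f : ℂ → ℝ, CH 1 U f → (∀ l : List Bool, l.length ≤ 1 →
          RegA_HB K (ball z₀ (2 * ρ)) (DD l f)) → RegA_HB K (ball z₀ ρ) (RegA_dq h (RegA_e b) f) :=
        fun f hf hR => RegA_dq_HB_of b le_rfl (hf.1.mono hR2) (hR [b] (by simp)) h0 h1
      have c2 : ∀ l : List Bool, l.length ≤ 2 →
          RegA_HB K (ball z₀ ρ) (fun z => DD l y (z + (h : ℂ) * RegA_e b)) := fun l hl =>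
        RegA_translate (RegA_norm_e b) (Ry l hl) h0 h1
      refine RegA_HB_mono (RegA_HB_sub (c1 g hg Rg) (RegA_HB_add (RegA_HB_add
        (RegA_HB_mul hK hK (c1 p hp Rp) (c2 [true, true] (by simp)))
        (RegA_HB_mul hK hK (c1 q hq Rq) (c2 [true, false] (by simp))))
        (RegA_HB_mul hK hK (c1 r hr Rr) (c2 [false, false] (by simp))))) (by linarith) Subset.rfl
    · exact fun z hz => hps z (hR2 (hbb hz))
    · exact fun z hz => hqs z (hR2 (hbb hz))
    · exact fun z hz => hrs z (hR2 (hbb hz))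
    · intro z hz
      have e1 := he z (hR2 (hbb hz))
      have e2 := he _ (hR2 (RegA_mem (RegA_norm_e b) hz h0.le h1.le))
      simp only [RegA_dq]
      linear_combination (1 / h) * (e2 - e1)
  rw [RegA_CH_succ hU]
  exact ⟨hy.1.of_le (by norm_num), key true, key false⟩

/-- **Linear regularity.** Let `y ∈ C^{k+2,1/2}(U)` satisfy
`Δ y + p y_xx + q y_xy + r y_yy = g` on `U` with `p, q, r, g ∈ C^{k+1,1/2}(U)` and
`|p|, |q|, |r| ≤ cstar`. Then `y ∈ C^{k+3,1/2}(U)`.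

Proof. Induction on `k`. For `k ≥ 1` the function `Dx y` (and `Dy y`) satisfies the same equation
with the right side `Dx g - Dx p y_xx - Dx q y_xy - Dx r y_yy ∈ C^{k,1/2}`. For `k = 0` use
difference quotients: `y_h = (y (· + h e) - y) / h`, `e = 1` or `i`, satisfies
`Δ y_h + p (y_h)_xx + q (y_h)_xy + r (y_h)_yy = g_h - p_h y_xx (· + h e) - ...`, and the right side
is Hölder continuous on compact sets, uniformly in `h` (as `p, q, r, g ∈ C^{1,1/2}`). Let `χ` be a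
cut-off, `u = χ y_h`: `Δ u = - (p u_xx + q u_xy + r u_yy) + (terms with `y_h`, `Dy_h` and derivatives
of `χ`, Hölder continuous uniformly in `h` because `y ∈ C^{2,1/2}`)`. By `schauder_C2`
`[D²u]_{1/2} ≤ C_S (4 cstar [D²u]_{1/2} + C sup |D²u| + C)` and `sup |D²u|` is absorbed by
interpolation (`sup |D²u| ≤ δ^{1/2} [D²u]_{1/2} + C_δ sup |Du|`). So `[D²(χ y_h)]_{1/2}` is bounded
uniformly in `h`; let `h → 0` (`ulim_C2`) to see that `D_e y` is `C²` with locally Hölder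
second derivatives. -/
theorem linear_reg (k : ℕ) {U : Set ℂ} (hU : IsOpen U) {y p q r g : ℂ → ℝ}
    (hy : CH (k + 2) U y) (hp : CH (k + 1) U p) (hq : CH (k + 1) U q) (hr : CH (k + 1) U r)
    (hg : CH (k + 1) U g) (hps : ∀ z ∈ U, |p z| ≤ cstar) (hqs : ∀ z ∈ U, |q z| ≤ cstar)
    (hrs : ∀ z ∈ U, |r z| ≤ cstar)
    (he : ∀ z ∈ U, Lap y z + p z * Dx (Dx y) z + q z * Dx (Dy y) z + r z * Dy (Dy y) z = g z) :
    CH (k + 3) U y := by
  induction k generalizing y g with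
  | zero => exact RegA_lin0 hU hy hp hq hr hg hps hqs hrs he
  | succ k ih =>
    have hy3 : ∀ z ∈ U, ContDiffAt ℝ 3 y z := by
      intro z hz
      have h1 := (hy.1.contDiffAt (hU.mem_nhds hz))
      exact h1.of_le (by exact_mod_cast (by omega : 3 ≤ k + 1 + 2))
    have dp : ∀ z ∈ U, DifferentiableAt ℝ p z := fun z hz =>
      RegA_differentiableAt_DD hU hp.1 [] (by simp) hz
    have dq : ∀ z ∈ U, DifferentiableAt ℝ q z := fun z hz =>
      RegA_differentiableAt_DD hU hq.1 [] (by simp) hz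
    have dr : ∀ z ∈ U, DifferentiableAt ℝ r z := fun z hz =>
      RegA_differentiableAt_DD hU hr.1 [] (by simp) hz
    have d2 : ∀ l : List Bool, l.length ≤ 2 → ∀ z ∈ U, DifferentiableAt ℝ (DD l y) z :=
      fun l hl z hz => RegA_differentiableAt_DD hU hy.1 l (by omega) hz
    have hy1 := (RegA_CH_succ hU (k := k + 1 + 1)).1 hy
    have hyx2 := (RegA_CH_succ hU (k := k + 1)).1 hy1.2.1
    have hyy2 := (RegA_CH_succ hU (k := k + 1)).1 hy1.2.2
    have hp1 := (RegA_CH_succ hU (k := k + 1)).1 hp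
    have hq1 := (RegA_CH_succ hU (k := k + 1)).1 hq
    have hr1 := (RegA_CH_succ hU (k := k + 1)).1 hr
    have hg1 := (RegA_CH_succ hU (k := k + 1)).1 hg
    have cxx : CH (k + 1) U (Dx (Dx y)) := hyx2.2.1
    have cxy : CH (k + 1) U (Dx (Dy y)) := hyy2.2.1
    have cyy : CH (k + 1) U (Dy (Dy y)) := hyy2.2.2
    have comm : ∀ z ∈ U, Dy (Dx y) =ᶠ[𝓝 z] Dx (Dy y) := by
      intro z hz
      filter_upwards [hU.mem_nhds hz] with w hw
      exact (Dx_Dy_comm ((hy3 w hw).of_le (by norm_num))).symm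
    have cx : ∀ z ∈ U, ContDiffAt ℝ 2 (Dx y) z := fun z hz =>
      RegA_contDiffAt_Dx (hy3 z hz) (by norm_num)
    have cy : ∀ z ∈ U, ContDiffAt ℝ 2 (Dy y) z := fun z hz =>
      RegA_contDiffAt_Dy (hy3 z hz) (by norm_num)
    have ev : ∀ z ∈ U, (fun w => Dx (Dx y) w + Dy (Dy y) w + p w * Dx (Dx y) w + q w * Dx (Dy y) w +
        r w * Dy (Dy y) w) =ᶠ[𝓝 z] g := by
      intro z hz
      filter_upwards [hU.mem_nhds hz] with w hw
      exact he w hw
    have D1 : ∀ z ∈ U, DifferentiableAt ℝ (Dx (Dx y)) z := fun z hz => d2 [true, true] (by simp) z hz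
    have D2 : ∀ z ∈ U, DifferentiableAt ℝ (Dx (Dy y)) z := fun z hz => d2 [true, false] (by simp) z hz
    have D3 : ∀ z ∈ U, DifferentiableAt ℝ (Dy (Dy y)) z := fun z hz => d2 [false, false] (by simp) z hz
    have E1 : ∀ z ∈ U, DifferentiableAt ℝ (fun w => p w * Dx (Dx y) w) z := fun z hz =>
      (dp z hz).mul (D1 z hz)
    have E2 : ∀ z ∈ U, DifferentiableAt ℝ (fun w => q w * Dx (Dy y) w) z := fun z hz =>
      (dq z hz).mul (D2 z hz)
    have E3 : ∀ z ∈ U, DifferentiableAt ℝ (fun w => r w * Dy (Dy y) w) z := fun z hz =>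
      (dr z hz).mul (D3 z hz)
    have F1 : ∀ z ∈ U, DifferentiableAt ℝ (fun w => Dx (Dx y) w + Dy (Dy y) w) z := fun z hz =>
      (D1 z hz).add (D3 z hz)
    have F2 : ∀ z ∈ U, DifferentiableAt ℝ (fun w => Dx (Dx y) w + Dy (Dy y) w +
        p w * Dx (Dx y) w) z := fun z hz => (F1 z hz).add (E1 z hz)
    have F3 : ∀ z ∈ U, DifferentiableAt ℝ (fun w => Dx (Dx y) w + Dy (Dy y) w +
        p w * Dx (Dx y) w + q w * Dx (Dy y) w) z := fun z hz => (F2 z hz).add (E2 z hz)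
    have hX : CH (k + 3) U (Dx y) := by
      refine ih (g := fun z => Dx g z - (Dx p z * Dx (Dx y) z + Dx q z * Dx (Dy y) z +
        Dx r z * Dy (Dy y) z)) (RegA_CH_mono hy1.2.1 (by omega)) (RegA_CH_mono hp (by omega))
        (RegA_CH_mono hq (by omega)) (RegA_CH_mono hr (by omega)) ?_ ?_
      · exact RegA_CH_sub hU _ hg1.2.1 (RegA_CH_add hU _ (RegA_CH_add hU _
          (RegA_CH_mul hU _ hp1.2.1 cxx) (RegA_CH_mul hU _ hq1.2.1 cxy))
          (RegA_CH_mul hU _ hr1.2.1 cyy))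
      · intro z hz
        have h1 := Dx_congr (ev z hz)
        rw [Dx_add (F3 z hz) (E3 z hz), Dx_add (F2 z hz) (E2 z hz), Dx_add (F1 z hz) (E1 z hz),
          Dx_add (D1 z hz) (D3 z hz), Dx_mul (dp z hz) (D1 z hz), Dx_mul (dq z hz) (D2 z hz),
          Dx_mul (dr z hz) (D3 z hz)] at h1
        have c1 : Dx (Dy (Dy y)) z = Dy (Dy (Dx y)) z := by
          rw [Dx_Dy_comm (cy z hz), Dy_congr (comm z hz)]
        have c2 : Dx (Dx (Dy y)) z = Dx (Dy (Dx y)) z := Dx_congr (comm z hz).symm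
        show Dx (Dx (Dx y)) z + Dy (Dy (Dx y)) z + p z * Dx (Dx (Dx y)) z +
          q z * Dx (Dy (Dx y)) z + r z * Dy (Dy (Dx y)) z = _
        rw [← c1, ← c2]
        linear_combination h1
    have hY : CH (k + 3) U (Dy y) := by
      refine ih (g := fun z => Dy g z - (Dy p z * Dx (Dx y) z + Dy q z * Dx (Dy y) z +
        Dy r z * Dy (Dy y) z)) (RegA_CH_mono hy1.2.2 (by omega)) (RegA_CH_mono hp (by omega))
        (RegA_CH_mono hq (by omega)) (RegA_CH_mono hr (by omega)) ?_ ?_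
      · exact RegA_CH_sub hU _ hg1.2.2 (RegA_CH_add hU _ (RegA_CH_add hU _
          (RegA_CH_mul hU _ hp1.2.2 cxx) (RegA_CH_mul hU _ hq1.2.2 cxy))
          (RegA_CH_mul hU _ hr1.2.2 cyy))
      · intro z hz
        have h1 := Dy_congr (ev z hz)
        rw [Dy_add (F3 z hz) (E3 z hz), Dy_add (F2 z hz) (E2 z hz), Dy_add (F1 z hz) (E1 z hz),
          Dy_add (D1 z hz) (D3 z hz), Dy_mul (dp z hz) (D1 z hz), Dy_mul (dq z hz) (D2 z hz),
          Dy_mul (dr z hz) (D3 z hz)] at h1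
        have c1 : Dy (Dx (Dx y)) z = Dx (Dx (Dy y)) z := by
          rw [← Dx_Dy_comm (cx z hz), Dx_congr (comm z hz)]
        have c2 : Dy (Dx (Dy y)) z = Dx (Dy (Dy y)) z := (Dx_Dy_comm (cy z hz)).symm
        show Dx (Dx (Dy y)) z + Dy (Dy (Dy y)) z + p z * Dx (Dx (Dy y)) z +
          q z * Dx (Dy (Dy y)) z + r z * Dy (Dy (Dy y)) z = _
        rw [← c1, ← c2]
        linear_combination h1
    exact (RegA_CH_succ hU (k := k + 3)).2 ⟨hy1.1, hX, hY⟩

end Pool.Agent.KK
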