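import Pool.Agent.W_bb4b37_h53.RegA

/-!
# Regularity of `C^{2,1/2}` solutions of the fully nonlinear equation (part B)
-/

set_option autoImplicit false

open Filter Topology Set MeasureTheory Metric
open scoped ContDiff

namespace Pool.Agent.KK

/-- Families of uniformly bounded and Hölder continuous functions. -/
def RegB_UB (B : Set ℂ) (I : Set ℝ) (F : ℝ → ℂ → ℝ) : Prop :=
  ∃ K : ℝ, 0 ≤ K ∧ ∀ h ∈ I, RegA_HB K B (F h)

theorem RegB_UB_add {B : Set ℂ} {I : Set ℝ} {F G : ℝ → ℂ → ℝ} (hF : RegB_UB B I F)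
    (hG : RegB_UB B I G) : RegB_UB B I (fun h z => F h z + G h z) := by
  obtain ⟨K, hK, h1⟩ := hF
  obtain ⟨L, hL, h2⟩ := hG
  exact ⟨K + L, add_nonneg hK hL, fun h hh => RegA_HB_add (h1 h hh) (h2 h hh)⟩

theorem RegB_UB_sub {B : Set ℂ} {I : Set ℝ} {F G : ℝ → ℂ → ℝ} (hF : RegB_UB B I F)
    (hG : RegB_UB B I G) : RegB_UB B I (fun h z => F h z - G h z) := by
  obtain ⟨K, hK, h1⟩ := hF
  obtain ⟨L, hL, h2⟩ := hG
  exact ⟨K + L, add_nonneg hK hL, fun h hh => RegA_HB_sub (h1 h hh) (h2 h hh)⟩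

theorem RegB_UB_mul {B : Set ℂ} {I : Set ℝ} {F G : ℝ → ℂ → ℝ} (hF : RegB_UB B I F)
    (hG : RegB_UB B I G) : RegB_UB B I (fun h z => F h z * G h z) := by
  obtain ⟨K, hK, h1⟩ := hF
  obtain ⟨L, hL, h2⟩ := hG
  exact ⟨2 * K * L, by positivity, fun h hh => RegA_HB_mul hK hL (h1 h hh) (h2 h hh)⟩

theorem RegB_UB_const {B : Set ℂ} {I : Set ℝ} (c : ℝ) : RegB_UB B I (fun _ _ => c) :=
  ⟨|c|, abs_nonneg _, fun _ _ => RegA_HB_const c⟩

/-- `C^{k+1}` functions belong to `CH k`. -/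
theorem RegB_CH_of_contDiffOn {k : ℕ} {U : Set ℂ} (hU : IsOpen U) {f : ℂ → ℝ}
    (hf : ContDiffOn ℝ ((k + 1 : ℕ) : WithTop ℕ∞) f U) : CH k U f := by
  refine ⟨hf.of_le (by exact_mod_cast Nat.le_succ k), fun l hl => ?_⟩
  have h1 := RegA_contDiffOn_DD hU hf l 1 (by omega)
  exact RegA_LH_of_C1 hU (by exact_mod_cast h1)

/-- **First step for the nonlinear equation.** `w ∈ C^{2,1/2}(U)` solves
`Δw = e^{2w} - X + ε² QQ ε w` on `U` with `X` constant, and the coefficients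
`ε² e^{-2w} (w_yy - 2 w_y²)`, `-2 ε² e^{-2w} (w_xy - 2 w_x w_y)`, `ε² e^{-2w} (w_xx - 2 w_x²)` are
bounded by `cstar / 4`. Then `w ∈ C^{3,1/2}(U)`. Proof: difference quotients as in `linear_reg`; the
difference of the determinants at `z + h e` and `z` is bilinear in the mean and the difference of
the Hessian matrices, so `w_h` satisfies a linear equation
`Δ w_h + p_h (w_h)_xx + q_h (w_h)_xy + r_h (w_h)_yy = g_h` with coefficients and right side bounded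
in `C^{1/2}` uniformly in `h` (they contain `w`, `Dw`, `D²w`, `w_h`, `Dw_h` only), and
`|p_h|, |q_h|, |r_h| ≤ cstar` for small `h` on compact sets. -/
theorem nonlinear_first {ε X : ℝ} {U : Set ℂ} (hU : IsOpen U) {w : ℂ → ℝ} (hw : CH 2 U w)
    (hs : IsSol ε (fun _ => X) U w)
    (h1 : ∀ z ∈ U, ε ^ 2 * Real.exp (-(2 * w z)) * |Dx (Dx w) z - 2 * (Dx w z) ^ 2| ≤ cstar / 8)
    (h2 : ∀ z ∈ U, ε ^ 2 * Real.exp (-(2 * w z)) * |Dx (Dy w) z - 2 * (Dx w z * Dy w z)|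
      ≤ cstar / 8)
    (h3 : ∀ z ∈ U, ε ^ 2 * Real.exp (-(2 * w z)) * |Dy (Dy w) z - 2 * (Dy w z) ^ 2|
      ≤ cstar / 8) :
    CH 3 U w := by
  have hcs := cstar_pos
  -- the auxiliary functions
  have hw1 := (RegA_CH_succ hU (k := 1)).1 hw
  have cx : CH 1 U (Dx w) := hw1.2.1
  have cy : CH 1 U (Dy w) := hw1.2.2
  have cP : CH 1 U (fun z => Real.exp (2 * w z)) :=
    RegB_CH_of_contDiffOn hU (contDiffOn_const.mul hw.1).exp
  have cE : CH 1 U (fun z => Real.exp (-(2 * w z))) :=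
    RegB_CH_of_contDiffOn hU (contDiffOn_const.mul hw.1).neg.exp
  have cxx2 : CH 1 U (fun z => Dx w z * Dx w z) := RegA_CH_mul hU 1 cx cx
  have cxy2 : CH 1 U (fun z => Dx w z * Dy w z) := RegA_CH_mul hU 1 cx cy
  have cyy2 : CH 1 U (fun z => Dy w z * Dy w z) := RegA_CH_mul hU 1 cy cy
  have cN : CH 1 U (fun z => Dx w z * Dx w z + Dy w z * Dy w z) := RegA_CH_add hU 1 cxx2 cyy2
  have cQ : CH 1 U (fun z => Real.exp (-(2 * w z)) *
      ((Dx w z * Dx w z + Dy w z * Dy w z) * (Dx w z * Dx w z + Dy w z * Dy w z))) :=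
    RegA_CH_mul hU 1 cE (RegA_CH_mul hU 1 cN cN)
  have la : LH U (fun z => Dx (Dx w) z - 2 * (Dx w z * Dx w z)) := by
    have := RegA_LH_sub (hw.2 [true, true] (by simp)) (RegA_LH_add (cxx2.2 [] (by simp))
      (cxx2.2 [] (by simp)))
    refine RegA_LH_congr hU this fun z _ => ?_
    simp only [DD_true, DD_nil]; ring
  have ld : LH U (fun z => Dx (Dy w) z - 2 * (Dx w z * Dy w z)) := by
    have := RegA_LH_sub (hw.2 [true, false] (by simp)) (RegA_LH_add (cxy2.2 [] (by simp))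
      (cxy2.2 [] (by simp)))
    refine RegA_LH_congr hU this fun z _ => ?_
    simp only [DD_true, DD_false, DD_nil]; ring
  have lc : LH U (fun z => Dy (Dy w) z - 2 * (Dy w z * Dy w z)) := by
    have := RegA_LH_sub (hw.2 [false, false] (by simp)) (RegA_LH_add (cyy2.2 [] (by simp))
      (cyy2.2 [] (by simp)))
    refine RegA_LH_congr hU this fun z _ => ?_
    simp only [DD_false, DD_nil]; ring
  have key : ∀ b : Bool, CH 2 U (DD [b] w) := by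
    intro b
    refine RegA_lift hU hw b fun z₀ hz₀ => ?_
    have hcont : ∀ᶠ R : ℝ in 𝓝[>] 0, ∀ z ∈ ball z₀ R, |w z - w z₀| ≤ 1 / 8 := by
      have hc : ContinuousAt w z₀ := (hw.1.contDiffAt (hU.mem_nhds hz₀)).continuousAt
      obtain ⟨δ, hδ, hδ'⟩ := Metric.continuousAt_iff.1 hc (1 / 8) (by norm_num)
      filter_upwards [Ioo_mem_nhdsGT hδ] with R hR z hz
      have := hδ' (lt_of_lt_of_le (mem_ball.1 hz) hR.2.le)
      rw [Real.dist_eq] at this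
      exact this.le
    have hev := ((((((((((RegA_ball_ev hU hz₀).and hcont).and (RegA_CH_ev cP hz₀)).and
      (RegA_CH_ev cE hz₀)).and (RegA_CH_ev cxx2 hz₀)).and (RegA_CH_ev cxy2 hz₀)).and
      (RegA_CH_ev cyy2 hz₀)).and (RegA_CH_ev cN hz₀)).and (RegA_CH_ev cQ hz₀)).and
      (((RegA_LH_ev la hz₀).and (RegA_LH_ev ld hz₀)).and (RegA_LH_ev lc hz₀))).and
      (Ioo_mem_nhdsGT (show (0 : ℝ) < 1 by norm_num))
    obtain ⟨R, ⟨⟨⟨⟨⟨⟨⟨⟨⟨hR2, Rc⟩, RP⟩, RE⟩, Rxx⟩, Rxy⟩, Ryy⟩, RN⟩, RQ⟩, ⟨⟨Ra, Rd⟩, Rcc⟩⟩, hR3⟩ :=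
      hev.exists
    have hR0 : 0 < R := hR3.1
    set ρ : ℝ := R / 2 with hρdef
    have hρ : 0 < ρ := by positivity
    have hRρ : R = 2 * ρ := by rw [hρdef]; ring
    rw [hRρ] at hR2 Rc RP RE Rxx Rxy Ryy RN RQ Ra Rd Rcc
    set K : ℝ := 1 / (2 * ρ) with hKdef
    have hK : 0 ≤ K := by positivity
    have hbb : ball z₀ ρ ⊆ ball z₀ (2 * ρ) := ball_subset_ball (by linarith)
    have he := RegA_norm_e b
    set e := RegA_e b with hedef
    -- uniform families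
    have uq : ∀ f : ℂ → ℝ, CH 1 U f → (∀ l : List Bool, l.length ≤ 1 →
        RegA_HB K (ball z₀ (2 * ρ)) (DD l f)) →
        RegB_UB (ball z₀ ρ) (Ioo 0 ρ) (fun h z => RegA_dq h e f z) := fun f hf hR =>
      ⟨K, hK, fun h hh => RegA_dq_HB_of b le_rfl (hf.1.mono hR2) (hR [b] (by simp)) hh.1 hh.2⟩
    have u0 : ∀ f : ℂ → ℝ, RegA_HB K (ball z₀ (2 * ρ)) f →
        RegB_UB (ball z₀ ρ) (Ioo 0 ρ) (fun _ z => f z) := fun f hf =>
      ⟨K, hK, fun h hh => RegA_HB_mono hf le_rfl hbb⟩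
    have u1 : ∀ f : ℂ → ℝ, RegA_HB K (ball z₀ (2 * ρ)) f →
        RegB_UB (ball z₀ ρ) (Ioo 0 ρ) (fun h z => f (z + (h : ℂ) * e)) := fun f hf =>
      ⟨K, hK, fun h hh => RegA_translate he hf hh.1 hh.2⟩
    have uc := fun c : ℝ => RegB_UB_const (B := ball z₀ ρ) (I := Ioo 0 ρ) c
    have E0 := u0 _ (RE [] (by simp))
    simp only [DD_nil] at E0
    obtain ⟨Kp, hKp, Hp⟩ := RegB_UB_mul (RegB_UB_mul (uc (ε ^ 2)) E0) (u1 _ Rcc)
    obtain ⟨Kr, hKr, Hr⟩ := RegB_UB_mul (RegB_UB_mul (uc (ε ^ 2)) E0) (u0 _ Ra)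
    obtain ⟨Kq, hKq, Hq⟩ := RegB_UB_mul (RegB_UB_mul (uc (-ε ^ 2)) E0)
      (RegB_UB_add (u1 _ Rd) (u0 _ Rd))
    obtain ⟨Kg, hKg, Hg⟩ := RegB_UB_add (uq _ cP RP) (RegB_UB_mul (uc (ε ^ 2))
      (RegB_UB_add (RegB_UB_sub (RegB_UB_sub (RegB_UB_mul (uc (1 + ε ^ 2)) (uq _ cQ RQ))
        (RegB_UB_mul (uc 2) (uq _ cN RN)))
        (RegB_UB_mul (uq _ cE RE) (RegB_UB_sub (RegB_UB_mul (u1 _ Ra) (u1 _ Rcc))
          (RegB_UB_mul (u1 _ Rd) (u1 _ Rd)))))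
        (RegB_UB_sub (RegB_UB_add
          (RegB_UB_mul (RegB_UB_mul (RegB_UB_mul (uc 2) E0) (u1 _ Rcc)) (uq _ cxx2 Rxx))
          (RegB_UB_mul (RegB_UB_mul (RegB_UB_mul (uc 2) E0) (u0 _ Ra)) (uq _ cyy2 Ryy)))
          (RegB_UB_mul (RegB_UB_mul (RegB_UB_mul (uc 2) E0)
            (RegB_UB_add (u1 _ Rd) (u0 _ Rd))) (uq _ cxy2 Rxy)))))
    -- the ratio of the exponentials
    have hexp : ∀ h ∈ Ioo (0 : ℝ) ρ, ∀ z ∈ ball z₀ ρ,
        Real.exp (-(2 * w z)) ≤ 2 * Real.exp (-(2 * w (z + (h : ℂ) * e))) := by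
      intro h hh z hz
      have a1 := abs_le.1 (Rc z (hbb hz))
      have a2 := abs_le.1 (Rc _ (RegA_mem he hz hh.1.le hh.2.le))
      have a3 : -(2 * w z) ≤ 1 / 2 + -(2 * w (z + (h : ℂ) * e)) := by linarith [a1.1, a1.2, a2.1, a2.2]
      have a4 : Real.exp (1 / 2) ≤ 2 := by
        have : Real.exp (1 / 2) ^ 2 = Real.exp 1 := by
          rw [← Real.exp_nat_mul]; norm_num
        have h3 := Real.exp_one_lt_d9
        nlinarith [Real.exp_pos (1 / 2 : ℝ)]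
      calc Real.exp (-(2 * w z)) ≤ Real.exp (1 / 2 + -(2 * w (z + (h : ℂ) * e))) :=
            Real.exp_le_exp.2 a3
        _ = Real.exp (1 / 2) * Real.exp (-(2 * w (z + (h : ℂ) * e))) := Real.exp_add _ _
        _ ≤ _ := mul_le_mul_of_nonneg_right a4 (Real.exp_pos _).le
    refine ⟨ρ, hρ, Kp + Kq + Kr + Kg, by positivity, fun h h0 h1' => ?_⟩
    have hh : h ∈ Ioo (0 : ℝ) ρ := ⟨h0, h1'⟩
    have hz1 : ∀ z ∈ ball z₀ ρ, z + (h : ℂ) * e ∈ U := fun z hz =>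
      hR2 (RegA_mem he hz h0.le h1'.le)
    have hε2 : 0 ≤ ε ^ 2 := sq_nonneg ε
    refine ⟨_, _, _, _, RegA_HB_mono (Hp h hh) (by linarith) Subset.rfl,
      RegA_HB_mono (Hq h hh) (by linarith) Subset.rfl,
      RegA_HB_mono (Hr h hh) (by linarith) Subset.rfl,
      RegA_HB_mono (Hg h hh) (by linarith) Subset.rfl, ?_, ?_, ?_, ?_⟩
    · intro z hz
      have b1 := h3 _ (hz1 z hz)
      rw [sq (Dy w (z + (h : ℂ) * e))] at b1
      rw [abs_mul, abs_mul, abs_of_nonneg hε2, abs_of_pos (Real.exp_pos _)]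
      have b2 := hexp h hh z hz
      have b3 := abs_nonneg (Dy (Dy w) (z + (h : ℂ) * e) - 2 * (Dy w (z + (h : ℂ) * e) * Dy w (z + (h : ℂ) * e)))
      calc _ ≤ ε ^ 2 * (2 * Real.exp (-(2 * w (z + (h : ℂ) * e)))) *
            |Dy (Dy w) (z + (h : ℂ) * e) - 2 * (Dy w (z + (h : ℂ) * e) * Dy w (z + (h : ℂ) * e))| :=
            mul_le_mul_of_nonneg_right (mul_le_mul_of_nonneg_left b2 hε2) b3
        _ ≤ cstar := by linarith
    · intro z hz
      have b1 := h2 _ (hz1 z hz)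
      have b1' := h2 z (hR2 (hbb hz))
      rw [abs_mul, abs_mul, abs_neg, abs_of_nonneg hε2, abs_of_pos (Real.exp_pos _)]
      have b2 := hexp h hh z hz
      have b3 := abs_nonneg (Dx (Dy w) (z + (h : ℂ) * e) - 2 * (Dx w (z + (h : ℂ) * e) * Dy w (z + (h : ℂ) * e)))
      have b4 := abs_add_le (Dx (Dy w) (z + (h : ℂ) * e) - 2 * (Dx w (z + (h : ℂ) * e) * Dy w (z + (h : ℂ) * e)))
        (Dx (Dy w) z - 2 * (Dx w z * Dy w z))
      have b5 : 0 ≤ ε ^ 2 * Real.exp (-(2 * w z)) := mul_nonneg hε2 (Real.exp_pos _).le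
      have b6 := mul_le_mul_of_nonneg_left b4 b5
      have b7 := mul_le_mul_of_nonneg_right (mul_le_mul_of_nonneg_left b2 hε2) b3
      refine b6.trans ?_
      rw [mul_add]
      linarith
    · intro z hz
      have b1' := h1 z (hR2 (hbb hz))
      rw [sq (Dx w z)] at b1'
      rw [abs_mul, abs_mul, abs_of_nonneg hε2, abs_of_pos (Real.exp_pos _)]
      linarith
    · intro z hz
      have e1 := hs z (hR2 (hbb hz))
      have e2 := hs _ (hz1 z hz)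
      simp only [QQ] at e1 e2
      simp only [RegA_dq]
      linear_combination (1 / h) * (e2 - e1)
  rw [RegA_CH_succ hU]
  exact ⟨hw.1.of_le (by norm_num), key true, key false⟩

end Pool.Agent.KK
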