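import Pool.Agent.W_bb4b37_h53.RegB

/-!
# Regularity of `C^{2,1/2}` solutions of the fully nonlinear equation (part C)
-/

set_option autoImplicit false

open Filter Topology Set MeasureTheory Metric
open scoped ContDiff

namespace Pool.Agent.KK

theorem RegC_LH_congr {U : Set ℂ} (hU : IsOpen U) {f g : ℂ → ℝ} (h : ∀ z ∈ U, f z = g z)
    (hf : LH U f) : LH U g := by
  intro z hz
  obtain ⟨r, hr, K, hK⟩ := hf z hz
  obtain ⟨s, hs, hsU⟩ := Metric.isOpen_iff.1 hU z hz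
  refine ⟨min r s, lt_min hr hs, K, fun y hy y' hy' => ?_⟩
  rw [← h y (hsU (ball_subset_ball (min_le_right _ _) hy)),
    ← h y' (hsU (ball_subset_ball (min_le_right _ _) hy'))]
  exact hK y (ball_subset_ball (min_le_left _ _) hy) y' (ball_subset_ball (min_le_left _ _) hy')

theorem RegC_LH_bd {U : Set ℂ} {f : ℂ → ℝ} (hf : LH U f) {z : ℂ} (hz : z ∈ U) :
    ∃ r > 0, ∃ K ≥ 0, ∃ M ≥ 0, ∀ y ∈ ball z r, |f y| ≤ M ∧
      ∀ y' ∈ ball z r, |f y - f y'| ≤ K * Real.sqrt ‖y - y'‖ := by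
  obtain ⟨r, hr, K, hK⟩ := hf z hz
  have hK' : ∀ y ∈ ball z r, ∀ y' ∈ ball z r, |f y - f y'| ≤ |K| * Real.sqrt ‖y - y'‖ :=
    fun y hy y' hy' => (hK y hy y' hy').trans
      (mul_le_mul_of_nonneg_right (le_abs_self K) (Real.sqrt_nonneg _))
  refine ⟨r, hr, |K|, abs_nonneg K, |f z| + |K| * Real.sqrt r, by positivity, fun y hy => ⟨?_, hK' y hy⟩⟩
  have h1 := hK' y hy z (mem_ball_self hr)
  have h2 : Real.sqrt ‖y - z‖ ≤ Real.sqrt r := by
    apply Real.sqrt_le_sqrt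
    rw [← dist_eq_norm]
    exact (mem_ball.1 hy).le
  have h3 : |f y| ≤ |f z| + |f y - f z| := by
    have := abs_add_le (f z) (f y - f z)
    rwa [add_sub_cancel] at this
  have h4 := mul_le_mul_of_nonneg_left h2 (abs_nonneg K)
  linarith

theorem RegC_LH_add {U : Set ℂ} {f g : ℂ → ℝ} (hf : LH U f) (hg : LH U g) :
    LH U (fun z => f z + g z) := by
  intro z hz
  obtain ⟨r, hr, K, hK⟩ := hf z hz
  obtain ⟨s, hs, L, hL⟩ := hg z hz
  refine ⟨min r s, lt_min hr hs, K + L, fun y hy y' hy' => ?_⟩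
  have h1 := hK y (ball_subset_ball (min_le_left _ _) hy) y'
    (ball_subset_ball (min_le_left _ _) hy')
  have h2 := hL y (ball_subset_ball (min_le_right _ _) hy) y'
    (ball_subset_ball (min_le_right _ _) hy')
  have h3 := abs_add_le (f y - f y') (g y - g y')
  have h4 : f y + g y - (f y' + g y') = (f y - f y') + (g y - g y') := by ring
  rw [h4, add_mul]
  linarith

theorem RegC_LH_mul {U : Set ℂ} {f g : ℂ → ℝ} (hf : LH U f) (hg : LH U g) :
    LH U (fun z => f z * g z) := by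
  intro z hz
  obtain ⟨r, hr, K, hK0, M, hM0, hK⟩ := RegC_LH_bd hf hz
  obtain ⟨s, hs, L, hL0, N, hN0, hL⟩ := RegC_LH_bd hg hz
  refine ⟨min r s, lt_min hr hs, M * L + N * K, fun y hy y' hy' => ?_⟩
  have y1 := ball_subset_ball (min_le_left r s) hy
  have y2 := ball_subset_ball (min_le_right r s) hy
  have y1' := ball_subset_ball (min_le_left r s) hy'
  have y2' := ball_subset_ball (min_le_right r s) hy'
  have e : f y * g y - f y' * g y' = f y * (g y - g y') + g y' * (f y - f y') := by ring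
  rw [e]
  have h1 : |f y * (g y - g y')| ≤ M * (L * Real.sqrt ‖y - y'‖) := by
    rw [abs_mul]
    exact mul_le_mul (hK y y1).1 ((hL y y2).2 y' y2') (abs_nonneg _) hM0
  have h2 : |g y' * (f y - f y')| ≤ N * (K * Real.sqrt ‖y - y'‖) := by
    rw [abs_mul]
    exact mul_le_mul (hL y' y2').1 ((hK y y1).2 y' y1') (abs_nonneg _) hN0
  have h3 := abs_add_le (f y * (g y - g y')) (g y' * (f y - f y'))
  nlinarith

theorem RegC_exp_le (u v M : ℝ) (hu : |u| ≤ M) (hv : |v| ≤ M) :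
    |Real.exp u - Real.exp v| ≤ Real.exp M * |u - v| := by
  wlog h : v ≤ u with H
  · have := H v u M hv hu (le_of_not_ge h)
    rwa [abs_sub_comm, abs_sub_comm u v]
  · have h1 : Real.exp v ≤ Real.exp u := Real.exp_le_exp.2 h
    rw [abs_of_nonneg (by linarith), abs_of_nonneg (by linarith)]
    have h2 := Real.add_one_le_exp (v - u)
    have h3 : Real.exp v = Real.exp u * Real.exp (v - u) := by
      rw [← Real.exp_add]; congr 1; ring
    have h4 : Real.exp u ≤ Real.exp M := Real.exp_le_exp.2 ((le_abs_self u).trans hu)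
    have h5 := Real.exp_pos u
    calc Real.exp u - Real.exp v = Real.exp u * (1 - Real.exp (v - u)) := by rw [h3]; ring
      _ ≤ Real.exp u * (u - v) := mul_le_mul_of_nonneg_left (by linarith) h5.le
      _ ≤ Real.exp M * (u - v) := mul_le_mul_of_nonneg_right h4 (by linarith)

theorem RegC_LH_exp {U : Set ℂ} {f : ℂ → ℝ} (hf : LH U f) :
    LH U (fun z => Real.exp (f z)) := by
  intro z hz
  obtain ⟨r, hr, K, hK0, M, hM0, hK⟩ := RegC_LH_bd hf hz
  refine ⟨r, hr, Real.exp M * K, fun y hy y' hy' => ?_⟩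
  have h1 := RegC_exp_le (f y) (f y') M (hK y hy).1 (hK y' hy').1
  have h2 := (hK y hy).2 y' hy'
  have h3 := Real.exp_pos M
  calc |Real.exp (f y) - Real.exp (f y')| ≤ Real.exp M * |f y - f y'| := h1
    _ ≤ Real.exp M * (K * Real.sqrt ‖y - y'‖) := mul_le_mul_of_nonneg_left h2 h3.le
    _ = Real.exp M * K * Real.sqrt ‖y - y'‖ := by ring

theorem RegC_LH_const (U : Set ℂ) (c : ℝ) : LH U (fun _ => c) := by
  intro z _
  exact ⟨1, one_pos, 0, fun y _ y' _ => by simp⟩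

theorem RegC_congr {k : ℕ} {U : Set ℂ} (hU : IsOpen U) {f g : ℂ → ℝ}
    (h : ∀ z ∈ U, f z = g z) (hf : CH k U f) : CH k U g := by
  refine ⟨hf.1.congr fun z hz => (h z hz).symm, fun l hl => ?_⟩
  apply RegC_LH_congr hU _ (hf.2 l hl)
  intro z hz
  apply DD_congr
  filter_upwards [hU.mem_nhds hz] with y hy
  exact h y hy

theorem RegC_mono {k m : ℕ} (h : m ≤ k) {U : Set ℂ} {f : ℂ → ℝ} (hf : CH k U f) : CH m U f :=
  ⟨hf.1.of_le (by exact_mod_cast h), fun l hl => hf.2 l (hl.trans h)⟩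

theorem RegC_Dx {k : ℕ} {U : Set ℂ} (hU : IsOpen U) {f : ℂ → ℝ} (hf : CH (k + 1) U f) :
    CH k U (Dx f) := by
  refine ⟨contDiffOn_Dx hU hf.1 (by push_cast; exact le_rfl), fun l hl => ?_⟩
  have := hf.2 (l ++ [true]) (by simp; omega)
  rwa [DD_append] at this

theorem RegC_Dy {k : ℕ} {U : Set ℂ} (hU : IsOpen U) {f : ℂ → ℝ} (hf : CH (k + 1) U f) :
    CH k U (Dy f) := by
  refine ⟨contDiffOn_Dy hU hf.1 (by push_cast; exact le_rfl), fun l hl => ?_⟩
  have := hf.2 (l ++ [false]) (by simp; omega)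
  rwa [DD_append] at this

theorem RegC_succ {k : ℕ} {U : Set ℂ} (hU : IsOpen U) {f : ℂ → ℝ}
    (hd : DifferentiableOn ℝ f U) (h0 : LH U f) (hx : CH k U (Dx f)) (hy : CH k U (Dy f)) :
    CH (k + 1) U f := by
  constructor
  · have e : ((k + 1 : ℕ) : WithTop ℕ∞) = (k : WithTop ℕ∞) + 1 := by push_cast; rfl
    rw [e, contDiffOn_succ_iff_fderiv_of_isOpen hU]
    refine ⟨hd, ?_, ?_⟩
    · intro h
      exact absurd h (by simp)
    · have e2 : ∀ z, fderiv ℝ f z = (Dx f z) • Complex.reCLM + (Dy f z) • Complex.imCLM := by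
        intro z
        ext v
        rw [fderiv_eq]
        simp only [_root_.add_apply, _root_.smul_apply, Complex.reCLM_apply,
          Complex.imCLM_apply, smul_eq_mul]
        ring
      have e3 : fderiv ℝ f = fun z => (Dx f z) • Complex.reCLM + (Dy f z) • Complex.imCLM :=
        funext e2
      rw [e3]
      exact (hx.1.smul contDiffOn_const).add (hy.1.smul contDiffOn_const)
  · intro l hl
    rcases List.eq_nil_or_concat l with rfl | ⟨l', b, rfl⟩
    · exact h0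
    · rw [List.concat_eq_append] at hl ⊢
      have hl' : l'.length ≤ k := by simp at hl; omega
      rw [DD_append]
      cases b
      · exact hy.2 l' hl'
      · exact hx.2 l' hl'

theorem RegC_zero {U : Set ℂ} {f : ℂ → ℝ} (hc : ContinuousOn f U) (h : LH U f) : CH 0 U f := by
  refine ⟨contDiffOn_zero.2 hc, fun l hl => ?_⟩
  have : l = [] := List.length_eq_zero_iff.1 (by omega)
  rw [this]
  exact h

theorem RegC_LH_self {k : ℕ} {U : Set ℂ} {f : ℂ → ℝ} (hf : CH k U f) : LH U f :=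
  hf.2 [] (by simp)

theorem RegC_diff {k : ℕ} {U : Set ℂ} {f : ℂ → ℝ} (hf : CH (k + 1) U f) :
    DifferentiableOn ℝ f U := hf.1.differentiableOn (by simp)

theorem RegC_diffAt {k : ℕ} {U : Set ℂ} (hU : IsOpen U) {f : ℂ → ℝ} (hf : CH (k + 1) U f)
    {z : ℂ} (hz : z ∈ U) : DifferentiableAt ℝ f z :=
  (RegC_diff hf).differentiableAt (hU.mem_nhds hz)

theorem RegC_const (k : ℕ) (U : Set ℂ) (c : ℝ) : CH k U (fun _ => c) := by
  refine ⟨contDiffOn_const, fun l _ => ?_⟩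
  have : ∀ l : List Bool, ∃ d : ℝ, DD l (fun _ : ℂ => c) = fun _ => d := by
    intro l
    induction l with
    | nil => exact ⟨c, rfl⟩
    | cons b l ih =>
      obtain ⟨d, hd⟩ := ih
      cases b
      · refine ⟨0, ?_⟩
        rw [DD_false, hd]
        funext z
        exact Dy_const d z
      · refine ⟨0, ?_⟩
        rw [DD_true, hd]
        funext z
        exact Dx_const d z
  obtain ⟨d, hd⟩ := this l
  rw [hd]
  exact RegC_LH_const U d

theorem RegC_add {k : ℕ} {U : Set ℂ} (hU : IsOpen U) {f g : ℂ → ℝ} (hf : CH k U f)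
    (hg : CH k U g) : CH k U (fun z => f z + g z) := by
  induction k generalizing f g with
  | zero =>
    exact RegC_zero (hf.1.continuousOn.add hg.1.continuousOn)
      (RegC_LH_add (RegC_LH_self hf) (RegC_LH_self hg))
  | succ k ih =>
    apply RegC_succ hU ((RegC_diff hf).add (RegC_diff hg))
      (RegC_LH_add (RegC_LH_self hf) (RegC_LH_self hg))
    · apply RegC_congr hU _ (ih (RegC_Dx hU hf) (RegC_Dx hU hg))
      intro z hz
      exact (Dx_add (RegC_diffAt hU hf hz) (RegC_diffAt hU hg hz)).symm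
    · apply RegC_congr hU _ (ih (RegC_Dy hU hf) (RegC_Dy hU hg))
      intro z hz
      exact (Dy_add (RegC_diffAt hU hf hz) (RegC_diffAt hU hg hz)).symm

theorem RegC_mul {k : ℕ} {U : Set ℂ} (hU : IsOpen U) {f g : ℂ → ℝ} (hf : CH k U f)
    (hg : CH k U g) : CH k U (fun z => f z * g z) := by
  induction k generalizing f g with
  | zero =>
    exact RegC_zero (hf.1.continuousOn.mul hg.1.continuousOn)
      (RegC_LH_mul (RegC_LH_self hf) (RegC_LH_self hg))
  | succ k ih =>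
    have hf' := RegC_mono (Nat.le_succ k) hf
    have hg' := RegC_mono (Nat.le_succ k) hg
    apply RegC_succ hU ((RegC_diff hf).mul (RegC_diff hg))
      (RegC_LH_mul (RegC_LH_self hf) (RegC_LH_self hg))
    · apply RegC_congr hU _ (RegC_add hU (ih (RegC_Dx hU hf) hg') (ih hf' (RegC_Dx hU hg)))
      intro z hz
      exact (Dx_mul (RegC_diffAt hU hf hz) (RegC_diffAt hU hg hz)).symm
    · apply RegC_congr hU _ (RegC_add hU (ih (RegC_Dy hU hf) hg') (ih hf' (RegC_Dy hU hg)))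
      intro z hz
      exact (Dy_mul (RegC_diffAt hU hf hz) (RegC_diffAt hU hg hz)).symm

theorem RegC_Dexp {f : ℂ → ℝ} {z : ℂ} (hf : DifferentiableAt ℝ f z) :
    Dx (fun y => Real.exp (f y)) z = Real.exp (f z) * Dx f z ∧
      Dy (fun y => Real.exp (f y)) z = Real.exp (f z) * Dy f z := by
  have h := hf.hasFDerivAt.exp
  constructor
  · show fderiv ℝ (fun y => Real.exp (f y)) z 1 = _
    rw [h.fderiv]
    rfl
  · show fderiv ℝ (fun y => Real.exp (f y)) z Complex.I = _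
    rw [h.fderiv]
    rfl

theorem RegC_exp {k : ℕ} {U : Set ℂ} (hU : IsOpen U) {f : ℂ → ℝ} (hf : CH k U f) :
    CH k U (fun z => Real.exp (f z)) := by
  induction k with
  | zero =>
    exact RegC_zero hf.1.continuousOn.rexp (RegC_LH_exp (RegC_LH_self hf))
  | succ k ih =>
    have hf' := RegC_mono (Nat.le_succ k) hf
    apply RegC_succ hU (RegC_diff hf).exp (RegC_LH_exp (RegC_LH_self hf))
    · apply RegC_congr hU _ (RegC_mul hU (ih hf') (RegC_Dx hU hf))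
      intro z hz
      exact (RegC_Dexp (RegC_diffAt hU hf hz)).1.symm
    · apply RegC_congr hU _ (RegC_mul hU (ih hf') (RegC_Dy hU hf))
      intro z hz
      exact (RegC_Dexp (RegC_diffAt hU hf hz)).2.symm

theorem RegC_neg {k : ℕ} {U : Set ℂ} (hU : IsOpen U) {f : ℂ → ℝ} (hf : CH k U f) :
    CH k U (fun z => -(f z)) := by
  have h := RegC_mul hU (RegC_const k U (-1)) hf
  apply RegC_congr hU _ h
  intro z _
  ring

theorem RegC_sub {k : ℕ} {U : Set ℂ} (hU : IsOpen U) {f g : ℂ → ℝ} (hf : CH k U f)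
    (hg : CH k U g) : CH k U (fun z => f z - g z) := by
  apply RegC_congr hU _ (RegC_add hU hf (RegC_neg hU hg))
  intro z _
  ring

theorem RegC_sq {k : ℕ} {U : Set ℂ} (hU : IsOpen U) {f : ℂ → ℝ} (hf : CH k U f) :
    CH k U (fun z => (f z) ^ 2) := by
  apply RegC_congr hU _ (RegC_mul hU hf hf)
  intro z _
  ring

/-- The right side of the differentiated equation. -/
noncomputable def RegC_G (ε a b c A B C a' b' c' : ℝ) : ℝ :=
  2 * a' * Real.exp (2 * a) + ε ^ 2 * ((1 + ε ^ 2) * (Real.exp (-(2 * a)) *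
    (2 * (b ^ 2 + c ^ 2) * (2 * b * b' + 2 * c * c') - 2 * a' * (b ^ 2 + c ^ 2) ^ 2))
    - 2 * (2 * b * b' + 2 * c * c')
    + Real.exp (-(2 * a)) * (2 * a' * ((A - 2 * b ^ 2) * (C - 2 * c ^ 2) - (B - 2 * (b * c)) ^ 2)
      + 4 * b * b' * (C - 2 * c ^ 2) + 4 * c * c' * (A - 2 * b ^ 2)
      - 4 * (B - 2 * (b * c)) * (b' * c + b * c')))

theorem RegC_line {ε X : ℝ} {a b c A B C : ℝ → ℝ} {a' b' c' A' B' C' : ℝ}
    (ha : HasDerivAt a a' 0) (hb : HasDerivAt b b' 0) (hc : HasDerivAt c c' 0)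
    (hA : HasDerivAt A A' 0) (hB : HasDerivAt B B' 0) (hC : HasDerivAt C C' 0)
    (he : ∀ᶠ t in 𝓝 (0 : ℝ), A t + C t = Real.exp (2 * a t) - X + ε ^ 2 *
      ((1 + ε ^ 2) * Real.exp (-(2 * a t)) * ((b t) ^ 2 + (c t) ^ 2) ^ 2
        - 2 * ((b t) ^ 2 + (c t) ^ 2)
        - Real.exp (-(2 * a t)) *
          ((A t - 2 * (b t) ^ 2) * (C t - 2 * (c t) ^ 2) - (B t - 2 * (b t * c t)) ^ 2))) :
    A' + C' + ε ^ 2 * Real.exp (-(2 * a 0)) * (C 0 - 2 * (c 0) ^ 2) * A'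
      + -2 * (ε ^ 2 * Real.exp (-(2 * a 0)) * (B 0 - 2 * (b 0 * c 0))) * B'
      + ε ^ 2 * Real.exp (-(2 * a 0)) * (A 0 - 2 * (b 0) ^ 2) * C'
      = RegC_G ε (a 0) (b 0) (c 0) (A 0) (B 0) (C 0) a' b' c' := by
  have hE1 := (ha.const_mul 2).exp
  have hE2 := (ha.const_mul 2).fun_neg.exp
  have hb2 := hb.fun_pow 2
  have hc2 := hc.fun_pow 2
  have hN := hb2.fun_add hc2
  have hN2 := hN.fun_pow 2
  have hd1 := hA.fun_sub (hb2.const_mul 2)
  have hd2 := hC.fun_sub (hc2.const_mul 2)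
  have hd3 := (hB.fun_sub ((hb.fun_mul hc).const_mul 2)).fun_pow 2
  have hdet := (hd1.fun_mul hd2).fun_sub hd3
  have hQ := (((hE2.const_mul (1 + ε ^ 2)).fun_mul hN2).fun_sub (hN.const_mul 2)).fun_sub
    (hE2.fun_mul hdet)
  have hR := (hE1.sub_const X).fun_add (hQ.const_mul (ε ^ 2))
  have hL := hA.fun_add hC
  have h1 := hL.unique (hR.congr_of_eventuallyEq he)
  have h2 : A' + C' = _ := h1
  unfold RegC_G
  rw [h2]
  norm_num
  ring

/-- The directional derivative of a differentiable function along a line. -/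
theorem RegC_dir {f : ℂ → ℝ} {z : ℂ} (hf : DifferentiableAt ℝ f z) (e : ℂ) :
    HasDerivAt (fun t : ℝ => f (z + (t : ℂ) * e)) (fderiv ℝ f z e) 0 := by
  have h1 : HasDerivAt (fun t : ℝ => z + (t : ℂ) * e) e 0 := by
    have h2 : HasDerivAt (fun t : ℝ => (t : ℂ) * e) (1 * e) 0 :=
      (Complex.ofRealCLM.hasDerivAt (x := (0 : ℝ))).mul_const e
    rw [one_mul] at h2
    exact h2.const_add z
  have h3 : HasFDerivAt f (fderiv ℝ f z) (z + ((0 : ℝ) : ℂ) * e) := by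
    simpa using hf.hasFDerivAt
  exact h3.comp_hasDerivAt 0 h1

/-- The differentiated equation in the direction `e`. -/
theorem RegC_deq {ε X : ℝ} {U : Set ℂ} (hU : IsOpen U) {w : ℂ → ℝ} (hw : CH 3 U w)
    (hs : IsSol ε (fun _ => X) U w) {z : ℂ} (hz : z ∈ U) (e : ℂ) :
    fderiv ℝ (Dx (Dx w)) z e + fderiv ℝ (Dy (Dy w)) z e
      + ε ^ 2 * Real.exp (-(2 * w z)) * (Dy (Dy w) z - 2 * (Dy w z) ^ 2) *
        fderiv ℝ (Dx (Dx w)) z e
      + -2 * (ε ^ 2 * Real.exp (-(2 * w z)) * (Dx (Dy w) z - 2 * (Dx w z * Dy w z))) *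
        fderiv ℝ (Dx (Dy w)) z e
      + ε ^ 2 * Real.exp (-(2 * w z)) * (Dx (Dx w) z - 2 * (Dx w z) ^ 2) *
        fderiv ℝ (Dy (Dy w)) z e
      = RegC_G ε (w z) (Dx w z) (Dy w z) (Dx (Dx w) z) (Dx (Dy w) z) (Dy (Dy w) z)
          (fderiv ℝ w z e) (fderiv ℝ (Dx w) z e) (fderiv ℝ (Dy w) z e) := by
  have h0 := RegC_diffAt (k := 2) hU hw hz
  have hx := RegC_Dx (k := 2) hU hw
  have hy := RegC_Dy (k := 2) hU hw
  have h1 := RegC_diffAt (k := 1) hU hx hz
  have h2 := RegC_diffAt (k := 1) hU hy hz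
  have h3 := RegC_diffAt (k := 0) hU (RegC_Dx (k := 1) hU hx) hz
  have h4 := RegC_diffAt (k := 0) hU (RegC_Dx (k := 1) hU hy) hz
  have h5 := RegC_diffAt (k := 0) hU (RegC_Dy (k := 1) hU hy) hz
  have hcont : Continuous fun t : ℝ => z + (t : ℂ) * e :=
    continuous_const.add (Complex.continuous_ofReal.mul continuous_const)
  have hev : ∀ᶠ t : ℝ in 𝓝 (0 : ℝ), z + (t : ℂ) * e ∈ U := by
    apply hcont.continuousAt.eventually_mem
    simpa using hU.mem_nhds hz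
  have key := RegC_line (ε := ε) (X := X) (RegC_dir h0 e) (RegC_dir h1 e) (RegC_dir h2 e)
    (RegC_dir h3 e) (RegC_dir h4 e) (RegC_dir h5 e) (by
      filter_upwards [hev] with t ht
      exact hs _ ht)
  simpa using key

theorem RegC_comm {U : Set ℂ} (hU : IsOpen U) {f : ℂ → ℝ} (hf : ContDiffOn ℝ 2 f U) {z : ℂ}
    (hz : z ∈ U) : Dx (Dy f) z = Dy (Dx f) z :=
  Dx_Dy_comm (hf.contDiffAt (hU.mem_nhds hz))

/-- One step of the bootstrap. -/
theorem RegC_step {ε X : ℝ} {U : Set ℂ} (hU : IsOpen U) {w : ℂ → ℝ}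
    (hs : IsSol ε (fun _ => X) U w)
    (h1 : ∀ z ∈ U, ε ^ 2 * Real.exp (-(2 * w z)) * |Dx (Dx w) z - 2 * (Dx w z) ^ 2| ≤ cstar / 8)
    (h2 : ∀ z ∈ U, ε ^ 2 * Real.exp (-(2 * w z)) * |Dx (Dy w) z - 2 * (Dx w z * Dy w z)|
      ≤ cstar / 8)
    (h3 : ∀ z ∈ U, ε ^ 2 * Real.exp (-(2 * w z)) * |Dy (Dy w) z - 2 * (Dy w z) ^ 2|
      ≤ cstar / 8) (m : ℕ) (hw : CH (m + 3) U w) : CH (m + 4) U w := by
  have hw3 : CH 3 U w := RegC_mono (by omega) hw
  have hwx : CH (m + 2) U (Dx w) := RegC_Dx hU hw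
  have hwy : CH (m + 2) U (Dy w) := RegC_Dy hU hw
  have hxx : CH (m + 1) U (Dx (Dx w)) := RegC_Dx hU hwx
  have hxy : CH (m + 1) U (Dx (Dy w)) := RegC_Dx hU hwy
  have hyx : CH (m + 1) U (Dy (Dx w)) := RegC_Dy hU hwx
  have hyy : CH (m + 1) U (Dy (Dy w)) := RegC_Dy hU hwy
  have hw1 : CH (m + 1) U w := RegC_mono (by omega) hw
  have hwx1 : CH (m + 1) U (Dx w) := RegC_mono (by omega) hwx
  have hwy1 : CH (m + 1) U (Dy w) := RegC_mono (by omega) hwy
  have hc : ∀ c : ℝ, CH (m + 1) U (fun _ => c) := RegC_const (m + 1) U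
  have he1 : CH (m + 1) U (fun z => Real.exp (2 * w z)) := RegC_exp hU (RegC_mul hU (hc 2) hw1)
  have he2 : CH (m + 1) U (fun z => Real.exp (-(2 * w z))) :=
    RegC_exp hU (RegC_neg hU (RegC_mul hU (hc 2) hw1))
  have hd1 : CH (m + 1) U (fun z => Dx (Dx w) z - 2 * (Dx w z) ^ 2) :=
    RegC_sub hU hxx (RegC_mul hU (hc 2) (RegC_sq hU hwx1))
  have hd2 : CH (m + 1) U (fun z => Dx (Dy w) z - 2 * (Dx w z * Dy w z)) :=
    RegC_sub hU hxy (RegC_mul hU (hc 2) (RegC_mul hU hwx1 hwy1))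
  have hd3 : CH (m + 1) U (fun z => Dy (Dy w) z - 2 * (Dy w z) ^ 2) :=
    RegC_sub hU hyy (RegC_mul hU (hc 2) (RegC_sq hU hwy1))
  have hp : CH (m + 1) U (fun z => ε ^ 2 * Real.exp (-(2 * w z)) *
      (Dy (Dy w) z - 2 * (Dy w z) ^ 2)) :=
    RegC_mul hU (RegC_mul hU (hc _) he2) hd3
  have hq : CH (m + 1) U (fun z => -2 * (ε ^ 2 * Real.exp (-(2 * w z)) *
      (Dx (Dy w) z - 2 * (Dx w z * Dy w z)))) :=
    RegC_mul hU (hc (-2)) (RegC_mul hU (RegC_mul hU (hc _) he2) hd2)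
  have hr : CH (m + 1) U (fun z => ε ^ 2 * Real.exp (-(2 * w z)) *
      (Dx (Dx w) z - 2 * (Dx w z) ^ 2)) :=
    RegC_mul hU (RegC_mul hU (hc _) he2) hd1
  have hN : CH (m + 1) U (fun z => (Dx w z) ^ 2 + (Dy w z) ^ 2) :=
    RegC_add hU (RegC_sq hU hwx1) (RegC_sq hU hwy1)
  have hG : ∀ a' b' c' : ℂ → ℝ, CH (m + 1) U a' → CH (m + 1) U b' → CH (m + 1) U c' →
      CH (m + 1) U (fun z => RegC_G ε (w z) (Dx w z) (Dy w z) (Dx (Dx w) z) (Dx (Dy w) z)
        (Dy (Dy w) z) (a' z) (b' z) (c' z)) := by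
    intro a' b' c' ha hb hcc
    have hN' : CH (m + 1) U (fun z => 2 * Dx w z * b' z + 2 * Dy w z * c' z) :=
      RegC_add hU (RegC_mul hU (RegC_mul hU (hc 2) hwx1) hb)
        (RegC_mul hU (RegC_mul hU (hc 2) hwy1) hcc)
    unfold RegC_G
    refine RegC_add hU (RegC_mul hU (RegC_mul hU (hc 2) ha) he1) (RegC_mul hU (hc _) ?_)
    refine RegC_add hU (RegC_sub hU (RegC_mul hU (hc _) (RegC_mul hU he2
      (RegC_sub hU (RegC_mul hU (RegC_mul hU (hc 2) hN) hN')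
        (RegC_mul hU (RegC_mul hU (hc 2) ha) (RegC_sq hU hN)))))
      (RegC_mul hU (hc 2) hN')) (RegC_mul hU he2 ?_)
    refine RegC_sub hU (RegC_add hU (RegC_add hU (RegC_mul hU (RegC_mul hU (hc 2) ha)
      (RegC_sub hU (RegC_mul hU hd1 hd3) (RegC_sq hU hd2)))
      (RegC_mul hU (RegC_mul hU (RegC_mul hU (hc 4) hwx1) hb) hd3))
      (RegC_mul hU (RegC_mul hU (RegC_mul hU (hc 4) hwy1) hcc) hd1)) ?_
    exact RegC_mul hU (RegC_mul hU (hc 4) hd2)
      (RegC_add hU (RegC_mul hU hb hwy1) (RegC_mul hU hwx1 hcc))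
  have bd : ∀ {x y : ℝ}, ε ^ 2 * Real.exp y * |x| ≤ cstar / 8 →
      |ε ^ 2 * Real.exp y * x| ≤ cstar / 8 := by
    intro x y h
    have h0 : 0 ≤ ε ^ 2 * Real.exp y := by positivity
    rwa [abs_mul, abs_of_nonneg h0]
  have hps : ∀ z ∈ U, |ε ^ 2 * Real.exp (-(2 * w z)) * (Dy (Dy w) z - 2 * (Dy w z) ^ 2)|
      ≤ cstar := by
    intro z hz
    have h := bd (h3 z hz)
    have h' := (abs_nonneg _).trans h
    linarith
  have hrs : ∀ z ∈ U, |ε ^ 2 * Real.exp (-(2 * w z)) * (Dx (Dx w) z - 2 * (Dx w z) ^ 2)|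
      ≤ cstar := by
    intro z hz
    have h := bd (h1 z hz)
    have h' := (abs_nonneg _).trans h
    linarith
  have hqs : ∀ z ∈ U, |-2 * (ε ^ 2 * Real.exp (-(2 * w z)) *
      (Dx (Dy w) z - 2 * (Dx w z * Dy w z)))| ≤ cstar := by
    intro z hz
    have h := bd (h2 z hz)
    have h' := (abs_nonneg _).trans h
    rw [abs_mul, abs_neg, abs_two]
    linarith
  have cw : ContDiffOn ℝ 2 w U := hw3.1.of_le (by norm_num)
  have cwx : ContDiffOn ℝ 2 (Dx w) U := hwx.1.of_le (by exact_mod_cast (by omega : 2 ≤ m + 2))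
  have cwy : ContDiffOn ℝ 2 (Dy w) U := hwy.1.of_le (by exact_mod_cast (by omega : 2 ≤ m + 2))
  -- symmetry of third derivatives
  have s1 : ∀ z ∈ U, Dy (Dy (Dx w)) z = Dx (Dy (Dy w)) z := by
    intro z hz
    rw [RegC_comm hU cwy hz]
    apply Dy_congr
    filter_upwards [hU.mem_nhds hz] with y hy
    exact (RegC_comm hU cw hy).symm
  have s2 : ∀ z ∈ U, Dx (Dy (Dx w)) z = Dx (Dx (Dy w)) z := by
    intro z hz
    apply Dx_congr
    filter_upwards [hU.mem_nhds hz] with y hy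
    exact (RegC_comm hU cw hy).symm
  have s3 : ∀ z ∈ U, Dx (Dx (Dy w)) z = Dy (Dx (Dx w)) z := by
    intro z hz
    rw [← s2 z hz, RegC_comm hU cwx hz]
  have s4 : ∀ z ∈ U, Dx (Dy (Dy w)) z = Dy (Dx (Dy w)) z := by
    intro z hz
    exact RegC_comm hU cwy hz
  have ex : CH (m + 3) U (Dx w) := by
    refine linear_reg m hU hwx hp hq hr (hG (Dx w) (Dx (Dx w)) (Dx (Dy w)) hwx1 hxx hxy)
      hps hqs hrs ?_
    intro z hz
    have h := RegC_deq hU hw3 hs hz 1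
    have e1 : Lap (Dx w) z = Dx (Dx (Dx w)) z + Dy (Dy (Dx w)) z := rfl
    rw [e1, s1 z hz, s2 z hz]
    exact h
  have ey : CH (m + 3) U (Dy w) := by
    refine linear_reg m hU hwy hp hq hr (hG (Dy w) (Dy (Dx w)) (Dy (Dy w)) hwy1 hyx hyy)
      hps hqs hrs ?_
    intro z hz
    have h := RegC_deq hU hw3 hs hz Complex.I
    have e1 : Lap (Dy w) z = Dx (Dx (Dy w)) z + Dy (Dy (Dy w)) z := rfl
    rw [e1, s3 z hz, s4 z hz]
    exact h
  exact RegC_succ hU (RegC_diff (k := m + 2) hw) (RegC_LH_self hw) ex ey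

/-- **Smoothness.** Proof: `nonlinear_first` gives `w ∈ C^{3,1/2}`; then `Dx w`, `Dy w` satisfy a
linear equation with `p = ε² e^{-2w} (w_yy - 2 w_y²)`, `q = -2 ε² e^{-2w} (w_xy - 2 w_x w_y)`,
`r = ε² e^{-2w} (w_xx - 2 w_x²)` and right side involving `w`, `Dw`, `D²w` polynomially (and
`e^{±2w}`), so `linear_reg` raises the regularity by one at each step. -/
theorem nonlinear_smooth {ε X : ℝ} {U : Set ℂ} (hU : IsOpen U) {w : ℂ → ℝ} (hw : CH 2 U w)
    (hs : IsSol ε (fun _ => X) U w)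
    (h1 : ∀ z ∈ U, ε ^ 2 * Real.exp (-(2 * w z)) * |Dx (Dx w) z - 2 * (Dx w z) ^ 2| ≤ cstar / 8)
    (h2 : ∀ z ∈ U, ε ^ 2 * Real.exp (-(2 * w z)) * |Dx (Dy w) z - 2 * (Dx w z * Dy w z)|
      ≤ cstar / 8)
    (h3 : ∀ z ∈ U, ε ^ 2 * Real.exp (-(2 * w z)) * |Dy (Dy w) z - 2 * (Dy w z) ^ 2|
      ≤ cstar / 8) :
    ContDiffOn ℝ ∞ w U := by
  have h3' := nonlinear_first hU hw hs h1 h2 h3
  have hall : ∀ m : ℕ, CH (m + 3) U w := by
    intro m
    induction m with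
    | zero => exact h3'
    | succ m ih =>
      have := RegC_step hU hs h1 h2 h3 m ih
      have e : m + 1 + 3 = m + 4 := by omega
      rw [e]
      exact this
  rw [contDiffOn_infty]
  intro n
  exact (RegC_mono (by omega : n ≤ n + 3) (hall n)).1

end Pool.Agent.KK
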