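import Pool.Agent.W_bb4b37_h53.UniqLE

/-!
# The third fundamental form in the conformal coordinate `ζ = F z`; independence of `a`
-/
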