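import Pool.Agent.W_bb4b37_h53.Geo2C
import Pool.Agent.W_bb4b37_h53.RealDefs

/-!
# The third fundamental form in the conformal coordinate `ζ = F z`; independence of `a` (part A)
-/

set_option autoImplicit false

open Filter Topology Set MeasureTheory Metric
open scoped ContDiff

namespace Pool.Agent.KK

open Pool.Agent.KKS (mink Hyp klein sphere2 sph form gaussK Metric2)

variable {C H ε a : ℝ} {F : ℂ ≃ₜ ℂ} {w : ℂ → ℝ}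

/-- A realization satisfies the standing assumptions of the geometric part. -/
theorem Realization.geo (hr : Realization C H ε a F w) (hC : 1 ≤ C) (hε : 0 < ε)
    (hs : ε * C ^ 2 ≤ 1 / 100000) : Geo C ε (F ⁻¹' Lam) w where
  closed := isClosed_Lam.preimage F.continuous
  nonempty := ⟨F.symm 0, by simpa using zero_mem_Lam⟩
  dense := by
    have h1 : Dense (Complex.re ⁻¹' K1ᶜ) := dense_compl_K1.preimage Complex.isOpenMap_re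
    have h2 : Dense Lamᶜ := by
      refine h1.mono ?_
      intro z hz hL
      exact hz hL.1
    exact h2.preimage F.isOpenMap
  smooth := hr.smoothw
  sol := hr.sol
  scaled := hr.scaled
  lower := hr.lower
  upper := hr.upper
  hC := hC
  hε := hε
  small := hs

/-- The conformal factor in the `z`-plane:
`Uc = w + (1/2) log λ - log |∂F|`, `λ = (1 + √(1 - |∇R|²))² / 4`. -/
noncomputable def Uc (ε : ℝ) (F : ℂ → ℂ) (w : ℂ → ℝ) (z : ℂ) : ℝ :=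
  w z + Real.log ((1 + Real.sqrt (1 - gR ε w z)) / 2) - Real.log ‖Dz F z‖

/-- The algebra of the Beltrami coefficient. -/
theorem nu_alg {s q1 q2 : ℝ} (hs : 0 ≤ s) (h : s ^ 2 = 1 - (q1 ^ 2 + q2 ^ 2)) :
    ((1 + s) / 2) ^ 2 * ((1 + -(q1 ^ 2 - q2 ^ 2) / (1 + s) ^ 2) ^ 2
      + (-(2 * q1 * q2) / (1 + s) ^ 2) ^ 2) = 1 - q1 ^ 2 ∧
    ((1 + s) / 2) ^ 2 * ((1 - -(q1 ^ 2 - q2 ^ 2) / (1 + s) ^ 2) ^ 2
      + (-(2 * q1 * q2) / (1 + s) ^ 2) ^ 2) = 1 - q2 ^ 2 ∧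
    ((1 + s) / 2) ^ 2 * (2 * (-(2 * q1 * q2) / (1 + s) ^ 2)) = -(q1 * q2) := by
  have hp : 0 < 1 + s := by linarith
  have h2 : q2 ^ 2 = 1 - s ^ 2 - q1 ^ 2 := by linarith
  refine ⟨?_, ?_, ?_⟩
  · field_simp
    have : ((1 + s) ^ 2 + -(q1 ^ 2 - q2 ^ 2)) ^ 2 + (2 ^ 2 * q1 ^ 2) * q2 ^ 2 =
      2 ^ 2 * (1 + s) ^ 2 * (1 - q1 ^ 2) := by
      rw [h2]; ring
    linarith
  · field_simp
    have : ((1 + s) ^ 2 + (q1 ^ 2 - q2 ^ 2)) ^ 2 + (2 ^ 2 * q1 ^ 2) * q2 ^ 2 =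
      2 ^ 2 * (1 + s) ^ 2 * (1 - q2 ^ 2) := by
      rw [h2]; ring
    linarith
  · field_simp

/-- The real numbers behind `nu`. -/
theorem nu_eq (ε : ℝ) (w : ℂ → ℝ) (z : ℂ) {R s q1 q2 : ℝ} (hR : R = Rr ε w z)
    (hs : s = Real.sqrt (1 - gR ε w z)) (h1 : q1 = R * Dx w z) (h2 : q2 = R * Dy w z) :
    nu ε w z = ((-(q1 ^ 2 - q2 ^ 2) / (1 + s) ^ 2 : ℝ) : ℂ) +
      Complex.I * ((-(2 * q1 * q2) / (1 + s) ^ 2 : ℝ) : ℂ) := by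
  have hs' : Real.sqrt (1 - (ε * Real.exp (-(w z))) ^ 2 * ((Dx w z) ^ 2 + (Dy w z) ^ 2)) = s := by
    rw [hs]; rfl
  unfold nu
  rw [hs']
  have hR' : ε * Real.exp (-(w z)) = R := by rw [hR]; rfl
  rw [hR', h1, h2]
  push_cast
  have hI : Complex.I ^ 2 = -1 := Complex.I_sq
  have h3 : ((R : ℂ) ^ 2) * (((Dx w z : ℝ) : ℂ) + Complex.I * ((Dy w z : ℝ) : ℂ)) ^ 2 =
    ((R : ℂ) * ((Dx w z : ℝ) : ℂ)) ^ 2 - ((R : ℂ) * ((Dy w z : ℝ) : ℂ)) ^ 2 +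
      Complex.I * (2 * ((R : ℂ) * ((Dx w z : ℝ) : ℂ)) * ((R : ℂ) * ((Dy w z : ℝ) : ℂ))) := by
    linear_combination ((R : ℂ) * ((Dy w z : ℝ) : ℂ)) ^ 2 * hI
  rw [neg_mul, h3]
  ring

/-- The exponential of the conformal factor. -/
theorem exp_Uc {ε : ℝ} {F : ℂ → ℂ} {w : ℂ → ℝ} {z : ℂ} (hF : Dz F z ≠ 0) :
    Real.exp (2 * Uc ε F w z) =
      Real.exp (w z) ^ 2 * ((1 + Real.sqrt (1 - gR ε w z)) / 2) ^ 2 / ‖Dz F z‖ ^ 2 := by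
  have hP : 0 < ‖Dz F z‖ := norm_pos_iff.mpr hF
  have hA : 0 < (1 + Real.sqrt (1 - gR ε w z)) / 2 := by
    have := Real.sqrt_nonneg (1 - gR ε w z)
    linarith
  have h2 : Real.exp (2 * Uc ε F w z) = Real.exp (Uc ε F w z) ^ 2 := by
    rw [← Real.exp_nat_mul]; norm_num
  rw [h2]
  unfold Uc
  rw [Real.exp_sub, Real.exp_add, Real.exp_log hA, Real.exp_log hP]
  ring

/-- The third fundamental form is `ε^{-2} e^{2 Uc} |dF|²`. Proof: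
`|dc|² - dR² = λ |dc + ν dc̄|²` with `ν = nu ε w` (`λ ν̄ = - R_c²`, `λ (1 + |ν|²) = 1 - 2 |R_c|²`) and
`dF = ∂F (dc + ν dc̄)`. -/
theorem form_Ns_conformal (hr : Realization C H ε a F w) (hg : Geo C ε (F ⁻¹' Lam) w) {z : ℂ}
    (hz : z ∈ (F ⁻¹' Lam)ᶜ) :
    (form (Ns ε w)).E z = Real.exp (2 * Uc ε F w z) / ε ^ 2 * ‖Dx F z‖ ^ 2 ∧
    (form (Ns ε w)).F z = Real.exp (2 * Uc ε F w z) / ε ^ 2 *
      ((Dx F z).re * (Dy F z).re + (Dx F z).im * (Dy F z).im) ∧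
    (form (Ns ε w)).G z = Real.exp (2 * Uc ε F w z) / ε ^ 2 * ‖Dy F z‖ ^ 2 := by
  obtain ⟨hE, hF, hG⟩ := hg.form_Ns hz
  have hne := hr.ne z hz
  have hb := hr.belt z hz
  have hε := hg.hε
  have hP : 0 < ‖Dz F z‖ := norm_pos_iff.mpr hne
  have hR := hg.Rr_pos z
  have hgl := hg.gR_le hz
  obtain ⟨s, hs⟩ : ∃ s, s = Real.sqrt (1 - gR ε w z) := ⟨_, rfl⟩
  obtain ⟨R, hRd⟩ : ∃ R, R = Rr ε w z := ⟨_, rfl⟩
  obtain ⟨q1, h1⟩ : ∃ q1, q1 = R * Dx w z := ⟨_, rfl⟩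
  obtain ⟨q2, h2⟩ : ∃ q2, q2 = R * Dy w z := ⟨_, rfl⟩
  have hs0 : 0 ≤ s := by rw [hs]; exact Real.sqrt_nonneg _
  have hs2 : s ^ 2 = 1 - (q1 ^ 2 + q2 ^ 2) := by
    rw [hs, Real.sq_sqrt (by linarith), h1, h2, hRd]
    unfold gR
    ring
  obtain ⟨a1, a2, a3⟩ := nu_alg hs0 hs2
  have hnu := nu_eq ε w z hRd hs h1 h2
  rw [← hRd] at hR hE hG
  have hexp : Real.exp (2 * Uc ε F w z) / ε ^ 2 = ((1 + s) / 2) ^ 2 / (R ^ 2 * ‖Dz F z‖ ^ 2) := by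
    rw [exp_Uc hne, ← hs]
    have hRe : Real.exp (w z) * R = ε := by
      rw [hRd]; unfold Rr
      rw [Real.exp_neg]
      field_simp
    rw [← hRe]
    have := Real.exp_pos (w z)
    field_simp
  rw [hexp]
  obtain ⟨n1, hn1⟩ : ∃ n1, n1 = -(q1 ^ 2 - q2 ^ 2) / (1 + s) ^ 2 := ⟨_, rfl⟩
  obtain ⟨n2, hn2⟩ : ∃ n2, n2 = -(2 * q1 * q2) / (1 + s) ^ 2 := ⟨_, rfl⟩
  rw [← hn1, ← hn2] at a1 a2 hnu
  rw [← hn2] at a3
  obtain ⟨d1, hd1⟩ : ∃ d1, d1 = (Dz F z).re := ⟨_, rfl⟩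
  obtain ⟨d2, hd2⟩ : ∃ d2, d2 = (Dz F z).im := ⟨_, rfl⟩
  have hPd : ‖Dz F z‖ ^ 2 = d1 ^ 2 + d2 ^ 2 := by
    rw [← Complex.normSq_eq_norm_sq, Complex.normSq_apply, ← hd1, ← hd2]; ring
  have hn1' : (nu ε w z).re = n1 := by rw [hnu]; simp
  have hn2' : (nu ε w z).im = n2 := by rw [hnu]; simp
  have hxr : (Dx F z).re = d1 + (n1 * d1 - n2 * d2) := by
    rw [Dx_eq_Dz, hb, Complex.add_re, Complex.mul_re, hn1', hn2', ← hd1, ← hd2]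
  have hxi : (Dx F z).im = d2 + (n1 * d2 + n2 * d1) := by
    rw [Dx_eq_Dz, hb, Complex.add_im, Complex.mul_im, hn1', hn2', ← hd1, ← hd2]
  have hyr : (Dy F z).re = -(d2 - (n1 * d2 + n2 * d1)) := by
    rw [Dy_eq_Dz, hb, Complex.mul_re, Complex.sub_re, Complex.sub_im, Complex.mul_re,
      Complex.mul_im, hn1', hn2', ← hd1, ← hd2, Complex.I_re, Complex.I_im]
    ring
  have hyi : (Dy F z).im = d1 - (n1 * d1 - n2 * d2) := by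
    rw [Dy_eq_Dz, hb, Complex.mul_im, Complex.sub_re, Complex.sub_im, Complex.mul_re,
      Complex.mul_im, hn1', hn2', ← hd1, ← hd2, Complex.I_re, Complex.I_im]
    ring
  have hx2 : ‖Dx F z‖ ^ 2 = ((1 + n1) ^ 2 + n2 ^ 2) * ‖Dz F z‖ ^ 2 := by
    rw [← Complex.normSq_eq_norm_sq, Complex.normSq_apply, hxr, hxi, hPd]; ring
  have hy2 : ‖Dy F z‖ ^ 2 = ((1 - n1) ^ 2 + n2 ^ 2) * ‖Dz F z‖ ^ 2 := by
    rw [← Complex.normSq_eq_norm_sq, Complex.normSq_apply, hyr, hyi, hPd]; ring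
  have hxy : (Dx F z).re * (Dy F z).re + (Dx F z).im * (Dy F z).im =
      2 * n2 * ‖Dz F z‖ ^ 2 := by
    rw [hxr, hxi, hyr, hyi, hPd]; ring
  rw [hx2, hy2, hxy, hE, hF, hG]
  have hwx : Dx w z = q1 / R := by rw [h1]; field_simp
  have hwy : Dy w z = q2 / R := by rw [h2]; field_simp
  rw [hwx, hwy]
  refine ⟨?_, ?_, ?_⟩
  · have : ((1 + s) / 2) ^ 2 / (R ^ 2 * ‖Dz F z‖ ^ 2) * (((1 + n1) ^ 2 + n2 ^ 2) * ‖Dz F z‖ ^ 2) =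
      (((1 + s) / 2) ^ 2 * ((1 + n1) ^ 2 + n2 ^ 2)) / R ^ 2 := by
      field_simp
    rw [this, a1]
    field_simp
  · have : ((1 + s) / 2) ^ 2 / (R ^ 2 * ‖Dz F z‖ ^ 2) * (2 * n2 * ‖Dz F z‖ ^ 2) =
      (((1 + s) / 2) ^ 2 * (2 * n2)) / R ^ 2 := by
      field_simp
    rw [this, a3]
    field_simp
  · have : ((1 + s) / 2) ^ 2 / (R ^ 2 * ‖Dz F z‖ ^ 2) * (((1 - n1) ^ 2 + n2 ^ 2) * ‖Dz F z‖ ^ 2) =
      (((1 + s) / 2) ^ 2 * ((1 - n1) ^ 2 + n2 ^ 2)) / R ^ 2 := by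
      field_simp
    rw [this, a2]
    field_simp

/-- The Jacobian of `F` is positive. -/
theorem det_F_pos (hr : Realization C H ε a F w) (hg : Geo C ε (F ⁻¹' Lam) w) {z : ℂ}
    (hz : z ∈ (F ⁻¹' Lam)ᶜ) : ‖nu ε w z‖ ≤ 1 / 2 ∧ 0 < (fderiv ℝ F z).det := by
  have hx : |Dx w z| ≤ C * Real.exp (w z) := hg.scaled.d1 z hz [true] rfl
  have hy : |Dy w z| ≤ C * Real.exp (w z) := hg.scaled.d1 z hz [false] rfl
  have h1 := nu_le hg.hε.le hx hy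
  have h2 : 2 * C ^ 2 * ε ^ 2 ≤ 1 / 2 := by
    have a1 := hg.small
    have a2 := hg.hC
    have a3 := hg.hε
    have a4 : ε ≤ ε * C ^ 2 := le_mul_of_one_le_right a3.le (one_le_pow₀ a2)
    nlinarith
  have h3 : ‖nu ε w z‖ ≤ 1 / 2 := le_trans h1 h2
  refine ⟨h3, ?_⟩
  rw [det_fderiv, hr.belt z hz, norm_mul]
  have hP : 0 < ‖Dz F z‖ := norm_pos_iff.mpr (hr.ne z hz)
  have h4 : ‖Dz F z‖ ^ 2 - (‖nu ε w z‖ * ‖Dz F z‖) ^ 2 =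
    ‖Dz F z‖ ^ 2 * (1 - ‖nu ε w z‖ ^ 2) := by ring
  rw [h4]
  have h5 : ‖nu ε w z‖ ^ 2 ≤ 1 / 4 := by
    have := norm_nonneg (nu ε w z)
    nlinarith
  apply mul_pos (by positivity)
  linarith

/-- The inverse of `F` is smooth on `Lamᶜ` with nonvanishing Jacobian. -/
theorem symm_smooth (hr : Realization C H ε a F w) (hg : Geo C ε (F ⁻¹' Lam) w) :
    ContDiffOn ℝ ∞ F.symm Lamᶜ ∧ ∀ ζ ∈ Lamᶜ, (fderiv ℝ F.symm ζ).det ≠ 0 := by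
  have hmem : ∀ ζ ∈ Lamᶜ, F.symm ζ ∈ (F ⁻¹' Lam)ᶜ := by
    intro ζ hζ h
    apply hζ
    simpa using h
  have hat : ∀ ζ ∈ Lamᶜ, ContDiffAt ℝ ∞ F (F.symm ζ) := fun ζ hζ =>
    hr.smoothF.contDiffAt (hg.closed.isOpen_compl.mem_nhds (hmem ζ hζ))
  have hsm : ∀ ζ ∈ Lamᶜ, ContDiffAt ℝ ∞ F.symm ζ := by
    intro ζ hζ
    have hd := (det_F_pos hr hg (hmem ζ hζ)).2.ne'
    have hfd : HasFDerivAt F
        (((fderiv ℝ F (F.symm ζ)).toContinuousLinearEquivOfDetNeZero hd : ℂ ≃L[ℝ] ℂ) : ℂ →L[ℝ] ℂ)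
        (F.symm ζ) := by
      have h1 := ((hat ζ hζ).differentiableAt (by simp)).hasFDerivAt
      exact h1
    exact F.toOpenPartialHomeomorph.contDiffAt_symm (a := ζ) (by simp) hfd (hat ζ hζ)
  refine ⟨fun ζ hζ => (hsm ζ hζ).contDiffWithinAt, ?_⟩
  intro ζ hζ h0
  have h1 : HasFDerivAt F (fderiv ℝ F (F.symm ζ)) (F.symm ζ) :=
    ((hat ζ hζ).differentiableAt (by simp)).hasFDerivAt
  have h2 : HasFDerivAt F.symm (fderiv ℝ F.symm ζ) ζ :=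
    ((hsm ζ hζ).differentiableAt (by simp)).hasFDerivAt
  have h3 := h1.comp ζ h2
  have h4 : (F ∘ F.symm) = id := by
    funext y; simp
  rw [h4] at h3
  have h5 := h3.unique (hasFDerivAt_id ζ)
  have h6 := congrArg ContinuousLinearMap.det h5
  have h7 : ((fderiv ℝ F (F.symm ζ)).comp (fderiv ℝ F.symm ζ)).det =
      (fderiv ℝ F (F.symm ζ)).det * (fderiv ℝ F.symm ζ).det :=
    LinearMap.det_comp (fderiv ℝ F (F.symm ζ)).toLinearMap (fderiv ℝ F.symm ζ).toLinearMap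
  rw [h7, h0, mul_zero] at h6
  simp [ContinuousLinearMap.det] at h6

end Pool.Agent.KK
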