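import Pool.Agent.W_bb4b37_h53.Geo2
import Pool.Agent.W_bb4b37_h53.UniqLA

/-!
# The third fundamental form in the conformal coordinate `ζ = F z`; independence of `a` (part B)
-/

set_option autoImplicit false

open Filter Topology Set MeasureTheory Metric
open scoped ContDiff

namespace Pool.Agent.KK

open Pool.Agent.KKS (mink Hyp klein sphere2 sph form gaussK Metric2)

variable {C H ε a : ℝ} {F : ℂ ≃ₜ ℂ} {w : ℂ → ℝ}

/-- First and second derivatives of `e^{2u} / ε²`. -/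
theorem D_expL {u : ℂ → ℝ} {ε : ℝ} {z : ℂ} (hu : ContDiffAt ℝ ∞ u z) :
    let L : ℂ → ℝ := fun y => Real.exp (2 * u y) / ε ^ 2
    Dx L z = 2 * L z * Dx u z ∧ Dy L z = 2 * L z * Dy u z ∧
    Dx (Dx L) z = 4 * L z * Dx u z ^ 2 + 2 * L z * Dx (Dx u) z ∧
    Dy (Dy L) z = 4 * L z * Dy u z ^ 2 + 2 * L z * Dy (Dy u) z := by
  intro L
  obtain ⟨U, hUo, hzU, hcU⟩ : ∃ U : Set ℂ, IsOpen U ∧ z ∈ U ∧ ContDiffOn ℝ 2 u U := by
    have h2 : ContDiffAt ℝ 2 u z := hu.of_le (by exact WithTop.coe_le_coe.2 le_top)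
    obtain ⟨U, hU, hcU⟩ := h2.contDiffOn (le_refl _) (by simp)
    obtain ⟨V, hVU, hVo, hzV⟩ := _root_.mem_nhds_iff.mp hU
    exact ⟨V, hVo, hzV, hcU.mono hVU⟩
  have hUn : ∀ y ∈ U, U ∈ 𝓝 y := fun y hy => hUo.mem_nhds hy
  have hd : ∀ y ∈ U, DifferentiableAt ℝ u y := fun y hy =>
    (hcU.contDiffAt (hUn y hy)).differentiableAt (by simp)
  have hL : L = fun y => (1 / ε ^ 2) • Real.exp (2 * u y) := by
    funext y; simp only [L, smul_eq_mul]; ring
  have hde : ∀ y ∈ U, DifferentiableAt ℝ (fun y => Real.exp (2 * u y)) y := by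
    intro y hy
    have := hd y hy
    fun_prop
  have hx : ∀ y ∈ U, Dx L y = 2 * L y * Dx u y := by
    intro y hy
    rw [hL, Dx_const_smul _ (hde y hy), Dx_exp (hd y hy) 2]
    simp only [smul_eq_mul]; ring
  have hy' : ∀ y ∈ U, Dy L y = 2 * L y * Dy u y := by
    intro y hy
    rw [hL, Dy_const_smul _ (hde y hy), Dy_exp (hd y hy) 2]
    simp only [smul_eq_mul]; ring
  have hxs : ContDiffOn ℝ 1 (Dx u) U := contDiffOn_Dx hUo hcU (by norm_num)
  have hys : ContDiffOn ℝ 1 (Dy u) U := contDiffOn_Dy hUo hcU (by norm_num)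
  have hdx : DifferentiableAt ℝ (Dx u) z :=
    (hxs.contDiffAt (hUn z hzU)).differentiableAt (by simp)
  have hdy : DifferentiableAt ℝ (Dy u) z :=
    (hys.contDiffAt (hUn z hzU)).differentiableAt (by simp)
  have hdL : DifferentiableAt ℝ L z := by
    rw [hL]; exact (hde z hzU).fun_const_smul _
  have hd2L : DifferentiableAt ℝ (fun y => (2 : ℝ) • L y) z :=
    hdL.fun_const_smul _
  have ex : Dx L =ᶠ[𝓝 z] fun y => ((2 : ℝ) • L y) * Dx u y := by
    filter_upwards [hUn z hzU] with y hy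
    rw [hx y hy]; simp only [smul_eq_mul]
  have ey : Dy L =ᶠ[𝓝 z] fun y => ((2 : ℝ) • L y) * Dy u y := by
    filter_upwards [hUn z hzU] with y hy
    rw [hy' y hy]; simp only [smul_eq_mul]
  refine ⟨hx z hzU, hy' z hzU, ?_, ?_⟩
  · rw [Dx_congr ex, Dx_mul hd2L hdx, Dx_const_smul _ hdL, hx z hzU]
    simp only [smul_eq_mul]; ring
  · rw [Dy_congr ey, Dy_mul hd2L hdy, Dy_const_smul _ hdL, hy' z hzU]
    simp only [smul_eq_mul]; ring

/-- Curvature of a conformal metric `e^{2u} / ε²`. -/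
theorem gaussK_conformal {g : Metric2} {u : ℂ → ℝ} {ε : ℝ} (hε : 0 < ε) {z : ℂ}
    (hu : ContDiffAt ℝ ∞ u z) (hE : g.E =ᶠ[𝓝 z] fun y => Real.exp (2 * u y) / ε ^ 2)
    (hF : g.F =ᶠ[𝓝 z] fun _ => 0) (hG : g.G =ᶠ[𝓝 z] fun y => Real.exp (2 * u y) / ε ^ 2) :
    gaussK g z = - ε ^ 2 * Lap u z * Real.exp (-(2 * u z)) := by
  obtain ⟨l1, l2, l3, l4⟩ := D_expL (ε := ε) hu
  have hdx : ∀ f : ℂ → ℝ, KKS.dx f = Dx f := fun _ => rfl
  have hdy : ∀ f : ℂ → ℝ, KKS.dy f = Dy f := fun _ => rfl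
  have eE : Dy g.E =ᶠ[𝓝 z] Dy (fun y => Real.exp (2 * u y) / ε ^ 2) := by
    filter_upwards [hE.eventually_nhds] with y hy using Dy_congr hy
  have eG : Dx g.G =ᶠ[𝓝 z] Dx (fun y => Real.exp (2 * u y) / ε ^ 2) := by
    filter_upwards [hG.eventually_nhds] with y hy using Dx_congr hy
  have eF : Dy g.F =ᶠ[𝓝 z] fun _ => 0 := by
    filter_upwards [hF.eventually_nhds] with y hy
    rw [Dy_congr hy, Dy_const]
  unfold gaussK
  simp only [hdx, hdy]
  rw [Dy_congr eE, Dx_congr eG, Dx_congr eF, Dx_const, Dx_congr hE, Dy_congr hE, Dx_congr hG,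
    Dy_congr hG, Dx_congr hF, Dy_congr hF, Dx_const, Dy_const, hE.self_of_nhds, hF.self_of_nhds,
    hG.self_of_nhds, l1, l2, l3, l4]
  have hLap : Lap u z = Dx (Dx u) z + Dy (Dy u) z := rfl
  have hexp : Real.exp (-(2 * u z)) = 1 / Real.exp (2 * u z) := by
    rw [Real.exp_neg]; ring
  rw [hLap, hexp]
  have he : 0 < Real.exp (2 * u z) := Real.exp_pos _
  rw [Matrix.det_fin_three, Matrix.det_fin_three]
  simp only [Matrix.of_apply, Matrix.cons_val', Matrix.cons_val_zero, Matrix.cons_val_one,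
    Matrix.cons_val, Matrix.cons_val_fin_one]
  field_simp
  ring

theorem contDiffOn_Dz {f : ℂ → ℂ} {U : Set ℂ} (hU : IsOpen U) (hf : ContDiffOn ℝ ∞ f U) :
    ContDiffOn ℝ ∞ (Dz f) U ∧ ContDiffOn ℝ ∞ (Dzb f) U := by
  have hx : ContDiffOn ℝ ∞ (Dx f) U := contDiffOn_Dx hU hf (by simp)
  have hy : ContDiffOn ℝ ∞ (Dy f) U := contDiffOn_Dy hU hf (by simp)
  constructor
  · exact (hx.sub (contDiffOn_const.mul hy)).div_const 2
  · exact (hx.add (contDiffOn_const.mul hy)).div_const 2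

/-- Smoothness of the conformal factor. -/
theorem contDiffOn_Uc (hr : Realization C H ε a F w) (hg : Geo C ε (F ⁻¹' Lam) w) :
    ContDiffOn ℝ ∞ (Uc ε F w) (F ⁻¹' Lam)ᶜ := by
  obtain ⟨-, h2, -, -, -, -⟩ := hg.smooth_all
  have hz := (contDiffOn_Dz hg.closed.isOpen_compl hr.smoothF).1
  have hs : ContDiffOn ℝ ∞ (fun z => (1 + Real.sqrt (1 - gR ε w z)) / 2) (F ⁻¹' Lam)ᶜ := by
    refine (contDiffOn_const.add ((contDiffOn_const.sub h2).sqrt ?_)).div_const 2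
    intro z hz
    have h3 := hg.gR_le hz
    have h4 : (0 : ℝ) < 1 - gR ε w z := by linarith
    exact h4.ne'
  have hs0 : ∀ z ∈ (F ⁻¹' Lam)ᶜ, (1 + Real.sqrt (1 - gR ε w z)) / 2 ≠ 0 := by
    intro z _
    have := Real.sqrt_nonneg (1 - gR ε w z)
    positivity
  have hn : ContDiffOn ℝ ∞ (fun z => ‖Dz F z‖) (F ⁻¹' Lam)ᶜ := hz.norm ℝ hr.ne
  have hn0 : ∀ z ∈ (F ⁻¹' Lam)ᶜ, ‖Dz F z‖ ≠ 0 := fun z hz => norm_ne_zero_iff.mpr (hr.ne z hz)
  unfold Uc
  exact (hr.smoothw.add (hs.log hs0)).sub (hn.log hn0)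

/-- The form of `Ns ∘ F⁻¹` is conformal. -/
theorem form_symm (hr : Realization C H ε a F w) (hg : Geo C ε (F ⁻¹' Lam) w) {ζ : ℂ}
    (hζ : ζ ∈ Lamᶜ) :
    (form (fun y => Ns ε w (F.symm y))).E ζ = Real.exp (2 * Uc ε F w (F.symm ζ)) / ε ^ 2 ∧
    (form (fun y => Ns ε w (F.symm y))).F ζ = 0 ∧
    (form (fun y => Ns ε w (F.symm y))).G ζ = Real.exp (2 * Uc ε F w (F.symm ζ)) / ε ^ 2 := by
  have hmem : F.symm ζ ∈ (F ⁻¹' Lam)ᶜ := by
    intro h
    apply hζ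
    simpa using h
  obtain ⟨hsm, -⟩ := symm_smooth hr hg
  have hgd : DifferentiableAt ℝ F.symm ζ :=
    (hsm.contDiffAt (isClosed_Lam.isOpen_compl.mem_nhds hζ)).differentiableAt (by simp)
  have hFd : DifferentiableAt ℝ F (F.symm ζ) :=
    (hr.smoothF.contDiffAt (hg.closed.isOpen_compl.mem_nhds hmem)).differentiableAt (by simp)
  obtain ⟨e1, e2, e3⟩ := form_comp hgd (hg.diff_X hmem).2
  obtain ⟨f1, f2, f3⟩ := form_Ns_conformal hr hg hmem
  have hid : (fun y => F (F.symm y)) = fun y => y := by funext y; simp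
  have hx := Dx_comp_vec hgd hFd
  have hy := Dy_comp_vec hgd hFd
  rw [hid] at hx hy
  have h1 : Dx (fun y : ℂ => y) ζ = 1 := by simp [Dx]
  have h2 : Dy (fun y : ℂ => y) ζ = Complex.I := by simp [Dy]
  rw [h1] at hx
  rw [h2] at hy
  have x1 := congrArg Complex.re hx
  have x2 := congrArg Complex.im hx
  have y1 := congrArg Complex.re hy
  have y2 := congrArg Complex.im hy
  simp only [Complex.one_re, Complex.one_im, Complex.I_re, Complex.I_im, Complex.add_re,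
    Complex.add_im, Complex.smul_re, Complex.smul_im, smul_eq_mul] at x1 x2 y1 y2
  have n1 : ‖Dx F (F.symm ζ)‖ ^ 2 = (Dx F (F.symm ζ)).re ^ 2 + (Dx F (F.symm ζ)).im ^ 2 := by
    rw [← Complex.normSq_eq_norm_sq, Complex.normSq_apply]; ring
  have n2 : ‖Dy F (F.symm ζ)‖ ^ 2 = (Dy F (F.symm ζ)).re ^ 2 + (Dy F (F.symm ζ)).im ^ 2 := by
    rw [← Complex.normSq_eq_norm_sq, Complex.normSq_apply]; ring
  rw [n1] at f1
  rw [n2] at f3
  rw [e1, e2, e3, f1, f2, f3]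
  set L := Real.exp (2 * Uc ε F w (F.symm ζ)) / ε ^ 2
  set pr := (Dx F (F.symm ζ)).re
  set pi := (Dx F (F.symm ζ)).im
  set qr := (Dy F (F.symm ζ)).re
  set qi := (Dy F (F.symm ζ)).im
  set a' := (Dx F.symm ζ).re
  set b' := (Dx F.symm ζ).im
  set c' := (Dy F.symm ζ).re
  set d' := (Dy F.symm ζ).im
  refine ⟨?_, ?_, ?_⟩
  · have : L * (pr ^ 2 + pi ^ 2) * a' ^ 2 + 2 * (L * (pr * qr + pi * qi)) * (a' * b') +
        L * (qr ^ 2 + qi ^ 2) * b' ^ 2 = L * ((a' * pr + b' * qr) ^ 2 +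
        (a' * pi + b' * qi) ^ 2) := by ring
    rw [this, ← x1, ← x2]; ring
  · have : L * (pr ^ 2 + pi ^ 2) * (a' * c') + (L * (pr * qr + pi * qi)) * (a' * d' + b' * c') +
        L * (qr ^ 2 + qi ^ 2) * (b' * d') = L * ((a' * pr + b' * qr) * (c' * pr + d' * qr) +
        (a' * pi + b' * qi) * (c' * pi + d' * qi)) := by ring
    rw [this, ← x1, ← x2, ← y1, ← y2]; ring
  · have : L * (pr ^ 2 + pi ^ 2) * c' ^ 2 + 2 * (L * (pr * qr + pi * qi)) * (c' * d') +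
        L * (qr ^ 2 + qi ^ 2) * d' ^ 2 = L * ((c' * pr + d' * qr) ^ 2 +
        (c' * pi + d' * qi) ^ 2) := by ring
    rw [this, ← y1, ← y2]; ring

/-- In the coordinate `ζ` the function `u = Uc ∘ F⁻¹` satisfies Liouville's equation. Proof: the form
of `Ns ∘ F⁻¹` is `ε^{-2} e^{2u} (dx² + dy²)` (`form_comp`), its curvature is `-ε²`
(`Geo.curv_III_comp`) and Brioschi's formula for a conformal metric `e^{2v}` gives
`- e^{-2v} Δv`. -/
theorem liouville_u (hr : Realization C H ε a F w) (hg : Geo C ε (F ⁻¹' Lam) w) :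
    ContDiffOn ℝ ∞ (fun ζ => Uc ε F w (F.symm ζ)) Lamᶜ ∧
    ∀ ζ ∈ Lamᶜ, Lap (fun ζ => Uc ε F w (F.symm ζ)) ζ =
      Real.exp (2 * Uc ε F w (F.symm ζ)) := by
  have hmaps : MapsTo F.symm Lamᶜ (F ⁻¹' Lam)ᶜ := by
    intro ζ hζ h
    apply hζ
    simpa using h
  obtain ⟨hsm, hdet⟩ := symm_smooth hr hg
  have hu : ContDiffOn ℝ ∞ (fun ζ => Uc ε F w (F.symm ζ)) Lamᶜ :=
    (contDiffOn_Uc hr hg).comp hsm hmaps
  refine ⟨hu, ?_⟩
  intro ζ hζ
  have hopen : IsOpen Lamᶜ := isClosed_Lam.isOpen_compl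
  have hn := hopen.mem_nhds hζ
  have hK := hg.curv_III_comp hopen hsm hmaps hdet ζ hζ
  have hK2 := gaussK_conformal (g := form (fun y => Ns ε w (F.symm y)))
    (u := fun ζ => Uc ε F w (F.symm ζ)) hg.hε (hu.contDiffAt hn)
    (by filter_upwards [hn] with y hy using (form_symm hr hg hy).1)
    (by filter_upwards [hn] with y hy using (form_symm hr hg hy).2.1)
    (by filter_upwards [hn] with y hy using (form_symm hr hg hy).2.2)
  rw [hK2] at hK
  have hε := hg.hε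
  have he : 0 < Real.exp (2 * Uc ε F w (F.symm ζ)) := Real.exp_pos _
  rw [Real.exp_neg] at hK
  have h3 : Lap (fun ζ => Uc ε F w (F.symm ζ)) ζ * (Real.exp (2 * Uc ε F w (F.symm ζ)))⁻¹ = 1 := by
    have h4 : -ε ^ 2 * (Lap (fun ζ => Uc ε F w (F.symm ζ)) ζ *
      (Real.exp (2 * Uc ε F w (F.symm ζ)))⁻¹) = -ε ^ 2 * 1 := by linarith
    exact mul_left_cancel₀ (by simpa using hε.ne') h4
  field_simp at h3
  exact h3

end Pool.Agent.KK
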