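import Pool.Agent.W_bb4b37_h53.DiffeoB
import Pool.Agent.W_bb4b37_h53.UniqLB

/-!
# The third fundamental form in the conformal coordinate `ζ = F z`; independence of `a` (part C)
-/

set_option autoImplicit false

open Filter Topology Set MeasureTheory Metric
open scoped ContDiff

namespace Pool.Agent.KK

open Pool.Agent.KKS (mink Hyp klein sphere2 sph form gaussK Metric2)

variable {C H ε a : ℝ} {F : ℂ ≃ₜ ℂ} {w : ℂ → ℝ}

/-- Functions of order `n`: `|φ| ≤ K e^{n w}`, `|Dφ| ≤ K e^{(n+1) w}`. -/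
def OrdC (w : ℂ → ℝ) (U : Set ℂ) (n : ℝ) (φ : ℂ → ℂ) : Prop :=
  ∃ K : ℝ, 0 ≤ K ∧ ∀ z ∈ U, DifferentiableAt ℝ φ z ∧ ‖φ z‖ ≤ K * Real.exp (n * w z) ∧
    ‖Dx φ z‖ ≤ K * Real.exp ((n + 1) * w z) ∧ ‖Dy φ z‖ ≤ K * Real.exp ((n + 1) * w z)

variable {U : Set ℂ} {n m : ℝ} {φ ψ : ℂ → ℂ}

theorem OrdC.mul (h1 : OrdC w U n φ) (h2 : OrdC w U m ψ) :
    OrdC w U (n + m) (fun z => φ z * ψ z) := by
  obtain ⟨K, hK, h1⟩ := h1
  obtain ⟨L, hL, h2⟩ := h2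
  refine ⟨2 * K * L, by positivity, fun z hz => ?_⟩
  obtain ⟨d1, a1, b1, c1⟩ := h1 z hz
  obtain ⟨d2, a2, b2, c2⟩ := h2 z hz
  have e0 : Real.exp (n * w z) * Real.exp (m * w z) = Real.exp ((n + m) * w z) := by
    rw [← Real.exp_add]; ring_nf
  have e1 : Real.exp ((n + 1) * w z) * Real.exp (m * w z) = Real.exp ((n + m + 1) * w z) := by
    rw [← Real.exp_add]; ring_nf
  have e2 : Real.exp (n * w z) * Real.exp ((m + 1) * w z) = Real.exp ((n + m + 1) * w z) := by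
    rw [← Real.exp_add]; ring_nf
  refine ⟨d1.mul d2, ?_, ?_, ?_⟩
  · rw [norm_mul, ← e0]
    calc ‖φ z‖ * ‖ψ z‖ ≤ (K * Real.exp (n * w z)) * (L * Real.exp (m * w z)) := by gcongr
      _ = K * L * (Real.exp (n * w z) * Real.exp (m * w z)) := by ring
      _ ≤ 2 * K * L * (Real.exp (n * w z) * Real.exp (m * w z)) := by
        have : 0 ≤ K * L * (Real.exp (n * w z) * Real.exp (m * w z)) := by positivity
        linarith
  · rw [Dx_mul d1 d2]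
    calc ‖Dx φ z * ψ z + φ z * Dx ψ z‖ ≤ ‖Dx φ z‖ * ‖ψ z‖ + ‖φ z‖ * ‖Dx ψ z‖ := by
          refine (norm_add_le _ _).trans ?_
          rw [norm_mul, norm_mul]
      _ ≤ (K * Real.exp ((n + 1) * w z)) * (L * Real.exp (m * w z)) +
          (K * Real.exp (n * w z)) * (L * Real.exp ((m + 1) * w z)) := by gcongr
      _ = K * L * (Real.exp ((n + 1) * w z) * Real.exp (m * w z)) +
          K * L * (Real.exp (n * w z) * Real.exp ((m + 1) * w z)) := by ring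
      _ = 2 * K * L * Real.exp ((n + m + 1) * w z) := by rw [e1, e2]; ring
  · rw [Dy_mul d1 d2]
    calc ‖Dy φ z * ψ z + φ z * Dy ψ z‖ ≤ ‖Dy φ z‖ * ‖ψ z‖ + ‖φ z‖ * ‖Dy ψ z‖ := by
          refine (norm_add_le _ _).trans ?_
          rw [norm_mul, norm_mul]
      _ ≤ (K * Real.exp ((n + 1) * w z)) * (L * Real.exp (m * w z)) +
          (K * Real.exp (n * w z)) * (L * Real.exp ((m + 1) * w z)) := by gcongr
      _ = K * L * (Real.exp ((n + 1) * w z) * Real.exp (m * w z)) +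
          K * L * (Real.exp (n * w z) * Real.exp ((m + 1) * w z)) := by ring
      _ = 2 * K * L * Real.exp ((n + m + 1) * w z) := by rw [e1, e2]; ring

theorem OrdC.add (h1 : OrdC w U n φ) (h2 : OrdC w U n ψ) :
    OrdC w U n (fun z => φ z + ψ z) := by
  obtain ⟨K, hK, h1⟩ := h1
  obtain ⟨L, hL, h2⟩ := h2
  refine ⟨K + L, by positivity, fun z hz => ?_⟩
  obtain ⟨d1, a1, b1, c1⟩ := h1 z hz
  obtain ⟨d2, a2, b2, c2⟩ := h2 z hz
  refine ⟨d1.add d2, ?_, ?_, ?_⟩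
  · refine (norm_add_le _ _).trans ?_
    rw [add_mul]; exact add_le_add a1 a2
  · rw [Dx_add d1 d2]
    refine (norm_add_le _ _).trans ?_
    rw [add_mul]; exact add_le_add b1 b2
  · rw [Dy_add d1 d2]
    refine (norm_add_le _ _).trans ?_
    rw [add_mul]; exact add_le_add c1 c2

theorem OrdC.const (c : ℂ) : OrdC w U 0 (fun _ => c) := by
  refine ⟨‖c‖, norm_nonneg _, fun z hz => ⟨differentiableAt_const _, ?_, ?_, ?_⟩⟩
  · simp
  · rw [Dx_const]; simp; positivity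
  · rw [Dy_const]; simp; positivity

theorem OrdC.congr_ord (h : OrdC w U n φ) (e : n = m) : OrdC w U m φ := e ▸ h

theorem OrdC.cmul (c : ℂ) (h : OrdC w U n φ) : OrdC w U n (fun z => c * φ z) :=
  ((OrdC.const c).mul h).congr_ord (by ring)

theorem OrdC.neg (h : OrdC w U n φ) : OrdC w U n (fun z => - φ z) := by
  have := h.cmul (-1)
  simpa using this

theorem OrdC.sub (h1 : OrdC w U n φ) (h2 : OrdC w U n ψ) :
    OrdC w U n (fun z => φ z - ψ z) := by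
  have := h1.add h2.neg
  simpa [sub_eq_add_neg] using this

theorem Dx_conj {φ : ℂ → ℂ} {z : ℂ} (h : DifferentiableAt ℝ φ z) :
    Dx (fun y => (starRingEnd ℂ) (φ y)) z = (starRingEnd ℂ) (Dx φ z) ∧
    Dy (fun y => (starRingEnd ℂ) (φ y)) z = (starRingEnd ℂ) (Dy φ z) := by
  have h1 : HasFDerivAt (fun y => (starRingEnd ℂ) (φ y))
      ((Complex.conjCLE : ℂ →L[ℝ] ℂ).comp (fderiv ℝ φ z)) z :=
    Complex.conjCLE.toContinuousLinearMap.hasFDerivAt.comp z h.hasFDerivAt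
  constructor
  · unfold Dx; rw [h1.fderiv]; rfl
  · unfold Dy; rw [h1.fderiv]; rfl

theorem OrdC.conj (h : OrdC w U n φ) : OrdC w U n (fun z => (starRingEnd ℂ) (φ z)) := by
  obtain ⟨K, hK, h1⟩ := h
  refine ⟨K, hK, fun z hz => ?_⟩
  obtain ⟨d1, a1, b1, c1⟩ := h1 z hz
  obtain ⟨e1, e2⟩ := Dx_conj d1
  have hd : DifferentiableAt ℝ (fun y => (starRingEnd ℂ) (φ y)) z :=
    Complex.conjCLE.toContinuousLinearMap.differentiableAt.comp z d1
  refine ⟨hd, ?_, ?_, ?_⟩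
  · rwa [RCLike.norm_conj]
  · rw [e1, RCLike.norm_conj]; exact b1
  · rw [e2, RCLike.norm_conj]; exact c1

theorem D_inv {φ : ℂ → ℂ} {z : ℂ} (h : DifferentiableAt ℝ φ z) (h0 : φ z ≠ 0) :
    DifferentiableAt ℝ (fun y => (φ y)⁻¹) z ∧
    Dx (fun y => (φ y)⁻¹) z = - (φ z)⁻¹ * (φ z)⁻¹ * Dx φ z ∧
    Dy (fun y => (φ y)⁻¹) z = - (φ z)⁻¹ * (φ z)⁻¹ * Dy φ z := by
  have hd : DifferentiableAt ℝ (fun y => (φ y)⁻¹) z := h.fun_inv h0
  have hc : ContinuousAt φ z := h.continuousAt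
  have hne : ∀ᶠ y in 𝓝 z, φ y ≠ 0 := hc.eventually_ne h0
  have e : (fun y => φ y * (φ y)⁻¹) =ᶠ[𝓝 z] fun _ => 1 := by
    filter_upwards [hne] with y hy using mul_inv_cancel₀ hy
  refine ⟨hd, ?_, ?_⟩
  · have h1 := Dx_congr e
    rw [Dx_const, Dx_mul h hd] at h1
    have h2 : φ z * Dx (fun y => (φ y)⁻¹) z = - (Dx φ z * (φ z)⁻¹) := by
      linear_combination h1
    calc Dx (fun y => (φ y)⁻¹) z = (φ z)⁻¹ * (φ z * Dx (fun y => (φ y)⁻¹) z) := by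
          rw [← mul_assoc, inv_mul_cancel₀ h0, one_mul]
      _ = _ := by rw [h2]; ring
  · have h1 := Dy_congr e
    rw [Dy_const, Dy_mul h hd] at h1
    have h2 : φ z * Dy (fun y => (φ y)⁻¹) z = - (Dy φ z * (φ z)⁻¹) := by
      linear_combination h1
    calc Dy (fun y => (φ y)⁻¹) z = (φ z)⁻¹ * (φ z * Dy (fun y => (φ y)⁻¹) z) := by
          rw [← mul_assoc, inv_mul_cancel₀ h0, one_mul]
      _ = _ := by rw [h2]; ring

theorem OrdC.inv (h : OrdC w U 0 φ) {c : ℝ} (hc : 0 < c) (hl : ∀ z ∈ U, c ≤ ‖φ z‖) :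
    OrdC w U 0 (fun z => (φ z)⁻¹) := by
  obtain ⟨K, hK, h1⟩ := h
  refine ⟨c⁻¹ + c⁻¹ * c⁻¹ * K, by positivity, fun z hz => ?_⟩
  obtain ⟨d1, a1, b1, c1⟩ := h1 z hz
  have hn : 0 < ‖φ z‖ := lt_of_lt_of_le hc (hl z hz)
  have h0 : φ z ≠ 0 := norm_pos_iff.mp hn
  obtain ⟨e0, e1, e2⟩ := D_inv d1 h0
  have hi : ‖(φ z)⁻¹‖ ≤ c⁻¹ := by
    rw [norm_inv]
    exact inv_anti₀ hc (hl z hz)
  have hp : 0 ≤ c⁻¹ := by positivity
  refine ⟨e0, ?_, ?_, ?_⟩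
  · rw [zero_mul, Real.exp_zero, mul_one]
    have : 0 ≤ c⁻¹ * c⁻¹ * K := by positivity
    linarith
  · rw [e1, norm_mul, norm_mul, norm_neg]
    calc ‖(φ z)⁻¹‖ * ‖(φ z)⁻¹‖ * ‖Dx φ z‖ ≤ c⁻¹ * c⁻¹ * (K * Real.exp ((0 + 1) * w z)) := by
          gcongr
      _ ≤ (c⁻¹ + c⁻¹ * c⁻¹ * K) * Real.exp ((0 + 1) * w z) := by
          have : 0 ≤ c⁻¹ * Real.exp ((0 + 1) * w z) := by positivity
          nlinarith
  · rw [e2, norm_mul, norm_mul, norm_neg]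
    calc ‖(φ z)⁻¹‖ * ‖(φ z)⁻¹‖ * ‖Dy φ z‖ ≤ c⁻¹ * c⁻¹ * (K * Real.exp ((0 + 1) * w z)) := by
          gcongr
      _ ≤ (c⁻¹ + c⁻¹ * c⁻¹ * K) * Real.exp ((0 + 1) * w z) := by
          have : 0 ≤ c⁻¹ * Real.exp ((0 + 1) * w z) := by positivity
          nlinarith

variable {S : Set ℂ}

/-- Differentiability of the data. -/
theorem geo_diff (hg : Geo C ε S w) {z : ℂ} (hz : z ∈ Sᶜ) :
    DifferentiableAt ℝ w z ∧ DifferentiableAt ℝ (Dx w) z ∧ DifferentiableAt ℝ (Dy w) z ∧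
      DifferentiableAt ℝ (Rr ε w) z ∧ DifferentiableAt ℝ (gR ε w) z := by
  have ho : IsOpen Sᶜ := hg.closed.isOpen_compl
  have hx : ContDiffOn ℝ ∞ (Dx w) Sᶜ := contDiffOn_Dx ho hg.smooth (by simp)
  have hy : ContDiffOn ℝ ∞ (Dy w) Sᶜ := contDiffOn_Dy ho hg.smooth (by simp)
  obtain ⟨h1, h2, -, -, -, -⟩ := hg.smooth_all
  have hm := ho.mem_nhds hz
  exact ⟨(hg.smooth.contDiffAt hm).differentiableAt (by simp),
    (hx.contDiffAt hm).differentiableAt (by simp), (hy.contDiffAt hm).differentiableAt (by simp),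
    (h1.contDiffAt hm).differentiableAt (by simp), (h2.contDiffAt hm).differentiableAt (by simp)⟩

theorem ordC_W (hg : Geo C ε S w) :
    OrdC w Sᶜ 1 (fun z => ((Dx w z : ℝ) : ℂ)) ∧ OrdC w Sᶜ 1 (fun z => ((Dy w z : ℝ) : ℂ)) := by
  have hC : 0 ≤ C := by have := hg.hC; linarith
  have e1 : ∀ z : ℂ, Real.exp (w z) = Real.exp (1 * w z) := fun z => by rw [one_mul]
  have e2 : ∀ z : ℂ, Real.exp (w z) ^ 2 = Real.exp ((1 + 1) * w z) := fun z => by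
    rw [← Real.exp_nat_mul]; norm_num
  constructor
  · refine ⟨C, hC, fun z hz => ?_⟩
    obtain ⟨d0, d1, d2, d3, d4⟩ := geo_diff hg hz
    refine ⟨Complex.ofRealCLM.differentiableAt.comp z d1, ?_, ?_, ?_⟩
    · rw [Complex.norm_real, Real.norm_eq_abs, ← e1]
      exact hg.scaled.d1 z hz [true] rfl
    · rw [Dx_ofReal d1, Complex.norm_real, Real.norm_eq_abs, ← e2]
      exact hg.scaled.d2 z hz [true, true] rfl
    · rw [Dy_ofReal d1, Complex.norm_real, Real.norm_eq_abs, ← e2]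
      exact hg.scaled.d2 z hz [false, true] rfl
  · refine ⟨C, hC, fun z hz => ?_⟩
    obtain ⟨d0, d1, d2, d3, d4⟩ := geo_diff hg hz
    refine ⟨Complex.ofRealCLM.differentiableAt.comp z d2, ?_, ?_, ?_⟩
    · rw [Complex.norm_real, Real.norm_eq_abs, ← e1]
      exact hg.scaled.d1 z hz [false] rfl
    · rw [Dx_ofReal d2, Complex.norm_real, Real.norm_eq_abs, ← e2]
      exact hg.scaled.d2 z hz [true, false] rfl
    · rw [Dy_ofReal d2, Complex.norm_real, Real.norm_eq_abs, ← e2]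
      exact hg.scaled.d2 z hz [false, false] rfl

theorem ordC_R (hg : Geo C ε S w) : OrdC w Sᶜ (-1) (fun z => ((Rr ε w z : ℝ) : ℂ)) := by
  have hC1 := hg.hC
  have hε := hg.hε
  refine ⟨ε * C, by positivity, fun z hz => ?_⟩
  obtain ⟨d0, d1, d2, d3, d4⟩ := geo_diff hg hz
  obtain ⟨r1, r2⟩ := hg.Dx_Rr hz
  have hR := hg.Rr_pos z
  have hRe : Rr ε w z = ε * Real.exp (-1 * w z) := by unfold Rr; rw [neg_one_mul]
  have e3 : Real.exp (-1 * w z) * Real.exp (w z) = 1 := by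
    rw [← Real.exp_add]; simp
  have e4 : Real.exp ((-1 + 1) * w z) = 1 := by norm_num
  refine ⟨Complex.ofRealCLM.differentiableAt.comp z d3, ?_, ?_, ?_⟩
  · rw [Complex.norm_real, Real.norm_eq_abs, abs_of_pos hR, hRe]
    have : 0 < Real.exp (-1 * w z) := Real.exp_pos _
    nlinarith [mul_pos hε this]
  · rw [Dx_ofReal d3, Complex.norm_real, Real.norm_eq_abs, r1, abs_mul, abs_neg, abs_of_pos hR,
      hRe, e4, mul_one]
    calc ε * Real.exp (-1 * w z) * |Dx w z| ≤ ε * Real.exp (-1 * w z) * (C * Real.exp (w z)) := by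
          have := hg.scaled.d1 z hz [true] rfl
          simp only [DD_true, DD_nil] at this
          gcongr
      _ = ε * C * (Real.exp (-1 * w z) * Real.exp (w z)) := by ring
      _ = ε * C := by rw [e3, mul_one]
  · rw [Dy_ofReal d3, Complex.norm_real, Real.norm_eq_abs, r2, abs_mul, abs_neg, abs_of_pos hR,
      hRe, e4, mul_one]
    calc ε * Real.exp (-1 * w z) * |Dy w z| ≤ ε * Real.exp (-1 * w z) * (C * Real.exp (w z)) := by
          have := hg.scaled.d1 z hz [false] rfl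
          simp only [DD_false, DD_nil] at this
          gcongr
      _ = ε * C * (Real.exp (-1 * w z) * Real.exp (w z)) := by ring
      _ = ε * C := by rw [e3, mul_one]

theorem ordC_g (hg : Geo C ε S w) : OrdC w Sᶜ 0 (fun z => ((gR ε w z : ℝ) : ℂ)) := by
  obtain ⟨h1, h2⟩ := ordC_W hg
  have hR := ordC_R hg
  have h := (hR.mul hR).mul ((h1.mul h1).add (h2.mul h2))
  have e : (fun z => ((gR ε w z : ℝ) : ℂ)) = fun z => ((Rr ε w z : ℝ) : ℂ) * ((Rr ε w z : ℝ) : ℂ) *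
      (((Dx w z : ℝ) : ℂ) * ((Dx w z : ℝ) : ℂ) + ((Dy w z : ℝ) : ℂ) * ((Dy w z : ℝ) : ℂ)) := by
    funext z
    unfold gR
    push_cast
    ring
  rw [e]
  exact h.congr_ord (by norm_num)

theorem ordC_s (hg : Geo C ε S w) :
    OrdC w Sᶜ 0 (fun z => ((Real.sqrt (1 - gR ε w z) : ℝ) : ℂ)) := by
  have h1 : OrdC w Sᶜ 0 (fun z => ((1 - gR ε w z : ℝ) : ℂ)) := by
    have := (OrdC.const (w := w) (U := Sᶜ) 1).sub (ordC_g hg)
    simpa using this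
  obtain ⟨K, hK, h1⟩ := h1
  refine ⟨K + 1, by positivity, fun z hz => ?_⟩
  obtain ⟨d1, a1, b1, c1⟩ := h1 z hz
  obtain ⟨f0, f1, f2, f3, f4⟩ := geo_diff hg hz
  have hgl := hg.gR_le hz
  have hg0 : 0 ≤ gR ε w z := by unfold gR; positivity
  have hd : DifferentiableAt ℝ (fun y => 1 - gR ε w y) z := (differentiableAt_const _).sub f4
  have hpos : 0 < 1 - gR ε w z := by linarith
  have hs : 1 / 2 ≤ Real.sqrt (1 - gR ε w z) := by
    apply Real.le_sqrt_of_sq_le; linarith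
  have hs1 : Real.sqrt (1 - gR ε w z) ≤ 1 := by
    rw [Real.sqrt_le_iff]; constructor <;> linarith
  have hsq := Real.hasDerivAt_sqrt hpos.ne'
  have hds : DifferentiableAt ℝ (fun y => Real.sqrt (1 - gR ε w y)) z := hd.sqrt hpos.ne'
  have hx := Dx_comp_real hd hsq
  have hy := Dy_comp_real hd hsq
  have hq : |1 / (2 * Real.sqrt (1 - gR ε w z))| ≤ 1 := by
    rw [abs_of_pos (by positivity), div_le_one (by positivity)]
    linarith
  have he : 0 < Real.exp ((0 + 1) * w z) := Real.exp_pos _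
  refine ⟨Complex.ofRealCLM.differentiableAt.comp z hds, ?_, ?_, ?_⟩
  · rw [Complex.norm_real, Real.norm_eq_abs, abs_of_nonneg (Real.sqrt_nonneg _), zero_mul,
      Real.exp_zero, mul_one]
    linarith
  · rw [Dx_ofReal hds, Complex.norm_real, Real.norm_eq_abs, hx, smul_eq_mul, abs_mul]
    rw [Dx_ofReal hd, Complex.norm_real, Real.norm_eq_abs] at b1
    calc |Dx (fun y => 1 - gR ε w y) z| * |1 / (2 * Real.sqrt (1 - gR ε w z))|
        ≤ (K * Real.exp ((0 + 1) * w z)) * 1 := by gcongr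
      _ ≤ (K + 1) * Real.exp ((0 + 1) * w z) := by nlinarith
  · rw [Dy_ofReal hds, Complex.norm_real, Real.norm_eq_abs, hy, smul_eq_mul, abs_mul]
    rw [Dy_ofReal hd, Complex.norm_real, Real.norm_eq_abs] at c1
    calc |Dy (fun y => 1 - gR ε w y) z| * |1 / (2 * Real.sqrt (1 - gR ε w z))|
        ≤ (K * Real.exp ((0 + 1) * w z)) * 1 := by gcongr
      _ ≤ (K + 1) * Real.exp ((0 + 1) * w z) := by nlinarith

theorem ordC_nu (hg : Geo C ε S w) : OrdC w Sᶜ 0 (nu ε w) := by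
  obtain ⟨h1, h2⟩ := ordC_W hg
  have hR := ordC_R hg
  have hs := (OrdC.const (w := w) (U := Sᶜ) 1).add (ordC_s hg)
  have hl : ∀ z ∈ Sᶜ, 1 ≤ ‖(1 : ℂ) + ((Real.sqrt (1 - gR ε w z) : ℝ) : ℂ)‖ := by
    intro z _
    have : (1 : ℂ) + ((Real.sqrt (1 - gR ε w z) : ℝ) : ℂ) =
      ((1 + Real.sqrt (1 - gR ε w z) : ℝ) : ℂ) := by push_cast; ring
    rw [this, Complex.norm_real, Real.norm_eq_abs]
    have h3 := Real.sqrt_nonneg (1 - gR ε w z)
    rw [abs_of_nonneg (by linarith)]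
    linarith
  have hi := hs.inv one_pos hl
  have h3 := h1.add (h2.cmul Complex.I)
  have h := (((hR.mul hR).mul (h3.mul h3)).mul (hi.mul hi)).neg
  have e : nu ε w = fun z => -(((Rr ε w z : ℝ) : ℂ) * ((Rr ε w z : ℝ) : ℂ) *
      ((((Dx w z : ℝ) : ℂ) + Complex.I * ((Dy w z : ℝ) : ℂ)) *
        (((Dx w z : ℝ) : ℂ) + Complex.I * ((Dy w z : ℝ) : ℂ))) *
      ((1 + ((Real.sqrt (1 - gR ε w z) : ℝ) : ℂ))⁻¹ *
        (1 + ((Real.sqrt (1 - gR ε w z) : ℝ) : ℂ))⁻¹)) := by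
    funext z
    have h5 : nu ε w z = -((Rr ε w z : ℝ) : ℂ) ^ 2 *
      (((Dx w z : ℝ) : ℂ) + Complex.I * ((Dy w z : ℝ) : ℂ)) ^ 2 /
      (((1 + Real.sqrt (1 - gR ε w z)) ^ 2 : ℝ) : ℂ) := rfl
    rw [h5]
    push_cast
    rw [div_eq_mul_inv, ← inv_pow]
    ring
  rw [e]
  exact h.congr_ord (by norm_num)

/-- The complex derivatives of `w`. -/
noncomputable def wz (w : ℂ → ℝ) (z : ℂ) : ℂ :=
  2⁻¹ * (((Dx w z : ℝ) : ℂ) - Complex.I * ((Dy w z : ℝ) : ℂ))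

noncomputable def wzb (w : ℂ → ℝ) (z : ℂ) : ℂ :=
  2⁻¹ * (((Dx w z : ℝ) : ℂ) + Complex.I * ((Dy w z : ℝ) : ℂ))

/-- The numerator of `B_ζ̄`. -/
noncomputable def kk (ε : ℝ) (w : ℂ → ℝ) (z : ℂ) : ℂ :=
  (wzb w z - nu ε w z * wz w z) * (1 - nu ε w z * (starRingEnd ℂ) (nu ε w z))⁻¹

theorem nu_norm_le (hg : Geo C ε S w) {z : ℂ} (hz : z ∈ Sᶜ) : ‖nu ε w z‖ ≤ 1 / 2 := by
  have hx : |Dx w z| ≤ C * Real.exp (w z) := hg.scaled.d1 z hz [true] rfl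
  have hy : |Dy w z| ≤ C * Real.exp (w z) := hg.scaled.d1 z hz [false] rfl
  have h1 := nu_le hg.hε.le hx hy
  have h2 : 2 * C ^ 2 * ε ^ 2 ≤ 1 / 2 := by
    have a1 := hg.small
    have a2 := hg.hC
    have a3 := hg.hε
    have a4 : ε ≤ ε * C ^ 2 := le_mul_of_one_le_right a3.le (one_le_pow₀ a2)
    nlinarith
  exact le_trans h1 h2

theorem one_sub_nu (hg : Geo C ε S w) {z : ℂ} (hz : z ∈ Sᶜ) :
    1 - nu ε w z * (starRingEnd ℂ) (nu ε w z) = ((1 - ‖nu ε w z‖ ^ 2 : ℝ) : ℂ) ∧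
      3 / 4 ≤ 1 - ‖nu ε w z‖ ^ 2 := by
  constructor
  · rw [Complex.mul_conj, Complex.normSq_eq_norm_sq]
    push_cast; ring
  · have h1 := nu_norm_le hg hz
    have h2 := norm_nonneg (nu ε w z)
    nlinarith

theorem ordC_k (hg : Geo C ε S w) : OrdC w Sᶜ 1 (kk ε w) := by
  obtain ⟨h1, h2⟩ := ordC_W hg
  have hn := ordC_nu hg
  have hz := (h1.sub (h2.cmul Complex.I)).cmul 2⁻¹
  have hzb := (h1.add (h2.cmul Complex.I)).cmul 2⁻¹
  have hnum := hzb.sub ((hn.mul hz).congr_ord (by norm_num))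
  have hden := (OrdC.const (w := w) (U := Sᶜ) 1).sub ((hn.mul hn.conj).congr_ord (by norm_num))
  have hl : ∀ z ∈ Sᶜ, 3 / 4 ≤ ‖1 - nu ε w z * (starRingEnd ℂ) (nu ε w z)‖ := by
    intro z hz
    obtain ⟨e, h⟩ := one_sub_nu hg hz
    rw [e, Complex.norm_real, Real.norm_eq_abs]
    exact h.trans (le_abs_self _)
  have hi := hden.inv (by norm_num) hl
  exact (hnum.mul hi).congr_ord (by norm_num)

theorem symm_mem {F : ℂ ≃ₜ ℂ} {ζ : ℂ} (hζ : ζ ∈ Lamᶜ) : F.symm ζ ∈ (F ⁻¹' Lam)ᶜ := by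
  intro h
  apply hζ
  simpa using h

/-- Derivatives of the inverse. -/
theorem D_symm (hr : Realization C H ε a F w) (hg : Geo C ε (F ⁻¹' Lam) w) {ζ : ℂ}
    (hζ : ζ ∈ Lamᶜ) : DifferentiableAt ℝ F.symm ζ ∧
    Dz F.symm ζ = (starRingEnd ℂ) (Dz F (F.symm ζ)) /
      (Dz F (F.symm ζ) * (starRingEnd ℂ) (Dz F (F.symm ζ)) *
        (1 - nu ε w (F.symm ζ) * (starRingEnd ℂ) (nu ε w (F.symm ζ)))) ∧
    Dzb F.symm ζ = -(nu ε w (F.symm ζ) * Dz F (F.symm ζ)) /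
      (Dz F (F.symm ζ) * (starRingEnd ℂ) (Dz F (F.symm ζ)) *
        (1 - nu ε w (F.symm ζ) * (starRingEnd ℂ) (nu ε w (F.symm ζ)))) := by
  have hmem := symm_mem (F := F) hζ
  obtain ⟨hsm, -⟩ := symm_smooth hr hg
  have hgd : DifferentiableAt ℝ F.symm ζ :=
    (hsm.contDiffAt (isClosed_Lam.isOpen_compl.mem_nhds hζ)).differentiableAt (by simp)
  have hFd : DifferentiableAt ℝ F (F.symm ζ) :=
    (hr.smoothF.contDiffAt (hg.closed.isOpen_compl.mem_nhds hmem)).differentiableAt (by simp)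
  have hgd' : DifferentiableAt ℝ F.symm (F (F.symm ζ)) := by simpa using hgd
  obtain ⟨e1, e2⟩ := Dz_inverse hFd hgd' (det_F_pos hr hg hmem).2.ne'
    (Eventually.of_forall fun y => by simp)
  rw [F.apply_symm_apply] at e1 e2
  have hJ : ((‖Dz F (F.symm ζ)‖ ^ 2 - ‖Dzb F (F.symm ζ)‖ ^ 2 : ℝ) : ℂ) =
      Dz F (F.symm ζ) * (starRingEnd ℂ) (Dz F (F.symm ζ)) *
        (1 - nu ε w (F.symm ζ) * (starRingEnd ℂ) (nu ε w (F.symm ζ))) := by
    rw [hr.belt _ hmem, norm_mul, (one_sub_nu hg hmem).1, Complex.mul_conj,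
      Complex.normSq_eq_norm_sq]
    push_cast
    ring
  rw [hJ] at e1 e2
  rw [hr.belt _ hmem] at e2
  exact ⟨hgd, e1, e2⟩

/-- The first derivative of the exhaustion function. -/
theorem Dzb_B (hr : Realization C H ε a F w) (hg : Geo C ε (F ⁻¹' Lam) w) {ζ : ℂ}
    (hζ : ζ ∈ Lamᶜ) : Dzb (fun y => ((w (F.symm y) : ℝ) : ℂ)) ζ =
      kk ε w (F.symm ζ) * ((starRingEnd ℂ) (Dz F (F.symm ζ)))⁻¹ := by
  have hmem := symm_mem (F := F) hζ
  obtain ⟨hgd, e1, e2⟩ := D_symm hr hg hζ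
  obtain ⟨d0, -, -, -, -⟩ := geo_diff hg hmem
  have hwc : DifferentiableAt ℝ (fun y => ((w y : ℝ) : ℂ)) (F.symm ζ) :=
    Complex.ofRealCLM.differentiableAt.comp _ d0
  have h1 := Dzb_comp hwc hgd
  have hz : Dz (fun y => ((w y : ℝ) : ℂ)) (F.symm ζ) = wz w (F.symm ζ) := by
    unfold Dz wz
    rw [Dx_ofReal d0, Dy_ofReal d0]
    ring
  have hzb : Dzb (fun y => ((w y : ℝ) : ℂ)) (F.symm ζ) = wzb w (F.symm ζ) := by
    unfold Dzb wzb
    rw [Dx_ofReal d0, Dy_ofReal d0]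
    ring
  rw [h1, hz, hzb, e1, e2]
  have hF0 : Dz F (F.symm ζ) ≠ 0 := hr.ne _ hmem
  have hF1 : (starRingEnd ℂ) (Dz F (F.symm ζ)) ≠ 0 := by simpa using hF0
  obtain ⟨o1, o2⟩ := one_sub_nu hg hmem
  have ho : (1 - nu ε w (F.symm ζ) * (starRingEnd ℂ) (nu ε w (F.symm ζ))) ≠ 0 := by
    rw [o1]
    exact_mod_cast (show (0 : ℝ) < 1 - ‖nu ε w (F.symm ζ)‖ ^ 2 by linarith).ne'
  have ho' : (1 - (starRingEnd ℂ) (nu ε w (F.symm ζ)) * nu ε w (F.symm ζ)) ≠ 0 := by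
    rwa [mul_comm]
  unfold kk
  rw [map_div₀, map_mul, map_mul, map_sub, map_one, map_mul, Complex.conj_conj, Complex.conj_conj]
  have ho2 : Dz F (F.symm ζ) * (starRingEnd ℂ) (Dz F (F.symm ζ)) *
      (1 - nu ε w (F.symm ζ) * (starRingEnd ℂ) (nu ε w (F.symm ζ))) ≠ 0 :=
    mul_ne_zero (mul_ne_zero hF0 hF1) ho
  have ho3 : (starRingEnd ℂ) (Dz F (F.symm ζ)) * Dz F (F.symm ζ) *
      (1 - (starRingEnd ℂ) (nu ε w (F.symm ζ)) * nu ε w (F.symm ζ)) =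
      Dz F (F.symm ζ) * (starRingEnd ℂ) (Dz F (F.symm ζ)) *
      (1 - nu ε w (F.symm ζ) * (starRingEnd ℂ) (nu ε w (F.symm ζ))) := by ring
  rw [ho3]
  generalize (starRingEnd ℂ) (Dz F (F.symm ζ)) = P at *
  generalize (starRingEnd ℂ) (nu ε w (F.symm ζ)) = Q at *
  field_simp
  ring

theorem Dz_congr' {f g : ℂ → ℂ} {z : ℂ} (h : f =ᶠ[𝓝 z] g) : Dz f z = Dz g z ∧ Dzb f z = Dzb g z := by
  unfold Dz Dzb
  rw [Dx_congr h, Dy_congr h]
  exact ⟨rfl, rfl⟩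

/-- The second derivative of the exhaustion function. -/
theorem Dz_Dzb_B (hr : Realization C H ε a F w) (hg : Geo C ε (F ⁻¹' Lam) w) {ζ : ℂ}
    (hζ : ζ ∈ Lamᶜ) : Dz (Dzb (fun y => ((w (F.symm y) : ℝ) : ℂ))) ζ =
      (Dz (kk ε w) (F.symm ζ) - (starRingEnd ℂ) (nu ε w (F.symm ζ)) * Dzb (kk ε w) (F.symm ζ)
        - kk ε w (F.symm ζ) * (starRingEnd ℂ) (Dz (nu ε w) (F.symm ζ))) /
      (Dz F (F.symm ζ) * (starRingEnd ℂ) (Dz F (F.symm ζ)) *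
        (1 - nu ε w (F.symm ζ) * (starRingEnd ℂ) (nu ε w (F.symm ζ)))) := by
  have hmem := symm_mem (F := F) hζ
  have hopen : IsOpen Lamᶜ := isClosed_Lam.isOpen_compl
  have hopen2 : IsOpen (F ⁻¹' Lam)ᶜ := hg.closed.isOpen_compl
  have hn := hopen.mem_nhds hζ
  have hn2 := hopen2.mem_nhds hmem
  obtain ⟨hgd, e1, e2⟩ := D_symm hr hg hζ
  obtain ⟨Kk, -, hk⟩ := ordC_k hg
  obtain ⟨hkd, -⟩ := hk _ hmem
  obtain ⟨Kn, -, hnn⟩ := ordC_nu hg
  obtain ⟨hnd, -⟩ := hnn _ hmem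
  have hzs := contDiffOn_Dz hopen2 hr.smoothF
  have hFz : DifferentiableAt ℝ (Dz F) (F.symm ζ) :=
    (hzs.1.contDiffAt hn2).differentiableAt (by simp)
  have hF0 : Dz F (F.symm ζ) ≠ 0 := hr.ne _ hmem
  have hF1 : (starRingEnd ℂ) (Dz F (F.symm ζ)) ≠ 0 := by simpa using hF0
  have hcd : DifferentiableAt ℝ (fun z => (starRingEnd ℂ) (Dz F z)) (F.symm ζ) :=
    Complex.conjCLE.toContinuousLinearMap.differentiableAt.comp _ hFz
  have hid : DifferentiableAt ℝ (fun z => ((starRingEnd ℂ) (Dz F z))⁻¹) (F.symm ζ) :=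
    hcd.fun_inv hF1
  set h : ℂ → ℂ := fun z => kk ε w z * ((starRingEnd ℂ) (Dz F z))⁻¹ with hh
  have hhd : DifferentiableAt ℝ h (F.symm ζ) := hkd.mul hid
  have ev : Dzb (fun y => ((w (F.symm y) : ℝ) : ℂ)) =ᶠ[𝓝 ζ] fun y => h (F.symm y) := by
    filter_upwards [hn] with y hy
    exact Dzb_B hr hg hy
  rw [(Dz_congr' ev).1, Dz_comp hhd hgd, e1, e2]
  -- derivatives of `k = h · conj F_z`
  have ek : kk ε w =ᶠ[𝓝 (F.symm ζ)] fun z => h z * (starRingEnd ℂ) (Dz F z) := by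
    filter_upwards [hn2] with z hz
    have h0 : (starRingEnd ℂ) (Dz F z) ≠ 0 := by simpa using hr.ne z hz
    rw [hh]
    simp only
    rw [mul_assoc, inv_mul_cancel₀ h0, mul_one]
  have k1 := (Dz_congr' ek).1
  have k2 := (Dz_congr' ek).2
  rw [Dz_mul hhd hcd, Dz_conj] at k1
  rw [Dzb_mul hhd hcd, Dzb_conj] at k2
  -- mixed derivatives
  have hF2 : ContDiffAt ℝ 2 F (F.symm ζ) :=
    (hr.smoothF.contDiffAt hn2).of_le (by exact WithTop.coe_le_coe.2 le_top)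
  have hmix : Dzb (Dz F) (F.symm ζ) = Dz (nu ε w) (F.symm ζ) * Dz F (F.symm ζ) +
      nu ε w (F.symm ζ) * Dz (Dz F) (F.symm ζ) := by
    rw [← Dz_Dzb_comm hF2]
    have eb : Dzb F =ᶠ[𝓝 (F.symm ζ)] fun z => nu ε w z * Dz F z := by
      filter_upwards [hn2] with z hz using hr.belt z hz
    rw [(Dz_congr' eb).1, Dz_mul hnd hFz]
  rw [hmix] at k1
  have hkh : kk ε w (F.symm ζ) = h (F.symm ζ) * (starRingEnd ℂ) (Dz F (F.symm ζ)) :=
    ek.self_of_nhds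
  obtain ⟨o1, o2⟩ := one_sub_nu hg hmem
  rw [k1, k2, hkh]
  have hJc : (starRingEnd ℂ) (Dz F (F.symm ζ) * (starRingEnd ℂ) (Dz F (F.symm ζ)) *
        (1 - nu ε w (F.symm ζ) * (starRingEnd ℂ) (nu ε w (F.symm ζ)))) =
      Dz F (F.symm ζ) * (starRingEnd ℂ) (Dz F (F.symm ζ)) *
        (1 - nu ε w (F.symm ζ) * (starRingEnd ℂ) (nu ε w (F.symm ζ))) := by
    simp only [map_mul, map_sub, map_one, Complex.conj_conj]
    ring
  rw [map_div₀, hJc]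
  simp only [map_add, map_mul, map_neg]
  rw [div_eq_mul_inv, div_eq_mul_inv, div_eq_mul_inv]
  ring

/-- The exhaustion function `B = w ∘ F⁻¹`: `|∇B|² ≤ K e^{2u}`, `|ΔB| ≤ K e^{2u}`. Proof: for
`f = B ∘ F = w`: `B_ζ̄ = (f_c̄ - ν f_c) / ((1 - |ν|²) conj (∂F))` and
`B_ζζ̄ = (∂_c - ν̄ ∂_c̄) [(f_c̄ - ν f_c) / (1 - |ν|²)] / ((1 - |ν|²) |∂F|²)
 - conj (∂_c ν) (f_c̄ - ν f_c) / ((1 - |ν|²)² |∂F|²)`; now `|∇w| ≤ 2 C e^w`, `|D²w| ≤ 4 C e^{2w}`,
`|ν| ≤ 1/4`, `|Dν| ≤ K' e^w` and `e^{2u} = λ e^{2w} / |∂F|²`. Moreover `B → ∞` at `Lam`, locally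
uniformly, and `B` is bounded below. -/
theorem exhaustion (hr : Realization C H ε a F w) (hg : Geo C ε (F ⁻¹' Lam) w) :
    ∃ K : ℝ, 0 < K ∧ ∀ ζ ∈ Lamᶜ,
      (Dx (fun ζ => w (F.symm ζ)) ζ) ^ 2 + (Dy (fun ζ => w (F.symm ζ)) ζ) ^ 2
        ≤ K * Real.exp (2 * Uc ε F w (F.symm ζ)) ∧
      |Lap (fun ζ => w (F.symm ζ)) ζ| ≤ K * Real.exp (2 * Uc ε F w (F.symm ζ)) := by
  obtain ⟨Kk, hKk, hk⟩ := ordC_k hg
  obtain ⟨Kn, hKn, hnn⟩ := ordC_nu hg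
  have hmaps : MapsTo F.symm Lamᶜ (F ⁻¹' Lam)ᶜ := fun ζ hζ => symm_mem hζ
  obtain ⟨hsm, -⟩ := symm_smooth hr hg
  have hBs : ContDiffOn ℝ ∞ (fun ζ => w (F.symm ζ)) Lamᶜ := hr.smoothw.comp hsm hmaps
  have hopen : IsOpen Lamᶜ := isClosed_Lam.isOpen_compl
  refine ⟨16 * Kk ^ 2 + 64 * (Kk + Kk * Kn) + 1, by positivity, fun ζ hζ => ?_⟩
  have hmem := symm_mem (F := F) hζ
  have hn := hopen.mem_nhds hζ
  obtain ⟨hkd, k0, kx, ky⟩ := hk _ hmem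
  obtain ⟨hnd, n0, nx, ny⟩ := hnn _ hmem
  have hF0 : Dz F (F.symm ζ) ≠ 0 := hr.ne _ hmem
  have hP : 0 < ‖Dz F (F.symm ζ)‖ := norm_pos_iff.mpr hF0
  have hB2 : ContDiffAt ℝ 2 (fun ζ => w (F.symm ζ)) ζ :=
    (hBs.contDiffAt hn).of_le (by exact WithTop.coe_le_coe.2 le_top)
  have hBd : ∀ y ∈ Lamᶜ, DifferentiableAt ℝ (fun ζ => w (F.symm ζ)) y := fun y hy =>
    (hBs.contDiffAt (hopen.mem_nhds hy)).differentiableAt (by simp)
  -- the lower bound for `e^{2u}`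
  have he2 : Real.exp (w (F.symm ζ)) ^ 2 / ‖Dz F (F.symm ζ)‖ ^ 2 ≤
      4 * Real.exp (2 * Uc ε F w (F.symm ζ)) := by
    rw [exp_Uc hF0]
    have hs := Real.sqrt_nonneg (1 - gR ε w (F.symm ζ))
    have h1 : 1 ≤ 4 * ((1 + Real.sqrt (1 - gR ε w (F.symm ζ))) / 2) ^ 2 := by nlinarith
    have h2 : 0 ≤ Real.exp (w (F.symm ζ)) ^ 2 / ‖Dz F (F.symm ζ)‖ ^ 2 := by positivity
    calc Real.exp (w (F.symm ζ)) ^ 2 / ‖Dz F (F.symm ζ)‖ ^ 2
        ≤ Real.exp (w (F.symm ζ)) ^ 2 / ‖Dz F (F.symm ζ)‖ ^ 2 *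
          (4 * ((1 + Real.sqrt (1 - gR ε w (F.symm ζ))) / 2) ^ 2) :=
          le_mul_of_one_le_right h2 h1
      _ = _ := by ring
  set E := Real.exp (w (F.symm ζ)) with hE
  set P := ‖Dz F (F.symm ζ)‖ with hPd
  set X := Real.exp (2 * Uc ε F w (F.symm ζ)) with hX
  have hE0 : 0 < E := Real.exp_pos _
  have hX0 : 0 < X := Real.exp_pos _
  have x1 : Real.exp (1 * w (F.symm ζ)) = E := by rw [one_mul]
  have x2 : Real.exp ((1 + 1) * w (F.symm ζ)) = E ^ 2 := by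
    rw [hE, ← Real.exp_nat_mul]; norm_num
  have x3 : Real.exp ((0 + 1) * w (F.symm ζ)) = E := by rw [zero_add, one_mul]
  rw [x1] at k0
  rw [x2] at kx ky
  rw [x3] at nx ny
  have hDzk : ‖Dz (kk ε w) (F.symm ζ)‖ ≤ Kk * E ^ 2 ∧ ‖Dzb (kk ε w) (F.symm ζ)‖ ≤ Kk * E ^ 2 := by
    unfold Dz Dzb
    constructor
    · rw [norm_div, Complex.norm_ofNat]
      have := norm_sub_le (Dx (kk ε w) (F.symm ζ)) (Complex.I * Dy (kk ε w) (F.symm ζ))
      rw [norm_mul, Complex.norm_I, one_mul] at this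
      linarith
    · rw [norm_div, Complex.norm_ofNat]
      have := norm_add_le (Dx (kk ε w) (F.symm ζ)) (Complex.I * Dy (kk ε w) (F.symm ζ))
      rw [norm_mul, Complex.norm_I, one_mul] at this
      linarith
  have hDzn : ‖Dz (nu ε w) (F.symm ζ)‖ ≤ Kn * E := by
    unfold Dz
    rw [norm_div, Complex.norm_ofNat]
    have := norm_sub_le (Dx (nu ε w) (F.symm ζ)) (Complex.I * Dy (nu ε w) (F.symm ζ))
    rw [norm_mul, Complex.norm_I, one_mul] at this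
    linarith
  have hnu := nu_norm_le hg hmem
  obtain ⟨o1, o2⟩ := one_sub_nu hg hmem
  constructor
  · -- gradient
    have h1 := Dzb_B hr hg hζ
    have h2 : ‖Dzb (fun y => ((w (F.symm y) : ℝ) : ℂ)) ζ‖ ^ 2 =
        ((Dx (fun ζ => w (F.symm ζ)) ζ) ^ 2 + (Dy (fun ζ => w (F.symm ζ)) ζ) ^ 2) / 4 := by
      unfold Dzb
      rw [Dx_ofReal (hBd ζ hζ), Dy_ofReal (hBd ζ hζ), ← Complex.normSq_eq_norm_sq,
        Complex.normSq_apply]
      simp only [Complex.div_ofNat_re, Complex.div_ofNat_im, Complex.add_re, Complex.add_im,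
        Complex.mul_re, Complex.mul_im, Complex.I_re, Complex.I_im, Complex.ofReal_re,
        Complex.ofReal_im]
      ring
    rw [h1, norm_mul, norm_inv, RCLike.norm_conj, ← hPd] at h2
    have h3 : (‖kk ε w (F.symm ζ)‖ * P⁻¹) ^ 2 ≤ Kk ^ 2 * (E ^ 2 / P ^ 2) := by
      have : (‖kk ε w (F.symm ζ)‖ * P⁻¹) ^ 2 ≤ (Kk * E * P⁻¹) ^ 2 := by gcongr
      refine this.trans (le_of_eq ?_)
      field_simp
    have h4 : Kk ^ 2 * (E ^ 2 / P ^ 2) ≤ Kk ^ 2 * (4 * X) := by gcongr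
    have h5 : 0 ≤ 64 * (Kk + Kk * Kn) * X := by positivity
    nlinarith
  · -- Laplacian
    have h1 := Dz_Dzb_B hr hg hζ
    have hB2c : ContDiffAt ℝ 2 (fun y => ((w (F.symm y) : ℝ) : ℂ)) ζ :=
      Complex.ofRealCLM.contDiff.contDiffAt.comp ζ hB2
    have h2 := Lap_eq_Dz_Dzb hB2c
    have h3 : Lap (fun y => ((w (F.symm y) : ℝ) : ℂ)) ζ =
        ((Lap (fun ζ => w (F.symm ζ)) ζ : ℝ) : ℂ) := by
      have hxs : ContDiffOn ℝ ∞ (Dx (fun ζ => w (F.symm ζ))) Lamᶜ :=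
        contDiffOn_Dx hopen hBs (by simp)
      have hys : ContDiffOn ℝ ∞ (Dy (fun ζ => w (F.symm ζ))) Lamᶜ :=
        contDiffOn_Dy hopen hBs (by simp)
      have ex : Dx (fun y => ((w (F.symm y) : ℝ) : ℂ)) =ᶠ[𝓝 ζ]
          fun y => ((Dx (fun ζ => w (F.symm ζ)) y : ℝ) : ℂ) := by
        filter_upwards [hn] with y hy using Dx_ofReal (hBd y hy)
      have ey : Dy (fun y => ((w (F.symm y) : ℝ) : ℂ)) =ᶠ[𝓝 ζ]
          fun y => ((Dy (fun ζ => w (F.symm ζ)) y : ℝ) : ℂ) := by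
        filter_upwards [hn] with y hy using Dy_ofReal (hBd y hy)
      unfold Lap
      rw [Dx_congr ex, Dy_congr ey,
        Dx_ofReal ((hxs.contDiffAt hn).differentiableAt (by simp)),
        Dy_ofReal ((hys.contDiffAt hn).differentiableAt (by simp))]
      push_cast
      rfl
    rw [h3, h1] at h2
    have h4 := congrArg norm h2
    rw [Complex.norm_real, Real.norm_eq_abs, norm_mul, norm_div, norm_mul, norm_mul,
      RCLike.norm_conj, ← hPd, o1, Complex.norm_real, Real.norm_eq_abs, Complex.norm_ofNat] at h4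
    rw [h4]
    set N := ‖Dz (kk ε w) (F.symm ζ) -
      (starRingEnd ℂ) (nu ε w (F.symm ζ)) * Dzb (kk ε w) (F.symm ζ) -
      kk ε w (F.symm ζ) * (starRingEnd ℂ) (Dz (nu ε w) (F.symm ζ))‖ with hN
    have hNle : N ≤ (2 * Kk + Kk * Kn) * E ^ 2 := by
      rw [hN]
      refine (norm_sub_le _ _).trans ?_
      have t1 := norm_sub_le (Dz (kk ε w) (F.symm ζ))
        ((starRingEnd ℂ) (nu ε w (F.symm ζ)) * Dzb (kk ε w) (F.symm ζ))
      rw [norm_mul, RCLike.norm_conj] at t1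
      have t2 : ‖nu ε w (F.symm ζ)‖ * ‖Dzb (kk ε w) (F.symm ζ)‖ ≤ 1 * (Kk * E ^ 2) := by
        gcongr
        · linarith
        · exact hDzk.2
      have t3 : ‖kk ε w (F.symm ζ) * (starRingEnd ℂ) (Dz (nu ε w) (F.symm ζ))‖ ≤
          (Kk * E) * (Kn * E) := by
        rw [norm_mul, RCLike.norm_conj]
        gcongr
      have t4 := hDzk.1
      nlinarith
    have hab : |1 - ‖nu ε w (F.symm ζ)‖ ^ 2| = 1 - ‖nu ε w (F.symm ζ)‖ ^ 2 :=
      abs_of_nonneg (by linarith)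
    rw [hab]
    have hd1 : N / (P * P * (1 - ‖nu ε w (F.symm ζ)‖ ^ 2)) ≤
        (2 * Kk + Kk * Kn) * E ^ 2 / (P * P * (3 / 4)) := by
      have hN0 : 0 ≤ N := norm_nonneg _
      gcongr
    have hd2 : (2 * Kk + Kk * Kn) * E ^ 2 / (P * P * (3 / 4)) =
        (4 / 3) * (2 * Kk + Kk * Kn) * (E ^ 2 / P ^ 2) := by
      field_simp
    have hd3 : (4 / 3) * (2 * Kk + Kk * Kn) * (E ^ 2 / P ^ 2) ≤
        (4 / 3) * (2 * Kk + Kk * Kn) * (4 * X) := by gcongr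
    have hd4 : 4 * (N / (P * P * (1 - ‖nu ε w (F.symm ζ)‖ ^ 2))) ≤
        4 * ((4 / 3) * (2 * Kk + Kk * Kn) * (4 * X)) := by linarith
    refine hd4.trans ?_
    have p1 : 0 ≤ Kk * X := by positivity
    have p2 : 0 ≤ Kk * Kn * X := by positivity
    have p3 : 0 ≤ Kk ^ 2 * X := by positivity
    calc 4 * ((4 / 3) * (2 * Kk + Kk * Kn) * (4 * X))
        = (128 / 3) * (Kk * X) + (64 / 3) * (Kk * Kn * X) := by ring
      _ ≤ 16 * (Kk ^ 2 * X) + 64 * (Kk * X) + 64 * (Kk * Kn * X) + X := by linarith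
      _ = (16 * Kk ^ 2 + 64 * (Kk + Kk * Kn) + 1) * X := by ring

end Pool.Agent.KK
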