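import Pool.Agent.W_bb4b37_h53.Defs

/-!
# Regularity of the limit map: Weyl's lemma and local isothermal coordinates (part A)
-/

set_option autoImplicit false

open Filter Topology Set MeasureTheory Metric
open scoped ContDiff

namespace Pool.Agent.KK

/-! ### Injective holomorphic functions -/

/-- Local `n`-th roots of analytic functions. -/
theorem WeylA_root {g : ℂ → ℂ} {z : ℂ} (hg : AnalyticAt ℂ g z) (h0 : g z ≠ 0) {n : ℕ}
    (hn : n ≠ 0) :
    ∃ h : ℂ → ℂ, AnalyticAt ℂ h z ∧ h z ≠ 0 ∧ ∀ᶠ w in 𝓝 z, g w = h w ^ n := by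
  obtain ⟨c, hc⟩ := IsAlgClosed.exists_pow_nat_eq (g z) (Nat.pos_of_ne_zero hn)
  have hc0 : c ≠ 0 := by
    rintro rfl
    rw [zero_pow hn] at hc
    exact h0 hc.symm
  have hn' : (n : ℂ) ≠ 0 := Nat.cast_ne_zero.2 hn
  have hq : AnalyticAt ℂ (fun w => g w / g z) z := hg.div analyticAt_const h0
  have hlog : AnalyticAt ℂ (fun w => Complex.log (g w / g z)) z := by
    refine hq.clog ?_
    rw [div_self h0]
    exact Complex.one_mem_slitPlane
  refine ⟨fun w => c * Complex.exp (Complex.log (g w / g z) / n), ?_, ?_, ?_⟩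
  · exact analyticAt_const.mul ((hlog.div analyticAt_const hn').cexp)
  · exact mul_ne_zero hc0 (Complex.exp_ne_zero _)
  · filter_upwards [hg.continuousAt.eventually_ne h0] with w hw
    rw [mul_pow, hc, ← Complex.exp_nat_mul, mul_div_cancel₀ _ hn',
      Complex.exp_log (div_ne_zero hw h0), mul_div_cancel₀ _ h0]

/-- An injective holomorphic function on an open set has nonvanishing derivative. -/
theorem deriv_ne_zero_of_injOn {f : ℂ → ℂ} {W : Set ℂ} (hW : IsOpen W)
    (hf : DifferentiableOn ℂ f W) (hi : InjOn f W) {z : ℂ} (hz : z ∈ W) : deriv f z ≠ 0 := by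
  intro hd
  have hWz : W ∈ 𝓝 z := hW.mem_nhds hz
  have ha : AnalyticAt ℂ f z := hf.analyticAt hWz
  have hF : AnalyticAt ℂ (fun w => f w - f z) z := ha.sub analyticAt_const
  have hnt : analyticOrderAt (fun w => f w - f z) z ≠ ⊤ := by
    intro htop
    rw [analyticOrderAt_eq_top] at htop
    have h1 : ∀ᶠ w in 𝓝[≠] z, False := by
      have h2 : ∀ᶠ w in 𝓝[≠] z, f w - f z = 0 := htop.filter_mono nhdsWithin_le_nhds
      have h3 : ∀ᶠ w in 𝓝[≠] z, w ∈ W := nhdsWithin_le_nhds hWz
      filter_upwards [h2, h3, self_mem_nhdsWithin] with w hw1 hw2 hw3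
      exact hw3 (hi hw2 hz (sub_eq_zero.1 hw1))
    exact (Filter.eventually_false_iff_eq_bot.1 h1 ▸ NormedField.nhdsNE_neBot z).ne rfl
  obtain ⟨g, hg, hg0, hfg⟩ := (hF.analyticOrderAt_ne_top).1 hnt
  set n := analyticOrderNatAt (fun w => f w - f z) z with hn
  have hn0 : n ≠ 0 := by
    intro h0
    have h1 := hfg.self_of_nhds
    rw [h0] at h1
    simp only [sub_self, pow_zero, smul_eq_mul, one_mul] at h1
    exact hg0 h1.symm
  have hn1 : n ≠ 1 := by
    intro h0
    have h1 : HasDerivAt (fun w => (w - z) ^ n • g w) (g z) z := by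
      rw [h0]
      have h2 : HasDerivAt (fun w : ℂ => (w - z) * g w) (1 * g z + (z - z) * deriv g z) z :=
        ((hasDerivAt_id z).sub_const z).mul hg.differentiableAt.hasDerivAt
      simp only [sub_self, zero_mul, add_zero, one_mul] at h2
      simpa only [pow_one, smul_eq_mul] using h2
    have h2 : HasDerivAt (fun w => f w - f z) (deriv f z) z :=
      ha.differentiableAt.hasDerivAt.sub_const _
    have h3 := (h1.congr_of_eventuallyEq hfg).unique h2
    exact hg0 (h3.trans hd)
  obtain ⟨h, hh, hh0, hgh⟩ := WeylA_root hg hg0 hn0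
  have hk : HasStrictDerivAt (fun w => (w - z) * h w) (h z) z := by
    have h0 : HasStrictDerivAt (fun w : ℂ => w - z) 1 z := (hasStrictDerivAt_id z).sub_const z
    have h1 : HasStrictDerivAt (fun w => (w - z) * h w) (1 * h z + (z - z) * deriv h z) z :=
      HasStrictDerivAt.mul h0 hh.hasStrictDerivAt
    simpa only [sub_self, zero_mul, add_zero, one_mul] using h1
  have hmap := hk.map_nhds_eq hh0
  simp only [sub_self, zero_mul] at hmap
  have hU : {w | w ∈ W ∧ f w - f z = ((w - z) * h w) ^ n} ∈ 𝓝 z := by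
    filter_upwards [hWz, hfg, hgh] with w h1 h2 h3
    refine ⟨h1, ?_⟩
    rw [h2, h3, smul_eq_mul, mul_pow]
  have hV := hmap ▸ image_mem_map (m := fun w => (w - z) * h w) hU
  obtain ⟨ζ, hζ⟩ : ∃ ζ : ℂ, IsPrimitiveRoot ζ n := ⟨_, Complex.isPrimitiveRoot_exp n hn0⟩
  have hV2 : ∀ᶠ t in 𝓝 (0 : ℂ), ζ * t ∈ (fun w => (w - z) * h w) ''
      {w | w ∈ W ∧ f w - f z = ((w - z) * h w) ^ n} := by
    have hc : Tendsto (fun t : ℂ => ζ * t) (𝓝 0) (𝓝 0) := by
      have h1 : Tendsto (fun t : ℂ => ζ * t) (𝓝 0) (𝓝 (ζ * 0)) := (continuous_const_mul ζ).tendsto 0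
      rwa [mul_zero] at h1
    exact hc hV
  have hne : ∀ᶠ t in 𝓝[≠] (0 : ℂ), False := by
    have h1 : ∀ᶠ t in 𝓝[≠] (0 : ℂ), t ∈ (fun w => (w - z) * h w) ''
      {w | w ∈ W ∧ f w - f z = ((w - z) * h w) ^ n} := nhdsWithin_le_nhds hV
    filter_upwards [h1, hV2.filter_mono nhdsWithin_le_nhds, self_mem_nhdsWithin] with t h2 h3 h4
    obtain ⟨w1, ⟨a1, a2⟩, a3⟩ := h2
    obtain ⟨w2, ⟨b1, b2⟩, b3⟩ := h3
    simp only at a3 b3
    rw [a3] at a2
    rw [b3, mul_pow, hζ.pow_eq_one, one_mul, ← a2] at b2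
    have h5 : w2 = w1 := hi b1 a1 (sub_left_injective b2)
    rw [h5, a3] at b3
    have h6 : ζ = 1 := by
      have h7 : (ζ - 1) * t = 0 := by linear_combination -b3
      rcases mul_eq_zero.1 h7 with h8 | h8
      · exact sub_eq_zero.1 h8
      · exact absurd h8 h4
    have h7 : n = 1 := by
      rw [h6] at hζ
      exact (hζ.unique IsPrimitiveRoot.one)
    exact hn1 h7
  exact (Filter.eventually_false_iff_eq_bot.1 hne ▸ NormedField.nhdsNE_neBot (0 : ℂ)).ne rfl

/-! ### Weyl's lemma -/

open scoped Convolution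

/-- `∂̄ F = 0` and real differentiability give complex differentiability. -/
theorem WeylA_dbar {F : ℂ → ℂ} {x : ℂ} (hF : DifferentiableAt ℝ F x) (h : Dzb F x = 0) :
    DifferentiableAt ℂ F x := by
  have h1 : Dx F x + Complex.I * Dy F x = 0 := by
    have : (Dx F x + Complex.I * Dy F x) / 2 = 0 := h
    simpa using this
  have h2 : Dy F x = Complex.I * Dx F x := by
    linear_combination -Complex.I * h1 + (Dy F x) * Complex.I_mul_I
  have h3 : HasFDerivAt F (ContinuousLinearMap.toSpanSingleton ℂ (Dx F x)) x := by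
    refine hasFDerivAt_of_restrictScalars ℝ hF.hasFDerivAt ?_
    ext1 v
    have hv : v = v.re • (1 : ℂ) + v.im • Complex.I := by
      simp [Complex.re_add_im]
    conv_rhs => rw [hv, map_add, map_smul, map_smul]
    have h4 : fderiv ℝ F x Complex.I = Complex.I * Dx F x := h2
    have h5 : fderiv ℝ F x 1 = Dx F x := rfl
    rw [h4, h5]
    simp only [ContinuousLinearMap.coe_restrictScalars', ContinuousLinearMap.toSpanSingleton_apply,
      smul_eq_mul, Complex.real_smul]
    conv_lhs => rw [← Complex.re_add_im v]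
    ring
  exact h3.differentiableAt

theorem WeylA_conv {g : ℂ → ℂ} (hg : Continuous g) {φ : ℂ → ℝ} (hφ : ContDiff ℝ ∞ φ)
    (hc : HasCompactSupport φ) (x : ℂ) :
    HasFDerivAt (φ ⋆[ContinuousLinearMap.lsmul ℝ ℝ, volume] g)
      ((g ⋆[(ContinuousLinearMap.lsmul ℝ ℝ).flip.precompR ℂ, volume] fderiv ℝ φ) x) x := by
  rw [← convolution_flip]
  exact hc.hasFDerivAt_convolution_right _ hg.locallyIntegrable
    (hφ.of_le (by exact_mod_cast le_top)) x

theorem WeylA_conv_apply {g : ℂ → ℂ} (hg : Continuous g) {φ : ℂ → ℝ} (hφ : ContDiff ℝ ∞ φ)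
    (hc : HasCompactSupport φ) (x v : ℂ) :
    fderiv ℝ (φ ⋆[ContinuousLinearMap.lsmul ℝ ℝ, volume] g) x v =
      ∫ t, (fderiv ℝ φ (x - t) v) • g t := by
  rw [(WeylA_conv hg hφ hc x).fderiv, convolution_precompR_apply _ hg.locallyIntegrable
    (hc.fderiv ℝ) (hφ.continuous_fderiv (by simp))]
  rfl

theorem WeylA_Dzb {g : ℂ → ℂ} (hg : Continuous g) {φ : ℂ → ℝ} (hφ : ContDiff ℝ ∞ φ)
    (hc : HasCompactSupport φ) (x : ℂ) :
    Dzb (φ ⋆[ContinuousLinearMap.lsmul ℝ ℝ, volume] g) x =
      -∫ t, g t * Dzb (fun t => ((φ (x - t) : ℝ) : ℂ)) t := by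
  have hd : ∀ t v : ℂ, fderiv ℝ (fun t => ((φ (x - t) : ℝ) : ℂ)) t v
      = -((fderiv ℝ φ (x - t) v : ℝ) : ℂ) := by
    intro t v
    have h1 : HasFDerivAt φ (fderiv ℝ φ (x - t)) (x - t) :=
      (hφ.differentiable (by simp) _).hasFDerivAt
    have h2 : HasFDerivAt (fun t : ℂ => x - t) (-ContinuousLinearMap.id ℝ ℂ) t :=
      (hasFDerivAt_id t).const_sub x
    have h3 : HasFDerivAt (fun t => φ (x - t)) ((fderiv ℝ φ (x - t)).comp
      (-ContinuousLinearMap.id ℝ ℂ)) t := HasFDerivAt.comp t h1 h2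
    have h4 : HasFDerivAt (fun t => ((φ (x - t) : ℝ) : ℂ)) (Complex.ofRealCLM.comp
      ((fderiv ℝ φ (x - t)).comp (-ContinuousLinearMap.id ℝ ℂ))) t :=
      Complex.ofRealCLM.hasFDerivAt.comp t h3
    rw [h4.fderiv]
    simp
  have hcont : ∀ v : ℂ, Continuous fun t => fderiv ℝ φ (x - t) v := by
    intro v
    have h1 : Continuous (fderiv ℝ φ) := hφ.continuous_fderiv (by simp)
    exact (h1.comp (continuous_const.sub continuous_id)).clm_apply continuous_const
  have hcs : ∀ v : ℂ, HasCompactSupport fun t => fderiv ℝ φ (x - t) v := by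
    intro v
    have h1 : HasCompactSupport (fun t => fderiv ℝ φ t v) := by
      refine (hc.fderiv ℝ).comp_left (g := fun L : ℂ →L[ℝ] ℝ => L v) ?_
      simp
    exact h1.comp_homeomorph (Homeomorph.subLeft x)
  have hint : ∀ v : ℂ, Integrable (fun t => (fderiv ℝ φ (x - t) v) • g t) := by
    intro v
    refine ((hcont v).smul hg).integrable_of_hasCompactSupport ?_
    exact (hcs v).smul_right
  have e : ∀ t, g t * Dzb (fun t => ((φ (x - t) : ℝ) : ℂ)) t =
      -((fderiv ℝ φ (x - t) 1) • g t + Complex.I * ((fderiv ℝ φ (x - t) Complex.I) • g t)) / 2 := by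
    intro t
    unfold Dzb Dx Dy
    rw [hd, hd, Complex.real_smul, Complex.real_smul]
    ring
  have e2 : (∫ t, g t * Dzb (fun t => ((φ (x - t) : ℝ) : ℂ)) t) =
      -((∫ t, (fderiv ℝ φ (x - t) 1) • g t)
        + Complex.I * ∫ t, (fderiv ℝ φ (x - t) Complex.I) • g t) / 2 := by
    rw [integral_congr_ae (Eventually.of_forall e), integral_div, integral_neg,
      integral_add (hint 1) ((hint Complex.I).const_mul _), integral_const_mul]
  rw [e2]
  unfold Dzb Dx Dy
  rw [WeylA_conv_apply hg hφ hc, WeylA_conv_apply hg hφ hc]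
  ring

/-- **Weyl's lemma for `∂̄`.** A continuous function `f` on the open set `W` with
`∫ f ∂̄ψ = 0` for all smooth `ψ` with compact support in `W` is holomorphic on `W`.
Proof: for a mollifier `moll_ε` the function `f * moll_ε` is smooth and its `∂̄` derivative
vanishes at points of distance `> ε` from the complement of `W` (take `ψ = moll_ε (z - ·)`), so it
is holomorphic there; let `ε → 0` (locally uniform limits of holomorphic functions are
holomorphic). -/
theorem weyl {f : ℂ → ℂ} {W : Set ℂ} (hW : IsOpen W) (hf : ContinuousOn f W)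
    (h : ∀ ψ : ℂ → ℂ, ContDiff ℝ ∞ ψ → HasCompactSupport ψ → tsupport ψ ⊆ W →
      ∫ z, f z * Dzb ψ z = 0) : DifferentiableOn ℂ f W := by
  intro z0 hz0
  obtain ⟨r, hr, hrW⟩ := Metric.isOpen_iff.1 hW z0 hz0
  -- cut-off
  let χ : ContDiffBump z0 := ⟨r / 2, 3 * r / 4, by positivity, by linarith⟩
  have hχs : tsupport χ ⊆ W := by
    rw [χ.tsupport_eq]
    exact (closedBall_subset_ball (by show 3 * r / 4 < r; linarith)).trans hrW
  obtain ⟨g, hgd⟩ : ∃ g : ℂ → ℂ, g = fun z => (χ z : ℝ) • f z := ⟨_, rfl⟩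
  have hgc : Continuous g := by
    rw [hgd, continuous_iff_continuousAt]
    intro z
    by_cases hz : z ∈ tsupport χ
    · exact χ.continuous.continuousAt.smul (hf.continuousAt (hW.mem_nhds (hχs hz)))
    · have h1 : (fun z => (χ z : ℝ) • f z) =ᶠ[𝓝 z] fun _ => 0 := by
        have h2 : (tsupport χ)ᶜ ∈ 𝓝 z := (isClosed_tsupport _).isOpen_compl.mem_nhds hz
        filter_upwards [h2] with w hw
        rw [image_eq_zero_of_notMem_tsupport hw, zero_smul]
      exact continuousAt_const.congr h1.symm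
  have hgs : HasCompactSupport g := by
    rw [hgd]
    exact χ.hasCompactSupport.smul_right
  have hgf : ∀ z ∈ closedBall z0 (r / 2), g z = f z := by
    intro z hz
    rw [hgd]
    simp only
    rw [χ.one_of_mem_closedBall hz, one_smul]
  have hgu : UniformContinuous g := hgs.uniformContinuous_of_continuous hgc
  -- mollifiers
  let φ : ℕ → ContDiffBump (0 : ℂ) := fun n =>
    ⟨1 / (2 * (n + 1)), 1 / (n + 1), by positivity, by
      have : (0 : ℝ) < n + 1 := by positivity
      rw [div_lt_div_iff₀ (by positivity) this]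
      linarith⟩
  have hφr : Tendsto (fun n => (φ n).rOut) atTop (𝓝 0) := tendsto_one_div_add_atTop_nhds_zero_nat
  -- the mollified functions
  let F : ℕ → ℂ → ℂ := fun n => (φ n).normed volume ⋆[ContinuousLinearMap.lsmul ℝ ℝ, volume] g
  have hFd : ∀ n x, DifferentiableAt ℝ (F n) x := fun n x =>
    (WeylA_conv hgc (φ n).contDiff_normed (φ n).hasCompactSupport_normed x).differentiableAt
  have hF0 : ∀ᶠ n in atTop, DifferentiableOn ℂ (F n) (ball z0 (r / 4)) := by
    have h1 : ∀ᶠ n in atTop, (φ n).rOut < r / 4 := hφr.eventually_lt_const (by positivity)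
    filter_upwards [h1] with n hn
    intro x hx
    refine (WeylA_dbar (hFd n x) ?_).differentiableWithinAt
    rw [WeylA_Dzb hgc (φ n).contDiff_normed (φ n).hasCompactSupport_normed]
    rw [neg_eq_zero]
    obtain ⟨ψ, hψ⟩ : ∃ ψ : ℂ → ℂ, ψ = fun t => (((φ n).normed volume (x - t) : ℝ) : ℂ) := ⟨_, rfl⟩
    have hψc : ContDiff ℝ ∞ ψ := by
      rw [hψ]
      exact Complex.ofRealCLM.contDiff.comp ((φ n).contDiff_normed.comp
        (contDiff_const.sub contDiff_id))
    have hsub : tsupport ψ ⊆ closedBall x ((φ n).rOut) := by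
      refine closure_minimal ?_ isClosed_closedBall
      intro t ht
      by_contra hcon
      apply ht
      rw [hψ]
      have h2 : x - t ∉ Function.support ((φ n).normed volume) := by
        rw [(φ n).support_normed_eq, mem_ball_zero_iff]
        rw [mem_closedBall, dist_comm, dist_eq_norm] at hcon
        exact fun h3 => hcon h3.le
      rw [Function.notMem_support] at h2
      simp only [h2, Complex.ofReal_zero]
    have hψs : HasCompactSupport ψ := by
      refine HasCompactSupport.of_support_subset_isCompact (isCompact_closedBall x ((φ n).rOut)) ?_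
      exact (subset_tsupport ψ).trans hsub
    have hball : closedBall x ((φ n).rOut) ⊆ closedBall z0 (r / 2) := by
      intro t ht
      rw [mem_closedBall] at ht ⊢
      rw [mem_ball] at hx
      calc dist t z0 ≤ dist t x + dist x z0 := dist_triangle _ _ _
        _ ≤ r / 2 := by linarith
    have hWb : closedBall z0 (r / 2) ⊆ W :=
      (closedBall_subset_ball (by linarith)).trans hrW
    have h5 := h ψ hψc hψs (hsub.trans (hball.trans hWb))
    rw [hψ] at h5
    refine Eq.trans ?_ h5
    refine integral_congr_ae (Eventually.of_forall fun t => ?_)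
    simp only
    by_cases ht : t ∈ tsupport ψ
    · rw [hgf t (hball (hsub ht))]
    · have h6 : Dzb (fun t => (((φ n).normed volume (x - t) : ℝ) : ℂ)) t = 0 := by
        rw [← hψ]
        have h7 : fderiv ℝ ψ t = 0 := by
          have h8 : t ∉ tsupport (fderiv ℝ ψ) := fun h9 => ht (tsupport_fderiv_subset ℝ h9)
          exact image_eq_zero_of_notMem_tsupport h8
        unfold Dzb Dx Dy
        rw [h7]
        simp
      rw [h6, mul_zero, mul_zero]
  have hlim : TendstoLocallyUniformlyOn F g atTop (ball z0 (r / 4)) := by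
    refine (Metric.tendstoUniformlyOn_iff.2 ?_).tendstoLocallyUniformlyOn
    intro ε hε
    obtain ⟨δ, hδ, hδ'⟩ := Metric.uniformContinuous_iff.1 hgu (ε / 2) (by positivity)
    have h1 : ∀ᶠ n in atTop, (φ n).rOut < δ := hφr.eventually_lt_const hδ
    filter_upwards [h1] with n hn x _
    have h2 : dist (F n x) (g x) ≤ ε / 2 := by
      refine (φ n).dist_normed_convolution_le hgc.aestronglyMeasurable ?_
      intro y hy
      rw [mem_ball] at hy
      exact (hδ' (hy.trans hn)).le
    rw [dist_comm]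
    linarith
  have hgd2 : DifferentiableOn ℂ g (ball z0 (r / 4)) := hlim.differentiableOn hF0 isOpen_ball
  have hfin : DifferentiableAt ℂ g z0 :=
    hgd2.differentiableAt (ball_mem_nhds z0 (by positivity))
  refine (hfin.congr_of_eventuallyEq ?_).differentiableWithinAt
  filter_upwards [closedBall_mem_nhds z0 (show (0 : ℝ) < r / 2 by positivity)] with z hz
  exact (hgf z hz).symm

end Pool.Agent.KK
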